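import Pool.Agent.NUF.NF
import Pool.Agent.HexLoop.Bulk
import Pool.Agent.HexLoop.Diff
import Pool.Agent.HexLoop.SDVertB

/-!
TARGET-G2, anchor: the walks from ONE directed edge p of a full domain to its boundary, weights
exp (i wind pi / 8) * xc ^ length, against the gas of nested polygons (two per polygon) around the two faces of p.
-/

set_option autoImplicit false

namespace HexObs

namespace LP

open Complex Finset

/-- the sticks inside E from an edge inside E. -/
theorem sin_in {Ω : Finset Pt} {E : Finset (Pt × Pt)} (hΩ : Full Ω) (hE : E ∈ polys Ω) {p : Pt × Pt} (hp : De p)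
    (h : EIn E p) : Sin Ω E p = SS (inn Ω E) p := by
  have h1 := d8_sin hΩ hE hp
  rw [if_pos h] at h1
  linear_combination h1

/-- there are no sticks inside E from an edge that is not inside E. -/
theorem sin_out {Ω : Finset Pt} {E : Finset (Pt × Pt)} (hE : E ∈ polys Ω) {p : Pt × Pt} (hp : De p)
    (h : ¬ EIn E p) : Sin Ω E p = 0 := by
  classical
  have hE' := mem_polys.1 hE
  unfold Sin
  apply Finset.sum_eq_zero
  intro s hs
  exfalso
  rw [Finset.mem_filter, d8_stk] at hs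
  obtain ⟨⟨_, h2, _, _, _⟩, h6⟩ := hs
  rcases Nat.eq_zero_or_pos s.length with h0 | h0
  · have e : s = [] := List.length_eq_zero_iff.1 h0
    subst e
    exact h h6
  · have hle : De (le p s) := d8_de hp s s.length
    have h7 : Ins E (le p s).1 := (ins_edge hE'.1 hle (h2 _ h0 le_rfl)).2 h6
    have h8 : Ins E (vx p.1 p.2 s 1) := (d8_same hE'.1 hp s s.length h2 h0 le_rfl).1 h7
    have h9 : Ins E (rv p).1 := h8
    exact h ((eIn_rv hE'.1 hp).1 ((ins_edge hE'.1 (d8_rv hp) h8.2.1).1 h9))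

/-- the real part of the phase of a closed polygon. -/
theorem re_e6 (E : Finset (Pt × Pt)) : (e6 E).re = -(√2 / 2) := by
  have hc : Real.cos (6 * (Real.pi / 8)) = -(√2 / 2) := by
    have : 6 * (Real.pi / 8) = Real.pi - Real.pi / 4 := by ring
    rw [this, Real.cos_pi_sub, Real.cos_pi_div_four]
  have h1 : e6 E = Complex.exp (((((6 * sg E : ℤ) : ℝ) * (Real.pi / 8) : ℝ) : ℂ) * I) := by
    unfold e6
    push_cast
    ring_nf
  rw [h1, Complex.exp_ofReal_mul_I_re]
  rcases sg_cases E with h | h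
  · rw [h]
    push_cast
    exact hc
  · rw [h]
    push_cast
    rw [neg_mul, Real.cos_neg]
    exact hc

open Classical in
/-- the real part of the bulk relation in a full domain. -/
theorem re_SS {Ω : Finset Pt} (hΩ : Full Ω) {p : Pt × Pt} (hp : De p) :
    (SS Ω p).re = 1 + (√2 / 2) * ∑ E ∈ polys Ω, (if p ∈ E then xc ^ E.card else 0) +
      ∑ E ∈ polys Ω, (if EIn E p then xc ^ E.card * (SS (inn Ω E) p).re else 0) := by
  have hb := bulk hΩ.1 hp
  have h1 : (∑ E ∈ thr Ω p, (xc : ℂ) ^ E.card * e6 E).re =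
      -((√2 / 2) * ∑ E ∈ polys Ω, (if p ∈ E then xc ^ E.card else 0)) := by
    rw [Complex.re_sum]
    have h2 : ∀ E ∈ thr Ω p, ((xc : ℂ) ^ E.card * e6 E).re = xc ^ E.card * -(√2 / 2) := by
      intro E _
      rw [← Complex.ofReal_pow, Complex.re_ofReal_mul, re_e6]
    rw [Finset.sum_congr rfl h2, ← Finset.sum_mul]
    unfold thr
    rw [Finset.sum_filter]
    ring
  have h3 : (∑ E ∈ polys Ω, (xc : ℂ) ^ E.card * Sin Ω E p).re =
      ∑ E ∈ polys Ω, (if EIn E p then xc ^ E.card * (SS (inn Ω E) p).re else 0) := by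
    rw [Complex.re_sum]
    apply Finset.sum_congr rfl
    intro E hE
    rw [← Complex.ofReal_pow, Complex.re_ofReal_mul]
    split_ifs with h
    · rw [sin_in hΩ hE hp h]
    · rw [sin_out hE hp h, Complex.zero_re, mul_zero]
  rw [hb, Complex.add_re, Complex.sub_re, Complex.one_re, h1, h3]
  ring

/-! the gas of nested polygons around the two faces of an edge -/

lemma an_face (d : Pt) (hd : d ∈ dirs) (c : ZMod 3) (h1 : c ≠ 1) (h2 : c + cl d ≠ 1) :
    c + cl (rotL d) = 1 ∧ c + cl (rotR d) = 1 ∧ rotL d ∈ dirs ∧ rotR d ∈ dirs := by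
  revert d
  revert c
  decide +kernel

/-- the faces of an edge. -/
theorem faces {p : Pt × Pt} (hp : De p) :
    (Fc (p.1 + rotL p.2) ∧ rotL p.2 ∈ dirs) ∧ (Fc (p.1 + rotR p.2) ∧ rotR p.2 ∈ dirs) := by
  obtain ⟨h0, h1, h2⟩ := hp
  unfold Vt at h1 h2
  rw [cl_add] at h2
  have h := an_face p.2 h0 _ h1 h2
  unfold Fc
  rw [cl_add, cl_add]
  exact ⟨⟨h.1, h.2.2.1⟩, h.2.1, h.2.2.2⟩

/-- inside a polygon through a vertex of a face there is no polygon around the face. -/
theorem pf_touch {Ω : Finset Pt} {E : Finset (Pt × Pt)} (hE : IsPoly E) {v d : Pt} (hv : Vt v) (hd : d ∈ dirs)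
    (hf : Fc (v + d)) (hvE : v ∈ VE E) : pf (inn Ω E) (v + d) = ∅ := by
  rw [Finset.eq_empty_iff_forall_notMem]
  intro E' hE'
  obtain ⟨h1, h2⟩ := mem_pf.1 hE'
  rw [mem_polys] at h1
  have h3 : v ∉ VE E' := by
    intro h4
    exact (mem_inn.1 (h1.2 h4)).2.2.1 hvE
  have h5 : Ins E' v := ⟨hv, h3, d, hd, hf, h2⟩
  exact (nested hE h1.1 (fun w hw => (mem_inn.1 (h1.2 hw)).2) h5).2.1 hvE

/-- NF = 1 inside a polygon through the edge. -/
theorem NF_touch {Ω : Finset Pt} {E : Finset (Pt × Pt)} (hE : IsPoly E) {p : Pt × Pt} (hp : De p) (h : p.1 ∈ VE E)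
    (z : ℝ) : NF z (inn Ω E) (p.1 + rotL p.2) = 1 ∧ NF z (inn Ω E) (p.1 + rotR p.2) = 1 := by
  obtain ⟨⟨h1, h2⟩, h3, h4⟩ := faces hp
  constructor
  · rw [NF_rec, pf_touch hE hp.2.1 h2 h1 h, Finset.sum_empty, add_zero]
  · rw [NF_rec, pf_touch hE hp.2.1 h4 h3 h, Finset.sum_empty, add_zero]

/-- the two weights. -/
noncomputable def NN2 (Ω : Finset Pt) (p : Pt × Pt) : ℝ :=
  NF (2 : ℝ) Ω (p.1 + rotL p.2) + NF (2 : ℝ) Ω (p.1 + rotR p.2)

theorem NF2_rec (Ω : Finset Pt) (f : Pt) :
    NF (2 : ℝ) Ω f = 1 + ∑ E ∈ polys Ω, (if Nw E f ≠ 0 then xc ^ E.card * NF (2 : ℝ) (inn Ω E) f else 0) := by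
  classical
  rw [NF_rec]
  congr 1
  unfold pf
  rw [Finset.sum_filter]
  apply Finset.sum_congr rfl
  intro E _
  split_ifs
  · rw [smul_eq_mul]
    ring
  · rfl

lemma an_term {Ω : Finset Pt} {E : Finset (Pt × Pt)} (hE : IsPoly E) {p : Pt × Pt} (hp : De p) (h : p ∈ E) :
    rv p ∉ E ∧ ¬ EIn E p ∧
    (if Nw E (p.1 + rotL p.2) ≠ 0 then xc ^ E.card * NF (2 : ℝ) (inn Ω E) (p.1 + rotL p.2) else 0) +
    (if Nw E (p.1 + rotR p.2) ≠ 0 then xc ^ E.card * NF (2 : ℝ) (inn Ω E) (p.1 + rotR p.2) else 0) =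
      xc ^ E.card := by
  obtain ⟨s1, s2⟩ := side hE h
  have hed := Nw_edge hE hp
  rw [if_pos h] at hed
  have hN := NF_touch (Ω := Ω) hE hp (Finset.mem_image_of_mem _ h) 2
  rw [hN.1, hN.2]
  refine ⟨?_, fun h1 => h1.1 h, ?_⟩
  · intro h1
    rw [if_pos h1, s1, s2] at hed
    split_ifs at hed <;> omega
  · rw [s1, s2]
    by_cases h1 : sg E = 1
    · simp [h1]
    · simp [h1]

open Classical in
/-- the recursion for the two faces of an edge. -/
theorem NN2_rec (Ω : Finset Pt) {p : Pt × Pt} (hp : De p) :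
    NN2 Ω p = 2 + 2 * ∑ E ∈ polys Ω, (if p ∈ E then xc ^ E.card else 0) +
      ∑ E ∈ polys Ω, (if EIn E p then xc ^ E.card * NN2 (inn Ω E) p else 0) := by
  have hrv : ∑ E ∈ polys Ω, (if rv p ∈ E then xc ^ E.card else 0) =
      ∑ E ∈ polys Ω, (if p ∈ E then xc ^ E.card else 0) := by
    apply Finset.sum_nbij' rE rE
    · intro E hE
      rw [mem_polys] at hE ⊢
      exact ⟨isPoly_rE hE.1, by rw [VE_rE hE.1]; exact hE.2⟩
    · intro E hE
      rw [mem_polys] at hE ⊢
      exact ⟨isPoly_rE hE.1, by rw [VE_rE hE.1]; exact hE.2⟩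
    · intro E _
      exact rE_rE E
    · intro E _
      exact rE_rE E
    · intro E _
      rw [card_rE]
      simp only [mem_rE]
  have key : ∀ E ∈ polys Ω,
      (if Nw E (p.1 + rotL p.2) ≠ 0 then xc ^ E.card * NF (2 : ℝ) (inn Ω E) (p.1 + rotL p.2) else 0) +
      (if Nw E (p.1 + rotR p.2) ≠ 0 then xc ^ E.card * NF (2 : ℝ) (inn Ω E) (p.1 + rotR p.2) else 0) =
      (if p ∈ E then xc ^ E.card else 0) + (if rv p ∈ E then xc ^ E.card else 0) +
        (if EIn E p then xc ^ E.card * NN2 (inn Ω E) p else 0) := by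
    intro E hE
    have hE' := (mem_polys.1 hE).1
    by_cases h1 : p ∈ E
    · obtain ⟨h2, h3, h4⟩ := an_term (Ω := Ω) hE' hp h1
      rw [h4, if_pos h1, if_neg h2, if_neg h3]
      ring
    · by_cases h2 : rv p ∈ E
      · obtain ⟨_, h3, h4⟩ := an_term (Ω := Ω) hE' (d8_rv hp) h2
        have e1 : (rv p).1 + rotL (rv p).2 = p.1 + rotR p.2 := by
          unfold rv rotL rotR
          ext <;> simp <;> ring
        have e2 : (rv p).1 + rotR (rv p).2 = p.1 + rotL p.2 := by
          unfold rv rotL rotR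
          ext <;> simp <;> ring
        rw [e1, e2] at h4
        have h5 : ¬ EIn E p := fun h => h3 ((eIn_rv hE' hp).2 h)
        rw [if_neg h1, if_pos h2, if_neg h5, add_comm (ite _ _ _), h4]
        ring
      · have hed := Nw_edge hE' hp
        rw [if_neg h1, if_neg h2, sub_zero, sub_eq_zero] at hed
        rw [if_neg h1, if_neg h2, ← hed]
        by_cases h3 : Nw E (p.1 + rotL p.2) ≠ 0
        · have h4 : EIn E p := ⟨h1, h2, h3⟩
          rw [if_pos h3, if_pos h3, if_pos h4]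
          unfold NN2
          ring
        · have h4 : ¬ EIn E p := fun h => h3 h.2.2
          rw [if_neg h3, if_neg h3, if_neg h4]
          ring
  have h0 : NN2 Ω p = 2 + ∑ E ∈ polys Ω,
      ((if Nw E (p.1 + rotL p.2) ≠ 0 then xc ^ E.card * NF (2 : ℝ) (inn Ω E) (p.1 + rotL p.2) else 0) +
      (if Nw E (p.1 + rotR p.2) ≠ 0 then xc ^ E.card * NF (2 : ℝ) (inn Ω E) (p.1 + rotR p.2) else 0)) := by
    rw [Finset.sum_add_distrib]
    unfold NN2
    rw [NF2_rec Ω (p.1 + rotL p.2), NF2_rec Ω (p.1 + rotR p.2)]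
    ring
  rw [h0, Finset.sum_congr rfl key, Finset.sum_add_distrib, Finset.sum_add_distrib, hrv]
  ring

/-- **the anchor**: the walks from ONE directed edge, both faces. -/
theorem anchor {Ω : Finset Pt} (hΩ : Full Ω) {p : Pt × Pt} (hp : De p) :
    (√2 / 4) * NN2 Ω p ≤ (SS Ω p).re ∧ (SS Ω p).re ≤ NN2 Ω p / 2 := by
  classical
  have hx := xc_pos
  have hs0 : 0 ≤ √2 := Real.sqrt_nonneg 2
  have hs2 : √2 ≤ 2 := by
    rw [Real.sqrt_le_left (by norm_num)]
    norm_num
  have key : ∀ n : ℕ, ∀ Ω : Finset Pt, Ω.card ≤ n → Full Ω →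
      (√2 / 4) * NN2 Ω p ≤ (SS Ω p).re ∧ (SS Ω p).re ≤ NN2 Ω p / 2 := by
    intro n
    induction n with
    | zero =>
      intro Ω h hF
      have e : polys Ω = ∅ := by
        rw [Finset.eq_empty_iff_forall_notMem]
        intro E hE
        have := inn_card hE
        omega
      rw [re_SS hF hp, NN2_rec Ω hp, e]
      simp only [Finset.sum_empty]
      constructor <;> nlinarith
    | succ n ih =>
      intro Ω h hF
      rw [re_SS hF hp, NN2_rec Ω hp]
      have hT : 0 ≤ ∑ E ∈ polys Ω, (if p ∈ E then xc ^ E.card else 0) := by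
        apply Finset.sum_nonneg
        intro E _
        split_ifs
        · positivity
        · exact le_rfl
      have h1 : (√2 / 4) * ∑ E ∈ polys Ω, (if EIn E p then xc ^ E.card * NN2 (inn Ω E) p else 0) ≤
          ∑ E ∈ polys Ω, (if EIn E p then xc ^ E.card * (SS (inn Ω E) p).re else 0) := by
        rw [Finset.mul_sum]
        apply Finset.sum_le_sum
        intro E hE
        have h2 := (ih (inn Ω E) (by have := inn_card hE; omega) (full_inn hF hE)).1
        split_ifs
        · have h3 : 0 ≤ xc ^ E.card := by positivity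
          nlinarith
        · rw [mul_zero]
      have h2 : ∑ E ∈ polys Ω, (if EIn E p then xc ^ E.card * (SS (inn Ω E) p).re else 0) ≤
          (∑ E ∈ polys Ω, (if EIn E p then xc ^ E.card * NN2 (inn Ω E) p else 0)) / 2 := by
        rw [Finset.sum_div]
        apply Finset.sum_le_sum
        intro E hE
        have h2 := (ih (inn Ω E) (by have := inn_card hE; omega) (full_inn hF hE)).2
        split_ifs
        · have h3 : 0 ≤ xc ^ E.card := by positivity
          nlinarith
        · rw [zero_div]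
      constructor <;> nlinarith
  exact key Ω.card Ω le_rfl hΩ

end LP

end HexObs
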