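import Pool.Agent.TC.Flux
import Pool.Agent.BAR.Front

/-!
TARGET-G2, walk side: the words of a strip that start with a half edge of a row have a finite critical weight.
-/

set_option autoImplicit false

namespace HexObs

namespace TC

open Complex Finset Filter

open scoped ENNReal Topology

open LP (nn lv Vt De Par)

lemma g2_le_mul (A B : Set (List Bool)) (R : List Bool → List Bool → Prop) : g2 A B R ≤ gf A * gf B := by
  rw [g2_left]
  calc ∑' s : {s : List Bool // s ∈ A}, wE s.1 * gf {t | t ∈ B ∧ R s.1 t}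
      ≤ ∑' s : {s : List Bool // s ∈ A}, wE s.1 * gf B :=
        ENNReal.tsum_le_tsum fun s => mul_le_mul' le_rfl (gf_mono fun t ht => ht.1)
    _ = gf A * gf B := by
        rw [ENNReal.tsum_mul_right]
        rfl

theorem Chi_fin (m : ℕ) : BAR.Chi m ≠ ⊤ := by
  refine ne_top_of_le_ne_top ?_ (BAR.Chi_le m)
  have h1 : BAR.HH m ≠ ⊤ := PLW.gf_SSt_fin m
  have h2 : BAR.PP m ≠ ⊤ := ne_top_of_le_ne_top (ENNReal.mul_ne_top h1 h1) (g2_le_mul _ _ _)
  exact ENNReal.mul_ne_top (by norm_num) (ENNReal.add_ne_top.2 ⟨h1, h2⟩)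

lemma tf_cons (b : Bool) (s : List Bool) (k : ℕ) : tf (b :: s) (1 + k) = tf s k := by
  unfold tf
  rw [add_comm, List.getD_cons_succ]

lemma vx_consg (u d : Pt) (b : Bool) (s : List Bool) (i : ℕ) :
    vx u d (b :: s) (i + 1) = vx (u + d) (turn b d) s i := by
  unfold vx
  rw [add_comm i 1, vs_shift]
  have e : (fun k => tf (b :: s) (1 + k)) = tf s := by
    funext k
    exact tf_cons b s k
  rw [e]
  rfl

lemma dx_consg (d : Pt) (b : Bool) (s : List Bool) (i : ℕ) : dx d (b :: s) (i + 1) = dx (turn b d) s i := by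
  unfold dx
  rw [add_comm i 1, ds_shift]
  have e : (fun k => tf (b :: s) (1 + k)) = tf s := by
    funext k
    exact tf_cons b s k
  rw [e]
  rfl

lemma turn_neg (b : Bool) (d : Pt) : turn b (-d) = -turn b d := by
  cases b
  · simp only [turn, Bool.false_eq_true, if_false, rotR, Prod.fst_neg, Prod.snd_neg]
    ext <;> simp <;> ring
  · simp only [turn, if_true, rotL, Prod.fst_neg, Prod.snd_neg]
    ext <;> simp <;> ring

lemma dx_negg (d : Pt) (t : List Bool) (i : ℕ) : dx (-d) t i = -dx d t i := by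
  induction i with
  | zero => rfl
  | succ i ih =>
    show turn (tf t i) (dx (-d) t i) = -turn (tf t i) (dx d t i)
    rw [ih, turn_neg]

lemma vx_negg (d : Pt) (t : List Bool) (i : ℕ) : vx oo (-d) t i = -vx oo d t i := by
  induction i with
  | zero => rfl
  | succ i ih =>
    show vx oo (-d) t i + dx (-d) t i = -(vx oo d t i + dx d t i)
    rw [ih, dx_negg]
    abel

/-- the words of the strip of N rows from the half edge (u, d); u may be visited -/
structure SMp (N : ℕ) (u d : Pt) (t : List Bool) : Prop where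
  mem : ∀ i, 1 ≤ i → i ≤ t.length → 0 < lv (vx u d t i) ∧ lv (vx u d t i) < 3 * (N : ℤ) + 2
  inj : ∀ i j, 1 ≤ i → i < j → j ≤ t.length → vx u d t i ≠ vx u d t j

/-- the words of the strip of N rows from the half edge (u, d); u may be visited -/
def SM (N : ℕ) (u d : Pt) : Set (List Bool) := {t | SMp N u d t}

/-- after a vertical half edge: words with an extent of N rows -/
lemma vert_chi {N : ℕ} {w e : Pt} (hw : De (w, e)) (he : e = up ∨ e = -up) {s : List Bool}
    (h1 : ∀ i, i ≤ s.length → 0 < lv (vx w e s i) ∧ lv (vx w e s i) < 3 * (N : ℤ) + 2)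
    (h2 : ∀ i j, i < j → j ≤ s.length → vx w e s i ≠ vx w e s j) :
    s ∈ {t | Saw Set.univ oo up t ∧ BAR.Ext N t} := by
  have hvt : ∀ i, Vt (vx w e s i) := vt_vx hw s
  have hmod : ∀ i, lv (vx w e s i) % 3 ≠ 1 := by
    intro i h
    apply hvt i
    unfold cl
    have h3 : lv (vx w e s i) % 3 = ((vx w e s i).1 - (vx w e s i).2) % 3 := by
      unfold lv
      omega
    rw [h3] at h
    have h4 : (((vx w e s i).1 - (vx w e s i).2 : ℤ) : ZMod 3) = ((1 : ℤ) : ZMod 3) := by
      rw [ZMod.intCast_eq_intCast_iff']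
      simpa using h
    simpa using h4
  rcases he with he | he
  · subst he
    have hv : ∀ i, vx w up s i = w + vx oo up s i := fun i => BAR.vx_base w up s i
    have hl : ∀ i, lv (vx w up s i) = lv w + lev s i := by
      intro i
      rw [hv, ← ip_up, ip_add_left, ip_up]
      rfl
    have hw0 : lv w % 3 = 0 := by
      have h3 := hmod 0
      have h4 := hmod 1
      rw [hl] at h3 h4
      rw [lev_one] at h4
      rw [lev_zero] at h3
      omega
    refine ⟨⟨fun _ _ _ => Set.mem_univ _, fun i j hij hj he => h2 i j hij hj (by rw [hv, hv, he])⟩, -(lv w / 3), fun i hi1 hi2 => ?_⟩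
    have h3 := h1 i hi2
    have h4 := hmod i
    rw [hl] at h3 h4
    constructor
    · omega
    · omega
  · subst he
    have hv : ∀ i, vx w (-up) s i = w - vx oo up s i := by
      intro i
      rw [BAR.vx_base w (-up) s i, vx_negg, sub_eq_add_neg]
    have hl : ∀ i, lv (vx w (-up) s i) = lv w - lev s i := by
      intro i
      rw [hv, ← ip_up, BAR.ip_sub_up, ip_up]
      rfl
    have hw0 : lv w % 3 = 2 := by
      have h3 := hmod 0
      have h4 := hmod 1
      rw [hl] at h3 h4
      rw [lev_one] at h4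
      rw [lev_zero] at h3
      omega
    refine ⟨⟨fun _ _ _ => Set.mem_univ _, fun i j hij hj he => h2 i j hij hj (by rw [hv, hv, he])⟩, lv w / 3 - N, fun i hi1 hi2 => ?_⟩
    have h3 := h1 i hi2
    have h4 := hmod i
    rw [hl] at h3 h4
    constructor
    · omega
    · omega

lemma slant_turn : ∀ d ∈ dirs, ip d up = 1 ∨ ip d up = -1 → ∃ b : Bool, (turn b d = up ∨ turn b d = -up) ∧
    turn (!b) d ∈ dirs ∧ (ip (turn (!b) d) up = 1 ∨ ip (turn (!b) d) up = -1) := by
  decide

lemma turn_De {u d : Pt} (h : De (u, d)) (b : Bool) : De (u + d, turn b d) := by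
  obtain ⟨h0, h1, h2⟩ := h
  refine ⟨?_, h2, ?_⟩
  · show turn b d ∈ dirs
    rw [mem_dirs, nrm_turn]
    exact mem_dirs.1 h0
  · unfold Vt at h1 h2 ⊢
    have h3 := cl_turn b d
    have e : cl (u + d + turn b d) = cl u := by
      rw [cl_add, cl_add, h3]
      ring
    show cl (u + d + turn b d) ≠ 1
    rw [e]
    exact h1

lemma wE_tail {t : List Bool} (h : t ≠ []) : wE t = ENNReal.ofReal xc * wE t.tail := by
  obtain ⟨b, s, rfl⟩ := List.exists_cons_of_ne_nil h
  unfold wE
  rw [List.tail_cons, List.length_cons, pow_succ, mul_comm (xc ^ s.length), ENNReal.ofReal_mul xc_pos.le]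

lemma gf_head {P Q : Set (List Bool)} {b : Bool} (h : ∀ t ∈ P, ∃ s ∈ Q, t = b :: s) :
    gf P ≤ ENNReal.ofReal xc * gf Q := by
  refine gf_le_of_inj List.tail (fun t ht => ?_) (fun t ht t' ht' he => ?_) _ (fun t ht => ?_)
  · obtain ⟨s, hs, rfl⟩ := h t ht
    exact hs
  · obtain ⟨s, hs, rfl⟩ := h t ht
    obtain ⟨s', hs', rfl⟩ := h t' ht'
    rw [List.tail_cons, List.tail_cons] at he
    rw [he]
  · obtain ⟨s, hs, rfl⟩ := h t ht
    rw [wE_tail (by simp)]

lemma SM_tail {N : ℕ} {u d : Pt} {b : Bool} {s : List Bool} (h : SMp N u d (b :: s)) :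
    SMp N (u + d) (turn b d) s ∧
    (∀ i, i ≤ s.length → 0 < lv (vx (u + d) (turn b d) s i) ∧ lv (vx (u + d) (turn b d) s i) < 3 * (N : ℤ) + 2) ∧
    (∀ i j, i < j → j ≤ s.length → vx (u + d) (turn b d) s i ≠ vx (u + d) (turn b d) s j) := by
  have hl : (b :: s).length = s.length + 1 := List.length_cons
  have h1 : ∀ i, i ≤ s.length → 0 < lv (vx (u + d) (turn b d) s i) ∧ lv (vx (u + d) (turn b d) s i) < 3 * (N : ℤ) + 2 := by
    intro i hi
    rw [← vx_consg]
    exact h.mem (i + 1) (by omega) (by omega)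
  have h2 : ∀ i j, i < j → j ≤ s.length → vx (u + d) (turn b d) s i ≠ vx (u + d) (turn b d) s j := by
    intro i j hij hj
    rw [← vx_consg, ← vx_consg]
    exact h.inj (i + 1) (j + 1) (by omega) (by omega) (by omega)
  exact ⟨⟨fun i _ hi => h1 i hi, fun i j _ hij hj => h2 i j hij hj⟩, h1, h2⟩

lemma xc_lt : xc < 3 / 4 := by
  unfold xc
  have h1 : (0.92 : ℝ) < Real.cos (Real.pi / 8) := by
    rw [Real.cos_pi_div_eight]
    have h2 : (1.41 : ℝ) < √2 := by
      rw [Real.lt_sqrt (by norm_num)]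
      norm_num
    have h3 : (1.84 : ℝ) < √(2 + √2) := by
      rw [Real.lt_sqrt (by norm_num)]
      nlinarith
    linarith
  rw [div_lt_div_iff₀ (by linarith) (by norm_num)]
  linarith

/-- **Finite critical weight of the strip words from a row half edge.** -/
theorem SM_fin (N : ℕ) : ∀ n : ℕ, ∀ u d : Pt, De (u, d) → (ip d up = 1 ∨ ip d up = -1) →
    gf {t | SMp N u d t ∧ t.length ≤ n} ≤ 4 * (1 + BAR.Chi N) := by
  have hone : (1 : ℝ≥0∞) ≤ 1 + BAR.Chi N := le_self_add
  have hxc : ENNReal.ofReal xc ≤ 3 / 4 := by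
    have h1 : ENNReal.ofReal xc ≤ ENNReal.ofReal (3 / 4) := ENNReal.ofReal_le_ofReal xc_lt.le
    rwa [ENNReal.ofReal_div_of_pos (by norm_num), ENNReal.ofReal_ofNat, ENNReal.ofReal_ofNat] at h1
  intro n
  induction n with
  | zero =>
    intro u d _ _
    have h1 : {t | SMp N u d t ∧ t.length ≤ 0} ⊆ (({[]} : Finset (List Bool)) : Set (List Bool)) := by
      rintro t ⟨_, h⟩
      rw [Finset.mem_coe, Finset.mem_singleton]
      exact List.length_eq_zero_iff.1 (by omega)
    refine (gf_mono h1).trans ?_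
    rw [gf_finset]
    simp only [Finset.sum_singleton, List.length_nil, pow_zero, ENNReal.ofReal_one]
    calc (1 : ℝ≥0∞) ≤ 1 * (1 + BAR.Chi N) := by rw [one_mul]; exact hone
      _ ≤ 4 * (1 + BAR.Chi N) := mul_le_mul' (by norm_num) le_rfl
  | succ n ih =>
    intro u d hde hd
    obtain ⟨b, hb1, hb2, hb3⟩ := slant_turn d hde.1 hd
    have hsub : {t | SMp N u d t ∧ t.length ≤ n + 1} ⊆ (({[]} : Finset (List Bool)) : Set (List Bool)) ∪
        ({t | ∃ s ∈ {t | Saw Set.univ oo up t ∧ BAR.Ext N t}, t = b :: s} ∪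
        {t | ∃ s ∈ {t | SMp N (u + d) (turn (!b) d) t ∧ t.length ≤ n}, t = (!b) :: s}) := by
      rintro t ⟨h1, h2⟩
      rcases List.eq_nil_or_concat t with h | _
      · left
        rw [Finset.mem_coe, Finset.mem_singleton]
        exact h
      · rcases t with _ | ⟨c, s⟩
        · left
          rw [Finset.mem_coe, Finset.mem_singleton]
        · right
          have h3 := SM_tail h1
          rcases Bool.eq_or_eq_not c b with hc | hc
          · subst hc
            left
            exact ⟨s, vert_chi (turn_De hde c) hb1 h3.2.1 h3.2.2, rfl⟩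
          · subst hc
            right
            refine ⟨s, ⟨h3.1, ?_⟩, rfl⟩
            rw [List.length_cons] at h2
            omega
    refine (gf_mono hsub).trans ((gf_union_le _ _).trans ?_)
    have a1 : gf (({[]} : Finset (List Bool)) : Set (List Bool)) = 1 := by
      rw [gf_finset]
      simp only [Finset.sum_singleton, List.length_nil, pow_zero, ENNReal.ofReal_one]
    have a2 : gf {t | ∃ s ∈ {t | Saw Set.univ oo up t ∧ BAR.Ext N t}, t = b :: s} ≤ BAR.Chi N := by
      refine (gf_head (fun t ht => ht)).trans ?_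
      calc ENNReal.ofReal xc * gf {t | Saw Set.univ oo up t ∧ BAR.Ext N t} ≤ 1 * BAR.Chi N := by
            refine mul_le_mul' (hxc.trans ?_) le_rfl
            rw [ENNReal.div_le_iff (by norm_num) (by norm_num)]
            norm_num
        _ = BAR.Chi N := one_mul _
    have a3 : gf {t | ∃ s ∈ {t | SMp N (u + d) (turn (!b) d) t ∧ t.length ≤ n}, t = (!b) :: s} ≤
        3 / 4 * (4 * (1 + BAR.Chi N)) := by
      refine (gf_head (fun t ht => ht)).trans ?_
      exact mul_le_mul' hxc (ih _ _ (turn_De hde _) hb3)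
    rw [a1]
    calc 1 + gf ({t | ∃ s ∈ {t | Saw Set.univ oo up t ∧ BAR.Ext N t}, t = b :: s} ∪
          {t | ∃ s ∈ {t | SMp N (u + d) (turn (!b) d) t ∧ t.length ≤ n}, t = (!b) :: s})
        ≤ 1 + (BAR.Chi N + 3 / 4 * (4 * (1 + BAR.Chi N))) :=
          add_le_add le_rfl ((gf_union_le _ _).trans (add_le_add a2 a3))
      _ = 4 * (1 + BAR.Chi N) := by
          have e : (3 / 4 : ℝ≥0∞) * (4 * (1 + BAR.Chi N)) = 3 * (1 + BAR.Chi N) := by
            rw [← mul_assoc, ENNReal.div_mul_cancel (by norm_num) (by norm_num)]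
          rw [e]
          ring

theorem gf_SM {N : ℕ} {u d : Pt} (h : De (u, d)) (hd : ip d up = 1 ∨ ip d up = -1) : gf (SM N u d) ≠ ⊤ := by
  have hB : (4 : ℝ≥0∞) * (1 + BAR.Chi N) ≠ ⊤ :=
    ENNReal.mul_ne_top (by norm_num) (ENNReal.add_ne_top.2 ⟨by norm_num, Chi_fin N⟩)
  refine ne_top_of_le_ne_top hB (gf_le_of_finset fun s hs => ?_)
  refine le_trans (gf_mono ?_) (SM_fin N (s.sup List.length) u d h hd)
  intro t ht
  exact ⟨hs ht, Finset.le_sup (f := List.length) (Finset.mem_coe.1 ht)⟩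

end TC

end HexObs
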