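import Pool.Agent.TC.FluxM
import Pool.Agent.TC.StripS
import Pool.Agent.TC.Anchor
import Pool.Agent.NUF.FINU

/-!
TARGET-G2, walk side: the anchor at spin 3/8 in the strip, floor exits only, one direction:
`Re (sum over the words from the upper end of a middle row edge to the floor of exp (i wind pi / 8) xc ^ length)
  ≥ (√2 / 4) NF 2 (PP k M) f0`.
-/

set_option autoImplicit false

namespace HexObs

namespace TC

open Complex Finset Filter

open scoped ENNReal Topology

open LP (nn lv Vt De Par Fc ex0 SS NN2 NF PP f0 Ti)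

open BAR (MF MFp)

lemma mem_ex0 {Ω : Finset Pt} {p : Pt × Pt} {t : List Bool} : t ∈ ex0 Ω p ↔ LP.Arr0 Ω p t ∧ LP.tp p t ∉ Ω := by
  unfold LP.ex0
  rw [Finset.mem_filter, LP.mem_arr0]

/-- the words of the strip that leave it with their last step -/
def Qx (N : ℕ) (u d : Pt) : Set (List Bool) := {t | SMp N u d t ∧ ¬ (0 < lv (tip u d t) ∧ lv (tip u d t) < 3 * (N : ℤ) + 2)}

/-- the words that leave the strip through the ceiling -/
def CE (N : ℕ) (u d : Pt) : Set (List Bool) := {t | SMp N u d t ∧ lv (tip u d t) = 3 * (N : ℤ) + 2}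

theorem tendsto_SS {N : ℕ} {u d : Pt} (hde : De (u, d)) (hd : ip d up = 1 ∨ ip d up = -1) {Ω : ℕ → Finset Pt} (hΩ : Exh N Ω) :
    Tendsto (fun M => SS (Ω M) (u, d)) atTop (𝓝 (∑' t, (Qx N u d).indicator wt t)) := by
  have hP := gf_SM (N := N) hde hd
  refine tendsto_sw (P := SM N u d) (Q := Qx N u d) hP (F := fun M => ex0 (Ω M) (u, d)) ?_ (fun t ht => ht.1) ?_
    (C := 1) (g := wt) (fun t _ => by rw [norm_wt, one_mul])
  · intro M t ht
    rw [mem_ex0] at ht
    exact ⟨fun i h1 h2 => (hΩ.sub M _ (ht.1.mem i h1 h2)).2, ht.1.inj⟩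
  · intro t ht
    filter_upwards [hΩ.path (vx u d t) (vt_vx hde t) (t.length + 1)] with M hM
    rw [mem_ex0]
    have htip := hM (t.length + 1) le_rfl
    constructor
    · rintro ⟨_, h2⟩
      exact ⟨ht, fun h3 => h2 (htip.2 h3)⟩
    · rintro ⟨h1, h2⟩
      exact ⟨⟨fun i hi1 hi2 => (hM i (by omega)).2 (h1.mem i hi1 hi2), h1.inj⟩, fun h3 => h2 (htip.1 h3)⟩

lemma lv_dir {w e : Pt} (h : De (w, e)) : (lv w % 3 = 0 ∧ ((e = up ∧ lv (w + e) = lv w + 2) ∨ lv (w + e) = lv w - 1)) ∨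
    (lv w % 3 = 2 ∧ ((e = -up ∧ lv (w + e) = lv w - 2) ∨ lv (w + e) = lv w + 1)) := by
  obtain ⟨h0, h1, h2⟩ := h
  have key : ∀ v : Pt, Vt v → lv v % 3 ≠ 1 := by
    intro v hv h
    apply hv
    unfold cl
    have h3 : lv v % 3 = (v.1 - v.2) % 3 := by
      unfold lv
      omega
    rw [h3] at h
    have h4 : ((v.1 - v.2 : ℤ) : ZMod 3) = ((1 : ℤ) : ZMod 3) := by
      rw [ZMod.intCast_eq_intCast_iff']
      simpa using h
    simpa using h4
  have h3 := key w h1
  have h4 := key (w + e) h2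
  have h5 : lv (w + e) = lv w + lv e := by
    unfold lv
    simp only [Prod.fst_add, Prod.snd_add]
    ring
  rw [h5] at h4 ⊢
  have h6 : (e = up ∧ lv e = 2) ∨ (e = -up ∧ lv e = -2) ∨ lv e = 1 ∨ lv e = -1 := by
    have : ∀ d ∈ dirs, (d = up ∧ lv d = 2) ∨ (d = -up ∧ lv d = -2) ∨ lv d = 1 ∨ lv d = -1 := by decide
    exact this e h0
  rcases h6 with ⟨h6, h7⟩ | ⟨h6, h7⟩ | h7 | h7
  · left
    refine ⟨by omega, Or.inl ⟨h6, by omega⟩⟩
  · right
    refine ⟨by omega, Or.inl ⟨h6, by omega⟩⟩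
  · right
    refine ⟨by omega, Or.inr (by omega)⟩
  · left
    refine ⟨by omega, Or.inr (by omega)⟩

lemma de_vx {u d : Pt} (h : De (u, d)) (t : List Bool) (i : ℕ) : De (vx u d t i, dx d t i) :=
  ⟨ds_mem h.1 i, vt_vx h t i, vt_vx h t (i + 1)⟩

/-- the exits are floor words or ceiling words -/
lemma Qx_split {N : ℕ} {u d : Pt} (hde : De (u, d)) (h0 : 0 < lv (u + d) ∧ lv (u + d) < 3 * (N : ℤ) + 2) (t : List Bool) :
    t ∈ Qx N u d ↔ t ∈ MF N u d ∨ t ∈ CE N u d := by
  have hlen : ∀ t, t ∈ Qx N u d → 1 ≤ t.length := by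
    intro t ht
    rcases Nat.eq_zero_or_pos t.length with h | h
    · exfalso
      have e : t = [] := List.length_eq_zero_iff.1 h
      subst e
      exact ht.2 h0
    · exact h
  constructor
  · intro ht
    have h1 := hlen t ht
    have h2 := ht.1.mem t.length h1 le_rfl
    have h3 := lv_dir (de_vx hde t t.length)
    have h4 : tip u d t = vx u d t t.length + dx d t t.length := rfl
    have h5 := ht.2
    rw [h4] at h5
    rcases h3 with ⟨a, ⟨b, c⟩ | c⟩ | ⟨a, ⟨b, c⟩ | c⟩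
    · right
      refine ⟨ht.1, ?_⟩
      rw [h4, c]
      omega
    · omega
    · left
      refine ⟨fun i hi1 hi2 => ?_, ht.1.inj, b, ?_⟩
      · rw [ip_up]
        exact ht.1.mem i hi1 hi2
      · have h6 : ip (tip u d t) up = 0 := by
          rw [ip_up, h4]
          omega
        exact h6
    · omega
  · rintro (ht | ht)
    · have ht : MFp N u d t := ht
      refine ⟨⟨fun i hi1 hi2 => ?_, ht.inj⟩, ?_⟩
      · rw [← ip_up]
        exact ht.mem i hi1 hi2
      · have h6 : lv (tip u d t) = 0 := by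
          rw [← ip_up]
          exact ht.flo
        rw [h6]
        omega
    · refine ⟨ht.1, ?_⟩
      rw [ht.2]
      omega

/-- rotation by 180 degrees around the middle of the edge -/
lemma CE_rot {k : ℕ} {u d : Pt} (hde : De (u, d)) (hu : lv (u + u + d) = 6 * k + 5)
    (h0 : 0 < lv (u + d) ∧ lv (u + d) < 6 * (k : ℤ) + 5) (t : List Bool) :
    t ∈ CE (2 * k + 1) u d ↔ t ∈ MF (2 * k + 1) (u + d) (-d) := by
  have hN : 3 * ((2 * k + 1 : ℕ) : ℤ) + 2 = 6 * k + 5 := by
    push_cast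
    ring
  have hv : ∀ i, vx (u + d) (-d) t i = (u + u + d) - vx u d t i := by
    intro i
    rw [BAR.vx_base (u + d) (-d) t i, BAR.vx_base u d t i, vx_negg]
    abel
  have hlv : ∀ i, lv (vx (u + d) (-d) t i) = 6 * k + 5 - lv (vx u d t i) := by
    intro i
    rw [hv, ← ip_up, BAR.ip_sub_up, ip_up, ip_up, hu]
  have htip : vx u d t (t.length + 1) = tip u d t := rfl
  constructor
  · rintro ⟨h1, h2⟩
    rw [hN] at h2
    refine ⟨fun i hi1 hi2 => ?_, fun i j hi hij hj => ?_, ?_, ?_⟩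
    · have h3 := h1.mem i hi1 hi2
      rw [ip_up, hlv]
      rw [hN] at h3 ⊢
      omega
    · rw [hv, hv]
      intro he
      exact h1.inj i j hi hij hj (sub_right_injective he)
    · rw [dx_negg]
      have hlen : 1 ≤ t.length := by
        rcases Nat.eq_zero_or_pos t.length with h | h
        · exfalso
          have e : t = [] := List.length_eq_zero_iff.1 h
          subst e
          have h3 : lv (tip u d []) = lv (u + d) := rfl
          omega
        · exact h
      have h3 := h1.mem t.length hlen le_rfl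
      rw [hN] at h3
      have h4 := lv_dir (de_vx hde t t.length)
      have h5 : tip u d t = vx u d t t.length + dx d t t.length := rfl
      rw [h5] at h2
      rcases h4 with ⟨a, ⟨b, c⟩ | c⟩ | ⟨a, ⟨b, c⟩ | c⟩
      · rw [b]
      · omega
      · omega
      · omega
    · rw [ip_up, hlv, htip, h2, sub_self]
  · intro ht
    have ht : MFp (2 * k + 1) (u + d) (-d) t := ht
    refine ⟨⟨fun i hi1 hi2 => ?_, fun i j hi hij hj => ?_⟩, ?_⟩
    · have h3 := ht.mem i hi1 hi2
      rw [ip_up, hlv] at h3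
      rw [hN] at h3 ⊢
      omega
    · intro he
      apply ht.inj i j hi hij hj
      rw [hv, hv, he]
    · have h3 := ht.flo
      rw [ip_up, hlv, htip] at h3
      rw [hN]
      omega

theorem sum_Qx {k : ℕ} {u d : Pt} (hde : De (u, d)) (hd : ip d up = 1 ∨ ip d up = -1) (hu : lv (u + u + d) = 6 * k + 5)
    (h0 : 0 < lv (u + d) ∧ lv (u + d) < 6 * (k : ℤ) + 5) :
    ∑' t, (Qx (2 * k + 1) u d).indicator wt t = Sfl (2 * k + 1) u d + Sfl (2 * k + 1) (u + d) (-d) := by
  have hN : 3 * ((2 * k + 1 : ℕ) : ℤ) + 2 = 6 * k + 5 := by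
    push_cast
    ring
  have h0' : 0 < lv (u + d) ∧ lv (u + d) < 3 * ((2 * k + 1 : ℕ) : ℤ) + 2 := by
    rw [hN]
    exact h0
  have hP := gf_SM (N := 2 * k + 1) hde hd
  have s1 : gf (MF (2 * k + 1) u d) ≠ ⊤ := by
    refine ne_top_of_le_ne_top hP (gf_mono fun t ht => ?_)
    exact ((Qx_split hde h0' t).2 (Or.inl ht)).1
  have s2 : gf (CE (2 * k + 1) u d) ≠ ⊤ := ne_top_of_le_ne_top hP (gf_mono fun t ht => ht.1)
  have e1 : Sfl (2 * k + 1) (u + d) (-d) = ∑' t, (CE (2 * k + 1) u d).indicator wt t := by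
    unfold Sfl
    apply tsum_congr
    intro t
    have h := CE_rot hde hu h0 t
    by_cases ht : t ∈ CE (2 * k + 1) u d
    · rw [Set.indicator_of_mem ht, Set.indicator_of_mem (h.1 ht)]
    · rw [Set.indicator_of_notMem ht, Set.indicator_of_notMem (fun h1 => ht (h.2 h1))]
  rw [e1]
  unfold Sfl
  rw [← (summable_sw s1).tsum_add (summable_sw s2)]
  apply tsum_congr
  intro t
  have h := Qx_split hde h0' t
  by_cases h1 : t ∈ MF (2 * k + 1) u d
  · have h2 : t ∉ CE (2 * k + 1) u d := by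
      intro h3
      have h4 : lv (tip u d t) = 0 := by
        rw [← ip_up]
        exact h1.flo
      have h5 := h3.2
      omega
    rw [Set.indicator_of_mem (h.2 (Or.inl h1)), Set.indicator_of_mem h1, Set.indicator_of_notMem h2, add_zero]
  · by_cases h2 : t ∈ CE (2 * k + 1) u d
    · rw [Set.indicator_of_mem (h.2 (Or.inr h2)), Set.indicator_of_mem h2, Set.indicator_of_notMem h1, zero_add]
    · have h3 : t ∉ Qx (2 * k + 1) u d := fun h4 => (h.1 h4).elim h1 h2
      rw [Set.indicator_of_notMem h3, Set.indicator_of_notMem h1, Set.indicator_of_notMem h2, add_zero]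

/-- the gas around a face of the middle row -/
lemma NF_face {k M0 : ℕ} {f : Pt} (hf : Fc f) (h1 : lv f = 3 * k + 1 ∨ lv f = 3 * k + 4) {M : ℕ}
    (hM : (M0 : ℤ) + (nn f).natAbs + 1 ≤ M) : NF (2 : ℝ) (PP k M0) f0 ≤ NF (2 : ℝ) (Par (2 * k + 1) M M) f := by
  obtain ⟨z, hz⟩ : ∃ z : Pt, z = f - f0 := ⟨_, rfl⟩
  have hcz : cl z = 0 := by
    have h2 : cl f = cl z + cl f0 := by
      rw [← cl_add, hz, sub_add_cancel]
    have h3 : cl f = 1 := hf
    have h4 : cl f0 = 1 := by decide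
    rw [h3, h4] at h2
    exact (add_eq_right.1 h2.symm)
  have e : NF (2 : ℝ) (PP k M0) f0 = NF (2 : ℝ) (Ti z (PP k M0)) f := by
    have h2 := LP.NF_tr (2 : ℝ) hcz (PP k M0) f0
    rw [← h2]
    congr 1
    rw [hz]
    abel
  rw [e]
  apply LP.NF_mono (by norm_num)
  intro v hv
  rw [LP.mem_Ti, LP.mem_PP] at hv
  rw [LP.mem_par]
  obtain ⟨a, b, c⟩ := hv
  have hvv : Vt v := by
    have := (LP.tr_Vt (z := z) hcz (v := v - z)).2 a
    rwa [sub_add_cancel] at this
  have e1 : lv (v - z) = lv v - lv f + 1 := by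
    rw [hz]
    unfold lv f0
    simp only [Prod.fst_sub, Prod.snd_sub]
    ring
  have e2 : nn (v - z) = nn v - nn f + 1 := by
    rw [hz]
    unfold nn f0
    simp only [Prod.fst_sub, Prod.snd_sub]
    ring
  rw [e1, abs_lt] at b
  rw [e2, abs_lt] at c
  refine ⟨hvv, ?_, ?_, ?_, ?_⟩
  · omega
  · push_cast
    omega
  · omega
  · omega

/-- **The anchor in the strip, both families of exits.** -/
theorem anchor_both {k M0 : ℕ} {u : Pt} (hcu : cl u = 0) (hu : lv u = 3 * k + 3) :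
    (√2 / 2) * NF (2 : ℝ) (PP k M0) f0 ≤ (Sfl (2 * k + 1) u (1, -1) + Sfl (2 * k + 1) (u + (1, -1)) (-1, 1)).re := by
  have hde : De (u, (1, -1)) := by
    refine ⟨by show ((1, -1) : Pt) ∈ dirs; decide, ?_, ?_⟩
    · show Vt u
      unfold Vt
      rw [hcu]
      decide
    · show Vt (u + (1, -1))
      unfold Vt
      rw [cl_add, hcu]
      decide
  have hd : ip ((1, -1) : Pt) up = 1 ∨ ip ((1, -1) : Pt) up = -1 := by decide
  have hw : lv (u + (1, -1)) = 3 * k + 2 := by
    have : lv (u + (1, -1)) = lv u - 1 := by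
      unfold lv
      simp only [Prod.fst_add, Prod.snd_add]
      ring
    rw [this, hu]
    ring
  have hm : lv (u + u + (1, -1)) = 6 * k + 5 := by
    have : lv (u + u + (1, -1)) = lv u + lv u - 1 := by
      unfold lv
      simp only [Prod.fst_add, Prod.snd_add]
      ring
    rw [this, hu]
    ring
  have hneg : -((1, -1) : Pt) = (-1, 1) := by decide
  have hlim := tendsto_SS hde hd (exh_par (2 * k + 1))
  rw [sum_Qx hde hd hm (by rw [hw]; constructor <;> omega), hneg] at hlim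
  have hre := (Complex.continuous_re.tendsto _).comp hlim
  refine ge_of_tendsto hre ?_
  obtain ⟨⟨f1, _⟩, f2, _⟩ := LP.faces hde
  change Fc (u + rotL (1, -1)) at f1
  change Fc (u + rotR (1, -1)) at f2
  filter_upwards [Filter.eventually_ge_atTop (M0 + (nn (u + rotL (1, -1))).natAbs + (nn (u + rotR (1, -1))).natAbs + 1)] with M hM
  have h1 := (LP.anchor (LP.par_full (2 * k + 1) M M) hde).1
  have e1 : rotL ((1, -1) : Pt) = (1, 0) := by decide
  have e2 : rotR ((1, -1) : Pt) = (0, -1) := by decide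
  have g1 : lv (u + rotL (1, -1)) = 3 * k + 4 := by
    rw [e1]
    have : lv (u + (1, 0)) = lv u + 1 := by
      unfold lv
      simp only [Prod.fst_add, Prod.snd_add]
      ring
    rw [this, hu]
    ring
  have g2 : lv (u + rotR (1, -1)) = 3 * k + 1 := by
    rw [e2]
    have : lv (u + (0, -1)) = lv u - 2 := by
      unfold lv
      simp only [Prod.fst_add, Prod.snd_add]
      ring
    rw [this, hu]
    ring
  have h2 := NF_face (M0 := M0) f1 (Or.inr g1) (M := M) (by omega)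
  have h3 := NF_face (M0 := M0) f2 (Or.inl g2) (M := M) (by omega)
  have hs : 0 ≤ √2 := Real.sqrt_nonneg 2
  have h4 : 2 * NF (2 : ℝ) (PP k M0) f0 ≤ NN2 (Par (2 * k + 1) M M) (u, (1, -1)) := by
    unfold LP.NN2
    linarith
  show √2 / 2 * NF (2 : ℝ) (PP k M0) f0 ≤ (SS (Par (2 * k + 1) M M) (u, (1, -1))).re
  nlinarith

/-- **The anchor: floor exits only, ONE direction.** -/
theorem anchor_floor {k M0 : ℕ} {u : Pt} (hcu : cl u = 0) (hu : lv u = 3 * k + 3) :
    (√2 / 4) * NF (2 : ℝ) (PP k M0) f0 ≤ (Sfl (2 * k + 1) u (1, -1)).re := by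
  have h1 := anchor_both (M0 := M0) hcu hu
  have h2 := Sfl_le (N := 2 * k + 1) (r := k) (by omega) hu
  rw [Complex.add_re] at h1
  linarith

/-- the anchor with the exponent 1 / 12 -/
theorem anchor_pow (hL : Pool.Agent.NUF.NFLow) {ε : ℝ} (hε : 0 < ε) : ∃ c : ℝ, 0 < c ∧ ∀ k : ℕ, 1 ≤ k → ∀ u : Pt, cl u = 0 →
    lv u = 3 * k + 3 → c * (k : ℝ) ^ (1 / 12 - ε) ≤ (Sfl (2 * k + 1) u (1, -1)).re := by
  obtain ⟨c, hc, h⟩ := hL ε hε
  have hs : 0 < √2 := Real.sqrt_pos.2 (by norm_num)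
  refine ⟨√2 / 4 * c, by positivity, fun k hk u hcu hu => ?_⟩
  obtain ⟨M, hM⟩ := h k hk
  have h1 := anchor_floor (M0 := M) hcu hu
  have h2 : √2 / 4 * (c * (k : ℝ) ^ (1 / 12 - ε)) ≤ √2 / 4 * NF (2 : ℝ) (PP k M) f0 :=
    mul_le_mul_of_nonneg_left hM (by positivity)
  linarith

end TC

end HexObs
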