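import Pool.Agent.TC.AvgExp

/-!
# The Gaussian average over the number of rows, general rectangle

A function `f` of the number of rows, analytic for `- x π X ≤ Im z ≤ y π X`, of growth
`exp (B - g π² X + (Im z)² / (2 X) - θ Im z)`, `θ = u π`.  The Gaussian sum of its values at the integers is
`≤ exp (B - θ² X / 2 + k π² X)` up to a power of `log m` as soon as
`x² / 2 + u x - 2 x - g ≤ - u² / 2 + k` (lower side) and `(u - y)₊² / 2 - g ≤ k` (upper side).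
-/

set_option autoImplicit false

open Complex Set Filter Topology

namespace TCAvg

/-- admissible parameters -/
def Adm (x y g k u0 : ℝ) : Prop := ∀ u : ℝ, 0 ≤ u → u ≤ u0 →
  x ^ 2 / 2 + u * x - 2 * x - g ≤ -(u ^ 2 / 2) + k ∧ (max (u - y) 0) ^ 2 / 2 - g ≤ k

/-- the lower side -/
lemma low_side {X θ x g k u0 q1 Q : ℝ} (hX : 0 < X) (hθ0 : 0 ≤ θ) (hθ1 : θ ≤ u0 * Real.pi) {y : ℝ}
    (hadm : Adm x y g k u0) (hq : q1 ≤ Q) :
    -(2 * Real.pi * (x * Real.pi * X)) + (q1 + (x * Real.pi * X) ^ 2 / (2 * X) +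
      θ * (x * Real.pi * X)) + (-(g * Real.pi ^ 2 * X)) ≤
      Q + (-(θ ^ 2 * X / 2) + k * Real.pi ^ 2 * X) := by
  have hpi := Real.pi_pos
  have h := (hadm (θ / Real.pi) (by positivity) (by rw [div_le_iff₀ hpi]; exact hθ1)).1
  have h1 : (x * Real.pi * X) ^ 2 / (2 * X) = x ^ 2 * Real.pi ^ 2 / 2 * X := by
    rw [div_eq_iff (by positivity)]; ring
  have h2 : θ = θ / Real.pi * Real.pi := by field_simp
  set u := θ / Real.pi with hu
  rw [h1, h2]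
  have h3 := mul_le_mul_of_nonneg_left h (by positivity : 0 ≤ Real.pi ^ 2 * X)
  nlinarith

/-- the upper side -/
lemma up_side {X θ y g k u0 q Q1 Q2 : ℝ} (hX : 0 < X) (hθ0 : 0 ≤ θ) (hθ1 : θ ≤ u0 * Real.pi) {x : ℝ}
    (hadm : Adm x y g k u0) (hyX : 1 ≤ y * Real.pi * X) (hq : q ≤ Q1) (hQ2 : 0 < Q2)
    (hQ : 1 / (2 * X) ≤ Q2) :
    q + (max 1 (min θ (y * Real.pi) * X)) ^ 2 / (2 * X) - θ * (max 1 (min θ (y * Real.pi) * X)) +
      (-(g * Real.pi ^ 2 * X)) ≤ (Q1 + Q2) + (-(θ ^ 2 * X / 2) + k * Real.pi ^ 2 * X) := by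
  have hpi := Real.pi_pos
  have h := (hadm (θ / Real.pi) (by positivity) (by rw [div_le_iff₀ hpi]; exact hθ1)).2
  have h2 : θ = θ / Real.pi * Real.pi := by field_simp
  have h0 : -g ≤ k := by
    have : 0 ≤ (max (θ / Real.pi - y) 0) ^ 2 / 2 := by positivity
    linarith
  have hgk : -(g * Real.pi ^ 2 * X) ≤ k * Real.pi ^ 2 * X := by
    have := mul_le_mul_of_nonneg_right h0 (by positivity : 0 ≤ Real.pi ^ 2 * X)
    linarith
  rcases le_total θ (y * Real.pi) with hy | hy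
  · rw [min_eq_left hy]
    have := NUI.E2_le hX hθ0 hq hQ2 hQ
    linarith
  · rw [min_eq_right hy, max_eq_right hyX]
    have hyu : y ≤ θ / Real.pi := by rw [le_div_iff₀ hpi]; exact hy
    rw [max_eq_left (by linarith)] at h
    set u := θ / Real.pi with hu
    rw [h2]
    have h3 : (y * Real.pi * X) ^ 2 / (2 * X) = y ^ 2 * Real.pi ^ 2 / 2 * X := by
      rw [div_eq_iff (by positivity)]; ring
    rw [h3]
    have h4 := mul_le_mul_of_nonneg_left h (by positivity : 0 ≤ Real.pi ^ 2 * X)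
    nlinarith

/-- **The Gaussian sum of a function of the number of rows**, general rectangle. -/
theorem gauss_sum {c x y g k u0 : ℝ} (hc : 0 < c) (hx0 : 0 < x) (hx1 : x ≤ 1) (hy0 : 0 < y)
    (hy1 : y ≤ 1) (hg : 0 ≤ g) (hk : 0 ≤ k) (hu1 : u0 ≤ 1) (hadm : Adm x y g k u0) :
    ∃ C > 0, ∀ L ≥ (1 : ℝ), 1 ≤ x * Real.pi * (2 * c * L) → 1 ≤ y * Real.pi * (2 * c * L) →
      ∀ θ : ℝ, 0 ≤ θ → θ ≤ u0 * Real.pi → ∀ N : ℕ, (N : ℝ) ≤ L ^ 2 → L ^ 2 - 1 ≤ N →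
      ∀ (f : ℂ → ℂ) (B : ℝ),
      (∀ z : ℂ, |z.re| ≤ N + 1 / 2 → -(x * Real.pi * (2 * c * L)) ≤ z.im →
        z.im ≤ y * Real.pi * (2 * c * L) → DifferentiableAt ℂ f z ∧
        ‖f z‖ ≤ Real.exp (B - g * Real.pi ^ 2 * (2 * c * L)
          + z.im ^ 2 / (2 * (2 * c * L)) - θ * z.im)) →
      ‖∑ i ∈ Finset.range (2 * N + 1), NUI.ww L ((-(N : ℤ) + i : ℤ) : ℂ) *
          f ((-(N : ℤ) + i : ℤ) : ℂ)‖
        ≤ C * (L ^ 2 + 1) * Real.exp (B - θ ^ 2 * (2 * c * L) / 2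
          + k * Real.pi ^ 2 * (2 * c * L)) := by
  have hpi1 := Real.pi_gt_d2
  have hpi2 := Real.pi_lt_d2
  have hpi := Real.pi_pos
  set C5 : ℝ := 1 / 2 + (1 + 14 * c) ^ 2 / 2 +
        ((1 + 14 * c) ^ 2 / (4 * c) + 32 * c) ^ 2 / 2 with hC5
  refine ⟨4 * Real.exp (25 * c ^ 2) + 4 * Real.exp ((1 + 7 * c) ^ 2 / 2 + 1 / (4 * c)) +
    2 * (1 + 14 * c) * Real.exp C5, by positivity, ?_⟩
  intro L hL hxL hyL θ hθ0 hθ1 N hN1 hN2 f B hf
  have hLp : 0 < L := by linarith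
  have hN0 : (0 : ℝ) ≤ N := Nat.cast_nonneg N
  set X : ℝ := 2 * c * L with hX
  have hXp : 0 < X := by positivity
  set s : ℝ := x * Real.pi * X with hs
  set σ : ℝ := max 1 (min θ (y * Real.pi) * X) with hσ
  have hsp : 0 < s := by positivity
  have hσp : 0 < σ := lt_of_lt_of_le one_pos (le_max_left _ _)
  have hcL : 0 < c * L := by positivity
  have hxπ : x * Real.pi ≤ 3.15 := by nlinarith
  have hyπ : y * Real.pi ≤ 3.15 := by nlinarith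
  have hs_le : s ≤ 7 * c * L := by
    have h1 : s ≤ 3.15 * X := mul_le_mul_of_nonneg_right hxπ hXp.le
    rw [hX] at h1
    linarith
  have hσ_le : σ ≤ (1 + 7 * c) * L := by
    apply max_le
    · nlinarith
    · have h1 : min θ (y * Real.pi) * X ≤ 3.15 * X :=
        mul_le_mul_of_nonneg_right ((min_le_right _ _).trans hyπ) hXp.le
      rw [hX] at h1 ⊢
      linarith
  have hσy : σ ≤ y * Real.pi * X := by
    apply max_le hyL
    exact mul_le_mul_of_nonneg_right (min_le_right _ _) hXp.le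
  have hsσ : s + σ ≤ (1 + 14 * c) * L := by linarith
  have hL2 : 0 < 2 * L ^ 2 := by positivity
  have q1 : s ^ 2 / (2 * L ^ 2) ≤ 25 * c ^ 2 := by
    rw [div_le_iff₀ hL2]
    have h1 : s ^ 2 ≤ (7 * c * L) ^ 2 := pow_le_pow_left₀ hsp.le hs_le 2
    have h2 : 0 ≤ (c * L) ^ 2 := sq_nonneg _
    have h3 : (7 * c * L) ^ 2 = 49 * (c * L) ^ 2 := by ring
    have h4 : 25 * c ^ 2 * (2 * L ^ 2) = 50 * (c * L) ^ 2 := by ring
    linarith
  have q2 : σ ^ 2 / (2 * L ^ 2) ≤ (1 + 7 * c) ^ 2 / 2 := by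
    rw [div_le_iff₀ hL2]
    have : σ ^ 2 ≤ ((1 + 7 * c) * L) ^ 2 := pow_le_pow_left₀ hσp.le hσ_le 2
    linarith
  have q3 : (s + σ) ^ 2 / (2 * L ^ 2) ≤ (1 + 14 * c) ^ 2 / 2 := by
    rw [div_le_iff₀ hL2]
    have : (s + σ) ^ 2 ≤ ((1 + 14 * c) * L) ^ 2 := pow_le_pow_left₀ (by positivity) hsσ 2
    linarith
  have q4 : (s + σ) ^ 2 / (2 * X) ≤ (1 + 14 * c) ^ 2 / (4 * c) * L := by
    have : (s + σ) ^ 2 ≤ ((1 + 14 * c) * L) ^ 2 := pow_le_pow_left₀ (by positivity) hsσ 2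
    rw [div_le_iff₀ (by positivity)]
    calc (s + σ) ^ 2 ≤ ((1 + 14 * c) * L) ^ 2 := this
      _ = (1 + 14 * c) ^ 2 / (4 * c) * L * (2 * X) := by rw [hX]; field_simp; ring
  have hθpi : θ ≤ 3.15 := by nlinarith
  have q5 : θ * s ≤ 22.05 * c * L := by
    have h1 : θ * s ≤ 3.15 * (7 * c * L) := mul_le_mul hθpi hs_le hsp.le (by norm_num)
    linarith
  have hθ2 : θ ^ 2 ≤ 3.15 ^ 2 := pow_le_pow_left₀ hθ0 hθpi 2
  have q6 : θ ^ 2 * X / 2 ≤ 9.95 * c * L := by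
    have h2 : θ ^ 2 * X ≤ 3.15 ^ 2 * X := mul_le_mul_of_nonneg_right hθ2 hXp.le
    have h3 : ((3.15 : ℝ)) ^ 2 * X = 19.845 * (c * L) := by rw [hX]; ring
    rw [h3] at h2
    linarith
  have E1 := low_side (x := x) (Q := 25 * c ^ 2) hXp hθ0 hθ1 hadm q1
  have E2 := up_side (Q2 := 1 / (4 * c)) hXp hθ0 hθ1 hadm hyL q2 (by positivity) (by
    apply one_div_le_one_div_of_le (by positivity)
    rw [hX]
    have := mul_le_mul_of_nonneg_left hL (by positivity : (0 : ℝ) ≤ 4 * c)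
    linarith)
  have E3 : -((N : ℝ) + 1 / 2) ^ 2 / (2 * L ^ 2) + (s + σ) ^ 2 / (2 * L ^ 2)
      + (s + σ) ^ 2 / (2 * X) + θ * s ≤ C5 - θ ^ 2 * X / 2 := by
    have h1 : L ^ 2 / 2 - 1 / 2 ≤ ((N : ℝ) + 1 / 2) ^ 2 / (2 * L ^ 2) := by
      rw [le_div_iff₀ hL2]
      have h0 : 1 ≤ L ^ 2 := one_le_pow₀ hL
      have h2 : 0 ≤ L ^ 2 - 1 / 2 := by linarith
      have h3 : (L ^ 2 - 1 / 2) ^ 2 ≤ ((N : ℝ) + 1 / 2) ^ 2 :=
        pow_le_pow_left₀ h2 (by linarith) 2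
      nlinarith
    have h2 : -((N : ℝ) + 1 / 2) ^ 2 / (2 * L ^ 2) = -(((N : ℝ) + 1 / 2) ^ 2 / (2 * L ^ 2)) := by
      rw [neg_div]
    set C3 := (1 + 14 * c) ^ 2 / (4 * c) + 32 * c with hC3
    have h3 : -(L ^ 2 / 2) + C3 * L ≤ C3 ^ 2 / 2 := by nlinarith [sq_nonneg (L - C3)]
    have h4 : (1 + 14 * c) ^ 2 / (4 * c) * L + 22.05 * c * L + 9.95 * c * L = C3 * L := by
      rw [hC3]; ring
    rw [h2, hC5]
    linarith
  set B' := B - g * Real.pi ^ 2 * X with hB'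
  have hraw := NUI.CF_raw (f := f) (L := L) (X := X) (s := s) (σ := σ) (θ := θ) (B := B')
    N hXp hLp (by rw [hs]; exact hxL) (le_max_left _ _) hθ0 (by
      intro z hz
      obtain ⟨h1, h2, h3, h4⟩ := hz
      exact hf z (abs_le.mpr ⟨h1, h2⟩) h3 (h4.trans hσy))
  refine hraw.trans ?_
  have hgg : 0 ≤ g * Real.pi ^ 2 * X := by positivity
  have hkk : 0 ≤ k * Real.pi ^ 2 * X := by positivity
  set T0 := Real.exp (B - θ ^ 2 * X / 2 + k * Real.pi ^ 2 * X) with hT0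
  have hT0p : 0 < T0 := Real.exp_pos _
  unfold NUI.Ex
  have g1 : Real.exp B' * (2 * Real.exp (-(2 * Real.pi * s)) *
      Real.exp (s ^ 2 / (2 * L ^ 2) + s ^ 2 / (2 * X) + θ * s))
      ≤ 2 * Real.exp (25 * c ^ 2) * T0 := by
    have h1 : Real.exp B' * (2 * Real.exp (-(2 * Real.pi * s)) *
        Real.exp (s ^ 2 / (2 * L ^ 2) + s ^ 2 / (2 * X) + θ * s)) =
        2 * Real.exp (B' + (-(2 * Real.pi * s) +
          (s ^ 2 / (2 * L ^ 2) + s ^ 2 / (2 * X) + θ * s))) := by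
      rw [Real.exp_add B', Real.exp_add (-(2 * Real.pi * s))]; ring
    have h2 : 2 * Real.exp (25 * c ^ 2) * T0 =
        2 * Real.exp (25 * c ^ 2 + (B - θ ^ 2 * X / 2 + k * Real.pi ^ 2 * X)) := by
      rw [hT0, mul_assoc, ← Real.exp_add]
    rw [h1, h2]
    apply mul_le_mul_of_nonneg_left _ (by norm_num)
    apply Real.exp_le_exp.mpr
    rw [hB']
    linarith
  have g2 : Real.exp B' * (2 * Real.exp (σ ^ 2 / (2 * L ^ 2) + σ ^ 2 / (2 * X) - θ * σ))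
      ≤ 2 * Real.exp ((1 + 7 * c) ^ 2 / 2 + 1 / (4 * c)) * T0 := by
    have h1 : Real.exp B' * (2 * Real.exp (σ ^ 2 / (2 * L ^ 2) + σ ^ 2 / (2 * X) - θ * σ)) =
        2 * Real.exp (B' + (σ ^ 2 / (2 * L ^ 2) + σ ^ 2 / (2 * X) - θ * σ)) := by
      rw [Real.exp_add B']; ring
    rw [h1, mul_assoc, hT0, ← Real.exp_add]
    apply mul_le_mul_of_nonneg_left _ (by norm_num)
    apply Real.exp_le_exp.mpr
    rw [hB']
    linarith
  have g3 : Real.exp B' * Real.exp (-((N : ℝ) + 1 / 2) ^ 2 / (2 * L ^ 2) +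
      (s + σ) ^ 2 / (2 * L ^ 2) + (s + σ) ^ 2 / (2 * X) + θ * s) ≤ Real.exp C5 * T0 := by
    rw [hT0, ← Real.exp_add, ← Real.exp_add]
    apply Real.exp_le_exp.mpr
    rw [hB']
    linarith
  have hmain : Real.exp B' * ((2 * (N : ℝ) + 1) * (2 * Real.exp (-(2 * Real.pi * s)) *
      Real.exp (s ^ 2 / (2 * L ^ 2) + s ^ 2 / (2 * X) + θ * s) +
    2 * Real.exp (σ ^ 2 / (2 * L ^ 2) + σ ^ 2 / (2 * X) - θ * σ)) +
  2 * (s + σ) * Real.exp (-((N : ℝ) + 1 / 2) ^ 2 / (2 * L ^ 2) + (s + σ) ^ 2 / (2 * L ^ 2)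
    + (s + σ) ^ 2 / (2 * X) + θ * s)) =
    (2 * (N : ℝ) + 1) * (Real.exp B' * (2 * Real.exp (-(2 * Real.pi * s)) *
      Real.exp (s ^ 2 / (2 * L ^ 2) + s ^ 2 / (2 * X) + θ * s)) +
      Real.exp B' * (2 * Real.exp (σ ^ 2 / (2 * L ^ 2) + σ ^ 2 / (2 * X) - θ * σ))) +
    2 * (s + σ) * (Real.exp B' * Real.exp (-((N : ℝ) + 1 / 2) ^ 2 / (2 * L ^ 2) +
      (s + σ) ^ 2 / (2 * L ^ 2) + (s + σ) ^ 2 / (2 * X) + θ * s)) := by ring
  rw [hmain]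
  calc _ ≤ (2 * L ^ 2 + 1) * (2 * Real.exp (25 * c ^ 2) * T0 +
        2 * Real.exp ((1 + 7 * c) ^ 2 / 2 + 1 / (4 * c)) * T0) +
        2 * ((1 + 14 * c) * L) * (Real.exp C5 * T0) := by
        gcongr
    _ ≤ 2 * (L ^ 2 + 1) * (2 * Real.exp (25 * c ^ 2) * T0 +
        2 * Real.exp ((1 + 7 * c) ^ 2 / 2 + 1 / (4 * c)) * T0) +
        2 * ((1 + 14 * c) * (L ^ 2 + 1)) * (Real.exp C5 * T0) := by
        have h1 : 2 * L ^ 2 + 1 ≤ 2 * (L ^ 2 + 1) := by linarith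
        have h2 : L ≤ L ^ 2 + 1 := by nlinarith [sq_nonneg (L - 1)]
        gcongr
    _ = _ := by ring

/-- the one cut at depth `1 / 4 + ρ`: admissible up to `u = 3 / 4 + ρ / 2` with quadratic loss -/
lemma adm_cut {ρ : ℝ} (h0 : 0 ≤ ρ) (h1 : ρ ≤ 1 / 8) :
    Adm (1 / 4 + ρ) (3 / 4 - ρ) 0 (9 / 8 * ρ ^ 2) (3 / 4 + ρ / 2) := by
  intro u hu0 hu1
  constructor
  · nlinarith [mul_nonneg hu0 h0, mul_nonneg h0 h0]
  · have h2 : max (u - (3 / 4 - ρ)) 0 ≤ 3 / 2 * ρ := max_le (by linarith) (by positivity)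
    have h3 : (max (u - (3 / 4 - ρ)) 0) ^ 2 ≤ (3 / 2 * ρ) ^ 2 :=
      pow_le_pow_left₀ (le_max_right _ _) h2 2
    linarith

end TCAvg
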