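import Pool.Agent.NUI.CR

/-!
# Exponential sums with nonnegative coefficients, and three circles around `0`

TARGET-G2 (type C one-leg function), abstract part, helper29.
-/

set_option autoImplicit false

open Complex Set Filter Topology

namespace TCAvg

/-- exponential sums `∑ A_i e^{i x_i s}` with nonnegative coefficients -/
def ExpSum (F : ℂ → ℂ) : Prop :=
  ∃ (ι : Type) (S : Finset ι) (A x : ι → ℝ), (∀ i ∈ S, 0 ≤ A i) ∧
    ∀ s : ℂ, F s = ∑ i ∈ S, (A i : ℂ) * exp (I * x i * s)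

lemma ExpSum.zero : ExpSum (fun _ => 0) :=
  ⟨Unit, ∅, fun _ => 0, fun _ => 0, by simp, by simp⟩

lemma ExpSum.add {F G : ℂ → ℂ} (hF : ExpSum F) (hG : ExpSum G) : ExpSum (fun s => F s + G s) := by
  obtain ⟨ι, S, A, x, hA, hF⟩ := hF
  obtain ⟨κ, T, B, y, hB, hG⟩ := hG
  refine ⟨ι ⊕ κ, S.disjSum T, Sum.elim A B, Sum.elim x y, ?_, ?_⟩
  · intro i hi
    rcases i with i | i
    · exact hA i (by simpa using hi)
    · exact hB i (by simpa using hi)
  · intro s
    show F s + G s = _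
    rw [Finset.sum_disjSum, hF, hG]
    simp

lemma ExpSum.smul {F : ℂ → ℂ} (hF : ExpSum F) {w : ℝ} (hw : 0 ≤ w) :
    ExpSum (fun s => (w : ℂ) * F s) := by
  obtain ⟨ι, S, A, x, hA, hF⟩ := hF
  refine ⟨ι, S, fun i => w * A i, x, fun i hi => mul_nonneg hw (hA i hi), ?_⟩
  intro s
  show (w : ℂ) * F s = _
  rw [hF, Finset.mul_sum]
  apply Finset.sum_congr rfl
  intro i _
  push_cast
  ring

lemma ExpSum.sum {κ : Type} (K : Finset κ) (w : κ → ℝ) (hw : ∀ k ∈ K, 0 ≤ w k)
    (F : κ → ℂ → ℂ) (h : ∀ k ∈ K, ExpSum (F k)) :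
    ExpSum (fun s => ∑ k ∈ K, (w k : ℂ) * F k s) := by
  classical
  induction K using Finset.induction_on with
  | empty => simpa using ExpSum.zero
  | insert a K ha ih =>
    have h1 := ih (fun k hk => hw k (Finset.mem_insert_of_mem hk))
      (fun k hk => h k (Finset.mem_insert_of_mem hk))
    have h2 := ((h a (Finset.mem_insert_self a K)).smul (hw a (Finset.mem_insert_self a K))).add h1
    have h3 : (fun s => ∑ k ∈ insert a K, (w k : ℂ) * F k s) =
        fun s => (w a : ℂ) * F a s + ∑ k ∈ K, (w k : ℂ) * F k s := by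
      funext s
      rw [Finset.sum_insert ha]
    rw [h3]
    exact h2

/-- what is used of an exponential sum -/
lemma ExpSum.prop {F : ℂ → ℂ} (h : ExpSum F) : ∃ G : ℝ → ℝ, (∀ y, 0 ≤ G y) ∧
    (∀ y : ℝ, F (y * I) = G y) ∧ (∀ s, ‖F s‖ ≤ G s.im) ∧
    (∀ y t : ℝ, 0 ≤ t → t ≤ 1 → G (t * y) ≤ G 0 ^ (1 - t) * G y ^ t) ∧
    Differentiable ℂ F ∧ (∀ s, ‖F (-(starRingEnd ℂ) s)‖ = ‖F s‖) := by
  obtain ⟨ι, S, A, x, hA, hF⟩ := h
  refine ⟨fun y => ∑ i ∈ S, A i * Real.exp (-(x i * y)), ?_, ?_, ?_, ?_, ?_, ?_⟩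
  · intro y
    exact Finset.sum_nonneg fun i hi => mul_nonneg (hA i hi) (Real.exp_pos _).le
  · intro y
    rw [hF]
    push_cast
    apply Finset.sum_congr rfl
    intro i _
    congr 2
    linear_combination (x i : ℂ) * y * I_sq
  · intro s
    rw [hF]
    refine (norm_sum_le _ _).trans (Finset.sum_le_sum fun i hi => ?_)
    rw [norm_mul, norm_exp, norm_real, Real.norm_of_nonneg (hA i hi)]
    apply le_of_eq
    congr 2
    simp [mul_assoc]
  · intro y t ht ht1
    simp only [mul_zero, neg_zero, Real.exp_zero, mul_one]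
    set A0 := ∑ i ∈ S, A i with hA0
    set B0 := ∑ i ∈ S, A i * Real.exp (-(x i * y)) with hB0
    have hA00 : 0 ≤ A0 := Finset.sum_nonneg hA
    have hB00 : 0 ≤ B0 := Finset.sum_nonneg fun i hi => mul_nonneg (hA i hi) (Real.exp_pos _).le
    rcases eq_or_lt_of_le hA00 with h0 | hA0p
    · -- all coefficients vanish
      have hz : ∀ i ∈ S, A i = 0 := fun i hi =>
        (Finset.sum_eq_zero_iff_of_nonneg hA).1 h0.symm i hi
      have : ∑ i ∈ S, A i * Real.exp (-(x i * (t * y))) = 0 :=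
        Finset.sum_eq_zero fun i hi => by rw [hz i hi, zero_mul]
      rw [this]
      positivity
    · have hB0p : 0 < B0 := by
        by_contra hcon
        have hB : B0 = 0 := le_antisymm (not_lt.1 hcon) hB00
        have hz : ∀ i ∈ S, A i * Real.exp (-(x i * y)) = 0 := fun i hi =>
          (Finset.sum_eq_zero_iff_of_nonneg
            (fun i hi => mul_nonneg (hA i hi) (Real.exp_pos _).le)).1 hB i hi
        have : A0 = 0 := Finset.sum_eq_zero fun i hi => by
          have := hz i hi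
          have h2 := (Real.exp_pos (-(x i * y))).ne'
          simpa [h2] using this
        linarith
      have key : ∀ i ∈ S, A i * Real.exp (-(x i * (t * y))) ≤
          (A0 ^ (1 - t) * B0 ^ t) * ((1 - t) * (A i / A0) +
            t * (A i * Real.exp (-(x i * y)) / B0)) := by
        intro i hi
        have hAi := hA i hi
        have h1 : Real.exp (-(x i * (t * y))) =
            (1 : ℝ) ^ (1 - t) * (Real.exp (-(x i * y))) ^ t := by
          rw [Real.one_rpow, one_mul, ← Real.exp_mul]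
          congr 1
          ring
        have h2 : A0 ^ (1 - t) * B0 ^ t * ((1 / A0) ^ (1 - t) *
            (Real.exp (-(x i * y)) / B0) ^ t) = (1 : ℝ) ^ (1 - t) *
            (Real.exp (-(x i * y))) ^ t := by
          rw [Real.div_rpow one_pos.le hA0p.le, Real.div_rpow (Real.exp_pos _).le hB0p.le]
          have h3 : A0 ^ (1 - t) ≠ 0 := (Real.rpow_pos_of_pos hA0p _).ne'
          have h4 : B0 ^ t ≠ 0 := (Real.rpow_pos_of_pos hB0p _).ne'
          field_simp
        have h5 := Real.geom_mean_le_arith_mean2_weighted (w₁ := 1 - t) (w₂ := t)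
          (p₁ := 1 / A0) (p₂ := Real.exp (-(x i * y)) / B0) (by linarith) ht (by positivity)
          (by positivity) (by ring)
        have h6 : 0 ≤ A i * (A0 ^ (1 - t) * B0 ^ t) := by positivity
        calc A i * Real.exp (-(x i * (t * y)))
            = A i * (A0 ^ (1 - t) * B0 ^ t) * ((1 / A0) ^ (1 - t) *
            (Real.exp (-(x i * y)) / B0) ^ t) := by
              rw [h1, ← h2]; ring
          _ ≤ A i * (A0 ^ (1 - t) * B0 ^ t) * ((1 - t) * (1 / A0) +
              t * (Real.exp (-(x i * y)) / B0)) := mul_le_mul_of_nonneg_left h5 h6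
          _ = _ := by ring
      calc ∑ i ∈ S, A i * Real.exp (-(x i * (t * y)))
          ≤ ∑ i ∈ S, (A0 ^ (1 - t) * B0 ^ t) * ((1 - t) * (A i / A0) +
            t * (A i * Real.exp (-(x i * y)) / B0)) := Finset.sum_le_sum key
        _ = (A0 ^ (1 - t) * B0 ^ t) * ((1 - t) * (A0 / A0) + t * (B0 / B0)) := by
            rw [← Finset.mul_sum, Finset.sum_add_distrib, ← Finset.mul_sum, ← Finset.mul_sum,
              ← Finset.sum_div, ← Finset.sum_div]
        _ = A0 ^ (1 - t) * B0 ^ t := by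
            rw [div_self hA0p.ne', div_self hB0p.ne']; ring
  · have : F = fun s => ∑ i ∈ S, (A i : ℂ) * exp (I * x i * s) := funext hF
    rw [this]
    fun_prop
  · intro s
    rw [hF, hF]
    have : ∑ i ∈ S, (A i : ℂ) * exp (I * x i * -(starRingEnd ℂ) s) =
        (starRingEnd ℂ) (∑ i ∈ S, (A i : ℂ) * exp (I * x i * s)) := by
      rw [map_sum]
      apply Finset.sum_congr rfl
      intro i _
      rw [map_mul, conj_ofReal, ← exp_conj]
      congr 2
      simp
    rw [this, norm_conj]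

/-- **Three circles around `0`.** -/
theorem chainC {q s0 δ K : ℝ} (hq : 0 < q) (hs0 : 0 < s0) (hδ : 0 < δ) (hK : 0 ≤ K) :
    ∃ η0 > 0, ∀ η : ℝ, 0 < η → η ≤ η0 → ∃ ε > 0, ∀ (a L : ℝ), 0 < L → ∀ F : ℂ → ℂ, ExpSum F →
      (∀ s : ℂ, ‖s‖ ≤ s0 + η → ‖F s‖ ≤ Real.exp (L * (a - q * (s ^ 2).re + K * η ^ 2 + ε))) →
      Real.exp (L * (a - q * s0 ^ 2 - ε)) ≤ ‖F (s0 : ℂ)‖ →
      Real.exp (L * (a - δ)) ≤ (F 0).re := by
  -- choice of r0
  obtain ⟨r0, hr0, hr0s, hr0t, hr0q⟩ : ∃ r0 : ℝ, 0 < r0 ∧ r0 ≤ s0 / 2 ∧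
      r0 / s0 * (δ + q * s0 ^ 2 + K * s0 ^ 2 + 1) ≤ δ / 4 ∧ q * r0 ^ 2 ≤ δ / 4 := by
    set D := δ + q * s0 ^ 2 + K * s0 ^ 2 + 1 with hD
    have hDp : 0 < D := by positivity
    refine ⟨min (s0 / 2) (min (s0 * (δ / 4 / D)) (min 1 (δ / 4 / q))), ?_, min_le_left _ _, ?_, ?_⟩
    · refine lt_min (by positivity) (lt_min (by positivity) (lt_min one_pos (by positivity)))
    · have h1 : min (s0 / 2) (min (s0 * (δ / 4 / D)) (min 1 (δ / 4 / q))) ≤ s0 * (δ / 4 / D) :=
        (min_le_right _ _).trans (min_le_left _ _)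
      calc _ ≤ s0 * (δ / 4 / D) / s0 * D := by gcongr
        _ = δ / 4 := by field_simp
    · set r := min (s0 / 2) (min (s0 * (δ / 4 / D)) (min 1 (δ / 4 / q))) with hr
      have h0 : 0 < r := lt_min (by positivity) (lt_min (by positivity) (lt_min one_pos (by positivity)))
      have h1 : r ≤ 1 := (min_le_right _ _).trans ((min_le_right _ _).trans (min_le_left _ _))
      have h2 : r ≤ δ / 4 / q := (min_le_right _ _).trans ((min_le_right _ _).trans (min_le_right _ _))
      have h3 : r ^ 2 ≤ δ / 4 / q := by nlinarith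
      calc q * r ^ 2 ≤ q * (δ / 4 / q) := by gcongr
        _ = δ / 4 := by field_simp
  set Λ := Real.log (2 * s0 / r0) with hΛ
  have hΛp : 0 < Λ := Real.log_pos (by rw [lt_div_iff₀ hr0]; linarith)
  refine ⟨min s0 (δ / (8 * s0 * Λ * (K + 1))), lt_min hs0 (by positivity), ?_⟩
  intro η hη hη0
  have hηs : η ≤ s0 := hη0.trans (min_le_left _ _)
  have hηK : η ≤ δ / (8 * s0 * Λ * (K + 1)) := hη0.trans (min_le_right _ _)
  have hKη : K * η ^ 2 ≤ δ * η / (8 * s0 * Λ) := by
    have h1 : K * η ≤ (K + 1) * (δ / (8 * s0 * Λ * (K + 1))) := by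
      apply mul_le_mul (by linarith) hηK hη.le (by positivity)
    have h2 : (K + 1) * (δ / (8 * s0 * Λ * (K + 1))) = δ / (8 * s0 * Λ) := by
      field_simp
    rw [h2] at h1
    calc K * η ^ 2 = (K * η) * η := by ring
      _ ≤ δ / (8 * s0 * Λ) * η := mul_le_mul_of_nonneg_right h1 hη.le
      _ = _ := by ring
  set ε := min 1 (δ * η / (32 * s0 * Λ)) with hε
  have hεp : 0 < ε := lt_min one_pos (by positivity)
  have hε1 : ε ≤ 1 := min_le_left _ _
  have hε2 : ε ≤ δ * η / (32 * s0 * Λ) := min_le_right _ _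
  refine ⟨ε, hεp, ?_⟩
  intro a L hL F hF hup hlow
  obtain ⟨G, hG0, hGI, hGn, hGc, hFd, -⟩ := hF.prop
  by_contra hcon
  push Not at hcon
  have hF0 : (F 0).re = G 0 := by
    have := hGI 0
    simp only [ofReal_zero, zero_mul] at this
    rw [this, ofReal_re]
  rw [hF0] at hcon
  set R := s0 + η with hR
  have hRp : 0 < R := by linarith
  have hr0R : r0 < R := by linarith
  have hGy : ∀ y : ℝ, |y| = s0 → G y ≤ Real.exp (L * (a + q * s0 ^ 2 + K * η ^ 2 + ε)) := by
    intro y hy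
    have h1 := hup (y * I) (by
      rw [norm_mul, norm_I, mul_one, norm_real, Real.norm_eq_abs, hy]; linarith)
    rw [hGI, norm_real, Real.norm_of_nonneg (hG0 y)] at h1
    refine h1.trans (le_of_eq ?_)
    have h2 : (((y : ℂ) * I) ^ 2).re = -s0 ^ 2 := by
      rw [mul_pow, I_sq, ← ofReal_pow, mul_neg_one, neg_re, ofReal_re, ← hy, sq_abs]
    rw [h2]
    congr 1
    ring
  set g : ℂ → ℂ := fun b => F b * exp (-(L * (a - q * b ^ 2))) with hg
  have hgd : Differentiable ℂ g := by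
    apply hFd.mul
    fun_prop
  have hgn : ∀ b : ℂ, ‖g b‖ = ‖F b‖ * Real.exp (-(L * (a - q * (b ^ 2).re))) := by
    intro b
    rw [hg]
    simp only [norm_mul, norm_exp]
    congr 2
    simp
  have hA : ∀ b : ℂ, ‖b‖ = r0 → ‖g b‖ ≤ Real.exp (L * (-(δ / 2))) := by
    intro b hb
    rw [hgn]
    have hbi : |b.im| ≤ r0 := hb ▸ Complex.abs_im_le_norm b
    -- b.im = t * y, |y| = s0
    obtain ⟨t, y, ht0, ht1, hty, hy⟩ : ∃ t y : ℝ, 0 ≤ t ∧ t ≤ r0 / s0 ∧ b.im = t * y ∧ |y| = s0 := by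
      rcases le_total 0 b.im with h | h
      · refine ⟨b.im / s0, s0, by positivity, ?_, by field_simp, abs_of_pos hs0⟩
        rw [abs_of_nonneg h] at hbi
        gcongr
      · refine ⟨-b.im / s0, -s0, div_nonneg (by linarith) hs0.le, ?_, by field_simp, ?_⟩
        · rw [abs_of_nonpos h] at hbi
          gcongr
        · rw [abs_neg, abs_of_pos hs0]
    have ht1' : t ≤ 1 := ht1.trans (by rw [div_le_one hs0]; linarith)
    have h1 : ‖F b‖ ≤ G 0 ^ (1 - t) * G y ^ t := by
      refine (hGn b).trans ?_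
      rw [hty]
      exact hGc y t ht0 ht1'
    have h2 : G 0 ^ (1 - t) ≤ Real.exp (L * (a - δ)) ^ (1 - t) :=
      Real.rpow_le_rpow (hG0 0) hcon.le (by linarith)
    have h3 : G y ^ t ≤ Real.exp (L * (a + q * s0 ^ 2 + K * η ^ 2 + ε)) ^ t :=
      Real.rpow_le_rpow (hG0 y) (hGy y hy) ht0
    have h4 : (b ^ 2).re ≤ r0 ^ 2 := by
      have h5 : |(b ^ 2).re| ≤ ‖b ^ 2‖ := Complex.abs_re_le_norm _
      rw [norm_pow, hb] at h5
      exact (abs_le.mp h5).2
    calc ‖F b‖ * Real.exp (-(L * (a - q * (b ^ 2).re)))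
        ≤ (Real.exp (L * (a - δ)) ^ (1 - t) *
            Real.exp (L * (a + q * s0 ^ 2 + K * η ^ 2 + ε)) ^ t) *
          Real.exp (-(L * (a - q * (b ^ 2).re))) := by
          apply mul_le_mul_of_nonneg_right _ (Real.exp_pos _).le
          exact h1.trans (mul_le_mul h2 h3 (Real.rpow_nonneg (hG0 y) _) (by positivity))
      _ = Real.exp (L * (a - δ) * (1 - t) + L * (a + q * s0 ^ 2 + K * η ^ 2 + ε) * t
            - L * (a - q * (b ^ 2).re)) := by
          rw [← Real.exp_mul, ← Real.exp_mul, ← Real.exp_add, ← Real.exp_add]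
          congr 1
      _ ≤ Real.exp (L * (-(δ / 2))) := by
          apply Real.exp_le_exp.mpr
          have h6 : L * (a - δ) * (1 - t) + L * (a + q * s0 ^ 2 + K * η ^ 2 + ε) * t
            - L * (a - q * (b ^ 2).re) =
            L * (-δ + t * (δ + q * s0 ^ 2 + K * η ^ 2 + ε) + q * (b ^ 2).re) := by
            ring
          rw [h6]
          apply mul_le_mul_of_nonneg_left _ hL.le
          have h7 : t * (δ + q * s0 ^ 2 + K * η ^ 2 + ε) ≤
              r0 / s0 * (δ + q * s0 ^ 2 + K * s0 ^ 2 + 1) := by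
            have : η ^ 2 ≤ s0 ^ 2 := pow_le_pow_left₀ hη.le hηs 2
            gcongr
          have h8 : q * (b ^ 2).re ≤ q * r0 ^ 2 := mul_le_mul_of_nonneg_left h4 hq.le
          linarith
  have hB : ∀ b : ℂ, ‖b‖ = R → ‖g b‖ ≤ Real.exp (L * (K * η ^ 2 + ε)) := by
    intro b hb
    rw [hgn]
    calc _ ≤ Real.exp (L * (a - q * (b ^ 2).re + K * η ^ 2 + ε)) *
          Real.exp (-(L * (a - q * (b ^ 2).re))) := by
          apply mul_le_mul_of_nonneg_right (hup b hb.le) (Real.exp_pos _).le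
      _ = Real.exp (L * (K * η ^ 2 + ε)) := by
          rw [← Real.exp_add]; congr 1; ring
  set z : ℂ := (s0 : ℂ) with hz
  have hzn : ‖z‖ = s0 := by
    rw [hz, norm_real, Real.norm_of_nonneg hs0.le]
  have h3c := NUI.three_circles hgd hr0 hr0R hA hB (z := z) (by rw [hzn]; linarith)
    (by rw [hzn]; linarith)
  rw [hzn] at h3c
  set τ := (Real.log s0 - Real.log r0) / (Real.log R - Real.log r0) with hτ
  have hlR : 0 < Real.log R - Real.log r0 := by
    have := Real.log_lt_log hr0 hr0R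
    linarith
  have hτ1 : η / (2 * s0 * Λ) ≤ 1 - τ := by
    have h1 : 1 - τ = (Real.log R - Real.log s0) / (Real.log R - Real.log r0) := by
      rw [hτ]; field_simp; ring
    have h2 : Real.log R - Real.log r0 ≤ Λ := by
      rw [hΛ, Real.log_div (by positivity) hr0.ne']
      have : Real.log R ≤ Real.log (2 * s0) := Real.log_le_log hRp (by linarith)
      linarith
    have h3 : η / (2 * s0) ≤ Real.log R - Real.log s0 := by
      have h4 : Real.log R - Real.log s0 = -Real.log (s0 / R) := by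
        rw [Real.log_div hs0.ne' hRp.ne']; ring
      have h5 : Real.log (s0 / R) ≤ s0 / R - 1 := Real.log_le_sub_one_of_pos (by positivity)
      have h6 : 1 - s0 / R = η / R := by
        rw [hR]; field_simp; ring
      have h7 : η / (2 * s0) ≤ η / R := by
        apply div_le_div_of_nonneg_left hη.le hRp
        linarith
      linarith
    rw [h1, le_div_iff₀ hlR]
    calc η / (2 * s0 * Λ) * (Real.log R - Real.log r0) ≤ η / (2 * s0 * Λ) * Λ := by gcongr
      _ = η / (2 * s0) := by field_simp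
      _ ≤ _ := h3
  have hτ0 : 0 ≤ τ := div_nonneg (by
    have := Real.log_le_log hr0 (by linarith : r0 ≤ s0)
    linarith) hlR.le
  have hgz : Real.exp (-(L * ε)) ≤ ‖g z‖ := by
    rw [hgn]
    have hz2 : (z ^ 2).re = s0 ^ 2 := by rw [hz, ← ofReal_pow, ofReal_re]
    rw [hz2]
    calc Real.exp (-(L * ε)) = Real.exp (L * (a - q * s0 ^ 2 - ε)) *
          Real.exp (-(L * (a - q * s0 ^ 2))) := by
          rw [← Real.exp_add]; congr 1; ring
      _ ≤ _ := mul_le_mul_of_nonneg_right hlow (Real.exp_pos _).le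
  have hfin := hgz.trans h3c
  rw [← Real.exp_mul, ← Real.exp_mul, ← Real.exp_add, Real.exp_le_exp] at hfin
  have h9 : L * (-(δ / 2)) * (1 - τ) + L * (K * η ^ 2 + ε) * τ + L * ε < 0 := by
    have h10 : L * (-(δ / 2)) * (1 - τ) + L * (K * η ^ 2 + ε) * τ + L * ε
        = L * (-(δ / 2) * (1 - τ) + (K * η ^ 2 + ε) * τ + ε) := by ring
    rw [h10]
    apply mul_neg_of_pos_of_neg hL
    have hτle : τ ≤ 1 := by
      have : 0 ≤ η / (2 * s0 * Λ) := by positivity
      linarith
    have h11 : (K * η ^ 2 + ε) * τ ≤ K * η ^ 2 + ε := by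
      have : 0 ≤ K * η ^ 2 + ε := by positivity
      nlinarith
    have h12 : δ / 2 * (η / (2 * s0 * Λ)) ≤ δ / 2 * (1 - τ) :=
      mul_le_mul_of_nonneg_left hτ1 (by positivity)
    have h13 : δ / 2 * (η / (2 * s0 * Λ)) = 4 * (δ * η / (16 * s0 * Λ)) := by
      field_simp; ring
    have h14 : δ * η / (8 * s0 * Λ) = 2 * (δ * η / (16 * s0 * Λ)) := by
      field_simp; ring
    have h15 : δ * η / (32 * s0 * Λ) = (δ * η / (16 * s0 * Λ)) / 2 := by
      field_simp; ring
    have h16 : 0 < δ * η / (16 * s0 * Λ) := by positivity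
    linarith
  linarith

end TCAvg
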