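import Pool.Agent.TC.AvgBnd

/-!
# The window theorem

From the growth of the one-leg function in the (complex) number of rows, the anchor at `s0` and the positivity of its
coefficients to the lower bound at `s = 0` for some number of rows in every window `[m - log² m, m + log² m]`.
-/

set_option autoImplicit false

open Complex Set Filter Topology

namespace TCAvg

/-- `φ` is the restriction to the integers of a function which is analytic and of Gaussian growth in the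
rectangle `- x π X ≤ Im z ≤ y π X`, `X = 2 c log m` -/
def Piece (c : ℝ) (m : ℕ) (x y g θ B : ℝ) (φ : ℤ → ℂ) : Prop :=
  ∃ f : ℂ → ℂ, (∀ z : ℂ, |z.re| ≤ NUI.NN m + 1 / 2 → -(x * Real.pi * NUI.XX c m) ≤ z.im →
      z.im ≤ y * Real.pi * NUI.XX c m → DifferentiableAt ℂ f z ∧
      ‖f z‖ ≤ Real.exp (B - g * Real.pi ^ 2 * NUI.XX c m
        + z.im ^ 2 / (2 * NUI.XX c m) - θ * z.im)) ∧
    ∀ j : ℤ, |j| ≤ NUI.NN m → φ j = f j

/-- (GROWTH, type C): `κ_J M_J(s)` is a sum of `n` pieces, each in one of the two orientations -/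
def GrowthC (a c R : ℝ) (n : ℕ) (x y g : ℕ → ℝ) (κ : ℕ → ℝ) (M : ℕ → ℂ → ℂ) : Prop :=
  ∀ ε > 0, ∀ᶠ m : ℕ in atTop, ∀ s : ℂ, ‖s‖ ≤ R → 0 ≤ s.re → ∃ φ : ℕ → ℤ → ℂ,
    (∀ i < n,
      Piece c m (x i) (y i) (g i) (2 * Real.pi * s.re)
        ((a + c * (2 * Real.pi * s.im) ^ 2 + ε) * Real.log m) (φ i) ∨
      Piece c m (x i) (y i) (g i) (2 * Real.pi * s.re)
        ((a + c * (2 * Real.pi * s.im) ^ 2 + ε) * Real.log m) (fun j => φ i (-j))) ∧
    ∀ i ∈ Finset.range (2 * NUI.NN m + 1), (κ (m - NUI.NN m + i) : ℂ) * M (m - NUI.NN m + i) s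
      = ∑ l ∈ Finset.range n, φ l (-(NUI.NN m : ℤ) + i)

lemma reflect (N : ℕ) (L : ℝ) (φ : ℤ → ℂ) :
    ∑ i ∈ Finset.range (2 * N + 1), NUI.ww L ((-(N : ℤ) + i : ℤ) : ℂ) * φ (-(N : ℤ) + i) =
    ∑ i ∈ Finset.range (2 * N + 1), NUI.ww L ((-(N : ℤ) + i : ℤ) : ℂ) * φ (-(-(N : ℤ) + i)) := by
  rw [← Finset.sum_range_reflect]
  apply Finset.sum_congr rfl
  intro i hi
  rw [Finset.mem_range] at hi
  have h1 : (-(N : ℤ) + ((2 * N + 1 - 1 - i : ℕ) : ℤ)) = -(-(N : ℤ) + i) := by omega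
  rw [h1]
  congr 1
  rw [NUI.ww_int, NUI.ww_int]
  push_cast
  congr 1
  ring_nf

/-- the bound of one piece -/
lemma piece_le {c x y g k u0 : ℝ} (hc : 0 < c) (hx0 : 0 < x) (hx1 : x ≤ 1) (hy0 : 0 < y)
    (hy1 : y ≤ 1) (hg : 0 ≤ g) (hk : 0 ≤ k) (hu1 : u0 ≤ 1) (hadm : Adm x y g k u0) {ε : ℝ}
    (hε : 0 < ε) : ∀ᶠ m : ℕ in atTop, ∀ θ : ℝ, 0 ≤ θ → θ ≤ u0 * Real.pi → ∀ (B : ℝ) (φ : ℤ → ℂ),
      Piece c m x y g θ B φ ∨ Piece c m x y g θ B (fun j => φ (-j)) →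
      ‖∑ i ∈ Finset.range (2 * NUI.NN m + 1), (NUI.wt m i : ℂ) * φ (-(NUI.NN m : ℤ) + i)‖
        ≤ Real.exp (B - θ ^ 2 * c * Real.log m + (2 * Real.pi ^ 2 * c * k + ε) * Real.log m) := by
  obtain ⟨C, hC, hgs⟩ := gauss_sum hc hx0 hx1 hy0 hy1 hg hk hu1 hadm
  filter_upwards [NUI.poly_absorb (C := C) hε, NUI.log_ge 1,
    NUI.log_ge (1 / (x * Real.pi * (2 * c))), NUI.log_ge (1 / (y * Real.pi * (2 * c)))]
    with m hpoly hL1 hLx hLy
  have hpi := Real.pi_pos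
  intro θ hθ0 hθ1 B φ hφ
  set L := Real.log m with hL
  have hxL : 1 ≤ x * Real.pi * (2 * c * L) := by
    rw [div_le_iff₀ (by positivity)] at hLx
    linarith
  have hyL : 1 ≤ y * Real.pi * (2 * c * L) := by
    rw [div_le_iff₀ (by positivity)] at hLy
    linarith
  have key : ∀ ψ : ℤ → ℂ, Piece c m x y g θ B ψ →
      ‖∑ i ∈ Finset.range (2 * NUI.NN m + 1), NUI.ww L ((-(NUI.NN m : ℤ) + i : ℤ) : ℂ) *
        ψ (-(NUI.NN m : ℤ) + i)‖
        ≤ Real.exp (B - θ ^ 2 * c * L + (2 * Real.pi ^ 2 * c * k + ε) * L) := by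
    intro ψ hψ
    obtain ⟨f, hf1, hf2⟩ := hψ
    have h1 := hgs L hL1 hxL hyL θ hθ0 hθ1 (NUI.NN m) (NUI.NN_le m) (NUI.NN_ge m) f B hf1
    have h2 : ∑ i ∈ Finset.range (2 * NUI.NN m + 1), NUI.ww L ((-(NUI.NN m : ℤ) + i : ℤ) : ℂ) *
        ψ (-(NUI.NN m : ℤ) + i) =
        ∑ i ∈ Finset.range (2 * NUI.NN m + 1), NUI.ww L ((-(NUI.NN m : ℤ) + i : ℤ) : ℂ) *
        f ((-(NUI.NN m : ℤ) + i : ℤ) : ℂ) := by
      apply Finset.sum_congr rfl
      intro i hi
      rw [Finset.mem_range] at hi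
      rw [hf2 (-(NUI.NN m : ℤ) + i) (by rw [abs_le]; omega)]
    rw [h2]
    refine h1.trans ?_
    calc C * (L ^ 2 + 1) * Real.exp (B - θ ^ 2 * (2 * c * L) / 2 + k * Real.pi ^ 2 * (2 * c * L))
        ≤ Real.exp (ε * L) *
          Real.exp (B - θ ^ 2 * (2 * c * L) / 2 + k * Real.pi ^ 2 * (2 * c * L)) :=
          mul_le_mul_of_nonneg_right hpoly (Real.exp_pos _).le
      _ = _ := by
          rw [← Real.exp_add]
          congr 1
          ring
  have hsum : ∑ i ∈ Finset.range (2 * NUI.NN m + 1), (NUI.wt m i : ℂ) * φ (-(NUI.NN m : ℤ) + i)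
      = ∑ i ∈ Finset.range (2 * NUI.NN m + 1), NUI.ww L ((-(NUI.NN m : ℤ) + i : ℤ) : ℂ) *
        φ (-(NUI.NN m : ℤ) + i) := by
    apply Finset.sum_congr rfl
    intro i _
    rw [NUI.wt_ww]
  rw [hsum]
  rcases hφ with h | h
  · exact key φ h
  · rw [reflect (NUI.NN m) L φ]
    exact key _ h

/-- the positive average over the number of rows -/
noncomputable def FF (κ : ℕ → ℝ) (M : ℕ → ℂ → ℂ) (m : ℕ) (s : ℂ) : ℂ :=
  ∑ i ∈ Finset.range (2 * NUI.NN m + 1),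
    ((NUI.wt m i * κ (m - NUI.NN m + i) : ℝ) : ℂ) * M (m - NUI.NN m + i) s

lemma FF_expSum {κ : ℕ → ℝ} {M : ℕ → ℂ → ℂ} (hκ : ∀ J, 0 < κ J) (hM : ∀ J, ExpSum (M J)) (m : ℕ) :
    ExpSum (FF κ M m) :=
  ExpSum.sum _ _ (fun _ _ => mul_nonneg (NUI.wt_pos _ _).le (hκ _).le) _ (fun _ _ => hM _)

/-- **(B)**: the bound of the average in the disc `|s| ≤ R` -/
theorem FF_le {a c R : ℝ} {n : ℕ} {x y g : ℕ → ℝ} {k : ℝ} {κ : ℕ → ℝ} {M : ℕ → ℂ → ℂ}
    (hc : 0 < c) (hR1 : 2 * R ≤ 1) (hκ : ∀ J, 0 < κ J) (hM : ∀ J, ExpSum (M J))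
    (hx0 : ∀ i < n, 0 < x i) (hx1 : ∀ i < n, x i ≤ 1) (hy0 : ∀ i < n, 0 < y i)
    (hy1 : ∀ i < n, y i ≤ 1) (hg : ∀ i < n, 0 ≤ g i) (hk : 0 ≤ k)
    (hadm : ∀ i < n, Adm (x i) (y i) (g i) k (2 * R))
    (hG : GrowthC a c R n x y g κ M) {ε : ℝ} (hε : 0 < ε) :
    ∀ᶠ m : ℕ in atTop, ∀ s : ℂ, ‖s‖ ≤ R → ‖FF κ M m s‖ ≤
      Real.exp (Real.log m * (a - 4 * Real.pi ^ 2 * c * (s ^ 2).re
        + 2 * Real.pi ^ 2 * c * k + ε)) := by
  have hpi := Real.pi_pos
  have hp : ∀ᶠ m : ℕ in atTop, ∀ i < n, ∀ θ : ℝ, 0 ≤ θ → θ ≤ 2 * R * Real.pi →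
      ∀ (B : ℝ) (φ : ℤ → ℂ),
      Piece c m (x i) (y i) (g i) θ B φ ∨ Piece c m (x i) (y i) (g i) θ B (fun j => φ (-j)) →
      ‖∑ i ∈ Finset.range (2 * NUI.NN m + 1), (NUI.wt m i : ℂ) * φ (-(NUI.NN m : ℤ) + i)‖
        ≤ Real.exp (B - θ ^ 2 * c * Real.log m +
          (2 * Real.pi ^ 2 * c * k + ε / 3) * Real.log m) := by
    have h1 := (Filter.eventually_all_finset (Finset.range n) (l := atTop)).2
      (fun i hi => piece_le hc (hx0 i (Finset.mem_range.1 hi)) (hx1 i (Finset.mem_range.1 hi))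
        (hy0 i (Finset.mem_range.1 hi)) (hy1 i (Finset.mem_range.1 hi))
        (hg i (Finset.mem_range.1 hi)) hk hR1 (hadm i (Finset.mem_range.1 hi))
        (ε := ε / 3) (by positivity))
    filter_upwards [h1] with m h i hi
    exact h i (Finset.mem_range.2 hi)
  filter_upwards [hG (ε / 3) (by positivity), hp, NUI.log_ge 1,
    NUI.poly_absorb (C := (n : ℝ)) (ε := ε / 3) (by positivity)] with m hm hpm hL1 hpoly
  set L := Real.log m with hL
  have main : ∀ s : ℂ, ‖s‖ ≤ R → 0 ≤ s.re → ‖FF κ M m s‖ ≤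
      Real.exp (L * (a - 4 * Real.pi ^ 2 * c * (s ^ 2).re
        + 2 * Real.pi ^ 2 * c * k + ε)) := by
    intro s hs hs0
    obtain ⟨φ, hφ, hsum⟩ := hm s hs hs0
    have hsre : s.re ≤ R := (Complex.re_le_norm s).trans hs
    have hθ1 : 2 * Real.pi * s.re ≤ 2 * R * Real.pi := by nlinarith
    have h1 : FF κ M m s = ∑ l ∈ Finset.range n, ∑ i ∈ Finset.range (2 * NUI.NN m + 1),
        (NUI.wt m i : ℂ) * φ l (-(NUI.NN m : ℤ) + i) := by
      unfold FF
      rw [Finset.sum_comm]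
      apply Finset.sum_congr rfl
      intro i hi
      rw [← Finset.mul_sum, ← hsum i hi]
      push_cast
      ring
    rw [h1]
    set E := Real.exp ((a + c * (2 * Real.pi * s.im) ^ 2 + ε / 3) * L
      - (2 * Real.pi * s.re) ^ 2 * c * L + (2 * Real.pi ^ 2 * c * k + ε / 3) * L) with hE
    have h2 : ‖∑ l ∈ Finset.range n, ∑ i ∈ Finset.range (2 * NUI.NN m + 1),
        (NUI.wt m i : ℂ) * φ l (-(NUI.NN m : ℤ) + i)‖ ≤ n * E := by
      refine (norm_sum_le _ _).trans ?_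
      calc _ ≤ ∑ l ∈ Finset.range n, E := by
            apply Finset.sum_le_sum
            intro l hl
            rw [Finset.mem_range] at hl
            exact hpm l hl (2 * Real.pi * s.re) (by positivity) hθ1 _ (φ l) (hφ l hl)
        _ = n * E := by rw [Finset.sum_const, Finset.card_range, nsmul_eq_mul]
    have h3 : (n : ℝ) ≤ Real.exp (ε / 3 * L) := by
      refine le_trans ?_ hpoly
      have : (0 : ℝ) ≤ n := Nat.cast_nonneg n
      nlinarith [sq_nonneg L]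
    refine h2.trans ?_
    calc (n : ℝ) * E ≤ Real.exp (ε / 3 * L) * E := mul_le_mul_of_nonneg_right h3 (Real.exp_pos _).le
      _ = _ := by
          rw [hE, ← Real.exp_add]
          congr 1
          have : (s ^ 2).re = s.re ^ 2 - s.im ^ 2 := by rw [sq, mul_re]; ring
          rw [this]
          ring
  intro s hs
  rcases le_total 0 s.re with h | h
  · exact main s hs h
  · obtain ⟨_, _, _, _, _, _, hconj⟩ := (FF_expSum hκ hM m).prop
    rw [← hconj s]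
    have h1 := main (-(starRingEnd ℂ) s) (by rw [norm_neg, norm_conj]; exact hs) (by simpa using h)
    have h2 : ((-(starRingEnd ℂ) s) ^ 2).re = (s ^ 2).re := by
      rw [neg_sq, ← map_pow, conj_re]
    rw [h2] at h1
    exact h1

lemma log_window : ∀ᶠ m : ℕ in atTop, ∀ J : ℕ, m ≤ J + NUI.NN m → J ≤ m + NUI.NN m →
    |Real.log J - Real.log m| ≤ 1 := by
  filter_upwards [NUI.poly_absorb (C := 2) (ε := 1) one_pos, eventually_ge_atTop 2, NUI.log_ge 1]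
    with m hm h2 hL J hJ1 hJ2
  have hm0 : (0 : ℝ) < m := by
    have : 0 < m := by omega
    exact_mod_cast this
  rw [one_mul, Real.exp_log hm0] at hm
  have hN := NUI.NN_le m
  have hN2 : (NUI.NN m : ℝ) ≤ m / 2 := by nlinarith
  have hJ1' : (m : ℝ) / 2 ≤ J := by
    have : (m : ℝ) ≤ J + NUI.NN m := by exact_mod_cast hJ1
    linarith
  have hJ2' : (J : ℝ) ≤ 2 * m := by
    have : (J : ℝ) ≤ m + NUI.NN m := by exact_mod_cast hJ2
    linarith
  have hJ0 : (0 : ℝ) < J := by linarith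
  have hl2 : Real.log 2 ≤ 1 := by
    have := Real.log_two_lt_d9
    linarith
  rw [abs_le]
  constructor
  · have h1 := Real.log_le_log (by positivity) hJ1'
    rw [Real.log_div hm0.ne' (by norm_num)] at h1
    linarith
  · have h1 := Real.log_le_log hJ0 hJ2'
    rw [Real.log_mul (by norm_num) hm0.ne'] at h1
    linarith

/-- **THE WINDOW THEOREM.** -/
theorem window {a c s0 α κ0 K : ℝ} {κ : ℕ → ℝ} {M : ℕ → ℂ → ℂ} (ω : ℂ)
    (hc : 0 < c) (hs0 : 0 < s0) (hs1 : s0 < 1 / 2) (hK : 0 ≤ K)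
    (hκ : ∀ J, 0 < κ J) (hM : ∀ J, ExpSum (M J))
    (hκl : ∀ ε > 0, ∀ᶠ J : ℕ in atTop, Real.exp ((κ0 - ε) * Real.log J) ≤ κ J)
    (hω : ‖ω‖ ≤ 1)
    (hanch : ∀ ε > 0, ∀ᶠ J : ℕ in atTop,
      Real.exp ((α - ε) * Real.log J) ≤ (ω * M J (s0 : ℂ)).re)
    (ha : a = κ0 + α + 4 * Real.pi ^ 2 * c * s0 ^ 2)
    (hG : ∀ η0 > 0, ∃ η : ℝ, 0 < η ∧ η ≤ η0 ∧ ∃ (n : ℕ) (x y g : ℕ → ℝ) (k : ℝ), 0 ≤ k ∧
      2 * Real.pi ^ 2 * c * k ≤ K * η ^ 2 ∧
      (∀ i < n, 0 < x i) ∧ (∀ i < n, x i ≤ 1) ∧ (∀ i < n, 0 < y i) ∧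
      (∀ i < n, y i ≤ 1) ∧ (∀ i < n, 0 ≤ g i) ∧ (∀ i < n, Adm (x i) (y i) (g i) k (2 * (s0 + η))) ∧
      GrowthC a c (s0 + η) n x y g κ M) :
    ∀ δ > 0, ∀ᶠ m : ℕ in atTop, ∃ J : ℕ, m ≤ J + NUI.NN m ∧ J ≤ m + NUI.NN m ∧
      Real.exp ((α + 4 * Real.pi ^ 2 * c * s0 ^ 2 - δ) * Real.log m) ≤ (M J 0).re := by
  intro δ hδ
  have hpi := Real.pi_pos
  set q : ℝ := 4 * Real.pi ^ 2 * c with hq
  have hqp : 0 < q := by positivity
  obtain ⟨η0, hη0, hch⟩ := chainC (K := K) hqp hs0 (half_pos hδ) hK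
  obtain ⟨η, hη, hηle, n, x, y, g, k, hk, hkK, hx0, hx1, hy0, hy1, hg, hadm, hGr⟩ :=
    hG (min (min η0 ((1 / 2 - s0))) (min 1 (δ / 8 / (K + 1)))) (by
      refine lt_min (lt_min hη0 (by linarith)) (lt_min one_pos (by positivity)))
  have hη1 : η ≤ η0 := hηle.trans ((min_le_left _ _).trans (min_le_left _ _))
  have hη2 : η ≤ 1 / 2 - s0 := hηle.trans ((min_le_left _ _).trans (min_le_right _ _))
  have hη3 : η ≤ 1 := hηle.trans ((min_le_right _ _).trans (min_le_left _ _))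
  have hη4 : η ≤ δ / 8 / (K + 1) := hηle.trans ((min_le_right _ _).trans (min_le_right _ _))
  have hKη : K * η ^ 2 ≤ δ / 8 := by
    have h1 : η ^ 2 ≤ η := by nlinarith
    calc K * η ^ 2 ≤ (K + 1) * η := by nlinarith
      _ ≤ (K + 1) * (δ / 8 / (K + 1)) := by gcongr
      _ = δ / 8 := by field_simp
  obtain ⟨ε1, hε1, hch2⟩ := hch η hη hη1
  set ε := min (ε1 / 4) (min (δ / 32) 1) with hε
  have hεp : 0 < ε := lt_min (by positivity) (lt_min (by positivity) one_pos)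
  have hεε : ε ≤ ε1 / 4 := min_le_left _ _
  have hεδ : ε ≤ δ / 32 := (min_le_right _ _).trans (min_le_left _ _)
  have hε1' : ε ≤ 1 := (min_le_right _ _).trans (min_le_right _ _)
  -- the anchor on the window
  have hanchw : ∀ᶠ m : ℕ in atTop, ∀ J : ℕ, m ≤ J + NUI.NN m →
      Real.exp ((α - ε) * Real.log J) ≤ (ω * M J (s0 : ℂ)).re := by
    obtain ⟨J0, hJ0⟩ := eventually_atTop.1 (hanch ε hεp)
    filter_upwards [NUI.poly_absorb (C := 2) (ε := 1) one_pos, eventually_ge_atTop (2 * J0 + 2),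
      NUI.log_ge 1] with m hm hm2 hL J hJ
    apply hJ0
    have hm0 : (0 : ℝ) < m := by
      have : 0 < m := by omega
      exact_mod_cast this
    rw [one_mul, Real.exp_log hm0] at hm
    have hN := NUI.NN_le m
    have hN2 : (NUI.NN m : ℝ) ≤ m / 2 := by nlinarith
    have h1 : (m : ℝ) ≤ J + NUI.NN m := by exact_mod_cast hJ
    have h2 : ((2 * J0 + 2 : ℕ) : ℝ) ≤ m := by exact_mod_cast hm2
    push_cast at h2
    have h3 : (J0 : ℝ) ≤ J := by linarith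
    exact_mod_cast h3
  filter_upwards [FF_le hc (by linarith) hκ hM hx0 hx1 hy0 hy1 hg hk hadm hGr hεp, hκl ε hεp,
    hanchw, log_window, NUI.NN_le_self, NUI.log_ge 1, NUI.log_ge (8 * (|α| + 1) / δ)]
    with m hB hκm hanm hlw hNN hL1 hL2
  set L := Real.log m with hL
  have hLp : 0 < L := by linarith
  have hLδ : |α| + 1 ≤ δ / 8 * L := by
    rw [div_le_iff₀ hδ] at hL2
    linarith
  have hES := FF_expSum (κ := κ) (M := M) hκ hM m
  -- the anchor of the average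
  have hre : ∀ s : ℂ, ∀ w : ℂ, (w * FF κ M m s).re = ∑ i ∈ Finset.range (2 * NUI.NN m + 1),
      NUI.wt m i * κ (m - NUI.NN m + i) * (w * M (m - NUI.NN m + i) s).re := by
    intro s w
    unfold FF
    rw [Finset.mul_sum, Complex.re_sum]
    apply Finset.sum_congr rfl
    intro i _
    rw [show w * (((NUI.wt m i * κ (m - NUI.NN m + i) : ℝ) : ℂ) * M (m - NUI.NN m + i) s) =
      ((NUI.wt m i * κ (m - NUI.NN m + i) : ℝ) : ℂ) * (w * M (m - NUI.NN m + i) s) by ring,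
      re_ofReal_mul]
  have hpos : ∀ i ∈ Finset.range (2 * NUI.NN m + 1),
      0 ≤ NUI.wt m i * κ (m - NUI.NN m + i) * (ω * M (m - NUI.NN m + i) (s0 : ℂ)).re := by
    intro i _
    have h1 := hanm (m - NUI.NN m + i) (by omega)
    exact mul_nonneg (mul_nonneg (NUI.wt_pos _ _).le (hκ _).le)
      ((Real.exp_pos _).le.trans h1)
  have hFn : (ω * FF κ M m (s0 : ℂ)).re ≤ ‖FF κ M m (s0 : ℂ)‖ := by
    refine (Complex.re_le_norm _).trans ?_
    rw [norm_mul]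
    exact mul_le_of_le_one_left (norm_nonneg _) hω
  have hlow : Real.exp (L * (a - q * s0 ^ 2 - 2 * ε)) ≤ ‖FF κ M m (s0 : ℂ)‖ := by
    refine le_trans ?_ hFn
    rw [hre]
    have hmem : NUI.NN m ∈ Finset.range (2 * NUI.NN m + 1) := by
      rw [Finset.mem_range]; omega
    refine le_trans ?_ (Finset.single_le_sum hpos hmem)
    have h2 : NUI.wt m (NUI.NN m) = 1 := by
      unfold NUI.wt
      simp
    rw [h2, one_mul, Nat.sub_add_cancel hNN]
    have h3 := hanm m (by omega)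
    calc Real.exp (L * (a - q * s0 ^ 2 - 2 * ε))
        = Real.exp ((κ0 - ε) * L) * Real.exp ((α - ε) * L) := by
          rw [← Real.exp_add, ha]
          congr 1
          ring
      _ ≤ _ := mul_le_mul hκm h3 (Real.exp_pos _).le (hκ m).le
  have hup : ∀ s : ℂ, ‖s‖ ≤ s0 + η → ‖FF κ M m s‖ ≤
      Real.exp (L * (a - q * (s ^ 2).re + K * η ^ 2 + ε)) := by
    intro s hs
    refine (hB s hs).trans ?_
    apply Real.exp_le_exp.mpr
    apply mul_le_mul_of_nonneg_left _ hLp.le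
    linarith
  have hF0 : Real.exp (L * (a - δ / 2)) ≤ (FF κ M m 0).re := by
    apply hch2 a L hLp _ hES
    · intro s hs
      refine (hup s hs).trans ?_
      apply Real.exp_le_exp.mpr
      apply mul_le_mul_of_nonneg_left _ hLp.le
      linarith
    · refine le_trans ?_ hlow
      apply Real.exp_le_exp.mpr
      apply mul_le_mul_of_nonneg_left _ hLp.le
      linarith
  -- the sum of the weights
  set Sw := ∑ i ∈ Finset.range (2 * NUI.NN m + 1), NUI.wt m i * κ (m - NUI.NN m + i) with hSw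
  have hSwle : Sw * Real.exp ((α - ε) * L - (|α| + 1)) ≤
      Real.exp (L * (a - q * s0 ^ 2 + K * η ^ 2 + ε)) := by
    have h1 := hup (s0 : ℂ) (by rw [norm_real, Real.norm_of_nonneg hs0.le]; linarith)
    have h2 : (((s0 : ℂ)) ^ 2).re = s0 ^ 2 := by rw [← ofReal_pow, ofReal_re]
    rw [h2] at h1
    refine le_trans ?_ (hFn.trans h1)
    rw [hre, hSw, Finset.sum_mul]
    apply Finset.sum_le_sum
    intro i hi
    rw [Finset.mem_range] at hi
    apply mul_le_mul_of_nonneg_left _ (mul_nonneg (NUI.wt_pos _ _).le (hκ _).le)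
    refine le_trans ?_ (hanm (m - NUI.NN m + i) (by omega))
    apply Real.exp_le_exp.mpr
    have h3 := hlw (m - NUI.NN m + i) (by omega) (by omega)
    set l := Real.log ((m - NUI.NN m + i : ℕ) : ℝ) with hl
    have h4 : |(α - ε) * (l - L)| ≤ |α| + 1 := by
      rw [abs_mul]
      have h5 : |α - ε| ≤ |α| + 1 := by
        have h6 := abs_sub α ε
        have h7 : |ε| ≤ 1 := by
          rw [abs_of_pos hεp]
          exact hε1'
        linarith
      calc |α - ε| * |l - L| ≤ (|α| + 1) * 1 := mul_le_mul h5 h3 (abs_nonneg _) (by positivity)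
        _ = _ := mul_one _
    have h5 := (abs_le.1 h4).1
    linarith
  by_contra hcon
  push Not at hcon
  have hFre : (FF κ M m 0).re ≤ Sw * Real.exp ((α + q * s0 ^ 2 - δ) * L) := by
    have h1 := hre 0 1
    rw [one_mul] at h1
    rw [h1, hSw, Finset.sum_mul]
    apply Finset.sum_le_sum
    intro i hi
    rw [Finset.mem_range] at hi
    apply mul_le_mul_of_nonneg_left _ (mul_nonneg (NUI.wt_pos _ _).le (hκ _).le)
    rw [one_mul]
    exact (hcon (m - NUI.NN m + i) (by omega) (by omega)).le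
  have h9 : Sw * Real.exp ((α + q * s0 ^ 2 - δ) * L) ≤
      Real.exp (L * (a - q * s0 ^ 2 + K * η ^ 2 + ε)) *
        Real.exp ((α + q * s0 ^ 2 - δ) * L - ((α - ε) * L - (|α| + 1))) := by
    have h10 : Real.exp ((α + q * s0 ^ 2 - δ) * L) = Real.exp ((α - ε) * L - (|α| + 1)) *
        Real.exp ((α + q * s0 ^ 2 - δ) * L - ((α - ε) * L - (|α| + 1))) := by
      rw [← Real.exp_add]; congr 1; ring
    rw [h10, ← mul_assoc]
    exact mul_le_mul_of_nonneg_right hSwle (Real.exp_pos _).le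
  have h11 := (hF0.trans hFre).trans h9
  rw [← Real.exp_add, Real.exp_le_exp] at h11
  nlinarith

end TCAvg
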