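import Pool.Agent.NUE.Inst

/-!
# The folded bracket (item [4.1] of nu34/53C)

Quanta at `t : Fin p → ℝ`, `t' : Fin n → ℝ` (species `X`, `Y`) on the half line, reflected in the wall `0`.

* `sy t : Fin p ⊕ Fin p → ℝ`: the symmetrised configuration `±t`;
* `brF g t t'`: cross over own pair products of the folded gas (direct and reflected pairs);
* `brF_eq`: its energy form, `brF_sq`: `brF` is the square root of the bracket of the symmetrised
  configuration without own images;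
* `brF_tau`: splitting with an even density `τ` of mass `2 (p - n)`, grid `ℤ h`;
  `brF_tau_pos`: the grid of positive points only, weight `exp (1/2 ∑_{l > 0} F_l²)`;
* `brF_tau_g`, `brF_tau_pos_g`: for `NUMF.g`.
-/

set_option autoImplicit false

open MeasureTheory Set Filter Topology

namespace TC

open NUE

noncomputable section

/-- symmetrised configuration -/
def sy {ι : Type*} (t : ι → ℝ) : ι ⊕ ι → ℝ := Sum.elim t (fun i => -t i)

/-- the folded bracket: cross over own pair products, direct and reflected pairs -/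
def brF {p n : ℕ} (g : ℝ → ℝ) (t : Fin p → ℝ) (t' : Fin n → ℝ) : ℝ :=
  (∏ i, ∏ j, (g (t i - t' j) * g (t i + t' j))) /
    ((∏ i, ∏ j ∈ Finset.Ioi i, (g (t i - t j) * g (t i + t j))) *
      ∏ i, ∏ j ∈ Finset.Ioi i, (g (t' i - t' j) * g (t' i + t' j)))

/-- charges of the symmetrised configuration -/
def qF (p n : ℕ) : (Fin p ⊕ Fin p) ⊕ (Fin n ⊕ Fin n) → ℝ := Sum.elim (fun _ => 1) (fun _ => -1)

/-- sum of a function over the symmetrised configuration -/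
lemma sum_sy {ι : Type*} [Fintype ι] (t : ι → ℝ) (f : ℝ → ℝ) :
    ∑ a, f (sy t a) = ∑ i, (f (t i) + f (-t i)) := by
  rw [Fintype.sum_sum_type, Finset.sum_add_distrib]
  rfl

/-- double sum of an even pair function over two symmetrised configurations -/
lemma sum_sy_sy {ι κ : Type*} [Fintype ι] [Fintype κ] {f : ℝ → ℝ} (hf : ∀ x, f (-x) = f x)
    (t : ι → ℝ) (t' : κ → ℝ) :
    ∑ a, ∑ b, f (sy t a - sy t' b) = 2 * ∑ i, ∑ j, (f (t i - t' j) + f (t i + t' j)) := by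
  have h1 : ∀ a, ∑ b, f (sy t a - sy t' b) = ∑ j, (f (sy t a - t' j) + f (sy t a + t' j)) := by
    intro a
    rw [sum_sy t' (fun y => f (sy t a - y))]
    refine Finset.sum_congr rfl fun j _ => ?_
    rw [sub_neg_eq_add]
  simp_rw [h1]
  rw [sum_sy t (fun x => ∑ j, (f (x - t' j) + f (x + t' j))), Finset.mul_sum]
  refine Finset.sum_congr rfl fun i _ => ?_
  rw [← Finset.sum_add_distrib, Finset.mul_sum]
  refine Finset.sum_congr rfl fun j _ => ?_
  have e1 : f (-t i - t' j) = f (t i + t' j) := by rw [← hf, neg_sub]; congr 1; ring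
  have e2 : f (-t i + t' j) = f (t i - t' j) := by rw [← hf]; congr 1; ring
  rw [e1, e2]
  ring

/-- energy of the symmetrised configuration -/
lemma en_sy {p n : ℕ} {lg : ℝ → ℝ} (hle : ∀ t, lg (-t) = lg t) (t : Fin p → ℝ) (t' : Fin n → ℝ) :
    en lg (qF p n) (Sum.elim (sy t) (sy t')) =
      2 * ∑ i, ∑ j, (lg (t i - t j) + lg (t i + t j)) +
      2 * ∑ i, ∑ j, (lg (t' i - t' j) + lg (t' i + t' j)) -
      4 * ∑ i, ∑ j, (lg (t i - t' j) + lg (t i + t' j)) := by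
  unfold en qF
  rw [Fintype.sum_sum_type]
  simp only [Fintype.sum_sum_type (α₁ := Fin p ⊕ Fin p) (α₂ := Fin n ⊕ Fin n), Sum.elim_inl, Sum.elim_inr,
    one_mul, neg_mul, neg_neg, Finset.sum_add_distrib, Finset.sum_neg_distrib]
  have h1 := sum_sy_sy hle t t
  have h2 := sum_sy_sy hle t' t'
  have h3 := sum_sy_sy hle t t'
  have h4 : ∑ a, ∑ b, lg (sy t' a - sy t b) = ∑ a, ∑ b, lg (sy t a - sy t' b) := by
    rw [Finset.sum_comm]
    refine Finset.sum_congr rfl fun i _ => Finset.sum_congr rfl fun j _ => ?_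
    rw [← hle, neg_sub]
  simp only [Finset.sum_add_distrib] at h1 h2 h3 ⊢
  rw [h1, h2, h4, h3]
  ring

/-- own pair products of the folded gas in energy form -/
lemma own_eq {k : ℕ} {g lg : ℝ → ℝ} (l0 : ℝ) (hg : ∀ t, g t = Real.exp (l0 - lg t))
    (hl0 : lg 0 = 0) (hle : ∀ t, lg (-t) = lg t) (x : Fin k → ℝ) :
    ∏ i, ∏ j ∈ Finset.Ioi i, (g (x i - x j) * g (x i + x j)) =
      Real.exp (l0 * ((k : ℝ) * k - k) - 1 / 2 * ∑ i, ∑ j, (lg (x i - x j) + lg (x i + x j)) +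
        1 / 2 * ∑ i, lg (2 * x i)) := by
  have h1 : ∀ i, ∏ j ∈ Finset.Ioi i, (g (x i - x j) * g (x i + x j)) =
      Real.exp (∑ j ∈ Finset.Ioi i, (2 * l0 - (lg (x i - x j) + lg (x i + x j)))) := by
    intro i
    rw [Real.exp_sum]
    refine Finset.prod_congr rfl fun j _ => ?_
    rw [hg, hg, ← Real.exp_add]
    congr 1
    ring
  simp_rw [h1]
  rw [← Real.exp_sum, sum_sum_eq (fun i j => lg (x i - x j) + lg (x i + x j))
    (fun i j => by rw [← hle, neg_sub, add_comm (x i)])]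
  congr 1
  have h2 : ∀ i, lg (x i - x i) + lg (x i + x i) = lg (2 * x i) := by
    intro i
    rw [sub_self, hl0, zero_add, two_mul]
  simp_rw [h2, Finset.sum_sub_distrib, card_sum]
  simp only [Finset.sum_const, nsmul_eq_mul]
  rw [← Finset.sum_mul]
  ring

/-- energy form of the folded bracket -/
theorem brF_eq {p n : ℕ} {g lg : ℝ → ℝ} (l0 : ℝ) (hg : ∀ t, g t = Real.exp (l0 - lg t))
    (hl0 : lg 0 = 0) (hle : ∀ t, lg (-t) = lg t) (t : Fin p → ℝ) (t' : Fin n → ℝ) :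
    brF g t t' = Real.exp (l0 * (((p : ℝ) + n) / 2 - ((p : ℝ) - n) ^ 2) +
      1 / 4 * en lg (qF p n) (Sum.elim (sy t) (sy t'))) *
      ((∏ i, √(g (2 * t i))) * ∏ j, √(g (2 * t' j))) := by
  have hcross : ∏ i, ∏ j, (g (t i - t' j) * g (t i + t' j)) =
      Real.exp (2 * l0 * ((p : ℝ) * n) - ∑ i, ∑ j, (lg (t i - t' j) + lg (t i + t' j))) := by
    have h1 : ∀ i, ∏ j, (g (t i - t' j) * g (t i + t' j)) =
        Real.exp (∑ j, (2 * l0 - (lg (t i - t' j) + lg (t i + t' j)))) := by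
      intro i
      rw [Real.exp_sum]
      refine Finset.prod_congr rfl fun j _ => ?_
      rw [hg, hg, ← Real.exp_add]
      congr 1
      ring
    simp_rw [h1]
    rw [← Real.exp_sum]
    congr 1
    simp only [Finset.sum_sub_distrib, Finset.sum_const, Finset.card_univ, Fintype.card_fin,
      nsmul_eq_mul]
    ring
  have hself : ∀ {k : ℕ} (x : Fin k → ℝ), ∏ i, √(g (2 * x i)) =
      Real.exp (l0 * k / 2 - 1 / 2 * ∑ i, lg (2 * x i)) := by
    intro k x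
    have h1 : ∀ i, √(g (2 * x i)) = Real.exp (1 / 2 * (l0 - lg (2 * x i))) := by
      intro i
      rw [hg, ← Real.exp_half]
      congr 1
      ring
    simp_rw [h1]
    rw [← Real.exp_sum, ← Finset.mul_sum, Finset.sum_sub_distrib]
    congr 1
    simp only [Finset.sum_const, Finset.card_univ, Fintype.card_fin, nsmul_eq_mul]
    ring
  unfold brF
  rw [own_eq l0 hg hl0 hle, own_eq l0 hg hl0 hle, hcross, hself, hself, en_sy hle, ← Real.exp_add,
    ← Real.exp_add, ← Real.exp_add, ← Real.exp_sub]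
  congr 1
  ring

/-- the folded bracket without own images is the square root of the bracket of `±t`, `±t'` -/
theorem brF_sq {p n : ℕ} {g lg : ℝ → ℝ} (l0 : ℝ) (hg : ∀ t, g t = Real.exp (l0 - lg t))
    (hl0 : lg 0 = 0) (hle : ∀ t, lg (-t) = lg t) (t : Fin p → ℝ) (t' : Fin n → ℝ) :
    brF g t t' ^ 2 = Real.exp (l0 * (((p : ℝ) + n) - 2 * ((p : ℝ) - n) ^ 2) +
      1 / 2 * en lg (qF p n) (Sum.elim (sy t) (sy t'))) *
      ((∏ i, g (2 * t i)) * ∏ j, g (2 * t' j)) := by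
  have h0 : ∀ x, 0 ≤ g x := fun x => by rw [hg]; exact (Real.exp_pos _).le
  rw [brF_eq l0 hg hl0 hle, mul_pow, mul_pow, ← Finset.prod_pow, ← Finset.prod_pow, ← Real.exp_nat_mul]
  simp_rw [Real.sq_sqrt (h0 _)]
  congr 2
  push_cast
  ring

lemma chi_neg (c : ℝ → ℝ) (h u : ℝ) : chi c h (-u) = chi c h u := by
  unfold chi
  congr 1
  refine integral_congr_ae (ae_of_all _ fun k => ?_)
  simp

lemma cv_even {lg τ : ℝ → ℝ} (hle : ∀ t, lg (-t) = lg t) (hτ : ∀ x, τ (-x) = τ x) (x : ℝ) :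
    cv lg τ (-x) = cv lg τ x := by
  unfold cv
  rw [← integral_neg_eq_self]
  refine integral_congr_ae (ae_of_all _ fun y => ?_)
  simp only
  rw [hτ, ← hle]
  congr 2
  ring

/-- grid statistics of the symmetrised total charge minus `τ` -/
def FsF {p n : ℕ} (c : ℝ → ℝ) (h : ℝ) (τ : ℝ → ℝ) (l : ℤ) (t : Fin p → ℝ) (t' : Fin n → ℝ) : ℝ :=
  ∑ i, (chi c h (t i - l * h) + chi c h (t i + l * h)) -
    ∑ j, (chi c h (t' j - l * h) + chi c h (t' j + l * h)) - ∫ x, τ x * chi c h (x - l * h)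

lemma FsF_neg {p n : ℕ} (c : ℝ → ℝ) (h : ℝ) {τ : ℝ → ℝ} (hτ : ∀ x, τ (-x) = τ x) (l : ℤ)
    (t : Fin p → ℝ) (t' : Fin n → ℝ) : FsF c h τ (-l) t t' = FsF c h τ l t t' := by
  unfold FsF
  have h1 : ∀ u : ℝ, u - ((-l : ℤ) : ℝ) * h = u + l * h := by intro u; push_cast; ring
  have h2 : ∀ u : ℝ, u + ((-l : ℤ) : ℝ) * h = u - l * h := by intro u; push_cast; ring
  have h3 : ∫ x, τ x * chi c h (x + l * h) = ∫ x, τ x * chi c h (x - l * h) := by
    rw [← integral_neg_eq_self]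
    refine integral_congr_ae (ae_of_all _ fun x => ?_)
    simp only
    rw [hτ, ← chi_neg c h (-x + l * h)]
    congr 2
    ring
  simp_rw [h1, h2, h3]
  congr 2
  · exact Finset.sum_congr rfl fun i _ => add_comm _ _
  · exact Finset.sum_congr rfl fun i _ => add_comm _ _

/-- **The folded bracket with an even real density `τ` of mass `2 (p - n)`.** -/
theorem brF_tau {p n : ℕ} {c : ℝ → ℝ} (hc : Continuous c)
    (hce : ∀ k, c (-k) = c k) {K h : ℝ} (hh : 0 < h) (hK : K * h < Real.pi)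
    (hcs : ∀ k, K < |k| → c k = 0) {Lh lg : ℝ → ℝ} (hL : ∀ k, 0 < k → c k ^ 2 ≤ Lh k)
    (hLm : Measurable Lh)
    (hint : ∀ t, IntegrableOn (fun k => (1 - Real.cos (k * t)) * Lh k) (Ioi 0))
    (hlg : ∀ t, lg t = 1 / Real.pi * ∫ k in Ioi (0:ℝ), (1 - Real.cos (k * t)) * Lh k)
    {C : ℝ} (hlb : ∀ t, lg t ≤ C * (1 + |t|)) (hlm : Measurable lg)
    {g : ℝ → ℝ} (l0 : ℝ) (hg : ∀ t, g t = Real.exp (l0 - lg t))
    (La : Finset ℤ) (t : Fin p → ℝ) (t' : Fin n → ℝ) {τ : ℝ → ℝ} (hτ : Integrable τ)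
    (hτ1 : Integrable fun x => τ x * x) (hτe : ∀ x, τ (-x) = τ x) (h0 : ∫ x, τ x = 2 * ((p : ℝ) - n)) :
    brF g t t' * Real.exp (1 / 4 * ∑ l ∈ La, FsF c h τ l t t' ^ 2) ≤
      Real.exp (l0 * (((p : ℝ) + n) / 2 - ((p : ℝ) - n) ^ 2) - 1 / 4 * ∫ x, τ x * cv lg τ x) *
        ((∏ i, (√(g (2 * t i)) * Real.exp (cv lg τ (t i)))) *
          ∏ j, (√(g (2 * t' j)) * Real.exp (- cv lg τ (t' j)))) := by
  have hl0 : lg 0 = 0 := by rw [hlg]; simp
  have hle : ∀ t, lg (-t) = lg t := by intro t; rw [hlg, hlg]; simp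
  have h1 := bessel_tau hc hce hh hK hcs hL hLm hint hlg hlb hlm La 0
    (qF p n) (Sum.elim (sy t) (sy t')) (τ := fun x => - τ x) hτ.neg (by simpa using hτ1.neg) (by
      rw [integral_neg, h0]
      simp [qF]
      ring)
  have hcv : ∀ x, cv lg (fun x => - τ x) x = - cv lg τ x := by
    intro x
    unfold cv
    rw [← integral_neg]
    refine integral_congr_ae (ae_of_all _ fun y => ?_)
    simp only
    ring
  have h2 : ∀ l : ℤ, (∑ b : (Fin p ⊕ Fin p) ⊕ (Fin n ⊕ Fin n), qF p n b *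
      chi c h (Sum.elim (sy t) (sy t') b - (0 + l * h)) + ∫ x, (- τ x) * chi c h (x - (0 + l * h))) =
      FsF c h τ l t t' := by
    intro l
    unfold FsF
    simp only [neg_mul, integral_neg, zero_add]
    rw [Fintype.sum_sum_type]
    simp only [qF, Sum.elim_inl, Sum.elim_inr, one_mul, neg_mul, Finset.sum_neg_distrib]
    rw [sum_sy t (fun x => chi c h (x - l * h)), sum_sy t' (fun x => chi c h (x - l * h))]
    have e1 : ∀ u : ℝ, chi c h (-u - l * h) = chi c h (u + l * h) := by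
      intro u
      rw [← chi_neg c h (u + l * h)]
      congr 1
      ring
    simp_rw [e1]
    ring
  simp_rw [h2, hcv] at h1
  have h3 : ∑ b : (Fin p ⊕ Fin p) ⊕ (Fin n ⊕ Fin n), qF p n b * - cv lg τ (Sum.elim (sy t) (sy t') b) =
      2 * (- ∑ i, cv lg τ (t i) + ∑ j, cv lg τ (t' j)) := by
    rw [Fintype.sum_sum_type]
    simp only [qF, Sum.elim_inl, Sum.elim_inr, one_mul, neg_mul, neg_neg, Finset.sum_neg_distrib]
    rw [sum_sy t (fun x => cv lg τ x), sum_sy t' (fun x => cv lg τ x)]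
    simp_rw [cv_even hle hτe, ← two_mul, ← Finset.mul_sum]
    ring
  have h4 : ∫ x, (- τ x) * (- cv lg τ x) = ∫ x, τ x * cv lg τ x := by
    refine integral_congr_ae (ae_of_all _ fun y => ?_)
    simp only
    ring
  rw [h3, h4] at h1
  have hP : 0 ≤ (∏ i, √(g (2 * t i))) * ∏ j, √(g (2 * t' j)) :=
    mul_nonneg (Finset.prod_nonneg fun _ _ => Real.sqrt_nonneg _)
      (Finset.prod_nonneg fun _ _ => Real.sqrt_nonneg _)
  rw [brF_eq l0 hg hl0 hle, Finset.prod_mul_distrib, Finset.prod_mul_distrib, ← Real.exp_sum,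
    ← Real.exp_sum, Finset.sum_neg_distrib]
  have h5 : Real.exp (l0 * (((p : ℝ) + n) / 2 - ((p : ℝ) - n) ^ 2) +
      1 / 4 * en lg (qF p n) (Sum.elim (sy t) (sy t'))) *
        Real.exp (1 / 4 * ∑ l ∈ La, FsF c h τ l t t' ^ 2) ≤
      Real.exp (l0 * (((p : ℝ) + n) / 2 - ((p : ℝ) - n) ^ 2) - 1 / 4 * ∫ x, τ x * cv lg τ x) *
        (Real.exp (∑ i, cv lg τ (t i)) * Real.exp (- ∑ j, cv lg τ (t' j))) := by
    rw [← Real.exp_add, ← Real.exp_add, ← Real.exp_add]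
    refine Real.exp_le_exp.2 ?_
    linarith
  calc _ = (Real.exp (l0 * (((p : ℝ) + n) / 2 - ((p : ℝ) - n) ^ 2) +
      1 / 4 * en lg (qF p n) (Sum.elim (sy t) (sy t'))) *
        Real.exp (1 / 4 * ∑ l ∈ La, FsF c h τ l t t' ^ 2)) *
        ((∏ i, √(g (2 * t i))) * ∏ j, √(g (2 * t' j))) := by ring
    _ ≤ _ := mul_le_mul_of_nonneg_right h5 hP
    _ = _ := by ring

/-- sums over a symmetric set of grid points -/
lemma sum_pos_sym (Lp : Finset ℤ) (hp : ∀ l ∈ Lp, 0 < l) (f : ℤ → ℝ) (hf : ∀ l, f (-l) = f l) :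
    ∑ l ∈ Lp ∪ Lp.image (fun l => -l), f l = 2 * ∑ l ∈ Lp, f l := by
  rw [Finset.sum_union]
  · rw [Finset.sum_image (fun a _ b _ e => neg_injective e)]
    simp_rw [hf]
    ring
  · rw [Finset.disjoint_left]
    intro a ha hb
    rw [Finset.mem_image] at hb
    obtain ⟨b, hb, e⟩ := hb
    have h1 := hp a ha
    have h2 := hp b hb
    omega

/-- **The folded bracket, grid of positive points.** -/
theorem brF_tau_pos {p n : ℕ} {c : ℝ → ℝ} (hc : Continuous c)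
    (hce : ∀ k, c (-k) = c k) {K h : ℝ} (hh : 0 < h) (hK : K * h < Real.pi)
    (hcs : ∀ k, K < |k| → c k = 0) {Lh lg : ℝ → ℝ} (hL : ∀ k, 0 < k → c k ^ 2 ≤ Lh k)
    (hLm : Measurable Lh)
    (hint : ∀ t, IntegrableOn (fun k => (1 - Real.cos (k * t)) * Lh k) (Ioi 0))
    (hlg : ∀ t, lg t = 1 / Real.pi * ∫ k in Ioi (0:ℝ), (1 - Real.cos (k * t)) * Lh k)
    {C : ℝ} (hlb : ∀ t, lg t ≤ C * (1 + |t|)) (hlm : Measurable lg)
    {g : ℝ → ℝ} (l0 : ℝ) (hg : ∀ t, g t = Real.exp (l0 - lg t))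
    (Lp : Finset ℤ) (hLp : ∀ l ∈ Lp, 0 < l) (t : Fin p → ℝ) (t' : Fin n → ℝ) {τ : ℝ → ℝ}
    (hτ : Integrable τ)
    (hτ1 : Integrable fun x => τ x * x) (hτe : ∀ x, τ (-x) = τ x) (h0 : ∫ x, τ x = 2 * ((p : ℝ) - n)) :
    brF g t t' * Real.exp (1 / 2 * ∑ l ∈ Lp, FsF c h τ l t t' ^ 2) ≤
      Real.exp (l0 * (((p : ℝ) + n) / 2 - ((p : ℝ) - n) ^ 2) - 1 / 4 * ∫ x, τ x * cv lg τ x) *
        ((∏ i, (√(g (2 * t i)) * Real.exp (cv lg τ (t i)))) *
          ∏ j, (√(g (2 * t' j)) * Real.exp (- cv lg τ (t' j)))) := by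
  have h1 := brF_tau hc hce hh hK hcs hL hLm hint hlg hlb hlm l0 hg
    (Lp ∪ Lp.image (fun l => -l)) t t' hτ hτ1 hτe h0
  rw [sum_pos_sym Lp hLp (fun l => FsF c h τ l t t' ^ 2) (fun l => by rw [FsF_neg c h hτe]), ← mul_assoc,
    show (1:ℝ) / 4 * 2 = 1 / 2 by norm_num] at h1
  exact h1

/-- `brF_tau` for `NUMF.g` -/
theorem brF_tau_g {p n : ℕ} {c : ℝ → ℝ} (hc : Continuous c)
    (hce : ∀ k, c (-k) = c k) {K h : ℝ} (hh : 0 < h) (hK : K * h < Real.pi)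
    (hcs : ∀ k, K < |k| → c k = 0) (hL : ∀ k, 0 < k → c k ^ 2 ≤ NUMF.Lh k)
    (La : Finset ℤ) (t : Fin p → ℝ) (t' : Fin n → ℝ) {τ : ℝ → ℝ} (hτ : Integrable τ)
    (hτ1 : Integrable fun x => τ x * x) (hτe : ∀ x, τ (-x) = τ x) (h0 : ∫ x, τ x = 2 * ((p : ℝ) - n)) :
    brF NUMF.g t t' * Real.exp (1 / 4 * ∑ l ∈ La, FsF c h τ l t t' ^ 2) ≤
      Real.exp (Real.log (NUMF.g 0) * (((p : ℝ) + n) / 2 - ((p : ℝ) - n) ^ 2) -
        1 / 4 * ∫ x, τ x * cv lgm τ x) *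
        ((∏ i, (√(NUMF.g (2 * t i)) * Real.exp (cv lgm τ (t i)))) *
          ∏ j, (√(NUMF.g (2 * t' j)) * Real.exp (- cv lgm τ (t' j)))) :=
  brF_tau hc hce hh hK hcs hL Lh_meas lgm_int lgm_eq lgm_le lgm_meas (Real.log (NUMF.g 0)) g_exp La t t'
    hτ hτ1 hτe h0

/-- `brF_tau_pos` for `NUMF.g` -/
theorem brF_tau_pos_g {p n : ℕ} {c : ℝ → ℝ} (hc : Continuous c)
    (hce : ∀ k, c (-k) = c k) {K h : ℝ} (hh : 0 < h) (hK : K * h < Real.pi)
    (hcs : ∀ k, K < |k| → c k = 0) (hL : ∀ k, 0 < k → c k ^ 2 ≤ NUMF.Lh k)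
    (Lp : Finset ℤ) (hLp : ∀ l ∈ Lp, 0 < l) (t : Fin p → ℝ) (t' : Fin n → ℝ) {τ : ℝ → ℝ}
    (hτ : Integrable τ)
    (hτ1 : Integrable fun x => τ x * x) (hτe : ∀ x, τ (-x) = τ x) (h0 : ∫ x, τ x = 2 * ((p : ℝ) - n)) :
    brF NUMF.g t t' * Real.exp (1 / 2 * ∑ l ∈ Lp, FsF c h τ l t t' ^ 2) ≤
      Real.exp (Real.log (NUMF.g 0) * (((p : ℝ) + n) / 2 - ((p : ℝ) - n) ^ 2) -
        1 / 4 * ∫ x, τ x * cv lgm τ x) *
        ((∏ i, (√(NUMF.g (2 * t i)) * Real.exp (cv lgm τ (t i)))) *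
          ∏ j, (√(NUMF.g (2 * t' j)) * Real.exp (- cv lgm τ (t' j)))) :=
  brF_tau_pos hc hce hh hK hcs hL Lh_meas lgm_int lgm_eq lgm_le lgm_meas (Real.log (NUMF.g 0)) g_exp Lp hLp
    t t' hτ hτ1 hτe h0

end

end TC
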