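import Pool.Agent.TC.AvgFin

/-!
# From (CRC) to GROWTH, type C

`(CRC)`: the sum over the number `n` of pairs of quanta of the moduli of the contour integrals `Zt m n J` (exits
through the top) and `Zf m n J` (exits through the floor) of the one-leg function of the folded gas, with a complex
number `J` of rows.
-/

set_option autoImplicit false

open Complex Set Filter Topology

namespace TCAvg

/-- the rectangle of complex numbers of rows: `- x π X ≤ Im J ≤ y π X`, `|Re J - m| ≤ log² m + 1/2` -/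
def InR (c : ℝ) (m : ℕ) (x y : ℝ) (J : ℂ) : Prop :=
  |J.re - m| ≤ NUI.NN m + 1 / 2 ∧ -(x * Real.pi * NUI.XX c m) ≤ J.im ∧
    J.im ≤ y * Real.pi * NUI.XX c m

/-- the absolute bound of one family -/
def CRB (a c R x y A B ε : ℝ) (m N : ℕ) (Z : ℕ → ℂ → ℂ) : Prop :=
  (∀ n ∈ Finset.range N, ∀ J : ℂ, InR c m x y J → DifferentiableAt ℂ (Z n) J) ∧
  ∀ β : ℝ, |β| ≤ 2 * Real.pi * R → ∀ J : ℂ, InR c m x y J →
    ∑ n ∈ Finset.range N, Real.exp (β * (J.re - n)) * ‖Z n J‖
      ≤ Real.exp (A * J.re ^ 2 + B * J.re) * Real.exp ((a + c * β ^ 2 + ε) * Real.log m)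
        * Real.exp (-(J.im ^ 2 * (A - 1 / (2 * NUI.XX c m))))

/-- (CRC), with exactness at the integers: `W J` is the normalisation (value of the denominator), and
`exp (A J ^ 2 + B J)` the mean field value of `J` rows. -/
def CRC (a c R x y A B : ℝ) (W : ℕ → ℝ) (M : ℕ → ℂ → ℂ) : Prop :=
  ∀ ε > 0, ∀ᶠ m : ℕ in atTop, ∃ (N : ℕ) (Zt Zf : ℕ → ℂ → ℂ),
    CRB a c R x y A B ε m N Zt ∧ CRB a c R y x A B ε m N Zf ∧
    ∀ J : ℕ, m ≤ J + NUI.NN m → J ≤ m + NUI.NN m → ∀ s : ℂ,
      exp (I * Real.pi * s / 2) * ∑ n ∈ Finset.range N, exp (2 * Real.pi * I * s * (J - n)) * Zt n J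
      + exp (-(I * Real.pi * s / 2)) *
        ∑ n ∈ Finset.range N, exp (-(2 * Real.pi * I * s * (J - n))) * Zf n J
        = W J * M J s

/-- the function of the number of rows of one family -/
noncomputable def fJ (A B : ℝ) (m N : ℕ) (Z : ℕ → ℂ → ℂ) (h b z : ℂ) : ℂ :=
  h * (exp (-(A * (m + z) ^ 2 + B * (m + z))) *
    ∑ n ∈ Finset.range N, exp (b * ((m + z) - n)) * Z n (m + z))

lemma fJ_bound {a c R x y A B ε : ℝ} {m N : ℕ} {Z : ℕ → ℂ → ℂ} (h : CRB a c R x y A B ε m N Z)
    (h0 b z : ℂ) (hb : |b.re| ≤ 2 * Real.pi * R) (h1 : |z.re| ≤ NUI.NN m + 1 / 2)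
    (h2 : -(x * Real.pi * NUI.XX c m) ≤ z.im) (h3 : z.im ≤ y * Real.pi * NUI.XX c m) :
    DifferentiableAt ℂ (fJ A B m N Z h0 b) z ∧
    ‖fJ A B m N Z h0 b z‖ ≤ ‖h0‖ * Real.exp ((a + c * b.re ^ 2 + ε) * Real.log m
      + z.im ^ 2 / (2 * NUI.XX c m) - b.im * z.im) := by
  obtain ⟨hd, hZ⟩ := h
  have hre : ((m : ℂ) + z).re = m + z.re := by simp
  have him : ((m : ℂ) + z).im = z.im := by simp
  have hIn : InR c m x y ((m : ℂ) + z) := by
    refine ⟨by rw [hre]; simpa using h1, by rw [him]; exact h2, by rw [him]; exact h3⟩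
  refine ⟨?_, ?_⟩
  · unfold fJ
    apply DifferentiableAt.const_mul
    apply DifferentiableAt.mul
    · fun_prop
    · have : ∀ n ∈ Finset.range N,
          DifferentiableAt ℂ (fun z => exp (b * ((m + z) - n)) * Z n (m + z)) z := by
        intro n hn
        apply DifferentiableAt.mul
        · fun_prop
        · exact DifferentiableAt.comp z (hd n hn (m + z) hIn) (by fun_prop)
      exact DifferentiableAt.fun_sum this
  · unfold fJ
    rw [norm_mul]
    refine mul_le_mul_of_nonneg_left ?_ (norm_nonneg _)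
    have h5 := hZ b.re hb (m + z) hIn
    set s : ℂ := m + z with hs
    have hsim : s.im = z.im := him
    have e1 : ‖exp (-(A * s ^ 2 + B * s)) *
        ∑ n ∈ Finset.range N, exp (b * (s - n)) * Z n s‖
        ≤ Real.exp (-(b.im * s.im)) * Real.exp (-(A * (s.re ^ 2 - s.im ^ 2) + B * s.re)) *
          ∑ n ∈ Finset.range N, Real.exp (b.re * (s.re - n)) * ‖Z n s‖ := by
      rw [norm_mul, norm_exp, Finset.mul_sum]
      refine (mul_le_mul_of_nonneg_left (norm_sum_le _ _) (Real.exp_pos _).le).trans ?_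
      rw [Finset.mul_sum]
      apply Finset.sum_le_sum
      intro n _
      rw [norm_mul, norm_exp]
      have e2 : (-(A * s ^ 2 + B * s)).re = - (A * (s.re ^ 2 - s.im ^ 2) + B * s.re) := by
        simp [pow_two]
      have e3 : (b * (s - n)).re = b.re * (s.re - n) - b.im * s.im := by
        simp
      rw [e2, e3]
      apply le_of_eq
      rw [sub_eq_add_neg (b.re * (s.re - n)), Real.exp_add]
      ring
    refine e1.trans ?_
    calc Real.exp (-(b.im * s.im)) * Real.exp (-(A * (s.re ^ 2 - s.im ^ 2) + B * s.re)) *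
          ∑ n ∈ Finset.range N, Real.exp (b.re * (s.re - n)) * ‖Z n s‖
        ≤ Real.exp (-(b.im * s.im)) * Real.exp (-(A * (s.re ^ 2 - s.im ^ 2) + B * s.re)) *
          (Real.exp (A * s.re ^ 2 + B * s.re) * Real.exp ((a + c * b.re ^ 2 + ε) * Real.log m)
            * Real.exp (-(s.im ^ 2 * (A - 1 / (2 * NUI.XX c m))))) :=
          mul_le_mul_of_nonneg_left h5 (by positivity)
      _ = Real.exp ((a + c * b.re ^ 2 + ε) * Real.log m
            + z.im ^ 2 / (2 * NUI.XX c m) - b.im * z.im) := by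
          rw [← Real.exp_add, ← Real.exp_add, ← Real.exp_add, ← Real.exp_add, hsim]
          congr 1
          ring

/-- **(CRC) gives GROWTH** with two pieces -/
theorem growthC_of_CRC {a c R x y A B : ℝ} {W : ℕ → ℝ} {M : ℕ → ℂ → ℂ}
    (h : CRC a c R x y A B W M) :
    GrowthC a c R 2 (fun _ => x) (fun _ => y) (fun _ => 0)
      (fun J => W J / Real.exp (A * (J : ℝ) ^ 2 + B * J)) M := by
  intro ε hε
  have hpi := Real.pi_pos
  filter_upwards [h (ε / 2) (by positivity), NUI.NN_le_self,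
    NUI.log_ge (2 * (Real.pi * (|R| + 1)) / ε)] with m hm hNN hL s hsR hs0
  obtain ⟨N, Zt, Zf, ht, hf, hex⟩ := hm
  have hLR : Real.pi * (|R| + 1) ≤ ε / 2 * Real.log m := by
    rw [div_le_iff₀ hε] at hL
    linarith
  have him : |s.im| ≤ R := (abs_im_le_norm s).trans hsR
  have hR0 : 0 ≤ R := (abs_nonneg _).trans him
  have hbre : (2 * Real.pi * I * s).re = -(2 * Real.pi * s.im) := by simp
  have hbim : (2 * Real.pi * I * s).im = 2 * Real.pi * s.re := by simp
  have hb : |(2 * Real.pi * I * s).re| ≤ 2 * Real.pi * R := by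
    rw [hbre, abs_neg, abs_mul, abs_of_pos (by positivity)]
    exact mul_le_mul_of_nonneg_left him (by positivity)
  have hb' : |(-(2 * Real.pi * I * s)).re| ≤ 2 * Real.pi * R := by
    rw [neg_re, abs_neg]; exact hb
  have hh : ∀ σ : ℂ, σ.re = -(Real.pi * s.im / 2) ∨ σ.re = Real.pi * s.im / 2 →
      ‖exp σ‖ ≤ Real.exp (ε / 2 * Real.log m) := by
    intro σ hσ
    rw [norm_exp]
    apply Real.exp_le_exp.2
    refine le_trans ?_ hLR
    have h1 : σ.re ≤ Real.pi * |s.im| := by
      rcases hσ with h | h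
      · rw [h]
        nlinarith [neg_abs_le s.im, abs_nonneg s.im]
      · rw [h]
        nlinarith [le_abs_self s.im, abs_nonneg s.im]
    rw [abs_of_nonneg hR0]
    nlinarith
  have key : ∀ (Z : ℕ → ℂ → ℂ) (x y : ℝ), CRB a c R x y A B (ε / 2) m N Z → ∀ σ b : ℂ,
      (σ.re = -(Real.pi * s.im / 2) ∨ σ.re = Real.pi * s.im / 2) →
      |b.re| ≤ 2 * Real.pi * R → b.re ^ 2 = (2 * Real.pi * s.im) ^ 2 → ∀ z : ℂ,
      |z.re| ≤ NUI.NN m + 1 / 2 → -(x * Real.pi * NUI.XX c m) ≤ z.im →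
      z.im ≤ y * Real.pi * NUI.XX c m → DifferentiableAt ℂ (fJ A B m N Z (exp σ) b) z ∧
      ‖fJ A B m N Z (exp σ) b z‖ ≤ Real.exp ((a + c * (2 * Real.pi * s.im) ^ 2 + ε) * Real.log m
        - 0 * Real.pi ^ 2 * NUI.XX c m + z.im ^ 2 / (2 * NUI.XX c m) - b.im * z.im) := by
    intro Z x y hZ σ b hσ hb hb2 z h1 h2 h3
    obtain ⟨k1, k2⟩ := fJ_bound hZ (exp σ) b z hb h1 h2 h3
    refine ⟨k1, k2.trans ?_⟩
    refine (mul_le_mul_of_nonneg_right (hh σ hσ) (Real.exp_pos _).le).trans ?_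
    rw [← Real.exp_add, hb2]
    apply le_of_eq
    congr 1
    ring
  refine ⟨fun i j => if i = 0 then
      fJ A B m N Zt (exp (I * Real.pi * s / 2)) (2 * Real.pi * I * s) j
    else fJ A B m N Zf (exp (-(I * Real.pi * s / 2))) (-(2 * Real.pi * I * s)) j, ?_, ?_⟩
  · intro i hi
    have h02 : i = 0 ∨ i = 1 := by omega
    rcases h02 with rfl | rfl
    · left
      refine ⟨fJ A B m N Zt (exp (I * Real.pi * s / 2)) (2 * Real.pi * I * s), ?_, ?_⟩
      · intro z h1 h2 h3
        have := key Zt x y ht (I * Real.pi * s / 2) (2 * Real.pi * I * s) (by left; simp; ring) hb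
          (by rw [hbre]; ring) z h1 h2 h3
        rwa [hbim] at this
      · intro j _
        simp
    · right
      refine ⟨fun z => fJ A B m N Zf (exp (-(I * Real.pi * s / 2))) (-(2 * Real.pi * I * s)) (-z),
        ?_, ?_⟩
      · intro z h1 h2 h3
        have h1' : |(-z).re| ≤ NUI.NN m + 1 / 2 := by rw [neg_re, abs_neg]; exact h1
        have h2' : -(y * Real.pi * NUI.XX c m) ≤ (-z).im := by rw [neg_im]; linarith
        have h3' : (-z).im ≤ x * Real.pi * NUI.XX c m := by rw [neg_im]; linarith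
        obtain ⟨k1, k2⟩ := key Zf y x hf (-(I * Real.pi * s / 2)) (-(2 * Real.pi * I * s))
          (by right; simp; ring) hb' (by rw [neg_re, hbre]; ring) (-z) h1' h2' h3'
        refine ⟨?_, ?_⟩
        · generalize fJ A B m N Zf (exp (-(I * Real.pi * s / 2))) (-(2 * Real.pi * I * s)) = g at k1
          exact DifferentiableAt.comp z k1 (by fun_prop)
        · refine k2.trans ?_
          apply le_of_eq
          congr 1
          rw [neg_im, neg_im, hbim]
          ring
      · intro j _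
        simp
  · intro i hi
    rw [Finset.mem_range] at hi
    have hJ1 : m ≤ (m - NUI.NN m + i) + NUI.NN m := by omega
    have hJ2 : m - NUI.NN m + i ≤ m + NUI.NN m := by omega
    have h4 := hex (m - NUI.NN m + i) hJ1 hJ2 s
    have hcast : ((m : ℂ) + ((-(NUI.NN m : ℤ) + i : ℤ) : ℂ)) = ((m - NUI.NN m + i : ℕ) : ℂ) := by
      have : ((m - NUI.NN m + i : ℕ) : ℤ) = (m : ℤ) + (-(NUI.NN m : ℤ) + i) := by
        push_cast [Nat.cast_sub hNN]
        ring
      have h5 : (((m - NUI.NN m + i : ℕ) : ℤ) : ℂ) = (((m : ℤ) + (-(NUI.NN m : ℤ) + i) : ℤ) : ℂ) := by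
        rw [this]
      rw [Int.cast_natCast] at h5
      rw [h5]
      push_cast
      ring
    simp only [Finset.sum_range_succ, Finset.sum_range_zero, zero_add, if_true, one_ne_zero,
      if_false]
    unfold fJ
    rw [hcast]
    set J := m - NUI.NN m + i with hJ
    have e7 : ((W J / Real.exp (A * (J : ℝ) ^ 2 + B * J) : ℝ) : ℂ)
        = exp (-(A * (J : ℂ) ^ 2 + B * J)) * W J := by
      push_cast
      rw [div_eq_mul_inv, ← Complex.exp_neg]
      ring
    rw [e7, mul_assoc, ← h4]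
    have e8 : ∀ n : ℕ, exp (-(2 * Real.pi * I * s) * ((J : ℂ) - n)) =
        exp (-(2 * Real.pi * I * s * ((J : ℂ) - n))) := fun n => by rw [neg_mul]
    simp only [e8]
    ring

end TCAvg
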