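import Pool.Agent.TC.Data
import Pool.Agent.NUT2.Tp6

/-!
# Generic lines of the strip (helper36)

`GT z X`: generic rapidities; `GC th (lines)` in additive terms; `gc_near`: one more line, near any point.
-/

set_option autoImplicit false

namespace Pool.Agent.TC

open _root_.Pool.Agent.EXL _root_.Pool.Agent.NUF _root_.Pool.Agent.NUU _root_.Pool.Agent.NUT2
open _root_.Pool.Agent.NUTV
open _root_.Pool.Agent.EXL.Fm (lam)
open Complex (I exp sin cos)
open Filter Topology

/-- the difference of the two rapidities is generic -/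
def Df (x y : ℂ) : Prop := ∀ k : ℤ, sin (x - y + k * lam) ≠ 0

/-- the sum of the two rapidities is generic -/
def Sm (x y : ℂ) : Prop := ∀ k : ℤ, sin (x + y + k * lam) ≠ 0

theorem Df.symm {x y : ℂ} (h : Df x y) : Df y x := fun k => by
  have := h (-k)
  rw [show y - x + k * lam = -(x - y + ((-k : ℤ) : ℂ) * lam) by push_cast; ring, Complex.sin_neg]
  exact neg_ne_zero.2 this

theorem Sm.symm {x y : ℂ} (h : Sm x y) : Sm y x := fun k => by
  rw [add_comm y x]
  exact h k

theorem Df.neg {x y : ℂ} (h : Df x y) : Df (-x) (-y) := fun k => by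
  have := h.symm k
  rwa [show -x - -y + k * lam = y - x + k * lam by ring]

theorem Sm.neg {x y : ℂ} (h : Sm x y) : Sm (-x) (-y) := fun k => by
  have := h (-k)
  rw [show -x + -y + k * lam = -(x + y + ((-k : ℤ) : ℂ) * lam) by push_cast; ring, Complex.sin_neg]
  exact neg_ne_zero.2 this

section GT

variable {ι : Type*} {z z' : ι → ℂ} {X Y : List ι}

/-- **Generic rapidities of the strip.** -/
structure GT (z : ι → ℂ) (X : List ι) : Prop where
  sub : ∀ i ∈ X, ∀ j ∈ X, i ≠ j → Df (z i) (z j)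
  add : ∀ i ∈ X, ∀ j ∈ X, Sm (z i) (z j)

theorem GT.gk (h : GT z X) : Gk z X := fun i hi j hj hij k => h.sub i hi j hj hij k

theorem GT.gz (h : GT z X) : Gz z X := h.gk.gz

theorem GT.neg (h : GT z X) : GT (fun i => -z i) X where
  sub i hi j hj hij := (h.sub i hi j hj hij).neg
  add i hi j hj := (h.add i hi j hj).neg

theorem GT.mono (h : GT z X) (hp : ∀ x ∈ Y, x ∈ X) : GT z Y where
  sub i hi j hj hij := h.sub i (hp i hi) j (hp j hj) hij
  add i hi j hj := h.add i (hp i hi) j (hp j hj)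

theorem GT.congr (h : GT z X) (e : ∀ x ∈ X, z x = z' x) : GT z' X where
  sub i hi j hj hij := by rw [← e i hi, ← e j hj]; exact h.sub i hi j hj hij
  add i hi j hj := by rw [← e i hi, ← e j hj]; exact h.add i hi j hj

theorem GT.cons {x : ι} (h : GT z X) (h1 : ∀ y ∈ X, x ≠ y → Df (z x) (z y)) (h2 : ∀ y ∈ X, Sm (z x) (z y))
    (h3 : Sm (z x) (z x)) : GT z (x :: X) where
  sub i hi j hj hij := by
    rcases List.mem_cons.1 hi with hi' | hi'
    · rcases List.mem_cons.1 hj with hj' | hj'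
      · exact absurd (hi'.trans hj'.symm) hij
      · rw [hi'] at hij ⊢
        exact h1 j hj' hij
    · rcases List.mem_cons.1 hj with hj' | hj'
      · rw [hj'] at hij ⊢
        exact (h1 i hi' (Ne.symm hij)).symm
      · exact h.sub i hi' j hj' hij
  add i hi j hj := by
    rcases List.mem_cons.1 hi with hi' | hi'
    · rcases List.mem_cons.1 hj with hj' | hj'
      · rw [hi', hj']
        exact h3
      · rw [hi']
        exact h2 j hj'
    · rcases List.mem_cons.1 hj with hj' | hj'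
      · rw [hj']
        exact (h2 i hi').symm
      · exact h.add i hi' j hj'

end GT

/-! ### The lists of lines -/

theorem lamN : NUTP.lam = lam := lam_NUTP

/-- **The generic lists in additive terms.** -/
theorem gc_iff (S : List ℂ) : _root_.TC.GC NUTP.th (S.map NUTP.ea) ↔
    S.Pairwise Df ∧ ∀ x ∈ S, ∀ y ∈ S, Sm x y := by
  have e1 : _root_.TC.im (S.map NUTP.ea) = (S ++ S.map (fun x => -x)).map NUTP.ea := by
    unfold _root_.TC.im
    rw [List.map_append, List.map_map, List.map_map]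
    congr 1
    refine List.map_congr_left fun x _ => ?_
    exact (NUTP.ea_neg x).symm
  have hZ : ∀ w : ℂ, (∀ k : ℕ, sin (w + k * NUTP.lam) ≠ 0) ↔ ∀ k : ℤ, sin (w + k * lam) ≠ 0 := by
    intro w
    rw [lamN]
    exact ⟨fun h => sin_int h, fun h k => by exact_mod_cast h (k : ℤ)⟩
  have hP : ∀ T : List ℂ, (T.Pairwise fun z w => ∀ k : ℕ, sin (z - w + k * NUTP.lam) ≠ 0) ↔
      T.Pairwise Df := by
    intro T
    constructor
    · intro h
      exact h.imp fun {a b} hab => (hZ _).1 hab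
    · intro h
      exact h.imp fun {a b} hab => (hZ _).2 hab
  unfold _root_.TC.GC
  rw [e1, NUTP.G_ea, hP, List.pairwise_append]
  constructor
  · rintro ⟨h1, -, h3⟩
    refine ⟨h1, fun x hx y hy => ?_⟩
    have h4 := h3 x hx (-y) (List.mem_map_of_mem hy)
    intro k
    have := h4 k
    rwa [sub_neg_eq_add] at this
  · rintro ⟨h1, h2⟩
    refine ⟨h1, ?_, ?_⟩
    · rw [List.pairwise_map]
      exact h1.imp fun {a b} hab => hab.neg
    · intro x hx y' hy'
      obtain ⟨y, hy, rfl⟩ := List.mem_map.1 hy'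
      intro k
      have := h2 x hx y hy k
      rwa [sub_neg_eq_add]

theorem gc_ne {S : List ℂ} (h : _root_.TC.GC NUTP.th S) : ∀ a ∈ S, a ≠ 0 := by
  intro a ha
  exact NUTP.G.mem_ne0 h (by
    unfold _root_.TC.im
    exact List.mem_append_left _ ha)

theorem ea_lg' {a : ℂ} (ha : a ≠ 0) : NUTP.ea (lg a) = a := exp_lg ha

theorem map_lg {S : List ℂ} (h : ∀ a ∈ S, a ≠ 0) : (S.map lg).map NUTP.ea = S := by
  rw [List.map_map]
  conv_rhs => rw [← List.map_id S]
  exact List.map_congr_left fun a ha => ea_lg' (h a ha)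

/-- Generic lines: the rapidities are generic. -/
theorem gt_of_gc {ι : Type*} {z : ι → ℂ} {T : List ι}
    (hG : _root_.TC.GC NUTP.th (T.map fun x => exp (I * z x))) : GT z T := by
  have e : (T.map fun x => exp (I * z x)) = (T.map z).map NUTP.ea := by
    rw [List.map_map]
    rfl
  rw [e, gc_iff, List.pairwise_map] at hG
  obtain ⟨h1, h2⟩ := hG
  refine ⟨?_, fun i hi j hj => h2 _ (List.mem_map_of_mem hi) _ (List.mem_map_of_mem hj)⟩
  have h3 : T.Pairwise fun x y => x ≠ y → Df (z x) (z y) := by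
    refine h1.imp ?_
    intro a b hab _
    exact hab
  have hs : Std.Symm fun x y : ι => x ≠ y → Df (z x) (z y) := by
    constructor
    intro x y h hyx
    exact (h (Ne.symm hyx)).symm
  intro x hx y hy hxy
  exact h3.forall_of_forall (fun a _ h => absurd rfl h) hx hy hxy

/-- Generic rapidities: the lines are generic. -/
theorem gc_of_gt {ι : Type*} {z : ι → ℂ} {T : List ι} (hn : T.Nodup) (h : GT z T) :
    _root_.TC.GC NUTP.th (T.map fun x => exp (I * z x)) := by
  have e : (T.map fun x => exp (I * z x)) = (T.map z).map NUTP.ea := by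
    rw [List.map_map]
    rfl
  rw [e, gc_iff, List.pairwise_map]
  refine ⟨?_, ?_⟩
  · refine List.Pairwise.imp_of_mem (fun {a b} ha hb (hab : a ≠ b) => h.sub a ha b hb hab) ?_
    exact hn
  · intro x hx y hy
    obtain ⟨i, hi, rfl⟩ := List.mem_map.1 hx
    obtain ⟨j, hj, rfl⟩ := List.mem_map.1 hy
    exact h.add i hi j hj

/-! ### One more line near a point -/

theorem sin8 (w : ℂ) (q : ℤ) : sin (w + ((8 * q : ℤ) : ℂ) * lam) = 0 ↔ sin w = 0 := by
  have e : w + ((8 * q : ℤ) : ℂ) * lam = w + q * Real.pi := by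
    unfold EXL.Fm.lam
    push_cast
    ring
  rw [e, Complex.sin_eq_zero_iff, Complex.sin_eq_zero_iff]
  constructor
  · rintro ⟨k, hk⟩
    refine ⟨k - q, ?_⟩
    push_cast
    linear_combination hk
  · rintro ⟨k, hk⟩
    refine ⟨k + q, ?_⟩
    push_cast
    linear_combination hk

theorem ev_int (a s0 : ℂ) {c : ℂ} (hc : c ≠ 0) :
    ∀ᶠ s in 𝓝[≠] s0, ∀ k : ℤ, sin (c * s + a + k * lam) ≠ 0 := by
  have h : ∀ r ∈ Finset.range 8, ∀ᶠ s in 𝓝[≠] s0, sin (c * s + (a + (r : ℂ) * lam)) ≠ 0 :=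
    fun r _ => ev_sin' _ s0 hc
  rw [← Finset.eventually_all] at h
  filter_upwards [h] with s hs k hk
  have h1 := Int.emod_add_mul_ediv k 8
  have h2 := Int.emod_nonneg k (by norm_num : (8 : ℤ) ≠ 0)
  have h3 := Int.emod_lt_of_pos k (by norm_num : (0 : ℤ) < 8)
  obtain ⟨r, hr⟩ := Int.eq_ofNat_of_zero_le h2
  refine hs r (Finset.mem_range.2 (by omega)) ?_
  have e : c * s + a + k * lam = (c * s + (a + (r : ℂ) * lam)) + ((8 * (k / 8) : ℤ) : ℂ) * lam := by
    have h4 : (k : ℂ) = (r : ℂ) + ((8 * (k / 8) : ℤ) : ℂ) := by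
      rw [hr] at h1
      exact_mod_cast h1.symm
    rw [h4]
    ring
  rw [e, sin8] at hk
  exact hk

theorem ev_Df (w s0 : ℂ) : ∀ᶠ s in 𝓝[≠] s0, Df s w := by
  filter_upwards [ev_int (-w) s0 one_ne_zero] with s hs k
  have := hs k
  rwa [one_mul, ← sub_eq_add_neg] at this

theorem ev_Sm (w s0 : ℂ) : ∀ᶠ s in 𝓝[≠] s0, Sm s w := by
  filter_upwards [ev_int w s0 one_ne_zero] with s hs k
  have := hs k
  rwa [one_mul] at this

theorem ev_SmS (s0 : ℂ) : ∀ᶠ s in 𝓝[≠] s0, Sm s s := by
  filter_upwards [ev_int 0 s0 two_ne_zero] with s hs k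
  have := hs k
  rwa [add_zero, two_mul] at this

/-- **One more generic line, near any point.** -/
theorem gc_near {S : List ℂ} (h : _root_.TC.GC NUTP.th S) (s0 : ℂ) :
    ∀ᶠ s in 𝓝[≠] s0, _root_.TC.GC NUTP.th (exp (I * s) :: S) := by
  have hne := gc_ne h
  rw [← map_lg hne, gc_iff] at h
  have h1 : ∀ w ∈ (S.map lg).toFinset, ∀ᶠ s in 𝓝[≠] s0, Df s w ∧ Sm s w := fun w _ =>
    (ev_Df w s0).and (ev_Sm w s0)
  rw [← Finset.eventually_all] at h1
  filter_upwards [h1, ev_SmS s0] with s hs hss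
  rw [← map_lg hne]
  show _root_.TC.GC NUTP.th ((s :: S.map lg).map NUTP.ea)
  rw [gc_iff]
  refine ⟨List.Pairwise.cons (fun w hw => (hs w (List.mem_toFinset.2 hw)).1) h.1, ?_⟩
  intro x hx y hy
  rcases List.mem_cons.1 hx with hx' | hx'
  · rcases List.mem_cons.1 hy with hy' | hy'
    · rw [hx', hy']
      exact hss
    · rw [hx']
      exact (hs y (List.mem_toFinset.2 hy')).2
  · rcases List.mem_cons.1 hy with hy' | hy'
    · rw [hy']
      exact (hs x (List.mem_toFinset.2 hx')).2.symm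
    · exact h.2 x hx' y hy'

/-- **One more generic rapidity, near any point.** -/
theorem gt_near {ι : Type*} [DecidableEq ι] {z : ι → ℂ} {X : List ι} {p : ι} (hp : p ∉ X) (h : GT z X)
    (s0 : ℂ) : ∀ᶠ s in 𝓝[≠] s0, GT (Function.update z p s) (p :: X) := by
  have h1 : ∀ w ∈ X.toFinset, ∀ᶠ s in 𝓝[≠] s0, Df s (z w) ∧ Sm s (z w) := fun w _ =>
    (ev_Df _ s0).and (ev_Sm _ s0)
  rw [← Finset.eventually_all] at h1
  filter_upwards [h1, ev_SmS s0] with s hs hss
  have e : ∀ y ∈ X, Function.update z p s y = z y := fun y hy => by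
    refine Function.update_of_ne ?_ _ _
    rintro rfl
    exact hp hy
  refine (h.congr fun x hx => (e x hx).symm).cons ?_ ?_ ?_
  · intro y hy _
    rw [e y hy, Function.update_self]
    exact (hs y (List.mem_toFinset.2 hy)).1
  · intro y hy
    rw [e y hy, Function.update_self]
    exact (hs y (List.mem_toFinset.2 hy)).2
  · rw [Function.update_self]
    exact hss

theorem GC.perm {S S' : List ℂ} (h : _root_.TC.GC NUTP.th S) (hp : S.Perm S') :
    _root_.TC.GC NUTP.th S' := by
  have hne := gc_ne h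
  have hne' : ∀ a ∈ S', a ≠ 0 := fun a ha => hne a (hp.mem_iff.2 ha)
  rw [← map_lg hne, gc_iff] at h
  rw [← map_lg hne', gc_iff]
  have hp' := hp.map lg
  refine ⟨?_, fun x hx y hy => h.2 x (hp'.mem_iff.2 hx) y (hp'.mem_iff.2 hy)⟩
  exact hp'.pairwise h.1 fun {a b} hab => hab.symm

theorem GC.sublist {S S' : List ℂ} (h : _root_.TC.GC NUTP.th S) (hp : S'.Sublist S) :
    _root_.TC.GC NUTP.th S' := by
  have hne := gc_ne h
  have hne' : ∀ a ∈ S', a ≠ 0 := fun a ha => hne a (hp.subset ha)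
  rw [← map_lg hne, gc_iff] at h
  rw [← map_lg hne', gc_iff]
  have hp' := hp.map lg
  exact ⟨h.1.sublist hp', fun x hx y hy => h.2 x (hp'.subset hx) y (hp'.subset hy)⟩

end Pool.Agent.TC
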