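import Pool.Agent.TC.Psi
import Pool.Agent.NUT2.Tp2

/-!
# The half strip functionals `PH`, `PS`: support, periodicity, renaming (helper62)

Port of `NUT2/Tp2`; all rapidities are allowed.
-/

set_option autoImplicit false

namespace Pool.Agent.TC

open _root_.Pool.Agent.EXL _root_.Pool.Agent.EXL.Pat Filter Topology
open _root_.Pool.Agent.EXL.Fm (lam)
open _root_.Pool.Agent.NUF _root_.Pool.Agent.NUU _root_.Pool.Agent.NUTV
open _root_.Pool.Agent.NUT2 (supS_mono supS_M supS_jn below_sub below_notMem exp_I_eq sin_congr
  Dn_congr rwt_congr exp_sub_congr below_map oE_rst jn_rst)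
open Complex (I exp sin cos)

/-! ### Support -/

section sup

variable {α : Type*} [DecidableEq α] {z z' : α → ℂ} {X Y : List α} {V : Fnl α} {S T : Set α}

theorem supS_RL (C : Co α) (z : α → ℂ) : ∀ (n : ℕ) (X : List α), X.length = n →
    SupS {x | x ∈ X} (RL C z ev0 X) := by
  intro n
  induction n using Nat.strong_induction_on with
  | _ n ih =>
    intro X hX
    cases X with
    | nil =>
      rw [RL_nil]
      intro F hF
      show F EXL.Pat.empty = 0
      exact hF _ fun x _ => rfl
    | cons p X =>
      simp only [List.length_cons] at hX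
      rw [RL_cons]
      intro F hF
      rw [LinearMap.add_apply, LinearMap.smul_apply, LinearMap.sum_apply]
      have h1 : SupS {x | x ∈ p :: X} (RL C z ev0 X) :=
        supS_mono (ih X.length (by omega) X rfl) fun x hx => List.mem_cons_of_mem _ hx
      rw [h1 F hF, smul_zero, zero_add]
      apply Finset.sum_eq_zero
      intro i hi
      have hi' := List.mem_toFinset.1 hi
      have hlen : (X.erase i).length < n := by
        have := List.length_erase_le (a := i) (l := X)
        omega
      have h2 : SupS {x | x ∈ p :: X} (RL C z ev0 (X.erase i)) :=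
        supS_mono (ih _ hlen (X.erase i) rfl) fun x hx =>
          List.mem_cons_of_mem _ (List.mem_of_mem_erase hx)
      have h3 := supS_jn h2 (p := p) (i := i) (by simp) (by simp [hi'])
        (C.e p i (X.toFinset.erase i)) (C.a p i (X.toFinset.erase i))
      exact supS_M (z := z) h3 (i := i) (by simp [hi']) (z i) (L := below X i)
        (fun x hx => List.mem_cons_of_mem _ (below_sub hx)) F hF

/-- **(all z)** The support of the zero-leg functional. -/
theorem PH_supS (z : α → ℂ) (X : List α) : SupS {x | x ∈ X} (PH z X) := supS_RL _ z _ X rfl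

theorem supS_cu (h : SupS S V) {p i : α} (hp : p ∈ S) (hi : i ∈ S) :
    SupS S (V ∘ₗ opCu ℂ p i) := by
  have k : opCu ℂ p i = rep0 ℂ id (wcu p i) := by
    rw [rep0_cu]
    rfl
  rw [k]
  exact h.comp (On.cu hp hi)

/-- **(all z)** The support of the exit functional. -/
theorem PS_supS (z : α → ℂ) (b : α) (X : List α) : SupS {x | x = b ∨ x ∈ X} (PS z b X) := by
  intro F hF
  rw [PS_eq, LinearMap.smul_apply, LinearMap.sum_apply, Finset.sum_eq_zero, smul_zero]
  intro i hi
  have hi' := List.mem_toFinset.1 hi
  have h2 : SupS {x | x = b ∨ x ∈ X} (PH z (X.erase i)) :=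
    supS_mono (PH_supS z _) fun x hx => Or.inr (List.mem_of_mem_erase hx)
  have h3 := supS_cu h2 (p := b) (i := i) (Or.inl rfl) (Or.inr hi')
  have h4 := supS_M (z := z) h3 (i := i) (Or.inr hi') (z i) (L := below X i)
    (fun x hx => Or.inr (below_sub hx)) F hF
  have h5 : PH z (X.erase i) ((opCu ℂ b i) (uops.M z i (z i) (below X i) F)) = 0 := h4
  rw [psT, LinearMap.smul_apply, LinearMap.comp_apply, Module.End.mul_apply]
  show Fr.wt (ux z) i (X.toFinset.erase i) • PH z (X.erase i)
    ((opCu ℂ b i) (uops.M z i (z i) (below X i) F)) = 0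
  rw [h5, smul_zero]

end sup

/-! ### Periodicity -/

section per

variable {α : Type*} [DecidableEq α] {z z' : α → ℂ} {X : List α} {b i : α}

theorem exp_ux {x : α} (h : exp (I * z x) = exp (I * z' x)) :
    exp (I * ux z x) = exp (I * ux z' x) := by
  unfold ux
  rw [mul_sub, mul_sub, Complex.exp_sub, Complex.exp_sub, h]

theorem fa_congr {x y : ℂ} (h : exp (I * x) = exp (I * y)) : Fr.fa x = Fr.fa y := by
  have := sin_congr 0 h
  simpa [Fr.fa] using this

theorem fe_congr {x y : ℂ} (h : exp (I * x) = exp (I * y)) : Fr.fe x = Fr.fe y := by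
  unfold Fr.fe
  rw [add_comm _ x, add_comm _ y, sin_congr _ h]

theorem fa'_congr {x y : ℂ} (h : exp (I * x) = exp (I * y)) : Fr.fa' x = Fr.fa' y := by
  obtain ⟨n, rfl⟩ := exp_I_eq h
  unfold Fr.fa'
  rw [show 3 * lam - (y + n * (2 * Real.pi)) = (3 * lam - y) - n * (2 * Real.pi) by ring,
    Complex.sin_sub_int_mul_two_pi]

theorem dl_congr' {x y x' y' : ℂ} (h : exp (I * x) = exp (I * x')) (h' : exp (I * y) = exp (I * y')) :
    Fr.dl x y = Fr.dl x' y' := by
  unfold Fr.dl
  rw [fa_congr h, fa'_congr h, fa_congr h', fe_congr h']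

theorem pr_congr' {x y x' y' : ℂ} (h : exp (I * x) = exp (I * x')) (h' : exp (I * y) = exp (I * y')) :
    Fr.pr x y = Fr.pr x' y' := by
  have hd := exp_sub_congr h h'
  have hs : exp (I * (y + x)) = exp (I * (y' + x')) := by
    rw [mul_add, mul_add, Complex.exp_add, Complex.exp_add, h, h']
  have h0 := sin_congr 0 hd
  rw [add_zero, add_zero] at h0
  have hD := Dn_congr hd
  unfold Fr.pr
  rw [hD, sin_congr _ hs, h0]

theorem Dl_cexp {u u' : ℂ} {Y : Finset α} (hu : exp (I * u) = exp (I * u'))
    (h : ∀ x ∈ Y, exp (I * z x) = exp (I * z' x)) : Fr.Dl (ux z) u Y = Fr.Dl (ux z') u' Y := by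
  unfold Fr.Dl
  exact Finset.prod_congr rfl fun k hk => dl_congr' hu (exp_ux (h k hk))

theorem wt_cexp {Y : Finset α} (hi : exp (I * z i) = exp (I * z' i))
    (h : ∀ x ∈ Y, exp (I * z x) = exp (I * z' x)) : Fr.wt (ux z) i Y = Fr.wt (ux z') i Y := by
  unfold Fr.wt
  rw [fa'_congr (exp_ux hi)]
  congr 1
  exact Finset.prod_congr rfl fun k hk => pr_congr' (exp_ux (h k hk)) (exp_ux hi)

theorem R_cexp {i r : α} (hd : exp (I * (z i - z r)) = exp (I * (z' i - z' r))) :
    uops.R i r (z i - z r) = uops.R i r (z' i - z' r) := by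
  have e := rwt_congr hd
  show rep0 ℂ id (if i = r then 0 else wR (EXL.rwt (z i - z r)) i r) =
    rep0 ℂ id (if i = r then 0 else wR (EXL.rwt (z' i - z' r)) i r)
  rw [e]

/-- The zero-leg functional depends on the rapidities modulo `2 π`. -/
theorem PH_cexp (h : ∀ x ∈ X, exp (I * z x) = exp (I * z' x)) : PH z X = PH z' X := by
  have hx : ∀ x ∈ X.toFinset, exp (I * z x) = exp (I * z' x) := fun x hx =>
    h x (List.mem_toFinset.1 hx)
  have hd : ∀ x ∈ X.toFinset, ∀ y ∈ X.toFinset,
      exp (I * (z x - z y)) = exp (I * (z' x - z' y)) := fun x h1 y h2 =>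
    exp_sub_congr (hx x h1) (hx y h2)
  refine RL_congr X.toFinset ?_ ?_ ?_ X.length X rfl fun x hx => List.mem_toFinset.2 hx
  · intro p hp Y hY
    simp only [cP]
    exact Dl_cexp (exp_ux (hx p hp)) fun k hk => hx k (hY hk)
  · intro p hp i hi Y hY
    simp only [cP]
    rw [wt_cexp (hx i hi) fun k hk => hx k (hY hk),
      Dl_cexp (exp_ux (hx p hp)) fun k hk => hx k (hY hk), fe_congr (exp_ux (hx i hi)),
      fa_congr (exp_ux (hx p hp))]
    exact ⟨rfl, rfl⟩
  · intro i hi r hr
    exact R_cexp (hd i hi r hr)

theorem M_cexp {L : List α} (h : ∀ x ∈ L, exp (I * (z i - z x)) = exp (I * (z' i - z' x))) :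
    uops.M z i (z i) L = uops.M z' i (z' i) L := by
  induction L with
  | nil => rw [EXL.Glob.Ops.M_nil, EXL.Glob.Ops.M_nil]
  | cons s L ih =>
    rw [EXL.Glob.Ops.M_cons, EXL.Glob.Ops.M_cons, ih fun x hx => h x (by simp [hx]),
      R_cexp (h s (by simp))]

theorem oE_cexp (hi : i ∈ X) (h : ∀ x ∈ X, exp (I * z x) = exp (I * z' x)) :
    oE uops z X i = oE uops z' X i := by
  unfold oE
  exact M_cexp fun x hx => exp_sub_congr (h i hi) (h x (below_sub hx))

/-- The exit functional depends on the rapidities modulo `2 π`. -/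
theorem PS_cexp (h : ∀ x ∈ X, exp (I * z x) = exp (I * z' x)) : PS z b X = PS z' b X := by
  rw [PS_eq, PS_eq]
  congr 1
  refine Finset.sum_congr rfl fun i hi => ?_
  have hi' := List.mem_toFinset.1 hi
  unfold psT
  rw [wt_cexp (h i hi') fun k hk => h k (List.mem_toFinset.1 (Finset.mem_of_mem_erase hk)),
    PH_cexp fun x hx => h x (List.mem_of_mem_erase hx), oE_cexp hi' h]

end per

/-! ### Renaming -/

section ren

variable {α β : Type*} [DecidableEq α] [DecidableEq β] {e : β → α} (he : Function.Injective e)
  {z : β → ℂ} {z' : α → ℂ} {X : List β} {b i p : β}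

theorem ux_map {x : β} (h : z' (e x) = z x) : ux z' (e x) = ux z x := by
  unfold ux
  rw [h]

include he in
theorem Dl_map {u : ℂ} {Y : Finset β} (h : ∀ x ∈ Y, z' (e x) = z x) :
    Fr.Dl (ux z') u (Y.image e) = Fr.Dl (ux z) u Y := by
  unfold Fr.Dl
  rw [Finset.prod_image he.injOn]
  exact Finset.prod_congr rfl fun k hk => by rw [ux_map (h k hk)]

include he in
theorem wt_map {Y : Finset β} (hi : z' (e i) = z i) (h : ∀ x ∈ Y, z' (e x) = z x) :
    Fr.wt (ux z') (e i) (Y.image e) = Fr.wt (ux z) i Y := by
  unfold Fr.wt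
  rw [Finset.prod_image he.injOn, ux_map hi]
  congr 1
  exact Finset.prod_congr rfl fun k hk => by rw [ux_map (h k hk)]

theorem PH_map_aux : ∀ (n : ℕ) (X : List β), X.length = n → (∀ x ∈ X, z' (e x) = z x) →
    PH z' (X.map e) = push he (PH z X) := by
  intro n
  induction n using Nat.strong_induction_on with
  | _ n ih =>
    intro X hX h
    cases X with
    | nil =>
      rw [List.map_nil, PH, PH, RL_nil, RL_nil]
      refine LinearMap.ext fun F => ?_
      show F EXL.Pat.empty = F (rst he EXL.Pat.empty)
      rw [rst_empty]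
    | cons p X =>
      simp only [List.length_cons] at hX
      have hX' : ∀ x ∈ X, z' (e x) = z x := fun x hx => h x (by simp [hx])
      have hp := h p (by simp)
      have hf : (X.map e).toFinset = X.toFinset.image e := by
        ext x
        simp
      refine LinearMap.ext fun F => ?_
      rw [List.map_cons, PH_cons, hf, push_apply, PH_cons, LinearMap.add_apply,
        LinearMap.add_apply, LinearMap.smul_apply, LinearMap.smul_apply, LinearMap.sum_apply,
        LinearMap.sum_apply, Finset.sum_image he.injOn,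
        ih X.length (by omega) X rfl hX', push_apply, ux_map hp,
        Dl_map he fun x hx => hX' x (List.mem_toFinset.1 hx)]
      congr 1
      apply Finset.sum_congr rfl
      intro i hi
      have hi' := List.mem_toFinset.1 hi
      have hlen : (X.erase i).length < n := by
        have := List.length_erase_le (a := i) (l := X)
        omega
      have e1 : (X.map e).erase (e i) = (X.erase i).map e := (List.map_erase he X).symm
      have e2 : (X.toFinset.image e).erase (e i) = (X.toFinset.erase i).image e :=
        (Finset.image_erase he _ _).symm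
      have hY : ∀ x ∈ X.toFinset.erase i, z' (e x) = z x := fun x hx =>
        hX' x (List.mem_toFinset.1 (Finset.mem_of_mem_erase hx))
      rw [e1, e2, Dl_map he hY, wt_map he (hX' i hi') hY,
        ih _ hlen (X.erase i) rfl fun x hx => hX' x (List.mem_of_mem_erase hx),
        ux_map (hX' i hi'), LinearMap.comp_apply, LinearMap.comp_apply, push_apply]
      congr 1
      funext q
      rw [Module.End.mul_apply, Module.End.mul_apply, jn_rst he]
      have e4 : (fun q => (oE uops z' (X.map e) (e i)) F (rst he q)) =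
          (oE uops z X i) fun q => F (rst he q) := by
        funext q'
        exact oE_rst he hX' hi' F q'
      rw [e4]

/-- **Renaming of the sites**, zero-leg functional. -/
theorem PH_map (h : ∀ x ∈ X, z' (e x) = z x) : PH z' (X.map e) = push he (PH z X) :=
  PH_map_aux he _ X rfl h

theorem cu_rst (p i : β) (F : EXL.Pat α → ℂ) (q : EXL.Pat β) :
    opCu ℂ (e p) (e i) F (rst he q) = opCu ℂ p i (fun q => F (rst he q)) q := by
  have h := jn_rst he p i 0 1 F q
  simpa [jn] using h

/-- **Renaming of the sites**, exit functional. -/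
theorem PS_map (h : ∀ x ∈ X, z' (e x) = z x) : PS z' (e b) (X.map e) = push he (PS z b X) := by
  have hf : (X.map e).toFinset = X.toFinset.image e := by
    ext x
    simp
  refine LinearMap.ext fun F => ?_
  rw [push_apply, PS_eq, PS_eq, hf, Finset.sum_image he.injOn, LinearMap.smul_apply,
    LinearMap.smul_apply, LinearMap.sum_apply, LinearMap.sum_apply]
  congr 1
  refine Finset.sum_congr rfl fun i hi => ?_
  have hi' := List.mem_toFinset.1 hi
  have e1 : (X.map e).erase (e i) = (X.erase i).map e := (List.map_erase he X).symm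
  have e2 : (X.toFinset.image e).erase (e i) = (X.toFinset.erase i).image e :=
    (Finset.image_erase he _ _).symm
  have hY : ∀ x ∈ X.toFinset.erase i, z' (e x) = z x := fun x hx =>
    h x (List.mem_toFinset.1 (Finset.mem_of_mem_erase hx))
  rw [psT, psT, hf, e1, e2, wt_map he (h i hi') hY,
    PH_map he fun x hx => h x (List.mem_of_mem_erase hx), LinearMap.smul_apply,
    LinearMap.smul_apply, LinearMap.comp_apply, LinearMap.comp_apply, push_apply]
  congr 2
  funext q
  rw [Module.End.mul_apply, Module.End.mul_apply, cu_rst he]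
  have e4 : (fun q => (oE uops z' (X.map e) (e i)) F (rst he q)) =
      (oE uops z X i) fun q => F (rst he q) := by
    funext q'
    exact oE_rst he h hi' F q'
  rw [e4]

end ren

end Pool.Agent.TC
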