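import Pool.Agent.TC.Fam
import Pool.Agent.TC.Gen
import Pool.Agent.TC.Ren

/-!
# The one leg functions of the lattice strip: renaming, canonical sites (helper36)
-/

set_option autoImplicit false

namespace Pool.Agent.TC

open _root_.Pool.Agent.EXL _root_.Pool.Agent.NUF _root_.Pool.Agent.NUU _root_.Pool.Agent.NUT2
open _root_.Pool.Agent.EXL.Fm (lam)
open Complex (I exp sin cos)

section sup

variable {ι : Type*} [DecidableEq ι] {z : ι → ℂ} {L K : List (ι × ι)} {A B : List ι} {q g m : ι}

theorem supR (z : ι → ℂ) (K L : List (ι × ι)) (A : List ι) : SupS (SR K L A) (PH z (lr K L A)) :=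
  PH_supS _ _

theorem supL (z : ι → ℂ) (K L : List (ι × ι)) (B : List ι) : SupS (SL K L B) (PH z (ll K L B)) :=
  PH_supS _ _

theorem supRq (z : ι → ℂ) (K L : List (ι × ι)) (A : List ι) (q : ι) :
    SupS (insert q (SR K L A)) (PS z q (lr K L A)) := PS_supS _ _ _

theorem supLg (z : ι → ℂ) (K L : List (ι × ι)) (B : List ι) (g : ι) :
    SupS (insert g (SL K L B)) (PS z g (ll K L B)) := PS_supS _ _ _

end sup

section map

variable {α β : Type*} [DecidableEq α] [DecidableEq β] {e : β → α} {ω : ℂ} {z : β → ℂ} {z' : α → ℂ}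
  {K L : List (β × β)} {A B : List β} {q g m : β}

theorem lr_map (K L : List (β × β)) (A : List β) :
    lr (K.map (Prod.map e e)) (L.map (Prod.map e e)) (A.map e) = (lr K L A).map e := by
  unfold lr
  simp [Function.comp_def]

theorem ll_map (K L : List (β × β)) (B : List β) :
    ll (K.map (Prod.map e e)) (L.map (Prod.map e e)) (B.map e) = (ll K L B).map e := by
  unfold ll
  simp [Function.comp_def]

theorem chX_map (he : Function.Injective e) (L : List (β × β)) (q x : β) :
    chX (L.map (Prod.map e e)) (e q) (e x) = chX L q x := by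
  unfold chX
  rw [Pi.add_apply, Pi.add_apply]
  congr 1
  · have h1 : chw (L.map (Prod.map e e)) (e x) = chw L x := by
      unfold chw
      have h2 : e x ∈ (L.map (Prod.map e e)).map Prod.fst ↔ x ∈ L.map Prod.fst := by
        rw [List.map_map]
        have h3 : (Prod.fst ∘ Prod.map e e : β × β → α) = e ∘ Prod.fst := rfl
        rw [h3, ← List.map_map, List.mem_map_of_injective he]
      by_cases h : x ∈ L.map Prod.fst
      · rw [if_pos h, if_pos (h2.2 h)]
      · rw [if_neg h, if_neg (fun hh => h (h2.1 hh))]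
    rw [h1]
  · rw [Pi.single_apply, Pi.single_apply]
    by_cases h : x = q
    · rw [if_pos h, if_pos (by rw [h])]
    · rw [if_neg h, if_neg fun hh => h (he hh)]

theorem exp_neg' {x y : ℂ} (h : exp (I * x) = exp (I * y)) : exp (I * -x) = exp (I * -y) := by
  rw [mul_neg, mul_neg, Complex.exp_neg, Complex.exp_neg, h]

/-- **Renaming of the sites.** -/
theorem WT_map (he : Function.Injective e) (hO : OkT K L A B q g m)
    (hz : ∀ x, x ∈ lr K L A ∨ x ∈ ll K L B → exp (I * z' (e x)) = exp (I * z x)) :
    WT ω z' (K.map (Prod.map e e)) (L.map (Prod.map e e)) (A.map e) (B.map e) (e q) (e g) (e m) =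
      WT ω z K L A B q g m := by
  have u1 : PH (fun i => -z' i) ((lr K L A).map e) = push he (PH (fun i => -z i) (lr K L A)) := by
    rw [PH_map he (z := fun i => -z' (e i)) (fun x _ => rfl)]
    congr 1
    exact PH_cexp fun x hx => exp_neg' (hz x (Or.inl hx))
  have u2 : PH z' ((ll K L B).map e) = push he (PH z (ll K L B)) := by
    rw [PH_map he (z := fun i => z' (e i)) (fun x _ => rfl)]
    congr 1
    exact PH_cexp fun x hx => hz x (Or.inr hx)
  have v1 : PS (fun i => -z' i) (e q) ((lr K L A).map e) =
      push he (PS (fun i => -z i) q (lr K L A)) := by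
    rw [PS_map he (z := fun i => -z' (e i)) (fun x _ => rfl)]
    congr 1
    exact PS_cexp fun x hx => exp_neg' (hz x (Or.inl hx))
  have v2 : PS z' (e g) ((ll K L B).map e) = push he (PS z g (ll K L B)) := by
    rw [PS_map he (z := fun i => z' (e i)) (fun x _ => rfl)]
    congr 1
    exact PS_cexp fun x hx => hz x (Or.inr hx)
  unfold WT WR WG
  rw [lr_map, ll_map, u1, u2, v1, v2, ← List.map_append]
  congr 1
  · exact Wp_map he (fun x => chX_map he L q x) hO.gdq (supRq _ _ _ _ _) (supL _ _ _ _) hO.disjR
  · exact Wp_map he (fun x => chX_map he L g x) hO.gdg (supR _ _ _ _) (supLg _ _ _ _ _) hO.disjL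

end map

/-! ### Canonical sites -/

section can

variable {ι : Type*} [DecidableEq ι]

omit [DecidableEq ι] in
theorem OkT.of_map {κ : Type*} {e : κ → ι} {K L : List (κ × κ)} {A B : List κ} {q g m : κ}
    (h : (sites (K.map (Prod.map e e)) (L.map (Prod.map e e)) (A.map e) (B.map e) (e q) (e g)).Nodup)
    (hm : m ∈ A ++ B) : OkT K L A B q g m := by
  refine ⟨List.Nodup.of_map e ?_, hm⟩
  have e1 : (sites K L A B q g).map e =
      sites (K.map (Prod.map e e)) (L.map (Prod.map e e)) (A.map e) (B.map e) (e q) (e g) := by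
    unfold sites
    simp [Function.comp_def]
  rw [e1]
  exact h

theorem okT_can {n m : ℕ} {A B : List (Fin 6)} (hA : (0 :: 1 :: (A ++ B)).Nodup) {a : Fin 6}
    (ha : a ∈ A ++ B) :
    OkT (Ic n m) (Jc n m) (A.map sc) (B.map sc) (sc 0) (sc 1) (sc a) := by
  refine ⟨nodup_can hA, ?_⟩
  rw [← List.map_append]
  exact List.mem_map_of_mem ha

/-- **The function depends on the lines only.** -/
theorem WT_eq_WC {ω : ℂ} {z : ι → ℂ} {K L : List (ι × ι)} {s : Fin 6 → ι}
    (hs : Function.Injective s) (hG : Gd (K ++ L)) (hd : ∀ k, ∀ t ∈ K ++ L, s k ≠ t.1 ∧ s k ≠ t.2)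
    {A B : List (Fin 6)} (hA : (0 :: 1 :: (A ++ B)).Nodup) {m : Fin 6} (hm : m ∈ A ++ B)
    (hz : ∀ t ∈ K ++ L, exp (I * z t.2) = exp (I * z t.1)) {v : Fin 6 → ℂ}
    (hv : ∀ j ∈ A ++ B, exp (I * z (s j)) = v j) {K' L' : List ℂ}
    (hK : K.map (fun t => exp (I * z t.1)) = K') (hL : L.map (fun t => exp (I * z t.1)) = L') :
    WT ω z K L (A.map s) (B.map s) (s 0) (s 1) (s m) /
      (cQ (K.length + L.length + A.length) * cQ (K.length + L.length + B.length)) =
      WC ω K' L' v A B m := by
  have hN : K'.length = K.length := by rw [← hK, List.length_map]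
  have hM : L'.length = L.length := by rw [← hL, List.length_map]
  set e := ec K L s hN hM with he
  have hinj : Function.Injective e := ec_inj hs hG hd hN hM
  have k1 : (Ic K'.length L'.length).map (Prod.map e e) = K := by
    unfold Ic
    rw [List.map_map]
    exact map_get_cast K hN
  have k2 : (Jc K'.length L'.length).map (Prod.map e e) = L := by
    unfold Jc
    rw [List.map_map]
    exact map_get_cast L hM
  have k3 : ∀ C : List (Fin 6), (C.map sc).map e = C.map s := by
    intro C
    rw [List.map_map]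
    rfl
  have hn : (sites K L (A.map s) (B.map s) (s 0) (s 1)).Nodup := by
    unfold sites
    have h1 : s 0 :: s 1 :: (A.map s ++ B.map s) = (0 :: 1 :: (A ++ B)).map s := by simp
    rw [h1, List.nodup_append]
    refine ⟨hG, hA.map hs, ?_⟩
    intro x hx y hy hxy
    subst hxy
    obtain ⟨j, -, rfl⟩ := List.mem_map.1 hy
    rcases List.mem_append.1 hx with hx | hx
    · obtain ⟨t, ht, h2⟩ := List.mem_map.1 hx
      exact (hd j t ht).1 h2.symm
    · obtain ⟨t, ht, h2⟩ := List.mem_map.1 hx
      exact (hd j t ht).2 h2.symm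
  have hO : OkT (Ic K'.length L'.length) (Jc K'.length L'.length) (A.map sc) (B.map sc) (sc 0) (sc 1)
      (sc m) := by
    refine OkT.of_map (e := e) ?_ ?_
    · rw [k1, k2, k3, k3]
      exact hn
    · rw [← List.map_append]
      exact List.mem_map_of_mem hm
  have e1 : ∀ (i : Fin K'.length) (b : Bool), exp (I * z (e (Sum.inl (i, b)))) =
      exp (I * zc K' L' v (Sum.inl (i, b))) := by
    intro i b
    have h1 : K'.get i = exp (I * z (K.get (i.cast hN)).1) := by
      subst hK
      simp
    have h2 : exp (I * zc K' L' v (Sum.inl (i, b))) = exp (I * z (K.get (i.cast hN)).1) := by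
      show exp (I * lg (K'.get i)) = _
      rw [exp_lg (by rw [h1]; exact Complex.exp_ne_zero _), h1]
    rw [h2]
    cases b
    · rfl
    · exact hz _ (List.mem_append_left _ (List.get_mem K _))
  have e2 : ∀ (i : Fin L'.length) (b : Bool), exp (I * z (e (Sum.inr (Sum.inl (i, b))))) =
      exp (I * zc K' L' v (Sum.inr (Sum.inl (i, b)))) := by
    intro i b
    have h1 : L'.get i = exp (I * z (L.get (i.cast hM)).1) := by
      subst hL
      simp
    have h2 : exp (I * zc K' L' v (Sum.inr (Sum.inl (i, b)))) =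
        exp (I * z (L.get (i.cast hM)).1) := by
      show exp (I * lg (L'.get i)) = _
      rw [exp_lg (by rw [h1]; exact Complex.exp_ne_zero _), h1]
    rw [h2]
    cases b
    · rfl
    · exact hz _ (List.mem_append_right _ (List.get_mem L _))
  have e3 : ∀ j ∈ A ++ B, exp (I * z (s j)) = exp (I * zc K' L' v (Sum.inr (Sum.inr j))) := by
    intro j hj
    have h1 := hv j hj
    show _ = exp (I * lg (v j))
    rw [exp_lg (by rw [← h1]; exact Complex.exp_ne_zero _), h1]
  have key := WT_map (ω := ω) (z := zc K' L' v) (z' := z) hinj hO ?_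
  · rw [k1, k2, k3, k3] at key
    have key2 : WT ω z K L (A.map s) (B.map s) (s 0) (s 1) (s m) =
      WT ω (zc K' L' v) (Ic K'.length L'.length) (Jc K'.length L'.length) (A.map sc) (B.map sc)
        (sc 0) (sc 1) (sc m) := key
    unfold WC
    rw [key2, ← hN, ← hM]
  · intro x hx
    rcases x with ⟨i, b⟩ | ⟨i, b⟩ | j
    · exact e1 i b
    · exact e2 i b
    · refine e3 j ?_
      have h1 : ∀ n m : ℕ, ∀ t ∈ Ic n m ++ Jc n m, t.1 ≠ sc j ∧ t.2 ≠ sc j := by
        intro n m t ht
        rcases List.mem_append.1 ht with ht | ht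
        · obtain ⟨i, -, rfl⟩ := List.mem_map.1 ht
          exact ⟨by simp [sc], by simp [sc]⟩
        · obtain ⟨i, -, rfl⟩ := List.mem_map.1 ht
          exact ⟨by simp [sc], by simp [sc]⟩
      have hsc : ∀ C : List (Fin 6), (Sum.inr (Sum.inr j) : Sc K'.length L'.length) ∈ C.map sc →
          j ∈ C := by
        intro C hC
        obtain ⟨j', hj', h3⟩ := List.mem_map.1 hC
        have h4 : j' = j := Sum.inr_injective (Sum.inr_injective h3)
        rwa [← h4]
      rcases hx with hx | hx
      · unfold lr at hx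
        rcases List.mem_append.1 hx with hx | hx
        · obtain ⟨t, ht, h2⟩ := List.mem_map.1 hx
          exact absurd h2 (h1 _ _ t (List.mem_append_left _ ht)).1
        · rcases List.mem_append.1 hx with hx | hx
          · exact List.mem_append_left _ (hsc A hx)
          · obtain ⟨t, ht, h2⟩ := List.mem_map.1 hx
            exact absurd h2 (h1 _ _ t (List.mem_append_right _ ht)).1
      · unfold ll at hx
        rcases List.mem_append.1 hx with hx | hx
        · obtain ⟨t, ht, h2⟩ := List.mem_map.1 hx
          exact absurd h2 (h1 _ _ t (List.mem_append_left _ ht)).2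
        · rcases List.mem_append.1 hx with hx | hx
          · exact List.mem_append_right _ (hsc B hx)
          · obtain ⟨t, ht, h2⟩ := List.mem_map.1 hx
            exact absurd h2 (h1 _ _ t (List.mem_append_right _ ht)).2

end can

end Pool.Agent.TC
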