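import Pool.Agent.TC.Fam
import Pool.Agent.NUT2.Tp6

/-!
# Exchange of the two ends of the one leg functions of the strip: the rhombus (helper13)

`WT_swB`, `WT_swA`: the two ended lines `a`, `b` of the right half strip are exchanged, the leg starts at `b`, `a`.
-/

set_option autoImplicit false

namespace Pool.Agent.TC

open _root_.Pool.Agent.EXL _root_.Pool.Agent.NUF _root_.Pool.Agent.NUU _root_.Pool.Agent.NUT2
open _root_.Pool.Agent.EXL.Fm (lam)
open _root_.Pool.Agent.NUTV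
open Complex (I exp sin cos)

section ends

variable {ι : Type*} [DecidableEq ι] {ω : ℂ} {z : ι → ℂ} {K L : List (ι × ι)} {A B : List ι}
  {a b q g m c d : ι}

omit [DecidableEq ι] in
theorem OkT.ends (hO : OkT K L [a, b] B q g m) : a ≠ b ∧ (a ≠ q ∧ b ≠ q) ∧ (a ≠ g ∧ b ≠ g) ∧
    (∀ t ∈ K ++ L, a ≠ t.1 ∧ a ≠ t.2) ∧ (∀ t ∈ K ++ L, b ≠ t.1 ∧ b ≠ t.2) := by
  have h1 := hO.nd
  unfold sites at h1
  simp only [List.nodup_append, List.nodup_cons, List.map_append, List.mem_append, List.mem_cons,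
    List.mem_map] at h1
  refine ⟨?_, ⟨?_, ?_⟩, ⟨?_, ?_⟩, ?_, ?_⟩
  · grind
  · grind
  · grind
  · grind
  · grind
  · intro t ht
    have ht' := List.mem_append.1 ht
    constructor
    · rintro rfl
      grind
    · rintro rfl
      grind
  · intro t ht
    have ht' := List.mem_append.1 ht
    constructor
    · rintro rfl
      grind
    · rintro rfl
      grind

/-- The labels of the two ends. -/
theorem OkT.chX_ends (hO : OkT K L [a, b] B q g m) (r : ι) (hr : r = q ∨ r = g) :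
    chX L r a = chX L r b := by
  obtain ⟨hab, hq, hg, h1, h2⟩ := hO.ends
  have ha : a ∉ L.map Prod.fst := by
    intro h
    obtain ⟨t, ht, e⟩ := List.mem_map.1 h
    exact (h1 t (List.mem_append_right _ ht)).1 e.symm
  have hb : b ∉ L.map Prod.fst := by
    intro h
    obtain ⟨t, ht, e⟩ := List.mem_map.1 h
    exact (h2 t (List.mem_append_right _ ht)).1 e.symm
  have hra : a ≠ r := by rcases hr with rfl | rfl; exacts [hq.1, hg.1]
  have hrb : b ≠ r := by rcases hr with rfl | rfl; exacts [hq.2, hg.2]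
  simp only [chX, chw, Pi.add_apply]
  rw [if_neg ha, if_neg hb, Pi.single_eq_of_ne hra, Pi.single_eq_of_ne hrb]

theorem supS_of_sup {X : List ι} {V : Fnl ι} (h : Sup X V) : SupS {i | i ∈ X} V := fun F hF =>
  h F fun p hp => hF p fun _ hx => ax_out hp hx

theorem supS_cons_sup {X : List ι} {V : Fnl ι} (h : Sup (b :: X) V) : SupS (insert b {i | i ∈ X}) V :=
  (supS_of_sup h).mono fun i hi => by simpa using hi

/-- the hypotheses: generic lines of both half strips, two spare sites -/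
structure Gsw (z : ι → ℂ) (K L : List (ι × ι)) (A B : List ι) (q g c d : ι) : Prop where
  r : Gz (fun i => -z i) (lr K L A)
  l : Gz z (ll K L B)
  cr : c ∉ q :: lr K L A
  dr : d ∉ q :: lr K L A
  cl : c ∉ g :: ll K L B
  dl : d ∉ g :: ll K L B
  cd : c ≠ d

variable [Finite ι]

theorem Gsw.sup (h : Gsw z K L A B q g c d) (hO : OkT K L A B q g m) :
    SupS (SR K L A) (PH (fun i => -z i) (lr K L A)) ∧ SupS (SL K L B) (PH z (ll K L B)) ∧
    SupS (insert q (SR K L A)) (PS (fun i => -z i) q (lr K L A)) ∧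
    SupS (insert g (SL K L B)) (PS z g (ll K L B)) := by
  refine ⟨?_, ?_, ?_, ?_⟩
  · exact supS_of_sup (PH_sup hO.ndR (fun e => h.cr (List.mem_cons_of_mem _ e))
      (fun e => h.dr (List.mem_cons_of_mem _ e)) h.cd h.r)
  · exact supS_of_sup (PH_sup hO.ndL (fun e => h.cl (List.mem_cons_of_mem _ e))
      (fun e => h.dl (List.mem_cons_of_mem _ e)) h.cd h.l)
  · exact supS_cons_sup (PS_sup (List.nodup_cons.2 ⟨hO.outR.1, hO.ndR⟩) h.cr h.dr h.cd (go_of h.r hO.ndR))
  · exact supS_cons_sup (PS_sup (List.nodup_cons.2 ⟨hO.outL.2.1, hO.ndL⟩) h.cl h.dl h.cd (go_of h.l hO.ndL))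

omit [DecidableEq ι] [Finite ι] in
theorem Gsw.gor (h : Gsw z K L [a, b] B q g c d) (hO : OkT K L [a, b] B q g m) :
    Go (fun i => -z i) (K.map Prod.fst ++ a :: b :: L.map Prod.fst) ∧
    Go (fun i => -z i) (K.map Prod.fst ++ b :: a :: L.map Prod.fst) := by
  have hp : (K.map Prod.fst ++ a :: b :: L.map Prod.fst).Perm
      (K.map Prod.fst ++ b :: a :: L.map Prod.fst) := swap_perm _ _ _ _
  have hn : (K.map Prod.fst ++ a :: b :: L.map Prod.fst).Nodup := hO.ndR
  have hG : Gz (fun i => -z i) (K.map Prod.fst ++ a :: b :: L.map Prod.fst) := h.r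
  exact ⟨go_of hG hn, go_of (Gz.perm hG hp) (hp.nodup_iff.1 hn)⟩

/-- **The exchange law of the right functionals.** -/
theorem Gsw.exch (h : Gsw z K L [a, b] B q g c d) (hO : OkT K L [a, b] B q g m) :
    PH (fun i => -z i) (lr K L [a, b]) ∘ₗ uops.R a b (z b - z a) = PH (fun i => -z i) (lr K L [b, a]) ∧
    PS (fun i => -z i) q (lr K L [a, b]) ∘ₗ uops.R a b (z b - z a) =
      PS (fun i => -z i) q (lr K L [b, a]) := by
  obtain ⟨g1, g2⟩ := h.gor hO
  have hn : (K.map Prod.fst ++ a :: b :: L.map Prod.fst).Nodup := hO.ndR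
  have hc : c ∉ q :: (K.map Prod.fst ++ a :: b :: L.map Prod.fst) := h.cr
  have hd : d ∉ q :: (K.map Prod.fst ++ a :: b :: L.map Prod.fst) := h.dr
  have e : z b - z a = -z a - -z b := by ring
  have hq : q ∉ K.map Prod.fst ++ a :: b :: L.map Prod.fst := hO.outR.1
  refine ⟨?_, ?_⟩
  · rw [e]
    exact PH_exchO hn (fun k => hc (List.mem_cons_of_mem _ k)) (fun k => hd (List.mem_cons_of_mem _ k))
      h.cd g1 g2
  · rw [e]
    exact PS_exch (List.nodup_cons.2 ⟨hq, hn⟩) hc hd h.cd g1 g2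

/-- **Exchange of the two ends**, the leg starts at `b`. -/
theorem WT_swB (h : Gsw z K L [a, b] B q g c d) (hO : OkT K L [a, b] B q g b) :
    WT ω z K L [b, a] B q g b =
      (EXL.rwt (z b - z a)).v * WT ω z K L [a, b] B q g b +
        (EXL.rwt (z b - z a)).u1 * WT ω z K L [a, b] B q g a := by
  obtain ⟨hab, hq, hg, h1, h2⟩ := hO.ends
  obtain ⟨s1, s2, s3, s4⟩ := h.sup hO
  obtain ⟨x1, x2⟩ := h.exch hO
  have ha : a ∈ SR K L [a, b] := by simp [SR, lr]
  have hb : b ∈ SR K L [a, b] := by simp [SR, lr]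
  have k1 := ends_R (nuw_neg ω) (nuw_zero ω) (χ := chX L q) s3 s2 hO.disjR hO.gdq hab hq.1 h1
    (Set.mem_insert_of_mem _ ha) (Set.mem_insert_of_mem _ hb) (hO.chX_ends q (Or.inl rfl)) (z b - z a)
  have k2 := ends_R (nuw_neg ω) (nuw_zero ω) (χ := chX L g) s1 s4 hO.disjL hO.gdg hab hg.1 h1
    ha hb (hO.chX_ends g (Or.inr rfl)) (z b - z a)
  rw [x2] at k1
  rw [x1] at k2
  unfold WT WR WG
  rw [k1, k2]
  ring

/-- **Exchange of the two ends**, the leg starts at `a`. -/
theorem WT_swA (h : Gsw z K L [a, b] B q g c d) (hO : OkT K L [a, b] B q g a) :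
    WT ω z K L [b, a] B q g a =
      (EXL.rwt (z b - z a)).v * WT ω z K L [a, b] B q g a +
        (EXL.rwt (z b - z a)).u1 * WT ω z K L [a, b] B q g b := by
  obtain ⟨hab, hq, hg, h1, h2⟩ := hO.ends
  obtain ⟨s1, s2, s3, s4⟩ := h.sup hO
  obtain ⟨x1, x2⟩ := h.exch hO
  have ha : a ∈ SR K L [a, b] := by simp [SR, lr]
  have hb : b ∈ SR K L [a, b] := by simp [SR, lr]
  have k1 := ends_R (nuw_neg ω) (nuw_zero ω) (χ := chX L q) s3 s2 hO.disjR hO.gdq hab.symm hq.2 h2
    (Set.mem_insert_of_mem _ hb) (Set.mem_insert_of_mem _ ha) (hO.chX_ends q (Or.inl rfl)).symm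
    (z b - z a)
  have k2 := ends_R (nuw_neg ω) (nuw_zero ω) (χ := chX L g) s1 s4 hO.disjL hO.gdg hab.symm hg.2 h2
    hb ha (hO.chX_ends g (Or.inr rfl)).symm (z b - z a)
  rw [(ulaws (ι := ι)).Rs (i := b), x2] at k1
  rw [(ulaws (ι := ι)).Rs (i := b), x1] at k2
  unfold WT WR WG
  rw [k1, k2]
  ring

end ends

end Pool.Agent.TC
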