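import Pool.Agent.TC.Can
import Pool.Agent.TC.Ends
import Pool.Agent.TC.Gen
import Pool.Agent.NUTV.F_ex

/-!
# Exchange of the two ends of the one leg functions of the strip: fields `exX`, `exY` (helper13)
-/

set_option autoImplicit false

namespace Pool.Agent.TC

open _root_.Pool.Agent.EXL _root_.Pool.Agent.NUF _root_.Pool.Agent.NUU _root_.Pool.Agent.NUT2
open _root_.Pool.Agent.NUTV
open _root_.Pool.Agent.EXL.Fm (lam)
open Complex (I exp sin cos)

section can

variable {ω : ℂ} {K L : List ℂ} {a b : ℂ}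

/-- Other names of the sites `2`, ..., `5`. -/
theorem WT_perm6 (ω : ℂ) (K L : List ℂ) (v : Fin 6 → ℂ) {A B : List (Fin 6)}
    (hA : (0 :: 1 :: (A ++ B)).Nodup) {a : Fin 6} (ha : a ∈ A ++ B)
    (σ : Equiv.Perm (Fin 6)) (h0 : σ 0 = 0) (h1 : σ 1 = 1) :
    WT ω (zc K L v) (Ic _ _) (Jc _ _) ((A.map σ).map sc) ((B.map σ).map sc) (sc 0) (sc 1) (sc (σ a)) =
      WT ω (zc K L (v ∘ σ)) (Ic _ _) (Jc _ _) (A.map sc) (B.map sc) (sc 0) (sc 1) (sc a) := by
  set e : Sc K.length L.length → Sc K.length L.length := Sum.map id (Sum.map id σ) with he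
  have hinj : Function.Injective e :=
    Function.Injective.sumMap Function.injective_id
      (Function.Injective.sumMap Function.injective_id σ.injective)
  have h2 := WT_map (ω := ω) (z := zc K L (v ∘ σ)) (z' := zc K L v) hinj
    (okT_can (n := K.length) (m := L.length) hA ha) (fun x _ => by
      rcases x with x | x | x
      · rfl
      · rfl
      · rfl)
  have k1 : (Ic K.length L.length).map (Prod.map e e) = Ic K.length L.length := by
    unfold Ic
    rw [List.map_map]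
    rfl
  have k2 : (Jc K.length L.length).map (Prod.map e e) = Jc K.length L.length := by
    unfold Jc
    rw [List.map_map]
    rfl
  have k3 : ∀ C : List (Fin 6), (C.map (sc (n := K.length) (m := L.length))).map e =
      (C.map σ).map sc := by
    intro C
    rw [List.map_map, List.map_map]
    rfl
  have k4 : ∀ c : Fin 6, e (sc c) = sc (σ c) := fun c => rfl
  rw [k1, k2, k3, k3, k4, k4, k4, h0, h1] at h2
  exact h2

theorem can_vals (hK : ∀ x ∈ K, x ≠ 0) (hL : ∀ x ∈ L, x ≠ 0) (v : Fin 6 → ℂ) :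
    ((Ic K.length L.length).map Prod.fst).map (fun x => exp (I * zc K L v x)) = K ∧
    ((Ic K.length L.length).map Prod.snd).map (fun x => exp (I * zc K L v x)) = K ∧
    ((Jc K.length L.length).map Prod.fst).map (fun x => exp (I * zc K L v x)) = L ∧
    ((Jc K.length L.length).map Prod.snd).map (fun x => exp (I * zc K L v x)) = L := by
  have e : ∀ M : List ℂ, (∀ x ∈ M, x ≠ 0) →
      (List.finRange M.length).map (fun k => exp (I * lg (M.get k))) = M := by
    intro M hM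
    have h1 : (List.finRange M.length).map (fun k => exp (I * lg (M.get k))) =
        (List.finRange M.length).map M.get :=
      List.map_congr_left fun k _ => exp_lg (hM _ (List.get_mem M k))
    rw [h1, ← List.ofFn_eq_map]
    exact List.ofFn_get M
  unfold Ic Jc
  simp only [List.map_map]
  exact ⟨e K hK, e K hK, e L hL, e L hL⟩

theorem spare_lr {n m : ℕ} {j : Fin 6} (hj : j = 4 ∨ j = 5) :
    (sc j : Sc n m) ∉ sc 0 :: lr (Ic n m) (Jc n m) [sc 2, sc 3] := by
  unfold lr Ic Jc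
  simp only [List.mem_cons, List.mem_append, List.mem_map, List.map_map]
  rcases hj with rfl | rfl <;> simp [sc]

theorem spare_ll {n m : ℕ} {j : Fin 6} (hj : j = 4 ∨ j = 5) :
    (sc j : Sc n m) ∉ sc 1 :: ll (Ic n m) (Jc n m) [] := by
  unfold ll Ic Jc
  simp only [List.mem_cons, List.mem_append, List.mem_map, List.map_map]
  rcases hj with rfl | rfl <;> simp [sc]

/-- Generic lines: the hypotheses of the exchange. -/
theorem gsw_can (hG : _root_.TC.GC NUTP.th (a :: b :: (K ++ L))) :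
    Gsw (zc K L ![1, 1, a, b, 1, 1]) (Ic _ _) (Jc _ _) [sc 2, sc 3] [] (sc 0) (sc 1) (sc 4) (sc 5) := by
  have hne := gc_ne hG
  obtain ⟨e1, e2, e3, e4⟩ := can_vals (K := K) (L := L) (fun x hx => hne x (by simp [hx]))
    (fun x hx => hne x (by simp [hx])) ![1, 1, a, b, 1, 1]
  have ea : exp (I * zc K L ![1, 1, a, b, 1, 1] (sc 2)) = a := exp_lg (hne a (by simp))
  have eb : exp (I * zc K L ![1, 1, a, b, 1, 1] (sc 3)) = b := exp_lg (hne b (by simp))
  have g1 : GT (zc K L ![1, 1, a, b, 1, 1]) (lr (Ic _ _) (Jc _ _) [sc 2, sc 3]) := by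
    refine gt_of_gc ?_
    unfold lr
    rw [List.map_append, List.map_append, List.map_cons, List.map_cons, List.map_nil, e1, e3, ea, eb]
    refine GC.perm hG ?_
    exact (List.perm_middle.trans (List.Perm.cons a List.perm_middle)).symm
  have g2 : GT (zc K L ![1, 1, a, b, 1, 1]) (ll (Ic _ _) (Jc _ _) []) := by
    refine gt_of_gc ?_
    unfold ll
    rw [List.nil_append, List.map_append, e2, e4]
    exact GC.sublist hG (((List.sublist_cons_self b _).trans (List.sublist_cons_self a _)))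
  exact ⟨g1.neg.gz, g2.gz, spare_lr (Or.inl rfl), spare_lr (Or.inr rfl), spare_ll (Or.inl rfl),
    spare_ll (Or.inr rfl), by simp [sc]⟩

/-- the two exchange relations before the translation of the weights -/
theorem WT_can_ends (hG : _root_.TC.GC NUTP.th (a :: b :: (K ++ L))) (m : Fin 6) (hm : m = 2 ∨ m = 3) :
    WC ω K L ![1, 1, b, a, 1, 1] [2, 3] [] m =
      (EXL.rwt (lg b - lg a)).v * WC ω K L ![1, 1, a, b, 1, 1] [2, 3] [] (Equiv.swap 2 3 m) +
        (EXL.rwt (lg b - lg a)).u1 * WC ω K L ![1, 1, a, b, 1, 1] [2, 3] [] m := by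
  have h := gsw_can hG
  have p := fun (j : Fin 6) (hj : j ∈ ([2, 3] : List (Fin 6))) =>
    WT_perm6 ω K L ![1, 1, a, b, 1, 1] (A := [2, 3]) (B := []) (by decide) (a := j)
      (by simpa using hj) (Equiv.swap 2 3) (by decide) (by decide)
  have e : (![1, 1, a, b, 1, 1] : Fin 6 → ℂ) ∘ Equiv.swap 2 3 = ![1, 1, b, a, 1, 1] := by
    funext j
    fin_cases j <;> rfl
  have e0 : (([2, 3] : List (Fin 6)).map (Equiv.swap 2 3)).map (sc (n := K.length) (m := L.length)) =
      [sc 3, sc 2] := rfl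
  have okB : OkT (Ic K.length L.length) (Jc K.length L.length) [sc 2, sc 3] [] (sc 0) (sc 1) (sc 3) :=
    okT_can (A := [2, 3]) (B := []) (by decide) (a := 3) (by simp)
  have okA : OkT (Ic K.length L.length) (Jc K.length L.length) [sc 2, sc 3] [] (sc 0) (sc 1) (sc 2) :=
    okT_can (A := [2, 3]) (B := []) (by decide) (a := 2) (by simp)
  rcases hm with rfl | rfl
  · have p2 := p 2 (by simp)
    rw [e, e0] at p2
    have w := WT_swB (ω := ω) h okB
    unfold WC
    have p3 : WT ω (zc K L ![1, 1, b, a, 1, 1]) (Ic _ _) (Jc _ _) (([2, 3] : List (Fin 6)).map sc)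
        (([] : List (Fin 6)).map sc) (sc 0) (sc 1) (sc 2) =
        WT ω (zc K L ![1, 1, a, b, 1, 1]) (Ic _ _) (Jc _ _) [sc 3, sc 2] [] (sc 0) (sc 1) (sc 3) :=
      p2.symm
    rw [p3, w]
    have e5 : (Equiv.swap 2 3 : Equiv.Perm (Fin 6)) 2 = 3 := by decide
    rw [e5]
    show _ = (EXL.rwt (lg b - lg a)).v * (WT ω (zc K L ![1, 1, a, b, 1, 1]) (Ic _ _) (Jc _ _)
      [sc 2, sc 3] [] (sc 0) (sc 1) (sc 3) / _) + (EXL.rwt (lg b - lg a)).u1 *
        (WT ω (zc K L ![1, 1, a, b, 1, 1]) (Ic _ _) (Jc _ _) [sc 2, sc 3] [] (sc 0) (sc 1) (sc 2) / _)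
    rw [← mul_div_assoc, ← mul_div_assoc, ← add_div]
    rfl
  · have p2 := p 3 (by simp)
    rw [e, e0] at p2
    have w := WT_swA (ω := ω) h okA
    unfold WC
    have p3 : WT ω (zc K L ![1, 1, b, a, 1, 1]) (Ic _ _) (Jc _ _) (([2, 3] : List (Fin 6)).map sc)
        (([] : List (Fin 6)).map sc) (sc 0) (sc 1) (sc 3) =
        WT ω (zc K L ![1, 1, a, b, 1, 1]) (Ic _ _) (Jc _ _) [sc 3, sc 2] [] (sc 0) (sc 1) (sc 2) :=
      p2.symm
    rw [p3, w]
    have e5 : (Equiv.swap 2 3 : Equiv.Perm (Fin 6)) 3 = 2 := by decide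
    rw [e5]
    show _ = (EXL.rwt (lg b - lg a)).v * (WT ω (zc K L ![1, 1, a, b, 1, 1]) (Ic _ _) (Jc _ _)
      [sc 2, sc 3] [] (sc 0) (sc 1) (sc 2) / _) + (EXL.rwt (lg b - lg a)).u1 *
        (WT ω (zc K L ![1, 1, a, b, 1, 1]) (Ic _ _) (Jc _ _) [sc 2, sc 3] [] (sc 0) (sc 1) (sc 3) / _)
    rw [← mul_div_assoc, ← mul_div_assoc, ← add_div]
    rfl

theorem dn_can (hG : _root_.TC.GC NUTP.th (a :: b :: (K ++ L))) :
    EXL.Fm.Dn (1 * (lg b - lg a)) ≠ 0 := by
  have h1 := (gsw_can hG).r.d (sc 2) (by simp [lr]) (sc 3) (by simp [lr]) (by simp [sc])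
  rw [one_mul]
  have e : -zc K L ![1, 1, a, b, 1, 1] (sc 2) - -zc K L ![1, 1, a, b, 1, 1] (sc 3) = lg b - lg a := by
    show -lg a - -lg b = lg b - lg a
    ring
  rwa [e] at h1

/-- **Field `exX`.** -/
theorem fam_exX (hG : _root_.TC.GC NUTP.th (a :: b :: (K ++ L))) :
    NUTP.sk NUTP.th (b / a) * (fam ω).X K L b a =
      NUTP.sn NUTP.th 3 (a / b) * (NUTP.sn NUTP.th 2 1 * (fam ω).X K L a b +
        NUTP.sn NUTP.th 0 (b / a) * (fam ω).Y K L a b) := by
  have hne := gc_ne hG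
  have w := ends_wt (ε := 1) (Or.inl rfl) (lg a) (lg b) (dn_can hG)
    ((fam ω).X K L a b) ((fam ω).Y K L a b)
  rw [ea_lg (hne a (by simp)), ea_lg (hne b (by simp)), one_mul, te_one] at w
  have h := WT_can_ends (ω := ω) hG 2 (Or.inl rfl)
  have e5 : (Equiv.swap 2 3 : Equiv.Perm (Fin 6)) 2 = 3 := by decide
  rw [e5] at h
  show NUTP.sk NUTP.th (b / a) * WC ω K L ![1, 1, b, a, 1, 1] [2, 3] [] 2 = _
  rw [h]
  exact w

/-- **Field `exY`.** -/
theorem fam_exY (hG : _root_.TC.GC NUTP.th (a :: b :: (K ++ L))) :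
    NUTP.sk NUTP.th (b / a) * (fam ω).Y K L b a =
      NUTP.sn NUTP.th 3 (a / b) * (NUTP.sn NUTP.th 2 1 * (fam ω).Y K L a b +
        NUTP.sn NUTP.th 0 (b / a) * (fam ω).X K L a b) := by
  have hne := gc_ne hG
  have w := ends_wt (ε := 1) (Or.inl rfl) (lg a) (lg b) (dn_can hG)
    ((fam ω).Y K L a b) ((fam ω).X K L a b)
  rw [ea_lg (hne a (by simp)), ea_lg (hne b (by simp)), one_mul, te_one] at w
  have h := WT_can_ends (ω := ω) hG 3 (Or.inr rfl)
  have e5 : (Equiv.swap 2 3 : Equiv.Perm (Fin 6)) 3 = 2 := by decide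
  rw [e5] at h
  show NUTP.sk NUTP.th (b / a) * WC ω K L ![1, 1, b, a, 1, 1] [2, 3] [] 3 = _
  rw [h]
  exact w

end can

end Pool.Agent.TC
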