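import Pool.Agent.TC.Node
import Pool.Agent.TC.F_ex

/-!
# Generic lines and spare sites of the canonical configurations (helper36)
-/

set_option autoImplicit false

namespace Pool.Agent.TC

open _root_.Pool.Agent.EXL _root_.Pool.Agent.NUF _root_.Pool.Agent.NUU _root_.Pool.Agent.NUT2
open _root_.Pool.Agent.NUTV
open _root_.Pool.Agent.EXL.Fm (lam)
open Complex (I exp sin cos)

section can1

variable {K L : List ℂ} {v : Fin 6 → ℂ} {A B : List (Fin 6)}

theorem map_sc (hA : ∀ j ∈ A, v j ≠ 0) :
    (A.map (sc (n := K.length) (m := L.length))).map (fun x => exp (I * zc K L v x)) = A.map v := by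
  rw [List.map_map]
  exact List.map_congr_left fun j hj => exp_lg (hA j hj)

/-- The lines of the right half strip. -/
theorem lr_vals (hK : ∀ x ∈ K, x ≠ 0) (hL : ∀ x ∈ L, x ≠ 0) (hA : ∀ j ∈ A, v j ≠ 0) :
    (lr (Ic K.length L.length) (Jc K.length L.length) (A.map sc)).map
      (fun x => exp (I * zc K L v x)) = K ++ (A.map v ++ L) := by
  obtain ⟨e1, -, e3, -⟩ := can_vals hK hL v
  unfold lr
  rw [List.map_append, List.map_append, e1, e3, map_sc hA]

/-- The lines of the left half strip. -/
theorem ll_vals (hK : ∀ x ∈ K, x ≠ 0) (hL : ∀ x ∈ L, x ≠ 0) (hB : ∀ j ∈ B, v j ≠ 0) :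
    (ll (Ic K.length L.length) (Jc K.length L.length) (B.map sc)).map
      (fun x => exp (I * zc K L v x)) = K ++ (B.map v ++ L) := by
  obtain ⟨-, e2, -, e4⟩ := can_vals hK hL v
  unfold ll
  rw [List.map_append, List.map_append, e2, e4, map_sc hB]

/-- **Generic lines**: the right half strip. -/
theorem gt_canR (hG : _root_.TC.GC NUTP.th (A.map v ++ (K ++ L))) :
    GT (zc K L v) (lr (Ic K.length L.length) (Jc K.length L.length) (A.map sc)) := by
  have hne := gc_ne hG
  refine gt_of_gc ?_
  rw [lr_vals (fun x hx => hne x (by simp [hx])) (fun x hx => hne x (by simp [hx]))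
    (fun j hj => hne _ (List.mem_append_left _ (List.mem_map_of_mem hj)))]
  refine GC.perm hG ?_
  rw [← List.append_assoc, ← List.append_assoc]
  exact List.perm_append_comm.append_right L

/-- **Generic lines**: the left half strip. -/
theorem gt_canL (hG : _root_.TC.GC NUTP.th (B.map v ++ (K ++ L))) :
    GT (zc K L v) (ll (Ic K.length L.length) (Jc K.length L.length) (B.map sc)) := by
  have hne := gc_ne hG
  refine gt_of_gc ?_
  rw [ll_vals (fun x hx => hne x (by simp [hx])) (fun x hx => hne x (by simp [hx]))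
    (fun j hj => hne _ (List.mem_append_left _ (List.mem_map_of_mem hj)))]
  refine GC.perm hG ?_
  rw [← List.append_assoc, ← List.append_assoc]
  exact List.perm_append_comm.append_right L

/-- The ended lines of one side are a part of all ended lines. -/
theorem gc_subR (hG : _root_.TC.GC NUTP.th ((A ++ B).map v ++ (K ++ L))) :
    _root_.TC.GC NUTP.th (A.map v ++ (K ++ L)) :=
  GC.sublist hG (((List.sublist_append_left A B).map v).append_right _)

theorem gc_subL (hG : _root_.TC.GC NUTP.th ((A ++ B).map v ++ (K ++ L))) :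
    _root_.TC.GC NUTP.th (B.map v ++ (K ++ L)) :=
  GC.sublist hG (((List.sublist_append_right A B).map v).append_right _)

theorem sc_ne_full {n m : ℕ} (j : Fin 6) : ∀ t ∈ Ic n m ++ Jc n m, sc j ≠ t.1 ∧ sc j ≠ t.2 := by
  intro t ht
  rcases List.mem_append.1 ht with h | h
  · obtain ⟨k, -, rfl⟩ := List.mem_map.1 h
    exact ⟨by simp [sc], by simp [sc]⟩
  · obtain ⟨k, -, rfl⟩ := List.mem_map.1 h
    exact ⟨by simp [sc], by simp [sc]⟩

/-- The sites of a canonical configuration. -/
theorem sc_notin {n m : ℕ} {j : Fin 6} (hj : j ∉ A ++ B) (h0 : j ≠ 0) (h1 : j ≠ 1) :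
    (sc j : Sc n m) ∉ sites (Ic n m) (Jc n m) (A.map sc) (B.map sc) (sc 0) (sc 1) := by
  have hs : ∀ i : Fin 6, (sc i : Sc n m) = sc j → i = j := fun i h => by
    simpa [sc] using h
  have k1 : ∀ C : List (Fin 6), j ∉ C → (sc j : Sc n m) ∉ C.map sc := by
    intro C hC h
    obtain ⟨i, hi, e⟩ := List.mem_map.1 h
    exact hC (hs i e ▸ hi)
  have k2 := sc_ne_full (n := n) (m := m) j
  have kA := k1 A fun h => hj (List.mem_append_left _ h)
  have kB := k1 B fun h => hj (List.mem_append_right _ h)
  have k0 : (sc j : Sc n m) ≠ sc 0 := fun e => h0 (hs 0 e.symm).symm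
  have k3 : (sc j : Sc n m) ≠ sc 1 := fun e => h1 (hs 1 e.symm).symm
  have k4 : (sc j : Sc n m) ∉ (Ic n m ++ Jc n m).map Prod.fst := by
    intro h
    obtain ⟨t, ht, e⟩ := List.mem_map.1 h
    exact (k2 t ht).1 e.symm
  have k5 : (sc j : Sc n m) ∉ (Ic n m ++ Jc n m).map Prod.snd := by
    intro h
    obtain ⟨t, ht, e⟩ := List.mem_map.1 h
    exact (k2 t ht).2 e.symm
  rw [List.map_append, List.mem_append, not_or] at k4 k5
  unfold sites
  simp only [List.mem_append, List.mem_cons, List.map_append]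
  tauto

/-- **Two spare sites.** -/
theorem spr_can {n m : ℕ} (hA : (4 :: 5 :: (A ++ B)).Nodup) :
    Spr (Ic n m) (Jc n m) (A.map sc) (B.map sc) (sc 0) (sc 1) (sc 4) (sc 5) := by
  obtain ⟨h1, h2⟩ := List.nodup_cons.1 hA
  obtain ⟨h3, -⟩ := List.nodup_cons.1 h2
  refine ⟨by simp [sc], sc_notin (fun h => h1 (List.mem_cons_of_mem _ h)) (by decide) (by decide),
    sc_notin h3 (by decide) (by decide)⟩

/-- The two sites of a full line have the same rapidity. -/
theorem zc_pair (t : Sc K.length L.length × Sc K.length L.length) (ht : t ∈ Ic _ _ ++ Jc _ _) :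
    zc K L v t.2 = zc K L v t.1 := by
  rcases List.mem_append.1 ht with h | h
  · obtain ⟨k, -, rfl⟩ := List.mem_map.1 h
    rfl
  · obtain ⟨k, -, rfl⟩ := List.mem_map.1 h
    rfl

end can1

end Pool.Agent.TC
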