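import Pool.Agent.TC.Fam

/-!
# The one leg functions of the lattice strip: permutations of the full lines (helper71)

`WT_permK`, `WT_permL`: the function `WT` does not change if the full lines below (above) `f` are permuted.
Only ordered genericity (`Go`) of the two half strips is needed, and the permuted lines have to be generic with
respect to each other.
-/

set_option autoImplicit false

namespace Pool.Agent.TC

open _root_.Pool.Agent.EXL _root_.Pool.Agent.NUF _root_.Pool.Agent.NUU _root_.Pool.Agent.NUT2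
  _root_.Pool.Agent.NUTV
open _root_.Pool.Agent.EXL.Fm (lam)
open Complex (I exp sin cos)

section perm

variable {ι : Type*} [DecidableEq ι] {z : ι → ℂ} {K L : List (ι × ι)} {A B : List ι} {q g m : ι}
  {ω : ℂ}

/-! ### Generic rapidities -/

omit [DecidableEq ι] in
theorem gk_neg {X : List ι} (h : Gk z X) : Gk (fun i => -z i) X := by
  intro i hi j hj hij n
  have h1 := h i hi j hj hij (-n)
  rw [show -z i - -z j + n * lam = -(z i - z j + ((-n : ℤ) : ℂ) * lam) by push_cast; ring,
    Complex.sin_neg]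
  exact neg_ne_zero.2 h1

theorem okR_int {w : ℂ} (h : ∀ n : ℤ, sin (w + n * lam) ≠ 0) (n : ℤ) : EXL.okR (w + n * lam) := by
  rw [EXL.Fm.okR_iff, EXL.Fm.Dn]
  refine mul_ne_zero ?_ ?_
  · have := h (n + 2)
    rwa [show 2 * lam + (w + n * lam) = w + ((n + 2 : ℤ) : ℂ) * lam by push_cast; ring]
  · have := h (n + 3)
    rwa [show 3 * lam + (w + n * lam) = w + ((n + 3 : ℤ) : ℂ) * lam by push_cast; ring]

theorem okR_int' {w : ℂ} (h : ∀ n : ℤ, sin (w + n * lam) ≠ 0) (n : ℤ) :
    EXL.okR (-w + n * lam) := by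
  refine okR_int (fun k => ?_) n
  have := h (-k)
  rw [show -w + k * lam = -(w + ((-k : ℤ) : ℂ) * lam) by push_cast; ring, Complex.sin_neg]
  exact neg_ne_zero.2 this

omit [DecidableEq ι] in
/-- Exchange of two neighbouring lines preserves the ordered genericity. -/
theorem Go.swap {X1 X2 : List ι} {j k : ι} (h : Go z (X1 ++ j :: k :: X2))
    (h1 : Complex.sin (z j - z k) ≠ 0 ∧ Fm.Dn (z j - z k) ≠ 0) : Go z (X1 ++ k :: j :: X2) := by
  unfold Go at h ⊢
  rw [List.pairwise_append] at h ⊢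
  obtain ⟨a1, a2, a3⟩ := h
  rw [List.pairwise_cons, List.pairwise_cons] at a2
  obtain ⟨b1, b2, b3⟩ := a2
  refine ⟨a1, ?_, fun a ha x hx => a3 a ha x ?_⟩
  · rw [List.pairwise_cons, List.pairwise_cons]
    refine ⟨fun i hi => ?_, fun i hi => b1 i (by simp [hi]), b3⟩
    rcases List.mem_cons.1 hi with rfl | hi
    · exact h1
    · exact b2 i hi
  · simp only [List.mem_cons] at hx ⊢
    tauto

variable [Finite ι]

/-! ### Exchange of two full lines -/

omit [Finite ι] in
theorem hh3 {Γ : Type*} [AddCommGroup Γ] (ν : Γ → ℂ) :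
    (cops (ι := ι) ν).h + (cops (ι := ι) ν).h = 3 * lam := by
  show (3 * Real.pi / 16 : ℂ) + 3 * Real.pi / 16 = 3 * lam
  unfold EXL.Fm.lam
  ring

/-- **Exchange of two neighbouring full lines on both half strips.** -/
theorem Wp_exchV {Γ : Type*} [AddCommGroup Γ] {ν : Γ → ℂ} (hν : ∀ g, ν (-g) = ν g) (h0 : ν 0 = 0)
    {χ : ι → Γ} {V V1 V' V1' : Fnl ι} {S S' : Set ι} {w : ℂ} {s t : ι × ι} {P P' : List (ι × ι)} {k : ι}
    (hP : P.Perm (s :: t :: P')) (hG : Gd ((m, k) :: P)) (hV : SupS S V) (hV' : SupS S' V')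
    (hd : Disjoint S S') (m1 : s.1 ∈ S) (m2 : t.1 ∈ S) (m3 : s.2 ∈ S') (m4 : t.2 ∈ S')
    (x1 : χ s.1 = χ t.1) (x2 : χ s.2 = χ t.2) (e1 : V ∘ₗ uops.R s.1 t.1 w = V1)
    (e2 : V' ∘ₗ uops.R s.2 t.2 (-w) = V1') (hw : ∀ n : ℤ, sin (w + n * lam) ≠ 0) :
    Wp ν χ V1 V1' m k P = Wp ν χ V V' m k P := by
  have hG' : Gd ((m, k) :: s :: t :: P') := hG.perm (hP.cons _)
  rw [← e1, ← e2, Wp_perm hν hG hP, Wp_perm hν hG hP]
  have a1 := okR_int hw 0
  have a2 := okR_int' hw 0
  have a3 := okR_int' hw 3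
  have a4 := okR_int hw (-3)
  rw [Int.cast_zero, zero_mul, add_zero] at a1 a2
  refine lines_R hν h0 hV hV' hd hG' m1 m2 m3 m4 x1 x2 a1 a2 ?_ ?_
  · rw [hh3, sub_eq_neg_add]
    exact_mod_cast a3
  · rw [hh3]
    have e : w - 3 * lam = w + ((-3 : ℤ) : ℂ) * lam := by push_cast; ring
    rw [e]
    exact a4

omit [DecidableEq ι] [Finite ι] in
theorem OkT.perm {K' L' : List (ι × ι)} (h : OkT K L A B q g m) (hp : (K ++ L).Perm (K' ++ L')) :
    OkT K' L' A B q g m := by
  refine ⟨?_, h.m_mem⟩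
  have h1 := h.nd
  unfold sites at h1 ⊢
  refine (List.Perm.nodup_iff ?_).1 h1
  exact ((hp.map Prod.fst).append (hp.map Prod.snd)).append_right _

omit [Finite ι] in
theorem chX_ne {x k : ι} (h : x ≠ k) : chX L k x = (chw L x, 0) := by
  unfold chX
  rw [Pi.add_apply, Pi.single_eq_of_ne h, add_zero]

/-- **Exchange of two neighbouring full lines.** -/
theorem WT_exch {X1 X2 Y1 Y2 : List ι} {s t : ι × ι} {K' L' P' : List (ι × ι)}
    (hO : OkT K L A B q g m) (hp : (K' ++ L').Perm (K ++ L)) (hP : (K ++ L).Perm (s :: t :: P'))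
    (r1 : lr K L A = X1 ++ s.1 :: t.1 :: X2) (r2 : lr K' L' A = X1 ++ t.1 :: s.1 :: X2)
    (l1 : ll K L B = Y1 ++ s.2 :: t.2 :: Y2) (l2 : ll K' L' B = Y1 ++ t.2 :: s.2 :: Y2)
    (hc : chw L' = chw L) (x1 : chw L s.1 = chw L t.1) (x2 : chw L s.2 = chw L t.2)
    (hs : z s.2 = z s.1) (ht : z t.2 = z t.1) (hw : ∀ n : ℤ, sin (z s.1 - z t.1 + n * lam) ≠ 0)
    (h1 : Go (fun i => -z i) (lr K L A)) (h2 : Go z (ll K L B)) :
    WT ω z K' L' A B q g m = WT ω z K L A B q g m := by
  have hO' : OkT K' L' A B q g m := hO.perm hp.symm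
  have hX : ∀ k, chX L' k = chX L k := fun k => by unfold chX; rw [hc]
  have nR := hO.ndR
  have nL := hO.ndL
  obtain ⟨oq, og, oR⟩ := hO.outR
  obtain ⟨oq', og', oqg, oL⟩ := hO.outL
  have dR := hO.disjR
  have dL := hO.disjL
  unfold SR SL at dR dL
  unfold WT WR WG
  rw [hX, hX, Wp_perm (nuw_neg ω) hO'.gdq hp, Wp_perm (nuw_neg ω) hO'.gdg hp, r2, l2]
  rw [r1] at nR oq og h1 dR dL
  rw [l1] at nL oq' og' h2 dR dL
  rw [r1, l1] at oR oL
  rw [r1, l1]
  have ms1 : s.1 ∈ X1 ++ s.1 :: t.1 :: X2 := by simp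
  have mt1 : t.1 ∈ X1 ++ s.1 :: t.1 :: X2 := by simp
  have ms2 : s.2 ∈ Y1 ++ s.2 :: t.2 :: Y2 := by simp
  have mt2 : t.2 ∈ Y1 ++ s.2 :: t.2 :: Y2 := by simp
  have nst1 : s.1 ≠ t.1 := by
    intro e
    have := (List.nodup_append.1 nR).2.1
    rw [List.nodup_cons] at this
    exact this.1 (by simp [e])
  have nst2 : s.2 ≠ t.2 := by
    intro e
    have := (List.nodup_append.1 nL).2.1
    rw [List.nodup_cons] at this
    exact this.1 (by simp [e])
  have sq1 : s.1 ≠ q := fun e => oq (e ▸ ms1)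
  have tq1 : t.1 ≠ q := fun e => oq (e ▸ mt1)
  have sq2 : s.2 ≠ q := fun e => oq' (e ▸ ms2)
  have tq2 : t.2 ≠ q := fun e => oq' (e ▸ mt2)
  have sg1 : s.1 ≠ g := fun e => og (e ▸ ms1)
  have tg1 : t.1 ≠ g := fun e => og (e ▸ mt1)
  have sg2 : s.2 ≠ g := fun e => og' (e ▸ ms2)
  have tg2 : t.2 ≠ g := fun e => og' (e ▸ mt2)
  -- the exchange factor
  set w : ℂ := -z s.1 - -z t.1 with hwd
  have w2 : z s.2 - z t.2 = -w := by rw [hs, ht, hwd]; ring
  have hw1 : ∀ n : ℤ, sin (w + n * lam) ≠ 0 := by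
    intro n
    have := hw (-n)
    rw [hwd, show -z s.1 - -z t.1 + n * lam = -(z s.1 - z t.1 + ((-n : ℤ) : ℂ) * lam) by
      push_cast; ring, Complex.sin_neg]
    exact neg_ne_zero.2 this
  have hD : ∀ u : ℂ, (∀ n : ℤ, sin (u + n * lam) ≠ 0) → sin u ≠ 0 ∧ Fm.Dn u ≠ 0 := by
    intro u hu
    refine ⟨by simpa using hu 0, ?_⟩
    unfold Fm.Dn
    refine mul_ne_zero ?_ ?_
    · have := hu 2
      rwa [show u + ((2 : ℤ) : ℂ) * lam = 2 * lam + u by push_cast; ring] at this
    · have := hu 3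
      rwa [show u + ((3 : ℤ) : ℂ) * lam = 3 * lam + u by push_cast; ring] at this
  have g1 : Go (fun i => -z i) (X1 ++ t.1 :: s.1 :: X2) := h1.swap (hD _ hw1)
  have g2 : Go z (Y1 ++ t.2 :: s.2 :: Y2) := by
    refine h2.swap ?_
    rw [w2]
    refine hD _ fun n => ?_
    have := hw1 (-n)
    rw [show -w + n * lam = -(w + ((-n : ℤ) : ℂ) * lam) by push_cast; ring, Complex.sin_neg]
    exact neg_ne_zero.2 this
  congr 1
  · -- exit on the right
    have nq : (q :: (X1 ++ s.1 :: t.1 :: X2)).Nodup := List.nodup_cons.2 ⟨oq, nR⟩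
    have c1 : s.2 ∉ q :: (X1 ++ s.1 :: t.1 :: X2) := by
      rw [List.mem_cons]
      rintro (h | h)
      · exact sq2 h
      · exact oR _ ms2 h
    have c2 : t.2 ∉ q :: (X1 ++ s.1 :: t.1 :: X2) := by
      rw [List.mem_cons]
      rintro (h | h)
      · exact tq2 h
      · exact oR _ mt2 h
    have e1 := PS_exch nq c1 c2 nst2 h1 g1
    have e2 := PH_exchO nL (oL _ ms1) (oL _ mt1) nst1 h2 g2
    rw [w2] at e2
    have hd : Disjoint {x | x ∈ q :: (X1 ++ s.1 :: t.1 :: X2)}
        {x | x ∈ Y1 ++ s.2 :: t.2 :: Y2} := by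
      convert dR using 1
      ext x
      simp
    refine Wp_exchV (nuw_neg ω) (nuw_zero ω) hP hO.gdq (PS_sup nq c1 c2 nst2 h1).supS
      (PH_supO nL (oL _ ms1) (oL _ mt1) nst1 h2).supS hd (List.mem_cons_of_mem _ ms1)
      (List.mem_cons_of_mem _ mt1) ms2 mt2 ?_ ?_ e1 e2 hw1
    · rw [chX_ne sq1, chX_ne tq1, x1]
    · rw [chX_ne sq2, chX_ne tq2, x2]
  · -- exit on the left
    have nq : (g :: (Y1 ++ s.2 :: t.2 :: Y2)).Nodup := List.nodup_cons.2 ⟨og', nL⟩
    have c1 : s.1 ∉ g :: (Y1 ++ s.2 :: t.2 :: Y2) := by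
      rw [List.mem_cons]
      rintro (h | h)
      · exact sg1 h
      · exact oL _ ms1 h
    have c2 : t.1 ∉ g :: (Y1 ++ s.2 :: t.2 :: Y2) := by
      rw [List.mem_cons]
      rintro (h | h)
      · exact tg1 h
      · exact oL _ mt1 h
    have e1 := PH_exchO nR (oR _ ms2) (oR _ mt2) nst2 h1 g1
    have e2 := PS_exch nq c1 c2 nst1 h2 g2
    rw [w2] at e2
    have hd : Disjoint {x | x ∈ X1 ++ s.1 :: t.1 :: X2}
        {x | x ∈ g :: (Y1 ++ s.2 :: t.2 :: Y2)} := by
      convert dL using 1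
      ext x
      simp
    refine Wp_exchV (nuw_neg ω) (nuw_zero ω) hP hO.gdg (PH_supO nR (oR _ ms2) (oR _ mt2) nst2 h1).supS
      (PS_sup nq c1 c2 nst1 h2).supS hd ms1 mt1 (List.mem_cons_of_mem _ ms2)
      (List.mem_cons_of_mem _ mt2) ?_ ?_ e1 e2 hw1
    · rw [chX_ne sg1, chX_ne tg1, x1]
    · rw [chX_ne sg2, chX_ne tg2, x2]

/-! ### Permutations -/

omit [DecidableEq ι] [Finite ι] in
theorem Go.perm_mid {P X Y Q : List ι} (h : Go z (P ++ (X ++ Q))) (hp : X.Perm Y) (hk : Gk z X)
    (hn : X.Nodup) : Go z (P ++ (Y ++ Q)) := by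
  have hY : Go z Y := go_of (Gk.gz (hk.sub fun x hx => hp.mem_iff.2 hx)) (hp.nodup_iff.1 hn)
  unfold Go at h hY ⊢
  rw [List.pairwise_append, List.pairwise_append] at h ⊢
  obtain ⟨a1, ⟨-, b2, b3⟩, a3⟩ := h
  refine ⟨a1, ⟨hY, b2, fun a ha b hb => b3 a (hp.mem_iff.2 ha) b hb⟩, fun a ha b hb => a3 a ha b ?_⟩
  rw [List.mem_append] at hb ⊢
  rcases hb with hb | hb
  · exact Or.inl (hp.mem_iff.2 hb)
  · exact Or.inr hb

omit [DecidableEq ι] [Finite ι] in
theorem gk_snd {X : List (ι × ι)} (h : Gk z (X.map Prod.fst)) (hz : ∀ t ∈ X, z t.2 = z t.1)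
    (hn : (X.map Prod.fst).Nodup) : Gk z (X.map Prod.snd) := by
  intro i hi j hj hij n
  obtain ⟨s, hs, rfl⟩ := List.mem_map.1 hi
  obtain ⟨t, ht, rfl⟩ := List.mem_map.1 hj
  rw [hz s hs, hz t ht]
  refine h s.1 (List.mem_map_of_mem hs) t.1 (List.mem_map_of_mem ht) ?_ n
  intro e
  apply hij
  have : s = t := List.inj_on_of_nodup_map hn hs ht e
  rw [this]

/-- **Permutation of the full lines below `f`.** -/
theorem WT_permK {K' : List (ι × ι)} (hp : K.Perm K') (hO : OkT K L A B q g m)
    (hz : ∀ t ∈ K, z t.2 = z t.1) (hk : Gk z (K.map Prod.fst))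
    (h1 : Go (fun i => -z i) (lr K L A)) (h2 : Go z (ll K L B)) :
    WT ω z K L A B q g m = WT ω z K' L A B q g m := by
  have key : ∀ {X Y : List (ι × ι)}, X.Perm Y → ∀ L1 : List (ι × ι), OkT (L1 ++ X) L A B q g m →
      (∀ t ∈ X, z t.2 = z t.1) → Gk z (X.map Prod.fst) →
      Go (fun i => -z i) (lr (L1 ++ X) L A) → Go z (ll (L1 ++ X) L B) →
      WT ω z (L1 ++ X) L A B q g m = WT ω z (L1 ++ Y) L A B q g m := by
    intro X Y hp
    induction hp with
    | nil => intro L1 _ _ _ _ _; rfl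
    | cons x _ ih =>
      intro L1 a1 a2 a3 a4 a5
      have e : ∀ M : List (ι × ι), L1 ++ x :: M = (L1 ++ [x]) ++ M := fun M => by simp
      rw [e] at a1 a4 a5
      have h := ih (L1 ++ [x]) a1 (fun t ht => a2 t (by simp [ht])) (a3.sub fun y hy => by
        rw [List.map_cons]; exact List.mem_cons_of_mem _ hy) a4 a5
      rw [← e, ← e] at h
      exact h
    | swap s t M =>
      intro L1 a1 a2 a3 a4 a5
      have hnR := a1.ndR
      have hout := a1.outL
      have e1 : (L1 ++ t :: s :: M).Perm (t :: s :: (L1 ++ M)) :=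
        List.perm_middle.trans (List.perm_middle.cons _)
      have e2 : (L1 ++ s :: t :: M).Perm (L1 ++ t :: s :: M) :=
        List.Perm.append_left _ (List.Perm.swap _ _ _)
      refine (WT_exch (s := t) (t := s) (X1 := L1.map Prod.fst)
        (X2 := M.map Prod.fst ++ (A ++ L.map Prod.fst)) (Y1 := L1.map Prod.snd)
        (Y2 := M.map Prod.snd ++ (B ++ L.map Prod.snd)) (P' := L1 ++ M ++ L) a1
        (e2.append_right _) (e1.append_right L) ?_ ?_ ?_ ?_ rfl ?_ ?_ (a2 t (by simp)) (a2 s (by simp))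
        ?_ a4 a5).symm
      · simp [lr]
      · simp [lr]
      · simp [ll]
      · simp [ll]
      · have h3 : ∀ u ∈ t :: s :: M, u.1 ∉ L.map Prod.fst := by
          intro u hu h
          unfold lr at hnR
          rw [List.nodup_append] at hnR
          exact hnR.2.2 u.1 (List.mem_map_of_mem (by simp only [List.mem_append]; exact Or.inr hu)) u.1
            (by simp only [List.mem_append]; exact Or.inr h) rfl
        unfold chw
        rw [if_neg (h3 t (by simp)), if_neg (h3 s (by simp))]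
      · have h3 : ∀ u ∈ t :: s :: M, u.2 ∉ L.map Prod.fst := by
          intro u hu h
          refine hout.2.2.2 u.2 ?_ ?_
          · unfold lr
            simp only [List.mem_append]
            exact Or.inr (Or.inr h)
          · unfold ll
            rw [List.mem_append]
            exact Or.inl (List.mem_map_of_mem (by simp only [List.mem_append]; exact Or.inr hu))
        unfold chw
        rw [if_neg (h3 t (by simp)), if_neg (h3 s (by simp))]
      · refine a3 t.1 (by simp) s.1 (by simp) ?_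
        intro e
        unfold lr at hnR
        rw [List.nodup_append, List.map_append, List.nodup_append] at hnR
        have := hnR.1.2.1
        rw [List.map_cons, List.map_cons, List.nodup_cons] at this
        exact this.1 (by simp [e])
    | trans h1 h2 ih1 ih2 =>
      rename_i X Y Z
      intro L1 a1 a2 a3 a4 a5
      rw [ih1 L1 a1 a2 a3 a4 a5]
      have hnX : (X.map Prod.fst).Nodup := by
        have hnR := a1.ndR
        unfold lr at hnR
        rw [List.nodup_append, List.map_append, List.nodup_append] at hnR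
        exact hnR.1.2.1
      have hnX2 : (X.map Prod.snd).Nodup := by
        have hnL := a1.ndL
        unfold ll at hnL
        rw [List.nodup_append, List.map_append, List.nodup_append] at hnL
        exact hnL.1.2.1
      refine ih2 L1 (a1.perm ((List.Perm.append_left _ h1).append_right _))
        (fun t ht => a2 t (h1.mem_iff.2 ht)) (a3.sub fun x hx => (h1.map Prod.fst).mem_iff.2 hx) ?_ ?_
      · have e : ∀ M : List (ι × ι), lr (L1 ++ M) L A =
            L1.map Prod.fst ++ (M.map Prod.fst ++ (A ++ L.map Prod.fst)) := fun M => by simp [lr]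
        rw [e] at a4 ⊢
        exact a4.perm_mid (h1.map Prod.fst) (gk_neg a3) hnX
      · have e : ∀ M : List (ι × ι), ll (L1 ++ M) L B =
            L1.map Prod.snd ++ (M.map Prod.snd ++ (B ++ L.map Prod.snd)) := fun M => by simp [ll]
        rw [e] at a5 ⊢
        exact a5.perm_mid (h1.map Prod.snd) (gk_snd a3 a2 hnX) hnX2
  exact key hp [] hO hz hk h1 h2

/-- **Permutation of the full lines above `f`.** -/
theorem WT_permL {L' : List (ι × ι)} (hp : L.Perm L') (hO : OkT K L A B q g m)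
    (hz : ∀ t ∈ L, z t.2 = z t.1) (hk : Gk z (L.map Prod.fst))
    (h1 : Go (fun i => -z i) (lr K L A)) (h2 : Go z (ll K L B)) :
    WT ω z K L A B q g m = WT ω z K L' A B q g m := by
  have key : ∀ {X Y : List (ι × ι)}, X.Perm Y → ∀ L1 : List (ι × ι), OkT K (L1 ++ X) A B q g m →
      (∀ t ∈ X, z t.2 = z t.1) → Gk z (X.map Prod.fst) →
      Go (fun i => -z i) (lr K (L1 ++ X) A) → Go z (ll K (L1 ++ X) B) →
      WT ω z K (L1 ++ X) A B q g m = WT ω z K (L1 ++ Y) A B q g m := by
    intro X Y hp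
    induction hp with
    | nil => intro L1 _ _ _ _ _; rfl
    | cons x _ ih =>
      intro L1 a1 a2 a3 a4 a5
      have e : ∀ M : List (ι × ι), L1 ++ x :: M = (L1 ++ [x]) ++ M := fun M => by simp
      rw [e] at a1 a4 a5
      have h := ih (L1 ++ [x]) a1 (fun t ht => a2 t (by simp [ht])) (a3.sub fun y hy => by
        rw [List.map_cons]; exact List.mem_cons_of_mem _ hy) a4 a5
      rw [← e, ← e] at h
      exact h
    | swap s t M =>
      intro L1 a1 a2 a3 a4 a5
      have hnR := a1.ndR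
      have hout := a1.outL
      have e1 : (L1 ++ t :: s :: M).Perm (t :: s :: (L1 ++ M)) :=
        List.perm_middle.trans (List.perm_middle.cons _)
      have e2 : (L1 ++ s :: t :: M).Perm (L1 ++ t :: s :: M) :=
        List.Perm.append_left _ (List.Perm.swap _ _ _)
      have e3 : (K ++ (L1 ++ t :: s :: M)).Perm (t :: s :: (K ++ (L1 ++ M))) := by
        refine (List.Perm.append_left K e1).trans ?_
        exact List.perm_middle.trans (List.perm_middle.cons _)
      refine (WT_exch (s := t) (t := s) (X1 := K.map Prod.fst ++ (A ++ L1.map Prod.fst))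
        (X2 := M.map Prod.fst) (Y1 := K.map Prod.snd ++ (B ++ L1.map Prod.snd))
        (Y2 := M.map Prod.snd) (P' := K ++ (L1 ++ M)) a1
        (List.Perm.append_left _ e2) e3 ?_ ?_ ?_ ?_ ?_ ?_ ?_ (a2 t (by simp)) (a2 s (by simp))
        ?_ a4 a5).symm
      · simp [lr]
      · simp [lr]
      · simp [ll]
      · simp [ll]
      · funext x
        unfold chw
        have h3 : x ∈ (L1 ++ s :: t :: M).map Prod.fst ↔ x ∈ (L1 ++ t :: s :: M).map Prod.fst :=
          (e2.map Prod.fst).mem_iff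
        simp only [h3]
      · have h3 : ∀ u ∈ t :: s :: M, u.1 ∈ (L1 ++ t :: s :: M).map Prod.fst := fun u hu =>
          List.mem_map_of_mem (by simp only [List.mem_append]; exact Or.inr hu)
        unfold chw
        rw [if_pos (h3 t (by simp)), if_pos (h3 s (by simp))]
      · have h3 : ∀ u ∈ t :: s :: M, u.2 ∉ (L1 ++ t :: s :: M).map Prod.fst := by
          intro u hu h
          refine hout.2.2.2 u.2 ?_ ?_
          · unfold lr
            simp only [List.mem_append]
            exact Or.inr (Or.inr h)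
          · unfold ll
            simp only [List.mem_append]
            exact Or.inr (Or.inr (List.mem_map_of_mem (by simp only [List.mem_append]; exact Or.inr hu)))
        unfold chw
        rw [if_neg (h3 t (by simp)), if_neg (h3 s (by simp))]
      · refine a3 t.1 (by simp) s.1 (by simp) ?_
        intro e
        unfold lr at hnR
        rw [List.nodup_append] at hnR
        have h4 := hnR.2.1
        rw [List.nodup_append, List.map_append, List.nodup_append] at h4
        have := h4.2.1.2.1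
        rw [List.map_cons, List.map_cons, List.nodup_cons] at this
        exact this.1 (by simp [e])
    | trans h1 h2 ih1 ih2 =>
      rename_i X Y Z
      intro L1 a1 a2 a3 a4 a5
      rw [ih1 L1 a1 a2 a3 a4 a5]
      have hnX : (X.map Prod.fst).Nodup := by
        have hnR := a1.ndR
        unfold lr at hnR
        rw [List.nodup_append] at hnR
        have h4 := hnR.2.1
        rw [List.nodup_append, List.map_append, List.nodup_append] at h4
        exact h4.2.1.2.1
      have hnX2 : (X.map Prod.snd).Nodup := by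
        have hnL := a1.ndL
        unfold ll at hnL
        rw [List.nodup_append] at hnL
        have h4 := hnL.2.1
        rw [List.nodup_append, List.map_append, List.nodup_append] at h4
        exact h4.2.1.2.1
      refine ih2 L1 (a1.perm (List.Perm.append_left _ (List.Perm.append_left _ h1)))
        (fun t ht => a2 t (h1.mem_iff.2 ht)) (a3.sub fun x hx => (h1.map Prod.fst).mem_iff.2 hx) ?_ ?_
      · have e : ∀ M : List (ι × ι), lr K (L1 ++ M) A =
            (K.map Prod.fst ++ (A ++ L1.map Prod.fst)) ++ (M.map Prod.fst ++ []) := fun M => by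
          simp [lr]
        rw [e] at a4 ⊢
        exact a4.perm_mid (h1.map Prod.fst) (gk_neg a3) hnX
      · have e : ∀ M : List (ι × ι), ll K (L1 ++ M) B =
            (K.map Prod.snd ++ (B ++ L1.map Prod.snd)) ++ (M.map Prod.snd ++ []) := fun M => by
          simp [ll]
        rw [e] at a5 ⊢
        exact a5.perm_mid (h1.map Prod.snd) (gk_snd a3 a2 hnX) hnX2
  exact key hp [] hO hz hk h1 h2

omit [DecidableEq ι] [Finite ι] in
theorem go_Gk {X : List ι} (h : Gk z X) (hn : X.Nodup) : Go z X := go_of h.gz hn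

/-- **Permutation of the full lines** (generic rapidities). -/
theorem WT_perm {K' L' : List (ι × ι)} (hK : K.Perm K') (hL : L.Perm L') (hO : OkT K L A B q g m)
    (hz : ∀ t ∈ K ++ L, z t.2 = z t.1) (h1 : Gk z (lr K L A)) (h2 : Gk z (ll K L B)) :
    WT ω z K L A B q g m = WT ω z K' L' A B q g m := by
  have hkK : Gk z (K.map Prod.fst) := h1.sub fun x hx => by
    unfold lr
    rw [List.mem_append]
    exact Or.inl hx
  have hkL : Gk z (L.map Prod.fst) := h1.sub fun x hx => by
    unfold lr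
    rw [List.mem_append, List.mem_append]
    exact Or.inr (Or.inr hx)
  rw [WT_permK hK hO (fun t ht => hz t (by simp [ht])) hkK (go_Gk (gk_neg h1) hO.ndR)
    (go_Gk h2 hO.ndL)]
  have hO' : OkT K' L A B q g m := hO.perm (hK.append_right _)
  have hm : ∀ x, x ∈ lr K' L A → x ∈ lr K L A := fun x hx => by
    unfold lr at hx ⊢
    rw [List.mem_append] at hx ⊢
    rcases hx with hx | hx
    · exact Or.inl ((hK.map Prod.fst).mem_iff.2 hx)
    · exact Or.inr hx
  have hm' : ∀ x, x ∈ ll K' L B → x ∈ ll K L B := fun x hx => by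
    unfold ll at hx ⊢
    rw [List.mem_append] at hx ⊢
    rcases hx with hx | hx
    · exact Or.inl ((hK.map Prod.snd).mem_iff.2 hx)
    · exact Or.inr hx
  exact WT_permL hL hO' (fun t ht => hz t (by simp [ht])) hkL
    (go_Gk (gk_neg (h1.sub hm)) hO'.ndR) (go_Gk (h2.sub hm') hO'.ndL)

end perm

end Pool.Agent.TC
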