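import Pool.Agent.TC.Even2
import Pool.Agent.TC.Perm
import Pool.Agent.TC.Gen

/-!
# Evenness of the family in every full line (helper22)
-/

set_option autoImplicit false

namespace Pool.Agent.TC

open _root_.Pool.Agent.NUF _root_.Pool.Agent.NUT2 _root_.Pool.Agent.NUU _root_.Pool.Agent.NUTV
open _root_.Pool.Agent.EXL (Pat)
open _root_.Pool.Agent.EXL.Fm (lam)

section sgn

variable {ι : Type*} {z z' : ι → ℂ} {X : List ι}

theorem Sm.toDf {x y : ℂ} (h : Sm x y) : Df (-x) y := fun k => by
  have := h (-k)
  rw [show -x - y + k * lam = -(x + y + ((-k : ℤ) : ℂ) * lam) by push_cast; ring, Complex.sin_neg]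
  exact neg_ne_zero.2 this

theorem Sm.toDf' {x y : ℂ} (h : Sm x y) : Df x (-y) := fun k => by
  rw [sub_neg_eq_add]
  exact h k

theorem Df.toSm {x y : ℂ} (h : Df x y) : Sm x (-y) := fun k => by
  rw [← sub_eq_add_neg]
  exact h k

theorem Df.toSm' {x y : ℂ} (h : Df x y) : Sm (-x) y := fun k => by
  rw [show -x + y + k * lam = y - x + k * lam by ring]
  exact h.symm k

/-- Genericity does not depend on the signs of the rapidities. -/
theorem GT.sgn (h : GT z X) (hs : ∀ i ∈ X, z' i = z i ∨ z' i = -z i) : GT z' X where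
  sub i hi j hj hij := by
    rcases hs i hi with e1 | e1 <;> rcases hs j hj with e2 | e2 <;> rw [e1, e2]
    · exact h.sub i hi j hj hij
    · exact (h.add i hi j hj).toDf'
    · exact (h.add i hi j hj).toDf
    · exact (h.sub i hi j hj hij).neg
  add i hi j hj := by
    rcases hs i hi with e1 | e1 <;> rcases hs j hj with e2 | e2 <;> rw [e1, e2]
    · exact h.add i hi j hj
    · by_cases hij : i = j
      · subst hij
        have hzi : z i = -z i := e1.symm.trans e2
        rw [← hzi]
        exact h.add i hi i hi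
      · exact (h.sub i hi j hj hij).toSm
    · by_cases hij : i = j
      · subst hij
        have hzi : z i = -z i := e2.symm.trans e1
        rw [← hzi]
        exact h.add i hi i hi
      · exact (h.sub i hi j hj hij).toSm'
    · exact (h.add i hi j hj).neg

/-- The value of the exit is generic too. -/
theorem Sm.exit {x : ℂ} (h : Sm x x) : Complex.sin (3 * Real.pi / 16 - x) ≠ 0 := by
  intro h0
  have h1 := h (-3)
  apply h1
  have e : x + x + ((-3 : ℤ) : ℂ) * lam = -(2 * (3 * Real.pi / 16 - x)) := by
    unfold EXL.Fm.lam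
    push_cast
    ring
  rw [e, Complex.sin_neg, Complex.sin_two_mul, h0]
  ring

theorem Sm.exit' {x : ℂ} (h : Sm x x) : Complex.sin (3 * Real.pi / 16 + x) ≠ 0 := by
  have := Sm.exit h.neg
  rwa [sub_neg_eq_add] at this

end sgn

section even

variable {ι : Type*} [DecidableEq ι] {ω : ℂ} {z : ι → ℂ} {K L : List (ι × ι)} {A B : List ι}
  {q g m x x' c d : ι}

theorem neg2_sgn (z : ι → ℂ) (x x' i : ι) : neg2 z x x' i = z i ∨ neg2 z x x' i = -z i := by
  show Function.update (Function.update z x (-z x)) x' (-z x') i = _ ∨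
    Function.update (Function.update z x (-z x)) x' (-z x') i = _
  by_cases h1 : i = x'
  · right
    rw [h1, Function.update_self]
  · rw [Function.update_of_ne h1]
    by_cases h2 : i = x
    · right
      rw [h2, Function.update_self]
    · left
      rw [Function.update_of_ne h2]

theorem GT.neg2 {X : List ι} (h : GT z X) (x x' : ι) : GT (neg2 z x x') X :=
  h.sgn fun i _ => neg2_sgn z x x' i

theorem neg2_of_ne {i : ι} (h1 : i ≠ x) (h2 : i ≠ x') : neg2 z x x' i = z i := by
  show Function.update (Function.update z x (-z x)) x' (-z x') i = _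
  rw [Function.update_of_ne h2, Function.update_of_ne h1]

theorem neg2_fst (h : x ≠ x') : neg2 z x x' x = -z x := by
  show Function.update (Function.update z x (-z x)) x' (-z x') x = _
  rw [Function.update_of_ne h, Function.update_self]

theorem neg2_snd : neg2 z x x' x' = -z x' := by
  show Function.update (Function.update z x (-z x)) x' (-z x') x' = _
  rw [Function.update_self]

/-- The sites of two different full lines are different. -/
theorem OkT.line (h : OkT K L A B q g m) (hx : (x, x') ∈ K ++ L) :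
    x ≠ x' ∧ ∀ t ∈ K ++ L, t ≠ (x, x') → t.1 ≠ x ∧ t.1 ≠ x' ∧ t.2 ≠ x ∧ t.2 ≠ x' := by
  have hG : Gd (K ++ L) := (Gd_cons.1 h.gdq).2.2
  obtain ⟨K', hK⟩ := List.append_of_mem hx
  obtain ⟨K'', hK⟩ := hK
  have hp : (K ++ L).Perm ((x, x') :: (K' ++ K'')) := by
    rw [hK]
    exact List.perm_middle
  obtain ⟨h1, h2, -⟩ := Gd_cons.1 (hG.perm hp)
  refine ⟨h1, fun t ht hne => ?_⟩
  have ht' : t ∈ K' ++ K'' := by
    rcases List.mem_cons.1 (hp.mem_iff.1 ht) with h | h
    · exact absurd h hne
    · exact h
  obtain ⟨a1, a2, a3, a4⟩ := h2 t ht'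
  exact ⟨a1.symm, a3.symm, a2.symm, a4.symm⟩

variable [Finite ι]

/-- **Evenness in every full line.** -/
theorem WT_even (h : OkT K L A B q g m) (hx : (x, x') ∈ K ++ L)
    (c1 : c ∉ sites K L A B q g) (d1 : d ∉ sites K L A B q g) (hcd : c ≠ d)
    (hz : ∀ t ∈ K ++ L, z t.2 = z t.1) (g1 : GT z (lr K L A)) (g2 : GT z (ll K L B)) :
    WT ω (neg2 z x x') K L A B q g m = WT ω z K L A B q g m := by
  classical
  obtain ⟨hxx, hne⟩ := h.line hx
  -- the reflected rapidities
  have hz' : ∀ t ∈ K ++ L, neg2 z x x' t.2 = neg2 z x x' t.1 := by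
    intro t ht
    by_cases e : t = (x, x')
    · rw [e]
      show neg2 z x x' x' = neg2 z x x' x
      rw [neg2_fst hxx, neg2_snd, hz (x, x') hx]
    · obtain ⟨a1, a2, a3, a4⟩ := hne t ht e
      rw [neg2_of_ne a1 a2, neg2_of_ne a3 a4, hz t ht]
  have g1' : GT (neg2 z x x') (lr K L A) := g1.neg2 x x'
  have g2' : GT (neg2 z x x') (ll K L B) := g2.neg2 x x'
  -- the sites
  have cR : ∀ i, i ∉ sites K L A B q g → i ∉ q :: lr K L A := by
    intro i hi h1
    apply hi
    unfold sites
    unfold lr at h1
    simp only [List.mem_cons, List.mem_append, List.map_append] at h1 ⊢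
    tauto
  have cL : ∀ i, i ∉ sites K L A B q g → i ∉ g :: ll K L B := by
    intro i hi h1
    apply hi
    unfold sites
    unfold ll at h1
    simp only [List.mem_cons, List.mem_append, List.map_append] at h1 ⊢
    tauto
  have hsx : Sm (z x) (z x) := by
    have hxl : x ∈ lr K L A := by
      unfold lr
      rcases List.mem_append.1 hx with hx | hx
      · exact List.mem_append.2 (Or.inl (List.mem_map_of_mem (f := Prod.fst) hx))
      · exact List.mem_append.2 (Or.inr (List.mem_append.2
          (Or.inr (List.mem_map_of_mem (f := Prod.fst) hx))))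
    exact g1.add x hxl x hxl
  have hzx : z x' = z x := hz (x, x') hx
  rcases List.mem_append.1 hx with hK | hL
  · -- a line below `f`
    have hp : K.Perm ((x, x') :: K.erase (x, x')) := List.perm_cons_erase hK
    have hO : OkT ((x, x') :: K.erase (x, x')) L A B q g m := h.perm (hp.append_right L)
    rw [WT_perm hp (List.Perm.refl L) h hz g1.gk g2.gk,
      WT_perm hp (List.Perm.refl L) h hz' g1'.gk g2'.gk]
    have mR : ∀ i, i ∈ lr ((x, x') :: K.erase (x, x')) L A → i ∈ lr K L A := by
      intro i hi
      unfold lr at hi ⊢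
      rw [List.mem_append] at hi ⊢
      exact hi.imp (fun h => (hp.map Prod.fst).mem_iff.2 h) id
    have mL : ∀ i, i ∈ ll ((x, x') :: K.erase (x, x')) L B → i ∈ ll K L B := by
      intro i hi
      unfold ll at hi ⊢
      rw [List.mem_append] at hi ⊢
      exact hi.imp (fun h => (hp.map Prod.snd).mem_iff.2 h) id
    have nR : ∀ i, i ∉ sites K L A B q g → i ∉ q :: lr ((x, x') :: K.erase (x, x')) L A := by
      intro i hi h1
      refine cR i hi ?_
      rw [List.mem_cons] at h1 ⊢
      exact h1.imp id (mR i)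
    have nL : ∀ i, i ∉ sites K L A B q g → i ∉ g :: ll ((x, x') :: K.erase (x, x')) L B := by
      intro i hi h1
      refine cL i hi ?_
      rw [List.mem_cons] at h1 ⊢
      exact h1.imp id (mL i)
    exact WT_low hO (nR c c1) (nL c c1) (nR d d1) (nL d d1) hcd hzx hsx.exit hsx.exit'
      (g1.mono mR).neg.gz (g1'.mono mR).neg.gz (g2.mono mL).gz (g2'.mono mL).gz
  · -- a line above `f`
    have hp : L.Perm (L.erase (x, x') ++ [(x, x')]) :=
      (List.perm_cons_erase hL).trans (List.perm_append_singleton (x, x') (L.erase (x, x'))).symm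
    have hO : OkT K (L.erase (x, x') ++ [(x, x')]) A B q g m := h.perm (List.Perm.append_left K hp)
    rw [WT_perm (List.Perm.refl K) hp h hz g1.gk g2.gk,
      WT_perm (List.Perm.refl K) hp h hz' g1'.gk g2'.gk]
    have mR : ∀ i, i ∈ lr K (L.erase (x, x') ++ [(x, x')]) A → i ∈ lr K L A := by
      intro i hi
      unfold lr at hi ⊢
      rw [List.mem_append, List.mem_append] at hi ⊢
      exact hi.imp id (fun h => h.imp id fun h => (hp.map Prod.fst).mem_iff.2 h)
    have mL : ∀ i, i ∈ ll K (L.erase (x, x') ++ [(x, x')]) B → i ∈ ll K L B := by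
      intro i hi
      unfold ll at hi ⊢
      rw [List.mem_append, List.mem_append] at hi ⊢
      exact hi.imp id (fun h => h.imp id fun h => (hp.map Prod.snd).mem_iff.2 h)
    have nR : ∀ i, i ∉ sites K L A B q g → i ∉ q :: lr K (L.erase (x, x') ++ [(x, x')]) A := by
      intro i hi h1
      refine cR i hi ?_
      rw [List.mem_cons] at h1 ⊢
      exact h1.imp id (mR i)
    have nL : ∀ i, i ∉ sites K L A B q g → i ∉ g :: ll K (L.erase (x, x') ++ [(x, x')]) B := by
      intro i hi h1
      refine cL i hi ?_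
      rw [List.mem_cons] at h1 ⊢
      exact h1.imp id (mL i)
    exact WT_high hO (nR c c1) (nL c c1) (nR d d1) (nL d d1) hcd hzx hsx.exit hsx.exit'
      (g1.mono mR).neg.gz (g1'.mono mR).neg.gz (g2.mono mL).gz (g2'.mono mL).gz

end even

end Pool.Agent.TC
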