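import Pool.Agent.TC.Fam
import Pool.Agent.TC.Ren

/-!
# The mirror image of the one leg functions of the lattice strip (helper25)

`WT_mir`: exchange of the two half strips: the weight `ω` becomes `1 / ω`, the rapidities change sign.
-/

set_option autoImplicit false

namespace Pool.Agent.TC

open _root_.Pool.Agent.EXL _root_.Pool.Agent.NUF _root_.Pool.Agent.NUU _root_.Pool.Agent.NUT2
open Complex (I exp sin cos)

section mir

variable {ι : Type*} [DecidableEq ι] {z : ι → ℂ} {K L : List (ι × ι)} {A B : List ι} {q g m : ι}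
  {ω : ℂ}

omit [DecidableEq ι] in
theorem map_swap_fst (M : List (ι × ι)) : (M.map Prod.swap).map Prod.fst = M.map Prod.snd := by
  rw [List.map_map]; rfl

omit [DecidableEq ι] in
theorem map_swap_snd (M : List (ι × ι)) : (M.map Prod.swap).map Prod.snd = M.map Prod.fst := by
  rw [List.map_map]; rfl

omit [DecidableEq ι] in
theorem lr_swap : lr (K.map Prod.swap) (L.map Prod.swap) B = ll K L B := by
  unfold lr ll
  rw [map_swap_fst, map_swap_fst]

omit [DecidableEq ι] in
theorem ll_swap : ll (K.map Prod.swap) (L.map Prod.swap) A = lr K L A := by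
  unfold lr ll
  rw [map_swap_snd, map_swap_snd]

omit [DecidableEq ι] in
theorem OkT.swap (h : OkT K L A B q g m) : OkT (K.map Prod.swap) (L.map Prod.swap) B A g q m := by
  refine ⟨?_, ?_⟩
  · have hn := h.nd
    unfold sites at hn ⊢
    rw [← List.map_append, map_swap_fst, map_swap_snd, List.map_append]
    simp only [List.nodup_append, List.nodup_cons, List.map_append, List.mem_append, List.mem_cons] at hn ⊢
    grind
  · have := h.m_mem
    rw [List.mem_append] at this ⊢
    exact this.symm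

/-- The mirror image of the labels. -/
theorem Wp_mir (hd : ∀ x ∈ L.map Prod.fst, x ∉ L.map Prod.snd) {V V' : Fnl ι} {k : ι} {M : List (ι × ι)}
    (hk : ∀ t ∈ (m, k) :: M, (t.1 ∈ L.map Prod.fst ∨ t.1 ∈ L.map Prod.snd) ↔
      (t.2 ∈ L.map Prod.fst ∨ t.2 ∈ L.map Prod.snd)) :
    Wp (nuw ω⁻¹) (chX (L.map Prod.swap) k) V V' m k M = Wp (nuw ω) (chX L k) V V' m k M := by
  rw [← nuw_inv, Wp_hom phN]
  have e : (phN ∘ chX (L.map Prod.swap) k : ι → ℤ × ℤ) = chX L k +
      fun x => (if x ∈ L.map Prod.fst ∨ x ∈ L.map Prod.snd then ((-1, 0) : ℤ × ℤ) else 0) := by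
    funext x
    show phN ((chw (L.map Prod.swap) x, 0) + (Pi.single k ((0, 1) : ℤ × ℤ) : ι → ℤ × ℤ) x) =
      ((chw L x, 0) + (Pi.single k ((0, 1) : ℤ × ℤ) : ι → ℤ × ℤ) x) + _
    rw [map_add]
    have e1 : phN ((Pi.single k ((0, 1) : ℤ × ℤ) : ι → ℤ × ℤ) x) =
        (Pi.single k ((0, 1) : ℤ × ℤ) : ι → ℤ × ℤ) x := by
      by_cases h : x = k
      · subst h
        rw [Pi.single_eq_same]
        rfl
      · rw [Pi.single_eq_of_ne h, map_zero]
    rw [e1, add_right_comm]
    congr 1
    show ((-chw (L.map Prod.swap) x, 0) : ℤ × ℤ) = (chw L x, 0) +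
      (if x ∈ L.map Prod.fst ∨ x ∈ L.map Prod.snd then ((-1, 0) : ℤ × ℤ) else 0)
    unfold chw
    rw [map_swap_fst]
    by_cases h1 : x ∈ L.map Prod.fst
    · rw [if_pos h1, if_neg (hd x h1), if_pos (Or.inl h1)]
      simp
    · by_cases h2 : x ∈ L.map Prod.snd
      · rw [if_neg h1, if_pos h2, if_pos (Or.inr h2)]
        simp
      · rw [if_neg h1, if_neg h2, if_neg (by tauto)]
        simp
  rw [e, Wp_shift]
  intro t ht
  simp only [hk t ht]

/-- **The mirror image of the one leg function.** -/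
theorem WT_mir [Finite ι] (h : OkT K L A B q g m) : WT ω z K L A B q g m =
    WT ω⁻¹ (fun i => -z i) (K.map Prod.swap) (L.map Prod.swap) B A g q m := by
  have hn := h.nd
  have hm := h.m_mem
  unfold sites at hn
  simp only [List.nodup_append, List.nodup_cons, List.map_append, List.mem_append, List.mem_cons] at hn hm
  have hd : ∀ x ∈ L.map Prod.fst, x ∉ L.map Prod.snd := by grind
  have hdR := h.disjR
  have hdL := h.disjL
  have sR : SupS (insert q (SR K L A)) (PS (fun i => -z i) q (lr K L A)) := PS_supS _ _ _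
  have sR' : SupS (SL K L B) (PH z (ll K L B)) := PH_supS _ _
  have sL : SupS (SR K L A) (PH (fun i => -z i) (lr K L A)) := PH_supS _ _
  have sL' : SupS (insert g (SL K L B)) (PS z g (ll K L B)) := PS_supS _ _ _
  have key : ∀ k, (k = q ∨ k = g) → ∀ t ∈ (m, k) :: (K ++ L).map Prod.swap,
      ((t.1 ∈ L.map Prod.fst ∨ t.1 ∈ L.map Prod.snd) ↔
      (t.2 ∈ L.map Prod.fst ∨ t.2 ∈ L.map Prod.snd)) := by
    intro k hk t ht
    rcases List.mem_cons.1 ht with rfl | ht
    · have h1 : k ∉ L.map Prod.fst ∧ k ∉ L.map Prod.snd := by grind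
      have h2 : m ∉ L.map Prod.fst ∧ m ∉ L.map Prod.snd := by grind
      simp only
      tauto
    · obtain ⟨s, hs, rfl⟩ := List.mem_map.1 ht
      rw [Prod.fst_swap, Prod.snd_swap]
      rcases List.mem_append.1 hs with hs | hs
      · have h1 : s.1 ∈ K.map Prod.fst := List.mem_map_of_mem hs
        have h2 : s.2 ∈ K.map Prod.snd := List.mem_map_of_mem hs
        have h3 : s.1 ∉ L.map Prod.fst ∧ s.1 ∉ L.map Prod.snd := by grind
        have h4 : s.2 ∉ L.map Prod.fst ∧ s.2 ∉ L.map Prod.snd := by grind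
        tauto
      · have h1 : s.1 ∈ L.map Prod.fst := List.mem_map_of_mem hs
        have h2 : s.2 ∈ L.map Prod.snd := List.mem_map_of_mem hs
        tauto
  unfold WT WR WG
  rw [lr_swap, ll_swap, ← List.map_append, Wp_mir hd (key g (Or.inr rfl)), Wp_mir hd (key q (Or.inl rfl)),
    add_comm]
  simp only [neg_neg]
  congr 1
  · rw [Wp_swap (nuw_neg ω) (nuw_zero ω) sL sL' hdL]
  · rw [Wp_swap (nuw_neg ω) (nuw_zero ω) sR sR' hdR]

end mir

end Pool.Agent.TC
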