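import Pool.Agent.TC.Data

/-!
# Uniqueness of the one leg family of the strip

`Data θ W` and the values without full lines determine the families.  The occupied single line `R`
is fixed by the `2 N` nodes and two more zeros which come from the fusion relation
`Y (b + 2 λ) b = .. R (b + λ)` (helper70), the functions with an empty line by the trivial line
(helper17).
-/

set_option autoImplicit false

open Polynomial Filter

noncomputable section

namespace TC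

open NUTP NUGas

variable {θ ω : ℂ} {U U' V V' : RF}

/-! ### lines and images -/

lemma mem_im {S : List ℂ} {t : ℂ} : t ∈ im S ↔ ∃ x ∈ S, t = x ∨ t = x⁻¹ := by
  unfold im
  rw [List.mem_append, List.mem_map]
  constructor
  · rintro (h | ⟨x, hx, rfl⟩)
    · exact ⟨t, h, Or.inl rfl⟩
    · exact ⟨x, hx, Or.inr rfl⟩
  · rintro ⟨x, hx, rfl | rfl⟩
    · exact Or.inl hx
    · exact Or.inr ⟨x, hx, rfl⟩

lemma im_cons (a : ℂ) (S : List ℂ) : (im (a :: S)).Perm (a :: a⁻¹ :: im S) := by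
  unfold im
  rw [List.map_cons, List.cons_append]
  exact List.perm_middle.cons a

lemma im_append (I J : List ℂ) : (im (I ++ J)).Perm (im I ++ im J) := by
  unfold im
  rw [List.map_append]
  have h : (J ++ (I.map (·⁻¹) ++ J.map (·⁻¹))).Perm (I.map (·⁻¹) ++ (J ++ J.map (·⁻¹))) := by
    rw [← List.append_assoc, ← List.append_assoc]
    exact List.perm_append_comm.append_right _
  simpa only [List.append_assoc] using h.append_left I

lemma im_perm {S S' : List ℂ} (h : S.Perm S') : (im S).Perm (im S') :=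
  h.append (h.map _)

lemma im_length (S : List ℂ) : (im S).length = 2 * S.length := by
  simp [im]; ring

lemma GC.perm (hθ : θ ^ 8 = -1) {S S' : List ℂ} (h : S.Perm S') (hS : GC θ S) : GC θ S' :=
  G.perm hθ (im_perm h) hS

lemma GC.cons (hθ : θ ^ 8 = -1) {a : ℂ} {S : List ℂ} (h : GC θ (a :: S)) :
    G θ (a :: a⁻¹ :: im S) := G.perm hθ (im_cons a S) h

lemma GC.of_cons (hθ : θ ^ 8 = -1) {a : ℂ} {S : List ℂ} (h : G θ (a :: a⁻¹ :: im S)) :
    GC θ (a :: S) := G.perm hθ (im_cons a S).symm h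

lemma GC.tail (hθ : θ ^ 8 = -1) {a : ℂ} {S : List ℂ} (h : GC θ (a :: S)) : GC θ S :=
  (h.cons hθ).tail.tail

lemma GC.ne0 (hθ : θ ^ 8 = -1) {a : ℂ} {S : List ℂ} (h : GC θ (a :: S)) : a ≠ 0 :=
  (h.cons hθ).ne0

lemma GC.mem_ne0 {a : ℂ} {S : List ℂ} (h : GC θ S) (ha : a ∈ S) : a ≠ 0 :=
  G.mem_ne0 h (mem_im.2 ⟨a, ha, Or.inl rfl⟩)

lemma GC.flip (hθ : θ ^ 8 = -1) {a : ℂ} {S : List ℂ} (h : GC θ (a :: S)) : GC θ (a⁻¹ :: S) := by
  refine GC.of_cons hθ ?_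
  rw [inv_inv]
  exact G.perm hθ (List.Perm.swap _ _ _) (h.cons hθ)

lemma GC.flip' (hθ : θ ^ 8 = -1) {a t : ℂ} {S : List ℂ} (h : GC θ (a :: S))
    (ht : t = a ∨ t = a⁻¹) : GC θ (t :: S) := by
  rcases ht with rfl | rfl
  · exact h
  · exact h.flip hθ

lemma GC.scale (hθ : θ ^ 8 = -1) {a : ℂ} {S : List ℂ} (h : GC θ (a :: S)) (k : ℕ) :
    GC θ (θ ^ k * a :: S) := by
  refine GC.of_cons hθ ?_
  have h1 := (h.cons hθ).scale hθ k
  have h2 := (G.perm hθ (List.Perm.swap _ _ _) h1).scale hθ (15 * k)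
  have e : (θ ^ k * a)⁻¹ = θ ^ (15 * k) * a⁻¹ := by
    rw [mul_inv]
    congr 1
    apply inv_eq_of_mul_eq_one_right
    rw [← pow_add, show k + 15 * k = 16 * k by ring, pow_mul, th16 hθ, one_pow]
  rw [e]
  exact G.perm hθ (List.Perm.swap _ _ _) h2

lemma GC.inv (hθ : θ ^ 8 = -1) {S : List ℂ} (h : GC θ S) : GC θ⁻¹ S := G.inv hθ h

lemma GC.of_inv (hθ : θ ^ 8 = -1) {S : List ℂ} (h : GC θ⁻¹ S) : GC θ S := G.of_inv hθ h

lemma GC.split (hθ : θ ^ 8 = -1) {I J : List ℂ} (h : GC θ (I ++ J)) : G θ (im I ++ im J) :=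
  G.perm hθ (im_append I J) h

lemma im_cons_append (a : ℂ) (I J : List ℂ) :
    (im (a :: (I ++ J))).Perm (a :: a⁻¹ :: (im I ++ im J)) :=
  (im_cons _ _).trans (((im_append I J).cons _).cons _)

lemma GC.split1 (hθ : θ ^ 8 = -1) {a : ℂ} {I J : List ℂ} (h : GC θ (a :: (I ++ J))) :
    G θ (a :: a⁻¹ :: (im I ++ im J)) :=
  G.perm hθ (im_cons_append a I J) h

/-- for all large `T`, the line with square `T` is generic -/
lemma eventually_GC (hθ : θ ^ 8 = -1) {S : List ℂ} (hS : GC θ S) :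
    ∀ᶠ T : ℝ in atTop, GC θ (((Real.sqrt T : ℝ) : ℂ) :: S) := by
  have hη := eta_of hθ
  have h1 := eventually_gen hη (X := (im S).map (· ^ 2)) hS
  have h2 : ∀ᶠ T : ℝ in atTop, ∀ x ∈ (im S).map (· ^ 2), x ≠ 0 → ‖x‖⁻¹ < T := by
    generalize (im S).map (· ^ 2) = L
    induction L with
    | nil => simp
    | cons a L ih =>
      filter_upwards [ih, eventually_gt_atTop ‖a‖⁻¹] with T h1 h2
      intro x hx hx0
      rcases List.mem_cons.1 hx with rfl | hx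
      · exact h2
      · exact h1 x hx hx0
  filter_upwards [h1, h2, eventually_gt_atTop (1 : ℝ)] with T g1 g2 g3
  have g0 : (0 : ℝ) < T := by linarith
  have hsq : (((Real.sqrt T : ℝ) : ℂ)) ^ 2 = (T : ℂ) := by
    rw [← Complex.ofReal_pow, Real.sq_sqrt g0.le]
  refine GC.of_cons hθ ?_
  unfold NUTP.G
  rw [List.map_cons, List.map_cons, inv_pow, hsq]
  have hT0 : (T : ℂ) ≠ 0 := by exact_mod_cast g0.ne'
  have hTi : Gen (θ ^ 2) (((T : ℂ))⁻¹ :: (im S).map (· ^ 2)) := by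
    refine ⟨?_, List.pairwise_cons.2 ⟨?_, hS.2⟩⟩
    · intro x hx
      rcases List.mem_cons.1 hx with rfl | hx
      · exact inv_ne_zero hT0
      · exact hS.1 x hx
    · intro x hx k hk
      have hx0 := hS.1 x hx
      have := g2 x hx hx0
      rw [← hk, norm_mul, norm_pow, norm_eta hη, one_pow, one_mul, norm_inv, inv_inv,
        Complex.norm_real, Real.norm_of_nonneg g0.le] at this
      exact lt_irrefl _ this
  refine ⟨?_, List.pairwise_cons.2 ⟨?_, hTi.2⟩⟩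
  · intro x hx
    rcases List.mem_cons.1 hx with rfl | hx
    · exact hT0
    · exact hTi.1 x hx
  · intro x hx
    rcases List.mem_cons.1 hx with rfl | hx
    · intro k hk
      have h3 := congrArg (fun z : ℂ => ‖z‖) hk
      simp only [norm_mul, norm_pow, norm_eta hη, one_pow, one_mul, norm_inv,
        Complex.norm_real, Real.norm_of_nonneg g0.le] at h3
      have h4 : T * T⁻¹ = 1 := mul_inv_cancel₀ g0.ne'
      rw [← h3] at h4
      nlinarith
    · exact Gen.sep g1 hx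


/-- a polynomial which vanishes at the squares of the generic lines is zero -/
lemma zero_of_GC (hθ : θ ^ 8 = -1) {S : List ℂ} (hS : GC θ S) {Q : ℂ[X]}
    (h : ∀ a, GC θ (a :: S) → Q.eval (a ^ 2) = 0) : Q = 0 := by
  have h1 := eventually_GC hθ hS
  obtain ⟨T, hT⟩ := (h1.and (eventually_ge_atTop (0 : ℝ))).exists_forall_of_atTop
  have hinf : (Set.image (fun x : ℝ => (x : ℂ)) (Set.Ici T)).Infinite :=
    (Set.Ici_infinite T).image (fun x _ y _ h => by exact_mod_cast h)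
  refine Polynomial.eq_zero_of_infinite_isRoot Q (hinf.mono ?_)
  rintro _ ⟨x, hx, rfl⟩
  obtain ⟨hx1, hx2⟩ := hT x hx
  have hsq : ((Real.sqrt x : ℝ) : ℂ) ^ 2 = (x : ℂ) := by
    rw [← Complex.ofReal_pow, Real.sq_sqrt hx2]
  have := h ((Real.sqrt x : ℝ) : ℂ) hx1
  rw [hsq] at this
  exact this

/-- there are generic lines -/
lemma exists_GC (hθ : θ ^ 8 = -1) {S : List ℂ} (hS : GC θ S) : ∃ a, GC θ (a :: S) := by
  obtain ⟨T, hT⟩ := (eventually_GC hθ hS).exists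
  exact ⟨_, hT⟩

/-! ### the nodes -/

/-- the polynomial of the nodes -/
def ndc (θ : ℂ) (I J : List ℂ) : ℂ[X] := ndp (nds θ (im I) (im J))

lemma ndc_monic (I J : List ℂ) : (ndc θ I J).Monic := ndp_monic _

lemma ndc_natDegree (I J : List ℂ) : (ndc θ I J).natDegree = 2 * (I.length + J.length) := by
  unfold ndc
  rw [ndp_natDegree, nds_length, im_length, im_length]; ring

lemma ndc_top (I J : List ℂ) : (ndc θ I J).coeff (2 * (I.length + J.length)) = 1 := by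
  have := ndc_monic (θ := θ) I J
  rw [Monic, leadingCoeff, ndc_natDegree] at this
  exact this

/-- removing a full line keeps the rest generic -/
lemma GC.remI (hθ : θ ^ 8 = -1) {S I I' J : List ℂ} {x t : ℂ} (hI : I.Perm (x :: I'))
    (ht : t = x ∨ t = x⁻¹) (h : GC θ (S ++ (I ++ J))) : GC θ (t :: (S ++ (I' ++ J))) := by
  refine GC.flip' hθ (GC.perm hθ ?_ h) ht
  have h1 : (S ++ (I ++ J)).Perm (S ++ (x :: (I' ++ J))) :=
    (List.Perm.append_right J hI).append_left S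
  exact h1.trans List.perm_middle

lemma GC.remJ (hθ : θ ^ 8 = -1) {S I J J' : List ℂ} {y t : ℂ} (hJ : J.Perm (y :: J'))
    (ht : t = y ∨ t = y⁻¹) (h : GC θ (S ++ (I ++ J))) : GC θ (t :: (S ++ (I ++ J'))) := by
  refine GC.flip' hθ (GC.perm hθ ?_ h) ht
  have h1 : (S ++ (I ++ J)).Perm (S ++ (y :: (I ++ J'))) :=
    ((List.Perm.append_left I hJ).trans List.perm_middle).append_left S
  exact h1.trans List.perm_middle

lemma rem_of_mem {I : List ℂ} {t : ℂ} (ht : t ∈ im I) :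
    ∃ x I', I.Perm (x :: I') ∧ (t = x ∨ t = x⁻¹) := by
  obtain ⟨x, hx, h⟩ := mem_im.1 ht
  exact ⟨x, I.erase x, List.perm_cons_erase hx, h⟩

/-- one step: a polynomial of degree `≤ 2 N + k` which vanishes at the nodes -/
lemma facC (hθ : θ ^ 8 = -1) {I J : List ℂ} (hG : GC θ (I ++ J)) {P : ℂ[X]} {k : ℕ}
    (hd : P.natDegree ≤ 2 * (I.length + J.length) + k)
    (h1 : ∀ x ∈ im I, P.eval (θ ^ 10 * x ^ 2) = 0) (h2 : ∀ y ∈ im J, P.eval (θ ^ 6 * y ^ 2) = 0) :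
    ∃ Q : ℂ[X], P = ndc θ I J * Q ∧ Q.natDegree ≤ k := by
  refine fac hθ (hG.split hθ) ?_ h1 h2
  rw [im_length, im_length]
  omega

lemma ndc_ne (hθ : θ ^ 8 = -1) {a : ℂ} {I J : List ℂ} (h : GC θ (a :: (I ++ J))) (j : ℕ) :
    (ndc θ I J).eval (θ ^ (2 * j) * a ^ 2) ≠ 0 :=
  G.nd' hθ (S := [a⁻¹]) (h.split1 hθ) j

lemma ndc_ne_mem (hθ : θ ^ 8 = -1) {I J : List ℂ} (hS : GC θ (I ++ J)) {x : ℂ}
    (hx : x ∈ im I ++ im J) {j : ℕ} (h5 : θ ^ (2 * j) ≠ θ ^ (2 * 5))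
    (h3 : θ ^ (2 * j) ≠ θ ^ (2 * 3)) : (ndc θ I J).eval (θ ^ (2 * j) * x ^ 2) ≠ 0 :=
  (hS.split hθ).nd hθ hx h5 h3

lemma ndc_c0 (hθ : θ ^ 8 = -1) {I J : List ℂ} (hG : GC θ (I ++ J)) :
    (ndc θ I J).coeff 0 ≠ 0 := by
  have h0 := th_ne hθ
  have hs := hG.split hθ
  rw [coeff_zero_eq_eval_zero]
  apply ndp_eval_ne
  intro hm
  rcases mem_nds.1 hm with ⟨c, hc, e⟩ | ⟨c, hc, e⟩
  · exact mul_ne_zero (pow_ne_zero _ h0)
      (pow_ne_zero _ (hs.mem_ne0 (List.mem_append_left _ hc))) e.symm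
  · exact mul_ne_zero (pow_ne_zero _ h0)
      (pow_ne_zero _ (hs.mem_ne0 (List.mem_append_right _ hc))) e.symm

/-! ### differences -/

/-- difference of two families -/
def RF.sub (U U' : RF) : RF where
  R := fun I J a => U.R I J a - U'.R I J a
  X := fun I J a b => U.X I J a b - U'.X I J a b
  Y := fun I J a b => U.Y I J a b - U'.Y I J a b
  O := fun I J a b => U.O I J a b - U'.O I J a b

theorem Rel.sub (hθ : θ ^ 8 = -1) (h : Rel θ ω U V) (h' : Rel θ ω U' V') :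
    Rel θ ω (U.sub U') (V.sub V') where
  polR := by
    intro I J hG
    obtain ⟨P, d, v, n1, n2⟩ := h.polR I J hG
    obtain ⟨P', d', v', n1', n2'⟩ := h'.polR I J hG
    refine ⟨P - P', (natDegree_sub_le _ _).trans (max_le d d'), ?_, ?_, ?_⟩
    · intro p hp
      rw [eval_sub, ← v p hp, ← v' p hp]
      simp only [RF.sub]; ring
    · intro x I' t hI ht
      rw [eval_sub, n1 x I' t hI ht, n1' x I' t hI ht]
      simp only [RF.sub]; ring
    · intro x I' t hI ht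
      rw [eval_sub, n2 x I' t hI ht, n2' x I' t hI ht]
      simp only [RF.sub]; ring
  polX := by
    intro I J a hG
    obtain ⟨P, v, n1⟩ := h.polX I J a hG
    obtain ⟨P', v', n1'⟩ := h'.polX I J a hG
    refine ⟨P - P', ?_, ?_⟩
    · intro p hp
      rw [eval_sub, ← v p hp, ← v' p hp]
      simp only [RF.sub]; ring
    · intro x I' t hI ht
      rw [eval_sub, n1 x I' t hI ht, n1' x I' t hI ht]
      simp only [RF.sub]; ring
  polXo := by
    intro I J a hG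
    obtain ⟨P, v, n1⟩ := h.polXo I J a hG
    obtain ⟨P', v', n1'⟩ := h'.polXo I J a hG
    refine ⟨P - P', ?_, ?_⟩
    · intro p hp
      rw [eval_sub, ← v p hp, ← v' p hp]
      simp only [RF.sub]; ring
    · intro x I' t hI ht
      rw [eval_sub, n1 x I' t hI ht, n1' x I' t hI ht]
      simp only [RF.sub]; ring
  polY := by
    intro I J a hG
    obtain ⟨P, d, v, n1, n2, n3⟩ := h.polY I J a hG
    obtain ⟨P', d', v', n1', n2', n3'⟩ := h'.polY I J a hG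
    refine ⟨P - P', (natDegree_sub_le _ _).trans (max_le d d'), ?_, ?_, ?_, ?_⟩
    · intro p hp
      rw [eval_sub, ← v p hp, ← v' p hp]
      simp only [RF.sub]; ring
    · intro x I' t hI ht
      rw [eval_sub, n1 x I' t hI ht, n1' x I' t hI ht]
      simp only [RF.sub]; ring
    · rw [eval_sub, n2, n2', sub_zero]
    · rw [eval_sub, n3, n3']; simp only [RF.sub]; ring
  polYo := by
    intro I J a hG
    obtain ⟨P, v, n1⟩ := h.polYo I J a hG
    obtain ⟨P', v', n1'⟩ := h'.polYo I J a hG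
    refine ⟨P - P', ?_, ?_⟩
    · intro p hp
      rw [eval_sub, ← v p hp, ← v' p hp]
      simp only [RF.sub]; ring
    · intro x I' t hI ht
      rw [eval_sub, n1 x I' t hI ht, n1' x I' t hI ht]
      simp only [RF.sub]; ring
  polO := by
    intro I J a hG
    obtain ⟨P, d, v, n1, n2⟩ := h.polO I J a hG
    obtain ⟨P', d', v', n1', n2'⟩ := h'.polO I J a hG
    refine ⟨P - P', (natDegree_sub_le _ _).trans (max_le d d'), ?_, ?_, ?_⟩
    · intro p hp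
      rw [eval_sub, ← v p hp, ← v' p hp]
      simp only [RF.sub]; ring
    · intro x I' t hI ht
      rw [eval_sub, n1 x I' t hI ht, n1' x I' t hI ht]
      simp only [RF.sub]; ring
    · intro x I' t hI ht
      rw [eval_sub, n2 x I' t hI ht, n2' x I' t hI ht]
      simp only [RF.sub]; ring
  exX := by
    intro I J a b hG
    have e := h.exX I J a b hG
    have e' := h'.exX I J a b hG
    simp only [RF.sub]
    linear_combination e - e'
  exY := by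
    intro I J a b hG
    have e := h.exY I J a b hG
    have e' := h'.exY I J a b hG
    simp only [RF.sub]
    linear_combination e - e'
  trY := by
    intro I J b hG P P' hP hP'
    obtain ⟨P1, -, v1, -⟩ := h.polY I J b hG
    obtain ⟨P2, -, v2, -⟩ := h'.polY I J b hG
    obtain ⟨P3, -, v3, -⟩ := h.polO I J b hG
    obtain ⟨P4, -, v4, -⟩ := h'.polO I J b hG
    have e1 : P = P1 - P2 := by
      rw [← sub_eq_zero]
      refine zero_of_GC hθ hG fun a ha => ?_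
      rw [eval_sub, eval_sub, ← hP a ha, ← v1 a ha, ← v2 a ha]
      simp only [RF.sub]; ring
    have e2 : P' = P3 - P4 := by
      rw [← sub_eq_zero]
      refine zero_of_GC hθ hG fun a ha => ?_
      rw [eval_sub, eval_sub, ← hP' a ha, ← v3 a ha, ← v4 a ha]
      simp only [RF.sub]; ring
    have t := h.trY I J b hG P1 P3 v1 v3
    have t' := h'.trY I J b hG P2 P4 v2 v4
    subst e1 e2
    simp only [eval_sub]
    linear_combination t - t'
  trX := by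
    intro I J b hG P P' hP hP'
    obtain ⟨P1, v1, -⟩ := h.polX I J b hG
    obtain ⟨P2, v2, -⟩ := h'.polX I J b hG
    obtain ⟨P3, -, v3, -⟩ := h.polO I J b hG
    obtain ⟨P4, -, v4, -⟩ := h'.polO I J b hG
    have e1 : P = P1 - P2 := by
      rw [← sub_eq_zero]
      refine zero_of_GC hθ hG fun a ha => ?_
      rw [eval_sub, eval_sub, ← hP a ha, ← v1 a ha, ← v2 a ha]
      simp only [RF.sub]; ring
    have e2 : P' = P3 - P4 := by
      rw [← sub_eq_zero]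
      refine zero_of_GC hθ hG fun a ha => ?_
      rw [eval_sub, eval_sub, ← hP' a ha, ← v3 a ha, ← v4 a ha]
      simp only [RF.sub]; ring
    have t := h.trX I J b hG P1 P3 v1 v3
    have t' := h'.trX I J b hG P2 P4 v2 v4
    subst e1 e2
    simp only [eval_sub]
    linear_combination t - t'

/-! ### the induction -/

/-- all functions with `n` full lines vanish -/
def Z (θ : ℂ) (U : RF) (n : ℕ) : Prop := ∀ I J : List ℂ, I.length + J.length = n →
  (∀ a, GC θ (a :: (I ++ J)) → U.R I J a = 0) ∧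
  (∀ a b, GC θ (a :: b :: (I ++ J)) → U.X I J a b = 0 ∧ U.Y I J a b = 0 ∧ U.O I J a b = 0)

lemma GC.flip2 (hθ : θ ^ 8 = -1) {a b : ℂ} {S : List ℂ} (h : GC θ (a :: b :: S)) :
    GC θ (a⁻¹ :: b⁻¹ :: S) := by
  have h1 := GC.perm hθ (List.Perm.swap _ _ _) (h.flip hθ)
  exact GC.perm hθ (List.Perm.swap _ _ _) (h1.flip hθ)

/-- `X`, `Y` vanish at the nodes `θ ^ 10 x ^ 2` of the upper line too -/
lemma exX (hθ : θ ^ 8 = -1) (h : Rel θ ω U V) {n : ℕ} (hZ : Z θ U n) (hZ' : Z θ V n) {I J : List ℂ}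
    (hN : I.length + J.length = n + 1) {a : ℂ} (hG : GC θ (a :: (I ++ J))) {P P3 : ℂ[X]}
    (hP : ∀ b, GC θ (b :: a :: (I ++ J)) →
      b ^ (2 * (I.length + J.length) + 2) * U.X I J a b = P.eval (b ^ 2))
    (hP3 : ∀ b, GC θ (b :: a :: (I ++ J)) →
      b ^ (2 * (I.length + J.length) + 3) * U.Y I J a b = P3.eval (b ^ 2)) :
    ∀ x ∈ im I, P3.eval (θ ^ 10 * x ^ 2) = 0 ∧ P.eval (θ ^ 10 * x ^ 2) = 0 := by
  intro t ht
  obtain ⟨x, I', hI, htx⟩ := rem_of_mem ht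
  have ha0 := hG.ne0 hθ
  have hlen := len_of_perm hI
  obtain ⟨P1, v1, n1⟩ := h.polXo I J a hG
  obtain ⟨P2, -, v2, n2, -⟩ := h.polY I J a hG
  set κ := θ ^ 2 - (θ ^ 2)⁻¹ with hκ
  have hg : GC θ (t :: ([a] ++ (I' ++ J))) := GC.remI hθ (S := [a]) hI htx hG
  have hg' : GC θ (a :: t :: (I' ++ J)) := GC.perm hθ (List.Perm.swap a t _) hg
  have z1 : P1.eval (θ ^ 10 * t ^ 2) = 0 := by
    rw [n1 x I' t hI htx, ((hZ' I' J (by omega)).2 _ _ (hg.flip2 hθ)).2.2, mul_zero]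
  have z2 : P2.eval (θ ^ 10 * t ^ 2) = 0 := by
    rw [n2 x I' t hI htx, ((hZ I' J (by omega)).2 a t hg').2.2, mul_zero]
  have q1 : (C (θ ^ 4) * Polynomial.X - C (a ^ 2)) * (C (θ ^ 6) * Polynomial.X - C (a ^ 2)) * P1 -
      C (θ ^ 2) * (C (θ ^ 6 * a ^ 2) - Polynomial.X) *
        (C κ * (C a * Polynomial.X * P) + (Polynomial.X - C (a ^ 2)) * P3) = 0 := by
    refine zero_of_GC hθ hG fun b hb => ?_
    have hb0 := hb.ne0 hθ
    have e := clr hθ ha0 hb0 (h.exX I J a b (GC.perm hθ (List.Perm.swap a b _) hb))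
    simp only [eval_sub, eval_mul, eval_add, eval_C, eval_X]
    rw [← v1 b hb, ← hP b hb, ← hP3 b hb]
    linear_combination b ^ (2 * (I.length + J.length) + 3) * e
  have q2 : (C (θ ^ 4) * Polynomial.X - C (a ^ 2)) * (C (θ ^ 6) * Polynomial.X - C (a ^ 2)) * P2 -
      C (θ ^ 2) * (C (θ ^ 6 * a ^ 2) - Polynomial.X) *
        (C κ * (C a * P3) + (Polynomial.X - C (a ^ 2)) * P) = 0 := by
    refine zero_of_GC hθ hG fun b hb => ?_
    have hb0 := hb.ne0 hθ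
    have e := clr hθ ha0 hb0 (h.exY I J a b (GC.perm hθ (List.Perm.swap a b _) hb))
    simp only [eval_sub, eval_mul, eval_add, eval_C, eval_X]
    rw [← v2 b hb, ← hP b hb, ← hP3 b hb]
    linear_combination b ^ (2 * (I.length + J.length) + 2) * e
  have hsep : Sep (θ ^ 2) (t ^ 2) (a ^ 2) := by
    refine (hg.cons hθ).sep' ?_
    rw [List.mem_cons]
    right
    exact mem_im.2 ⟨a, by simp, Or.inl rfl⟩
  have hne : θ ^ 2 * (θ ^ 6 * a ^ 2 - θ ^ 10 * t ^ 2) ≠ 0 := by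
    refine mul_ne_zero (pow_ne_zero _ (th_ne hθ)) (sub_ne_zero.2 ?_)
    exact (pair_ne hθ hsep 5 3).symm
  have e1 := congrArg (eval (θ ^ 10 * t ^ 2)) q1
  have e2 := congrArg (eval (θ ^ 10 * t ^ 2)) q2
  simp only [eval_sub, eval_mul, eval_add, eval_C, eval_X, eval_zero, z1, z2, mul_zero,
    zero_sub, neg_eq_zero] at e1 e2
  have e1' := (mul_eq_zero.1 e1).resolve_left hne
  have e2' := (mul_eq_zero.1 e2).resolve_left hne
  refine sys hθ (A := a ^ 2) (B := θ ^ 10 * t ^ 2) ha0 rfl ?_ e2' e1'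
  intro hs
  have h1 : (a ^ 2 - θ ^ 14 * t ^ 2) * (a ^ 2 - θ ^ 22 * t ^ 2) = 0 := by
    linear_combination hs + (-(a ^ 2 * t ^ 2 * θ ^ 14) + t ^ 4 * θ ^ 20 * (θ ^ 8 - 1)) * hθ
  rcases mul_eq_zero.1 h1 with h2 | h2
  · exact pair_ne hθ hsep 7 0 (by simpa using (sub_eq_zero.1 h2).symm)
  · exact pair_ne hθ hsep 11 0 (by simpa using (sub_eq_zero.1 h2).symm)

/-- `Y` vanishes at the nodes `θ ^ 6 y ^ 2` of the lower line too -/
lemma exY (hθ : θ ^ 8 = -1) (h : Rel θ ω U V) {n : ℕ} (hZ : Z θ U n) (hZ' : Z θ V n) {I J : List ℂ}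
    (hN : I.length + J.length = n + 1) {b : ℂ} (hG : GC θ (b :: (I ++ J))) {P : ℂ[X]}
    (hP : ∀ a, GC θ (a :: b :: (I ++ J)) →
      a ^ (2 * (I.length + J.length) + 2) * U.Y I J a b = P.eval (a ^ 2)) :
    ∀ y ∈ im J, P.eval (θ ^ 6 * y ^ 2) = 0 := by
  intro t ht
  obtain ⟨x, I', hI, htx⟩ := rem_of_mem ht
  have hb0 := hG.ne0 hθ
  have hlen := len_of_perm hI
  obtain ⟨P1, v1, n1⟩ := h.polX I J b hG
  obtain ⟨P2, v2, n2⟩ := h.polYo I J b hG
  obtain ⟨P3, v3, -⟩ := h.polXo I J b hG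
  set κ := θ ^ 2 - (θ ^ 2)⁻¹ with hκ
  have hg : GC θ (t :: ([b] ++ (I ++ I'))) := GC.remJ hθ (S := [b]) hI htx hG
  have hg' : GC θ (b :: t :: (I ++ I')) := GC.perm hθ (List.Perm.swap b t _) hg
  have z1 : P1.eval (θ ^ 6 * t ^ 2) = 0 := by
    rw [n1 x I' t hI htx, ((hZ I I' (by omega)).2 b t hg').2.2, mul_zero]
  have z2 : P2.eval (θ ^ 6 * t ^ 2) = 0 := by
    rw [n2 x I' t hI htx, ((hZ' I I' (by omega)).2 _ _ (hg.flip2 hθ)).2.2, mul_zero]
  have q1 : (C (θ ^ 4 * b ^ 2) - Polynomial.X) * (C (θ ^ 6 * b ^ 2) - Polynomial.X) * P1 -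
      C (θ ^ 2) * (C (θ ^ 6) * Polynomial.X - C (b ^ 2)) *
        (C κ * (C b * P3) + (C (b ^ 2) - Polynomial.X) * P) = 0 := by
    refine zero_of_GC hθ hG fun a ha => ?_
    have ha0 := ha.ne0 hθ
    have e := clr hθ ha0 hb0 (h.exX I J a b ha)
    simp only [eval_sub, eval_mul, eval_add, eval_C, eval_X]
    rw [← v1 a ha, ← hP a ha, ← v3 a ha]
    linear_combination a ^ (2 * (I.length + J.length) + 2) * e
  have q2 : (C (θ ^ 4 * b ^ 2) - Polynomial.X) * (C (θ ^ 6 * b ^ 2) - Polynomial.X) * P2 -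
      C (θ ^ 2) * (C (θ ^ 6) * Polynomial.X - C (b ^ 2)) *
        (C κ * (C b * Polynomial.X * P) + (C (b ^ 2) - Polynomial.X) * P3) = 0 := by
    refine zero_of_GC hθ hG fun a ha => ?_
    have ha0 := ha.ne0 hθ
    have e := clr hθ ha0 hb0 (h.exY I J a b ha)
    simp only [eval_sub, eval_mul, eval_add, eval_C, eval_X]
    rw [← v2 a ha, ← hP a ha, ← v3 a ha]
    linear_combination a ^ (2 * (I.length + J.length) + 3) * e
  have hsep : Sep (θ ^ 2) (t ^ 2) (b ^ 2) := by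
    refine (hg.cons hθ).sep' ?_
    rw [List.mem_cons]
    right
    exact mem_im.2 ⟨b, by simp, Or.inl rfl⟩
  have hne : θ ^ 2 * (θ ^ 6 * (θ ^ 6 * t ^ 2) - b ^ 2) ≠ 0 := by
    refine mul_ne_zero (pow_ne_zero _ (th_ne hθ)) (sub_ne_zero.2 ?_)
    have := pair_ne hθ hsep 6 0
    rw [mul_zero, pow_zero, one_mul] at this
    intro hh
    apply this
    rw [← hh]; ring
  have e1 := congrArg (eval (θ ^ 6 * t ^ 2)) q1
  have e2 := congrArg (eval (θ ^ 6 * t ^ 2)) q2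
  simp only [eval_sub, eval_mul, eval_add, eval_C, eval_X, eval_zero, z1, z2, mul_zero,
    zero_sub, neg_eq_zero] at e1 e2
  have e1' := (mul_eq_zero.1 e1).resolve_left hne
  have e2' := (mul_eq_zero.1 e2).resolve_left hne
  refine (sys hθ (a := b) (A := b ^ 2) (B := θ ^ 6 * t ^ 2) (u := P3.eval (θ ^ 6 * t ^ 2))
    (v := -P.eval (θ ^ 6 * t ^ 2)) hb0 rfl ?_ ?_ ?_).2 |> neg_eq_zero.1
  · intro hs
    have h1 : (b ^ 2 - θ ^ 10 * t ^ 2) * (b ^ 2 - θ ^ 18 * t ^ 2) = 0 := by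
      linear_combination hs + (-(b ^ 2 * t ^ 2 * θ ^ 10) + t ^ 4 * θ ^ 12 * (θ ^ 8 - 1)) * hθ
    rcases mul_eq_zero.1 h1 with h2 | h2
    · exact pair_ne hθ hsep 5 0 (by simpa using (sub_eq_zero.1 h2).symm)
    · exact pair_ne hθ hsep 9 0 (by simpa using (sub_eq_zero.1 h2).symm)
  · linear_combination e1'
  · linear_combination -e2'


/-! ### the single line -/

lemma GC.subl {S S' : List ℂ} (h : S'.Sublist S) (hS : GC θ S) : GC θ S' :=
  G.subl (h.append (h.map _)) hS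

lemma prod_cc {w : ℂ} (hw : w ≠ 0) {S : List ℂ} (hS : ∀ c ∈ S, c ≠ 0) :
    4 ^ S.length * w ^ (2 * S.length) * (S.map fun c => cs (w / c) * cs (w * c)).prod =
      (S.map fun c => (w ^ 2 + c ^ 2) * (w ^ 2 + (c ^ 2)⁻¹)).prod := by
  induction S with
  | nil => simp
  | cons c S ih =>
    have hc : c ≠ 0 := hS c (by simp)
    rw [List.map_cons, List.prod_cons, List.map_cons, List.prod_cons,
      List.length_cons, ← ih fun c hc => hS c (by simp [hc])]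
    have : 4 * w ^ 2 * (cs (w / c) * cs (w * c)) = (w ^ 2 + c ^ 2) * (w ^ 2 + (c ^ 2)⁻¹) := by
      unfold cs
      field_simp
      ring
    rw [← this]
    ring

lemma c5_eq {w : ℂ} (hw : w ≠ 0) : 2 * w ^ 2 * c5 θ w = w ^ 4 - 2 * cs (θ ^ 5) * w ^ 2 + 1 := by
  unfold c5
  generalize cs (θ ^ 5) = t
  unfold cs
  field_simp
  ring

lemma eval_prod_lin2 (S : List ℂ) (a B : ℂ) :
    ((S.map fun c => (C a * Polynomial.X + C (c ^ 2)) *
        (C a * Polynomial.X + C ((c ^ 2)⁻¹))).prod).eval B =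
      (S.map fun c => (a * B + c ^ 2) * (a * B + (c ^ 2)⁻¹)).prod := by
  induction S with
  | nil => simp
  | cons c S ih =>
    rw [List.map_cons, List.prod_cons, eval_mul, ih]
    simp

lemma sn11_ne (hθ : θ ^ 8 = -1) : sn θ 1 1 ≠ 0 := by
  intro h
  have h1 := sl_eq hθ
  rw [h, mul_zero] at h1
  have h0 := th_ne hθ
  have h2 : θ ^ 2 ≠ 0 := pow_ne_zero _ h0
  have h3 : θ ^ 2 = 1 := by
    have : (θ ^ 2)⁻¹ = 1 := by linear_combination h1
    have := congrArg (fun t => θ ^ 2 * t) this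
    simpa [mul_inv_cancel₀ h2] using this.symm
  have := th_pow_ne hθ (j := 0) (k := 1) (by norm_num) (by norm_num)
  apply this
  simp [h3]

/-- interpolation -/
lemma lag {P : ℂ[X]} (h : P.natDegree ≤ 2) {A₁ A₂ A₃ : ℂ} (h12 : A₁ ≠ A₂) (h13 : A₁ ≠ A₃)
    (h23 : A₂ ≠ A₃) (A : ℂ) :
    P.eval A = P.eval A₁ * ((A - A₂) * (A - A₃) / ((A₁ - A₂) * (A₁ - A₃))) +
      P.eval A₂ * ((A - A₁) * (A - A₃) / ((A₂ - A₁) * (A₂ - A₃))) +
      P.eval A₃ * ((A - A₁) * (A - A₂) / ((A₃ - A₁) * (A₃ - A₂))) := by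
  rw [quad h A, quad h A₁, quad h A₂, quad h A₃]
  have e1 := sub_ne_zero.2 h12
  have e2 := sub_ne_zero.2 h13
  have e3 := sub_ne_zero.2 h23
  have e4 := sub_ne_zero.2 h12.symm
  have e5 := sub_ne_zero.2 h13.symm
  have e6 := sub_ne_zero.2 h23.symm
  field_simp
  ring

/-- a polynomial of degree at most one with two zeros -/
lemma lin_zero {Q : ℂ[X]} (hQ : Q.natDegree ≤ 1) {s t : ℂ} (hst : s ≠ t) (hs : Q.eval s = 0)
    (ht : Q.eval t = 0) : Q = 0 := by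
  have e := fun A => quad (hQ.trans one_le_two) A
  have c2 : Q.coeff 2 = 0 := coeff_eq_zero_of_natDegree_lt (by omega)
  rw [e s, c2] at hs
  rw [e t, c2] at ht
  have c1 : Q.coeff 1 = 0 := by
    have : Q.coeff 1 * (s - t) = 0 := by linear_combination hs - ht
    exact (mul_eq_zero.1 this).resolve_right (sub_ne_zero.2 hst)
  have c0 : Q.coeff 0 = 0 := by rw [c1] at hs; linear_combination hs
  rw [eq_C_of_natDegree_eq_zero (p := Q) ?_, c0, C_0]
  by_contra hne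
  have h1 : Q.natDegree = 1 := by omega
  have : Q ≠ 0 := by rintro rfl; simp at h1
  exact (leadingCoeff_ne_zero.2 this) (by rw [leadingCoeff, h1, c1])

/-- the data of `EO` in the empty line at the next level -/
lemma stepEO (hθ : θ ^ 8 = -1) (h : Rel θ ω U V) {n : ℕ} (hZ : Z θ U n) (hZ' : Z θ V n) {I J : List ℂ}
    (hN : I.length + J.length = n + 1) {b : ℂ} (hb : GC θ (b :: (I ++ J))) :
    ∃ Gp : ℂ[X], Gp.natDegree ≤ 2 ∧ Gp.eval (θ ^ 6 * b ^ 2) = 0 ∧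
      (ndc θ I J).eval (θ ^ 4 * b ^ 2) * Gp.eval (θ ^ 4 * b ^ 2) =
        (θ ^ 2 * b) ^ (2 * (I.length + J.length) + 2) * fu θ (θ * b) (I ++ J) *
          U.R I J (θ * b) ∧
      ∀ a, GC θ (a :: b :: (I ++ J)) → a ^ (2 * (I.length + J.length) + 2) * U.Y I J a b =
        (ndc θ I J * Gp).eval (a ^ 2) := by
  have hG := hb.tail hθ
  obtain ⟨P, d, v, n1, n2, n3⟩ := h.polY I J b hb
  obtain ⟨Gp, hGp, dG⟩ := facC hθ hG (P := P) (k := 2) d (by
    intro t ht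
    obtain ⟨x, I', hI, htx⟩ := rem_of_mem ht
    have hl := len_of_perm hI
    have hg : GC θ (t :: ([b] ++ (I' ++ J))) := GC.remI hθ (S := [b]) hI htx hb
    rw [n1 x I' t hI htx, ((hZ I' J (by omega)).2 b t
      (GC.perm hθ (List.Perm.swap b t _) hg)).2.2, mul_zero])
    (exY hθ h hZ hZ' hN hb v)
  refine ⟨Gp, dG, ?_, ?_, ?_⟩
  · rw [hGp, eval_mul] at n2
    exact (mul_eq_zero.1 n2).resolve_left (ndc_ne hθ hb 3)
  · rw [← n3, hGp, eval_mul]
  · intro a ha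
    rw [v a ha, hGp]

/-- the occupied single line vanishes at the next level -/
theorem stepR (hθ : θ ^ 8 = -1) (h : Rel θ ω U V) {n : ℕ} (hZ : Z θ U n) (hZ' : Z θ V n) {I J : List ℂ}
    (hN : I.length + J.length = n + 1) (hG : GC θ (I ++ J)) :
    ∀ a, GC θ (a :: (I ++ J)) → U.R I J a = 0 := by
  have h0 := th_ne hθ
  set N := I.length + J.length with hNdef
  set nd := ndc θ I J with hnd
  have hlen : (I ++ J).length = N := by simp [hNdef]
  have hS0 : ∀ c ∈ I ++ J, c ≠ 0 := fun c hc => hG.mem_ne0 hc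
  obtain ⟨PR, dR, vR, nI, nJ⟩ := h.polR I J hG
  obtain ⟨Q, hQ, dQ⟩ := facC hθ hG (P := PR) (k := 1) dR (by
      intro t ht
      obtain ⟨x, I', hI, htx⟩ := rem_of_mem ht
      have hl := len_of_perm hI
      have hg : GC θ (t :: ([] ++ (I' ++ J))) := GC.remI hθ (S := []) hI htx hG
      rw [nI x I' t hI htx, (hZ' I' J (by omega)).1 _ (hg.flip hθ), mul_zero]) (by
      intro t ht
      obtain ⟨x, I', hI, htx⟩ := rem_of_mem ht
      have hl := len_of_perm hI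
      have hg : GC θ (t :: ([] ++ (I ++ I'))) := GC.remJ hθ (S := []) hI htx hG
      rw [nJ x I' t hI htx, (hZ' I I' (by omega)).1 _ (hg.flip hθ), mul_zero])
  rw [← hnd] at hQ
  suffices hQ0 : Q = 0 by
    intro a ha
    have := vR a ha
    rw [hQ, hQ0, mul_zero, eval_zero] at this
    exact (mul_eq_zero.1 this).resolve_left (pow_ne_zero _ (ha.ne0 hθ))
  -- three generic lines
  obtain ⟨a₁, g₁⟩ := exists_GC hθ hG
  obtain ⟨a₂, g₂⟩ := exists_GC hθ g₁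
  obtain ⟨a₃, g₃⟩ := exists_GC hθ g₂
  have ga₂ : GC θ (a₂ :: (I ++ J)) :=
    (GC.perm hθ (List.Perm.swap a₁ a₂ _) g₂).tail hθ
  have ga₃ : GC θ (a₃ :: (I ++ J)) := by
    refine GC.subl ?_ g₃
    exact (((List.Sublist.refl _).cons _).cons _).cons_cons _
  have d12 : a₁ ^ 2 ≠ a₂ ^ 2 := by
    have := (g₂.cons hθ).sep' (c := a₁) (by
      rw [List.mem_cons]; right; exact mem_im.2 ⟨a₁, by simp, Or.inl rfl⟩)
    have := pair_ne hθ this 0 0
    simpa using this.symm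
  have d13 : a₁ ^ 2 ≠ a₃ ^ 2 := by
    have := (g₃.cons hθ).sep' (c := a₁) (by
      rw [List.mem_cons]; right; exact mem_im.2 ⟨a₁, by simp, Or.inl rfl⟩)
    have := pair_ne hθ this 0 0
    simpa using this.symm
  have d23 : a₂ ^ 2 ≠ a₃ ^ 2 := by
    have := (g₃.cons hθ).sep' (c := a₂) (by
      rw [List.mem_cons]; right; exact mem_im.2 ⟨a₂, by simp, Or.inl rfl⟩)
    have := pair_ne hθ this 0 0
    simpa using this.symm
  have nn : ∀ {a : ℂ}, GC θ (a :: (I ++ J)) → nd.eval (a ^ 2) ≠ 0 := by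
    intro a ha
    have := ndc_ne hθ ha 0
    simpa using this
  obtain ⟨P₁, v₁, -⟩ := h.polYo I J a₁ g₁
  obtain ⟨P₂, v₂, -⟩ := h.polYo I J a₂ ga₂
  obtain ⟨P₃, v₃, -⟩ := h.polYo I J a₃ ga₃
  have node : ∀ {a : ℂ} {P : ℂ[X]}, GC θ (a :: (I ++ J)) →
      (∀ b, GC θ (b :: a :: (I ++ J)) → b ^ (2 * N + 3) * U.Y I J a b = P.eval (b ^ 2)) →
      ∀ x ∈ im I, P.eval (θ ^ 10 * x ^ 2) = 0 := by
    intro a P ha hv x hx
    obtain ⟨P', v', -⟩ := h.polX I J a ha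
    exact (exX hθ h hZ hZ' hN ha v' hv x hx).1
  -- the polynomial `b ^ (2 N + 3) G_b (θ ^ 4 b ^ 2)`
  set k₁ := a₁ ^ (2 * N + 2) / (nd.eval (a₁ ^ 2) * ((a₁ ^ 2 - a₂ ^ 2) * (a₁ ^ 2 - a₃ ^ 2)))
    with hk₁
  set k₂ := a₂ ^ (2 * N + 2) / (nd.eval (a₂ ^ 2) * ((a₂ ^ 2 - a₁ ^ 2) * (a₂ ^ 2 - a₃ ^ 2)))
    with hk₂
  set k₃ := a₃ ^ (2 * N + 2) / (nd.eval (a₃ ^ 2) * ((a₃ ^ 2 - a₁ ^ 2) * (a₃ ^ 2 - a₂ ^ 2)))
    with hk₃
  set H : ℂ[X] :=
    C k₁ * P₁ * ((C (θ ^ 4) * Polynomial.X - C (a₂ ^ 2)) *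
        (C (θ ^ 4) * Polynomial.X - C (a₃ ^ 2))) +
    C k₂ * P₂ * ((C (θ ^ 4) * Polynomial.X - C (a₁ ^ 2)) *
        (C (θ ^ 4) * Polynomial.X - C (a₃ ^ 2))) +
    C k₃ * P₃ * ((C (θ ^ 4) * Polynomial.X - C (a₁ ^ 2)) *
        (C (θ ^ 4) * Polynomial.X - C (a₂ ^ 2))) with hH
  have hHe : ∀ B, H.eval B =
      k₁ * P₁.eval B * ((θ ^ 4 * B - a₂ ^ 2) * (θ ^ 4 * B - a₃ ^ 2)) +
      k₂ * P₂.eval B * ((θ ^ 4 * B - a₁ ^ 2) * (θ ^ 4 * B - a₃ ^ 2)) +
      k₃ * P₃.eval B * ((θ ^ 4 * B - a₁ ^ 2) * (θ ^ 4 * B - a₂ ^ 2)) := by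
    intro B
    rw [hH]
    simp only [eval_add, eval_mul, eval_sub, eval_C, eval_X]
  set Lp : ℂ[X] := C (2 * 4 ^ N) * nd.comp (C (θ ^ 4) * Polynomial.X) * H -
    C (θ * sn θ 1 1) * Polynomial.X *
      (C (θ ^ 4) * Polynomial.X ^ 2 - C (2 * cs (θ ^ 5) * θ ^ 2) * Polynomial.X + C 1) *
      ((I ++ J).map fun c => (C (θ ^ 2) * Polynomial.X + C (c ^ 2)) *
        (C (θ ^ 2) * Polynomial.X + C ((c ^ 2)⁻¹))).prod *
      (nd * Q).comp (C (θ ^ 2) * Polynomial.X) with hLp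
  have hev : ∀ B, Lp.eval B = 2 * 4 ^ N * nd.eval (θ ^ 4 * B) * H.eval B -
      θ * sn θ 1 1 * B * (θ ^ 4 * B ^ 2 - 2 * cs (θ ^ 5) * θ ^ 2 * B + 1) *
        ((I ++ J).map fun c => (θ ^ 2 * B + c ^ 2) * (θ ^ 2 * B + (c ^ 2)⁻¹)).prod *
        (nd.eval (θ ^ 2 * B) * Q.eval (θ ^ 2 * B)) := by
    intro B
    rw [hLp]
    simp only [eval_sub, eval_add, eval_mul, eval_C, eval_X, eval_comp, eval_prod_lin2, eval_pow]
  have hL0 : Lp = 0 := by
    refine zero_of_GC hθ g₃ fun b hb => ?_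
    have hb0 := hb.ne0 hθ
    have hbG : GC θ (b :: (I ++ J)) := GC.subl
      ((((List.Sublist.refl _).cons _).cons _).cons _ |>.cons_cons _) hb
    have hb₁ : GC θ (b :: a₁ :: (I ++ J)) := GC.subl
      (((List.Sublist.refl _).cons _).cons _ |>.cons_cons _) hb
    have hb₂ : GC θ (b :: a₂ :: (I ++ J)) := GC.subl
      ((((List.Sublist.refl _).cons _).cons_cons _).cons _ |>.cons_cons _) hb
    have hb₃ : GC θ (b :: a₃ :: (I ++ J)) := GC.subl
      ((((List.Sublist.refl _).cons _).cons _).cons_cons _ |>.cons_cons _) hb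
    obtain ⟨Gp, dG, -, gf, gv⟩ := stepEO hθ h hZ hZ' hN hbG
    have w₁ := gv a₁ (GC.perm hθ (List.Perm.swap a₁ b _) hb₁)
    have w₂ := gv a₂ (GC.perm hθ (List.Perm.swap a₂ b _) hb₂)
    have w₃ := gv a₃ (GC.perm hθ (List.Perm.swap a₃ b _) hb₃)
    rw [← hNdef, ← hnd] at w₁ w₂ w₃ gf
    rw [eval_mul] at w₁ w₂ w₃
    have u₁ := v₁ b hb₁
    have u₂ := v₂ b hb₂
    have u₃ := v₃ b hb₃
    have n₁ := nn g₁
    have n₂ := nn ga₂
    have n₃ := nn ga₃
    have hHb : H.eval (b ^ 2) = b ^ (2 * N + 3) * Gp.eval (θ ^ 4 * b ^ 2) := by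
      rw [hHe, lag dG d12 d13 d23 (θ ^ 4 * b ^ 2), ← u₁, ← u₂, ← u₃, hk₁, hk₂, hk₃]
      have E₁ : Gp.eval (a₁ ^ 2) = a₁ ^ (2 * N + 2) * U.Y I J a₁ b / nd.eval (a₁ ^ 2) := by
        rw [w₁]; field_simp
      have E₂ : Gp.eval (a₂ ^ 2) = a₂ ^ (2 * N + 2) * U.Y I J a₂ b / nd.eval (a₂ ^ 2) := by
        rw [w₂]; field_simp
      have E₃ : Gp.eval (a₃ ^ 2) = a₃ ^ (2 * N + 2) * U.Y I J a₃ b / nd.eval (a₃ ^ 2) := by
        rw [w₃]; field_simp
      rw [E₁, E₂, E₃]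
      simp only [div_eq_mul_inv, mul_inv]
      ring
    have hRb := vR (θ * b) (by
      have := hbG.scale hθ 1
      rwa [pow_one] at this)
    rw [hQ, eval_mul] at hRb
    have hw : θ * b ≠ 0 := mul_ne_zero h0 hb0
    have hc5 := c5_eq (θ := θ) hw
    have hpc := prod_cc hw hS0
    rw [hlen] at hpc
    rw [hev, hHb]
    have e1 : (θ * b) ^ 2 = θ ^ 2 * b ^ 2 := by ring
    rw [e1] at hRb hc5
    have e2 : (θ * b) ^ 4 - 2 * cs (θ ^ 5) * (θ ^ 2 * b ^ 2) + 1 =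
        θ ^ 4 * (b ^ 2) ^ 2 - 2 * cs (θ ^ 5) * θ ^ 2 * b ^ 2 + 1 := by ring
    rw [e2] at hc5
    have e3 : ((I ++ J).map fun c => ((θ * b) ^ 2 + c ^ 2) * ((θ * b) ^ 2 + (c ^ 2)⁻¹)).prod =
        ((I ++ J).map fun c => (θ ^ 2 * b ^ 2 + c ^ 2) * (θ ^ 2 * b ^ 2 + (c ^ 2)⁻¹)).prod := by
      rw [e1]
    rw [e3] at hpc
    rw [← hRb, ← hc5, ← hpc]
    unfold fu at gf
    set PP := ((I ++ J).map fun c => cs (θ * b / c) * cs (θ * b * c)).prod
    set RR := U.R I J (θ * b)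
    calc _ = 2 * 4 ^ N * b ^ (2 * N + 3) * (nd.eval (θ ^ 4 * b ^ 2) * Gp.eval (θ ^ 4 * b ^ 2)) -
          θ * sn θ 1 1 * b ^ 2 * (2 * (θ ^ 2 * b ^ 2) * c5 θ (θ * b)) *
          (4 ^ N * (θ * b) ^ (2 * N) * PP) * ((θ * b) ^ (2 * N + 1) * RR) := by ring
      _ = 0 := by
        rw [gf]
        ring
  -- special values
  have key2 : ∀ (x : ℂ) (j : ℕ) (B : ℂ), x ∈ im I ++ im J → θ ^ 2 * B = θ ^ (2 * j) * x ^ 2 →
      (nd.eval (θ ^ 4 * B) = 0 ∨ H.eval B = 0) →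
      θ ^ (2 * j) ≠ θ ^ (2 * 5) → θ ^ (2 * j) ≠ θ ^ (2 * 3) → θ ^ (2 * j) ≠ θ ^ (2 * 4) →
      θ ^ (2 * (2 * j)) ≠ θ ^ (2 * 5) → θ ^ (2 * (2 * j)) ≠ θ ^ (2 * 11) →
      Q.eval (θ ^ (2 * j) * x ^ 2) = 0 := by
    intro x j B hx hB hz h5 h3 h4 h55 h11
    have hIJ := hG.split hθ
    have hx0 : x ≠ 0 := hIJ.mem_ne0 hx
    have hB0 : B ≠ 0 := by
      rintro rfl
      rw [mul_zero] at hB
      exact mul_ne_zero (pow_ne_zero _ h0) (pow_ne_zero _ hx0) hB.symm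
    have e := hev B
    rw [hL0, eval_zero] at e
    have e3 : θ * sn θ 1 1 * B * (θ ^ 4 * B ^ 2 - 2 * cs (θ ^ 5) * θ ^ 2 * B + 1) *
        ((I ++ J).map fun c => (θ ^ 2 * B + c ^ 2) * (θ ^ 2 * B + (c ^ 2)⁻¹)).prod *
        (nd.eval (θ ^ 2 * B) * Q.eval (θ ^ 2 * B)) = 0 := by
      rcases hz with hz | hz <;> rw [hz] at e <;> linear_combination e
    have hxi : x⁻¹ ∈ im I ++ im J := by
      rcases List.mem_append.1 hx with hx | hx
      · refine List.mem_append_left _ ?_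
        obtain ⟨y, hy, rfl | rfl⟩ := mem_im.1 hx
        · exact mem_im.2 ⟨_, hy, Or.inr rfl⟩
        · exact mem_im.2 ⟨y, hy, Or.inl (inv_inv y)⟩
      · refine List.mem_append_right _ ?_
        obtain ⟨y, hy, rfl | rfl⟩ := mem_im.1 hx
        · exact mem_im.2 ⟨_, hy, Or.inr rfl⟩
        · exact mem_im.2 ⟨y, hy, Or.inl (inv_inv y)⟩
    -- the boundary factor
    have f1 : θ ^ 4 * B ^ 2 - 2 * cs (θ ^ 5) * θ ^ 2 * B + 1 ≠ 0 := by
      intro hf
      have hf' : (θ ^ 2 * B - θ ^ 5) * (θ ^ 2 * B - (θ ^ 5)⁻¹) = 0 := by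
        have h5 : θ ^ 5 * (θ ^ 5)⁻¹ = 1 := mul_inv_cancel₀ (pow_ne_zero _ h0)
        unfold cs at hf
        linear_combination hf + h5
      rw [hB] at hf'
      have hx2 : x ^ 2 * x⁻¹ ^ 2 = 1 := by
        rw [← mul_pow, mul_inv_cancel₀ hx0, one_pow]
      rcases mul_eq_zero.1 hf' with h6 | h6
      · refine hIJ.pair hθ hx hxi (j := 2 * j) (k := 5) h55 ?_
        have h7 : θ ^ (2 * j) * x ^ 2 = θ ^ 5 := sub_eq_zero.1 h6
        calc θ ^ (2 * (2 * j)) * x ^ 2 = (θ ^ (2 * j) * x ^ 2) ^ 2 * x⁻¹ ^ 2 := by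
              linear_combination (-(θ ^ (2 * (2 * j)) * x ^ 2)) * hx2
          _ = _ := by rw [h7]; ring
      · refine hIJ.pair hθ hx hxi (j := 2 * j) (k := 11) h11 ?_
        have h7 : θ ^ (2 * j) * x ^ 2 = (θ ^ 5)⁻¹ := sub_eq_zero.1 h6
        have h8 : ((θ ^ 5)⁻¹) ^ 2 = θ ^ (2 * 11) := by
          rw [← inv_pow, ← pow_mul, inv_pow]
          apply inv_eq_of_mul_eq_one_right
          rw [← pow_add, show 5 * 2 + 2 * 11 = 16 * 2 by norm_num, pow_mul, th16 hθ, one_pow]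
        calc θ ^ (2 * (2 * j)) * x ^ 2 = (θ ^ (2 * j) * x ^ 2) ^ 2 * x⁻¹ ^ 2 := by
              linear_combination (-(θ ^ (2 * (2 * j)) * x ^ 2)) * hx2
          _ = _ := by rw [h7, h8]
    have f2 : ((I ++ J).map fun c => (θ ^ 2 * B + c ^ 2) * (θ ^ 2 * B + (c ^ 2)⁻¹)).prod ≠ 0 := by
      refine prod_ne fun c hc => ?_
      have hc1 : c ∈ im I ++ im J := by
        rcases List.mem_append.1 hc with hc | hc
        · exact List.mem_append_left _ (mem_im.2 ⟨c, hc, Or.inl rfl⟩)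
        · exact List.mem_append_right _ (mem_im.2 ⟨c, hc, Or.inl rfl⟩)
      have hc2 : c⁻¹ ∈ im I ++ im J := by
        rcases List.mem_append.1 hc with hc | hc
        · exact List.mem_append_left _ (mem_im.2 ⟨c, hc, Or.inr rfl⟩)
        · exact List.mem_append_right _ (mem_im.2 ⟨c, hc, Or.inr rfl⟩)
      rw [hB]
      refine mul_ne_zero (fun h6 => ?_) (fun h6 => ?_)
      · refine hIJ.pair hθ hx hc1 (j := j) (k := 4) h4 ?_
        rw [show (2 * 4) = 8 from rfl, hθ]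
        linear_combination h6
      · refine hIJ.pair hθ hx hc2 (j := j) (k := 4) h4 ?_
        rw [show (2 * 4) = 8 from rfl, hθ, inv_pow]
        linear_combination h6
    have f3 : nd.eval (θ ^ 2 * B) ≠ 0 := by
      rw [hB]
      exact ndc_ne_mem hθ hG hx h5 h3
    have f4 := (mul_eq_zero.1 e3).resolve_left
      (mul_ne_zero (mul_ne_zero (mul_ne_zero (mul_ne_zero h0 (sn11_ne hθ)) hB0) f1) f2)
    rw [← hB]
    exact (mul_eq_zero.1 f4).resolve_left f3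
  have fin : ∀ {S : List ℂ} {y : ℂ}, S = I ∨ S = J → y ∈ S → y ^ 2 ≠ y⁻¹ ^ 2 := by
    intro S y hS hy
    have hy' : y ∈ I ++ J := by
      rcases hS with rfl | rfl
      · exact List.mem_append_left _ hy
      · exact List.mem_append_right _ hy
    have hg : GC θ (y :: (I ++ J).erase y) := GC.perm hθ (List.perm_cons_erase hy') hG
    have h1 := (hg.cons hθ).sep' (c := y⁻¹) (by simp)
    have := pair_ne hθ h1 0 0
    simpa using this
  rcases J with _ | ⟨y, J'⟩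
  · rcases I with _ | ⟨x, I'⟩
    · simp at hNdef
      omega
    · have hz : ∀ t ∈ im (x :: I'), Q.eval (θ ^ (2 * 6) * t ^ 2) = 0 := by
        intro t ht
        refine key2 t 6 (θ ^ 10 * t ^ 2) (List.mem_append_left _ ht) (by ring) (Or.inr ?_)
          ?_ ?_ ?_ ?_ ?_
        · rw [hHe, node g₁ v₁ t ht, node ga₂ v₂ t ht, node ga₃ v₃ t ht]
          ring
        · exact (th_pow_ne hθ (by norm_num) (by norm_num)).symm
        · exact (th_pow_ne hθ (by norm_num) (by norm_num)).symm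
        · exact (th_pow_ne hθ (by norm_num) (by norm_num)).symm
        · exact (th_pow_ne hθ (by norm_num) (by norm_num)).symm
        · exact (th_pow_ne hθ (by norm_num) (by norm_num)).symm
      refine lin_zero dQ ?_ (hz x (mem_im.2 ⟨x, by simp, Or.inl rfl⟩))
        (hz x⁻¹ (mem_im.2 ⟨x, by simp, Or.inr rfl⟩))
      intro he
      exact fin (Or.inl rfl) (y := x) (by simp) (mul_left_cancel₀ (pow_ne_zero _ h0) he)
  · have hz : ∀ t ∈ im (y :: J'), Q.eval (θ ^ (2 * 2) * t ^ 2) = 0 := by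
      intro t ht
      refine key2 t 2 (θ ^ 2 * t ^ 2) (List.mem_append_right _ ht) (by ring) (Or.inl ?_)
        ?_ ?_ ?_ ?_ ?_
      · apply ndp_eval_mem
        exact mem_nds.2 (Or.inr ⟨t, ht, by ring⟩)
      · exact th_pow_ne hθ (by norm_num) (by norm_num)
      · exact th_pow_ne hθ (by norm_num) (by norm_num)
      · exact th_pow_ne hθ (by norm_num) (by norm_num)
      · exact th_pow_ne hθ (by norm_num) (by norm_num)
      · exact th_pow_ne hθ (by norm_num) (by norm_num)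
    refine lin_zero dQ ?_ (hz y (mem_im.2 ⟨y, by simp, Or.inl rfl⟩))
      (hz y⁻¹ (mem_im.2 ⟨y, by simp, Or.inr rfl⟩))
    intro he
    exact fin (Or.inr rfl) (y := y) (by simp) (mul_left_cancel₀ (pow_ne_zero _ h0) he)

/-! ### two ended lines -/

/-- a quadratic polynomial with the zeros `θ ^ 6 B`, `θ ^ 4 B` -/
lemma quad_zero (hθ : θ ^ 8 = -1) {P : ℂ[X]} (h : P.natDegree ≤ 2) {B : ℂ} (hB : B ≠ 0)
    (h1 : P.eval (θ ^ 6 * B) = 0) (h2 : P.eval (θ ^ 4 * B) = 0) (A : ℂ) :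
    P.eval A = P.coeff 2 * ((A - θ ^ 6 * B) * (A - θ ^ 4 * B)) := by
  have h0 := th_ne hθ
  rw [quad h] at h1 h2
  have hne : (θ ^ 6 - θ ^ 4) * B ≠ 0 := by
    refine mul_ne_zero (sub_ne_zero.2 ?_) hB
    exact (th_pow_ne hθ (j := 2) (k := 3) (by norm_num) (by norm_num)).symm
  have c1 : P.coeff 1 = -P.coeff 2 * ((θ ^ 6 + θ ^ 4) * B) := by
    have : ((θ ^ 6 - θ ^ 4) * B) * (P.coeff 1 + P.coeff 2 * ((θ ^ 6 + θ ^ 4) * B)) = 0 := by
      linear_combination h1 - h2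
    have := (mul_eq_zero.1 this).resolve_left hne
    linear_combination this
  have c0 : P.coeff 0 = P.coeff 2 * (θ ^ 10 * B ^ 2) := by
    rw [c1] at h1
    linear_combination h1
  rw [quad h, c1, c0]
  ring

lemma GC.bd (hθ : θ ^ 8 = -1) {a : ℂ} {S : List ℂ} (h : GC θ (a :: S)) (k : ℕ) :
    a ^ 2 ≠ θ ^ k := by
  intro e
  have ha := h.ne0 hθ
  have hs := (h.cons hθ).sep' (c := a⁻¹) (by simp)
  refine hs (7 * k) ?_
  have h16 := th16 hθ
  have e2 : θ ^ (14 * k) * (a ^ 2 * a ^ 2) = 1 := by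
    rw [e, ← pow_add, ← pow_add, show 14 * k + (k + k) = 16 * k by ring, pow_mul, h16, one_pow]
  rw [← pow_mul, show 2 * (7 * k) = 14 * k by ring, inv_pow]
  have ha2 : a ^ 2 ≠ 0 := pow_ne_zero _ ha
  field_simp
  linear_combination e2

lemma GC.bd' (hθ : θ ^ 8 = -1) {x : ℂ} {S : List ℂ} (h : GC θ S) (hx : x ∈ S) (k : ℕ) :
    x ^ 2 ≠ θ ^ k :=
  GC.bd hθ (GC.perm hθ (List.perm_cons_erase hx) h) k

lemma ndc_th (hθ : θ ^ 8 = -1) {I J : List ℂ} (h : GC θ (I ++ J)) (k : ℕ) :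
    (ndc θ I J).eval (θ ^ k) ≠ 0 := by
  have h16 := th16 hθ
  have hk : ∀ t ∈ im I ++ im J, ∀ k, t ^ 2 ≠ θ ^ k := by
    intro t ht k
    have key : ∀ x ∈ I ++ J, t = x ∨ t = x⁻¹ → t ^ 2 ≠ θ ^ k := by
      rintro x hx (rfl | rfl)
      · exact h.bd' hθ hx k
      · intro e
        refine h.bd' hθ hx (15 * k) ?_
        have : x ^ 2 = (θ ^ k)⁻¹ := by rw [← e, inv_pow, inv_inv]
        rw [this]
        apply inv_eq_of_mul_eq_one_right
        rw [← pow_add, show k + 15 * k = 16 * k by ring, pow_mul, h16, one_pow]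
    rcases List.mem_append.1 ht with ht | ht
    · obtain ⟨x, hx, e⟩ := mem_im.1 ht
      exact key x (List.mem_append_left _ hx) e
    · obtain ⟨x, hx, e⟩ := mem_im.1 ht
      exact key x (List.mem_append_right _ hx) e
  apply ndp_eval_ne
  intro hm
  rcases mem_nds.1 hm with ⟨c, hc, e⟩ | ⟨c, hc, e⟩
  · refine hk c (List.mem_append_left _ hc) (k + 6) ?_
    rw [pow_add, e]
    linear_combination (-(c ^ 2)) * h16
  · refine hk c (List.mem_append_right _ hc) (k + 10) ?_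
    rw [pow_add, e]
    linear_combination (-(c ^ 2)) * h16

lemma ndc_eval (I J : List ℂ) (A : ℂ) : (ndc θ I J).eval A =
    (I.map fun x => (A - θ ^ 10 * x ^ 2) * (A - θ ^ 10 * x⁻¹ ^ 2)).prod *
    (J.map fun y => (A - θ ^ 6 * y ^ 2) * (A - θ ^ 6 * y⁻¹ ^ 2)).prod := by
  have e : ∀ L : List ℂ, (ndp L).eval A = (L.map fun a => A - a).prod := by
    intro L
    induction L with
    | nil => simp [ndp]
    | cons a L ih =>
      have : ndp (a :: L) = (Polynomial.X - C a) * ndp L := rfl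
      rw [this, eval_mul, ih]
      simp
  have f : ∀ (S : List ℂ) (g : ℂ → ℂ), ((im S).map g).prod =
      (S.map fun x => g x * g x⁻¹).prod := by
    intro S g
    unfold im
    rw [List.map_append, List.prod_append, List.map_map]
    induction S with
    | nil => simp
    | cons c S ih =>
      simp only [List.map_cons, List.prod_cons, Function.comp] at ih ⊢
      rw [← ih]
      ring
  unfold ndc nds
  rw [e, List.map_append, List.prod_append, List.map_map, List.map_map, f, f]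
  rfl

lemma ndc_inv (hθ : θ ^ 8 = -1) {I J : List ℂ} (h : GC θ (I ++ J)) : ∃ ι : ℂ, ι ≠ 0 ∧
    ∀ A : ℂ, A ≠ 0 → (ndc θ J I).eval A⁻¹ * A ^ (2 * (I.length + J.length)) =
      ι * (ndc θ I J).eval A := by
  have h0 := th_ne hθ
  have h16 := th16 hθ
  have aux : ∀ (S : List ℂ) (k l : ℕ), θ ^ k * θ ^ l = 1 → (∀ c ∈ S, c ≠ 0) → ∀ A : ℂ, A ≠ 0 →
      (S.map fun x => (A⁻¹ - θ ^ k * x ^ 2) * (A⁻¹ - θ ^ k * x⁻¹ ^ 2)).prod *
        A ^ (2 * S.length) = (θ ^ k) ^ (2 * S.length) *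
      (S.map fun x => (A - θ ^ l * x ^ 2) * (A - θ ^ l * x⁻¹ ^ 2)).prod := by
    intro S k l hkl hS A hA
    induction S with
    | nil => simp
    | cons c S ih =>
      have hc : c ≠ 0 := hS c (by simp)
      have ih' := ih fun c hc => hS c (by simp [hc])
      rw [List.map_cons, List.prod_cons, List.map_cons, List.prod_cons, List.length_cons]
      have hl : θ ^ l = (θ ^ k)⁻¹ := (inv_eq_of_mul_eq_one_right hkl).symm
      have e : (A⁻¹ - θ ^ k * c ^ 2) * (A⁻¹ - θ ^ k * c⁻¹ ^ 2) * A ^ 2 =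
          (θ ^ k) ^ 2 * ((A - θ ^ l * c ^ 2) * (A - θ ^ l * c⁻¹ ^ 2)) := by
        rw [hl]
        have hk : θ ^ k ≠ 0 := pow_ne_zero _ h0
        field_simp
        ring
      calc _ = ((A⁻¹ - θ ^ k * c ^ 2) * (A⁻¹ - θ ^ k * c⁻¹ ^ 2) * A ^ 2) *
            ((S.map fun x => (A⁻¹ - θ ^ k * x ^ 2) * (A⁻¹ - θ ^ k * x⁻¹ ^ 2)).prod *
              A ^ (2 * S.length)) := by ring
        _ = _ := by rw [e, ih']; ring
  have hS0 : ∀ c ∈ I ++ J, c ≠ 0 := fun c hc => h.mem_ne0 hc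
  refine ⟨(θ ^ 6) ^ (2 * I.length) * (θ ^ 10) ^ (2 * J.length),
    mul_ne_zero (pow_ne_zero _ (pow_ne_zero _ h0)) (pow_ne_zero _ (pow_ne_zero _ h0)), ?_⟩
  intro A hA
  rw [ndc_eval, ndc_eval]
  have a1 := aux I 6 10 (by rw [← pow_add]; exact h16)
    (fun c hc => hS0 c (List.mem_append_left _ hc)) A hA
  have a2 := aux J 10 6 (by rw [← pow_add]; exact h16)
    (fun c hc => hS0 c (List.mem_append_right _ hc)) A hA
  calc _ = ((I.map fun x => (A⁻¹ - θ ^ 6 * x ^ 2) * (A⁻¹ - θ ^ 6 * x⁻¹ ^ 2)).prod *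
        A ^ (2 * I.length)) *
      ((J.map fun y => (A⁻¹ - θ ^ 10 * y ^ 2) * (A⁻¹ - θ ^ 10 * y⁻¹ ^ 2)).prod *
        A ^ (2 * J.length)) := by ring
    _ = _ := by rw [a1, a2]; ring

/-- the form of `O` at the next level -/
theorem Oform (hθ : θ ^ 8 = -1) (h : Rel θ ω U V) {n : ℕ} (hZ : Z θ U n) {I J : List ℂ}
    (hN : I.length + J.length = n + 1) {b : ℂ} (hb : GC θ (b :: (I ++ J))) : ∃ c : ℂ,
      ∀ r, GC θ (r :: b :: (I ++ J)) → r ^ (2 * (I.length + J.length)) * U.O I J b r =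
        (ndc θ J I * C c).eval (r ^ 2) := by
  have hIJ := hb.tail hθ
  obtain ⟨P, d, v, n1, n2⟩ := h.polO I J b hb
  obtain ⟨Gp, hGp, dG⟩ := facC hθ (I := J) (J := I) (GC.perm hθ List.perm_append_comm hIJ)
      (P := P) (k := 0) (by omega) (by
      intro t ht
      obtain ⟨x, I', hI, htx⟩ := rem_of_mem ht
      have hl := len_of_perm hI
      have hg : GC θ (t :: ([b] ++ (I ++ I'))) := GC.remJ hθ (S := [b]) hI htx hb
      rw [n2 x I' t hI htx, ((hZ I I' (by omega)).2 b t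
        (GC.perm hθ (List.Perm.swap b t _) hg)).1, mul_zero]) (by
      intro t ht
      obtain ⟨x, I', hI, htx⟩ := rem_of_mem ht
      have hl := len_of_perm hI
      have hg : GC θ (t :: ([b] ++ (I' ++ J))) := GC.remI hθ (S := [b]) hI htx hb
      rw [n1 x I' t hI htx, ((hZ I' J (by omega)).2 t b hg).2.1, mul_zero])
  refine ⟨Gp.coeff 0, fun r hr => ?_⟩
  rw [v r hr, hGp]
  congr 2
  exact eq_C_of_natDegree_eq_zero (by omega)

/-- the form of `Y` at the next level -/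
theorem Yform (hθ : θ ^ 8 = -1) (h : Rel θ ω U V) {n : ℕ} (hZ : Z θ U n) (hZ' : Z θ V n) {I J : List ℂ}
    (hN : I.length + J.length = n + 1) {b : ℂ} (hb : GC θ (b :: (I ++ J))) : ∃ g : ℂ,
      ∀ a, GC θ (a :: b :: (I ++ J)) → a ^ (2 * (I.length + J.length) + 2) * U.Y I J a b =
        (ndc θ I J * (C g * ((Polynomial.X - C (θ ^ 6 * b ^ 2)) *
          (Polynomial.X - C (θ ^ 4 * b ^ 2))))).eval (a ^ 2) := by
  have hG := hb.tail hθ
  have hB : b ^ 2 ≠ 0 := pow_ne_zero _ (hb.ne0 hθ)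
  have hb' : GC θ (θ * b :: (I ++ J)) := by
    have := hb.scale hθ 1
    rwa [pow_one] at this
  obtain ⟨Gp, dG, z6, z4, v⟩ := stepEO hθ h hZ hZ' hN hb
  rw [stepR hθ h hZ hZ' hN hG _ hb', mul_zero] at z4
  have z4' := (mul_eq_zero.1 z4).resolve_left (ndc_ne hθ hb 2)
  refine ⟨Gp.coeff 2, fun a ha => ?_⟩
  rw [v a ha, eval_mul, eval_mul, quad_zero hθ dG hB z6 z4']
  simp

lemma kp_eq (hθ : θ ^ 8 = -1) {u : ℂ} (hu : u ≠ 0) :
    4 * u ^ 2 * kp θ u = (u ^ 2 - θ ^ 9) * (u ^ 2 - θ ^ 7) := by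
  have h0 := th_ne hθ
  have h16 := th16 hθ
  have h9 : θ ^ 9 = -θ := by linear_combination θ * hθ
  have h7 : θ ^ 7 = -θ⁻¹ := by
    field_simp
    linear_combination hθ
  have e : 4 * u ^ 2 * kp θ u = u ^ 4 + 1 + u ^ 2 * (θ + θ⁻¹) := by
    unfold kp cs
    field_simp
    ring
  rw [e]
  linear_combination u ^ 2 * h9 + u ^ 2 * h7 - h16

/-- the value of `Y` (upper occupied line) at the square `θ ^ 3` -/
lemma E1 (hθ : θ ^ 8 = -1) (h : Rel θ ω U V)
    {n : ℕ} (hZ : Z θ U n) {I J : List ℂ} (hN : I.length + J.length = n + 1) {a : ℂ}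
    (ha : GC θ (a :: (I ++ J))) {g : ℂ}
    (hg : ∀ b, GC θ (b :: a :: (I ++ J)) → b ^ (2 * (I.length + J.length) + 2) * U.Y I J b a =
        (ndc θ I J * (C g * ((Polynomial.X - C (θ ^ 6 * a ^ 2)) *
          (Polynomial.X - C (θ ^ 4 * a ^ 2))))).eval (b ^ 2)) {P3 : ℂ[X]}
    (hP3 : ∀ b, GC θ (b :: a :: (I ++ J)) →
      b ^ (2 * (I.length + J.length) + 3) * U.Y I J a b = P3.eval (b ^ 2)) :
    (θ ^ 2 - (θ ^ 2)⁻¹) * a * P3.eval (θ ^ 3) = -((a ^ 2 - θ ^ 9) * (a ^ 2 - θ ^ 7) *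
      ((1 + θ ^ 2) * (θ - a ^ 2) * ((ndc θ I J).eval (θ ^ 3) * g))) := by
  have h0 := th_ne hθ
  have h16 := th16 hθ
  have ha0 := ha.ne0 hθ
  have hG := ha.tail hθ
  obtain ⟨c, hc⟩ := Oform hθ h hZ hN ha
  obtain ⟨Pa, va, -⟩ := h.polX I J a ha
  have t1 := h.trY I J a ha _ _ hg hc
  have t2 := h.trX I J a ha _ _ va hc
  obtain ⟨ι, hι, hi⟩ := ndc_inv hθ hG
  have e3 : (θ ^ 3)⁻¹ = θ ^ 13 := by
    apply inv_eq_of_mul_eq_one_right
    rw [← pow_add]; exact h16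
  have e13 : (θ ^ 13)⁻¹ = θ ^ 3 := by
    apply inv_eq_of_mul_eq_one_right
    rw [← pow_add]; exact h16
  have i1 := hi (θ ^ 3) (pow_ne_zero _ h0)
  have i2 := hi (θ ^ 13) (pow_ne_zero _ h0)
  rw [e3] at i1
  rw [e13] at i2
  have n3 : (ndc θ I J).eval (θ ^ 3) ≠ 0 := ndc_th hθ hG 3
  have n13 : (ndc θ I J).eval (θ ^ 13) ≠ 0 := ndc_th hθ hG 13
  -- exchange
  obtain ⟨P2, -, v2, -⟩ := h.polY I J a ha
  set κ := θ ^ 2 - (θ ^ 2)⁻¹ with hκ
  have q2 : (C (θ ^ 4) * Polynomial.X - C (a ^ 2)) * (C (θ ^ 6) * Polynomial.X - C (a ^ 2)) *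
      (ndc θ I J * (C g * ((Polynomial.X - C (θ ^ 6 * a ^ 2)) *
          (Polynomial.X - C (θ ^ 4 * a ^ 2))))) -
      C (θ ^ 2) * (C (θ ^ 6 * a ^ 2) - Polynomial.X) *
        (C κ * (C a * P3) + (Polynomial.X - C (a ^ 2)) * Pa) = 0 := by
    refine zero_of_GC hθ ha fun b hb => ?_
    have hb0 := hb.ne0 hθ
    have e := clr hθ ha0 hb0 (h.exY I J a b (GC.perm hθ (List.Perm.swap a b _) hb))
    have e2 := hg b hb
    rw [eval_sub, eval_mul, ← e2]
    simp only [eval_sub, eval_mul, eval_add, eval_C, eval_X]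
    rw [← va b hb, ← hP3 b hb]
    linear_combination b ^ (2 * (I.length + J.length) + 2) * e
  have q3 := congrArg (eval (θ ^ 3)) q2
  simp only [eval_sub, eval_mul, eval_add, eval_C, eval_X, eval_zero] at q3 t1 t2
  set N := I.length + J.length
  set E := θ ^ N with hE
  have hE16 : E ^ 16 = 1 := by rw [hE, ← pow_mul, mul_comm, pow_mul, h16, one_pow]
  have hE0 : E ≠ 0 := pow_ne_zero _ h0
  have r1 : θ ^ (3 * (N + 1)) = E ^ 3 * θ ^ 3 := by rw [hE]; ring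
  have r2 : θ ^ (13 * N) = E ^ 13 := by rw [hE]; ring
  have r3 : θ ^ (13 * (N + 1)) = E ^ 13 * θ ^ 13 := by rw [hE]; ring
  have r4 : θ ^ (3 * N) = E ^ 3 := by rw [hE]; ring
  have r5 : (θ ^ 3) ^ (2 * N) = E ^ 6 := by rw [hE]; ring
  have r6 : (θ ^ 13) ^ (2 * N) = E ^ 26 := by rw [hE]; ring
  rw [r1, r2] at t1
  rw [r3, r4] at t2
  rw [r5] at i1
  rw [r6] at i2
  set A := a ^ 2 with hA
  have hA0 : A ≠ 0 := pow_ne_zero _ ha0
  have hk := kp_eq hθ ha0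
  rw [← hA] at hk
  have w9 : A - θ ^ 9 ≠ 0 := sub_ne_zero.2 (ha.bd hθ 9)
  have w7 : A - θ ^ 7 ≠ 0 := sub_ne_zero.2 (ha.bd hθ 7)
  set nd3 := (ndc θ I J).eval (θ ^ 3)
  set nd13 := (ndc θ I J).eval (θ ^ 13)
  set m3 := (ndc θ J I).eval (θ ^ 3)
  set m13 := (ndc θ J I).eval (θ ^ 13)
  set p := Pa.eval (θ ^ 3)
  set w := (A - θ ^ 9) * (A - θ ^ 7) with hw
  have hw0 : w ≠ 0 := mul_ne_zero w9 w7
  have m13' : m13 = ι * nd3 * E ^ 10 := by
    linear_combination E ^ 10 * i1 - m13 * hE16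
  have m3' : m3 = ι * nd13 * E ^ 6 := by
    linear_combination E ^ 6 * i2 - m3 * (E ^ 16 + 1) * hE16
  have c1 : E ^ 3 * θ ^ 13 * nd13 * g * (4 * A) = E ^ 13 * m3 * c := by
    have : w * (E ^ 3 * θ ^ 13 * nd13 * g * (4 * A) - E ^ 13 * m3 * c) = 0 := by
      rw [hw] at hk ⊢
      linear_combination (4 * A) * t1 + (E ^ 13 * (m3 * c)) * hk
    linear_combination (mul_eq_zero.1 this).resolve_left hw0
  have hp : p = w * (nd3 * g) := by
    have : (θ ^ 13 * (4 * A) * ι * nd13) * (p - w * (nd3 * g)) = 0 := by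
      have h1 : E ^ 13 * θ ^ 13 * p * (4 * A) = w * (E ^ 3 * (m13 * c)) := by
        linear_combination (4 * A) * t2 + (E ^ 3 * (m13 * c)) * hk
      have h2 : E ^ 13 * θ ^ 13 * p * (4 * A) * (E ^ 13 * m3) =
          w * (E ^ 3 * m13) * (E ^ 3 * θ ^ 13 * nd13 * g * (4 * A)) := by
        rw [h1, c1]; ring
      rw [m3', m13'] at h2
      linear_combination h2 - (θ ^ 13 * (4 * A) * ι * nd13) *
        (p * (E ^ 16 + 1) - w * (nd3 * g)) * hE16
    have hne : θ ^ 13 * (4 * A) * ι * nd13 ≠ 0 :=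
      mul_ne_zero (mul_ne_zero (mul_ne_zero (pow_ne_zero _ h0)
        (mul_ne_zero (by norm_num) hA0)) hι) n13
    linear_combination (mul_eq_zero.1 this).resolve_left hne
  have hD : θ ^ 3 - θ ^ 6 * A ≠ 0 := by
    intro e
    refine ha.bd hθ 13 ?_
    rw [← hA]
    linear_combination (-(θ ^ 10)) * e - (A - θ ^ 13 * 0) * h16
  have fin : θ ^ 2 * (κ * a * P3.eval (θ ^ 3) + w * ((1 + θ ^ 2) * (θ - A) * (nd3 * g))) = 0 := by
    have : (θ ^ 3 - θ ^ 6 * A) * (θ ^ 2 * (κ * a * P3.eval (θ ^ 3) +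
        w * ((1 + θ ^ 2) * (θ - A) * (nd3 * g)))) = 0 := by
      rw [hp] at q3
      rw [hw] at q3 ⊢
      linear_combination q3
    exact (mul_eq_zero.1 this).resolve_left hD
  have := (mul_eq_zero.1 fin).resolve_left (pow_ne_zero _ h0)
  linear_combination this

lemma kap_ne (hθ : θ ^ 8 = -1) : θ ^ 2 - (θ ^ 2)⁻¹ ≠ 0 := by
  intro h
  have := kap_sq hθ
  rw [h] at this
  norm_num at this

lemma one_add_ne (hθ : θ ^ 8 = -1) : 1 + θ ^ 2 ≠ 0 := by
  intro h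
  have h3 : θ ^ 8 = 1 := by
    have : θ ^ 2 = -1 := by linear_combination h
    calc θ ^ 8 = (θ ^ 2) ^ 4 := by ring
      _ = 1 := by rw [this]; norm_num
  rw [hθ] at h3
  norm_num at h3

/-- the functions with an empty line and an occupied line on the right vanish -/
theorem step2 (hθ : θ ^ 8 = -1) (h : Rel θ ω U V)
    {n : ℕ} (hZ : Z θ U n) (hZ' : Z θ V n) {I J : List ℂ} (hN : I.length + J.length = n + 1) :
    ∀ a b, GC θ (a :: b :: (I ++ J)) → U.Y I J a b = 0 := by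
  intro x b hxb
  have h0 := th_ne hθ
  have hx := (GC.perm hθ (List.Perm.swap b x _) hxb).tail hθ
  have hx0 := hx.ne0 hθ
  have hG := hx.tail hθ
  obtain ⟨Px, vx, -⟩ := h.polYo I J x hx
  set N := I.length + J.length with hNdef
  set κ := θ ^ 2 - (θ ^ 2)⁻¹ with hκ
  set nd := ndc θ I J with hnd
  set X2 := x ^ 2 with hX2
  -- the relation between the occupied line `a` and the fixed empty line `x`
  have E3 : ∀ {a g : ℂ}, GC θ (a :: x :: (I ++ J)) →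
      (∀ b, GC θ (b :: a :: (I ++ J)) → b ^ (2 * N + 2) * U.Y I J b a =
        (nd * (C g * ((Polynomial.X - C (θ ^ 6 * a ^ 2)) *
          (Polynomial.X - C (θ ^ 4 * a ^ 2))))).eval (b ^ 2)) →
      Px.eval (a ^ 2) * x ^ (2 * N + 2) = a ^ (2 * N + 3) *
        (nd.eval X2 * (g * ((X2 - θ ^ 6 * a ^ 2) * (X2 - θ ^ 4 * a ^ 2)))) := by
    intro a g ha hg
    have e := hg x (GC.perm hθ (List.Perm.swap x a _) ha)
    simp only [eval_sub, eval_mul, eval_C, eval_X] at e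
    rw [← vx a ha]
    linear_combination a ^ (2 * N + 3) * e
  have key : C (κ * Px.eval (θ ^ 3)) * (Polynomial.X * nd *
      ((C X2 - C (θ ^ 6) * Polynomial.X) * (C X2 - C (θ ^ 4) * Polynomial.X))) +
      C ((1 + θ ^ 2) * nd.eval (θ ^ 3) * ((X2 - θ ^ 9) * (X2 - θ ^ 7))) *
        ((C θ - Polynomial.X) * Px) = 0 := by
    refine zero_of_GC hθ hx fun a ha => ?_
    have ha' : GC θ (a :: (I ++ J)) := GC.subl ((List.Sublist.refl _).cons _ |>.cons_cons _) ha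
    have ha0 := ha'.ne0 hθ
    obtain ⟨g, hg⟩ := Yform hθ h hZ hZ' hN ha'
    obtain ⟨Pa, va, -⟩ := h.polYo I J a ha'
    have e1 := E1 hθ h hZ hN ha' hg va
    have e3 := E3 ha hg
    -- `Pa` against `Px`
    have q : C (a ^ (2 * N + 2) * nd.eval X2) * (Pa *
        ((C X2 - C (θ ^ 6) * Polynomial.X) * (C X2 - C (θ ^ 4) * Polynomial.X))) -
        C (x ^ (2 * N + 2) * nd.eval (a ^ 2)) * (Px *
        ((C (a ^ 2) - C (θ ^ 6) * Polynomial.X) * (C (a ^ 2) - C (θ ^ 4) * Polynomial.X))) = 0 := by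
      refine zero_of_GC hθ ha fun b hb => ?_
      have hb' : GC θ (b :: (I ++ J)) :=
        GC.subl (((List.Sublist.refl _).cons _).cons _ |>.cons_cons _) hb
      have hba : GC θ (b :: a :: (I ++ J)) :=
        GC.subl (((List.Sublist.refl _).cons _).cons_cons _ |>.cons_cons _) hb
      have hbx : GC θ (b :: x :: (I ++ J)) :=
        GC.subl (((List.Sublist.refl _).cons_cons _).cons _ |>.cons_cons _) hb
      obtain ⟨g', hg'⟩ := Yform hθ h hZ hZ' hN hb'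
      have u := E3 hbx hg'
      have e := hg' a (GC.perm hθ (List.Perm.swap a b _) hba)
      simp only [eval_sub, eval_mul, eval_C, eval_X] at e ⊢
      rw [← va b hba]
      linear_combination (b ^ (2 * N + 3) * nd.eval X2 *
        ((X2 - θ ^ 6 * b ^ 2) * (X2 - θ ^ 4 * b ^ 2))) * e -
        (nd.eval (a ^ 2) * ((a ^ 2 - θ ^ 6 * b ^ 2) * (a ^ 2 - θ ^ 4 * b ^ 2))) * u
    have q3 := congrArg (eval (θ ^ 3)) q
    simp only [eval_sub, eval_mul, eval_C, eval_X, eval_zero] at q3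
    have w9 : a ^ 2 - θ ^ 9 ≠ 0 := sub_ne_zero.2 (ha'.bd hθ 9)
    have w7 : a ^ 2 - θ ^ 7 ≠ 0 := sub_ne_zero.2 (ha'.bd hθ 7)
    have hne : (a ^ 2 - θ ^ 9) * (a ^ 2 - θ ^ 7) * (x ^ (2 * N + 2)) ≠ 0 :=
      mul_ne_zero (mul_ne_zero w9 w7) (pow_ne_zero _ hx0)
    simp only [eval_add, eval_mul, eval_sub, eval_C, eval_X]
    rw [← hκ, ← hnd] at e1
    have goal : ((a ^ 2 - θ ^ 9) * (a ^ 2 - θ ^ 7) * (x ^ (2 * N + 2))) *
        (κ * Px.eval (θ ^ 3) * (a ^ 2 * nd.eval (a ^ 2) *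
          ((X2 - θ ^ 6 * a ^ 2) * (X2 - θ ^ 4 * a ^ 2))) +
        (1 + θ ^ 2) * nd.eval (θ ^ 3) * ((X2 - θ ^ 9) * (X2 - θ ^ 7)) *
          ((θ - a ^ 2) * Px.eval (a ^ 2))) = 0 := by
      linear_combination (-(κ * (a ^ 2 * ((X2 - θ ^ 6 * a ^ 2) * (X2 - θ ^ 4 * a ^ 2))))) * q3 +
        (a ^ (2 * N + 3) * nd.eval X2 * ((X2 - θ ^ 6 * a ^ 2) * (X2 - θ ^ 4 * a ^ 2)) *
          ((X2 - θ ^ 9) * (X2 - θ ^ 7))) * e1 +
        ((a ^ 2 - θ ^ 9) * (a ^ 2 - θ ^ 7) * ((1 + θ ^ 2) * nd.eval (θ ^ 3) *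
          ((X2 - θ ^ 9) * (X2 - θ ^ 7)) * (θ - a ^ 2))) * e3
    exact (mul_eq_zero.1 goal).resolve_left hne
  have kev : ∀ A : ℂ, κ * Px.eval (θ ^ 3) * (A * nd.eval A *
      ((X2 - θ ^ 6 * A) * (X2 - θ ^ 4 * A))) +
      (1 + θ ^ 2) * nd.eval (θ ^ 3) * ((X2 - θ ^ 9) * (X2 - θ ^ 7)) *
        ((θ - A) * Px.eval A) = 0 := by
    intro A
    have := congrArg (eval A) key
    simpa only [eval_add, eval_mul, eval_sub, eval_C, eval_X, eval_zero] using this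
  have n1 : nd.eval θ ≠ 0 := by
    have := ndc_th hθ hG 1
    rwa [pow_one] at this
  have n3 : nd.eval (θ ^ 3) ≠ 0 := ndc_th hθ hG 3
  have P0 : Px.eval (θ ^ 3) = 0 := by
    have := kev θ
    rw [sub_self, zero_mul, mul_zero, add_zero] at this
    have b7 : X2 - θ ^ 6 * θ ≠ 0 := by
      rw [← pow_succ]
      exact sub_ne_zero.2 (hx.bd hθ 7)
    have b5 : X2 - θ ^ 4 * θ ≠ 0 := by
      rw [← pow_succ]
      exact sub_ne_zero.2 (hx.bd hθ 5)
    have h1 := (mul_eq_zero.1 this).resolve_right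
      (mul_ne_zero (mul_ne_zero h0 n1) (mul_ne_zero b7 b5))
    exact (mul_eq_zero.1 h1).resolve_left (kap_ne hθ)
  have hb' := hxb.tail hθ
  have k2 := kev (b ^ 2)
  rw [P0, mul_zero, zero_mul, zero_add] at k2
  have w9 : X2 - θ ^ 9 ≠ 0 := sub_ne_zero.2 (hx.bd hθ 9)
  have w7 : X2 - θ ^ 7 ≠ 0 := sub_ne_zero.2 (hx.bd hθ 7)
  have k3 := (mul_eq_zero.1 k2).resolve_left
    (mul_ne_zero (mul_ne_zero (one_add_ne hθ) n3) (mul_ne_zero w9 w7))
  have w1 : θ - b ^ 2 ≠ 0 := by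
    have := hb'.bd hθ 1
    rw [pow_one] at this
    exact sub_ne_zero.2 this.symm
  have k4 := (mul_eq_zero.1 k3).resolve_left w1
  have := vx b (GC.perm hθ (List.Perm.swap b x _) hxb)
  rw [k4] at this
  exact (mul_eq_zero.1 this).resolve_left (pow_ne_zero _ (hb'.ne0 hθ))

lemma kp_ne (hθ : θ ^ 8 = -1) {b : ℂ} {S : List ℂ} (h : GC θ (b :: S)) : kp θ b ≠ 0 := by
  intro e
  have := kp_eq hθ (h.ne0 hθ)
  rw [e, mul_zero] at this
  exact mul_ne_zero (sub_ne_zero.2 (h.bd hθ 9)) (sub_ne_zero.2 (h.bd hθ 7)) this.symm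

/-- right occupied, left empty -/
theorem stepO (hθ : θ ^ 8 = -1) (h : Rel θ ω U V)
    {n : ℕ} (hZ : Z θ U n) {I J : List ℂ} (hN : I.length + J.length = n + 1)
    (hY : ∀ a b, GC θ (a :: b :: (I ++ J)) → U.Y I J a b = 0) :
    ∀ b z, GC θ (z :: b :: (I ++ J)) → U.O I J b z = 0 := by
  intro b z hz
  have h0 := th_ne hθ
  have hb := hz.tail hθ
  have hG := hb.tail hθ
  obtain ⟨c, hc⟩ := Oform hθ h hZ hN hb
  have t := h.trY I J b hb 0 _ (by
    intro a ha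
    rw [hY a b ha, mul_zero, eval_zero]) hc
  rw [eval_zero, mul_zero, eval_mul, eval_C] at t
  have n3 : (ndc θ J I).eval (θ ^ 3) ≠ 0 :=
    ndc_th hθ (GC.perm hθ List.perm_append_comm hG) 3
  have t1 := (mul_eq_zero.1 t.symm).resolve_left (kp_ne hθ hb)
  have t2 := (mul_eq_zero.1 t1).resolve_left (pow_ne_zero _ h0)
  have t3 := (mul_eq_zero.1 t2).resolve_left n3
  have := hc z hz
  rw [t3, C_0, mul_zero, eval_zero] at this
  exact (mul_eq_zero.1 this).resolve_left (pow_ne_zero _ (hz.ne0 hθ))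

lemma sn0_ne (hθ : θ ^ 8 = -1) {a b : ℂ} {S : List ℂ} (h : GC θ (a :: b :: S)) :
    sn θ 3 (a / b) * sn θ 0 (b / a) ≠ 0 := by
  have h0 := th_ne hθ
  have ha0 := h.ne0 hθ
  have hb0 := (h.tail hθ).ne0 hθ
  have hs : Sep (θ ^ 2) (a ^ 2) (b ^ 2) := by
    refine (h.cons hθ).sep' ?_
    rw [List.mem_cons]; right; exact mem_im.2 ⟨b, by simp, Or.inl rfl⟩
  intro hz
  rcases mul_eq_zero.1 hz with e | e
  · have := sn3_div hθ ha0 hb0
    rw [e, mul_zero] at this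
    exact pair_ne hθ hs 3 0 (by linear_combination -this)
  · have := sn0_div hθ ha0 hb0
    rw [e, mul_zero] at this
    exact pair_ne hθ hs 0 0 (by linear_combination this)

/-- `X` from `Y` -/
theorem X_of_Y (hθ : θ ^ 8 = -1) (h : Rel θ ω U V) {I J : List ℂ}
    (hz : ∀ a b, GC θ (a :: b :: (I ++ J)) → U.Y I J a b = 0) :
    ∀ a b, GC θ (a :: b :: (I ++ J)) → U.X I J a b = 0 := by
  intro a b hab
  have e := h.exY I J a b hab
  rw [hz a b hab, hz b a (GC.perm hθ (List.Perm.swap b a _) hab)] at e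
  have e' : (sn θ 3 (a / b) * sn θ 0 (b / a)) * U.X I J a b = 0 := by linear_combination -e
  exact (mul_eq_zero.1 e').resolve_left (sn0_ne hθ hab)

/-- **families with the relations and zero initial values vanish** -/
theorem zero (hθ : θ ^ 8 = -1) {W : ℂ → RF} (h : Data θ W) (h0 : ∀ ω, ω ≠ 0 → Z θ (W ω) 0) :
    ∀ n ω, ω ≠ 0 → Z θ (W ω) n := by
  intro n
  induction n with
  | zero => exact h0
  | succ n ih =>
    intro ω hω I J hN
    have r := h ω hω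
    have z := ih ω hω
    have z' := ih ω⁻¹ (inv_ne_zero hω)
    have e := step2 hθ r z z' hN
    refine ⟨fun a ha => stepR hθ r z z' hN (ha.tail hθ) a ha, fun a b hab => ?_⟩
    exact ⟨X_of_Y hθ r e a b hab, e a b hab,
      stepO hθ r z hN e a b (GC.perm hθ (List.Perm.swap b a _) hab)⟩

/-- **Uniqueness** -/
theorem uniq (hθ : θ ^ 8 = -1) {W W' : ℂ → RF} (h : Data θ W) (h' : Data θ W')
    (h0 : ∀ ω, ω ≠ 0 → Agree θ (W ω) (W' ω) [] []) (ω : ℂ) (hω : ω ≠ 0) (I J : List ℂ) :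
    Agree θ (W ω) (W' ω) I J := by
  have hz := zero hθ (W := fun ω => (W ω).sub (W' ω)) (fun ω hω => (h ω hω).sub hθ (h' ω hω))
    (by
      intro ω hω I J hN
      obtain ⟨rfl, rfl⟩ : I = [] ∧ J = [] := by
        constructor <;> apply List.eq_nil_of_length_eq_zero <;> omega
      simp only [RF.sub, sub_eq_zero]
      exact h0 ω hω) (I.length + J.length) ω hω I J rfl
  simp only [RF.sub, sub_eq_zero] at hz
  exact hz

end TC

end
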