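import Pool.Agent.TC.Can1
import Pool.Agent.TC.Even3
import Pool.Agent.TC.Mir
import Pool.Agent.TC.Uniq

/-!
# The one leg functions of the strip: permutations, inversions, mirror images (helper22)

`WC_perm`, `WC_invK`, `WC_invL`, `WC_flipK`, `WC_flipL`: the functions on the canonical sites are
symmetric in the full lines below (above) `f` and invariant under `x ↦ x⁻¹` for each of them.
`WC_mir`, `WC_mirG`: the mirror image.  `WC_R`, `WC_X`, `WC_Y`, `WC_O` and `WC_RL`, `WC_XL`, `WC_YL`, `WC_OL`: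
the functions of the family under other names of the ends, occupied end on the right / on the left.
-/

set_option autoImplicit false

namespace Pool.Agent.TC

open _root_.Pool.Agent.EXL _root_.Pool.Agent.NUF _root_.Pool.Agent.NUU _root_.Pool.Agent.NUT2
open _root_.Pool.Agent.EXL.Fm (lam)
open Complex (I exp sin cos)

section can2

variable {ω : ℂ} {K L K' L' : List ℂ} {v v' : Fin 6 → ℂ} {A B : List (Fin 6)} {m : Fin 6}

/-- The lines of the first half strip are generic. -/
theorem gt_can1 (hG : _root_.TC.GC NUTP.th ((A ++ B).map v ++ (K ++ L))) :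
    GT (zc K L v) (lr (Ic K.length L.length) (Jc K.length L.length) (A.map sc)) :=
  gt_canR (gc_subR hG)

/-- The lines of the second half strip are generic. -/
theorem gt_can2 (hG : _root_.TC.GC NUTP.th ((A ++ B).map v ++ (K ++ L))) :
    GT (zc K L v) (ll (Ic K.length L.length) (Jc K.length L.length) (B.map sc)) :=
  gt_canL (gc_subL hG)

/-- **Permutation of the full lines.** -/
theorem WC_perm (hK' : K.Perm K') (hL' : L.Perm L') (hA : (0 :: 1 :: (A ++ B)).Nodup)
    (hm : m ∈ A ++ B) (hG : _root_.TC.GC NUTP.th ((A ++ B).map v ++ (K ++ L))) :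
    WC ω K L v A B m = WC ω K' L' v A B m := by
  have hne := gc_ne hG
  have hK : ∀ a ∈ K, a ≠ 0 := fun a ha => hne a (by simp [ha])
  have hL : ∀ a ∈ L, a ≠ 0 := fun a ha => hne a (by simp [ha])
  have e1 : (Ic K.length L.length).map (fun t => exp (I * zc K L v t.1)) = K := by
    have := map_Ic1 (L := L) (v := v) hK
    rwa [List.map_map] at this
  have e2 : (Jc K.length L.length).map (fun t => exp (I * zc K L v t.1)) = L := by
    have := map_Jc1 (K := K) (v := v) hL
    rwa [List.map_map] at this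
  obtain ⟨X, hX, hX'⟩ := perm_map_ex _ hK' _ e1
  obtain ⟨Y, hY, hY'⟩ := perm_map_ex _ hL' _ e2
  have hO := okT_can (n := K.length) (m := L.length) hA hm
  have key := WT_perm (ω := ω) hX hY hO (fun t ht => zc_pair t ht) (gt_can1 hG).gk (gt_can2 hG).gk
  have hp2 : (Ic K.length L.length ++ Jc K.length L.length).Perm (X ++ Y) := hX.append hY
  have hG2 : Gd (X ++ Y) := ((Gd_cons.1 hO.gdq).2.2).perm hp2
  have key2 := WT_eq_WC (ω := ω) (z := zc K L v) sc_inj hG2
    (fun j t ht => sc_ne j t ((hp2.mem_iff).2 ht)) hA hm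
    (fun t ht => by rw [zc_pair t ((hp2.mem_iff).2 ht)])
    (fun j hj => ex_zcs (hne _ (List.mem_append_left _ (List.mem_map_of_mem hj)))) hX' hY'
  rw [← key2, ← hX.length_eq, ← hY.length_eq, ← key]
  have e3 : (Ic K.length L.length).length = K.length := by simp [Ic]
  have e4 : (Jc K.length L.length).length = L.length := by simp [Jc]
  rw [e3, e4]
  rfl

theorem finRange_cons {x y : ℂ} {K : List ℂ} {f : Fin (x :: K).length → ℂ}
    (h0 : f ⟨0, Nat.succ_pos _⟩ = y) (h1 : ∀ i : Fin K.length, f i.succ = K.get i) :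
    (List.finRange (x :: K).length).map f = y :: K := by
  have e : List.finRange (x :: K).length =
      (⟨0, Nat.succ_pos _⟩ : Fin (K.length + 1)) :: (List.finRange K.length).map Fin.succ :=
    List.finRange_succ
  rw [e, List.map_cons, List.map_map]
  congr 1
  have e2 : (List.finRange K.length).map (f ∘ Fin.succ) = (List.finRange K.length).map K.get :=
    List.map_congr_left fun i _ => h1 i
  rw [e2, ← List.ofFn_eq_map]
  exact List.ofFn_get K

theorem sc_spare {n m : ℕ} {c : Fin 6} (hc : c ∉ 0 :: 1 :: (A ++ B)) :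
    (sc c : Sc n m) ∉ sites (Ic n m) (Jc n m) (A.map sc) (B.map sc) (sc 0) (sc 1) := by
  intro h
  unfold sites at h
  rcases List.mem_append.1 h with h | h
  · rcases List.mem_append.1 h with h | h
    · obtain ⟨t, ht, h2⟩ := List.mem_map.1 h
      exact (sc_ne c t ht).1 h2.symm
    · obtain ⟨t, ht, h2⟩ := List.mem_map.1 h
      exact (sc_ne c t ht).2 h2.symm
  · have h1 : (sc 0 : Sc n m) :: sc 1 :: (A.map sc ++ B.map sc) = (0 :: 1 :: (A ++ B)).map sc := by
      simp
    rw [h1] at h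
    obtain ⟨j, hj, h2⟩ := List.mem_map.1 h
    exact hc (sc_inj h2 ▸ hj)

/-- **Inversion of a full line below `f`.** -/
theorem WC_invK {x : ℂ} {c d : Fin 6} (hA : (0 :: 1 :: (A ++ B)).Nodup) (hm : m ∈ A ++ B)
    (hc : c ∉ 0 :: 1 :: (A ++ B)) (hd : d ∉ 0 :: 1 :: (A ++ B)) (hcd : c ≠ d)
    (hG : _root_.TC.GC NUTP.th ((A ++ B).map v ++ (x :: K ++ L))) :
    WC ω (x :: K) L v A B m = WC ω (x⁻¹ :: K) L v A B m := by
  have hne := gc_ne hG
  have hK : ∀ a ∈ x :: K, a ≠ 0 := fun a ha => hne a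
    (List.mem_append_right _ (List.mem_append_left _ ha))
  have hL : ∀ a ∈ L, a ≠ 0 := fun a ha => hne a
    (List.mem_append_right _ (List.mem_append_right _ ha))
  set z := zc (x :: K) L v with hz
  set p : Sc (x :: K).length L.length := Sum.inl (⟨0, Nat.succ_pos _⟩, false) with hp
  set p' : Sc (x :: K).length L.length := Sum.inl (⟨0, Nat.succ_pos _⟩, true) with hp'
  have hO := okT_can (n := (x :: K).length) (m := L.length) hA hm
  have hx : (p, p') ∈ Ic (x :: K).length L.length ++ Jc (x :: K).length L.length :=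
    List.mem_append_left _ (List.mem_map.2 ⟨⟨0, Nat.succ_pos _⟩, List.mem_finRange _, rfl⟩)
  have key := WT_even (ω := ω) hO hx (sc_spare hc) (sc_spare hd) (fun h => hcd (sc_inj h))
    (fun t ht => zc_pair t ht) (gt_can1 hG) (gt_can2 hG)
  have hpp : p ≠ p' := by simp [hp, hp']
  have zp : exp (I * z p) = x := ex_zcI hK ⟨0, Nat.succ_pos _⟩ false
  have zp' : exp (I * z p') = x := ex_zcI hK ⟨0, Nat.succ_pos _⟩ true
  have e1 : (Ic (x :: K).length L.length).map (fun t => exp (I * neg2 z p p' t.1)) = x⁻¹ :: K := by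
    unfold Ic
    rw [List.map_map]
    refine finRange_cons ?_ fun i => ?_
    · show exp (I * neg2 z p p' p) = x⁻¹
      rw [neg2_fst hpp, mul_neg, Complex.exp_neg, zp]
    · show exp (I * neg2 z p p' (Sum.inl (i.succ, false))) = K.get i
      rw [neg2_of_ne (by simp [hp, Fin.ext_iff]) (by simp [hp'])]
      exact ex_zcI hK i.succ false
  have e2 : (Jc (x :: K).length L.length).map (fun t => exp (I * neg2 z p p' t.1)) = L := by
    have h1 := map_Jc1 (K := x :: K) (v := v) hL
    rw [List.map_map] at h1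
    conv_rhs => rw [← h1]
    unfold Jc
    rw [List.map_map, List.map_map]
    refine List.map_congr_left fun i _ => ?_
    show exp (I * neg2 z p p' (Sum.inr (Sum.inl (i, false)))) = _
    rw [neg2_of_ne (by simp [hp]) (by simp [hp'])]
    rfl
  have key2 := WT_eq_WC (ω := ω) (z := neg2 z p p') (v := v) sc_inj ((Gd_cons.1 hO.gdq).2.2)
    (fun j t ht => sc_ne j t ht) hA hm
    (fun t ht => ?_) (fun j hj => ?_) e1 e2
  · rw [← key2, key]
    have e3 : (Ic (x :: K).length L.length).length = (x :: K).length := by simp [Ic]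
    have e4 : (Jc (x :: K).length L.length).length = L.length := by simp [Jc]
    rw [e3, e4]
    rfl
  · by_cases h : t = (p, p')
    · rw [h]
      show exp (I * neg2 z p p' p') = exp (I * neg2 z p p' p)
      rw [neg2_fst hpp, neg2_snd, mul_neg, mul_neg, Complex.exp_neg, Complex.exp_neg, zp, zp']
    · obtain ⟨a1, a2, a3, a4⟩ := (hO.line hx).2 t ht h
      rw [neg2_of_ne a1 a2, neg2_of_ne a3 a4, hz, zc_pair t ht]
  · rw [neg2_of_ne (by simp [hp, sc]) (by simp [hp', sc])]
    exact ex_zcs (hne _ (List.mem_append_left _ (List.mem_map_of_mem hj)))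

/-- **Inversion of a full line above `f`.** -/
theorem WC_invL {x : ℂ} {c d : Fin 6} (hA : (0 :: 1 :: (A ++ B)).Nodup) (hm : m ∈ A ++ B)
    (hc : c ∉ 0 :: 1 :: (A ++ B)) (hd : d ∉ 0 :: 1 :: (A ++ B)) (hcd : c ≠ d)
    (hG : _root_.TC.GC NUTP.th ((A ++ B).map v ++ (K ++ x :: L))) :
    WC ω K (x :: L) v A B m = WC ω K (x⁻¹ :: L) v A B m := by
  have hne := gc_ne hG
  have hK : ∀ a ∈ K, a ≠ 0 := fun a ha => hne a
    (List.mem_append_right _ (List.mem_append_left _ ha))
  have hL : ∀ a ∈ x :: L, a ≠ 0 := fun a ha => hne a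
    (List.mem_append_right _ (List.mem_append_right _ ha))
  set z := zc K (x :: L) v with hz
  set p : Sc K.length (x :: L).length := Sum.inr (Sum.inl (⟨0, Nat.succ_pos _⟩, false)) with hp
  set p' : Sc K.length (x :: L).length := Sum.inr (Sum.inl (⟨0, Nat.succ_pos _⟩, true)) with hp'
  have hO := okT_can (n := K.length) (m := (x :: L).length) hA hm
  have hx : (p, p') ∈ Ic K.length (x :: L).length ++ Jc K.length (x :: L).length :=
    List.mem_append_right _ (List.mem_map.2 ⟨⟨0, Nat.succ_pos _⟩, List.mem_finRange _, rfl⟩)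
  have key := WT_even (ω := ω) hO hx (sc_spare hc) (sc_spare hd) (fun h => hcd (sc_inj h))
    (fun t ht => zc_pair t ht) (gt_can1 hG) (gt_can2 hG)
  have hpp : p ≠ p' := by simp [hp, hp']
  have zp : exp (I * z p) = x := ex_zcJ hL ⟨0, Nat.succ_pos _⟩ false
  have zp' : exp (I * z p') = x := ex_zcJ hL ⟨0, Nat.succ_pos _⟩ true
  have e1 : (Jc K.length (x :: L).length).map (fun t => exp (I * neg2 z p p' t.1)) = x⁻¹ :: L := by
    unfold Jc
    rw [List.map_map]
    refine finRange_cons ?_ fun i => ?_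
    · show exp (I * neg2 z p p' p) = x⁻¹
      rw [neg2_fst hpp, mul_neg, Complex.exp_neg, zp]
    · show exp (I * neg2 z p p' (Sum.inr (Sum.inl (i.succ, false)))) = L.get i
      rw [neg2_of_ne (by simp [hp, Fin.ext_iff]) (by simp [hp'])]
      exact ex_zcJ hL i.succ false
  have e2 : (Ic K.length (x :: L).length).map (fun t => exp (I * neg2 z p p' t.1)) = K := by
    have h1 := map_Ic1 (L := x :: L) (v := v) hK
    rw [List.map_map] at h1
    conv_rhs => rw [← h1]
    unfold Ic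
    rw [List.map_map, List.map_map]
    refine List.map_congr_left fun i _ => ?_
    show exp (I * neg2 z p p' (Sum.inl (i, false))) = _
    rw [neg2_of_ne (by simp [hp]) (by simp [hp'])]
    rfl
  have key2 := WT_eq_WC (ω := ω) (z := neg2 z p p') (v := v) sc_inj ((Gd_cons.1 hO.gdq).2.2)
    (fun j t ht => sc_ne j t ht) hA hm
    (fun t ht => ?_) (fun j hj => ?_) e2 e1
  · rw [← key2, key]
    have e3 : (Ic K.length (x :: L).length).length = K.length := by simp [Ic]
    have e4 : (Jc K.length (x :: L).length).length = (x :: L).length := by simp [Jc]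
    rw [e3, e4]
    rfl
  · by_cases h : t = (p, p')
    · rw [h]
      show exp (I * neg2 z p p' p') = exp (I * neg2 z p p' p)
      rw [neg2_fst hpp, neg2_snd, mul_neg, mul_neg, Complex.exp_neg, Complex.exp_neg, zp, zp']
    · obtain ⟨a1, a2, a3, a4⟩ := (hO.line hx).2 t ht h
      rw [neg2_of_ne a1 a2, neg2_of_ne a3 a4, hz, zc_pair t ht]
  · rw [neg2_of_ne (by simp [hp, sc]) (by simp [hp', sc])]
    exact ex_zcs (hne _ (List.mem_append_left _ (List.mem_map_of_mem hj)))

/-- **A full line below `f`, in any place, may be inverted.** -/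
theorem WC_flipK {x t : ℂ} {K0 : List ℂ} {c d : Fin 6} (hA : (0 :: 1 :: (A ++ B)).Nodup)
    (hm : m ∈ A ++ B) (hc : c ∉ 0 :: 1 :: (A ++ B)) (hd : d ∉ 0 :: 1 :: (A ++ B)) (hcd : c ≠ d)
    (hp : K.Perm (x :: K0)) (ht : t = x ∨ t = x⁻¹) (hp' : K'.Perm (t :: K0))
    (hG : _root_.TC.GC NUTP.th ((A ++ B).map v ++ (K ++ L))) :
    WC ω K L v A B m = WC ω K' L v A B m := by
  have hG1 : _root_.TC.GC NUTP.th ((A ++ B).map v ++ (x :: K0 ++ L)) :=
    GC.perm hG ((hp.append_right L).append_left _)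
  rw [WC_perm hp (List.Perm.refl L) hA hm hG]
  rcases ht with ht | ht
  · rw [ht] at hp'
    exact WC_perm hp'.symm (List.Perm.refl L) hA hm hG1
  · rw [ht] at hp'
    rw [WC_invK hA hm hc hd hcd hG1]
    refine WC_perm hp'.symm (List.Perm.refl L) hA hm ?_
    have h1 : ((A ++ B).map v ++ (x :: K0 ++ L)).Perm (x :: ((A ++ B).map v ++ (K0 ++ L))) := by
      rw [List.cons_append]
      exact List.perm_middle
    have h2 : ((A ++ B).map v ++ (x⁻¹ :: K0 ++ L)).Perm
        (x⁻¹ :: ((A ++ B).map v ++ (K0 ++ L))) := by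
      rw [List.cons_append]
      exact List.perm_middle
    exact GC.perm ((_root_.TC.GC.flip NUTP.th8 (GC.perm hG1 h1))) h2.symm

/-- **A full line above `f`, in any place, may be inverted.** -/
theorem WC_flipL {x t : ℂ} {L0 : List ℂ} {c d : Fin 6} (hA : (0 :: 1 :: (A ++ B)).Nodup)
    (hm : m ∈ A ++ B) (hc : c ∉ 0 :: 1 :: (A ++ B)) (hd : d ∉ 0 :: 1 :: (A ++ B)) (hcd : c ≠ d)
    (hp : L.Perm (x :: L0)) (ht : t = x ∨ t = x⁻¹) (hp' : L'.Perm (t :: L0))
    (hG : _root_.TC.GC NUTP.th ((A ++ B).map v ++ (K ++ L))) :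
    WC ω K L v A B m = WC ω K L' v A B m := by
  have hG1 : _root_.TC.GC NUTP.th ((A ++ B).map v ++ (K ++ x :: L0)) :=
    GC.perm hG ((hp.append_left K).append_left _)
  rw [WC_perm (List.Perm.refl K) hp hA hm hG]
  rcases ht with ht | ht
  · rw [ht] at hp'
    exact WC_perm (List.Perm.refl K) hp'.symm hA hm hG1
  · rw [ht] at hp'
    rw [WC_invL hA hm hc hd hcd hG1]
    refine WC_perm (List.Perm.refl K) hp'.symm hA hm ?_
    have h1 : ∀ y : ℂ, ((A ++ B).map v ++ (K ++ y :: L0)).Perm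
        (y :: ((A ++ B).map v ++ (K ++ L0))) := fun y =>
      (List.perm_middle.append_left _).trans List.perm_middle
    exact GC.perm ((_root_.TC.GC.flip NUTP.th8 (GC.perm hG1 (h1 x)))) (h1 x⁻¹).symm

/-! ### Other names of the ends -/

theorem cn_ne {j : Fin 6} (hA : (0 :: 1 :: (A ++ B)).Nodup) (hj : j ∈ A ++ B) : j ≠ 0 ∧ j ≠ 1 := by
  obtain ⟨h1, h2⟩ := List.nodup_cons.1 hA
  obtain ⟨h3, -⟩ := List.nodup_cons.1 h2
  exact ⟨fun e => h1 (e ▸ List.mem_cons_of_mem _ hj), fun e => h3 (e ▸ hj)⟩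

/-- The function depends on the values at the ends only. -/
theorem WC_congr (hA : (0 :: 1 :: (A ++ B)).Nodup) (hm : m ∈ A ++ B)
    (hv : ∀ j ∈ A ++ B, v j = v' j) : WC ω K L v A B m = WC ω K L v' A B m := by
  have hO := okT_can (n := K.length) (m := L.length) hA hm
  have key := WT_map (ω := ω) (e := id) (z := zc K L v) (z' := zc K L v') Function.injective_id hO ?_
  · have e1 : ∀ M : List (Sc K.length L.length × Sc K.length L.length),
        M.map (Prod.map id id) = M := fun M => by rw [Prod.map_id, List.map_id]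
    rw [e1, e1, List.map_id, List.map_id] at key
    unfold WC
    rw [← key]
    rfl
  · intro x hx
    rcases x with x | x | j
    · rfl
    · rfl
    · have hj : j ∈ A ++ B := by
        have h2 : ∀ C : List (Fin 6), (Sum.inr (Sum.inr j) : Sc K.length L.length) ∈ C.map sc →
            j ∈ C := by
          intro C hC
          obtain ⟨j', hj', h3⟩ := List.mem_map.1 hC
          have h4 : j' = j := Sum.inr_injective (Sum.inr_injective h3)
          rwa [← h4]
        have h1 := sc_ne_full (n := K.length) (m := L.length) j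
        rw [List.mem_append]
        rcases hx with hx | hx
        · unfold lr at hx
          rcases List.mem_append.1 hx with hx | hx
          · obtain ⟨t, ht, h3⟩ := List.mem_map.1 hx
            exact absurd h3.symm (h1 t (List.mem_append_left _ ht)).1
          · rcases List.mem_append.1 hx with hx | hx
            · exact Or.inl (h2 A hx)
            · obtain ⟨t, ht, h3⟩ := List.mem_map.1 hx
              exact absurd h3.symm (h1 t (List.mem_append_right _ ht)).1
        · unfold ll at hx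
          rcases List.mem_append.1 hx with hx | hx
          · obtain ⟨t, ht, h3⟩ := List.mem_map.1 hx
            exact absurd h3.symm (h1 t (List.mem_append_left _ ht)).2
          · rcases List.mem_append.1 hx with hx | hx
            · exact Or.inr (h2 B hx)
            · obtain ⟨t, ht, h3⟩ := List.mem_map.1 hx
              exact absurd h3.symm (h1 t (List.mem_append_right _ ht)).2
      show exp (I * lg (v' j)) = exp (I * lg (v j))
      rw [hv j hj]

/-- **Other names of the ends.** -/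
theorem WC_name (hA : (0 :: 1 :: (A ++ B)).Nodup) (hm : m ∈ A ++ B) (σ : Equiv.Perm (Fin 6))
    (h0 : σ 0 = 0) (h1 : σ 1 = 1) (hv : ∀ j ∈ A ++ B, v (σ j) = v' j) :
    WC ω K L v (A.map σ) (B.map σ) (σ m) = WC ω K L v' A B m := by
  have key := WT_perm6 ω K L v hA hm σ h0 h1
  have e : WC ω K L v (A.map σ) (B.map σ) (σ m) = WC ω K L (v ∘ σ) A B m := by
    unfold WC
    rw [key, List.length_map, List.length_map]
  rw [e]
  exact WC_congr hA hm hv

/-- A permutation which moves `2`, `3` to `i`, `j`. -/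
def sg (i j : Fin 6) : Equiv.Perm (Fin 6) := Equiv.swap 2 i * Equiv.swap 3 (Equiv.swap 2 i j)

theorem sg_spec : ∀ i j : Fin 6, i ≠ 0 → i ≠ 1 → j ≠ 0 → j ≠ 1 → i ≠ j →
    sg i j 0 = 0 ∧ sg i j 1 = 1 ∧ sg i j 2 = i ∧ sg i j 3 = j := by
  decide

theorem WC_R {j : Fin 6} (h0 : j ≠ 0) (h1 : j ≠ 1) : WC ω K L v [j] [] j = (fam ω).R K L (v j) := by
  obtain ⟨i, hi0, hi1, hij⟩ : ∃ i : Fin 6, i ≠ 0 ∧ i ≠ 1 ∧ i ≠ j := by
    revert j
    decide
  obtain ⟨s0, s1, s2, -⟩ := sg_spec j i h0 h1 hi0 hi1 hij.symm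
  have h := WC_name (ω := ω) (K := K) (L := L) (v := v) (v' := ![1, 1, v j, 1, 1, 1]) (A := [2])
    (B := []) (m := 2) (by decide) (by decide) (sg j i) s0 s1 (by
      intro k hk
      have : k = 2 := by simpa using hk
      rw [this, s2]
      rfl)
  rw [List.map_cons, List.map_nil, s2] at h
  exact h

section two

variable {i j : Fin 6} (i0 : i ≠ 0) (i1 : i ≠ 1) (j0 : j ≠ 0) (j1 : j ≠ 1) (hij : i ≠ j)

include i0 i1 j0 j1 hij

theorem WC_X : WC ω K L v [i, j] [] i = (fam ω).X K L (v i) (v j) := by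
  obtain ⟨s0, s1, s2, s3⟩ := sg_spec i j i0 i1 j0 j1 hij
  have h := WC_name (ω := ω) (K := K) (L := L) (v := v) (v' := ![1, 1, v i, v j, 1, 1]) (A := [2, 3])
    (B := []) (m := 2) (by decide) (by decide) (sg i j) s0 s1 (by
      intro k hk
      have : k = 2 ∨ k = 3 := by simpa using hk
      rcases this with rfl | rfl
      · rw [s2]; rfl
      · rw [s3]; rfl)
  rw [List.map_cons, List.map_cons, List.map_nil, s2, s3] at h
  exact h

theorem WC_Y : WC ω K L v [i, j] [] j = (fam ω).Y K L (v i) (v j) := by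
  obtain ⟨s0, s1, s2, s3⟩ := sg_spec i j i0 i1 j0 j1 hij
  have h := WC_name (ω := ω) (K := K) (L := L) (v := v) (v' := ![1, 1, v i, v j, 1, 1]) (A := [2, 3])
    (B := []) (m := 3) (by decide) (by decide) (sg i j) s0 s1 (by
      intro k hk
      have : k = 2 ∨ k = 3 := by simpa using hk
      rcases this with rfl | rfl
      · rw [s2]; rfl
      · rw [s3]; rfl)
  rw [List.map_cons, List.map_cons, List.map_nil, s2, s3] at h
  exact h

theorem WC_O : WC ω K L v [i] [j] i = (fam ω).O K L (v i) (v j) := by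
  obtain ⟨s0, s1, s2, s3⟩ := sg_spec i j i0 i1 j0 j1 hij
  have h := WC_name (ω := ω) (K := K) (L := L) (v := v) (v' := ![1, 1, v i, v j, 1, 1]) (A := [2])
    (B := [3]) (m := 2) (by decide) (by decide) (sg i j) s0 s1 (by
      intro k hk
      have : k = 2 ∨ k = 3 := by simpa using hk
      rcases this with rfl | rfl
      · rw [s2]; rfl
      · rw [s3]; rfl)
  rw [List.map_cons, List.map_cons, List.map_nil, s2, s3] at h
  exact h

end two

/-! ### Mirror images -/

/-- **The mirror image.** -/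
theorem WC_mir (hA : (0 :: 1 :: (A ++ B)).Nodup) (hm : m ∈ A ++ B) (hK : ∀ a ∈ K, a ≠ 0)
    (hL : ∀ a ∈ L, a ≠ 0) (hne : ∀ j ∈ A ++ B, v j ≠ 0) (hv : ∀ j ∈ A ++ B, v' j = (v j)⁻¹) :
    WC ω K L v A B m = WC ω⁻¹ (K.map (·⁻¹)) (L.map (·⁻¹)) v' B A m := by
  have hO := okT_can (n := K.length) (m := L.length) hA hm
  have key := WT_mir (ω := ω) (z := zc K L v) hO
  have hG : Gd ((Ic K.length L.length).map Prod.swap ++ (Jc K.length L.length).map Prod.swap) :=
    (Gd_cons.1 hO.swap.gdq).2.2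
  set s : Fin 6 → Sc K.length L.length := fun k => sc (Equiv.swap 0 1 k) with hs
  have hsj : ∀ j : Fin 6, j ≠ 0 → j ≠ 1 → s j = sc j := fun j h0 h1 => by
    rw [hs]
    show sc (Equiv.swap 0 1 j) = sc j
    rw [Equiv.swap_apply_of_ne_of_ne h0 h1]
  have hss : Function.Injective s := sc_inj.comp (Equiv.injective _)
  have hd : ∀ k, ∀ t ∈ (Ic K.length L.length).map Prod.swap ++ (Jc K.length L.length).map Prod.swap,
      s k ≠ t.1 ∧ s k ≠ t.2 := by
    intro k t ht
    rw [← List.map_append] at ht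
    obtain ⟨t', ht', rfl⟩ := List.mem_map.1 ht
    have h1 := sc_ne_full (Equiv.swap 0 1 k) t' ht'
    exact ⟨h1.2, h1.1⟩
  have hA' : (0 :: 1 :: (B ++ A)).Nodup := by
    refine (List.Perm.nodup_iff ?_).1 hA
    exact (List.perm_append_comm.cons _).cons _
  have hm' : m ∈ B ++ A := by
    rw [List.mem_append] at hm ⊢
    exact hm.symm
  obtain ⟨c1, c2, c3, c4⟩ := can_vals hK hL v
  have inv : ∀ M : List (Sc K.length L.length × Sc K.length L.length), ∀ N : List ℂ,
      (M.map Prod.snd).map (fun x => exp (I * zc K L v x)) = N →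
      (M.map Prod.swap).map (fun t => exp (I * -zc K L v t.1)) = N.map (·⁻¹) := by
    intro M N h
    rw [← h, List.map_map, List.map_map, List.map_map]
    refine List.map_congr_left fun t _ => ?_
    show exp (I * -zc K L v t.2) = (exp (I * zc K L v t.2))⁻¹
    rw [mul_neg, Complex.exp_neg]
  have key2 := WT_eq_WC (ω := ω⁻¹) (z := fun i => -zc K L v i) (v := v') hss hG hd hA' hm' ?_ ?_
    (inv _ _ c2) (inv _ _ c4)
  · have eA : ∀ C : List (Fin 6), (∀ j ∈ C, j ∈ A ++ B) → C.map s = C.map sc := by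
      intro C hC
      refine List.map_congr_left fun j hj => ?_
      obtain ⟨h0, h1⟩ := cn_ne hA (hC j hj)
      exact hsj j h0 h1
    obtain ⟨m0, m1⟩ := cn_ne hA hm
    rw [eA B (fun j hj => List.mem_append_right _ hj), eA A (fun j hj => List.mem_append_left _ hj),
      hsj m m0 m1] at key2
    rw [← key2]
    have e0 : s 0 = sc 1 := by
      rw [hs]
      show sc (Equiv.swap 0 1 0) = sc 1
      rw [Equiv.swap_apply_left]
    have e1 : s 1 = sc 0 := by
      rw [hs]
      show sc (Equiv.swap 0 1 1) = sc 0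
      rw [Equiv.swap_apply_right]
    rw [e0, e1, ← key, List.length_map, List.length_map]
    have e3 : (Ic K.length L.length).length = K.length := by simp [Ic]
    have e4 : (Jc K.length L.length).length = L.length := by simp [Jc]
    rw [e3, e4, mul_comm (cQ (K.length + L.length + B.length))]
    rfl
  · intro t ht
    rw [← List.map_append] at ht
    obtain ⟨t', ht', rfl⟩ := List.mem_map.1 ht
    have h1 := zc_pair (v := v) t' ht'
    show exp (I * -zc K L v t'.1) = exp (I * -zc K L v t'.2)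
    rw [h1]
  · intro j hj
    have hj' : j ∈ A ++ B := by
      rw [List.mem_append] at hj ⊢
      exact hj.symm
    obtain ⟨h0, h1⟩ := cn_ne hA hj'
    rw [hsj j h0 h1, mul_neg, Complex.exp_neg, hv j hj']
    congr 1
    exact exp_lg (hne j hj')

/-- **All full lines below `f` may be inverted.** -/
theorem WC_invallK {c d : Fin 6} (hA : (0 :: 1 :: (A ++ B)).Nodup)
    (hm : m ∈ A ++ B) (hc : c ∉ 0 :: 1 :: (A ++ B)) (hd : d ∉ 0 :: 1 :: (A ++ B)) (hcd : c ≠ d)
    (hG : _root_.TC.GC NUTP.th ((A ++ B).map v ++ (K ++ L))) :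
    WC ω (K.map (·⁻¹)) L v A B m = WC ω K L v A B m ∧
      _root_.TC.GC NUTP.th ((A ++ B).map v ++ (K.map (·⁻¹) ++ L)) := by
  have key : ∀ K1 K2 : List ℂ, _root_.TC.GC NUTP.th ((A ++ B).map v ++ ((K1 ++ K2) ++ L)) →
      WC ω (K1 ++ K2.map (·⁻¹)) L v A B m = WC ω (K1 ++ K2) L v A B m ∧
      _root_.TC.GC NUTP.th ((A ++ B).map v ++ ((K1 ++ K2.map (·⁻¹)) ++ L)) := by
    intro K1 K2
    induction K2 generalizing K1 with
    | nil => exact fun h => ⟨rfl, h⟩
    | cons x K2 ih =>
      intro h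
      have hp : ∀ y : ℂ, ((A ++ B).map v ++ ((K1 ++ y :: K2) ++ L)).Perm
          (y :: ((A ++ B).map v ++ ((K1 ++ K2) ++ L))) := by
        intro y
        refine (List.Perm.append_left _ (List.Perm.append_right _ List.perm_middle)).trans ?_
        rw [List.cons_append]
        exact List.perm_middle
      have h1 : _root_.TC.GC NUTP.th ((A ++ B).map v ++ ((K1 ++ x⁻¹ :: K2) ++ L)) :=
        GC.perm (_root_.TC.GC.flip NUTP.th8 (GC.perm h (hp x))) (hp x⁻¹).symm
      have e : ∀ M : List ℂ, K1 ++ x⁻¹ :: M = (K1 ++ [x⁻¹]) ++ M := fun M => by simp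
      have h2 := ih (K1 ++ [x⁻¹]) (by rw [← e]; exact h1)
      rw [← e, ← e] at h2
      rw [List.map_cons]
      refine ⟨?_, h2.2⟩
      rw [h2.1]
      exact (WC_flipK (x := x) (t := x⁻¹) hA hm hc hd hcd List.perm_middle (Or.inr rfl)
        List.perm_middle h).symm
  exact key [] K hG

/-- **All full lines above `f` may be inverted.** -/
theorem WC_invallL {c d : Fin 6} (hA : (0 :: 1 :: (A ++ B)).Nodup)
    (hm : m ∈ A ++ B) (hc : c ∉ 0 :: 1 :: (A ++ B)) (hd : d ∉ 0 :: 1 :: (A ++ B)) (hcd : c ≠ d)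
    (hG : _root_.TC.GC NUTP.th ((A ++ B).map v ++ (K ++ L))) :
    WC ω K (L.map (·⁻¹)) v A B m = WC ω K L v A B m ∧
      _root_.TC.GC NUTP.th ((A ++ B).map v ++ (K ++ L.map (·⁻¹))) := by
  have key : ∀ L1 L2 : List ℂ, _root_.TC.GC NUTP.th ((A ++ B).map v ++ (K ++ (L1 ++ L2))) →
      WC ω K (L1 ++ L2.map (·⁻¹)) v A B m = WC ω K (L1 ++ L2) v A B m ∧
      _root_.TC.GC NUTP.th ((A ++ B).map v ++ (K ++ (L1 ++ L2.map (·⁻¹)))) := by
    intro L1 L2
    induction L2 generalizing L1 with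
    | nil => exact fun h => ⟨rfl, h⟩
    | cons x L2 ih =>
      intro h
      have hp : ∀ y : ℂ, ((A ++ B).map v ++ (K ++ (L1 ++ y :: L2))).Perm
          (y :: ((A ++ B).map v ++ (K ++ (L1 ++ L2)))) := by
        intro y
        refine (List.Perm.append_left _ (List.Perm.append_left _ List.perm_middle)).trans ?_
        exact (List.perm_middle.append_left _).trans List.perm_middle
      have h1 : _root_.TC.GC NUTP.th ((A ++ B).map v ++ (K ++ (L1 ++ x⁻¹ :: L2))) :=
        GC.perm (_root_.TC.GC.flip NUTP.th8 (GC.perm h (hp x))) (hp x⁻¹).symm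
      have e : ∀ M : List ℂ, L1 ++ x⁻¹ :: M = (L1 ++ [x⁻¹]) ++ M := fun M => by simp
      have h2 := ih (L1 ++ [x⁻¹]) (by rw [← e]; exact h1)
      rw [← e, ← e] at h2
      rw [List.map_cons]
      refine ⟨?_, h2.2⟩
      rw [h2.1]
      exact (WC_flipL (x := x) (t := x⁻¹) hA hm hc hd hcd List.perm_middle (Or.inr rfl)
        List.perm_middle h).symm
  exact key [] L hG

/-- **The mirror image**, the full lines are not inverted. -/
theorem WC_mirG {c d : Fin 6} (hA : (0 :: 1 :: (A ++ B)).Nodup)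
    (hm : m ∈ A ++ B) (hc : c ∉ 0 :: 1 :: (A ++ B)) (hd : d ∉ 0 :: 1 :: (A ++ B)) (hcd : c ≠ d)
    (hG : _root_.TC.GC NUTP.th ((A ++ B).map v ++ (K ++ L)))
    (hv : ∀ j ∈ A ++ B, v' j = (v j)⁻¹) :
    WC ω K L v A B m = WC ω⁻¹ K L v' B A m := by
  obtain ⟨h1, g1⟩ := WC_invallK (ω := ω) hA hm hc hd hcd hG
  obtain ⟨h2, g2⟩ := WC_invallL (ω := ω) hA hm hc hd hcd g1
  have hne := gc_ne g2
  rw [← h1, ← h2, WC_mir (v' := v') hA hm (fun a ha => hne a
    (List.mem_append_right _ (List.mem_append_left _ ha))) (fun a ha => hne a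
    (List.mem_append_right _ (List.mem_append_right _ ha)))
    (fun j hj => hne _ (List.mem_append_left _ (List.mem_map_of_mem hj))) hv]
  rw [List.map_map, List.map_map]
  have e : ∀ M : List ℂ, M.map ((fun x => x⁻¹) ∘ fun x => x⁻¹) = M := by
    intro M
    conv_rhs => rw [← List.map_id M]
    exact List.map_congr_left fun a _ => inv_inv a
  rw [e, e]

theorem WC_RL {j : Fin 6} (h0 : j ≠ 0) (h1 : j ≠ 1) (hG : _root_.TC.GC NUTP.th (v j :: (K ++ L))) :
    WC ω K L v [] [j] j = (fam ω⁻¹).R K L (v j)⁻¹ := by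
  obtain ⟨c, d, hc, hd, hcd⟩ : ∃ c d : Fin 6, c ∉ (0 :: 1 :: ([] ++ [j]) : List (Fin 6)) ∧
      d ∉ (0 :: 1 :: ([] ++ [j]) : List (Fin 6)) ∧ c ≠ d := by
    clear hG
    revert j
    decide
  have hn : (0 :: 1 :: ([] ++ [j]) : List (Fin 6)).Nodup := by
    clear hG hc hd
    revert j
    decide
  rw [WC_mirG (v' := fun i => (v i)⁻¹) hn (by simp) hc hd hcd hG fun i _ => rfl]
  exact WC_R h0 h1

section twoL

variable {i j : Fin 6} (i0 : i ≠ 0) (i1 : i ≠ 1) (j0 : j ≠ 0) (j1 : j ≠ 1) (hij : i ≠ j)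

include i0 i1 j0 j1 hij

omit i0 i1 j0 j1 hij in
theorem spare2 (A B : List (Fin 6)) (h : ∀ x ∈ A ++ B, x = i ∨ x = j) :
    ∃ c d : Fin 6, c ∉ 0 :: 1 :: (A ++ B) ∧ d ∉ 0 :: 1 :: (A ++ B) ∧ c ≠ d := by
  obtain ⟨c, d, hc, hd, hcd⟩ : ∃ c d : Fin 6, c ∉ ([0, 1, i, j] : List (Fin 6)) ∧
      d ∉ ([0, 1, i, j] : List (Fin 6)) ∧ c ≠ d := by
    clear h
    revert i j
    decide
  have key : ∀ e : Fin 6, e ∉ ([0, 1, i, j] : List (Fin 6)) → e ∉ 0 :: 1 :: (A ++ B) := by
    intro e he h1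
    apply he
    rcases List.mem_cons.1 h1 with rfl | h1
    · simp
    rcases List.mem_cons.1 h1 with rfl | h1
    · simp
    rcases h e h1 with rfl | rfl
    · simp
    · simp
  exact ⟨c, d, key c hc, key d hd, hcd⟩

theorem nd2 : (0 :: 1 :: ([] ++ [i, j]) : List (Fin 6)).Nodup ∧
    (0 :: 1 :: ([i] ++ [j]) : List (Fin 6)).Nodup := by
  revert i j
  decide

/-- Both ends on the left, the lower one is occupied. -/
theorem WC_XL (hG : _root_.TC.GC NUTP.th (v i :: v j :: (K ++ L))) :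
    WC ω K L v [] [i, j] i = (fam ω⁻¹).X K L (v i)⁻¹ (v j)⁻¹ := by
  obtain ⟨c, d, hc, hd, hcd⟩ := spare2 (i := i) (j := j) [] [i, j] (by simp)
  rw [WC_mirG (v' := fun i => (v i)⁻¹) (nd2 i0 i1 j0 j1 hij).1 (by simp) hc hd hcd hG fun i _ => rfl]
  exact WC_X i0 i1 j0 j1 hij

/-- Both ends on the left, the upper one is occupied. -/
theorem WC_YL (hG : _root_.TC.GC NUTP.th (v i :: v j :: (K ++ L))) :
    WC ω K L v [] [i, j] j = (fam ω⁻¹).Y K L (v i)⁻¹ (v j)⁻¹ := by
  obtain ⟨c, d, hc, hd, hcd⟩ := spare2 (i := i) (j := j) [] [i, j] (by simp)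
  rw [WC_mirG (v' := fun i => (v i)⁻¹) (nd2 i0 i1 j0 j1 hij).1 (by simp) hc hd hcd hG fun i _ => rfl]
  exact WC_Y i0 i1 j0 j1 hij

/-- Empty end `i` on the right, occupied end `j` on the left. -/
theorem WC_OL (hG : _root_.TC.GC NUTP.th (v i :: v j :: (K ++ L))) :
    WC ω K L v [i] [j] j = (fam ω⁻¹).O K L (v j)⁻¹ (v i)⁻¹ := by
  obtain ⟨c, d, hc, hd, hcd⟩ := spare2 (i := i) (j := j) [i] [j] (by simp)
  rw [WC_mirG (v' := fun i => (v i)⁻¹) (nd2 i0 i1 j0 j1 hij).2 (by simp) hc hd hcd hG fun i _ => rfl]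
  exact WC_O j0 j1 i0 i1 hij.symm

end twoL

end can2

/-! ### The family -/

section fam

variable {ω a b x t : ℂ} {K L K' L' K0 L0 : List ℂ}

theorem famR_perm (hK : K.Perm K') (hL : L.Perm L') (hG : _root_.TC.GC NUTP.th (a :: (K ++ L))) :
    (fam ω).R K L a = (fam ω).R K' L' a :=
  WC_perm hK hL (A := [2]) (B := []) (by decide) (by decide) hG

theorem famX_perm (hK : K.Perm K') (hL : L.Perm L')
    (hG : _root_.TC.GC NUTP.th (a :: b :: (K ++ L))) :
    (fam ω).X K L a b = (fam ω).X K' L' a b :=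
  WC_perm hK hL (A := [2, 3]) (B := []) (by decide) (by decide) hG

theorem famY_perm (hK : K.Perm K') (hL : L.Perm L')
    (hG : _root_.TC.GC NUTP.th (a :: b :: (K ++ L))) :
    (fam ω).Y K L a b = (fam ω).Y K' L' a b :=
  WC_perm hK hL (A := [2, 3]) (B := []) (by decide) (by decide) hG

theorem famO_perm (hK : K.Perm K') (hL : L.Perm L')
    (hG : _root_.TC.GC NUTP.th (a :: b :: (K ++ L))) :
    (fam ω).O K L a b = (fam ω).O K' L' a b :=
  WC_perm hK hL (A := [2]) (B := [3]) (by decide) (by decide) hG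

theorem famR_flipK (hp : K.Perm (x :: K0)) (ht : t = x ∨ t = x⁻¹) (hp' : K'.Perm (t :: K0))
    (hG : _root_.TC.GC NUTP.th (a :: (K ++ L))) : (fam ω).R K L a = (fam ω).R K' L a :=
  WC_flipK (A := [2]) (B := []) (c := 4) (d := 5) (by decide) (by decide) (by decide) (by decide)
    (by decide) hp ht hp' hG

theorem famR_flipL (hp : L.Perm (x :: L0)) (ht : t = x ∨ t = x⁻¹) (hp' : L'.Perm (t :: L0))
    (hG : _root_.TC.GC NUTP.th (a :: (K ++ L))) : (fam ω).R K L a = (fam ω).R K L' a :=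
  WC_flipL (A := [2]) (B := []) (c := 4) (d := 5) (by decide) (by decide) (by decide) (by decide)
    (by decide) hp ht hp' hG

theorem famX_flipK (hp : K.Perm (x :: K0)) (ht : t = x ∨ t = x⁻¹) (hp' : K'.Perm (t :: K0))
    (hG : _root_.TC.GC NUTP.th (a :: b :: (K ++ L))) : (fam ω).X K L a b = (fam ω).X K' L a b :=
  WC_flipK (A := [2, 3]) (B := []) (c := 4) (d := 5) (by decide) (by decide) (by decide) (by decide)
    (by decide) hp ht hp' hG

theorem famX_flipL (hp : L.Perm (x :: L0)) (ht : t = x ∨ t = x⁻¹) (hp' : L'.Perm (t :: L0))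
    (hG : _root_.TC.GC NUTP.th (a :: b :: (K ++ L))) : (fam ω).X K L a b = (fam ω).X K L' a b :=
  WC_flipL (A := [2, 3]) (B := []) (c := 4) (d := 5) (by decide) (by decide) (by decide) (by decide)
    (by decide) hp ht hp' hG

theorem famY_flipK (hp : K.Perm (x :: K0)) (ht : t = x ∨ t = x⁻¹) (hp' : K'.Perm (t :: K0))
    (hG : _root_.TC.GC NUTP.th (a :: b :: (K ++ L))) : (fam ω).Y K L a b = (fam ω).Y K' L a b :=
  WC_flipK (A := [2, 3]) (B := []) (c := 4) (d := 5) (by decide) (by decide) (by decide) (by decide)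
    (by decide) hp ht hp' hG

theorem famY_flipL (hp : L.Perm (x :: L0)) (ht : t = x ∨ t = x⁻¹) (hp' : L'.Perm (t :: L0))
    (hG : _root_.TC.GC NUTP.th (a :: b :: (K ++ L))) : (fam ω).Y K L a b = (fam ω).Y K L' a b :=
  WC_flipL (A := [2, 3]) (B := []) (c := 4) (d := 5) (by decide) (by decide) (by decide) (by decide)
    (by decide) hp ht hp' hG

theorem famO_flipK (hp : K.Perm (x :: K0)) (ht : t = x ∨ t = x⁻¹) (hp' : K'.Perm (t :: K0))
    (hG : _root_.TC.GC NUTP.th (a :: b :: (K ++ L))) : (fam ω).O K L a b = (fam ω).O K' L a b :=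
  WC_flipK (A := [2]) (B := [3]) (c := 4) (d := 5) (by decide) (by decide) (by decide) (by decide)
    (by decide) hp ht hp' hG

theorem famO_flipL (hp : L.Perm (x :: L0)) (ht : t = x ∨ t = x⁻¹) (hp' : L'.Perm (t :: L0))
    (hG : _root_.TC.GC NUTP.th (a :: b :: (K ++ L))) : (fam ω).O K L a b = (fam ω).O K L' a b :=
  WC_flipL (A := [2]) (B := [3]) (c := 4) (d := 5) (by decide) (by decide) (by decide) (by decide)
    (by decide) hp ht hp' hG

theorem gc_sw {S : List ℂ} (h : _root_.TC.GC NUTP.th (b :: a :: S)) :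
    _root_.TC.GC NUTP.th (a :: b :: S) := GC.perm h (List.Perm.swap a b S)

theorem famR_invK (hG : _root_.TC.GC NUTP.th (a :: ((x :: K) ++ L))) :
    (fam ω).R (x :: K) L a = (fam ω).R (x⁻¹ :: K) L a :=
  famR_flipK (List.Perm.refl _) (Or.inr rfl) (List.Perm.refl _) hG

theorem famR_invL (hG : _root_.TC.GC NUTP.th (a :: (K ++ (x :: L)))) :
    (fam ω).R K (x :: L) a = (fam ω).R K (x⁻¹ :: L) a :=
  famR_flipL (List.Perm.refl _) (Or.inr rfl) (List.Perm.refl _) hG

theorem famX_invK (hG : _root_.TC.GC NUTP.th (a :: b :: ((x :: K) ++ L))) :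
    (fam ω).X (x :: K) L a b = (fam ω).X (x⁻¹ :: K) L a b :=
  famX_flipK (List.Perm.refl _) (Or.inr rfl) (List.Perm.refl _) hG

theorem famX_invL (hG : _root_.TC.GC NUTP.th (a :: b :: (K ++ (x :: L)))) :
    (fam ω).X K (x :: L) a b = (fam ω).X K (x⁻¹ :: L) a b :=
  famX_flipL (List.Perm.refl _) (Or.inr rfl) (List.Perm.refl _) hG

theorem famY_invK (hG : _root_.TC.GC NUTP.th (a :: b :: ((x :: K) ++ L))) :
    (fam ω).Y (x :: K) L a b = (fam ω).Y (x⁻¹ :: K) L a b :=
  famY_flipK (List.Perm.refl _) (Or.inr rfl) (List.Perm.refl _) hG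

theorem famY_invL (hG : _root_.TC.GC NUTP.th (a :: b :: (K ++ (x :: L)))) :
    (fam ω).Y K (x :: L) a b = (fam ω).Y K (x⁻¹ :: L) a b :=
  famY_flipL (List.Perm.refl _) (Or.inr rfl) (List.Perm.refl _) hG

theorem famO_invK (hG : _root_.TC.GC NUTP.th (a :: b :: ((x :: K) ++ L))) :
    (fam ω).O (x :: K) L a b = (fam ω).O (x⁻¹ :: K) L a b :=
  famO_flipK (List.Perm.refl _) (Or.inr rfl) (List.Perm.refl _) hG

theorem famO_invL (hG : _root_.TC.GC NUTP.th (a :: b :: (K ++ (x :: L)))) :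
    (fam ω).O K (x :: L) a b = (fam ω).O K (x⁻¹ :: L) a b :=
  famO_flipL (List.Perm.refl _) (Or.inr rfl) (List.Perm.refl _) hG

end fam

end Pool.Agent.TC
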