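import Pool.Agent.TC.Psi

/-!
# Crossing and fusion of two neighbouring lines at any place, for `PH` and for the exit functional (helper92)

`PH_crossA`, `PS_crossA`: `z p = z i - 3 λ`, `i` directly above `p`.
`PH_fuseA`, `PS_fuseA`: `z p = z q - 2 λ`, `q` directly above `p`.
-/

set_option autoImplicit false

namespace Pool.Agent.TC

open _root_.Pool.Agent.EXL _root_.Pool.Agent.EXL.Pat Filter Topology
open _root_.Pool.Agent.EXL.Fm (lam)
open _root_.Pool.Agent.NUF _root_.Pool.Agent.NUU _root_.Pool.Agent.NUTV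
open Polynomial (C natDegree)

variable {α : Type*} [DecidableEq α] {z z' : α → ℂ} {X Y A B D : List α} {b c d i j k p q : α}

/-! ### The operators and the exit site -/

theorem opE_U (hp : p ≠ b) (hi : i ≠ b) (hpi : p ≠ i) (F : Pat α → ℂ) :
    uops.U p i (F - opE ℂ b F) = uops.U p i F - opE ℂ b (uops.U p i F) := by
  funext s
  rw [uops_U_apply hpi, uops_U_apply hpi, Pi.sub_apply, opE_apply]
  unfold EXL.U
  by_cases h1 : s p = p
  · by_cases h2 : s i = i
    · have h3 : cup p i s b = s b := by
        rw [cup_apply ⟨h1, h2⟩, if_neg (Ne.symm hp), if_neg (Ne.symm hi)]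
      simp only [if_pos h1, if_pos h2, Pi.sub_apply, opE_apply, h3]
      split_ifs <;> ring
    · simp [if_pos h1, if_neg h2]
  · simp [if_neg h1]

theorem opE_Y (hp : p ≠ b) (hq : q ≠ b) (hqp : q ≠ p) (F : Pat α → ℂ) :
    uops.Y q p (F - opE ℂ b F) = uops.Y q p F - opE ℂ b (uops.Y q p F) := by
  funext s
  rw [uops_Y_apply _ hqp, uops_Y_apply _ hqp, Pi.sub_apply, opE_apply]
  unfold EXL.Y
  by_cases h1 : s p = p
  · by_cases h2 : s q = q
    · have h3 : cup q p s b = s b := by
        rw [cup_apply ⟨h2, h1⟩, if_neg (Ne.symm hq), if_neg (Ne.symm hp)]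
      simp only [if_pos h1, if_pos h2, Pi.sub_apply, opE_apply, h3]
      split_ifs <;> ring
    · have h3 : (swap q p s b = b) ↔ (s b = b) := by
        rw [EXL.swap_apply, Equiv.swap_apply_of_ne_of_ne (Ne.symm hq) (Ne.symm hp)]
        constructor
        · intro h
          by_cases e1 : s b = q
          · rw [e1, Equiv.swap_apply_left] at h
            exact absurd h hp
          · by_cases e2 : s b = p
            · rw [e2, Equiv.swap_apply_right] at h
              exact absurd h hq
            · rwa [Equiv.swap_apply_of_ne_of_ne e1 e2] at h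
        · intro h
          rw [h, Equiv.swap_apply_of_ne_of_ne (Ne.symm hq) (Ne.symm hp)]
      simp only [if_pos h1, if_neg h2, Pi.sub_apply, opE_apply, h3]
      split_ifs <;> ring
  · simp [if_neg h1]

/-! ### Ordered generic lists with two special lines -/

/-- `p` below `i`; `X` = the other lines. -/
theorem go_pi (hn : (A ++ p :: (B ++ i :: D)).Nodup) (h1 : Gz z (i :: X)) (h2 : Gz z (p :: X))
    (hX : ∀ x ∈ A ++ (B ++ D), x ∈ X)
    (h3 : Complex.sin (z i - z p) ≠ 0 ∧ Fm.Dn (z i - z p) ≠ 0) : Go z (A ++ p :: (B ++ i :: D)) := by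
  have hp1 : (A ++ p :: (B ++ i :: D)).Perm (p :: (A ++ (B ++ i :: D))) := List.perm_middle
  have hn1 := List.nodup_cons.1 (hp1.nodup_iff.1 hn)
  have hg : Go z (A ++ (B ++ i :: D)) := by
    refine go_of (h1.sub fun x hx => ?_) hn1.2
    simp only [List.mem_append, List.mem_cons] at hx
    rcases hx with hx | hx | hx | hx
    · exact List.mem_cons_of_mem _ (hX x (by simp [hx]))
    · exact List.mem_cons_of_mem _ (hX x (by simp [hx]))
    · simp [hx]
    · exact List.mem_cons_of_mem _ (hX x (by simp [hx]))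
  have hne : ∀ x ∈ A ++ (B ++ i :: D), x ≠ p := fun x hx e => hn1.1 (e ▸ hx)
  have hxp : ∀ x ∈ B ++ i :: D, Complex.sin (z x - z p) ≠ 0 ∧ Fm.Dn (z x - z p) ≠ 0 := by
    intro x hx
    have hxne := hne x (by simp only [List.mem_append]; right; simpa using hx)
    by_cases e : x = i
    · rw [e]
      exact h3
    · have hm : x ∈ X := by
        simp only [List.mem_append, List.mem_cons] at hx
        rcases hx with hx | hx | hx
        · exact hX x (by simp [hx])
        · exact absurd hx e
        · exact hX x (by simp [hx])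
      exact ⟨h2.s x (List.mem_cons_of_mem _ hm) p (by simp) hxne,
        h2.d x (List.mem_cons_of_mem _ hm) p (by simp) hxne⟩
  unfold Go at hg ⊢
  rw [List.pairwise_append] at hg ⊢
  refine ⟨hg.1, List.Pairwise.cons hxp hg.2.1, fun a ha x hx => ?_⟩
  rcases List.mem_cons.1 hx with hx | hx
  · rw [hx]
    have hm : a ∈ X := hX a (by simp [ha])
    have hane := hne a (by simp [ha])
    exact ⟨h2.s p (by simp) a (List.mem_cons_of_mem _ hm) hane.symm,
      h2.d p (by simp) a (List.mem_cons_of_mem _ hm) hane.symm⟩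
  · exact hg.2.2 a ha x hx

/-- two lines move through the line `a` -/
theorem PH_two [Finite α] {a : α} (hn : (A ++ a :: p :: i :: Y).Nodup) (hc : c ∉ A ++ a :: p :: i :: Y)
    (hd : d ∉ A ++ a :: p :: i :: Y) (hcd : c ≠ d) (h1 : Gz z (i :: X)) (h2 : Gz z (p :: X))
    (hX : ∀ x ∈ A ++ a :: Y, x ∈ X)
    (h3 : Complex.sin (z i - z p) ≠ 0 ∧ Fm.Dn (z i - z p) ≠ 0) :
    PH z (A ++ a :: p :: i :: Y) =
      PH z (A ++ p :: i :: a :: Y) ∘ₗ (uops.R i a (z i - z a) * uops.R p a (z p - z a)) := by
  have e0 : A ++ a :: p :: i :: Y = (A ++ [a]) ++ p :: ([] ++ i :: Y) := by simp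
  have e1 : A ++ p :: a :: i :: Y = A ++ p :: ([a] ++ i :: Y) := by simp
  have e2 : A ++ p :: i :: a :: Y = A ++ p :: ([] ++ i :: (a :: Y)) := by simp
  have p1 : (A ++ a :: p :: i :: Y).Perm (A ++ p :: a :: i :: Y) := swap_perm A _ a p
  have p2 : (A ++ p :: a :: i :: Y).Perm (A ++ p :: i :: a :: Y) := by
    have := swap_perm (A ++ [p]) Y a i
    simpa using this
  have hn1 := p1.nodup_iff.1 hn
  have hn2 := p2.nodup_iff.1 hn1
  have g0 : Go z (A ++ a :: p :: i :: Y) := by
    rw [e0]
    exact go_pi (by rwa [← e0]) h1 h2 (fun x hx => hX x (by simpa using hx)) h3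
  have g1 : Go z (A ++ p :: a :: i :: Y) := by
    rw [e1]
    exact go_pi (by rwa [← e1]) h1 h2 (fun x hx => hX x (by simpa using hx)) h3
  have g2 : Go z (A ++ p :: i :: a :: Y) := by
    rw [e2]
    exact go_pi (by rwa [← e2]) h1 h2 (fun x hx => hX x (by simpa using hx)) h3
  have x1 := PH_exchO (z := z) (A := A) (B := i :: Y) (j := p) (k := a) hn1
    (fun h => hc (p1.mem_iff.2 h)) (fun h => hd (p1.mem_iff.2 h)) hcd g1 g0
  have e3 : A ++ p :: i :: a :: Y = (A ++ [p]) ++ i :: a :: Y := by simp
  have e4 : A ++ p :: a :: i :: Y = (A ++ [p]) ++ a :: i :: Y := by simp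
  have x2 := PH_exchO (z := z) (A := A ++ [p]) (B := Y) (j := i) (k := a) (by rwa [← e3])
    (by rw [← e3]; exact fun h => hc (p1.mem_iff.2 (p2.mem_iff.2 h)))
    (by rw [← e3]; exact fun h => hd (p1.mem_iff.2 (p2.mem_iff.2 h))) hcd
    (by rwa [← e3]) (by rwa [← e4])
  rw [← e3, ← e4] at x2
  rw [← x1, ← x2]
  rfl

theorem lam_facts : Complex.sin (3 * lam) ≠ 0 ∧ Complex.sin (2 * lam) ≠ 0 ∧ Fm.Dn (3 * lam) ≠ 0 ∧
    Fm.Dn (2 * lam) ≠ 0 := by
  refine ⟨sin_tl_ne (t := 3) (by norm_num) (by norm_num) (by push_cast; ring),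
    sin_tl_ne (t := 2) (by norm_num) (by norm_num) (by push_cast; ring), ?_, ?_⟩
  · unfold Fm.Dn
    exact mul_ne_zero (sin_tl_ne (t := 5) (by norm_num) (by norm_num) (by push_cast; ring))
      (sin_tl_ne (t := 6) (by norm_num) (by norm_num) (by push_cast; ring))
  · unfold Fm.Dn
    exact mul_ne_zero (sin_tl_ne (t := 4) (by norm_num) (by norm_num) (by push_cast; ring))
      (sin_tl_ne (t := 5) (by norm_num) (by norm_num) (by push_cast; ring))

/-- the factor of the crossing -/
noncomputable def crf (z : α → ℂ) (p i : α) (Y : Finset α) : ℂ :=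
  Fr.wt (ux z) i Y * Fr.Dl (ux z) (ux z p) Y * Fr.fe (ux z i)

/-- **Crossing** at any place. -/
theorem PH_crossA [Finite α] : ∀ (A Y : List α), (A ++ p :: i :: Y).Nodup →
    c ∉ A ++ p :: i :: Y → d ∉ A ++ p :: i :: Y → c ≠ d → z p = z i - 3 * lam →
    Gz z (i :: (A ++ Y)) → Gz z (p :: (A ++ Y)) →
      PH z (A ++ p :: i :: Y) = crf z p i (A ++ Y).toFinset • (PH z (A ++ Y) ∘ₗ uops.U p i) := by
  intro A
  induction A using List.reverseRecOn with
  | nil =>
    intro Y hn hc hd hcd hz h1 _
    rw [List.nil_append] at *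
    have hn1 := List.nodup_cons.1 (List.nodup_cons.1 hn).2
    have hS : Sup Y (PH z Y) := PH_sup hn1.2 (fun h => hc (by simp [h])) (fun h => hd (by simp [h]))
      hcd (h1.sub fun x hx => List.mem_cons_of_mem _ hx)
    exact PH_cross hn hS hz
  | append_singleton A a ih =>
    intro Y hn hc hd hcd hz h1 h2
    have e0 : A ++ [a] ++ p :: i :: Y = A ++ a :: p :: i :: Y := by simp
    have e1 : A ++ [a] ++ Y = A ++ a :: Y := by simp
    rw [e0] at hn hc hd ⊢
    rw [e1] at h1 h2 ⊢
    have p1 : (A ++ a :: p :: i :: Y).Perm (A ++ p :: i :: a :: Y) := by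
      have q1 := swap_perm A (i :: Y) a p
      have q2 : (A ++ p :: a :: i :: Y).Perm (A ++ p :: i :: a :: Y) := by
        have := swap_perm (A ++ [p]) Y a i
        simpa using this
      exact q1.trans q2
    have hzip : z i - z p = 3 * lam := by rw [hz]; ring
    have h3 : Complex.sin (z i - z p) ≠ 0 ∧ Fm.Dn (z i - z p) ≠ 0 := by
      rw [hzip]
      exact ⟨lam_facts.1, lam_facts.2.2.1⟩
    rw [PH_two hn hc hd hcd h1 h2 (fun x hx => hx) h3,
      ih (a :: Y) (p1.nodup_iff.1 hn) (fun h => hc (p1.mem_iff.2 h)) (fun h => hd (p1.mem_iff.2 h)) hcd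
        hz h1 h2]
    have hm : a ∈ A ++ a :: Y := by simp
    have hnp : (p :: (A ++ a :: i :: Y)).Nodup := by
      have : (A ++ a :: p :: i :: Y).Perm (p :: (A ++ a :: i :: Y)) := by
        have := List.perm_middle (l₁ := A ++ [a]) (l₂ := i :: Y) (a := p)
        simpa using this
      exact this.nodup_iff.1 hn
    have hni : (i :: (A ++ a :: p :: Y)).Nodup := by
      have : (A ++ a :: p :: i :: Y).Perm (i :: (A ++ a :: p :: Y)) := by
        have := List.perm_middle (l₁ := A ++ [a, p]) (l₂ := Y) (a := i)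
        simpa using this
      exact this.nodup_iff.1 hn
    have hap : p ≠ a := fun e => (List.nodup_cons.1 hnp).1 (by simp [e])
    have hai : i ≠ a := fun e => (List.nodup_cons.1 hni).1 (by simp [e])
    have hpi : p ≠ i := fun e => (List.nodup_cons.1 hnp).1 (by simp [e])
    have k1 : okR (z p - z a) := (EXL.Fm.okR_iff _).2
      (h2.d p (by simp) a (List.mem_cons_of_mem _ hm) hap)
    have k2 : okR (z i - z a) := (EXL.Fm.okR_iff _).2
      (h1.d i (by simp) a (List.mem_cons_of_mem _ hm) hai)
    have eh : (uops (ι := α)).h + (uops (ι := α)).h + (z p - z a) = z i - z a := by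
      rw [hz, uops_h]
      unfold lam
      ring
    have key := (ulaws (ι := α)).CU2 (i := p) (j := i) (r := a) (u := z p - z a) hpi hap hai k1
      (by rw [eh]; exact k2)
    rw [eh] at key
    refine LinearMap.ext fun F => ?_
    simp only [LinearMap.smul_apply, LinearMap.comp_apply]
    have := LinearMap.congr_fun key F
    rw [Module.End.mul_apply, Module.End.mul_apply] at this
    rw [Module.End.mul_apply, this]

/-! ### The exit functional -/

theorem two_Dn (x : ℂ) : 2 * Fm.Dn x = Complex.cos lam + Complex.cos (2 * x - 3 * lam) := by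
  unfold Fm.Dn
  have h := Fr.two_sin_sin (2 * lam + x) (3 * lam + x)
  have e1 : Complex.cos (2 * lam + x - (3 * lam + x)) = Complex.cos lam := by
    rw [← Complex.cos_neg]
    congr 1
    ring
  have e2 : Complex.cos (2 * lam + x + (3 * lam + x)) = -Complex.cos (2 * x - 3 * lam) := by
    rw [← Complex.cos_neg (2 * x - 3 * lam)]
    exact Fr.cos_eq_neg _ _ (by ring)
  linear_combination h + e1 - e2

/-- the factor of the line `b` in the crossing -/
theorem cross_fac {u y : ℂ} (h : Complex.sin (u - y) ≠ 0) :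
    Fr.pr u y * Fr.dl (y + 3 * lam) u = cf u ^ 2 + 2 * Complex.cos lam * Complex.cos (2 * y) * cf u +
      (Complex.cos lam ^ 2 - Complex.sin (2 * y) ^ 2) := by
  have h1 : Fr.dl (y + 3 * lam) u = 2 * (Complex.sin (u + y + 3 * lam) * Complex.sin (u - y)) := by
    rw [dl_cf]
    unfold cf nd
    have := Fr.two_sin_sin (u + y + 3 * lam) (u - y)
    rw [this]
    congr 1 <;> congr 1 <;> ring
  have h2 := two_Dn (u - y)
  have h3 := two_Dn (u + y)
  have h4 : Fr.pr u y * Fr.dl (y + 3 * lam) u = (2 * Fm.Dn (u - y)) * (2 * Fm.Dn (u + y)) := by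
    rw [h1]
    unfold Fr.pr
    rw [show Fm.Dn (u + y) = Complex.sin (y + u + 2 * lam) * Complex.sin (u + y + 3 * lam) by
      unfold Fm.Dn
      congr 2 <;> ring]
    field_simp
  have h5 : 2 * (u - y) - 3 * lam = (2 * u - 3 * lam) - 2 * y := by ring
  have h6 : 2 * (u + y) - 3 * lam = (2 * u - 3 * lam) + 2 * y := by ring
  rw [h4, h2, h3, h5, h6, Complex.cos_sub, Complex.cos_add]
  unfold cf
  have h7 := Complex.sin_sq_add_cos_sq (2 * u - 3 * lam)
  have h8 := Complex.sin_sq_add_cos_sq (2 * y)
  linear_combination (-(Complex.sin (2 * y)) ^ 2) * h7 + (Complex.cos (2 * u - 3 * lam)) ^ 2 * h8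

/-- the polynomial of the factor -/
noncomputable def crP (y : ℂ) : Polynomial ℂ :=
  Polynomial.X ^ 2 + C (2 * Complex.cos lam * Complex.cos (2 * y)) * Polynomial.X +
    C (Complex.cos lam ^ 2 - Complex.sin (2 * y) ^ 2)

theorem crP_eval (y T : ℂ) : (crP y).eval T = T ^ 2 + 2 * Complex.cos lam * Complex.cos (2 * y) * T +
    (Complex.cos lam ^ 2 - Complex.sin (2 * y) ^ 2) := by
  unfold crP
  simp

theorem crP_top (y : ℂ) : (crP y).natDegree ≤ 2 ∧ (crP y).coeff 2 = 1 := by
  constructor
  · unfold crP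
    compute_degree
  · unfold crP
    rw [Polynomial.coeff_add, Polynomial.coeff_add, Polynomial.coeff_C_mul, Polynomial.coeff_X_pow,
      Polynomial.coeff_X, Polynomial.coeff_C]
    norm_num

/-- **Crossing of the exit functional** at any place. -/
theorem PS_crossA [Finite α] (A Y : List α) (hn : (b :: (A ++ p :: i :: Y)).Nodup)
    (hc : c ∉ b :: (A ++ p :: i :: Y)) (hd : d ∉ b :: (A ++ p :: i :: Y)) (hcd : c ≠ d)
    (hz : z p = z i - 3 * lam) (h1 : Gz z (i :: (A ++ Y))) (h2 : Gz z (p :: (A ++ Y))) :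
    PS z b (A ++ p :: i :: Y) = crf z p i (A ++ Y).toFinset • (PS z b (A ++ Y) ∘ₗ uops.U p i) := by
  have hn1 := List.nodup_cons.1 hn
  have hsub : (A ++ Y).Sublist (A ++ p :: i :: Y) :=
    List.Sublist.append_left ((List.sublist_cons_self i Y).trans (List.sublist_cons_self p _)) A
  have hbAY : b ∉ A ++ Y := fun h => hn1.1 (hsub.subset h)
  have hnY : (b :: (A ++ Y)).Nodup := List.nodup_cons.2 ⟨hbAY, hn1.2.sublist hsub⟩
  have hcX : c ∉ A ++ p :: i :: Y := fun h => hc (List.mem_cons_of_mem _ h)
  have hdX : d ∉ A ++ p :: i :: Y := fun h => hd (List.mem_cons_of_mem _ h)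
  have hpb : p ≠ b := fun e => hn1.1 (by simp [e])
  have hib : i ≠ b := fun e => hn1.1 (by simp [e])
  have hzip : z i - z p = 3 * lam := by rw [hz]; ring
  have h3 : Complex.sin (z i - z p) ≠ 0 ∧ Fm.Dn (z i - z p) ≠ 0 := by
    rw [hzip]
    exact ⟨lam_facts.1, lam_facts.2.2.1⟩
  have hpi : p ≠ i := by
    intro e
    rw [e] at hzip
    rw [sub_self] at hzip
    exact lam_facts.1 (by rw [← hzip, Complex.sin_zero])
  have hg : Go z (A ++ p :: i :: Y) := by
    have := go_pi (z := z) (A := A) (B := []) (D := Y) (p := p) (i := i) (X := A ++ Y)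
      (by simpa using hn1.2) h1 h2 (fun x hx => by simpa using hx) h3
    simpa using this
  have hgY : Go z (A ++ Y) := hg.subl hsub
  refine LinearMap.ext fun F => ?_
  have key : psP z b (A ++ p :: i :: Y) F -
      C (crf z p i (A ++ Y).toFinset) * (crP (ux z i) * psP z b (A ++ Y) (uops.U p i F)) = 0 := by
    refine pol_zero (s0 := 0) ?_
    filter_upwards [ev_fb z (p :: i :: (A ++ Y)) 0] with s hs
    have hsX : Fb z (A ++ p :: i :: Y) s := hs.sub fun y hy => by
      simp only [List.mem_append, List.mem_cons] at hy ⊢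
      tauto
    have hsi := hs i (by simp)
    set w := Function.update z b s with hw
    have wb : w b = s := by rw [hw, Function.update_self]
    have wz : ∀ x, x ≠ b → w x = z x := fun x hx => by rw [hw, Function.update_of_ne hx]
    have hxb : ∀ x ∈ A ++ Y, x ≠ b := fun x hx e => hbAY (e ▸ hx)
    have gzb : ∀ r, (r = p ∨ r = i) → Gz z (r :: (A ++ Y)) → Gz w (r :: (b :: (A ++ Y))) := by
      intro r hr hG
      have hrb : r ≠ b := by
        rcases hr with e | e
        · rw [e]; exact hpb
        · rw [e]; exact hib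
      have hfr : Fb z (r :: (A ++ Y)) s := hs.sub fun y hy => by
        simp only [List.mem_append, List.mem_cons] at hy ⊢
        rcases hr with e | e
        · rw [e] at hy
          tauto
        · rw [e] at hy
          tauto
      have hm : ∀ x ∈ r :: (b :: (A ++ Y)), x = b ∨ (x ≠ b ∧ x ∈ r :: (A ++ Y)) := by
        intro x hx
        by_cases e : x = b
        · exact Or.inl e
        · refine Or.inr ⟨e, ?_⟩
          simp only [List.mem_cons, List.mem_append] at hx ⊢
          tauto
      constructor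
      · intro x hx y hy hxy
        rcases hm x hx with ex | ⟨ex, mx⟩
        · rcases hm y hy with ey | ⟨ey, my⟩
          · exact absurd (ex.trans ey.symm) hxy
          · rw [ex, wb, wz y ey]
            exact (hfr y my).1
        · rcases hm y hy with ey | ⟨ey, my⟩
          · rw [ey, wb, wz x ex]
            exact hfr.sin' mx
          · rw [wz x ex, wz y ey]
            exact hG.s x mx y my hxy
      · intro x hx y hy hxy
        rcases hm x hx with ex | ⟨ex, mx⟩
        · rcases hm y hy with ey | ⟨ey, my⟩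
          · exact absurd (ex.trans ey.symm) hxy
          · rw [ex, wb, wz y ey]
            exact (hfr y my).2.1
        · rcases hm y hy with ey | ⟨ey, my⟩
          · rw [ey, wb, wz x ex]
            exact (hfr x mx).2.2
          · rw [wz x ex, wz y ey]
            exact hG.d x mx y my hxy
    have hX := PH_crossA (z := w) (c := c) (d := d) (p := p) (i := i) (b :: A) Y hn hc hd hcd
      (by rw [wz p hpb, wz i hib, hz]) (gzb i (Or.inr rfl) h1) (gzb p (Or.inl rfl) h2)
    have e1 := LinearMap.congr_fun hX (F - opE ℂ b F)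
    rw [List.cons_append, List.cons_append] at e1
    rw [psP_val hn hcX hdX hcd hg, LinearMap.smul_apply, LinearMap.comp_apply, opE_U hpb hib hpi,
      psP_val hnY (fun h => hcX (hsub.subset h)) (fun h => hdX (hsub.subset h)) hcd hgY] at e1
    have hbT : b ∉ (A ++ Y).toFinset := by rwa [List.mem_toFinset]
    have e2 : crf w p i (b :: (A ++ Y)).toFinset =
        crf z p i (A ++ Y).toFinset * (crP (ux z i)).eval (cf (hh - s)) := by
      have hux : ∀ x, x ≠ b → ux w x = ux z x := fun x hx => by
        unfold ux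
        rw [wz x hx]
      have hub : ux w b = hh - s := by rw [ux_hh, wb]
      have hup : ux z p = ux z i + 3 * lam := by
        unfold ux
        rw [hz]
        ring
      have hsin : Complex.sin (hh - s - ux z i) ≠ 0 := by
        rw [ux_hh, show hh - s - (hh - z i) = z i - s by ring]
        exact hs.sin' (by simp)
      have cf1 := cross_fac hsin
      rw [← hup] at cf1
      have c1 : Fr.wt (ux w) i (A ++ Y).toFinset = Fr.wt (ux z) i (A ++ Y).toFinset :=
        wt_congr (hux i hib) fun k hk => hux k (hxb k (List.mem_toFinset.1 hk))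
      have c2 : Fr.Dl (ux w) (ux z p) (A ++ Y).toFinset = Fr.Dl (ux z) (ux z p) (A ++ Y).toFinset :=
        Dl_congr fun k hk => hux k (hxb k (List.mem_toFinset.1 hk))
      unfold crf
      rw [List.toFinset_cons, Fr.wt_insert _ hbT, Dl_ins hbT, hux p hpb, hux i hib, hub, c1, c2,
        crP_eval, ← cf1]
      ring
    rw [e2] at e1
    rw [Polynomial.eval_sub, Polynomial.eval_mul, Polynomial.eval_mul, Polynomial.eval_C]
    linear_combination e1
  have t1 := (psP_top (z := z) (b := b) hn1.2 F).2
  have t2 := psP_top (z := z) (b := b) (X := A ++ Y) (hn1.2.sublist hsub) (uops.U p i F)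
  rw [sub_eq_zero] at key
  rw [key, Polynomial.coeff_C_mul] at t1
  have hlen : (A ++ p :: i :: Y).length - 1 = (A ++ Y).length + 1 := by
    simp only [List.length_append, List.length_cons]
    omega
  rw [hlen] at t1
  rw [LinearMap.smul_apply, LinearMap.comp_apply, smul_eq_mul]
  apply mul_left_cancel₀ s2_ne
  rw [← t1]
  rcases Nat.eq_zero_or_pos (A ++ Y).length with h0 | h0
  · have hnil : A ++ Y = [] := List.length_eq_zero_iff.1 h0
    rw [hnil]
    have : psP z b ([] : List α) (uops.U p i F) = 0 := by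
      unfold psP
      simp
    rw [this, mul_zero, Polynomial.coeff_zero, mul_zero, PS_eq]
    simp
  · have h5 : (A ++ Y).length + 1 = 2 + ((A ++ Y).length - 1) := by omega
    rw [h5, Polynomial.coeff_mul_add_eq_of_natDegree_le (crP_top _).1 t2.1, (crP_top _).2, one_mul, t2.2]
    ring

end Pool.Agent.TC
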