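import Pool.Agent.TC.Data
import Pool.Agent.TC.Cross
import Pool.Agent.NUTV.Dict

/-!
# The factors of crossing and fusion in the language of `Data` (helper70)

`th = e ^ (i λ)`; the lines of the first disc have the rapidities `-z`, of the second disc `z`.
-/

set_option autoImplicit false

namespace Pool.Agent.TC

open _root_.Pool.Agent.EXL _root_.Pool.Agent.EXL.Pat Filter Topology
open _root_.Pool.Agent.EXL.Fm (lam)
open _root_.Pool.Agent.NUF _root_.Pool.Agent.NUU _root_.Pool.Agent.NUTV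
open NUTP (th sn sk cs)
open Complex (I exp sin cos)

variable {α : Type*} [DecidableEq α] {w z : α → ℂ} {X Y : List α} {p i x y : α} {S : List ℂ} {n : ℕ}

/-- the pair factor of the crossing -/
theorem pr_dl {u y : ℂ} (h : sin (u - y) ≠ 0) :
    Fr.pr u y * Fr.dl (y + 3 * lam) u = 4 * (Fm.Dn (u - y) * Fm.Dn (u + y)) := by
  have h1 : Fr.dl (y + 3 * lam) u = 2 * (sin (u + y + 3 * lam) * sin (u - y)) := by
    rw [dl_cf]
    unfold cf nd
    have := Fr.two_sin_sin (u + y + 3 * lam) (u - y)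
    rw [this]
    congr 1 <;> congr 1 <;> ring
  rw [h1]
  unfold Fr.pr
  rw [show Fm.Dn (u + y) = sin (y + u + 2 * lam) * sin (u + y + 3 * lam) by
    unfold Fm.Dn
    congr 2 <;> ring]
  field_simp
  ring

/-- **the factor of the crossing**: `p` below `i`, `w p = w i - 3 λ` -/
theorem crf_eq (hz : w p = w i - 3 * lam) {Y : Finset α} (hs : ∀ k ∈ Y, sin (w i - w k) ≠ 0) :
    crf w p i Y = 2 * 4 ^ Y.card * (2 * Fr.c3 * (sin (3 * lam / 2 + w i) * sin (9 * lam / 2 - w i)) *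
      ∏ k ∈ Y, (Fm.Dn (w i - w k) * Fm.Dn (w i + w k))) := by
  have hh2 : hh = 3 * lam / 2 := by
    unfold hh lam
    ring
  have hup : ux w p = ux w i + 3 * lam := by
    rw [ux_hh, ux_hh, hz]
    ring
  have h1 : (∏ k ∈ Y, Fr.pr (ux w k) (ux w i)) * Fr.Dl (ux w) (ux w p) Y =
      4 ^ Y.card * ∏ k ∈ Y, (Fm.Dn (w i - w k) * Fm.Dn (w i + w k)) := by
    unfold Fr.Dl
    rw [← Finset.prod_mul_distrib, ← Finset.prod_const, ← Finset.prod_mul_distrib]
    refine Finset.prod_congr rfl fun k hk => ?_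
    have e1 : ux w k - ux w i = w i - w k := by
      rw [ux_hh, ux_hh]
      ring
    have e2 : ux w k + ux w i = 3 * lam - (w i + w k) := by
      rw [ux_hh, ux_hh, hh2]
      ring
    rw [hup, pr_dl (by rw [e1]; exact hs k hk), e1, e2, Dn_three]
  have e3 : Fr.fa' (ux w i) = sin (3 * lam / 2 + w i) := by
    unfold Fr.fa'
    rw [ux_hh, hh2]
    congr 1
    ring
  have e4 : Fr.fe (ux w i) = sin (9 * lam / 2 - w i) := by
    unfold Fr.fe
    rw [ux_hh, hh2]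
    congr 1
    ring
  unfold crf Fr.wt
  rw [show 4 * Fr.c3 * Fr.fa' (ux w i) * (∏ k ∈ Y, Fr.pr (ux w k) (ux w i)) *
    Fr.Dl (ux w) (ux w p) Y * Fr.fe (ux w i) = 4 * Fr.c3 * Fr.fa' (ux w i) * Fr.fe (ux w i) *
      ((∏ k ∈ Y, Fr.pr (ux w k) (ux w i)) * Fr.Dl (ux w) (ux w p) Y) by ring, h1, e3, e4]
  ring

/-- the same in terms of the lower line -/
theorem crf_eq' (hz : w p = w i - 3 * lam) {Y : Finset α} (hs : ∀ k ∈ Y, sin (w i - w k) ≠ 0) :
    crf w p i Y = 2 * 4 ^ Y.card * (2 * Fr.c3 * (sin (3 * lam / 2 - w p) * sin (9 * lam / 2 + w p)) *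
      ∏ k ∈ Y, (Fm.Dn (-w p - w k) * Fm.Dn (-w p + w k))) := by
  rw [crf_eq hz hs]
  have hi : w i = w p + 3 * lam := by rw [hz]; ring
  have h8 : (8 : ℂ) * lam = Real.pi := by
    unfold Fm.lam
    ring
  have e1 : ∏ k ∈ Y, (Fm.Dn (w i - w k) * Fm.Dn (w i + w k)) =
      ∏ k ∈ Y, (Fm.Dn (-w p - w k) * Fm.Dn (-w p + w k)) := by
    refine Finset.prod_congr rfl fun k _ => ?_
    rw [hi, show w p + 3 * lam - w k = 3 * lam - (-w p + w k) by ring,
      show w p + 3 * lam + w k = 3 * lam - (-w p - w k) by ring, Dn_three, Dn_three, mul_comm]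
  have e2 : sin (3 * lam / 2 + w i) = sin (9 * lam / 2 + w p) := by
    rw [hi]
    congr 1
    ring
  have e3 : sin (9 * lam / 2 - w i) = sin (3 * lam / 2 - w p) := by
    rw [hi]
    congr 1
    ring
  rw [e1, e2, e3]
  ring

/-! ### The language of `Data` -/

theorem sk_dv (a b : ℂ) : sk th (exp (I * a) / exp (I * b)) = Fm.Dn (a - b) := by
  have := te_sk (ε := 1) (Or.inl rfl) a b
  rw [te_one, one_mul] at this
  exact this

theorem sk_ml (a b : ℂ) : sk th (exp (I * a) * exp (I * b)) = Fm.Dn (a + b) := by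
  have h := sk_dv a (-b)
  rw [mul_neg, Complex.exp_neg, div_inv_eq_mul, sub_neg_eq_add] at h
  exact h

theorem sk_iv (a b : ℂ) : sk th (exp (I * a) * exp (I * b))⁻¹ = Fm.Dn (-a - b) := by
  have h := sk_dv (-a) b
  rw [mul_neg, Complex.exp_neg, div_eq_mul_inv, ← mul_inv] at h
  exact h

theorem ow_ex (a : ℂ) : _root_.TC.ow th (exp (I * a)) =
    2 * Fr.c3 * (sin (3 * lam / 2 + a) * sin (9 * lam / 2 - a)) := by
  unfold _root_.TC.ow
  have h8 : (8 : ℂ) * lam = Real.pi := by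
    unfold Fm.lam
    ring
  have e1 : sn th 1 1 = Fr.c3 := by
    rw [← te_one]
    exact te_s1 (Or.inl rfl)
  have e2 : cs (th ^ 13 * exp (I * a) ^ 2) = cos (2 * a - 3 * lam) := by
    have e3 : exp (I * a) ^ 2 = NUTP.ea (2 * a) := by
      rw [show (2 : ℂ) * a = ((2 : ℕ) : ℂ) * a by norm_num, NUTP.ea_nat]
      rfl
    rw [e3, NUTP.th13, NUTP.cs_ea, lam_eq]
  have e4 : cs (th ^ 2) = cos (2 * lam) := by
    rw [NUTP.th_pow, NUTP.cs_ea, lam_eq]
    norm_num
  rw [e1, e2, e4]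
  have h := Fr.two_sin_sin (3 * lam / 2 + a) (9 * lam / 2 - a)
  have e5 : cos (3 * lam / 2 + a - (9 * lam / 2 - a)) = cos (2 * a - 3 * lam) := by
    congr 1
    ring
  have e6 : cos (3 * lam / 2 + a + (9 * lam / 2 - a)) = -cos (2 * lam) := by
    rw [show 3 * lam / 2 + a + (9 * lam / 2 - a) = Real.pi - 2 * lam by rw [← h8]; ring,
      Complex.cos_pi_sub]
  rw [e5, e6] at h
  linear_combination (-Fr.c3) * h

theorem ow_iv (a : ℂ) : _root_.TC.ow th (exp (I * a))⁻¹ =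
    2 * Fr.c3 * (sin (3 * lam / 2 - a) * sin (9 * lam / 2 + a)) := by
  have h := ow_ex (-a)
  rw [mul_neg, Complex.exp_neg, ← sub_eq_add_neg, sub_neg_eq_add] at h
  exact h

/-- the lower node -/
theorem dnC (hY : Y.Nodup) (hS : (EL z Y).Perm S) (n : ℕ) :
    _root_.TC.dn th n (exp (I * z x)) S = exp (I * (z x - 3 * lam)) ^ n *
      (2 * Fr.c3 * (sin (3 * lam / 2 + z x) * sin (9 * lam / 2 - z x)) *
        ∏ k ∈ Y.toFinset, (Fm.Dn (z x - z k) * Fm.Dn (z x + z k))) := by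
  unfold _root_.TC.dn
  rw [← (hS.map _).prod_eq, prod_EL _ hY, ow_ex]
  have e1 : th ^ 13 * exp (I * z x) = exp (I * (z x - 3 * lam)) := by
    have := NUTP.th13 (z x)
    rw [lam_eq] at this
    exact this
  rw [e1]
  have e2 : ∏ k ∈ Y.toFinset, (sk th (exp (I * z x) / exp (I * z k)) *
      sk th (exp (I * z x) * exp (I * z k))) =
      ∏ k ∈ Y.toFinset, (Fm.Dn (z x - z k) * Fm.Dn (z x + z k)) :=
    Finset.prod_congr rfl fun k _ => by rw [sk_dv, sk_ml]
  rw [e2]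

/-- the upper node -/
theorem upC (hY : Y.Nodup) (hS : (EL z Y).Perm S) (n : ℕ) :
    _root_.TC.up th n (exp (I * z y)) S = exp (I * (z y + 3 * lam)) ^ n *
      (2 * Fr.c3 * (sin (3 * lam / 2 - z y) * sin (9 * lam / 2 + z y)) *
        ∏ k ∈ Y.toFinset, (Fm.Dn (z k - z y) * Fm.Dn (-z k - z y))) := by
  unfold _root_.TC.up
  rw [← (hS.map _).prod_eq, prod_EL _ hY, ow_iv]
  have e1 : th ^ 3 * exp (I * z y) = exp (I * (z y + 3 * lam)) := by
    have := NUTP.th3 (z y)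
    rw [lam_eq] at this
    exact this
  rw [e1]
  have e2 : ∏ k ∈ Y.toFinset, (sk th (exp (I * z k) / exp (I * z y)) *
      sk th (exp (I * z k) * exp (I * z y))⁻¹) =
      ∏ k ∈ Y.toFinset, (Fm.Dn (z k - z y) * Fm.Dn (-z k - z y)) :=
    Finset.prod_congr rfl fun k _ => by rw [sk_dv, sk_iv]
  rw [e2]

/-- First disc, `p` directly below `y`, `z p = z y + 3 λ`. -/
theorem crf_up1 (hz : z p = z y + 3 * lam) (hY : Y.Nodup) (hs : ∀ k ∈ Y, sin (z y - z k) ≠ 0)
    (hS : (EL z Y).Perm S) (n : ℕ) :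
    exp (I * (z y + 3 * lam)) ^ n * crf (fun i => -z i) p y Y.toFinset =
      2 * 4 ^ Y.length * _root_.TC.up th n (exp (I * z y)) S := by
  rw [upC hY hS, crf_eq (by rw [hz]; ring) (fun k hk => by
    rw [← neg_ne_zero, ← Complex.sin_neg, show -(-z y - -z k) = z y - z k by ring]
    exact hs k (List.mem_toFinset.1 hk)), List.toFinset_card_of_nodup hY]
  have e1 : ∏ k ∈ Y.toFinset, (Fm.Dn (-z y - -z k) * Fm.Dn (-z y + -z k)) =
      ∏ k ∈ Y.toFinset, (Fm.Dn (z k - z y) * Fm.Dn (-z k - z y)) :=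
    Finset.prod_congr rfl fun k _ => by
      rw [show -z y - -z k = z k - z y by ring, show -z y + -z k = -z k - z y by ring]
  rw [e1, ← sub_eq_add_neg, sub_neg_eq_add]
  ring

/-- First disc, `x` directly below `p`, `z p = z x - 3 λ`. -/
theorem crf_dn1 (hz : z p = z x - 3 * lam) (hY : Y.Nodup) (hs : ∀ k ∈ Y, sin (z p - z k) ≠ 0)
    (hS : (EL z Y).Perm S) (n : ℕ) :
    exp (I * (z x - 3 * lam)) ^ n * crf (fun i => -z i) x p Y.toFinset =
      2 * 4 ^ Y.length * _root_.TC.dn th n (exp (I * z x)) S := by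
  rw [dnC hY hS, crf_eq' (by rw [hz]; ring) (fun k hk => by
    rw [← neg_ne_zero, ← Complex.sin_neg, show -(-z p - -z k) = z p - z k by ring]
    exact hs k (List.mem_toFinset.1 hk)), List.toFinset_card_of_nodup hY]
  have e1 : ∏ k ∈ Y.toFinset, (Fm.Dn (- -z x - -z k) * Fm.Dn (- -z x + -z k)) =
      ∏ k ∈ Y.toFinset, (Fm.Dn (z x - z k) * Fm.Dn (z x + z k)) :=
    Finset.prod_congr rfl fun k _ => by
      rw [show - -z x - -z k = z x + z k by ring, show - -z x + -z k = z x - z k by ring, mul_comm]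
  rw [e1, sub_neg_eq_add, ← sub_eq_add_neg]
  ring

/-- Second disc, `x` directly below `h`, `z h = z x + 3 λ`. -/
theorem crf_up2 {h : α} (hz : z h = z x + 3 * lam) (hY : Y.Nodup)
    (hs : ∀ k ∈ Y, sin (z h - z k) ≠ 0) (hS : (EL z Y).Perm S) (n : ℕ) :
    exp (I * (z x + 3 * lam)) ^ n * crf z x h Y.toFinset =
      2 * 4 ^ Y.length * _root_.TC.up th n (exp (I * z x)) S := by
  rw [upC hY hS, crf_eq' (by rw [hz]; ring) (fun k hk => hs k (List.mem_toFinset.1 hk)),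
    List.toFinset_card_of_nodup hY]
  have e1 : ∏ k ∈ Y.toFinset, (Fm.Dn (-z x - z k) * Fm.Dn (-z x + z k)) =
      ∏ k ∈ Y.toFinset, (Fm.Dn (z k - z x) * Fm.Dn (-z k - z x)) :=
    Finset.prod_congr rfl fun k _ => by
      rw [show -z x - z k = -z k - z x by ring, show -z x + z k = z k - z x by ring, mul_comm]
  rw [e1]
  ring

/-- Second disc, `h` directly below `y`, `z h = z y - 3 λ`. -/
theorem crf_dn2 {h : α} (hz : z h = z y - 3 * lam) (hY : Y.Nodup)
    (hs : ∀ k ∈ Y, sin (z y - z k) ≠ 0) (hS : (EL z Y).Perm S) (n : ℕ) :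
    exp (I * (z y - 3 * lam)) ^ n * crf z h y Y.toFinset =
      2 * 4 ^ Y.length * _root_.TC.dn th n (exp (I * z y)) S := by
  rw [dnC hY hS, crf_eq hz (fun k hk => hs k (List.mem_toFinset.1 hk)),
    List.toFinset_card_of_nodup hY]
  ring

/-! ### Fusion -/

theorem rt_xh : NUMv.rt * xh = 2 * Fr.c3 := by
  have h1 : NUMv.rt = 2 * Fr.s2 := by
    unfold NUMv.rt Fr.s2
    rw [show (2 : ℂ) * lam = ((Real.pi / 4 : ℝ) : ℂ) by unfold Fm.lam; push_cast; ring,
      ← Complex.ofReal_sin, Real.sin_pi_div_four]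
    push_cast
    ring
  rw [h1, mul_assoc, s2_xh]

/-- the factor of the fusion to the rapidity `ζ` -/
theorem fuf_eq (hY : Y.Nodup) (hS : (EL z Y).Perm S) (ζ : ℂ) :
    fuf ζ z Y.toFinset * xh = 2 * 2 ^ Y.length * _root_.TC.fu th (exp (I * ζ)) S := by
  have h8 : (8 : ℂ) * lam = Real.pi := by
    unfold Fm.lam
    ring
  unfold _root_.TC.fu fuf
  rw [← (hS.map _).prod_eq, prod_EL _ hY]
  have e1 : sn th 1 1 = Fr.c3 := by
    rw [← te_one]
    exact te_s1 (Or.inl rfl)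
  have e2 : _root_.TC.c5 th (exp (I * ζ)) = NUMv.cc ζ + Fr.c3 := by
    unfold _root_.TC.c5 NUMv.cc Fr.c3
    have e3 : exp (I * ζ) ^ 2 = NUTP.ea (2 * ζ) := by
      rw [show (2 : ℂ) * ζ = ((2 : ℕ) : ℂ) * ζ by norm_num, NUTP.ea_nat]
      rfl
    rw [e3, NUTP.cs_ea, NUTP.th_pow, NUTP.cs_ea, lam_eq]
    rw [show ((5 : ℕ) : ℂ) * lam = Real.pi - 3 * lam by rw [← h8]; push_cast; ring,
      Complex.cos_pi_sub]
    ring
  have e4 : ∏ k ∈ Y.toFinset, (cs (exp (I * ζ) / exp (I * z k)) * cs (exp (I * ζ) * exp (I * z k))) =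
      ∏ k ∈ Y.toFinset, ((2 : ℂ)⁻¹ * (NUMv.cc ζ + NUMv.cc (z k))) := by
    refine Finset.prod_congr rfl fun k _ => ?_
    have e5 : cs (exp (I * ζ) / exp (I * z k)) = cos (ζ - z k) := by
      have : exp (I * ζ) / exp (I * z k) = NUTP.ea (ζ - z k) := by
        rw [NUTP.ea_sub]
        rfl
      rw [this, NUTP.cs_ea]
    have e6 : cs (exp (I * ζ) * exp (I * z k)) = cos (ζ + z k) := by
      have : exp (I * ζ) * exp (I * z k) = NUTP.ea (ζ + z k) := by
        rw [NUTP.ea_add]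
        rfl
      rw [this, NUTP.cs_ea]
    rw [e5, e6]
    unfold NUMv.cc
    have a1 := Complex.cos_add (ζ - z k) (ζ + z k)
    have a2 := Complex.cos_sub (ζ - z k) (ζ + z k)
    rw [show ζ - z k + (ζ + z k) = 2 * ζ by ring] at a1
    rw [show ζ - z k - (ζ + z k) = -(2 * z k) by ring, Complex.cos_neg] at a2
    linear_combination (-(1 / 2 : ℂ)) * a1 - (1 / 2) * a2
  rw [e1, e2, e4, Finset.prod_mul_distrib, Finset.prod_const, List.toFinset_card_of_nodup hY]
  have h2 : (2 : ℂ) ^ Y.length * (2 : ℂ)⁻¹ ^ Y.length = 1 := by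
    rw [← mul_pow]
    norm_num
  have h3 := rt_xh
  linear_combination ((NUMv.cc ζ + Fr.c3) * ∏ k ∈ Y.toFinset, (NUMv.cc ζ + NUMv.cc (z k))) * h3 -
    (2 * Fr.c3 * (NUMv.cc ζ + Fr.c3) * ∏ k ∈ Y.toFinset, (NUMv.cc ζ + NUMv.cc (z k))) * h2

omit [DecidableEq α] in
/-- the factor is the same for the two discs -/
theorem fuf_neg (ζ : ℂ) (Y : Finset α) : fuf (-ζ) (fun i => -z i) Y = fuf ζ z Y := by
  unfold fuf NUMv.cc
  have e : ∀ x : ℂ, cos (2 * -x) = cos (2 * x) := fun x => by rw [mul_neg, Complex.cos_neg]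
  simp only [e]

end Pool.Agent.TC
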