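import Pool.Agent.NUCR.Prof

/-!
# Profiles of the currents with the apex anywhere in the inner half (type C, folded gas)

The landed profiles `NUCR.jU`, `NUCR.jD` are used with the apex at a relative depth up to `3 / 4` (landed: `5 / 8`).
Same proofs as in `NUCR.Prof`, other constants.
-/

set_option autoImplicit false

open MeasureTheory Set

noncomputable section

namespace TCCur

open NUCR

/-! ### The upper line -/

section upper

variable {D eta ts : ℝ}

theorem pU_leH (hD : 1 ≤ D) (h1 : -(D / 2) ≤ ts) : pU D ts ≤ 3 / 4 := by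
  unfold pU
  rw [div_le_iff₀ (by linarith)]
  linarith

theorem aU_mulH (hD : 1 ≤ D) (h1 : -(D / 2) ≤ ts) : aU D eta ts * (D + ts) = eta * (1 + pU D ts) := by
  unfold aU
  have : D + ts ≠ 0 := by linarith
  field_simp

theorem aU_absH (hD : 1 ≤ D) (h1 : -(D / 2) ≤ ts) (h2 : ts ≤ D) :
    |aU D eta ts| + |eta / (2 * D)| ≤ 4 * (|eta| / D) := by
  have p0 := pU_nonneg hD h2
  have p1 := pU_leH hD h1
  have e1 : |aU D eta ts| = |eta| * (1 + pU D ts) / (D + ts) := by
    unfold aU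
    rw [abs_div, abs_mul, abs_of_nonneg (show 0 ≤ 1 + pU D ts by linarith),
      abs_of_nonneg (show 0 ≤ D + ts by linarith)]
  have e2 : |eta / (2 * D)| = |eta| / (2 * D) := by
    rw [abs_div, abs_of_nonneg (show 0 ≤ 2 * D by linarith)]
  have b1 : |eta| * (1 + pU D ts) / (D + ts) ≤ |eta| * (7 / 4) / (D / 2) := by
    have := abs_nonneg eta
    gcongr
    · linarith
    · linarith
  have e3 : |eta| * (7 / 4) / (D / 2) = 7 / 2 * (|eta| / D) := by field_simp; ring
  have e4 : |eta| / (2 * D) = 1 / 2 * (|eta| / D) := by field_simp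
  rw [e1, e2]
  linarith [b1, e3.le, e4.le]

theorem jU_rightH (hD : 1 ≤ D) (h1 : -(D / 2) ≤ ts) (h2 : ts ≤ D) {t : ℝ} (h : D + 1 ≤ t) :
    jU D eta ts t = eta := by
  unfold jU
  rw [j3_right (by linarith) h2 h, aU_mulH hD h1, cU_mul hD]
  ring

/-- derivatives of order `1 .. 4` (any fixed order) are `O(|eta| / D)`, uniformly -/
theorem jU_iterH (n : ℕ) : ∃ C, 1 ≤ C ∧ ∀ D eta ts : ℝ, 1 ≤ D → -(D / 2) ≤ ts → ts ≤ D →
    ∀ k, 1 ≤ k → k ≤ n → ∀ t, |iteratedDeriv k (jU D eta ts) t| ≤ C * (|eta| / D) := by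
  obtain ⟨C, hC1, hC⟩ := j3_iter_le n
  refine ⟨C * 4, by linarith, fun D eta ts hD h1 h2 k hk1 hk2 t => ?_⟩
  refine (hC D ts (aU D eta ts) (eta / (2 * D)) k hk1 hk2 t).trans ?_
  have := aU_absH (eta := eta) hD h1 h2
  have h0 : 0 ≤ |eta| / D := div_nonneg (abs_nonneg _) (by linarith)
  nlinarith

theorem lU_atH (hD : 1 ≤ D) (h1 : -(D / 2) ≤ ts) (h2 : ts ≤ D) :
    lU D eta ts ts = eta * (1 + pU D ts) := by
  rw [lU_of_le (by linarith) le_rfl h2, add_comm ts D, aU_mulH hD h1]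

/-- in units of `eta`: the piecewise linear function is between `0` and `1 + p`, and at least `1`
right of the apex -/
theorem lU_etaH (hD : 1 ≤ D) (h1 : -(D / 2) ≤ ts) (h2 : ts ≤ D) (t : ℝ) :
    ∃ x, lU D eta ts t = eta * x ∧ 0 ≤ x ∧ x ≤ 1 + pU D ts ∧ (ts ≤ t → 1 ≤ x) := by
  have p0 := pU_nonneg hD h2
  have hp : 0 < D + ts := by linarith
  rcases le_total t (-D) with h | h
  · refine ⟨0, ?_, le_rfl, by linarith, fun h' => by linarith⟩
    unfold lU l3
    rw [max_eq_right (by linarith), max_eq_right (by linarith), max_eq_right (by linarith)]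
    ring
  rcases le_total t ts with h' | h'
  · refine ⟨(1 + pU D ts) * ((t + D) / (D + ts)), ?_, ?_, ?_, ?_⟩
    · rw [lU_of_le h h' h2]
      unfold aU
      field_simp
    · have : 0 ≤ (t + D) / (D + ts) := div_nonneg (by linarith) hp.le
      positivity
    · have : (t + D) / (D + ts) ≤ 1 := by rw [div_le_one hp]; linarith
      nlinarith
    · intro h3
      have : t = ts := le_antisymm h' h3
      subst this
      rw [add_comm t D, div_self hp.ne']
      linarith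
  rcases le_total t D with h'' | h''
  · refine ⟨1 + pU D ts - (t - ts) / (2 * D), ?_, ?_, ?_, ?_⟩
    · unfold lU l3
      rw [max_eq_left (by linarith), max_eq_left (by linarith), max_eq_right (by linarith)]
      have e := aU_mulH (eta := eta) hD h1
      have : aU D eta ts * (t + D) - (aU D eta ts + eta / (2 * D)) * (t - ts)
          + eta / (2 * D) * 0 = aU D eta ts * (D + ts) - eta / (2 * D) * (t - ts) := by ring
      rw [this, e]
      field_simp
    · have : (t - ts) / (2 * D) ≤ pU D ts := by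
        unfold pU
        gcongr
      linarith
    · have : 0 ≤ (t - ts) / (2 * D) := div_nonneg (by linarith) (by linarith)
      linarith
    · intro _
      have : (t - ts) / (2 * D) ≤ pU D ts := by
        unfold pU
        gcongr
      linarith
  · refine ⟨1, ?_, by norm_num, by linarith, fun _ => le_rfl⟩
    unfold lU l3
    rw [max_eq_left (by linarith), max_eq_left (by linarith), max_eq_left (by linarith)]
    have e := aU_mulH (eta := eta) hD h1
    have e2 := cU_mul (eta := eta) (ts := ts) hD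
    have : aU D eta ts * (t + D) - (aU D eta ts + eta / (2 * D)) * (t - ts)
        + eta / (2 * D) * (t - D) = aU D eta ts * (D + ts) - eta / (2 * D) * (D - ts) := by ring
    rw [this, e, e2]
    ring

/-- the smooth upper line is between `0` and `eta (1 + p)` (for `eta >= 0`) -/
theorem jU_memH (hD : 1 ≤ D) (h1 : -(D / 2) ≤ ts) (h2 : ts ≤ D) (h0 : 0 ≤ eta) (t : ℝ) :
    0 ≤ jU D eta ts t ∧ jU D eta ts t ≤ eta * (1 + pU D ts) := by
  refine j3_mem (fun t => ?_) t
  obtain ⟨x, hx, x0, x1, -⟩ := lU_etaH (eta := eta) hD h1 h2 t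
  change 0 ≤ lU D eta ts t ∧ lU D eta ts t ≤ eta * (1 + pU D ts)
  rw [hx]
  exact ⟨mul_nonneg h0 x0, mul_le_mul_of_nonneg_left x1 h0⟩

theorem jU_le_twoH (hD : 1 ≤ D) (h1 : -(D / 2) ≤ ts) (h2 : ts ≤ D) (h0 : 0 ≤ eta) (t : ℝ) :
    jU D eta ts t ≤ 2 * eta := by
  have := (jU_memH hD h1 h2 h0 t).2
  have p1 := pU_leH hD h1
  nlinarith

/-- the energy of the upper line -/
theorem jU_energyH (hD : 1 ≤ D) (h1 : -(D / 2) ≤ ts) (h2 : ts ≤ D) :
    ∫ t, deriv (jU D eta ts) t ^ 2 ≤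
      eta ^ 2 * (1 + pU D ts) ^ 2 / (2 * D * (1 - pU D ts)) + eta ^ 2 * pU D ts / (2 * D) := by
  have e0 : deriv (jU D eta ts) = d3 D ts (aU D eta ts) (eta / (2 * D)) :=
    funext fun t => (j3_deriv _ _ _ _ t).deriv
  rw [e0]
  refine (d3_energy (by linarith) h2).trans (le_of_eq ?_)
  rw [one_sub_pU hD]
  have h3 : D + ts ≠ 0 := by linarith
  have e1 : aU D eta ts ^ 2 * (D + ts) = eta ^ 2 * (1 + pU D ts) ^ 2 / (D + ts) := by
    unfold aU
    field_simp
  have e2 : (eta / (2 * D)) ^ 2 * (D - ts) = eta ^ 2 * pU D ts / (2 * D) := by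
    unfold pU
    field_simp
  have e3 : 2 * D * ((D + ts) / (2 * D)) = D + ts := by field_simp
  rw [e1, e2, e3]

/-- the energy of the upper line, short form -/
theorem jU_energyPH (hD : 1 ≤ D) (h1 : -(D / 2) ≤ ts) (h2 : ts ≤ D) :
    ∫ t, deriv (jU D eta ts) t ^ 2 ≤
      eta ^ 2 / (2 * D) * (1 + 4 * pU D ts / (1 - pU D ts)) := by
  refine (jU_energyH hD h1 h2).trans (le_of_eq ?_)
  have p1 := pU_leH hD h1
  have h3 : 1 - pU D ts ≠ 0 := by linarith
  have h4 : D ≠ 0 := by linarith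
  field_simp
  ring

variable {kap : ℝ → ℝ} {M : ℝ}

/-- smeared upper line against the piecewise linear one -/
theorem jU_smearH (hD : 1 ≤ D) (h1 : -(D / 2) ≤ ts) (h2 : ts ≤ D)
    (hi : Integrable kap) (hk1 : ∫ u, kap u = 1)
    (hm : Integrable (fun u => |u| * |kap u|)) (hM : ∫ u, |u| * |kap u| ≤ M) (hM0 : 0 ≤ M) (t : ℝ) :
    |(∫ u, kap u * jU D eta ts (t - u)) - lU D eta ts t| ≤ 4 * (|eta| / D) * (M + 2) := by
  refine (j3_smear (by linarith) h2 hi hk1 hm hM t).2.trans ?_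
  exact mul_le_mul_of_nonneg_right (aU_absH hD h1 h2) (by linarith)

/-- `Jt~ >= - C` everywhere, `Jt~ >= eta - C` right of the apex, `Jt~ >= eta (1 + p) - C` at it -/
theorem jU_smear_geH (hD : 1 ≤ D) (h1 : -(D / 2) ≤ ts) (h2 : ts ≤ D) (h0 : 0 ≤ eta)
    (hi : Integrable kap) (hk1 : ∫ u, kap u = 1)
    (hm : Integrable (fun u => |u| * |kap u|)) (hM : ∫ u, |u| * |kap u| ≤ M) (hM0 : 0 ≤ M) (t : ℝ) :
    -(4 * (eta / D) * (M + 2)) ≤ (∫ u, kap u * jU D eta ts (t - u)) ∧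
    (ts ≤ t → eta - 4 * (eta / D) * (M + 2) ≤ ∫ u, kap u * jU D eta ts (t - u)) ∧
    (t = ts → eta * (1 + pU D ts) - 4 * (eta / D) * (M + 2) ≤
      ∫ u, kap u * jU D eta ts (t - u)) := by
  have b := jU_smearH (eta := eta) hD h1 h2 hi hk1 hm hM hM0 t
  rw [abs_of_nonneg h0, abs_le] at b
  obtain ⟨x, hx, x0, -, x2⟩ := lU_etaH (eta := eta) hD h1 h2 t
  refine ⟨?_, fun ht => ?_, fun ht => ?_⟩
  · have : 0 ≤ eta * x := mul_nonneg h0 x0
    linarith
  · have : eta * 1 ≤ eta * x := mul_le_mul_of_nonneg_left (x2 ht) h0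
    linarith
  · subst ht
    have := lU_atH (eta := eta) hD h1 h2
    linarith

end upper

/-! ### The mirror image (lower line) -/

section lower

variable {D eta ts : ℝ}

theorem jD_leftH (hD : 1 ≤ D) (h1 : -D ≤ ts) (h2 : ts ≤ D / 2) {t : ℝ} (h : t ≤ -D - 1) :
    jD D eta ts t = 0 := by
  unfold jD
  rw [jU_rightH hD (by linarith) (by linarith) (by linarith)]
  ring

theorem jD_rightH (hD : 1 ≤ D) (h1 : -D ≤ ts) (h2 : ts ≤ D / 2) {t : ℝ} (h : D + 1 ≤ t) :
    jD D eta ts t = eta := by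
  unfold jD
  rw [jU_left (by linarith) (by linarith) (by linarith)]
  ring

theorem jD_iterH (n : ℕ) : ∃ C, 1 ≤ C ∧ ∀ D eta ts : ℝ, 1 ≤ D → -D ≤ ts → ts ≤ D / 2 →
    ∀ k, 1 ≤ k → k ≤ n → ∀ t, |iteratedDeriv k (jD D eta ts) t| ≤ C * (|eta| / D) := by
  obtain ⟨C, hC1, hC⟩ := jU_iterH n
  refine ⟨C, hC1, fun D eta ts hD h1 h2 k hk1 hk2 t => ?_⟩
  have h3 := hC D (-eta) (-ts) hD (by linarith) (by linarith) k hk1 hk2 (-t)
  rw [abs_neg] at h3
  have e1 : jD D eta ts = (fun t => jU D (-eta) (-ts) (-t)) + fun _ => eta := rfl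
  have c1 : ContDiff ℝ k (fun t => jU D (-eta) (-ts) (-t)) := (jU_smooth k).comp contDiff_neg
  have c2 : ContDiff ℝ k (fun _ : ℝ => eta) := contDiff_const
  have e2 : iteratedDeriv k (fun _ : ℝ => eta) t = 0 := by
    have : k ≠ 0 := by omega
    rw [iteratedDeriv_const]
    simp [this]
  rw [e1, iteratedDeriv_add c1.contDiffAt c2.contDiffAt, iteratedDeriv_comp_neg, e2, add_zero,
    smul_eq_mul, abs_mul, abs_pow, abs_neg, abs_one, one_pow, one_mul]
  exact h3

/-- the energy of the lower line -/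
theorem jD_energyH (hD : 1 ≤ D) (h1 : -D ≤ ts) (h2 : ts ≤ D / 2) :
    ∫ t, deriv (jD D eta ts) t ^ 2 ≤
      eta ^ 2 / (2 * D) * (1 + 4 * pU D (-ts) / (1 - pU D (-ts))) := by
  have h3 := jU_energyPH (eta := -eta) hD (ts := -ts) (by linarith) (by linarith)
  rw [neg_sq] at h3
  refine le_trans (le_of_eq ?_) h3
  rw [← integral_neg_eq_self (fun t => deriv (jU D (-eta) (-ts)) t ^ 2)]
  congr 1
  funext t
  rw [jD_deriv, neg_sq]

theorem jD_memH (hD : 1 ≤ D) (h1 : -D ≤ ts) (h2 : ts ≤ D / 2) (h0 : eta ≤ 0) (t : ℝ) :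
    eta ≤ jD D eta ts t ∧ jD D eta ts t ≤ 2 * |eta| := by
  have h3 := jU_memH (eta := -eta) hD (ts := -ts) (by linarith) (by linarith) (by linarith) (-t)
  have h4 := jU_le_twoH (eta := -eta) hD (ts := -ts) (by linarith) (by linarith) (by linarith) (-t)
  rw [abs_of_nonpos h0]
  unfold jD
  exact ⟨by linarith, by linarith⟩

theorem jD_lipH (hD : 1 ≤ D) (h1 : -D ≤ ts) (h2 : ts ≤ D / 2) (x y : ℝ) :
    |jD D eta ts x - jD D eta ts y| ≤ 4 * (|eta| / D) * |x - y| := by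
  have h3 := j3_lip (D := D) (ts := -ts) (a := aU D (-eta) (-ts)) (c := -eta / (2 * D))
    (by linarith) (by linarith) (-x) (-y)
  have h4 := aU_absH (eta := -eta) hD (ts := -ts) (by linarith) (by linarith)
  rw [abs_neg] at h4
  have e : jD D eta ts x - jD D eta ts y = j3 D (-ts) (aU D (-eta) (-ts)) (-eta / (2 * D)) (-x)
      - j3 D (-ts) (aU D (-eta) (-ts)) (-eta / (2 * D)) (-y) := by
    unfold jD jU; ring
  have e2 : |(-x) - (-y)| = |x - y| := by rw [← abs_neg]; ring_nf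
  rw [e]
  rw [e2] at h3
  exact h3.trans (mul_le_mul_of_nonneg_right h4 (abs_nonneg _))

theorem jD_subH (hD : 1 ≤ D) (h1 : -D ≤ ts) (h2 : ts ≤ D / 2) (t : ℝ) :
    |jD D eta ts t - lD D eta ts t| ≤ 4 * (|eta| / D) * 2 := by
  have h3 := j3_sub D (-ts) (aU D (-eta) (-ts)) (-eta / (2 * D)) (-t)
  have h4 := aU_absH (eta := -eta) hD (ts := -ts) (by linarith) (by linarith)
  rw [abs_neg] at h4
  have e : jD D eta ts t - lD D eta ts t = j3 D (-ts) (aU D (-eta) (-ts)) (-eta / (2 * D)) (-t)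
      - l3 D (-ts) (aU D (-eta) (-ts)) (-eta / (2 * D)) (-t) := by
    unfold jD jU lD lU; ring
  rw [e]
  linarith

/-- values of the piecewise linear lower line: `eta <= l` everywhere, `0 <= l` left of the
apex, `|eta| p (-ts)` at the apex (for `eta <= 0`) -/
theorem lD_valH (hD : 1 ≤ D) (h1 : -D ≤ ts) (h2 : ts ≤ D / 2) (h0 : eta ≤ 0) (t : ℝ) :
    eta ≤ lD D eta ts t ∧ (t ≤ ts → 0 ≤ lD D eta ts t) ∧
    lD D eta ts ts = |eta| * pU D (-ts) := by
  obtain ⟨x, hx, x0, -, x2⟩ := lU_etaH (eta := -eta) hD (ts := -ts) (by linarith) (by linarith) (-t)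
  refine ⟨?_, fun ht => ?_, ?_⟩
  · unfold lD
    rw [hx]
    have : 0 ≤ -eta * x := mul_nonneg (by linarith) x0
    linarith
  · unfold lD
    rw [hx]
    have : -eta * 1 ≤ -eta * x := mul_le_mul_of_nonneg_left (x2 (by linarith)) (by linarith)
    linarith
  · unfold lD
    rw [lU_atH hD (by linarith) (by linarith), abs_of_nonpos h0]
    ring

variable {kap : ℝ → ℝ} {M : ℝ}

theorem jD_smearH (hD : 1 ≤ D) (h1 : -D ≤ ts) (h2 : ts ≤ D / 2)
    (hi : Integrable kap) (hk1 : ∫ u, kap u = 1)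
    (hm : Integrable (fun u => |u| * |kap u|)) (hM : ∫ u, |u| * |kap u| ≤ M) (t : ℝ) :
    Integrable (fun u => kap u * jD D eta ts (t - u)) ∧
    |(∫ u, kap u * jD D eta ts (t - u)) - lD D eta ts t| ≤ 4 * (|eta| / D) * (M + 2) := by
  have hK : 0 ≤ 4 * (|eta| / D) := by
    have : 0 ≤ |eta| / D := div_nonneg (abs_nonneg _) (by linarith)
    positivity
  obtain ⟨i1, b1⟩ := smear (f := jD D eta ts) (K := 4 * (|eta| / D)) (jD_lipH hD h1 h2)
    hi hk1 hm hM hK t
  refine ⟨i1, ?_⟩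
  have b2 := jD_subH (eta := eta) hD h1 h2 t
  have e : (∫ u, kap u * jD D eta ts (t - u)) - lD D eta ts t =
      ((∫ u, kap u * jD D eta ts (t - u)) - jD D eta ts t)
        + (jD D eta ts t - lD D eta ts t) := by ring
  rw [e]
  refine (abs_add_le _ _).trans ?_
  linarith

/-- for `eta <= 0`: `Jt~ >= eta - c` everywhere, `Jt~ >= - c` left of the apex,
`Jt~ >= |eta| p (-ts) - c` at the apex -/
theorem jD_smear_geH (hD : 1 ≤ D) (h1 : -D ≤ ts) (h2 : ts ≤ D / 2) (h0 : eta ≤ 0)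
    (hi : Integrable kap) (hk1 : ∫ u, kap u = 1)
    (hm : Integrable (fun u => |u| * |kap u|)) (hM : ∫ u, |u| * |kap u| ≤ M) (t : ℝ) :
    eta - 4 * (|eta| / D) * (M + 2) ≤ (∫ u, kap u * jD D eta ts (t - u)) ∧
    (t ≤ ts → -(4 * (|eta| / D) * (M + 2)) ≤ ∫ u, kap u * jD D eta ts (t - u)) ∧
    (t = ts → |eta| * pU D (-ts) - 4 * (|eta| / D) * (M + 2) ≤
      ∫ u, kap u * jD D eta ts (t - u)) := by
  have b := (jD_smearH (eta := eta) hD h1 h2 hi hk1 hm hM t).2
  rw [abs_le] at b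
  obtain ⟨v1, v2, v3⟩ := lD_valH hD h1 h2 h0 t
  refine ⟨by linarith, fun ht => ?_, fun ht => ?_⟩
  · have := v2 ht
    linarith
  · subst ht
    linarith

end lower

end TCCur
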