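import Pool.Agent.NUCR.Conf
import Pool.Agent.TC.CurP

/-!
# The pointwise bound for a configuration of objects, the cut at a parameter (type C, folded gas)

As `NUCR.conf`, but the cut is at the relative depth `x` (height `q = D (1 - 2 x)` in the centred coordinate), the
range of the current is `- (x + d) pi X <= eta <= (1 - x + d) pi X` (loss `12 pi^2 d X`), the windings are at most `W`.
-/

set_option autoImplicit false

open MeasureTheory Set

noncomputable section

namespace TCCur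

open NUCR

/-- admissible positions of the apex, cut at the height `q`. -/
def AdmC (D q eta ts : ℝ) : Prop :=
  (0 ≤ eta ∧ q ≤ ts ∧ ts ≤ D) ∨ (eta < 0 ∧ -D ≤ ts ∧ ts ≤ q)

/-- the cut is in the inner half. -/
structure Cut (D q : ℝ) : Prop where
  one : 1 ≤ D
  lo : -(D / 2) ≤ q
  hi : q ≤ D / 2

section apex

variable {ι : Type*}

/-- the lowest flat object right of the cut. -/
theorem exists_apexUq (s : Finset ι) (fl : ι → Prop) (t : ι → ℝ) {D q : ℝ} (hq : q ≤ D) :
    ∃ ts, q ≤ ts ∧ ts ≤ D ∧ (∀ i ∈ s, fl i → q < t i → ts ≤ t i) ∧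
      (ts = D ∨ ∃ i ∈ s, fl i ∧ q < t i ∧ t i = ts) := by
  classical
  obtain ⟨A, hA⟩ : ∃ A : Finset ℝ, A = insert D ((s.filter fun i => fl i ∧ q < t i).image t) :=
    ⟨_, rfl⟩
  have hD' : D ∈ A := by rw [hA]; exact Finset.mem_insert_self _ _
  obtain ⟨m, hm⟩ : ∃ m, m = A.min' ⟨D, hD'⟩ := ⟨_, rfl⟩
  have hm1 : m ∈ A := by rw [hm]; exact A.min'_mem _
  have hm2 : ∀ x ∈ A, m ≤ x := fun x hx => by rw [hm]; exact A.min'_le x hx
  have hm3 : m = D ∨ ∃ i ∈ s, fl i ∧ q < t i ∧ t i = m := by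
    rw [hA, Finset.mem_insert, Finset.mem_image] at hm1
    rcases hm1 with h | ⟨i, hi, h⟩
    · exact Or.inl h
    · obtain ⟨h1, h2, h3⟩ := Finset.mem_filter.1 hi
      exact Or.inr ⟨i, h1, h2, h3, h⟩
  refine ⟨m, ?_, hm2 D hD', fun i hi h1 h2 => hm2 _ ?_, hm3⟩
  · rcases hm3 with h | ⟨i, -, -, h1, h⟩ <;> linarith
  · rw [hA]
    exact Finset.mem_insert_of_mem (Finset.mem_image_of_mem t (Finset.mem_filter.2 ⟨hi, h1, h2⟩))

/-- the highest flat object left of the cut. -/
theorem exists_apexDq (s : Finset ι) (fl : ι → Prop) (t : ι → ℝ) {D q : ℝ} (hq : -D ≤ q) :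
    ∃ ts, -D ≤ ts ∧ ts ≤ q ∧ (∀ i ∈ s, fl i → t i ≤ q → t i ≤ ts) ∧
      (ts = -D ∨ ∃ i ∈ s, fl i ∧ t i ≤ q ∧ t i = ts) := by
  classical
  obtain ⟨A, hA⟩ : ∃ A : Finset ℝ, A = insert (-D) ((s.filter fun i => fl i ∧ t i ≤ q).image t) :=
    ⟨_, rfl⟩
  have hD' : -D ∈ A := by rw [hA]; exact Finset.mem_insert_self _ _
  obtain ⟨m, hm⟩ : ∃ m, m = A.max' ⟨-D, hD'⟩ := ⟨_, rfl⟩
  have hm1 : m ∈ A := by rw [hm]; exact A.max'_mem _
  have hm2 : ∀ x ∈ A, x ≤ m := fun x hx => by rw [hm]; exact A.le_max' x hx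
  have hm3 : m = -D ∨ ∃ i ∈ s, fl i ∧ t i ≤ q ∧ t i = m := by
    rw [hA, Finset.mem_insert, Finset.mem_image] at hm1
    rcases hm1 with h | ⟨i, hi, h⟩
    · exact Or.inl h
    · obtain ⟨h1, h2, h3⟩ := Finset.mem_filter.1 hi
      exact Or.inr ⟨i, h1, h2, h3, h⟩
  refine ⟨m, hm2 _ hD', ?_, fun i hi h1 h2 => hm2 _ ?_, hm3⟩
  · rcases hm3 with h | ⟨i, -, -, h1, h⟩ <;> linarith
  · rw [hA]
    exact Finset.mem_insert_of_mem (Finset.mem_image_of_mem t (Finset.mem_filter.2 ⟨hi, h1, h2⟩))

end apex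

/-- the smearing loss of the profile. -/
def cSq (D eta M : ℝ) : ℝ := 4 * (|eta| / D) * (M + 2)

section profile

variable {D q eta ts : ℝ}

theorem cSq_nonneg {M : ℝ} (hD : 1 ≤ D) (hM : 0 ≤ M) : 0 ≤ cSq D eta M := by
  unfold cSq
  have : 0 ≤ |eta| / D := div_nonneg (abs_nonneg _) (by linarith)
  positivity

theorem Jt_leftC (hc : Cut D q) (h : AdmC D q eta ts) {t : ℝ} (ht : t ≤ -D - 1) :
    Jt D eta ts t = 0 := by
  have hD := hc.one
  have h3 := hc.lo
  have h4 := hc.hi
  unfold Jt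
  rcases h with ⟨h0, h1, h2⟩ | ⟨h0, h1, h2⟩
  · rw [if_pos h0]
    exact jU_left (by linarith) h2 ht
  · rw [if_neg (not_le.2 h0)]
    exact jD_leftH hD h1 (by linarith) ht

theorem Jt_rightC (hc : Cut D q) (h : AdmC D q eta ts) {t : ℝ} (ht : D + 1 ≤ t) :
    Jt D eta ts t = eta := by
  have hD := hc.one
  have h3 := hc.lo
  have h4 := hc.hi
  unfold Jt
  rcases h with ⟨h0, h1, h2⟩ | ⟨h0, h1, h2⟩
  · rw [if_pos h0]
    exact jU_rightH hD (by linarith) h2 ht
  · rw [if_neg (not_le.2 h0)]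
    exact jD_rightH hD h1 (by linarith) ht

theorem Jt_absC (hc : Cut D q) (h : AdmC D q eta ts) (t : ℝ) : |Jt D eta ts t| ≤ 2 * |eta| := by
  have hD := hc.one
  have h3 := hc.lo
  have h4 := hc.hi
  unfold Jt
  rcases h with ⟨h0, h1, h2⟩ | ⟨h0, h1, h2⟩
  · rw [if_pos h0, abs_of_nonneg h0, abs_of_nonneg (jU_memH hD (by linarith) h2 h0 t).1]
    exact jU_le_twoH hD (by linarith) h2 h0 t
  · rw [if_neg (not_le.2 h0), abs_le]
    have := jD_memH hD h1 (by linarith) h0.le t
    rw [abs_of_neg h0] at this ⊢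
    exact ⟨by linarith, by linarith⟩

theorem Jt_iterC (n : ℕ) : ∃ C, 1 ≤ C ∧ ∀ D q eta ts : ℝ, Cut D q → AdmC D q eta ts →
    ∀ k, 1 ≤ k → k ≤ n → ∀ t, |iteratedDeriv k (Jt D eta ts) t| ≤ C * (|eta| / D) := by
  obtain ⟨C1, h1, H1⟩ := jU_iterH n
  obtain ⟨C2, h2, H2⟩ := jD_iterH n
  refine ⟨max C1 C2, le_max_of_le_left h1, fun D q eta ts hc h k hk1 hk2 t => ?_⟩
  have hD := hc.one
  have h3 := hc.lo
  have h4 := hc.hi
  have h0 : 0 ≤ |eta| / D := div_nonneg (abs_nonneg _) (by linarith)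
  unfold Jt
  rcases h with ⟨a0, a1, a2⟩ | ⟨a0, a1, a2⟩
  · rw [if_pos a0]
    exact (H1 D eta ts hD (by linarith) a2 k hk1 hk2 t).trans
      (mul_le_mul_of_nonneg_right (le_max_left _ _) h0)
  · rw [if_neg (not_le.2 a0)]
    exact (H2 D eta ts hD a1 (by linarith) k hk1 hk2 t).trans
      (mul_le_mul_of_nonneg_right (le_max_right _ _) h0)

theorem pAx_le (hc : Cut D q) (h : AdmC D q eta ts) : pAx D eta ts ≤ 3 / 4 := by
  have hD := hc.one
  have h3 := hc.lo
  have h4 := hc.hi
  unfold pAx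
  rcases h with ⟨a0, a1, a2⟩ | ⟨a0, a1, a2⟩
  · rw [if_pos a0]
    exact pU_leH hD (by linarith)
  · rw [if_neg (not_le.2 a0)]
    exact pU_leH hD (by linarith)

theorem pAx_nonneg (hc : Cut D q) (h : AdmC D q eta ts) : 0 ≤ pAx D eta ts := by
  have hD := hc.one
  have h3 := hc.lo
  have h4 := hc.hi
  unfold pAx
  rcases h with ⟨a0, a1, a2⟩ | ⟨a0, a1, a2⟩
  · rw [if_pos a0]
    exact pU_nonneg hD a2
  · rw [if_neg (not_le.2 a0)]
    exact pU_nonneg hD (by linarith)

theorem Jt_energyC (hc : Cut D q) (h : AdmC D q eta ts) :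
    ∫ t, deriv (Jt D eta ts) t ^ 2 ≤
      eta ^ 2 / (2 * D) * (1 + 4 * pAx D eta ts / (1 - pAx D eta ts)) := by
  have hD := hc.one
  have h3 := hc.lo
  have h4 := hc.hi
  unfold Jt pAx
  rcases h with ⟨a0, a1, a2⟩ | ⟨a0, a1, a2⟩
  · rw [if_pos a0, if_pos a0]
    exact jU_energyPH hD (by linarith) a2
  · rw [if_neg (not_le.2 a0), if_neg (not_le.2 a0)]
    exact jD_energyH hD a1 (by linarith)

/-- the cost of the profile in units of `X = D / kap0`. -/
theorem Jt_costC {X : ℝ} (hc : Cut D q) (hX : 0 < X) (h : AdmC D q eta ts) :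
    D / X * ∫ t, deriv (Jt D eta ts) t ^ 2 ≤ eta ^ 2 / (2 * X)
      + 2 * eta ^ 2 * pAx D eta ts / ((1 - pAx D eta ts) * X) := by
  have hD := hc.one
  have h1 := Jt_energyC hc h
  have hp := pAx_le hc h
  have h2 : 0 ≤ D / X := div_nonneg (by linarith) hX.le
  refine (mul_le_mul_of_nonneg_left h1 h2).trans (le_of_eq ?_)
  have h3 : 1 - pAx D eta ts ≠ 0 := by linarith
  have h4 : D ≠ 0 := by linarith
  field_simp
  ring

end profile

/-- the object at the apex pays for the apex, slightly enlarged range. -/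
theorem netUd {X p nu eta d : ℝ} (hX : 0 < X) (h0 : 0 ≤ eta) (h1 : eta ≤ Real.pi * (1 - p + d) * X)
    (p0 : 0 ≤ p) (p1 : p ≤ 3 / 4) (d0 : 0 ≤ d) (d1 : d ≤ 1) (hnu : 1 ≤ nu) :
    2 * eta ^ 2 * p / ((1 - p) * X) ≤ 2 * Real.pi * nu * eta * p + 12 * Real.pi ^ 2 * d * X := by
  have hpi := Real.pi_pos
  have hp : 0 < 1 - p := by linarith
  have h2 : eta ≤ 2 * Real.pi * X := by
    refine h1.trans ?_
    have : Real.pi * (1 - p + d) * X ≤ Real.pi * 2 * X :=
      mul_le_mul_of_nonneg_right (mul_le_mul_of_nonneg_left (by linarith) hpi.le) hX.le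
    linarith
  rw [div_le_iff₀ (by positivity)]
  have h4 : 2 * eta * p * eta ≤ 2 * eta * p * (Real.pi * (1 - p + d) * X) :=
    mul_le_mul_of_nonneg_left h1 (by positivity)
  have h5 : 2 * Real.pi * eta * p * ((1 - p) * X) ≤ 2 * Real.pi * nu * eta * p * ((1 - p) * X) := by
    have : 0 ≤ 2 * Real.pi * eta * p * ((1 - p) * X) := by positivity
    nlinarith
  have h6 : 2 * eta * p * (Real.pi * d * X) ≤ 12 * Real.pi ^ 2 * d * X * ((1 - p) * X) := by
    have g1 : p ≤ 3 * (1 - p) := by linarith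
    have g2 : eta * p ≤ (2 * Real.pi * X) * (3 * (1 - p)) := mul_le_mul h2 g1 p0 (by positivity)
    have g3 : 0 ≤ 2 * (Real.pi * d * X) := by positivity
    calc 2 * eta * p * (Real.pi * d * X) = (eta * p) * (2 * (Real.pi * d * X)) := by ring
      _ ≤ ((2 * Real.pi * X) * (3 * (1 - p))) * (2 * (Real.pi * d * X)) := mul_le_mul_of_nonneg_right g2 g3
      _ = _ := by ring
  nlinarith

variable {ι : Type*}

/-- **The pointwise bound for a configuration**, cut at the relative depth `x`.  `En ts` is the energy and `lf ts i` the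
logarithm of the factor of the object `i` if the apex of the profile is at `ts`. -/
theorem confq (s : Finset ι) (fl : ι → Prop) (t w : ι → ℝ) (kap : ι → ℝ → ℝ) (Kt nf : ι → ℝ)
    (En : ℝ → ℝ) (lf : ℝ → ι → ℝ) {D q x d X eta M c base W : ℝ} (hc : Cut D q) (hx : q = D * (1 - 2 * x))
    (hX : 0 < X) (hd0 : 0 ≤ d) (hd1 : d ≤ 1) (hη1 : eta ≤ (1 - x + d) * Real.pi * X)
    (hη2 : -((x + d) * Real.pi * X) ≤ eta) (hM : 0 ≤ M)
    (hw : ∀ i ∈ s, fl i → 1 ≤ w i ∧ w i ≤ W) (hk : ∀ i ∈ s, fl i → SD M (kap i))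
    (hEn : ∀ ts, AdmC D q eta ts →
      En ts ≤ base + 2 * eta ^ 2 * pAx D eta ts / ((1 - pAx D eta ts) * X))
    (hL : ∀ ts, AdmC D q eta ts → ∀ i ∈ s, fl i → t i ≤ q →
      lf ts i ≤ c - 2 * Real.pi * w i * (sm (kap i) (Jt D eta ts) (t i) + Kt i))
    (hR : ∀ ts, AdmC D q eta ts → ∀ i ∈ s, fl i → q < t i →
      lf ts i ≤ c - 2 * Real.pi * w i * (sm (kap i) (Jt D eta ts) (t i) + Kt i - eta))
    (hN : ∀ ts, AdmC D q eta ts → ∀ i ∈ s, ¬ fl i → lf ts i ≤ nf i) (g : ι → ℝ)
    (hg1 : ∀ i ∈ s, fl i → c + 2 * Real.pi * W * cSq D eta M - 2 * Real.pi * w i * Kt i ≤ g i)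
    (hg2 : ∀ i ∈ s, ¬ fl i → nf i ≤ g i) :
    ∃ ts, AdmC D q eta ts ∧
      En ts + ∑ i ∈ s, lf ts i ≤ base + 12 * Real.pi ^ 2 * d * X + ∑ i ∈ s, g i := by
  have hD := hc.one
  have hq1 := hc.lo
  have hq2 := hc.hi
  have hpi := Real.pi_pos
  have hcS := cSq_nonneg (eta := eta) hD hM
  have hdX : 0 ≤ 12 * Real.pi ^ 2 * d * X := by positivity
  rcases le_or_gt 0 eta with h0 | h0
  · -- the upper line
    obtain ⟨ts, t1, t2, t3, t4⟩ := exists_apexUq s fl t (D := D) (q := q) (by linarith)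
    have had : AdmC D q eta ts := Or.inl ⟨h0, t1, t2⟩
    have eJ : Jt D eta ts = jU D eta ts := if_pos h0
    have ep : pAx D eta ts = pU D ts := if_pos h0
    have hE := hEn ts had
    rw [ep] at hE
    have hp0 : 0 ≤ pU D ts := pU_nonneg hD t2
    have hp1 : pU D ts ≤ x := by
      unfold pU
      rw [div_le_iff₀ (by linarith)]
      rw [hx] at t1
      linarith
    have hp2 : pU D ts ≤ 3 / 4 := pU_leH hD (by linarith)
    have hsm : ∀ i ∈ s, fl i → -cSq D eta M ≤ sm (kap i) (jU D eta ts) (t i) ∧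
        (ts ≤ t i → eta - cSq D eta M ≤ sm (kap i) (jU D eta ts) (t i)) ∧
        (t i = ts → eta * (1 + pU D ts) - cSq D eta M ≤ sm (kap i) (jU D eta ts) (t i)) := by
      intro i hi hf
      have h := hk i hi hf
      have h2 := jU_smear_geH (eta := eta) hD (by linarith : -(D / 2) ≤ ts) t2 h0 h.int h.mass h.int1 h.mom
        hM (t i)
      unfold cSq
      rw [abs_of_nonneg h0]
      exact h2
    refine ⟨ts, had, ?_⟩
    set P := 2 * eta ^ 2 * pU D ts / ((1 - pU D ts) * X) with hP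
    have key : (P - 12 * Real.pi ^ 2 * d * X) + ∑ i ∈ s, lf ts i ≤ ∑ i ∈ s, g i := by
      refine sum_pay s _ g (fun i hi => ?_) ?_
      · by_cases hf : fl i
        · obtain ⟨w1, w2⟩ := hw i hi hf
          obtain ⟨s1, s2, -⟩ := hsm i hi hf
          have hgi := hg1 i hi hf
          have h5 : 2 * Real.pi * (w i * cSq D eta M) ≤ 2 * Real.pi * (W * cSq D eta M) :=
            mul_le_mul_of_nonneg_left (mul_le_mul_of_nonneg_right w2 hcS) (by positivity)
          rcases le_or_gt (t i) q with hc | hc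
          · have h := hL ts had i hi hf hc
            rw [eJ] at h
            have : 2 * Real.pi * w i * (-cSq D eta M) ≤
                2 * Real.pi * w i * sm (kap i) (jU D eta ts) (t i) :=
              mul_le_mul_of_nonneg_left s1 (by positivity)
            linarith
          · have h := hR ts had i hi hf hc
            rw [eJ] at h
            have s2' := s2 (t3 i hi hf hc)
            have : 2 * Real.pi * w i * (eta - cSq D eta M) ≤
                2 * Real.pi * w i * sm (kap i) (jU D eta ts) (t i) :=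
              mul_le_mul_of_nonneg_left s2' (by positivity)
            linarith
        · exact (hN ts had i hi hf).trans (hg2 i hi hf)
      · rcases t4 with h | ⟨i, hi, hf, hc, h⟩
        · left
          have : pU D ts = 0 := by
            unfold pU
            rw [h, sub_self, zero_div]
          rw [hP, this]
          simp only [mul_zero, zero_div, zero_sub]
          linarith
        · right
          refine ⟨i, hi, ?_⟩
          obtain ⟨w1, w2⟩ := hw i hi hf
          obtain ⟨-, -, s3⟩ := hsm i hi hf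
          have s3' := s3 h
          have hgi := hg1 i hi hf
          have h1 := hR ts had i hi hf hc
          rw [eJ] at h1
          have hnet : P ≤ 2 * Real.pi * w i * eta * pU D ts + 12 * Real.pi ^ 2 * d * X := by
            refine netUd hX h0 ?_ hp0 hp2 hd0 hd1 w1
            have : Real.pi * (1 - x + d) * X ≤ Real.pi * (1 - pU D ts + d) * X :=
              mul_le_mul_of_nonneg_right (mul_le_mul_of_nonneg_left (by linarith) hpi.le) hX.le
            linarith
          have : 2 * Real.pi * w i * (eta * (1 + pU D ts) - cSq D eta M) ≤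
              2 * Real.pi * w i * sm (kap i) (jU D eta ts) (t i) :=
            mul_le_mul_of_nonneg_left s3' (by positivity)
          have h5 : 2 * Real.pi * (w i * cSq D eta M) ≤ 2 * Real.pi * (W * cSq D eta M) :=
            mul_le_mul_of_nonneg_left (mul_le_mul_of_nonneg_right w2 hcS) (by positivity)
          linarith
    linarith
  · -- the lower line
    obtain ⟨ts, t1, t2, t3, t4⟩ := exists_apexDq s fl t (D := D) (q := q) (by linarith)
    have had : AdmC D q eta ts := Or.inr ⟨h0, t1, t2⟩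
    have eJ : Jt D eta ts = jD D eta ts := if_neg (not_le.2 h0)
    have ep : pAx D eta ts = pU D (-ts) := if_neg (not_le.2 h0)
    have hE := hEn ts had
    rw [ep] at hE
    have hp0 : 0 ≤ pU D (-ts) := pU_nonneg hD (by linarith)
    have hp2 : pU D (-ts) ≤ 3 / 4 := pU_leH hD (by linarith)
    have hp1 : pU D (-ts) ≤ 1 - x := by
      unfold pU
      rw [div_le_iff₀ (by linarith)]
      rw [hx] at t2
      linarith
    have hsm : ∀ i ∈ s, fl i → eta - cSq D eta M ≤ sm (kap i) (jD D eta ts) (t i) ∧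
        (t i ≤ ts → -cSq D eta M ≤ sm (kap i) (jD D eta ts) (t i)) ∧
        (t i = ts → |eta| * pU D (-ts) - cSq D eta M ≤ sm (kap i) (jD D eta ts) (t i)) := by
      intro i hi hf
      have h := hk i hi hf
      exact jD_smear_geH (eta := eta) hD t1 (by linarith) h0.le h.int h.mass h.int1 h.mom (t i)
    refine ⟨ts, had, ?_⟩
    set P := 2 * eta ^ 2 * pU D (-ts) / ((1 - pU D (-ts)) * X) with hP
    have key : (P - 12 * Real.pi ^ 2 * d * X) + ∑ i ∈ s, lf ts i ≤ ∑ i ∈ s, g i := by
      refine sum_pay s _ g (fun i hi => ?_) ?_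
      · by_cases hf : fl i
        · obtain ⟨w1, w2⟩ := hw i hi hf
          obtain ⟨s1, s2, -⟩ := hsm i hi hf
          have hgi := hg1 i hi hf
          have h5 : 2 * Real.pi * (w i * cSq D eta M) ≤ 2 * Real.pi * (W * cSq D eta M) :=
            mul_le_mul_of_nonneg_left (mul_le_mul_of_nonneg_right w2 hcS) (by positivity)
          rcases le_or_gt (t i) q with hc | hc
          · have h := hL ts had i hi hf hc
            rw [eJ] at h
            have s2' := s2 (t3 i hi hf hc)
            have : 2 * Real.pi * w i * (-cSq D eta M) ≤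
                2 * Real.pi * w i * sm (kap i) (jD D eta ts) (t i) :=
              mul_le_mul_of_nonneg_left s2' (by positivity)
            linarith
          · have h := hR ts had i hi hf hc
            rw [eJ] at h
            have : 2 * Real.pi * w i * (eta - cSq D eta M) ≤
                2 * Real.pi * w i * sm (kap i) (jD D eta ts) (t i) :=
              mul_le_mul_of_nonneg_left s1 (by positivity)
            linarith
        · exact (hN ts had i hi hf).trans (hg2 i hi hf)
      · rcases t4 with h | ⟨i, hi, hf, hc, h⟩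
        · left
          have : pU D (-ts) = 0 := by
            unfold pU
            rw [h, neg_neg, sub_self, zero_div]
          rw [hP, this]
          simp only [mul_zero, zero_div, zero_sub]
          linarith
        · right
          refine ⟨i, hi, ?_⟩
          obtain ⟨w1, w2⟩ := hw i hi hf
          obtain ⟨-, -, s3⟩ := hsm i hi hf
          have s3' := s3 h
          rw [abs_of_neg h0] at s3'
          have hgi := hg1 i hi hf
          have h1 := hL ts had i hi hf hc
          rw [eJ] at h1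
          have hnet : P ≤ 2 * Real.pi * w i * (-eta) * pU D (-ts) + 12 * Real.pi ^ 2 * d * X := by
            rw [hP, ← neg_sq eta]
            refine netUd hX (by linarith) ?_ hp0 hp2 hd0 hd1 w1
            have : Real.pi * (x + d) * X ≤ Real.pi * (1 - pU D (-ts) + d) * X :=
              mul_le_mul_of_nonneg_right (mul_le_mul_of_nonneg_left (by linarith) hpi.le) hX.le
            linarith
          have : 2 * Real.pi * w i * (-eta * pU D (-ts) - cSq D eta M) ≤
              2 * Real.pi * w i * sm (kap i) (jD D eta ts) (t i) :=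
            mul_le_mul_of_nonneg_left s3' (by positivity)
          have h5 : 2 * Real.pi * (w i * cSq D eta M) ≤ 2 * Real.pi * (W * cSq D eta M) :=
            mul_le_mul_of_nonneg_left (mul_le_mul_of_nonneg_right w2 hcS) (by positivity)
          linarith
    linarith

end TCCur
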