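import Pool.Agent.NUCR.ConfX
import Pool.Agent.TC.CurF

/-!
# The energy of the odd current (type C, folded gas)

`jo D c eta ts` is the odd extension of the landed profile, centred at `c >= D + 1` (so that it vanishes on
`|t| <= c - D - 1` and is `+- eta` for `|t| >= c + D + 1`); the total current is
`jo + K X - 2 eta (Nc - 1/2)` with an odd plateau `X`.  Half of its energy at `2 eta` is the energy of the folded gas.
-/

set_option autoImplicit false

open MeasureTheory Set Filter Topology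

namespace TCCur

open NUCR NUMF

noncomputable section

/-! ### the odd plateau -/

/-- an odd slow plateau: `0` for `|t| <= t0` and for `|t| >= E`, `1` on `[D0, D1]`. -/
structure OSlow (E t0 D0 D1 lam : ℝ) (X : ℝ → ℝ) : Prop where
  c1 : ContDiff ℝ 1 X
  odd : ∀ t, X (-t) = -X t
  nn : ∀ t, 0 ≤ t → 0 ≤ X t
  le : ∀ t, X t ≤ 1
  one : ∀ t, D0 ≤ t → t ≤ D1 → X t = 1
  zero : ∀ t, E ≤ |t| → X t = 0
  low : ∀ t, |t| ≤ t0 → X t = 0
  der : ∀ t, |deriv X t| ≤ lam

variable {E t0 D0 D1 lam : ℝ} {X : ℝ → ℝ}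

theorem OSlow.cont (h : OSlow E t0 D0 D1 lam X) : Continuous X := h.c1.continuous

theorem OSlow.hd (h : OSlow E t0 D0 D1 lam X) (t : ℝ) : HasDerivAt X (deriv X t) t :=
  (h.c1.differentiable (by norm_num)).differentiableAt.hasDerivAt

theorem OSlow.lam0 (h : OSlow E t0 D0 D1 lam X) : 0 ≤ lam := (abs_nonneg _).trans (h.der 0)

theorem OSlow.abs_le (h : OSlow E t0 D0 D1 lam X) (t : ℝ) : |X t| ≤ 1 := by
  rcases le_total 0 t with h0 | h0
  · rw [abs_of_nonneg (h.nn t h0)]
    exact h.le t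
  · have h1 := h.odd t
    have h2 := h.nn (-t) (by linarith)
    have h3 := h.le (-t)
    rw [h1] at h2 h3
    rw [abs_of_nonpos (by linarith)]
    exact h3

theorem OSlow.lip (h : OSlow E t0 D0 D1 lam X) (x y : ℝ) : |X x - X y| ≤ lam * |x - y| := by
  have := Convex.norm_image_sub_le_of_norm_hasDerivWithin_le (f := X)
    (f' := deriv X) (s := univ) (C := lam) (x := y) (y := x)
    (fun t _ => (h.hd t).hasDerivWithinAt)
    (fun t _ => by rw [Real.norm_eq_abs]; exact h.der t)
    convex_univ (mem_univ y) (mem_univ x)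
  simpa [Real.norm_eq_abs] using this

/-- the smeared odd plateau. -/
theorem OSlow.sm_ge (h : OSlow E t0 D0 D1 lam X) {M K : ℝ} {kap : ℝ → ℝ} (hk : SD M kap) (hK : 0 ≤ K)
    (hl : K * lam * M ≤ 1) (t : ℝ) : K * X t - 1 ≤ K * sm kap X t := by
  have h2 := (smear h.lip hk.int hk.mass hk.int1 hk.mom h.lam0 t).2
  have h3 : |sm kap X t - X t| ≤ lam * M := h2
  rw [_root_.abs_le] at h3
  have h4 : K * -(lam * M) ≤ K * (sm kap X t - X t) := mul_le_mul_of_nonneg_left h3.1 hK
  nlinarith

theorem OSlow.dzero_in (h : OSlow E t0 D0 D1 lam X) {t : ℝ} (h0 : D0 < |t|) (h1 : |t| < D1) :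
    deriv X t = 0 := by
  have ho : IsOpen {s : ℝ | D0 < |s| ∧ |s| < D1} :=
    (isOpen_lt continuous_const continuous_abs).inter (isOpen_lt continuous_abs continuous_const)
  rcases le_total 0 t with hs | hs
  · rcases hs.lt_or_eq with hs | hs
    · have e : X =ᶠ[𝓝 t] fun _ => 1 := by
        filter_upwards [ho.mem_nhds ⟨h0, h1⟩, Ioi_mem_nhds hs] with s hs1 hs2
        have hs3 : |s| = s := abs_of_pos hs2
        rw [hs3] at hs1
        exact h.one s hs1.1.le hs1.2.le
      rw [e.deriv_eq]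
      simp
    · subst hs
      rw [abs_zero] at h0 h1
      have e : X =ᶠ[𝓝 0] fun s => X 0 := by
        have hX0 : X 0 = 0 := by
          have := h.odd 0
          rw [neg_zero] at this
          linarith
        have := h.one 0 h0.le h1.le
        rw [hX0] at this
        norm_num at this
      rw [e.deriv_eq]
      simp
  · rcases hs.lt_or_eq with hs | hs
    · have e : X =ᶠ[𝓝 t] fun _ => -1 := by
        filter_upwards [ho.mem_nhds ⟨h0, h1⟩, Iio_mem_nhds hs] with s hs1 hs2
        have hs3 : |s| = -s := abs_of_neg hs2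
        rw [hs3] at hs1
        have h2 := h.one (-s) hs1.1.le hs1.2.le
        rw [h.odd] at h2
        linarith
      rw [e.deriv_eq]
      simp
    · subst hs
      rw [abs_zero] at h0 h1
      have hX0 : X 0 = 0 := by
        have := h.odd 0
        rw [neg_zero] at this
        linarith
      have := h.one 0 h0.le h1.le
      rw [hX0] at this
      norm_num at this

theorem OSlow.dzero_out (h : OSlow E t0 D0 D1 lam X) {t : ℝ} (ht : E < |t|) : deriv X t = 0 := by
  have e : X =ᶠ[𝓝 t] fun _ => 0 := by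
    have ho : IsOpen {s : ℝ | E < |s|} := isOpen_lt continuous_const continuous_abs
    filter_upwards [ho.mem_nhds ht] with s hs
    exact h.zero s (le_of_lt hs)
  rw [e.deriv_eq]
  simp

/-- the slope of the odd plateau. -/
theorem OSlow.bi (h : OSlow E t0 D0 D1 lam X) (h0 : 0 ≤ D0) (h2 : D1 ≤ E) :
    BI lam (deriv X) ∧ ∫ t, |deriv X t| ≤ 2 * (lam * (D0 + (E - D1))) := by
  have hcont : Continuous (deriv X) := h.c1.continuous_deriv (by norm_num)
  have hi : Integrable (deriv X) := by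
    refine hcont.integrable_of_hasCompactSupport ?_
    refine HasCompactSupport.intro (isCompact_Icc (a := -E) (b := E)) fun x hx => h.dzero_out ?_
    by_contra hc
    exact hx (_root_.abs_le.1 (not_lt.1 hc))
  refine ⟨⟨hi, h.der⟩, ?_⟩
  have hl := h.lam0
  set S : Set ℝ := (Icc (-E) (-D1) ∪ Icc (-D0) D0) ∪ Icc D1 E with hS
  have hSm : MeasurableSet S := (measurableSet_Icc.union measurableSet_Icc).union measurableSet_Icc
  have hb : ∀ t, |deriv X t| ≤ S.indicator (fun _ => lam) t := by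
    intro t
    by_cases ht : t ∈ S
    · rw [indicator_of_mem ht]
      exact h.der t
    · rw [indicator_of_notMem ht]
      rw [hS, mem_union, mem_union, mem_Icc, mem_Icc, mem_Icc, not_or, not_or] at ht
      obtain ⟨⟨t1, t2⟩, t3⟩ := ht
      have : deriv X t = 0 := by
        rcases lt_or_ge |t| D1 with c | c
        · refine h.dzero_in ?_ c
          by_contra hc
          exact t2 (_root_.abs_le.1 (not_lt.1 hc))
        · refine h.dzero_out ?_
          by_contra hc
          have h2 := _root_.abs_le.1 (not_lt.1 hc)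
          rcases le_abs.1 c with h3 | h3
          · exact t3 ⟨h3, h2.2⟩
          · exact t1 ⟨h2.1, by linarith⟩
      rw [this, abs_zero]
  have hfin : volume S ≠ ⊤ := by
    refine ne_of_lt (lt_of_le_of_lt ((measure_union_le _ _).trans
      (add_le_add (measure_union_le _ _) le_rfl)) ?_)
    rw [Real.volume_Icc, Real.volume_Icc, Real.volume_Icc]
    exact ENNReal.add_lt_top.2 ⟨ENNReal.add_lt_top.2 ⟨ENNReal.ofReal_lt_top, ENNReal.ofReal_lt_top⟩,
      ENNReal.ofReal_lt_top⟩
  have hSi : Integrable (S.indicator fun _ : ℝ => lam) :=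
    (integrable_indicator_iff hSm).2 (integrableOn_const hfin)
  have hvol : (volume : Measure ℝ).real S ≤ 2 * (D0 + (E - D1)) := by
    have q1 : (volume : Measure ℝ).real S ≤ (volume : Measure ℝ).real (Icc (-E) (-D1) ∪ Icc (-D0) D0) +
        (volume : Measure ℝ).real (Icc D1 E) := measureReal_union_le _ _
    have q2 : (volume : Measure ℝ).real (Icc (-E) (-D1) ∪ Icc (-D0) D0) ≤
        (volume : Measure ℝ).real (Icc (-E) (-D1)) + (volume : Measure ℝ).real (Icc (-D0) D0) :=
      measureReal_union_le _ _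
    rw [Real.volume_real_Icc, Real.volume_real_Icc, max_eq_left (by linarith), max_eq_left (by linarith)] at q2
    rw [Real.volume_real_Icc, max_eq_left (by linarith)] at q1
    linarith
  calc ∫ t, |deriv X t| ≤ ∫ t, S.indicator (fun _ => lam) t := integral_mono hi.abs hSi hb
    _ = (volume : Measure ℝ).real S * lam := by
        rw [integral_indicator hSm, setIntegral_const, smul_eq_mul]
    _ ≤ (2 * (D0 + (E - D1))) * lam := mul_le_mul_of_nonneg_right hvol hl
    _ = _ := by ring

/-! ### the odd profile -/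

/-- the odd extension of the profile centred at `c`. -/
def jo (D c eta ts t : ℝ) : ℝ := Jt D eta ts (t - c) - Jt D eta ts (-t - c)

/-- its derivative. -/
def ao (D c eta ts t : ℝ) : ℝ := deriv (Jt D eta ts) (t - c) + deriv (Jt D eta ts) (-t - c)

/-- bound for `|eta| / D`. -/
def BqJ : ℝ := 2 * Real.pi / kap0

theorem BqJ_pos : 0 < BqJ := by
  unfold BqJ
  have := kap0_pos
  have := Real.pi_pos
  positivity

/-- the range of `eta` for the cut at the relative depth `x`, with slack `d`. -/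
structure RngC (D x d eta : ℝ) : Prop where
  x0 : 0 ≤ x
  x1 : x ≤ 1
  d0 : 0 ≤ d
  d1 : d ≤ 1
  up : eta ≤ (1 - x + d) * Real.pi * (D / kap0)
  lo : -((x + d) * Real.pi * (D / kap0)) ≤ eta

theorem RngC.abs {D x d eta : ℝ} (h : RngC D x d eta) (hD : 0 ≤ D) : |eta| ≤ BqJ * D := by
  have hk := kap0_pos
  have hpi := Real.pi_pos
  have e : BqJ * D = 2 * (Real.pi * (D / kap0)) := by unfold BqJ; ring
  have h3 : 0 ≤ Real.pi * (D / kap0) := by positivity
  obtain ⟨x0, x1, d0, d1, h4, h5⟩ := h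
  rw [e, abs_le]
  constructor
  · have : (x + d) * (Real.pi * (D / kap0)) ≤ 2 * (Real.pi * (D / kap0)) :=
      mul_le_mul_of_nonneg_right (by linarith) h3
    linarith
  · have : (1 - x + d) * (Real.pi * (D / kap0)) ≤ 2 * (Real.pi * (D / kap0)) :=
      mul_le_mul_of_nonneg_right (by linarith) h3
    linarith

variable {D q c eta ts : ℝ}

theorem jo_odd (t : ℝ) : jo D c eta ts (-t) = -jo D c eta ts t := by
  unfold jo
  rw [neg_neg]
  ring

theorem jo_pos (hc : Cut D q) (h : AdmC D q eta ts) {t : ℝ} (ht : -(c - D - 1) ≤ t) :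
    jo D c eta ts t = Jt D eta ts (t - c) := by
  unfold jo
  rw [Jt_leftC hc h (t := -t - c) (by linarith), sub_zero]

theorem jo_low (hc : Cut D q) (h : AdmC D q eta ts) {t : ℝ} (ht : |t| ≤ c - D - 1) : jo D c eta ts t = 0 := by
  have h1 := abs_le.1 ht
  rw [jo_pos hc h (by linarith), Jt_leftC hc h (by linarith)]

theorem jo_far (hc : Cut D q) (h : AdmC D q eta ts) (hcD : D + 1 ≤ c) {t : ℝ} (ht : c + D + 1 ≤ t) :
    jo D c eta ts t = eta := by
  have hD := hc.one
  rw [jo_pos hc h (by linarith), Jt_rightC hc h (by linarith)]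

theorem jo_abs (hc : Cut D q) (h : AdmC D q eta ts) (hcD : D + 1 ≤ c) (t : ℝ) : |jo D c eta ts t| ≤ 2 * |eta| := by
  rcases le_total 0 t with ht | ht
  · rw [jo_pos hc h (by linarith)]
    exact Jt_absC hc h _
  · have e := jo_odd (D := D) (c := c) (eta := eta) (ts := ts) (-t)
    rw [neg_neg] at e
    rw [e, abs_neg, jo_pos hc h (by linarith)]
    exact Jt_absC hc h _

theorem jo_hd (t : ℝ) : HasDerivAt (jo D c eta ts) (ao D c eta ts t) t := by
  have hd : ∀ s, HasDerivAt (Jt D eta ts) (deriv (Jt D eta ts) s) s := fun s =>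
    ((Jt_smooth 1).differentiable (by norm_num)).differentiableAt.hasDerivAt
  have d1 : HasDerivAt (fun t => Jt D eta ts (t - c)) (deriv (Jt D eta ts) (t - c)) t :=
    HasDerivAt.comp_sub_const t c (hd (t - c))
  have d2 : HasDerivAt (fun t : ℝ => -t - c) (-1) t := (hasDerivAt_neg t).sub_const c
  have d3 : HasDerivAt (fun t => Jt D eta ts (-t - c)) (deriv (Jt D eta ts) (-t - c) * -1) t :=
    (hd (-t - c)).comp t d2
  refine (d1.sub d3).congr_deriv ?_
  unfold ao
  ring

theorem ao_even (t : ℝ) : ao D c eta ts (-t) = ao D c eta ts t := by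
  unfold ao
  rw [neg_neg]
  ring

theorem dJt_left (hc : Cut D q) (h : AdmC D q eta ts) {t : ℝ} (ht : t ≤ -D - 1) : deriv (Jt D eta ts) t = 0 := by
  -- left derivative
  have hd : HasDerivAt (Jt D eta ts) (deriv (Jt D eta ts) t) t :=
    ((Jt_smooth 1).differentiable (by norm_num)).differentiableAt.hasDerivAt
  have h1 : HasDerivWithinAt (Jt D eta ts) (deriv (Jt D eta ts) t) (Iic t) t := hd.hasDerivWithinAt
  have h2 : HasDerivWithinAt (fun _ : ℝ => (0 : ℝ)) 0 (Iic t) t := hasDerivWithinAt_const _ _ _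
  have h3 : HasDerivWithinAt (Jt D eta ts) 0 (Iic t) t :=
    h2.congr (fun s hs => Jt_leftC hc h (le_trans hs ht)) (Jt_leftC hc h ht)
  exact (uniqueDiffWithinAt_Iic t).eq_deriv _ h1 h3

theorem dJt_right (hc : Cut D q) (h : AdmC D q eta ts) {t : ℝ} (ht : D + 1 ≤ t) : deriv (Jt D eta ts) t = 0 := by
  have hd : HasDerivAt (Jt D eta ts) (deriv (Jt D eta ts) t) t :=
    ((Jt_smooth 1).differentiable (by norm_num)).differentiableAt.hasDerivAt
  have h1 : HasDerivWithinAt (Jt D eta ts) (deriv (Jt D eta ts) t) (Ici t) t := hd.hasDerivWithinAt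
  have h2 : HasDerivWithinAt (fun _ : ℝ => eta) 0 (Ici t) t := hasDerivWithinAt_const _ _ _
  have h3 : HasDerivWithinAt (Jt D eta ts) 0 (Ici t) t :=
    h2.congr (fun s hs => Jt_rightC hc h (le_trans ht hs)) (Jt_rightC hc h ht)
  exact (uniqueDiffWithinAt_Ici t).eq_deriv _ h1 h3

/-- the derivative of the profile is bounded and integrable. -/
theorem dJt_BIC : ∃ C : ℝ, 1 ≤ C ∧ ∀ D q eta ts : ℝ, Cut D q → AdmC D q eta ts →
    BI (C * (|eta| / D)) (deriv (Jt D eta ts)) := by
  obtain ⟨C, hC, h⟩ := Jt_iterC 1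
  refine ⟨C, hC, fun D q eta ts hc had => ?_⟩
  have hcont : Continuous (deriv (Jt D eta ts)) := (Jt_smooth 1).continuous_deriv (by norm_num)
  refine ⟨?_, fun t => ?_⟩
  · refine hcont.integrable_of_hasCompactSupport ?_
    refine HasCompactSupport.intro (isCompact_Icc (a := -(D + 1)) (b := D + 1)) fun x hx => ?_
    rw [mem_Icc, not_and_or, not_le, not_le] at hx
    rcases hx with hx | hx
    · exact dJt_left hc had (by linarith)
    · exact dJt_right hc had hx.le
  · have := h D q eta ts hc had 1 le_rfl le_rfl t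
    rwa [iteratedDeriv_one] at this

theorem sq_int {f : ℝ → ℝ} {M : ℝ} (hf : BI M f) : Integrable fun t => f t ^ 2 := by
  refine (hf.int.mul_bdd (c := M) hf.meas (Eventually.of_forall hf.bd)).congr (Eventually.of_forall fun t => ?_)
  simp only
  ring

/-- the slope of the odd profile: bounded, integrable, energy twice that of the profile. -/
theorem ao_BI {C : ℝ} (hc : Cut D q) (h : AdmC D q eta ts) (hcD : D + 1 ≤ c) (hb : BI C (deriv (Jt D eta ts))) :
    BI C (ao D c eta ts) ∧ ∫ t, ao D c eta ts t ^ 2 = 2 * ∫ t, deriv (Jt D eta ts) t ^ 2 := by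
  have hz : ∀ t, deriv (Jt D eta ts) (t - c) = 0 ∨ deriv (Jt D eta ts) (-t - c) = 0 := by
    intro t
    rcases le_total 0 t with ht | ht
    · exact Or.inr (dJt_left hc h (by linarith))
    · exact Or.inl (dJt_left hc h (by linarith))
  have i1 : Integrable fun t => deriv (Jt D eta ts) (t - c) := hb.int.comp_sub_right c
  have i2 : Integrable fun t => deriv (Jt D eta ts) (-t - c) := by
    have := (hb.int.comp_sub_right c).comp_neg
    exact this
  refine ⟨⟨i1.add i2, fun t => ?_⟩, ?_⟩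
  · unfold ao
    rcases hz t with h0 | h0
    · rw [h0, zero_add]
      exact hb.bd _
    · rw [h0, add_zero]
      exact hb.bd _
  · have e : ∀ t, ao D c eta ts t ^ 2 = deriv (Jt D eta ts) (t - c) ^ 2 + deriv (Jt D eta ts) (-t - c) ^ 2 := by
      intro t
      unfold ao
      rcases hz t with h0 | h0
      · rw [h0]; ring
      · rw [h0]; ring
    have hs := sq_int hb
    have j1 : Integrable fun t => deriv (Jt D eta ts) (t - c) ^ 2 := hs.comp_sub_right c
    have j2 : Integrable fun t => deriv (Jt D eta ts) (-t - c) ^ 2 := (hs.comp_sub_right c).comp_neg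
    simp_rw [e]
    rw [integral_add j1 j2, integral_sub_right_eq_self (fun t => deriv (Jt D eta ts) t ^ 2) c,
      integral_neg_eq_self (fun t => deriv (Jt D eta ts) (t - c) ^ 2) volume,
      integral_sub_right_eq_self (fun t => deriv (Jt D eta ts) t ^ 2) c]
    ring

/-- **the energy of the odd current**, half of the energy at `2 eta`. -/
theorem En_XC (K C0 : ℝ) (hK : 0 ≤ K) (hC0 : 0 ≤ C0) : ∃ CK : ℝ, 0 ≤ CK ∧
    ∀ (D q x d c eta ts E t0 D0 D1 lam : ℝ) (X : ℝ → ℝ), Cut D q → D + 1 ≤ c →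
    0 ≤ D0 → D1 ≤ E → OSlow E t0 D0 D1 lam X → K * lam ≤ 1 → lam * (D0 + (E - D1)) ≤ C0 →
    RngC D x d eta → AdmC D q eta ts →
    1 / 2 * En (2 * eta) (fun t => (ao D c eta ts t + K * deriv X t) - 2 * eta * Pcut D t) ≤
      -(2 * eta ^ 2) * (∫ t, P t * v t) + eta ^ 2 / (2 * (D / kap0)) + CK
        + 2 * eta ^ 2 * pAx D eta ts / ((1 - pAx D eta ts) * (D / kap0)) := by
  obtain ⟨A, hA, hE⟩ := En_le
  obtain ⟨C, hC, hB⟩ := dJt_BIC
  have hk := kap0_pos
  have hb := BqJ_pos
  refine ⟨1 / 2 * (kap0 * (K * (2 * (C * BqJ) + 1) * (2 * C0))) +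
    1 / 2 * (A * (2 * BqJ * (C * BqJ + 1) + 4 * BqJ ^ 2) * 2), by positivity, ?_⟩
  intro D q x d c eta ts E t0 D0 D1 lam X hcut hcD hD0' hD1E hX hl hl2 hr had
  have hD := hcut.one
  have hD0 : 0 < D := by linarith
  have hlam := hX.lam0
  have he := hr.abs hD0.le
  have hM : C * (|eta| / D) ≤ C * BqJ := by
    refine mul_le_mul_of_nonneg_left ?_ (by linarith)
    rw [div_le_iff₀ hD0]
    exact he
  have hJ : BI (C * BqJ) (deriv (Jt D eta ts)) :=
    ⟨(hB D q eta ts hcut had).int, fun t => ((hB D q eta ts hcut had).bd t).trans hM⟩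
  obtain ⟨hao, hao2⟩ := ao_BI hcut had hcD hJ
  obtain ⟨hXb, hXi⟩ := hX.bi hD0' hD1E
  have ha : BI (C * BqJ + 1) (fun t => ao D c eta ts t + K * deriv X t) := by
    have h1 := hao.add (hXb.smul K)
    refine ⟨h1.int, fun t => (h1.bd t).trans ?_⟩
    rw [abs_of_nonneg hK]
    linarith
  have hE1 := hE D hD (2 * eta) _ _ ha
  have hCB : 0 ≤ C * BqJ := by positivity
  have hle : ∀ t, (ao D c eta ts t + K * deriv X t) ^ 2 ≤
      ao D c eta ts t ^ 2 + K * (2 * (C * BqJ) + 1) * |deriv X t| := by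
    intro t
    have g1 : 2 * (ao D c eta ts t * (K * deriv X t)) ≤ 2 * ((C * BqJ) * (K * |deriv X t|)) := by
      refine mul_le_mul_of_nonneg_left ((le_abs_self _).trans ?_) zero_le_two
      rw [abs_mul, abs_mul, abs_of_nonneg hK]
      exact mul_le_mul_of_nonneg_right (hao.bd t) (by positivity)
    have g2 : (K * deriv X t) ^ 2 ≤ K * |deriv X t| := by
      have g3 : K * |deriv X t| ≤ 1 := (mul_le_mul_of_nonneg_left (hX.der t) hK).trans hl
      have g4 : (K * deriv X t) ^ 2 = (K * |deriv X t|) * (K * |deriv X t|) := by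
        rw [← sq_abs, abs_mul, abs_of_nonneg hK, sq]
      rw [g4]
      exact mul_le_of_le_one_right (by positivity) g3
    nlinarith
  have h2 : ∫ t, (ao D c eta ts t + K * deriv X t) ^ 2 ≤
      (2 * ∫ t, deriv (Jt D eta ts) t ^ 2) + K * (2 * (C * BqJ) + 1) * (2 * C0) := by
    calc ∫ t, (ao D c eta ts t + K * deriv X t) ^ 2
        ≤ ∫ t, (ao D c eta ts t ^ 2 + K * (2 * (C * BqJ) + 1) * |deriv X t|) :=
          integral_mono (sq_int ha) ((sq_int hao).add (hXb.int.abs.const_mul _)) hle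
      _ = (∫ t, ao D c eta ts t ^ 2) + K * (2 * (C * BqJ) + 1) * ∫ t, |deriv X t| := by
          rw [integral_add (sq_int hao) (hXb.int.abs.const_mul _), integral_const_mul]
      _ ≤ _ := by
          have : ∫ t, |deriv X t| ≤ 2 * C0 := hXi.trans (by linarith)
          have := mul_le_mul_of_nonneg_left this (show 0 ≤ K * (2 * (C * BqJ) + 1) by positivity)
          rw [hao2]
          linarith
  have h3 := mul_le_mul_of_nonneg_left h2 hk.le
  have hX0 : 0 < D / kap0 := by positivity
  have h1 := Jt_costC hcut hX0 had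
  have e1 : D / (D / kap0) = kap0 := by field_simp
  rw [e1] at h1
  have h5 : A * (|2 * eta| * (C * BqJ + 1) + (2 * eta) ^ 2) * Real.exp (-(4 / 3) * D) ≤
      A * (2 * BqJ * (C * BqJ + 1) + 4 * BqJ ^ 2) * 2 := by
    have h3 : |2 * eta| * (C * BqJ + 1) + (2 * eta) ^ 2 ≤ (2 * BqJ * (C * BqJ + 1) + 4 * BqJ ^ 2) * D ^ 2 := by
      have h4 : |2 * eta| * (C * BqJ + 1) ≤ 2 * (BqJ * D) * (C * BqJ + 1) := by
        rw [abs_mul, abs_two]
        exact mul_le_mul_of_nonneg_right (by linarith) (by positivity)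
      have h5 : (2 * eta) ^ 2 ≤ 4 * (BqJ * D) ^ 2 := by
        have h6 : eta ^ 2 ≤ (BqJ * D) ^ 2 := by
          rw [← sq_abs]
          exact pow_le_pow_left₀ (abs_nonneg _) he 2
        linarith
      have h6 : 2 * (BqJ * D) * (C * BqJ + 1) ≤ 2 * BqJ * (C * BqJ + 1) * D ^ 2 := by
        have h7 : D ≤ D ^ 2 := by nlinarith
        have h8 : 0 ≤ 2 * BqJ * (C * BqJ + 1) := by positivity
        calc 2 * (BqJ * D) * (C * BqJ + 1) = 2 * BqJ * (C * BqJ + 1) * D := by ring
          _ ≤ _ := mul_le_mul_of_nonneg_left h7 h8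
      have e2 : 4 * (BqJ * D) ^ 2 = 4 * BqJ ^ 2 * D ^ 2 := by ring
      linarith
    have h9 : D ^ 2 * Real.exp (-(4 / 3) * D) ≤ 2 := by
      have q1 := Real.quadratic_le_exp_of_nonneg (show 0 ≤ 4 / 3 * D by positivity)
      have q2 : D ^ 2 ≤ 2 * Real.exp (4 / 3 * D) := by nlinarith
      have q3 : Real.exp (-(4 / 3) * D) = (Real.exp (4 / 3 * D))⁻¹ := by
        rw [← Real.exp_neg]
        congr 1
        ring
      have q4 := Real.exp_pos (4 / 3 * D)
      rw [q3, ← div_eq_mul_inv, div_le_iff₀ q4]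
      exact q2
    have h10 := Real.exp_pos (-(4 / 3) * D)
    calc A * (|2 * eta| * (C * BqJ + 1) + (2 * eta) ^ 2) * Real.exp (-(4 / 3) * D)
        ≤ A * ((2 * BqJ * (C * BqJ + 1) + 4 * BqJ ^ 2) * D ^ 2) * Real.exp (-(4 / 3) * D) :=
          mul_le_mul_of_nonneg_right (mul_le_mul_of_nonneg_left h3 hA) h10.le
      _ = A * (2 * BqJ * (C * BqJ + 1) + 4 * BqJ ^ 2) * (D ^ 2 * Real.exp (-(4 / 3) * D)) := by ring
      _ ≤ _ := mul_le_mul_of_nonneg_left h9 (by positivity)
  rw [mul_add] at h3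
  have e3 : (2 * eta) ^ 2 = 4 * eta ^ 2 := by ring
  rw [e3] at hE1 h5
  linarith

end

end TCCur
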