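import Pool.Agent.TC.CurE

/-!
# The odd total current (type C, folded gas): flat objects and the pointwise bound for a configuration

`jtC = jo + K X - 2 eta (Nc - 1/2)`: odd, `0` beyond `c + D + 1`, small on `|t| <= min t0 (c - D - 1)`.
`conf_unifC`: a flat object at the height `t >= 0`, both branches.  `conf_totalC`: the pointwise bound.
-/

set_option autoImplicit false

open MeasureTheory Set Filter Topology

namespace TCCur

open NUCR NUMF

noncomputable section

variable {E t0 D0 D1 lam : ℝ} {X : ℝ → ℝ} {D q c eta ts K : ℝ}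

/-! ### the total current -/

/-- the total odd current. -/
def jtC (D c eta ts K : ℝ) (X : ℝ → ℝ) (t : ℝ) : ℝ :=
  jo D c eta ts t + K * X t - 2 * eta * (Nc D t - 1 / 2)

theorem Nc_refl {R : ℝ} (hR : 1 ≤ R) (t : ℝ) : Nc R (-t) = 1 - Nc R t := by
  rw [Nc_eq, Nc_eq, G_neg]
  have e1 : -t + R = R - t := by ring
  have e2 : R - -t = t + R := by ring
  rw [e1, e2]
  rcases le_total 0 t with ht | ht
  · rw [Ph_right (t := t + R) (by linarith)]
    ring
  · rw [Ph_right (t := R - t) (by linarith)]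
    ring

theorem jtC_odd (hD : 1 ≤ D) (hX : OSlow E t0 D0 D1 lam X) (t : ℝ) :
    jtC D c eta ts K X (-t) = -jtC D c eta ts K X t := by
  unfold jtC
  rw [jo_odd, hX.odd, Nc_refl hD]
  ring

theorem jtC_hasDerivAt (hX : OSlow E t0 D0 D1 lam X) (t : ℝ) :
    HasDerivAt (jtC D c eta ts K X) ((ao D c eta ts t + K * deriv X t) - 2 * eta * Pcut D t) t :=
  ((jo_hd t).add ((hX.hd t).const_mul K)).sub (((Nc_deriv D t).sub_const (1 / 2)).const_mul (2 * eta))

theorem jtC_deriv (hX : OSlow E t0 D0 D1 lam X) : deriv (jtC D c eta ts K X) =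
    fun t => (ao D c eta ts t + K * deriv X t) - 2 * eta * Pcut D t :=
  funext fun t => (jtC_hasDerivAt hX t).deriv

theorem jtC_zero (hc : Cut D q) (h : AdmC D q eta ts) (hcD : D + 1 ≤ c) (hX : OSlow E t0 D0 D1 lam X)
    (hE : E ≤ c + D + 1) {t : ℝ} (ht : c + D + 1 ≤ |t|) : jtC D c eta ts K X t = 0 := by
  have hD := hc.one
  have key : ∀ s, c + D + 1 ≤ s → jtC D c eta ts K X s = 0 := by
    intro s hs
    unfold jtC
    rw [hX.zero s (by rw [abs_of_nonneg (by linarith)]; linarith), jo_far hc h hcD hs,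
      Nc_right (by linarith) (by linarith)]
    ring
  rcases le_total 0 t with h0 | h0
  · rw [abs_of_nonneg h0] at ht
    exact key t ht
  · rw [abs_of_nonpos h0] at ht
    have h1 := key (-t) ht
    rw [jtC_odd hD hX] at h1
    linarith

theorem jtC_abs (hc : Cut D q) (h : AdmC D q eta ts) (hcD : D + 1 ≤ c) (hX : OSlow E t0 D0 D1 lam X)
    (hK : 0 ≤ K) (t : ℝ) : |jtC D c eta ts K X t| ≤ 3 * |eta| + K := by
  have h1 := jo_abs hc h hcD t
  have h2 : |K * X t| ≤ K := by
    rw [abs_mul, abs_of_nonneg hK]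
    exact mul_le_of_le_one_right hK (hX.abs_le t)
  have h3 : |2 * eta * (Nc D t - 1 / 2)| ≤ |eta| := by
    have h4 : |Nc D t - 1 / 2| ≤ 1 / 2 := by
      rw [abs_le]
      constructor <;> linarith [Nc_nonneg D t, Nc_le_one D t]
    rw [abs_mul, abs_mul, abs_two]
    have := abs_nonneg eta
    nlinarith
  unfold jtC
  have h4 := abs_sub (jo D c eta ts t + K * X t) (2 * eta * (Nc D t - 1 / 2))
  have h5 := abs_add_le (jo D c eta ts t) (K * X t)
  linarith

/-- the current near the wall: `- 2 eta G`. -/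
theorem jtC_low (hc : Cut D q) (h : AdmC D q eta ts) (hX : OSlow E t0 D0 D1 lam X) {t : ℝ} (h1 : |t| ≤ c - D - 1)
    (h2 : |t| ≤ t0) (h3 : |t| ≤ D - 1) : jtC D c eta ts K X t = -(2 * eta * G t) := by
  unfold jtC
  rw [jo_low hc h h1, hX.low t h2, Nc_mid h3]
  ring

theorem jtC_smooth (n : ℕ) (hX : ContDiff ℝ n X) : ContDiff ℝ n (jtC D c eta ts K X) := by
  have h1 : ContDiff ℝ n (jo D c eta ts) :=
    ((Jt_smooth n).comp (contDiff_id.sub contDiff_const)).sub
      ((Jt_smooth n).comp (contDiff_neg.sub contDiff_const))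
  exact (h1.add (contDiff_const.mul hX)).sub (contDiff_const.mul ((Nc_smooth n D).sub contDiff_const))

/-- all derivatives: the derivatives of `jtC` of order `k <= n` are at most `C |eta| + K C'` if those of `X` are at most
`C'`. -/
theorem jtC_DB (n : ℕ) : ∃ C, 0 ≤ C ∧ ∀ (D q c eta ts K C' : ℝ) (X : ℝ → ℝ), Cut D q → AdmC D q eta ts → D + 1 ≤ c →
    0 ≤ K → DB n C' X → DB n (C * |eta| + K * C') (jtC D c eta ts K X) := by
  obtain ⟨A, hA1, hA⟩ := Jt_iterC n
  obtain ⟨B, hB⟩ := Nc_DB n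
  have hB0 : 0 ≤ B := (hB 0).nonneg
  refine ⟨2 * (2 + A) + 2 * (B + 1), by positivity, fun D q c eta ts K C' X hc had hcD hK hX => ?_⟩
  have hD := hc.one
  have hη := abs_nonneg eta
  have h1 : DB n ((2 + A) * |eta|) (Jt D eta ts) := by
    refine ⟨Jt_smooth n, fun k hk t => ?_⟩
    rcases Nat.eq_zero_or_pos k with h0 | h0
    · subst h0
      rw [iteratedDeriv_zero]
      have := Jt_absC hc had t
      nlinarith
    · refine (hA D q eta ts hc had k h0 hk t).trans ?_
      have h3 : |eta| / D ≤ |eta| := div_le_self hη hD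
      have h4 : 0 ≤ |eta| / D := div_nonneg hη (by linarith)
      nlinarith
  have h2 := hX.smul K
  have h3 := ((hB D).add (DB.const n (-1 / 2 : ℝ))).smul (-(2 * eta))
  have h5 : DB n ((2 + A) * |eta|) fun t => Jt D eta ts (-c - t) := h1.refl (-c)
  have h4 := ((((h1.shift (-c)).add (h5.smul (-1))).add h2).add h3)
  have e : jtC D c eta ts K X = fun t => ((Jt D eta ts (t + -c) + -1 * Jt D eta ts (-c - t)) + K * X t) +
      -(2 * eta) * (Nc D t + -1 / 2) := by
    funext t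
    unfold jtC jo
    rw [show t - c = t + -c by ring, show -t - c = -c - t by ring]
    ring
  rw [e]
  refine h4.mono ?_
  have e1 : |(-1 : ℝ)| = 1 := by rw [abs_neg, abs_one]
  have e2 : |(-1 / 2 : ℝ)| = 1 / 2 := by rw [abs_of_neg (by norm_num)]; norm_num
  have e3 : |-(2 * eta)| = 2 * |eta| := by rw [abs_neg, abs_mul, abs_two]
  rw [e1, e2, e3, abs_of_nonneg hK]
  nlinarith

/-! ### the smeared odd profile -/

theorem Jt_lipC (hc : Cut D q) (h : AdmC D q eta ts) (x y : ℝ) :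
    |Jt D eta ts x - Jt D eta ts y| ≤ 4 * (|eta| / D) * |x - y| := by
  have hD := hc.one
  have h3 := hc.lo
  have h4 := hc.hi
  unfold Jt
  rcases h with ⟨h0, h1, h2⟩ | ⟨h0, h1, h2⟩
  · rw [if_pos h0]
    exact (j3_lip (by linarith) h2 x y).trans
      (mul_le_mul_of_nonneg_right (aU_absH hD (by linarith) h2) (abs_nonneg _))
  · rw [if_neg (not_le.2 h0)]
    exact jD_lipH hD h1 (by linarith) x y

/-- the reflected profile does not matter at positive heights. -/
theorem jo_smear (hc : Cut D q) (h : AdmC D q eta ts) {M : ℝ} {kap : ℝ → ℝ} (hk : SD M kap) {t : ℝ}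
    (ht : -(c - D - 1) ≤ t) : |sm kap (jo D c eta ts) t - sm kap (Jt D eta ts) (t - c)| ≤ 4 * (|eta| / D) * M := by
  have hD := hc.one
  have hL : 0 ≤ 4 * (|eta| / D) := by
    have : 0 ≤ |eta| / D := div_nonneg (abs_nonneg _) (by linarith)
    positivity
  have hcontJ : Continuous (Jt D eta ts) := (Jt_smooth 0).continuous
  have i1 : Integrable fun u => kap u * Jt D eta ts (t - c - u) := by
    refine hk.int.mul_bdd (c := 2 * |eta|) ?_ (Eventually.of_forall fun x => ?_)
    · exact (hcontJ.comp (continuous_const.sub continuous_id)).aestronglyMeasurable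
    · exact Jt_absC hc h _
  have i2 : Integrable fun u => kap u * Jt D eta ts (-(t - u) - c) := by
    refine hk.int.mul_bdd (c := 2 * |eta|) ?_ (Eventually.of_forall fun x => ?_)
    · exact (hcontJ.comp (by fun_prop : Continuous fun u : ℝ => -(t - u) - c)).aestronglyMeasurable
    · exact Jt_absC hc h _
  have e : sm kap (jo D c eta ts) t - sm kap (Jt D eta ts) (t - c) = -∫ u, kap u * Jt D eta ts (-(t - u) - c) := by
    unfold sm
    have e1 : (fun u => kap u * jo D c eta ts (t - u)) =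
        fun u => kap u * Jt D eta ts (t - c - u) - kap u * Jt D eta ts (-(t - u) - c) := by
      funext u
      unfold jo
      rw [show t - u - c = t - c - u by ring]
      ring
    rw [e1, integral_sub i1 i2]
    ring
  rw [e, abs_neg]
  have hb : ∀ u, |kap u * Jt D eta ts (-(t - u) - c)| ≤ 4 * (|eta| / D) * (|u| * |kap u|) := by
    intro u
    have h1 := Jt_lipC hc h (-(t - u) - c) (-t - c)
    rw [Jt_leftC hc h (t := -t - c) (by linarith), sub_zero, show -(t - u) - c - (-t - c) = u by ring] at h1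
    rw [abs_mul]
    calc |kap u| * |Jt D eta ts (-(t - u) - c)| ≤ |kap u| * (4 * (|eta| / D) * |u|) :=
          mul_le_mul_of_nonneg_left h1 (abs_nonneg _)
      _ = _ := by ring
  calc |∫ u, kap u * Jt D eta ts (-(t - u) - c)| ≤ ∫ u, |kap u * Jt D eta ts (-(t - u) - c)| :=
        abs_integral_le_integral_abs
    _ ≤ ∫ u, 4 * (|eta| / D) * (|u| * |kap u|) := integral_mono i2.abs (hk.int1.const_mul _) hb
    _ = 4 * (|eta| / D) * ∫ u, |u| * |kap u| := integral_const_mul _ _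
    _ ≤ _ := mul_le_mul_of_nonneg_left hk.mom hL

/-- at the wall the smeared odd profile is a constant. -/
theorem jo_smear_low (hc : Cut D q) (h : AdmC D q eta ts) {M : ℝ} {kap : ℝ → ℝ} (hk : SD M kap) {t : ℝ}
    (ht : |t| ≤ c - D - 1) : |sm kap (jo D c eta ts) t| ≤ 8 * (|eta| / D) * M := by
  have hD := hc.one
  have hL : 0 ≤ 4 * (|eta| / D) := by
    have : 0 ≤ |eta| / D := div_nonneg (abs_nonneg _) (by linarith)
    positivity
  have h0 := abs_le.1 ht
  have h1 := jo_smear (c := c) hc h hk (t := t) (by linarith)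
  have h2 := (smear (Jt_lipC hc h) hk.int hk.mass hk.int1 hk.mom hL (t - c)).2
  rw [Jt_leftC hc h (t := t - c) (by linarith), sub_zero] at h2
  have h3 : |sm kap (Jt D eta ts) (t - c)| ≤ 4 * (|eta| / D) * M := h2
  have h4 : |sm kap (jo D c eta ts) t| ≤
      |sm kap (jo D c eta ts) t - sm kap (Jt D eta ts) (t - c)| + |sm kap (Jt D eta ts) (t - c)| := by
    have := abs_add_le (sm kap (jo D c eta ts) t - sm kap (Jt D eta ts) (t - c)) (sm kap (Jt D eta ts) (t - c))
    rwa [sub_add_cancel] at this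
  linarith

/-! ### flat objects -/

lemma exp_tiny {D x d eta : ℝ} (hD : 1 ≤ D) (h : RngC D x d eta) : |eta| * Real.exp (-(8 / 3) * D) ≤ BqJ := by
  have h1 := h.abs (by linarith)
  have hb := BqJ_pos
  have h2 : D * Real.exp (-(8 / 3) * D) ≤ 1 := by
    have h3 : D ≤ Real.exp (8 / 3 * D) := by
      have := Real.add_one_le_exp (8 / 3 * D)
      linarith
    have h4 : Real.exp (8 / 3 * D) * Real.exp (-(8 / 3) * D) = 1 := by
      rw [← Real.exp_add]
      simp
    have h5 := Real.exp_pos (-(8 / 3) * D)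
    nlinarith
  have h5 := Real.exp_pos (-(8 / 3) * D)
  calc |eta| * Real.exp (-(8 / 3) * D) ≤ BqJ * D * Real.exp (-(8 / 3) * D) :=
        mul_le_mul_of_nonneg_right h1 h5.le
    _ = BqJ * (D * Real.exp (-(8 / 3) * D)) := by ring
    _ ≤ BqJ * 1 := mul_le_mul_of_nonneg_left h2 hb.le
    _ = BqJ := mul_one _

/-- a flat object against the smeared odd current: `2 a - 2 pi w` is the left branch, `2 a - 4 pi w` the right branch. -/
theorem flat_abs : ∃ A : ℝ, 0 ≤ A ∧ ∀ (w : ℝ) (a κ : ℝ → ℝ) (C : ℝ), Flat w a κ →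
    (∀ x, |κ x| ≤ C * Real.exp (-2 * |x|)) → ∀ (D q x d c eta ts E t0 D0 D1 lam K t : ℝ) (X : ℝ → ℝ), Cut D q →
    RngC D x d eta → AdmC D q eta ts → D + 1 ≤ c → OSlow E t0 D0 D1 lam X →
    Integrable (fun x => κ x * jtC D c eta ts K X (t - x)) ∧
    |(-eta * (2 * a t - 2 * Real.pi * w) - ∫ x, κ x * jtC D c eta ts K X (t - x)) -
      -(2 * Real.pi * w * (sm (kn w κ) (jo D c eta ts) t + K * sm (kn w κ) X t))| ≤ A * C := by
  obtain ⟨A, hA, hF⟩ := factor_unif
  have hb := BqJ_pos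
  have hcE := cE_nonneg
  refine ⟨2 * (A * cE * BqJ), by positivity,
    fun w a κ C h hC D q x d c eta ts E t0 D0 D1 lam K t X hc hr had hcD hX => ?_⟩
  have hD := hc.one
  obtain ⟨hC0, hm, -⟩ := ker_mass h.ker hC
  have hcontJ : Continuous (jo D c eta ts) := continuous_iff_continuousAt.2 fun s => (jo_hd s).continuousAt
  have i1 : Integrable fun x => kn w κ x * jo D c eta ts (t - x) := by
    refine h.kn_ker.int.mul_bdd (c := 2 * |eta|) ?_ (Eventually.of_forall fun x => ?_)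
    · exact (hcontJ.comp (continuous_const.sub continuous_id)).aestronglyMeasurable
    · exact jo_abs hc had hcD _
  have i2 : Integrable fun x => kn w κ x * X (t - x) := by
    refine h.kn_ker.int.mul_bdd (c := 1) ?_ (Eventually.of_forall fun x => ?_)
    · exact (hX.cont.comp (continuous_const.sub continuous_id)).aestronglyMeasurable
    · rw [Real.norm_eq_abs]
      exact hX.abs_le _
  have e0 : (fun x => kn w κ x * (jo D c eta ts (t - x) + K * X (t - x))) =
      fun x => kn w κ x * jo D c eta ts (t - x) + K * (kn w κ x * X (t - x)) := by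
    funext x
    ring
  have i3 : Integrable fun x => kn w κ x * (jo D c eta ts (t - x) + K * X (t - x)) := by
    rw [e0]
    exact i1.add (i2.const_mul K)
  have e1 : ∫ x, kn w κ x * (jo D c eta ts (t - x) + K * X (t - x)) =
      sm (kn w κ) (jo D c eta ts) t + K * sm (kn w κ) X t := by
    rw [e0, integral_add i1 (i2.const_mul K), integral_const_mul]
    rfl
  obtain ⟨i4, b⟩ := hF w a κ h D hD (2 * eta) (fun y => jo D c eta ts y + K * X y) t i3
  rw [e1] at b
  have h1 : |2 * eta| * (A * (∫ x, |κ x|) * Real.exp (-(8 / 3) * D)) ≤ 2 * (A * cE * BqJ) * C := by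
    have h2 : A * (∫ x, |κ x|) ≤ A * (cE * C) := mul_le_mul_of_nonneg_left hm hA
    have h3 := exp_tiny hD hr
    have h4 : 0 ≤ |eta| * Real.exp (-(8 / 3) * D) := by positivity
    rw [abs_mul, abs_two]
    calc 2 * |eta| * (A * (∫ x, |κ x|) * Real.exp (-(8 / 3) * D)) =
          2 * (A * (∫ x, |κ x|) * (|eta| * Real.exp (-(8 / 3) * D))) := by ring
      _ ≤ 2 * (A * (cE * C) * BqJ) := by
          refine mul_le_mul_of_nonneg_left ?_ zero_le_two
          exact mul_le_mul h2 h3 h4 (by positivity)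
      _ = _ := by ring
  have i5 : Integrable fun x => κ x * (jo D c eta ts (t - x) + K * X (t - x) - 2 * eta * Nc D (t - x)) := i4
  have i6 : Integrable fun x => eta * κ x := h.ker.int.const_mul eta
  have e2 : (fun x => κ x * jtC D c eta ts K X (t - x)) = fun x =>
      κ x * (jo D c eta ts (t - x) + K * X (t - x) - 2 * eta * Nc D (t - x)) + eta * κ x := by
    funext x
    unfold jtC
    ring
  have e3 : ∫ x, κ x * jtC D c eta ts K X (t - x) =
      (∫ x, κ x * (jo D c eta ts (t - x) + K * X (t - x) - 2 * eta * Nc D (t - x))) + eta * (2 * Real.pi * w) := by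
    rw [e2, integral_add i5 i6, integral_const_mul, h.tot]
  refine ⟨by rw [e2]; exact i5.add i6, ?_⟩
  rw [e3]
  refine le_trans (le_of_eq ?_) (b.trans h1)
  congr 1
  ring

/-- **a flat object in the odd total current** at a height `t >= - (c - D - 1)`, uniformly: left branch and right branch. -/
theorem conf_unifC : ∃ A : ℝ, 0 ≤ A ∧ ∀ (w : ℝ) (a κ : ℝ → ℝ) (C : ℝ), Flat w a κ →
    (∀ x, |κ x| ≤ C * Real.exp (-2 * |x|)) → ∀ (D q x d c eta ts E t0 D0 D1 lam K t : ℝ) (X : ℝ → ℝ), Cut D q →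
    RngC D x d eta → AdmC D q eta ts → D + 1 ≤ c → OSlow E t0 D0 D1 lam X → -(c - D - 1) ≤ t →
    Integrable (fun x => κ x * jtC D c eta ts K X (t - x)) ∧
    (-eta * (2 * a t - 2 * Real.pi * w) - ∫ x, κ x * jtC D c eta ts K X (t - x) ≤
      A * C - 2 * Real.pi * w * (sm (kn w κ) (Jt D eta ts) (t - c) + K * sm (kn w κ) X t)) ∧
    (-eta * (2 * a t - 4 * Real.pi * w) - ∫ x, κ x * jtC D c eta ts K X (t - x) ≤
      A * C - 2 * Real.pi * w * (sm (kn w κ) (Jt D eta ts) (t - c) + K * sm (kn w κ) X t - eta)) := by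
  obtain ⟨A, hA, hF⟩ := flat_abs
  have hb := BqJ_pos
  have hcE := cE_nonneg
  refine ⟨A + 4 * BqJ * cE, by positivity,
    fun w a κ C h hC D q x d c eta ts E t0 D0 D1 lam K t X hc hr had hcD hX ht => ?_⟩
  have hD := hc.one
  obtain ⟨hC0, -, hm⟩ := ker_mass h.ker hC
  obtain ⟨i1, b⟩ := hF w a κ C h hC D q x d c eta ts E t0 D0 D1 lam K t X hc hr had hcD hX
  -- the reflected profile
  have hc0 := h.c0
  have hw0 : w ≠ 0 := h.pos.ne'
  have hsd : SD ((∫ x, |x| * |κ x|) / (2 * Real.pi * w)) (kn w κ) := by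
    refine ⟨h.kn_all.1, h.kn_all.2.1, h.kn_all.2.2, le_of_eq ?_⟩
    rw [← integral_div]
    congr 1
    funext x
    unfold kn
    rw [abs_div, abs_of_pos hc0]
    ring
  have h1 := jo_smear hc had hsd ht
  have h2 : 2 * Real.pi * w * |sm (kn w κ) (jo D c eta ts) t - sm (kn w κ) (Jt D eta ts) (t - c)| ≤
      4 * BqJ * cE * C := by
    have h3 : |eta| / D ≤ BqJ := by
      rw [div_le_iff₀ (by linarith)]
      exact hr.abs (by linarith)
    have hη : 0 ≤ |eta| / D := div_nonneg (abs_nonneg _) (by linarith)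
    have hI : 0 ≤ ∫ x, |x| * |κ x| := integral_nonneg fun x => by positivity
    calc 2 * Real.pi * w * |sm (kn w κ) (jo D c eta ts) t - sm (kn w κ) (Jt D eta ts) (t - c)|
        ≤ 2 * Real.pi * w * (4 * (|eta| / D) * ((∫ x, |x| * |κ x|) / (2 * Real.pi * w))) :=
          mul_le_mul_of_nonneg_left h1 hc0.le
      _ = 4 * (|eta| / D) * ∫ x, |x| * |κ x| := by
          field_simp
      _ ≤ 4 * BqJ * (cE * C) := mul_le_mul (by linarith) hm hI (by positivity)
      _ = _ := by ring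
  have h3 : 2 * Real.pi * w * (sm (kn w κ) (Jt D eta ts) (t - c) - sm (kn w κ) (jo D c eta ts) t) ≤
      4 * BqJ * cE * C := by
    refine le_trans (mul_le_mul_of_nonneg_left ?_ hc0.le) h2
    rw [abs_sub_comm]
    exact le_abs_self _
  have b2 := (abs_le.1 b).2
  refine ⟨i1, ?_, ?_⟩
  · nlinarith
  · nlinarith

/-- a flat object at the wall: a constant, whatever the orientation. -/
theorem conf_wall : ∃ A : ℝ, 0 ≤ A ∧ ∀ (w : ℝ) (a κ : ℝ → ℝ) (C : ℝ), Flat w a κ →
    (∀ x, |κ x| ≤ C * Real.exp (-2 * |x|)) → ∀ (D q x d c eta ts E t0 D0 D1 lam K t : ℝ) (X : ℝ → ℝ), Cut D q →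
    RngC D x d eta → AdmC D q eta ts → D + 1 ≤ c → OSlow E t0 D0 D1 lam X → |t| ≤ c - D - 1 → |t| ≤ t0 →
    0 ≤ K → K * lam ≤ 1 →
    |-eta * (2 * a t - 2 * Real.pi * w) - ∫ x, κ x * jtC D c eta ts K X (t - x)| ≤ A * C := by
  obtain ⟨A, hA, hF⟩ := flat_abs
  have hb := BqJ_pos
  have hcE := cE_nonneg
  refine ⟨A + 8 * BqJ * cE + cE, by positivity,
    fun w a κ C h hC D q x d c eta ts E t0 D0 D1 lam K t X hc hr had hcD hX ht ht0 hK hKl => ?_⟩
  have hD := hc.one
  obtain ⟨hC0, -, hm⟩ := ker_mass h.ker hC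
  obtain ⟨i1, b⟩ := hF w a κ C h hC D q x d c eta ts E t0 D0 D1 lam K t X hc hr had hcD hX
  have hc0 := h.c0
  have hw0 : w ≠ 0 := h.pos.ne'
  have hsd : SD ((∫ x, |x| * |κ x|) / (2 * Real.pi * w)) (kn w κ) := by
    refine ⟨h.kn_all.1, h.kn_all.2.1, h.kn_all.2.2, le_of_eq ?_⟩
    rw [← integral_div]
    congr 1
    funext x
    unfold kn
    rw [abs_div, abs_of_pos hc0]
    ring
  have h1 := jo_smear_low hc had hsd ht
  have h3 : |eta| / D ≤ BqJ := by
    rw [div_le_iff₀ (by linarith)]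
    exact hr.abs (by linarith)
  have hη : 0 ≤ |eta| / D := div_nonneg (abs_nonneg _) (by linarith)
  have hI : 0 ≤ ∫ x, |x| * |κ x| := integral_nonneg fun x => by positivity
  have h2 : 2 * Real.pi * w * |sm (kn w κ) (jo D c eta ts) t| ≤ 8 * BqJ * cE * C := by
    calc 2 * Real.pi * w * |sm (kn w κ) (jo D c eta ts) t|
        ≤ 2 * Real.pi * w * (8 * (|eta| / D) * ((∫ x, |x| * |κ x|) / (2 * Real.pi * w))) :=
          mul_le_mul_of_nonneg_left h1 hc0.le
      _ = 8 * (|eta| / D) * ∫ x, |x| * |κ x| := by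
          field_simp
      _ ≤ 8 * BqJ * (cE * C) := mul_le_mul (by linarith) hm hI (by positivity)
      _ = _ := by ring
  have h4 : |sm (kn w κ) X t| ≤ lam * ((∫ x, |x| * |κ x|) / (2 * Real.pi * w)) := by
    have := (smear hX.lip hsd.int hsd.mass hsd.int1 hsd.mom hX.lam0 t).2
    rw [hX.low t ht0, sub_zero] at this
    exact this
  have h5 : 2 * Real.pi * w * |K * sm (kn w κ) X t| ≤ cE * C := by
    rw [abs_mul, abs_of_nonneg hK]
    calc 2 * Real.pi * w * (K * |sm (kn w κ) X t|)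
        ≤ 2 * Real.pi * w * (K * (lam * ((∫ x, |x| * |κ x|) / (2 * Real.pi * w)))) :=
          mul_le_mul_of_nonneg_left (mul_le_mul_of_nonneg_left h4 hK) hc0.le
      _ = (K * lam) * ∫ x, |x| * |κ x| := by
          field_simp
      _ ≤ 1 * (cE * C) := mul_le_mul hKl hm hI zero_le_one
      _ = _ := one_mul _
  have h6 : |2 * Real.pi * w * (sm (kn w κ) (jo D c eta ts) t + K * sm (kn w κ) X t)| ≤
      8 * BqJ * cE * C + cE * C := by
    rw [abs_mul, abs_of_pos hc0]
    have := mul_le_mul_of_nonneg_left (abs_add_le (sm (kn w κ) (jo D c eta ts) t) (K * sm (kn w κ) X t)) hc0.le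
    linarith
  have h7 := abs_sub_abs_le_abs_sub
    (-eta * (2 * a t - 2 * Real.pi * w) - ∫ x, κ x * jtC D c eta ts K X (t - x))
    (-(2 * Real.pi * w * (sm (kn w κ) (jo D c eta ts) t + K * sm (kn w κ) X t)))
  rw [abs_neg] at h7
  nlinarith

/-! ### constituents of the objects that are not flat -/

/-- **one constituent, crude bound.** -/
theorem crudeC {C : ℝ} (hC : 0 ≤ C) {a : ℝ} {κ : ℝ → ℝ} {t : ℝ} (hc : Cut D q) (h : AdmC D q eta ts)
    (hcD : D + 1 ≤ c) (hX : OSlow E t0 D0 D1 lam X) (hE : E ≤ c + D + 1) (hK : 0 ≤ K)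
    (ha : |a| ≤ C * Real.exp (-bey (c + D) t)) (hκ : ∀ x, |κ x| ≤ C * Real.exp (-2 * |x|)) :
    |-eta * (2 * a) - ∫ x, κ x * jtC D c eta ts K X (t - x)| ≤
      C * (2 * |eta| + (3 * |eta| + K) * I1) * Real.exp (-bey (c + D) t) := by
  have h1 := conv_tail hC (by positivity : 0 ≤ 3 * |eta| + K) hκ (jtC_abs hc h hcD hX hK)
    (fun s hs => jtC_zero hc h hcD hX hE hs) t
  have h2 : |-eta * (2 * a)| ≤ 2 * |eta| * (C * Real.exp (-bey (c + D) t)) := by
    rw [abs_mul, abs_neg, abs_mul, abs_two]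
    have := mul_le_mul_of_nonneg_left ha (abs_nonneg eta)
    linarith
  have h3 := abs_sub (-eta * (2 * a)) (∫ x, κ x * jtC D c eta ts K X (t - x))
  refine h3.trans ((add_le_add h2 h1).trans (le_of_eq ?_))
  ring

/-! ### the pointwise bound -/

/-- **conf_totalC: the pointwise bound for a configuration of objects in the odd current.**  The heights `t i >= 0` are
heights on the half line; the cut is at `c + q`, `q = D (1 - 2 x)`. -/
theorem conf_totalC (M c0 W : ℝ) (hM : 0 ≤ M) (hW : 0 ≤ W) : ∃ C : ℝ, 0 ≤ C ∧ ∀ K C0 : ℝ, 0 ≤ K → 0 ≤ C0 →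
    ∃ CK : ℝ, 0 ≤ CK ∧
    ∀ (D q x d c E t0 D0 D1 lam eta : ℝ) (X : ℝ → ℝ), Cut D q → q = D * (1 - 2 * x) → D + 1 ≤ c → 0 ≤ D0 →
      D1 ≤ E → OSlow E t0 D0 D1 lam X →
      K * lam * M ≤ 1 → K * lam ≤ 1 → lam * (D0 + (E - D1)) ≤ C0 → RngC D x d eta →
    ∀ (ι : Type) (s : Finset ι) (fl : ι → Prop) (t w : ι → ℝ) (kap : ι → ℝ → ℝ)
      (nf : ι → ℝ) (lf : ℝ → ι → ℝ),
    (∀ i ∈ s, fl i → 1 ≤ w i ∧ w i ≤ W) → (∀ i ∈ s, fl i → SD M (kap i)) →
    (∀ ts, AdmC D q eta ts → ∀ i ∈ s, fl i → t i ≤ c + q → lf ts i ≤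
      c0 - 2 * Real.pi * w i * (sm (kap i) (Jt D eta ts) (t i - c) + K * sm (kap i) X (t i))) →
    (∀ ts, AdmC D q eta ts → ∀ i ∈ s, fl i → c + q < t i → lf ts i ≤
      c0 - 2 * Real.pi * w i * (sm (kap i) (Jt D eta ts) (t i - c) + K * sm (kap i) X (t i) - eta)) →
    (∀ ts, AdmC D q eta ts → ∀ i ∈ s, ¬ fl i → lf ts i ≤ nf i) → ∀ g : ι → ℝ,
    (∀ i ∈ s, fl i → C - 2 * Real.pi * w i * (K * X (t i)) ≤ g i) → (∀ i ∈ s, ¬ fl i → nf i ≤ g i) →
    ∃ ts, AdmC D q eta ts ∧
      1 / 2 * En (2 * eta) (fun t => (ao D c eta ts t + K * deriv X t) - 2 * eta * Pcut D t) + ∑ i ∈ s, lf ts i ≤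
        (-(2 * eta ^ 2) * (∫ t, P t * v t) + eta ^ 2 / (2 * (D / kap0)) + CK) +
          12 * Real.pi ^ 2 * d * (D / kap0) + ∑ i ∈ s, g i := by
  have hk := kap0_pos
  have hb := BqJ_pos
  have hpi := Real.pi_pos
  refine ⟨max 0 (c0 + 2 * Real.pi * W * (4 * BqJ * (M + 2)) + 2 * Real.pi * W), le_max_left _ _,
    fun K C0 hK hC0 => ?_⟩
  obtain ⟨CK, hCK, hEn⟩ := En_XC K C0 hK hC0
  refine ⟨CK, hCK, fun D q x d c E t0 D0 D1 lam eta X hcut hq hcD hD0 hD1 hX hl hl1 hl2 hr ι s fl t w kap nf lf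
    hw hkap h1 h2 h3 g hg1 hg2 => ?_⟩
  have hD := hcut.one
  have hX0 : 0 < D / kap0 := by positivity
  have hDp : 0 < D := by linarith
  have hcS : cSq D eta M ≤ 4 * BqJ * (M + 2) := by
    unfold cSq
    refine mul_le_mul_of_nonneg_right (mul_le_mul_of_nonneg_left ?_ (by norm_num)) (by linarith)
    rw [div_le_iff₀ hDp]
    exact hr.abs hDp.le
  exact confq s fl (fun i => t i - c) w kap (fun i => K * sm (kap i) X (t i)) nf
    (fun ts => 1 / 2 * En (2 * eta) (fun t => (ao D c eta ts t + K * deriv X t) - 2 * eta * Pcut D t)) lf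
    hcut hq hX0 hr.d0 hr.d1 hr.up hr.lo hM hw hkap
    (fun ts had => hEn D q x d c eta ts E t0 D0 D1 lam X hcut hcD hD0 hD1 hX hl1 hl2 hr had)
    (fun ts had i hi hf hti => h1 ts had i hi hf (by linarith))
    (fun ts had i hi hf hti => h2 ts had i hi hf (by linarith)) h3 g
    (fun i hi hf => by
      have h4 := hg1 i hi hf
      obtain ⟨w1, w2⟩ := hw i hi hf
      have h5 := hX.sm_ge (hkap i hi hf) hK hl (t i)
      have h6 := le_max_right 0 (c0 + 2 * Real.pi * W * (4 * BqJ * (M + 2)) + 2 * Real.pi * W)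
      have h7 : 2 * Real.pi * W * cSq D eta M ≤ 2 * Real.pi * W * (4 * BqJ * (M + 2)) :=
        mul_le_mul_of_nonneg_left hcS (by positivity)
      have h8 : 2 * Real.pi * w i * (K * X (t i) - 1) ≤ 2 * Real.pi * w i * (K * sm (kap i) X (t i)) :=
        mul_le_mul_of_nonneg_left h5 (by positivity)
      have h9 : 2 * Real.pi * w i ≤ 2 * Real.pi * W := mul_le_mul_of_nonneg_left w2 (by positivity)
      linarith) hg2

end

end TCCur
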