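import Pool.Agent.NUN.LMain

/-!
# The network with a cut edge (type C, link of the one-leg function)

The edge `p` of the domain is cut: its half edge `rv p` is attached to a new site `S`, its half edge `p` stays empty.
`cut_main`: the network of the domain with the cut edge, evaluated at the state with the single arc from `S` to the
outside half edge `q`, is the sum over the self-avoiding words that start with the half edge `p` (the vertex `p.1` may be
visited) and whose last edge is `rv q`.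
-/

set_option autoImplicit false

namespace Pool.Agent.NUN

open Pool.Agent.NUF Pool.Agent.NUF.LPat Pool.Agent.EXL.Net HexObs HexObs.LP

section loc

variable {Γ α K : Type*} [AddCommGroup Γ] [DecidableEq α] [CommRing K]

theorem comm_E_Cr (x : K) {k a b c : α} (h1 : k ≠ a) (h2 : k ≠ b) (h3 : k ≠ c) :
    Commute (NUF.lE Γ K k) (lCr Γ x a b c) := by
  unfold lCr
  exact (Commute.one_right _).add_right ((((comm_E_Cu h1 h2).add_right (comm_E_Cu h1 h3)).add_right
    (comm_E_Cu h2 h3)).smul_right x)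

theorem comm_E_Co (ν : Γ → K) (g : Γ) {k a b : α} (h1 : k ≠ a) (h2 : k ≠ b) :
    Commute (NUF.lE Γ K k) (lCo ν g a b) := by
  unfold lCo
  exact ((comm_E_E _ _).mul_right (comm_E_E _ _)).add_right ((comm_E_Tw _ _ _).mul_right (comm_E_Ct h1 h2))

end loc

variable {Γ : Type*} {K : Type} [AddCommGroup Γ] [CommRing K]

theorem comm_E_CR (x : K) {A : Finset Pt} {c : Lab} (hc : ∀ w ∈ A, ∀ d, c ≠ hf (w, d)) :
    Commute (NUF.lE Γ K c : LOp Γ K) (lCR Γ x A) := by
  refine Finset.noncommProd_commute A _ _ _ (fun u hu => ?_)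
  exact comm_E_Cr x (hc u hu _) (hc u hu _) (hc u hu _)

namespace Lb

variable (D : Lb Γ K)

theorem comm_E_cO {E : Finset (Sym2 Lab)} (hE : Edg E) {c : Lab} (hc : ∀ h, ed h ∈ E → c ≠ hf h) :
    Commute (NUF.lE Γ K c : LOp Γ K) (D.cO E hE) := by
  refine Finset.noncommProd_commute E _ _ _ (fun e he => ?_)
  obtain ⟨h, -, rfl⟩ := hE e he
  rw [cS_ed]
  exact comm_E_Co _ _ (hc h he) (hc (rv h) (by rw [ed_rv]; exact he))

/-- the contraction of the site `S` with a half edge commutes with the other edges. -/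
theorem comm_Co_cO {E : Finset (Sym2 Lab)} (hE : Edg E) (g : Γ) {S : Lab}
    (hS : ∀ h : Pt × Pt, h.2 ∈ dirs → S ≠ hf h) {k : Pt × Pt} (hk : ed k ∉ E) : Commute (lCo D.nu g S (hf k) : LOp Γ K) (D.cO E hE) := by
  refine Finset.noncommProd_commute E _ _ _ (fun e he => ?_)
  obtain ⟨h, hh, rfl⟩ := hE e he
  rw [cS_ed]
  refine lCo_comm D.even _ _ (hS _ hh.1) (hS _ (De_rv hh).1) ?_ ?_
  · intro e
    rw [Sum.inl.injEq] at e
    exact hk (by rw [e]; exact he)
  · intro e
    rw [Sum.inl.injEq] at e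
    exact hk (by rw [e, ed_rv]; exact he)

theorem dv_dirs (v : Pt) : dv v ∈ dirs ∧ rotL (rotL (dv v)) ∈ dirs ∧ rotR (rotR (dv v)) ∈ dirs := by
  unfold dv
  split_ifs <;> decide

theorem comm_Co_CR (x : K) {A : Finset Pt} (g : Γ) {S : Lab} (hS : ∀ h : Pt × Pt, h.2 ∈ dirs → S ≠ hf h)
    {k : Pt × Pt} (hk : k.1 ∉ A) :
    Commute (lCo D.nu g S (hf k) : LOp Γ K) (lCR Γ x A) := by
  refine Finset.noncommProd_commute A _ _ _ (fun u hu => ?_)
  have e : ∀ d : Pt, (hf (u, d) : Lab) ≠ hf k := by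
    intro d he
    rw [Sum.inl.injEq] at he
    exact hk (by rw [← he]; exact hu)
  unfold lCrv
  obtain ⟨d1, d2, d3⟩ := dv_dirs u
  exact (lCr_lCo_comm D.nu g x (hS _ d1).symm (e _) (hS _ d2).symm (e _) (hS _ d3).symm (e _)).symm

theorem cO_erase' {E : Finset (Sym2 Lab)} (hE : Edg E) {e : Sym2 Lab} (he : e ∈ E) :
    D.cO E hE = D.cO (E.erase e) (hE.erase e) * D.cS e :=
  (Finset.noncommProd_erase_mul E he _ _).symm

/-- the network with the cut edge `p`; `g0` = the label of the first half edge. -/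
noncomputable def Cut (x : K) (A : Finset Pt) (E : Finset (Sym2 Lab)) (hE : Edg E) (p : Pt × Pt) (S : Lab)
    (g0 : Γ) : LOp Γ K :=
  lCR Γ x A * (D.cO (E.erase (ed p)) (hE.erase _) * (lCo D.nu g0 S (hf (rv p)) * NUF.lE Γ K (hf p)))

variable {D}

/-- the empty half edge beyond the cut. -/
theorem cut_empty {x : K} {A : Finset Pt} {E : Finset (Sym2 Lab)} (hE : Edg E) {p : Pt × Pt} (hp : De p)
    (hpE : ed p ∈ E) (hA : p.1 + p.2 ∉ A) (F : LPat Γ Lab → K) {s : LPat Γ Lab}
    (hs : s (hf (rv p)) = hf (rv p)) :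
    (lCR Γ x A * (D.cO (E.erase (ed p)) (hE.erase _) * NUF.lE Γ K (hf p))) F s = D.Nt x A E hE F s := by
  set X : LOp Γ K := lCR Γ x A * D.cO (E.erase (ed p)) (hE.erase _) with hX
  set c : Lab := hf (rv p) with hc
  have hpc : (hf p : Lab) ≠ c := fun e => rv_ne hp (Sum.inl_injective e)
  have cm : Commute (NUF.lE Γ K c : LOp Γ K) X := by
    refine (comm_E_CR x ?_).mul_right (comm_E_cO D _ ?_)
    · intro w hw d e
      rw [hc, Sum.inl.injEq] at e
      have e1 : p.1 + p.2 = w := congrArg Prod.fst e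
      exact hA (by rw [e1]; exact hw)
    · intro h hh e
      rw [hc, Sum.inl.injEq] at e
      rw [← e, ed_rv, Finset.mem_erase] at hh
      exact hh.1 rfl
  have key : ∀ H : LPat Γ Lab → K, X H s = X (NUF.lE Γ K c H) s := by
    intro H
    have h1 : (NUF.lE Γ K c * X) H s = (X * NUF.lE Γ K c) H s := by rw [cm.eq]
    rw [Module.End.mul_apply, Module.End.mul_apply, lE_apply, if_pos hs] at h1
    exact h1
  have e1 : (lCR Γ x A * (D.cO (E.erase (ed p)) (hE.erase _) * NUF.lE Γ K (hf p))) = X * NUF.lE Γ K (hf p) := by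
    rw [hX, mul_assoc]
  have e2 : D.Nt x A E hE = X * D.cS (ed p) := by
    unfold Nt
    rw [D.cO_erase' hE hpE, hX, mul_assoc]
  rw [e1, e2]
  show X (NUF.lE Γ K (hf p) F) s = X (D.cS (ed p) F) s
  rw [key, key (D.cS (ed p) F)]
  refine congrFun (congrArg X ?_) s
  funext t
  rw [lE_apply, lE_apply, lE_apply, D.cS_ed, lCo_apply]
  by_cases h : t c = c
  · rw [if_pos h, if_pos h, if_neg (fun h' : OcOK (hf p) (hf (rv p)) t => h'.2.2 h), add_zero, if_pos h]
  · rw [if_neg h, if_neg h]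

/-- **The network with a cut edge.** -/
theorem cut_main {x : K} {z : Finset Pt → K} (hz : D.Gas x z) (h2 : ∀ a b : K, 2 * a = 2 * b → a = b)
    {A : Finset Pt} (hV : ∀ w ∈ A, Vt w) {E : Finset (Sym2 Lab)} (hE : Edg E) (hI : Incl A E)
    {p q : Pt × Pt} (hp : De p) (hw : p.1 + p.2 ∈ A) (hq : q.1 ∉ A) (hq2 : q.2 ∈ dirs) {S : Lab}
    (hS : ∀ h : Pt × Pt, h.2 ∈ dirs → S ≠ hf h)
    (g g0 : Γ) (F : LPat Γ Lab → K) :
    D.Cut x A E hE p S g0 F (arc S (hf q) g) =
      x * (D.Pw x z (A.erase (p.1 + p.2)) q (g - g0) (p.1 + p.2, rotL p.2) +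
        D.Pw x z (A.erase (p.1 + p.2)) q (g - g0) (p.1 + p.2, rotR p.2)) * F LPat.empty := by
  set w := p.1 + p.2 with hwd
  have hDw : De (w, -p.2) := De_rv hp
  have hrv : rv p = (w, -p.2) := rfl
  have hpE : ed p ∈ E := by
    rw [← ed_rv]
    exact hI w hw _ hDw
  have r1 : rotL (rotL (-p.2)) = rotR p.2 := by
    refine Prod.ext ?_ ?_ <;> simp only [rotL, rotR, Prod.fst_neg, Prod.snd_neg] <;> ring
  have r2 : rotR (rotR (-p.2)) = rotL p.2 := by
    refine Prod.ext ?_ ?_ <;> simp only [rotL, rotR, Prod.fst_neg, Prod.snd_neg] <;> ring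
  have hne : ∀ b : Bool, turn b p.2 ≠ -p.2 := by
    have key : ∀ d ∈ dirs, ∀ b : Bool, turn b d ≠ -d := by decide
    exact key p.2 hp.1
  have hwq : ∀ d : Pt, (w, d) ≠ q := fun d h => hq (by rw [← h]; exact hw)
  have hne' := Finset.notMem_erase w A
  -- the step at the first vertex
  have e : D.Cut x A E hE p S g0 = lCrv Γ x w * (lCo D.nu g0 S (hf (rv p)) *
      (lCR Γ x (A.erase w) * (D.cO (E.erase (ed p)) (hE.erase _) * NUF.lE Γ K (hf p)))) := by
    unfold Cut
    have c1 : Commute (lCo D.nu g0 S (hf (rv p)) : LOp Γ K) (lCR Γ x (A.erase w)) :=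
      D.comm_Co_CR x g0 hS hne'
    have c2 : Commute (lCo D.nu g0 S (hf (rv p)) : LOp Γ K) (D.cO (E.erase (ed p)) (hE.erase _)) := by
      refine D.comm_Co_cO _ g0 hS ?_
      rw [ed_rv]
      exact Finset.notMem_erase _ _
    rw [lCR_erase x hw]
    calc _ = lCrv Γ x w * (lCR Γ x (A.erase w) * ((D.cO (E.erase (ed p)) (hE.erase _) *
          lCo D.nu g0 S (hf (rv p))) * NUF.lE Γ K (hf p))) := by simp only [mul_assoc]
      _ = lCrv Γ x w * ((lCR Γ x (A.erase w) * lCo D.nu g0 S (hf (rv p))) *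
          (D.cO (E.erase (ed p)) (hE.erase _) * NUF.lE Γ K (hf p))) := by
        rw [← c2.eq]
        simp only [mul_assoc]
      _ = _ := by
        rw [← c1.eq]
        simp only [mul_assoc]
  have hrec : ∀ b : Bool, (lCR Γ x (A.erase w) * (D.cO (E.erase (ed p)) (hE.erase _) * NUF.lE Γ K (hf p))) F
      (arc (hf (w, turn b p.2)) (hf q) (g - g0)) =
      D.Pw x z (A.erase w) q (g - g0) (w, turn b p.2) * F LPat.empty := by
    intro b
    have hne2 : (hf (w, turn b p.2) : Lab) ≠ hf q := fun e => hwq _ (Sum.inl_injective e)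
    rw [cut_empty hE hp hpE hne' F]
    · exact (main hz h2 _ (A.erase w) rfl (fun u hu => hV u (Finset.mem_of_mem_erase hu))).2 E hE (hI.sub w)
        (w, turn b p.2) q (g - g0) (De_turn hp b) hne' (fun h => hq (Finset.mem_of_mem_erase h)) (hwq _)
        (hI w hw _ (De_turn hp b)) F
    · rw [hrv]
      refine arc_out _ hne2 ?_ ?_
      · intro e
        exact hne b (congrArg Prod.snd (Sum.inl_injective e)).symm
      · intro e
        exact hwq _ (Sum.inl_injective e)
  rw [e]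
  simp only [Module.End.mul_apply]
  rw [lCrv_eq x hDw, r1, r2, hrv]
  have m1 := hrec true
  have m2 := hrec false
  have i3 : (hf (w, -p.2) : Lab) ≠ hf (w, rotR p.2) :=
    fun h => hne false (congrArg Prod.snd (Sum.inl_injective h)).symm
  have i4 : (hf (w, -p.2) : Lab) ≠ hf (w, rotL p.2) :=
    fun h => hne true (congrArg Prod.snd (Sum.inl_injective h)).symm
  have i2 : ∀ d : Pt, (hf (w, d) : Lab) ≠ hf q := fun d h => hwq d (Sum.inl_injective h)
  have d1 : rotR p.2 ∈ dirs := (De_turn hp false).1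
  have d2 : rotL p.2 ∈ dirs := (De_turn hp true).1
  refine (step_in g0 g D.nu x (hS q hq2) (hS (w, -p.2) hDw.1).symm (i2 _) (hS (w, rotR p.2) d1).symm (i2 _)
    (hS (w, rotL p.2) d2).symm (i2 _) i3 i4 _).trans ?_
  simp only [Module.End.mul_apply] at m1 m2
  change x * (_ + (lCR Γ x (A.erase w)) _ (arc (hf (w, turn true p.2)) (hf q) (g - g0))) = _
  rw [m1]
  change x * ((lCR Γ x (A.erase w)) _ (arc (hf (w, turn false p.2)) (hf q) (g - g0)) + _) = _
  rw [m2]
  have t1 : turn true p.2 = rotL p.2 := rfl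
  have t2 : turn false p.2 = rotR p.2 := rfl
  rw [t1, t2]
  ring

/-- **The network with a cut edge is the sum over the words that start with the half edge `p`.** -/
theorem cut_words {x : K} {z : Finset Pt → K} (hz : D.Gas x z) (h2 : ∀ a b : K, 2 * a = 2 * b → a = b)
    {A : Finset Pt} (hV : ∀ w ∈ A, Vt w) {E : Finset (Sym2 Lab)} (hE : Edg E) (hI : Incl A E)
    {p q : Pt × Pt} (hp : De p) (hw : p.1 + p.2 ∈ A) (hq : q.1 ∉ A) (hq2 : q.2 ∈ dirs) {S : Lab}
    (hS : ∀ h : Pt × Pt, h.2 ∈ dirs → S ≠ hf h)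
    (g : Γ) (F : LPat Γ Lab → K) :
    D.Cut x A E hE p S (D.lab p) F (arc S (hf q) g) = D.Pw x z A q g p * F LPat.empty := by
  have hr : rv p ≠ q := fun h => hq (by rw [← h]; exact hw)
  rw [cut_main hz h2 hV hE hI hp hw hq hq2 hS, D.Pw_in x z g hw hr]

end Lb

end Pool.Agent.NUN
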