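import Pool.Agent.NUSea.H0.DatNC

/-!
# The data of an input

`datI I`: the data `Dat` of an input `I : Inp` alone: paths `t + i η t`, analytic potentials `I.A`, real
potentials `I.B`, densities `I.ν`, splitting `I.τD`; remainder `Qi + wO I`.  Objects are added to the
input itself (`TC/DatF2.lean`).  `IG`: the hypotheses; `IG.fld`, `IG.reg`, `exists_geo_I`, `exists_Qi`,
`exists_Nl_I`: field equation, regularity, geometry, quadratic part, local energy.
-/

set_option autoImplicit false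
set_option linter.unusedSectionVars false

open MeasureTheory Set Filter Topology

namespace TCDF

open NUMF NUKer NUAct NUSea.H0
open NUSea (path_of_cur_w)
open NU42 (norm_iD Crv)

noncomputable section

variable [NUSea.Sea]

/-- the quadratic part of the one body potential -/
def Qi (I : Inp) (a : Bool) (t : ℝ) : ℝ :=
  (∑ d, (NUSea.gas I.s (fun _ => I.η) (fun _ => I.η1) I.A).KB a d t).re

/-- the remainder -/
def phiI (I : Inp) (a : Bool) (t : ℝ) : ℝ := Qi I a t + wO I a t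

/-- **the data of an input** -/
def datI (I : Inp) : Dat where
  s := I.s
  ζ _ := NUAct.zt (iD I.η)
  ζ' _ := NUAct.zd (iD I.η1)
  F := I.A
  E := I.B
  τ := I.τD
  μ := I.ν
  φ := phiI I
  φ' a := deriv (phiI I a)

variable (I : Inp)

lemma datI_gas : (datI I).gas = NUSea.gas I.s (fun _ => I.η) (fun _ => I.η1) I.A := rfl

lemma datI_D (a : Bool) : (datI I).D a = iD I.η := by
  funext t
  unfold Dat.D
  show NUAct.zt (iD I.η) t - t = iD I.η t
  unfold NUAct.zt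
  ring

lemma datI_D1 (a : Bool) : (datI I).D1 a = iD I.η1 := by
  funext t
  unfold Dat.D1
  show NUAct.zd (iD I.η1) t - 1 = iD I.η1 t
  unfold NUAct.zd
  ring

/-- the equation -/
lemma datI_lin (a : Bool) (t : ℝ) : (datI I).gas.lin a t - Dat.sg a * (datI I).Gt t +
    (datI I).E a t = (datI I).Vm a t + (datI I).φ a t := by
  have e1 : (datI I).gas.lin a t = Qi I a t + (I.A a (NUAct.zt (iD I.η) t)).re := by
    rw [Gas.lin, Complex.add_re]
    rfl
  have e2 : (datI I).Gt t = NUC43.lgp I.τD t := rfl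
  have e3 : (datI I).E a t = I.B a t := rfl
  have e4 : (datI I).Vm a t = Vn I a t := rfl
  have e5 : (datI I).φ a t = Qi I a t + ((I.A a (NUAct.zt (iD I.η) t)).re +
      I.B a t - Dat.sg a * NUC43.lgp I.τD t - Vn I a t) := rfl
  rw [e1, e2, e3, e4, e5]
  ring

/-- hypotheses on the input -/
structure IG (ε M b : ℝ) (e : ℝ → ℝ) (I : Inp) : Prop where
  s0 : 0 ≤ I.s
  b0 : 0 ≤ b
  cur : NUSea.Cur I.s ε M b e I.η
  der : ∀ t, HasDerivAt I.η (I.η1 t) t
  ε1 : ε ≤ 1 / 40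
  Ae : ∀ a, Ext (NUMF.l / 10) (I.A a)
  Bc : ∀ a, Continuous (I.B a)
  Bb : ∀ a, ∃ C, ∀ t, |I.B a t| ≤ C
  νc : ∀ a, Continuous (I.ν a)
  νi : ∀ a, Integrable (I.ν a)
  νb : ∀ a, ∃ C, ∀ t, |I.ν a t| ≤ C
  τi : Integrable I.τD
  τ1 : Integrable fun x => I.τD x * x
  wc : ∀ a, ContDiff ℝ 1 (wO I a)
  wb : ∀ a, ∃ C, ∀ t, |wO I a t| ≤ C

variable {I} {dl ε M b : ℝ} {e : ℝ → ℝ}

/-- the hypotheses of type A contain `IG` -/
theorem IG.of_ok {P : NUO.Par} {r : ℕ} (h : IOk dl ε M b e I P r) : IG ε M b e I :=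
  ⟨h.s0, h.b0, h.cur, h.der, h.ε1, h.Ae, h.Bc, h.Bb, h.νc, h.νi, h.νb, h.τi, h.τ1, h.wc, h.wb⟩

namespace IG

variable (h : IG ε M b e I)

include h

lemma εl : ε < NUMF.l / 10 := by
  refine h.ε1.trans_lt ?_
  unfold NUMF.l
  have := Real.pi_gt_d2
  linarith

lemma eta (t : ℝ) : |I.η t| ≤ ε := (norm_iD I.η t).symm.le.trans ((h.cur.oc.le t).trans (h.cur.le t))

lemma eta1 (t : ℝ) : |I.η1 t| ≤ ε :=
  (norm_iD I.η1 t).symm.le.trans (((h.cur.oc1 h.der).le t).trans (h.cur.le t))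

lemma eta1_cont : Continuous I.η1 := by
  have h1 := Complex.continuous_im.comp (h.cur.oc1 h.der).cont
  refine h1.congr fun t => ?_
  simp [iD]

lemma crv : Crv ε b I.η I.η1 where
  hd := h.der
  hc := h.eta1_cont
  h0 := h.eta
  h1 := h.eta1
  hz t ht := by
    have h1 := (norm_iD I.η t).symm.le.trans (h.cur.oc.le t)
    rw [h.cur.supp t ht] at h1
    exact abs_nonpos_iff.1 h1

lemma path : Path (NUMF.l / 10) (1 / 2) 2 (NUAct.zt (iD I.η)) (NUAct.zd (iD I.η1)) :=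
  path_of_cur_w h.s0 (h.ε1.trans (by norm_num)) h.εl.le h.cur h.der

lemma eta_lt (t : ℝ) : |I.η t| < 1 / 8 * NUMF.l := by
  have hl := NUMF.l_pos
  have := h.eta t
  have := h.εl
  linarith

/-- **the equation of the data** -/
theorem fld {p n : ℕ} (hpn : (p : ℝ) - n = ∫ x, I.τD x) : Fld (datI I) p n :=
  ⟨h.τi, h.τ1, hpn.symm, datI_lin I⟩

theorem Qi_C1 (a : Bool) : ContDiff ℝ 1 (Qi I a) := by
  obtain ⟨K, hK, H⟩ := NUSea.exists_phiQ''
  obtain ⟨Q', h1, h2, h3, h4⟩ := H h.s0 h.b0 (h.ε1.trans (by norm_num)) h.cur h.der I.A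
  have e1 : deriv (Qi I a) = Q' := funext fun t => (h2 a t).deriv
  rw [contDiff_one_iff_deriv, e1]
  exact ⟨fun t => (h2 a t).differentiableAt, h1⟩

/-- the remainder is `C^1` -/
theorem phi_C1 (a : Bool) : ContDiff ℝ 1 (phiI I a) := (h.Qi_C1 a).add (h.wc a)

end IG

/-- **the quadratic part** -/
theorem exists_Qi : ∃ K : ℝ, 1 ≤ K ∧ ∀ {I : Inp} {ε M b : ℝ} {e : ℝ → ℝ}, IG ε M b e I →
    ∀ a t, |Qi I a t| ≤ K * (M * ε) * Wb b t ∧ |deriv (Qi I a) t| ≤ K * (M * ε) * Wb b t := by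
  obtain ⟨K, hK, H⟩ := NUSea.exists_phiQ''
  refine ⟨K, hK, fun {I ε M b e} h a t => ?_⟩
  obtain ⟨Q', h1, h2, h3, h4⟩ := H h.s0 h.b0 (h.ε1.trans (by norm_num)) h.cur h.der I.A
  refine ⟨h3 a t, ?_⟩
  have e1 : deriv (Qi I a) t = Q' t := (h2 a t).deriv
  rw [e1]
  exact h4 t

/-- **size of the remainder** -/
theorem exists_phi_I : ∃ K : ℝ, 1 ≤ K ∧ ∀ {I : Inp} {ε M b : ℝ} {e : ℝ → ℝ}, IG ε M b e I →
    ∀ a t, |phiI I a t| ≤ K * (M * ε) + |wO I a t| := by
  obtain ⟨K, hK, H⟩ := exists_Qi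
  have hW := Wm_nonneg
  refine ⟨1 + K * Wm, by
    have : 0 ≤ K * Wm := by positivity
    linarith, fun {I ε M b e} h a t => ?_⟩
  have hM := h.cur.M0 h.s0
  have hε := h.cur.ε0
  have h0 : 0 ≤ M * ε := mul_nonneg hM hε
  have h1 : |Qi I a t| ≤ K * (M * ε) * Wm :=
    ((H h a t).1).trans (mul_le_mul_of_nonneg_left (Wb_le b t) (by positivity))
  unfold phiI
  refine (abs_add_le _ _).trans ?_
  nlinarith

namespace IG

variable (h : IG ε M b e I)

include h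

theorem phi_bdd (a : Bool) : ∃ C, ∀ t, |phiI I a t| ≤ C := by
  obtain ⟨K, hK, H⟩ := exists_phi_I
  obtain ⟨C1, hC1⟩ := h.wb a
  exact ⟨K * (M * ε) + C1, fun t => (H h a t).trans (by linarith [hC1 t])⟩

/-- **regularity of the data** -/
theorem reg : Reg (datI I) where
  μi := h.νi
  μc := h.νc
  μb := h.νb
  φc a := (h.phi_C1 a).continuous
  φb := h.phi_bdd
  Ec := h.Bc
  Eb := h.Bb

/-- **regularity and tails of the data** -/
theorem regT {T0 δ : ℝ} (ht : ∀ a t, T0 ≤ |t| → |rm (datI I) a t| ≤ δ * Real.exp (-(|t| - T0)))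
    (h0 : 0 ≤ δ) (h1 : δ ^ 2 * (1 + Real.log (1 + T0)) ≤ 1) (hT0 : 0 ≤ T0)
    (hφ : ∀ a t, δ * |phiI I a t| ≤ 1) : RegT (datI I) T0 δ where
  toReg := h.reg
  tail := ht
  φd a t := ((h.phi_C1 a).differentiable (by norm_num) t).hasDerivAt
  φc' a := (h.phi_C1 a).continuous_deriv le_rfl
  δφ := hφ
  δ0 := h0
  δ1 := h1
  T0 := hT0

end IG

/-- **the geometry of the data** -/
theorem exists_geo_I : ∃ K : ℝ, 20 ≤ K ∧ ∀ {I : Inp} {ε M b : ℝ} {e : ℝ → ℝ}, IG ε M b e I →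
    K * ε ≤ 1 → Geo (datI I) (K * ε) := by
  obtain ⟨K, hK, H⟩ := NU42.exists_line
  refine ⟨K, hK, fun {I ε M b e} h hs => ?_⟩
  obtain ⟨h1, h2, h3, h4, h5, h6⟩ := H ε b I.η I.η1 I.η I.η1 h.crv h.crv hs
  have hl := NUMF.l_pos
  refine ⟨h.s0, ⟨NUMF.l / 10, 1 / 2, 2, by linarith, fun _ => h.path, fun a => h.Ae a⟩, ?_, ?_⟩
  · rw [datI_D, datI_D1, datI_D, datI_D1]
    exact h1
  · intro a d
    have h7 := h3 a d
    unfold Dat.κ
    rw [datI_D, datI_D1, datI_D]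
    cases a <;> cases d <;> exact h7

/-- **local energy of the remainder** -/
theorem exists_Nl_I : ∃ K : ℝ, 1 ≤ K ∧ ∀ {I : Inp} {ε M b : ℝ} {e : ℝ → ℝ}, IG ε M b e I →
    ∀ T : ℝ, 0 ≤ T → ∀ a, Nl (datI I) T a ≤ K * ((M * ε) ^ 2 * b) + 2 * NW I T a := by
  obtain ⟨K, hK, H⟩ := exists_Qi
  have hW := Wm_nonneg
  refine ⟨1 + 8 * K ^ 2 * Wm ^ 2, by
    have : 0 ≤ 8 * K ^ 2 * Wm ^ 2 := by positivity
    linarith, fun {I ε M b e} h T hT a => ?_⟩
  have hM := h.cur.M0 h.s0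
  have hε := h.cur.ε0
  have hb := h.b0
  have hQc := h.Qi_C1 a
  have hwc := h.wc a
  have hφc := h.phi_C1 a
  have hder : ∀ t, deriv (phiI I a) t = deriv (Qi I a) t + deriv (wO I a) t := by
    intro t
    exact (((hQc.differentiable (by norm_num)) t).hasDerivAt.add
      ((hwc.differentiable (by norm_num)) t).hasDerivAt).deriv
  have hpt : ∀ t, phiI I a t ^ 2 + deriv (phiI I a) t ^ 2 ≤
      4 * (K ^ 2 * (M * ε) ^ 2) * Wb b t ^ 2 + 2 * (wO I a t ^ 2 + deriv (wO I a) t ^ 2) := by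
    intro t
    have g3 := H h a t
    have a1 : Qi I a t ^ 2 ≤ K ^ 2 * (M * ε) ^ 2 * Wb b t ^ 2 := by
      rw [← sq_abs]
      calc |Qi I a t| ^ 2 ≤ (K * (M * ε) * Wb b t) ^ 2 := by gcongr; exact g3.1
        _ = _ := by ring
    have a2 : deriv (Qi I a) t ^ 2 ≤ K ^ 2 * (M * ε) ^ 2 * Wb b t ^ 2 := by
      rw [← sq_abs]
      calc |deriv (Qi I a) t| ^ 2 ≤ (K * (M * ε) * Wb b t) ^ 2 := by gcongr; exact g3.2
        _ = _ := by ring
    rw [hder]
    unfold phiI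
    nlinarith [sq_nonneg (Qi I a t - wO I a t), sq_nonneg (deriv (Qi I a) t - deriv (wO I a) t)]
  have hle : -(T + 1) ≤ T + 1 := by linarith
  have iWb : Integrable (fun t => Wb b t ^ 2) ∧ ∫ t, Wb b t ^ 2 ≤ 2 * Wm ^ 2 * b := by
    obtain ⟨i1, e1⟩ := Wb_int hb
    have h1 : ∀ t, Wb b t ^ 2 ≤ Wm * Wb b t := fun t => by
      have h3 := Wb_le b t
      have h4 := Wb_nonneg b t
      nlinarith
    have i2 : Integrable fun t => Wb b t ^ 2 := by
      refine (i1.const_mul Wm).mono' (i1.aestronglyMeasurable.pow 2) (ae_of_all _ fun t => ?_)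
      rw [Real.norm_eq_abs, abs_of_nonneg (sq_nonneg _)]
      exact h1 t
    refine ⟨i2, (integral_mono i2 (i1.const_mul Wm) h1).trans (le_of_eq ?_)⟩
    rw [integral_const_mul, e1]
    ring
  have cw : Continuous fun t => wO I a t ^ 2 + deriv (wO I a) t ^ 2 :=
    (hwc.continuous.pow 2).add ((hwc.continuous_deriv le_rfl).pow 2)
  have j1 : IntervalIntegrable (fun t => 4 * (K ^ 2 * (M * ε) ^ 2) * Wb b t ^ 2) volume
      (-(T + 1)) (T + 1) := (iWb.1.const_mul _).intervalIntegrable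
  have j4 : IntervalIntegrable (fun t => 2 * (wO I a t ^ 2 + deriv (wO I a) t ^ 2)) volume
      (-(T + 1)) (T + 1) := (continuous_const.mul cw).intervalIntegrable _ _
  have cφ : Continuous fun t => phiI I a t ^ 2 + deriv (phiI I a) t ^ 2 :=
    (hφc.continuous.pow 2).add ((hφc.continuous_deriv le_rfl).pow 2)
  have k1 : ∫ t in (-(T + 1))..(T + 1), 4 * (K ^ 2 * (M * ε) ^ 2) * Wb b t ^ 2 ≤
      4 * (K ^ 2 * (M * ε) ^ 2) * (2 * Wm ^ 2 * b) := by
    rw [intervalIntegral.integral_const_mul, intervalIntegral.integral_of_le hle]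
    refine mul_le_mul_of_nonneg_left ?_ (by positivity)
    exact (setIntegral_le_integral iWb.1 (ae_of_all _ fun t => sq_nonneg _)).trans iWb.2
  have e0 : Nl (datI I) T a =
      ∫ t in (-(T + 1))..(T + 1), (phiI I a t ^ 2 + deriv (phiI I a) t ^ 2) := rfl
  rw [e0]
  refine (intervalIntegral.integral_mono_on hle (cφ.intervalIntegrable _ _)
    (j1.add j4) fun t _ => hpt t).trans ?_
  rw [intervalIntegral.integral_add j1 j4]
  have e5 : ∫ t in (-(T + 1))..(T + 1), 2 * (wO I a t ^ 2 + deriv (wO I a) t ^ 2) =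
      2 * NW I T a := by
    rw [intervalIntegral.integral_const_mul]
    rfl
  rw [e5]
  have h9 : 0 ≤ (M * ε) ^ 2 * b := by positivity
  nlinarith

end

end TCDF
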