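import Pool.Agent.NU42.Defs
import Pool.Agent.NUDi.F2

/-!
# The doubled (symmetric) configuration of the folded gas

For `t : Fin p → ℝ` (quanta of the folded gas, `t ≥ 0`) the configuration `dbl t : Fin (p + p) → ℝ`
consists of the points `t i` and `- t i`.  Every pointwise statement of the whole line gas is
applied to `dbl t`, `dbl t'`.

* `sum_dbl`, `prod_dbl`, `sum2_dbl`: sums and products of a function of one point;
* `pairs_dbl`: product over pairs of an even function = square of the folded product times the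
  images of the points themselves;
* `cross_dbl`: product over the cross pairs = square of the folded one;
* `powF`, `crF`, `pom_dbl`, `br2_dbl`;
* `nuF_dbl`, `nuF_dbl_odd`, `nuF_dbl_even`: linear statistics.
-/

set_option autoImplicit false

open MeasureTheory Set Filter Topology

namespace TCD

noncomputable section

variable {p n : ℕ}

/-- the doubled configuration -/
def dbl (t : Fin p → ℝ) : Fin (p + p) → ℝ := Fin.append t fun i => -t i

@[simp] lemma dbl_left (t : Fin p → ℝ) (i : Fin p) : dbl t (Fin.castAdd p i) = t i :=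
  Fin.append_left _ _ i

@[simp] lemma dbl_right (t : Fin p → ℝ) (i : Fin p) : dbl t (Fin.natAdd p i) = -t i :=
  Fin.append_right _ _ i

lemma dbl_meas : Measurable (dbl : (Fin p → ℝ) → Fin (p + p) → ℝ) := by
  refine measurable_pi_iff.2 fun i => ?_
  refine Fin.addCases (fun j => ?_) (fun j => ?_) i
  · simp only [dbl_left]
    exact measurable_pi_apply j
  · simp only [dbl_right]
    exact (measurable_pi_apply j).neg

lemma dbl_abs {R : ℝ} {t : Fin p → ℝ} (h : ∀ i, |t i| ≤ R) (i : Fin (p + p)) : |dbl t i| ≤ R := by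
  refine Fin.addCases (fun j => ?_) (fun j => ?_) i
  · rw [dbl_left]
    exact h j
  · rw [dbl_right, abs_neg]
    exact h j

/-- products of a function of one point -/
lemma prod_dbl {M : Type*} [CommMonoid M] (f : ℝ → M) (t : Fin p → ℝ) :
    ∏ i, f (dbl t i) = ∏ i, (f (t i) * f (-t i)) := by
  rw [Fin.prod_univ_add, Finset.prod_mul_distrib]
  simp only [dbl_left, dbl_right]

/-- sums of a function of one point -/
lemma sum_dbl {M : Type*} [AddCommMonoid M] (f : ℝ → M) (t : Fin p → ℝ) :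
    ∑ i, f (dbl t i) = ∑ i, (f (t i) + f (-t i)) := by
  rw [Fin.sum_univ_add, Finset.sum_add_distrib]
  simp only [dbl_left, dbl_right]

lemma sum_dbl_even {f : ℝ → ℝ} (hf : ∀ x, f (-x) = f x) (t : Fin p → ℝ) :
    ∑ i, f (dbl t i) = 2 * ∑ i, f (t i) := by
  rw [sum_dbl, Finset.mul_sum]
  exact Finset.sum_congr rfl fun i _ => by rw [hf]; ring

lemma sum_dbl_odd {f : ℝ → ℝ} (hf : ∀ x, f (-x) = -f x) (t : Fin p → ℝ) :
    ∑ i, f (dbl t i) = 0 := by
  rw [sum_dbl]
  exact Finset.sum_eq_zero fun i _ => by rw [hf]; ring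

lemma prod_dbl_even {f : ℝ → ℝ} (hf : ∀ x, f (-x) = f x) (t : Fin p → ℝ) :
    ∏ i, f (dbl t i) = (∏ i, f (t i)) ^ 2 := by
  rw [prod_dbl, ← Finset.prod_pow]
  exact Finset.prod_congr rfl fun i _ => by rw [hf]; ring

/-- double sums over the doubled configurations -/
lemma sum2_dbl {M : Type*} [AddCommMonoid M] (f : ℝ → ℝ → M) (t : Fin p → ℝ) (t' : Fin n → ℝ) :
    ∑ i, ∑ j, f (dbl t i) (dbl t' j) =
      ∑ i, ∑ j, (f (t i) (t' j) + f (t i) (-t' j) + (f (-t i) (t' j) + f (-t i) (-t' j))) := by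
  have h : ∀ x : ℝ, ∑ j, f x (dbl t' j) = ∑ j, (f x (t' j) + f x (-t' j)) := fun x =>
    sum_dbl (f x) t'
  rw [Finset.sum_congr rfl fun i _ => h (dbl t i), sum_dbl (fun x => ∑ j, (f x (t' j) + f x (-t' j)))]
  exact Finset.sum_congr rfl fun i _ => by rw [← Finset.sum_add_distrib]

/-! ### pair products -/

/-- product over the ordered pairs of `Fin (m + n)` -/
lemma prod_Ioi_add {M : Type*} [CommMonoid M] {m k : ℕ} (K : Fin (m + k) → Fin (m + k) → M) :
    ∏ i, ∏ j ∈ Finset.Ioi i, K i j =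
      (∏ i : Fin m, ∏ j ∈ Finset.Ioi i, K (Fin.castAdd k i) (Fin.castAdd k j)) *
        (∏ i : Fin m, ∏ j : Fin k, K (Fin.castAdd k i) (Fin.natAdd m j)) *
        ∏ i : Fin k, ∏ j ∈ Finset.Ioi i, K (Fin.natAdd m i) (Fin.natAdd m j) := by
  have h : ∀ {r : ℕ} (i : Fin r) (f : Fin r → M), ∏ j ∈ Finset.Ioi i, f j =
      ∏ j, if i < j then f j else 1 := by
    intro r i f
    rw [← Finset.prod_filter]
    refine Finset.prod_congr ?_ fun _ _ => rfl
    ext j
    simp
  simp_rw [h]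
  rw [Fin.prod_univ_add]
  simp_rw [Fin.prod_univ_add]
  have e1 : ∀ (i : Fin m) (j : Fin k), Fin.castAdd k i < Fin.natAdd m j := by
    intro i j
    rw [Fin.lt_def]
    simp only [Fin.val_castAdd, Fin.val_natAdd]
    omega
  have e2 : ∀ (i : Fin k) (j : Fin m), ¬ Fin.natAdd m i < Fin.castAdd k j := by
    intro i j
    rw [Fin.lt_def]
    simp only [Fin.val_castAdd, Fin.val_natAdd]
    omega
  have e3 : ∀ i j : Fin m, (Fin.castAdd k i < Fin.castAdd k j) = (i < j) := by
    intro i j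
    rw [Fin.lt_def, Fin.lt_def]
    simp only [Fin.val_castAdd]
  have e4 : ∀ i j : Fin k, (Fin.natAdd m i < Fin.natAdd m j) = (i < j) := by
    intro i j
    rw [Fin.lt_def, Fin.lt_def]
    simp only [Fin.val_natAdd, add_lt_add_iff_left]
  simp only [e1, e2, e3, e4, if_true, if_false, Finset.prod_const_one, one_mul,
    Finset.prod_mul_distrib]

/-- all pairs of a symmetric kernel = diagonal times the square of the ordered pairs -/
lemma prod_prod_symm {m : ℕ} (K : Fin m → Fin m → ℝ) (hK : ∀ i j, K i j = K j i) :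
    ∏ i, ∏ j, K i j = (∏ i, K i i) * (∏ i, ∏ j ∈ Finset.Ioi i, K i j) ^ 2 := by
  induction m with
  | zero => simp
  | succ m ih =>
    have h1 := ih (fun i j => K i.succ j.succ) fun i j => hK _ _
    have h2 : ∏ i : Fin (m + 1), ∏ j ∈ Finset.Ioi i, K i j =
        (∏ j : Fin m, K 0 j.succ) * ∏ i : Fin m, ∏ j ∈ Finset.Ioi i, K i.succ j.succ := by
      rw [Fin.prod_univ_succ, Fin.prod_Ioi_zero]
      congr 1
      exact Finset.prod_congr rfl fun i _ => Fin.prod_Ioi_succ (fun j => K i.succ j) i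
    rw [h2, Fin.prod_univ_succ, Fin.prod_univ_succ (fun i => K i i), Fin.prod_univ_succ (fun j => K 0 j)]
    have h3 : ∏ i : Fin m, ∏ j, K i.succ j = (∏ i : Fin m, K 0 i.succ) *
        ∏ i : Fin m, ∏ j : Fin m, K i.succ j.succ := by
      rw [← Finset.prod_mul_distrib]
      exact Finset.prod_congr rfl fun i _ => by rw [Fin.prod_univ_succ, hK i.succ 0]
    rw [h3, h1]
    ring

/-- folded pair product of the function `F` (no self images) -/
def fp (F : ℝ → ℝ) (t : Fin p → ℝ) : ℝ :=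
  ∏ i, ∏ j ∈ Finset.Ioi i, (F (t i - t j) * F (t i + t j))

/-- folded cross product of the function `F` -/
def fc (F : ℝ → ℝ) (t : Fin p → ℝ) (t' : Fin n → ℝ) : ℝ :=
  ∏ i, ∏ j, (F (t i - t' j) * F (t i + t' j))

/-- **pairs of the doubled configuration** -/
theorem pairs_dbl {F : ℝ → ℝ} (hF : ∀ x, F (-x) = F x) (t : Fin p → ℝ) :
    ∏ i, ∏ j ∈ Finset.Ioi i, F (dbl t i - dbl t j) = fp F t ^ 2 * ∏ i, F (2 * t i) := by
  rw [prod_Ioi_add fun i j => F (dbl t i - dbl t j)]
  simp only [dbl_left, dbl_right]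
  have e1 : ∀ i j : Fin p, F (-t i - -t j) = F (t i - t j) := fun i j => by
    rw [show -t i - -t j = -(t i - t j) by ring, hF]
  have e2 : ∀ i j : Fin p, F (t i - -t j) = F (t i + t j) := fun i j => by rw [sub_neg_eq_add]
  simp only [e1, e2]
  rw [prod_prod_symm (fun i j => F (t i + t j)) (fun i j => by rw [add_comm])]
  have e3 : ∏ i, F (t i + t i) = ∏ i, F (2 * t i) :=
    Finset.prod_congr rfl fun i _ => by rw [two_mul]
  rw [e3]
  have e4 : fp F t = (∏ i, ∏ j ∈ Finset.Ioi i, F (t i - t j)) *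
      ∏ i, ∏ j ∈ Finset.Ioi i, F (t i + t j) := by
    unfold fp
    simp_rw [Finset.prod_mul_distrib]
  rw [e4]
  ring

/-- **cross pairs of the doubled configurations** -/
theorem cross_dbl {F : ℝ → ℝ} (hF : ∀ x, F (-x) = F x) (t : Fin p → ℝ) (t' : Fin n → ℝ) :
    ∏ i, ∏ j, F (dbl t i - dbl t' j) = fc F t t' ^ 2 := by
  have h : ∀ x : ℝ, ∏ j, F (x - dbl t' j) = ∏ j, (F (x - t' j) * F (x - -t' j)) := fun x =>
    prod_dbl (fun y => F (x - y)) t'
  rw [Finset.prod_congr rfl fun i _ => h (dbl t i),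
    prod_dbl (fun x => ∏ j, (F (x - t' j) * F (x - -t' j)))]
  unfold fc
  rw [← Finset.prod_pow]
  refine Finset.prod_congr rfl fun i _ => ?_
  rw [← Finset.prod_mul_distrib, ← Finset.prod_pow]
  refine Finset.prod_congr rfl fun j _ => ?_
  rw [show -t i - t' j = -(t i + t' j) by ring, show -t i - -t' j = -(t i - t' j) by ring,
    show t i - -t' j = t i + t' j by ring, hF, hF]
  ring

lemma fp_nonneg {F : ℝ → ℝ} (h : ∀ x, 0 ≤ F x) (t : Fin p → ℝ) : 0 ≤ fp F t :=
  Finset.prod_nonneg fun _ _ => Finset.prod_nonneg fun _ _ => mul_nonneg (h _) (h _)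

lemma fp_pos {F : ℝ → ℝ} (h : ∀ x, 0 < F x) (t : Fin p → ℝ) : 0 < fp F t :=
  Finset.prod_pos fun _ _ => Finset.prod_pos fun _ _ => mul_pos (h _) (h _)

lemma fc_nonneg {F : ℝ → ℝ} (h : ∀ x, 0 ≤ F x) (t : Fin p → ℝ) (t' : Fin n → ℝ) : 0 ≤ fc F t t' :=
  Finset.prod_nonneg fun _ _ => Finset.prod_nonneg fun _ _ => mul_nonneg (h _) (h _)

lemma fc_pos {F : ℝ → ℝ} (h : ∀ x, 0 < F x) (t : Fin p → ℝ) (t' : Fin n → ℝ) : 0 < fc F t t' :=
  Finset.prod_pos fun _ _ => Finset.prod_pos fun _ _ => mul_pos (h _) (h _)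

lemma fp_meas {F : ℝ → ℝ} (h : Measurable F) : Measurable (fp F : (Fin p → ℝ) → ℝ) := by
  unfold fp
  exact Finset.measurable_prod _ fun i _ => Finset.measurable_prod _ fun j _ => by fun_prop

lemma fc_meas {F : ℝ → ℝ} (h : Measurable F) :
    Measurable fun x : (Fin p → ℝ) × (Fin n → ℝ) => fc F x.1 x.2 := by
  unfold fc
  exact Finset.measurable_prod _ fun i _ => Finset.measurable_prod _ fun j _ => by fun_prop

lemma fp_mul (F G : ℝ → ℝ) (t : Fin p → ℝ) : fp (fun x => F x * G x) t = fp F t * fp G t := by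
  unfold fp
  simp_rw [← Finset.prod_mul_distrib]
  exact Finset.prod_congr rfl fun i _ => Finset.prod_congr rfl fun j _ => by ring

lemma g_even (x : ℝ) : NUMF.g (-x) = NUMF.g x := by
  unfold NUMF.g
  rw [Real.cosh_neg, show 2 * -x = -(2 * x) by ring, Real.cosh_neg]

lemma w_even (x : ℝ) : NUMF.w (-x) = NUMF.w x := by
  unfold NUMF.w
  rw [Real.sinh_neg, show 2 * -x = -(2 * x) by ring, Real.cosh_neg, neg_sq]

lemma om_even (x : ℝ) : NU42.om (-x) = NU42.om x := by
  unfold NU42.om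
  rw [w_even, g_even]

/-- the common pair products of the doubled configuration -/
theorem pom_dbl (t : Fin p → ℝ) :
    NU42.pom (dbl t) = fp NU42.om t ^ 2 * ∏ i, NU42.om (2 * t i) := by
  unfold NU42.pom
  exact pairs_dbl om_even t

/-- cross over own folded pair products, no self images -/
def br2F (g : ℝ → ℝ) (s : Fin p → ℝ) (s' : Fin n → ℝ) : ℝ := fc g s s' / (fp g s * fp g s')

/-- `br2` of the doubled configurations -/
theorem br2_dbl {g : ℝ → ℝ} (hg : ∀ x, g (-x) = g x) (s : Fin p → ℝ) (s' : Fin n → ℝ) :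
    NUE.br2 g (dbl s) (dbl s') =
      br2F g s s' ^ 2 / ((∏ i, g (2 * s i)) * ∏ j, g (2 * s' j)) := by
  unfold NUE.br2 br2F
  rw [pairs_dbl hg, pairs_dbl hg, cross_dbl hg, div_pow, div_div]
  congr 1
  ring

/-! ### linear statistics -/

open NUKer

/-- linear statistic of the doubled configuration -/
lemma nuF_dbl (ρ : ℝ → ℝ) (t : Fin p → ℝ) (f : ℝ → ℝ) :
    nuF ρ (dbl t) f = ∑ i, (f (t i) + f (-t i)) - ∫ x, f x * ρ x := by
  unfold nuF
  rw [sum_dbl]

/-- the integral of an odd function vanishes -/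
lemma integral_odd {f : ℝ → ℝ} (hf : ∀ x, f (-x) = -f x) : ∫ x, f x = 0 := by
  have h1 : ∫ x, f (-x) = ∫ x, f x := integral_neg_eq_self f volume
  simp_rw [hf] at h1
  rw [integral_neg] at h1
  linarith

/-- odd statistics vanish -/
theorem nuF_dbl_odd {ρ : ℝ → ℝ} (hρ : ∀ x, ρ (-x) = ρ x) (t : Fin p → ℝ) {f : ℝ → ℝ}
    (hf : ∀ x, f (-x) = -f x) : nuF ρ (dbl t) f = 0 := by
  rw [nuF_dbl]
  have h1 : ∫ x, f x * ρ x = 0 := integral_odd fun x => by rw [hf, hρ]; ring
  have h2 : ∑ i, (f (t i) + f (-t i)) = 0 := Finset.sum_eq_zero fun i _ => by rw [hf]; ring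
  rw [h1, h2, sub_zero]

/-- even statistics -/
theorem nuF_dbl_even {ρ : ℝ → ℝ} (t : Fin p → ℝ) {f : ℝ → ℝ} (hf : ∀ x, f (-x) = f x) :
    nuF ρ (dbl t) f = 2 * (∑ i, f (t i) - 1 / 2 * ∫ x, f x * ρ x) := by
  rw [nuF_dbl]
  have h2 : ∑ i, (f (t i) + f (-t i)) = 2 * ∑ i, f (t i) := by
    rw [Finset.mul_sum]
    exact Finset.sum_congr rfl fun i _ => by rw [hf]; ring
  rw [h2]
  ring

/-- positions of the two species, doubled -/
def spD (p n : ℕ) : ∀ k : Bool, (Fin p → ℝ) × (Fin n → ℝ) → Fin (NUDi.nn (p + p) (n + n) k) → ℝ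
  | true => fun ω => dbl ω.1
  | false => fun ω => dbl ω.2

theorem measurable_spD (k : Bool) : Measurable (spD p n k) := by
  cases k
  · exact dbl_meas.comp measurable_snd
  · exact dbl_meas.comp measurable_fst

theorem spD_eq (k : Bool) (ω : (Fin p → ℝ) × (Fin n → ℝ)) :
    spD p n k ω = NUDi.spF (p + p) (n + n) k (dbl ω.1, dbl ω.2) := by
  cases k <;> rfl

end

end TCD
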