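import Mathlib

/-!
# The symmetrised configuration (folded gas)

`sym t = (t, -t) : Fin (p + p) → ℝ`; sums, products, pair products and cross products of a symmetric
kernel over symmetrised configurations.
-/

set_option autoImplicit false

open Finset

namespace TCF

variable {p n : ℕ}

/-- the symmetrised configuration -/
def sym (t : Fin p → ℝ) : Fin (p + p) → ℝ := Fin.append t fun i => -t i

@[simp]
lemma sym_left (t : Fin p → ℝ) (i : Fin p) : sym t (Fin.castAdd p i) = t i := by
  unfold sym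
  rw [Fin.append_left]

@[simp]
lemma sym_right (t : Fin p → ℝ) (i : Fin p) : sym t (Fin.natAdd p i) = -t i := by
  unfold sym
  rw [Fin.append_right]

/-- relation with the sum type -/
lemma sym_eq (t : Fin p → ℝ) : sym t = Sum.elim t (fun i => -t i) ∘ finSumFinEquiv.symm := by
  funext i
  refine Fin.addCases (fun j => ?_) (fun j => ?_) i
  · rw [sym_left, Function.comp_apply, finSumFinEquiv_symm_apply_castAdd, Sum.elim_inl]
  · rw [sym_right, Function.comp_apply, finSumFinEquiv_symm_apply_natAdd, Sum.elim_inr]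

lemma sym_cont : Continuous (sym : (Fin p → ℝ) → Fin (p + p) → ℝ) := by
  refine continuous_pi fun i => ?_
  refine Fin.addCases (fun j => ?_) (fun j => ?_) i
  · simp only [sym_left]
    exact continuous_apply j
  · simp only [sym_right]
    exact (continuous_apply j).neg

@[fun_prop]
lemma sym_meas : Measurable (sym : (Fin p → ℝ) → Fin (p + p) → ℝ) := sym_cont.measurable

lemma abs_sym_le {t : Fin p → ℝ} {R : ℝ} (h : ∀ i, |t i| ≤ R) (i : Fin (p + p)) : |sym t i| ≤ R := by
  refine Fin.addCases (fun j => ?_) (fun j => ?_) i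
  · rw [sym_left]; exact h j
  · rw [sym_right, abs_neg]; exact h j

section

variable {M : Type*} [CommMonoid M]

lemma prod_sym (f : ℝ → M) (t : Fin p → ℝ) : ∏ i, f (sym t i) = (∏ i, f (t i)) * ∏ i, f (-t i) := by
  rw [Fin.prod_univ_add]
  simp only [sym_left, sym_right]

lemma prod_sym_even {f : ℝ → M} (hf : ∀ x, f (-x) = f x) (t : Fin p → ℝ) :
    ∏ i, f (sym t i) = (∏ i, f (t i)) ^ 2 := by
  rw [prod_sym, sq]
  simp only [hf]

/-- pair products over a disjoint union -/
lemma prod_pairs (F : Fin (p + n) → Fin (p + n) → M) :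
    ∏ i, ∏ j ∈ Ioi i, F i j =
      (∏ i, ∏ j ∈ Ioi i, F (Fin.castAdd n i) (Fin.castAdd n j)) *
      (∏ i, ∏ j, F (Fin.castAdd n i) (Fin.natAdd p j)) *
      ∏ i, ∏ j ∈ Ioi i, F (Fin.natAdd p i) (Fin.natAdd p j) := by
  have e : ∀ {k : ℕ} (G : Fin k → Fin k → M), ∏ i, ∏ j ∈ Ioi i, G i j =
      ∏ i, ∏ j, if i < j then G i j else 1 := fun {k} G =>
    Finset.prod_congr rfl fun i _ => by
      rw [Finset.prod_ite, Finset.prod_const_one, mul_one]
      refine Finset.prod_congr ?_ fun _ _ => rfl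
      ext j
      simp
  rw [e, e, e, Fin.prod_univ_add]
  have h1 : ∀ i : Fin p, (∏ j, if Fin.castAdd n i < j then F (Fin.castAdd n i) j else 1) =
      (∏ j, if i < j then F (Fin.castAdd n i) (Fin.castAdd n j) else 1) *
      ∏ j, F (Fin.castAdd n i) (Fin.natAdd p j) := fun i => by
    rw [Fin.prod_univ_add]
    congr 1
    refine Finset.prod_congr rfl fun j _ => ?_
    rw [if_pos (by rw [Fin.lt_def, Fin.val_castAdd, Fin.val_natAdd]; omega)]
  have h2 : ∀ i : Fin n, (∏ j, if Fin.natAdd p i < j then F (Fin.natAdd p i) j else 1) =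
      ∏ j, if i < j then F (Fin.natAdd p i) (Fin.natAdd p j) else 1 := fun i => by
    rw [Fin.prod_univ_add]
    have h3 : (∏ j : Fin p, if Fin.natAdd p i < Fin.castAdd n j then
        F (Fin.natAdd p i) (Fin.castAdd n j) else 1) = 1 := by
      refine Finset.prod_eq_one fun j _ => ?_
      rw [if_neg (by rw [Fin.lt_def, Fin.val_castAdd, Fin.val_natAdd]; omega)]
    rw [h3, one_mul]
    refine Finset.prod_congr rfl fun j _ => ?_
    simp only [Fin.natAdd_lt_natAdd_iff]
  rw [Finset.prod_congr rfl fun i _ => h1 i, Finset.prod_congr rfl fun i _ => h2 i,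
    Finset.prod_mul_distrib]

/-- the full square of a symmetric kernel -/
lemma prod_square {K : Fin p → Fin p → M} (hK : ∀ i j, K i j = K j i) :
    ∏ i, ∏ j, K i j = (∏ i, ∏ j ∈ Ioi i, K i j) ^ 2 * ∏ i, K i i := by
  have e : ∀ i, ∏ j, K i j = (∏ j ∈ Iio i, K i j) * K i i * ∏ j ∈ Ioi i, K i j := fun i => by
    have h : (Finset.univ : Finset (Fin p)) = (Iio i ∪ {i}) ∪ Ioi i := by
      ext j
      simp only [mem_univ, mem_union, mem_Iio, mem_singleton, mem_Ioi, true_iff]
      rcases lt_trichotomy j i with h | h | h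
      · exact Or.inl (Or.inl h)
      · exact Or.inl (Or.inr h)
      · exact Or.inr h
    rw [h, Finset.prod_union, Finset.prod_union, Finset.prod_singleton]
    · rw [Finset.disjoint_singleton_right, mem_Iio]
      exact lt_irrefl i
    · rw [Finset.disjoint_left]
      intro j hj hj'
      simp only [mem_union, mem_Iio, mem_singleton, mem_Ioi] at hj hj'
      rcases hj with hj | hj
      · exact absurd (hj.trans hj') (lt_irrefl _)
      · exact absurd hj' (hj ▸ lt_irrefl _)
  rw [Finset.prod_congr rfl fun i _ => e i, Finset.prod_mul_distrib, Finset.prod_mul_distrib]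
  have h2 : ∏ i, ∏ j ∈ Iio i, K i j = ∏ i, ∏ j ∈ Ioi i, K i j := by
    rw [Finset.prod_comm' (t' := Finset.univ) (s' := fun j => Ioi j)]
    · exact Finset.prod_congr rfl fun i _ => Finset.prod_congr rfl fun j _ => hK _ _
    · intro x y
      simp
  rw [h2, sq]
  exact mul_right_comm _ _ _

/-- **pair product over the symmetrised configuration** -/
lemma prod_pairs_sym {K : ℝ → ℝ → M} (hK : ∀ x y, K x y = K y x) (hn : ∀ x y, K (-x) (-y) = K x y)
    (t : Fin p → ℝ) :
    ∏ i, ∏ j ∈ Ioi i, K (sym t i) (sym t j) =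
      (∏ i, ∏ j ∈ Ioi i, (K (t i) (t j) * K (t i) (-t j))) ^ 2 * ∏ i, K (t i) (-t i) := by
  rw [prod_pairs]
  simp only [sym_left, sym_right, hn]
  have h1 : ∀ i j, K (t i) (-t j) = K (t j) (-t i) := fun i j => by
    rw [hK (t j) (-t i), ← hn (-t i) (t j), neg_neg]
  rw [prod_square (K := fun i j => K (t i) (-t j)) h1]
  simp only [Finset.prod_mul_distrib, sq]
  ac_rfl

/-- **cross product over two symmetrised configurations** -/
lemma prod_cross_sym {K : ℝ → ℝ → M} (hn : ∀ x y, K (-x) (-y) = K x y)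
    (t : Fin p → ℝ) (t' : Fin n → ℝ) :
    ∏ i, ∏ j, K (sym t i) (sym t' j) = (∏ i, ∏ j, (K (t i) (t' j) * K (t i) (-t' j))) ^ 2 := by
  have h1 : ∀ x, ∏ j, K x (sym t' j) = ∏ j, (K x (t' j) * K x (-t' j)) := fun x => by
    rw [prod_sym (K x) t', Finset.prod_mul_distrib]
  rw [Finset.prod_congr rfl fun i _ => h1 _,
    prod_sym (fun x => ∏ j, (K x (t' j) * K x (-t' j))) t, sq]
  congr 1
  refine Finset.prod_congr rfl fun i _ => Finset.prod_congr rfl fun j _ => ?_
  rw [hn, ← hn (-t i) (t' j), neg_neg, mul_comm]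

end

lemma sum_sym {M : Type*} [AddCommMonoid M] (f : ℝ → M) (t : Fin p → ℝ) :
    ∑ i, f (sym t i) = ∑ i, f (t i) + ∑ i, f (-t i) := by
  rw [Fin.sum_univ_add]
  simp only [sym_left, sym_right]

lemma sum_sym_even {f : ℝ → ℝ} (hf : ∀ x, f (-x) = f x) (t : Fin p → ℝ) :
    ∑ i, f (sym t i) = 2 * ∑ i, f (t i) := by
  rw [sum_sym, two_mul]
  simp only [hf]

lemma sum_sym_odd {f : ℝ → ℝ} (hf : ∀ x, f (-x) = -f x) (t : Fin p → ℝ) :
    ∑ i, f (sym t i) = 0 := by
  rw [sum_sym]
  simp only [hf, Finset.sum_neg_distrib]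
  exact add_neg_cancel _

end TCF
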