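import Pool.Agent.NU42.Act
import Pool.Agent.TC.FAct0

/-!
# The folded positive gas: square root of the full gas at the symmetrised configuration

* `FWO`: own pairs `w(ζ_i - ζ_j) w(ζ_i + ζ_j)`, own images `w(2 ζ_i)^{1/2}`, cross pairs
  `g(ζ_i - ζ'_j) g(ζ_i + ζ'_j)`, Jacobians and one body factors;
* `FWO_sq`: `FWO^2 = WO (sym t) (sym t')` for odd displacements and even one body factors;
* `FWO_tau`, `FWO_act`: pointwise splittings of the folded gas into two one component folded gases.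

The displacements `DX`, `DY` are odd, their derivatives even (`OddD`).
-/

set_option autoImplicit false

open MeasureTheory Set Filter Topology

namespace TCF

open NU42 NUKer NUE

noncomputable section

variable {p n : ℕ}

/-- odd displacement with even derivative -/
structure OddD (D D1 : ℝ → ℂ) : Prop where
  odd : ∀ t, D (-t) = -D t
  even : ∀ t, D1 (-t) = D1 t

lemma wcx_neg (z : ℂ) : wcx (-z) = wcx z := by
  unfold wcx
  rw [Complex.sinh_neg, neg_sq, mul_neg, Complex.cosh_neg]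

lemma gcx_neg (z : ℂ) : gcx (-z) = gcx z := by
  unfold gcx
  rw [Complex.cosh_neg, mul_neg, Complex.cosh_neg]

/-- own pair products of the folded gas -/
def fow (D : ℝ → ℂ) (t : Fin p → ℝ) : ℝ :=
  ∏ i, ∏ j ∈ Finset.Ioi i, (‖wcx ((t i + D (t i)) - (t j + D (t j)))‖ *
    ‖wcx ((t i + D (t i)) + (t j + D (t j)))‖)

/-- own images -/
def fself (D : ℝ → ℂ) (t : Fin p → ℝ) : ℝ := ∏ i, Real.sqrt ‖wcx (2 * (t i + D (t i)))‖

/-- cross pair products of the folded gas -/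
def fcr (D D' : ℝ → ℂ) (t : Fin p → ℝ) (t' : Fin n → ℝ) : ℝ :=
  ∏ i, ∏ j, (‖gcx ((t i + D (t i)) - (t' j + D' (t' j)))‖ *
    ‖gcx ((t i + D (t i)) + (t' j + D' (t' j)))‖)

/-- **the folded positive gas** (the wall factor is not included) -/
def FWO (DX DX1 DY DY1 : ℝ → ℂ) (a a' : ℝ → ℝ) (t : Fin p → ℝ) (t' : Fin n → ℝ) : ℝ :=
  (fow DX t * fself DX t) * (fow DY t' * fself DY t') * fcr DX DY t t' *
    (ob DX1 a t * ob DY1 a' t')

lemma fow_nonneg (D : ℝ → ℂ) (t : Fin p → ℝ) : 0 ≤ fow D t :=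
  Finset.prod_nonneg fun _ _ => Finset.prod_nonneg fun _ _ =>
    mul_nonneg (norm_nonneg _) (norm_nonneg _)

lemma fself_nonneg (D : ℝ → ℂ) (t : Fin p → ℝ) : 0 ≤ fself D t :=
  Finset.prod_nonneg fun _ _ => Real.sqrt_nonneg _

lemma fcr_nonneg (D D' : ℝ → ℂ) (t : Fin p → ℝ) (t' : Fin n → ℝ) : 0 ≤ fcr D D' t t' :=
  Finset.prod_nonneg fun _ _ => Finset.prod_nonneg fun _ _ =>
    mul_nonneg (norm_nonneg _) (norm_nonneg _)

lemma FWO_nonneg (DX DX1 DY DY1 : ℝ → ℂ) {a a' : ℝ → ℝ} (ha : ∀ t, 0 ≤ a t) (ha' : ∀ t, 0 ≤ a' t)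
    (t : Fin p → ℝ) (t' : Fin n → ℝ) : 0 ≤ FWO DX DX1 DY DY1 a a' t t' :=
  mul_nonneg (mul_nonneg (mul_nonneg (mul_nonneg (fow_nonneg _ _) (fself_nonneg _ _))
    (mul_nonneg (fow_nonneg _ _) (fself_nonneg _ _))) (fcr_nonneg _ _ _ _))
    (mul_nonneg (ob_nonneg _ ha _) (ob_nonneg _ ha' _))

lemma fow_meas {D : ℝ → ℂ} (hD : Measurable D) : Measurable (fow D : (Fin p → ℝ) → ℝ) := by
  unfold fow
  exact Finset.measurable_prod _ fun i _ => Finset.measurable_prod _ fun j _ => by fun_prop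

lemma fself_meas {D : ℝ → ℂ} (hD : Measurable D) : Measurable (fself D : (Fin p → ℝ) → ℝ) := by
  unfold fself
  refine Finset.measurable_prod _ fun i _ => Real.continuous_sqrt.measurable.comp ?_
  fun_prop

lemma fcr_meas {D D' : ℝ → ℂ} (hD : Measurable D) (hD' : Measurable D') :
    Measurable fun x : (Fin p → ℝ) × (Fin n → ℝ) => fcr D D' x.1 x.2 := by
  unfold fcr
  exact Finset.measurable_prod _ fun i _ => Finset.measurable_prod _ fun j _ => by fun_prop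

lemma FWO_meas {DX DX1 DY DY1 : ℝ → ℂ} {a a' : ℝ → ℝ} (h1 : Measurable DX) (h2 : Measurable DX1)
    (h3 : Measurable DY) (h4 : Measurable DY1) (h5 : Measurable a) (h6 : Measurable a') :
    Measurable fun x : (Fin p → ℝ) × (Fin n → ℝ) => FWO DX DX1 DY DY1 a a' x.1 x.2 := by
  unfold FWO
  have e1 := ((fow_meas h1 (p := p)).mul (fself_meas h1)).comp
    (measurable_fst : Measurable fun x : (Fin p → ℝ) × (Fin n → ℝ) => x.1)
  have e2 := ((fow_meas h3 (p := n)).mul (fself_meas h3)).comp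
    (measurable_snd : Measurable fun x : (Fin p → ℝ) × (Fin n → ℝ) => x.2)
  have e3 := fcr_meas h1 h3 (p := p) (n := n)
  have e4 := (ob_meas h2 h5 (p := p)).comp
    (measurable_fst : Measurable fun x : (Fin p → ℝ) × (Fin n → ℝ) => x.1)
  have e5 := (ob_meas h4 h6 (p := n)).comp
    (measurable_snd : Measurable fun x : (Fin p → ℝ) × (Fin n → ℝ) => x.2)
  exact ((e1.mul e2).mul e3).mul (e4.mul e5)

/-! ### squares -/

lemma ow_sym {D D1 : ℝ → ℂ} (hD : OddD D D1) (t : Fin p → ℝ) :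
    ow D (sym t) = (fow D t * fself D t) ^ 2 := by
  unfold ow
  have h := prod_pairs_sym (M := ℝ) (K := fun x y : ℝ => ‖wcx (((x : ℂ) + D x) - (y + D y))‖)
    (fun x y => by rw [← wcx_neg, neg_sub])
    (fun x y => by
      rw [hD.odd, hD.odd, ← wcx_neg]
      push_cast
      ring_nf) t
  rw [h, mul_pow]
  unfold fow fself
  have e1 : ∀ x y : ℝ, ((x : ℂ) + D x) - (((-y : ℝ) : ℂ) + D (-y)) = (x + D x) + (y + D y) := by
    intro x y
    rw [hD.odd]
    push_cast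
    ring
  simp only [e1]
  congr 1
  rw [← Finset.prod_pow]
  refine Finset.prod_congr rfl fun i _ => ?_
  rw [Real.sq_sqrt (norm_nonneg _), two_mul]

lemma cr_sym {D D1 D' D1' : ℝ → ℂ} (hD : OddD D D1) (hD' : OddD D' D1') (t : Fin p → ℝ)
    (t' : Fin n → ℝ) : cr D D' (sym t) (sym t') = fcr D D' t t' ^ 2 := by
  unfold cr
  have h := prod_cross_sym (M := ℝ) (K := fun x y : ℝ => ‖gcx (((x : ℂ) + D x) - (y + D' y))‖)
    (fun x y => by
      rw [hD.odd, hD'.odd, ← gcx_neg]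
      push_cast
      ring_nf) t t'
  rw [h]
  unfold fcr
  have e1 : ∀ x y : ℝ, ((x : ℂ) + D x) - (((-y : ℝ) : ℂ) + D' (-y)) = (x + D x) + (y + D' y) := by
    intro x y
    rw [hD'.odd]
    push_cast
    ring
  simp only [e1]

lemma ob_sym {D D1 : ℝ → ℂ} (hD : OddD D D1) {a : ℝ → ℝ} (ha : ∀ x, a (-x) = a x) (t : Fin p → ℝ) :
    ob D1 a (sym t) = ob D1 a t ^ 2 := by
  unfold ob
  exact prod_sym_even (f := fun x => ‖1 + D1 x‖ * a x) (fun x => by rw [hD.even, ha]) t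

/-- **the folded gas is the square root of the full gas at the symmetrised configuration** -/
theorem FWO_sq {DX DX1 DY DY1 : ℝ → ℂ} (hX : OddD DX DX1) (hY : OddD DY DY1) {a a' : ℝ → ℝ}
    (ha : ∀ x, a (-x) = a x) (ha' : ∀ x, a' (-x) = a' x) (t : Fin p → ℝ) (t' : Fin n → ℝ) :
    FWO DX DX1 DY DY1 a a' t t' ^ 2 = WO DX DX1 DY DY1 a a' (sym t) (sym t') := by
  unfold WO
  rw [ow_sym hX, ow_sym hY, cr_sym hX hY, ob_sym hX ha, ob_sym hY ha']
  unfold FWO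
  ring

/-! ### the one component folded gas -/

/-- products of the common pair function, folded, with the own image -/
def fpom (t : Fin p → ℝ) : ℝ :=
  (∏ i, ∏ j ∈ Finset.Ioi i, (om (t i - t j) * om (t i + t j))) * ∏ i, Real.sqrt (om (2 * t i))

lemma om_even (x : ℝ) : om (-x) = om x := by
  unfold om
  rw [w_even, NU42.g_even]

lemma fpom_nonneg (t : Fin p → ℝ) : 0 ≤ fpom t :=
  mul_nonneg (Finset.prod_nonneg fun _ _ => Finset.prod_nonneg fun _ _ =>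
    mul_nonneg (om_nonneg _) (om_nonneg _)) (Finset.prod_nonneg fun _ _ => Real.sqrt_nonneg _)

lemma fpom_meas : Measurable (fpom : (Fin p → ℝ) → ℝ) := by
  unfold fpom
  refine (Finset.measurable_prod _ fun i _ => Finset.measurable_prod _ fun j _ => by fun_prop).mul
    (Finset.measurable_prod _ fun i _ => Real.continuous_sqrt.measurable.comp (by fun_prop))

lemma pom_sym (t : Fin p → ℝ) : pom (sym t) = fpom t ^ 2 := by
  unfold pom
  have h := prod_pairs_sym (M := ℝ) (K := fun x y : ℝ => om (x - y))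
    (fun x y => by rw [← om_even, neg_sub]) (fun x y => by rw [← om_even]; ring_nf) t
  rw [h]
  unfold fpom
  rw [mul_pow]
  congr 1
  · simp only [sub_neg_eq_add]
  · rw [← Finset.prod_pow]
    refine Finset.prod_congr rfl fun i _ => ?_
    rw [Real.sq_sqrt (om_nonneg _), sub_neg_eq_add, two_mul]

/-- one component folded gas with the one body potential `φ` (symmetrised) -/
def F1 (φ : ℝ → ℝ) (t : Fin p → ℝ) : ℝ := fpom t * ∏ i, Real.exp ((φ (t i) + φ (-t i)) / 2)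

lemma F1_nonneg (φ : ℝ → ℝ) (t : Fin p → ℝ) : 0 ≤ F1 φ t :=
  mul_nonneg (fpom_nonneg t) (Finset.prod_nonneg fun _ _ => (Real.exp_pos _).le)

lemma F1_meas {φ : ℝ → ℝ} (h : Measurable φ) : Measurable (F1 φ : (Fin p → ℝ) → ℝ) := by
  unfold F1
  refine fpom_meas.mul ?_
  exact Finset.measurable_prod _ fun i _ => by fun_prop

lemma prod_exp_sym (φ : ℝ → ℝ) (t : Fin p → ℝ) :
    ∏ i, Real.exp (φ (sym t i)) = (∏ i, Real.exp ((φ (t i) + φ (-t i)) / 2)) ^ 2 := by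
  rw [prod_sym (fun x => Real.exp (φ x)) t, ← Finset.prod_mul_distrib, ← Finset.prod_pow]
  refine Finset.prod_congr rfl fun i _ => ?_
  rw [← Real.exp_add, ← Real.exp_nat_mul]
  congr 1
  push_cast
  ring

lemma W1_sym (φ : ℝ → ℝ) (t : Fin p → ℝ) : W1 φ (sym t) = F1 φ t ^ 2 := by
  unfold W1 F1
  rw [pom_sym, prod_exp_sym, mul_pow]

/-! ### exact decomposition and pointwise splittings -/

/-- **exact decomposition of the folded gas** -/
theorem FWO_eq {DX DX1 DY DY1 : ℝ → ℂ} (hs : Small DX DX1 DY DY1) (hX : OddD DX DX1)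
    (hY : OddD DY DY1) {a a' : ℝ → ℝ} (hpa : ∀ t, 0 ≤ a t) (hpa' : ∀ t, 0 ≤ a' t)
    (ha : ∀ x, a (-x) = a x) (ha' : ∀ x, a' (-x) = a' x) (t : Fin p → ℝ) (t' : Fin n → ℝ) :
    FWO DX DX1 DY DY1 a a' t t' = fpom t * fpom t' *
      Real.sqrt (br2 NUMF.g (sym t) (sym t')) *
      Real.exp (KE DX DX1 DY DY1 (sym t) (sym t') / 2) * ((∏ i, a (t i)) * ∏ j, a' (t' j)) := by
  have h1 := FWO_sq hX hY ha ha' t t'
  rw [WO_eq' hs, pom_sym, pom_sym, prod_sym_even ha, prod_sym_even ha'] at h1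
  have hp : 0 ≤ ∏ i, a (t i) := Finset.prod_nonneg fun i _ => hpa _
  have hp' : 0 ≤ ∏ i, a' (t' i) := Finset.prod_nonneg fun i _ => hpa' _
  have f1 := fpom_nonneg t
  have f2 := fpom_nonneg t'
  have hb : 0 ≤ br2 NUMF.g (sym t) (sym t') := by
    unfold br2
    have hg : ∀ x, 0 ≤ NUMF.g x := fun x => (NUMF.g_pos x).le
    exact div_nonneg (Finset.prod_nonneg fun _ _ => Finset.prod_nonneg fun _ _ => hg _)
      (mul_nonneg (Finset.prod_nonneg fun _ _ => Finset.prod_nonneg fun _ _ => hg _)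
        (Finset.prod_nonneg fun _ _ => Finset.prod_nonneg fun _ _ => hg _))
  have h2 : 0 ≤ fpom t * fpom t' * Real.sqrt (br2 NUMF.g (sym t) (sym t')) *
      Real.exp (KE DX DX1 DY DY1 (sym t) (sym t') / 2) * ((∏ i, a (t i)) * ∏ j, a' (t' j)) := by
    positivity
  refine (pow_left_inj₀ (FWO_nonneg _ _ _ _ hpa hpa' _ _) h2 two_ne_zero).1 ?_
  rw [h1]
  have e : Real.exp (KE DX DX1 DY DY1 (sym t) (sym t')) =
      Real.exp (KE DX DX1 DY DY1 (sym t) (sym t') / 2) ^ 2 := by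
    rw [← Real.exp_nat_mul]
    congr 1
    push_cast
    ring
  have e2 : br2 NUMF.g (sym t) (sym t') = Real.sqrt (br2 NUMF.g (sym t) (sym t')) ^ 2 :=
    (Real.sq_sqrt hb).symm
  rw [e]
  conv_lhs => rw [e2]
  ring

/-- half of the exponent of the squares -/
lemma exp_half_sq (x : ℝ) : Real.exp x = Real.exp (x / 2) ^ 2 := by
  rw [← Real.exp_nat_mul]
  congr 1
  push_cast
  ring

/-- **splitting of the folded gas** -/
theorem FWO_tau {c : ℝ → ℝ} (hc : Continuous c) (hce : ∀ k, c (-k) = c k) {K h : ℝ} (hh : 0 < h)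
    (hK : K * h < Real.pi) (hcs : ∀ k, K < |k| → c k = 0) (hL : ∀ k, 0 < k → c k ^ 2 ≤ NUMF.Lh k)
    (La : Finset ℤ) (a0 : ℝ) {τ : ℝ → ℝ} (hτ : Integrable τ) (hτ1 : Integrable fun x => τ x * x)
    (h0 : ∫ x, τ x = ((p + p : ℕ) : ℝ) - ((n + n : ℕ) : ℝ)) {DX DX1 DY DY1 : ℝ → ℂ}
    (hs : Small DX DX1 DY DY1) (hX : OddD DX DX1) (hY : OddD DY DY1)
    {a a' : ℝ → ℝ} (ha : ∀ t, 0 ≤ a t) (ha' : ∀ t, 0 ≤ a' t)
    (hae : ∀ x, a (-x) = a x) (hae' : ∀ x, a' (-x) = a' x) (t : Fin p → ℝ) (t' : Fin n → ℝ) :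
    FWO DX DX1 DY DY1 a a' t t' *
      Real.exp (1 / 4 * ∑ l ∈ La, Fst c h a0 τ l (sym t) (sym t') ^ 2) ≤
      Real.exp (Ctau (p + p) (n + n) τ / 2) *
        (fpom t * ∏ i, (a (t i) * Real.exp ((cv lgm τ (t i) + cv lgm τ (-t i)) / 2))) *
        (fpom t' * ∏ j, (a' (t' j) * Real.exp (-((cv lgm τ (t' j) + cv lgm τ (-t' j)) / 2)))) *
        Real.exp (KE DX DX1 DY DY1 (sym t) (sym t') / 2) := by
  have h1 := WO_tau hc hce hh hK hcs hL La a0 hτ hτ1 h0 hs ha ha' (sym t) (sym t')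
  rw [← FWO_sq hX hY hae hae', pom_sym, pom_sym, Finset.prod_mul_distrib, Finset.prod_mul_distrib,
    prod_sym_even hae, prod_sym_even hae', prod_exp_sym (cv lgm τ),
    prod_exp_sym (fun x => -cv lgm τ x)] at h1
  have p1 := fpom_nonneg t
  have p2 := fpom_nonneg t'
  have p3 : 0 ≤ ∏ i, (a (t i) * Real.exp ((cv lgm τ (t i) + cv lgm τ (-t i)) / 2)) :=
    Finset.prod_nonneg fun _ _ => mul_nonneg (ha _) (Real.exp_pos _).le
  have p4 : 0 ≤ ∏ j, (a' (t' j) * Real.exp (-((cv lgm τ (t' j) + cv lgm τ (-t' j)) / 2))) :=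
    Finset.prod_nonneg fun _ _ => mul_nonneg (ha' _) (Real.exp_pos _).le
  refine (pow_le_pow_iff_left₀ (mul_nonneg (FWO_nonneg _ _ _ _ ha ha' _ _) (Real.exp_pos _).le)
    (by positivity) two_ne_zero).1 ?_
  refine Eq.trans_le ?_ (h1.trans_eq ?_)
  · rw [mul_pow, ← Real.exp_nat_mul (1 / 4 * _)]
    congr 2
    push_cast
    ring
  · rw [exp_half_sq (Ctau _ _ τ), exp_half_sq (KE _ _ _ _ _ _), Finset.prod_mul_distrib,
      Finset.prod_mul_distrib]
    have e : ∀ x : ℝ, (-cv lgm τ x + -cv lgm τ (-x)) / 2 = -((cv lgm τ x + cv lgm τ (-x)) / 2) := by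
      intro x
      ring
    simp only [e]
    ring

variable {b c B C s : ℝ} {DX DX1 DY DY1 : ℝ → ℂ} {Fe : Bool → ℂ → ℂ}

/-- **final pointwise splitting of the folded gas**, whole line quadratic form at the symmetrised
configuration -/
theorem FWO_act {ch : ℝ → ℝ} (hc : Continuous ch) (hce : ∀ k, ch (-k) = ch k) {K h : ℝ} (hh : 0 < h)
    (hK : K * h < Real.pi) (hcs : ∀ k, K < |k| → ch k = 0) (hL : ∀ k, 0 < k → ch k ^ 2 ≤ NUMF.Lh k)
    (La : Finset ℤ) (a0 : ℝ) {τ : ℝ → ℝ} (hτ : Integrable τ) (hτ1 : Integrable fun x => τ x * x)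
    (h0 : ∫ x, τ x = ((p + p : ℕ) : ℝ) - ((n + n : ℕ) : ℝ))
    (hs : Small DX DX1 DY DY1) (hX : OddD DX DX1) (hY : OddD DY DY1) (hb : b ≤ NUMF.l / 4)
    (P' : ∀ a, NUAct.Path b c B (zz DX DY a) (zz1 DX1 DY1 a)) (hs0 : 0 ≤ s)
    (hF : ∀ a, NUAct.Ext b (Fe a)) (hk : ∀ a d, Bk C (kd DX DX1 DY DY1 a d))
    {a a' βX βY : ℝ → ℝ} (ha : ∀ t, 0 ≤ a t) (ha' : ∀ t, 0 ≤ a' t)
    (hae : ∀ x, a (-x) = a x) (hae' : ∀ x, a' (-x) = a' x)
    (hla : ∀ t, a t ≤ Real.exp (s * NUMF.v t + (XX s DX DX1 DY DY1 Fe).G true t + βX t))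
    (hla' : ∀ t, a' t ≤ Real.exp (s * NUMF.v t + (XX s DX DX1 DY DY1 Fe).G false t + βY t))
    (t : Fin p → ℝ) (t' : Fin n → ℝ) :
    FWO DX DX1 DY DY1 a a' t t' *
      Real.exp (1 / 4 * ∑ l ∈ La, Fst ch h a0 τ l (sym t) (sym t') ^ 2) ≤
      Real.exp ((Ctau (p + p) (n + n) τ + CS s DX DX1 DY DY1 Fe) / 2) *
        F1 (phi s DX DX1 DY DY1 Fe βX τ true) t * F1 (phi s DX DX1 DY DY1 Fe βY τ false) t' *
        Real.exp (QF (fun u => s * NUMF.P u) (kd DX DX1 DY DY1) (sym t) (sym t') / 2) := by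
  have h1 := WO_act hc hce hh hK hcs hL La a0 hτ hτ1 h0 hs hb P' hs0 hF hk ha ha' hla hla'
    (sym t) (sym t')
  rw [← FWO_sq hX hY hae hae', W1_sym, W1_sym] at h1
  have p1 := F1_nonneg (phi s DX DX1 DY DY1 Fe βX τ true) t
  have p2 := F1_nonneg (phi s DX DX1 DY DY1 Fe βY τ false) t'
  refine (pow_le_pow_iff_left₀ (mul_nonneg (FWO_nonneg _ _ _ _ ha ha' _ _) (Real.exp_pos _).le)
    (by positivity) two_ne_zero).1 ?_
  refine Eq.trans_le ?_ (h1.trans_eq ?_)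
  · rw [mul_pow, ← Real.exp_nat_mul (1 / 4 * _)]
    congr 2
    push_cast
    ring
  · rw [exp_half_sq (Ctau _ _ τ + _), exp_half_sq (QF _ _ _ _)]
    ring

end

end TCF
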