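import Pool.Agent.NUDi.Num
import Pool.Agent.TC.FAct1
import Pool.Agent.TC.Dbl

/-!
# Folded gas: the dichotomy from exponential squares (sums over shells allowed)

All statistics are taken at the symmetrised configuration `sym t = (t, -t)`.  The density `ρ` is even,
so the sine modes vanish and only cosine modes are needed.

* `TCR.RigS`: bounds of the expectations of the linear and quadratic statistics at positions
  `sX`, `sY`;
* `TCR.RigS.mono`;
* `TCDi.SqWF g R ρ B c K`: on the window, `∫ g e^{c ν_R(cos a·)²/(1+|a|)} ≤ B e^K` for both species and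
  all modes; `SqWF.mono`, `SqWF.smul`, `SqWF.tsum`, `SqWF.sum`, `SqWF.mass`, `SqWF.monoC`;
* `TCDi.rigS_of_sq`: `SqWF` and a lower bound of the total weight give `RigS`.
-/

set_option autoImplicit false

open MeasureTheory Set Filter Topology
open scoped Real ENNReal

namespace TCR

open NUKer

/-- bounds of the expectations of the linear and quadratic statistics at positions `sX`, `sY` -/
structure RigS {Ω : Type*} [MeasurableSpace Ω] {P N : ℕ} (μ : Measure Ω) (sX : Ω → Fin P → ℝ)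
    (sY : Ω → Fin N → ℝ) (R : ℝ) (ρ : ℝ → ℝ) (S : ℝ) : Prop where
  linX : ∀ (f : ℝ → ℝ) (Λ : ℝ), Continuous f → KC R Λ (fun t _ => (f t : ℂ)) →
    |∫ x, nu R ρ (sX x) f ∂μ| ≤ S * Λ * μ.real Set.univ
  linY : ∀ (f : ℝ → ℝ) (Λ : ℝ), Continuous f → KC R Λ (fun t _ => (f t : ℂ)) →
    |∫ x, nu R ρ (sY x) f ∂μ| ≤ S * Λ * μ.real Set.univ
  XX : ∀ (κ : ℝ → ℝ → ℝ) (Λ : ℝ), Continuous (fun q : ℝ × ℝ => κ q.1 q.2) →
    KC R Λ (fun t t' => (κ t t' : ℂ)) →
    |∫ x, nu2 R ρ ρ (sX x) (sX x) κ ∂μ| ≤ S * Λ * μ.real Set.univ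
  YY : ∀ (κ : ℝ → ℝ → ℝ) (Λ : ℝ), Continuous (fun q : ℝ × ℝ => κ q.1 q.2) →
    KC R Λ (fun t t' => (κ t t' : ℂ)) →
    |∫ x, nu2 R ρ ρ (sY x) (sY x) κ ∂μ| ≤ S * Λ * μ.real Set.univ
  XY : ∀ (κ : ℝ → ℝ → ℝ) (Λ : ℝ), Continuous (fun q : ℝ × ℝ => κ q.1 q.2) →
    KC R Λ (fun t t' => (κ t t' : ℂ)) →
    |∫ x, nu2 R ρ ρ (sX x) (sY x) κ ∂μ| ≤ S * Λ * μ.real Set.univ

theorem RigS.mono {Ω : Type*} [MeasurableSpace Ω] {P N : ℕ} {μ : Measure Ω} {sX : Ω → Fin P → ℝ}
    {sY : Ω → Fin N → ℝ} {R : ℝ} {ρ : ℝ → ℝ} {S S' : ℝ} (h : RigS μ sX sY R ρ S) (hS : S ≤ S') :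
    RigS μ sX sY R ρ S' := by
  have go : ∀ (I Λ : ℝ), 0 ≤ Λ → |I| ≤ S * Λ * μ.real Set.univ → |I| ≤ S' * Λ * μ.real Set.univ := by
    intro I Λ hΛ h1
    have h0 : 0 ≤ μ.real Set.univ := measureReal_nonneg
    exact h1.trans (by gcongr)
  exact ⟨fun f Λ hc hK => go _ _ hK.nonneg (h.linX f Λ hc hK),
    fun f Λ hc hK => go _ _ hK.nonneg (h.linY f Λ hc hK),
    fun f Λ hc hK => go _ _ hK.nonneg (h.XX f Λ hc hK),
    fun f Λ hc hK => go _ _ hK.nonneg (h.YY f Λ hc hK),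
    fun f Λ hc hK => go _ _ hK.nonneg (h.XY f Λ hc hK)⟩

end TCR

namespace TCDi

open NUKer NUR2 NUDi TCF

variable {p n : ℕ} {R c K m : ℝ} {ρ : ℝ → ℝ} {g : Cfg p n → ℝ≥0∞} {B : ℝ≥0∞}

/-! ### clamped doubled positions -/

/-- doubled positions of the two species, clamped -/
noncomputable def spc (R : ℝ) (p n : ℕ) (k : Bool) (ω : Cfg p n) :
    Fin (NUDi.nn (p + p) (n + n) k) → ℝ := fun i => cl R (TCD.spD p n k ω i)

theorem measurable_spc (R : ℝ) (k : Bool) : Measurable (spc R p n k) :=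
  measurable_pi_lambda _ fun i =>
    (measurable_cl R).comp ((measurable_pi_apply i).comp (TCD.measurable_spD k))

theorem abs_spc (hR : 0 ≤ R) (k : Bool) (ω : Cfg p n) (i : Fin (NUDi.nn (p + p) (n + n) k)) :
    |spc R p n k ω i| ≤ R := cl_abs hR _

theorem spc_true {x : Cfg p n} (hx : x ∈ Bx R) : spc R p n true x = sym x.1 := by
  funext i
  exact cl_eq (abs_sym_le (t := x.1) hx.1 i)

theorem spc_false {x : Cfg p n} (hx : x ∈ Bx R) : spc R p n false x = sym x.2 := by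
  funext i
  exact cl_eq (abs_sym_le (t := x.2) hx.2 i)

/-! ### odd statistics vanish -/

theorem nu_sym_odd (hρ : ∀ x, ρ (-x) = ρ x) {q : ℕ} (t : Fin q → ℝ) {f : ℝ → ℝ}
    (hf : ∀ x, f (-x) = -f x) : nu R ρ (sym t) f = 0 := by
  unfold nu
  rw [sum_sym_odd hf, zero_sub, neg_eq_zero]
  have h1 := intervalIntegral.integral_comp_neg (a := -R) (b := R) (fun x => f x * ρ x)
  rw [neg_neg] at h1
  have h2 : (fun x => f (-x) * ρ (-x)) = fun x => -(f x * ρ x) := by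
    funext x
    rw [hf, hρ]
    ring
  rw [h2, intervalIntegral.integral_neg] at h1
  linarith

theorem nu_sym_sin (hρ : ∀ x, ρ (-x) = ρ x) {q : ℕ} (t : Fin q → ℝ) (a : ℝ) :
    nu R ρ (sym t) (fun x => Real.sin (a * x)) = 0 :=
  nu_sym_odd hρ t fun x => by rw [mul_neg, Real.sin_neg]

/-! ### expectations -/

/-- linear statistics of one species -/
theorem rig_lin_s (hR : 0 ≤ R) (hρ : Continuous ρ) (hg : Measurable g)
    (hf : ∫⁻ x, (Bx R).indicator g x ≠ ∞) (hm : 0 < m) {N : ℕ} {s : Cfg p n → Fin N → ℝ}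
    (hs : Measurable s) (hsR : ∀ ω i, |s ω i| ≤ R)
    (h : MB volume ((Bx R).indicator g) R ρ s m) {F : Cfg p n → ℝ} {f : ℝ → ℝ}
    (he : ∀ x ∈ Bx (p := p) (n := n) R, F x = nu R ρ (s x) f) {Λ : ℝ}
    (hK : KC R Λ (fun t _ => (f t : ℂ))) :
    |∫ x, F x ∂(mWin R g)| ≤ (2 * m + 1) * Λ * (mWin R g).real Set.univ := by
  have hg' := hg.indicator (measurableSet_Bx (p := p) (n := n) R)
  have hΛ := hK.nonneg
  have hs2 : 2 * Real.sqrt m ≤ 2 * m + 1 := by
    nlinarith [sq_nonneg (Real.sqrt m - 1), Real.sq_sqrt hm.le]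
  have h0 : 0 ≤ (mWin R g).real Set.univ := measureReal_nonneg
  refine le_of_forall_pos_le_add fun δ hδ => ?_
  obtain ⟨γ, hγ⟩ : ∃ γ, γ = δ / ((2 * m + 1) * (1 + (mWin R g).real Set.univ)) := ⟨_, rfl⟩
  have hγ0 : 0 < γ := by rw [hγ]; positivity
  have h1 := MB.lin' hg' hf hs hR hsR hρ hm h (Λ := Λ + γ)
    (by positivity) (hK.mono (by linarith))
  have h2 := abs_int_le (F := F) (K := 2 * Real.sqrt m * (Λ + γ)) hg hf
    (measurable_nu' (ρ := ρ) hs hR hsR hK) he (by positivity) h1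
  have h3 : 2 * Real.sqrt m * (Λ + γ) * (mWin R g).real Set.univ ≤
      (2 * m + 1) * (Λ + γ) * (mWin R g).real Set.univ := by gcongr
  have h4 : (2 * m + 1) * γ * (mWin R g).real Set.univ ≤ δ := by
    have h5 : (2 * m + 1) * γ * (mWin R g).real Set.univ =
        δ * ((mWin R g).real Set.univ / (1 + (mWin R g).real Set.univ)) := by
      rw [hγ]
      field_simp
    rw [h5]
    have h6 : (mWin R g).real Set.univ / (1 + (mWin R g).real Set.univ) ≤ 1 := by
      rw [div_le_one (by positivity)]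
      linarith
    calc _ ≤ δ * 1 := mul_le_mul_of_nonneg_left h6 hδ.le
      _ = δ := mul_one δ
  nlinarith

/-- quadratic forms of two species -/
theorem rig_kc_s (hR : 0 ≤ R) (hρ : Continuous ρ) (hg : Measurable g)
    (hf : ∫⁻ x, (Bx R).indicator g x ≠ ∞) (hm : 0 ≤ m) {N N' : ℕ} {s : Cfg p n → Fin N → ℝ}
    {s' : Cfg p n → Fin N' → ℝ} (hs : Measurable s) (hs' : Measurable s')
    (hsR : ∀ ω i, |s ω i| ≤ R) (hsR' : ∀ ω i, |s' ω i| ≤ R)
    (h : MB volume ((Bx R).indicator g) R ρ s m)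
    (h' : MB volume ((Bx R).indicator g) R ρ s' m) {F : Cfg p n → ℝ} {κ : ℝ → ℝ → ℝ}
    (he : ∀ x ∈ Bx (p := p) (n := n) R, F x = nu2 R ρ ρ (s x) (s' x) κ) {Λ : ℝ}
    (hK : KC R Λ (fun t t' => (κ t t' : ℂ))) :
    |∫ x, F x ∂(mWin R g)| ≤ (2 * m + 1) * Λ * (mWin R g).real Set.univ := by
  have hg' := hg.indicator (measurableSet_Bx (p := p) (n := n) R)
  have hΛ := hK.nonneg
  have h0 : 0 ≤ (mWin R g).real Set.univ := measureReal_nonneg
  have h1 := MB.kc' hg' hf hs hs' hR hsR hsR' hρ hρ hm h h' hK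
  have h2 := abs_int_le (F := F) (K := 2 * m * Λ) hg hf
    (measurable_nu2' hs hs' hR hsR hsR' hρ hρ hK) he (by positivity) h1
  refine h2.trans ?_
  gcongr
  linarith

theorem rigS_of_MB (hR : 0 ≤ R) (hρ : Continuous ρ) (hg : Measurable g)
    (hf : ∫⁻ x, (Bx R).indicator g x ≠ ∞) (hm : 0 < m)
    (h : ∀ k, MB volume ((Bx R).indicator g) R ρ (spc R p n k) m) :
    TCR.RigS (mWin R g) (fun x => sym x.1) (fun x => sym x.2) R ρ (2 * m + 1) where
  linX _ _ _ hK := rig_lin_s hR hρ hg hf hm (measurable_spc R true) (abs_spc hR true) (h true)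
    (fun x hx => by rw [spc_true hx]; rfl) hK
  linY _ _ _ hK := rig_lin_s hR hρ hg hf hm (measurable_spc R false) (abs_spc hR false) (h false)
    (fun x hx => by rw [spc_false hx]; rfl) hK
  XX _ _ _ hK := rig_kc_s hR hρ hg hf hm.le (measurable_spc R true) (measurable_spc R true)
    (abs_spc hR true) (abs_spc hR true) (h true) (h true)
    (fun x hx => by rw [spc_true hx]; rfl) hK
  YY _ _ _ hK := rig_kc_s hR hρ hg hf hm.le (measurable_spc R false) (measurable_spc R false)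
    (abs_spc hR false) (abs_spc hR false) (h false) (h false)
    (fun x hx => by rw [spc_false hx]; rfl) hK
  XY _ _ _ hK := rig_kc_s hR hρ hg hf hm.le (measurable_spc R true) (measurable_spc R false)
    (abs_spc hR true) (abs_spc hR false) (h true) (h false)
    (fun x hx => by rw [spc_true hx, spc_false hx]; rfl) hK

/-! ### exponential squares -/

/-- exponential squares of the even modes of both species, on the window -/
structure SqWF (g : Cfg p n → ℝ≥0∞) (R : ℝ) (ρ : ℝ → ℝ) (B : ℝ≥0∞) (c K : ℝ) : Prop where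
  cosX : ∀ a : ℝ, ∫⁻ x in Bx R, g x * ENNReal.ofReal (Real.exp (c / (1 + |a|) *
    (nu R ρ (sym x.1) fun t => Real.cos (a * t)) ^ 2)) ≤ B * ENNReal.ofReal (Real.exp K)
  cosY : ∀ a : ℝ, ∫⁻ x in Bx R, g x * ENNReal.ofReal (Real.exp (c / (1 + |a|) *
    (nu R ρ (sym x.2) fun t => Real.cos (a * t)) ^ 2)) ≤ B * ENNReal.ofReal (Real.exp K)

theorem SqWF.mass (hc : 0 ≤ c) (h : SqWF g R ρ B c K) :
    ∫⁻ x in Bx R, g x ≤ B * ENNReal.ofReal (Real.exp K) := by
  refine le_trans (lintegral_mono fun x => ?_) (h.cosX 0)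
  calc g x = g x * ENNReal.ofReal 1 := by simp
    _ ≤ _ := by
      gcongr
      exact Real.one_le_exp (by positivity)

/-- majorant -/
theorem SqWF.mono {g' : Cfg p n → ℝ≥0∞} {B' : ℝ≥0∞} (h : SqWF g R ρ B c K)
    (hg : ∀ x ∈ Bx (p := p) (n := n) R, g' x ≤ g x) (hB : B ≤ B') : SqWF g' R ρ B' c K := by
  have go : ∀ F : Cfg p n → ℝ≥0∞, ∫⁻ x in Bx R, g x * F x ≤ B * ENNReal.ofReal (Real.exp K) →
      ∫⁻ x in Bx R, g' x * F x ≤ B' * ENNReal.ofReal (Real.exp K) := by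
    intro F hF
    refine le_trans (setLIntegral_mono' (measurableSet_Bx R) fun x hx => ?_) (hF.trans (by gcongr))
    have := hg x hx
    gcongr
  exact ⟨fun a => go _ (h.cosX a), fun a => go _ (h.cosY a)⟩

/-- a larger `K` and a smaller `c` -/
theorem SqWF.monoC {c' K' : ℝ} (h : SqWF g R ρ B c K) (hc : c' ≤ c) (hK : K ≤ K') :
    SqWF g R ρ B c' K' := by
  have go : ∀ (a : ℝ) (N : Cfg p n → ℝ), ∫⁻ x in Bx R, g x *
      ENNReal.ofReal (Real.exp (c / (1 + |a|) * N x ^ 2)) ≤ B * ENNReal.ofReal (Real.exp K) →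
      ∫⁻ x in Bx R, g x * ENNReal.ofReal (Real.exp (c' / (1 + |a|) * N x ^ 2)) ≤
        B * ENNReal.ofReal (Real.exp K') := by
    intro a N hN
    refine (lintegral_mono fun x => ?_).trans (hN.trans (by gcongr))
    gcongr
  exact ⟨fun a => go a _ (h.cosX a), fun a => go a _ (h.cosY a)⟩

theorem SqWF.smul (h : SqWF g R ρ B c K) {w : ℝ≥0∞} (hw : w ≠ ∞) :
    SqWF (fun x => w * g x) R ρ (w * B) c K := by
  have go : ∀ F : Cfg p n → ℝ≥0∞, ∫⁻ x in Bx R, g x * F x ≤ B * ENNReal.ofReal (Real.exp K) →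
      ∫⁻ x in Bx R, w * g x * F x ≤ w * B * ENNReal.ofReal (Real.exp K) := by
    intro F hF
    simp_rw [mul_assoc]
    rw [lintegral_const_mul' _ _ hw]
    gcongr
  exact ⟨fun a => go _ (h.cosX a), fun a => go _ (h.cosY a)⟩

theorem meas_modeXs (f : ℝ → ℝ) (hf : Continuous f) :
    Measurable fun x : Cfg p n => nu R ρ (sym x.1) f :=
  measurable_nu (n := p + p) (s := fun x : Cfg p n => sym x.1)
    (sym_meas.comp measurable_fst) hf

theorem meas_modeYs (f : ℝ → ℝ) (hf : Continuous f) :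
    Measurable fun x : Cfg p n => nu R ρ (sym x.2) f :=
  measurable_nu (n := n + n) (s := fun x : Cfg p n => sym x.2)
    (sym_meas.comp measurable_snd) hf

/-- sum over the shells -/
theorem SqWF.tsum {gj : ℕ → Cfg p n → ℝ≥0∞} {Bj : ℕ → ℝ≥0∞} (hm : ∀ j, Measurable (gj j))
    (h : ∀ j, SqWF (gj j) R ρ (Bj j) c K) :
    SqWF (fun x => ∑' j, gj j x) R ρ (∑' j, Bj j) c K := by
  have go : ∀ F : Cfg p n → ℝ≥0∞, Measurable F →
      (∀ j, ∫⁻ x in Bx R, gj j x * F x ≤ Bj j * ENNReal.ofReal (Real.exp K)) →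
      ∫⁻ x in Bx R, (∑' j, gj j x) * F x ≤ (∑' j, Bj j) * ENNReal.ofReal (Real.exp K) := by
    intro F hF hj
    have hm' : ∀ j, Measurable fun x => gj j x * F x := fun j => (hm j).mul hF
    simp_rw [← ENNReal.tsum_mul_right]
    rw [lintegral_tsum fun j => (hm' j).aemeasurable]
    exact ENNReal.tsum_le_tsum hj
  have mX : ∀ (a : ℝ) (f : ℝ → ℝ), Continuous f → Measurable fun x : Cfg p n =>
      ENNReal.ofReal (Real.exp (c / (1 + |a|) * (nu R ρ (sym x.1) f) ^ 2)) := by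
    intro a f hf
    have := meas_modeXs (p := p) (n := n) (R := R) (ρ := ρ) f hf
    fun_prop
  have mY : ∀ (a : ℝ) (f : ℝ → ℝ), Continuous f → Measurable fun x : Cfg p n =>
      ENNReal.ofReal (Real.exp (c / (1 + |a|) * (nu R ρ (sym x.2) f) ^ 2)) := by
    intro a f hf
    have := meas_modeYs (p := p) (n := n) (R := R) (ρ := ρ) f hf
    fun_prop
  exact ⟨fun a => go _ (mX a _ (by fun_prop)) fun j => (h j).cosX a,
    fun a => go _ (mY a _ (by fun_prop)) fun j => (h j).cosY a⟩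

/-- finitely many shells -/
theorem SqWF.sum {J : ℕ} {gj : ℕ → Cfg p n → ℝ≥0∞} {Bj : ℕ → ℝ≥0∞} (hm : ∀ j, Measurable (gj j))
    (h : ∀ j < J, SqWF (gj j) R ρ (Bj j) c K) :
    SqWF (fun x => ∑ j ∈ Finset.range J, gj j x) R ρ (∑ j ∈ Finset.range J, Bj j) c K := by
  have go : ∀ F : Cfg p n → ℝ≥0∞, Measurable F →
      (∀ j < J, ∫⁻ x in Bx R, gj j x * F x ≤ Bj j * ENNReal.ofReal (Real.exp K)) →
      ∫⁻ x in Bx R, (∑ j ∈ Finset.range J, gj j x) * F x ≤
        (∑ j ∈ Finset.range J, Bj j) * ENNReal.ofReal (Real.exp K) := by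
    intro F hF hj
    have hm' : ∀ j, Measurable fun x => gj j x * F x := fun j => (hm j).mul hF
    simp_rw [Finset.sum_mul]
    rw [lintegral_finsetSum _ fun j _ => hm' j]
    exact Finset.sum_le_sum fun j hj' => hj j (Finset.mem_range.1 hj')
  have mX : ∀ (a : ℝ) (f : ℝ → ℝ), Continuous f → Measurable fun x : Cfg p n =>
      ENNReal.ofReal (Real.exp (c / (1 + |a|) * (nu R ρ (sym x.1) f) ^ 2)) := by
    intro a f hf
    have := meas_modeXs (p := p) (n := n) (R := R) (ρ := ρ) f hf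
    fun_prop
  have mY : ∀ (a : ℝ) (f : ℝ → ℝ), Continuous f → Measurable fun x : Cfg p n =>
      ENNReal.ofReal (Real.exp (c / (1 + |a|) * (nu R ρ (sym x.2) f) ^ 2)) := by
    intro a f hf
    have := meas_modeYs (p := p) (n := n) (R := R) (ρ := ρ) f hf
    fun_prop
  exact ⟨fun a => go _ (mX a _ (by fun_prop)) fun j hj => (h j hj).cosX a,
    fun a => go _ (mY a _ (by fun_prop)) fun j hj => (h j hj).cosY a⟩

/-- **the expectations** from exponential squares and a lower bound of the total weight -/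
theorem rigS_of_sq (hR : 0 ≤ R) (hρ : Continuous ρ) (hρe : ∀ x, ρ (-x) = ρ x) (hg : Measurable g)
    (hc : 0 < c) (hB : B ≠ ∞) (h : SqWF g R ρ B c K) {A : ℝ} (hA : 0 < A + K)
    (hlow : B * ENNReal.ofReal (Real.exp (-A)) ≤ mWin R g Set.univ) :
    IsFiniteMeasure (mWin R g) ∧
      TCR.RigS (mWin R g) (fun x => sym x.1) (fun x => sym x.2) R ρ (2 * ((A + K) / c) + 1) := by
  have hms := measurableSet_Bx (p := p) (n := n) R
  have hg' := hg.indicator hms
  have e0 : ∀ F : Cfg p n → ℝ≥0∞, ∫⁻ x, (Bx R).indicator g x * F x = ∫⁻ x in Bx R, g x * F x := by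
    intro F
    rw [← lintegral_indicator hms]
    refine lintegral_congr fun x => ?_
    by_cases hx : x ∈ Bx (p := p) (n := n) R
    · rw [indicator_of_mem hx, indicator_of_mem hx]
    · rw [indicator_of_notMem hx, indicator_of_notMem hx, zero_mul]
  rw [mWin_univ] at hlow
  have e1 : ∫⁻ x, (Bx R).indicator g x = ∫⁻ x in Bx R, g x := lintegral_indicator hms _
  have hfin : ∫⁻ x, (Bx R).indicator g x ≠ ∞ := by
    rw [e1]
    exact ne_top_of_le_ne_top (ENNReal.mul_ne_top hB ENNReal.ofReal_ne_top) (h.mass hc.le)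
  have go : ∀ (k : Bool) (f : ℝ → ℝ) (N : Cfg p n → ℝ) (a : ℝ), Continuous f →
      (∀ x ∈ Bx (p := p) (n := n) R, N x = nu R ρ (spc R p n k x) f) →
      ∫⁻ x in Bx R, g x * ENNReal.ofReal (Real.exp (c / (1 + |a|) * N x ^ 2)) ≤
        B * ENNReal.ofReal (Real.exp K) →
      ∫⁻ x, (Bx R).indicator g x * ENNReal.ofReal ((nu R ρ (spc R p n k x) f) ^ 2) ≤
        ENNReal.ofReal ((A + K) / c * (1 + |a|)) * ∫⁻ x, (Bx R).indicator g x := by
    intro k f N a hf hN h1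
    refine sq_moment (B := B) hg' (N := fun x => nu R ρ (spc R p n k x) f)
      (measurable_nu (measurable_spc R k) hf) (α := 1 + |a|) (c := c) (A := A)
      (K := K) (by positivity) hc hA.le hB ?_ hlow
    rw [e0]
    refine le_trans (le_of_eq ?_) h1
    refine setLIntegral_congr_fun hms fun x hx => ?_
    rw [hN x hx]
  -- the sine modes
  have gos : ∀ (k : Bool) (a : ℝ),
      ∫⁻ x, (Bx R).indicator g x *
        ENNReal.ofReal ((nu R ρ (spc R p n k x) fun t => Real.sin (a * t)) ^ 2) ≤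
        ENNReal.ofReal ((A + K) / c * (1 + |a|)) * ∫⁻ x, (Bx R).indicator g x := by
    intro k a
    rw [e0]
    refine le_trans (le_of_eq ?_) (zero_le : (0 : ℝ≥0∞) ≤ _)
    rw [← lintegral_zero (μ := volume.restrict (Bx (p := p) (n := n) R))]
    refine setLIntegral_congr_fun hms fun x hx => ?_
    have h0 : (nu R ρ (spc R p n k x) fun t => Real.sin (a * t)) = 0 := by
      cases k
      · rw [spc_false hx]
        exact nu_sym_sin hρe x.2 a
      · rw [spc_true hx]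
        exact nu_sym_sin hρe x.1 a
    rw [h0]
    simp
  have h2 : ∀ k, MB volume ((Bx R).indicator g) R ρ (spc R p n k) ((A + K) / c) := by
    intro k
    cases k
    · exact ⟨fun a => go false _ _ a (by fun_prop) (fun x hx => by rw [spc_false hx]; rfl) (h.cosY a),
        fun a => gos false a⟩
    · exact ⟨fun a => go true _ _ a (by fun_prop) (fun x hx => by rw [spc_true hx]; rfl) (h.cosX a),
        fun a => gos true a⟩
  refine ⟨?_, rigS_of_MB hR hρ hg hfin (by positivity) h2⟩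
  constructor
  rw [mWin_univ]
  exact lt_top_iff_ne_top.2 hfin

/-- **the dichotomy with the numbers**, general exponents: either the total weight is at most
`A m^{a - δ}` or the expectations satisfy `RigS` with `S = C₄ (log m)⁸` -/
theorem dicho_rigS {C₁ C₂ C₃ δ : ℝ} (h1 : 0 < C₁) (h2 : 0 ≤ C₂) (h3 : 0 ≤ C₃) (hδ : 0 ≤ δ)
    (hδ1 : δ ≤ 1 / 2) : ∃ C₄ : ℝ, 1 ≤ C₄ ∧
    ∀ m : ℕ, 3 ≤ m → ∀ R : ℝ, 0 ≤ R → R ≤ 2 * Real.log m ^ 2 → ∀ {p n : ℕ} {g : Cfg p n → ℝ≥0∞},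
      Measurable g → ∀ {ρ : ℝ → ℝ}, Continuous ρ → (∀ x, ρ (-x) = ρ x) →
      ∀ A a M : ℝ, 0 ≤ A → 0 ≤ M →
      M ≤ C₂ * Real.log m ^ 6 →
      SqWF g R ρ (ENNReal.ofReal (A * (m : ℝ) ^ a * Real.exp C₃)) (1 / (8 * (C₁ * (R + 1)))) (1 + M) →
      mWin R g Set.univ ≤ ENNReal.ofReal (A * (m : ℝ) ^ (a - δ)) ∨
        (IsFiniteMeasure (mWin R g) ∧ TCR.RigS (mWin R g) (fun x => sym x.1) (fun x => sym x.2) R ρ
          (C₄ * Real.log m ^ 8)) := by
  refine ⟨1 + 48 * C₁ * (C₂ + C₃ + 2), by nlinarith [mul_nonneg h1.le (by linarith : 0 ≤ C₂ + C₃ + 2)],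
    ?_⟩
  intro m hm R hR hR2 p n g hg ρ hρ hρe A a M hA hM hM2 hsq
  have hL := one_le_log hm
  obtain ⟨L, hLe⟩ : ∃ L, L = Real.log m := ⟨_, rfl⟩
  rw [← hLe] at hL hR2 hM2 ⊢
  have hm0 : (0 : ℝ) < m := by
    have : 0 < m := by omega
    exact_mod_cast this
  rcases le_or_gt (mWin R g Set.univ) (ENNReal.ofReal (A * (m : ℝ) ^ (a - δ))) with h | h
  · exact Or.inl h
  · right
    have hlow : ENNReal.ofReal (A * (m : ℝ) ^ a * Real.exp C₃) *
        ENNReal.ofReal (Real.exp (-(δ * L + C₃))) ≤ mWin R g Set.univ := by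
      refine le_trans (le_of_eq ?_) h.le
      rw [← ENNReal.ofReal_mul (by positivity)]
      congr 1
      have e1 : (m : ℝ) ^ (a - δ) = (m : ℝ) ^ a * Real.exp (-(δ * L)) := by
        rw [Real.rpow_sub hm0, hLe, Real.exp_neg, div_eq_mul_inv]
        congr 2
        rw [Real.rpow_def_of_pos hm0]
        congr 1
        ring
      rw [e1, mul_assoc, mul_assoc]
      congr 2
      rw [← Real.exp_add]
      congr 1
      ring
    have hc0 : 0 < 1 / (8 * (C₁ * (R + 1))) := by positivity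
    have hδL : 0 ≤ δ * L := by positivity
    obtain ⟨f1, f2⟩ := rigS_of_sq hR hρ hρe hg hc0 ENNReal.ofReal_ne_top hsq (A := δ * L + C₃)
      (by positivity) hlow
    refine ⟨f1, f2.mono ?_⟩
    have e2 : 2 * ((δ * L + C₃ + (1 + M)) / (1 / (8 * (C₁ * (R + 1))))) + 1 =
        16 * C₁ * (R + 1) * (δ * L + C₃ + 1 + M) + 1 := by
      field_simp
      ring
    rw [e2]
    have hL2 : 1 ≤ L ^ 2 := one_le_pow₀ hL
    have hL6 : 1 ≤ L ^ 6 := one_le_pow₀ hL
    have hL8 : 1 ≤ L ^ 8 := one_le_pow₀ hL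
    have h4 : R + 1 ≤ 3 * L ^ 2 := by linarith
    have h5 : L ≤ L ^ 6 := by
      calc L = L ^ 1 := (pow_one L).symm
        _ ≤ L ^ 6 := pow_le_pow_right₀ hL (by norm_num)
    have h5' : δ * L ≤ 1 / 2 * L ^ 6 := by
      calc δ * L ≤ 1 / 2 * L := by gcongr
        _ ≤ _ := by gcongr
    have h6 : δ * L + C₃ + 1 + M ≤ (C₂ + C₃ + 2) * L ^ 6 := by nlinarith
    have h7 : 0 ≤ δ * L + C₃ + 1 + M := by positivity
    calc 16 * C₁ * (R + 1) * (δ * L + C₃ + 1 + M) + 1 ≤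
        16 * C₁ * (3 * L ^ 2) * ((C₂ + C₃ + 2) * L ^ 6) + 1 * L ^ 8 := by
          gcongr
          linarith
      _ = (1 + 48 * C₁ * (C₂ + C₃ + 2)) * L ^ 8 := by ring

end TCDi
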