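import Pool.Agent.NU42.SumT
import Pool.Agent.NUH0.SqS
import Pool.Agent.TC.DiSq

/-!
# Folded gas: summation of the shells

* `FWO_mul`: one body factors can be split off;
* `FWO_shells`, `FWO_shells0`, `FWO_full`, `FWO_tail`: sums over the shells (the wall factor is part
  of the one body factors `a`, `a'`);
* `SqCF`: on the window `[-T, T]`, exponential squares of the cut modes at the symmetrised
  configuration; `shell_modeF`, `sqWF_shells`: sum over the shells.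
-/

set_option autoImplicit false

open MeasureTheory Set Filter Topology
open scoped ENNReal

namespace TCDi

open NUKer NUDi NUR2 TCF NU42

noncomputable section

variable {p n : ℕ}

/-- one body factors can be split off -/
lemma FWO_mul (DX DX1 DY DY1 : ℝ → ℂ) (a a' c c' : ℝ → ℝ) (t : Fin p → ℝ) (t' : Fin n → ℝ) :
    FWO DX DX1 DY DY1 (fun t => a t * c t) (fun t => a' t * c' t) t t' =
      FWO DX DX1 DY DY1 a a' t t' * ((∏ i, c (t i)) * ∏ j, c' (t' j)) := by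
  unfold FWO ob
  simp only [← mul_assoc, Finset.prod_mul_distrib]
  ring

/-- monotonicity in the one body factors -/
lemma FWO_mono {DX DX1 DY DY1 : ℝ → ℂ} {a a' b b' : ℝ → ℝ} (ha : ∀ t, 0 ≤ a t) (ha' : ∀ t, 0 ≤ a' t)
    (t : Fin p → ℝ) (t' : Fin n → ℝ) (h : ∀ i, a (t i) ≤ b (t i)) (h' : ∀ i, a' (t' i) ≤ b' (t' i)) :
    FWO DX DX1 DY DY1 a a' t t' ≤ FWO DX DX1 DY DY1 b b' t t' := by
  have e1 : ob DX1 a t ≤ ob DX1 b t := by
    unfold ob
    exact Finset.prod_le_prod (fun i _ => mul_nonneg (norm_nonneg _) (ha _))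
      fun i _ => mul_le_mul_of_nonneg_left (h i) (norm_nonneg _)
  have e2 : ob DY1 a' t' ≤ ob DY1 b' t' := by
    unfold ob
    exact Finset.prod_le_prod (fun i _ => mul_nonneg (norm_nonneg _) (ha' _))
      fun i _ => mul_le_mul_of_nonneg_left (h' i) (norm_nonneg _)
  unfold FWO
  refine mul_le_mul_of_nonneg_left ?_ ?_
  · exact mul_le_mul e1 e2 (ob_nonneg _ ha' _) ((ob_nonneg _ ha _).trans e1)
  · exact mul_nonneg (mul_nonneg (mul_nonneg (fow_nonneg _ _) (fself_nonneg _ _))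
      (mul_nonneg (fow_nonneg _ _) (fself_nonneg _ _))) (fcr_nonneg _ _ _ _)

section shells

variable {DX DX1 DY DY1 : ℝ → ℂ} {a a' : ℝ → ℝ} {E : (Fin p → ℝ) × (Fin n → ℝ) → ℝ}

lemma FWO_split (ha : ∀ t, 0 ≤ a t) (ha' : ∀ t, 0 ≤ a' t) (hE : ∀ x, 0 ≤ E x) (f : ℝ → ℝ)
    (hf : ∀ t, 0 ≤ f t) (x : (Fin p → ℝ) × (Fin n → ℝ)) :
    ENNReal.ofReal (FWO DX DX1 DY DY1 (fun t => a t * f t) (fun t => a' t * f t) x.1 x.2 * E x) =
      ENNReal.ofReal (FWO DX DX1 DY DY1 a a' x.1 x.2 * E x) *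
        ((∏ i, ENNReal.ofReal (f (x.1 i))) * ∏ i, ENNReal.ofReal (f (x.2 i))) := by
  rw [FWO_mul, ← ENNReal.ofReal_prod_of_nonneg fun i _ => hf _,
    ← ENNReal.ofReal_prod_of_nonneg fun i _ => hf _,
    ← ENNReal.ofReal_mul (Finset.prod_nonneg fun i _ => hf _),
    ← ENNReal.ofReal_mul (mul_nonneg (FWO_nonneg _ _ _ _ ha ha' _ _) (hE x))]
  congr 1
  ring

/-- **summation of the shells for the folded gas** -/
theorem FWO_shells (m1 : Measurable DX) (m2 : Measurable DX1) (m3 : Measurable DY)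
    (m4 : Measurable DY1) (ma : Measurable a) (ma' : Measurable a') (ha : ∀ t, 0 ≤ a t)
    (ha' : ∀ t, 0 ≤ a' t) (mE : Measurable E) (hE : ∀ x, 0 ≤ E x)
    {c B : ℝ → ℝ} (hB : Measurable B) {D q g A T0 : ℝ} (hD : 0 ≤ D) (hA : 0 ≤ A) (hq : 0 < q)
    (hg : g < q) (hB0 : ∀ t, 0 ≤ B t) (h0 : ∀ t, 0 ≤ c t) (h1 : ∀ t, c t ≤ Real.exp (B t))
    (h2 : ∀ t, c t ≤ D * Real.exp (-q * |t|))
    (hw : ∀ j : ℕ, ∫⁻ x in Bw p n (T0 + j), ENNReal.ofReal (FWO DX DX1 DY DY1
      (fun t => a t * Real.exp (B t)) (fun t => a' t * Real.exp (B t)) x.1 x.2 * E x) ≤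
      ENNReal.ofReal (A * Real.exp (g * j))) :
    ∫⁻ x, ENNReal.ofReal (FWO DX DX1 DY DY1 (fun t => a t * c t) (fun t => a' t * c t) x.1 x.2 * E x)
      ≤ ENNReal.ofReal (A * (1 + D * Real.exp (-q * T0) * Real.exp g / (1 - Real.exp (-(q - g))))) := by
  simp only [FWO_split ha ha' hE c h0]
  refine gas_shells (((FWO_meas m1 m2 m3 m4 ma ma').mul mE).ennreal_ofReal) hB hD hA hq hg hB0 h1 h2
    fun j => ?_
  refine (le_of_eq (lintegral_congr fun x => ?_)).trans (hw j)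
  exact (FWO_split ha ha' hE (fun t => Real.exp (B t)) (fun t => (Real.exp_pos _).le) x).symm

/-- **summation of the shells for the folded gas**, separate bound of the first window -/
theorem FWO_shells0 (m1 : Measurable DX) (m2 : Measurable DX1) (m3 : Measurable DY)
    (m4 : Measurable DY1) (ma : Measurable a) (ma' : Measurable a') (ha : ∀ t, 0 ≤ a t)
    (ha' : ∀ t, 0 ≤ a' t) (mE : Measurable E) (hE : ∀ x, 0 ≤ E x)
    {c B : ℝ → ℝ} (hB : Measurable B) {D q g A A0 T0 : ℝ} (hD : 0 ≤ D) (hA : 0 ≤ A) (hq : 0 < q)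
    (hg : g < q) (hB0 : ∀ t, 0 ≤ B t) (h0 : ∀ t, 0 ≤ c t) (h1 : ∀ t, c t ≤ Real.exp (B t))
    (h2 : ∀ t, c t ≤ D * Real.exp (-q * |t|))
    (hw0 : ∫⁻ x in Bw p n T0, ENNReal.ofReal (FWO DX DX1 DY DY1
      (fun t => a t * Real.exp (B t)) (fun t => a' t * Real.exp (B t)) x.1 x.2 * E x) ≤
      ENNReal.ofReal A0)
    (hw : ∀ j : ℕ, ∫⁻ x in Bw p n (T0 + (j + 1)), ENNReal.ofReal (FWO DX DX1 DY DY1
      (fun t => a t * Real.exp (B t)) (fun t => a' t * Real.exp (B t)) x.1 x.2 * E x) ≤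
      ENNReal.ofReal (A * Real.exp (g * (j + 1)))) :
    ∫⁻ x, ENNReal.ofReal (FWO DX DX1 DY DY1 (fun t => a t * c t) (fun t => a' t * c t) x.1 x.2 * E x)
      ≤ ENNReal.ofReal A0 +
        ENNReal.ofReal (A * (D * Real.exp (-q * T0) * Real.exp g / (1 - Real.exp (-(q - g))))) := by
  simp only [FWO_split ha ha' hE c h0]
  refine gas_shells0 (((FWO_meas m1 m2 m3 m4 ma ma').mul mE).ennreal_ofReal) hB hD hA hq hg hB0 h1 h2
    ?_ fun j => ?_
  · refine (le_of_eq (lintegral_congr fun x => ?_)).trans hw0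
    exact (FWO_split ha ha' hE (fun t => Real.exp (B t)) (fun t => (Real.exp_pos _).le) x).symm
  · refine (le_of_eq (lintegral_congr fun x => ?_)).trans (hw j)
    exact (FWO_split ha ha' hE (fun t => Real.exp (B t)) (fun t => (Real.exp_pos _).le) x).symm

/-- **the whole integral**, window bounds for real half lengths -/
theorem FWO_full (m1 : Measurable DX) (m2 : Measurable DX1) (m3 : Measurable DY)
    (m4 : Measurable DY1) (ma : Measurable a) (ma' : Measurable a') (ha : ∀ t, 0 ≤ a t)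
    (ha' : ∀ t, 0 ≤ a' t) (mE : Measurable E) (hE : ∀ x, 0 ≤ E x)
    {c B : ℝ → ℝ} (hB : Measurable B) {D q g A T0 : ℝ} (hD : 0 ≤ D) (hA : 0 ≤ A) (hq : 0 < q)
    (hg : g < q) (hB0 : ∀ t, 0 ≤ B t) (h0 : ∀ t, 0 ≤ c t) (h1 : ∀ t, c t ≤ Real.exp (B t))
    (h2 : ∀ t, c t ≤ D * Real.exp (-q * |t|))
    (hw : ∀ T, T0 ≤ T → ∫⁻ x in Bw p n T, ENNReal.ofReal (FWO DX DX1 DY DY1
      (fun t => a t * Real.exp (B t)) (fun t => a' t * Real.exp (B t)) x.1 x.2 * E x) ≤
      ENNReal.ofReal (A * Real.exp (g * (T - T0)))) :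
    ∫⁻ x, ENNReal.ofReal (FWO DX DX1 DY DY1 (fun t => a t * c t) (fun t => a' t * c t) x.1 x.2 * E x)
      ≤ ENNReal.ofReal (A * (1 + D * Real.exp (-q * T0) * Real.exp g / (1 - Real.exp (-(q - g))))) := by
  refine FWO_shells m1 m2 m3 m4 ma ma' ha ha' mE hE hB hD hA hq hg hB0 h0 h1 h2 fun j => ?_
  have h := hw (T0 + j) (by linarith [(Nat.cast_nonneg j : (0 : ℝ) ≤ j)])
  rwa [add_sub_cancel_left] at h

/-- **the tail** -/
theorem FWO_tail (m1 : Measurable DX) (m2 : Measurable DX1) (m3 : Measurable DY)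
    (m4 : Measurable DY1) (ma : Measurable a) (ma' : Measurable a') (ha : ∀ t, 0 ≤ a t)
    (ha' : ∀ t, 0 ≤ a' t) (mE : Measurable E) (hE : ∀ x, 0 ≤ E x)
    {c B : ℝ → ℝ} (hB : Measurable B) {D q g A T0 R : ℝ} (hD : 0 ≤ D) (hA : 0 ≤ A) (hq : 0 < q)
    (hg : g < q) (hB0 : ∀ t, 0 ≤ B t) (h0 : ∀ t, 0 ≤ c t) (h1 : ∀ t, c t ≤ Real.exp (B t))
    (h2 : ∀ t, c t ≤ D * Real.exp (-q * |t|)) (hTR : T0 ≤ R)
    (hw : ∀ T, T0 ≤ T → ∫⁻ x in Bw p n T, ENNReal.ofReal (FWO DX DX1 DY DY1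
      (fun t => a t * Real.exp (B t)) (fun t => a' t * Real.exp (B t)) x.1 x.2 * E x) ≤
      ENNReal.ofReal (A * Real.exp (g * (T - T0)))) :
    ∫⁻ x in (Bw p n R)ᶜ, ENNReal.ofReal (FWO DX DX1 DY DY1 (fun t => a t * c t)
        (fun t => a' t * c t) x.1 x.2 * E x) ≤
      ENNReal.ofReal (A * (D * Real.exp (-q * T0) * Real.exp (-(q - g) * (R - T0)) * Real.exp g /
        (1 - Real.exp (-(q - g))))) := by
  have hms := Bw_meas (p := p) (n := n) R
  obtain ⟨E1, hE1⟩ : ∃ E1 : (Fin p → ℝ) × (Fin n → ℝ) → ℝ, E1 = (Bw p n R)ᶜ.indicator E := ⟨_, rfl⟩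
  have mE1 : Measurable E1 := by
    rw [hE1]
    exact mE.indicator hms.compl
  have E10 : ∀ x, 0 ≤ E1 x := by
    intro x
    rw [hE1]
    exact indicator_nonneg (fun x _ => hE x) x
  have Ele : ∀ x, E1 x ≤ E x := by
    intro x
    rw [hE1]
    exact indicator_le_self' (fun x _ => hE x) x
  have W0 : ∀ x : (Fin p → ℝ) × (Fin n → ℝ), 0 ≤ FWO DX DX1 DY DY1
      (fun t => a t * Real.exp (B t)) (fun t => a' t * Real.exp (B t)) x.1 x.2 := fun x =>
    FWO_nonneg _ _ _ _ (fun t => mul_nonneg (ha t) (Real.exp_pos _).le)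
      (fun t => mul_nonneg (ha' t) (Real.exp_pos _).le) _ _
  have key := FWO_shells0 (p := p) (n := n) m1 m2 m3 m4 ma ma' ha ha' mE1 E10 hB (D := D) (q := q)
    (g := g) (A := A * Real.exp (g * (R - T0))) (A0 := 0) (T0 := R) hD (by positivity) hq hg hB0 h0
    h1 h2 (by
      rw [ENNReal.ofReal_zero, nonpos_iff_eq_zero]
      refine (lintegral_eq_zero_iff' ?_).2 ?_
      · refine Measurable.aemeasurable ?_
        have := FWO_meas (p := p) (n := n) m1 m2 m3 m4 (ma.mul (Real.measurable_exp.comp hB))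
          (ma'.mul (Real.measurable_exp.comp hB))
        exact (this.mul mE1).ennreal_ofReal
      · filter_upwards [ae_restrict_mem hms] with x hx
        have : E1 x = 0 := by
          rw [hE1, indicator_of_notMem]
          exact fun h => h hx
        rw [this, mul_zero, ENNReal.ofReal_zero]
        rfl) (by
      intro j
      have hj0 : (0 : ℝ) ≤ j := Nat.cast_nonneg j
      have h := hw (R + (j + 1)) (by linarith)
      refine le_trans (lintegral_mono fun x => ?_) (h.trans (ENNReal.ofReal_le_ofReal ?_))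
      · refine ENNReal.ofReal_le_ofReal ?_
        exact mul_le_mul_of_nonneg_left (Ele x) (W0 x)
      · rw [mul_assoc, ← Real.exp_add]
        refine mul_le_mul_of_nonneg_left (Real.exp_le_exp.2 (le_of_eq ?_)) hA
        ring)
  rw [ENNReal.ofReal_zero, zero_add] at key
  refine le_trans (le_of_eq ?_) (key.trans (ENNReal.ofReal_le_ofReal (le_of_eq ?_)))
  · rw [← lintegral_indicator hms.compl]
    refine lintegral_congr fun x => ?_
    by_cases hx : x ∈ (Bw p n R)ᶜ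
    · rw [indicator_of_mem hx, hE1, indicator_of_mem hx]
    · rw [indicator_of_notMem hx, hE1, indicator_of_notMem hx, mul_zero, ENNReal.ofReal_zero]
  · rw [show -(q - g) * (R - T0) = g * (R - T0) + (-q * R) - (-q * T0) by ring, Real.exp_sub,
      Real.exp_add]
    have := (Real.exp_pos (-q * T0)).ne'
    field_simp

end shells

/-! ### exponential squares -/

/-- exponential squares of the cut modes on the window `[-T, T]`, symmetrised configuration -/
structure SqCF (W : Cfg p n → ℝ) (T : ℝ) (bb ρ : ℝ → ℝ) (A c : ℝ) : Prop where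
  cosX : ∀ a : ℝ, ∫⁻ x in NU42.Bw p n T, ENNReal.ofReal (W x * Real.exp (c / (1 + |a|) *
    (nuF ρ (sym x.1) fun t => bb t * Real.cos (a * t)) ^ 2)) ≤ ENNReal.ofReal A
  cosY : ∀ a : ℝ, ∫⁻ x in NU42.Bw p n T, ENNReal.ofReal (W x * Real.exp (c / (1 + |a|) *
    (nuF ρ (sym x.2) fun t => bb t * Real.cos (a * t)) ^ 2)) ≤ ENNReal.ofReal A

/-- one mode -/
theorem shell_modeF {DX DX1 DY DY1 : ℝ → ℂ} (m1 : Measurable DX) (m2 : Measurable DX1)
    (m3 : Measurable DY) (m4 : Measurable DY1) {a a' : ℝ → ℝ} (ma : Measurable a)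
    (ma' : Measurable a') (ha : ∀ t, 0 ≤ a t) (ha' : ∀ t, 0 ≤ a' t)
    {cf B : ℝ → ℝ} (hB : Measurable B) {D q g A T0 R : ℝ} (hD : 0 ≤ D) (hA : 0 ≤ A) (hq : 0 < q)
    (hg : g < q) (hg0 : 0 ≤ g) (hB0 : ∀ t, 0 ≤ B t) (h0 : ∀ t, 0 ≤ cf t)
    (h1 : ∀ t, cf t ≤ Real.exp (B t)) (h2 : ∀ t, cf t ≤ D * Real.exp (-q * |t|)) (hTR : T0 ≤ R)
    {N F : Cfg p n → ℝ} (mN : Measurable N) {c K0 : ℝ} (hK0 : 0 ≤ K0)
    (hNF : ∀ x ∈ Bx (p := p) (n := n) R, N x ^ 2 ≤ 2 * F x ^ 2 + K0) (hc : 0 ≤ c) {α : ℝ}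
    (hα : 1 ≤ α)
    (hw : ∀ T, T0 ≤ T → T ≤ R → ∫⁻ x in NU42.Bw p n T, ENNReal.ofReal (FWO DX DX1 DY DY1
      (fun t => a t * Real.exp (B t)) (fun t => a' t * Real.exp (B t)) x.1 x.2 *
        Real.exp (c / α * F x ^ 2)) ≤ ENNReal.ofReal (A * Real.exp (g * (T - T0)))) :
    ∫⁻ x in Bx R, ENNReal.ofReal (FWO DX DX1 DY DY1 (fun t => a t * cf t)
        (fun t => a' t * cf t) x.1 x.2) * ENNReal.ofReal (Real.exp (c / 2 / α * N x ^ 2)) ≤
      ENNReal.ofReal (A * Real.exp (c / 2 * K0) *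
        (1 + D * Real.exp (-q * T0) * Real.exp g / (1 - Real.exp (-(q - g))))) := by
  have hms := measurableSet_Bx (p := p) (n := n) R
  have hα0 : 0 < α := by linarith
  have hK0' : ∀ x ∈ Bx (p := p) (n := n) R,
      c / 2 / α * N x ^ 2 ≤ c / α * F x ^ 2 + c / 2 * K0 := by
    intro x hx
    have := hNF x hx
    have h3 : 0 ≤ c / 2 / α := by positivity
    have h4 : c / 2 / α * K0 ≤ c / 2 * K0 := by
      have : c / 2 / α ≤ c / 2 := div_le_self (by positivity) hα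
      gcongr
    calc c / 2 / α * N x ^ 2 ≤ c / 2 / α * (2 * F x ^ 2 + K0) := by gcongr
      _ = c / α * F x ^ 2 + c / 2 / α * K0 := by ring
      _ ≤ _ := by linarith
  have W0 : ∀ (u u' : ℝ → ℝ), (∀ t, 0 ≤ u t) → (∀ t, 0 ≤ u' t) → ∀ x : Cfg p n,
      0 ≤ FWO DX DX1 DY DY1 u u' x.1 x.2 := fun u u' hu hu' x => FWO_nonneg _ _ _ _ hu hu' _ _
  obtain ⟨E, hE⟩ : ∃ E : Cfg p n → ℝ,
      E = (Bx (p := p) (n := n) R).indicator fun x => Real.exp (c / 2 / α * N x ^ 2) := ⟨_, rfl⟩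
  have mE : Measurable E := by
    rw [hE]
    exact (by fun_prop : Measurable fun x => Real.exp (c / 2 / α * N x ^ 2)).indicator hms
  have E0 : ∀ x, 0 ≤ E x := by
    intro x
    rw [hE]
    exact indicator_nonneg (fun x _ => (Real.exp_pos _).le) x
  have Ein : ∀ x ∈ Bx (p := p) (n := n) R, E x = Real.exp (c / 2 / α * N x ^ 2) := by
    intro x hx
    rw [hE, indicator_of_mem hx]
  have Eout : ∀ x, x ∉ Bx (p := p) (n := n) R → E x = 0 := by
    intro x hx
    rw [hE, indicator_of_notMem hx]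
  obtain ⟨Wb, hWb⟩ : ∃ Wb : Cfg p n → ℝ, Wb = fun x => FWO DX DX1 DY DY1
    (fun t => a t * Real.exp (B t)) (fun t => a' t * Real.exp (B t)) x.1 x.2 := ⟨_, rfl⟩
  have Wb0 : ∀ x, 0 ≤ Wb x := by
    intro x
    rw [hWb]
    exact W0 _ _ (fun t => mul_nonneg (ha t) (Real.exp_pos _).le)
      (fun t => mul_nonneg (ha' t) (Real.exp_pos _).le) x
  have hw' : ∀ T, T0 ≤ T → T ≤ R → ∫⁻ x in NU42.Bw p n T, ENNReal.ofReal (Wb x *
      Real.exp (c / α * F x ^ 2)) ≤ ENNReal.ofReal (A * Real.exp (g * (T - T0))) := by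
    intro T a1 a2
    rw [hWb]
    exact hw T a1 a2
  -- the integrand on the window
  have h3 : ∀ T, T0 ≤ T → T ≤ R → ∫⁻ x in NU42.Bw p n T, ENNReal.ofReal (Wb x * E x) ≤
      ENNReal.ofReal (A * Real.exp (c / 2 * K0) * Real.exp (g * (T - T0))) := by
    intro T hT0 hTR'
    have h4 : ∀ x ∈ NU42.Bw p n T, ENNReal.ofReal (Wb x * E x) ≤
        ENNReal.ofReal (Real.exp (c / 2 * K0)) *
          ENNReal.ofReal (Wb x * Real.exp (c / α * F x ^ 2)) := by
      intro x hx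
      have hx' : x ∈ Bx (p := p) (n := n) R := by
        rw [NU42.mem_Bw] at hx
        exact ⟨fun i => (hx.1 i).trans hTR', fun i => (hx.2 i).trans hTR'⟩
      have hW := Wb0 x
      rw [Ein x hx', ← ENNReal.ofReal_mul (Real.exp_pos _).le]
      refine ENNReal.ofReal_le_ofReal ?_
      have h5 : Real.exp (c / 2 / α * N x ^ 2) ≤
          Real.exp (c / α * F x ^ 2) * Real.exp (c / 2 * K0) := by
        rw [← Real.exp_add]
        exact Real.exp_le_exp.2 (hK0' x hx')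
      calc _ ≤ Wb x * (Real.exp (c / α * F x ^ 2) * Real.exp (c / 2 * K0)) := by gcongr
        _ = _ := by ring
    refine (setLIntegral_mono' (NU42.Bw_meas T) h4).trans ?_
    rw [lintegral_const_mul' _ _ ENNReal.ofReal_ne_top]
    calc _ ≤ ENNReal.ofReal (Real.exp (c / 2 * K0)) *
        ENNReal.ofReal (A * Real.exp (g * (T - T0))) := by
          have := hw' T hT0 hTR'
          gcongr
      _ = _ := by
        rw [← ENNReal.ofReal_mul (Real.exp_pos _).le]
        congr 1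
        ring
  have key := FWO_shells (p := p) (n := n) m1 m2 m3 m4 ma ma' ha ha' (E := E) mE E0 hB (D := D)
    (q := q) (g := g) (A := A * Real.exp (c / 2 * K0)) (T0 := T0) hD (by positivity) hq hg hB0 h0
    h1 h2 (by
      intro j
      have hj0 : (0 : ℝ) ≤ j := Nat.cast_nonneg j
      have e2 : ∀ x : Cfg p n, FWO DX DX1 DY DY1 (fun t => a t * Real.exp (B t))
          (fun t => a' t * Real.exp (B t)) x.1 x.2 = Wb x := fun x => by rw [hWb]
      simp only [e2]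
      rcases le_or_gt (T0 + j) R with hj | hj
      · have h6 := h3 (T0 + j) (by linarith) hj
        rwa [add_sub_cancel_left] at h6
      · have h6 := h3 R hTR le_rfl
        have h7 : ∀ x ∈ NU42.Bw p n (T0 + j), ENNReal.ofReal (Wb x * E x) ≤
            (NU42.Bw p n R).indicator (fun x => ENNReal.ofReal (Wb x * E x)) x := by
          intro x _
          by_cases hx : x ∈ Bx (p := p) (n := n) R
          · rw [NUH0.Bw_eq, indicator_of_mem (s := Bx R) hx]
          · rw [Eout x hx, mul_zero, ENNReal.ofReal_zero]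
            exact bot_le
        refine (setLIntegral_mono' (NU42.Bw_meas _) h7).trans ?_
        refine (setLIntegral_le_lintegral _ _).trans ?_
        rw [lintegral_indicator (NU42.Bw_meas R)]
        refine h6.trans (ENNReal.ofReal_le_ofReal ?_)
        have h8 : g * (R - T0) ≤ g * j := mul_le_mul_of_nonneg_left (by linarith) hg0
        gcongr)
  refine le_trans (le_of_eq ?_) key
  rw [← lintegral_indicator hms]
  refine lintegral_congr fun x => ?_
  by_cases hx : x ∈ Bx (p := p) (n := n) R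
  · rw [indicator_of_mem hx, Ein x hx, ENNReal.ofReal_mul (W0 _ _
      (fun t => mul_nonneg (ha t) (h0 t)) (fun t => mul_nonneg (ha' t) (h0 t)) x)]
  · rw [indicator_of_notMem hx, Eout x hx, mul_zero, ENNReal.ofReal_zero]

/-- **sum over the shells**: exponential squares of the window statistics for the weight with the
true cutoff -/
theorem sqWF_shells {DX DX1 DY DY1 : ℝ → ℂ} (m1 : Measurable DX) (m2 : Measurable DX1)
    (m3 : Measurable DY) (m4 : Measurable DY1) {a a' : ℝ → ℝ} (ma : Measurable a)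
    (ma' : Measurable a') (ha : ∀ t, 0 ≤ a t) (ha' : ∀ t, 0 ≤ a' t)
    {cf B : ℝ → ℝ} (hB : Measurable B) {D q g A T0 R : ℝ} (hD : 0 ≤ D) (hA : 0 ≤ A) (hq : 0 < q)
    (hg : g < q) (hg0 : 0 ≤ g) (hB0 : ∀ t, 0 ≤ B t) (h0 : ∀ t, 0 ≤ cf t)
    (h1 : ∀ t, cf t ≤ Real.exp (B t)) (h2 : ∀ t, cf t ≤ D * Real.exp (-q * |t|)) (hTR : T0 ≤ R)
    (hR : 0 ≤ R) {bb ρ : ℝ → ℝ} (hbc : Continuous bb) (hb1 : ∀ t, |t| ≤ R → bb t = 1)
    (hbl : ∀ t, |bb t| ≤ 1) (hρ : Integrable ρ) {τ : ℝ} (hτ : ∫ t in {t | R < |t|}, |ρ t| ≤ τ)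
    {c K : ℝ} (hc : 0 ≤ c)
    (hw : ∀ T, T0 ≤ T → T ≤ R → SqCF (p := p) (n := n) (fun x => FWO DX DX1 DY DY1
      (fun t => a t * Real.exp (B t)) (fun t => a' t * Real.exp (B t)) x.1 x.2) T bb ρ
        (A * Real.exp K * Real.exp (g * (T - T0))) c) :
    SqWF (p := p) (n := n) (fun x => ENNReal.ofReal (FWO DX DX1 DY DY1 (fun t => a t * cf t)
      (fun t => a' t * cf t) x.1 x.2)) R ρ
      (ENNReal.ofReal (A * (1 + D * Real.exp (-q * T0) * Real.exp g / (1 - Real.exp (-(q - g))))))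
      (c / 2) (K + c * τ ^ 2) := by
  have hr1 : Real.exp (-(q - g)) < 1 := by
    rw [Real.exp_lt_one_iff]; linarith
  have h6 : 0 < 1 - Real.exp (-(q - g)) := by linarith
  have e0 : ENNReal.ofReal (A * Real.exp K * Real.exp (c / 2 * (2 * τ ^ 2)) *
        (1 + D * Real.exp (-q * T0) * Real.exp g / (1 - Real.exp (-(q - g))))) =
      ENNReal.ofReal (A * (1 + D * Real.exp (-q * T0) * Real.exp g / (1 - Real.exp (-(q - g))))) *
        ENNReal.ofReal (Real.exp (K + c * τ ^ 2)) := by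
    rw [← ENNReal.ofReal_mul (by positivity), Real.exp_add]
    congr 1
    rw [show c / 2 * (2 * τ ^ 2) = c * τ ^ 2 by ring]
    ring
  have go1 : ∀ (f : ℝ → ℝ), Continuous f → (∀ t, |f t| ≤ 1) → ∀ al : ℝ,
      (∀ T, T0 ≤ T → T ≤ R → ∫⁻ x in NU42.Bw p n T, ENNReal.ofReal (FWO DX DX1 DY DY1
      (fun t => a t * Real.exp (B t)) (fun t => a' t * Real.exp (B t)) x.1 x.2 *
        Real.exp (c / (1 + |al|) * (nuF ρ (sym x.1) fun t => bb t * f t) ^ 2)) ≤
        ENNReal.ofReal (A * Real.exp K * Real.exp (g * (T - T0)))) →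
      ∫⁻ x in Bx (p := p) (n := n) R, ENNReal.ofReal (FWO DX DX1 DY DY1 (fun t => a t * cf t)
        (fun t => a' t * cf t) x.1 x.2) *
          ENNReal.ofReal (Real.exp (c / 2 / (1 + |al|) * (nu R ρ (sym x.1) f) ^ 2)) ≤
      ENNReal.ofReal (A * (1 + D * Real.exp (-q * T0) * Real.exp g / (1 - Real.exp (-(q - g))))) *
        ENNReal.ofReal (Real.exp (K + c * τ ^ 2)) := by
    intro f hf hf1 al h
    have := shell_modeF (p := p) (n := n) m1 m2 m3 m4 ma ma' ha ha' hB hD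
      (A := A * Real.exp K) (by positivity) hq hg hg0 hB0 h0 h1 h2 hTR
      (N := fun x => nu R ρ (sym x.1) f) (F := fun x => nuF ρ (sym x.1) fun t => bb t * f t)
      (meas_modeXs f hf) (K0 := 2 * τ ^ 2) (by positivity)
      (fun x hx => NUH0.nu_sq_le hR hbc hb1 hbl hρ hτ hf hf1 (sym x.1) (abs_sym_le hx.1)) hc
      (α := 1 + |al|) (by linarith [abs_nonneg al]) h
    rw [e0] at this
    exact this
  have go2 : ∀ (f : ℝ → ℝ), Continuous f → (∀ t, |f t| ≤ 1) → ∀ al : ℝ,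
      (∀ T, T0 ≤ T → T ≤ R → ∫⁻ x in NU42.Bw p n T, ENNReal.ofReal (FWO DX DX1 DY DY1
      (fun t => a t * Real.exp (B t)) (fun t => a' t * Real.exp (B t)) x.1 x.2 *
        Real.exp (c / (1 + |al|) * (nuF ρ (sym x.2) fun t => bb t * f t) ^ 2)) ≤
        ENNReal.ofReal (A * Real.exp K * Real.exp (g * (T - T0)))) →
      ∫⁻ x in Bx (p := p) (n := n) R, ENNReal.ofReal (FWO DX DX1 DY DY1 (fun t => a t * cf t)
        (fun t => a' t * cf t) x.1 x.2) *
          ENNReal.ofReal (Real.exp (c / 2 / (1 + |al|) * (nu R ρ (sym x.2) f) ^ 2)) ≤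
      ENNReal.ofReal (A * (1 + D * Real.exp (-q * T0) * Real.exp g / (1 - Real.exp (-(q - g))))) *
        ENNReal.ofReal (Real.exp (K + c * τ ^ 2)) := by
    intro f hf hf1 al h
    have := shell_modeF (p := p) (n := n) m1 m2 m3 m4 ma ma' ha ha' hB hD
      (A := A * Real.exp K) (by positivity) hq hg hg0 hB0 h0 h1 h2 hTR
      (N := fun x => nu R ρ (sym x.2) f) (F := fun x => nuF ρ (sym x.2) fun t => bb t * f t)
      (meas_modeYs f hf) (K0 := 2 * τ ^ 2) (by positivity)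
      (fun x hx => NUH0.nu_sq_le hR hbc hb1 hbl hρ hτ hf hf1 (sym x.2) (abs_sym_le hx.2)) hc
      (α := 1 + |al|) (by linarith [abs_nonneg al]) h
    rw [e0] at this
    exact this
  exact ⟨fun al => go1 _ (by fun_prop) (fun t => Real.abs_cos_le_one _) al
      fun T a1 a2 => (hw T a1 a2).cosX al,
    fun al => go2 _ (by fun_prop) (fun t => Real.abs_cos_le_one _) al
      fun T a1 a2 => (hw T a1 a2).cosY al⟩

end

end TCDi
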