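import Pool.Agent.NUSea.H0.Win
import Pool.Agent.TC.FAct1
import Pool.Agent.TC.Dbl

/-!
# The folded positive gas on a window (general sea)

Folded version of `NUSea/H0/Win.lean`.

* `FWO_act`: pointwise splitting of the folded gas, general sea;
* `WTC be T n ρ F`: the one component folded weight on the window `[-T, T]^n`, wall factor `be`;
* `OneC be`: its exponential moments (all modes, positions `TCD.dbl t`);
* `win_pt_C`: the folded gas on the window, by the one component weights and the cut form at the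
  doubled configuration, kernels `κ / 2`;
* `win_H0_C`, `win_sq_C`: the integrals.
-/

set_option autoImplicit false
set_option linter.unusedSectionVars false

open MeasureTheory Set Filter Topology
open scoped Real ENNReal

namespace TCW

open NUMF (l l_pos w g V)
open NUWC NUC37 NUKer NUDi NUH0 TCF

noncomputable section

/-! ### the one component weight -/

/-- the one component folded weight on the window, wall factor `be` -/
def WTC (be : ℝ → ℝ) (T : ℝ) (n : ℕ) (ρ F : ℝ → ℝ) : (Fin n → ℝ) → ℝ≥0∞ :=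
  (Set.univ.pi fun _ => Icc (-T) T).indicator fun t =>
    ENNReal.ofReal (fpom t * ∏ i, (be (t i) * Real.exp ((∫ s, ρ s * V (t i - s)) + F (t i))))

/-- one folded component: exponential moments of the modes, positions `±t` -/
def OneC (b ρ : ℝ → ℝ) {n : ℕ} (W : (Fin n → ℝ) → ℝ≥0∞) (B : ℝ≥0∞) (q0 M : ℝ) : Prop :=
  ExpF volume W b ρ (fun t : Fin n → ℝ => TCD.dbl t) B q0 M

theorem WTC_meas {be : ℝ → ℝ} (hbe : Measurable be) {T : ℝ} {ρ F : ℝ → ℝ} (hρ : Measurable ρ)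
    (hF : Measurable F) (n : ℕ) : Measurable (WTC be T n ρ F) := by
  unfold WTC
  refine Measurable.indicator (ENNReal.measurable_ofReal.comp ?_)
    (MeasurableSet.univ_pi fun _ => measurableSet_Icc)
  refine fpom_meas.mul ?_
  refine Finset.measurable_fun_prod _ fun i _ => (hbe.comp (measurable_pi_apply i)).mul
    (Real.measurable_exp.comp ?_)
  exact ((conv_meas hρ).comp (measurable_pi_apply i)).add (hF.comp (measurable_pi_apply i))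

/-- symmetrised extra potential -/
def Fsy (φ ρ : ℝ → ℝ) (c : ℝ) (x : ℝ) : ℝ := (φ x + φ (-x)) / 2 - c - ∫ s, ρ s * V (x - s)

theorem Fsy_meas {φ ρ : ℝ → ℝ} (hφ : Measurable φ) (hρ : Measurable ρ) (c : ℝ) :
    Measurable (Fsy φ ρ c) := by
  unfold Fsy
  exact (((hφ.add (hφ.comp measurable_neg)).div_const 2).sub measurable_const).sub (conv_meas hρ)

/-- one component weight on the window -/
theorem F1_le {be : ℝ → ℝ} {n : ℕ} {T c : ℝ} {φ ρ : ℝ → ℝ}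
    (t : Fin n → ℝ) (ht : t ∈ Set.univ.pi fun _ : Fin n => Icc (-T) T) :
    ENNReal.ofReal (F1 φ t * ∏ i, be (t i)) = ENNReal.ofReal (Real.exp (n * c)) *
      WTC be T n ρ (Fsy φ ρ c) t := by
  unfold WTC
  rw [indicator_of_mem ht, ← ENNReal.ofReal_mul (Real.exp_pos _).le]
  congr 1
  unfold F1 Fsy
  rw [Finset.prod_mul_distrib, ← Real.exp_sum, ← Real.exp_sum]
  have e : ∀ i, (∫ s, ρ s * V (t i - s)) + ((φ (t i) + φ (-t i)) / 2 - c - ∫ s, ρ s * V (t i - s)) =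
      (φ (t i) + φ (-t i)) / 2 - c := fun i => by ring
  simp_rw [e]
  rw [Finset.sum_sub_distrib]
  simp only [Finset.sum_const, Finset.card_univ, Fintype.card_fin, nsmul_eq_mul]
  rw [show Real.exp (n * c) * (fpom t * ((∏ i, be (t i)) *
      Real.exp (∑ i, (φ (t i) + φ (-t i)) / 2 - n * c))) = fpom t * (∏ i, be (t i)) *
      (Real.exp (n * c) * Real.exp (∑ i, (φ (t i) + φ (-t i)) / 2 - n * c)) by ring,
    ← Real.exp_add]
  rw [show (n : ℝ) * c + (∑ i, (φ (t i) + φ (-t i)) / 2 - n * c) = ∑ i, (φ (t i) + φ (-t i)) / 2 by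
    ring]
  ring

/-! ### pointwise, general sea -/

variable [NUSea.Sea]

section

open NUSea (P v)
open NUSea.N42 (XX CS phi)
open NU42 (Small Bk kd zz zz1 Fst Ctau QF WO)

variable {p n : ℕ} {b c B C s : ℝ} {DX DX1 DY DY1 : ℝ → ℂ} {Fe : Bool → ℂ → ℂ}

/-- **final pointwise splitting of the folded gas**, general sea -/
theorem FWO_act {ch : ℝ → ℝ} (hc : Continuous ch) (hce : ∀ k, ch (-k) = ch k) {K h : ℝ} (hh : 0 < h)
    (hK : K * h < Real.pi) (hcs : ∀ k, K < |k| → ch k = 0) (hL : ∀ k, 0 < k → ch k ^ 2 ≤ NUMF.Lh k)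
    (La : Finset ℤ) (a0 : ℝ) {τ : ℝ → ℝ} (hτ : Integrable τ) (hτ1 : Integrable fun x => τ x * x)
    (h0 : ∫ x, τ x = ((p + p : ℕ) : ℝ) - ((n + n : ℕ) : ℝ))
    (hs : Small DX DX1 DY DY1) (hX : OddD DX DX1) (hY : OddD DY DY1) (hb : b ≤ l / 7)
    (P' : ∀ a, NUAct.Path b c B (zz DX DY a) (zz1 DX1 DY1 a)) (hs0 : 0 ≤ s)
    (hF : ∀ a, NUAct.Ext b (Fe a)) (hk : ∀ a d, Bk C (kd DX DX1 DY DY1 a d))
    {a a' βX βY : ℝ → ℝ} (ha : ∀ t, 0 ≤ a t) (ha' : ∀ t, 0 ≤ a' t)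
    (hae : ∀ x, a (-x) = a x) (hae' : ∀ x, a' (-x) = a' x)
    (hla : ∀ t, a t ≤ Real.exp (s * v t + (XX s DX DX1 DY DY1 Fe).G true t + βX t))
    (hla' : ∀ t, a' t ≤ Real.exp (s * v t + (XX s DX DX1 DY DY1 Fe).G false t + βY t))
    (t : Fin p → ℝ) (t' : Fin n → ℝ) :
    FWO DX DX1 DY DY1 a a' t t' *
      Real.exp (1 / 4 * ∑ l ∈ La, Fst ch h a0 τ l (sym t) (sym t') ^ 2) ≤
      Real.exp ((Ctau (p + p) (n + n) τ + CS s DX DX1 DY DY1 Fe) / 2) *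
        F1 (phi s DX DX1 DY DY1 Fe βX τ true) t * F1 (phi s DX DX1 DY DY1 Fe βY τ false) t' *
        Real.exp (QF (fun u => s * P u) (kd DX DX1 DY DY1) (sym t) (sym t') / 2) := by
  have h1 := NUSea.N42.WO_act hc hce hh hK hcs hL La a0 hτ hτ1 h0 hs hb P' hs0 hF hk ha ha' hla hla'
    (sym t) (sym t')
  rw [← FWO_sq hX hY hae hae', W1_sym, W1_sym] at h1
  have p1 := F1_nonneg (phi s DX DX1 DY DY1 Fe βX τ true) t
  have p2 := F1_nonneg (phi s DX DX1 DY DY1 Fe βY τ false) t'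
  refine (pow_le_pow_iff_left₀ (mul_nonneg (FWO_nonneg _ _ _ _ ha ha' _ _) (Real.exp_pos _).le)
    (by positivity) two_ne_zero).1 ?_
  refine Eq.trans_le ?_ (h1.trans_eq ?_)
  · rw [mul_pow, ← Real.exp_nat_mul (1 / 4 * _)]
    congr 2
    push_cast
    ring
  · rw [exp_half_sq (Ctau _ _ τ + _), exp_half_sq (QF _ _ _ _)]
    ring

/-! ### the cut form at the doubled configuration -/

/-- kernels of the folded forms -/
def kh (κ : Bool → Bool → ℝ → ℝ → ℝ) (k k' : Bool) (t t' : ℝ) : ℝ := 1 / 2 * kq κ k k' t t'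

theorem kh_KC {R Λ1 : ℝ} {κ : Bool → Bool → ℝ → ℝ → ℝ}
    (h : ∀ a d, KC R Λ1 (fun t t' => ((κ a d t t' : ℝ) : ℂ))) (k k' : Bool) :
    KC R (1 / 2 * kΛ Λ1 k k') (fun t t' => ((kh κ k k' t t' : ℝ) : ℂ)) := by
  have h1 := (kq_KC h k k').smul ((1 / 2 : ℝ) : ℂ)
  have e : ‖((1 / 2 : ℝ) : ℂ)‖ = 1 / 2 := by
    rw [Complex.norm_real, Real.norm_eq_abs, abs_of_pos (by norm_num)]
  rw [e] at h1
  refine h1.congr fun t t' _ _ => ?_
  unfold kh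
  push_cast
  ring

theorem kh_sum (Λ1 : ℝ) : ∑ k, ∑ k', 1 / 2 * kΛ Λ1 k k' = Λ1 := by
  have h := kΛ_sum Λ1
  simp_rw [← Finset.mul_sum]
  rw [h]
  ring

/-- half of the form at the symmetrised configuration -/
theorem QF_sym {p n : ℕ} (bb ρ : ℝ → ℝ) (κ : Bool → Bool → ℝ → ℝ → ℝ)
    (ω : (Fin p → ℝ) × (Fin n → ℝ)) :
    NU42.QF ρ (NU42.kb bb κ) (sym ω.1) (sym ω.2) / 2 =
      QFF bb (fun _ : Bool => ρ) (kh κ) (TCD.spD p n) ω := by
  have h1 := QF_eq bb ρ κ (sym ω.1, sym ω.2)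
  have h2 : QFF bb (fun _ : Bool => ρ) (kq κ) (spF (p + p) (n + n)) (sym ω.1, sym ω.2) =
      QFF bb (fun _ : Bool => ρ) (kq κ) (TCD.spD p n) ω := by
    unfold QFF
    refine Finset.sum_congr rfl fun k _ => Finset.sum_congr rfl fun k' _ => ?_
    rw [TCD.spD_eq, TCD.spD_eq]
    rfl
  have h3 : QFF bb (fun _ : Bool => ρ) (kh κ) (TCD.spD p n) ω =
      1 / 2 * QFF bb (fun _ : Bool => ρ) (kq κ) (TCD.spD p n) ω :=
    QFF_smul (1 / 2) ω
  rw [h3, ← h2, ← h1]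
  ring

/-! ### two species -/

theorem two_expD {p n : ℕ} {b : ℝ → ℝ} {ρ : Bool → ℝ → ℝ} {WX : (Fin p → ℝ) → ℝ≥0∞}
    {WY : (Fin n → ℝ) → ℝ≥0∞} {BX BY : ℝ≥0∞} {q0 M : ℝ} (hb : Continuous b) (hX : Measurable WX)
    (hY : Measurable WY) (hWX : OneC b (ρ true) WX BX q0 M) (hWY : OneC b (ρ false) WY BY q0 M)
    (k : Bool) :
    ExpF volume (fun ω : (Fin p → ℝ) × (Fin n → ℝ) => WX ω.1 * WY ω.2) b (ρ k) (TCD.spD p n k)
      (BX * BY) q0 M := by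
  cases k
  · exact ExpF.swap hX hY hb TCD.dbl_meas (ExpF.mass hWX) hWY
  · exact ExpF.prod hX hY hb TCD.dbl_meas hWX (ExpF.mass hWY)

/-! ### the window -/

/-- constant of the window -/
def CW (p n : ℕ) (s : ℝ) (DX DX1 DY DY1 : ℝ → ℂ) (Fe : Bool → ℂ → ℂ) (τ : ℝ → ℝ) (cX cY ε : ℝ) : ℝ :=
  (Ctau (p + p) (n + n) τ + CS s DX DX1 DY DY1 Fe) / 2 + p * cX + n * cY +
    ε * ((p : ℝ) + n + ∫ x, s * P x) ^ 2

/-- the folded integrand: gas, wall factors, squares of the grid statistics -/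
def FI {p n : ℕ} (DX DX1 DY DY1 : ℝ → ℂ) (a a' be be' : ℝ → ℝ) (ch : ℝ → ℝ) (h a0 : ℝ) (τ : ℝ → ℝ)
    (La : Finset ℤ) (ω : (Fin p → ℝ) × (Fin n → ℝ)) : ℝ :=
  FWO DX DX1 DY DY1 a a' ω.1 ω.2 * ((∏ i, be (ω.1 i)) * ∏ j, be' (ω.2 j)) *
    Real.exp (1 / 4 * ∑ l ∈ La, Fst ch h a0 τ l (sym ω.1) (sym ω.2) ^ 2)

/-- **Pointwise**: the folded weight on the window, by the one component weights and the cut form. -/
theorem win_pt_C {p n : ℕ} {b c B C s : ℝ} {DX DX1 DY DY1 : ℝ → ℂ} {Fe : Bool → ℂ → ℂ}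
    {ch : ℝ → ℝ} (hc : Continuous ch) (hce : ∀ k, ch (-k) = ch k) {K h : ℝ} (hh : 0 < h)
    (hK : K * h < Real.pi) (hcs : ∀ k, K < |k| → ch k = 0) (hL : ∀ k, 0 < k → ch k ^ 2 ≤ NUMF.Lh k)
    (La : Finset ℤ) (a0 : ℝ) {τ : ℝ → ℝ} (hτ : Integrable τ) (hτ1 : Integrable fun x => τ x * x)
    (h0 : ∫ x, τ x = ((p + p : ℕ) : ℝ) - ((n + n : ℕ) : ℝ))
    (hs : Small DX DX1 DY DY1) (hX : OddD DX DX1) (hY : OddD DY DY1) (hb : b ≤ l / 7)
    (P' : ∀ a, NUAct.Path b c B (zz DX DY a) (zz1 DX1 DY1 a)) (hs0 : 0 ≤ s)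
    (hF : ∀ a, NUAct.Ext b (Fe a)) (hk : ∀ a d, Bk C (kd DX DX1 DY DY1 a d))
    {a a' βX βY : ℝ → ℝ} (ha : ∀ t, 0 ≤ a t) (ha' : ∀ t, 0 ≤ a' t)
    (hae : ∀ x, a (-x) = a x) (hae' : ∀ x, a' (-x) = a' x)
    (hla : ∀ t, a t ≤ Real.exp (s * v t + (XX s DX DX1 DY DY1 Fe).G true t + βX t))
    (hla' : ∀ t, a' t ≤ Real.exp (s * v t + (XX s DX DX1 DY DY1 Fe).G false t + βY t))
    {be be' : ℝ → ℝ} (hbe : ∀ t, 0 ≤ be t) (hbe' : ∀ t, 0 ≤ be' t)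
    {R : ℝ} {bb : ℝ → ℝ} (hbb : Cutf R bb) {ε : ℝ}
    (he : ∀ a d t t', |kd DX DX1 DY DY1 a d t t' - bb t * bb t' * kd DX DX1 DY DY1 a d t t'| ≤ ε)
    {T : ℝ} (ρX ρY : ℝ → ℝ) (cX cY : ℝ) (ω : (Fin p → ℝ) × (Fin n → ℝ)) :
    (NUH0.bx T p n).indicator (fun ω => ENNReal.ofReal
        (FI DX DX1 DY DY1 a a' be be' ch h a0 τ La ω)) ω ≤
      ENNReal.ofReal (Real.exp (CW p n s DX DX1 DY DY1 Fe τ cX cY ε)) *
      (WTC be T p ρX (Fsy (phi s DX DX1 DY DY1 Fe βX τ true) ρX cX) ω.1 *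
       WTC be' T n ρY (Fsy (phi s DX DX1 DY DY1 Fe βY τ false) ρY cY) ω.2 *
        ENNReal.ofReal (Real.exp (QFF bb (fun _ : Bool => fun t => s * P t)
        (kh (kd DX DX1 DY DY1)) (TCD.spD p n) ω))) := by
  have hdens := NUSea.N42.dens_P (s := s) hs0
  set φX := phi s DX DX1 DY DY1 Fe βX τ true with hφXd
  set φY := phi s DX DX1 DY DY1 Fe βY τ false with hφYd
  by_cases hω : ω ∈ NUH0.bx T p n
  · rw [indicator_of_mem hω]
    have h2 := FWO_act hc hce hh hK hcs hL La a0 hτ hτ1 h0 hs hX hY hb P' hs0 hF hk ha ha' hae hae'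
      hla hla' ω.1 ω.2
    have h3 := NU42.QF_cut hdens hk hbb.cont hbb.le he (sym ω.1) (sym ω.2)
    have h3' := QF_sym bb (fun u => s * P u) (kd DX DX1 DY DY1) ω
    have w1 := F1_nonneg φX ω.1
    have w2 := F1_nonneg φY ω.2
    have w3 : 0 ≤ ∏ i, be (ω.1 i) := Finset.prod_nonneg fun i _ => hbe _
    have w4 : 0 ≤ ∏ i, be' (ω.2 i) := Finset.prod_nonneg fun i _ => hbe' _
    set q0 := QFF bb (fun _ : Bool => fun t => s * P t) (kh (kd DX DX1 DY DY1)) (TCD.spD p n) ω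
      with hq0
    have e1 := F1_le (be := be) (T := T) (c := cX) (φ := φX) (ρ := ρX) ω.1 hω.1
    have e2 := F1_le (be := be') (T := T) (c := cY) (φ := φY) (ρ := ρY) ω.2 hω.2
    set c1 := (Ctau (p + p) (n + n) τ + CS s DX DX1 DY DY1 Fe) / 2 with hc1
    set c2 := ε * ((p : ℝ) + n + ∫ x, s * P x) ^ 2 with hc2
    have e3 : ENNReal.ofReal (Real.exp (CW p n s DX DX1 DY DY1 Fe τ cX cY ε)) *
        (WTC be T p ρX (Fsy φX ρX cX) ω.1 * WTC be' T n ρY (Fsy φY ρY cY) ω.2 *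
        ENNReal.ofReal (Real.exp q0)) =
        ENNReal.ofReal (Real.exp (c1 + c2)) *
        (ENNReal.ofReal (F1 φX ω.1 * ∏ i, be (ω.1 i)) *
        ENNReal.ofReal (F1 φY ω.2 * ∏ i, be' (ω.2 i)) * ENNReal.ofReal (Real.exp q0)) := by
      rw [e1, e2, show CW p n s DX DX1 DY DY1 Fe τ cX cY ε = (c1 + c2) + p * cX + n * cY by
          unfold CW; rw [← hc1, ← hc2]; ring,
        Real.exp_add, Real.exp_add, ENNReal.ofReal_mul (by positivity),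
        ENNReal.ofReal_mul (by positivity)]
      ring
    rw [e3, ← ENNReal.ofReal_mul (by positivity), ← ENNReal.ofReal_mul (by positivity),
      ← ENNReal.ofReal_mul (Real.exp_pos _).le]
    refine ENNReal.ofReal_le_ofReal ?_
    have h4 : Real.exp (QF (fun u => s * P u) (kd DX DX1 DY DY1) (sym ω.1) (sym ω.2) / 2) ≤
        Real.exp q0 * Real.exp c2 := by
      rw [← Real.exp_add]
      refine Real.exp_le_exp.2 ?_
      rw [← h3']
      have e : ε / 2 * (((p + p : ℕ) : ℝ) + ((n + n : ℕ) : ℝ) + 2 * ∫ x, s * P x) ^ 2 = 2 * c2 := by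
        rw [hc2]
        push_cast
        ring
      rw [e] at h3
      linarith
    unfold FI
    calc FWO DX DX1 DY DY1 a a' ω.1 ω.2 * ((∏ i, be (ω.1 i)) * ∏ j, be' (ω.2 j)) *
          Real.exp (1 / 4 * ∑ l ∈ La, Fst ch h a0 τ l (sym ω.1) (sym ω.2) ^ 2) =
          (FWO DX DX1 DY DY1 a a' ω.1 ω.2 *
          Real.exp (1 / 4 * ∑ l ∈ La, Fst ch h a0 τ l (sym ω.1) (sym ω.2) ^ 2)) *
          ((∏ i, be (ω.1 i)) * ∏ j, be' (ω.2 j)) := by ring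
      _ ≤ (Real.exp c1 * F1 φX ω.1 * F1 φY ω.2 *
          Real.exp (QF (fun u => s * P u) (kd DX DX1 DY DY1) (sym ω.1) (sym ω.2) / 2)) *
          ((∏ i, be (ω.1 i)) * ∏ j, be' (ω.2 j)) := mul_le_mul_of_nonneg_right h2 (by positivity)
      _ ≤ (Real.exp c1 * F1 φX ω.1 * F1 φY ω.2 * (Real.exp q0 * Real.exp c2)) *
          ((∏ i, be (ω.1 i)) * ∏ j, be' (ω.2 j)) := by gcongr
      _ = _ := by
        rw [Real.exp_add]
        ring
  · rw [indicator_of_notMem hω]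
    exact bot_le

/-- **The folded positive gas on a window.** -/
theorem win_H0_C {p n : ℕ} {b c B C s : ℝ} {DX DX1 DY DY1 : ℝ → ℂ} {Fe : Bool → ℂ → ℂ}
    {ch : ℝ → ℝ} (hc : Continuous ch) (hce : ∀ k, ch (-k) = ch k) {K h : ℝ} (hh : 0 < h)
    (hK : K * h < Real.pi) (hcs : ∀ k, K < |k| → ch k = 0) (hL : ∀ k, 0 < k → ch k ^ 2 ≤ NUMF.Lh k)
    (La : Finset ℤ) (a0 : ℝ) {τ : ℝ → ℝ} (hτ : Integrable τ) (hτ1 : Integrable fun x => τ x * x)
    (h0 : ∫ x, τ x = ((p + p : ℕ) : ℝ) - ((n + n : ℕ) : ℝ))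
    (hs : Small DX DX1 DY DY1) (hX : OddD DX DX1) (hY : OddD DY DY1) (hb : b ≤ l / 7)
    (P' : ∀ a, NUAct.Path b c B (zz DX DY a) (zz1 DX1 DY1 a)) (hs0 : 0 ≤ s)
    (hF : ∀ a, NUAct.Ext b (Fe a)) (hk : ∀ a d, Bk C (kd DX DX1 DY DY1 a d))
    {a a' βX βY : ℝ → ℝ} (ha : ∀ t, 0 ≤ a t) (ha' : ∀ t, 0 ≤ a' t)
    (hae : ∀ x, a (-x) = a x) (hae' : ∀ x, a' (-x) = a' x)
    (hla : ∀ t, a t ≤ Real.exp (s * v t + (XX s DX DX1 DY DY1 Fe).G true t + βX t))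
    (hla' : ∀ t, a' t ≤ Real.exp (s * v t + (XX s DX DX1 DY DY1 Fe).G false t + βY t))
    {be be' : ℝ → ℝ} (hbe : ∀ t, 0 ≤ be t) (hbe' : ∀ t, 0 ≤ be' t) (mbe : Measurable be)
    (mbe' : Measurable be')
    -- cut kernels
    {R : ℝ} {bb : ℝ → ℝ} (hbb : Cutf R bb) {ε : ℝ}
    (he : ∀ a d t t', |kd DX DX1 DY DY1 a d t t' - bb t * bb t' * kd DX DX1 DY DY1 a d t t'| ≤ ε)
    {Λ0 Λ1 : ℝ} (hKC : ∀ a d, KC R Λ1 (fun t t' => ((kd DX DX1 DY DY1 a d t t' : ℝ) : ℂ)))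
    (hΛ0 : 0 < Λ0) (hΛ1 : Λ1 ≤ Λ0) {q0 M' : ℝ} (hq0 : 0 ≤ q0) (hM' : 0 ≤ M') (hq : 8 * Λ0 * q0 ≤ 1)
    -- the window and the two species
    {T : ℝ} {ρX ρY : ℝ → ℝ} {cX cY : ℝ} {BX BY : ℝ≥0∞} (mρX : Measurable ρX) (mρY : Measurable ρY)
    (hmX : Measurable (phi s DX DX1 DY DY1 Fe βX τ true))
    (hmY : Measurable (phi s DX DX1 DY DY1 Fe βY τ false))
    (oX : OneC bb (fun t => s * P t)
      (WTC be T p ρX (Fsy (phi s DX DX1 DY DY1 Fe βX τ true) ρX cX)) BX q0 M')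
    (oY : OneC bb (fun t => s * P t)
      (WTC be' T n ρY (Fsy (phi s DX DX1 DY DY1 Fe βY τ false) ρY cY)) BY q0 M') :
    ∫⁻ ω in NUH0.bx T p n, ENNReal.ofReal (FI DX DX1 DY DY1 a a' be be' ch h a0 τ La ω) ≤
      ENNReal.ofReal (Real.exp (CW p n s DX DX1 DY DY1 Fe τ cX cY ε)) *
      (BX * BY * ENNReal.ofReal (√2 * Real.exp (4 * Λ0 * q0 * M'))) := by
  have hdens := NUSea.N42.dens_P (s := s) hs0
  have mX := WTC_meas (T := T) mbe mρX (Fsy_meas hmX mρX cX) p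
  have mY := WTC_meas (T := T) mbe' mρY (Fsy_meas hmY mρY cY) n
  have h1 := crudeF (μ := (volume : Measure ((Fin p → ℝ) × (Fin n → ℝ)))) (s := TCD.spD p n)
    (ρ := fun _ : Bool => fun t => s * P t) hbb ((mX.comp measurable_fst).mul (mY.comp measurable_snd))
    TCD.measurable_spD (fun _ => hdens.cont) (kh_KC hKC) hΛ0 (by rw [kh_sum]; exact hΛ1) hq0
    hM' hq (two_expD (ρ := fun _ : Bool => fun t => s * P t) hbb.cont mX mY oX oY)
  rw [← lintegral_indicator (NUH0.bx_meas T p n)]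
  refine (lintegral_mono fun ω => win_pt_C hc hce hh hK hcs hL La a0 hτ hτ1 h0 hs hX hY hb P' hs0 hF
    hk ha ha' hae hae' hla hla' hbe hbe' hbb he (T := T) ρX ρY cX cY ω).trans ?_
  rw [lintegral_const_mul' _ _ ENNReal.ofReal_ne_top]
  exact mul_le_mul_right h1 _

/-- **The same with one more square** (either species, every mode). -/
theorem win_sq_C {p n : ℕ} {b c B C s : ℝ} {DX DX1 DY DY1 : ℝ → ℂ} {Fe : Bool → ℂ → ℂ}
    {ch : ℝ → ℝ} (hc : Continuous ch) (hce : ∀ k, ch (-k) = ch k) {K h : ℝ} (hh : 0 < h)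
    (hK : K * h < Real.pi) (hcs : ∀ k, K < |k| → ch k = 0) (hL : ∀ k, 0 < k → ch k ^ 2 ≤ NUMF.Lh k)
    (La : Finset ℤ) (a0 : ℝ) {τ : ℝ → ℝ} (hτ : Integrable τ) (hτ1 : Integrable fun x => τ x * x)
    (h0 : ∫ x, τ x = ((p + p : ℕ) : ℝ) - ((n + n : ℕ) : ℝ))
    (hs : Small DX DX1 DY DY1) (hX : OddD DX DX1) (hY : OddD DY DY1) (hb : b ≤ l / 7)
    (P' : ∀ a, NUAct.Path b c B (zz DX DY a) (zz1 DX1 DY1 a)) (hs0 : 0 ≤ s)
    (hF : ∀ a, NUAct.Ext b (Fe a)) (hk : ∀ a d, Bk C (kd DX DX1 DY DY1 a d))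
    {a a' βX βY : ℝ → ℝ} (ha : ∀ t, 0 ≤ a t) (ha' : ∀ t, 0 ≤ a' t)
    (hae : ∀ x, a (-x) = a x) (hae' : ∀ x, a' (-x) = a' x)
    (hla : ∀ t, a t ≤ Real.exp (s * v t + (XX s DX DX1 DY DY1 Fe).G true t + βX t))
    (hla' : ∀ t, a' t ≤ Real.exp (s * v t + (XX s DX DX1 DY DY1 Fe).G false t + βY t))
    {be be' : ℝ → ℝ} (hbe : ∀ t, 0 ≤ be t) (hbe' : ∀ t, 0 ≤ be' t) (mbe : Measurable be)
    (mbe' : Measurable be')
    -- cut kernels
    {R : ℝ} {bb : ℝ → ℝ} (hbb : Cutf R bb) {ε : ℝ}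
    (he : ∀ a d t t', |kd DX DX1 DY DY1 a d t t' - bb t * bb t' * kd DX DX1 DY DY1 a d t t'| ≤ ε)
    {Λ0 Λ1 : ℝ} (hKC : ∀ a d, KC R Λ1 (fun t t' => ((kd DX DX1 DY DY1 a d t t' : ℝ) : ℂ)))
    (hΛ0 : 0 < Λ0) (hΛ1 : Λ1 ≤ Λ0) {q0 M' : ℝ} (hq0 : 0 ≤ q0) (hM' : 0 ≤ M')
    {c' : ℝ} (hc' : 2 * Λ0 ≤ c') (hq : 8 * c' * q0 ≤ 1)
    -- the window and the two species
    {T : ℝ} {ρX ρY : ℝ → ℝ} {cX cY : ℝ} {BX BY : ℝ≥0∞} (mρX : Measurable ρX) (mρY : Measurable ρY)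
    (hmX : Measurable (phi s DX DX1 DY DY1 Fe βX τ true))
    (hmY : Measurable (phi s DX DX1 DY DY1 Fe βY τ false))
    (oX : OneC bb (fun t => s * P t)
      (WTC be T p ρX (Fsy (phi s DX DX1 DY DY1 Fe βX τ true) ρX cX)) BX q0 M')
    (oY : OneC bb (fun t => s * P t)
      (WTC be' T n ρY (Fsy (phi s DX DX1 DY DY1 Fe βY τ false) ρY cY)) BY q0 M')
    (k : Bool) (al : ℝ) :
    ∫⁻ ω in NUH0.bx T p n, ENNReal.ofReal (FI DX DX1 DY DY1 a a' be be' ch h a0 τ La ω) *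
        ENNReal.ofReal (Real.exp (c' / (1 + |al|) *
          (nuF (fun t => s * P t) (TCD.spD p n k ω) fun t => bb t * Real.cos (al * t)) ^ 2)) ≤
      ENNReal.ofReal (Real.exp (CW p n s DX DX1 DY DY1 Fe τ cX cY ε)) *
      (BX * BY * ENNReal.ofReal (√2 * Real.exp (4 * c' * q0 * M'))) ∧
    ∫⁻ ω in NUH0.bx T p n, ENNReal.ofReal (FI DX DX1 DY DY1 a a' be be' ch h a0 τ La ω) *
        ENNReal.ofReal (Real.exp (c' / (1 + |al|) *
          (nuF (fun t => s * P t) (TCD.spD p n k ω) fun t => bb t * Real.sin (al * t)) ^ 2)) ≤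
      ENNReal.ofReal (Real.exp (CW p n s DX DX1 DY DY1 Fe τ cX cY ε)) *
      (BX * BY * ENNReal.ofReal (√2 * Real.exp (4 * c' * q0 * M'))) := by
  have hdens := NUSea.N42.dens_P (s := s) hs0
  have mX := WTC_meas (T := T) mbe mρX (Fsy_meas hmX mρX cX) p
  have mY := WTC_meas (T := T) mbe' mρY (Fsy_meas hmY mρY cY) n
  have h1 := crudeF_sq (μ := (volume : Measure ((Fin p → ℝ) × (Fin n → ℝ)))) (s := TCD.spD p n)
    (ρ := fun _ : Bool => fun t => s * P t) hbb ((mX.comp measurable_fst).mul (mY.comp measurable_snd))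
    TCD.measurable_spD (fun _ => hdens.cont) (kh_KC hKC) hΛ0 (by rw [kh_sum]; exact hΛ1) hq0
    hM' hc' hq (two_expD (ρ := fun _ : Bool => fun t => s * P t) hbb.cont mX mY oX oY) k al
  have go : ∀ N : (Fin p → ℝ) × (Fin n → ℝ) → ℝ, ∀ D : ℝ≥0∞,
      ∫⁻ ω : (Fin p → ℝ) × (Fin n → ℝ),
        (WTC be T p ρX (Fsy (phi s DX DX1 DY DY1 Fe βX τ true) ρX cX) ω.1 *
         WTC be' T n ρY (Fsy (phi s DX DX1 DY DY1 Fe βY τ false) ρY cY) ω.2) *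
        ENNReal.ofReal (Real.exp (QFF bb (fun _ : Bool => fun t => s * P t)
          (kh (kd DX DX1 DY DY1)) (TCD.spD p n) ω + N ω)) ≤ D →
      ∫⁻ ω in NUH0.bx T p n, ENNReal.ofReal (FI DX DX1 DY DY1 a a' be be' ch h a0 τ La ω) *
        ENNReal.ofReal (Real.exp (N ω)) ≤
      ENNReal.ofReal (Real.exp (CW p n s DX DX1 DY DY1 Fe τ cX cY ε)) * D := by
    intro N D hD
    rw [← lintegral_indicator (NUH0.bx_meas T p n)]
    refine le_trans (lintegral_mono fun ω => ?_) (le_trans (le_of_eq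
      (lintegral_const_mul' _ _ ENNReal.ofReal_ne_top)) (mul_le_mul_right hD _))
    have h2 := win_pt_C hc hce hh hK hcs hL La a0 hτ hτ1 h0 hs hX hY hb P' hs0 hF
      hk ha ha' hae hae' hla hla' hbe hbe' hbb he (T := T) ρX ρY cX cY ω
    have e : ENNReal.ofReal (Real.exp (QFF bb (fun _ : Bool => fun t => s * P t)
          (kh (kd DX DX1 DY DY1)) (TCD.spD p n) ω + N ω)) = ENNReal.ofReal (Real.exp
          (QFF bb (fun _ : Bool => fun t => s * P t) (kh (kd DX DX1 DY DY1)) (TCD.spD p n) ω)) *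
          ENNReal.ofReal (Real.exp (N ω)) := by
      rw [Real.exp_add, ENNReal.ofReal_mul (Real.exp_pos _).le]
    rw [e, ← mul_assoc (_ * _), ← mul_assoc]
    by_cases hω : ω ∈ NUH0.bx T p n
    · rw [indicator_of_mem hω] at h2 ⊢
      exact mul_le_mul_left h2 _
    · rw [indicator_of_notMem hω]
      exact bot_le
  exact ⟨go _ _ h1.1, go _ _ h1.2⟩

end

end

end TCW
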