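import Pool.Agent.NUSea.H0.ShH0
import Pool.Agent.TC.DiSh
import Pool.Agent.TC.F42

/-!
# The folded positive gas on a window in the form of the data `Dat` (general sea)

Folded version of `NUSea/H0/Point.lean` and of the first half of `NUSea/H0/ShH0.lean`.

* `EvD X`: odd displacements, even potentials and densities;
* `point_C`: pointwise splitting;
* `Wt0C`: the folded weight (wall factors inside the one body factors `aX`, `aY`);
* `sh_pt_C`, `sh_int_C`, `sh_int_sq_C`: the window, from the one component statements `OneC`.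

`Fld X (p + p) (n + n)`: the field equation of the doubled numbers; the exponent is
`C0 X (p + p) (n + n) / 2`.
-/

set_option autoImplicit false
set_option linter.unusedSectionVars false

open MeasureTheory Set Filter Topology
open scoped Real ENNReal

namespace TCW

open NUMF (l l_pos w g V)
open NUWC NUC37 NUKer NUDi TCF
open NUH0 (Grid Cut1)
open TCDi (FWO_mul FWO_mono SqCF)
open NUSea.H0 (Dat Geo Fld Reg rm Xp W1 C0 NF point NF_cut rm_V Xp_eq rm_cont)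

noncomputable section

variable [NUSea.Sea]

variable {X : Dat} {Cκ : ℝ} {p n : ℕ}

/-- even data -/
structure EvD (X : Dat) : Prop where
  D : ∀ a, OddD (X.D a) (X.D1 a)
  pot : ∀ a t, X.pot a (-t) = X.pot a t
  μ : ∀ a t, X.μ a (-t) = X.μ a t
  φ : ∀ a t, X.φ a (-t) = X.φ a t

/-- the convolution of `V` with an even density is even -/
theorem conv_even {ρ : ℝ → ℝ} (hρ : ∀ x, ρ (-x) = ρ x) (t : ℝ) :
    ∫ u, ρ u * V (-t - u) = ∫ u, ρ u * V (t - u) := by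
  rw [← integral_neg_eq_self (fun u => ρ u * V (-t - u)) volume]
  refine integral_congr_ae (ae_of_all _ fun u => ?_)
  simp only
  rw [hρ, show -t - -u = -(t - u) by ring, NUWC.V_neg]

theorem rm_even (hE : EvD X) (a : Bool) (t : ℝ) : rm X a (-t) = rm X a t := by
  unfold rm Dat.ρ
  rw [NUSea.P_neg, hE.μ]

theorem Xp_even (hR : Reg X) (hE : EvD X) (a : Bool) (t : ℝ) : Xp X a (-t) = Xp X a t := by
  rw [Xp_eq hR, Xp_eq hR, conv_even (rm_even hE a), hE.φ]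

/-- **pointwise bound of the folded gas** -/
theorem point_C (hG : Geo X Cκ) (hF : Fld X (p + p) (n + n)) (hE : EvD X) {ch : ℝ → ℝ} {K h : ℝ}
    (hg : Grid ch K h) (La : Finset ℤ) (a0 : ℝ) (t : Fin p → ℝ) (t' : Fin n → ℝ) :
    FWO (X.D true) (X.D1 true) (X.D false) (X.D1 false) (fun t => Real.exp (X.pot true t))
      (fun t => Real.exp (X.pot false t)) t t' *
        Real.exp (1 / 4 * ∑ l ∈ La, NU42.Fst ch h a0 X.τ l (sym t) (sym t') ^ 2) ≤
      Real.exp (C0 X (p + p) (n + n) / 2) * (F1 (Xp X true) t * F1 (Xp X false) t') *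
        Real.exp (1 / 4 * NF X (sym t) (sym t')) := by
  have h1 := point hG hF hg.cont hg.even hg.pos hg.nyq hg.supp hg.le La a0 (sym t) (sym t')
  have e1 : W1 X true (sym t) = F1 (Xp X true) t ^ 2 := W1_sym (Xp X true) t
  have e2 : W1 X false (sym t') = F1 (Xp X false) t' ^ 2 := W1_sym (Xp X false) t'
  rw [← FWO_sq (hE.D true) (hE.D false) (fun x => by rw [hE.pot]) (fun x => by rw [hE.pot]),
    e1, e2] at h1
  have p1 := F1_nonneg (Xp X true) t
  have p2 := F1_nonneg (Xp X false) t'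
  refine (pow_le_pow_iff_left₀ (mul_nonneg (FWO_nonneg _ _ _ _ (fun _ => (Real.exp_pos _).le)
    (fun _ => (Real.exp_pos _).le) _ _) (Real.exp_pos _).le) (by positivity) two_ne_zero).1 ?_
  refine Eq.trans_le ?_ (h1.trans_eq ?_)
  · rw [mul_pow, ← Real.exp_nat_mul (1 / 4 * _)]
    congr 2
    push_cast
    ring
  · rw [exp_half_sq (C0 X (p + p) (n + n)), exp_half_sq (1 / 2 * NF X (sym t) (sym t')),
      show 1 / 2 * NF X (sym t) (sym t') / 2 = 1 / 4 * NF X (sym t) (sym t') by ring]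
    ring

/-- kernels of the folded form -/
def khC (X : Dat) (a d : Bool) (t t' : ℝ) : ℝ := 1 / 2 * NUSea.H0.kh X a d t t'

theorem khC_KC {R Λ1 : ℝ} (h : ∀ a d, KC R Λ1 (fun t t' => ((X.κ a d t t' : ℝ) : ℂ))) (a d : Bool) :
    KC R (1 / 4 * Λ1) (fun t t' => ((khC X a d t t' : ℝ) : ℂ)) := by
  have h1 := (NUSea.H0.kh_KC h a d).smul ((1 / 2 : ℝ) : ℂ)
  have e : ‖((1 / 2 : ℝ) : ℂ)‖ = 1 / 2 := by
    rw [Complex.norm_real, Real.norm_eq_abs, abs_of_pos (by norm_num)]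
  rw [e, show (1 : ℝ) / 2 * (1 / 2 * Λ1) = 1 / 4 * Λ1 by ring] at h1
  refine h1.congr fun t t' _ _ => ?_
  unfold khC
  push_cast
  ring

/-- the folded form with cut kernels -/
theorem NF_cut_C (hG : Geo X Cκ) {bb : ℝ → ℝ} (hb : Continuous bb) (hb1 : ∀ t, |bb t| ≤ 1) {ε : ℝ}
    (he : ∀ a d t t', |X.κ a d t t' - bb t * bb t' * X.κ a d t t'| ≤ ε)
    (ω : (Fin p → ℝ) × (Fin n → ℝ)) :
    1 / 4 * NF X (sym ω.1) (sym ω.2) ≤ QFF bb (fun _ : Bool => X.ρ) (khC X) (TCD.spD p n) ω +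
      ε * ((p : ℝ) + n + X.s) ^ 2 := by
  have h1 := NF_cut (p := p + p) (n := n + n) hG hb hb1 he (sym ω.1, sym ω.2)
  have h2 : QFF bb (fun _ : Bool => X.ρ) (NUSea.H0.kh X) (spF (p + p) (n + n)) (sym ω.1, sym ω.2) =
      QFF bb (fun _ : Bool => X.ρ) (NUSea.H0.kh X) (TCD.spD p n) ω := by
    unfold QFF
    refine Finset.sum_congr rfl fun k _ => Finset.sum_congr rfl fun k' _ => ?_
    rw [TCD.spD_eq, TCD.spD_eq]
    rfl
  have h3 : QFF bb (fun _ : Bool => X.ρ) (khC X) (TCD.spD p n) ω =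
      1 / 2 * QFF bb (fun _ : Bool => X.ρ) (NUSea.H0.kh X) (TCD.spD p n) ω :=
    QFF_smul (1 / 2) ω
  rw [h2] at h1
  rw [h3]
  have e : ε / 2 * (((p + p : ℕ) : ℝ) + ((n + n : ℕ) : ℝ) + 2 * X.s) ^ 2 =
      2 * (ε * ((p : ℝ) + n + X.s) ^ 2) := by
    push_cast
    ring
  rw [e] at h1
  simp only at h1
  linarith

/-- the folded weight; wall factors inside `aX`, `aY` -/
def Wt0C (X : Dat) (p n : ℕ) (ch : ℝ → ℝ) (h : ℝ) (La : Finset ℤ) (a0 : ℝ) (aX aY : ℝ → ℝ)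
    (ω : (Fin p → ℝ) × (Fin n → ℝ)) : ℝ :=
  FWO (X.D true) (X.D1 true) (X.D false) (X.D1 false) aX aY ω.1 ω.2 *
    Real.exp (1 / 4 * ∑ l ∈ La, NU42.Fst ch h a0 X.τ l (sym ω.1) (sym ω.2) ^ 2)

/-- without the splitting -/
theorem Wt0C_empty (X : Dat) (p n : ℕ) (ch : ℝ → ℝ) (h a0 : ℝ) (aX aY : ℝ → ℝ) :
    Wt0C X p n ch h ∅ a0 aX aY = fun ω =>
      FWO (X.D true) (X.D1 true) (X.D false) (X.D1 false) aX aY ω.1 ω.2 := by
  funext ω
  unfold Wt0C
  simp

/-- the one component weight of the data on the window -/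
theorem F1_WTC (hR : Reg X) (hE : EvD X) {be : ℝ → ℝ} {T : ℝ} (a : Bool) {m : ℕ} (t : Fin m → ℝ)
    (ht : ∀ i, |t i| ≤ T) :
    ENNReal.ofReal (F1 (Xp X a) t * ∏ i, be (t i)) = WTC be T m (rm X a) (X.φ a) t := by
  have hm : t ∈ univ.pi fun _ : Fin m => Icc (-T) T := fun i _ => abs_le.1 (ht i)
  unfold WTC F1
  rw [indicator_of_mem hm, Finset.prod_mul_distrib]
  congr 1
  have e : ∀ i, (Xp X a (t i) + Xp X a (-t i)) / 2 =
      (∫ s, rm X a s * V (t i - s)) + X.φ a (t i) := fun i => by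
    rw [Xp_even hR hE, Xp_eq hR]
    ring
  simp_rw [e]
  ring

/-- **pointwise on the window** -/
theorem sh_pt_C (hG : Geo X Cκ) (hF : Fld X (p + p) (n + n)) (hR : Reg X) (hE : EvD X) {ch : ℝ → ℝ}
    {K h : ℝ} (hg : Grid ch K h) (La : Finset ℤ) (a0 : ℝ) {bb : ℝ → ℝ} (hb : Continuous bb)
    (hb1 : ∀ t, |bb t| ≤ 1) {ε : ℝ}
    (he : ∀ a d t t', |X.κ a d t t' - bb t * bb t' * X.κ a d t t'| ≤ ε) {T : ℝ} {aX aY be be' : ℝ → ℝ}
    (haX : ∀ t, 0 ≤ aX t) (haY : ∀ t, 0 ≤ aY t) (hbe : ∀ t, 0 ≤ be t) (hbe' : ∀ t, 0 ≤ be' t)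
    (hX : ∀ t, |t| ≤ T → aX t ≤ Real.exp (X.pot true t) * be t)
    (hY : ∀ t, |t| ≤ T → aY t ≤ Real.exp (X.pot false t) * be' t) (ω : (Fin p → ℝ) × (Fin n → ℝ)) :
    (NU42.Bw p n T).indicator (fun ω => ENNReal.ofReal (Wt0C X p n ch h La a0 aX aY ω)) ω ≤
      ENNReal.ofReal (Real.exp (C0 X (p + p) (n + n) / 2 + ε * ((p : ℝ) + n + X.s) ^ 2)) *
      (WTC be T p (rm X true) (X.φ true) ω.1 * WTC be' T n (rm X false) (X.φ false) ω.2 *
        ENNReal.ofReal (Real.exp (QFF bb (fun _ : Bool => X.ρ) (khC X) (TCD.spD p n) ω))) := by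
  by_cases hω : ω ∈ NU42.Bw p n T
  · rw [indicator_of_mem hω]
    obtain ⟨w1, w2⟩ := NU42.mem_Bw.1 hω
    have h1 := point_C hG hF hE hg La a0 ω.1 ω.2
    have h2 := NF_cut_C hG hb hb1 he ω
    have h3 := FWO_mono (DX := X.D true) (DX1 := X.D1 true) (DY := X.D false) (DY1 := X.D1 false)
      haX haY ω.1 ω.2 (b := fun t => Real.exp (X.pot true t) * be t)
      (b' := fun t => Real.exp (X.pot false t) * be' t)
      (fun i => hX _ (w1 i)) (fun i => hY _ (w2 i))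
    rw [FWO_mul] at h3
    rw [← F1_WTC hR hE true ω.1 w1, ← F1_WTC hR hE false ω.2 w2]
    have p1 := F1_nonneg (Xp X true) ω.1
    have p2 := F1_nonneg (Xp X false) ω.2
    have w3 : 0 ≤ ∏ i, be (ω.1 i) := Finset.prod_nonneg fun i _ => hbe _
    have w4 : 0 ≤ ∏ i, be' (ω.2 i) := Finset.prod_nonneg fun i _ => hbe' _
    rw [← ENNReal.ofReal_mul (by positivity), ← ENNReal.ofReal_mul (by positivity),
      ← ENNReal.ofReal_mul (Real.exp_pos _).le]
    refine ENNReal.ofReal_le_ofReal ?_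
    unfold Wt0C
    set A := FWO (X.D true) (X.D1 true) (X.D false) (X.D1 false) (fun t => Real.exp (X.pot true t))
      (fun t => Real.exp (X.pot false t)) ω.1 ω.2 with hA
    set S := Real.exp (1 / 4 * ∑ l ∈ La, NU42.Fst ch h a0 X.τ l (sym ω.1) (sym ω.2) ^ 2) with hS
    have hS0 : 0 ≤ S := (Real.exp_pos _).le
    have h5 := Real.exp_le_exp.2 h2
    rw [Real.exp_add] at h5
    calc FWO (X.D true) (X.D1 true) (X.D false) (X.D1 false) aX aY ω.1 ω.2 * S ≤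
        (A * ((∏ i, be (ω.1 i)) * ∏ j, be' (ω.2 j))) * S := mul_le_mul_of_nonneg_right h3 hS0
      _ = (A * S) * ((∏ i, be (ω.1 i)) * ∏ j, be' (ω.2 j)) := by ring
      _ ≤ (Real.exp (C0 X (p + p) (n + n) / 2) * (F1 (Xp X true) ω.1 * F1 (Xp X false) ω.2) *
        Real.exp (1 / 4 * NF X (sym ω.1) (sym ω.2))) * ((∏ i, be (ω.1 i)) * ∏ j, be' (ω.2 j)) :=
          mul_le_mul_of_nonneg_right h1 (by positivity)
      _ ≤ (Real.exp (C0 X (p + p) (n + n) / 2) * (F1 (Xp X true) ω.1 * F1 (Xp X false) ω.2) *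
        (Real.exp (QFF bb (fun _ : Bool => X.ρ) (khC X) (TCD.spD p n) ω) *
          Real.exp (ε * ((p : ℝ) + n + X.s) ^ 2))) * ((∏ i, be (ω.1 i)) * ∏ j, be' (ω.2 j)) := by
          gcongr
      _ = _ := by
        rw [Real.exp_add (C0 X (p + p) (n + n) / 2)]
        ring
  · rw [indicator_of_notMem hω]
    exact bot_le

variable {R T Λ1 c' ε a0 K h q0 M' : ℝ} {bb bb' ch be be' : ℝ → ℝ} {BX BY : ℝ≥0∞}

/-- measurability of the one component weights -/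
theorem sh_meas_C (hR : Reg X) (hbe : Measurable be) (a : Bool) (m : ℕ) :
    Measurable (WTC be T m (rm X a) (X.φ a)) :=
  WTC_meas hbe (rm_cont hR a).measurable (hR.φc a).measurable m

/-- **the folded window bound** -/
theorem sh_int_C (hG : Geo X Cκ) (hF : Fld X (p + p) (n + n)) (hR : Reg X) (hE : EvD X)
    (hg : Grid ch K h) (La : Finset ℤ)
    (hb : Cut1 R bb bb') (he : ∀ a d t t', |X.κ a d t t' - bb t * bb t' * X.κ a d t t'| ≤ ε)
    (hKC : ∀ a d, KC R Λ1 (fun t t' => ((X.κ a d t t' : ℝ) : ℂ)))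
    (hc0 : 0 < c') (hc1 : Λ1 ≤ c') (hq0 : 0 ≤ q0) (hM' : 0 ≤ M') (hq : 8 * c' * q0 ≤ 1)
    {aX aY : ℝ → ℝ} (haX : ∀ t, 0 ≤ aX t) (haY : ∀ t, 0 ≤ aY t)
    (hbe : ∀ t, 0 ≤ be t) (hbe' : ∀ t, 0 ≤ be' t) (mbe : Measurable be) (mbe' : Measurable be')
    (hX : ∀ t, |t| ≤ T → aX t ≤ Real.exp (X.pot true t) * be t)
    (hY : ∀ t, |t| ≤ T → aY t ≤ Real.exp (X.pot false t) * be' t)
    (oX : OneC bb X.ρ (WTC be T p (rm X true) (X.φ true)) BX q0 M')
    (oY : OneC bb X.ρ (WTC be' T n (rm X false) (X.φ false)) BY q0 M') :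
    ∫⁻ ω in NU42.Bw p n T, ENNReal.ofReal (Wt0C X p n ch h La a0 aX aY ω) ≤
      ENNReal.ofReal (Real.exp (C0 X (p + p) (n + n) / 2 + ε * ((p : ℝ) + n + X.s) ^ 2)) *
      (BX * BY * ENNReal.ofReal (√2 * Real.exp (4 * c' * q0 * M'))) := by
  have mX := sh_meas_C (T := T) hR mbe true p
  have mY := sh_meas_C (T := T) hR mbe' false n
  have h1 := crudeF (μ := (volume : Measure ((Fin p → ℝ) × (Fin n → ℝ)))) (s := TCD.spD p n)
    (κ := khC X) (Λ := fun _ _ => 1 / 4 * Λ1) (ρ := fun _ : Bool => X.ρ) hb.cutf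
    ((mX.comp measurable_fst).mul (mY.comp measurable_snd)) TCD.measurable_spD
    (fun _ => NUSea.H0.ρ_cont X) (khC_KC hKC) hc0 (by simp only [Fintype.sum_bool]; linarith) hq0
    hM' hq (two_expD (ρ := fun _ : Bool => X.ρ) hb.cutf.cont mX mY oX oY)
  rw [← lintegral_indicator (NU42.Bw_meas T)]
  refine (lintegral_mono fun ω => sh_pt_C hG hF hR hE hg La a0 hb.cutf.cont hb.cutf.le he haX haY
    hbe hbe' hX hY ω).trans ?_
  rw [lintegral_const_mul' _ _ ENNReal.ofReal_ne_top]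
  exact mul_le_mul_right h1 _

/-- **the folded window bound with one more square** -/
theorem sh_int_sq_C (hG : Geo X Cκ) (hF : Fld X (p + p) (n + n)) (hR : Reg X) (hE : EvD X)
    (hg : Grid ch K h) (La : Finset ℤ) (hb : Cut1 R bb bb')
    (he : ∀ a d t t', |X.κ a d t t' - bb t * bb t' * X.κ a d t t'| ≤ ε)
    (hKC : ∀ a d, KC R Λ1 (fun t t' => ((X.κ a d t t' : ℝ) : ℂ)))
    (hc0 : 0 < c') (hc1 : 2 * Λ1 ≤ c') (hq0 : 0 ≤ q0) (hM' : 0 ≤ M') (hq : 8 * c' * q0 ≤ 1)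
    {aX aY : ℝ → ℝ} (haX : ∀ t, 0 ≤ aX t) (haY : ∀ t, 0 ≤ aY t)
    (hbe : ∀ t, 0 ≤ be t) (hbe' : ∀ t, 0 ≤ be' t) (mbe : Measurable be) (mbe' : Measurable be')
    (hX : ∀ t, |t| ≤ T → aX t ≤ Real.exp (X.pot true t) * be t)
    (hY : ∀ t, |t| ≤ T → aY t ≤ Real.exp (X.pot false t) * be' t)
    (oX : OneC bb X.ρ (WTC be T p (rm X true) (X.φ true)) BX q0 M')
    (oY : OneC bb X.ρ (WTC be' T n (rm X false) (X.φ false)) BY q0 M') {A : ℝ}
    (hA : ENNReal.ofReal (Real.exp (C0 X (p + p) (n + n) / 2 + ε * ((p : ℝ) + n + X.s) ^ 2)) *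
      (BX * BY * ENNReal.ofReal (√2 * Real.exp (4 * c' * q0 * M'))) ≤ ENNReal.ofReal A) :
    SqCF (Wt0C X p n ch h La a0 aX aY) T bb X.ρ A c' := by
  have mX := sh_meas_C (T := T) hR mbe true p
  have mY := sh_meas_C (T := T) hR mbe' false n
  have h1 := fun (k : Bool) (al : ℝ) => crudeF_sq
    (μ := (volume : Measure ((Fin p → ℝ) × (Fin n → ℝ)))) (s := TCD.spD p n)
    (κ := khC X) (Λ := fun _ _ => 1 / 4 * Λ1) (Λ0 := c' / 2) (ρ := fun _ : Bool => X.ρ) hb.cutf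
    ((mX.comp measurable_fst).mul (mY.comp measurable_snd)) TCD.measurable_spD
    (fun _ => NUSea.H0.ρ_cont X) (khC_KC hKC) (by linarith)
    (by simp only [Fintype.sum_bool]; linarith) hq0
    hM' (c := c') (by linarith) hq (two_expD (ρ := fun _ : Bool => X.ρ) hb.cutf.cont mX mY oX oY)
    k al
  have go : ∀ N : (Fin p → ℝ) × (Fin n → ℝ) → ℝ,
      ∫⁻ ω : (Fin p → ℝ) × (Fin n → ℝ),
        (WTC be T p (rm X true) (X.φ true) ω.1 * WTC be' T n (rm X false) (X.φ false) ω.2) *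
        ENNReal.ofReal (Real.exp (QFF bb (fun _ : Bool => X.ρ) (khC X) (TCD.spD p n) ω + N ω)) ≤
      BX * BY * ENNReal.ofReal (√2 * Real.exp (4 * c' * q0 * M')) →
      ∫⁻ ω in NU42.Bw p n T, ENNReal.ofReal (Wt0C X p n ch h La a0 aX aY ω * Real.exp (N ω)) ≤
        ENNReal.ofReal A := by
    intro N hD
    rw [← lintegral_indicator (NU42.Bw_meas T)]
    refine le_trans (lintegral_mono fun ω => ?_) (le_trans (le_of_eq
      (lintegral_const_mul' _ _ ENNReal.ofReal_ne_top)) ((mul_le_mul_right hD _).trans hA))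
    have h2 := sh_pt_C hG hF hR hE hg La a0 hb.cutf.cont hb.cutf.le he haX haY hbe hbe' hX hY ω
      (T := T)
    have e : ENNReal.ofReal (Real.exp (QFF bb (fun _ : Bool => X.ρ) (khC X) (TCD.spD p n) ω +
        N ω)) = ENNReal.ofReal (Real.exp (QFF bb (fun _ : Bool => X.ρ) (khC X) (TCD.spD p n) ω)) *
          ENNReal.ofReal (Real.exp (N ω)) := by
      rw [Real.exp_add, ENNReal.ofReal_mul (Real.exp_pos _).le]
    rw [e, ← mul_assoc (_ * _), ← mul_assoc]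
    by_cases hω : ω ∈ NU42.Bw p n T
    · rw [indicator_of_mem hω] at h2 ⊢
      rw [ENNReal.ofReal_mul' (Real.exp_pos _).le]
      exact mul_le_mul_left h2 _
    · rw [indicator_of_notMem hω]
      exact bot_le
  exact ⟨fun a => go _ (h1 true a).1, fun a => go _ (h1 false a).1⟩

end

end TCW
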