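import Pool.Agent.TC.DatF0
import Pool.Agent.TC.F42D

/-!
# Even data

`IEv I`: odd displacement, potentials and densities even.  `IEv.evD`: then `EvD (datI I)`.
-/

set_option autoImplicit false
set_option linter.unusedSectionVars false

open MeasureTheory Set Filter Topology

namespace TCDF

open NUKer NUSea.H0
open NUMF (V)
open NUAct (ks kx Us Ux Up Up_of_lt Up_of_le Ux_neg Gas)
open NUSea (Pc Pc_diff Pc_ofReal P_neg vs vx vc horiz_s horiz_x)

noncomputable section

variable [NUSea.Sea]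

/-- a function which is even on the line is even on the strip -/
theorem even_strip {F : ℂ → ℂ} (hF : ∀ z : ℂ, |z.im| < NUMF.l / 2 → DifferentiableAt ℂ F z)
    (h : ∀ x : ℝ, F (-(x : ℂ)) = F x) {z : ℂ} (hz : |z.im| < NUMF.l / 2) : F (-z) = F z := by
  obtain ⟨S, hS⟩ : ∃ S : Set ℂ, S = {w : ℂ | |w.im| < NUMF.l / 2} := ⟨_, rfl⟩
  have hSo : IsOpen S := by
    rw [hS]
    exact isOpen_lt (continuous_abs.comp Complex.continuous_im) continuous_const
  have hSc : IsPreconnected S := by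
    have : Convex ℝ S := by
      have e : S = Complex.imLm ⁻¹' (Ioo (-(NUMF.l / 2)) (NUMF.l / 2)) := by
        ext z
        simp [hS, abs_lt]
      rw [e]
      exact (convex_Ioo _ _).linear_preimage _
    exact this.isPreconnected
  have a1 : AnalyticOnNhd ℂ (fun z => F (-z)) S :=
    DifferentiableOn.analyticOnNhd (fun w hw => by
      have h1 : DifferentiableAt ℂ F (-w) := hF _ (by
        rw [hS] at hw
        simpa using hw)
      exact (h1.comp w differentiableAt_id.neg).differentiableWithinAt) hSo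
  have a2 : AnalyticOnNhd ℂ F S :=
    DifferentiableOn.analyticOnNhd (fun w hw => by
      rw [hS] at hw
      exact (hF w hw).differentiableWithinAt) hSo
  have h0 : (0:ℂ) ∈ S := by
    rw [hS]
    simpa using NUMF.l_pos
  have hfr : ∃ᶠ w in 𝓝[≠] (0:ℂ), F (-w) = F w := by
    have t1 : Tendsto (fun x : ℝ => (x : ℂ)) (𝓝[≠] 0) (𝓝[≠] 0) := by
      refine tendsto_nhdsWithin_iff.2 ⟨?_, ?_⟩
      · have := Complex.continuous_ofReal.tendsto 0
        rw [Complex.ofReal_zero] at this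
        exact this.mono_left nhdsWithin_le_nhds
      · filter_upwards [self_mem_nhdsWithin] with x hx
        simpa using hx
    refine t1.frequently ?_
    exact Eventually.frequently (Eventually.of_forall fun x => h x)
  exact a1.eqOn_of_preconnected_of_frequently_eq a2 hSc h0 hfr (by rw [hS]; exact hz)

lemma Pc_neg {z : ℂ} (hz : |z.im| < NUMF.l / 2) : Pc (-z) = Pc z :=
  even_strip (fun _ h => Pc_diff h) (fun x => by
    rw [← Complex.ofReal_neg, Pc_ofReal, Pc_ofReal, P_neg]) hz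

lemma w_neg (u : ℝ) : NUMF.w (-u) = NUMF.w u := by
  unfold NUMF.w
  rw [Real.sinh_neg, neg_sq, mul_neg, Real.cosh_neg]

lemma g_neg (u : ℝ) : NUMF.g (-u) = NUMF.g u := NU42.g_even u

lemma ks_neg (u : ℝ) : ks (-u) = ks u := by
  unfold ks
  rw [w_neg]

lemma kx_neg (u : ℝ) : kx (-u) = kx u := by
  unfold kx
  rw [g_neg]

lemma conv_neg {k : ℝ → ℂ} (hk : ∀ u, k (-u) = k u) {z : ℂ} (hz : |z.im| < NUMF.l / 2) :
    ∫ u : ℝ, Pc (-z - u) * k u = ∫ u : ℝ, Pc (z - u) * k u := by
  rw [← integral_neg_eq_self (fun u : ℝ => Pc (-z - u) * k u) volume]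
  refine integral_congr_ae (ae_of_all _ fun u => ?_)
  simp only
  rw [hk, Complex.ofReal_neg, show -z - -(u : ℂ) = -(z - u) by ring, Pc_neg (by simpa using hz)]

lemma vs_neg {z : ℂ} (hz : |z.im| < NUMF.l / 2) : vs (-z) = vs z := by
  rw [← horiz_s hz, ← horiz_s (z := -z) (by simpa using hz)]
  exact conv_neg ks_neg hz

lemma vx_neg {z : ℂ} (hz : |z.im| < NUMF.l / 2) : vx (-z) = vx z := by
  rw [← horiz_x hz, ← horiz_x (z := -z) (by simpa using hz)]
  exact conv_neg kx_neg hz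

lemma vc_neg {z : ℂ} (hz : |z.im| < NUMF.l / 2) : vc (-z) = vc z := by
  rw [NUSea.vc_eq, NUSea.vc_eq, vs_neg hz, vx_neg hz]

/-! ### the curve -/

lemma zt_odd {η : ℝ → ℝ} (h : ∀ t, η (-t) = -η t) (t : ℝ) :
    NUAct.zt (iD η) (-t) = -NUAct.zt (iD η) t := by
  unfold NUAct.zt iD
  rw [h]
  push_cast
  ring

lemma der_even {η η1 : ℝ → ℝ} (h : ∀ t, η (-t) = -η t) (hd : ∀ t, HasDerivAt η (η1 t) t) (t : ℝ) :
    η1 (-t) = η1 t := by
  have h1 : HasDerivAt (fun t => -η (-t)) (η1 (-t)) t := by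
    have h2 := ((hd (-t)).comp t (hasDerivAt_neg t)).neg
    refine (h2.congr_deriv (by ring)).congr_of_eventuallyEq ?_
    exact Eventually.of_forall fun x => rfl
  have e : (fun t => -η (-t)) = η := funext fun t => by rw [h, neg_neg]
  rw [e] at h1
  exact h1.unique (hd t)

lemma zd_even {η1 : ℝ → ℝ} (h : ∀ t, η1 (-t) = η1 t) (t : ℝ) :
    NUAct.zd (iD η1) (-t) = NUAct.zd (iD η1) t := by
  unfold NUAct.zd iD
  rw [h]

lemma zt_im (η : ℝ → ℝ) (t : ℝ) : (NUAct.zt (iD η) t).im = η t := by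
  unfold NUAct.zt iD
  simp

/-- even inputs -/
structure IEv (I : Inp) : Prop where
  η : ∀ t, I.η (-t) = -I.η t
  A : ∀ a t, (I.A a (-NUAct.zt (iD I.η) t)).re = (I.A a (NUAct.zt (iD I.η) t)).re
  B : ∀ a t, I.B a (-t) = I.B a t
  ν : ∀ a t, I.ν a (-t) = I.ν a t
  τ : ∀ t, I.τD (-t) = I.τD t

/-- the potential of an even density -/
lemma lgp_even {τ : ℝ → ℝ} (h : ∀ t, τ (-t) = τ t) (t : ℝ) : NUC43.lgp τ (-t) = NUC43.lgp τ t := by
  unfold NUC43.lgp
  rw [← integral_neg_eq_self (fun s => τ s * Real.log (NUMF.g (-t - s))) volume]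
  refine integral_congr_ae (ae_of_all _ fun u => ?_)
  simp only
  rw [h, show -t - -u = -(t - u) by ring, g_neg]

variable {I : Inp} {ε M b : ℝ} {e : ℝ → ℝ}

namespace IEv

variable (he : IEv I)

include he

lemma wO_even (a : Bool) (t : ℝ) : wO I a (-t) = wO I a t := by
  unfold wO Vn
  rw [zt_odd he.η, he.A, he.B, lgp_even he.τ, TCW.conv_even (he.ν a)]

theorem Qi_even (hd : ∀ t, HasDerivAt I.η (I.η1 t) t) (hη : ∀ t, |I.η t| < NUMF.l / 2)
    (a : Bool) (t : ℝ) : Qi I a (-t) = Qi I a t := by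
  have h1 := der_even he.η hd
  unfold Qi
  congr 1
  refine Finset.sum_congr rfl fun d _ => ?_
  unfold Gas.KB
  rw [← integral_neg_eq_self (fun t' => (NUSea.gas I.s (fun _ => I.η) (fun _ => I.η1) I.A).K a d (-t) t' *
    (NUSea.gas I.s (fun _ => I.η) (fun _ => I.η1) I.A).B d t') volume]
  refine integral_congr_ae (ae_of_all _ fun t' => ?_)
  simp only
  have hB : (NUSea.gas I.s (fun _ => I.η) (fun _ => I.η1) I.A).B d (-t') =
      (NUSea.gas I.s (fun _ => I.η) (fun _ => I.η1) I.A).B d t' := by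
    show (I.s : ℂ) * (Pc (NUAct.zt (iD I.η) (-t')) * NUAct.zd (iD I.η1) (-t')) -
      ((I.s * NUSea.P (-t') : ℝ) : ℂ) = (I.s : ℂ) * (Pc (NUAct.zt (iD I.η) t') *
        NUAct.zd (iD I.η1) t') - ((I.s * NUSea.P t' : ℝ) : ℂ)
    rw [zt_odd he.η, zd_even h1, P_neg, Pc_neg (by rw [zt_im]; exact hη t')]
  have hK : (NUSea.gas I.s (fun _ => I.η) (fun _ => I.η1) I.A).K a d (-t) (-t') =
      (NUSea.gas I.s (fun _ => I.η) (fun _ => I.η1) I.A).K a d t t' := by
    show (if a = d then Up Us (NUAct.zt (iD I.η)) (-t) (-t') else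
      Ux (NUAct.zt (iD I.η) (-t) - NUAct.zt (iD I.η) (-t'))) =
      (if a = d then Up Us (NUAct.zt (iD I.η)) t t' else
      Ux (NUAct.zt (iD I.η) t - NUAct.zt (iD I.η) t'))
    by_cases had : a = d
    · rw [if_pos had, if_pos had]
      rcases lt_trichotomy t t' with h | h | h
      · rw [Up_of_lt (by linarith), Up_of_le h.le, zt_odd he.η, zt_odd he.η]
        congr 1
        ring
      · subst h
        rw [Up_of_le le_rfl, Up_of_le le_rfl, sub_self, sub_self]
      · rw [Up_of_le (by linarith), Up_of_lt h, zt_odd he.η, zt_odd he.η]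
        congr 1
        ring
    · rw [if_neg had, if_neg had, zt_odd he.η, zt_odd he.η, ← Ux_neg]
      congr 1
      ring
  rw [hB, hK]

/-- **even data** -/
theorem evD (h : IG ε M b e I) : TCW.EvD (datI I) := by
  have hl := NUMF.l_pos
  have hη : ∀ t, |I.η t| < NUMF.l / 2 := fun t => (h.eta_lt t).trans (by linarith)
  refine ⟨fun a => ?_, fun a t => ?_, he.ν, fun a t => ?_⟩
  · rw [datI_D, datI_D1]
    refine ⟨fun t => ?_, fun t => ?_⟩
    · unfold iD
      rw [he.η]
      push_cast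
      ring
    · unfold iD
      rw [der_even he.η h.der]
  · show I.s * (vc (NUAct.zt (iD I.η) (-t))).re + (I.A a (NUAct.zt (iD I.η) (-t))).re + I.B a (-t) =
      I.s * (vc (NUAct.zt (iD I.η) t)).re + (I.A a (NUAct.zt (iD I.η) t)).re + I.B a t
    rw [zt_odd he.η, he.A, he.B, vc_neg (by rw [zt_im]; exact hη t)]
  · show Qi I a (-t) + wO I a (-t) = Qi I a t + wO I a t
    rw [he.Qi_even h.der hη, he.wO_even]

end IEv

end

end TCDF
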