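import Pool.Agent.TC.DatF1

/-!
# Objects and their images

`inF I P O`: the input `I` with the objects `O` and their images `-w`; `datF I P O := datI (inF I P O)`
is the data of the folded gas.  `inF` may be iterated (several lists of objects with their own `Par`).

* `wO_inF`: the remainder of `inF I P O` is `wO I t + dFB t + dFB (-t)`;
* `ig_inF`, `iev_inF`: the hypotheses `IG`, `IEv` pass to `inF I P O`;
* `datF_evD`, `datF_lin`, `datF_fld`, `datF_reg`, `exists_geo_F`.
-/

set_option autoImplicit false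
set_option linter.unusedSectionVars false

open MeasureTheory Set Filter Topology

namespace TCDF

open NUMF NUKer NUAct NUSea.H0 NUO
open NUDispP NUDispV NUDispW
open NUH0 (slO slO_bc linC_base)

noncomputable section

variable [NUSea.Sea]

/-- **the input with the objects and their images** -/
def inF (I : Inp) (P : Par) {r : ℕ} (O : Fin r → Xo) : Inp where
  s := I.s
  η := I.η
  η1 := I.η1
  A a z := FO P O a z + FO P O a (-z) + I.A a z
  B a t := slO O a t + slO O a (-t) + I.B a t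
  ν a t := NUC43.muC P.jL P.e O a t + NUC43.muC P.jL P.e O a (-t) + I.ν a t
  τD t := NUC43.tauC P.jL P.e O t + NUC43.tauC P.jL P.e O (-t) + I.τD t

/-- **the data of the folded gas** -/
def datF (I : Inp) (P : Par) {r : ℕ} (O : Fin r → Xo) : Dat := datI (inF I P O)

variable {r : ℕ} {I : Inp} {P : Par} {dl ε M b : ℝ} {e : ℝ → ℝ}

/-- the hypotheses of type A from `IG` and those on the parameters -/
theorem IG.ok (h : IG ε M b e I) (pg : PG (1 / 8) P)
    (d1 : ∀ t, P.d r + P.rad r t / NUMF.l + ε / NUMF.l ≤ dl) (d2 : dl ≤ 1 / 16) :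
    IOk dl ε M b e I P r :=
  ⟨h.s0, h.b0, h.cur, h.der, h.ε1, pg, d1, d2, h.Ae, h.Bc, h.Bb, h.νc, h.νi, h.νb, h.τi, h.τ1,
    h.wc, h.wb⟩

/-! ### additivity -/

/-- potentials of reflected densities -/
lemma lg_refl (τ : ℝ → ℝ) (t : ℝ) :
    ∫ u, τ (-u) * Real.log (NUMF.g (t - u)) = NUC43.lgp τ (-t) := by
  unfold NUC43.lgp
  rw [← integral_neg_eq_self (fun u => τ u * Real.log (NUMF.g (-t - u))) volume]
  refine integral_congr_ae (ae_of_all _ fun u => ?_)
  simp only
  rw [show -t - -u = -(t - u) by ring, g_neg]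

lemma lg_refl_int {τ : ℝ → ℝ} {t : ℝ} (h : Integrable fun u => τ u * Real.log (NUMF.g (-t - u))) :
    Integrable fun u => τ (-u) * Real.log (NUMF.g (t - u)) := by
  refine h.comp_neg.congr (ae_of_all _ fun u => ?_)
  simp only
  rw [show -t - -u = -(t - u) by ring, g_neg]

lemma V_refl (μ : ℝ → ℝ) (t : ℝ) :
    ∫ u, μ (-u) * V (t - u) = ∫ u, μ u * V (-t - u) := by
  rw [← integral_neg_eq_self (fun u => μ u * V (-t - u)) volume]
  refine integral_congr_ae (ae_of_all _ fun u => ?_)
  simp only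
  rw [show -t - -u = -(t - u) by ring, NUWC.V_neg]

lemma V_refl_int {μ : ℝ → ℝ} {t : ℝ} (h : Integrable fun u => μ u * V (-t - u)) :
    Integrable fun u => μ (-u) * V (t - u) := by
  refine h.comp_neg.congr (ae_of_all _ fun u => ?_)
  simp only
  rw [show -t - -u = -(t - u) by ring, NUWC.V_neg]

lemma nu_V_int {ν : ℝ → ℝ} (hc : Continuous ν) (hb : ∃ C, ∀ t, |ν t| ≤ C) (t : ℝ) :
    Integrable fun u => ν u * V (t - u) := by
  obtain ⟨C, hC⟩ := hb
  have h1 : Integrable fun u => V (t - u) := V_integral.1.comp_sub_left t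
  exact (h1.mul_bdd (c := C) hc.aestronglyMeasurable (ae_of_all _ hC)).congr
    (ae_of_all _ fun u => mul_comm _ _)

lemma pg_adm (hP : PG (1 / 8) P) : NUC43.Adm P.jL P.e := by
  have h1 := hP.j1
  have h2 := hP.j2
  have h3 := hP.e1
  have h4 := hP.e2 0
  have h5 := hP.d0 0
  exact ⟨by linarith, by linarith, by linarith, by linarith⟩

/-- the fields of the objects alone -/
lemma ob_eq (hP : PG (1 / 8) P) (O : Fin r → Xo) (a : Bool) {t : ℝ} (ht : |I.η t| < 1 / 8 * NUMF.l) :
    (FO P O a (NUAct.zt (iD I.η) t)).re + slO O a t -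
      Dat.sg a * NUC43.lgp (NUC43.tauC P.jL P.e O) t -
      (∫ u, NUC43.muC P.jL P.e O a u * V (t - u)) = dFB P O I.η a t := by
  have h1 := NUC43.cfg_eq (pg_adm hP) O a t
  rw [linC_base] at h1
  have h2 := NUSea.H0.FO_re I P O hP a ht
  have e4 : Dat.sg a = NUC43.sg a := rfl
  rw [h2, e4]
  linarith

/-- **the remainder of the input with objects** -/
theorem wO_inF (h : IG ε M b e I) (hη : ∀ t, I.η (-t) = -I.η t) (hP : PG (1 / 8) P)
    (O : Fin r → Xo) (a : Bool) (t : ℝ) :
    wO (inF I P O) a t = dFB P O I.η a t + dFB P O I.η a (-t) + wO I a t := by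
  have hj := pg_adm hP
  have f1 := ob_eq (I := I) hP O a (h.eta_lt t)
  have f2 := ob_eq (I := I) hP O a (h.eta_lt (-t))
  rw [zt_odd hη] at f2
  have i1 : ∀ t, Integrable fun u => NUC43.tauC P.jL P.e O u * Real.log (NUMF.g (t - u)) := fun t =>
    NUC43.lg_in (NUC43.dn_tauC hj O) t
  have i2 := tau_logg_int h.τi h.τ1 t
  have k1 : ∀ t, Integrable fun u => NUC43.muC P.jL P.e O a u * V (t - u) := fun t =>
    NUC43.V_in (NUC43.dn_muC hj O a) t
  have k2 := nu_V_int (h.νc a) (h.νb a) t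
  have e1 : NUC43.lgp (inF I P O).τD t = NUC43.lgp (NUC43.tauC P.jL P.e O) t +
      NUC43.lgp (NUC43.tauC P.jL P.e O) (-t) + NUC43.lgp I.τD t := by
    have s1 := integral_add (i1 t) (lg_refl_int (i1 (-t)))
    have s2 := integral_add ((i1 t).add (lg_refl_int (i1 (-t)))) i2
    rw [lg_refl] at s1
    refine Eq.trans (integral_congr_ae (ae_of_all _ fun u => ?_))
      (s2.trans (congrArg (fun x => x + NUC43.lgp I.τD t) s1))
    show (NUC43.tauC P.jL P.e O u + NUC43.tauC P.jL P.e O (-u) + I.τD u) * Real.log (g (t - u)) = _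
    simp only [Pi.add_apply]
    ring
  have e2 : Vn (inF I P O) a t = (∫ u, NUC43.muC P.jL P.e O a u * V (t - u)) +
      (∫ u, NUC43.muC P.jL P.e O a u * V (-t - u)) + Vn I a t := by
    have s1 := integral_add (k1 t) (V_refl_int (k1 (-t)))
    have s2 := integral_add ((k1 t).add (V_refl_int (k1 (-t)))) k2
    rw [V_refl] at s1
    refine Eq.trans (integral_congr_ae (ae_of_all _ fun u => ?_))
      (s2.trans (congrArg (fun x => x + Vn I a t) s1))
    show (NUC43.muC P.jL P.e O a u + NUC43.muC P.jL P.e O a (-u) + I.ν a u) * V (t - u) = _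
    simp only [Pi.add_apply]
    ring
  have e3 : ((inF I P O).A a (NUAct.zt (iD (inF I P O).η) t)).re =
      (FO P O a (NUAct.zt (iD I.η) t)).re + (FO P O a (-NUAct.zt (iD I.η) t)).re +
      (I.A a (NUAct.zt (iD I.η) t)).re := by
    show (FO P O a (NUAct.zt (iD I.η) t) + FO P O a (-NUAct.zt (iD I.η) t) +
      I.A a (NUAct.zt (iD I.η) t)).re = _
    rw [Complex.add_re, Complex.add_re]
  have e4 : (inF I P O).B a t = slO O a t + slO O a (-t) + I.B a t := rfl
  have e5 : wO I a t = (I.A a (NUAct.zt (iD I.η) t)).re + I.B a t -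
      Dat.sg a * NUC43.lgp I.τD t - Vn I a t := rfl
  have e6 : wO (inF I P O) a t = ((inF I P O).A a (NUAct.zt (iD (inF I P O).η) t)).re +
      (inF I P O).B a t - Dat.sg a * NUC43.lgp (inF I P O).τD t - Vn (inF I P O) a t := rfl
  rw [e6, e1, e2, e3, e4, e5]
  linear_combination f1 + f2

lemma dFB_C1 (h : IOk dl ε M b e I P r) (O : Fin r → Xo) (a : Bool) :
    ContDiff ℝ 1 (dFB P O I.η a) := by
  obtain ⟨F', h1, h2, h3, h4⟩ := h.exists_dFB (O := O) a
  rw [contDiff_one_iff_deriv]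
  refine ⟨fun t => (h1 t).differentiableAt, ?_⟩
  rw [show deriv (dFB P O I.η a) = F' from funext fun t => (h1 t).deriv]
  exact h2

lemma dFB_bdd (h : IOk dl ε M b e I P r) (O : Fin r → Xo) (a : Bool) :
    ∃ C, ∀ t, |dFB P O I.η a t| ≤ C := by
  obtain ⟨F', h1, h2, h3, h4⟩ := h.exists_dFB (O := O) a
  have hdl : 0 ≤ NUDispV.Bd (1 / 16) dl := by
    have := h.dl0
    unfold NUDispV.Bd
    have h8 := NUH0.sin16
    positivity
  refine ⟨NUDispV.Bd (1 / 16) dl * r + Ad (1 / 16) P O, fun t => ?_⟩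
  have b2 : bmaj Finset.univ (fun i => ht (O i)) 2 t ≤ r :=
    (NUEnW.bmaj_le_card (by norm_num) _ _ _).trans (by simp)
  have := mul_le_mul_of_nonneg_left b2 hdl
  linarith [h3 t]

/-- **the hypotheses of the input with objects** -/
theorem ig_inF (h : IOk dl ε M b e I P r) (hη : ∀ t, I.η (-t) = -I.η t) (O : Fin r → Xo) :
    IG ε M b e (inF I P O) := by
  have hg := IG.of_ok h
  have hj := pg_adm h.pg
  have hl := NUMF.l_pos
  have hw : ∀ a, wO (inF I P O) a = fun t => dFB P O I.η a t + dFB P O I.η a (-t) + wO I a t :=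
    fun a => funext fun t => wO_inF hg hη h.pg O a t
  have hdt := NUC43.dn_tauC hj O
  have hdm := fun a => NUC43.dn_muC hj O a
  refine ⟨h.s0, h.b0, h.cur, h.der, h.ε1, fun a => ?_, fun a => ?_, fun a => ?_, fun a => ?_,
    fun a => ?_, fun a => ?_, ?_, ?_, fun a => ?_, fun a => ?_⟩
  · have h1 := ext_FO (P := P) O (b := NUMF.l / 9) (by positivity) (by linarith) h.pg a
      (b' := NUMF.l / 10) (by linarith)
    obtain ⟨A1, hA1⟩ := h1.bd
    obtain ⟨A2, hA2⟩ := (h.Ae a).bd
    refine ⟨fun z hz => ?_, A1 + A1 + A2, fun z hz => ?_⟩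
    · have h2 : DifferentiableAt ℂ (FO P O a) (-z) := h1.diff _ (by simpa using hz)
      exact ((h1.diff z hz).add (h2.comp z differentiableAt_id.neg)).add ((h.Ae a).diff z hz)
    · have h3 := hA1 (-z) (by simpa using hz)
      rw [Complex.neg_re, abs_neg] at h3
      rw [add_mul, add_mul]
      exact (norm_add_le _ _).trans (add_le_add ((norm_add_le _ _).trans (add_le_add (hA1 z hz) h3))
        (hA2 z hz))
  · exact ((slO_bc a).1.add ((slO_bc a).1.comp continuous_neg)).add (h.Bc a)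
  · obtain ⟨C1, h1⟩ := (slO_bc (O := O) a).2
    obtain ⟨C2, h2⟩ := h.Bb a
    refine ⟨C1 + C1 + C2, fun t => ?_⟩
    exact (abs_add_three _ _ _).trans (add_le_add (add_le_add (h1 t) (h1 (-t))) (h2 t))
  · exact ((hdm a).cont.add ((hdm a).cont.comp continuous_neg)).add (h.νc a)
  · exact ((hdm a).int.add (hdm a).int.comp_neg).add (h.νi a)
  · obtain ⟨C1, h0, h1⟩ := (hdm a).bdd
    obtain ⟨C2, h2⟩ := h.νb a
    refine ⟨C1 + C1 + C2, fun t => ?_⟩
    exact (abs_add_three _ _ _).trans (add_le_add (add_le_add (h1 t) (h1 (-t))) (h2 t))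
  · exact (hdt.int.add hdt.int.comp_neg).add h.τi
  · have h1 := hdt.wint
    have h2 : Integrable fun x => |x| * NUC43.tauC P.jL P.e O x := by
      refine (h1.sub hdt.int).congr (ae_of_all _ fun x => ?_)
      simp only [Pi.sub_apply]
      ring
    have hc := hdt.cont
    have h3 : Integrable fun x => NUC43.tauC P.jL P.e O x * x := by
      refine h2.mono (Continuous.aestronglyMeasurable (hc.mul continuous_id)) (ae_of_all _ fun x => ?_)
      rw [norm_mul, norm_mul, Real.norm_eq_abs |x|, abs_abs, Real.norm_eq_abs x, mul_comm]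
    have h4 : Integrable fun x => NUC43.tauC P.jL P.e O (-x) * x := by
      refine h3.comp_neg.neg.congr (ae_of_all _ fun x => ?_)
      simp only [Pi.neg_apply]
      ring
    refine ((h3.add h4).add h.τ1).congr (ae_of_all _ fun x => ?_)
    show NUC43.tauC P.jL P.e O x * x + NUC43.tauC P.jL P.e O (-x) * x + I.τD x * x =
      (NUC43.tauC P.jL P.e O x + NUC43.tauC P.jL P.e O (-x) + I.τD x) * x
    ring
  · rw [hw a]
    have h1 := dFB_C1 h O a
    exact (h1.add (h1.comp contDiff_neg)).add (h.wc a)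
  · obtain ⟨C1, h1⟩ := dFB_bdd h O a
    obtain ⟨C2, h2⟩ := h.wb a
    rw [hw a]
    refine ⟨C1 + C1 + C2, fun t => ?_⟩
    exact (abs_add_three _ _ _).trans (add_le_add (add_le_add (h1 t) (h1 (-t))) (h2 t))

/-- **evenness of the input with objects** -/
theorem iev_inF (he : IEv I) (P : Par) (O : Fin r → Xo) : IEv (inF I P O) where
  η := he.η
  A a t := by
    show (FO P O a (-NUAct.zt (iD I.η) t) + FO P O a (- -NUAct.zt (iD I.η) t) +
      I.A a (-NUAct.zt (iD I.η) t)).re = (FO P O a (NUAct.zt (iD I.η) t) +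
      FO P O a (-NUAct.zt (iD I.η) t) + I.A a (NUAct.zt (iD I.η) t)).re
    rw [neg_neg, Complex.add_re, Complex.add_re, Complex.add_re, Complex.add_re, he.A]
    ring
  B a t := by
    show slO O a (-t) + slO O a (- -t) + I.B a (-t) = slO O a t + slO O a (-t) + I.B a t
    rw [neg_neg, he.B]
    ring
  ν a t := by
    show NUC43.muC P.jL P.e O a (-t) + NUC43.muC P.jL P.e O a (- -t) + I.ν a (-t) =
      NUC43.muC P.jL P.e O a t + NUC43.muC P.jL P.e O a (-t) + I.ν a t
    rw [neg_neg, he.ν]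
    ring
  τ t := by
    show NUC43.tauC P.jL P.e O (-t) + NUC43.tauC P.jL P.e O (- -t) + I.τD (-t) =
      NUC43.tauC P.jL P.e O t + NUC43.tauC P.jL P.e O (-t) + I.τD t
    rw [neg_neg, he.τ]
    ring

/-! ### the data -/

variable (h : IOk dl ε M b e I P r) (O : Fin r → Xo)

include h

/-- **evenness of the data** -/
theorem datF_evD (he : IEv I) : TCW.EvD (datF I P O) :=
  (iev_inF he P O).evD (ig_inF h he.η O)

omit h in
/-- the equation of the data -/
theorem datF_lin (I : Inp) (P : Par) (O : Fin r → Xo) (a : Bool) (t : ℝ) :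
    (datF I P O).gas.lin a t - Dat.sg a * (datF I P O).Gt t + (datF I P O).E a t =
      (datF I P O).Vm a t + (datF I P O).φ a t := datI_lin _ a t

/-- the remainder -/
theorem datF_phi (hη : ∀ t, I.η (-t) = -I.η t) (a : Bool) (t : ℝ) : (datF I P O).φ a t =
    Qr I P O a t + dFB P O I.η a t + dFB P O I.η a (-t) + wO I a t := by
  show Qi (inF I P O) a t + wO (inF I P O) a t = _
  rw [wO_inF (IG.of_ok h) hη h.pg O a t]
  have e1 : Qi (inF I P O) a t = Qr I P O a t := rfl
  rw [e1]
  ring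

lemma tauF_int : ∫ x, (inF I P O).τD x =
    -(2 * ∑ i, NUC43.sg (sp (O i)) * NUC43.kq (kd (O i))) + ∫ x, I.τD x := by
  have hj := pg_adm h.pg
  have hdt := NUC43.dn_tauC hj O
  have e1 : ∫ x, (inF I P O).τD x = (∫ x, (NUC43.tauC P.jL P.e O x + NUC43.tauC P.jL P.e O (-x))) +
      ∫ x, I.τD x := integral_add (hdt.int.add hdt.int.comp_neg) h.τi
  rw [e1, integral_add hdt.int hdt.int.comp_neg,
    integral_neg_eq_self (fun x => NUC43.tauC P.jL P.e O x) volume, NUC43.tauC_int hj O]
  ring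

/-- **the field equation of the data**, doubled numbers -/
theorem datF_fld (hη : ∀ t, I.η (-t) = -I.η t) {p n : ℕ} (hpn : (p : ℝ) - n =
    -(∑ i, NUC43.sg (sp (O i)) * NUC43.kq (kd (O i))) + 1 / 2 * ∫ x, I.τD x) :
    Fld (datF I P O) (p + p) (n + n) := by
  refine (ig_inF h hη O).fld ?_
  rw [tauF_int h O]
  push_cast
  linarith

/-- the field equation, `nX`, `nY` quanta of each species in all -/
theorem datF_fld' (hη : ∀ t, I.η (-t) = -I.η t) {nX nY : ℕ} (h1 : chgO O true ≤ nX)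
    (h2 : chgO O false ≤ nY) (hn : ∫ x, I.τD x = 2 * ((nX : ℝ) - nY)) :
    Fld (datF I P O) (nX - chgO O true + (nX - chgO O true))
      (nY - chgO O false + (nY - chgO O false)) := by
  refine datF_fld h O hη ?_
  rw [NUH0.sum_kq, Nat.cast_sub h1, Nat.cast_sub h2, hn]
  ring

/-- **regularity of the data** -/
theorem datF_reg (hη : ∀ t, I.η (-t) = -I.η t) : Reg (datF I P O) := (ig_inF h hη O).reg

omit h in
/-- **the geometry of the data** -/
theorem exists_geo_F : ∃ K : ℝ, 20 ≤ K ∧ ∀ {r : ℕ} {I : Inp} {P : Par} {dl ε M b : ℝ} {e : ℝ → ℝ},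
    IOk dl ε M b e I P r → (∀ t, I.η (-t) = -I.η t) → ∀ O : Fin r → Xo, K * ε ≤ 1 →
      Geo (datF I P O) (K * ε) := by
  obtain ⟨K, hK, H⟩ := exists_geo_I
  exact ⟨K, hK, fun {r I P dl ε M b e} h hη O hs => H (ig_inF h hη O) hs⟩

end

end TCDF
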