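import Pool.Agent.NUTP.Uniq

/-!
# The one leg functions of the strip with ended lines: the list of properties

Strip with a floor and a roof, full lines `I` (below the face `f`) and `J` (above `f`), ends at `f`.
A line is `a = e ^ (i z)`, `θ = e ^ (i λ)`, `λ = π / 8`.  The functions of the right side (`o` =
occupied, `e` = empty end):

* `R p`: `o = p`;
* `X a b`: `o = a` below `e = b`;
* `Y a b`: `e = a` below `o = b`;
* `O b h`: `o = b` on the right, `e = h` on the left.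

They count the walks from `f` to the FLOOR with the weight `ω ^ k`, `k` = signed crossings of the
cut above `f`, multiplied by the scalars `Q` of both sides.  The functions with the occupied line
on the left are the mirror images: `1 / ω`, inverse lines.

With `N = |I| + |J|`, a line of a side with `n` lines has the exponents `-(2 n - 1) .. 2 n - 1`
(occupied), `-(2 n - 2) .. 2 n - 2` (empty), step 2.  `Rel θ ω A B`: the relations of the family
`A` with the weight `ω`; `B` = the family with the weight `1 / ω`.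
-/

set_option autoImplicit false

open Polynomial

noncomputable section

namespace TC

open NUTP

/-- the lines and their images -/
def im (S : List ℂ) : List ℂ := S ++ S.map (·⁻¹)

/-- generic lines in the strip: no two of the lines and images differ by a multiple of `λ` -/
def GC (θ : ℂ) (S : List ℂ) : Prop := G θ (im S)

/-- `2 sin λ sin (3 λ / 2 + z) sin (9 λ / 2 - z)`, `u = e ^ (i z)` -/
def ow (θ u : ℂ) : ℂ := sn θ 1 1 * (cs (θ ^ 13 * u ^ 2) + cs (θ ^ 2))

/-- node `x - 3 λ`: `S` = the other lines of the side, `k` = the exponent -/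
def dn (θ : ℂ) (k : ℕ) (x : ℂ) (S : List ℂ) : ℂ :=
  (θ ^ 13 * x) ^ k * (ow θ x * (S.map fun c => sk θ (x / c) * sk θ (x * c)).prod)

/-- node `y + 3 λ`: `S` = the other lines of the side, `k` = the exponent -/
def up (θ : ℂ) (k : ℕ) (y : ℂ) (S : List ℂ) : ℂ :=
  (θ ^ 3 * y) ^ k * (ow θ y⁻¹ * (S.map fun c => sk θ (c / y) * sk θ (c * y)⁻¹).prod)

/-- `2 sin (5 λ / 2 + z) sin (5 λ / 2 - z)`, `w = e ^ (i z)` -/
def c5 (θ w : ℂ) : ℂ := cs (w ^ 2) - cs (θ ^ 5)

/-- fusion factor at the line `w`: `S` = the other lines of the side -/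
def fu (θ w : ℂ) (S : List ℂ) : ℂ :=
  sn θ 1 1 * (c5 θ w * (S.map fun c => cs (w / c) * cs (w * c)).prod)

/-- `cos (z - λ / 2) cos (z + λ / 2)`, `u = e ^ (i z)` -/
def kp (θ u : ℂ) : ℂ := (cs (u ^ 2) + cs θ) / 2

/-- the four functions -/
structure RF where
  /-- one occupied line -/
  R : List ℂ → List ℂ → ℂ → ℂ
  /-- occupied (first) below empty -/
  X : List ℂ → List ℂ → ℂ → ℂ → ℂ
  /-- empty (first) below occupied -/
  Y : List ℂ → List ℂ → ℂ → ℂ → ℂ
  /-- occupied (first) on the right, empty on the left -/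
  O : List ℂ → List ℂ → ℂ → ℂ → ℂ

/-- the relations of the family `A` with the weight `ω`, `B` = the family with `1 / ω` -/
structure Rel (θ ω : ℂ) (A B : RF) : Prop where
  /-- `R` in its line -/
  polR : ∀ I J : List ℂ, GC θ (I ++ J) → ∃ P : ℂ[X],
    P.natDegree ≤ 2 * (I.length + J.length) + 1 ∧
    (∀ p, GC θ (p :: (I ++ J)) →
      p ^ (2 * (I.length + J.length) + 1) * A.R I J p = P.eval (p ^ 2)) ∧
    (∀ x I' t, I.Perm (x :: I') → (t = x ∨ t = x⁻¹) → P.eval (θ ^ 10 * t ^ 2) =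
      dn θ (2 * (I.length + J.length) + 1) t (I' ++ J) * B.R I' J t⁻¹) ∧
    (∀ y J' t, J.Perm (y :: J') → (t = y ∨ t = y⁻¹) → P.eval (θ ^ 6 * t ^ 2) =
      ω * up θ (2 * (I.length + J.length) + 1) t (I ++ J') * B.R I J' t⁻¹)
  /-- `X` in the empty line `b` -/
  polX : ∀ (I J : List ℂ) (a : ℂ), GC θ (a :: (I ++ J)) → ∃ P : ℂ[X],
    (∀ b, GC θ (b :: a :: (I ++ J)) →
      b ^ (2 * (I.length + J.length) + 2) * A.X I J a b = P.eval (b ^ 2)) ∧
    (∀ y J' t, J.Perm (y :: J') → (t = y ∨ t = y⁻¹) → P.eval (θ ^ 6 * t ^ 2) =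
      up θ (2 * (I.length + J.length) + 2) t (a :: (I ++ J')) * A.O I J' a t)
  /-- `X` in the occupied line `a` -/
  polXo : ∀ (I J : List ℂ) (b : ℂ), GC θ (b :: (I ++ J)) → ∃ P : ℂ[X],
    (∀ a, GC θ (a :: b :: (I ++ J)) →
      a ^ (2 * (I.length + J.length) + 3) * A.X I J a b = P.eval (a ^ 2)) ∧
    (∀ x I' t, I.Perm (x :: I') → (t = x ∨ t = x⁻¹) → P.eval (θ ^ 10 * t ^ 2) =
      dn θ (2 * (I.length + J.length) + 3) t (b :: (I' ++ J)) * B.O I' J t⁻¹ b⁻¹)
  /-- `Y` in the empty line `a` -/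
  polY : ∀ (I J : List ℂ) (b : ℂ), GC θ (b :: (I ++ J)) → ∃ P : ℂ[X],
    P.natDegree ≤ 2 * (I.length + J.length) + 2 ∧
    (∀ a, GC θ (a :: b :: (I ++ J)) →
      a ^ (2 * (I.length + J.length) + 2) * A.Y I J a b = P.eval (a ^ 2)) ∧
    (∀ x I' t, I.Perm (x :: I') → (t = x ∨ t = x⁻¹) → P.eval (θ ^ 10 * t ^ 2) =
      dn θ (2 * (I.length + J.length) + 2) t (b :: (I' ++ J)) * A.O I' J b t) ∧
    P.eval (θ ^ 6 * b ^ 2) = 0 ∧
    P.eval (θ ^ 4 * b ^ 2) = (θ ^ 2 * b) ^ (2 * (I.length + J.length) + 2) *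
      fu θ (θ * b) (I ++ J) * A.R I J (θ * b)
  /-- `Y` in the occupied line `b` -/
  polYo : ∀ (I J : List ℂ) (a : ℂ), GC θ (a :: (I ++ J)) → ∃ P : ℂ[X],
    (∀ b, GC θ (b :: a :: (I ++ J)) →
      b ^ (2 * (I.length + J.length) + 3) * A.Y I J a b = P.eval (b ^ 2)) ∧
    (∀ y J' t, J.Perm (y :: J') → (t = y ∨ t = y⁻¹) → P.eval (θ ^ 6 * t ^ 2) =
      ω * up θ (2 * (I.length + J.length) + 3) t (a :: (I ++ J')) * B.O I J' t⁻¹ a⁻¹)
  /-- `O` in the empty line `h` -/
  polO : ∀ (I J : List ℂ) (b : ℂ), GC θ (b :: (I ++ J)) → ∃ P : ℂ[X],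
    P.natDegree ≤ 2 * (I.length + J.length) ∧
    (∀ h, GC θ (h :: b :: (I ++ J)) →
      h ^ (2 * (I.length + J.length)) * A.O I J b h = P.eval (h ^ 2)) ∧
    (∀ x I' t, I.Perm (x :: I') → (t = x ∨ t = x⁻¹) → P.eval (θ ^ 6 * t ^ 2) =
      up θ (2 * (I.length + J.length)) t (I' ++ J) * A.Y I' J t b) ∧
    (∀ y J' t, J.Perm (y :: J') → (t = y ∨ t = y⁻¹) → P.eval (θ ^ 10 * t ^ 2) =
      dn θ (2 * (I.length + J.length)) t (I ++ J') * A.X I J' b t)
  /-- exchange of the two ends -/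
  exX : ∀ (I J : List ℂ) (a b : ℂ), GC θ (a :: b :: (I ++ J)) →
    sk θ (b / a) * A.X I J b a =
      sn θ 3 (a / b) * (sn θ 2 1 * A.X I J a b + sn θ 0 (b / a) * A.Y I J a b)
  exY : ∀ (I J : List ℂ) (a b : ℂ), GC θ (a :: b :: (I ++ J)) →
    sk θ (b / a) * A.Y I J b a =
      sn θ 3 (a / b) * (sn θ 2 1 * A.Y I J a b + sn θ 0 (b / a) * A.X I J a b)
  /-- the trivial lower empty line at `- 3 λ / 2` = the left empty line at `3 λ / 2` -/
  trY : ∀ (I J : List ℂ) (b : ℂ), GC θ (b :: (I ++ J)) → ∀ P P' : ℂ[X],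
    (∀ a, GC θ (a :: b :: (I ++ J)) →
      a ^ (2 * (I.length + J.length) + 2) * A.Y I J a b = P.eval (a ^ 2)) →
    (∀ h, GC θ (h :: b :: (I ++ J)) →
      h ^ (2 * (I.length + J.length)) * A.O I J b h = P'.eval (h ^ 2)) →
    θ ^ (3 * (I.length + J.length + 1)) * P.eval (θ ^ 13) =
      kp θ b * (θ ^ (13 * (I.length + J.length)) * P'.eval (θ ^ 3))
  /-- the trivial upper empty line at `3 λ / 2` = the left empty line at `- 3 λ / 2` -/
  trX : ∀ (I J : List ℂ) (a : ℂ), GC θ (a :: (I ++ J)) → ∀ P P' : ℂ[X],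
    (∀ b, GC θ (b :: a :: (I ++ J)) →
      b ^ (2 * (I.length + J.length) + 2) * A.X I J a b = P.eval (b ^ 2)) →
    (∀ h, GC θ (h :: a :: (I ++ J)) →
      h ^ (2 * (I.length + J.length)) * A.O I J a h = P'.eval (h ^ 2)) →
    θ ^ (13 * (I.length + J.length + 1)) * P.eval (θ ^ 3) =
      kp θ a * (θ ^ (3 * (I.length + J.length)) * P'.eval (θ ^ 13))

/-- **the list of properties** which determine the families from their values without full lines;
`W ω` = the family with the weight `ω` -/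
def Data (θ : ℂ) (W : ℂ → RF) : Prop := ∀ ω : ℂ, ω ≠ 0 → Rel θ ω (W ω) (W ω⁻¹)

/-- two families agree on the full lines `I`, `J` -/
def Agree (θ : ℂ) (A A' : RF) (I J : List ℂ) : Prop :=
  (∀ a, GC θ (a :: (I ++ J)) → A.R I J a = A'.R I J a) ∧
  (∀ a b, GC θ (a :: b :: (I ++ J)) → A.X I J a b = A'.X I J a b ∧ A.Y I J a b = A'.Y I J a b ∧
    A.O I J a b = A'.O I J a b)

end TC

end
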