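import Pool.Agent.TC.DegB

/-!
# One line of a half strip, III: the functional `PH` (helper15)

`PH_deg`: for `p` between the lines `A` (below) and `B` (above) the functional is a trigonometric polynomial of the
rapidity of `p`: degree `2 N'` (`p` empty), `2 N' + 1` (`p` occupied), `N' = |A| + |B|`.
-/

set_option autoImplicit false

namespace Pool.Agent.TC

open _root_.Pool.Agent.EXL _root_.Pool.Agent.EXL.Pat Filter Topology
open _root_.Pool.Agent.EXL.Fm (lam)
open _root_.Pool.Agent.NUF _root_.Pool.Agent.NUU _root_.Pool.Agent.NUTV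
open _root_.Pool.Agent.NUF.Fr (TP ee)
open Complex (I exp sin cos)

variable {α : Type*} [DecidableEq α] {z z' : α → ℂ} {X Y A B : List α} {p a b c d : α} {n m : ℕ}
  {q : Pat α}

/-! ### The lowest line -/

theorem TG_dl (x : ℂ) : TG 2 fun s => Fr.dl (3 * Real.pi / 16 - s) x := by
  have h1 : TP 2 fun s => sin (3 * Real.pi / 16 - s) * sin (3 * lam - 3 * Real.pi / 16 + s) :=
    (TP_sm _).mul (TP_sp _)
  refine ((TG.of (h1.cmul 2)).add ((TG.of (TP.one.cmul (2 * (Fr.fa x * Fr.fe x)))).up)).congr
    (Ae.of fun s => ?_)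
  unfold Fr.dl
  rw [show Fr.fa' (3 * Real.pi / 16 - s) = sin (3 * lam - 3 * Real.pi / 16 + s) by
    unfold Fr.fa'; congr 1; ring]
  unfold Fr.fa
  ring

theorem TG_Dl (x : α → ℂ) (S : Finset α) :
    TG (2 * S.card) fun s => Fr.Dl x (3 * Real.pi / 16 - s) S :=
  (TG.prod S fun k _ => TG_dl (x k)).congr (Ae.of fun _ => rfl)

theorem ae_gz (hp : p ∉ X) (hG : Gz z X) : Ae fun s => Gz (Function.update z p s) (p :: X) :=
  fun s0 => ev_gz hp hG s0

variable [Finite α]

/-- **The lowest line.** -/
theorem PH_botG (hn : (p :: X).Nodup) (hc : c ∉ X) (hd : d ∉ X) (hcd : c ≠ d) (hG : Gz z X) :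
    GV p (2 * X.length) fun s => PH (Function.update z p s) (p :: X) := by
  obtain ⟨hp, hX⟩ := List.nodup_cons.1 hn
  have hS := supA (z := z) hX hc hd hcd hG
  have hcard : X.toFinset.card = X.length := List.toFinset_card_of_nodup hX
  intro q
  by_cases hq : q p = p
  · rw [dg_e hq, add_zero]
    have e1 : (uops.E p (HS.ind q) : Pat α → ℂ) = HS.ind q := by
      funext t
      rw [E_ap]
      by_cases ht : t = q
      · rw [ht, if_pos hq]
      · rw [HS.ind_ne ht]
        split_ifs <;> rfl
    have h1 : TG (2 * X.length) fun s => Fr.Dl (ux z) (3 * Real.pi / 16 - s) X.toFinset *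
        PH z X (HS.ind q) := by
      have := (TG_Dl (ux z) X.toFinset).cmul (PH z X (HS.ind q))
      rw [hcard] at this
      exact this.congr (Ae.of fun s => by ring)
    have h2 : TG (2 * X.length) fun s => ∑ i ∈ X.toFinset, (Fr.wt (ux z) i (X.toFinset.erase i) *
        Fr.Dl (ux z) (3 * Real.pi / 16 - s) (X.toFinset.erase i) * Fr.fe (ux z i)) *
          (PH z (X.erase i) (oE uops z X i (HS.ind q))) := by
      refine TG.sum _ fun i hi => ?_
      have hci : (X.toFinset.erase i).card + 1 = X.length := by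
        rw [← hcard]
        exact Finset.card_erase_add_one hi
      have := ((TG_Dl (ux z) (X.toFinset.erase i)).cmul (Fr.wt (ux z) i (X.toFinset.erase i) *
        Fr.fe (ux z i) * (PH z (X.erase i) (oE uops z X i (HS.ind q))))).up
      rw [show 2 * (X.toFinset.erase i).card + 2 = 2 * X.length by omega] at this
      exact this.congr (Ae.of fun s => by ring)
    refine (h1.add h2).congr (Ae.of fun s => ?_)
    show PH (Function.update z p s) (p :: X) (HS.ind q) = _
    rw [PH_upd hn]
    have := LinearMap.congr_fun (fp_E (u := 3 * Real.pi / 16 - s) hp hS) (HS.ind q)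
    rw [LinearMap.comp_apply, e1] at this
    rw [this]
    simp only [LinearMap.add_apply, LinearMap.smul_apply, LinearMap.sum_apply, smul_eq_mul,
      LinearMap.comp_apply]
  · rw [dg_o hq]
    have e1 : (oc p (HS.ind q) : Pat α → ℂ) = HS.ind q := by
      funext t
      rw [oc_ap]
      by_cases ht : t = q
      · rw [ht, if_neg hq]
      · rw [HS.ind_ne ht]
        split_ifs <;> rfl
    have h1 : TG (2 * X.length + 1) fun s => ∑ i ∈ X.toFinset, Fr.fa (3 * Real.pi / 16 - s) *
        (Fr.wt (ux z) i (X.toFinset.erase i) * Fr.Dl (ux z) (3 * Real.pi / 16 - s)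
          (X.toFinset.erase i)) * (PH z (X.erase i) (opCu ℂ p i (oE uops z X i (HS.ind q)))) := by
      refine TG.sum _ fun i hi => ?_
      have hci : (X.toFinset.erase i).card + 1 = X.length := by
        rw [← hcard]
        exact Finset.card_erase_add_one hi
      have hfa : TG 1 fun s => Fr.fa (3 * Real.pi / 16 - s) := TG.of (TP_sm _)
      have := ((hfa.mul (TG_Dl (ux z) (X.toFinset.erase i))).cmul (Fr.wt (ux z) i (X.toFinset.erase i) *
        (PH z (X.erase i) (opCu ℂ p i (oE uops z X i (HS.ind q)))))).up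
      rw [show 1 + 2 * (X.toFinset.erase i).card + 2 = 2 * X.length + 1 by omega] at this
      exact this.congr (Ae.of fun s => by ring)
    refine h1.congr (Ae.of fun s => ?_)
    show PH (Function.update z p s) (p :: X) (HS.ind q) = _
    rw [PH_upd hn]
    have := LinearMap.congr_fun (fp_oc (u := 3 * Real.pi / 16 - s) hp hS) (HS.ind q)
    rw [LinearMap.comp_apply, e1] at this
    rw [this]
    simp only [LinearMap.smul_apply, LinearMap.sum_apply, smul_eq_mul, LinearMap.comp_apply,
      Module.End.mul_apply, Finset.mul_sum]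
    exact Finset.sum_congr rfl fun i _ => by ring

/-! ### The line above `A` -/

theorem ae_fb (z : α → ℂ) (X : List α) : Ae fun s => Fb z X s := fun s0 => ev_fb z X s0

/-- **The line `p` above the lines `A`.** -/
theorem PH_upA (hn : (A ++ p :: B).Nodup) (hc : c ∉ A ++ p :: B) (hd : d ∉ A ++ p :: B) (hcd : c ≠ d)
    (hG : Gz z (A ++ B)) : GV p (2 * (A ++ B).length + 2 * A.length) fun s =>
      DA z A s • PH (Function.update z p s) (A ++ p :: B) := by
  have hperm : (A ++ p :: B).Perm (p :: (A ++ B)) := List.perm_middle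
  have hn' := hperm.nodup_iff.1 hn
  have hc' : c ∉ p :: (A ++ B) := fun h => hc (hperm.mem_iff.2 h)
  have hd' : d ∉ p :: (A ++ B) := fun h => hd (hperm.mem_iff.2 h)
  obtain ⟨hp, hX⟩ := List.nodup_cons.1 hn'
  refine GV.up (X := A ++ B) (V := fun s L => PH (Function.update z p s) L) hp ?_
    (PH_botG hn' (fun h => hc' (List.mem_cons_of_mem _ h)) (fun h => hd' (List.mem_cons_of_mem _ h)) hcd hG)
    A B rfl
  intro A' a B' hAB
  refine (ae_gz hp hG).mono fun s hs => ?_
  have e1 : (A' ++ p :: a :: B').Perm (p :: (A ++ B)) := by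
    rw [← hAB]
    exact List.perm_middle
  have hnn := e1.nodup_iff.2 hn'
  have hap : p ≠ a := by
    rintro rfl
    exact hp (by rw [← hAB]; simp)
  have := PH_exch (z := Function.update z p s) (A := A') (B := B') (j := p) (k := a) hnn
    (fun h => hc' (e1.mem_iff.1 h)) (fun h => hd' (e1.mem_iff.1 h)) hcd (hs.perm e1.symm)
  rw [Function.update_self, Function.update_of_ne hap.symm] at this
  exact this.symm

/-! ### The line below `B` -/

/-- the product of the factors `Dn (z b - s)` -/
noncomputable def DB (z : α → ℂ) (B : List α) (s : ℂ) : ℂ := (B.map fun b => Fm.Dn (z b - s)).prod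

omit [DecidableEq α] [Finite α] in
theorem DB_eq (z : α → ℂ) (B : List α) (s : ℂ) : DB z B s = DA (fun i => -z i) B.reverse (-s) := by
  unfold DB DA
  rw [List.map_reverse, List.prod_reverse]
  congr 2
  funext b
  congr 1
  ring

omit [DecidableEq α] [Finite α] in
theorem DB_cont (z : α → ℂ) (B : List α) : Continuous (DB z B) := by
  have : DB z B = fun s => DA (fun i => -z i) B.reverse (-s) := funext (DB_eq z B)
  rw [this]
  exact (DA_cont _ _).comp continuous_neg

omit [Finite α] in
theorem GV.refl {V : ℂ → Fnl α} (h : GV p n V) : GV p n fun s => V (-s) := fun q => (h q).refl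

/-- **The line `p` below the lines `B`.** -/
theorem PH_dnB (hn : (A ++ p :: B).Nodup) (hc : c ∉ A ++ p :: B) (hd : d ∉ A ++ p :: B) (hcd : c ≠ d)
    (hG : Gz z (A ++ B)) : GV p (2 * (A ++ B).length + 2 * B.length) fun s =>
      DB z B s • PH (Function.update z p s) (A ++ p :: B) := by
  have er : (A ++ p :: B).reverse = B.reverse ++ p :: A.reverse := by simp
  have hperm : (A ++ p :: B).Perm (B.reverse ++ p :: A.reverse) := by
    rw [← er]
    exact (List.reverse_perm _).symm
  have hperm2 : (A ++ B).Perm (B.reverse ++ A.reverse) := by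
    rw [← List.reverse_append]
    exact (List.reverse_perm _).symm
  have h1 := (PH_upA (z := fun i => -z i) (A := B.reverse) (B := A.reverse) (p := p) (c := c) (d := d)
    (hperm.nodup_iff.1 hn) (fun h => hc (hperm.mem_iff.2 h)) (fun h => hd (hperm.mem_iff.2 h)) hcd
    (gz_neg (hG.perm hperm2))).refl
  have e : 2 * (A ++ B).length + 2 * B.length =
      2 * (B.reverse ++ A.reverse).length + 2 * B.reverse.length := by
    simp only [List.length_append, List.length_reverse]
    ring
  rw [e]
  have hp : p ∉ A ++ B := by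
    have h := (List.perm_middle (l₁ := A) (l₂ := B) (a := p)).nodup_iff.1 hn
    exact (List.nodup_cons.1 h).1
  refine h1.congr ((ae_gz hp hG).mono fun s hs => ?_)
  have hs' : Gz (Function.update z p s) (A ++ p :: B) := hs.perm List.perm_middle.symm
  have hrev := PH_rev hn hc hd hcd hs'
  have ez : (fun i => -Function.update z p s i) = Function.update (fun i => -z i) p (-s) := by
    funext i
    by_cases h : i = p
    · rw [h, Function.update_self, Function.update_self]
    · rw [Function.update_of_ne h, Function.update_of_ne h]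
  rw [DB_eq, ← hrev, er, ez]

/-! ### The two denominators -/

omit [DecidableEq α] [Finite α] in
theorem DA_DB (hAB : ∀ a ∈ A, ∀ b ∈ B, a ≠ b) (hG : Gk z (A ++ B)) (s : ℂ) :
    DA z A s ≠ 0 ∨ DB z B s ≠ 0 := by
  by_contra hcon
  push Not at hcon
  obtain ⟨h1, h2⟩ := hcon
  obtain ⟨a, ha, h3⟩ := DA_zero h1
  rw [DB_eq] at h2
  obtain ⟨b, hb, h4⟩ := DA_zero h2
  rw [List.mem_reverse] at hb
  have key : ∀ k : ℤ, sin (z b - z a + k * lam) ≠ 0 :=
    hG b (by simp [hb]) a (by simp [ha]) (hAB a ha b hb).symm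
  have hadd : ∀ x y : ℂ, sin x = 0 → sin y = 0 → sin (x + y) = 0 := fun x y hx hy => by
    rw [Complex.sin_add, hx, hy]
    ring
  unfold Fm.Dn at h3 h4
  rcases mul_eq_zero.1 h3 with h3 | h3 <;> rcases mul_eq_zero.1 h4 with h4 | h4
  · apply key 4
    have := hadd _ _ h3 h4
    convert this using 2
    push_cast
    ring
  · apply key 5
    have := hadd _ _ h3 h4
    convert this using 2
    push_cast
    ring
  · apply key 5
    have := hadd _ _ h3 h4
    convert this using 2
    push_cast
    ring
  · apply key 6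
    have := hadd _ _ h3 h4
    convert this using 2
    push_cast
    ring

/-! ### The degree -/

omit [DecidableEq α] [Finite α] in
theorem go_cont {f g : ℂ → ℂ} {s : ℂ} (hf : ContinuousAt f s) (hg : Continuous g)
    (h : Ae fun t => f t = g t) : f s = g s :=
  tendsto_nhds_unique_of_eventuallyEq (hf.mono_left nhdsWithin_le_nhds)
    (hg.continuousAt.mono_left nhdsWithin_le_nhds) (h s)

/-- **The degree, one state.** -/
theorem PH_deg (hn : (A ++ p :: B).Nodup) (hc : c ∉ A ++ p :: B) (hd : d ∉ A ++ p :: B) (hcd : c ≠ d)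
    (hG : Gk z (A ++ B)) (q : Pat α) : ∃ g, TP (2 * (A ++ B).length + dg p q) g ∧
      ∀ s, Go (Function.update z p s) (A ++ p :: B) →
        PH (Function.update z p s) (A ++ p :: B) (HS.ind q) = g s := by
  obtain ⟨NA, a1, a2⟩ := PH_upA hn hc hd hcd hG.gz q
  obtain ⟨NB, b1, b2⟩ := PH_dnB hn hc hd hcd hG.gz q
  have hAB : ∀ a ∈ A, ∀ b ∈ B, a ≠ b := fun a ha b hb => by
    have := (List.nodup_append.1 hn).2.2
    exact this a ha b (by simp [hb])
  have hcr : ∀ s, NA s * DB z B s = NB s * DA z A s :=
    Ae.eq ((TP.cont a1).mul (DB_cont z B)) ((TP.cont b1).mul (DA_cont z A))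
      ((a2.and b2).mono fun s hs => by
        rw [← hs.1, ← hs.2]
        simp only [LinearMap.smul_apply, smul_eq_mul]
        ring)
  obtain ⟨g, g1, g2, g3⟩ := glue (TP.cont a1) (DA_cont z A) (TP.cont b1) (DB_cont z B) hcr
    (DA_DB hAB hG)
  refine ⟨g, TP.div (lA z A) (h := NA) ?_ g1 fun s => ?_, fun s hs => ?_⟩
  · rw [lA_len]
    rwa [show 2 * (A ++ B).length + dg p q + 2 * A.length =
      2 * (A ++ B).length + 2 * A.length + dg p q by ring]
  · rw [lA_prod]
    exact g2 s
  · have hzd : ∀ x ∈ A ++ p :: B, DifferentiableAt ℂ (fun s => Function.update z p s x) s :=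
      fun x _ => upd_same_diff z p x s
    refine go_cont (f := fun s => PH (Function.update z p s) (A ++ p :: B) (HS.ind q))
      (PH_dtO hn hzd hs (HS.ind q)).continuousAt g1 ?_
    have hDA : Ae fun s => DA z A s ≠ 0 := (ae_fb z A).mono fun s hs => DA_ne fun a ha => (hs a ha).2.1
    refine (a2.and hDA).mono fun t ht => ?_
    have h1 := ht.1
    simp only [LinearMap.smul_apply, smul_eq_mul] at h1
    rw [← g2 t, mul_comm] at h1
    exact mul_right_cancel₀ ht.2 h1

/-- a functional on the states with given occupation -/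
theorem deg_fin {V : ℂ → Fnl α} {G : ℂ → Prop} {k : ℕ} (F : Pat α → ℂ)
    (h : ∀ q : Pat α, F q ≠ 0 → ∃ g, TP k g ∧ ∀ s, G s → V s (HS.ind q) = g s) :
    ∃ g, TP k g ∧ ∀ s, G s → V s F = g s := by
  classical
  have : Fintype (Pat α) := Fintype.ofFinite _
  have h' : ∀ q : Pat α, ∃ g, TP k g ∧ ∀ s, G s → F q * V s (HS.ind q) = g s := by
    intro q
    by_cases hq : F q = 0
    · exact ⟨_, TP.zero k, fun s _ => by rw [hq, zero_mul]⟩
    · obtain ⟨g, h1, h2⟩ := h q hq
      exact ⟨_, h1.cmul (F q), fun s hs => by rw [h2 s hs]⟩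
  choose g g1 g2 using h'
  refine ⟨_, TP.sum Finset.univ fun q _ => g1 q, fun s hs => ?_⟩
  rw [fnl_sum (V s) F]
  exact Finset.sum_congr rfl fun q _ => g2 q s hs

/-- **The degree, `p` empty.** -/
theorem PH_degE (hn : (A ++ p :: B).Nodup) (hc : c ∉ A ++ p :: B) (hd : d ∉ A ++ p :: B) (hcd : c ≠ d)
    (hG : Gk z (A ++ B)) (F : Pat α → ℂ) : ∃ g, TP (2 * (A ++ B).length) g ∧
      ∀ s, Go (Function.update z p s) (A ++ p :: B) →
        PH (Function.update z p s) (A ++ p :: B) (opE ℂ p F) = g s := by
  refine deg_fin (G := fun s => Go (Function.update z p s) (A ++ p :: B)) _ fun q hq => ?_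
  have h1 : q p = p := by
    by_contra h
    rw [opE_apply, if_neg h] at hq
    exact hq rfl
  have := PH_deg hn hc hd hcd hG q
  rwa [dg_e h1, add_zero] at this

/-- **The degree, `p` occupied.** -/
theorem PH_degO (hn : (A ++ p :: B).Nodup) (hc : c ∉ A ++ p :: B) (hd : d ∉ A ++ p :: B) (hcd : c ≠ d)
    (hG : Gk z (A ++ B)) (F : Pat α → ℂ) : ∃ g, TP (2 * (A ++ B).length + 1) g ∧
      ∀ s, Go (Function.update z p s) (A ++ p :: B) →
        PH (Function.update z p s) (A ++ p :: B) (F - opE ℂ p F) = g s := by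
  refine deg_fin (G := fun s => Go (Function.update z p s) (A ++ p :: B)) _ fun q hq => ?_
  have h1 : q p ≠ p := by
    intro h
    rw [Pi.sub_apply, opE_apply, if_pos h, sub_self] at hq
    exact hq rfl
  have := PH_deg hn hc hd hcd hG q
  rwa [dg_o h1] at this

end Pool.Agent.TC
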