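import Pool.Agent.NUU.Fuse
import Pool.Agent.NUF.FarS

/-!
# A far line at the bottom of a half strip (helper22)

`fp z b u X` = the functional of the rows `b :: X`, `u` = the frame rapidity of `b`.  `oc b` = the projection on
the functions that vanish when `b` is empty.  `PS0 z b X` = the top coefficient of `fp z b u X ∘ oc b`: the
functional of the half strip `X` with one strand that leaves at the site `b` below the lines `X`.
-/

set_option autoImplicit false

namespace Pool.Agent.TC

open _root_.Pool.Agent.EXL _root_.Pool.Agent.EXL.Pat Filter Topology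
open _root_.Pool.Agent.EXL.Fm (lam)
open _root_.Pool.Agent.NUF _root_.Pool.Agent.NUU
open Complex (I exp sin cos)

variable {α : Type*} [DecidableEq α] {z z' : α → ℂ} {X Y : List α} {p q b c d : α} {u u' : ℂ}

/-! ### The projections -/

/-- The site `b` is occupied. -/
noncomputable def oc (b : α) : Module.End ℂ (Pat α → ℂ) := 1 - uops.E b

theorem E_ap (F : Pat α → ℂ) (s : Pat α) : (uops.E b F : Pat α → ℂ) s = if s b = b then F s else 0 := by
  rw [uops_E_apply]
  rfl

theorem oc_ap (F : Pat α → ℂ) (s : Pat α) : oc b F s = if s b = b then 0 else F s := by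
  show F s - (uops.E b F : Pat α → ℂ) s = _
  rw [E_ap]
  split_ifs <;> simp

theorem E_oc : uops.E b * oc b = 0 := by
  refine LinearMap.ext fun F => funext fun s => ?_
  rw [Module.End.mul_apply, E_ap, oc_ap]
  split_ifs <;> rfl

theorem oc_oc : oc b * oc b = oc b := by
  refine LinearMap.ext fun F => funext fun s => ?_
  rw [Module.End.mul_apply, oc_ap, oc_ap]
  split_ifs <;> rfl

theorem E_add_oc : uops.E b + oc b = 1 := by
  unfold oc
  abel

theorem cu_ap (i j : α) (F : Pat α → ℂ) (s : Pat α) :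
    opCu ℂ i j F s = if s i = i ∧ s j = j then F (cup i j s) else 0 := rfl

theorem cup_ne {i j : α} {s : Pat α} (h1 : s i = i) (h2 : s j = j) : cup i j s i = j := by
  simp [cup, h1, h2]

theorem cu_E {i : α} (hbi : b ≠ i) : opCu ℂ b i * uops.E b = 0 := by
  refine LinearMap.ext fun F => funext fun s => ?_
  rw [Module.End.mul_apply, cu_ap]
  split_ifs with h
  · rw [E_ap, cup_ne h.1 h.2, if_neg hbi.symm]
    rfl
  · rfl

theorem cu_oc {i : α} (hbi : b ≠ i) : opCu ℂ b i * oc b = opCu ℂ b i := by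
  rw [oc, mul_sub, mul_one, cu_E hbi, sub_zero]

theorem oE_E {i : α} (hb : b ∉ X) (hi : i ∈ X) : Commute (oE uops z X i) (uops.E b) := by
  unfold oE
  refine Glob.Ops.M_commute _ fun r hr => ?_
  obtain ⟨h1, h2⟩ := below_subset r hr
  exact ulaws.cRE (fun e => hb (e ▸ hi)) fun e => hb (e ▸ h1)

theorem oE_oc {i : α} (hb : b ∉ X) (hi : i ∈ X) : Commute (oE uops z X i) (oc b) := by
  unfold oc
  exact (Commute.one_right _).sub_right (oE_E hb hi)

theorem sup_oc {V : Fnl α} (h : Sup X V) (hb : b ∉ X) : V ∘ₗ oc b = 0 := by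
  refine LinearMap.ext fun F => ?_
  rw [LinearMap.comp_apply, LinearMap.zero_apply]
  exact h _ fun s hs => by rw [oc_ap, if_pos (ax_out hs hb)]

theorem sup_E {V : Fnl α} (h : Sup X V) (hb : b ∉ X) : V ∘ₗ uops.E b = V := by
  refine LinearMap.ext fun F => ?_
  rw [LinearMap.comp_apply]
  exact h.congr fun s hs => by rw [E_ap, if_pos (ax_out hs hb)]

/-! ### The functional with a far line -/

/-- The functional of the rows `b :: X`, `u` = the frame rapidity of `b`. -/
noncomputable def fp (z : α → ℂ) (b : α) (u : ℂ) (X : List α) : Fnl α :=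
  Fr.Dl (ux z) u X.toFinset • PH z X + ∑ i ∈ X.toFinset, (PH z (X.erase i) ∘ₗ
    (jn b i (Fr.wt (ux z) i (X.toFinset.erase i) * Fr.Dl (ux z) u (X.toFinset.erase i) *
      Fr.fe (ux z i)) (Fr.wt (ux z) i (X.toFinset.erase i) *
      Fr.Dl (ux z) u (X.toFinset.erase i) * Fr.fa u) * oE uops z X i))

/-- The functional of the half strip with one strand that leaves at `b` below the lines `X`. -/
noncomputable def PS0 (z : α → ℂ) (b : α) (X : List α) : Fnl α :=
  ∑ i ∈ X.toFinset, Fr.wt (ux z) i (X.toFinset.erase i) •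
    (PH z (X.erase i) ∘ₗ (opCu ℂ b i * oE uops z X i))

theorem PH_fp : PH z (b :: X) = fp z b (ux z b) X := PH_cons

theorem fp_congr (hn : X.Nodup) (h : ∀ x ∈ X, z x = z' x) : fp z b u X = fp z' b u X := by
  have hu : ∀ x ∈ X.toFinset, ux z x = ux z' x := fun x hx => by
    unfold ux
    rw [h x (List.mem_toFinset.1 hx)]
  unfold fp
  rw [PH_congr h, Dl_congr hu]
  congr 1
  refine Finset.sum_congr rfl fun i hi => ?_
  have hi' := List.mem_toFinset.1 hi
  have hY : ∀ k ∈ X.toFinset.erase i, ux z k = ux z' k := fun k hk => hu k (Finset.mem_of_mem_erase hk)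
  rw [PH_congr fun x hx => h x (List.mem_of_mem_erase hx), Dl_congr hY, wt_congr (hu i hi) hY, hu i hi,
    oE_congr (h i hi') h]

theorem PS0_congr (hn : X.Nodup) (h : ∀ x ∈ X, z x = z' x) : PS0 z b X = PS0 z' b X := by
  have hu : ∀ x ∈ X.toFinset, ux z x = ux z' x := fun x hx => by
    unfold ux
    rw [h x (List.mem_toFinset.1 hx)]
  unfold PS0
  refine Finset.sum_congr rfl fun i hi => ?_
  have hi' := List.mem_toFinset.1 hi
  have hY : ∀ k ∈ X.toFinset.erase i, ux z k = ux z' k := fun k hk => hu k (Finset.mem_of_mem_erase hk)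
  rw [PH_congr fun x hx => h x (List.mem_of_mem_erase hx), wt_congr (hu i hi) hY,
    oE_congr (h i hi') h]

theorem PH_upd (hn : (b :: X).Nodup) (w : ℂ) :
    PH (Function.update z b w) (b :: X) = fp z b (3 * Real.pi / 16 - w) X := by
  obtain ⟨hb, hX⟩ := List.nodup_cons.1 hn
  have e : ux (Function.update z b w) b = 3 * Real.pi / 16 - w := by
    unfold ux
    rw [Function.update_self]
  rw [PH_fp, e]
  refine fp_congr hX fun x hx => ?_
  rw [Function.update_of_ne]
  rintro rfl
  exact hb hx

/-- The functionals of all the sublists obtained by deleting a line are supported on the planar states. -/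
def SupA (z : α → ℂ) (X : List α) : Prop := Sup X (PH z X) ∧ ∀ i ∈ X, Sup (X.erase i) (PH z (X.erase i))

theorem supA [Finite α] (hn : X.Nodup) (hc : c ∉ X) (hd : d ∉ X) (hcd : c ≠ d) (hG : Gz z X) :
    SupA z X := by
  refine ⟨PH_sup hn hc hd hcd hG, fun i _ => PH_sup (hn.erase i) (fun h => hc (List.mem_of_mem_erase h))
    (fun h => hd (List.mem_of_mem_erase h)) hcd (hG.sub fun x hx => List.mem_of_mem_erase hx)⟩

theorem fp_E (hb : b ∉ X) (hS : SupA z X) : fp z b u X ∘ₗ uops.E b =
    Fr.Dl (ux z) u X.toFinset • PH z X + ∑ i ∈ X.toFinset, (Fr.wt (ux z) i (X.toFinset.erase i) *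
      Fr.Dl (ux z) u (X.toFinset.erase i) * Fr.fe (ux z i)) • (PH z (X.erase i) ∘ₗ oE uops z X i) := by
  refine LinearMap.ext fun F => ?_
  have h1 : PH z X (uops.E b F) = PH z X F := LinearMap.congr_fun (sup_E hS.1 hb) F
  have h2 : ∀ i ∈ X.toFinset, PH z (X.erase i) (oE uops z X i (uops.E b F)) =
      PH z (X.erase i) (oE uops z X i F) := fun i hi => by
    have hi' := List.mem_toFinset.1 hi
    have e := LinearMap.congr_fun (oE_E (z := z) hb hi').eq F
    rw [Module.End.mul_apply, Module.End.mul_apply] at e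
    rw [e]
    exact LinearMap.congr_fun (sup_E (hS.2 i hi') fun h => hb (List.mem_of_mem_erase h)) _
  have h3 : ∀ i ∈ X.toFinset, opCu ℂ b i (oE uops z X i (uops.E b F)) = 0 := fun i hi => by
    have hi' := List.mem_toFinset.1 hi
    have e := LinearMap.congr_fun (oE_E (z := z) hb hi').eq F
    rw [Module.End.mul_apply, Module.End.mul_apply] at e
    rw [e]
    exact LinearMap.congr_fun (cu_E (b := b) (i := i) fun e => hb (e ▸ hi')) _
  unfold fp
  simp only [LinearMap.comp_apply, LinearMap.add_apply, LinearMap.smul_apply, LinearMap.sum_apply,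
    Module.End.mul_apply, jn, Module.End.one_apply, map_add, map_smul, smul_eq_mul]
  rw [h1]
  congr 1
  refine Finset.sum_congr rfl fun i hi => ?_
  rw [h2 i hi, h3 i hi, map_zero, mul_zero, add_zero]

theorem fp_oc (hb : b ∉ X) (hS : SupA z X) : fp z b u X ∘ₗ oc b =
    Fr.fa u • ∑ i ∈ X.toFinset, (Fr.wt (ux z) i (X.toFinset.erase i) *
      Fr.Dl (ux z) u (X.toFinset.erase i)) • (PH z (X.erase i) ∘ₗ (opCu ℂ b i * oE uops z X i)) := by
  refine LinearMap.ext fun F => ?_
  have h1 : PH z X (oc b F) = 0 := LinearMap.congr_fun (sup_oc hS.1 hb) F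
  have h2 : ∀ i ∈ X.toFinset, PH z (X.erase i) (oE uops z X i (oc b F)) = 0 := fun i hi => by
    have hi' := List.mem_toFinset.1 hi
    have e := LinearMap.congr_fun (oE_oc (z := z) hb hi').eq F
    rw [Module.End.mul_apply, Module.End.mul_apply] at e
    rw [e]
    exact LinearMap.congr_fun (sup_oc (hS.2 i hi') fun h => hb (List.mem_of_mem_erase h)) _
  have h3 : ∀ i ∈ X.toFinset, opCu ℂ b i (oE uops z X i (oc b F)) = opCu ℂ b i (oE uops z X i F) :=
    fun i hi => by
    have hi' := List.mem_toFinset.1 hi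
    have e := LinearMap.congr_fun (oE_oc (z := z) hb hi').eq F
    rw [Module.End.mul_apply, Module.End.mul_apply] at e
    rw [e]
    exact LinearMap.congr_fun (cu_oc (b := b) (i := i) fun e => hb (e ▸ hi')) _
  unfold fp
  simp only [LinearMap.comp_apply, LinearMap.add_apply, LinearMap.smul_apply, LinearMap.sum_apply,
    Module.End.mul_apply, jn, Module.End.one_apply, map_add, map_smul, smul_eq_mul]
  rw [h1, mul_zero, zero_add, Finset.mul_sum]
  refine Finset.sum_congr rfl fun i hi => ?_
  rw [h2 i hi, h3 i hi]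
  ring

theorem fp_split : fp z b u X = fp z b u X ∘ₗ uops.E b + fp z b u X ∘ₗ oc b := by
  refine LinearMap.ext fun F => ?_
  rw [LinearMap.add_apply, LinearMap.comp_apply, LinearMap.comp_apply, ← map_add]
  congr 1
  exact (LinearMap.congr_fun (E_add_oc (b := b)) F).symm

theorem dl_cf_congr (h : cf u = cf u') (x : ℂ) : Fr.dl u x = Fr.dl u' x := by
  rw [dl_cf, dl_cf, h]

theorem Dl_cf_congr (h : cf u = cf u') (x : α → ℂ) (S : Finset α) : Fr.Dl x u S = Fr.Dl x u' S := by
  unfold Fr.Dl
  exact Finset.prod_congr rfl fun k _ => dl_cf_congr h _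

/-- **Reflection of the lowest line**, in terms of its frame rapidity. -/
theorem fp_refl (hb : b ∉ X) (hS : SupA z X) (h : cf u = cf u') (hu : Fr.fa u ≠ 0) :
    fp z b u' X = fp z b u X ∘ₗ (uops.E b + (Fr.fa u' / Fr.fa u) • oc b) := by
  have e1 : fp z b u' X ∘ₗ uops.E b = fp z b u X ∘ₗ uops.E b := by
    rw [fp_E hb hS, fp_E hb hS, Dl_cf_congr h]
    congr 1
    exact Finset.sum_congr rfl fun i _ => by rw [Dl_cf_congr h]
  have e2 : fp z b u' X ∘ₗ oc b = (Fr.fa u' / Fr.fa u) • (fp z b u X ∘ₗ oc b) := by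
    rw [fp_oc hb hS, fp_oc hb hS, smul_smul, div_mul_cancel₀ _ hu]
    congr 1
    exact Finset.sum_congr rfl fun i _ => by rw [Dl_cf_congr h]
  rw [fp_split, e1, e2]
  refine LinearMap.ext fun F => ?_
  simp only [LinearMap.comp_apply, LinearMap.add_apply, LinearMap.smul_apply, map_add, map_smul]

/-! ### The limits -/

section lim

variable {β : Type*} {l : Filter β} {f : β → ℝ}

/-- **The leading order**: the far line is transparent. -/
theorem fp_lim (hf : Tendsto f l atTop) (x : ℂ) (z : α → ℂ) (X : List α) (b : α) :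
    LmF l (fun t => (TT (f t) ^ X.toFinset.card)⁻¹ • fp z b (x - 1 * (f t * I)) X)
      (ex 1 (2 * x - 3 * lam) ^ X.toFinset.card • PH z X) := by
  set n := X.toFinset.card with hn
  have h1 := Dl_lim hf (σ := 1) (Or.inl rfl) x (ux z) X.toFinset
  have hcard : ∀ i ∈ X.toFinset, n = (X.toFinset.erase i).card + 1 := fun i hi => by
    rw [Finset.card_erase_of_mem hi]
    have := Finset.card_pos.2 ⟨i, hi⟩
    omega
  have h2 : ∀ i ∈ X.toFinset, Tendsto (fun t => Fr.Dl (ux z) (x - 1 * (f t * I)) (X.toFinset.erase i) /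
      TT (f t) ^ n) l (𝓝 0) := by
    intro i hi
    have := (Dl_lim hf (σ := 1) (Or.inl rfl) x (ux z) (X.toFinset.erase i)).mul (TT_inv_lim hf 1)
    rw [mul_zero] at this
    refine this.congr fun t => ?_
    rw [hcard i hi, div_mul_div_comm, mul_one, pow_succ]
  have h3 : ∀ i ∈ X.toFinset, Tendsto (fun t => Fr.fa (x - 1 * (f t * I)) *
      (Fr.Dl (ux z) (x - 1 * (f t * I)) (X.toFinset.erase i) / TT (f t) ^ n)) l (𝓝 0) := by
    intro i hi
    have := (Dl_lim hf (σ := 1) (Or.inl rfl) x (ux z) (X.toFinset.erase i)).mul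
      (small_lim hf (fa_lim hf (σ := 1) (Or.inl rfl) x))
    rw [mul_zero] at this
    refine this.congr fun t => ?_
    rw [hcard i hi, div_mul_div_comm, pow_succ, ← mul_div_assoc]
    congr 1
    ring
  have H1 := LmF.smulc h1 (PH z X)
  have H2 := LmF.sum X.toFinset fun i hi => LmF.smulc
    ((h2 i hi).const_mul (Fr.wt (ux z) i (X.toFinset.erase i) * Fr.fe (ux z i)))
      (PH z (X.erase i) ∘ₗ oE uops z X i)
  have H3 := LmF.sum X.toFinset fun i hi => LmF.smulc
    ((h3 i hi).const_mul (Fr.wt (ux z) i (X.toFinset.erase i)))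
      (PH z (X.erase i) ∘ₗ (opCu ℂ b i * oE uops z X i))
  refine (((H1.add H2).add H3).congr fun t => ?_).zero_of ?_
  · unfold fp
    refine LinearMap.ext fun F => ?_
    simp only [LinearMap.add_apply, LinearMap.smul_apply, LinearMap.sum_apply, smul_eq_mul, mul_add,
      Finset.mul_sum, LinearMap.comp_apply, Module.End.mul_apply, jn, Module.End.one_apply, map_add,
      map_smul]
    rw [add_assoc, ← Finset.sum_add_distrib]
    congr 1
    · ring
    · refine Finset.sum_congr rfl fun i _ => ?_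
      ring
  · simp only [mul_zero, zero_smul, Finset.sum_const_zero, add_zero, ← hn]

/-- **The joined part.** -/
theorem fp_oc_lim (hf : Tendsto f l atTop) (hb : b ∉ X) (hS : SupA z X) (x : ℂ) :
    LmF l (fun t => (exp (f t) * (TT (f t) ^ X.toFinset.card)⁻¹) •
        (fp z b (x - 1 * (f t * I)) X ∘ₗ oc b))
      ((ex 1 x / I * ex 1 (2 * x - 3 * lam) ^ (X.toFinset.card - 1)) • PS0 z b X) := by
  set n := X.toFinset.card with hn
  have hcard : ∀ i ∈ X.toFinset, n = (X.toFinset.erase i).card + 1 := fun i hi => by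
    rw [Finset.card_erase_of_mem hi]
    have := Finset.card_pos.2 ⟨i, hi⟩
    omega
  have h3 : ∀ i ∈ X.toFinset, Tendsto (fun t => 2 * (Fr.fa (x - 1 * (f t * I)) / exp (f t)) *
      (Fr.Dl (ux z) (x - 1 * (f t * I)) (X.toFinset.erase i) / TT (f t) ^ (n - 1))) l
        (𝓝 (ex 1 x / I * ex 1 (2 * x - 3 * lam) ^ (n - 1))) := by
    intro i hi
    have h := ((fa_lim hf (σ := 1) (Or.inl rfl) x).const_mul 2).mul
      (Dl_lim hf (σ := 1) (Or.inl rfl) x (ux z) (X.toFinset.erase i))
    have e : (X.toFinset.erase i).card = n - 1 := by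
      have := hcard i hi
      omega
    rw [e] at h
    have e2 : 2 * (1 * ex 1 x / (2 * I)) = ex 1 x / I := by
      have hI : (I : ℂ) ≠ 0 := Complex.I_ne_zero
      field_simp
    rw [e2] at h
    exact h
  have H3 := LmF.sum X.toFinset fun i hi => LmF.smulc
    ((h3 i hi).const_mul (Fr.wt (ux z) i (X.toFinset.erase i)))
      (PH z (X.erase i) ∘ₗ (opCu ℂ b i * oE uops z X i))
  refine (H3.congr fun t => ?_).zero_of ?_
  · rw [fp_oc hb hS, smul_smul, Finset.smul_sum]
    refine Finset.sum_congr rfl fun i hi => ?_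
    rw [smul_smul]
    congr 1
    have h1 := exp_sq (f t)
    have h2 := TT_ne (f t)
    have h4 : exp (f t : ℂ) ≠ 0 := Complex.exp_ne_zero _
    have e : TT (f t) ^ n = TT (f t) ^ (n - 1) * TT (f t) := by
      rw [← pow_succ]
      congr 1
      have := hcard i hi
      omega
    rw [e]
    have h5 := pow_ne_zero (n - 1) h2
    field_simp
    linear_combination (-(Fr.wt (ux z) i (X.toFinset.erase i) *
      Fr.Dl (ux z) (x - f t * I) (X.toFinset.erase i) * Fr.fa (x - f t * I))) * h1
  · unfold PS0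
    rw [Finset.smul_sum]
    refine Finset.sum_congr rfl fun i _ => ?_
    rw [smul_smul, mul_comm]

end lim

end Pool.Agent.TC
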