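import Pool.Agent.TC.Ord
import Pool.Agent.TC.FarB

/-!
# The exit functional of a half strip (helper92)

`PS z b X`: the states of the lines `X` and of the exit site `b` (below all lines; the strand which ends at `b`
leaves the half strip through the floor).  `PS z b X = (1 / (2 sin 2λ)) ∑ i, wt i (X - i) F_i PH (X - i)`.
By `PH_consP` it is the leading coefficient, as the rapidity of `b` tends to infinity, of the part of the
zero-leg functional `PH z (b :: X)` in which the line `b` is occupied.
-/

set_option autoImplicit false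

namespace Pool.Agent.TC

open _root_.Pool.Agent.EXL _root_.Pool.Agent.EXL.Pat Filter Topology
open _root_.Pool.Agent.EXL.Fm (lam)
open _root_.Pool.Agent.NUF _root_.Pool.Agent.NUU _root_.Pool.Agent.NUTV
open Polynomial (C natDegree)

variable {α : Type*} [DecidableEq α] {z z' : α → ℂ} {X Y A B : List α} {b c d i j k p q : α}

/-- The exit site `b` is joined to the line `i`. -/
noncomputable def psT (z : α → ℂ) (b : α) (X : List α) (i : α) : Fnl α :=
  Fr.wt (ux z) i (X.toFinset.erase i) • (PH z (X.erase i) ∘ₗ (opCu ℂ b i * oE uops z X i))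

/-- **The exit functional.** -/
noncomputable def PS (z : α → ℂ) (b : α) (X : List α) : Fnl α := (2 * Fr.s2)⁻¹ • PS0 z b X

theorem PS_eq (z : α → ℂ) (b : α) (X : List α) :
    PS z b X = (2 * Fr.s2)⁻¹ • ∑ i ∈ X.toFinset, psT z b X i := rfl

theorem s2_ne : (2 * Fr.s2 : ℂ) ≠ 0 := by
  intro h
  have h1 := Fr.s2_sq
  have h2 : Fr.s2 = 0 := by
    rcases mul_eq_zero.1 h with h | h
    · exact absurd h two_ne_zero
    · exact h
  rw [h2] at h1
  norm_num at h1

/-! ### Dependence on the rapidities -/

theorem psT_congr (h : ∀ x ∈ X, z x = z' x) (hi : i ∈ X) : psT z b X i = psT z' b X i := by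
  have hx : ∀ x ∈ X, ux z x = ux z' x := fun x hx => by
    unfold ux
    rw [h x hx]
  unfold psT
  rw [wt_congr (hx i hi) fun k hk => hx k (List.mem_toFinset.1 (Finset.mem_of_mem_erase hk)),
    PH_congr fun x hx => h x (List.mem_of_mem_erase hx), oE_congr (h i hi) h]

theorem PS_congr (h : ∀ x ∈ X, z x = z' x) : PS z b X = PS z' b X := by
  rw [PS_eq, PS_eq]
  rw [Finset.sum_congr rfl fun i hi => psT_congr h (List.mem_toFinset.1 hi)]

/-- **Analyticity.** -/
theorem psT_dt [Finite α] {zs : ℂ → α → ℂ} {t : ℂ} (hn : X.Nodup)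
    (hz : ∀ x ∈ X, DifferentiableAt ℂ (fun s => zs s x) t) (hG : Go (zs t) X) (hi : i ∈ X) :
    DtF (fun s => psT (zs s) b X i) t := by
  have hx : ∀ x ∈ X.toFinset, DifferentiableAt ℂ (fun s => ux (zs s) x) t := fun x hx => by
    unfold ux
    exact (hz x (List.mem_toFinset.1 hx)).const_sub _
  have hi' : i ∈ X.toFinset := List.mem_toFinset.2 hi
  unfold psT
  refine DtF.smul ?_ (DtF.comp (PH_dtO (hn.erase i) (fun x hx => hz x (List.mem_of_mem_erase hx))
    (hG.subl List.erase_sublist)) (DtE.mul (DtE.const _) ?_))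
  · unfold Fr.wt
    refine ((dt_fa' (hx i hi')).const_mul _).mul (DifferentiableAt.fun_finsetProd fun k hk => ?_)
    have hk' := Finset.mem_erase.1 hk
    refine dt_pr (hx k hk'.2) (hx i hi') ?_
    have := hG.sin hi (List.mem_toFinset.1 hk'.2) hk'.1.symm
    unfold ux
    rwa [sub_sub_sub_cancel_left]
  · unfold oE
    refine dt_M fun r hr => ?_
    obtain ⟨k1, k2⟩ := below_subset r hr
    exact dt_R k2.symm ((hz i hi).sub (hz r k1)) (hG.below hi hr).2

theorem PS_dt [Finite α] {zs : ℂ → α → ℂ} {t : ℂ} (hn : X.Nodup)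
    (hz : ∀ x ∈ X, DifferentiableAt ℂ (fun s => zs s x) t) (hG : Go (zs t) X) :
    DtF (fun s => PS (zs s) b X) t := by
  simp only [PS_eq]
  exact DtF.smul (differentiableAt_const _)
    (DtF.sum _ fun i hi => psT_dt hn hz hG (List.mem_toFinset.1 hi))

/-! ### The part with an occupied lowest line -/

section joined

variable [Finite α]

/-- the exit site is occupied -/
theorem psT_E (hn : (b :: X).Nodup) (hi : i ∈ X) (F : Pat α → ℂ) : psT z b X i (opE ℂ b F) = 0 := by
  have hn1 := List.nodup_cons.1 hn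
  have hbi : b ≠ i := fun e => hn1.1 (e ▸ hi)
  have hcomm : oE uops z X i (opE ℂ b F) = opE ℂ b (oE uops z X i F) := by
    have h := (HLaws.oE_E (z := z) ulaws (k := b) hbi hn1.1 (i := i) (X := X)).eq
    rw [uops_E] at h
    exact LinearMap.congr_fun h F
  have hcu : opCu ℂ b i (opE ℂ b (oE uops z X i F)) = 0 := by
    funext q
    rw [opCu_apply]
    split_ifs with h
    · rw [opE_apply, if_neg]
      · rfl
      · rw [cup_apply h, if_pos rfl]
        exact hbi.symm
    · rfl
  rw [psT, LinearMap.smul_apply, LinearMap.comp_apply, Module.End.mul_apply, hcomm, hcu, map_zero,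
    smul_zero]

theorem PS_E (hn : (b :: X).Nodup) (F : Pat α → ℂ) : PS z b X (opE ℂ b F) = 0 := by
  rw [PS_eq, LinearMap.smul_apply, LinearMap.sum_apply, Finset.sum_eq_zero, smul_zero]
  exact fun i hi => psT_E hn (List.mem_toFinset.1 hi) F

/-- **The part of the zero-leg functional in which the lowest line `b` is occupied.** -/
theorem PH_consO (hn : (b :: X).Nodup) (hc : c ∉ X) (hd : d ∉ X) (hcd : c ≠ d) (hG : Go z X)
    (F : Pat α → ℂ) : PH z (b :: X) (F - opE ℂ b F) = ∑ i ∈ X.toFinset,
      (Fr.fa (ux z b) * Fr.Dl (ux z) (ux z b) (X.toFinset.erase i)) * psT z b X i F := by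
  have hn1 := List.nodup_cons.1 hn
  have hSup : ∀ (Z : List α), Z.Sublist X → b ∉ Z → ∀ G : Pat α → ℂ,
      PH z Z (G - opE ℂ b G) = 0 := by
    intro Z hZ hp G
    have hS := PH_supO (z := z) (X := Z) (hn1.2.sublist hZ) (fun h => hc (hZ.subset h))
      (fun h => hd (hZ.subset h)) hcd (hG.subl hZ)
    apply hS
    intro q hq
    have h1 : q b = b := ax_out hq hp
    rw [Pi.sub_apply, opE_apply, if_pos h1, sub_self]
  rw [PH_cons, LinearMap.add_apply, LinearMap.smul_apply, hSup X (List.Sublist.refl X) hn1.1,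
    smul_zero, zero_add, LinearMap.sum_apply]
  refine Finset.sum_congr rfl fun i hi => ?_
  have hiX := List.mem_toFinset.1 hi
  have hbi : b ≠ i := fun e => hn1.1 (e ▸ hiX)
  have hcomm : oE uops z X i (opE ℂ b F) = opE ℂ b (oE uops z X i F) := by
    have h := (HLaws.oE_E (z := z) ulaws (k := b) hbi hn1.1 (i := i) (X := X)).eq
    rw [uops_E] at h
    exact LinearMap.congr_fun h F
  have hcu : opCu ℂ b i (opE ℂ b (oE uops z X i F)) = 0 := by
    funext q
    rw [opCu_apply]
    split_ifs with h
    · rw [opE_apply, if_neg]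
      · rfl
      · rw [cup_apply h, if_pos rfl]
        exact hbi.symm
    · rfl
  rw [psT, LinearMap.comp_apply, Module.End.mul_apply, map_sub, hcomm, jn, LinearMap.add_apply,
    LinearMap.smul_apply, LinearMap.smul_apply, Module.End.one_apply, map_add, map_smul, map_smul,
    hSup _ List.erase_sublist (fun h => hn1.1 (List.mem_of_mem_erase h)), map_sub, hcu, sub_zero,
    smul_zero, zero_add, LinearMap.smul_apply, LinearMap.comp_apply, Module.End.mul_apply, smul_eq_mul,
    smul_eq_mul]
  ring

end joined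

/-! ### The polynomial -/

/-- the polynomial in `cf (ux z b)` -/
noncomputable def psP (z : α → ℂ) (b : α) (X : List α) (F : Pat α → ℂ) : Polynomial ℂ :=
  ∑ i ∈ X.toFinset, C (psT z b X i F) * DlP (ux z) (X.toFinset.erase i)

theorem psP_eval (z : α → ℂ) (b : α) (X : List α) (F : Pat α → ℂ) (u : ℂ) :
    (psP z b X F).eval (cf u) =
      ∑ i ∈ X.toFinset, psT z b X i F * Fr.Dl (ux z) u (X.toFinset.erase i) := by
  unfold psP
  rw [Polynomial.eval_finset_sum]
  refine Finset.sum_congr rfl fun i _ => ?_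
  rw [Polynomial.eval_mul, Polynomial.eval_C, DlP_eval]

theorem psP_congr (h : ∀ x ∈ X, z x = z' x) (F : Pat α → ℂ) : psP z b X F = psP z' b X F := by
  unfold psP
  refine Finset.sum_congr rfl fun i hi => ?_
  rw [psT_congr h (List.mem_toFinset.1 hi)]
  congr 1
  unfold DlP
  refine Finset.prod_congr rfl fun k hk => ?_
  unfold ux
  rw [h k (List.mem_toFinset.1 (Finset.mem_of_mem_erase hk))]

theorem PH_consP [Finite α] (hn : (b :: X).Nodup) (hc : c ∉ X) (hd : d ∉ X) (hcd : c ≠ d)
    (hG : Go z X) (F : Pat α → ℂ) : PH z (b :: X) (F - opE ℂ b F) =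
      Fr.fa (ux z b) * (psP z b X F).eval (cf (ux z b)) := by
  rw [PH_consO hn hc hd hcd hG, psP_eval, Finset.mul_sum]
  exact Finset.sum_congr rfl fun i _ => by ring

theorem DlP_monic (x : α → ℂ) (Y : Finset α) : (DlP x Y).Monic :=
  Polynomial.monic_prod_of_monic _ _ fun k _ => Polynomial.monic_X_sub_C _

theorem DlP_deg (x : α → ℂ) (Y : Finset α) : (DlP x Y).natDegree = Y.card := by
  unfold DlP
  rw [Polynomial.natDegree_prod_of_monic _ _ fun k _ => Polynomial.monic_X_sub_C _]
  simp

/-- the leading coefficient -/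
theorem psP_top (hn : X.Nodup) (F : Pat α → ℂ) : (psP z b X F).natDegree ≤ X.length - 1 ∧
    (psP z b X F).coeff (X.length - 1) = 2 * Fr.s2 * PS z b X F := by
  have hc : X.toFinset.card = X.length := List.toFinset_card_of_nodup hn
  have hd : ∀ i ∈ X.toFinset, (DlP (ux z) (X.toFinset.erase i)).natDegree = X.length - 1 :=
    fun i hi => by rw [DlP_deg, Finset.card_erase_of_mem hi, hc]
  refine ⟨?_, ?_⟩
  · unfold psP
    refine Polynomial.natDegree_sum_le_of_forall_le _ _ fun i hi => ?_
    refine (Polynomial.natDegree_C_mul_le _ _).trans ?_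
    rw [hd i hi]
  · unfold psP
    rw [PS_eq, Polynomial.finset_sum_coeff, LinearMap.smul_apply, LinearMap.sum_apply, smul_eq_mul,
      mul_inv_cancel_left₀ s2_ne]
    refine Finset.sum_congr rfl fun i hi => ?_
    rw [Polynomial.coeff_C_mul]
    have := (DlP_monic (ux z) (X.toFinset.erase i)).coeff_natDegree
    rw [hd i hi] at this
    rw [this, mul_one]

/-! ### The identity theorem in the rapidity of `b` -/

theorem diff_faD (D : Polynomial ℂ) :
    Differentiable ℂ fun s : ℂ => Fr.fa (hh - s) * D.eval (cf (hh - s)) := by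
  have h1 : Differentiable ℂ fun s : ℂ => Fr.fa (hh - s) := by
    unfold Fr.fa
    fun_prop
  have h2 : Differentiable ℂ fun s : ℂ => cf (hh - s) := by
    unfold cf
    fun_prop
  exact h1.mul (D.differentiable.comp h2)

/-- A polynomial which vanishes near a point is zero. -/
theorem pol_zero {D : Polynomial ℂ} {s0 : ℂ}
    (h : ∀ᶠ s in 𝓝[≠] s0, Fr.fa (hh - s) * D.eval (cf (hh - s)) = 0) : D = 0 := by
  have hd := diff_faD D
  have h0 : ∀ s : ℂ, Fr.fa (hh - s) * D.eval (cf (hh - s)) = 0 := by
    have h1 : AnalyticOnNhd ℂ (fun s : ℂ => Fr.fa (hh - s) * D.eval (cf (hh - s))) Set.univ :=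
      fun s _ => hd.analyticAt s
    have h2 := h1.eqOn_zero_of_preconnected_of_frequently_eq_zero isPreconnected_univ
      (Set.mem_univ s0) h.frequently
    exact fun s => h2 (Set.mem_univ s)
  have h3 : ∀ T : ℂ, T ≠ Complex.cos (3 * lam) → D.eval T = 0 := by
    intro T hT
    obtain ⟨w, hw⟩ := Complex.cos_surjective T
    have h4 := h0 (hh - (w + 3 * lam) / 2)
    have e1 : hh - (hh - (w + 3 * lam) / 2) = (w + 3 * lam) / 2 := by ring
    have e2 : cf ((w + 3 * lam) / 2) = T := by
      unfold cf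
      rw [← hw]
      congr 1
      ring
    rw [e1, e2] at h4
    rcases mul_eq_zero.1 h4 with h5 | h5
    · exfalso
      apply hT
      have h6 : Complex.sin ((w + 3 * lam) / 2) = 0 := h5
      have h7 : Complex.cos (w + 3 * lam) = 1 := by
        have := Complex.cos_two_mul' ((w + 3 * lam) / 2)
        rw [show 2 * ((w + 3 * lam) / 2) = w + 3 * lam by ring] at this
        have h8 := Complex.sin_sq_add_cos_sq ((w + 3 * lam) / 2)
        rw [h6] at this h8
        linear_combination this + h8
      have h9 : Complex.sin (w + 3 * lam) = 0 := by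
        have := Complex.sin_two_mul ((w + 3 * lam) / 2)
        rw [show 2 * ((w + 3 * lam) / 2) = w + 3 * lam by ring, h6] at this
        rw [this]
        ring
      rw [← hw, show w = (w + 3 * lam) - 3 * lam by ring, Complex.cos_sub, h7, h9]
      ring
    · exact h5
  refine Polynomial.eq_zero_of_infinite_isRoot D ?_
  refine Set.Infinite.mono (s := {T : ℂ | T ≠ Complex.cos (3 * lam)}) (fun T hT => h3 T hT) ?_
  exact (Set.finite_singleton (Complex.cos (3 * lam))).infinite_compl

theorem ux_upd (z : α → ℂ) (b : α) (s : ℂ) : ux (Function.update z b s) b = hh - s := by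
  rw [ux_hh, Function.update_self]

section rel

variable [Finite α]

/-- The value of the polynomial. -/
theorem psP_val {s : ℂ} (hn : (b :: X).Nodup) (hc : c ∉ X) (hd : d ∉ X) (hcd : c ≠ d) (hG : Go z X)
    (F : Pat α → ℂ) : PH (Function.update z b s) (b :: X) (F - opE ℂ b F) =
      Fr.fa (hh - s) * (psP z b X F).eval (cf (hh - s)) := by
  have hb := (List.nodup_cons.1 hn).1
  rw [PH_consP hn hc hd hcd (hG.congr (upd_out hb)), ux_upd, ← psP_congr (upd_out hb)]

/-- **The support.** -/
theorem PS_sup (hn : (b :: X).Nodup) (hc : c ∉ b :: X) (hd : d ∉ b :: X) (hcd : c ≠ d)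
    (hG : Go z X) : Sup (b :: X) (PS z b X) := by
  intro F hF
  have hn1 := List.nodup_cons.1 hn
  have hcX : c ∉ X := fun h => hc (List.mem_cons_of_mem _ h)
  have hdX : d ∉ X := fun h => hd (List.mem_cons_of_mem _ h)
  have key : psP z b X F = 0 := by
    refine pol_zero (s0 := 0) ?_
    filter_upwards [ev_fb z X 0] with s hs
    rw [← psP_val hn hcX hdX hcd hG]
    apply PH_supO hn hc hd hcd (Go.ins (A := []) hG hn1.1 hs)
    intro q hq
    rw [Pi.sub_apply, opE_apply, hF q hq]
    split_ifs <;> simp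
  have h2 := (psP_top (z := z) (b := b) hn1.2 F).2
  rw [key, Polynomial.coeff_zero] at h2
  exact (mul_eq_zero.1 h2.symm).resolve_left s2_ne

theorem opE_R (hj : j ≠ b) (hk : k ≠ b) (u : ℂ) (F : Pat α → ℂ) :
    uops.R j k u (F - opE ℂ b F) = uops.R j k u F - opE ℂ b (uops.R j k u F) := by
  have h := (ulaws (ι := α)).cRE (i := j) (j := k) (k := b) (u := u) hj hk
  rw [uops_E] at h
  have h1 := LinearMap.congr_fun h.eq F
  rw [Module.End.mul_apply, Module.End.mul_apply] at h1
  rw [map_sub, h1]

/-- **The exchange of two neighbouring lines.** -/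
theorem PS_exch (hn : (b :: (A ++ j :: k :: B)).Nodup) (hc : c ∉ b :: (A ++ j :: k :: B))
    (hd : d ∉ b :: (A ++ j :: k :: B)) (hcd : c ≠ d) (h1 : Go z (A ++ j :: k :: B))
    (h2 : Go z (A ++ k :: j :: B)) :
    PS z b (A ++ j :: k :: B) ∘ₗ uops.R j k (z j - z k) = PS z b (A ++ k :: j :: B) := by
  have hp : (A ++ j :: k :: B).Perm (A ++ k :: j :: B) := swap_perm A B j k
  have hp' := List.Perm.cons b hp
  have hn1 := List.nodup_cons.1 hn
  have hn' : (b :: (A ++ k :: j :: B)).Nodup := hp'.nodup_iff.1 hn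
  have hn1' := List.nodup_cons.1 hn'
  have hbj : j ≠ b := fun e => hn1.1 (by simp [e])
  have hbk : k ≠ b := fun e => hn1.1 (by simp [e])
  have hcX : c ∉ A ++ j :: k :: B := fun h => hc (List.mem_cons_of_mem _ h)
  have hdX : d ∉ A ++ j :: k :: B := fun h => hd (List.mem_cons_of_mem _ h)
  refine LinearMap.ext fun F => ?_
  have key : psP z b (A ++ j :: k :: B) (uops.R j k (z j - z k) F) - psP z b (A ++ k :: j :: B) F = 0 := by
    refine pol_zero (s0 := 0) ?_
    filter_upwards [ev_fb z (A ++ j :: k :: B) 0] with s hs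
    have hs' : Fb z (A ++ k :: j :: B) s := hs.sub fun y hy => hp.mem_iff.2 hy
    rw [Polynomial.eval_sub, mul_sub, ← psP_val hn hcX hdX hcd h1,
      ← psP_val hn' (fun h => hcX (hp.mem_iff.2 h)) (fun h => hdX (hp.mem_iff.2 h)) hcd h2,
      ← opE_R hbj hbk, sub_eq_zero]
    have e1 : (Function.update z b s) j - (Function.update z b s) k = z j - z k := by
      rw [Function.update_of_ne hbj, Function.update_of_ne hbk]
    have h3 := PH_exchO (z := Function.update z b s) (A := b :: A) (B := B) (j := j) (k := k) hn hc hd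
      hcd (Go.ins (A := []) h1 hn1.1 hs) (Go.ins (A := []) h2 hn1'.1 hs')
    rw [← e1]
    exact LinearMap.congr_fun h3 (F - opE ℂ b F)
  have h3 := (psP_top (z := z) (b := b) hn1.2 (uops.R j k (z j - z k) F)).2
  have h4 := (psP_top (z := z) (b := b) hn1'.2 F).2
  rw [← hp.length_eq] at h4
  rw [sub_eq_zero] at key
  rw [key, h4] at h3
  exact (mul_left_cancel₀ s2_ne h3).symm

end rel

end Pool.Agent.TC
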