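import Pool.Agent.TC.ReflR
import Pool.Agent.TC.Psi

/-!
# One line of a half strip, I: trigonometric polynomials (helper15)

Division of trigonometric polynomials by products of sines; identities that hold near every point.
-/

set_option autoImplicit false

namespace Pool.Agent.TC

open _root_.Pool.Agent.EXL _root_.Pool.Agent.EXL.Pat Filter Topology
open _root_.Pool.Agent.EXL.Fm (lam)
open _root_.Pool.Agent.NUF _root_.Pool.Agent.NUU _root_.Pool.Agent.NUTV
open _root_.Pool.Agent.NUF.Fr (TP ee)
open Complex (I exp sin cos)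
open Polynomial (C natDegree)

variable {n m : ℕ} {f g h : ℂ → ℂ} {c : ℂ}

/-! ### Almost everywhere -/

/-- The property holds at all the points near every point. -/
def Ae (P : ℂ → Prop) : Prop := ∀ s0 : ℂ, ∀ᶠ s in 𝓝[≠] s0, P s

theorem Ae.mono {P Q : ℂ → Prop} (hP : Ae P) (h : ∀ s, P s → Q s) : Ae Q :=
  fun s0 => (hP s0).mono h

theorem Ae.and {P Q : ℂ → Prop} (hP : Ae P) (hQ : Ae Q) : Ae fun s => P s ∧ Q s :=
  fun s0 => (hP s0).and (hQ s0)

theorem Ae.of {P : ℂ → Prop} (h : ∀ s, P s) : Ae P := fun _ => Filter.Eventually.of_forall h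

theorem Ae.all {κ : Type*} {P : κ → ℂ → Prop} (S : Finset κ) (h : ∀ k ∈ S, Ae (P k)) :
    Ae fun s => ∀ k ∈ S, P k s := fun s0 => by
  rw [Finset.eventually_all]
  exact fun k hk => h k hk s0

theorem Ae.eq (hf : Continuous f) (hg : Continuous g) (h : Ae fun s => f s = g s) (s : ℂ) :
    f s = g s :=
  tendsto_nhds_unique_of_eventuallyEq (hf.continuousAt.mono_left nhdsWithin_le_nhds)
    (hg.continuousAt.mono_left nhdsWithin_le_nhds) (h s)

theorem ae_sin (c : ℂ) : Ae fun s => sin (s + c) ≠ 0 := fun s0 => by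
  have := ev_sin' c s0 one_ne_zero
  simpa using this

/-- reflection of the variable -/
theorem Ae.refl {P : ℂ → Prop} (h : Ae P) : Ae fun s => P (-s) := fun s0 => by
  have h1 : Tendsto (fun s : ℂ => -s) (𝓝[≠] s0) (𝓝[≠] (-s0)) := by
    refine tendsto_nhdsWithin_of_tendsto_nhds_of_eventually_within _
      ((continuous_neg.tendsto s0).mono_left nhdsWithin_le_nhds) ?_
    filter_upwards [self_mem_nhdsWithin] with s hs
    exact fun e => hs (neg_injective e)
  exact h1.eventually (h (-s0))

/-! ### Division -/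

theorem TP.eq_inv (hP : TP n f) : ∃ P : Polynomial ℂ, P.natDegree ≤ n ∧
    ∀ s, f s = exp (-(n * (I * s))) * P.eval (ee s) := by
  obtain ⟨P, h1, h2⟩ := hP
  refine ⟨P, h1, fun s => ?_⟩
  rw [← h2, ← mul_assoc, ← Complex.exp_add, neg_add_cancel, Complex.exp_zero, one_mul]

theorem cont_ee : Continuous ee := by
  unfold ee
  fun_prop

theorem TP.cont (hP : TP n f) : Continuous f := by
  obtain ⟨P, _, h2⟩ := TP.eq_inv hP
  have : f = fun s => exp (-(n * (I * s))) * P.eval (ee s) := funext h2
  rw [this]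
  exact (by fun_prop : Continuous fun s : ℂ => exp (-(n * (I * s)))).mul (P.continuous.comp cont_ee)

theorem TP.refl (hP : TP n f) : TP n (fun s => f (-s)) := by
  obtain ⟨P, h1, h2⟩ := hP
  refine ⟨∑ k ∈ Finset.range (n + 1), C (P.coeff k) * Polynomial.X ^ (n - k), ?_, fun s => ?_⟩
  · refine Polynomial.natDegree_sum_le_of_forall_le _ _ fun k _ => ?_
    refine (Polynomial.natDegree_C_mul_le _ _).trans ?_
    rw [Polynomial.natDegree_X_pow]
    omega
  · have h3 := h2 (-s)
    have h4 : exp (n * (I * s)) * f (-s) = ee s ^ n * (exp (n * (I * -s)) * f (-s)) := by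
      have e : exp (n * (I * s)) = ee s ^ n * exp (n * (I * -s)) := by
        rw [ee, ← Complex.exp_nat_mul, ← Complex.exp_add]
        congr 1
        ring
      rw [e, mul_assoc]
    rw [h4, h3, Polynomial.eval_eq_sum_range' (Nat.lt_succ_of_le h1), Finset.mul_sum,
      Polynomial.eval_finsetSum]
    refine Finset.sum_congr rfl fun k hk => ?_
    have hk' : k ≤ n := Nat.lt_succ_iff.1 (Finset.mem_range.1 hk)
    rw [Polynomial.eval_mul, Polynomial.eval_C, Polynomial.eval_pow, Polynomial.eval_X]
    have e1 : ee s * ee (-s) = 1 := by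
      rw [ee, ee, ← Complex.exp_add, show 2 * (I * s) + 2 * (I * -s) = 0 by ring, Complex.exp_zero]
    have e2 : ee s ^ n = ee s ^ (n - k) * ee s ^ k := by
      rw [← pow_add]
      congr 1
      omega
    rw [e2]
    calc ee s ^ (n - k) * ee s ^ k * (P.coeff k * ee (-s) ^ k) =
        P.coeff k * ee s ^ (n - k) * (ee s * ee (-s)) ^ k := by rw [mul_pow]; ring
      _ = _ := by rw [e1, one_pow, mul_one]

/-- A root is a factor. -/
theorem TP.root (hP : TP (n + 1) h) (h0 : h (-c) = 0) : ∃ g, TP n g ∧ ∀ s, h s = g s * sin (s + c) := by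
  obtain ⟨P, h1, h2⟩ := hP
  have hr : P.eval (ee (-c)) = 0 := by rw [← h2, h0, mul_zero]
  obtain ⟨Q, hQ⟩ := Polynomial.dvd_iff_isRoot.2 hr
  have hd : Q.natDegree ≤ n := by
    by_cases hQ0 : Q = 0
    · rw [hQ0, Polynomial.natDegree_zero]
      exact Nat.zero_le _
    · have := Polynomial.natDegree_mul (Polynomial.X_sub_C_ne_zero (ee (-c))) hQ0
      rw [← hQ, Polynomial.natDegree_X_sub_C] at this
      omega
  have hsin : ∀ s, exp (I * s) * sin (s + c) = -(I * exp (I * c) / 2) * (ee s - ee (-c)) := by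
    intro s
    rw [Complex.sin, show -(s + c) * I = -(I * s) + -(I * c) by ring,
      show (s + c) * I = I * s + I * c by ring, Complex.exp_add, Complex.exp_add, ee, ee,
      show 2 * (I * s) = I * s + I * s by ring, show 2 * (I * -c) = -(I * c) + -(I * c) by ring,
      Complex.exp_add, Complex.exp_add, Complex.exp_neg (I * s), Complex.exp_neg (I * c)]
    have e1 := Complex.exp_ne_zero (I * s)
    have e2 := Complex.exp_ne_zero (I * c)
    field_simp
    ring
  have hK : -(I * exp (I * c) / 2) ≠ 0 := by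
    refine neg_ne_zero.2 (div_ne_zero (mul_ne_zero Complex.I_ne_zero (Complex.exp_ne_zero _)) two_ne_zero)
  refine ⟨fun s => exp (-(n * (I * s))) * (Q.eval (ee s) * (-(I * exp (I * c) / 2))⁻¹),
    ⟨C (-(I * exp (I * c) / 2))⁻¹ * Q, (Polynomial.natDegree_C_mul_le _ _).trans hd, fun s => ?_⟩,
    fun s => ?_⟩
  · rw [← mul_assoc, ← Complex.exp_add, add_neg_cancel, Complex.exp_zero, one_mul,
      Polynomial.eval_mul, Polynomial.eval_C, mul_comm]
  · have h3 := h2 s
    rw [hQ, Polynomial.eval_mul, Polynomial.eval_sub, Polynomial.eval_X, Polynomial.eval_C] at h3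
    have e1 : exp (((n + 1 : ℕ) : ℂ) * (I * s)) = exp (n * (I * s)) * exp (I * s) := by
      rw [← Complex.exp_add]
      congr 1
      push_cast
      ring
    have e3 := Complex.exp_ne_zero (n * (I * s))
    have e4 := Complex.exp_ne_zero (I * s)
    have h4 := hsin s
    have e5 : exp (-(n * (I * s))) = (exp (n * (I * s)))⁻¹ := Complex.exp_neg _
    rw [e1] at h3
    have h5 : sin (s + c) = (exp (I * s))⁻¹ * (-(I * exp (I * c) / 2) * (ee s - ee (-c))) := by
      rw [← h4, inv_mul_cancel_left₀ e4]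
    have h6 : h s = (exp (n * (I * s)) * exp (I * s))⁻¹ * ((ee s - ee (-c)) * Q.eval (ee s)) := by
      rw [← h3, inv_mul_cancel_left₀ (mul_ne_zero e3 e4)]
    show h s = exp (-(n * (I * s))) * (Q.eval (ee s) * (-(I * exp (I * c) / 2))⁻¹) * sin (s + c)
    rw [h5, h6, e5, mul_inv]
    calc (exp (n * (I * s)))⁻¹ * (exp (I * s))⁻¹ * ((ee s - ee (-c)) * Q.eval (ee s)) =
        (exp (n * (I * s)))⁻¹ * (Q.eval (ee s) * ((-(I * exp (I * c) / 2))⁻¹ *
          (-(I * exp (I * c) / 2)))) * ((exp (I * s))⁻¹ * (ee s - ee (-c))) := by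
          rw [inv_mul_cancel₀ hK]
          ring
      _ = _ := by ring

/-- **Division by a product of sines.** -/
theorem TP.div (L : List ℂ) : ∀ {h : ℂ → ℂ}, TP (n + L.length) h → Continuous g →
    (∀ s, g s * (L.map fun c => sin (s + c)).prod = h s) → TP n g := by
  induction L with
  | nil =>
    intro h hh _ he
    refine hh.congr fun s => ?_
    rw [← he s]
    simp
  | cons c L ih =>
    intro h hh hg he
    have h0 : h (-c) = 0 := by
      rw [← he (-c)]
      simp
    rw [List.length_cons, ← add_assoc] at hh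
    obtain ⟨h1, k1, k2⟩ := TP.root hh h0
    refine ih k1 hg fun s => ?_
    have hc2 : Continuous fun s => g s * (L.map fun c => sin (s + c)).prod := by
      refine hg.mul ?_
      refine continuous_list_prod _ fun i _ => ?_
      fun_prop
    refine Ae.eq hc2 (TP.cont k1) ((ae_sin c).mono fun s hs => ?_) s
    have h3 := he s
    rw [List.map_cons, List.prod_cons, k2 s] at h3
    refine mul_right_cancel₀ hs ?_
    rw [← h3]
    ring

/-- **Gluing.** -/
theorem glue {N1 D1 N2 D2 : ℂ → ℂ} (h1 : Continuous N1) (h2 : Continuous D1) (h3 : Continuous N2)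
    (h4 : Continuous D2) (h : ∀ s, N1 s * D2 s = N2 s * D1 s) (hd : ∀ s, D1 s ≠ 0 ∨ D2 s ≠ 0) :
    ∃ g : ℂ → ℂ, Continuous g ∧ (∀ s, g s * D1 s = N1 s) ∧ ∀ s, g s * D2 s = N2 s := by
  classical
  set g : ℂ → ℂ := fun s => if D1 s ≠ 0 then N1 s / D1 s else N2 s / D2 s with hg
  have g1 : ∀ s, D1 s ≠ 0 → g s = N1 s / D1 s := fun s hs => by rw [hg]; exact if_pos hs
  have g2 : ∀ s, D2 s ≠ 0 → g s = N2 s / D2 s := fun s hs => by
    by_cases hs1 : D1 s ≠ 0
    · rw [g1 s hs1, div_eq_div_iff hs1 hs]
      exact h s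
    · rw [hg]
      exact if_neg hs1
  refine ⟨g, continuous_iff_continuousAt.2 fun s => ?_, fun s => ?_, fun s => ?_⟩
  · rcases hd s with hs | hs
    · have e : g =ᶠ[𝓝 s] fun s => N1 s / D1 s := by
        filter_upwards [h2.continuousAt.eventually_ne hs] with t ht
        exact g1 t ht
      exact (h1.continuousAt.div h2.continuousAt hs).congr_of_eventuallyEq e
    · have e : g =ᶠ[𝓝 s] fun s => N2 s / D2 s := by
        filter_upwards [h4.continuousAt.eventually_ne hs] with t ht
        exact g2 t ht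
      exact (h3.continuousAt.div h4.continuousAt hs).congr_of_eventuallyEq e
  · by_cases hs : D1 s = 0
    · have hs2 : D2 s ≠ 0 := (hd s).resolve_left fun h => h hs
      have h5 := h s
      rw [hs, mul_zero] at h5 ⊢
      exact ((mul_eq_zero.1 h5).resolve_right hs2).symm
    · rw [g1 s hs, div_mul_cancel₀ _ hs]
  · by_cases hs : D2 s = 0
    · have hs2 : D1 s ≠ 0 := (hd s).resolve_right fun h => h hs
      have h5 := h s
      rw [hs, mul_zero] at h5 ⊢
      exact (mul_eq_zero.1 h5.symm).resolve_right hs2 |>.symm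
    · rw [g2 s hs, div_mul_cancel₀ _ hs]

/-! ### Products of sines -/

/-- the product of the factors `Dn (s - z a)` -/
noncomputable def DA {α : Type*} (z : α → ℂ) (A : List α) (s : ℂ) : ℂ :=
  (A.map fun a => Fm.Dn (s - z a)).prod

/-- the list of the factors -/
noncomputable def lA {α : Type*} (z : α → ℂ) (A : List α) : List ℂ :=
  A.flatMap fun a => [2 * lam - z a, 3 * lam - z a]

theorem lA_prod {α : Type*} (z : α → ℂ) (A : List α) (s : ℂ) :
    ((lA z A).map fun c => sin (s + c)).prod = DA z A s := by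
  induction A with
  | nil => simp [lA, DA]
  | cons a A ih =>
    have e : lA z (a :: A) = [2 * lam - z a, 3 * lam - z a] ++ lA z A := rfl
    rw [e, List.map_append, List.prod_append, ih]
    simp only [DA, List.map_cons, List.map_nil, List.prod_cons, List.prod_nil, mul_one]
    unfold Fm.Dn
    rw [show s + (2 * lam - z a) = 2 * lam + (s - z a) by ring,
      show s + (3 * lam - z a) = 3 * lam + (s - z a) by ring]

theorem lA_len {α : Type*} (z : α → ℂ) (A : List α) : (lA z A).length = 2 * A.length := by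
  induction A with
  | nil => rfl
  | cons a A ih =>
    have e : lA z (a :: A) = [2 * lam - z a, 3 * lam - z a] ++ lA z A := rfl
    rw [e, List.length_append, ih, List.length_cons]
    simp only [List.length_cons, List.length_nil]
    ring

theorem DA_cont {α : Type*} (z : α → ℂ) (A : List α) : Continuous (DA z A) := by
  have : DA z A = fun s => ((lA z A).map fun c => sin (s + c)).prod := funext fun s => (lA_prod z A s).symm
  rw [this]
  refine continuous_list_prod _ fun i _ => ?_
  fun_prop

theorem DA_ne {α : Type*} {z : α → ℂ} {A : List α} {s : ℂ} (h : ∀ a ∈ A, Fm.Dn (s - z a) ≠ 0) :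
    DA z A s ≠ 0 := by
  unfold DA
  induction A with
  | nil => simp
  | cons a A ih =>
    rw [List.map_cons, List.prod_cons]
    exact mul_ne_zero (h a (by simp)) (ih fun x hx => h x (by simp [hx]))

theorem DA_zero {α : Type*} {z : α → ℂ} {A : List α} {s : ℂ} (h : DA z A s = 0) :
    ∃ a ∈ A, Fm.Dn (s - z a) = 0 := by
  by_contra hc
  push Not at hc
  exact DA_ne hc h

end Pool.Agent.TC
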