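import Pool.Agent.TC.DegA

/-!
# One line of a half strip, II: the graded degree (helper15)

`GV p n V`: for every state `q` the function `s ↦ V s (ind q)` is a trigonometric polynomial of degree `n` (`p` empty
in `q`) or `n + 1` (`p` occupied).  `GV.up`: the line `p` is moved above the lines `A`.
-/

set_option autoImplicit false

namespace Pool.Agent.TC

open _root_.Pool.Agent.EXL _root_.Pool.Agent.EXL.Pat Filter Topology
open _root_.Pool.Agent.EXL.Fm (lam)
open _root_.Pool.Agent.NUF _root_.Pool.Agent.NUU _root_.Pool.Agent.NUTV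
open _root_.Pool.Agent.NUF.Fr (TP ee)
open Complex (I exp sin cos)

/-! ### The class of the functions -/

/-- almost everywhere equal to a trigonometric polynomial -/
def TG (n : ℕ) (f : ℂ → ℂ) : Prop := ∃ g, TP n g ∧ Ae fun s => f s = g s

section TG

variable {n m : ℕ} {f g : ℂ → ℂ}

theorem TG.of (h : TP n f) : TG n f := ⟨f, h, Ae.of fun _ => rfl⟩

theorem TG.congr (h : TG n f) (e : Ae fun s => g s = f s) : TG n g := by
  obtain ⟨k, h1, h2⟩ := h
  exact ⟨k, h1, (e.and h2).mono fun s hs => hs.1.trans hs.2⟩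

theorem TG.add (hf : TG n f) (hg : TG n g) : TG n fun s => f s + g s := by
  obtain ⟨k, h1, h2⟩ := hf
  obtain ⟨l, h3, h4⟩ := hg
  exact ⟨_, h1.add h3, (h2.and h4).mono fun s hs => by simp only [hs.1, hs.2]⟩

theorem TG.mul (hf : TG m f) (hg : TG n g) : TG (m + n) fun s => f s * g s := by
  obtain ⟨k, h1, h2⟩ := hf
  obtain ⟨l, h3, h4⟩ := hg
  exact ⟨_, h1.mul h3, (h2.and h4).mono fun s hs => by simp only [hs.1, hs.2]⟩

theorem TG.cmul (hf : TG n f) (c : ℂ) : TG n fun s => c * f s := by
  obtain ⟨k, h1, h2⟩ := hf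
  exact ⟨_, h1.cmul c, h2.mono fun s hs => by simp only [hs]⟩

theorem TG.up (hf : TG n f) : TG (n + 2) f := by
  obtain ⟨k, h1, h2⟩ := hf
  exact ⟨k, h1.up, h2⟩

theorem TG.ups (hf : TG n f) (k : ℕ) : TG (n + 2 * k) f := by
  induction k with
  | zero => exact hf
  | succ k ih => exact ih.up

/-- a larger degree of the same parity -/
theorem TG.le (hf : TG n f) (h : n ≤ m) (h2 : m % 2 = n % 2) : TG m f := by
  have := hf.ups ((m - n) / 2)
  rwa [show n + 2 * ((m - n) / 2) = m by omega] at this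

theorem TG.zero (n : ℕ) : TG n fun _ => 0 := TG.of (TP.zero n)

theorem TG.sum {κ : Type*} {f : κ → ℂ → ℂ} (S : Finset κ) (h : ∀ k ∈ S, TG n (f k)) :
    TG n fun s => ∑ k ∈ S, f k s := by
  classical
  induction S using Finset.induction with
  | empty => exact (TG.zero n).congr (Ae.of fun s => by simp)
  | insert a S ha ih =>
    have h1 := (h a (Finset.mem_insert_self a S)).add
      (ih fun i hi => h i (Finset.mem_insert_of_mem hi))
    exact h1.congr (Ae.of fun s => by rw [Finset.sum_insert ha])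

theorem TG.prod {κ : Type*} {f : κ → ℂ → ℂ} (S : Finset κ) (h : ∀ k ∈ S, TG m (f k)) :
    TG (m * S.card) fun s => ∏ k ∈ S, f k s := by
  classical
  induction S using Finset.induction with
  | empty => exact (TG.of TP.one).congr (Ae.of fun s => by simp)
  | insert a S ha ih =>
    have h1 := (h a (Finset.mem_insert_self a S)).mul
      (ih fun i hi => h i (Finset.mem_insert_of_mem hi))
    rw [Finset.card_insert_of_notMem ha, show m * (S.card + 1) = m + m * S.card by ring]
    exact h1.congr (Ae.of fun s => by rw [Finset.prod_insert ha])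

theorem TG.refl (h : TG n f) : TG n fun s => f (-s) := by
  obtain ⟨k, h1, h2⟩ := h
  exact ⟨_, TP.refl h1, h2.refl⟩

/-- sine of a linear function -/
theorem TP_sp (c : ℂ) : TP 1 fun s => sin (c + s) :=
  (TP.sin_add c).congr fun s => by rw [add_comm]

theorem TP_sm (c : ℂ) : TP 1 fun s => sin (c - s) :=
  ((TP.sin_add (-c)).cmul (-1)).congr fun s => by
    rw [show s + -c = -(c - s) by ring, Complex.sin_neg]
    ring

end TG

/-! ### The numerators of the rhombus -/

/-- An affine function of slope `± 1`. -/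
def Aff (u : ℂ → ℂ) : Prop := ∃ c : ℂ, (∀ s, u s = c + s) ∨ ∀ s, u s = c - s

theorem Aff.tp {u : ℂ → ℂ} (h : Aff u) (k : ℂ) : TP 1 fun s => sin (k + u s) := by
  obtain ⟨c, h | h⟩ := h
  · exact (TP_sp (k + c)).congr fun s => by rw [h s, add_assoc]
  · exact (TP_sm (k + c)).congr fun s => by rw [h s, add_sub_assoc]

theorem Aff.tp' {u : ℂ → ℂ} (h : Aff u) (k : ℂ) : TP 1 fun s => sin (k - u s) :=
  ((h.tp (-k)).cmul (-1)).congr fun s => by
    rw [show -k + u s = -(k - u s) by ring, Complex.sin_neg]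
    ring

theorem Aff.tp0 {u : ℂ → ℂ} (h : Aff u) : TP 1 fun s => sin (u s) :=
  (h.tp 0).congr fun s => by rw [zero_add]

theorem Aff.tpD {u : ℂ → ℂ} (h : Aff u) : TP 2 fun s => Fm.Dn (u s) :=
  ((h.tp (2 * lam)).mul (h.tp (3 * lam))).congr fun _ => rfl

theorem Aff.ae {u : ℂ → ℂ} (h : Aff u) (k : ℂ) : Ae fun s => sin (k + u s) ≠ 0 := by
  obtain ⟨c, h | h⟩ := h
  · refine (ae_sin (k + c)).mono fun s hs => ?_
    rwa [h s, show k + (c + s) = s + (k + c) by ring]
  · refine (ae_sin (-(k + c))).mono fun s hs => ?_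
    rw [h s, show k + (c - s) = -(s + -(k + c)) by ring, Complex.sin_neg]
    exact neg_ne_zero.2 hs

theorem Aff.aeD {u : ℂ → ℂ} (h : Aff u) : Ae fun s => Fm.Dn (u s) ≠ 0 :=
  ((h.ae (2 * lam)).and (h.ae (3 * lam))).mono fun _ hs => mul_ne_zero hs.1 hs.2

theorem Aff.ae0 {u : ℂ → ℂ} (h : Aff u) : Ae fun s => sin (u s) ≠ 0 :=
  (h.ae 0).mono fun s hs => by rwa [zero_add] at hs

section occ

variable {α : Type*} [DecidableEq α] {p i j k a : α} {q r : Pat α} {n m : ℕ}

/-- the occupation number of the line `p` -/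
def dg (p : α) (q : Pat α) : ℕ := if q p = p then 0 else 1

theorem dg_e (h : q p = p) : dg p q = 0 := if_pos h

theorem dg_o (h : q p ≠ p) : dg p q = 1 := if_neg h

theorem dg_le : dg p q ≤ 1 := by
  unfold dg
  split_ifs <;> simp

/-! ### The matrix elements of the rhombus -/

theorem swL : swap i j q i = i ↔ q j = j := by
  show Equiv.swap i j (q (Equiv.swap i j i)) = i ↔ _
  rw [Equiv.swap_apply_left, Equiv.swap_apply_eq_iff, Equiv.swap_apply_left]

theorem swR : swap i j q j = j ↔ q i = i := by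
  show Equiv.swap i j (q (Equiv.swap i j j)) = j ↔ _
  rw [Equiv.swap_apply_right, Equiv.swap_apply_eq_iff, Equiv.swap_apply_right]

theorem cuR (h1 : q i = i) (h2 : q j = j) (hij : i ≠ j) : cup i j q j = i := by
  show (if q i = i ∧ q j = j then (if j = i then j else if j = j then i else q j) else q j) = i
  rw [if_pos ⟨h1, h2⟩, if_neg hij.symm, if_pos rfl]

theorem ctL (hij : i ≠ j) (h1 : q i ≠ i) (h2 : q j ≠ j) (h3 : q i ≠ j) : cut i j q i = i := by
  show (if i ≠ j ∧ q i ≠ i ∧ q j ≠ j ∧ q i ≠ j then _ else _) = i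
  rw [if_pos ⟨hij, h1, h2, h3⟩, if_pos rfl]

theorem ctR (hij : i ≠ j) (h1 : q i ≠ i) (h2 : q j ≠ j) (h3 : q i ≠ j) : cut i j q j = j := by
  show (if i ≠ j ∧ q i ≠ i ∧ q j ≠ j ∧ q i ≠ j then _ else _) = j
  rw [if_pos ⟨hij, h1, h2, h3⟩, if_neg hij.symm, if_pos rfl]

/-- **A matrix element.** -/
theorem R_mat {u : ℂ → ℂ} (hu : Aff u) (hij : i ≠ j) (hp : p = i ∨ p = j) (q r : Pat α) :
    TG (2 + dg p r - dg p q) fun s => Fm.Dn (u s) * uops.R i j (u s) (HS.ind r) q := by
  have nd := hu.aeD
  have tv : TP 2 fun s => sin (u s) * sin (3 * lam - u s) := hu.tp0.mul (hu.tp' _)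
  have tu1 : TP 1 fun s => sin (2 * lam) * sin (3 * lam - u s) := (hu.tp' _).cmul _
  have tu2 : TP 1 fun s => sin (2 * lam) * sin (u s) := hu.tp0.cmul _
  have tw1 : TP 2 fun s => sin (2 * lam - u s) * sin (3 * lam - u s) := (hu.tp' _).mul (hu.tp' _)
  have tw2 : TP 2 fun s => sin (u s) * sin (u s - lam) :=
    hu.tp0.mul ((hu.tp (-lam)).congr fun s => by rw [neg_add_eq_sub])
  have hle := dg_le (p := p) (q := q)
  have key : ∀ (d : ℕ) (w : ℂ → ℂ) (F : Pat α), TP d w → (F = r → d ≤ 2 + dg p r - dg p q ∧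
      (2 + dg p r - dg p q) % 2 = d % 2) →
      TG (2 + dg p r - dg p q) fun s => w s * (HS.ind r : Pat α → ℂ) F := by
    intro d w F hw hd
    by_cases h : F = r
    · obtain ⟨h1, h2⟩ := hd h
      refine (((TG.of hw).cmul ((HS.ind r : Pat α → ℂ) F)).le h1 h2).congr (Ae.of fun s => ?_)
      ring
    · refine (TG.zero _).congr (Ae.of fun s => ?_)
      rw [HS.ind_ne h, mul_zero]
  have e0 : Ae fun s => Fm.Dn (u s) * uops.R i j (u s) (HS.ind r) q =
      Fm.Dn (u s) * EXL.R (Fm.Wc (u s)) i j (HS.ind r) q := Ae.of fun s => by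
    rw [uops_R_apply hij, Fm.rwt_eq]
  have hcan : ∀ (s x y : ℂ), Fm.Dn (u s) ≠ 0 → Fm.Dn (u s) * ((Fm.Dn (u s))⁻¹ * x * y) = x * y := by
    intro s x y h
    rw [← mul_assoc, ← mul_assoc, mul_inv_cancel₀ h, one_mul]
  -- the terms in which the occupation of p is the same or is changed
  have same : ∀ {F : Pat α}, dg p F = dg p q → F = r → 2 ≤ 2 + dg p r - dg p q ∧
      (2 + dg p r - dg p q) % 2 = 2 % 2 := by
    intro F h1 h2
    rw [← h2, h1]
    omega
  have diff : ∀ {F : Pat α}, dg p F + dg p q = 1 → F = r → 1 ≤ 2 + dg p r - dg p q ∧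
      (2 + dg p r - dg p q) % 2 = 1 % 2 := by
    intro F h1 h2
    rw [← h2]
    omega
  by_cases e1 : q i = i
  · by_cases e2 : q j = j
    · refine TG.congr (TG.add (key 2 _ q hu.tpD (same rfl)) (key 1 _ (cup i j q) tu2 (diff ?_)))
        ((e0.and nd).mono fun s hs => ?_)
      · have h1 : cup i j q i ≠ i := by rw [cup_ne e1 e2]; exact hij.symm
        have h2 : cup i j q j ≠ j := by rw [cuR e1 e2 hij]; exact hij
        rcases hp with rfl | rfl
        · rw [dg_o h1, dg_e e1]
        · rw [dg_o h2, dg_e e2]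
      · rw [hs.1]
        simp only [EXL.R, if_pos e1, if_pos e2, Fm.Wc, Fm.Wn, EXL.Wt.sc]
        rw [mul_add, hcan s _ _ hs.2]
    · refine TG.congr (TG.add (key 2 _ q tv (same rfl)) (key 1 _ (swap i j q) tu1 (diff ?_)))
        ((e0.and nd).mono fun s hs => ?_)
      · have h1 : swap i j q i ≠ i := fun h => e2 (swL.1 h)
        have h2 : swap i j q j = j := swR.2 e1
        rcases hp with rfl | rfl
        · rw [dg_o h1, dg_e e1]
        · rw [dg_e h2, dg_o e2]
      · rw [hs.1]
        simp only [EXL.R, if_pos e1, if_neg e2, Fm.Wc, Fm.Wn, EXL.Wt.sc]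
        rw [mul_add, hcan s _ _ hs.2, hcan s _ _ hs.2]
  · by_cases e2 : q j = j
    · refine TG.congr (TG.add (key 2 _ q tv (same rfl)) (key 1 _ (swap i j q) tu1 (diff ?_)))
        ((e0.and nd).mono fun s hs => ?_)
      · have h1 : swap i j q i = i := swL.2 e2
        have h2 : swap i j q j ≠ j := fun h => e1 (swR.1 h)
        rcases hp with rfl | rfl
        · rw [dg_e h1, dg_o e1]
        · rw [dg_o h2, dg_e e2]
      · rw [hs.1]
        simp only [EXL.R, if_neg e1, if_pos e2, Fm.Wc, Fm.Wn, EXL.Wt.sc]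
        rw [mul_add, hcan s _ _ hs.2, hcan s _ _ hs.2]
    · by_cases e3 : q i = j
      · refine TG.congr (key 2 _ q tw1 (same rfl)) ((e0.and nd).mono fun s hs => ?_)
        rw [hs.1]
        simp only [EXL.R, if_neg e1, if_neg e2, if_pos e3, Fm.Wc, Fm.Wn, EXL.Wt.sc]
        rw [hcan s _ _ hs.2]
      · have h1 : swap i j q i ≠ i := fun h => e2 (swL.1 h)
        have h2 : swap i j q j ≠ j := fun h => e1 (swR.1 h)
        have h3 := ctL hij e1 e2 e3
        have h4 := ctR hij e1 e2 e3
        have h5 : cup i j (cut i j q) i ≠ i := by rw [cup_ne h3 h4]; exact hij.symm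
        have h6 : cup i j (cut i j q) j ≠ j := by rw [cuR h3 h4 hij]; exact hij
        refine TG.congr (TG.add (TG.add (key 2 _ (swap i j q) tw1 (same ?_))
          (key 1 _ (cut i j q) tu2 (diff ?_))) (key 2 _ (cup i j (cut i j q)) tw2 (same ?_)))
          ((e0.and nd).mono fun s hs => ?_)
        · rcases hp with rfl | rfl
          · rw [dg_o h1, dg_o e1]
          · rw [dg_o h2, dg_o e2]
        · rcases hp with rfl | rfl
          · rw [dg_e h3, dg_o e1]
          · rw [dg_e h4, dg_o e2]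
        · rcases hp with rfl | rfl
          · rw [dg_o h5, dg_o e1]
          · rw [dg_o h6, dg_o e2]
        · rw [hs.1]
          simp only [EXL.R, if_neg e1, if_neg e2, if_neg e3, Fm.Wc, Fm.Wn, EXL.Wt.sc]
          rw [mul_add, mul_add, hcan s _ _ hs.2, hcan s _ _ hs.2, hcan s _ _ hs.2]

/-! ### The class of the functionals -/

/-- **The graded degree.** -/
def GV (p : α) (n : ℕ) (V : ℂ → Fnl α) : Prop := ∀ q : Pat α, TG (n + dg p q) fun s => V s (HS.ind q)

theorem GV.congr {V V' : ℂ → Fnl α} (h : GV p n V) (e : Ae fun s => V' s = V s) : GV p n V' :=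
  fun q => (h q).congr (e.mono fun s hs => by rw [hs])

theorem GV.add {V V' : ℂ → Fnl α} (h : GV p n V) (h' : GV p n V') : GV p n fun s => V s + V' s :=
  fun q => ((h q).add (h' q)).congr (Ae.of fun s => by rw [LinearMap.add_apply])

theorem GV.smul {V : ℂ → Fnl α} {c : ℂ → ℂ} (hc : TG m c) (h : GV p n V) :
    GV p (m + n) fun s => c s • V s := fun q => by
  rw [add_assoc]
  exact (hc.mul (h q)).congr (Ae.of fun s => by rw [LinearMap.smul_apply, smul_eq_mul])

theorem GV.sum {κ : Type*} (S : Finset κ) {V : κ → ℂ → Fnl α} (h : ∀ k ∈ S, GV p n (V k)) :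
    GV p n fun s => ∑ k ∈ S, V k s := fun q =>
  (TG.sum S fun k hk => h k hk q).congr (Ae.of fun s => by rw [LinearMap.sum_apply])

theorem GV.le {V : ℂ → Fnl α} (h : GV p n V) (h1 : n ≤ m) (h2 : m % 2 = n % 2) : GV p m V :=
  fun q => (h q).le (by omega) (by omega)

variable [Finite α]

/-- An operator which does not change the occupation of `p`. -/
theorem occ_comm {W : Module.End ℂ (Pat α → ℂ)} (hW : Commute W (uops.E p))
    (h : W (HS.ind r) q ≠ 0) : dg p q = dg p r := by
  have hE : ∀ s : Pat α, uops.E p (HS.ind s) = if s p = p then (HS.ind s : Pat α → ℂ) else 0 := by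
    intro s
    funext t
    rw [E_ap]
    by_cases hs : s p = p
    · rw [if_pos hs]
      by_cases ht : t = s
      · rw [ht, if_pos hs]
      · rw [HS.ind_ne ht]
        split_ifs <;> rfl
    · rw [if_neg hs]
      by_cases ht : t = s
      · rw [ht, if_neg hs]
        rfl
      · rw [HS.ind_ne ht]
        split_ifs <;> rfl
  have e := LinearMap.congr_fun hW.eq (HS.ind r)
  rw [Module.End.mul_apply, Module.End.mul_apply, hE r] at e
  have e' := congrFun e q
  rw [E_ap] at e'
  by_cases h1 : r p = p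
  · rw [if_pos h1] at e'
    by_cases h2 : q p = p
    · rw [dg_e h1, dg_e h2]
    · rw [if_neg h2] at e'
      exact absurd e' h
  · rw [if_neg h1, map_zero] at e'
    by_cases h2 : q p = p
    · rw [if_pos h2] at e'
      exact absurd e'.symm h
    · rw [dg_o h1, dg_o h2]

/-- composition with a constant operator -/
theorem GV.comp {V : ℂ → Fnl α} {W : Module.End ℂ (Pat α → ℂ)} (h : GV p n V)
    (hW : Commute W (uops.E p)) : GV p n fun s => V s ∘ₗ W := by
  intro r
  classical
  have : Fintype (Pat α) := Fintype.ofFinite _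
  refine TG.congr (TG.sum (f := fun (q : Pat α) s => (W (HS.ind r) q) * V s (HS.ind q)) Finset.univ
    fun q _ => ?_) (Ae.of fun s => by rw [LinearMap.comp_apply]; exact fnl_sum (V s) (W (HS.ind r)))
  by_cases h1 : W (HS.ind r) q = 0
  · exact (TG.zero _).congr (Ae.of fun s => by rw [h1, zero_mul])
  · rw [← occ_comm hW h1]
    exact (h q).cmul _

/-- **Composition with a rhombus.** -/
theorem GV.compR {V : ℂ → Fnl α} {u : ℂ → ℂ} (h : GV p n V) (hu : Aff u) (hij : i ≠ j)
    (hp : p = i ∨ p = j) : GV p (n + 2) fun s => Fm.Dn (u s) • (V s ∘ₗ uops.R i j (u s)) := by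
  intro r
  classical
  have : Fintype (Pat α) := Fintype.ofFinite _
  refine TG.congr (TG.sum (f := fun (q : Pat α) s =>
    (Fm.Dn (u s) * uops.R i j (u s) (HS.ind r) q) * V s (HS.ind q)) Finset.univ
    fun q _ => ?_) (Ae.of fun s => ?_)
  · have hle := dg_le (p := p) (q := q)
    have e : n + 2 + dg p r = (2 + dg p r - dg p q) + (n + dg p q) := by omega
    rw [e]
    exact (R_mat hu hij hp q r).mul (h q)
  · rw [LinearMap.smul_apply, LinearMap.comp_apply, smul_eq_mul, fnl_sum (V s) (uops.R i j (u s) (HS.ind r)),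
      Finset.mul_sum]
    exact Finset.sum_congr rfl fun q _ => by ring

/-- **The line `p` is moved above the lines `A`.** -/
theorem GV.up {z : α → ℂ} {X : List α} {V : ℂ → List α → Fnl α} (hpX : p ∉ X)
    (hex : ∀ A a B, A ++ a :: B = X → Ae fun s =>
      V s (A ++ a :: p :: B) = V s (A ++ p :: a :: B) ∘ₗ uops.R p a (s - z a))
    (h0 : GV p n fun s => V s (p :: X)) : ∀ A B, A ++ B = X →
      GV p (n + 2 * A.length) fun s => DA z A s • V s (A ++ p :: B) := by
  intro A
  induction A using List.reverseRecOn with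
  | nil =>
    intro B hB
    rw [List.nil_append] at hB
    subst hB
    exact h0.congr (Ae.of fun s => by simp [DA])
  | append_singleton A a ih =>
    intro B hB
    have hB' : A ++ a :: B = X := by rw [← hB]; simp
    have h1 := ih (a :: B) hB'
    have hap : p ≠ a := by
      rintro rfl
      exact hpX (by rw [← hB']; simp)
    have h2 := h1.compR (u := fun s => s - z a) (i := p) (j := a) ⟨-z a, Or.inl fun s => by ring⟩ hap
      (Or.inl rfl)
    have e : n + 2 * (A ++ [a]).length = n + 2 * A.length + 2 := by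
      rw [List.length_append, List.length_singleton]
      ring
    rw [e]
    refine h2.congr ((hex A a B hB').mono fun s hs => ?_)
    have e1 : A ++ [a] ++ p :: B = A ++ a :: p :: B := by simp
    have e2 : DA z (A ++ [a]) s = DA z A s * Fm.Dn (s - z a) := by
      unfold DA
      rw [List.map_append, List.prod_append]
      simp
    rw [e1, hs, e2]
    refine LinearMap.ext fun F => ?_
    simp only [LinearMap.smul_apply, LinearMap.comp_apply, smul_eq_mul]
    ring

end occ

end Pool.Agent.TC
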