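import Pool.Agent.TC.Fam
import Pool.Agent.TC.DegA
import Pool.Agent.NUTV.Line

/-!
# The one leg function as a function of one ended line (helper70)

`LP V z X p n`: the functional `V` of the lines `X` is a Laurent polynomial of the line `p`, of degree `2 n` if `p`
is empty, `2 n + 1` if `p` is occupied (`TC/Deg`), with its value at all the rapidities of `p` at which `X` is
ordered generic.  `WT_O1`, `WT_E1`, `WT_E2`: the same for `WT` (occupied or empty line of the first half strip,
empty line of the second half strip).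
-/

set_option autoImplicit false

namespace Pool.Agent.TC

open _root_.Pool.Agent.EXL _root_.Pool.Agent.EXL.Pat
open _root_.Pool.Agent.EXL.Fm (lam)
open _root_.Pool.Agent.NUF _root_.Pool.Agent.NUU _root_.Pool.Agent.NUT2 _root_.Pool.Agent.NUTV
open _root_.Pool.Agent.NUF.Fr (TP ee)
open Complex (I exp sin cos)
open scoped Polynomial

section LP

variable {α : Type*} [DecidableEq α]

/-- **The functional as a function of the line `p`.** -/
def LP (V : (α → ℂ) → Fnl α) (z : α → ℂ) (X : List α) (p : α) (n : ℕ) : Prop :=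
  ∀ F : Pat α → ℂ,
    (∃ f, TP (2 * n) f ∧ ∀ s, Go (Function.update z p s) X →
      V (Function.update z p s) (opE ℂ p F) = f s) ∧
    ∃ f, TP (2 * n + 1) f ∧ ∀ s, Go (Function.update z p s) X →
      V (Function.update z p s) (F - opE ℂ p F) = f s

theorem upd_negT (z : α → ℂ) (p : α) (s : ℂ) :
    (fun i => -Function.update z p s i) = Function.update (fun i => -z i) p (-s) := by
  funext i
  by_cases h : i = p
  · subst h
    rw [Function.update_self, Function.update_self]
  · rw [Function.update_of_ne h, Function.update_of_ne h]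

/-- the polynomial of a trigonometric polynomial -/
theorem TP.toPol {n : ℕ} {f : ℂ → ℂ} (h : TP n f) : ∃ P : ℂ[X], P.natDegree ≤ n ∧
    ∀ s, exp (I * s) ^ n * f s = P.eval (exp (I * s) ^ 2) := by
  obtain ⟨P, h1, h2⟩ := h
  refine ⟨P, h1, fun s => ?_⟩
  have e1 : exp (I * s) ^ n = exp (n * (I * s)) := (Complex.exp_nat_mul _ _).symm
  have e2 : exp (I * s) ^ 2 = ee s := by
    rw [← Complex.exp_nat_mul]
    rfl
  rw [e1, e2, h2]

end LP

section WT

variable {ι : Type*} [DecidableEq ι] {ω : ℂ} {z : ι → ℂ} {L K : List (ι × ι)} {A B : List ι}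
  {q g m p : ι} {n : ℕ}

/-- the functionals of the second half strip do not see a line of the first one -/
theorem PH_updL (hp : p ∉ ll K L B) (s : ℂ) :
    PH (Function.update z p s) (ll K L B) = PH z (ll K L B) :=
  (PH_congr (upd_out hp)).symm

theorem PS_updL (hp : p ∉ ll K L B) (s : ℂ) :
    PS (Function.update z p s) g (ll K L B) = PS z g (ll K L B) :=
  (PS_congr (upd_out hp)).symm

theorem PH_updR (hp : p ∉ lr K L A) (s : ℂ) :
    PH (fun i => -Function.update z p s i) (lr K L A) = PH (fun i => -z i) (lr K L A) := by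
  rw [upd_negT]
  exact (PH_congr (upd_out hp)).symm

theorem PS_updR (hp : p ∉ lr K L A) (s : ℂ) :
    PS (fun i => -Function.update z p s i) q (lr K L A) = PS (fun i => -z i) q (lr K L A) := by
  rw [upd_negT]
  exact (PS_congr (upd_out hp)).symm

theorem mem_lr (hp : p ∈ A) : p ∈ lr K L A := by
  unfold lr
  simp [hp]

theorem mem_ll (hp : p ∈ B) : p ∈ ll K L B := by
  unfold ll
  simp [hp]

variable (sH : ∀ (w : ι → ℂ) (X : List ι), SupS {x | x ∈ X} (PH w X))
  (sS : ∀ (w : ι → ℂ) (b : ι) (X : List ι), SupS (insert b {x | x ∈ X}) (PS w b X))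

include sH sS

/-- **The occupied line of the first half strip.** -/
theorem WT_O1 (h : OkT K L A B q g p) (hp : p ∈ A)
    (h1 : LP (fun w => PS w q (lr K L A)) (fun i => -z i) (lr K L A) p n)
    (h2 : LP (fun w => PH w (lr K L A)) (fun i => -z i) (lr K L A) p n) :
    ∃ f, TP (2 * n + 1) f ∧ ∀ s, Go (fun i => -Function.update z p s i) (lr K L A) →
      WT ω (Function.update z p s) K L A B q g p = f s := by
  have hpr := mem_lr (K := K) (L := L) hp
  have hpl : p ∉ ll K L B := (h.outL).2.2.2 p hpr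
  obtain ⟨f1, t1, e1⟩ := (h1 (WF (nuw ω) (chX L q) (PH z (ll K L B)) p q (K ++ L))).2
  obtain ⟨f2, t2, e2⟩ := (h2 (WF (nuw ω) (chX L g) (PS z g (ll K L B)) p g (K ++ L))).2
  refine ⟨_, (TP.refl t1).add (TP.refl t2), fun s hs => ?_⟩
  unfold WT WR WG
  rw [PH_updL hpl, PS_updL hpl]
  rw [upd_negT] at hs ⊢
  rw [← e1 (-s) hs, ← e2 (-s) hs]
  have k1 := Wp_O (ν := nuw ω) (χ := chX L q) (q := q) (L := K ++ L) (m := p) (nuw_zero ω)
    (sS (Function.update (fun i => -z i) p (-s)) q (lr K L A)) (sH z (ll K L B)) h.disjR hpl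
  have k2 := Wp_O (ν := nuw ω) (χ := chX L g) (q := g) (L := K ++ L) (m := p) (nuw_zero ω)
    (sH (Function.update (fun i => -z i) p (-s)) (lr K L A)) (sS z g (ll K L B)) h.disjL (by
      rintro (e | e)
      · exact h.outR.2.1 (e ▸ hpr)
      · exact hpl e)
  rw [k1, k2]

/-- **An empty line of the first half strip.** -/
theorem WT_E1 (h : OkT K L A B q g m) (hp : p ∈ A) (hpm : p ≠ m)
    (h1 : LP (fun w => PS w q (lr K L A)) (fun i => -z i) (lr K L A) p n)
    (h2 : LP (fun w => PH w (lr K L A)) (fun i => -z i) (lr K L A) p n) :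
    ∃ f, TP (2 * n) f ∧ ∀ s, Go (fun i => -Function.update z p s i) (lr K L A) →
      WT ω (Function.update z p s) K L A B q g m = f s := by
  have hpr := mem_lr (K := K) (L := L) hp
  have hpl : p ∉ ll K L B := (h.outL).2.2.2 p hpr
  have hpq : p ≠ q := fun e => h.outR.1 (e ▸ hpr)
  have hpg : p ≠ g := fun e => h.outR.2.1 (e ▸ hpr)
  have h3 : ∀ t ∈ K ++ L, p ≠ t.1 ∧ p ≠ t.2 := by
    intro t ht
    have hn := h.nd
    unfold sites at hn
    simp only [List.nodup_append, List.nodup_cons, List.map_append, List.mem_append, List.mem_cons] at hn ht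
    grind
  obtain ⟨f1, t1, e1⟩ := (h1 (WF (nuw ω) (chX L q) (PH z (ll K L B)) m q (K ++ L))).1
  obtain ⟨f2, t2, e2⟩ := (h2 (WF (nuw ω) (chX L g) (PS z g (ll K L B)) m g (K ++ L))).1
  refine ⟨_, (TP.refl t1).add (TP.refl t2), fun s hs => ?_⟩
  unfold WT WR WG
  rw [PH_updL hpl, PS_updL hpl]
  rw [upd_negT] at hs ⊢
  rw [← e1 (-s) hs, ← e2 (-s) hs]
  have k1 := Wp_E (ν := nuw ω) (χ := chX L q) (q := q) (L := K ++ L) (m := m) (p := p) (nuw_zero ω)
    (sS (Function.update (fun i => -z i) p (-s)) q (lr K L A)) (sH z (ll K L B)) h.disjR hpl hpm hpq h3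
  have k2 := Wp_E (ν := nuw ω) (χ := chX L g) (q := g) (L := K ++ L) (m := m) (p := p) (nuw_zero ω)
    (sH (Function.update (fun i => -z i) p (-s)) (lr K L A)) (sS z g (ll K L B)) h.disjL (by
      rintro (e | e)
      · exact hpg e
      · exact hpl e) hpm hpg h3
  rw [k1, k2]

/-- **An empty line of the second half strip.** -/
theorem WT_E2 [Finite ι] (h : OkT K L A B q g m) (hp : p ∈ B) (hpm : p ≠ m)
    (h1 : LP (fun w => PH w (ll K L B)) z (ll K L B) p n)
    (h2 : LP (fun w => PS w g (ll K L B)) z (ll K L B) p n) :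
    ∃ f, TP (2 * n) f ∧ ∀ s, Go (Function.update z p s) (ll K L B) →
      WT ω (Function.update z p s) K L A B q g m = f s := by
  have hpl := mem_ll (K := K) (L := L) hp
  have hpr : p ∉ lr K L A := (h.outR).2.2 p hpl
  have hpq : p ≠ q := fun e => h.outL.1 (e ▸ hpl)
  have hpg : p ≠ g := fun e => h.outL.2.1 (e ▸ hpl)
  have h3 : ∀ t ∈ (K ++ L).map Prod.swap, p ≠ t.1 ∧ p ≠ t.2 := by
    intro t ht
    obtain ⟨t', ht', rfl⟩ := List.mem_map.1 ht
    have hn := h.nd
    unfold sites at hn
    simp only [List.nodup_append, List.nodup_cons, List.map_append, List.mem_append, List.mem_cons] at hn ht'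
    simp only [Prod.fst_swap, Prod.snd_swap]
    grind
  obtain ⟨f1, t1, e1⟩ :=
    (h1 (WF (nuw ω) (chX L q) (PS (fun i => -z i) q (lr K L A)) m q ((K ++ L).map Prod.swap))).1
  obtain ⟨f2, t2, e2⟩ :=
    (h2 (WF (nuw ω) (chX L g) (PH (fun i => -z i) (lr K L A)) m g ((K ++ L).map Prod.swap))).1
  refine ⟨_, t1.add t2, fun s hs => ?_⟩
  unfold WT WR WG
  rw [PH_updR hpr, PS_updR hpr]
  rw [← e1 s hs, ← e2 s hs]
  have d1 : Disjoint {x | x ∈ ll K L B} (insert q {x | x ∈ lr K L A}) := h.disjR.symm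
  have d2 : Disjoint (insert g {x | x ∈ ll K L B}) {x | x ∈ lr K L A} := h.disjL.symm
  have k1 := Wp_E (ν := nuw ω) (χ := chX L q) (q := q) (L := (K ++ L).map Prod.swap) (m := m) (p := p)
    (nuw_zero ω) (sH (Function.update z p s) (ll K L B)) (sS (fun i => -z i) q (lr K L A)) d1 (by
      rintro (e | e)
      · exact hpq e
      · exact hpr e) hpm hpq h3
  have k2 := Wp_E (ν := nuw ω) (χ := chX L g) (q := g) (L := (K ++ L).map Prod.swap) (m := m) (p := p)
    (nuw_zero ω) (sS (Function.update z p s) g (ll K L B)) (sH (fun i => -z i) (lr K L A)) d2 hpr hpm hpg h3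
  rw [k1, k2, Wp_swap (nuw_neg ω) (nuw_zero ω) (sS (fun i => -z i) q (lr K L A))
    (sH (Function.update z p s) (ll K L B)) h.disjR,
    Wp_swap (nuw_neg ω) (nuw_zero ω) (sH (fun i => -z i) (lr K L A))
    (sS (Function.update z p s) g (ll K L B)) h.disjL]

end WT

end Pool.Agent.TC
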