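import Pool.Agent.TC.Deg
import Pool.Agent.TC.LineW

/-!
# One line of a half strip, the exit functional (helper4)

The exit functional `PS` of a half strip is a trigonometric polynomial of degree `2 N` (line `p` empty) or
`2 N + 1` (line `p` occupied) in the rapidity of the line `p`, `N` = the number of the other lines: `LP_PS`.
The same for the zero-leg functional (helper15's `PH_degE`, `PH_degO`): `LP_PH`.
-/

set_option autoImplicit false

namespace Pool.Agent.TC

open _root_.Pool.Agent.EXL _root_.Pool.Agent.EXL.Pat Filter Topology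
open _root_.Pool.Agent.EXL.Fm (lam)
open _root_.Pool.Agent.NUF _root_.Pool.Agent.NUU _root_.Pool.Agent.NUTV
open _root_.Pool.Agent.NUF.Fr (TP ee)
open Complex (I exp sin cos)
open Polynomial (C natDegree)

/-! ### Shifts -/

section shift

variable {n m : ℕ} {f g : ℂ → ℂ}

theorem TP.shift (h : TP n f) (c : ℂ) : TP n fun s => f (s + c) := by
  obtain ⟨P, h1, h2⟩ := h
  refine ⟨C (exp (-(n * (I * c)))) * P.comp (C (ee c) * Polynomial.X), ?_, fun s => ?_⟩
  · refine (Polynomial.natDegree_C_mul_le _ _).trans (Polynomial.natDegree_comp_le.trans ?_)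
    refine (Nat.mul_le_mul h1 ((Polynomial.natDegree_C_mul_le _ _).trans
      Polynomial.natDegree_X_le)).trans ?_
    rw [mul_one]
  · have h3 := h2 (s + c)
    rw [Polynomial.eval_mul, Polynomial.eval_C, Polynomial.eval_comp, Polynomial.eval_mul,
      Polynomial.eval_C, Polynomial.eval_X]
    have e1 : ee (s + c) = ee c * ee s := by
      unfold ee
      rw [← Complex.exp_add]
      congr 1
      ring
    have e2 : exp (n * (I * s)) = exp (-(n * (I * c))) * exp (n * (I * (s + c))) := by
      rw [← Complex.exp_add]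
      congr 1
      ring
    show exp (n * (I * s)) * f (s + c) = _
    rw [← e1, ← h3, e2, mul_assoc]

theorem TP.sub_arg (h : TP n f) (c : ℂ) : TP n fun s => f (c - s) :=
  (TP.shift (TP.refl h) (-c)).congr fun s => by rw [show -(s + -c) = c - s by ring]

end shift

/-! ### The nodes -/

theorem sin_imS {v : ℂ} (h : v.im ≠ 0) : sin v ≠ 0 := by
  intro h1
  obtain ⟨k, hk⟩ := Complex.sin_eq_zero_iff.1 h1
  apply h
  rw [hk]
  simp

/-- the nodes of the interpolation -/
theorem im_far {α : Type*} (z : α → ℂ) (X : List α) :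
    ∃ t0 : ℝ, 0 < t0 ∧ ∀ t : ℝ, t0 ≤ t → ∀ k ∈ X, (I * t - z k).im ≠ 0 := by
  induction X with
  | nil => exact ⟨1, one_pos, fun t _ k hk => absurd hk (by simp)⟩
  | cons a X ih =>
    obtain ⟨t0, h0, h1⟩ := ih
    refine ⟨max t0 ((z a).im + 1), lt_max_of_lt_left h0, fun t ht k hk => ?_⟩
    rcases List.mem_cons.1 hk with e | hk
    · have h2 : (z a).im + 1 ≤ t := (le_max_right _ _).trans ht
      rw [e, Complex.sub_im, Complex.mul_im, Complex.I_re, Complex.I_im, Complex.ofReal_re,
        Complex.ofReal_im]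
      intro h
      linarith
    · exact h1 t ((le_max_left _ _).trans ht) k hk

theorem hh_im : hh.im = 0 := by
  rw [hh_val, show (3 / 2 : ℂ) = ((3 / 2 : ℝ) : ℂ) by push_cast; rfl, Complex.mul_im, lam_im]
  simp

theorem fa_far {t : ℝ} (h : 0 < t) : Fr.fa (hh - I * t) ≠ 0 := by
  unfold Fr.fa
  refine sin_imS ?_
  rw [Complex.sub_im, hh_im, Complex.mul_im, Complex.I_re, Complex.I_im, Complex.ofReal_re,
    Complex.ofReal_im]
  intro h'
  linarith

theorem cf_far (t : ℝ) : cf (hh - I * t) = (Real.cosh (2 * t) : ℂ) := by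
  unfold cf
  rw [hh_val, show 2 * (3 / 2 * lam - I * t) - 3 * lam = -((2 * t : ℝ) * I) by push_cast; ring,
    Complex.cos_neg, Complex.cos_mul_I, Complex.ofReal_cosh]

theorem cf_far_inj {t t' : ℝ} (h : 0 < t) (h' : 0 < t') (e : cf (hh - I * t) = cf (hh - I * t')) :
    t = t' := by
  rw [cf_far, cf_far] at e
  have e1 : Real.cosh (2 * t) = Real.cosh (2 * t') := by exact_mod_cast e
  have e2 := Real.cosh_strictMonoOn.injOn (Set.mem_Ici.2 (by linarith : (0 : ℝ) ≤ 2 * t))
    (Set.mem_Ici.2 (by linarith : (0 : ℝ) ≤ 2 * t')) e1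
  linarith

section main

variable {α : Type*} [DecidableEq α] {z z' : α → ℂ} {X Y A B : List α} {b c d i j k p q : α}

/-! ### The first bound -/

/-- **Interpolation in the rapidity of the exit site.** -/
theorem PS_lag [Finite α] (hn : (b :: X).Nodup) (hc : c ∉ X) (hd : d ∉ X) (hcd : c ≠ d)
    (hX : 0 < X.length) (hG : Go z X) {t : ℕ → ℝ} (ht : ∀ j, 0 < t j) (hti : Function.Injective t) :
    PS z b X = ∑ j ∈ Finset.range X.length, (2 * Fr.s2 * (Fr.fa (hh - I * t j) *
      ∏ k ∈ (Finset.range X.length).erase j, (cf (hh - I * t j) - cf (hh - I * t k))))⁻¹ •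
        (PH (Function.update z b (I * t j)) (b :: X) ∘ₗ oc b) := by
  have hn1 := List.nodup_cons.1 hn
  refine LinearMap.ext fun F => ?_
  have h1 := psP_top (z := z) (b := b) hn1.2 F
  have hinj : Set.InjOn (fun j => cf (hh - I * t j)) (Finset.range X.length : Set ℕ) :=
    fun i _ j _ e => hti (cf_far_inj (ht i) (ht j) e)
  have hdeg : (psP z b X F).degree < (Finset.range X.length).card := by
    rw [Finset.card_range]
    refine lt_of_le_of_lt Polynomial.degree_le_natDegree ?_
    exact_mod_cast (by omega : (psP z b X F).natDegree < X.length)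
  have h2 := Lagrange.coeff_eq_sum hinj hdeg
  rw [Finset.card_range, h1.2] at h2
  have h3 : PS z b X F = (2 * Fr.s2)⁻¹ * (2 * Fr.s2 * PS z b X F) := by
    rw [inv_mul_cancel_left₀ s2_ne]
  rw [h3, h2, LinearMap.sum_apply, Finset.mul_sum]
  refine Finset.sum_congr rfl fun j _ => ?_
  have h4 := psP_val (s := I * t j) hn hc hd hcd hG F
  have e1 : oc b F = F - opE ℂ b F := by
    show F - uops.E b F = _
    rw [uops_E]
  rw [LinearMap.smul_apply, LinearMap.comp_apply, e1, h4, smul_eq_mul, mul_inv, mul_inv]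
  have h5 := fa_far (ht j)
  field_simp

theorem Gk.insb {s : ℂ} (h : Gk z X) (hb : b ∉ X) (hs : ∀ k ∈ X, (s - z k).im ≠ 0) :
    Gk (Function.update z b s) (b :: X) := by
  have hz := upd_out (z := z) (s := s) hb
  have h' := h.congr hz
  have him : ∀ (v : ℂ) (m : ℤ), v.im ≠ 0 → sin (v + m * lam) ≠ 0 := fun v m hv => by
    refine sin_imS ?_
    rw [Complex.add_im, Complex.mul_im, lam_im, Complex.intCast_im]
    simpa using hv
  intro i hi j hj hij m
  rcases List.mem_cons.1 hi with e | hi1
  · rcases List.mem_cons.1 hj with e' | hj1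
    · exact absurd (e.trans e'.symm) hij
    · rw [e, Function.update_self, ← hz j hj1]
      exact him _ m (hs j hj1)
  · rcases List.mem_cons.1 hj with e' | hj1
    · rw [e', Function.update_self, ← hz i hi1]
      refine him _ m ?_
      rw [← neg_sub, Complex.neg_im]
      exact neg_ne_zero.2 (hs i hi1)
    · exact h' i hi1 j hj1 hij m

theorem GV.csmul {n : ℕ} {V : ℂ → Fnl α} (h : GV p n V) (k : ℂ) : GV p n fun s => k • V s :=
  fun q => ((h q).cmul k).congr (Ae.of fun s => by rw [LinearMap.smul_apply, smul_eq_mul])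

/-- the zero-leg functional -/
theorem PH_GT [Finite α] (hn : (A ++ p :: B).Nodup) (hc : c ∉ A ++ p :: B) (hd : d ∉ A ++ p :: B)
    (hcd : c ≠ d) (hG : Gk z (A ++ B)) :
    GV p (2 * (A ++ B).length) fun s => PH (Function.update z p s) (A ++ p :: B) := by
  intro q
  obtain ⟨g, h1, h2⟩ := PH_deg hn hc hd hcd hG q
  have hn2 : (p :: (A ++ B)).Nodup := (List.perm_middle (l₁ := A)).nodup_iff.1 hn
  refine ⟨g, h1, (ae_fb z (A ++ B)).mono fun s hs => h2 s ?_⟩
  exact Go.ins (go_of hG.gz (List.nodup_cons.1 hn2).2) (List.nodup_cons.1 hn2).1 hs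

/-- **The first bound.** -/
theorem PS_up [Finite α] (hn : (b :: (A ++ p :: B)).Nodup)
    (hc : c ∉ b :: (A ++ p :: B)) (hd : d ∉ b :: (A ++ p :: B)) (hcd : c ≠ d) (hG : Gk z (A ++ B)) :
    GV p (2 * (A ++ B).length + 2) fun s => PS (Function.update z p s) b (A ++ p :: B) := by
  have hn1 := List.nodup_cons.1 hn
  have hn2 : (p :: (A ++ B)).Nodup := (List.perm_middle (l₁ := A)).nodup_iff.1 hn1.2
  have hp := (List.nodup_cons.1 hn2).1
  have hbX : b ∉ A ++ B := fun h => hn1.1 ((List.perm_middle (l₁ := A)).mem_iff.2 (by simp_all))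
  have hbp : b ≠ p := fun e => hn1.1 (by simp [e])
  have hcX : c ∉ A ++ p :: B := fun h => hc (List.mem_cons_of_mem _ h)
  have hdX : d ∉ A ++ p :: B := fun h => hd (List.mem_cons_of_mem _ h)
  have hlen : 0 < (A ++ p :: B).length := by simp
  obtain ⟨t0, h0, h1⟩ := im_far z (A ++ B)
  set t : ℕ → ℝ := fun j => t0 + j with ht
  have ht0 : ∀ j, 0 < t j := fun j => by
    have : (0 : ℝ) ≤ j := Nat.cast_nonneg j
    rw [ht]
    positivity
  have hti : Function.Injective t := fun i j e => by
    have e1 : (i : ℝ) = j := by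
      have e2 : t0 + (i : ℝ) = t0 + j := e
      linarith
    exact_mod_cast e1
  have h2 : ∀ j, GV p (2 * (A ++ B).length + 2) fun s =>
      PH (Function.update (Function.update z p s) b (I * t j)) (b :: (A ++ p :: B)) ∘ₗ oc b := by
    intro j
    have hF := h1 (t j) (by
      have : (0 : ℝ) ≤ j := Nat.cast_nonneg j
      show t0 ≤ t0 + (j : ℝ)
      linarith)
    have h3 := PH_GT (z := Function.update z b (I * t j)) (A := b :: A) (B := B) (p := p) hn hc hd hcd
      (Gk.insb hG hbX hF)
    have h4 := GV.comp (W := oc b) h3 ((Commute.one_left _).sub_left ulaws.cEE)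
    have e : 2 * (b :: A ++ B).length = 2 * (A ++ B).length + 2 := by
      rw [List.cons_append, List.length_cons]
      ring
    rw [e] at h4
    refine h4.congr (Ae.of fun s => ?_)
    rw [Function.update_comm hbp]
    rfl
  refine (GV.sum (Finset.range (A ++ p :: B).length) fun j _ => (h2 j).csmul
    (2 * Fr.s2 * (Fr.fa (hh - I * t j) * ∏ k ∈ (Finset.range (A ++ p :: B).length).erase j,
      (cf (hh - I * t j) - cf (hh - I * t k))))⁻¹).congr ((ae_fb z (A ++ B)).mono fun s hs => ?_)
  exact PS_lag hn hcX hdX hcd hlen (Go.ins (go_of hG.gz (List.nodup_cons.1 hn2).2) hp hs) ht0 hti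

/-! ### The lowest line -/

theorem Aff.sm (c : ℂ) : Aff fun s => c - s := ⟨c, Or.inr fun _ => rfl⟩

/-- the product of the sines -/
noncomputable def SX (z : α → ℂ) (Y : Finset α) (s : ℂ) : ℂ := ∏ k ∈ Y, sin (z k - s)

omit [DecidableEq α] in
theorem SX_tp (z : α → ℂ) (Y : Finset α) : TG Y.card (SX z Y) := by
  have h := TG.prod (m := 1) (f := fun k s => sin (z k - s)) Y fun k _ => TG.of (TP_sm (z k))
  rwa [one_mul] at h

omit [DecidableEq α] in
theorem Fb.sin'' {s : ℂ} (h : Fb z X s) (hk : k ∈ X) : sin (z k - s) ≠ 0 := h.sin' hk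

theorem M_one (i : α) (w : ℂ) : (uops (ι := α)).M z i w [] = 1 := rfl

theorem oE_bot : oE uops z (p :: X) p = 1 := by
  have : below (p :: X) p = [] := by
    unfold below
    rw [List.takeWhile_cons_of_neg (by simp)]
  unfold oE
  rw [this]
  rfl

theorem oE_conc (h : i ≠ p) : oE uops z (p :: X) i = uops.R i p (z i - z p) * oE uops z X i := by
  have : below (p :: X) i = p :: below X i := by
    unfold below
    rw [List.takeWhile_cons_of_pos (by simpa using h.symm)]
  unfold oE
  rw [this]
  rfl

/-- The line `p` is joined to the exit site. -/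
theorem psT_bot1 [Finite α] (hn : (p :: X).Nodup) (hbp : b ≠ p) :
    GV p (3 * X.length) fun s => SX z X.toFinset s • psT (Function.update z p s) b (p :: X) p := by
  have hn1 := List.nodup_cons.1 hn
  have hcard : X.toFinset.card = X.length := List.toFinset_card_of_nodup hn1.2
  have e1 : (p :: X).toFinset.erase p = X.toFinset := by
    rw [List.toFinset_cons, Finset.erase_insert fun h => hn1.1 (List.mem_toFinset.1 h)]
  have hV : ∀ s, psT (Function.update z p s) b (p :: X) p =
      Fr.wt (ux (Function.update z p s)) p X.toFinset • (PH z X ∘ₗ opCu ℂ b p) := by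
    intro s
    unfold psT
    rw [e1, List.erase_cons_head, oE_bot, mul_one, ← PH_congr (upd_out hn1.1)]
  have hs : Ae fun s => SX z X.toFinset s * Fr.wt (ux (Function.update z p s)) p X.toFinset =
      4 * Fr.c3 * Fr.fa' (hh - s) * ∏ k ∈ X.toFinset, -Fr.pn (ux z k) (hh - s) := by
    refine (ae_fb z X).mono fun s hs => ?_
    unfold Fr.wt SX
    rw [ux_upd]
    have : ∏ k ∈ X.toFinset, -Fr.pn (ux z k) (hh - s) = (∏ k ∈ X.toFinset, sin (z k - s)) *
        ∏ k ∈ X.toFinset, Fr.pr (ux (Function.update z p s) k) (hh - s) := by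
      rw [← Finset.prod_mul_distrib]
      refine Finset.prod_congr rfl fun k hk => ?_
      have hkX := List.mem_toFinset.1 hk
      have e2 : ux (Function.update z p s) k = ux z k := by
        unfold ux
        rw [← upd_out hn1.1 k hkX]
      have e3 : sin (ux z k - (hh - s)) = -sin (z k - s) := by
        rw [ux_hh, show hh - z k - (hh - s) = -(z k - s) by ring, Complex.sin_neg]
      have h3 := hs.sin'' hkX
      rw [e2, Fr.pr_pn, e3]
      field_simp
    rw [this]
    ring
  have ht : TG (3 * X.length + 1) fun s =>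
      4 * Fr.c3 * Fr.fa' (hh - s) * ∏ k ∈ X.toFinset, -Fr.pn (ux z k) (hh - s) := by
    have h1 : TP 1 fun s => 4 * Fr.c3 * Fr.fa' (hh - s) :=
      (TP.sub_arg Fr.TP_fa' hh).cmul (4 * Fr.c3)
    have h2 : TP (3 * X.toFinset.card) fun s => ∏ k ∈ X.toFinset, -Fr.pn (ux z k) (hh - s) :=
      TP.prod X.toFinset fun k _ => TP.sub_arg (Fr.TP_pn1 (ux z k)) hh
    have h3 := h1.mul h2
    rw [hcard, show 1 + 3 * X.length = 3 * X.length + 1 by ring] at h3
    exact TG.of h3
  intro q
  by_cases h : q p = p
  · refine (TG.zero _).congr (Ae.of fun s => ?_)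
    show (SX z X.toFinset s • psT (Function.update z p s) b (p :: X) p) (HS.ind q) = 0
    rw [hV, LinearMap.smul_apply, LinearMap.smul_apply, LinearMap.comp_apply]
    have e : opCu ℂ b p (HS.ind q) = (0 : Pat α → ℂ) := by
      funext r
      rw [opCu_apply]
      split_ifs with hr
      · refine HS.ind_ne fun e => ?_
        have e2 : cup b p r p = b := cuR hr.1 hr.2 hbp
        rw [e, h] at e2
        exact hbp e2.symm
      · rfl
    rw [e, map_zero, smul_zero, smul_zero]
  · rw [dg_o h]
    refine (ht.cmul (PH z X (opCu ℂ b p (HS.ind q)))).congr (hs.mono fun s hs => ?_)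
    show (SX z X.toFinset s • psT (Function.update z p s) b (p :: X) p) (HS.ind q) = _
    rw [hV, LinearMap.smul_apply, LinearMap.smul_apply, LinearMap.comp_apply, smul_eq_mul, smul_eq_mul,
      ← mul_assoc, hs, mul_comm]

/-- Another line is joined to the exit site. -/
theorem psT_bot2 [Finite α] (hn : (p :: X).Nodup) (hbp : b ≠ p) (hi : i ∈ X)
    (hP : GV p (2 * (X.erase i).length) fun s => PH (Function.update z p s) (p :: X.erase i)) :
    GV p (3 * X.length) fun s => SX z X.toFinset s • psT (Function.update z p s) b (p :: X) i := by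
  have hn1 := List.nodup_cons.1 hn
  have hip : i ≠ p := fun e => hn1.1 (e ▸ hi)
  have hcard : X.toFinset.card = X.length := List.toFinset_card_of_nodup hn1.2
  have hi' : i ∈ X.toFinset := List.mem_toFinset.2 hi
  have hpF : p ∉ X.toFinset.erase i := fun h =>
    hn1.1 (List.mem_toFinset.1 (Finset.mem_of_mem_erase h))
  have e1 : (p :: X).toFinset.erase i = insert p (X.toFinset.erase i) := by
    rw [List.toFinset_cons, Finset.erase_insert_of_ne hip.symm]
  have e2 : (p :: X).erase i = p :: X.erase i := List.erase_cons_tail (by simpa using hip.symm)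
  have hlen : (X.erase i).length + 1 = X.length := by
    rw [List.length_erase_of_mem hi]
    have := List.length_pos_of_mem hi
    omega
  have hcommC : Commute (opCu ℂ b i) (uops.E p) := uhlaws.cuE hbp hip
  have hcommO : Commute (oE uops z X i) (uops.E p) := HLaws.oE_E ulaws hip.symm hn1.1
  have h1 := ((hP.comp hcommC).compR (u := fun s => z i - s) (i := i) (j := p) (Aff.sm (z i)) hip
    (Or.inr rfl)).comp hcommO
  have h2 : TG (1 + (X.toFinset.erase i).card) fun s => 2 * Fr.fb (hh - s + ux z i) *
      SX z (X.toFinset.erase i) s := by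
    have h3 : TP 1 fun s => 2 * Fr.fb (hh - s + ux z i) :=
      ((TP_sm (2 * lam + (hh + ux z i))).cmul 2).congr fun s => by
        unfold Fr.fb
        congr 2
        ring
    exact (TG.of h3).mul (SX_tp z _)
  have h3 := (GV.smul h2 h1).csmul (Fr.wt (ux z) i (X.toFinset.erase i))
  have e3 : 1 + (X.toFinset.erase i).card + (2 * (X.erase i).length + 2) = 3 * X.length := by
    rw [Finset.card_erase_of_mem hi', hcard]
    omega
  rw [e3] at h3
  refine h3.congr ((ae_fb z X).mono fun s hs => ?_)
  have h4 := hs.sin'' hi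
  have e4 : ux (Function.update z p s) i = ux z i := by
    unfold ux
    rw [← upd_out hn1.1 i hi]
  have e5 : Fr.wt (ux (Function.update z p s)) i (X.toFinset.erase i) =
      Fr.wt (ux z) i (X.toFinset.erase i) := by
    refine wt_congr e4 fun k hk => ?_
    unfold ux
    rw [← upd_out hn1.1 k (List.mem_toFinset.1 (Finset.mem_of_mem_erase hk))]
  have e6 : Fr.pr (hh - s) (ux z i) = 2 * Fm.Dn (z i - s) * Fr.fb (hh - s + ux z i) / sin (z i - s) := by
    rw [Fr.pr_e, show hh - s - ux z i = z i - s by rw [ux_hh]; ring]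
  have e7 : SX z X.toFinset s = sin (z i - s) * SX z (X.toFinset.erase i) s := by
    unfold SX
    exact (Finset.mul_prod_erase _ (fun k => sin (z k - s)) hi').symm
  have e8 : oE uops (Function.update z p s) X i = oE uops z X i :=
    (oE_congr (upd_out hn1.1 i hi) (upd_out hn1.1)).symm
  unfold psT
  rw [e1, e2, Fr.wt_insert _ hpF, e5, ux_upd, e4, e6, e7, oE_conc hip, e8, Function.update_self,
    ← upd_out hn1.1 i hi]
  refine LinearMap.ext fun F => ?_
  simp only [LinearMap.smul_apply, LinearMap.comp_apply, Module.End.mul_apply, smul_eq_mul]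
  field_simp

/-- **The bottom formula.** -/
theorem PS_bot [Finite α] (hn : (b :: p :: X).Nodup) (hc : c ∉ b :: p :: X)
    (hd : d ∉ b :: p :: X) (hcd : c ≠ d) (hG : Gk z X) : GV p (3 * X.length) fun s =>
      SX z X.toFinset s • PS (Function.update z p s) b (p :: X) := by
  have hn1 := List.nodup_cons.1 hn
  have hn2 := List.nodup_cons.1 hn1.2
  have hbp : b ≠ p := fun e => hn1.1 (by simp [e])
  have key : ∀ i ∈ (p :: X).toFinset, GV p (3 * X.length) fun s =>
      SX z X.toFinset s • psT (Function.update z p s) b (p :: X) i := by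
    intro i hi
    rcases List.mem_cons.1 (List.mem_toFinset.1 hi) with e | hiX
    · rw [e]
      exact psT_bot1 hn1.2 hbp
    · refine psT_bot2 hn1.2 hbp hiX ?_
      refine PH_GT (A := []) (B := X.erase i) (c := c) (d := d) ?_ ?_ ?_ hcd
        (hG.sub fun x hx => List.mem_of_mem_erase hx)
      · exact List.Nodup.sublist (List.erase_sublist.cons_cons p) hn1.2
      · exact fun h => hc (List.mem_cons_of_mem _ ((List.erase_sublist.cons_cons p).subset h))
      · exact fun h => hd (List.mem_cons_of_mem _ ((List.erase_sublist.cons_cons p).subset h))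
  refine ((GV.sum _ key).csmul (2 * Fr.s2)⁻¹).congr (Ae.of fun s => ?_)
  rw [PS_eq, smul_comm, Finset.smul_sum]

/-! ### The degree -/

/-- **The degree of the exit functional.** -/
theorem PS_GT [Finite α] (hn : (b :: (A ++ p :: B)).Nodup)
    (hc : c ∉ b :: (A ++ p :: B)) (hd : d ∉ b :: (A ++ p :: B)) (hcd : c ≠ d) (hG : Gk z (A ++ B)) :
    GV p (2 * (A ++ B).length) fun s => PS (Function.update z p s) b (A ++ p :: B) := by
  have hn1 := List.nodup_cons.1 hn
  have hn2 : (p :: (A ++ B)).Nodup := (List.perm_middle (l₁ := A)).nodup_iff.1 hn1.2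
  have hp := (List.nodup_cons.1 hn2).1
  have hperm : ∀ A' B' : List α, A' ++ B' = A ++ B → (b :: (A' ++ p :: B')).Perm (b :: (A ++ p :: B)) :=
    fun A' B' e => List.Perm.cons b ((List.perm_middle (l₁ := A')).trans
      (by rw [e]; exact (List.perm_middle (l₁ := A)).symm))
  set X := A ++ B with hX
  have hbot : GV p (3 * X.length) fun s =>
      SX z X.toFinset s • PS (Function.update z p s) b (p :: X) := by
    have hp' := hperm [] X rfl
    exact PS_bot (hp'.nodup_iff.2 hn) (fun h => hc (hp'.mem_iff.1 h))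
      (fun h => hd (hp'.mem_iff.1 h)) hcd hG
  have hup := GV.up (z := z) (V := fun s L => SX z X.toFinset s • PS (Function.update z p s) b L) hp ?_
    hbot A B rfl
  · -- division
    have hfirst := PS_up hn hc hd hcd hG
    intro q
    obtain ⟨g, g1, g2⟩ := hfirst q
    obtain ⟨h, h1, h2⟩ := hup q
    refine ⟨g, ?_, g2⟩
    set L : List ℂ := lA z A ++ X.toFinset.toList.map fun k => -z k with hL
    have hlen : L.length = 2 * A.length + X.length := by
      rw [hL, List.length_append, lA_len, List.length_map, Finset.length_toList,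
        List.toFinset_card_of_nodup (List.nodup_cons.1 hn2).2]
    have hprod : ∀ s, (L.map fun c => sin (s + c)).prod =
        DA z A s * ((-1) ^ X.toFinset.card * SX z X.toFinset s) := by
      intro s
      rw [hL, List.map_append, List.prod_append, lA_prod, List.map_map]
      congr 1
      have e1 : (List.map ((fun c => sin (s + c)) ∘ fun k => -z k) X.toFinset.toList).prod =
          ∏ k ∈ X.toFinset, sin (s + -z k) := by
        rw [← Finset.prod_map_toList]
        rfl
      rw [e1]
      unfold SX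
      rw [← Finset.prod_const, ← Finset.prod_mul_distrib]
      refine Finset.prod_congr rfl fun k _ => ?_
      rw [show s + -z k = -(z k - s) by ring, Complex.sin_neg]
      ring
    have hh1 : TP (2 * X.length + dg p q + L.length) fun s => (-1) ^ X.toFinset.card * h s := by
      rw [hlen, show 2 * X.length + dg p q + (2 * A.length + X.length) =
        3 * X.length + 2 * A.length + dg p q by ring]
      exact h1.cmul _
    have hcont : Continuous fun s => g s * (L.map fun c => sin (s + c)).prod := by
      refine (TP.cont g1).mul (continuous_list_prod _ fun i _ => ?_)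
      fun_prop
    refine TP.div L hh1 (TP.cont g1) fun s => ?_
    refine Ae.eq (f := fun s => g s * (L.map fun c => sin (s + c)).prod) hcont (TP.cont hh1)
      ((g2.and h2).mono fun s hs => ?_) s
    simp only [← hs.2, hprod, ← hs.1, LinearMap.smul_apply, smul_eq_mul]
    ring
  · intro A' a B' e
    refine (ae_fb z X).mono fun s hs => ?_
    have hp1 := hperm A' (a :: B') e
    have hp2 := hperm (A' ++ [a]) B' (by rw [← e]; simp)
    have e2 : A' ++ [a] ++ p :: B' = A' ++ a :: p :: B' := by simp
    rw [e2] at hp2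
    have ha : a ∈ X := by rw [← e]; simp
    have hpa : a ≠ p := fun h => hp (h ▸ ha)
    have hGo : Go z X := go_of hG.gz (List.nodup_cons.1 hn2).2
    have g1 : Go (Function.update z p s) (A' ++ p :: a :: B') := by
      refine Go.ins (A := A') (B := a :: B') ?_ ?_ ?_
      · rwa [e]
      · rwa [e]
      · rwa [e]
    have g2 : Go (Function.update z p s) (A' ++ a :: p :: B') := by
      rw [← e2]
      have e3 : (A' ++ [a]) ++ B' = X := by rw [← e]; simp
      refine Go.ins (A := A' ++ [a]) (B := B') ?_ ?_ ?_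
      · rwa [e3]
      · rwa [e3]
      · rwa [e3]
    have h3 := PS_exch (z := Function.update z p s) (A := A') (B := B') (j := p) (k := a)
      (hp1.nodup_iff.2 hn) (fun h => hc (hp1.mem_iff.1 h)) (fun h => hd (hp1.mem_iff.1 h)) hcd g1 g2
    rw [Function.update_self, Function.update_of_ne hpa] at h3
    show SX z X.toFinset s • _ = (SX z X.toFinset s • _) ∘ₗ _
    rw [← h3]
    rfl

/-- **The degree, one state, at all the ordered generic rapidities.** -/
theorem PS_deg [Finite α] (hn : (b :: (A ++ p :: B)).Nodup) (hc : c ∉ b :: (A ++ p :: B))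
    (hd : d ∉ b :: (A ++ p :: B)) (hcd : c ≠ d) (hG : Gk z (A ++ B)) (q : Pat α) :
    ∃ g, TP (2 * (A ++ B).length + dg p q) g ∧ ∀ s, Go (Function.update z p s) (A ++ p :: B) →
      PS (Function.update z p s) b (A ++ p :: B) (HS.ind q) = g s := by
  obtain ⟨g, h1, h2⟩ := PS_GT hn hc hd hcd hG q
  refine ⟨g, h1, fun s hs => ?_⟩
  exact go_cont (f := fun s => PS (Function.update z p s) b (A ++ p :: B) (HS.ind q))
    (PS_dt (List.nodup_cons.1 hn).2 (fun x _ => upd_same_diff z p x s) hs (HS.ind q)).continuousAt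
    (TP.cont h1) h2

/-- **The degree, `p` empty.** -/
theorem PS_degE [Finite α] (hn : (b :: (A ++ p :: B)).Nodup) (hc : c ∉ b :: (A ++ p :: B))
    (hd : d ∉ b :: (A ++ p :: B)) (hcd : c ≠ d) (hG : Gk z (A ++ B)) (F : Pat α → ℂ) :
    ∃ g, TP (2 * (A ++ B).length) g ∧ ∀ s, Go (Function.update z p s) (A ++ p :: B) →
      PS (Function.update z p s) b (A ++ p :: B) (opE ℂ p F) = g s := by
  refine deg_fin (G := fun s => Go (Function.update z p s) (A ++ p :: B)) _ fun q hq => ?_
  have h1 : q p = p := by
    by_contra h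
    rw [opE_apply, if_neg h] at hq
    exact hq rfl
  have := PS_deg hn hc hd hcd hG q
  rwa [dg_e h1, add_zero] at this

/-- **The degree, `p` occupied.** -/
theorem PS_degO [Finite α] (hn : (b :: (A ++ p :: B)).Nodup) (hc : c ∉ b :: (A ++ p :: B))
    (hd : d ∉ b :: (A ++ p :: B)) (hcd : c ≠ d) (hG : Gk z (A ++ B)) (F : Pat α → ℂ) :
    ∃ g, TP (2 * (A ++ B).length + 1) g ∧ ∀ s, Go (Function.update z p s) (A ++ p :: B) →
      PS (Function.update z p s) b (A ++ p :: B) (F - opE ℂ p F) = g s := by
  refine deg_fin (G := fun s => Go (Function.update z p s) (A ++ p :: B)) _ fun q hq => ?_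
  have h1 : q p ≠ p := by
    intro h
    rw [Pi.sub_apply, opE_apply, if_pos h, sub_self] at hq
    exact hq rfl
  have := PS_deg hn hc hd hcd hG q
  rwa [dg_o h1] at this

/-! ### The form of `TC/LineW` -/

/-- **The exit functional as a function of one line.** -/
theorem LP_PS [Finite α] (hn : (b :: (A ++ p :: B)).Nodup) (hc : c ∉ b :: (A ++ p :: B))
    (hd : d ∉ b :: (A ++ p :: B)) (hcd : c ≠ d) (hG : Gk z (A ++ B)) :
    LP (fun w => PS w b (A ++ p :: B)) z (A ++ p :: B) p (A.length + B.length) := fun F => by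
  have h1 := PS_degE hn hc hd hcd hG F
  have h2 := PS_degO hn hc hd hcd hG F
  rw [List.length_append] at h1 h2
  exact ⟨h1, h2⟩

/-- **The zero-leg functional as a function of one line.** -/
theorem LP_PH [Finite α] (hn : (A ++ p :: B).Nodup) (hc : c ∉ A ++ p :: B) (hd : d ∉ A ++ p :: B)
    (hcd : c ≠ d) (hG : Gk z (A ++ B)) :
    LP (fun w => PH w (A ++ p :: B)) z (A ++ p :: B) p (A.length + B.length) := fun F => by
  have h1 := PH_degE hn hc hd hcd hG F
  have h2 := PH_degO hn hc hd hcd hG F
  rw [List.length_append] at h1 h2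
  exact ⟨h1, h2⟩

end main

end Pool.Agent.TC
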