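import Pool.Agent.TC.DiSh

/-!
# The dichotomy for the folded gas

* `SqCF.mono`;
* `dichF`: per window bounds of the exponential squares, summed over the shells; either the total
  weight of the window `[-R, R]`, `R ≤ 2 (log m)²`, is at most `A m^{a - δ}` (`0 ≤ δ ≤ 1/2`), or the
  expectations satisfy `TCR.RigS` with `S = C₄ (log m)⁸`.
-/

set_option autoImplicit false

open MeasureTheory Set Filter Topology
open scoped ENNReal

namespace TCDi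

open NUKer NUDi NUR2 TCF NU42

noncomputable section

variable {p n : ℕ}

theorem SqCF.mono {W : Cfg p n → ℝ} {T : ℝ} {bb ρ : ℝ → ℝ} {A A' c : ℝ}
    (h : SqCF W T bb ρ A c) (hA : A ≤ A') : SqCF W T bb ρ A' c :=
  ⟨fun a => (h.cosX a).trans (ENNReal.ofReal_le_ofReal hA),
    fun a => (h.cosY a).trans (ENNReal.ofReal_le_ofReal hA)⟩

/-- **the dichotomy** -/
theorem dichF {N : ℝ} (hN : 1 ≤ N) {C₂ C₃ δ : ℝ} (h2 : 0 ≤ C₂) (h3 : 0 ≤ C₃) (hδ : 0 ≤ δ)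
    (hδ1 : δ ≤ 1 / 2) : ∃ C₄ : ℝ, 1 ≤ C₄ ∧
    ∀ m : ℕ, 3 ≤ m → ∀ R : ℝ, 0 ≤ R → R ≤ 2 * Real.log m ^ 2 → ∀ {p n : ℕ}
    {DX DX1 DY DY1 : ℝ → ℂ}, Measurable DX → Measurable DX1 → Measurable DY → Measurable DY1 →
    ∀ {a a' : ℝ → ℝ}, Measurable a → Measurable a' → (∀ t, 0 ≤ a t) → (∀ t, 0 ≤ a' t) →
    ∀ {cf B : ℝ → ℝ}, Measurable cf → Measurable B → ∀ {D q g A T0 : ℝ}, 0 ≤ D → 0 ≤ A → 0 < q →
    g < q → 0 ≤ g → (∀ t, 0 ≤ B t) → (∀ t, 0 ≤ cf t) → (∀ t, cf t ≤ Real.exp (B t)) →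
    (∀ t, cf t ≤ D * Real.exp (-q * |t|)) → T0 ≤ R →
    1 + D * Real.exp (-q * T0) * Real.exp g / (1 - Real.exp (-(q - g))) ≤ Real.exp C₃ →
    ∀ {bb ρ : ℝ → ℝ}, Continuous bb → (∀ t, |t| ≤ R → bb t = 1) → (∀ t, |bb t| ≤ 1) →
    Continuous ρ → (∀ x, ρ (-x) = ρ x) → Integrable ρ → ∫ t in {t | R < |t|}, |ρ t| ≤ 1 →
    ∀ (al M : ℝ), 0 ≤ M → M ≤ C₂ * Real.log m ^ 6 →
    (∀ T, T0 ≤ T → T ≤ R → SqCF (p := p) (n := n) (fun x => FWO DX DX1 DY DY1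
      (fun t => a t * Real.exp (B t)) (fun t => a' t * Real.exp (B t)) x.1 x.2) T bb ρ
        (A * (m : ℝ) ^ al * Real.exp (1 + M) * Real.exp (g * (T - T0))) (1 / (8 * (22 * (R + N))))) →
    mWin (p := p) (n := n) R (fun x => ENNReal.ofReal (FWO DX DX1 DY DY1 (fun t => a t * cf t)
      (fun t => a' t * cf t) x.1 x.2)) Set.univ ≤ ENNReal.ofReal (A * (m : ℝ) ^ (al - δ)) ∨
      (IsFiniteMeasure (mWin (p := p) (n := n) R (fun x => ENNReal.ofReal (FWO DX DX1 DY DY1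
        (fun t => a t * cf t) (fun t => a' t * cf t) x.1 x.2))) ∧
      TCR.RigS (mWin (p := p) (n := n) R (fun x => ENNReal.ofReal (FWO DX DX1 DY DY1
        (fun t => a t * cf t) (fun t => a' t * cf t) x.1 x.2))) (fun x => sym x.1) (fun x => sym x.2)
        R ρ (C₄ * Real.log m ^ 8)) := by
  obtain ⟨C₄, hC4, H⟩ := dicho_rigS (C₁ := 44 * N) (C₂ := C₂ + 1) (C₃ := C₃) (by positivity)
    (by positivity) h3 hδ hδ1
  refine ⟨C₄, hC4, ?_⟩
  intro m hm R hR hR2 p n DX DX1 DY DY1 m1 m2 m3 m4 a a' ma ma' ha ha' cf B mc hB D q g A T0 hD hA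
    hq hg hg0 hB0 h0 h1 hcf hTR hsum bb ρ hbc hb1 hbl hρc hρe hρ hτ al M hM hM2 hw
  have hL := one_le_log hm
  have hmpos : (0 : ℝ) < m := by
    have : 0 < m := by omega
    exact_mod_cast this
  have hNpos : 0 < N := by linarith
  have hc0 : 0 < 1 / (8 * (22 * (R + N))) := by positivity
  have hsq := sqWF_shells (p := p) (n := n) m1 m2 m3 m4 ma ma' ha ha' hB hD
    (A := A * (m : ℝ) ^ al) (by positivity) hq hg hg0 hB0 h0 h1 hcf hTR hR hbc hb1 hbl hρ hτ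
    (K := 1 + M) hc0.le hw
  have mg : Measurable (fun x : Cfg p n => ENNReal.ofReal (FWO DX DX1 DY DY1
      (fun t => a t * cf t) (fun t => a' t * cf t) x.1 x.2)) :=
    (FWO_meas m1 m2 m3 m4 (ma.mul mc) (ma'.mul mc)).ennreal_ofReal
  refine H m hm R hR hR2 mg hρc hρe A al (M + 1) hA (by positivity) ?_ ?_
  · have : 1 ≤ Real.log m ^ 6 := one_le_pow₀ hL
    nlinarith
  · refine (hsq.mono (fun x _ => le_rfl) (B' := ENNReal.ofReal (A * (m : ℝ) ^ al * Real.exp C₃))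
      (ENNReal.ofReal_le_ofReal (by gcongr))).monoC ?_ ?_
    · rw [div_div]
      refine one_div_le_one_div_of_le (by positivity) ?_
      nlinarith [mul_nonneg (by linarith : (0:ℝ) ≤ N - 1) hR]
    · have h5 : 1 / (8 * (22 * (R + N))) ≤ 1 := by
        rw [div_le_one (by positivity)]
        nlinarith
      nlinarith

end

end TCDi
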