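import Pool.Agent.NUH0.H0
import Pool.Agent.NUH0.H0fin
import Pool.Agent.TC.DiDich

/-!
# Folded gas: the crude bound summed over the shells, abstract form

The window bounds are hypotheses.

* `expFstF_meas`: measurability of the grid squares at the symmetrised configuration;
* `tot_of_win`: the total integral with grid squares and the tail outside a window;
* `sq_of_win`: exponential squares `SqWF` of all the modes on a window;
* `SqWF.shift`.
-/

set_option autoImplicit false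

open MeasureTheory Set Filter Topology
open scoped Real ENNReal

namespace TCDi

open NUKer NUDi NUR2 TCF NU42 NUH0

noncomputable section

variable {p n : ℕ}

/-- grid squares of the symmetrised configuration -/
def gsq (ch : ℝ → ℝ) (h a0 : ℝ) (τ : ℝ → ℝ) (La : Finset ℤ) (x : Cfg p n) : ℝ :=
  1 / 4 * ∑ l ∈ La, NU42.Fst ch h a0 τ l (sym x.1) (sym x.2) ^ 2

theorem expFstF_meas {ch : ℝ → ℝ} {K h : ℝ} (hg : Grid ch K h) (La : Finset ℤ) (a0 : ℝ) (τ : ℝ → ℝ) :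
    Measurable fun x : Cfg p n => Real.exp (gsq ch h a0 τ La x) := by
  have hs : Measurable fun x : Cfg p n => ((sym x.1, sym x.2) : Cfg (p + p) (n + n)) :=
    (sym_meas.comp measurable_fst).prodMk (sym_meas.comp measurable_snd)
  obtain ⟨F, hF⟩ : ∃ F : ℤ → Cfg (p + p) (n + n) → ℝ,
      F = fun l x => NU42.Fst ch h a0 τ l x.1 x.2 := ⟨_, rfl⟩
  have h0 : ∀ l : ℤ, Measurable (F l) := fun l => by
    rw [hF]
    exact Fst_meas (p := p + p) (n := n + n) hg a0 τ l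
  have h1 : ∀ l : ℤ, Measurable fun x : Cfg p n => F l (sym x.1, sym x.2) := fun l => (h0 l).comp hs
  have e : (fun x : Cfg p n => Real.exp (gsq ch h a0 τ La x)) =
      fun x : Cfg p n => Real.exp (1 / 4 * ∑ l ∈ La, F l (sym x.1, sym x.2) ^ 2) := by
    rw [hF]
    rfl
  rw [e]
  refine Real.measurable_exp.comp (Measurable.const_mul ?_ _)
  exact Finset.measurable_sum _ fun l _ => (h1 l).pow_const 2

variable {DX DX1 DY DY1 : ℝ → ℂ} {a a' cf B : ℝ → ℝ} {D q g A T0 : ℝ}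

/-- the cutoff `cf` with the regular majorant `e^B` -/
structure ShlF (cf B : ℝ → ℝ) (D q : ℝ) : Prop where
  mc : Measurable cf
  mB : Measurable B
  c0 : ∀ t, 0 ≤ cf t
  B0 : ∀ t, 0 ≤ B t
  D0 : 0 ≤ D
  q0 : 0 < q
  cB : ∀ t, cf t ≤ Real.exp (B t)
  cD : ∀ t, cf t ≤ D * Real.exp (-q * |t|)

/-- **total integral and tail** from the window bounds -/
theorem tot_of_win (m1 : Measurable DX) (m2 : Measurable DX1) (m3 : Measurable DY)
    (m4 : Measurable DY1) (ma : Measurable a) (ma' : Measurable a') (ha : ∀ t, 0 ≤ a t)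
    (ha' : ∀ t, 0 ≤ a' t) (hS : ShlF cf B D q) (hA : 0 ≤ A) (hg : g < q) {ch : ℝ → ℝ} {K h : ℝ}
    (hgr : Grid ch K h) (La : Finset ℤ) (a0 : ℝ) (τ : ℝ → ℝ)
    (hw : ∀ T, T0 ≤ T → ∫⁻ x in Bw p n T, ENNReal.ofReal (FWO DX DX1 DY DY1
      (fun t => a t * Real.exp (B t)) (fun t => a' t * Real.exp (B t)) x.1 x.2 *
        Real.exp (gsq ch h a0 τ La x)) ≤ ENNReal.ofReal (A * Real.exp (g * (T - T0)))) :
    (∫⁻ x : Cfg p n, ENNReal.ofReal (FWO DX DX1 DY DY1 (fun t => a t * cf t)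
      (fun t => a' t * cf t) x.1 x.2) *
      ENNReal.ofReal (Real.exp (gsq ch h a0 τ La x)) ≤ ENNReal.ofReal (A * (1 + shF D q g T0))) ∧
    (∀ R1, T0 ≤ R1 → ∫⁻ x in (Bw p n R1)ᶜ, ENNReal.ofReal (FWO DX DX1 DY DY1
      (fun t => a t * cf t) (fun t => a' t * cf t) x.1 x.2) *
      ENNReal.ofReal (Real.exp (gsq ch h a0 τ La x)) ≤
        ENNReal.ofReal (A * (Real.exp (-(q - g) * (R1 - T0)) * shF D q g T0))) := by
  have hE0 : ∀ x : Cfg p n, 0 ≤ Real.exp (gsq ch h a0 τ La x) := fun x => (Real.exp_pos _).le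
  have hsplit : ∀ x : Cfg p n, ENNReal.ofReal (FWO DX DX1 DY DY1 (fun t => a t * cf t)
      (fun t => a' t * cf t) x.1 x.2) * ENNReal.ofReal (Real.exp (gsq ch h a0 τ La x)) =
      ENNReal.ofReal (FWO DX DX1 DY DY1 (fun t => a t * cf t) (fun t => a' t * cf t) x.1 x.2 *
        Real.exp (gsq ch h a0 τ La x)) := fun x => by
    rw [ENNReal.ofReal_mul' (Real.exp_pos _).le]
  simp only [hsplit]
  refine ⟨?_, fun R1 hR1 => ?_⟩
  · exact FWO_full (p := p) (n := n) m1 m2 m3 m4 ma ma' ha ha' (expFstF_meas hgr La a0 τ) hE0 hS.mB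
      (T0 := T0) hS.D0 hA hS.q0 hg hS.B0 hS.c0 hS.cB hS.cD hw
  · have h1 := FWO_tail (p := p) (n := n) m1 m2 m3 m4 ma ma' ha ha' (expFstF_meas hgr La a0 τ) hE0
      hS.mB (T0 := T0) hS.D0 hA hS.q0 hg hS.B0 hS.c0 hS.cB hS.cD hR1 hw
    refine h1.trans (ENNReal.ofReal_le_ofReal (le_of_eq ?_))
    unfold shF
    ring

/-- **exponential squares** from the window bounds -/
theorem sq_of_win (m1 : Measurable DX) (m2 : Measurable DX1) (m3 : Measurable DY)
    (m4 : Measurable DY1) (ma : Measurable a) (ma' : Measurable a') (ha : ∀ t, 0 ≤ a t)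
    (ha' : ∀ t, 0 ≤ a' t) (hS : ShlF cf B D q) (hA : 0 ≤ A) (hg0 : 0 ≤ g) (hg : g < q)
    {bb ρ : ℝ → ℝ} (hbc : Continuous bb) (hbl : ∀ t, |bb t| ≤ 1) (hρ : Integrable ρ) {c : ℝ}
    (hc : 0 ≤ c) (hw : ∀ T, T0 ≤ T → SqCF (p := p) (n := n) (fun x => FWO DX DX1 DY DY1
      (fun t => a t * Real.exp (B t)) (fun t => a' t * Real.exp (B t)) x.1 x.2) T bb ρ
        (A * Real.exp (g * (T - T0))) c) {R1 : ℝ} (hR0 : 0 ≤ R1) (hR1 : T0 ≤ R1)
    (hb1 : ∀ t, |t| ≤ R1 → bb t = 1) {τ : ℝ} (hτ : ∫ t in {t | R1 < |t|}, |ρ t| ≤ τ) :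
    SqWF (p := p) (n := n) (fun x => ENNReal.ofReal (FWO DX DX1 DY DY1 (fun t => a t * cf t)
      (fun t => a' t * cf t) x.1 x.2)) R1 ρ (ENNReal.ofReal (A * (1 + shF D q g T0)))
      (c / 2) (c * τ ^ 2) := by
  have h1 := sqWF_shells (p := p) (n := n) m1 m2 m3 m4 ma ma' ha ha' hS.mB hS.D0 hA hS.q0 hg hg0
    hS.B0 hS.c0 hS.cB hS.cD hR1 hR0 hbc hb1 hbl hρ hτ (K := 0) hc (fun T hT _ => by
      refine (hw T hT).mono (le_of_eq ?_)
      rw [Real.exp_zero, mul_one])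
  rw [zero_add] at h1
  exact h1

theorem SqWF.shift {R c K M A : ℝ} {ρ : ℝ → ℝ} {g : Cfg p n → ℝ≥0∞} (hA : 0 ≤ A)
    (h : SqWF g R ρ (ENNReal.ofReal (A * Real.exp M)) c K) :
    SqWF g R ρ (ENNReal.ofReal A) c (M + K) := by
  have e : ENNReal.ofReal (A * Real.exp M) * ENNReal.ofReal (Real.exp K) =
      ENNReal.ofReal A * ENNReal.ofReal (Real.exp (M + K)) := by
    rw [← ENNReal.ofReal_mul (by positivity), ← ENNReal.ofReal_mul hA, Real.exp_add]
    congr 1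
    ring
  exact ⟨fun a => e ▸ h.cosX a, fun a => e ▸ h.cosY a⟩

end

end TCDi
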