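import Pool.Agent.NUSea.H0.ShH0
import Pool.Agent.TC.DiH0

/-!
# Folded gas: the total constant of a window

`const_le_C`: the constants of the two species `BX`, `BY` have the form
`p! (2 cpc)^p exp (1/2 (1/2 ∫ rm V rm + ∫ rm φ) + u)` (half of the full line exponent of the density
`rm = ρ + μ`, remainder `u`); with the constant `C0 X (p + p) (n + n) / 2` of the folded gas the
result is `2^(p+n) p! n! exp (1/2 NUSea.MFs X.s (p + p) (n + n) + 1/2 En + u_X + u_Y + ..)`.
-/

set_option autoImplicit false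
set_option linter.unusedSectionVars false

open MeasureTheory Set Filter Topology
open scoped Real ENNReal

namespace TCDi

open NUSea.H0 NUH0
open NUMF NUWC NUKer NUDi NUMFC NUR2

noncomputable section

variable [NUSea.Sea]

variable {X : NUSea.H0.Dat} {Cκ : ℝ} {p n : ℕ}

/-- half of the mean field exponent of one species -/
def hA (X : NUSea.H0.Dat) (a : Bool) : ℝ :=
  1 / 2 * (1 / 2 * (∫ t, rm X a t * ∫ u, rm X a u * V (t - u)) + ∫ t, rm X a t * X.φ a t)

/-- the mean field exponent of the folded gas, without the wall -/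
def MEC (X : NUSea.H0.Dat) (p n : ℕ) : ℝ := 1 / 2 * (NUSea.MFs X.s (p + p) (n + n) + X.En)

/-- **the total constant** -/
theorem const_le_C (hG : Geo X Cκ) (hF : Fld X (p + p) (n + n)) (hR : Reg X) {uX uY ek q : ℝ}
    {BX BY : ℝ≥0∞}
    (hBX : BX ≤ ENNReal.ofReal ((p.factorial : ℝ) * (2 * cpc) ^ p * Real.exp (hA X true + uX)))
    (hBY : BY ≤ ENNReal.ofReal ((n.factorial : ℝ) * (2 * cpc) ^ n * Real.exp (hA X false + uY))) :
    ENNReal.ofReal (Real.exp (C0 X (p + p) (n + n) / 2 + ek)) *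
      (BX * BY * ENNReal.ofReal (√2 * Real.exp q)) ≤
    ENNReal.ofReal ((p.factorial : ℝ) * n.factorial * 2 ^ (p + n) *
      Real.exp (MEC X p n + (uX + uY + ek + q + 1))) := by
  have hcp := cpc_pos
  have hs2 : √2 ≤ Real.exp 1 := by
    have h1 : √2 ≤ 2 := by
      rw [Real.sqrt_le_left (by norm_num)]
      norm_num
    have h2 := Real.add_one_le_exp (1 : ℝ)
    linarith
  have hC := C0_eq hG hF hR
  rw [Fintype.sum_bool] at hC
  have hM := NUSea.exp_MFs' X.s (p + p) (n + n)
  -- half of the identity of the constants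
  have hM2 : cpc ^ p * cpc ^ n * Real.exp (1 / 2 * (Real.log (g 0) * ((((p + p : ℕ) : ℝ) +
      (n + n : ℕ)) / 2) + NUSea.MF X.s)) = Real.exp (1 / 2 * NUSea.MFs X.s (p + p) (n + n)) := by
    refine (pow_left_inj₀ (by positivity) (Real.exp_pos _).le two_ne_zero).1 ?_
    rw [← Real.exp_nat_mul (1 / 2 * NUSea.MFs X.s (p + p) (n + n)), mul_pow, ← Real.exp_nat_mul]
    have e1 : ((2 : ℕ) : ℝ) * (1 / 2 * NUSea.MFs X.s (p + p) (n + n)) = NUSea.MFs X.s (p + p) (n + n) := by
      push_cast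
      ring
    have e2 : ((2 : ℕ) : ℝ) * (1 / 2 * (Real.log (g 0) * ((((p + p : ℕ) : ℝ) +
      (n + n : ℕ)) / 2) + NUSea.MF X.s)) = Real.log (g 0) * ((((p + p : ℕ) : ℝ) +
      (n + n : ℕ)) / 2) + NUSea.MF X.s := by
      push_cast
      ring
    rw [e1, e2, ← hM, Real.exp_add, pow_add cpc p p, pow_add cpc n n]
    ring
  have hprod : BX * BY * ENNReal.ofReal (√2 * Real.exp q) ≤
      ENNReal.ofReal (((p.factorial : ℝ) * (2 * cpc) ^ p * Real.exp (hA X true + uX)) *
        ((n.factorial : ℝ) * (2 * cpc) ^ n * Real.exp (hA X false + uY)) *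
        (Real.exp 1 * Real.exp q)) := by
    rw [ENNReal.ofReal_mul (p := ((p.factorial : ℝ) * (2 * cpc) ^ p * Real.exp (hA X true + uX)) *
      ((n.factorial : ℝ) * (2 * cpc) ^ n * Real.exp (hA X false + uY))) (by positivity),
      ENNReal.ofReal_mul (p := (p.factorial : ℝ) * (2 * cpc) ^ p * Real.exp (hA X true + uX))
      (by positivity)]
    exact mul_le_mul' (mul_le_mul' hBX hBY)
      (ENNReal.ofReal_le_ofReal (mul_le_mul_of_nonneg_right hs2 (Real.exp_pos _).le))
  refine (mul_le_mul_right hprod _).trans ?_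
  rw [← ENNReal.ofReal_mul (Real.exp_pos _).le]
  refine ENNReal.ofReal_le_ofReal (le_of_eq ?_)
  have e4 : Real.exp (C0 X (p + p) (n + n) / 2 + ek) * ((p.factorial : ℝ) * (2 * cpc) ^ p *
      Real.exp (hA X true + uX) * ((n.factorial : ℝ) * (2 * cpc) ^ n *
        Real.exp (hA X false + uY)) * (Real.exp 1 * Real.exp q)) =
      (p.factorial : ℝ) * n.factorial * 2 ^ (p + n) * (cpc ^ p * cpc ^ n) *
      Real.exp ((C0 X (p + p) (n + n) / 2 + ek) + (hA X true + uX) + (hA X false + uY) + 1 + q) := by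
    rw [Real.exp_add _ q, Real.exp_add _ (1 : ℝ), Real.exp_add _ (hA X false + uY),
      Real.exp_add (C0 X (p + p) (n + n) / 2 + ek), mul_pow, mul_pow, pow_add]
    ring
  rw [e4]
  have e5 : (C0 X (p + p) (n + n) / 2 + ek) + (hA X true + uX) + (hA X false + uY) + 1 + q =
      1 / 2 * (Real.log (g 0) * ((((p + p : ℕ) : ℝ) + (n + n : ℕ)) / 2) + NUSea.MF X.s) +
        (1 / 2 * X.En + (uX + uY + ek + q + 1)) := by
    unfold hA
    linear_combination (1 / 2 : ℝ) * hC
  rw [e5, Real.exp_add, mul_assoc, ← mul_assoc (cpc ^ p * cpc ^ n), hM2, ← Real.exp_add]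
  congr 2
  unfold MEC
  ring

end

end TCDi
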