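import Pool.Agent.NUDi.F2

/-!
# Exponential moments: removal of a constant factor

`expF_sharp`: if the mass is at most `B` and the exponential moments of the modes are bounded with
the constant `B e^Λ`, then they are bounded with the constant `B`, for the larger parameter
`400 Λ³ q0`.
-/

set_option autoImplicit false

open MeasureTheory Set Filter Topology
open scoped Real ENNReal

namespace TCDi

open NUKer NUDi

noncomputable section

variable {Ω : Type*} [MeasurableSpace Ω]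

lemma exp_div_le {w Λ : ℝ} (hΛ : 1 ≤ Λ) : Real.exp (w / Λ) ≤ 1 + Real.exp w := by
  rcases le_total 0 w with h | h
  · have : w / Λ ≤ w := div_le_self h hΛ
    linarith [Real.exp_le_exp.2 this]
  · have : w / Λ ≤ 0 := div_nonpos_of_nonpos_of_nonneg h (by linarith)
    linarith [Real.exp_le_one_iff.2 this, Real.exp_pos w]

lemma exp_three : Real.exp 3 ≤ 41 / 2 := by
  have h1 := Real.exp_one_lt_d9
  have h2 : Real.exp 3 = Real.exp 1 ^ 3 := by
    rw [← Real.exp_nat_mul]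
    norm_num
  rw [h2]
  have h3 : Real.exp 1 ^ 3 ≤ 2.7182818286 ^ 3 := by
    have := (Real.exp_pos 1).le
    gcongr
  refine h3.trans ?_
  norm_num

lemma exp_taylor (t : ℝ) : Real.exp t ≤ 1 + t + |t| ^ 2 * Real.exp |t| := by
  have h1 := Complex.norm_exp_sub_sum_le_norm_mul_exp (t : ℂ) 2
  rw [Finset.sum_range_succ, Finset.sum_range_succ, Finset.sum_range_zero] at h1
  simp only [pow_zero, Nat.factorial, Nat.cast_one, div_one, zero_add, pow_one, mul_one] at h1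
  rw [Complex.norm_real, Real.norm_eq_abs] at h1
  have h2 : Complex.exp t - (1 + (t : ℂ)) = ((Real.exp t - (1 + t) : ℝ) : ℂ) := by
    push_cast
    ring
  rw [h2, Complex.norm_real, Real.norm_eq_abs] at h1
  linarith [(abs_le.1 h1).2]

/-- **normalised form** -/
lemma sharp0 {ν : Measure Ω} (hν : ν univ ≤ 1) {g : Ω → ℝ} (hg : Measurable g) {Λ : ℝ} (hΛ : 1 ≤ Λ)
    (h : ∀ x : ℝ, ∫⁻ ω, ENNReal.ofReal (Real.exp (x * g ω)) ∂ν ≤
      ENNReal.ofReal (Real.exp (Λ + x ^ 2 / 2))) :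
    ∃ l : ℝ, l ^ 2 ≤ 1700 * Λ ^ 2 ∧ ∀ x : ℝ, ∫⁻ ω, ENNReal.ofReal (Real.exp (x * g ω)) ∂ν ≤
      ENNReal.ofReal (Real.exp (l * x + 200 * Λ ^ 3 * x ^ 2)) := by
  have hΛ0 : 0 < Λ := by linarith
  have : IsFiniteMeasure ν := ⟨hν.trans_lt ENNReal.one_lt_top⟩
  have hm : ∀ x : ℝ, Measurable fun ω => Real.exp (x * g ω) := fun x => by fun_prop
  have hI : ∀ x : ℝ, Integrable (fun ω => Real.exp (x * g ω)) ν := fun x => by
    refine ⟨(hm x).aestronglyMeasurable, ?_⟩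
    rw [hasFiniteIntegral_iff_ofReal (ae_of_all _ fun ω => (Real.exp_pos _).le)]
    exact (h x).trans_lt ENNReal.ofReal_lt_top
  have hJ : ∀ x : ℝ, ∫ ω, Real.exp (x * g ω) ∂ν ≤ Real.exp (Λ + x ^ 2 / 2) := fun x => by
    rw [integral_eq_lintegral_of_nonneg_ae (ae_of_all _ fun ω => (Real.exp_pos _).le)
      (hm x).aestronglyMeasurable]
    exact ENNReal.toReal_le_of_le_ofReal (Real.exp_pos _).le (h x)
  -- the function `z`
  obtain ⟨z, hz⟩ : ∃ z : Ω → ℝ, z = fun ω => Real.exp (5 / 4 * |g ω|) := ⟨_, rfl⟩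
  have hzm : Measurable z := by
    rw [hz]
    fun_prop
  have hzle : ∀ ω, z ω ≤ Real.exp (5 / 4 * g ω) + Real.exp (-(5 / 4) * g ω) := fun ω => by
    rw [hz]
    simp only
    rcases abs_cases (g ω) with ⟨e, _⟩ | ⟨e, _⟩
    · rw [e]
      linarith [Real.exp_pos (-(5 / 4) * g ω)]
    · rw [e, show 5 / 4 * -g ω = -(5 / 4) * g ω by ring]
      linarith [Real.exp_pos (5 / 4 * g ω)]
  have hz0 : ∀ ω, 0 < z ω := fun ω => by
    rw [hz]
    exact Real.exp_pos _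
  have hzI : Integrable z ν := by
    refine ((hI (5 / 4)).add (hI (-(5 / 4)))).mono' hzm.aestronglyMeasurable (ae_of_all _ fun ω => ?_)
    rw [Real.norm_eq_abs, abs_of_pos (hz0 ω)]
    exact hzle ω
  have hzi : ∫ ω, z ω ∂ν ≤ Real.exp (Λ + 2) := by
    have h1 : ∫ ω, z ω ∂ν ≤ (∫ ω, Real.exp (5 / 4 * g ω) ∂ν) + ∫ ω, Real.exp (-(5 / 4) * g ω) ∂ν := by
      rw [← integral_add (hI _) (hI _)]
      exact integral_mono hzI ((hI _).add (hI _)) hzle
    have h2 := hJ (5 / 4)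
    have h3 := hJ (-(5 / 4))
    have h4 : Real.exp (Λ + (5 / 4) ^ 2 / 2) ≤ Real.exp (Λ + 1) := Real.exp_le_exp.2 (by norm_num)
    have h5 : Real.exp (Λ + (-(5 / 4)) ^ 2 / 2) ≤ Real.exp (Λ + 1) := Real.exp_le_exp.2 (by norm_num)
    have h6 : 2 * Real.exp (Λ + 1) ≤ Real.exp (Λ + 2) := by
      rw [show Λ + 2 = (Λ + 1) + 1 by ring, Real.exp_add (Λ + 1)]
      have h7 := Real.add_one_le_exp (1 : ℝ)
      have h8 := Real.exp_pos (Λ + 1)
      nlinarith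
    linarith
  -- the function `y`
  obtain ⟨y, hy⟩ : ∃ y : Ω → ℝ, y = fun ω => Real.exp (5 / 4 * |g ω| / Λ) := ⟨_, rfl⟩
  have hym : Measurable y := by
    rw [hy]
    fun_prop
  have hy0 : ∀ ω, 0 < y ω := fun ω => by
    rw [hy]
    exact Real.exp_pos _
  have hyle : ∀ ω, y ω ≤ Real.exp 3 * (1 + z ω * Real.exp (-(Λ + 2))) := fun ω => by
    have h1 := exp_div_le (w := 5 / 4 * |g ω| - (Λ + 2)) hΛ
    have e1 : y ω = Real.exp ((Λ + 2) / Λ) * Real.exp ((5 / 4 * |g ω| - (Λ + 2)) / Λ) := by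
      rw [hy, ← Real.exp_add]
      simp only
      congr 1
      field_simp
      ring
    have e2 : Real.exp ((Λ + 2) / Λ) ≤ Real.exp 3 := by
      refine Real.exp_le_exp.2 ?_
      rw [div_le_iff₀ hΛ0]
      linarith
    have e3 : Real.exp (5 / 4 * |g ω| - (Λ + 2)) = z ω * Real.exp (-(Λ + 2)) := by
      rw [hz, ← Real.exp_add]
      rfl
    rw [e1, ← e3]
    have := (Real.exp_pos ((5 / 4 * |g ω| - (Λ + 2)) / Λ)).le
    gcongr
  have hyR : Integrable (fun ω => Real.exp 3 * (1 + z ω * Real.exp (-(Λ + 2)))) ν :=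
    ((integrable_const _).add (hzI.mul_const _)).const_mul _
  have hyI : Integrable y ν := by
    refine hyR.mono' hym.aestronglyMeasurable (ae_of_all _ fun ω => ?_)
    rw [Real.norm_eq_abs, abs_of_pos (hy0 ω)]
    exact hyle ω
  have hν1 : ν.real univ ≤ 1 := by
    unfold Measure.real
    exact ENNReal.toReal_le_of_le_ofReal zero_le_one (by rwa [ENNReal.ofReal_one])
  have hyi : ∫ ω, y ω ∂ν ≤ 41 := by
    have h1 := integral_mono hyI hyR hyle
    rw [integral_const_mul, integral_add (integrable_const _) (hzI.mul_const _), integral_const,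
      integral_mul_const, smul_eq_mul, mul_one] at h1
    have h2 : (∫ ω, z ω ∂ν) * Real.exp (-(Λ + 2)) ≤ 1 := by
      calc (∫ ω, z ω ∂ν) * Real.exp (-(Λ + 2)) ≤ Real.exp (Λ + 2) * Real.exp (-(Λ + 2)) := by gcongr
        _ = 1 := by rw [← Real.exp_add, add_neg_cancel, Real.exp_zero]
    have h3 := exp_three
    have h4 := (Real.exp_pos 3).le
    calc ∫ ω, y ω ∂ν ≤ _ := h1
      _ ≤ Real.exp 3 * (1 + 1) := by gcongr
      _ ≤ 41 := by linarith
  -- pointwise bounds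
  have hgy : ∀ ω, |g ω| ≤ Λ * y ω := fun ω => by
    have h1 := Real.add_one_le_exp (5 / 4 * |g ω| / Λ)
    have h2 : |g ω| / Λ ≤ y ω := by
      rw [hy]
      simp only
      have h3 : 5 / 4 * |g ω| / Λ = 5 / 4 * (|g ω| / Λ) := by ring
      rw [h3] at h1 ⊢
      have h4 : 0 ≤ |g ω| / Λ := by positivity
      linarith
    rw [div_le_iff₀ hΛ0] at h2
    linarith
  have hgI : Integrable g ν := by
    refine (hyI.const_mul Λ).mono' hg.aestronglyMeasurable (ae_of_all _ fun ω => ?_)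
    rw [Real.norm_eq_abs]
    exact hgy ω
  obtain ⟨l, hl⟩ : ∃ l : ℝ, l = ∫ ω, g ω ∂ν := ⟨_, rfl⟩
  have hlabs : |l| ≤ 41 * Λ := by
    rw [hl]
    refine (abs_integral_le_integral_abs).trans ?_
    have h1 := integral_mono hgI.abs (hyI.const_mul Λ) hgy
    rw [integral_const_mul] at h1
    nlinarith
  refine ⟨l, ?_, fun x => ?_⟩
  · rw [← sq_abs]
    have := abs_nonneg l
    nlinarith
  by_cases hx : |x| * (4 * Λ) ≤ 1
  · -- small `x`
    have hpt : ∀ ω, Real.exp (x * g ω) ≤ 1 + x * g ω + 2 * Λ ^ 2 * x ^ 2 * y ω := fun ω => by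
      have h2 := exp_taylor (x * g ω)
      have h3 : |x * g ω| ≤ |g ω| / (4 * Λ) := by
        rw [abs_mul, le_div_iff₀ (by positivity)]
        have := abs_nonneg (g ω)
        nlinarith
      have h4 : g ω ^ 2 ≤ 2 * Λ ^ 2 * Real.exp (|g ω| / Λ) := by
        have h5 := Real.quadratic_le_exp_of_nonneg (x := |g ω| / Λ) (by positivity)
        have h6 : (|g ω| / Λ) ^ 2 / 2 ≤ Real.exp (|g ω| / Λ) := by
          have : 0 ≤ |g ω| / Λ := by positivity
          linarith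
        rw [div_pow, sq_abs] at h6
        have h7 : g ω ^ 2 = 2 * Λ ^ 2 * (g ω ^ 2 / Λ ^ 2 / 2) := by field_simp
        rw [h7]
        gcongr
      have h8 : Real.exp (|g ω| / Λ) * Real.exp |x * g ω| ≤ y ω := by
        rw [hy, ← Real.exp_add]
        refine Real.exp_le_exp.2 ?_
        have e : 5 / 4 * |g ω| / Λ = |g ω| / Λ + |g ω| / (4 * Λ) := by
          field_simp
          ring
        rw [e]
        linarith
      have h9 : |x * g ω| ^ 2 * Real.exp |x * g ω| ≤ 2 * Λ ^ 2 * x ^ 2 * y ω := by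
        rw [sq_abs, mul_pow]
        calc x ^ 2 * g ω ^ 2 * Real.exp |x * g ω| ≤
            x ^ 2 * (2 * Λ ^ 2 * Real.exp (|g ω| / Λ)) * Real.exp |x * g ω| := by gcongr
          _ = 2 * Λ ^ 2 * x ^ 2 * (Real.exp (|g ω| / Λ) * Real.exp |x * g ω|) := by ring
          _ ≤ _ := by gcongr
      linarith
    have hR : Integrable (fun ω => 1 + x * g ω + 2 * Λ ^ 2 * x ^ 2 * y ω) ν :=
      ((integrable_const _).add (hgI.const_mul _)).add (hyI.const_mul _)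
    have h1 := integral_mono (hI x) hR hpt
    have a1 : ∫ ω, (1 + x * g ω + 2 * Λ ^ 2 * x ^ 2 * y ω) ∂ν =
        (∫ ω, (1 + x * g ω) ∂ν) + ∫ ω, 2 * Λ ^ 2 * x ^ 2 * y ω ∂ν :=
      integral_add ((integrable_const _).add (hgI.const_mul _)) (hyI.const_mul _)
    have a2 : ∫ ω, (1 + x * g ω) ∂ν = (∫ _ω, (1 : ℝ) ∂ν) + ∫ ω, x * g ω ∂ν :=
      integral_add (integrable_const _) (hgI.const_mul _)
    rw [a1, a2, integral_const, integral_const_mul, integral_const_mul, ← hl, smul_eq_mul,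
      mul_one] at h1
    have h2 : 2 * Λ ^ 2 * x ^ 2 * ∫ ω, y ω ∂ν ≤ 200 * Λ ^ 3 * x ^ 2 := by
      have h3 : 2 * Λ ^ 2 * x ^ 2 * ∫ ω, y ω ∂ν ≤ 2 * Λ ^ 2 * x ^ 2 * 41 := by gcongr
      have h4 : Λ ^ 2 * x ^ 2 ≤ Λ ^ 3 * x ^ 2 := by
        have : Λ ^ 2 ≤ Λ ^ 3 := pow_le_pow_right₀ hΛ (by norm_num)
        gcongr
      have h5 : 0 ≤ Λ ^ 2 * x ^ 2 := by positivity
      nlinarith
    rw [← ofReal_integral_eq_lintegral_ofReal (hI x) (ae_of_all _ fun ω => (Real.exp_pos _).le)]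
    refine ENNReal.ofReal_le_ofReal ?_
    have h6 := Real.add_one_le_exp (l * x + 200 * Λ ^ 3 * x ^ 2)
    linarith
  · -- large `x`
    push Not at hx
    refine (h x).trans (ENNReal.ofReal_le_ofReal (Real.exp_le_exp.2 ?_))
    have h1 : 1 ≤ 16 * Λ ^ 2 * x ^ 2 := by
      have h2 : 1 ≤ (|x| * (4 * Λ)) ^ 2 := by nlinarith
      rw [mul_pow, sq_abs] at h2
      nlinarith
    have h3 : Λ ≤ 16 * Λ ^ 3 * x ^ 2 := by
      calc Λ = Λ * 1 := (mul_one _).symm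
        _ ≤ Λ * (16 * Λ ^ 2 * x ^ 2) := by gcongr
        _ = _ := by ring
    have h4 : -(l * x) ≤ 164 * Λ ^ 2 * x ^ 2 := by
      have h5 : -(l * x) ≤ |l| * |x| := by
        rw [← abs_mul]
        exact neg_le_abs _
      have h6 : |l| * |x| ≤ 41 * Λ * |x| := by gcongr
      have h7 : |x| ≤ |x| * (|x| * (4 * Λ)) := by
        have := abs_nonneg x
        nlinarith
      have h8 : |x| * (|x| * (4 * Λ)) = 4 * Λ * x ^ 2 := by
        rw [← sq_abs x]
        ring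
      rw [h8] at h7
      have h9 : 41 * Λ * |x| ≤ 41 * Λ * (4 * Λ * x ^ 2) := by gcongr
      linarith
    have h10 : Λ ^ 2 * x ^ 2 ≤ Λ ^ 3 * x ^ 2 := by
      have : Λ ^ 2 ≤ Λ ^ 3 := pow_le_pow_right₀ hΛ (by norm_num)
      gcongr
    have h11 : x ^ 2 ≤ Λ ^ 3 * x ^ 2 := by
      have : 1 ≤ Λ ^ 3 := one_le_pow₀ hΛ
      have := mul_le_mul_of_nonneg_right this (sq_nonneg x)
      linarith
    nlinarith

/-- **one statistic** -/
lemma sharp1 {μ : Measure Ω} {W : Ω → ℝ≥0∞} (hW : Measurable W) {f : Ω → ℝ} (hf : Measurable f)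
    {B : ℝ≥0∞} {Λ l q : ℝ} (hΛ : 1 ≤ Λ) (hq : 0 < q) (h0 : ∫⁻ ω, W ω ∂μ ≤ B)
    (h : ∀ x : ℝ, ∫⁻ ω, W ω * ENNReal.ofReal (Real.exp (x * f ω)) ∂μ ≤
      B * ENNReal.ofReal (Real.exp Λ) * ENNReal.ofReal (Real.exp (l * x + q * x ^ 2 / 2))) :
    ∃ l' : ℝ, (l' - l) ^ 2 ≤ 1700 * Λ ^ 2 * q ∧ ∀ x : ℝ,
      ∫⁻ ω, W ω * ENNReal.ofReal (Real.exp (x * f ω)) ∂μ ≤
        B * ENNReal.ofReal (Real.exp (l' * x + 400 * Λ ^ 3 * q * x ^ 2 / 2)) := by
  have hexp0 : ∀ x : ℝ, ENNReal.ofReal (Real.exp x) ≠ 0 := fun x => by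
    rw [ne_eq, ENNReal.ofReal_eq_zero, not_le]
    exact Real.exp_pos x
  have hql : 0 ≤ 1700 * Λ ^ 2 * q := by positivity
  by_cases hB0 : B = 0
  · refine ⟨l, by simpa using hql, fun x => ?_⟩
    refine (h x).trans ?_
    rw [hB0]
    simp
  by_cases hBt : B = ∞
  · refine ⟨l, by simpa using hql, fun x => ?_⟩
    rw [hBt, ENNReal.top_mul (hexp0 _)]
    exact le_top
  obtain ⟨r, hr⟩ : ∃ r, r = √q := ⟨_, rfl⟩
  have hr0 : 0 < r := by rw [hr]; exact Real.sqrt_pos.2 hq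
  have hrr : r ^ 2 = q := by rw [hr]; exact Real.sq_sqrt hq.le
  obtain ⟨g, hg⟩ : ∃ g : Ω → ℝ, g = fun ω => (f ω - l) / r := ⟨_, rfl⟩
  have hgm : Measurable g := by
    rw [hg]
    fun_prop
  obtain ⟨ν, hν⟩ : ∃ ν : Measure Ω, ν = B⁻¹ • μ.withDensity W := ⟨_, rfl⟩
  have hBB : B⁻¹ * B = 1 := ENNReal.inv_mul_cancel hB0 hBt
  have hint : ∀ F : Ω → ℝ≥0∞, Measurable F → ∫⁻ ω, F ω ∂ν = B⁻¹ * ∫⁻ ω, W ω * F ω ∂μ := by
    intro F hF
    rw [hν, lintegral_smul_measure, lintegral_withDensity_eq_lintegral_mul _ hW hF]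
    rfl
  have hν1 : ν univ ≤ 1 := by
    have h1 := hint (fun _ => 1) measurable_const
    rw [lintegral_one] at h1
    rw [h1]
    simp only [mul_one]
    calc B⁻¹ * ∫⁻ ω, W ω ∂μ ≤ B⁻¹ * B := by gcongr
      _ = 1 := hBB
  have key : ∀ x ω, ENNReal.ofReal (Real.exp (x * g ω)) =
      ENNReal.ofReal (Real.exp (-(x / r * l))) * ENNReal.ofReal (Real.exp (x / r * f ω)) := by
    intro x ω
    rw [← ENNReal.ofReal_mul (Real.exp_pos _).le, ← Real.exp_add, hg]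
    simp only
    congr 2
    field_simp
    ring
  have hb : ∀ x : ℝ, ∫⁻ ω, ENNReal.ofReal (Real.exp (x * g ω)) ∂ν ≤
      ENNReal.ofReal (Real.exp (Λ + x ^ 2 / 2)) := by
    intro x
    rw [hint _ (by fun_prop)]
    simp_rw [key]
    have e1 : ∀ ω, W ω * (ENNReal.ofReal (Real.exp (-(x / r * l))) *
        ENNReal.ofReal (Real.exp (x / r * f ω))) = ENNReal.ofReal (Real.exp (-(x / r * l))) *
        (W ω * ENNReal.ofReal (Real.exp (x / r * f ω))) := fun ω => by ring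
    simp_rw [e1]
    rw [lintegral_const_mul' _ _ ENNReal.ofReal_ne_top]
    have h2 := h (x / r)
    calc B⁻¹ * (ENNReal.ofReal (Real.exp (-(x / r * l))) *
          ∫⁻ ω, W ω * ENNReal.ofReal (Real.exp (x / r * f ω)) ∂μ) ≤
        B⁻¹ * (ENNReal.ofReal (Real.exp (-(x / r * l))) * (B * ENNReal.ofReal (Real.exp Λ) *
          ENNReal.ofReal (Real.exp (l * (x / r) + q * (x / r) ^ 2 / 2)))) := by gcongr
      _ = (B⁻¹ * B) * (ENNReal.ofReal (Real.exp (-(x / r * l))) * (ENNReal.ofReal (Real.exp Λ) *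
          ENNReal.ofReal (Real.exp (l * (x / r) + q * (x / r) ^ 2 / 2)))) := by ring
      _ = _ := by
        rw [hBB, one_mul, ← ENNReal.ofReal_mul (Real.exp_pos _).le,
          ← ENNReal.ofReal_mul (Real.exp_pos _).le, ← Real.exp_add, ← Real.exp_add, ← hrr]
        congr 2
        field_simp
        ring
  obtain ⟨l2, h3, h4⟩ := sharp0 hν1 hgm hΛ hb
  refine ⟨l + r * l2, ?_, fun x => ?_⟩
  · have e : (l + r * l2 - l) ^ 2 = l2 ^ 2 * q := by
      rw [← hrr]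
      ring
    rw [e]
    gcongr
  · have h5 := h4 (x * r)
    rw [hint _ (by fun_prop)] at h5
    simp_rw [key] at h5
    have hxr : x * r / r = x := by field_simp
    rw [hxr] at h5
    have e1 : ∀ ω, W ω * (ENNReal.ofReal (Real.exp (-(x * l))) *
        ENNReal.ofReal (Real.exp (x * f ω))) = ENNReal.ofReal (Real.exp (-(x * l))) *
        (W ω * ENNReal.ofReal (Real.exp (x * f ω))) := fun ω => by ring
    simp_rw [e1] at h5
    rw [lintegral_const_mul' _ _ ENNReal.ofReal_ne_top] at h5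
    have hE : ENNReal.ofReal (Real.exp (x * l)) * ENNReal.ofReal (Real.exp (-(x * l))) = 1 := by
      rw [← ENNReal.ofReal_mul (Real.exp_pos _).le, ← Real.exp_add, add_neg_cancel, Real.exp_zero,
        ENNReal.ofReal_one]
    have hBB' : B * B⁻¹ = 1 := ENNReal.mul_inv_cancel hB0 hBt
    calc ∫⁻ ω, W ω * ENNReal.ofReal (Real.exp (x * f ω)) ∂μ =
        (B * B⁻¹) * (ENNReal.ofReal (Real.exp (x * l)) * ENNReal.ofReal (Real.exp (-(x * l)))) *
          ∫⁻ ω, W ω * ENNReal.ofReal (Real.exp (x * f ω)) ∂μ := by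
          rw [hE, hBB', one_mul, one_mul]
      _ = B * (ENNReal.ofReal (Real.exp (x * l)) * (B⁻¹ * (ENNReal.ofReal (Real.exp (-(x * l))) *
          ∫⁻ ω, W ω * ENNReal.ofReal (Real.exp (x * f ω)) ∂μ))) := by ring
      _ ≤ B * (ENNReal.ofReal (Real.exp (x * l)) *
          ENNReal.ofReal (Real.exp (l2 * (x * r) + 200 * Λ ^ 3 * (x * r) ^ 2))) := by gcongr
      _ = _ := by
        rw [← ENNReal.ofReal_mul (Real.exp_pos _).le, ← Real.exp_add, ← hrr]
        congr 3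
        ring

/-- **removal of a constant factor** -/
theorem expF_sharp {n : ℕ} {μ : Measure Ω} {W : Ω → ℝ≥0∞} {b ρ : ℝ → ℝ}
    {s : Ω → Fin n → ℝ} {B : ℝ≥0∞} {q0 M Λ : ℝ} (hW : Measurable W) (hs : Measurable s)
    (hb : Continuous b) (hΛ : 1 ≤ Λ) (hq : 0 < q0) (h0 : ∫⁻ ω, W ω ∂μ ≤ B)
    (h : ExpF μ W b ρ s (B * ENNReal.ofReal (Real.exp Λ)) q0 M) :
    ExpF μ W b ρ s B (400 * Λ ^ 3 * q0) ((2 * M + 3400 * Λ ^ 2) / (400 * Λ ^ 3)) := by
  have hΛ0 : 0 < Λ := by linarith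
  have go : ∀ (a : ℝ) (F : ℝ → ℝ), Measurable (fun ω => nuF ρ (s ω) F) →
      (∃ l q : ℝ, q ≤ q0 * (1 + |a|) ∧ l ^ 2 ≤ M * (q0 * (1 + |a|)) ∧ ∀ x : ℝ,
        ∫⁻ ω, W ω * ENNReal.ofReal (Real.exp (x * nuF ρ (s ω) F)) ∂μ ≤
        (B * ENNReal.ofReal (Real.exp Λ)) * ENNReal.ofReal (Real.exp (l * x + q * x ^ 2 / 2))) →
      ∃ l q : ℝ, q ≤ 400 * Λ ^ 3 * q0 * (1 + |a|) ∧
        l ^ 2 ≤ (2 * M + 3400 * Λ ^ 2) / (400 * Λ ^ 3) * (400 * Λ ^ 3 * q0 * (1 + |a|)) ∧ ∀ x : ℝ,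
        ∫⁻ ω, W ω * ENNReal.ofReal (Real.exp (x * nuF ρ (s ω) F)) ∂μ ≤
        B * ENNReal.ofReal (Real.exp (l * x + q * x ^ 2 / 2)) := by
    intro a F hF ⟨l, q, h1, h2, h3⟩
    obtain ⟨q1, hq1⟩ : ∃ q1, q1 = q0 * (1 + |a|) := ⟨_, rfl⟩
    have hq1p : 0 < q1 := by
      rw [hq1]
      have := abs_nonneg a
      positivity
    obtain ⟨l', h4, h5⟩ := sharp1 (l := l) (q := q1) hW hF hΛ hq1p h0 (fun x => by
      refine (h3 x).trans ?_
      gcongr
      rw [hq1]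
      exact h1)
    refine ⟨l', 400 * Λ ^ 3 * q1, ?_, ?_, h5⟩
    · rw [hq1]
      exact le_of_eq (by ring)
    · have e : (2 * M + 3400 * Λ ^ 2) / (400 * Λ ^ 3) * (400 * Λ ^ 3 * q0 * (1 + |a|)) =
          2 * (M * q1) + 3400 * Λ ^ 2 * q1 := by
        rw [hq1]
        field_simp
      rw [e]
      rw [← hq1] at h2
      have h6 : l' ^ 2 ≤ 2 * l ^ 2 + 2 * (l' - l) ^ 2 := by nlinarith [sq_nonneg (l' - 2 * l)]
      linarith
  exact ⟨fun a => go a _ (measurable_nuF hs (by fun_prop)) (h.cos a),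
    fun a => go a _ (measurable_nuF hs (by fun_prop)) (h.sin a)⟩

end

end TCDi
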