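import Pool.Agent.NUSea.H0.H0fin
import Pool.Agent.TC.F42D
import Pool.Agent.TC.DiCst
import Pool.Agent.TC.DiShp

/-!
# Folded gas: the crude bound H0 in the form of the data `Dat` (general sea)

The one component statements are hypotheses: `OneW`: for every window `[-T, T]`, `T ≥ T0`, the mass
of the one component folded weight is at most
`BC = m! (2 cpc)^m exp (hA + we + (7/12 + ε') T + C (1 + Nl T))`, and its exponential moments are
bounded with the constant `BC e^Λ`.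

* `win_C`: the window: total integral with grid squares (kernels of size `c1`), constant without
  `e^Λ`, and exponential squares `SqCF` with the constant `1 / (8 q0)`;
* `H0C`: the total integral with grid squares, the tail, and the squares `SqWF`.
-/

set_option autoImplicit false
set_option linter.unusedSectionVars false

open MeasureTheory Set Filter Topology
open scoped Real ENNReal

namespace TCDi

open NUSea.H0 NUH0 TCW TCF
open NUMF NUWC NUKer NUDi NUMFC NUR2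

noncomputable section

variable [NUSea.Sea]

variable {X : NUSea.H0.Dat} {Cκ : ℝ} {p n : ℕ}

/-- the constant of one species on the window `[-T, T]` -/
def BC (X : NUSea.H0.Dat) (a : Bool) (m : ℕ) (we ε' C T : ℝ) : ℝ :=
  (m.factorial : ℝ) * (2 * cpc) ^ m *
    Real.exp (hA X a + (we + (7 / 12 + ε') * T + C * (1 + NUSea.H0.Nl X T a)))

theorem BC_pos (X : NUSea.H0.Dat) (a : Bool) (m : ℕ) (we ε' C T : ℝ) : 0 < BC X a m we ε' C T := by
  have := cpc_pos
  unfold BC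
  positivity

/-- one species on all the windows -/
structure OneW (X : NUSea.H0.Dat) (be : ℝ → ℝ) (a : Bool) (m : ℕ) (we ε' C T0 Λ q0 mm : ℝ)
    (bb : ℝ → ℝ) : Prop where
  mass : ∀ T, T0 ≤ T → ∫⁻ t, WTC be T m (rm X a) (X.φ a) t ≤ ENNReal.ofReal (BC X a m we ε' C T)
  exp : ∀ T, T0 ≤ T → OneC bb X.ρ (WTC be T m (rm X a) (X.φ a))
    (ENNReal.ofReal (BC X a m we ε' C T * Real.exp Λ)) q0 (2 * mm + C * (1 + NUSea.H0.Nl X T a))

/-- the hypotheses of the crude bound -/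
structure HypC (X : NUSea.H0.Dat) (p n : ℕ) (be : Bool → ℝ → ℝ) (bb bb' : ℝ → ℝ)
    (T0 R ε c1 q0 Λ mm weX weY ε' C : ℝ) : Prop where
  T0p : 0 < T0
  geo : ∃ Cκ, Geo X Cκ
  fld : Fld X (p + p) (n + n)
  reg : Reg X
  ev : EvD X
  cut : Cut1 R bb bb'
  ker : ∀ a d t t', |X.κ a d t t' - bb t * bb t' * X.κ a d t t'| ≤ ε
  kc : ∃ Λ1, 0 ≤ Λ1 ∧ 2 * Λ1 ≤ c1 ∧ ∀ a d, KC R Λ1 (fun t t' => ((X.κ a d t t' : ℝ) : ℂ))
  c0 : 0 < c1
  q0p : 0 < q0
  Λ1 : 1 ≤ Λ
  cq : 8 * c1 * (400 * Λ ^ 3 * q0) ≤ 1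
  mm0 : 0 ≤ mm
  C0 : 0 ≤ C
  be0 : ∀ a t, 0 ≤ be a t
  bem : ∀ a, Measurable (be a)
  oX : OneW X (be true) true p weX ε' C T0 Λ q0 mm bb
  oY : OneW X (be false) false n weY ε' C T0 Λ q0 mm bb

/-- the exponent of the window -/
def E1C (X : NUSea.H0.Dat) (p n : ℕ) (we ε' C T ε : ℝ) : ℝ :=
  MEC X p n + we + (7 / 6 + 2 * ε') * T +
    (3 * C * (1 + NUSea.H0.NT X T) + ε * ((p : ℝ) + n + X.s) ^ 2 + 1)

variable {be : Bool → ℝ → ℝ} {bb bb' : ℝ → ℝ} {T0 R ε c1 q0 Λ mm weX weY ε' C : ℝ}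

theorem HypC.c1q0 (h : HypC X p n be bb bb' T0 R ε c1 q0 Λ mm weX weY ε' C) : 8 * c1 * q0 ≤ 1 := by
  have h1 := h.cq
  have h2 : 1 ≤ Λ ^ 3 := one_le_pow₀ h.Λ1
  have h3 : 0 ≤ 8 * c1 * q0 := by
    have := h.c0
    have := h.q0p
    positivity
  nlinarith

/-- **the window** -/
theorem win_C (h : HypC X p n be bb bb' T0 R ε c1 q0 Λ mm weX weY ε' C) {ch : ℝ → ℝ} {K hg : ℝ}
    (hgr : Grid ch K hg) (La : Finset ℤ) (a0 : ℝ) {T : ℝ} (hT : T0 ≤ T) {aX aY : ℝ → ℝ}
    (haX : ∀ t, 0 ≤ aX t) (haY : ∀ t, 0 ≤ aY t)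
    (hX : ∀ t, |t| ≤ T → aX t ≤ Real.exp (X.pot true t) * be true t)
    (hY : ∀ t, |t| ≤ T → aY t ≤ Real.exp (X.pot false t) * be false t) :
    (∫⁻ ω in NU42.Bw p n T, ENNReal.ofReal (Wt0C X p n ch hg La a0 aX aY ω) ≤
      ENNReal.ofReal ((p.factorial : ℝ) * n.factorial * 2 ^ (p + n) *
        Real.exp (E1C X p n (weX + weY) ε' C T ε + 16 * c1 * q0 * (mm + 850 * Λ ^ 2)))) ∧
    SqCF (Wt0C X p n ch hg La a0 aX aY) T bb X.ρ ((p.factorial : ℝ) * n.factorial * 2 ^ (p + n) *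
        Real.exp (E1C X p n (weX + weY) ε' C T ε + (2 * Λ + mm))) (1 / (8 * q0)) := by
  obtain ⟨Cκ, hG⟩ := h.geo
  obtain ⟨Λ1, hΛ0, hΛ1, hKC⟩ := h.kc
  have hR := h.reg
  have hT0 : 0 < T := h.T0p.trans_le hT
  have hΛ := h.Λ1
  have hΛp : 0 < Λ := by linarith
  have hq0 := h.q0p
  have hc0 := h.c0
  have hC0 := h.C0
  have hmm := h.mm0
  have hN1 := NUSea.H0.Nl_nonneg X hT0.le true
  have hN2 := NUSea.H0.Nl_nonneg X hT0.le false
  have hNe : NUSea.H0.NT X T = NUSea.H0.Nl X T true + NUSea.H0.Nl X T false := rfl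
  obtain ⟨N, hN⟩ : ∃ N, N = NUSea.H0.NT X T := ⟨_, rfl⟩
  rw [← hN] at hNe
  have hN0 : 0 ≤ N := by linarith
  obtain ⟨M, hM⟩ : ∃ M, M = 2 * mm + C * (1 + N) := ⟨_, rfl⟩
  have hM0 : 0 ≤ M := by rw [hM]; positivity
  have mX := sh_meas_C (T := T) hR (h.bem true) true p
  have mY := sh_meas_C (T := T) hR (h.bem false) false n
  have hle1 : (2 * mm + C * (1 + NUSea.H0.Nl X T true)) * q0 ≤ M * q0 := by
    rw [hM]
    have : NUSea.H0.Nl X T true ≤ N := by linarith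
    gcongr
  have hle2 : (2 * mm + C * (1 + NUSea.H0.Nl X T false)) * q0 ≤ M * q0 := by
    rw [hM]
    have : NUSea.H0.Nl X T false ≤ N := by linarith
    gcongr
  have e1 := ExpF.mono (h.oX.exp T hT) (fun _ => le_rfl) le_rfl le_rfl hle1
  have e2 := ExpF.mono (h.oY.exp T hT) (fun _ => le_rfl) le_rfl le_rfl hle2
  have hbc := h.cut.cutf.cont
  refine ⟨?_, ?_⟩
  · -- the total, without the factor `e^Λ`
    rw [ENNReal.ofReal_mul (BC_pos _ _ _ _ _ _ _).le] at e1 e2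
    have f1 : OneC bb X.ρ (WTC (be true) T p (rm X true) (X.φ true)) _ _ _ :=
      expF_sharp mX TCD.dbl_meas hbc hΛ hq0 (h.oX.mass T hT) e1
    have f2 : OneC bb X.ρ (WTC (be false) T n (rm X false) (X.φ false)) _ _ _ :=
      expF_sharp mY TCD.dbl_meas hbc hΛ hq0 (h.oY.mass T hT) e2
    refine (sh_int_C hG h.fld hR h.ev hgr La h.cut h.ker hKC hc0 (by linarith) (by positivity)
      (by positivity) h.cq haX haY (h.be0 true) (h.be0 false) (h.bem true) (h.bem false) hX hY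
      f1 f2).trans ?_
    refine (const_le_C hG h.fld hR le_rfl le_rfl).trans (ENNReal.ofReal_le_ofReal ?_)
    refine mul_le_mul_of_nonneg_left (Real.exp_le_exp.2 ?_) (by positivity)
    unfold E1C
    rw [← hN]
    have hq : 4 * c1 * (400 * Λ ^ 3 * q0) * ((2 * M + 3400 * Λ ^ 2) / (400 * Λ ^ 3)) =
        8 * c1 * q0 * (M + 1700 * Λ ^ 2) := by
      field_simp
      ring
    rw [hq, hM]
    have h1 := h.c1q0
    have h2 : 8 * c1 * q0 * (C * (1 + N)) ≤ 1 * (C * (1 + N)) := by gcongr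
    have h3 : C * NUSea.H0.Nl X T true + C * NUSea.H0.Nl X T false = C * N := by
      rw [hNe]
      ring
    nlinarith
  · -- the squares
    have hq1 : 8 * (1 / (8 * q0)) * q0 = 1 := by field_simp
    have hc12 : c1 ≤ 1 / (8 * q0) := by
      rw [le_div_iff₀ (by positivity)]
      have := h.c1q0
      linarith
    refine sh_int_sq_C hG h.fld hR h.ev hgr La h.cut h.ker hKC (by positivity) (hΛ1.trans hc12)
      hq0.le hM0 hq1.le haX haY (h.be0 true) (h.be0 false) (h.bem true) (h.bem false) hX hY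
      e1 e2 ?_
    have b : ∀ (a : Bool) (m : ℕ) (we : ℝ), ENNReal.ofReal (BC X a m we ε' C T * Real.exp Λ) ≤
        ENNReal.ofReal ((m.factorial : ℝ) * (2 * cpc) ^ m * Real.exp (hA X a +
          ((we + (7 / 12 + ε') * T + C * (1 + NUSea.H0.Nl X T a)) + Λ))) := by
      intro a m we
      refine ENNReal.ofReal_le_ofReal (le_of_eq ?_)
      unfold BC
      rw [mul_assoc, ← Real.exp_add]
      congr 2
      ring
    refine (const_le_C hG h.fld hR (b true p weX) (b false n weY)).trans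
      (ENNReal.ofReal_le_ofReal ?_)
    refine mul_le_mul_of_nonneg_left (Real.exp_le_exp.2 ?_) (by positivity)
    unfold E1C
    rw [← hN]
    have hq : 4 * (1 / (8 * q0)) * q0 * M = M / 2 := by
      field_simp
      ring
    rw [hq, hM]
    have h3 : C * NUSea.H0.Nl X T true + C * NUSea.H0.Nl X T false = C * N := by
      rw [hNe]
      ring
    have h4 : 0 ≤ C * (1 + N) := by positivity
    nlinarith

/-- one body factors with a wall -/
structure ShlW (X : NUSea.H0.Dat) (be : Bool → ℝ → ℝ) (aX aY cf B : ℝ → ℝ) (D q : ℝ) : Prop where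
  mX : Measurable aX
  mY : Measurable aY
  X0 : ∀ t, 0 ≤ aX t
  Y0 : ∀ t, 0 ≤ aY t
  sh : ShlF cf B D q
  leX : ∀ t, aX t * Real.exp (B t) ≤ Real.exp (X.pot true t) * be true t
  leY : ∀ t, aY t * Real.exp (B t) ≤ Real.exp (X.pot false t) * be false t

/-- the folded weight -/
def W0C (X : NUSea.H0.Dat) (p n : ℕ) (aX aY cf : ℝ → ℝ) (x : Cfg p n) : ℝ :=
  FWO (X.D true) (X.D1 true) (X.D false) (X.D1 false) (fun t => aX t * cf t)
    (fun t => aY t * cf t) x.1 x.2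

/-- the one body factors with the wall from the type A ones -/
theorem ShlW.of_shl {aX aY cf B : ℝ → ℝ} {D q : ℝ} (h : Shl X aX aY cf B D q)
    (hbe0 : ∀ a t, 0 ≤ be a t) (hbem : ∀ a, Measurable (be a)) :
    ShlW X be (fun t => aX t * be true t) (fun t => aY t * be false t) cf B D q where
  mX := h.mX.mul (hbem true)
  mY := h.mY.mul (hbem false)
  X0 t := mul_nonneg (h.X0 t) (hbe0 true t)
  Y0 t := mul_nonneg (h.Y0 t) (hbe0 false t)
  sh := ⟨h.mc, h.mB, h.c0, h.B0, h.D0, h.q0, h.cB, h.cD⟩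
  leX t := by
    have h1 := mul_le_mul_of_nonneg_right (h.leX t) (hbe0 true t)
    calc aX t * be true t * Real.exp (B t) = aX t * Real.exp (B t) * be true t := by ring
      _ ≤ _ := h1
  leY t := by
    have h1 := mul_le_mul_of_nonneg_right (h.leY t) (hbe0 false t)
    calc aY t * be false t * Real.exp (B t) = aY t * Real.exp (B t) * be false t := by ring
      _ ≤ _ := h1

/-- **H0 of the folded gas** -/
theorem H0C (h : HypC X p n be bb bb' T0 R ε c1 q0 Λ mm weX weY ε' C) {aX aY cf B : ℝ → ℝ}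
    {D q : ℝ} (hS : ShlW X be aX aY cf B D q) {E1 g : ℝ} (hg0 : 0 ≤ g) (hg : g < q)
    (hEx : ∀ T, T0 ≤ T → E1C X p n (weX + weY) ε' C T ε ≤ E1 + g * (T - T0)) :
    (∀ {ch : ℝ → ℝ} {K hg : ℝ}, Grid ch K hg → ∀ (La : Finset ℤ) (a0 : ℝ),
      (∫⁻ x, ENNReal.ofReal (W0C X p n aX aY cf x) *
          ENNReal.ofReal (Real.exp (gsq ch hg a0 X.τ La x)) ≤
        ENNReal.ofReal ((p.factorial : ℝ) * n.factorial * 2 ^ (p + n) *
          Real.exp (E1 + 16 * c1 * q0 * (mm + 850 * Λ ^ 2)) * (1 + shF D q g T0))) ∧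
      ∀ R1, T0 ≤ R1 → ∫⁻ x in (NU42.Bw p n R1)ᶜ, ENNReal.ofReal (W0C X p n aX aY cf x) *
          ENNReal.ofReal (Real.exp (gsq ch hg a0 X.τ La x)) ≤
        ENNReal.ofReal ((p.factorial : ℝ) * n.factorial * 2 ^ (p + n) *
          Real.exp (E1 + 16 * c1 * q0 * (mm + 850 * Λ ^ 2)) *
          (Real.exp (-(q - g) * (R1 - T0)) * shF D q g T0))) ∧
    (∀ R1, T0 ≤ R1 → (∀ t, |t| ≤ R1 → bb t = 1) → ∀ {δs : ℝ}, ∫ t in {t | R1 < |t|}, |X.ρ t| ≤ δs →
      SqWF (p := p) (n := n) (fun x => ENNReal.ofReal (W0C X p n aX aY cf x)) R1 X.ρ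
        (ENNReal.ofReal ((p.factorial : ℝ) * n.factorial * 2 ^ (p + n) * Real.exp E1 *
          (1 + shF D q g T0))) (1 / (16 * q0)) (2 * Λ + mm + 1 / (8 * q0) * δs ^ 2)) := by
  obtain ⟨Cκ, hG⟩ := h.geo
  have mD := fun a => (hG.D_cont a).measurable
  have mD1 := fun a => (hG.D1_cont a).measurable
  have hT0 := h.T0p
  have hq0 := h.q0p
  have haX : ∀ t, 0 ≤ aX t * Real.exp (B t) := fun t => mul_nonneg (hS.X0 t) (Real.exp_pos _).le
  have haY : ∀ t, 0 ≤ aY t * Real.exp (B t) := fun t => mul_nonneg (hS.Y0 t) (Real.exp_pos _).le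
  have hexp : ∀ (y T : ℝ), T0 ≤ T → (p.factorial : ℝ) * n.factorial * 2 ^ (p + n) *
      Real.exp (E1C X p n (weX + weY) ε' C T ε + y) ≤
      (p.factorial : ℝ) * n.factorial * 2 ^ (p + n) * Real.exp (E1 + y) *
        Real.exp (g * (T - T0)) := by
    intro y T hT
    rw [mul_assoc _ (Real.exp (E1 + y)), ← Real.exp_add]
    refine mul_le_mul_of_nonneg_left (Real.exp_le_exp.2 ?_) (by positivity)
    have := hEx T hT
    linarith
  refine ⟨?_, ?_⟩
  · intro ch K hg' hgr La a0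
    have hA : 0 ≤ (p.factorial : ℝ) * n.factorial * 2 ^ (p + n) *
      Real.exp (E1 + 16 * c1 * q0 * (mm + 850 * Λ ^ 2)) := by positivity
    exact tot_of_win (p := p) (n := n) (mD true) (mD1 true) (mD false) (mD1 false) hS.mX hS.mY
      hS.X0 hS.Y0 hS.sh hA hg hgr La a0 X.τ fun T hT =>
        ((win_C h hgr La a0 hT haX haY (fun t _ => hS.leX t) (fun t _ => hS.leY t)).1).trans
          (ENNReal.ofReal_le_ofReal (hexp _ T hT))
  · intro R1 hR1 hb1 δs hδs
    have h1 := sq_of_win (p := p) (n := n) (mD true) (mD1 true) (mD false) (mD1 false) hS.mX hS.mY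
      hS.X0 hS.Y0 hS.sh (A := (p.factorial : ℝ) * n.factorial * 2 ^ (p + n) *
        Real.exp (E1 + (2 * Λ + mm))) (by positivity) hg0 hg h.cut.cutf.cont h.cut.cutf.le
      (ρ_int X) (c := 1 / (8 * q0)) (by positivity) (fun T hT => by
        have h2 := (win_C h grid0 ∅ 0 hT haX haY (fun t _ => hS.leX t) (fun t _ => hS.leY t)).2
        rw [Wt0C_empty] at h2
        exact h2.mono (hexp _ T hT)) (hT0.le.trans hR1) hR1 hb1 hδs
    have hsh := shF_nonneg (T0 := T0) hS.sh.D0 hg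
    have h3 : SqWF (p := p) (n := n) (fun x => ENNReal.ofReal (W0C X p n aX aY cf x)) R1 X.ρ
        (ENNReal.ofReal (((p.factorial : ℝ) * n.factorial * 2 ^ (p + n) * Real.exp E1 *
          (1 + shF D q g T0)) * Real.exp (2 * Λ + mm))) (1 / (8 * q0) / 2)
        (1 / (8 * q0) * δs ^ 2) := by
      refine h1.mono (fun x _ => le_rfl) (ENNReal.ofReal_le_ofReal (le_of_eq ?_))
      rw [Real.exp_add]
      ring
    refine (h3.shift (by positivity)).monoC (le_of_eq ?_) le_rfl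
    field_simp
    ring

end

end TCDi
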