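import Pool.Agent.TC.Refl
import Pool.Agent.NUF.PRels

/-!
# Reversal of a half strip and reflection of the highest line (helper22)

`PH (-z) X.reverse = PH z X` for all generic rapidities; the reflection of the highest line `p`: no extra term for
an exit at the floor.
-/

set_option autoImplicit false

namespace Pool.Agent.TC

open _root_.Pool.Agent.EXL _root_.Pool.Agent.EXL.Pat Filter Topology
open _root_.Pool.Agent.EXL.Fm (lam)
open _root_.Pool.Agent.NUF _root_.Pool.Agent.NUU
open Complex (I exp sin cos)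

variable {α : Type*} [DecidableEq α] {z z' : α → ℂ} {X Y : List α} {p q b c d : α} {u u' : ℂ}

omit [DecidableEq α] in
theorem gz_neg (h : Gz z X) : Gz (fun i => -z i) X where
  s i hi j hj hij := by
    rw [show -z i - -z j = z j - z i by ring]
    exact h.s j hj i hi hij.symm
  d i hi j hj hij := by
    rw [show -z i - -z j = z j - z i by ring]
    exact h.d j hj i hi hij.symm

/-- **Reversal.** -/
theorem PH_rev [Finite α] (hn : X.Nodup) (hc : c ∉ X) (hd : d ∉ X) (hcd : c ≠ d) (hG : Gz z X) :
    PH (fun i => -z i) X.reverse = PH z X := by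
  have hp : X.Perm X.reverse := (List.reverse_perm X).symm
  have hn' := hp.nodup_iff.1 hn
  refine LinearMap.ext fun F => ?_
  obtain ⟨r, hr0, hr⟩ := exists_NR α
  refine gz_ext (f := fun z => PH (fun i => -z i) X.reverse F) (g := fun z => PH z X F) hr0
    (P := fun _ => 1) one_diff ?_ ?_ ?_ hG one_ne_zero
  · intro z hz hG _
    have hS : Sx r z X c d := ⟨hn, hz, fun i hi j hj hij => hG.ne hi hj hij, hcd, hc, hd⟩
    have hS' := hS.perm hp
    have h1 := PH_good hcd _ _ rfl (hS'.good' hr) hS'.nb hS'.nc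
    have h2 := PH_good hcd _ _ rfl (hS.good hr) hS.nb hS.nc
    have h3 := VV_rev hn hcd hc hd (hr.reg z X hn hz)
    have hf : X.reverse.toFinset = X.toFinset := List.toFinset_reverse ..
    show PH (fun i => -z i) X.reverse F = PH z X F
    rw [h1, h2, h3, hS.q hr, hf, hS.q' hr]
  · intro w t hG _
    exact PH_dt (zs := fun s i => -(z0 + s * w i)) hn' (fun x _ => (curve_diff w x t).neg)
      (gz_neg (hG.perm hp)) F
  · intro w t hG _
    exact PH_dt hn (fun x _ => curve_diff w x t) hG F

theorem upd_neg (z : α → ℂ) (p : α) : (fun i => -Function.update z p (-z p) i) =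
    Function.update (fun i => -z i) p (- -z p) := by
  funext i
  by_cases h : i = p
  · subst h
    rw [Function.update_self, Function.update_self]
  · rw [Function.update_of_ne h, Function.update_of_ne h]

/-- **Reflection of the highest line.** -/
theorem PH_rrefl [Finite α] (hn : (X ++ [p]).Nodup) (hc : c ∉ X ++ [p]) (hd : d ∉ X ++ [p])
    (hcd : c ≠ d) (hs : sin (3 * Real.pi / 16 + z p) ≠ 0) (h1 : Gz z (X ++ [p]))
    (h2 : Gz (Function.update z p (-z p)) (X ++ [p])) :
    PH (Function.update z p (-z p)) (X ++ [p]) = PH z (X ++ [p]) ∘ₗ Kp (kr (-z p)) p := by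
  have e1 := PH_rev hn hc hd hcd h1
  have e2 := PH_rev hn hc hd hcd h2
  have hr : (X ++ [p]).reverse = p :: X.reverse := by simp
  have hpm : (X ++ [p]).Perm (p :: X.reverse) := by
    rw [← hr]
    exact (List.reverse_perm _).symm
  have hn' := hpm.nodup_iff.1 hn
  have hsub : ∀ x ∈ X.reverse, x ∈ X ++ [p] := fun x hx => by
    rw [List.mem_reverse] at hx
    simp [hx]
  have hS : SupA (fun i => -z i) X.reverse := supA (List.nodup_cons.1 hn').2
    (fun h => hc (hsub _ h)) (fun h => hd (hsub _ h)) hcd ((gz_neg h1).sub hsub)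
  rw [hr] at e1 e2
  rw [← e2, ← e1, upd_neg]
  exact PH_refl (z := fun i => -z i) (List.nodup_cons.1 hn').1 hS
    (by rw [sub_neg_eq_add]; exact hs) (List.nodup_cons.1 hn').2

/-- **Reflection of the highest line with an exit at the floor.** -/
theorem PS0_rrefl [Finite α] (hn : (b :: (X ++ [p])).Nodup) (hc : c ∉ b :: (X ++ [p]))
    (hd : d ∉ b :: (X ++ [p])) (hcd : c ≠ d) (hs : sin (3 * Real.pi / 16 + z p) ≠ 0)
    (h1 : Gz z (X ++ [p])) (h2 : Gz (Function.update z p (-z p)) (X ++ [p])) :
    PS0 (Function.update z p (-z p)) b (X ++ [p]) = PS0 z b (X ++ [p]) ∘ₗ Kp (kr (-z p)) p := by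
  obtain ⟨hb, hn1⟩ := List.nodup_cons.1 hn
  have hbp : b ≠ p := fun e => hb (by simp [e])
  have hc1 : c ∉ X ++ [p] := fun h => hc (List.mem_cons_of_mem _ h)
  have hd1 : d ∉ X ++ [p] := fun h => hd (List.mem_cons_of_mem _ h)
  have hf : Tendsto (fun n : ℕ => (n : ℝ)) atTop atTop := tendsto_natCast_atTop_atTop
  have S1 : SupA z (X ++ [p]) := supA hn1 hc1 hd1 hcd h1
  have S2 : SupA (Function.update z p (-z p)) (X ++ [p]) := supA hn1 hc1 hd1 hcd h2
  set x0 : ℂ := 3 * Real.pi / 16 with hx0
  set n := (X ++ [p]).toFinset.card with hcard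
  have e1 : ex 1 (2 * x0 - 3 * lam) = 1 := by
    rw [hx0, hh_lam, show 2 * (3 * lam / 2) - 3 * lam = (0 : ℂ) by ring, ex1', mul_zero,
      Complex.exp_zero]
  have L := fp_oc_lim hf hb S2 x0
  have R1 := fp_oc_lim hf hb S1 x0
  rw [← hcard, e1, one_pow, mul_one] at L R1
  have R := R1.comp (LmE.const (Kp (kr (-z p)) p))
  have hex : ∀ᶠ t : ℕ in atTop,
      fp (Function.update z p (-z p)) b (x0 - 1 * ((t : ℝ) * I)) (X ++ [p]) =
        fp z b (x0 - 1 * ((t : ℝ) * I)) (X ++ [p]) ∘ₗ Kp (kr (-z p)) p := by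
    filter_upwards [gz_far hf h1 hb, gz_far hf h2 hb] with t g1 g2
    rw [one_mul]
    have ep : Function.update z b ((t : ℝ) * I) p = z p := Function.update_of_ne hbp.symm _ _
    have ez : Function.update (Function.update z p (-z p)) b ((t : ℝ) * I) =
        Function.update (Function.update z b ((t : ℝ) * I)) p
          (-Function.update z b ((t : ℝ) * I) p) := by
      rw [ep, Function.update_comm hbp]
    rw [← PH_upd hn, ← PH_upd hn, ez, ← List.cons_append]
    have := PH_rrefl (z := Function.update z b ((t : ℝ) * I)) (X := b :: X) (p := p) (c := c) (d := d)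
      (by rwa [List.cons_append]) (by rwa [List.cons_append]) (by rwa [List.cons_append]) hcd
      (by rw [ep]; exact hs) (by rwa [List.cons_append]) (by rwa [List.cons_append, ← ez])
    rw [this, ep]
  have hR := R.congr' (V' := fun t : ℕ => (exp ((t : ℝ) : ℂ) * (NUF.TT (t : ℝ) ^ n)⁻¹) •
      (fp (Function.update z p (-z p)) b (x0 - 1 * ((t : ℝ) * I)) (X ++ [p]) ∘ₗ oc b)) (by
    filter_upwards [hex] with t ht
    rw [ht]
    refine LinearMap.ext fun F => ?_
    simp only [LinearMap.comp_apply, LinearMap.smul_apply]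
    have := LinearMap.congr_fun (Kp_oc (p := p) (b := b) (kr (-z p))) F
    rw [Module.End.mul_apply, Module.End.mul_apply] at this
    rw [this])
  have key := L.unique hR
  have hI : (I : ℂ) ≠ 0 := Complex.I_ne_zero
  have hc0 : ex 1 x0 / I ≠ 0 := div_ne_zero (ex_ne _ _) hI
  rw [LinearMap.smul_comp] at key
  exact smul_right_injective _ hc0 key

end Pool.Agent.TC
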