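import Pool.Agent.TC.Psi
import Pool.Agent.TC.ReflR
import Pool.Agent.NUT2.Tp1

/-!
# The one leg function is even in the full lines (helper22)

The pairing `Wp` with an exit at the site `b` (right half strip) or `b'` (left half strip); `(x, x')` = a full line.
`even_low`: `x` is the lowest line, `even_high`: `x` is the highest line.
-/

set_option autoImplicit false

namespace Pool.Agent.TC

open _root_.Pool.Agent.NUF _root_.Pool.Agent.NUT2 _root_.Pool.Agent.NUU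
open _root_.Pool.Agent.EXL (Pat)

section words

variable {Γ ι : Type*} [AddCommGroup Γ] [DecidableEq ι] {ν : Γ → ℂ} {b x m q : ι}

/-- The word of `Kp`. -/
noncomputable def wKp (κ : ℂ) (x : ι) : Wd ℂ ι := cw.E x + κ • (1 - cw.E x)

/-- The word of `Jm`. -/
noncomputable def wJm (b x : ι) : Wd ℂ ι :=
  cw.U b x - cw.E b * cw.E x + cw.E b * (1 - cw.E x) * cw.P b x

theorem Kp_word (κ : ℂ) (x : ι) : Kp κ x = rep0 ℂ id (wKp κ x) := by
  unfold wKp Kp oc
  rw [map_add, map_smul, map_sub, map_one]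
  rfl

theorem Jm_word (h : b ≠ x) : Jm b x = rep0 ℂ id (wJm b x) := by
  have e : rep0 ℂ id (wJm b x) = uops.U b x - uops.E b * uops.E x +
      uops.E b * (1 - uops.E x) * uops.P b x := by
    unfold wJm
    rw [map_add, map_sub, map_mul, map_mul, map_mul, map_sub, map_one]
    rfl
  have e2 : (uops.P b x : Module.End ℂ (Pat ι → ℂ)) = EXL.opSw ℂ b x := by
    refine LinearMap.ext fun F => ?_
    rw [uops_P_apply]
    rfl
  rw [e, U_eq h, e2]
  unfold Jm oc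
  abel

/-- `Kp` on labelled states. -/
noncomputable def KL (ν : Γ → ℂ) (κ : ℂ) (x : ι) : Module.End ℂ (LPat Γ ι → ℂ) :=
  (cops ν).E x + κ • oo ν x

/-- `Jm` on labelled states. -/
noncomputable def JL (ν : Γ → ℂ) (b x : ι) : Module.End ℂ (LPat Γ ι → ℂ) :=
  (cops ν).U b x - (cops ν).E b * (cops ν).E x + (cops ν).E b * oo ν x * (cops ν).P b x

theorem KL_word (κ : ℂ) (x : ι) : KL ν κ x = repL ν id (wKp κ x) := by
  unfold wKp KL oo
  rw [map_add, map_smul, map_sub, map_one]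
  rfl

theorem JL_word (b x : ι) : JL ν b x = repL ν id (wJm b x) := by
  unfold wJm JL oo
  rw [map_add, map_sub, map_mul, map_mul, map_mul, map_sub, map_one]
  rfl

theorem On.wKp {T : Set ι} (κ : ℂ) (hx : x ∈ T) : On T (wKp κ x) := by
  have e : On T (cw.E x : Wd ℂ ι) := On.cE hx
  exact e.add ((On.one.sub e).smul κ)

theorem On.wJm {T : Set ι} (hb : b ∈ T) (hx : x ∈ T) : On T (wJm b x) := by
  have e : On T (cw.E x : Wd ℂ ι) := On.cE hx
  have e' : On T (cw.E b : Wd ℂ ι) := On.cE hb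
  have u : On T (cw.U b x : Wd ℂ ι) := On.cU hb hx
  have s : On T (cw.P b x : Wd ℂ ι) := On.sw hb hx
  exact (u.sub (e'.mul e)).add ((e'.mul (On.one.sub e)).mul s)

theorem tKL (χ : ι → Γ) (κ : ℂ) (x : ι) : Commute (Tw χ) (KL ν κ x) :=
  (tE χ x).add_right ((comm_oo_Tw χ x).smul_right κ)

theorem tJL {χ : ι → Γ} (h : χ b = χ x) : Commute (Tw χ) (JL ν b x) := by
  have s : Commute (Tw χ) ((cops (Γ := Γ) ν).P b x) := GC.sw h
  exact ((tU h).sub_right ((tE χ b).mul_right (tE χ x))).add_right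
    (((tE χ b).mul_right (comm_oo_Tw χ x)).mul_right s)

end words

section ops

variable {Γ ι : Type*} [AddCommGroup Γ] [DecidableEq ι] {ν : Γ → ℂ} {b b' x x' m q : ι}
  {L : List (ι × ι)} {χ : ι → Γ} {V V' W W' : Fnl ι} {S S' : Set ι} {κ κ' k k' : ℂ}

theorem KL_ap (κ : ℂ) (x : ι) (F : LPat Γ ι → ℂ) :
    KL ν κ x F = (cops ν).E x F + κ • (F - (cops ν).E x F) := rfl

theorem oo_ap (x : ι) (F : LPat Γ ι → ℂ) : oo ν x F = F - (cops ν).E x F := rfl

theorem JL_ap (b x : ι) (F : LPat Γ ι → ℂ) :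
    JL ν b x F = (cops ν).U b x F - (cops ν).E b ((cops ν).E x F) +
      (cops ν).E b (oo ν x ((cops ν).P b x F)) := rfl

theorem cEv (i j : ι) (F : LPat Γ ι → ℂ) :
    (cops ν).E i ((cops ν).E j F) = (cops ν).E j ((cops ν).E i F) :=
  LinearMap.congr_fun (comm_EE i j).eq F

theorem cEo (i j : ι) (F : LPat Γ ι → ℂ) :
    (cops ν).E i (oo ν j F) = oo ν j ((cops ν).E i F) :=
  (LinearMap.congr_fun (comm_oo_E j i).eq F).symm

theorem cEg {i a c : ι} (h1 : i ≠ a) (h2 : i ≠ c) (F : LPat Γ ι → ℂ) :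
    (cops ν).E i ((cops ν).glue a c F) = (cops ν).glue a c ((cops ν).E i F) :=
  LinearMap.congr_fun (comm_E_glue h1 h2).eq F

theorem Egl {a c : ι} (h : a ≠ c) (F : LPat Γ ι → ℂ) :
    (cops ν).E a ((cops ν).glue a c F) = (cops ν).E c ((cops ν).E a F) :=
  LinearMap.congr_fun (E_glue h) F

theorem ooE (i : ι) (F : LPat Γ ι → ℂ) : oo ν i ((cops ν).E i F) = 0 := by
  have h := LinearMap.congr_fun (E_oo (ν := ν) i) F
  rw [← (comm_oo_E i i).eq] at h
  exact h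

theorem EEv (i : ι) (F : LPat Γ ι → ℂ) : (cops ν).E i ((cops ν).E i F) = (cops ν).E i F := by
  have h := ooE (ν := ν) i F
  rw [oo_ap, sub_eq_zero] at h
  exact h.symm

theorem comm_U_E (h1 : m ≠ b) (h2 : m ≠ x) :
    Commute ((cops (Γ := Γ) ν).U b x) ((cops ν).E m) := by
  have e1 : ∀ i : ι, (cops (Γ := Γ) ν).E i = lE Γ ℂ i := by
    intro i
    show repL ν id (we i) = _
    rw [repL, we, FreeAlgebra.lift_ι_apply]
    rfl
  have e2 : (cops (Γ := Γ) ν).U b x = if b = x then 0 else lE Γ ℂ b * lE Γ ℂ x + lCu Γ ℂ b x := by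
    show repL ν id (if b = x then 0 else wU b x) = _
    split_ifs
    · exact map_zero _
    · rw [wU, map_add, map_mul, repL, we, we, wcu, FreeAlgebra.lift_ι_apply, FreeAlgebra.lift_ι_apply,
        FreeAlgebra.lift_ι_apply]
      rfl
  rw [e1, e2]
  split_ifs
  · exact Commute.zero_left _
  · exact ((comm_E_E _ _).mul_left (comm_E_E _ _)).add_left (comm_E_Cu h1 h2).symm

theorem comm_P_E (h1 : m ≠ b) (h2 : m ≠ x) :
    Commute ((cops (Γ := Γ) ν).P b x) ((cops ν).E m) := by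
  have e1 : (cops (Γ := Γ) ν).E m = lE Γ ℂ m := by
    show repL ν id (we m) = _
    rw [repL, we, FreeAlgebra.lift_ι_apply]
    rfl
  have e2 : (cops (Γ := Γ) ν).P b x = lSw Γ ℂ b x := by
    show repL ν id (wsw b x) = _
    rw [repL, wsw, FreeAlgebra.lift_ι_apply]
    rfl
  rw [e1, e2]
  exact (comm_E_Sw h1 h2).symm

theorem comm_JL_E (h1 : m ≠ b) (h2 : m ≠ x) : Commute (JL ν b x) ((cops (Γ := Γ) ν).E m) :=
  (((comm_U_E h1 h2).sub_left ((comm_EE b m).mul_left (comm_EE x m)))).add_left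
    (((comm_EE b m).mul_left (comm_oo_E x m)).mul_left (comm_P_E h1 h2))

theorem comm_JL_KL (κ : ℂ) (h1 : m ≠ b) (h2 : m ≠ x) : Commute (JL ν b x) (KL ν κ m) := by
  have e := comm_JL_E (ν := ν) h1 h2
  exact e.add_right (((Commute.one_right _).sub_right e).smul_right κ)

/-- The line `x` does not occur. -/
theorem KL_Gf_out (h1 : x ≠ m) (h2 : x ≠ q) (h : ∀ t ∈ L, x ≠ t.1 ∧ x ≠ t.2) :
    KL ν κ x (Gf ν m q L) = Gf ν m q L := by
  rw [KL_ap, E_Gf h1 h2 h, sub_self, smul_zero, add_zero]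

variable [Finite ι] (hν : ∀ g, ν (-g) = ν g) (h0 : ν 0 = 0)

include hν h0

theorem gsv (a c : ι) : (cops (Γ := Γ) ν).glue a c = (cops ν).glue c a :=
  (laws (ι := ι) hν h0).gs

theorem E_Gf_q (h1 : x ≠ m) : (cops ν).E x (Gf ν m x L) = 0 := by
  unfold Gf
  rw [gm_cons, gsv hν h0, cEo, Egl h1, ooE]

/-- The line `x` is occupied. -/
theorem KL_Gf_q (h1 : x ≠ m) : KL ν κ x (Gf ν m x L) = κ • Gf ν m x L := by
  rw [KL_ap, E_Gf_q hν h0 h1, zero_add, sub_zero]

/-- The two factors of a full line. -/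
theorem KK_Gf (hL : Gd ((m, q) :: (x, x') :: L)) (hk : κ * κ' = 1) :
    KL ν κ' x' (KL ν κ x (Gf ν m q ((x, x') :: L))) = Gf ν m q ((x, x') :: L) := by
  obtain ⟨e1, e2, e3⟩ := Gd_cons.1 hL
  obtain ⟨e4, e5, e6, e7⟩ := e2 (x, x') (by simp)
  obtain ⟨e8, e9, -⟩ := Gd_cons.1 e3
  simp only at e1 e4 e5 e6 e7 e8
  rw [Gf_cons hν e4 e5 e6 e7]
  set G := Gf ν m q L with hG
  set g := (cops ν).glue x x' G with hg
  have a1 : (cops ν).E x g = (cops ν).E x' ((cops ν).E x G) := Egl e8 G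
  have a2 : (cops ν).E x' g = (cops ν).E x' ((cops ν).E x G) := by
    rw [hg, gsv hν h0, Egl e8.symm, cEv]
  have a3 : (cops ν).E x' ((cops ν).E x' ((cops ν).E x G)) = (cops ν).E x' ((cops ν).E x G) := EEv _ _
  rw [KL_ap, KL_ap, a1]
  rw [map_add, map_smul, map_sub, a2, a3, sub_self, smul_zero, add_zero, add_sub_cancel_left, smul_smul,
    mul_comm κ' κ, hk, one_smul, add_sub_cancel]

/-- **The exit is joined to the full line.** -/
theorem JL_Gf (hL : Gd ((m, b) :: (x, x') :: L)) :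
    JL ν b x (Gf ν m b ((x, x') :: L)) = Gf ν m x' L + Gf ν m x L := by
  have W := laws (ι := ι) hν h0
  obtain ⟨e1, e2, e3⟩ := Gd_cons.1 hL
  obtain ⟨e4, e5, e6, e7⟩ := e2 (x, x') (by simp)
  obtain ⟨e8, e9, -⟩ := Gd_cons.1 e3
  simp only at e1 e4 e5 e6 e7 e8
  -- e1 : m ≠ b, e4 : m ≠ x, e5 : m ≠ x', e6 : b ≠ x, e7 : b ≠ x', e8 : x ≠ x'
  set H := gm ν L with hH
  have Hb : (cops ν).E b H = H := E_gm fun t ht => ⟨(e2 t (by simp [ht])).2.2.1, (e2 t (by simp [ht])).2.2.2⟩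
  have Hx : (cops ν).E x H = H := E_gm fun t ht => ⟨(e9 t ht).1, (e9 t ht).2.1⟩
  have Hx' : (cops ν).E x' H = H := E_gm fun t ht => ⟨(e9 t ht).2.2.1, (e9 t ht).2.2.2⟩
  have Pxm : (cops ν).P x m H = H := P_gm fun t ht => ⟨(e9 t ht).1, (e9 t ht).2.1,
    (e2 t (by simp [ht])).1, (e2 t (by simp [ht])).2.1⟩
  have Pbx : (cops ν).P b x H = H := P_gm fun t ht => ⟨(e2 t (by simp [ht])).2.2.1,
    (e2 t (by simp [ht])).2.2.2, (e9 t ht).1, (e9 t ht).2.1⟩
  have G0 : Gf ν m b ((x, x') :: L) = oo ν m ((cops ν).glue m b ((cops ν).glue x x' H)) := by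
    unfold Gf
    rw [gm_cons, gm_cons]
  have G1 : Gf ν m x' L = oo ν m ((cops ν).glue m x' H) := by
    unfold Gf
    rw [gm_cons]
  have G2 : Gf ν m x L = oo ν m ((cops ν).glue m x H) := by
    unfold Gf
    rw [gm_cons]
  -- the part with `x` empty
  have cU : ∀ F : LPat Γ ι → ℂ, (cops ν).U b x (oo ν m F) = oo ν m ((cops ν).U b x F) := fun F => by
    have : Commute ((cops (Γ := Γ) ν).U b x) ((cops ν).E m) := comm_U_E e1 e4
    rw [oo_ap, oo_ap, map_sub]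
    congr 1
    exact LinearMap.congr_fun this.eq F
  have p1 : (cops ν).U b x ((cops ν).glue m b ((cops ν).glue x x' H)) =
      (cops ν).E x ((cops ν).E b ((cops ν).glue m x' H)) := by
    have u := LinearMap.congr_fun (UG hν h0 (i := x) (j := b) (k := m) e6.symm e4.symm e1.symm)
      ((cops ν).glue x x' H)
    simp only [Module.End.mul_apply] at u
    have pg := LinearMap.congr_fun (W.Pglue (i := x) (j := m) (k := x') e4.symm e8 e5) H
    simp only [Module.End.mul_apply] at pg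
    rw [pg, Pxm] at u
    rw [U_symm hν h0, gsv hν h0 m b, u]
  have p2 : oo ν m ((cops ν).E b ((cops ν).E x ((cops ν).glue m b ((cops ν).glue x x' H)))) = 0 := by
    rw [cEv, gsv hν h0 m b, Egl e1.symm, cEv x m, ooE]
  have A : (cops ν).U b x (Gf ν m b ((x, x') :: L)) -
      (cops ν).E b ((cops ν).E x (Gf ν m b ((x, x') :: L))) = Gf ν m x' L := by
    rw [G0, cU, p1, cEo, cEo, p2, sub_zero, G1]
    congr 1
    rw [cEg e1.symm e7, Hb, cEg e4.symm e8, Hx]
  -- the part with `x` occupied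
  have cP : ∀ F : LPat Γ ι → ℂ, (cops ν).P b x (oo ν m F) = oo ν m ((cops ν).P b x F) := fun F => by
    have : Commute ((cops (Γ := Γ) ν).P b x) ((cops ν).E m) := W.cPE e1.symm e4.symm
    rw [oo_ap, oo_ap, map_sub]
    congr 1
    exact LinearMap.congr_fun this.eq F
  have p3 : (cops ν).P b x ((cops ν).glue m b ((cops ν).glue x x' H)) =
      (cops ν).glue x m ((cops ν).glue b x' H) := by
    have g1 := LinearMap.congr_fun (W.Pglue (i := b) (j := x) (k := m) e6 e1.symm e4.symm)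
      ((cops ν).glue x x' H)
    have g2 := LinearMap.congr_fun (W.Pglue (i := x) (j := b) (k := x') e6.symm e8 e7) H
    simp only [Module.End.mul_apply] at g1 g2
    rw [W.Ps (i := x) (j := b)] at g2
    rw [gsv hν h0 m b, g1, g2, Pbx]
  have B : (cops ν).E b (oo ν x ((cops ν).P b x (Gf ν m b ((x, x') :: L)))) = Gf ν m x L := by
    rw [G0, cP, p3, cEo, cEo, cEg e6 e1.symm, Egl e7, Hb, Hx', ← gsv hν h0 m x, ← G2, oo_ap,
      E_Gf_q hν h0 e4.symm, sub_zero]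
  rw [JL_ap, A, B]

/-- The factors of a full line cancel. -/
theorem Wp_KK (hV : SupS S V) (hV' : SupS S' V') (hd : Disjoint S S')
    (hL : Gd ((m, q) :: (x, x') :: L)) (hx : x ∈ S) (hx' : x' ∈ S') (hk : κ * κ' = 1) :
    Wp ν χ (V ∘ₗ Kp κ x) (V' ∘ₗ Kp κ' x') m q ((x, x') :: L) = Wp ν χ V V' m q ((x, x') :: L) := by
  have q1 : On S'ᶜ (wKp κ x) := On.wKp κ fun h => Set.disjoint_left.1 hd hx h
  have q2 : On Sᶜ (wKp κ' x') := On.wKp κ' fun h => Set.disjoint_left.1 hd h hx'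
  have q3 : On S' (wKp κ' x') := On.wKp κ' hx'
  unfold Wp
  rw [Kp_word, Kp_word, pr_left h0 hV (hV'.comp q3) hd q1, pr_right h0 hV hV' hd q2, ← KL_word,
    ← KL_word]
  congr 1
  have c1 := LinearMap.congr_fun (tKL (ν := ν) χ κ x).eq (Gf ν m q ((x, x') :: L))
  have c2 := LinearMap.congr_fun (tKL (ν := ν) χ κ' x').eq (KL ν κ x (Gf ν m q ((x, x') :: L)))
  simp only [Module.End.mul_apply] at c1 c2
  rw [← c1, ← c2, KK_Gf hν h0 hL hk]

/-- The exit on the right is joined to the full line. -/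
theorem Wp_JK (hV : SupS S V) (hV' : SupS S' V') (hd : Disjoint S S')
    (hL : Gd ((m, b) :: (x, x') :: L)) (hb : b ∉ S') (hx : x ∈ S) (hx' : x' ∈ S')
    (hχ : χ b = χ x) :
    Wp ν χ (V ∘ₗ Jm b x) (V' ∘ₗ Kp κ' x') m b ((x, x') :: L) =
      κ' * Wp ν χ V V' m x' L + Wp ν χ V V' m x L := by
  obtain ⟨e1, e2, e3⟩ := Gd_cons.1 hL
  obtain ⟨e4, e5, e6, e7⟩ := e2 (x, x') (by simp)
  obtain ⟨e8, e9, -⟩ := Gd_cons.1 e3
  simp only at e1 e4 e5 e6 e7 e8
  have q1 : On S'ᶜ (wJm b x) := On.wJm hb fun h => Set.disjoint_left.1 hd hx h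
  have q2 : On Sᶜ (wKp κ' x') := On.wKp κ' fun h => Set.disjoint_left.1 hd h hx'
  have q3 : On S' (wKp κ' x') := On.wKp κ' hx'
  unfold Wp
  rw [Jm_word e6, Kp_word, pr_left h0 hV (hV'.comp q3) hd q1, pr_right h0 hV hV' hd q2, ← KL_word,
    ← JL_word]
  have c1 := LinearMap.congr_fun (tJL (ν := ν) hχ).eq (Gf ν m b ((x, x') :: L))
  have c2 := LinearMap.congr_fun (tKL (ν := ν) χ κ' x').eq (JL ν b x (Gf ν m b ((x, x') :: L)))
  simp only [Module.End.mul_apply] at c1 c2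
  rw [← c1, ← c2, JL_Gf hν h0 hL, map_add, KL_Gf_q hν h0 e5.symm,
    KL_Gf_out e5.symm e8.symm fun t ht => ⟨(e9 t ht).2.2.1, (e9 t ht).2.2.2⟩, map_add, map_smul,
    map_add, map_smul, smul_eq_mul]

/-- The exit on the left is joined to the full line. -/
theorem Wp_KJ (hV : SupS S V) (hV' : SupS S' V') (hd : Disjoint S S')
    (hL : Gd ((m, b') :: (x, x') :: L)) (hb : b' ∉ S) (hx : x ∈ S) (hx' : x' ∈ S')
    (hb' : b' ∉ S') (hχ : χ b' = χ x') :
    Wp ν χ (V ∘ₗ Kp κ x) (V' ∘ₗ Jm b' x') m b' ((x, x') :: L) =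
      κ * Wp ν χ V V' m x L + Wp ν χ V V' m x' L := by
  obtain ⟨e1, e2, e3⟩ := Gd_cons.1 hL
  obtain ⟨e4, e5, e6, e7⟩ := e2 (x, x') (by simp)
  obtain ⟨e8, e9, -⟩ := Gd_cons.1 e3
  simp only at e1 e4 e5 e6 e7 e8
  have hL' : Gd ((m, b') :: (x', x) :: L) := by
    refine Gd_cons.2 ⟨e1, ?_, Gd_cons.2 ⟨e8.symm, ?_, (Gd_cons.1 e3).2.2⟩⟩
    · intro t ht
      rcases List.mem_cons.1 ht with rfl | ht
      · exact ⟨e5, e4, e7, e6⟩
      · exact e2 t (by simp [ht])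
    · intro t ht
      exact ⟨(e9 t ht).2.2.1, (e9 t ht).2.2.2, (e9 t ht).1, (e9 t ht).2.1⟩
  have hG : Gf ν m b' ((x, x') :: L) = Gf ν m b' ((x', x) :: L) := by
    unfold Gf
    rw [gm_cons, gm_cons, gm_cons, gm_cons, gsv hν h0 x x']
  set T' : Set ι := insert b' S' with hT'
  have hV2 : SupS T' V' := hV'.mono (Set.subset_insert _ _)
  have hd2 : Disjoint S T' := by
    rw [hT', Set.disjoint_insert_right]
    exact ⟨hb, hd⟩
  have q1 : On T'ᶜ (wKp κ x) := On.wKp κ fun h => Set.disjoint_left.1 hd2 hx h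
  have q2 : On Sᶜ (wJm b' x') := On.wJm hb fun h => Set.disjoint_left.1 hd h hx'
  have q3 : On T' (wJm b' x') := On.wJm (Set.mem_insert _ _) (Set.mem_insert_of_mem _ hx')
  unfold Wp
  rw [Jm_word e7, Kp_word, pr_left h0 hV (hV2.comp q3) hd2 q1, pr_right h0 hV hV2 hd2 q2, ← KL_word,
    ← JL_word]
  have c1 := LinearMap.congr_fun (tKL (ν := ν) χ κ x).eq (Gf ν m b' ((x, x') :: L))
  have c2 := LinearMap.congr_fun (tJL (ν := ν) hχ).eq (KL ν κ x (Gf ν m b' ((x, x') :: L)))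
  have c3 : JL ν b' x' (KL ν κ x (Gf ν m b' ((x, x') :: L))) =
      KL ν κ x (JL ν b' x' (Gf ν m b' ((x, x') :: L))) :=
    LinearMap.congr_fun (comm_JL_KL (ν := ν) κ e6.symm e8).eq _
  simp only [Module.End.mul_apply] at c1 c2
  rw [← c1, ← c2, c3, hG, JL_Gf hν h0 hL', map_add, KL_Gf_q hν h0 e4.symm,
    KL_Gf_out e4.symm e8 fun t ht => ⟨(e9 t ht).1, (e9 t ht).2.1⟩, map_add, map_smul,
    map_add, map_smul, smul_eq_mul]

/-- **The lowest full line**: the total one leg function does not change. -/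
theorem tot_low (hV : SupS S V) (hW : SupS (insert b S) W) (hV' : SupS S' V')
    (hW' : SupS (insert b' S') W') (hd : Disjoint (insert b S) (insert b' S'))
    (hL : Gd ((m, b) :: (x, x') :: L)) (hL' : Gd ((m, b') :: (x, x') :: L)) (hb : b ∉ S)
    (hb' : b' ∉ S') (hx : x ∈ S) (hx' : x' ∈ S') (hχ : χ b = χ x) (hχ' : χ b' = χ x')
    (hκ : κ * κ' = 1) (hk : k * κ' + k' = 0) :
    Wp ν χ (W ∘ₗ Kp κ x + k • (V ∘ₗ Jm b x)) (V' ∘ₗ Kp κ' x') m b ((x, x') :: L) +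
      Wp ν χ (V ∘ₗ Kp κ x) (W' ∘ₗ Kp κ' x' + k' • (V' ∘ₗ Jm b' x')) m b' ((x, x') :: L) =
    Wp ν χ W V' m b ((x, x') :: L) + Wp ν χ V W' m b' ((x, x') :: L) := by
  have d0 : Disjoint S S' :=
    hd.mono (Set.subset_insert _ _) (Set.subset_insert _ _)
  have d1 : Disjoint (insert b S) S' := hd.mono le_rfl (Set.subset_insert _ _)
  have d2 : Disjoint S (insert b' S') := hd.mono (Set.subset_insert _ _) le_rfl
  have n1 : b ∉ S' := fun h => Set.disjoint_left.1 d1 (Set.mem_insert _ _) h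
  have n2 : b' ∉ S := fun h => Set.disjoint_left.1 d2 h (Set.mem_insert _ _)
  have a1 := Wp_KK hν h0 (χ := χ) hW hV' d1 hL (Set.mem_insert_of_mem _ hx) hx' hκ
  have a2 := Wp_KK hν h0 (χ := χ) hV hW' d2 hL' hx (Set.mem_insert_of_mem _ hx') hκ
  have a3 := Wp_JK hν h0 (κ' := κ') hV hV' d0 hL n1 hx hx' hχ
  have a4 := Wp_KJ hν h0 (κ := κ) hV hV' d0 hL' n2 hx hx' hb' hχ'
  have l1 : ∀ (c : ℂ) (V1 V2 V3 : Fnl ι) (q : ι) (L : List (ι × ι)),
      Wp ν χ (V1 + c • V2) V3 m q L = Wp ν χ V1 V3 m q L + c * Wp ν χ V2 V3 m q L := by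
    intro c V1 V2 V3 q L
    unfold Wp
    rw [pr_add_left, pr_smul_left]
  have l2 : ∀ (c : ℂ) (V1 V2 V3 : Fnl ι) (q : ι) (L : List (ι × ι)),
      Wp ν χ V3 (V1 + c • V2) m q L = Wp ν χ V3 V1 m q L + c * Wp ν χ V3 V2 m q L := by
    intro c V1 V2 V3 q L
    unfold Wp
    rw [pr_add_right, pr_smul_right]
  have hk2 : k + k' * κ = 0 := by
    have : κ * (k * κ' + k') = 0 := by rw [hk, mul_zero]
    linear_combination this - k * hκ
  rw [l1, l2, a1, a2, a3, a4]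
  linear_combination (Wp ν χ V V' m x' L) * hk + (Wp ν χ V V' m x L) * hk2

/-- **The highest full line.** -/
theorem tot_high (hV : SupS S V) (hW : SupS (insert b S) W) (hV' : SupS S' V')
    (hW' : SupS (insert b' S') W') (hd : Disjoint (insert b S) (insert b' S'))
    (hL : Gd ((m, b) :: (x, x') :: L)) (hL' : Gd ((m, b') :: (x, x') :: L))
    (hx : x ∈ S) (hx' : x' ∈ S') (hκ : κ * κ' = 1) :
    Wp ν χ (W ∘ₗ Kp κ x) (V' ∘ₗ Kp κ' x') m b ((x, x') :: L) +
      Wp ν χ (V ∘ₗ Kp κ x) (W' ∘ₗ Kp κ' x') m b' ((x, x') :: L) =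
    Wp ν χ W V' m b ((x, x') :: L) + Wp ν χ V W' m b' ((x, x') :: L) := by
  have d1 : Disjoint (insert b S) S' := hd.mono le_rfl (Set.subset_insert _ _)
  have d2 : Disjoint S (insert b' S') := hd.mono (Set.subset_insert _ _) le_rfl
  rw [Wp_KK hν h0 (χ := χ) hW hV' d1 hL (Set.mem_insert_of_mem _ hx) hx' hκ,
    Wp_KK hν h0 (χ := χ) hV hW' d2 hL' hx (Set.mem_insert_of_mem _ hx') hκ]

end ops

/-! ### The one leg function -/

section tot

variable {Γ ι : Type*} [AddCommGroup Γ] [DecidableEq ι] {ν : Γ → ℂ} {b b' x x' m c d : ι}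
  {L : List (ι × ι)} {χ : ι → Γ} {z z' : ι → ℂ} {A A' X X' : List ι}

/-- **The one leg function**: `z`, `X`, `b` = rapidities, lines and exit on the right, `z'`, `X'`, `b'` = the same on
the left, `m` = the source. -/
noncomputable def Tot (ν : Γ → ℂ) (χ : ι → Γ) (z z' : ι → ℂ) (b b' m : ι) (X X' : List ι)
    (L : List (ι × ι)) : ℂ :=
  Wp ν χ (PS z b X) (PH z' X') m b L + Wp ν χ (PH z X) (PS z' b' X') m b' L

theorem supS_of {V : Fnl ι} (h : Sup X V) : SupS {i | i ∈ X} V := fun F hF =>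
  h F fun p hp => hF p fun _ hx => ax_out hp hx

theorem supS_cons {V : Fnl ι} (h : Sup (b :: X) V) : SupS (insert b {i | i ∈ X}) V :=
  (supS_of h).mono fun i hi => by simpa using hi

variable [Finite ι]

theorem PS_refl (hn : (b :: x :: A).Nodup) (hc : c ∉ b :: x :: A) (hd : d ∉ b :: x :: A) (hcd : c ≠ d)
    (hs : Complex.sin (3 * Real.pi / 16 - z x) ≠ 0) (h1 : Gz z (x :: A))
    (h2 : Gz (Function.update z x (-z x)) (x :: A)) :
    PS (Function.update z x (-z x)) b (x :: A) = PS z b (x :: A) ∘ₗ Kp (kr (z x)) x +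
      ((2 * Fr.s2)⁻¹ * kj (z x)) • (PH z (x :: A) ∘ₗ Jm b x) := by
  unfold PS
  rw [PS0_refl hn hc hd hcd hs h1 h2, smul_add, smul_smul, LinearMap.smul_comp]

theorem PS_rrefl (hn : (b :: (A ++ [x])).Nodup) (hc : c ∉ b :: (A ++ [x]))
    (hd : d ∉ b :: (A ++ [x])) (hcd : c ≠ d) (hs : Complex.sin (3 * Real.pi / 16 + z x) ≠ 0)
    (h1 : Gz z (A ++ [x])) (h2 : Gz (Function.update z x (-z x)) (A ++ [x])) :
    PS (Function.update z x (-z x)) b (A ++ [x]) = PS z b (A ++ [x]) ∘ₗ Kp (kr (-z x)) x := by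
  unfold PS
  rw [PS0_rrefl hn hc hd hcd hs h1 h2, LinearMap.smul_comp]

theorem kr_mul {y : ℂ} (h1 : Complex.sin (3 * Real.pi / 16 - y) ≠ 0)
    (h2 : Complex.sin (3 * Real.pi / 16 + y) ≠ 0) : kr y * kr (-y) = 1 := by
  unfold kr
  rw [sub_neg_eq_add, ← sub_eq_add_neg, div_mul_div_comm, mul_comm (Complex.sin (3 * Real.pi / 16 - y)),
    div_self (mul_ne_zero h2 h1)]

theorem kj_kr {y : ℂ} (h1 : Complex.sin (3 * Real.pi / 16 - y) ≠ 0)
    (h2 : Complex.sin (3 * Real.pi / 16 + y) ≠ 0) (c : ℂ) : c * kj y * kr (-y) + c * kj (-y) = 0 := by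
  have e : Complex.sin (2 * -y) = -Complex.sin (2 * y) := by
    rw [← Complex.sin_neg]
    congr 1
    ring
  unfold kr kj
  rw [sub_neg_eq_add, ← sub_eq_add_neg, e]
  generalize Complex.sin (3 * Real.pi / 16 - y) = s1 at *
  generalize Complex.sin (3 * Real.pi / 16 + y) = s2 at *
  field_simp
  ring

variable (hν : ∀ g, ν (-g) = ν g) (h0 : ν 0 = 0)

include hν h0

/-- **The one leg function is even in the lowest full line.** -/
theorem Tot_low (hn : (b :: x :: A).Nodup) (hn' : (b' :: x' :: A').Nodup)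
    (hdj : ∀ i ∈ b :: x :: A, i ∉ b' :: x' :: A')
    (hc : c ∉ b :: x :: A) (hd : d ∉ b :: x :: A) (hc' : c ∉ b' :: x' :: A')
    (hd' : d ∉ b' :: x' :: A') (hcd : c ≠ d) (hz : z' x' = -z x)
    (hs : Complex.sin (3 * Real.pi / 16 - z x) ≠ 0) (hs' : Complex.sin (3 * Real.pi / 16 + z x) ≠ 0)
    (h1 : Gz z (x :: A)) (h2 : Gz (Function.update z x (-z x)) (x :: A))
    (h1' : Gz z' (x' :: A')) (h2' : Gz (Function.update z' x' (-z' x')) (x' :: A'))
    (hL : Gd ((m, b) :: (x, x') :: L)) (hL' : Gd ((m, b') :: (x, x') :: L))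
    (hχ : χ b = χ x) (hχ' : χ b' = χ x') :
    Tot ν χ (Function.update z x (-z x)) (Function.update z' x' (-z' x')) b b' m (x :: A) (x' :: A')
      ((x, x') :: L) = Tot ν χ z z' b b' m (x :: A) (x' :: A') ((x, x') :: L) := by
  obtain ⟨hb, hn1⟩ := List.nodup_cons.1 hn
  obtain ⟨hb', hn1'⟩ := List.nodup_cons.1 hn'
  have hc1 : c ∉ x :: A := fun h => hc (List.mem_cons_of_mem _ h)
  have hd1 : d ∉ x :: A := fun h => hd (List.mem_cons_of_mem _ h)
  have hc1' : c ∉ x' :: A' := fun h => hc' (List.mem_cons_of_mem _ h)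
  have hd1' : d ∉ x' :: A' := fun h => hd' (List.mem_cons_of_mem _ h)
  have hG : Go z (x :: A) := go_of h1 hn1
  have hG' : Go z' (x' :: A') := go_of h1' hn1'
  have sV := supS_of (PH_sup hn1 hc1 hd1 hcd h1)
  have sV' := supS_of (PH_sup hn1' hc1' hd1' hcd h1')
  have sW := supS_cons (PS_sup hn hc hd hcd hG)
  have sW' := supS_cons (PS_sup hn' hc' hd' hcd hG')
  have hsz : Complex.sin (3 * Real.pi / 16 - z' x') ≠ 0 := by rw [hz, sub_neg_eq_add]; exact hs'
  have e1 := PS_refl hn hc hd hcd hs h1 h2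
  have e1' := PS_refl hn' hc' hd' hcd hsz h1' h2'
  have hS : SupA z A := supA (List.nodup_cons.1 hn1).2 (fun h => hc1 (List.mem_cons_of_mem _ h))
    (fun h => hd1 (List.mem_cons_of_mem _ h)) hcd (h1.sub fun i hi => List.mem_cons_of_mem _ hi)
  have hS' : SupA z' A' := supA (List.nodup_cons.1 hn1').2 (fun h => hc1' (List.mem_cons_of_mem _ h))
    (fun h => hd1' (List.mem_cons_of_mem _ h)) hcd (h1'.sub fun i hi => List.mem_cons_of_mem _ hi)
  have e2 := PH_refl (List.nodup_cons.1 hn1).1 hS hs (List.nodup_cons.1 hn1).2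
  have e2' := PH_refl (List.nodup_cons.1 hn1').1 hS' hsz (List.nodup_cons.1 hn1').2
  rw [hz] at e1' e2'
  unfold Tot
  rw [hz, e1, e1', e2, e2']
  have hD : Disjoint (insert b {i | i ∈ x :: A}) (insert b' {i | i ∈ x' :: A'}) := by
    rw [Set.disjoint_left]
    intro i hi hi'
    refine hdj i ?_ ?_
    · simpa using hi
    · simpa using hi'
  exact tot_low hν h0 sV sW sV' sW' hD hL hL' hb hb' (by simp) (by simp) hχ hχ' (kr_mul hs hs')
    (kj_kr hs hs' _)

/-- **The one leg function is even in the highest full line.** -/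
theorem Tot_high (hn : (b :: (A ++ [x])).Nodup) (hn' : (b' :: (A' ++ [x'])).Nodup)
    (hdj : ∀ i ∈ b :: (A ++ [x]), i ∉ b' :: (A' ++ [x']))
    (hc : c ∉ b :: (A ++ [x])) (hd : d ∉ b :: (A ++ [x])) (hc' : c ∉ b' :: (A' ++ [x']))
    (hd' : d ∉ b' :: (A' ++ [x'])) (hcd : c ≠ d) (hz : z' x' = -z x)
    (hs : Complex.sin (3 * Real.pi / 16 - z x) ≠ 0) (hs' : Complex.sin (3 * Real.pi / 16 + z x) ≠ 0)
    (h1 : Gz z (A ++ [x])) (h2 : Gz (Function.update z x (-z x)) (A ++ [x]))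
    (h1' : Gz z' (A' ++ [x'])) (h2' : Gz (Function.update z' x' (-z' x')) (A' ++ [x']))
    (hL : Gd ((m, b) :: (x, x') :: L)) (hL' : Gd ((m, b') :: (x, x') :: L)) :
    Tot ν χ (Function.update z x (-z x)) (Function.update z' x' (-z' x')) b b' m (A ++ [x])
      (A' ++ [x']) ((x, x') :: L) = Tot ν χ z z' b b' m (A ++ [x]) (A' ++ [x']) ((x, x') :: L) := by
  obtain ⟨hb, hn1⟩ := List.nodup_cons.1 hn
  obtain ⟨hb', hn1'⟩ := List.nodup_cons.1 hn'
  have hc1 : c ∉ A ++ [x] := fun h => hc (List.mem_cons_of_mem _ h)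
  have hd1 : d ∉ A ++ [x] := fun h => hd (List.mem_cons_of_mem _ h)
  have hc1' : c ∉ A' ++ [x'] := fun h => hc' (List.mem_cons_of_mem _ h)
  have hd1' : d ∉ A' ++ [x'] := fun h => hd' (List.mem_cons_of_mem _ h)
  have hG : Go z (A ++ [x]) := go_of h1 hn1
  have hG' : Go z' (A' ++ [x']) := go_of h1' hn1'
  have sV := supS_of (PH_sup hn1 hc1 hd1 hcd h1)
  have sV' := supS_of (PH_sup hn1' hc1' hd1' hcd h1')
  have sW := supS_cons (PS_sup hn hc hd hcd hG)
  have sW' := supS_cons (PS_sup hn' hc' hd' hcd hG')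
  have hsz : Complex.sin (3 * Real.pi / 16 + z' x') ≠ 0 := by
    rw [hz, ← sub_eq_add_neg]
    exact hs
  have e1 := PS_rrefl hn hc hd hcd hs' h1 h2
  have e1' := PS_rrefl hn' hc' hd' hcd hsz h1' h2'
  have e2 := PH_rrefl hn1 hc1 hd1 hcd hs' h1 h2
  have e2' := PH_rrefl hn1' hc1' hd1' hcd hsz h1' h2'
  rw [hz, neg_neg] at e1' e2'
  unfold Tot
  rw [hz, neg_neg, e1, e1', e2, e2']
  have hD : Disjoint (insert b {i | i ∈ A ++ [x]}) (insert b' {i | i ∈ A' ++ [x']}) := by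
    rw [Set.disjoint_left]
    intro i hi hi'
    refine hdj i ?_ ?_
    · simpa using hi
    · simpa using hi'
  exact tot_high hν h0 sV sW sV' sW' hD hL hL' (by simp) (by simp)
    (by rw [mul_comm]; exact kr_mul hs hs')

end tot

end Pool.Agent.TC
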