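import Pool.Agent.TC.Gauge
import Pool.Agent.TC.Psi
import Pool.Agent.TC.Data
import Pool.Agent.NUT2.Tp3

/-!
# The one leg functions of the lattice strip (helper36)

`WT ω z I J A B q g m`: the strip is cut above and below the face `f`; first half strip = right (rapidities
negated), second half strip = left.  `I`, `J` = the full lines below and above `f` (pairs of sites: right, left),
`A`, `B` = the lines which end at `f` (right, left; from below), `m` = the start of the leg (one of `A ++ B`),
`q`, `g` = the exit sites (floor) of the right and of the left half strip.  The leg has the weight `ω ^ k`,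
`k` = the number of crossings of the cut above `f` (to the left minus to the right).
-/

set_option autoImplicit false

namespace Pool.Agent.TC

open _root_.Pool.Agent.EXL _root_.Pool.Agent.NUF _root_.Pool.Agent.NUU _root_.Pool.Agent.NUT2
open _root_.Pool.Agent.EXL.Fm (lam)
open Complex (I exp sin cos)

section WT

variable {ι : Type*} [DecidableEq ι]

/-- The lines above `f` have the label 1 on the right. -/
def chw (J : List (ι × ι)) (x : ι) : ℤ := if x ∈ J.map Prod.fst then 1 else 0

/-- The labels, `q` = the exit. -/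
def chX (J : List (ι × ι)) (q : ι) : ι → ℤ × ℤ := (fun x => (chw J x, 0)) + Pi.single q (0, 1)

/-- The lines of the right half strip. -/
def lr (K L : List (ι × ι)) (A : List ι) : List ι := K.map Prod.fst ++ (A ++ L.map Prod.fst)

/-- The lines of the left half strip. -/
def ll (K L : List (ι × ι)) (B : List ι) : List ι := K.map Prod.snd ++ (B ++ L.map Prod.snd)

/-- Exit on the right. -/
noncomputable def WR (ω : ℂ) (z : ι → ℂ) (K L : List (ι × ι)) (A B : List ι) (q m : ι) : ℂ :=
  Wp (nuw ω) (chX L q) (PS (fun i => -z i) q (lr K L A)) (PH z (ll K L B)) m q (K ++ L)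

/-- Exit on the left. -/
noncomputable def WG (ω : ℂ) (z : ι → ℂ) (K L : List (ι × ι)) (A B : List ι) (g m : ι) : ℂ :=
  Wp (nuw ω) (chX L g) (PH (fun i => -z i) (lr K L A)) (PS z g (ll K L B)) m g (K ++ L)

/-- **The one leg function of the strip.** -/
noncomputable def WT (ω : ℂ) (z : ι → ℂ) (K L : List (ι × ι)) (A B : List ι) (q g m : ι) : ℂ :=
  WR ω z K L A B q m + WG ω z K L A B g m

/-- The configuration is admissible. -/
structure OkT (K L : List (ι × ι)) (A B : List ι) (q g m : ι) : Prop where
  nd : (sites K L A B q g).Nodup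
  m_mem : m ∈ A ++ B

variable {ω : ℂ} {z : ι → ℂ} {L K : List (ι × ι)} {A B : List ι} {q g m : ι}

/-- the sites of the right half strip -/
def SR (K L : List (ι × ι)) (A : List ι) : Set ι := {x | x ∈ lr K L A}

/-- the sites of the left half strip -/
def SL (K L : List (ι × ι)) (B : List ι) : Set ι := {x | x ∈ ll K L B}

omit [DecidableEq ι] in
theorem OkT.disj (h : OkT K L A B q g m) : Disjoint (SR K L A) (SL K L B) := by
  have hn := h.nd
  unfold sites at hn
  rw [Set.disjoint_left]
  intro x hx hy
  simp only [SR, SL, lr, ll, Set.mem_ofPred_eq, List.mem_append] at hx hy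
  simp only [List.nodup_append, List.nodup_cons, List.map_append, List.mem_append, List.mem_cons] at hn
  grind

omit [DecidableEq ι] in
theorem OkT.disjR (h : OkT K L A B q g m) : Disjoint (insert q (SR K L A)) (SL K L B) := by
  have hn := h.nd
  unfold sites at hn
  rw [Set.disjoint_left]
  intro x hx hy
  simp only [SR, SL, lr, ll, Set.mem_insert_iff, Set.mem_ofPred_eq, List.mem_append] at hx hy
  simp only [List.nodup_append, List.nodup_cons, List.map_append, List.mem_append, List.mem_cons] at hn
  grind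

omit [DecidableEq ι] in
theorem OkT.disjL (h : OkT K L A B q g m) : Disjoint (SR K L A) (insert g (SL K L B)) := by
  have hn := h.nd
  unfold sites at hn
  rw [Set.disjoint_left]
  intro x hx hy
  simp only [SR, SL, lr, ll, Set.mem_insert_iff, Set.mem_ofPred_eq, List.mem_append] at hx hy
  simp only [List.nodup_append, List.nodup_cons, List.map_append, List.mem_append, List.mem_cons] at hn
  grind

omit [DecidableEq ι] in
theorem OkT.gdq (h : OkT K L A B q g m) : Gd ((m, q) :: (K ++ L)) := by
  have hn := h.nd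
  have h1 := h.m_mem
  unfold sites at hn
  unfold Gd
  simp only [List.nodup_append, List.nodup_cons, List.map_append, List.mem_append, List.mem_cons,
    List.map_cons, List.cons_append] at hn h1 ⊢
  grind

omit [DecidableEq ι] in
theorem OkT.gdg (h : OkT K L A B q g m) : Gd ((m, g) :: (K ++ L)) := by
  have hn := h.nd
  have h1 := h.m_mem
  unfold sites at hn
  unfold Gd
  simp only [List.nodup_append, List.nodup_cons, List.map_append, List.mem_append, List.mem_cons,
    List.map_cons, List.cons_append] at hn h1 ⊢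
  grind

omit [DecidableEq ι] in
theorem OkT.ndR (h : OkT K L A B q g m) : (lr K L A).Nodup := by
  have hn := h.nd
  unfold sites at hn
  unfold lr
  simp only [List.nodup_append, List.nodup_cons, List.map_append, List.mem_append, List.mem_cons] at hn ⊢
  grind

omit [DecidableEq ι] in
theorem OkT.ndL (h : OkT K L A B q g m) : (ll K L B).Nodup := by
  have hn := h.nd
  unfold sites at hn
  unfold ll
  simp only [List.nodup_append, List.nodup_cons, List.map_append, List.mem_append, List.mem_cons] at hn ⊢
  grind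

/-- The sites outside the right half strip. -/
theorem OkT.outR (h : OkT K L A B q g m) : q ∉ lr K L A ∧ g ∉ lr K L A ∧
    (∀ x ∈ ll K L B, x ∉ lr K L A) := by
  have hn := h.nd
  unfold sites at hn
  unfold lr ll
  simp only [List.nodup_append, List.nodup_cons, List.map_append, List.mem_append, List.mem_cons] at hn ⊢
  grind

/-- The sites outside the left half strip. -/
theorem OkT.outL (h : OkT K L A B q g m) : q ∉ ll K L B ∧ g ∉ ll K L B ∧ q ≠ g ∧
    (∀ x ∈ lr K L A, x ∉ ll K L B) := by
  have hn := h.nd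
  unfold sites at hn
  unfold lr ll
  simp only [List.nodup_append, List.nodup_cons, List.map_append, List.mem_append, List.mem_cons] at hn ⊢
  grind

end WT

/-! ### The labels -/

section chi

variable {Γ ι : Type*} [AddCommGroup Γ] [DecidableEq ι] {ν : Γ → ℂ} {S S' : Set ι} {V V' : Fnl ι}

/-- The pairing depends on the labels of the sites of the two functionals only. -/
theorem Wp_chi (hV : SupS S V) (hV' : SupS S' V') (hd : Disjoint S S') {χ χ' : ι → Γ}
    (h : ∀ x, x ∈ S ∨ x ∈ S' → χ x = χ' x) (m q : ι) (L : List (ι × ι)) :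
    Wp ν χ V V' m q L = Wp ν χ' V V' m q L := by
  unfold Wp
  rw [pr_apply, pr_apply]
  refine hV.congr fun p hp => hV'.congr fun r hr => ?_
  have hD := dj_of_sup hd hp hr
  show Gf ν m q L (LPat.gau χ (ofP Γ (un p r))) = Gf ν m q L (LPat.gau χ' (ofP Γ (un p r)))
  congr 1
  refine gau_congr fun x => ?_
  show χ x - χ (un p r x) = χ' x - χ' (un p r x)
  by_cases hx : x ∈ S ∨ x ∈ S'
  · have hy : un p r x ∈ S ∨ un p r x ∈ S' := by
      by_contra hc
      push Not at hc
      have h1 : un p r (un p r x) = un p r x := by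
        rw [un_apply hD (un p r x), if_pos (hp _ hc.1)]
        exact hr _ hc.2
      have h2 : un p r (un p r x) = x := (un p r).inv x
      rw [h2] at h1
      rw [← h1] at hc
      rcases hx with hx | hx
      · exact hc.1 hx
      · exact hc.2 hx
    rw [h x hx, h _ hy]
  · push Not at hx
    have h1 : un p r x = x := by
      rw [un_apply hD x, if_pos (hp _ hx.1)]
      exact hr _ hx.2
    rw [h1, sub_self, sub_self]

end chi

section node

variable {ι : Type*} [DecidableEq ι] [Finite ι] {ω : ℂ} {S S' : Set ι} {V V' : Fnl ι} {χ : ι → ℤ}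

/-- The labels of the leg. -/
def ce (χ : ι → ℤ) (q : ι) : ι → ℤ × ℤ := (fun x => (χ x, 0)) + Pi.single q (0, 1)

/-- **Node at an occupied end, line with the label 1.** -/
theorem node_oJ (hω : ω ≠ 0) (hV : SupS S V) (hV' : SupS S' V') (hd : Disjoint S S')
    {r q x x' : ι} {L : List (ι × ι)} (hL : Gd ((r, q) :: (x, x') :: L)) (hr : r ∉ S) (hx : x ∉ S)
    (hr' : r ∉ S') (hx' : x ∉ S') (h1 : χ x = χ r + 1) :
    Wp (nuw ω) (ce χ q) (V ∘ₗ uops.U x r) V' r q ((x, x') :: L) =
      ω * Wp (nuw ω) (ce χ q) V V' x' q L := by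
  obtain ⟨e1, e2, e3⟩ := Gd_cons.1 hL
  obtain ⟨e4, e5, e6, e7⟩ := e2 (x, x') (by simp)
  obtain ⟨e8, e9, -⟩ := Gd_cons.1 e3
  simp only at e1 e4 e5 e6 e7 e8
  -- the labels shifted along the pair `x`, `x'`
  set d : ι → ℤ × ℤ := fun y => if y = x ∨ y = x' then (-1, 0) else 0 with hdd
  have s1 : Wp (nuw ω) (ce χ q + d) (V ∘ₗ uops.U x r) V' r q ((x, x') :: L) =
      Wp (nuw ω) (ce χ q) (V ∘ₗ uops.U x r) V' r q ((x, x') :: L) := by
    refine Wp_shift _ _ _ _ fun t ht => ?_
    rcases List.mem_cons.1 ht with rfl | ht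
    · simp only [hdd]
      rw [if_neg (by rintro (h | h); exacts [e4 h, e5 h]), if_neg (by rintro (h | h); exacts [e6 h, e7 h])]
    · rcases List.mem_cons.1 ht with rfl | ht
      · simp only [hdd, true_or, or_true, if_true]
      · have f1 := e9 t ht
        simp only [hdd]
        rw [if_neg (by rintro (h | h); exacts [f1.1 h.symm, f1.2.2.1 h.symm]),
          if_neg (by rintro (h | h); exacts [f1.2.1 h.symm, f1.2.2.2 h.symm])]
  have s2 : (ce χ q + d) x = (ce χ q + d) r := by
    simp only [hdd, ce, Pi.add_apply, true_or, if_true]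
    rw [if_neg (by rintro (h | h); exacts [e4 h, e5 h]), Pi.single_eq_of_ne e6.symm,
      Pi.single_eq_of_ne e1, h1]
    ext
    · simp
    · simp
  have s3 := node_o (ν := nuw ω) (nuw_neg ω) (nuw_zero ω) hV hV' hd hL hr hx hr' hx' s2
  -- the labels shifted along the pair `x'`, `q`
  set d' : ι → ℤ × ℤ := fun y => if y = x' ∨ y = q then (1, 0) else 0 with hdd'
  have s4 : Wp (nuw ω) ((ce χ q + d) + d') V V' x' q L = Wp (nuw ω) (ce χ q + d) V V' x' q L := by
    refine Wp_shift _ _ _ _ fun t ht => ?_
    rcases List.mem_cons.1 ht with rfl | ht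
    · simp only [hdd', true_or, or_true, if_true]
    · have f1 := e9 t ht
      have f2 := e2 t (by simp [ht])
      simp only [hdd']
      rw [if_neg (by rintro (h | h); exacts [f1.2.2.1 h.symm, f2.2.2.1 h.symm]),
        if_neg (by rintro (h | h); exacts [f1.2.2.2 h.symm, f2.2.2.2 h.symm])]
  have s5 : Wp (nuw ω) ((ce χ q + d) + d') V V' x' q L =
      Wp (nuw ω) ((fun y => (χ y, 0)) + Pi.single q (1, 1)) V V' x' q L := by
    refine Wp_chi hV hV' hd (fun y hy => ?_) _ _ _
    have hyx : y ≠ x := by
      rintro rfl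
      rcases hy with hy | hy
      · exact hx hy
      · exact hx' hy
    simp only [hdd, hdd', ce, Pi.add_apply]
    by_cases h2 : y = x'
    · subst h2
      have h3 : y ≠ q := Ne.symm e7
      rw [if_pos (Or.inr rfl), if_pos (Or.inl rfl), Pi.single_eq_of_ne h3, Pi.single_eq_of_ne h3]
      ext
      · simp
      · simp
    · by_cases h3 : y = q
      · subst h3
        rw [if_neg (by rintro (h | h); exacts [hyx h, h2 h]), if_pos (Or.inr rfl), Pi.single_eq_same,
          Pi.single_eq_same]
        ext
        · simp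
        · simp
      · rw [if_neg (by rintro (h | h); exacts [hyx h, h2 h]),
          if_neg (by rintro (h | h); exacts [h2 h, h3 h]), Pi.single_eq_of_ne h3,
          Pi.single_eq_of_ne h3]
        simp
  have hL' : ∀ t ∈ L, x' ≠ t.1 ∧ x' ≠ t.2 ∧ q ≠ t.1 ∧ q ≠ t.2 := fun t ht =>
    ⟨(e9 t ht).2.2.1, (e9 t ht).2.2.2, (e2 t (by simp [ht])).2.2.1, (e2 t (by simp [ht])).2.2.2⟩
  have s6 := Wp_scale (m := x') hω (Ne.symm e7) 1 χ V V' hL'
  rw [← s1, s3, ← s4, s5, s6, zpow_one]
  rfl

/-- **Node at an occupied end, line with the same label.** -/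
theorem node_oI (hV : SupS S V) (hV' : SupS S' V') (hd : Disjoint S S')
    {r q x x' : ι} {L : List (ι × ι)} (hL : Gd ((r, q) :: (x, x') :: L)) (hr : r ∉ S) (hx : x ∉ S)
    (hr' : r ∉ S') (hx' : x ∉ S') (h1 : χ x = χ r) :
    Wp (nuw ω) (ce χ q) (V ∘ₗ uops.U x r) V' r q ((x, x') :: L) =
      Wp (nuw ω) (ce χ q) V V' x' q L := by
  obtain ⟨e1, e2, e3⟩ := Gd_cons.1 hL
  obtain ⟨e4, e5, e6, e7⟩ := e2 (x, x') (by simp)
  simp only at e1 e4 e5 e6 e7
  refine node_o (ν := nuw ω) (nuw_neg ω) (nuw_zero ω) hV hV' hd hL hr hx hr' hx' ?_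
  simp only [ce, Pi.add_apply]
  rw [Pi.single_eq_of_ne e6.symm, Pi.single_eq_of_ne e1, h1]

end node

/-! ### Canonical sites -/

section can

/-- the scalar of the normalization -/
noncomputable def cQ (n : ℕ) : ℂ := 2 ^ (n.choose 2)

theorem cQ_ne (n : ℕ) : cQ n ≠ 0 := pow_ne_zero _ two_ne_zero

theorem cQ_succ (n : ℕ) : cQ (n + 1) = 2 ^ n * cQ n := by
  unfold cQ
  rw [← pow_add, Nat.choose_succ_succ' n 1, Nat.choose_one_right]

/-- The one leg function on the canonical sites: `0` = exit on the right, `1` = exit on the left. -/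
noncomputable def WC (ω : ℂ) (K L : List ℂ) (v : Fin 6 → ℂ) (A B : List (Fin 6)) (m : Fin 6) : ℂ :=
  WT ω (zc K L v) (Ic _ _) (Jc _ _) (A.map sc) (B.map sc) (sc 0) (sc 1) (sc m) /
    (cQ (K.length + L.length + A.length) * cQ (K.length + L.length + B.length))

/-- **The one leg functions of the lattice.** -/
noncomputable def fam (ω : ℂ) : _root_.TC.RF where
  R K L a := WC ω K L ![1, 1, a, 1, 1, 1] [2] [] 2
  X K L a b := WC ω K L ![1, 1, a, b, 1, 1] [2, 3] [] 2
  Y K L a b := WC ω K L ![1, 1, a, b, 1, 1] [2, 3] [] 3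
  O K L b h := WC ω K L ![1, 1, b, h, 1, 1] [2] [3] 2

end can

end Pool.Agent.TC
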