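import Pool.Agent.TC.Even
import Pool.Agent.TC.Fam

/-!
# Evenness of the family in the full lines (helper22)
-/

set_option autoImplicit false

namespace Pool.Agent.TC

open _root_.Pool.Agent.NUF _root_.Pool.Agent.NUT2 _root_.Pool.Agent.NUU
open _root_.Pool.Agent.EXL (Pat)

variable {ι : Type*} [DecidableEq ι]

/-- The rapidity of the full line `(x, x')` is reflected. -/
def neg2 (z : ι → ℂ) (x x' : ι) : ι → ℂ := Function.update (Function.update z x (-z x)) x' (-z x')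

/-- The labels of the source. -/
def chM (J : List (ι × ι)) (m : ι) : ι → ℤ × ℤ :=
  (fun x => (chw J x, 0)) - Pi.single m (0, 1)

theorem Wp_chX {V V' : Fnl ι} {J L : List (ι × ι)} {m q : ι} {ω : ℂ} (hL : Gd ((m, q) :: L)) :
    Wp (nuw ω) (chX J q) V V' m q L = Wp (nuw ω) (chM J m) V V' m q L := by
  obtain ⟨e1, e2, -⟩ := Gd_cons.1 hL
  have e : chX J q = chM J m + (Pi.single q (0, 1) + Pi.single m (0, 1)) := by
    unfold chX chM
    abel
  rw [e, Wp_shift]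
  intro t ht
  rcases List.mem_cons.1 ht with rfl | ht
  · show (Pi.single q ((0, 1) : ℤ × ℤ) : ι → ℤ × ℤ) m + (Pi.single m ((0, 1) : ℤ × ℤ) : ι → ℤ × ℤ) m =
      (Pi.single q ((0, 1) : ℤ × ℤ) : ι → ℤ × ℤ) q + (Pi.single m ((0, 1) : ℤ × ℤ) : ι → ℤ × ℤ) q
    rw [Pi.single_eq_same, Pi.single_eq_same, Pi.single_eq_of_ne e1, Pi.single_eq_of_ne e1.symm,
      zero_add, add_zero]
  · obtain ⟨h1, h2, h3, h4⟩ := e2 t ht
    simp only at h1 h2 h3 h4
    show (Pi.single q ((0, 1) : ℤ × ℤ) : ι → ℤ × ℤ) t.1 + (Pi.single m ((0, 1) : ℤ × ℤ) : ι → ℤ × ℤ) t.1 =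
      (Pi.single q ((0, 1) : ℤ × ℤ) : ι → ℤ × ℤ) t.2 + (Pi.single m ((0, 1) : ℤ × ℤ) : ι → ℤ × ℤ) t.2
    rw [Pi.single_eq_of_ne h1.symm, Pi.single_eq_of_ne h2.symm, Pi.single_eq_of_ne h3.symm,
      Pi.single_eq_of_ne h4.symm]

variable {ω : ℂ} {z : ι → ℂ} {K L : List (ι × ι)} {A B : List ι} {q g m x x' c d : ι}

/-- The family is the one leg function `Tot`. -/
theorem WT_Tot (h : OkT K L A B q g m) : WT ω z K L A B q g m =
    Tot (nuw ω) (chM L m) (fun i => -z i) z q g m (lr K L A) (ll K L B) (K ++ L) := by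
  unfold WT WR WG Tot
  rw [Wp_chX h.gdq, Wp_chX h.gdg]

theorem Tot_congr {Γ : Type*} [AddCommGroup Γ] {ν : Γ → ℂ} {χ : ι → Γ} {z1 z1' z2 z2' : ι → ℂ}
    {b b' m : ι} {X X' : List ι} {L : List (ι × ι)} (h : ∀ x ∈ X, z1 x = z2 x)
    (h' : ∀ x ∈ X', z1' x = z2' x) : Tot ν χ z1 z1' b b' m X X' L = Tot ν χ z2 z2' b b' m X X' L := by
  unfold Tot
  rw [PS_congr h, PH_congr h, PS_congr h', PH_congr h']

theorem neg2_R {X : List ι} (h : x' ∉ X) : ∀ i ∈ X,
    -neg2 z x x' i = Function.update (fun i => -z i) x (- -z x) i := by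
  intro i hi
  have hi' : i ≠ x' := fun e => h (e ▸ hi)
  show -(Function.update (Function.update z x (-z x)) x' (-z x') i) = _
  rw [Function.update_of_ne hi']
  by_cases e : i = x
  · rw [e, Function.update_self, Function.update_self]
  · rw [Function.update_of_ne e, Function.update_of_ne e]

theorem neg2_L {X : List ι} (h : x ∉ X) : ∀ i ∈ X,
    neg2 z x x' i = Function.update z x' (-z x') i := by
  intro i hi
  have hi' : i ≠ x := fun e => h (e ▸ hi)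
  show Function.update (Function.update z x (-z x)) x' (-z x') i = _
  by_cases e : i = x'
  · rw [e, Function.update_self, Function.update_self]
  · rw [Function.update_of_ne e, Function.update_of_ne e, Function.update_of_ne hi']

variable [Finite ι]

/-- **Evenness in the lowest full line.** -/
theorem WT_low (h : OkT ((x, x') :: K) L A B q g m)
    (c1 : c ∉ q :: lr ((x, x') :: K) L A) (c2 : c ∉ g :: ll ((x, x') :: K) L B)
    (d1 : d ∉ q :: lr ((x, x') :: K) L A) (d2 : d ∉ g :: ll ((x, x') :: K) L B) (hcd : c ≠ d)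
    (hz : z x' = z x)
    (hs : Complex.sin (3 * Real.pi / 16 - z x) ≠ 0) (hs' : Complex.sin (3 * Real.pi / 16 + z x) ≠ 0)
    (g1 : Gz (fun i => -z i) (lr ((x, x') :: K) L A))
    (g2 : Gz (fun i => -neg2 z x x' i) (lr ((x, x') :: K) L A))
    (g3 : Gz z (ll ((x, x') :: K) L B)) (g4 : Gz (neg2 z x x') (ll ((x, x') :: K) L B)) :
    WT ω (neg2 z x x') ((x, x') :: K) L A B q g m = WT ω z ((x, x') :: K) L A B q g m := by
  rw [WT_Tot h, WT_Tot h]
  obtain ⟨oR1, oR2, oR3⟩ := h.outR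
  obtain ⟨oL1, oL2, oL3, oL4⟩ := h.outL
  have hG := h.gdq
  have hG' := h.gdg
  have eR : lr ((x, x') :: K) L A = x :: lr K L A := rfl
  have eL : ll ((x, x') :: K) L B = x' :: ll K L B := rfl
  have nR : (q :: x :: lr K L A).Nodup := by
    rw [← eR]
    exact List.nodup_cons.2 ⟨oR1, h.ndR⟩
  have nL : (g :: x' :: ll K L B).Nodup := by
    rw [← eL]
    exact List.nodup_cons.2 ⟨oL2, h.ndL⟩
  have hx'X : x' ∉ x :: lr K L A := by
    rw [← eR]
    exact oR3 x' (by rw [eL]; simp)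
  have hxX' : x ∉ x' :: ll K L B := by
    rw [← eL]
    exact oL4 x (by rw [eR]; simp)
  have u1 := neg2_R (z := z) (x := x) (x' := x') hx'X
  have u2 := neg2_L (z := z) (x := x) (x' := x') hxX'
  rw [eR] at c1 d1 g1 g2 ⊢
  rw [eL] at c2 d2 g3 g4 ⊢
  rw [Tot_congr u1 u2]
  have hdj : ∀ i ∈ q :: x :: lr K L A, i ∉ g :: x' :: ll K L B := by
    intro i hi hi'
    rw [← eR] at hi
    rw [← eL] at hi'
    rcases List.mem_cons.1 hi with rfl | hi
    · rcases List.mem_cons.1 hi' with h1 | h1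
      · exact oL3 h1
      · exact oL1 h1
    · rcases List.mem_cons.1 hi' with rfl | h1
      · exact oR2 hi
      · exact oL4 i hi h1
  have hJX : ∀ i, i ∈ L.map Prod.fst → i ∈ lr ((x, x') :: K) L A := fun i h => by simp [lr, h]
  have hxJ : x ∉ L.map Prod.fst := fun h => (List.nodup_cons.1 (List.nodup_cons.1 nR).2).1 (by
    simp [lr, h])
  have hqJ : q ∉ L.map Prod.fst := fun h => oR1 (hJX _ h)
  have hx'J : x' ∉ L.map Prod.fst := fun h => oL4 x' (hJX _ h) (by rw [eL]; simp)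
  have hgJ : g ∉ L.map Prod.fst := fun h => oR2 (hJX _ h)
  obtain ⟨m1, m2, -⟩ := Gd_cons.1 hG
  obtain ⟨m3, m4, -⟩ := Gd_cons.1 hG'
  obtain ⟨n1, n2, n3, n4⟩ := m2 (x, x') (by simp)
  simp only at m1 m3 n1 n2 n3 n4
  have ch : ∀ i, i ∉ L.map Prod.fst → m ≠ i → chM L m i = 0 := fun i h1 h2 => by
    show ((chw L i, 0) : ℤ × ℤ) - (Pi.single m ((0, 1) : ℤ × ℤ) : ι → ℤ × ℤ) i = 0
    rw [chw, if_neg h1, Pi.single_eq_of_ne h2.symm, sub_zero]
    rfl
  refine Tot_low (nuw_neg ω) (nuw_zero ω) nR nL hdj c1 d1 c2 d2 hcd ?_ ?_ ?_ g1 (g2.congr u1) g3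
    (g4.congr u2) hG hG' ?_ ?_
  · rw [hz, neg_neg]
  · rw [sub_neg_eq_add]
    exact hs'
  · rw [← sub_eq_add_neg]
    exact hs
  · rw [ch q hqJ m1, ch x hxJ n1]
  · rw [ch g hgJ m3, ch x' hx'J n2]

/-- **Evenness in the highest full line.** -/
theorem WT_high (h : OkT K (L ++ [(x, x')]) A B q g m)
    (c1 : c ∉ q :: lr K (L ++ [(x, x')]) A) (c2 : c ∉ g :: ll K (L ++ [(x, x')]) B)
    (d1 : d ∉ q :: lr K (L ++ [(x, x')]) A) (d2 : d ∉ g :: ll K (L ++ [(x, x')]) B) (hcd : c ≠ d)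
    (hz : z x' = z x)
    (hs : Complex.sin (3 * Real.pi / 16 - z x) ≠ 0) (hs' : Complex.sin (3 * Real.pi / 16 + z x) ≠ 0)
    (g1 : Gz (fun i => -z i) (lr K (L ++ [(x, x')]) A))
    (g2 : Gz (fun i => -neg2 z x x' i) (lr K (L ++ [(x, x')]) A))
    (g3 : Gz z (ll K (L ++ [(x, x')]) B)) (g4 : Gz (neg2 z x x') (ll K (L ++ [(x, x')]) B)) :
    WT ω (neg2 z x x') K (L ++ [(x, x')]) A B q g m = WT ω z K (L ++ [(x, x')]) A B q g m := by
  rw [WT_Tot h, WT_Tot h]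
  obtain ⟨oR1, oR2, oR3⟩ := h.outR
  obtain ⟨oL1, oL2, oL3, oL4⟩ := h.outL
  have hpm : ((x, x') :: (K ++ L)).Perm (K ++ (L ++ [(x, x')])) := by
    have h1 := (List.perm_middle (a := (x, x')) (l₁ := K ++ L) (l₂ := [])).symm
    rw [List.append_nil] at h1
    rwa [← List.append_assoc]
  have hG : Gd ((m, q) :: (x, x') :: (K ++ L)) := h.gdq.perm (hpm.symm.cons _)
  have hG' : Gd ((m, g) :: (x, x') :: (K ++ L)) := h.gdg.perm (hpm.symm.cons _)
  have eR : lr K (L ++ [(x, x')]) A = lr K L A ++ [x] := by simp [lr]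
  have eL : ll K (L ++ [(x, x')]) B = ll K L B ++ [x'] := by simp [ll]
  have nR : (q :: (lr K L A ++ [x])).Nodup := by
    rw [← eR]
    exact List.nodup_cons.2 ⟨oR1, h.ndR⟩
  have nL : (g :: (ll K L B ++ [x'])).Nodup := by
    rw [← eL]
    exact List.nodup_cons.2 ⟨oL2, h.ndL⟩
  have hx'X : x' ∉ lr K L A ++ [x] := by
    rw [← eR]
    exact oR3 x' (by rw [eL]; simp)
  have hxX' : x ∉ ll K L B ++ [x'] := by
    rw [← eL]
    exact oL4 x (by rw [eR]; simp)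
  have u1 := neg2_R (z := z) (x := x) (x' := x') hx'X
  have u2 := neg2_L (z := z) (x := x) (x' := x') hxX'
  have hdj : ∀ i ∈ q :: (lr K L A ++ [x]), i ∉ g :: (ll K L B ++ [x']) := by
    intro i hi hi'
    rw [← eR] at hi
    rw [← eL] at hi'
    rcases List.mem_cons.1 hi with rfl | hi
    · rcases List.mem_cons.1 hi' with h1 | h1
      · exact oL3 h1
      · exact oL1 h1
    · rcases List.mem_cons.1 hi' with rfl | h1
      · exact oR2 hi
      · exact oL4 i hi h1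
  have hTp : ∀ z1 z2 : ι → ℂ, ∀ χ : ι → ℤ × ℤ, Tot (nuw ω) χ z1 z2 q g m (lr K L A ++ [x])
      (ll K L B ++ [x']) (K ++ (L ++ [(x, x')])) = Tot (nuw ω) χ z1 z2 q g m (lr K L A ++ [x])
      (ll K L B ++ [x']) ((x, x') :: (K ++ L)) := by
    intro z1 z2 χ
    unfold Tot
    rw [Wp_perm (nuw_neg ω) hG hpm, Wp_perm (nuw_neg ω) hG' hpm]
  rw [eR] at c1 d1 g1 g2 ⊢
  rw [eL] at c2 d2 g3 g4 ⊢
  rw [Tot_congr u1 u2, hTp, hTp]
  refine Tot_high (nuw_neg ω) (nuw_zero ω) nR nL hdj c1 d1 c2 d2 hcd ?_ ?_ ?_ g1 (g2.congr u1) g3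
    (g4.congr u2) hG hG'
  · rw [hz, neg_neg]
  · rw [sub_neg_eq_add]
    exact hs'
  · rw [← sub_eq_add_neg]
    exact hs

end Pool.Agent.TC
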