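import Mathlib

/-! Integrals of functions which are even in every coordinate. -/

open MeasureTheory Set
open scoped ENNReal

namespace TCE

/-- one variable: the integral over `[-T, T]` of an even function -/
theorem lintegral_even {T : ℝ} (f : ℝ → ℝ≥0∞) (he : ∀ x, f (-x) = f x) :
    ∫⁻ x in Icc (-T) T, f x = 2 * ∫⁻ x in Ioc 0 T, f x := by
  have hneg : ∫⁻ x in Ico (-T) 0, f x = ∫⁻ x in Ioc 0 T, f x := by
    have h := (Measure.measurePreserving_neg (volume : Measure ℝ)).setLIntegral_comp_preimage_emb
      (MeasurableEquiv.neg ℝ).measurableEmbedding f (Ico (-T) 0)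
    rw [← h]
    have h2 : (Neg.neg ⁻¹' Ico (-T) 0 : Set ℝ) = Ioc 0 T := by
      ext x
      simp only [mem_preimage, mem_Ico, mem_Ioc]
      constructor
      · rintro ⟨h1, h2⟩; constructor <;> linarith
      · rintro ⟨h1, h2⟩; constructor <;> linarith
    rw [h2]
    simp_rw [he]
  rcases le_or_gt 0 T with hT | hT
  · have hu : Icc (-T) T = Ico (-T) 0 ∪ Icc 0 T := by
      rw [Ico_union_Icc_eq_Icc (by linarith) hT]
    have hd : Disjoint (Ico (-T) (0 : ℝ)) (Icc 0 T) := by
      rw [Set.disjoint_left]
      intro x h1 h2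
      exact absurd h1.2 (not_lt.2 h2.1)
    rw [hu, lintegral_union measurableSet_Icc hd, hneg, two_mul]
    congr 1
    exact setLIntegral_congr Ioc_ae_eq_Icc.symm
  · rw [Icc_eq_empty (by linarith), Ioc_eq_empty (by linarith)]
    simp

/-- **all variables** -/
theorem lintegral_even_pi (n : ℕ) {T : ℝ} (F : (Fin n → ℝ) → ℝ≥0∞) (hF : Measurable F)
    (he : ∀ (i : Fin n) (t : Fin n → ℝ), F (Function.update t i (-t i)) = F t) :
    ∫⁻ t in Set.univ.pi fun _ : Fin n => Icc (-T) T, F t =
      2 ^ n * ∫⁻ t in Set.univ.pi fun _ : Fin n => Ioc 0 T, F t := by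
  induction n with
  | zero =>
    have h1 : (Set.univ.pi fun _ : Fin 0 => Icc (-T) T) = Set.univ := by
      ext x; simp
    have h2 : (Set.univ.pi fun _ : Fin 0 => Ioc (0 : ℝ) T) = Set.univ := by
      ext x; simp
    rw [h1, h2]
    simp
  | succ n ih =>
    have key : ∀ S : Set ℝ, MeasurableSet S →
        ∫⁻ t in Set.univ.pi fun _ : Fin (n + 1) => S, F t =
        ∫⁻ x in S, ∫⁻ s in Set.univ.pi fun _ : Fin n => S, F (Fin.cons x s) := by
      intro S hS
      rw [volume_pi, Measure.restrict_pi_pi]
      have h1 := (measurePreserving_piFinSuccAbove (fun _ : Fin (n + 1) => volume.restrict S) 0)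
      have h2 := h1.symm.lintegral_comp_emb (MeasurableEquiv.measurableEmbedding _) F
      have h3 := lintegral_prod (μ := volume.restrict S)
        (ν := Measure.pi fun _ : Fin n => volume.restrict S)
        (fun a => F ((MeasurableEquiv.piFinSuccAbove (fun _ : Fin (n + 1) => ℝ) 0).symm a))
        (hF.comp (MeasurableEquiv.measurable _)).aemeasurable
      rw [← h2, h3]
      refine lintegral_congr fun x => ?_
      rw [volume_pi, Measure.restrict_pi_pi]
      refine lintegral_congr fun y => ?_
      congr 1
      simp [MeasurableEquiv.piFinSuccAbove, Fin.insertNthEquiv]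
    rw [key _ measurableSet_Icc, key _ measurableSet_Ioc]
    have h3 : ∀ x : ℝ, ∫⁻ s in Set.univ.pi fun _ : Fin n => Icc (-T) T, F (Fin.cons x s) =
        2 ^ n * ∫⁻ s in Set.univ.pi fun _ : Fin n => Ioc 0 T, F (Fin.cons x s) := by
      intro x
      refine ih (fun s => F (Fin.cons x s)) ?_ fun i t => ?_
      · exact hF.comp (by
          refine measurable_pi_lambda _ fun i => ?_
          refine Fin.cases ?_ (fun j => ?_) i
          · simp
          · simpa using measurable_pi_apply j)
      · have h4 := he i.succ (Fin.cons x t : Fin (n + 1) → ℝ)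
        rw [← h4]
        congr 1
        rw [Fin.cons_update]
        simp
    simp_rw [h3]
    have hm : Measurable fun x : ℝ =>
        ∫⁻ s in Set.univ.pi fun _ : Fin n => Ioc 0 T, F (Fin.cons x s) := by
      have hj : Measurable fun p : ℝ × (Fin n → ℝ) => F (Fin.cons p.1 p.2) := by
        refine hF.comp (measurable_pi_lambda _ fun i => ?_)
        refine Fin.cases ?_ (fun j => ?_) i
        · simpa using measurable_fst
        · have h4 : Measurable fun p : ℝ × (Fin n → ℝ) => p.2 j :=
            (measurable_pi_apply j).comp measurable_snd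
          simpa using h4
      exact hj.lintegral_prod_right'
    rw [lintegral_const_mul _ hm, lintegral_even]
    · rw [pow_succ]
      ring
    · intro x
      refine lintegral_congr fun s => ?_
      have h5 := he 0 (Fin.cons x s : Fin (n + 1) → ℝ)
      rw [← h5]
      congr 1
      simp

end TCE
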