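import Pool.Agent.TC.Data

/-!
# The values without full lines (helper51)

`θ = e ^ (i λ)`, `τ = e ^ (3 i λ / 2)`; `sh θ τ a = sin (3 λ / 2 - z)`, `a = e ^ (i z)`.

* `R = sin (3 λ / 2 - a) / sin (3 λ)`, `O b h = R b`
* `X = sin (7 λ / 2 - a) sin (3 λ + b - a) sin (3 λ - a - b) / sin (3 λ)`
* `Y = sin (3 λ / 2 - b) sin (3 λ + b - a) sin (3 λ - a - b) / sin (3 λ)`
-/

set_option autoImplicit false

noncomputable section

namespace TC

open NUTP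

/-- `sin (t - z)`, `τ = e ^ (i t)`, `a = e ^ (i z)` -/
def sh (θ τ a : ℂ) : ℂ := sn θ 0 (τ / a)

/-- `sin (3 λ + b - a) sin (3 λ - a - b) / sin (3 λ)` -/
def k0 (θ a b : ℂ) : ℂ := sn θ 3 (b / a) * sn θ 3 (a * b)⁻¹ / sn θ 3 1

/-- the value of `R` -/
def r0 (θ τ a : ℂ) : ℂ := sh θ τ a / sn θ 3 1

/-- the value of `X` -/
def x0 (θ τ a b : ℂ) : ℂ := sh θ (θ ^ 2 * τ) a * k0 θ a b

/-- the value of `Y` -/
def y0 (θ τ a b : ℂ) : ℂ := sh θ τ b * k0 θ a b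

/-- **the values without full lines** -/
structure IsN0 (θ τ : ℂ) (A : RF) : Prop where
  R : ∀ a, GC θ [a] → A.R [] [] a = r0 θ τ a
  X : ∀ a b, GC θ [a, b] → A.X [] [] a b = x0 θ τ a b
  Y : ∀ a b, GC θ [a, b] → A.Y [] [] a b = y0 θ τ a b
  O : ∀ b h, GC θ [b, h] → A.O [] [] b h = r0 θ τ b

theorem IsN0.agree {θ τ : ℂ} {A A' : RF} (h : IsN0 θ τ A) (h' : IsN0 θ τ A') :
    Agree θ A A' [] [] :=
  ⟨fun a ha => (h.R a ha).trans (h'.R a ha).symm, fun a b hab =>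
    ⟨(h.X a b hab).trans (h'.X a b hab).symm, (h.Y a b hab).trans (h'.Y a b hab).symm,
      (h.O a b hab).trans (h'.O a b hab).symm⟩⟩

end TC

end
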