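import Pool.Agent.TC.Fam
import Pool.Agent.TC.N0
import Pool.Agent.TC.Gen
import Pool.Agent.NUT51.Val
import Pool.Agent.NUTV.BrE
import Pool.Agent.NUT2.Tp6

/-!
# The one leg functions of the strip without full lines (helper51)
-/

set_option autoImplicit false

namespace Pool.Agent.TC

open _root_.Pool.Agent.EXL _root_.Pool.Agent.EXL.Pat
open _root_.Pool.Agent.EXL.Fm (lam)
open _root_.Pool.Agent.NUF _root_.Pool.Agent.NUU _root_.Pool.Agent.NUT2 _root_.Pool.Agent.NUT51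
open _root_.Pool.Agent.NUF.LPat
open Complex (I exp sin cos)

namespace PN0

variable {ι : Type*} [DecidableEq ι]

/-- The kernel of the pairing without full lines. -/
noncomputable def KK (ω : ℂ) (m q : ι) (p : EXL.Pat ι) : ℂ :=
  Tw (chX [] q) (Gf (nuw ω) m q []) (ofP (ℤ × ℤ) p)

theorem Wp_KK (ω : ℂ) (V V' : Fnl ι) (m q : ι) : Wp (nuw ω) (chX [] q) V V' m q [] =
    V (fun p => V' (fun r => KK ω m q (un p r))) := rfl

theorem KK_eq (ω : ℂ) (m q : ι) (p : EXL.Pat ι) : KK ω m q p =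
    oo (nuw ω) m ((cops (nuw ω)).glue m q (dl (ℤ × ℤ) ι))
    (gau (chX [] q) (ofP (ℤ × ℤ) p)) := rfl

omit [DecidableEq ι] in
theorem dl_self51 : dl (ℤ × ℤ) ι LPat.empty = 1 := by
  unfold dl
  exact if_pos rfl

omit [DecidableEq ι] in
theorem dl_ne {p : LPat (ℤ × ℤ) ι} {x : ι} (h : p x ≠ x) : dl (ℤ × ℤ) ι p = 0 := by
  unfold dl
  rw [if_neg]
  rintro rfl
  exact h rfl

theorem chX_nil (q x : ι) : chX [] q x = (0, if x = q then 1 else 0) := by
  unfold chX chw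
  by_cases h : x = q
  · subst h
    simp
  · simp [h, Pi.single_eq_of_ne]

/-- **The kernel.** -/
theorem KK_val (ω : ℂ) {m q : ι} (hmk : m ≠ q) (p : EXL.Pat ι) :
    KK ω m q p = (HS.ind (arc m q) : EXL.Pat ι → ℂ) p := by
  rw [KK_eq]
  set R := gau (chX [] q) (ofP (ℤ × ℤ) p) with hR
  have hf : ∀ x, R x = p x := fun x => rfl
  have hs : ∀ x, R.s x = 0 + (chX [] q : ι → ℤ × ℤ) x - (chX [] q : ι → ℤ × ℤ) (p x) := fun x => rfl
  rw [oo_apply]
  by_cases h1 : R m = m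
  · rw [if_pos h1, EXL.HS.ind_ne]
    rintro rfl
    rw [hf, arc_apply, if_pos rfl] at h1
    exact hmk h1.symm
  rw [if_neg h1]
  by_cases h2 : R q = q
  · rw [glue_l hmk h1 h2, EXL.HS.ind_ne]
    rintro rfl
    rw [hf, arc_apply, if_neg hmk.symm, if_pos rfl] at h2
    exact hmk h2
  rw [glue_occ hmk h1 h2]
  by_cases h3 : R m = q
  · have hl : R.s m = (0, -1) := by
      have h3' : p m = q := h3
      rw [hs, h3', chX_nil, chX_nil, if_neg hmk, if_pos rfl]
      rfl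
    rw [lw_pos R _ h3, hl, jo_pos R h3]
    have hnu : nuw ω ((0, -1) : ℤ × ℤ) = 1 := by
      unfold nuw
      simp
    rw [hnu, one_mul]
    by_cases h4 : p = arc m q
    · rw [h4, EXL.HS.ind_self]
      have e : LPat.rem m q R = LPat.empty := by
        refine LPat.ext (funext fun x => ?_) (funext fun x => ?_)
        · show LPat.rem m q R x = x
          rw [rem_f h3]
          split_ifs with a1 a2
          · exact a1.symm
          · exact a2.symm
          · rw [hf, h4, arc_apply, if_neg a1, if_neg a2]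
        · show (LPat.rem m q R).s x = 0
          rw [rem_s h3]
          split_ifs with a1 a2
          · rfl
          · rfl
          · rw [hs, h4, arc_apply, if_neg a1, if_neg a2, zero_add, sub_self]
      rw [e, dl_self51]
    · rw [EXL.HS.ind_ne h4]
      obtain ⟨x, hx⟩ : ∃ x, p x ≠ arc m q x := by
        by_contra hh
        push Not at hh
        exact h4 (EXL.Pat.ext (funext hh))
      have h3' : p m = q := h3
      have hxm : x ≠ m := by
        rintro rfl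
        rw [arc_apply, if_pos rfl] at hx
        exact hx h3'
      have hxk : x ≠ q := by
        rintro rfl
        rw [arc_apply, if_neg hxm, if_pos rfl, ← h3', p.inv] at hx
        exact hx rfl
      refine dl_ne (x := x) ?_
      rw [rem_f h3, if_neg hxm, if_neg hxk, hf]
      rwa [arc_apply, if_neg hxm, if_neg hxk] at hx
  · have hc : CtOK m q R := ⟨hmk, h1, h2, h3⟩
    have e1 : R (R m) = m := R.inv m
    have e2 : R (R q) = q := R.inv q
    have h4 : jo m q R (R m) ≠ R m := by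
      rw [jo_neg R h3, cut_f hc, if_neg h1, if_neg h3, if_pos rfl]
      intro e
      exact hmk (by rw [← e1, ← e, e2])
    rw [dl_ne h4, mul_zero, EXL.HS.ind_ne]
    rintro rfl
    rw [hf, arc_apply, if_pos rfl] at h3
    exact h3 rfl

theorem PH_nil (z : ι → ℂ) : PH z ([] : List ι) = ev0 := by rw [PH, RL_nil]

theorem PH_one (z : ι → ℂ) (p : ι) : PH z [p] = ev0 := by
  rw [PH_cons, PH_nil]
  simp [Fr.Dl]

theorem PS_nil (z : ι → ℂ) (b : ι) : PS z b [] = 0 := by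
  rw [PS_eq]
  simp

/-- **One line.** -/
theorem PS_one (z : ι → ℂ) (b p : ι) (F : EXL.Pat ι → ℂ) :
    PS z b [p] F = (2 * Fr.s2)⁻¹ * (4 * Fr.c3 * Fr.fa' (ux z p)) * F (arc b p) := by
  rw [PS_eq]
  simp only [List.toFinset_cons, List.toFinset_nil, insert_empty_eq, Finset.sum_singleton, psT,
    Finset.erase_singleton, List.erase_cons_head, PH_nil, oE_first, Fr.wt, Finset.prod_empty, mul_one,
    LinearMap.smul_apply, LinearMap.comp_apply, ev0_apply, smul_eq_mul, cu_empty]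
  ring

/-- **Two lines.** -/
theorem PS_two (z : ι → ℂ) {b a c : ι} (hac : a ≠ c) (hba : b ≠ a) (hbc : b ≠ c)
    (F : EXL.Pat ι → ℂ) :
    PS z b [a, c] F = (2 * Fr.s2)⁻¹ *
      (4 * Fr.c3 * Fr.fa' (ux z a) * Fr.pr (ux z c) (ux z a) * F (arc b a) +
       4 * Fr.c3 * Fr.fa' (ux z c) * Fr.pr (ux z a) (ux z c) *
        ((rwt (z c - z a)).v * F (arc b c) + (rwt (z c - z a)).u1 * F (arc b a))) := by
  have e1 : ({a, c} : Finset ι).erase a = {c} := by
    rw [Finset.erase_insert (by simpa using hac)]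
  have e2 : ({a, c} : Finset ι).erase c = {a} := by
    rw [Finset.pair_comm, Finset.erase_insert (by simpa using hac.symm)]
  have e4 : ([a, c] : List ι).erase c = [a] := by
    rw [List.erase_cons_tail (by simpa using hac), List.erase_cons_head]
  rw [PS_eq]
  simp only [List.toFinset_cons, List.toFinset_nil, insert_empty_eq, Finset.sum_pair hac, psT,
    e1, e2, e4, List.erase_cons_head, PH_one, oE_first, oE_second z hac, Fr.wt,
    Finset.prod_singleton, mul_one,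
    LinearMap.smul_apply, LinearMap.add_apply, LinearMap.comp_apply, ev0_apply, smul_eq_mul,
    Module.End.mul_apply, cu_empty, R_arc hac.symm hbc hba]

/-- The pairing without full lines. -/
theorem WT_nil (ω : ℂ) (z : ι → ℂ) (A B : List ι) {q g m : ι} (hmq : m ≠ q) (hmg : m ≠ g) :
    WT ω z [] [] A B q g m =
      PS (fun i => -z i) q (A ++ []) (fun p => PH z (B ++ []) (fun r => HS.ind (arc m q) (un p r))) +
      PH (fun i => -z i) (A ++ []) (fun p => PS z g (B ++ []) (fun r => HS.ind (arc m g) (un p r))) := by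
  have e : WT ω z [] [] A B q g m =
      PS (fun i => -z i) q (A ++ []) (fun p => PH z (B ++ []) (fun r => KK ω m q (un p r))) +
      PH (fun i => -z i) (A ++ []) (fun p => PS z g (B ++ []) (fun r => KK ω m g (un p r))) := rfl
  rw [e]
  simp only [KK_val ω hmq, KK_val ω hmg]

theorem WC_nil (ω : ℂ) (v : Fin 6 → ℂ) (A B : List (Fin 6)) {m : Fin 6} (h0 : m ≠ 0) (h1 : m ≠ 1) :
    WC ω [] [] v A B m = (PS (fun i => -zc [] [] v i) (sc 0) (A.map sc ++ [])
        (fun p => PH (zc [] [] v) (B.map sc ++ []) (fun r => HS.ind (arc (sc m) (sc 0)) (un p r))) +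
      PH (fun i => -zc [] [] v i) (A.map sc ++ [])
        (fun p => PS (zc [] [] v) (sc 1) (B.map sc ++ [])
          (fun r => HS.ind (arc (sc m) (sc 1)) (un p r)))) / (cQ A.length * cQ B.length) := by
  unfold WC
  rw [show Ic ([] : List ℂ).length ([] : List ℂ).length = [] from rfl,
    show Jc ([] : List ℂ).length ([] : List ℂ).length = [] from rfl,
    WT_nil ω _ _ _ (sc_inj.ne h0) (sc_inj.ne h1)]
  simp only [List.length_nil, zero_add]

theorem ind_at {p q : EXL.Pat ι} (x : ι) (h : p x ≠ q x) : (HS.ind q : EXL.Pat ι → ℂ) p = 0 :=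
  HS.ind_ne fun e => h (by rw [e])

theorem un_left' (q : EXL.Pat ι) : un EXL.Pat.empty q = q := by
  have h : Dj EXL.Pat.empty q := fun x => Or.inl rfl
  rw [un_comm h, un_empty]

end PN0

/-- `e ^ (3 i λ / 2)` -/
noncomputable def tau : ℂ := NUTP.ea (3 / 2 * lam)

namespace PN0

theorem s3_cos : sin (3 * lam) = cos lam := by
  rw [← Complex.sin_pi_div_two_sub]
  congr 1
  unfold lam
  ring

theorem s3_ne : sin (3 * lam) ≠ 0 := by
  intro h
  have h1 := Fr.s2_sq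
  have h2 : Fr.s2 = 0 := by
    unfold Fr.s2
    rw [Complex.sin_two_mul, ← s3_cos, h, mul_zero]
  rw [h2] at h1
  norm_num at h1

theorem s1_ne : sin lam ≠ 0 := by
  intro h
  have h1 := Fr.s2_sq
  have h2 : Fr.s2 = 0 := by
    unfold Fr.s2
    rw [Complex.sin_two_mul, h, mul_zero, zero_mul]
  rw [h2] at h1
  norm_num at h1

/-- The constant. -/
theorem cst (x : ℂ) : (2 * Fr.s2)⁻¹ * (4 * Fr.c3 * x) = x / sin (3 * lam) := by
  have h1 := s1_ne
  have h2 := s3_ne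
  have e : Fr.s2 = 2 * sin lam * sin (3 * lam) := by
    unfold Fr.s2
    rw [Complex.sin_two_mul, s3_cos]
  rw [c3_sin, e]
  field_simp
  ring

theorem fa'_ux {ι : Type*} (z : ι → ℂ) (p : ι) :
    Fr.fa' (ux (fun i => -z i) p) = sin (3 / 2 * lam - z p) := by
  unfold Fr.fa' ux
  congr 1
  unfold lam
  ring

theorem sn3 : NUTP.sn NUTP.th 3 1 = sin (3 * lam) := by
  have := NUTV.te_sn_one (ε := 1) (Or.inl rfl) 3
  rw [NUTV.te_one] at this
  rw [this]
  norm_num

theorem sn_ea (k : ℕ) (x : ℂ) : NUTP.sn NUTP.th k (NUTP.ea x) = sin (x + k * lam) := by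
  have := NUTV.te_sn (ε := 1) (Or.inl rfl) k x
  rwa [NUTV.te_one, one_mul] at this

theorem sh_tau {a : ℂ} (ha : a ≠ 0) : _root_.TC.sh NUTP.th tau a = sin (3 / 2 * lam - lg a) := by
  have e : tau / a = NUTP.ea (3 / 2 * lam - lg a) := by
    unfold tau
    conv_lhs => rw [← exp_lg ha]
    unfold NUTP.ea
    rw [← Complex.exp_sub]
    congr 1
    ring
  unfold _root_.TC.sh
  rw [e, sn_ea]
  simp

theorem sh_tau2 {a : ℂ} (ha : a ≠ 0) :
    _root_.TC.sh NUTP.th (NUTP.th ^ 2 * tau) a = sin (7 / 2 * lam - lg a) := by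
  have e : NUTP.th ^ 2 * tau / a = NUTP.ea (7 / 2 * lam - lg a) := by
    unfold tau NUTP.th
    conv_lhs => rw [← exp_lg ha]
    unfold NUTP.ea
    rw [← Complex.exp_nat_mul, ← Complex.exp_add, ← Complex.exp_sub, lamN]
    congr 1
    push_cast
    ring
  unfold _root_.TC.sh
  rw [e, sn_ea]
  simp

theorem k0_eq {a b : ℂ} (ha : a ≠ 0) (hb : b ≠ 0) : _root_.TC.k0 NUTP.th a b =
    sin (3 * lam + lg b - lg a) * sin (3 * lam - lg a - lg b) / sin (3 * lam) := by
  have e1 : b / a = NUTP.ea (lg b - lg a) := by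
    conv_lhs => rw [← exp_lg ha, ← exp_lg hb]
    unfold NUTP.ea
    rw [← Complex.exp_sub]
    congr 1
    ring
  have e2 : (a * b)⁻¹ = NUTP.ea (-lg a - lg b) := by
    conv_lhs => rw [← exp_lg ha, ← exp_lg hb]
    unfold NUTP.ea
    rw [← Complex.exp_add, ← Complex.exp_neg]
    congr 1
    ring
  unfold _root_.TC.k0
  rw [sn3, e1, e2, sn_ea, sn_ea]
  congr 3 <;> push_cast <;> ring

theorem cQ_0 : cQ 0 = 1 := by simp [cQ]

theorem cQ_1 : cQ 1 = 1 := by simp [cQ]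

theorem cQ_2 : cQ 2 = 2 := by simp [cQ]

end PN0

open PN0 in
theorem fam_R0 (ω : ℂ) : ∀ a, _root_.TC.GC NUTP.th [a] →
    (fam ω).R [] [] a = _root_.TC.r0 NUTP.th tau a := by
  intro a ha
  have ha0 : a ≠ 0 := gc_ne ha a (by simp)
  have e : (fam ω).R [] [] a = WC ω [] [] ![1, 1, a, 1, 1, 1] [2] [] 2 := rfl
  rw [e, WC_nil _ _ _ _ (by decide) (by decide)]
  simp only [List.map_cons, List.map_nil, List.nil_append, List.append_nil, PH_nil, PS_nil, PS_one,
    LinearMap.zero_apply, ev0_apply, un_empty, List.length_cons, List.length_nil, zero_add, cQ_0,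
    cQ_1, PH_one, Pi.zero_apply, fa'_ux, cst, arc_comm (sc 0) (sc 2), HS.ind_self, mul_one, add_zero,
    div_one]
  unfold _root_.TC.r0
  rw [sh_tau ha0, sn3]
  rfl

open PN0 in
theorem fam_O0 (ω : ℂ) : ∀ b h, _root_.TC.GC NUTP.th [b, h] →
    (fam ω).O [] [] b h = _root_.TC.r0 NUTP.th tau b := by
  intro b h hG
  have hb0 : b ≠ 0 := gc_ne hG b (by simp)
  have e : (fam ω).O [] [] b h = WC ω [] [] ![1, 1, b, h, 1, 1] [2] [3] 2 := rfl
  rw [e, WC_nil _ _ _ _ (by decide) (by decide)]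
  simp only [List.map_cons, List.map_nil, List.nil_append, List.append_nil, PH_nil, PS_nil, PS_one,
    LinearMap.zero_apply, ev0_apply, un_empty, List.length_cons, List.length_nil, zero_add, cQ_0,
    cQ_1, PH_one, Pi.zero_apply, fa'_ux, cst, arc_comm (sc 0) (sc 2), HS.ind_self, mul_one, add_zero,
    div_one, un_left']
  unfold _root_.TC.r0
  rw [sh_tau hb0, sn3]
  have k2 : (HS.ind (arc (sc 2 : Sc 0 0) (sc 1)) : EXL.Pat (Sc 0 0) → ℂ) (arc (sc 1) (sc 3)) = 0 := by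
    refine ind_at (sc 2) ?_
    rw [arc_apply, arc_apply]
    simp [sc_inj.eq_iff]
  exact (congrArg₂ (· + ·) rfl (congrArg₂ (· * ·) rfl k2)).trans (by rw [mul_zero, add_zero]; rfl)

namespace PN0

/-- the product `sin (3 λ - x - y)` -/
theorem pr_ux {ι : Type*} (z : ι → ℂ) (c a : ι) :
    Fr.pr (ux (fun i => -z i) c) (ux (fun i => -z i) a) =
      2 * Fm.Dn (z c - z a) * sin (3 * lam - z a - z c) / sin (z c - z a) := by
  have e1 : ux (fun i => -z i) c - ux (fun i => -z i) a = z c - z a := by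
    unfold ux
    ring
  have e2 : sin (ux (fun i => -z i) a + ux (fun i => -z i) c + 2 * lam) = sin (3 * lam - z a - z c) := by
    rw [← Complex.sin_pi_sub]
    congr 1
    unfold ux lam
    ring
  unfold Fr.pr
  rw [e1, e2]

theorem uv (u : ℂ) : (rwt u).v = (Fm.Dn u)⁻¹ * (sin u * sin (3 * lam - u)) := by
  rw [EXL.Fm.rwt_eq]; rfl

theorem uu1 (u : ℂ) : (rwt u).u1 = (Fm.Dn u)⁻¹ * (sin (2 * lam) * sin (3 * lam - u)) := by
  rw [EXL.Fm.rwt_eq]; rfl

theorem sin7 (x : ℂ) (y : ℂ) : sin (2 * lam + (y - x)) * sin (3 / 2 * lam - x) -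
    sin (2 * lam) * sin (3 / 2 * lam - y) = sin (y - x) * sin (7 / 2 * lam - x) := by
  have := NUT51.sin_id (2 * lam) (3 / 2 * lam - y) (y - x)
  rw [show 3 / 2 * lam - y + (y - x) = 3 / 2 * lam - x by ring,
    show 2 * lam + (3 / 2 * lam - y) + (y - x) = 7 / 2 * lam - x by ring] at this
  exact this

theorem alg_Y {x y : ℂ} (hs : sin (x - y) ≠ 0) (hD : Fm.Dn (x - y) ≠ 0) :
    (2 * Fr.s2)⁻¹ * (4 * Fr.c3 * sin (3 / 2 * lam - y) * (2 * Fm.Dn (x - y) * sin (3 * lam - y - x) /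
      sin (x - y)) * ((Fm.Dn (x - y))⁻¹ * (sin (x - y) * sin (3 * lam - (x - y))))) / 2 =
    sin (3 / 2 * lam - y) * (sin (3 * lam + y - x) * sin (3 * lam - x - y) / sin (3 * lam)) := by
  have e := cst (sin (3 / 2 * lam - y) * (2 * Fm.Dn (x - y) * sin (3 * lam - y - x) /
      sin (x - y)) * ((Fm.Dn (x - y))⁻¹ * (sin (x - y) * sin (3 * lam - (x - y)))))
  have h3 := s3_ne
  rw [show 3 * lam - y - x = 3 * lam - x - y by ring, show 3 * lam - (x - y) = 3 * lam + y - x by ring] at e ⊢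
  rw [show (2 * Fr.s2)⁻¹ * (4 * Fr.c3 * sin (3 / 2 * lam - y) * (2 * Fm.Dn (x - y) * sin (3 * lam - x - y) /
      sin (x - y)) * ((Fm.Dn (x - y))⁻¹ * (sin (x - y) * sin (3 * lam + y - x)))) =
      (2 * Fr.s2)⁻¹ * (4 * Fr.c3 * (sin (3 / 2 * lam - y) * (2 * Fm.Dn (x - y) * sin (3 * lam - x - y) /
      sin (x - y)) * ((Fm.Dn (x - y))⁻¹ * (sin (x - y) * sin (3 * lam + y - x))))) by ring, e]
  field_simp

theorem alg_X {x y : ℂ} (hs : sin (x - y) ≠ 0) (hD : Fm.Dn (x - y) ≠ 0) :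
    (2 * Fr.s2)⁻¹ * (4 * Fr.c3 * sin (3 / 2 * lam - x) * (2 * Fm.Dn (y - x) * sin (3 * lam - x - y) /
      sin (y - x)) + 4 * Fr.c3 * sin (3 / 2 * lam - y) * (2 * Fm.Dn (x - y) * sin (3 * lam - y - x) /
      sin (x - y)) * ((Fm.Dn (x - y))⁻¹ * (sin (2 * lam) * sin (3 * lam - (x - y))))) / 2 =
    sin (7 / 2 * lam - x) * (sin (3 * lam + y - x) * sin (3 * lam - x - y) / sin (3 * lam)) := by
  have h3 := s3_ne
  have k := sin7 x y
  have f5 : sin (y - x) = -sin (x - y) := by rw [← neg_sub, Complex.sin_neg]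
  have f6 : Fm.Dn (y - x) = sin (2 * lam + (y - x)) * sin (3 * lam + y - x) := by
    unfold Fm.Dn
    rw [show 3 * lam + y - x = 3 * lam + (y - x) by ring]
  rw [show 3 * lam - y - x = 3 * lam - x - y by ring, show 3 * lam - (x - y) = 3 * lam + y - x by ring,
    f6]
  rw [show (2 * Fr.s2)⁻¹ * (4 * Fr.c3 * sin (3 / 2 * lam - x) *
      (2 * (sin (2 * lam + (y - x)) * sin (3 * lam + y - x)) * sin (3 * lam - x - y) / sin (y - x)) +
      4 * Fr.c3 * sin (3 / 2 * lam - y) * (2 * Fm.Dn (x - y) * sin (3 * lam - x - y) / sin (x - y)) *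
        ((Fm.Dn (x - y))⁻¹ * (sin (2 * lam) * sin (3 * lam + y - x)))) / 2 =
      ((2 * Fr.s2)⁻¹ * (4 * Fr.c3 * (sin (3 / 2 * lam - x) *
      ((sin (2 * lam + (y - x)) * sin (3 * lam + y - x)) * sin (3 * lam - x - y) / sin (y - x)) +
      sin (3 / 2 * lam - y) * (Fm.Dn (x - y) * sin (3 * lam - x - y) / sin (x - y)) *
        ((Fm.Dn (x - y))⁻¹ * (sin (2 * lam) * sin (3 * lam + y - x)))))) by ring, cst, f5]
  rw [f5] at k
  generalize sin (3 / 2 * lam - x) = A1 at k ⊢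
  generalize sin (3 / 2 * lam - y) = A2 at k ⊢
  generalize sin (7 / 2 * lam - x) = A3 at k ⊢
  generalize sin (2 * lam + (y - x)) = A4 at k ⊢
  generalize sin (3 * lam + y - x) = A5 at k ⊢
  generalize sin (3 * lam - x - y) = A6 at k ⊢
  generalize sin (3 * lam) = A7 at h3 k ⊢
  generalize sin (2 * lam) = A8 at k ⊢
  generalize sin (x - y) = A9 at hs k ⊢
  generalize Fm.Dn (x - y) = A10 at hD k ⊢
  field_simp
  linear_combination (-(A5 * A6)) * k

theorem gc_sd {a b : ℂ} (h : _root_.TC.GC NUTP.th [a, b]) :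
    sin (lg a - lg b) ≠ 0 ∧ Fm.Dn (lg a - lg b) ≠ 0 := by
  have ha := gc_ne h a (by simp)
  have hb := gc_ne h b (by simp)
  have h1 : _root_.TC.GC NUTP.th ([lg a, lg b].map NUTP.ea) := by
    simpa [ea_lg' ha, ea_lg' hb] using h
  obtain ⟨h2, -⟩ := (gc_iff _).1 h1
  have h3 : Df (lg a) (lg b) := by simpa using h2
  refine ⟨by simpa using h3 0, ?_⟩
  unfold Fm.Dn
  refine mul_ne_zero ?_ ?_
  · have := h3 2
    rwa [show lg a - lg b + ((2 : ℤ) : ℂ) * lam = 2 * lam + (lg a - lg b) by push_cast; ring] at this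
  · have := h3 3
    rwa [show lg a - lg b + ((3 : ℤ) : ℂ) * lam = 3 * lam + (lg a - lg b) by push_cast; ring] at this

end PN0

namespace PN0

theorem WC_two (ω : ℂ) (a b : ℂ) {m : Fin 6} (h0 : m ≠ 0) (h1 : m ≠ 1) :
    WC ω [] [] ![1, 1, a, b, 1, 1] [2, 3] [] m =
    (2 * Fr.s2)⁻¹ *
      (4 * Fr.c3 * sin (3 / 2 * lam - lg a) *
        (2 * Fm.Dn (lg b - lg a) * sin (3 * lam - lg a - lg b) / sin (lg b - lg a)) *
        HS.ind (arc (sc m : Sc 0 0) (sc 0)) (arc (sc 0) (sc 2)) +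
       4 * Fr.c3 * sin (3 / 2 * lam - lg b) *
        (2 * Fm.Dn (lg a - lg b) * sin (3 * lam - lg b - lg a) / sin (lg a - lg b)) *
        ((Fm.Dn (lg a - lg b))⁻¹ * (sin (lg a - lg b) * sin (3 * lam - (lg a - lg b))) *
          HS.ind (arc (sc m : Sc 0 0) (sc 0)) (arc (sc 0) (sc 3)) +
         (Fm.Dn (lg a - lg b))⁻¹ * (sin (2 * lam) * sin (3 * lam - (lg a - lg b))) *
          HS.ind (arc (sc m : Sc 0 0) (sc 0)) (arc (sc 0) (sc 2)))) / 2 := by
  have d1 : (sc 2 : Sc 0 0) ≠ sc 3 := fun e => absurd (sc_inj e) (by decide)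
  have d2 : (sc 0 : Sc 0 0) ≠ sc 2 := fun e => absurd (sc_inj e) (by decide)
  have d3 : (sc 0 : Sc 0 0) ≠ sc 3 := fun e => absurd (sc_inj e) (by decide)
  have hz : ∀ z : Sc 0 0 → ℂ, PH z [sc 2, sc 3] (fun _ => (0 : ℂ)) = 0 := fun z => map_zero _
  rw [WC_nil _ _ _ _ h0 h1]
  simp only [List.map_cons, List.map_nil, List.nil_append, List.append_nil, PH_nil, PS_nil,
    PS_two _ d1 d2 d3,
    LinearMap.zero_apply, ev0_apply, un_empty, List.length_cons, List.length_nil, zero_add, cQ_0,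
    Nat.reduceAdd, cQ_2, pr_ux, uv, uu1, fa'_ux, mul_one]
  rw [hz, add_zero, show -zc [] [] ![1, 1, a, b, 1, 1] (sc 3) - -zc [] [] ![1, 1, a, b, 1, 1] (sc 2) =
    zc [] [] ![1, 1, a, b, 1, 1] (sc 2) - zc [] [] ![1, 1, a, b, 1, 1] (sc 3) by ring]
  rfl

end PN0

open PN0 in
theorem fam_X0 (ω : ℂ) : ∀ a b, _root_.TC.GC NUTP.th [a, b] →
    (fam ω).X [] [] a b = _root_.TC.x0 NUTP.th tau a b := by
  intro a b hG
  have ha0 : a ≠ 0 := gc_ne hG a (by simp)
  have hb0 : b ≠ 0 := gc_ne hG b (by simp)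
  obtain ⟨hs, hD⟩ := gc_sd hG
  have e : (fam ω).X [] [] a b = WC ω [] [] ![1, 1, a, b, 1, 1] [2, 3] [] 2 := rfl
  have k3 : (HS.ind (arc (sc 2 : Sc 0 0) (sc 0)) : EXL.Pat (Sc 0 0) → ℂ) (arc (sc 0) (sc 3)) = 0 := by
    refine ind_at (sc 2) ?_
    rw [arc_apply, arc_apply]
    simp [sc_inj.eq_iff]
  have k2 : (HS.ind (arc (sc 2 : Sc 0 0) (sc 0)) : EXL.Pat (Sc 0 0) → ℂ) (arc (sc 0) (sc 2)) = 1 := by
    rw [arc_comm, HS.ind_self]
  rw [e, WC_two _ _ _ (by decide) (by decide), k2, k3, _root_.TC.x0, sh_tau2 ha0, k0_eq ha0 hb0,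
    ← alg_X hs hD]
  simp only [mul_one, mul_zero, zero_add]

open PN0 in
theorem fam_Y0 (ω : ℂ) : ∀ a b, _root_.TC.GC NUTP.th [a, b] →
    (fam ω).Y [] [] a b = _root_.TC.y0 NUTP.th tau a b := by
  intro a b hG
  have ha0 : a ≠ 0 := gc_ne hG a (by simp)
  have hb0 : b ≠ 0 := gc_ne hG b (by simp)
  obtain ⟨hs, hD⟩ := gc_sd hG
  have e : (fam ω).Y [] [] a b = WC ω [] [] ![1, 1, a, b, 1, 1] [2, 3] [] 3 := rfl
  have k2 : (HS.ind (arc (sc 3 : Sc 0 0) (sc 0)) : EXL.Pat (Sc 0 0) → ℂ) (arc (sc 0) (sc 2)) = 0 := by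
    refine ind_at (sc 3) ?_
    rw [arc_apply, arc_apply]
    simp [sc_inj.eq_iff]
  have k3 : (HS.ind (arc (sc 3 : Sc 0 0) (sc 0)) : EXL.Pat (Sc 0 0) → ℂ) (arc (sc 0) (sc 3)) = 1 := by
    rw [arc_comm, HS.ind_self]
  rw [e, WC_two _ _ _ (by decide) (by decide), k2, k3, _root_.TC.y0, sh_tau hb0, k0_eq ha0 hb0,
    ← alg_Y hs hD]
  simp only [mul_one, mul_zero, zero_add, add_zero]

/-- **The values without full lines.** -/
theorem fam_N0 (ω : ℂ) : _root_.TC.IsN0 NUTP.th tau (fam ω) :=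
  ⟨fam_R0 ω, fam_X0 ω, fam_Y0 ω, fam_O0 ω⟩

end Pool.Agent.TC
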