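import Pool.Agent.TC.Perm
import Pool.Agent.TC.Gen

/-!
# Ordered genericity of an ended line at an integer distance from another line (helper69)
-/

set_option autoImplicit false

namespace Pool.Agent.TC

open _root_.Pool.Agent.EXL _root_.Pool.Agent.NUF _root_.Pool.Agent.NUU _root_.Pool.Agent.NUT2
  _root_.Pool.Agent.NUTV
open _root_.Pool.Agent.EXL.Fm (lam)
open Complex (I exp sin cos)

section go

variable {ι : Type*} [DecidableEq ι] {z : ι → ℂ} {X A B : List ι} {p x : ι}

/-- `sin (j λ) ≠ 0` if `j` is not a multiple of `8`. -/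
theorem sin_jl {j : ℤ} (h : ¬ (8 : ℤ) ∣ j) : sin ((j : ℂ) * lam) ≠ 0 := by
  intro h0
  rw [Complex.sin_eq_zero_iff] at h0
  obtain ⟨k, hk⟩ := h0
  apply h
  have hpi : (Real.pi : ℂ) ≠ 0 := by exact_mod_cast Real.pi_ne_zero
  have h1 : (j : ℂ) = 8 * k := by
    unfold Fm.lam at hk
    field_simp at hk
    linear_combination hk
  refine ⟨k, ?_⟩
  exact_mod_cast h1

theorem Dn_jl {j : ℤ} (h2 : ¬ (8 : ℤ) ∣ (j + 2)) (h3 : ¬ (8 : ℤ) ∣ (j + 3)) :
    Fm.Dn ((j : ℂ) * lam) ≠ 0 := by
  unfold Fm.Dn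
  refine mul_ne_zero ?_ ?_
  · have := sin_jl h2
    rwa [show ((j + 2 : ℤ) : ℂ) * lam = 2 * lam + j * lam by push_cast; ring] at this
  · have := sin_jl h3
    rwa [show ((j + 3 : ℤ) : ℂ) * lam = 3 * lam + j * lam by push_cast; ring] at this

omit [DecidableEq ι] in
theorem gk_pair {a b : ι} (hG : Gk z X) (ha : a ∈ X) (hb : b ∈ X) (hab : a ≠ b) (k : ℤ) :
    sin (z a - z b + k * lam) ≠ 0 ∧ Fm.Dn (z a - z b + k * lam) ≠ 0 := by
  refine ⟨hG a ha b hb hab k, ?_⟩
  unfold Fm.Dn
  refine mul_ne_zero ?_ ?_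
  · have := hG a ha b hb hab (k + 2)
    rwa [show z a - z b + ((k + 2 : ℤ) : ℂ) * lam = 2 * lam + (z a - z b + k * lam) by
      push_cast; ring] at this
  · have := hG a ha b hb hab (k + 3)
    rwa [show z a - z b + ((k + 3 : ℤ) : ℂ) * lam = 3 * lam + (z a - z b + k * lam) by
      push_cast; ring] at this

/-- **The ordered genericity of the first half strip at an integer distance.** -/
theorem go_at (hn : (A ++ p :: B).Nodup) (hG : Gk z (A ++ B)) (hx : x ∈ A ++ B) (j : ℤ)
    (h1 : x ∈ A → sin (((-j : ℤ) : ℂ) * lam) ≠ 0 ∧ Fm.Dn (((-j : ℤ) : ℂ) * lam) ≠ 0)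
    (h2 : x ∈ B → sin ((j : ℂ) * lam) ≠ 0 ∧ Fm.Dn ((j : ℂ) * lam) ≠ 0) :
    Go (fun i => -Function.update z p (z x + j * lam) i) (A ++ p :: B) := by
  have hn' := hn
  rw [List.nodup_append, List.nodup_cons] at hn'
  obtain ⟨n1, ⟨n2, n3⟩, n4⟩ := hn'
  have hpA : p ∉ A := fun h => n4 p h p (by simp) rfl
  have hz : ∀ i, i ≠ p → -Function.update z p (z x + j * lam) i = -z i := fun i hi => by
    rw [Function.update_of_ne hi]
  have hzp : -Function.update z p (z x + j * lam) p = -(z x + j * lam) := by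
    rw [Function.update_self]
  have hG' := gk_neg hG
  have hnn : (A ++ B).Nodup := hn.sublist (by simp)
  have h0 : Go (fun i => -z i) (A ++ B) := go_Gk hG' hnn
  unfold Go at h0 ⊢
  rw [List.pairwise_append] at h0 ⊢
  obtain ⟨a1, a2, a3⟩ := h0
  have neA : ∀ a ∈ A, a ≠ p := fun a ha e => hpA (e ▸ ha)
  have neB : ∀ b ∈ B, b ≠ p := fun b hb e => n2 (e ▸ hb)
  refine ⟨?_, ?_, ?_⟩
  · refine List.Pairwise.imp_of_mem (fun {a b} ha hb h => ?_) a1
    simp only [hz a (neA a ha), hz b (neA b hb)]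
    exact h
  · rw [List.pairwise_cons]
    refine ⟨fun b hb => ?_, ?_⟩
    · simp only [hz b (neB b hb), hzp]
      rw [show -z b - -(z x + j * lam) = z x - z b + j * lam by ring]
      by_cases hbx : x = b
      · subst hbx
        rw [sub_self, zero_add]
        exact h2 hb
      · exact gk_pair hG hx (by simp [hb]) hbx j
    · refine List.Pairwise.imp_of_mem (fun {a b} ha hb h => ?_) a2
      simp only [hz a (neB a ha), hz b (neB b hb)]
      exact h
  · intro a ha b hb
    rcases List.mem_cons.1 hb with rfl | hb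
    · simp only [hz a (neA a ha), hzp]
      rw [show -(z x + j * lam) - -z a = z a - z x + ((-j : ℤ) : ℂ) * lam by push_cast; ring]
      by_cases hax : a = x
      · subst hax
        rw [sub_self, zero_add]
        exact h1 ha
      · exact gk_pair hG (by simp [ha]) hx hax (-j)
    · simp only [hz a (neA a ha), hz b (neB b hb)]
      exact a3 a ha b hb

end go

end Pool.Agent.TC
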