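import Pool.Agent.TC.PolU
import Pool.Agent.TC.Can2
import Pool.Agent.TC.DegS
import Pool.Agent.TC.LineW
import Pool.Agent.TC.GoAt
import Pool.Agent.TC.Const

/-!
# Field `polO` of the lattice family (helper51)

The empty ended line of the second half strip: polynomial of degree `≤ 2 N`, values at the nodes.
-/

set_option autoImplicit false

namespace Pool.Agent.TC

open _root_.Pool.Agent.EXL _root_.Pool.Agent.NUF _root_.Pool.Agent.NUU _root_.Pool.Agent.NUT2
open _root_.Pool.Agent.NUTV
open _root_.Pool.Agent.NUF.Fr (TP ee)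
open _root_.Pool.Agent.EXL.Fm (lam)
open _root_.TC (GC up dn)
open NUTP (th)
open Complex (I exp sin cos)
open scoped Polynomial

namespace FO

section gen

variable {ι : Type*} [DecidableEq ι] {z : ι → ℂ} {X A B : List ι} {p x : ι}

/-- The line `p` at an integer distance from the generic line `x`. -/
theorem gk_at (hG : Gk z (x :: X)) (hx : x ∉ X) (hp : p ∉ X) (j : ℤ) :
    Gk (Function.update z p (z x + j * lam)) (p :: X) := by
  have hz : ∀ y ∈ X, Function.update z p (z x + j * lam) y = z y := by
    intro y hy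
    refine Function.update_of_ne ?_ _ _
    rintro rfl
    exact hp hy
  have hzp : Function.update z p (z x + j * lam) p = z x + j * lam := Function.update_self _ _ _
  intro a ha b hb hab k
  rcases List.mem_cons.1 ha with ea | ha'
  · rcases List.mem_cons.1 hb with eb | hb'
    · exact absurd (ea.trans eb.symm) hab
    · rw [ea, hzp, hz b hb']
      have := hG x (by simp) b (by simp [hb']) (fun e => hx (e ▸ hb')) (j + k)
      rwa [show z x - z b + ((j + k : ℤ) : ℂ) * lam = z x + j * lam - z b + k * lam by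
        push_cast; ring] at this
  · rcases List.mem_cons.1 hb with eb | hb'
    · rw [eb, hzp, hz a ha']
      have := hG a (by simp [ha']) x (by simp) (fun e => hx (e ▸ ha')) (k - j)
      rwa [show z a - z x + ((k - j : ℤ) : ℂ) * lam = z a - (z x + j * lam) + k * lam by
        push_cast; ring] at this
    · rw [hz a ha', hz b hb']
      exact hG a (by simp [ha']) b (by simp [hb']) hab k

/-- **Ordered genericity in the second half strip, one line at an integer distance.** -/
theorem go_at' (hn : (A ++ p :: B).Nodup) (hG : Gk z (A ++ B)) (hx : x ∈ A ++ B) (j : ℤ)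
    (h1 : x ∈ A → sin ((j : ℂ) * lam) ≠ 0 ∧ Fm.Dn ((j : ℂ) * lam) ≠ 0)
    (h2 : x ∈ B → sin (((-j : ℤ) : ℂ) * lam) ≠ 0 ∧ Fm.Dn (((-j : ℤ) : ℂ) * lam) ≠ 0) :
    Go (Function.update z p (z x + j * lam)) (A ++ p :: B) := by
  have h := go_at (z := fun i => -z i) hn (gk_neg hG) hx (-j)
    (fun hA => by rw [neg_neg]; exact h1 hA) h2
  refine h.congr fun i _ => ?_
  by_cases hi : i = p
  · subst hi
    rw [Function.update_self, Function.update_self]
    push_cast
    ring
  · rw [Function.update_of_ne hi, Function.update_of_ne hi, neg_neg]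

theorem s3_ne : sin (((3 : ℤ) : ℂ) * lam) ≠ 0 ∧ Fm.Dn (((3 : ℤ) : ℂ) * lam) ≠ 0 :=
  ⟨sin_jl (by decide), Dn_jl (by decide) (by decide)⟩

theorem cQ_two (n : ℕ) : cQ (n + 2) = 2 * 4 ^ n * cQ n := by
  rw [cQ_succ, cQ_succ, ← mul_assoc, show (4 : ℂ) = 2 ^ 2 by norm_num, ← pow_mul, ← pow_succ',
    ← pow_add]
  congr 2
  ring

end gen

section node

variable {ι : Type*} [DecidableEq ι] [Finite ι] {ω : ℂ} {z : ι → ℂ} {K L : List (ι × ι)}
  {a p x x' q g c d : ι} {S : List ℂ}

/-- The node of a line of `K`. -/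
theorem lo (hO : OkT (K ++ [(x, x')]) L [a] [p] q g a)
    (hs : Spr (K ++ [(x, x')]) L [a] [p] q g c d) (hz : z p = z x' + 3 * lam)
    (h1 : Gk z (p :: ll K L [])) (h2 : Gk z (x' :: ll K L [])) (hS : (EL z (ll K L [])).Perm S)
    (n : ℕ) :
    exp (I * (z x' + 3 * lam)) ^ n * WT ω z (K ++ [(x, x')]) L [a] [p] q g a =
      2 * 4 ^ (ll K L []).length * up th n (exp (I * z x')) S * WT ω z K L [x, a] [] q g a := by
  have hn := hO.ndL
  rw [ll_lo'] at hn
  have hY : (ll K L []).Nodup := hn.sublist (by
    unfold ll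
    simp)
  have hp : p ∉ ll K L [] := (ndL_lo hO.nd).2.1.1
  have e1 : WT ω z (K ++ [(x, x')]) L [a] [p] q g a =
      crf z x' p (ll K L []).toFinset * WT ω z K L [x, a] [] q g a :=
    WTL_lo hO (by simp) hs hz h1.gz h2.gz
  rw [e1, ← mul_assoc, crf_up2 hz hY (fun k hk => ?_) hS]
  have := h1 p (by simp) k (by simp [hk]) (fun e => hp (e ▸ hk)) 0
  simpa using this

/-- The node of a line of `L`. -/
theorem hi (hO : OkT K ((x, x') :: L) [a] [p] q g a)
    (hs : Spr K ((x, x') :: L) [a] [p] q g c d) (hz : z p = z x' - 3 * lam)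
    (h1 : Gk z (p :: ll K L [])) (h2 : Gk z (x' :: ll K L [])) (hS : (EL z (ll K L [])).Perm S)
    (n : ℕ) :
    exp (I * (z x' - 3 * lam)) ^ n * WT ω z K ((x, x') :: L) [a] [p] q g a =
      2 * 4 ^ (ll K L []).length * dn th n (exp (I * z x')) S * WT ω z K L [a, x] [] q g a := by
  have hn := hO.ndL
  rw [show ll K ((x, x') :: L) [p] = ll K ((x, x') :: L) ([] ++ [p]) from rfl, ll_hi''] at hn
  have hY : (ll K L []).Nodup := hn.sublist (by
    unfold ll
    simp)
  have hx : x' ∉ ll K L [] := (ndL_hi (B := []) hO.nd).2.1.2.2.1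
  have e1 : WT ω z K ((x, x') :: L) [a] [p] q g a =
      crf z p x' (ll K L []).toFinset * WT ω z K L [a, x] [] q g a :=
    WTL_hi (B := []) hO (by simp) hs hz h1.gz h2.gz
  rw [e1, ← mul_assoc, crf_dn2 hz hY (fun k hk => ?_) hS]
  have := h2 x' (by simp) k (by simp [hk]) (fun e => hx (e ▸ hk)) 0
  simpa using this

omit [Finite ι] in
/-- Two ended lines in the first half strip: the value depends on the lines only. -/
theorem wc2 {u w : ι} (hn : (sites K L [u, w] [] q g).Nodup) (hs : Spr K L [u, w] [] q g c d)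
    (hz : ∀ t ∈ K ++ L, z t.2 = z t.1) {a b : ℂ} (hu : exp (I * z u) = a) (hw : exp (I * z w) = b)
    {K' L' : List ℂ} (hK : K.map (fun t => exp (I * z t.1)) = K')
    (hL : L.map (fun t => exp (I * z t.1)) = L') :
    WT ω z K L [u, w] [] q g u / (cQ (K.length + L.length + 2) * cQ (K.length + L.length)) =
      WC ω K' L' ![1, 1, a, b, 1, 1] [2, 3] [] 2 ∧
    WT ω z K L [u, w] [] q g w / (cQ (K.length + L.length + 2) * cQ (K.length + L.length)) =
      WC ω K' L' ![1, 1, a, b, 1, 1] [2, 3] [] 3 := by
  have h1 := hs.ne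
  have h2 := hs.c
  have h3 := hs.d
  unfold sites at hn h2 h3
  have hinj : Function.Injective ![q, g, u, w, c, d] := by
    rw [← List.nodup_ofFn]
    simp only [List.nodup_append, List.nodup_cons, List.map_append, List.mem_append, List.mem_cons,
      List.append_nil, List.not_mem_nil, or_false] at hn h2 h3
    simp [List.ofFn_succ]
    grind
  have hG : Gd (K ++ L) := by
    unfold Gd
    exact (List.nodup_append.1 hn).1
  have hd : ∀ k, ∀ t ∈ K ++ L, (![q, g, u, w, c, d] : Fin 6 → ι) k ≠ t.1 ∧
      (![q, g, u, w, c, d] : Fin 6 → ι) k ≠ t.2 := by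
    intro k t ht
    have i1 : t.1 ∈ (K ++ L).map Prod.fst := List.mem_map_of_mem ht
    have i2 : t.2 ∈ (K ++ L).map Prod.snd := List.mem_map_of_mem ht
    simp only [List.nodup_append, List.nodup_cons, List.mem_append, List.mem_cons,
      List.append_nil, List.not_mem_nil, or_false] at hn h2 h3
    fin_cases k
    all_goals
      simp
      grind
  have hz' : ∀ t ∈ K ++ L, exp (I * z t.2) = exp (I * z t.1) := fun t ht => by rw [hz t ht]
  have hv : ∀ j ∈ ([2, 3] : List (Fin 6)) ++ [], exp (I * z ((![q, g, u, w, c, d] : Fin 6 → ι) j)) =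
      (![1, 1, a, b, 1, 1] : Fin 6 → ℂ) j := by
    intro j hj
    rcases (by simpa using hj : j = 2 ∨ j = 3) with rfl | rfl
    · exact hu
    · exact hw
  exact ⟨WT_eq_WC (A := [2, 3]) (B := []) hinj hG hd (by decide) (m := 2) (by simp) hz' hv hK hL,
    WT_eq_WC (A := [2, 3]) (B := []) hinj hG hd (by decide) (m := 3) (by simp) hz' hv hK hL⟩

/-- The sites of the second half strip outside the full lines. -/
theorem ne_full {K L : List (ι × ι)} {a p q g : ι} (hn : (sites K L [a] [p] q g).Nodup) :
    ∀ t ∈ K ++ L, p ≠ t.1 ∧ p ≠ t.2 := by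
  intro t ht
  have i1 : t.1 ∈ (K ++ L).map Prod.fst := List.mem_map_of_mem ht
  have i2 : t.2 ∈ (K ++ L).map Prod.snd := List.mem_map_of_mem ht
  unfold sites at hn
  simp only [List.nodup_append, List.nodup_cons, List.mem_append, List.mem_cons,
    List.not_mem_nil, or_false] at hn
  grind

theorem th6 (w : ℂ) {x : ℂ} (hx : exp (I * w) = x) :
    exp (I * (w + 3 * lam)) ^ 2 = th ^ 6 * x ^ 2 := by
  have e1 : th ^ 3 * exp (I * w) = exp (I * (w + 3 * lam)) := by
    have := NUTP.th3 w
    rw [lam_eq] at this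
    exact this
  rw [← e1, hx]
  ring

theorem th10 (w : ℂ) {x : ℂ} (hx : exp (I * w) = x) :
    exp (I * (w - 3 * lam)) ^ 2 = th ^ 10 * x ^ 2 := by
  have e1 : th ^ 13 * exp (I * w) = exp (I * (w - 3 * lam)) := by
    have := NUTP.th13 w
    rw [lam_eq] at this
    exact this
  have e2 : th ^ 16 = 1 := by
    rw [show (16 : ℕ) = 8 * 2 from rfl, pow_mul, NUTP.th8]
    norm_num
  rw [← e1, hx, mul_pow, ← pow_mul, show 13 * 2 = 16 + 10 by norm_num, pow_add, e2, one_mul]

variable {f : ℂ → ℂ} {P : ℂ[X]} {N : ℕ} {b : ℂ}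

/-- **The value at the node of a line of `K`.** -/
theorem node_K {K' L' : List ℂ} {v : ℂ} (hO : OkT K L [a] [p] q g a)
    (hs : Spr K L [a] [p] q g c d) (hgk : Gk z (K.map Prod.snd ++ L.map Prod.snd))
    (pr : ∀ t ∈ K ++ L, z t.2 = z t.1) (v1 : K.map (fun t => exp (I * z t.1)) = K' ++ [v])
    (v3 : L.map (fun t => exp (I * z t.1)) = L') (eb : exp (I * z a) = b)
    (eP : ∀ s, exp (I * s) ^ (2 * N) * f s = P.eval (exp (I * s) ^ 2))
    (ef : ∀ s, Go (Function.update z p s) (ll K L [p]) →
      WT ω (Function.update z p s) K L [a] [p] q g a = f s) (hN : N = K.length + L.length) :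
    P.eval (th ^ 6 * v ^ 2) = cQ (N + 1) * cQ (N + 1) * (up th (2 * N) v (K' ++ L') *
      WC ω K' L' ![1, 1, v, b, 1, 1] [2, 3] [] 3) := by
  have ne := ne_full hO.nd
  obtain ⟨K0, T, rfl, e2, e3⟩ := List.map_eq_append_iff.1 v1
  obtain ⟨⟨x1, x1'⟩, rfl, e4⟩ := List.map_eq_singleton_iff.1 e3
  simp only at e4
  have m1 : (x1, x1') ∈ (K0 ++ [(x1, x1')]) ++ L := by simp
  have px : z x1' = z x1 := pr _ m1
  have sub : ∀ t ∈ K0 ++ L, t ∈ (K0 ++ [(x1, x1')]) ++ L := by
    intro t ht
    simp only [List.mem_append] at ht ⊢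
    tauto
  set z' := Function.update z p (z x1' + 3 * lam) with hzdef
  have zo : ∀ y, y ≠ p → z' y = z y := fun y hy => Function.update_of_ne hy _ _
  have zx : z' x1' = z x1' := zo _ (ne _ m1).2.symm
  have zp : z' p = z' x1' + 3 * lam := by
    rw [zx, hzdef, Function.update_self]
  have npl : p ∉ ll K0 L [] := (ndL_lo hO.nd).2.1.1
  have nxl : x1' ∉ ll K0 L [] := (ndL_lo hO.nd).2.1.2.2.1
  have gk0 : Gk z (x1' :: ll K0 L []) := by
    refine hgk.sub fun y hy => ?_
    unfold ll at hy
    simp only [List.mem_cons, List.mem_append, List.map_append, List.map_cons,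
      List.map_nil, List.nil_append, List.not_mem_nil, or_false] at hy ⊢
    tauto
  have gk1 : Gk z' (p :: ll K0 L []) := gk_at gk0 nxl npl 3
  have gk2 : Gk z' (x1' :: ll K0 L []) := by
    refine gk0.congr fun y hy => (zo y ?_).symm
    rintro rfl
    rcases List.mem_cons.1 hy with h | h
    · exact (ne _ m1).2 h
    · exact npl h
  have go1 : Go z' (ll (K0 ++ [(x1, x1')]) L [p]) := by
    refine go_at' hO.ndL hgk (x := x1') (by simp) 3 (fun _ => s3_ne) fun h => ?_
    exfalso
    apply nxl
    unfold ll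
    simp only [List.nil_append, List.mem_append]
    exact Or.inr h
  have zl : ∀ t ∈ K0 ++ L, z' t.1 = z t.1 ∧ z' t.2 = z t.2 := fun t ht =>
    ⟨zo _ (ne _ (sub t ht)).1.symm, zo _ (ne _ (sub t ht)).2.symm⟩
  have w1 : K0.map (fun t => exp (I * z' t.1)) = K' := by
    rw [← e2]
    exact List.map_congr_left fun t ht => by rw [(zl t (List.mem_append_left _ ht)).1]
  have w3 : L.map (fun t => exp (I * z' t.1)) = L' := by
    rw [← v3]
    exact List.map_congr_left fun t ht => by rw [(zl t (List.mem_append_right _ ht)).1]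
  have hS : (EL z' (ll K0 L [])).Perm (K' ++ L') := by
    unfold EL ll
    rw [List.nil_append, List.map_append, List.map_map, List.map_map, ← w1, ← w3]
    refine List.Perm.of_eq ?_
    congr 1
    · exact List.map_congr_left fun t ht => by
        have h := zl t (List.mem_append_left _ ht)
        show exp (I * z' t.2) = exp (I * z' t.1)
        rw [h.1, h.2, pr t (sub t (List.mem_append_left _ ht))]
    · exact List.map_congr_left fun t ht => by
        have h := zl t (List.mem_append_right _ ht)
        show exp (I * z' t.2) = exp (I * z' t.1)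
        rw [h.1, h.2, pr t (sub t (List.mem_append_right _ ht))]
  have key := lo (ω := ω) hO hs zp gk1 gk2 hS (2 * N)
  have hex : exp (I * z x1') = v := by rw [px]; exact e4
  rw [zx, ef _ go1, eP, th6 _ hex, hex] at key
  have nO := (ndL_lo hO.nd).1
  have hap : a ≠ p := by
    have h := hO.nd
    unfold sites at h
    simp only [List.nodup_append, List.nodup_cons, List.mem_append, List.mem_cons,
      List.cons_append, List.nil_append] at h
    grind
  have w := (wc2 (ω := ω) (z := z') nO (q := q) (g := g) (c := c) (d := d) ?_ (fun t ht => ?_)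
    (show exp (I * z' x1) = v by rw [zo _ (ne _ m1).1.symm]; exact e4)
    (show exp (I * z' a) = b by rw [zo _ hap]; exact eb) w1 w3).2
  · rw [key, ← w]
    have hlen : (ll K0 L []).length = K0.length + L.length := by simp [ll]
    have hN' : N = K0.length + L.length + 1 := by
      rw [hN, List.length_append]
      simp
      omega
    rw [hlen, show N + 1 = K0.length + L.length + 2 by omega, cQ_two]
    have := cQ_ne (K0.length + L.length)
    field_simp
  · have h1 := hs.c
    have h2 := hs.d
    have h3 := hO.nd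
    unfold sites at h1 h2 h3
    simp only [List.nodup_append, List.nodup_cons, List.map_append, List.mem_append, List.mem_cons,
      List.map_cons, List.map_nil, List.not_mem_nil, or_false, List.append_nil, List.cons_append,
      List.nil_append] at h1 h2 h3
    refine ⟨hs.ne, ?_, ?_⟩
    · unfold sites
      simp only [List.map_append, List.mem_append, List.mem_cons, List.not_mem_nil, or_false,
        List.append_nil]
      grind
    · unfold sites
      simp only [List.map_append, List.mem_append, List.mem_cons, List.not_mem_nil, or_false,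
        List.append_nil]
      grind
  · have h := zl t ht
    rw [h.1, h.2, pr t (sub t ht)]

/-- **The value at the node of a line of `L`.** -/
theorem node_L {K' L' : List ℂ} {v : ℂ} (hO : OkT K L [a] [p] q g a)
    (hs : Spr K L [a] [p] q g c d) (hgk : Gk z (K.map Prod.snd ++ L.map Prod.snd))
    (pr : ∀ t ∈ K ++ L, z t.2 = z t.1) (v1 : K.map (fun t => exp (I * z t.1)) = K')
    (v3 : L.map (fun t => exp (I * z t.1)) = v :: L') (eb : exp (I * z a) = b)
    (eP : ∀ s, exp (I * s) ^ (2 * N) * f s = P.eval (exp (I * s) ^ 2))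
    (ef : ∀ s, Go (Function.update z p s) (ll K L [p]) →
      WT ω (Function.update z p s) K L [a] [p] q g a = f s) (hN : N = K.length + L.length) :
    P.eval (th ^ 10 * v ^ 2) = cQ (N + 1) * cQ (N + 1) * (dn th (2 * N) v (K' ++ L') *
      WC ω K' L' ![1, 1, b, v, 1, 1] [2, 3] [] 2) := by
  have ne := ne_full hO.nd
  obtain ⟨⟨x1, x1'⟩, L0, rfl, e4, e2⟩ := List.map_eq_cons_iff.1 v3
  simp only at e4
  have m1 : (x1, x1') ∈ K ++ (x1, x1') :: L0 := by simp
  have px : z x1' = z x1 := pr _ m1
  have sub : ∀ t ∈ K ++ L0, t ∈ K ++ (x1, x1') :: L0 := by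
    intro t ht
    simp only [List.mem_append, List.mem_cons] at ht ⊢
    tauto
  set z' := Function.update z p (z x1' + ((-3 : ℤ) : ℂ) * lam) with hzdef
  have zo : ∀ y, y ≠ p → z' y = z y := fun y hy => Function.update_of_ne hy _ _
  have zx : z' x1' = z x1' := zo _ (ne _ m1).2.symm
  have zp : z' p = z' x1' - 3 * lam := by
    rw [zx, hzdef, Function.update_self]
    push_cast
    ring
  have npl : p ∉ ll K L0 [] := (ndL_hi (B := []) hO.nd).2.1.1
  have nxl : x1' ∉ ll K L0 [] := (ndL_hi (B := []) hO.nd).2.1.2.2.1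
  have gk0 : Gk z (x1' :: ll K L0 []) := by
    refine hgk.sub fun y hy => ?_
    unfold ll at hy
    simp only [List.mem_cons, List.mem_append, List.map_cons, List.nil_append] at hy ⊢
    tauto
  have gk1 : Gk z' (p :: ll K L0 []) := gk_at gk0 nxl npl (-3)
  have gk2 : Gk z' (x1' :: ll K L0 []) := by
    refine gk0.congr fun y hy => (zo y ?_).symm
    rintro rfl
    rcases List.mem_cons.1 hy with h | h
    · exact (ne _ m1).2 h
    · exact npl h
  have go1 : Go z' (ll K ((x1, x1') :: L0) [p]) := by
    refine go_at' hO.ndL hgk (x := x1') (by simp) (-3) (fun h => ?_) fun _ => ?_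
    · exfalso
      apply nxl
      unfold ll
      simp only [List.nil_append, List.mem_append]
      exact Or.inl h
    · rw [neg_neg]
      exact s3_ne
  have zl : ∀ t ∈ K ++ L0, z' t.1 = z t.1 ∧ z' t.2 = z t.2 := fun t ht =>
    ⟨zo _ (ne _ (sub t ht)).1.symm, zo _ (ne _ (sub t ht)).2.symm⟩
  have w1 : K.map (fun t => exp (I * z' t.1)) = K' := by
    rw [← v1]
    exact List.map_congr_left fun t ht => by rw [(zl t (List.mem_append_left _ ht)).1]
  have w3 : L0.map (fun t => exp (I * z' t.1)) = L' := by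
    rw [← e2]
    exact List.map_congr_left fun t ht => by rw [(zl t (List.mem_append_right _ ht)).1]
  have hS : (EL z' (ll K L0 [])).Perm (K' ++ L') := by
    unfold EL ll
    rw [List.nil_append, List.map_append, List.map_map, List.map_map, ← w1, ← w3]
    refine List.Perm.of_eq ?_
    congr 1
    · exact List.map_congr_left fun t ht => by
        have h := zl t (List.mem_append_left _ ht)
        show exp (I * z' t.2) = exp (I * z' t.1)
        rw [h.1, h.2, pr t (sub t (List.mem_append_left _ ht))]
    · exact List.map_congr_left fun t ht => by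
        have h := zl t (List.mem_append_right _ ht)
        show exp (I * z' t.2) = exp (I * z' t.1)
        rw [h.1, h.2, pr t (sub t (List.mem_append_right _ ht))]
  have key := hi (ω := ω) hO hs zp gk1 gk2 hS (2 * N)
  have hex : exp (I * z x1') = v := by rw [px]; exact e4
  have es : z x1' + ((-3 : ℤ) : ℂ) * lam = z x1' - 3 * lam := by
    push_cast
    ring
  rw [zx, ef _ go1, es, eP, th10 _ hex, hex] at key
  have nO := (ndL_hi (B := []) hO.nd).1
  have hap : a ≠ p := by
    have h := hO.nd
    unfold sites at h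
    simp only [List.nodup_append, List.nodup_cons, List.mem_append, List.mem_cons,
      List.cons_append, List.nil_append] at h
    grind
  have w := (wc2 (ω := ω) (z := z') (u := a) (w := x1) nO (q := q) (g := g) (c := c) (d := d) ?_
    (fun t ht => ?_) (show exp (I * z' a) = b by rw [zo _ hap]; exact eb)
    (show exp (I * z' x1) = v by rw [zo _ (ne _ m1).1.symm]; exact e4) w1 w3).1
  · rw [key, ← w]
    have hlen : (ll K L0 []).length = K.length + L0.length := by simp [ll]
    have hN' : N = K.length + L0.length + 1 := by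
      rw [hN, List.length_cons]
      omega
    rw [hlen, show N + 1 = K.length + L0.length + 2 by omega, cQ_two]
    have := cQ_ne (K.length + L0.length)
    field_simp
  · have h1 := hs.c
    have h2 := hs.d
    have h3 := hO.nd
    unfold sites at h1 h2 h3
    simp only [List.nodup_append, List.nodup_cons, List.map_append, List.mem_append, List.mem_cons,
      List.map_cons, List.map_nil, List.not_mem_nil, or_false, List.append_nil, List.cons_append,
      List.nil_append] at h1 h2 h3
    refine ⟨hs.ne, ?_, ?_⟩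
    · unfold sites
      simp only [List.map_append, List.mem_append, List.mem_cons, List.not_mem_nil, or_false,
        List.append_nil]
      grind
    · unfold sites
      simp only [List.map_append, List.mem_append, List.mem_cons, List.not_mem_nil, or_false,
        List.append_nil]
      grind
  · have h := zl t ht
    rw [h.1, h.2, pr t (sub t ht)]

end node

section can

variable {ω b : ℂ} {K L : List ℂ}

theorem zc_upd (K L : List ℂ) (b h : ℂ) : zc K L ![1, 1, b, h, 1, 1] =
    Function.update (zc K L ![1, 1, b, 1, 1, 1]) (sc 3) (lg h) := by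
  funext y
  rcases y with y | y | j
  · rw [Function.update_of_ne (by simp [sc])]
    rfl
  · rw [Function.update_of_ne (by simp [sc])]
    rfl
  · by_cases hj : j = 3
    · subst hj
      rw [show (Sum.inr (Sum.inr 3) : Sc K.length L.length) = sc 3 from rfl, Function.update_self]
      rfl
    · rw [Function.update_of_ne (by simpa [sc] using hj)]
      show lg (![1, 1, b, h, 1, 1] j) = lg (![1, 1, b, 1, 1, 1] j)
      fin_cases j <;> first | rfl | exact absurd rfl hj

/-- **The empty ended line of the second half strip: the core.** -/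
theorem core (K L : List ℂ) (hG : GC th ([b] ++ (K ++ L))) : ∃ P : ℂ[X],
    P.natDegree ≤ 2 * (K.length + L.length) ∧
    (∀ h, GC th (h :: ([b] ++ (K ++ L))) →
      h ^ (2 * (K.length + L.length)) * (fam ω).O K L b h = P.eval (h ^ 2)) ∧
    (∀ x K', K = K' ++ [x] → P.eval (th ^ 6 * x ^ 2) =
      up th (2 * (K'.length + 1 + L.length)) x (K' ++ L) * (fam ω).Y K' L x b) ∧
    (∀ y L', L = y :: L' → P.eval (th ^ 10 * y ^ 2) =
      dn th (2 * (K.length + (L'.length + 1))) y (K ++ L') * (fam ω).X K L' b y) := by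
  set z0 := zc K L ![1, 1, b, 1, 1, 1] with hz0
  set KK := Ic K.length L.length with hKK
  set LL := Jc K.length L.length with hLL
  have hO : OkT KK LL [sc 2] [sc 3] (sc 0) (sc 1) (sc 2) :=
    okT_can (A := [2]) (B := [3]) (by decide) (a := 2) (by simp)
  have hs : Spr KK LL [sc 2] [sc 3] (sc 0) (sc 1) (sc 4) (sc 5) :=
    spr_can (A := [2]) (B := [3]) (by decide)
  have hGL : GC th (K ++ L) := GC.sublist hG (List.sublist_append_right _ _)
  have hne := gc_ne hGL
  obtain ⟨v1, v2, v3, v4⟩ := can_vals (K := K) (L := L) (fun x hx => hne x (by simp [hx]))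
    (fun x hx => hne x (by simp [hx])) ![1, 1, b, 1, 1, 1]
  have hgt : GT z0 (ll KK LL []) := gt_canL (B := []) hGL
  have hgk : Gk z0 (KK.map Prod.snd ++ LL.map Prod.snd) := hgt.gk
  have nd := hO.ndL
  have hK1 : KK.length = K.length := by simp [hKK, Ic]
  have hL1 : LL.length = L.length := by simp [hLL, Jc]
  have v1'' : KK.map (fun t => exp (I * z0 t.1)) = K := by
    refine Eq.trans ?_ v1
    rw [List.map_map]
    rfl
  have v3' : LL.map (fun t => exp (I * z0 t.1)) = L := by
    refine Eq.trans ?_ v3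
    rw [List.map_map]
    rfl
  have eb : exp (I * z0 (sc 2)) = b := exp_lg (gc_ne hG b (by simp))
  -- the polynomial
  have l1 : LP (fun w => PH w (ll KK LL [sc 3])) z0 (ll KK LL [sc 3]) (sc 3)
      (K.length + L.length) := by
    have h := LP_PH (z := z0) (A := KK.map Prod.snd) (B := LL.map Prod.snd) (p := sc 3) nd
      hs.hL0.1 hs.hL0.2 hs.ne hgk
    rw [List.length_map, List.length_map, hK1, hL1] at h
    exact h
  have l2 : LP (fun w => PS w (sc 1) (ll KK LL [sc 3])) z0 (ll KK LL [sc 3]) (sc 3)
      (K.length + L.length) := by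
    have h := LP_PS (z := z0) (b := sc 1) (A := KK.map Prod.snd) (B := LL.map Prod.snd) (p := sc 3)
      (List.nodup_cons.2 ⟨hO.outL.2.1, nd⟩) hs.hL.1 hs.hL.2 hs.ne hgk
    rw [List.length_map, List.length_map, hK1, hL1] at h
    exact h
  obtain ⟨f, tf, ef⟩ := WT_E2 (ω := ω) (fun w X => PH_supS w X) (fun w b X => PS_supS w b X) hO
    (p := sc 3) (by simp) (by simp [sc]) l1 l2
  obtain ⟨P, dP, eP⟩ := TP.toPol tf
  set c : ℂ := (cQ (K.length + L.length + 1) * cQ (K.length + L.length + 1))⁻¹ with hc
  refine ⟨Polynomial.C c * P, ?_, ?_, ?_, ?_⟩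
  · refine (Polynomial.natDegree_C_mul_le _ _).trans dP
  · intro h hh
    have hh0 : h ≠ 0 := gc_ne hh h (by simp)
    have hgh : GC th (h :: (K ++ L)) := GC.sublist hh
      (List.Sublist.cons_cons _ (List.sublist_append_right _ _))
    have g1 : GT (zc K L ![1, 1, b, h, 1, 1]) (ll KK LL [sc 3]) := gt_canL (B := [3]) hgh
    have g2 : Go (Function.update z0 (sc 3) (lg h)) (ll KK LL [sc 3]) := by
      rw [hz0, ← zc_upd]
      exact go_Gk g1.gk nd
    have e1 := ef (lg h) g2
    have e2 := eP (lg h)
    rw [exp_lg hh0, ← e1] at e2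
    rw [Polynomial.eval_mul, Polynomial.eval_C, ← e2, hz0, ← zc_upd]
    show _ * (WT ω (zc K L ![1, 1, b, h, 1, 1]) KK LL [sc 2] [sc 3] (sc 0) (sc 1) (sc 2) /
      (cQ (K.length + L.length + 1) * cQ (K.length + L.length + 1))) = _
    rw [hc]
    ring
  · intro x K' hx
    have v1' : KK.map (fun t => exp (I * z0 t.1)) = K' ++ [x] := by
      refine Eq.trans ?_ hx
      refine Eq.trans ?_ v1
      rw [List.map_map]
      rfl
    have h := node_K hO hs hgk (fun t ht => zc_pair t ht) v1' v3' eb eP ef (by rw [hK1, hL1])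
    have hl : K'.length + 1 = K.length := by rw [hx, List.length_append]; rfl
    rw [Polynomial.eval_mul, Polynomial.eval_C, h, hl, hc]
    show _ = _ * WC ω K' L ![1, 1, x, b, 1, 1] [2, 3] [] 3
    field_simp [cQ_ne]
  · intro y L' hy
    have v3'' : LL.map (fun t => exp (I * z0 t.1)) = y :: L' := v3'.trans hy
    have h := node_L hO hs hgk (fun t ht => zc_pair t ht) v1'' v3'' eb eP ef (by rw [hK1, hL1])
    have hl : L'.length + 1 = L.length := by rw [hy, List.length_cons]
    rw [Polynomial.eval_mul, Polynomial.eval_C, h, hl, hc]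
    show _ = _ * WC ω K L' ![1, 1, b, y, 1, 1] [2, 3] [] 2
    field_simp [cQ_ne]

end can

end FO

/-- **Field `polO`.** -/
theorem fam_polO (ω : ℂ) : ∀ (I J : List ℂ) (b : ℂ), GC th (b :: (I ++ J)) → ∃ P : ℂ[X],
    P.natDegree ≤ 2 * (I.length + J.length) ∧
    (∀ h, GC th (h :: b :: (I ++ J)) →
      h ^ (2 * (I.length + J.length)) * (fam ω).O I J b h = P.eval (h ^ 2)) ∧
    (∀ x I' t, I.Perm (x :: I') → (t = x ∨ t = x⁻¹) → P.eval (th ^ 6 * t ^ 2) =
      up th (2 * (I.length + J.length)) t (I' ++ J) * (fam ω).Y I' J t b) ∧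
    (∀ y J' t, J.Perm (y :: J') → (t = y ∨ t = y⁻¹) → P.eval (th ^ 10 * t ^ 2) =
      dn th (2 * (I.length + J.length)) t (I ++ J') * (fam ω).X I J' b t) := by
  intro I J b hG
  obtain ⟨P, h1, h2, h3, h4⟩ := lift (T := [b]) (W := fun I J h => (fam ω).O I J b h)
    (k := fun n => 2 * n) (e1 := 6) (e2 := 10)
    (D := fun I' J t => up th (2 * (I'.length + 1 + J.length)) t (I' ++ J) * (fam ω).Y I' J t b)
    (U := fun I J' t => dn th (2 * (I.length + (J'.length + 1))) t (I ++ J') * (fam ω).X I J' b t)
    (Ex := fun I J P => P.natDegree ≤ 2 * (I.length + J.length))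
    (fun I I' J a hp ha => famO_perm hp (List.Perm.refl J) (gc_sw ha))
    (fun I J J' a hp ha => famO_perm (List.Perm.refl I) hp (gc_sw ha))
    (fun I x J a ha => famO_invK (gc_sw ha)) (fun I y J a ha => famO_invL (gc_sw ha))
    (fun I J hG => FO.core I J hG) I J hG
  refine ⟨P, h1, h2, fun x I' t hI ht => ?_, fun y J' t hJ ht => ?_⟩
  · have e := h3 x I' t hI ht
    have hl : I.length = I'.length + 1 := by rw [hI.length_eq, List.length_cons]
    rw [hl]
    exact e
  · have e := h4 y J' t hJ ht
    have hl : J.length = J'.length + 1 := by rw [hJ.length_eq, List.length_cons]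
    rw [hl]
    exact e

end Pool.Agent.TC
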