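import Pool.Agent.TC.Uniq
import Pool.Agent.NUTP.Bridge

/-!
# All the nodes from the nodes of the neighbouring lines (helper70)

`lift`: a function of one ended line which does not change if the full lines `I` or `J` are permuted or
inverted; if for every order of the full lines its polynomial has the right value at the node of the last line
of `I` and of the first line of `J`, then it has the right value at all the nodes.
-/

set_option autoImplicit false

namespace Pool.Agent.TC

open Polynomial
open NUTP (th th8)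
open _root_.TC (GC)

/-- the polynomial is determined by the generic values -/
theorem pol_eq {S : List ℂ} (hG : GC th S) {n : ℕ} {F F' : ℂ → ℂ} {P P' : ℂ[X]}
    (h1 : ∀ a, GC th (a :: S) → a ^ n * F a = P.eval (a ^ 2))
    (h2 : ∀ a, GC th (a :: S) → a ^ n * F' a = P'.eval (a ^ 2))
    (h : ∀ a, GC th (a :: S) → F a = F' a) : P = P' := by
  rw [← sub_eq_zero]
  refine _root_.TC.zero_of_GC th8 hG fun a ha => ?_
  rw [Polynomial.eval_sub, ← h1 a ha, ← h2 a ha, h a ha, sub_self]

section lift

variable {T : List ℂ} {W : List ℂ → List ℂ → ℂ → ℂ} {k : ℕ → ℕ} {e1 e2 : ℕ}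
  {D U : List ℂ → List ℂ → ℂ → ℂ} {Ex : List ℂ → List ℂ → ℂ[X] → Prop}

/-- **All the nodes.** -/
theorem lift
    (hK : ∀ I I' J a, I.Perm I' → GC th (a :: (T ++ (I ++ J))) → W I J a = W I' J a)
    (hL : ∀ I J J' a, J.Perm J' → GC th (a :: (T ++ (I ++ J))) → W I J a = W I J' a)
    (iK : ∀ I x J a, GC th (a :: (T ++ ((x :: I) ++ J))) → W (x :: I) J a = W (x⁻¹ :: I) J a)
    (iL : ∀ I y J a, GC th (a :: (T ++ (I ++ (y :: J)))) → W I (y :: J) a = W I (y⁻¹ :: J) a)
    (core : ∀ I J, GC th (T ++ (I ++ J)) → ∃ P : ℂ[X], Ex I J P ∧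
      (∀ a, GC th (a :: (T ++ (I ++ J))) → a ^ k (I.length + J.length) * W I J a = P.eval (a ^ 2)) ∧
      (∀ x I', I = I' ++ [x] → P.eval (th ^ e1 * x ^ 2) = D I' J x) ∧
      (∀ y J', J = y :: J' → P.eval (th ^ e2 * y ^ 2) = U I J' y)) :
    ∀ I J, GC th (T ++ (I ++ J)) → ∃ P : ℂ[X], Ex I J P ∧
      (∀ a, GC th (a :: (T ++ (I ++ J))) → a ^ k (I.length + J.length) * W I J a = P.eval (a ^ 2)) ∧
      (∀ x I' t, I.Perm (x :: I') → (t = x ∨ t = x⁻¹) → P.eval (th ^ e1 * t ^ 2) = D I' J t) ∧
      (∀ y J' t, J.Perm (y :: J') → (t = y ∨ t = y⁻¹) → P.eval (th ^ e2 * t ^ 2) = U I J' t) := by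
  intro I J hG
  obtain ⟨P, p1, p2, -, -⟩ := core I J hG
  refine ⟨P, p1, p2, ?_, ?_⟩
  · intro x I' t hI ht
    have g0 : ∀ a, GC th (a :: (T ++ (I ++ J))) → GC th (a :: (T ++ ((x :: I') ++ J))) :=
      fun a ha => ha.perm th8 (((hI.append_right J).append_left T).cons a)
    have gt : ∀ a, GC th (a :: (T ++ (I ++ J))) → GC th (a :: (T ++ ((t :: I') ++ J))) := by
      intro a ha
      have h1 := GC.remI th8 (S := a :: T) hI ht ha
      refine h1.perm th8 ?_
      exact (List.perm_middle (l₁ := a :: T) (l₂ := I' ++ J) (a := t)).symm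
    have pm : ∀ a, (a :: (T ++ ((t :: I') ++ J))).Perm (a :: (T ++ ((I' ++ [t]) ++ J))) :=
      fun a => (((List.perm_append_singleton t I').symm.append_right J).append_left T).cons a
    have hG1 : GC th (T ++ ((I' ++ [t]) ++ J)) := by
      have h1 := GC.remI th8 (S := T) hI ht hG
      refine h1.perm th8 ?_
      refine (List.perm_middle (l₁ := T) (l₂ := I' ++ J) (a := t)).symm.trans ?_
      exact ((List.perm_append_singleton t I').symm.append_right J).append_left T
    obtain ⟨Q, -, q2, q3, -⟩ := core (I' ++ [t]) J hG1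
    have hl : (I' ++ [t]).length = I.length := by
      rw [hI.length_eq]
      simp
    rw [hl] at q2
    have e : P = Q := by
      refine pol_eq (n := k (I.length + J.length)) (F := W I J) (F' := W (I' ++ [t]) J) hG p2
        (fun a ha => q2 a ?_) fun a ha => ?_
      · exact (gt a ha).perm th8 (pm a)
      · rw [hK I (x :: I') J a hI ha]
        have h2 : W (x :: I') J a = W (t :: I') J a := by
          rcases ht with rfl | rfl
          · rfl
          · exact iK I' x J a (g0 a ha)
        rw [h2, hK (t :: I') (I' ++ [t]) J a (List.perm_append_singleton t I').symm (gt a ha)]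
    rw [e]
    exact q3 t I' rfl
  · intro y J' t hJ ht
    have g0 : ∀ a, GC th (a :: (T ++ (I ++ J))) → GC th (a :: (T ++ (I ++ (y :: J')))) :=
      fun a ha => ha.perm th8 (((hJ.append_left I).append_left T).cons a)
    have gt : ∀ a, GC th (a :: (T ++ (I ++ J))) → GC th (a :: (T ++ (I ++ (t :: J')))) := by
      intro a ha
      have h1 := GC.remJ th8 (S := a :: T) hJ ht ha
      refine h1.perm th8 ?_
      refine (List.perm_middle (l₁ := a :: T) (l₂ := I ++ J') (a := t)).symm.trans ?_
      exact ((List.perm_middle (l₁ := I) (l₂ := J') (a := t)).symm.append_left T).cons a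
    have hG1 : GC th (T ++ (I ++ (t :: J'))) := by
      have h1 := GC.remJ th8 (S := T) hJ ht hG
      refine h1.perm th8 ?_
      refine (List.perm_middle (l₁ := T) (l₂ := I ++ J') (a := t)).symm.trans ?_
      exact (List.perm_middle (l₁ := I) (l₂ := J') (a := t)).symm.append_left T
    obtain ⟨Q, -, q2, -, q4⟩ := core I (t :: J') hG1
    have hl : (t :: J').length = J.length := by
      rw [hJ.length_eq]
      simp
    rw [hl] at q2
    have e : P = Q := by
      refine pol_eq (n := k (I.length + J.length)) (F := W I J) (F' := W I (t :: J')) hG p2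
        (fun a ha => q2 a (gt a ha)) fun a ha => ?_
      rw [hL I J (y :: J') a hJ ha]
      rcases ht with rfl | rfl
      · rfl
      · exact iL I y J' a (g0 a ha)
    rw [e]
    exact q4 t J' rfl

end lift

end Pool.Agent.TC
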