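import Pool.Agent.TC.F_R1
import Pool.Agent.TC.PolU
import Pool.Agent.TC.Can2

/-!
# The field `polR` of the lattice family (helper70)
-/

set_option autoImplicit false

namespace Pool.Agent.TC

open NUTP (th th8)
open Polynomial

section polR

variable {ω : ℂ}

theorem fam_mirR0 {K L : List ℂ} {x : ℂ} (hG : _root_.TC.GC th (x :: (K ++ L))) :
    WC ω K L ![1, 1, x, 1, 1, 1] [] [2] 2 = (fam ω⁻¹).R K L x⁻¹ :=
  WC_RL (j := 2) (by decide) (by decide) hG

/-- **The field `polR`** of `TC.Rel NUTP.th` for `fam ω`, `fam ω⁻¹`. -/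
theorem fam_polR (hω : ω ≠ 0) (I J : List ℂ) (hG : _root_.TC.GC th (I ++ J)) : ∃ P : ℂ[X],
    P.natDegree ≤ 2 * (I.length + J.length) + 1 ∧
    (∀ p, _root_.TC.GC th (p :: (I ++ J)) →
      p ^ (2 * (I.length + J.length) + 1) * (fam ω).R I J p = P.eval (p ^ 2)) ∧
    (∀ x I' t, I.Perm (x :: I') → (t = x ∨ t = x⁻¹) → P.eval (th ^ 10 * t ^ 2) =
      _root_.TC.dn th (2 * (I.length + J.length) + 1) t (I' ++ J) * (fam ω⁻¹).R I' J t⁻¹) ∧
    (∀ y J' t, J.Perm (y :: J') → (t = y ∨ t = y⁻¹) → P.eval (th ^ 6 * t ^ 2) =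
      ω * _root_.TC.up th (2 * (I.length + J.length) + 1) t (I ++ J') * (fam ω⁻¹).R I J' t⁻¹) := by
  have core : ∀ K L : List ℂ, _root_.TC.GC th ([] ++ (K ++ L)) → ∃ P : ℂ[X],
      P.natDegree ≤ 2 * (K.length + L.length) + 1 ∧
      (∀ a, _root_.TC.GC th (a :: ([] ++ (K ++ L))) →
        a ^ (2 * (K.length + L.length) + 1) * (fam ω).R K L a = P.eval (a ^ 2)) ∧
      (∀ x K', K = K' ++ [x] → P.eval (th ^ 10 * x ^ 2) =
        _root_.TC.dn th (2 * (K'.length + 1 + L.length) + 1) x (K' ++ L) * (fam ω⁻¹).R K' L x⁻¹) ∧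
      (∀ y L', L = y :: L' → P.eval (th ^ 6 * y ^ 2) =
        ω * _root_.TC.up th (2 * (K.length + (L'.length + 1)) + 1) y (K ++ L') *
          (fam ω⁻¹).R K L' y⁻¹) := by
    intro K L hG
    rw [List.nil_append] at hG
    obtain ⟨P, h1, h2, h3, h4⟩ := R_core hω K L hG
    refine ⟨P, h1, h2, fun x K' hK => ?_, fun y L' hL => ?_⟩
    · rw [h3 x K' hK, fam_mirR0]
      · subst hK
        simp
      · refine GC.perm hG ?_
        rw [hK]
        simpa using (List.perm_middle (l₁ := K') (l₂ := L) (a := x))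
    · rw [h4 y L' hL, fam_mirR0]
      · subst hL
        simp
      · refine GC.perm hG ?_
        rw [hL]
        exact List.perm_middle
  obtain ⟨P, h1, h2, h3, h4⟩ := lift (T := []) (W := (fam ω).R) (k := fun n => 2 * n + 1) (e1 := 10)
    (e2 := 6)
    (D := fun I' J t => _root_.TC.dn th (2 * (I'.length + 1 + J.length) + 1) t (I' ++ J) *
      (fam ω⁻¹).R I' J t⁻¹)
    (U := fun I J' t => ω * _root_.TC.up th (2 * (I.length + (J'.length + 1)) + 1) t (I ++ J') *
      (fam ω⁻¹).R I J' t⁻¹)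
    (Ex := fun I J P => P.natDegree ≤ 2 * (I.length + J.length) + 1)
    (fun I I' J a hI h => famR_perm hI (List.Perm.refl J) h)
    (fun I J J' a hJ h => famR_perm (List.Perm.refl I) hJ h)
    (fun I x J a h => famR_invK h) (fun I y J a h => famR_invL h) core I J hG
  refine ⟨P, h1, h2, fun x I' t hI ht => ?_, fun y J' t hJ ht => ?_⟩
  · rw [h3 x I' t hI ht, hI.length_eq, List.length_cons]
  · rw [h4 y J' t hJ ht, hJ.length_eq, List.length_cons]

end polR

end Pool.Agent.TC
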