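import Pool.Agent.TC.LineP
import Pool.Agent.TC.Const
import Pool.Agent.TC.GoAt
import Pool.Agent.TC.Can1

/-!
# The function `R` of the lattice in its line: degree and nodes (helper70)
-/

set_option autoImplicit false

namespace Pool.Agent.TC

open _root_.Pool.Agent.EXL _root_.Pool.Agent.EXL.Pat
open _root_.Pool.Agent.EXL.Fm (lam)
open _root_.Pool.Agent.NUF _root_.Pool.Agent.NUU _root_.Pool.Agent.NUT2 _root_.Pool.Agent.NUTV
open _root_.Pool.Agent.NUF.Fr (TP ee)
open NUTP (th)
open Complex (I exp sin cos)
open scoped Polynomial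

section gen

variable {ι : Type*} [DecidableEq ι] {ω : ℂ} {z : ι → ℂ} {L K : List (ι × ι)}
  {A B Y : List ι} {q g m p x : ι}

/-- A line which is not there. -/
theorem WT_upd (h1 : p ∉ lr K L A) (h2 : p ∉ ll K L B) (s : ℂ) :
    WT ω (Function.update z p s) K L A B q g m = WT ω z K L A B q g m := by
  unfold WT WR WG
  rw [PH_updR h1, PS_updR h1, PH_updL h2, PS_updL h2]

/-- The line `p` at the rapidity of `x`, shifted by a multiple of `λ`. -/
theorem gz_shift (hG : Gk z (x :: Y)) (hxY : x ∉ Y) (hp : p ∉ Y) (j : ℤ) :
    Gz (fun i => -Function.update z p (z x + j * lam) i) (p :: Y) := by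
  have e0 : ∀ i ∈ Y, Function.update z p (z x + j * lam) i = z i := fun i hi => by
    rw [Function.update_of_ne]
    rintro rfl
    exact hp hi
  have k1 : ∀ i ∈ Y, ∀ k : ℤ, sin (z x - z i + k * lam) ≠ 0 := fun i hi k =>
    hG x (by simp) i (by simp [hi]) (by rintro rfl; exact hxY hi) k
  have k2 : ∀ i ∈ Y, ∀ k : ℤ, sin (z i - z x + k * lam) ≠ 0 := fun i hi k =>
    hG i (by simp [hi]) x (by simp) (by rintro rfl; exact hxY hi) k
  have hY : Gz (fun i => -Function.update z p (z x + j * lam) i) Y := by
    refine Gz.congr (gz_neg (hG.gz.sub fun y hy => List.mem_cons_of_mem _ hy)) fun y hy => ?_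
    simp only [e0 y hy]
  constructor
  · intro a ha b hb hab
    rcases List.mem_cons.1 ha with rfl | ha'
    · rcases List.mem_cons.1 hb with rfl | hb'
      · exact absurd rfl hab
      · simp only [Function.update_self, e0 b hb']
        have := k2 b hb' (-j)
        rwa [show -(z x + j * lam) - -z b = z b - z x + ((-j : ℤ) : ℂ) * lam by push_cast; ring]
    · rcases List.mem_cons.1 hb with rfl | hb'
      · simp only [Function.update_self, e0 a ha']
        have := k1 a ha' j
        rwa [show -z a - -(z x + j * lam) = z x - z a + (j : ℂ) * lam by ring]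
      · exact hY.s a ha' b hb' hab
  · intro a ha b hb hab
    rcases List.mem_cons.1 ha with rfl | ha'
    · rcases List.mem_cons.1 hb with rfl | hb'
      · exact absurd rfl hab
      · simp only [Function.update_self, e0 b hb']
        unfold Fm.Dn
        refine mul_ne_zero ?_ ?_
        · have := k2 b hb' (-j + 2)
          rwa [show 2 * lam + (-(z x + j * lam) - -z b) = z b - z x + ((-j + 2 : ℤ) : ℂ) * lam by
            push_cast; ring]
        · have := k2 b hb' (-j + 3)
          rwa [show 3 * lam + (-(z x + j * lam) - -z b) = z b - z x + ((-j + 3 : ℤ) : ℂ) * lam by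
            push_cast; ring]
    · rcases List.mem_cons.1 hb with rfl | hb'
      · simp only [Function.update_self, e0 a ha']
        unfold Fm.Dn
        refine mul_ne_zero ?_ ?_
        · have := k1 a ha' (j + 2)
          rwa [show 2 * lam + (-z a - -(z x + j * lam)) = z x - z a + ((j + 2 : ℤ) : ℂ) * lam by
            push_cast; ring]
        · have := k1 a ha' (j + 3)
          rwa [show 3 * lam + (-z a - -(z x + j * lam)) = z x - z a + ((j + 3 : ℤ) : ℂ) * lam by
            push_cast; ring]
      · exact hY.d a ha' b hb' hab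

/-- The other lines at the node. -/
theorem gz_upd (hG : Gk z (x :: Y)) (hp : p ∉ x :: Y) (s : ℂ) :
    Gz (fun i => -Function.update z p s i) (x :: Y) := by
  refine Gz.congr (gz_neg hG.gz) fun y hy => ?_
  rw [Function.update_of_ne]
  rintro rfl
  exact hp hy

omit [DecidableEq ι] in
theorem lr_len : (lr K L A).length = K.length + L.length + A.length := by
  unfold lr
  simp only [List.length_append, List.length_map]
  ring

omit [DecidableEq ι] in
theorem ll_len : (ll K L B).length = K.length + L.length + B.length := by
  unfold ll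
  simp only [List.length_append, List.length_map]
  ring

end gen

section node

variable {ι : Type*} [DecidableEq ι] [Finite ι] {ω : ℂ} {z : ι → ℂ} {L K : List (ι × ι)}
  {q g p x x' c d : ι} {S : List ℂ}

/-- **The lower node of the occupied line.** -/
theorem R_lo (hO : OkT (K ++ [(x, x')]) L [p] [] q g p) (hs : Spr (K ++ [(x, x')]) L [p] [] q g c d)
    (hG : Gk z (x :: lr K L [])) (hS : (EL z (lr K L [])).Perm S) (n : ℕ) :
    Go (fun i => -Function.update z p (z x - 3 * lam) i) (lr (K ++ [(x, x')]) L [p]) ∧
    exp (I * (z x - 3 * lam)) ^ n *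
      WT ω (Function.update z p (z x - 3 * lam)) (K ++ [(x, x')]) L [p] [] q g p =
      2 * 4 ^ (K.length + L.length) * _root_.TC.dn th n (exp (I * z x)) S *
        WT ω z K L [] [x'] q g x' := by
  obtain ⟨n1, ⟨n2, n3, n4, n5⟩, ⟨n6, n7, n8, n9, n10, n11⟩, n12, n13, n14⟩ := nd_lo hO.nd
  have hnR := hO.ndR
  have e3 : z x - 3 * lam = z x + ((-3 : ℤ) : ℂ) * lam := by push_cast; ring
  have hnY : (lr K L ([] : List ι)).Nodup := by
    rw [lr_lo] at hnR
    unfold lr
    refine hnR.sublist ?_
    exact List.Sublist.append_left ((List.sublist_cons_self _ _).trans (List.sublist_cons_self _ _)) _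
  have hpx : p ∉ x :: lr K L [] := by
    rw [List.mem_cons, not_or]
    exact ⟨n10, n2⟩
  constructor
  · rw [e3]
    have el : lr (K ++ [(x, x')]) L [p] = (K.map Prod.fst ++ [x]) ++ p :: L.map Prod.fst := by
      rw [lr_lo]
      simp
    rw [el] at hnR ⊢
    refine go_at hnR ?_ (by simp) (-3) (fun _ => ⟨?_, ?_⟩) fun h => ?_
    · intro a ha b hb hab
      refine hG a ?_ b ?_ hab
      · unfold lr
        simp only [List.mem_append, List.mem_cons, List.not_mem_nil, List.nil_append] at ha ⊢
        tauto
      · unfold lr
        simp only [List.mem_append, List.mem_cons, List.not_mem_nil, List.nil_append] at hb ⊢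
        tauto
    · exact sin_jl (by norm_num)
    · exact Dn_jl (by norm_num) (by norm_num)
    · exfalso
      rw [List.nodup_append] at hnR
      exact hnR.2.2 x (by simp) x (by simp [h]) rfl
  · set w := Function.update z p (z x - 3 * lam) with hw
    have wp : w p = z x - 3 * lam := Function.update_self _ _ _
    have wx : w x = z x := Function.update_of_ne (Ne.symm n10) _ _
    have wY : ∀ y ∈ lr K L ([] : List ι), w y = z y := fun y hy => by
      rw [hw, Function.update_of_ne]
      rintro rfl
      exact n2 hy
    have hz : w p = w x - 3 * lam := by rw [wp, wx]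
    have g1 : Gz (fun i => -w i) (p :: lr K L []) := by
      rw [hw, e3]
      exact gz_shift hG n4 n2 (-3)
    have g2 : Gz (fun i => -w i) (x :: lr K L []) := gz_upd hG hpx _
    have h1 := WT_lo_o (ω := ω) (A := []) hO hs hz g1 g2
    have hEL : EL w (lr K L []) = EL z (lr K L []) := by
      unfold EL
      exact List.map_congr_left fun y hy => by rw [wY y hy]
    have h2 := crf_dn1 (z := w) (x := x) (p := p) hz hnY (fun k hk => by
      have := g1.s p (by simp) k (List.mem_cons_of_mem _ hk) (by rintro rfl; exact n2 hk)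
      rw [← neg_ne_zero, ← Complex.sin_neg, show -(w p - w k) = -w p - -w k by ring]
      exact this) (hEL ▸ hS) n
    rw [wx] at h2
    have hl : (lr K L ([] : List ι)).length = K.length + L.length := by
      rw [lr_len]
      simp
    rw [hl] at h2
    rw [h1, hw, WT_upd n2 n3, ← hw, ← mul_assoc, h2]

/-- **The upper node of the occupied line.** -/
theorem R_hi (hω : ω ≠ 0) (hO : OkT K ((x, x') :: L) [p] [] q g p)
    (hs : Spr K ((x, x') :: L) [p] [] q g c d)
    (hG : Gk z (x :: lr K L [])) (hS : (EL z (lr K L [])).Perm S) (n : ℕ) :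
    Go (fun i => -Function.update z p (z x + 3 * lam) i) (lr K ((x, x') :: L) [p]) ∧
    exp (I * (z x + 3 * lam)) ^ n *
      WT ω (Function.update z p (z x + 3 * lam)) K ((x, x') :: L) [p] [] q g p =
      2 * 4 ^ (K.length + L.length) * _root_.TC.up th n (exp (I * z x)) S *
        (ω * WT ω z K L [] [x'] q g x') := by
  have hO' : OkT K ((x, x') :: L) ([] ++ [p]) [] q g p := hO
  have hs' : Spr K ((x, x') :: L) ([] ++ [p]) [] q g c d := hs
  obtain ⟨n1, ⟨n2, n3, n4, n5⟩, ⟨n6, n7, n8, n9, n10, n11⟩, n12, n13, n14⟩ := nd_hi hO'.nd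
  have hnR := hO.ndR
  have e3 : z x + 3 * lam = z x + ((3 : ℤ) : ℂ) * lam := by push_cast; ring
  have el : lr K ((x, x') :: L) [p] = K.map Prod.fst ++ p :: x :: L.map Prod.fst := by
    unfold lr
    simp
  have hnY : (lr K L ([] : List ι)).Nodup := by
    rw [el] at hnR
    unfold lr
    refine hnR.sublist ?_
    exact List.Sublist.append_left ((List.sublist_cons_self _ _).trans (List.sublist_cons_self _ _)) _
  have hpx : p ∉ x :: lr K L [] := by
    rw [List.mem_cons, not_or]
    exact ⟨n10, n2⟩
  constructor
  · rw [e3]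
    rw [el] at hnR ⊢
    refine go_at hnR ?_ (by simp) 3 (fun h => ?_) fun _ => ⟨?_, ?_⟩
    · intro a ha b hb hab
      refine hG a ?_ b ?_ hab
      · unfold lr
        simp only [List.mem_append, List.mem_cons, List.nil_append] at ha ⊢
        tauto
      · unfold lr
        simp only [List.mem_append, List.mem_cons, List.nil_append] at hb ⊢
        tauto
    · exfalso
      rw [List.nodup_append] at hnR
      exact hnR.2.2 x h x (by simp) rfl
    · exact sin_jl (by norm_num)
    · exact Dn_jl (by norm_num) (by norm_num)
  · set w := Function.update z p (z x + 3 * lam) with hw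
    have wp : w p = z x + 3 * lam := Function.update_self _ _ _
    have wx : w x = z x := Function.update_of_ne (Ne.symm n10) _ _
    have wY : ∀ y ∈ lr K L ([] : List ι), w y = z y := fun y hy => by
      rw [hw, Function.update_of_ne]
      rintro rfl
      exact n2 hy
    have hz : w p = w x + 3 * lam := by rw [wp, wx]
    have g1 : Gz (fun i => -w i) (p :: lr K L []) := by
      rw [hw, e3]
      exact gz_shift hG n4 n2 3
    have g2 : Gz (fun i => -w i) (x :: lr K L []) := gz_upd hG hpx _
    have h1 := WT_hi_o (ω := ω) (A := []) hω hO' hs' hz g1 g2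
    have hEL : EL w (lr K L []) = EL z (lr K L []) := by
      unfold EL
      exact List.map_congr_left fun y hy => by rw [wY y hy]
    have h2 := crf_up1 (z := w) (y := x) (p := p) hz hnY (fun k hk => by
      have := g2.s x (by simp) k (List.mem_cons_of_mem _ hk) (by rintro rfl; exact n4 hk)
      rw [← neg_ne_zero, ← Complex.sin_neg, show -(w x - w k) = -w x - -w k by ring]
      exact this) (hEL ▸ hS) n
    rw [wx] at h2
    have hl : (lr K L ([] : List ι)).length = K.length + L.length := by
      rw [lr_len]
      simp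
    rw [hl] at h2
    simp only [List.nil_append] at h1 n3
    rw [h1, hw, WT_upd n2 n3, ← hw, ← mul_assoc, h2]

end node

/-- the scalars of a node -/
theorem cQ_node (n : ℕ) : 2 * 4 ^ n * cQ n = cQ (n + 2) := by
  rw [cQ_succ, cQ_succ, show (4 : ℂ) ^ n = 2 ^ n * 2 ^ n by rw [← mul_pow]; norm_num]
  ring

end Pool.Agent.TC
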