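import Pool.Agent.TC.F_R0

/-!
# The function `R` of the lattice in its line, canonical sites (helper70)
-/

set_option autoImplicit false

namespace Pool.Agent.TC

open _root_.Pool.Agent.EXL _root_.Pool.Agent.EXL.Pat
open _root_.Pool.Agent.EXL.Fm (lam)
open _root_.Pool.Agent.NUF _root_.Pool.Agent.NUU _root_.Pool.Agent.NUT2 _root_.Pool.Agent.NUTV
open _root_.Pool.Agent.NUF.Fr (TP ee)
open NUTP (th)
open Complex (I exp sin cos)
open scoped Polynomial

theorem R_v (a : ℂ) : (![1, 1, a, 1, 1, 1] : Fin 6 → ℂ) = Function.update ![1, 1, 1, 1, 1, 1] 2 a := by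
  funext j
  fin_cases j <;> rfl

section rd

variable {ι : Type*} [DecidableEq ι] {ω : ℂ} {z : ι → ℂ} {K L : List (ι × ι)} {s0 : Fin 6 → ι} {w : ι}

/-- The left function read on the canonical sites. -/
theorem R_read (hs : Function.Injective s0) (hw : ∀ j, s0 j ≠ w) (hG : Gd (K ++ L))
    (hd : ∀ j, ∀ t ∈ K ++ L, s0 j ≠ t.1 ∧ s0 j ≠ t.2) (hdw : ∀ t ∈ K ++ L, w ≠ t.1 ∧ w ≠ t.2)
    (hz : ∀ t ∈ K ++ L, z t.2 = z t.1) {y : ℂ} (h2 : exp (I * z w) = y) {K' L' : List ℂ}
    (hK : K.map (fun t => exp (I * z t.1)) = K') (hL : L.map (fun t => exp (I * z t.1)) = L') :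
    WT ω z K L [] [w] (s0 0) (s0 1) w =
      cQ (K.length + L.length) * cQ (K.length + L.length + 1) * WC ω K' L' ![1, 1, y, 1, 1, 1] [] [2] 2 := by
  have e0 : Function.update s0 2 w 0 = s0 0 := Function.update_of_ne (by decide) _ _
  have e1 : Function.update s0 2 w 1 = s0 1 := Function.update_of_ne (by decide) _ _
  have e2 : Function.update s0 2 w 2 = w := Function.update_self _ _ _
  have key := WT_eq_WC (ω := ω) (z := z) (K := K) (L := L) (s := Function.update s0 2 w)
    (hs := ?_) hG ?_ (A := []) (B := [2]) (by decide) (m := 2) (by simp)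
    (fun t ht => by rw [hz t ht]) (v := ![1, 1, y, 1, 1, 1]) ?_ hK hL
  · rw [e0, e1, e2] at key
    simp only [List.map_nil, List.map_cons, e2, List.length_nil, List.length_cons, add_zero,
      zero_add] at key
    rw [div_eq_iff (mul_ne_zero (cQ_ne _) (cQ_ne _))] at key
    rw [key]
    ring
  · intro i j hij
    by_cases hi : i = 2
    · by_cases hj : j = 2
      · rw [hi, hj]
      · rw [hi, e2, Function.update_of_ne hj] at hij
        exact absurd hij.symm (hw j)
    · by_cases hj : j = 2
      · rw [hj, e2, Function.update_of_ne hi] at hij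
        exact absurd hij (hw i)
      · rw [Function.update_of_ne hi, Function.update_of_ne hj] at hij
        exact hs hij
  · intro j t ht
    by_cases hj : j = 2
    · rw [hj, e2]
      exact hdw t ht
    · rw [Function.update_of_ne hj]
      exact hd j t ht
  · intro j hj
    simp only [List.nil_append, List.mem_cons, List.not_mem_nil, or_false] at hj
    rw [hj, e2, h2]
    rfl

end rd

section can

variable {ω : ℂ}

/-- **`R` in its line**: degree and nodes of the neighbouring lines. -/
theorem R_core (hω : ω ≠ 0) (K L : List ℂ) (hG : _root_.TC.GC th (K ++ L)) : ∃ P : ℂ[X],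
    P.natDegree ≤ 2 * (K.length + L.length) + 1 ∧
    (∀ a, _root_.TC.GC th (a :: (K ++ L)) →
      a ^ (2 * (K.length + L.length) + 1) * (fam ω).R K L a = P.eval (a ^ 2)) ∧
    (∀ x K', K = K' ++ [x] → P.eval (th ^ 10 * x ^ 2) =
      _root_.TC.dn th (2 * (K.length + L.length) + 1) x (K' ++ L) *
        WC ω K' L ![1, 1, x, 1, 1, 1] [] [2] 2) ∧
    (∀ y L', L = y :: L' → P.eval (th ^ 6 * y ^ 2) =
      ω * _root_.TC.up th (2 * (K.length + L.length) + 1) y (K ++ L') *
        WC ω K L' ![1, 1, y, 1, 1, 1] [] [2] 2) := by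
  have hne := gc_ne hG
  have hKn : ∀ a ∈ K, a ≠ 0 := fun a ha => hne a (by simp [ha])
  have hLn : ∀ a ∈ L, a ≠ 0 := fun a ha => hne a (by simp [ha])
  set v0 : Fin 6 → ℂ := ![1, 1, 1, 1, 1, 1] with hv0
  set z := zc K L v0 with hz
  have hO : OkT (Ic K.length L.length) (Jc K.length L.length) [sc 2] [] (sc 0) (sc 1) (sc 2) :=
    okT_can (A := [2]) (B := []) (by decide) (by simp)
  have hs : Spr (Ic K.length L.length) (Jc K.length L.length) [sc 2] [] (sc 0) (sc 1) (sc 4) (sc 5) :=
    spr_can (A := [2]) (B := []) (by decide)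
  have g0 : GT z (lr (Ic K.length L.length) (Jc K.length L.length) []) :=
    gt_canR (A := []) (v := v0) hG
  have hlen : (lr (Ic K.length L.length) (Jc K.length L.length) ([] ++ [])).length =
      K.length + L.length := by
    rw [List.nil_append, lr_len]
    simp [Ic, Jc]
  obtain ⟨f, t1, t2⟩ := WT_lineO (ω := ω) (z := z) (A1 := []) (A2 := []) (p := sc 2) hO hs g0.gk
  rw [hlen] at t1
  obtain ⟨P0, p1, p2⟩ := TP.toPol t1
  set c0 : ℂ := cQ (K.length + L.length + 1) * cQ (K.length + L.length) with hc0
  have hc0n : c0 ≠ 0 := mul_ne_zero (cQ_ne _) (cQ_ne _)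
  have hpair := zc_pair (K := K) (L := L) (v := v0)
  have eK := Ic_map (L := L) (v := v0) hKn
  have eL := Jc_map (K := K) (v := v0) hLn
  have hGd : Gd (Ic K.length L.length ++ Jc K.length L.length) := (Gd_cons.1 hO.gdq).2.2
  have hex : th ^ 10 = th ^ 10 := rfl
  refine ⟨Polynomial.C c0⁻¹ * P0, (Polynomial.natDegree_C_mul_le _ _).trans p1, ?_, ?_, ?_⟩
  · intro a ha
    have ha0 : a ≠ 0 := gc_ne ha a (by simp)
    have ez : Function.update z (sc 2) (lg a) = zc K L ![1, 1, a, 1, 1, 1] := by
      rw [R_v, zc_update]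
    have g1 : GT (zc K L ![1, 1, a, 1, 1, 1]) (lr (Ic K.length L.length) (Jc K.length L.length)
        ([2].map sc)) := gt_canR (A := [2]) (v := ![1, 1, a, 1, 1, 1]) ha
    have hgo : Go (fun i => -Function.update z (sc 2) (lg a) i)
        (lr (Ic K.length L.length) (Jc K.length L.length) [sc 2]) := by
      rw [ez]
      exact go_of g1.neg.gz hO.ndR
    have h1 := t2 (lg a) hgo
    have h2 := p2 (lg a)
    rw [← h1, exp_lg ha0] at h2
    rw [Polynomial.eval_mul, Polynomial.eval_C, ← h2]
    have h3 : (fam ω).R K L a = c0⁻¹ * WT ω (Function.update z (sc 2) (lg a)) (Ic K.length L.length)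
        (Jc K.length L.length) ([] ++ [sc 2]) [] (sc 0) (sc 1) (sc 2) := by
      rw [ez, mul_comm, ← div_eq_mul_inv]
      rfl
    rw [h3]
    ring
  · -- the lower node
    intro x K' hK'
    obtain ⟨T, ⟨x1, x2⟩, u1, u2, u3⟩ := split_last (eK.trans hK')
    simp only at u3
    have u1' : Ic K.length L.length = T ++ [(x1, x2)] := u1
    have hN : K.length = K'.length + 1 := by rw [hK']; simp
    have hT : T.length = K'.length := by rw [← u2, List.length_map]
    have hJ : (Jc K.length L.length).length = L.length := by simp [Jc]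
    rw [u1'] at hO hs t2 g0 hGd hpair
    have hx2 : z x2 = z x1 := hpair (x1, x2) (by simp)
    have hEL : (EL z (lr T (Jc K.length L.length) [])).Perm (K' ++ L) := by
      have e1 : EL z (lr T (Jc K.length L.length) []) = K' ++ L := by
        unfold EL lr
        rw [List.nil_append, List.map_append, List.map_map, List.map_map]
        exact congrArg₂ (· ++ ·) u2 eL
      rw [e1]
    have hGk : Gk z (x1 :: lr T (Jc K.length L.length) []) := by
      refine g0.gk.sub fun y hy => ?_
      unfold lr at hy ⊢
      simp only [List.mem_append, List.mem_cons, List.map_append, List.map_cons, List.map_nil,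
        List.nil_append, List.not_mem_nil, or_false] at hy ⊢
      tauto
    obtain ⟨b1, b2⟩ := R_lo (ω := ω) hO hs hGk hEL (2 * (K.length + L.length) + 1)
    have h1 := t2 (z x1 - 3 * lam) b1
    have h2 := p2 (z x1 - 3 * lam)
    rw [List.nil_append] at h1
    rw [← h1, b2, u3, hT, hJ] at h2
    have e1 : exp (I * (z x1 - 3 * lam)) ^ 2 = th ^ 10 * x ^ 2 := by
      have := pt_dn2 (ε := 1) (Or.inl rfl) (z x1)
      rw [te_one, mul_one] at this
      rw [this, u3]
    rw [e1] at h2
    have hrd := R_read (ω := ω) (z := z) (K := T) (L := Jc K.length L.length) (s0 := sc) (w := x2)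
      (y := x) sc_inj ?_ ?_ ?_ ?_ ?_ (by rw [hx2, u3]) u2 eL
    rotate_left
    · intro j
      exact (sc_ne_full j (x1, x2) (by rw [u1']; simp)).2
    · have h5 : (T ++ [(x1, x2)] ++ Jc K.length L.length).Perm
          ((x1, x2) :: (T ++ Jc K.length L.length)) := perm_lo _ _ _
      exact (Gd_cons.1 (hGd.perm h5)).2.2
    · intro j t ht
      refine sc_ne_full j t ?_
      rw [u1']
      simp only [List.mem_append, List.mem_cons, List.not_mem_nil] at ht ⊢
      tauto
    · intro t ht
      have h5 : (T ++ [(x1, x2)] ++ Jc K.length L.length).Perm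
          ((x1, x2) :: (T ++ Jc K.length L.length)) := perm_lo _ _ _
      have h6 := (Gd_cons.1 (hGd.perm h5)).2.1 t ht
      exact ⟨h6.2.2.1, h6.2.2.2⟩
    · intro t ht
      refine hpair t ?_
      simp only [List.mem_append, List.mem_cons, List.not_mem_nil] at ht ⊢
      tauto
    rw [hrd, hT, hJ] at h2
    rw [Polynomial.eval_mul, Polynomial.eval_C, ← h2]
    have hc : c0 = 2 * 4 ^ (K'.length + L.length) *
        (cQ (K'.length + L.length) * cQ (K'.length + L.length + 1)) := by
      rw [hc0, hN, show K'.length + 1 + L.length + 1 = K'.length + L.length + 2 by ring,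
        show K'.length + 1 + L.length = K'.length + L.length + 1 by ring, ← cQ_node]
      ring
    rw [inv_mul_eq_iff_eq_mul₀ hc0n, hc]
    ring
  · -- the upper node
    intro y L' hL'
    obtain ⟨⟨y1, y2⟩, T, u1, u2, u3⟩ := split_head (eL.trans hL')
    simp only at u3
    have u1' : Jc K.length L.length = (y1, y2) :: T := u1
    have hN : L.length = L'.length + 1 := by rw [hL']; simp
    have hT : T.length = L'.length := by rw [← u2, List.length_map]
    have hI : (Ic K.length L.length).length = K.length := by simp [Ic]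
    rw [u1'] at hO hs t2 g0 hGd hpair
    have hy2 : z y2 = z y1 := hpair (y1, y2) (by simp)
    have hEL : (EL z (lr (Ic K.length L.length) T [])).Perm (K ++ L') := by
      have e1 : EL z (lr (Ic K.length L.length) T []) = K ++ L' := by
        unfold EL lr
        rw [List.nil_append, List.map_append, List.map_map, List.map_map]
        exact congrArg₂ (· ++ ·) eK u2
      rw [e1]
    have hGk : Gk z (y1 :: lr (Ic K.length L.length) T []) := by
      refine g0.gk.sub fun y hy => ?_
      unfold lr at hy ⊢
      simp only [List.mem_append, List.mem_cons, List.map_append, List.map_cons, List.map_nil,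
        List.nil_append, List.not_mem_nil, or_false] at hy ⊢
      tauto
    obtain ⟨b1, b2⟩ := R_hi hω hO hs hGk hEL (2 * (K.length + L.length) + 1)
    have h1 := t2 (z y1 + 3 * lam) b1
    have h2 := p2 (z y1 + 3 * lam)
    rw [List.nil_append] at h1
    rw [← h1, b2, u3, hT, hI] at h2
    have e1 : exp (I * (z y1 + 3 * lam)) ^ 2 = th ^ 6 * y ^ 2 := by
      have := pt_up2 1 (z y1)
      rw [te_one, mul_one] at this
      rw [this, u3]
    rw [e1] at h2
    have h5 : (Ic K.length L.length ++ (y1, y2) :: T).Perm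
        ((y1, y2) :: (Ic K.length L.length ++ T)) := List.perm_middle
    have hrd := R_read (ω := ω) (z := z) (K := Ic K.length L.length) (L := T) (s0 := sc) (w := y2)
      (y := y) sc_inj ?_ ?_ ?_ ?_ ?_ (by rw [hy2, u3]) eK u2
    rotate_left
    · intro j
      exact (sc_ne_full j (y1, y2) (by rw [u1']; simp)).2
    · exact (Gd_cons.1 (hGd.perm h5)).2.2
    · intro j t ht
      refine sc_ne_full j t ?_
      rw [u1']
      simp only [List.mem_append, List.mem_cons] at ht ⊢
      tauto
    · intro t ht
      have h6 := (Gd_cons.1 (hGd.perm h5)).2.1 t ht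
      exact ⟨h6.2.2.1, h6.2.2.2⟩
    · intro t ht
      refine hpair t ?_
      simp only [List.mem_append, List.mem_cons] at ht ⊢
      tauto
    rw [hrd, hT, hI] at h2
    rw [Polynomial.eval_mul, Polynomial.eval_C, ← h2]
    have hc : c0 = 2 * 4 ^ (K.length + L'.length) *
        (cQ (K.length + L'.length) * cQ (K.length + L'.length + 1)) := by
      rw [hc0, hN, show K.length + (L'.length + 1) + 1 = K.length + L'.length + 2 by ring,
        show K.length + (L'.length + 1) = K.length + L'.length + 1 by ring, ← cQ_node]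
      ring
    rw [inv_mul_eq_iff_eq_mul₀ hc0n, hc]
    ring

end can

end Pool.Agent.TC
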