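import Pool.Agent.TC.F_Y

/-!
# The polynomial of `X` in the empty line: field `polX` (helper86)

Port of the field `polYo` of F_Y (helper69): the upper line is empty, the leg starts at the lower one.
-/

set_option autoImplicit false

namespace Pool.Agent.TC.FX

open _root_.Pool.Agent.EXL _root_.Pool.Agent.EXL.Pat Polynomial
open _root_.Pool.Agent.EXL.Fm (lam)
open _root_.Pool.Agent.NUF _root_.Pool.Agent.NUU _root_.Pool.Agent.NUT2 _root_.Pool.Agent.NUTV
open _root_.Pool.Agent.NUF.Fr (TP ee)
open Complex (I exp sin cos)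
open _root_.Pool.Agent.TC.FY (EL_lr gt_lr lr_len WT_polE v_upd3 len_can spare_can gz_shift)

/-! ### The lists of lines -/

/-! ### `X` as a function of its empty line -/

section X

variable {ω a b y t : ℂ} {K L I' J' : List ℂ}

/-- `X` with the rapidity `s` of the empty line -/
noncomputable def Xes (ω : ℂ) (K L : List ℂ) (a s : ℂ) : ℂ :=
  WT ω (Function.update (zc K L ![1, 1, a, 1, 1, 1]) (sc 3) s) (Ic _ _) (Jc _ _) [sc 2, sc 3] []
    (sc 0) (sc 1) (sc 2) / (cQ (K.length + L.length + 2) * cQ (K.length + L.length))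

theorem okX (n m : ℕ) : OkT (Ic n m) (Jc n m) [sc 2, sc 3] [] (sc 0) (sc 1) (sc 2) :=
  okT_can (A := [2, 3]) (B := []) (a := 2) (by decide) (by decide)

theorem Xes_eq (b : ℂ) : (fam ω).X K L a b = Xes ω K L a (lg b) := by
  unfold Xes
  rw [← zc_update, v_upd3]
  rfl

/-- the rapidity of the empty line is generic -/
def GoX (K L : List ℂ) (a s : ℂ) : Prop :=
  Go (fun i => -Function.update (zc K L ![1, 1, a, 1, 1, 1]) (sc 3) s i)
    (lr (Ic K.length L.length) (Jc K.length L.length) [sc 2, sc 3])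

/-- **The polynomial of `X` in the empty line.** -/
theorem Xes_pol (hG : _root_.TC.GC NUTP.th (a :: (K ++ L))) : ∃ P : ℂ[X], ∀ s, GoX K L a s →
      exp (I * s) ^ (2 * (K.length + L.length) + 2) * Xes ω K L a s = P.eval (exp (I * s) ^ 2) := by
  have hg := gt_lr (K := K) (L := L) (v := ![1, 1, a, 1, 1, 1]) (A := [2]) hG
  have i4 := spare_can (n := K.length) (m := L.length) (A := [2, 3]) (B := []) (j := 4) (by decide)
  have i5 := spare_can (n := K.length) (m := L.length) (A := [2, 3]) (B := []) (j := 5) (by decide)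
  obtain ⟨P, p1, p2⟩ := WT_polE (ω := ω) (z := zc K L ![1, 1, a, 1, 1, 1]) (A1 := [sc 2]) (A2 := [])
    (p := sc 3) (okX K.length L.length) i4 i5 (fun h => absurd (sc_inj h) (by decide)) hg.gk
    (fun h => absurd (sc_inj h) (by decide))
  rw [(len_can _ _).1, (len_can _ _).2] at p2
  refine ⟨C (cQ (K.length + L.length + 2) * cQ (K.length + L.length))⁻¹ * P, fun s hs => ?_⟩
  rw [eval_mul, eval_C, ← p2 s hs]
  unfold Xes
  have e : 2 * (K.length + L.length + ([sc (n := K.length) (m := L.length) 2] ++ []).length) =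
      2 * (K.length + L.length) + 2 := by
    simp only [List.append_nil, List.length_cons, List.length_nil]
    omega
  rw [e, div_eq_mul_inv]
  show _ = _ * (_ * WT ω _ _ _ [sc 2, sc 3] [] _ _ _)
  ring

theorem go_genX (hb : _root_.TC.GC NUTP.th (b :: a :: (K ++ L))) : GoX K L a (lg b) := by
  have hb' : _root_.TC.GC NUTP.th (a :: b :: (K ++ L)) :=
    _root_.TC.GC.perm NUTP.th8 (List.Perm.swap _ _ _) hb
  have hg := gt_lr (K := K) (L := L) (v := ![1, 1, a, b, 1, 1]) (A := [2, 3]) hb'
  unfold GoX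
  rw [← zc_update, v_upd3]
  exact go_Gk (gk_neg hg.gk) (okX _ _).ndR

/-- **The node of the first line of `J`.** -/
theorem X_y (hG : _root_.TC.GC NUTP.th (a :: (K ++ (y :: J')))) :
    ∃ s, GoX K (y :: J') a s ∧ exp (I * s) ^ 2 = NUTP.th ^ 6 * y ^ 2 ∧ ∀ n, exp (I * s) ^ n *
      Xes ω K (y :: J') a s = _root_.TC.up NUTP.th n y (a :: (K ++ J')) *
        WC ω K J' ![1, 1, a, y, 1, 1] [2] [3] 2 := by
  set L := y :: J' with hL
  have h0 := gc_ne hG
  have nK : ∀ a ∈ K, a ≠ 0 := fun a ha => h0 a (by simp [ha])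
  have nL : ∀ a ∈ L, a ≠ 0 := fun a ha => h0 a (by simp [ha])
  have na : a ≠ 0 := h0 a (by simp)
  set z := zc K L ![1, 1, a, 1, 1, 1] with hz
  have hO := okX K.length L.length
  have hg := (gt_lr (K := K) (L := L) (v := ![1, 1, a, 1, 1, 1]) (A := [2]) hG).gk
  have i4 := spare_can (n := K.length) (m := L.length) (A := [2, 3]) (B := []) (j := 4) (by decide)
  have i5 := spare_can (n := K.length) (m := L.length) (A := [2, 3]) (B := []) (j := 5) (by decide)
  have hpair := _root_.Pool.Agent.NUT2.zc_pair K L ![1, 1, a, 1, 1, 1]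
  have hne := fun j => sc_ne (n := K.length) (m := L.length) j
  have hlen := len_can K.length L.length
  obtain ⟨⟨y1, y2⟩, Jq, e1, e2, e3⟩ := split_head
    ((Jc_map (K := K) (L := L) (v := ![1, 1, a, 1, 1, 1]) nL).trans hL)
  rw [← hz] at e2 e3 hg hpair
  have hI := Ic_map (K := K) (L := L) (v := ![1, 1, a, 1, 1, 1]) nK
  rw [← hz] at hI
  unfold GoX Xes
  rw [← hz]
  set Ip := Ic K.length L.length with hIp
  rw [e1] at hO hg i4 i5 hpair hne hlen ⊢
  have hgd : Gd ((y1, y2) :: (Ip ++ Jq)) := (Gd_cons.1 hO.gdq).2.2.perm List.perm_middle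
  -- the lists of the first half strip
  have l1 : lr Ip ((y1, y2) :: Jq) [sc 2, sc 3] = (Ip.map Prod.fst ++ [sc 2]) ++ sc 3 ::
      (y1 :: Jq.map Prod.fst) := by
    unfold lr
    simp
  have l2 : lr Ip ((y1, y2) :: Jq) ([2].map sc) = (Ip.map Prod.fst ++ [sc 2]) ++
      (y1 :: Jq.map Prod.fst) := by
    unfold lr
    simp
  have nd := hO.ndR
  rw [l1] at nd
  rw [l2] at hg
  have hpm : (y1 :: lr Ip Jq [sc 2]).Perm ((Ip.map Prod.fst ++ [sc 2]) ++ (y1 :: Jq.map Prod.fst)) := by
    unfold lr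
    rw [← List.append_assoc]
    exact List.perm_middle.symm
  have hgx : Gk z (y1 :: lr Ip Jq [sc 2]) := hg.sub fun y hy => hpm.mem_iff.1 hy
  have hx1 : y1 ∉ lr Ip Jq [sc 2] := (List.nodup_cons.1 (hpm.nodup_iff.2 (nd.sublist (by simp)))).1
  have hp1 : (sc 3 : Sc K.length L.length) ∉ y1 :: lr Ip Jq [sc 2] := by
    intro h
    have h1 := hpm.mem_iff.1 h
    have h2 := (List.perm_middle.nodup_iff.1 nd)
    exact (List.nodup_cons.1 h2).1 h1
  obtain ⟨g1, g2⟩ := gz_shift hgx hx1 hp1 3
  have hs3 : z y1 + ((3 : ℤ) : ℂ) * lam = z y1 + 3 * lam := by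
    push_cast
    ring
  rw [hs3] at g1 g2
  set z' := Function.update z (sc 3) (z y1 + 3 * lam) with hz'
  have zp : z' (sc 3) = z y1 + 3 * lam := Function.update_self _ _ _
  have zo : ∀ y ∈ y1 :: lr Ip Jq [sc 2], z' y = z y := fun y hy => by
    rw [hz', Function.update_of_ne]
    rintro rfl
    exact hp1 hy
  have zx : z' y1 = z y1 := zo y1 (by simp)
  refine ⟨z y1 + 3 * lam, ?_, ?_, fun n => ?_⟩
  · rw [l1]
    have := go_at (z := z) nd hg (x := y1) (by simp) 3
      (fun h => by
        exfalso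
        exact hx1 (by
          unfold lr
          simp only [List.mem_append, List.mem_cons] at h ⊢
          tauto)) (fun _ => ⟨sin_jl (by decide), Dn_jl (by decide) (by decide)⟩)
    rwa [hs3] at this
  · have h1 := NUTP.th3 (z y1)
    rw [lamN] at h1
    have e3' : exp (I * z y1) = y := e3
    have h2 : exp (I * (z y1 + 3 * lam)) = NUTP.th ^ 3 * y := by
      rw [← e3']
      exact h1.symm
    rw [h2]
    ring
  · have hX := WT_hi_e (ω := ω) (z := z') (K := Ip) (L := Jq) (x := y1) (x' := y2) (p := sc 3)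
      (A := [sc 2]) (B := []) hO (by simp) ⟨fun h => absurd (sc_inj h) (by decide), i4, i5⟩
      (by rw [zp, zx]) g1 g2
    have hX' : WT ω z' Ip ((y1, y2) :: Jq) [sc 2, sc 3] [] (sc 0) (sc 1) (sc 2) =
      crf (fun i => -z' i) (sc 3) y1 (lr Ip Jq [sc 2]).toFinset *
        WT ω z' Ip Jq [sc 2] [y2] (sc 0) (sc 1) (sc 2) := hX
    rw [hX']
    have hY : (lr Ip Jq [sc (n := K.length) (m := L.length) 2]).Nodup :=
      (List.nodup_cons.1 (hpm.nodup_iff.2 (nd.sublist (by simp)))).2
    have a1 : exp (I * z (sc 2)) = a := ex_zcs (v := ![1, 1, a, 1, 1, 1]) (j := 2) na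
    have hE : EL z' (lr Ip Jq [sc 2]) = K ++ (a :: J') := by
      unfold EL
      rw [List.map_congr_left (g := fun i => exp (I * z i)) fun y hy => by
        rw [zo y (List.mem_cons_of_mem _ hy)]]
      unfold lr
      rw [List.map_append, List.map_append, List.map_map, List.map_map]
      have a2 : Jq.map ((fun i => exp (I * z i)) ∘ Prod.fst) = J' := e2
      have a3 : Ip.map ((fun i => exp (I * z i)) ∘ Prod.fst) = K := hI
      rw [a2, a3, List.map_cons, List.map_nil, a1]
      rfl
    have hS : (EL z' (lr Ip Jq [sc 2])).Perm (a :: (K ++ J')) := by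
      rw [hE]
      exact List.perm_middle
    have hcr := crf_up1 (z := z') (p := sc 3) (y := y1) (by rw [zp, zx]) hY (fun k hk => by
      have hk' : y1 ≠ k := fun h => hx1 (h ▸ hk)
      have h1 := g2.s y1 (by simp) k (by simp [hk]) hk'
      rwa [show -z' y1 - -z' k = -(z' y1 - z' k) by ring, Complex.sin_neg, neg_ne_zero] at h1)
      hS n
    have e3' : exp (I * z y1) = y := e3
    rw [zx, e3'] at hcr
    have key : WT ω z' Ip Jq [sc 2] [y2] (sc 0) (sc 1) (sc 2) /
        (cQ (Ip.length + Jq.length + 1) * cQ (Ip.length + Jq.length + 1)) =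
        WC ω K J' ![1, 1, a, y, 1, 1] [2] [3] 2 := by
      set s6 : Fin 6 → Sc K.length L.length := ![sc 0, sc 1, sc 2, y2, sc 4, sc 5] with hs6
      have hx2 : ∀ j : Fin 6, (sc j : Sc K.length L.length) ≠ y2 := fun j =>
        (hne j (y1, y2) (by simp)).2
      have hinj : Function.Injective s6 := by
        intro i j hij
        fin_cases i <;> fin_cases j <;> first
          | rfl
          | exact absurd hij (hx2 _)
          | exact absurd hij.symm (hx2 _)
          | exact absurd (sc_inj hij) (by decide)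
      have ht2 : ∀ t ∈ Ip ++ Jq, t ∈ Ip ++ (y1, y2) :: Jq := fun t ht => by
        rcases List.mem_append.1 ht with h | h
        · simp [h]
        · simp [h]
      have hd : ∀ j, ∀ t ∈ Ip ++ Jq, s6 j ≠ t.1 ∧ s6 j ≠ t.2 := by
        intro j t ht
        have ht' := ht2 t ht
        have h1 := (Gd_cons.1 hgd).2.1 t ht
        fin_cases j
        · exact hne 0 t ht'
        · exact hne 1 t ht'
        · exact hne 2 t ht'
        · exact ⟨h1.2.2.1, h1.2.2.2⟩
        · exact hne 4 t ht'
        · exact hne 5 t ht'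
      have zt : ∀ t ∈ Ip ++ Jq, z' t.1 = z t.1 ∧ z' t.2 = z t.2 := by
        intro t ht
        have h1 := hne 3 t (ht2 t ht)
        rw [hz', Function.update_of_ne (Ne.symm h1.1), Function.update_of_ne (Ne.symm h1.2)]
        exact ⟨rfl, rfl⟩
      have z3 : z' (sc 2) = z (sc 2) := zo _ (List.mem_cons_of_mem _ (by unfold lr; simp))
      have z2 : z' y2 = z y2 := by
        rw [hz', Function.update_of_ne (Ne.symm (hx2 3))]
      have := WT_eq_WC (ω := ω) (z := z') (K := Ip) (L := Jq) (s := s6) hinj (Gd_cons.1 hgd).2.2 hd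
        (A := [2]) (B := [3]) (by decide) (m := 2) (by decide) (fun t ht => by
          rw [(zt t ht).1, (zt t ht).2, hpair t (ht2 t ht)]) (v := ![1, 1, a, y, 1, 1])
        (K' := K) (L' := J') (fun j hj => by
          fin_cases hj
          · show exp (I * z' (sc 2)) = a
            rw [z3, a1]
          · show exp (I * z' y2) = y
            rw [z2, ← e3']
            exact congrArg (fun w => exp (I * w)) (hpair (y1, y2) (by simp))) (by
          rw [List.map_congr_left (g := fun t => exp (I * z t.1)) fun t ht => by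
            rw [(zt t (by simp [ht])).1]]
          exact hI) (by
          rw [List.map_congr_left (g := fun t => exp (I * z t.1)) fun t ht => by
            rw [(zt t (by simp [ht])).1]]
          exact e2)
      exact this
    have hN1 : Jq.length = J'.length := by rw [← e2, List.length_map]
    have hN2 : Ip.length = K.length := hlen.1
    have hN3 : L.length = J'.length + 1 := by rw [hL]; simp
    have hYl : (lr Ip Jq [sc (n := K.length) (m := L.length) 2]).length =
        K.length + J'.length + 1 := by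
      rw [lr_len, hN1, hN2]
      rfl
    rw [hYl] at hcr
    rw [hN1, hN2] at key
    have c1 := cQ_ne (K.length + J'.length + 1)
    have hcc : cQ (K.length + L.length + 2) * cQ (K.length + L.length) =
        2 * 4 ^ (K.length + J'.length + 1) *
          (cQ (K.length + J'.length + 1) * cQ (K.length + J'.length + 1)) := by
      rw [hN3]
      rw [show K.length + (J'.length + 1) + 2 = (K.length + J'.length + 1) + 1 + 1 by omega,
        show K.length + (J'.length + 1) = K.length + J'.length + 1 by omega, cQ_succ, cQ_succ,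
        show (4 : ℂ) ^ (K.length + J'.length + 1) =
          2 ^ (K.length + J'.length + 1) * 2 ^ (K.length + J'.length + 1) by
          rw [← mul_pow]; norm_num]
      ring
    rw [hcc, ← key, mul_div_assoc', ← mul_assoc, hcr]
    have c2 : (4 : ℂ) ^ (K.length + J'.length + 1) ≠ 0 := pow_ne_zero _ (by norm_num)
    field_simp

end X

/-! ### The field `polX` -/

section field

theorem coreX {ω a : ℂ} (I J : List ℂ) (hG : _root_.TC.GC NUTP.th ([a] ++ (I ++ J))) :
    ∃ P : ℂ[X],
    (∀ b, _root_.TC.GC NUTP.th (b :: ([a] ++ (I ++ J))) →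
      b ^ (2 * (I.length + J.length) + 2) * (fam ω).X I J a b = P.eval (b ^ 2)) ∧
    (∀ y J', J = y :: J' → P.eval (NUTP.th ^ 6 * y ^ 2) =
      _root_.TC.up NUTP.th (2 * (I.length + (J'.length + 1)) + 2) y (a :: (I ++ J')) *
        (fam ω).O I J' a y) := by
  have hG' : _root_.TC.GC NUTP.th (a :: (I ++ J)) := hG
  obtain ⟨P, p2⟩ := Xes_pol (ω := ω) hG'
  refine ⟨P, fun b hb => ?_, ?_⟩
  · have hb' : _root_.TC.GC NUTP.th (b :: a :: (I ++ J)) := hb
    have nb : b ≠ 0 := gc_ne hb' b (by simp)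
    have h := p2 _ (go_genX hb')
    rw [exp_lg nb] at h
    rw [Xes_eq, h]
  · intro y J' hJ
    subst hJ
    obtain ⟨s, g, e1, e2⟩ := X_y (ω := ω) hG'
    have h := p2 s g
    rw [e2, e1] at h
    rw [← h]
    rfl

/-- **The field `polX`.** -/
theorem fam_polX {ω : ℂ} (I J : List ℂ) (a : ℂ)
    (hG : _root_.TC.GC NUTP.th (a :: (I ++ J))) : ∃ P : ℂ[X],
    (∀ b, _root_.TC.GC NUTP.th (b :: a :: (I ++ J)) →
      b ^ (2 * (I.length + J.length) + 2) * (fam ω).X I J a b = P.eval (b ^ 2)) ∧
    (∀ y J' t, J.Perm (y :: J') → (t = y ∨ t = y⁻¹) → P.eval (NUTP.th ^ 6 * t ^ 2) =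
      _root_.TC.up NUTP.th (2 * (I.length + J.length) + 2) t (a :: (I ++ J')) *
        (fam ω).O I J' a t) := by
  classical
  have hc := coreX (ω := ω) (a := a)
  choose PP q1 q2 using hc
  obtain ⟨P, -, h2, -, h4⟩ := lift (T := [a]) (W := fun I J b => (fam ω).X I J a b)
    (k := fun n => 2 * n + 2) (e1 := 0) (e2 := 6)
    (D := fun I' J x => if h : _root_.TC.GC NUTP.th ([a] ++ ((I' ++ [x]) ++ J)) then
      (PP (I' ++ [x]) J h).eval (NUTP.th ^ 0 * x ^ 2) else 0)
    (U := fun I J' y =>
      _root_.TC.up NUTP.th (2 * (I.length + (J'.length + 1)) + 2) y (a :: (I ++ J')) *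
        (fam ω).O I J' a y) (Ex := fun _ _ _ => True)
    (fun I I' J b h hG => famX_perm h (List.Perm.refl _) (gc_sw hG))
    (fun I J J' b h hG => famX_perm (List.Perm.refl _) h (gc_sw hG))
    (fun I x J b hG => famX_invK (gc_sw hG)) (fun I y J b hG => famX_invL (gc_sw hG))
    (fun I J hG => ⟨PP I J hG, trivial, q1 I J hG, fun x I' hI => by
      subst hI
      rw [dif_pos hG], q2 I J hG⟩) I J hG
  refine ⟨P, h2, fun y J' t hJ ht => ?_⟩
  rw [h4 y J' t hJ ht, hJ.length_eq]
  rfl

end field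

end Pool.Agent.TC.FX

namespace Pool.Agent.TC

open Polynomial

/-- **Field `polX`** of `TC.Rel` for the lattice family. -/
theorem fam_polX (ω : ℂ) (I J : List ℂ) (a : ℂ) (hG : _root_.TC.GC NUTP.th (a :: (I ++ J))) :
    ∃ P : ℂ[X],
    (∀ b, _root_.TC.GC NUTP.th (b :: a :: (I ++ J)) →
      b ^ (2 * (I.length + J.length) + 2) * (fam ω).X I J a b = P.eval (b ^ 2)) ∧
    (∀ y J' t, J.Perm (y :: J') → (t = y ∨ t = y⁻¹) → P.eval (NUTP.th ^ 6 * t ^ 2) =
      _root_.TC.up NUTP.th (2 * (I.length + J.length) + 2) t (a :: (I ++ J')) *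
        (fam ω).O I J' a t) :=
  FX.fam_polX I J a hG

end Pool.Agent.TC
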