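import Pool.Agent.TC.Can2
import Pool.Agent.TC.DegS
import Pool.Agent.TC.PolU
import Pool.Agent.TC.GoAt
import Pool.Agent.TC.Const

/-!
# The polynomial of `X` in the occupied line: field `polXo` (helper13)
-/

set_option autoImplicit false

namespace Pool.Agent.TC

open _root_.Pool.Agent.EXL _root_.Pool.Agent.NUF _root_.Pool.Agent.NUU _root_.Pool.Agent.NUT2
open _root_.Pool.Agent.NUTV
open _root_.Pool.Agent.EXL.Fm (lam)
open _root_.Pool.Agent.NUF.Fr (TP)
open NUTP (th th8)
open _root_.TC (GC)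
open Complex (I exp sin cos)
open scoped Polynomial

/-! ### One line at an integer distance from another one -/

section gkat

variable {ι : Type*} [DecidableEq ι] {z : ι → ℂ} {X : List ι} {p x : ι}

/-- generic except for the line `x` -/
theorem gk_ins (hG : Gk z (x :: X)) (hp : p ∉ X) (hx : x ∉ X) (j : ℤ) :
    Gk (Function.update z p (z x + j * lam)) (p :: X) := by
  have hu : ∀ y ∈ X, Function.update z p (z x + j * lam) y = z y := fun y hy => by
    refine Function.update_of_ne ?_ _ _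
    rintro rfl
    exact hp hy
  have hup : Function.update z p (z x + j * lam) p = z x + j * lam := Function.update_self _ _ _
  intro a ha b hb hab k
  rcases List.mem_cons.1 ha with ha' | ha
  · rcases List.mem_cons.1 hb with hb' | hb
    · exact absurd (ha'.trans hb'.symm) hab
    · rw [hu b hb, ha', hup]
      have := hG x (by simp) b (by simp [hb]) (fun e => hx (e ▸ hb)) (j + k)
      rwa [show z x - z b + ((j + k : ℤ) : ℂ) * lam = z x + j * lam - z b + k * lam by
        push_cast; ring] at this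
  · rcases List.mem_cons.1 hb with hb' | hb
    · rw [hu a ha, hb', hup]
      have := hG a (by simp [ha]) x (by simp) (fun e => hx (e ▸ ha)) (k - j)
      rwa [show z a - z x + ((k - j : ℤ) : ℂ) * lam = z a - (z x + j * lam) + k * lam by
        push_cast; ring] at this
    · rw [hu a ha, hu b hb]
      exact hG a (by simp [ha]) b (by simp [hb]) hab k

end gkat

section can

variable {ω : ℂ} {K L I' : List ℂ} {b x : ℂ}

/-- the normalization of the functions of two ended lines of one side -/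
theorem cQ2 (n : ℕ) : cQ (n + 2) = 2 * 4 ^ n * cQ n := by
  rw [cQ_succ, cQ_succ, show (4 : ℂ) = 2 * 2 by norm_num, mul_pow]
  ring

/-- `X` with the rapidity `s` of the occupied line -/
noncomputable def Xos (ω : ℂ) (K L : List ℂ) (b s : ℂ) : ℂ :=
  WT ω (Function.update (zc K L ![1, 1, 1, b, 1, 1]) (sc 2) s) (Ic _ _) (Jc _ _) [sc 2, sc 3] []
    (sc 0) (sc 1) (sc 2)

theorem Xo_upd (a b : ℂ) :
    Function.update (![1, 1, 1, b, 1, 1] : Fin 6 → ℂ) 2 a = ![1, 1, a, b, 1, 1] := by
  funext j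
  fin_cases j <;> rfl

theorem Xos_eq (a : ℂ) : (fam ω).X K L a b =
    Xos ω K L b (lg a) / (cQ (K.length + L.length + 2) * cQ (K.length + L.length)) := by
  unfold Xos
  rw [← zc_update, Xo_upd]
  rfl

theorem Xo_len (K L : List ℂ) : ((Ic K.length L.length).map Prod.fst).length +
    (sc 3 :: (Jc K.length L.length).map Prod.fst).length = K.length + L.length + 1 := by
  simp only [List.length_map, List.length_cons, Ic, Jc, List.length_finRange]
  omega

/-- **The polynomial.** -/
theorem Xos_pol (hG : GC th (b :: (K ++ L))) : ∃ P : ℂ[X], ∀ s,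
    Go (fun i => -Function.update (zc K L ![1, 1, 1, b, 1, 1]) (sc 2) s i)
      (lr (Ic K.length L.length) (Jc K.length L.length) [sc 2, sc 3]) →
    exp (I * s) ^ (2 * (K.length + L.length) + 3) * Xos ω K L b s = P.eval (exp (I * s) ^ 2) := by
  have hO : OkT (Ic K.length L.length) (Jc K.length L.length) [sc 2, sc 3] [] (sc 0) (sc 1) (sc 2) :=
    okT_can (A := [2, 3]) (B := []) (by decide) (a := 2) (by simp)
  have hs : Spr (Ic K.length L.length) (Jc K.length L.length) [sc 2, sc 3] [] (sc 0) (sc 1) (sc 4)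
    (sc 5) := spr_can (A := [2, 3]) (B := []) (by decide)
  have hg : GT (zc K L ![1, 1, 1, b, 1, 1]) (lr (Ic K.length L.length) (Jc K.length L.length) [sc 3]) :=
    gt_canR (A := [3]) hG
  have hk := hg.neg.gk
  have e : lr (Ic K.length L.length) (Jc K.length L.length) [sc 2, sc 3] =
      (Ic K.length L.length).map Prod.fst ++ sc 2 :: (sc 3 :: (Jc K.length L.length).map Prod.fst) := rfl
  have l1 : LP (fun w => PS w (sc 0) (lr (Ic K.length L.length) (Jc K.length L.length) [sc 2, sc 3]))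
      (fun i => -zc K L ![1, 1, 1, b, 1, 1] i)
      (lr (Ic K.length L.length) (Jc K.length L.length) [sc 2, sc 3]) (sc 2)
      (K.length + L.length + 1) := by
    rw [← Xo_len]
    exact LP_PS (List.nodup_cons.2 ⟨hO.outR.1, hO.ndR⟩) hs.hR.1 hs.hR.2 hs.ne hk
  have l2 : LP (fun w => PH w (lr (Ic K.length L.length) (Jc K.length L.length) [sc 2, sc 3]))
      (fun i => -zc K L ![1, 1, 1, b, 1, 1] i)
      (lr (Ic K.length L.length) (Jc K.length L.length) [sc 2, sc 3]) (sc 2)
      (K.length + L.length + 1) := by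
    rw [← Xo_len]
    exact LP_PH hO.ndR hs.hR0.1 hs.hR0.2 hs.ne hk
  obtain ⟨f, hf, hf'⟩ := WT_O1 (ω := ω) (fun w X => PH_supS w X) (fun w c X => PS_supS w c X) hO
    (by simp) l1 l2
  obtain ⟨P, -, hP⟩ := TP.toPol hf
  refine ⟨P, fun s hs => ?_⟩
  have := hP s
  rw [← hf' s hs] at this
  rw [show 2 * (K.length + L.length) + 3 = 2 * (K.length + L.length + 1) + 1 by ring]
  exact this

/-- generic values -/
theorem Xos_go {a : ℂ} (hG : GC th (a :: b :: (K ++ L))) :
    Go (fun i => -Function.update (zc K L ![1, 1, 1, b, 1, 1]) (sc 2) (lg a) i)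
      (lr (Ic K.length L.length) (Jc K.length L.length) [sc 2, sc 3]) := by
  have hO : OkT (Ic K.length L.length) (Jc K.length L.length) [sc 2, sc 3] [] (sc 0) (sc 1) (sc 2) :=
    okT_can (A := [2, 3]) (B := []) (by decide) (a := 2) (by simp)
  have hg : GT (zc K L ![1, 1, a, b, 1, 1]) (lr (Ic K.length L.length) (Jc K.length L.length)
    [sc 2, sc 3]) := gt_canR (A := [2, 3]) hG
  rw [← zc_update, Xo_upd]
  exact go_Gk hg.neg.gk hO.ndR

/-- **The node** of the last line of the group `I`. -/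
theorem Xos_x (hinv : GC th (x⁻¹ :: b⁻¹ :: (I' ++ L)) → (fam ω⁻¹).O (I'.map (·⁻¹)) (L.map (·⁻¹)) x⁻¹ b⁻¹ =
      (fam ω⁻¹).O I' L x⁻¹ b⁻¹) (hG : GC th (b :: ((I' ++ [x]) ++ L))) :
    ∃ s, exp (I * s) ^ 2 = th ^ 10 * x ^ 2 ∧
      Go (fun i => -Function.update (zc (I' ++ [x]) L ![1, 1, 1, b, 1, 1]) (sc 2) s i)
        (lr (Ic (I' ++ [x]).length L.length) (Jc (I' ++ [x]).length L.length) [sc 2, sc 3]) ∧
      ∀ n, exp (I * s) ^ n * Xos ω (I' ++ [x]) L b s =
        2 * 4 ^ (I'.length + L.length + 1) * _root_.TC.dn th n x (b :: (I' ++ L)) *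
          (cQ (I'.length + L.length + 1) * cQ (I'.length + L.length + 1) *
            (fam ω⁻¹).O I' L x⁻¹ b⁻¹) := by
  have hne0 := gc_ne hG
  have nK : ∀ a ∈ I' ++ [x], a ≠ 0 := fun a ha => hne0 a (by simp only [List.mem_append, List.mem_cons] at ha ⊢; tauto)
  have nL : ∀ a ∈ L, a ≠ 0 := fun a ha => hne0 a (by simp [ha])
  have nb : b ≠ 0 := hne0 b (by simp)
  have nx : x ≠ 0 := hne0 x (by simp)
  set K := I' ++ [x] with hK
  have hO : OkT (Ic K.length L.length) (Jc K.length L.length) [sc 2, sc 3] [] (sc 0) (sc 1) (sc 2) :=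
    okT_can (A := [2, 3]) (B := []) (by decide) (a := 2) (by simp)
  have hs : Spr (Ic K.length L.length) (Jc K.length L.length) [sc 2, sc 3] [] (sc 0) (sc 1) (sc 4)
    (sc 5) := spr_can (A := [2, 3]) (B := []) (by decide)
  have hg : GT (zc K L ![1, 1, 1, b, 1, 1]) (lr (Ic K.length L.length) (Jc K.length L.length) [sc 3]) :=
    gt_canR (A := [3]) hG
  have hk := hg.gk
  have hpair : ∀ t ∈ Ic K.length L.length ++ Jc K.length L.length,
      zc K L ![1, 1, 1, b, 1, 1] t.2 = zc K L ![1, 1, 1, b, 1, 1] t.1 := fun t ht => zc_pair t ht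
  have hne := fun j => sc_ne_full (n := K.length) (m := L.length) j
  have hJ := Jc_map (K := K) (L := L) (v := ![1, 1, 1, b, 1, 1]) nL
  obtain ⟨K', ⟨x1, x2⟩, e1, e2, e3⟩ := split_last
    ((Ic_map (K := K) (L := L) (v := ![1, 1, 1, b, 1, 1]) nK).trans hK)
  have e3' : exp (I * zc K L ![1, 1, 1, b, 1, 1] x1) = x := e3
  set z := zc K L ![1, 1, 1, b, 1, 1] with hz
  set Jp := Jc K.length L.length with hJp
  have hzb : exp (I * z (sc 3)) = b := exp_lg nb
  unfold Xos
  rw [← hz, ← hJp]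
  rw [e1] at hO hs hk hpair hne ⊢
  have hnd := hO.ndR
  have hnd' : (K'.map Prod.fst ++ x1 :: sc 2 :: sc 3 :: Jp.map Prod.fst).Nodup := by
    have : lr (K' ++ [(x1, x2)]) Jp [sc 2, sc 3] =
        K'.map Prod.fst ++ x1 :: sc 2 :: sc 3 :: Jp.map Prod.fst := by
      unfold lr
      simp
    rwa [this] at hnd
  have hx2 : ∀ j : Fin 6, (sc j : Sc K.length L.length) ≠ x2 := fun j => (hne j (x1, x2) (by simp)).2
  have hx1 : ∀ j : Fin 6, (sc j : Sc K.length L.length) ≠ x1 := fun j => (hne j (x1, x2) (by simp)).1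
  have h2L : (sc 2 : Sc K.length L.length) ∉ lr K' Jp [sc 3] := by
    unfold lr
    simp only [List.nodup_append, List.nodup_cons, List.mem_append, List.mem_cons,
      List.not_mem_nil, or_false, false_or] at hnd' ⊢
    grind
  have h1L : x1 ∉ lr K' Jp [sc 3] := by
    unfold lr
    simp only [List.nodup_append, List.nodup_cons, List.mem_append, List.mem_cons,
      List.not_mem_nil, or_false, false_or] at hnd' ⊢
    grind
  have gX : Gk z (x1 :: lr K' Jp [sc 3]) := by
    refine hk.sub fun y hy => ?_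
    unfold lr at hy ⊢
    simp only [List.mem_cons, List.mem_append, List.map_append, List.map_cons, List.map_nil,
      List.not_mem_nil, or_false] at hy ⊢
    tauto
  have ez : z x1 + ((-3 : ℤ) : ℂ) * lam = z x1 - 3 * lam := by push_cast; ring
  have gP := gk_ins gX h2L h1L (-3)
  rw [ez] at gP
  refine ⟨z x1 - 3 * lam, ?_, ?_, fun n => ?_⟩
  · have h := pt_dn2 (ε := 1) (Or.inl rfl) (z x1)
    rw [te_one, mul_one, e3'] at h
    exact h
  · have hlr : lr (K' ++ [(x1, x2)]) Jp [sc 2, sc 3] =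
        (K'.map Prod.fst ++ [x1]) ++ sc 2 :: (sc 3 :: Jp.map Prod.fst) := by
      unfold lr
      simp
    rw [hlr, ← ez]
    refine go_at (by rw [← hlr]; exact hnd) (hk.sub fun y hy => ?_) (by simp) (-3) (fun _ => ?_)
      fun h => ?_
    · unfold lr
      simp only [List.mem_cons, List.mem_append, List.map_append, List.map_cons, List.map_nil,
        List.not_mem_nil, or_false] at hy ⊢
      tauto
    · exact ⟨sin_jl (by decide), Dn_jl (by decide) (by decide)⟩
    · exfalso
      simp only [List.nodup_append, List.nodup_cons, List.mem_append, List.mem_cons] at hnd' h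
      grind
  set z' := Function.update z (sc 2) (z x1 - 3 * lam) with hz'
  have u1 : ∀ y, y ≠ sc 2 → z' y = z y := fun y hy => Function.update_of_ne hy _ _
  have uL : ∀ y ∈ lr K' Jp [sc 3], z' y = z y := fun y hy => u1 y fun e => h2L (e ▸ hy)
  have ux : z' x1 = z x1 := u1 x1 (hx1 2).symm
  have up : z' (sc 2) = z' x1 - 3 * lam := by rw [ux, hz', Function.update_self]
  have gX' : Gk z' (x1 :: lr K' Jp [sc 3]) := gX.congr fun y hy => by
    rcases List.mem_cons.1 hy with e | hy
    · rw [e, ux]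
    · exact (uL y hy).symm
  have key := WT_lo_o (ω := ω) (z := z') hO hs up (gk_neg gP).gz (gk_neg gX').gz
  have hY : (lr K' Jp [sc 3]).Nodup := by
    have : (lr K' Jp [sc 3]).Sublist (K'.map Prod.fst ++ x1 :: sc 2 :: sc 3 :: Jp.map Prod.fst) := by
      unfold lr
      simp
    exact hnd'.sublist this
  have hE : EL z' (lr K' Jp [sc 3]) = I' ++ (b :: L) := by
    have h1 : EL z' (lr K' Jp [sc 3]) = EL z (lr K' Jp [sc 3]) := by
      unfold EL
      exact List.map_congr_left fun y hy => by rw [uL y hy]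
    rw [h1]
    unfold EL lr
    rw [List.map_append, List.map_append, List.map_cons, List.map_nil, List.map_map, List.map_map, hzb]
    exact congrArg₂ (fun A B : List ℂ => A ++ (b :: B)) e2 hJ
  have hS : (EL z' (lr K' Jp [sc 3])).Perm (b :: (I' ++ L)) := by
    rw [hE]
    exact List.perm_middle
  have hsin : ∀ k ∈ lr K' Jp [sc 3], sin (z' (sc 2) - z' k) ≠ 0 := fun k hk' => by
    have := gP (sc 2) (by simp) k (by simp [hk']) (fun e => h2L (e ▸ hk')) 0
    rwa [Int.cast_zero, zero_mul, add_zero] at this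
  have c1 := crf_dn1 (x := x1) up hY hsin hS n
  rw [ux, e3'] at c1
  have hlen : (lr K' Jp [sc 3]).length = I'.length + L.length + 1 := by
    have h1 : (lr K' Jp [sc 3]).length = (EL z' (lr K' Jp [sc 3])).length := by
      rw [EL, List.length_map]
    rw [h1, hE]
    simp
    omega
  rw [hlen] at c1
  have hO' : OkT K' Jp [sc 3] [x2] (sc 0) (sc 1) x2 := ⟨(nd_lo hO.nd).1, by simp⟩
  have m1 := WT_mir (ω := ω) (z := z') hO'
  rw [key, ← mul_assoc, c1, m1]
  congr 1
  have gI : GC th (x⁻¹ :: b⁻¹ :: (I' ++ L)) := by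
    have h1 := _root_.TC.GC.remI th8 (S := [b]) (I := I' ++ [x]) (I' := I') (J := L) (x := x)
      (t := x⁻¹) (List.perm_append_singleton x I') (Or.inr rfl) hG
    have h2 : GC th ([x⁻¹] ++ ((b :: I') ++ L)) := h1
    have h3 := _root_.TC.GC.remI th8 (S := [x⁻¹]) (I := b :: I') (I' := I') (J := L) (x := b)
      (t := b⁻¹) (List.Perm.refl _) (Or.inr rfl) h2
    exact GC.perm h3 (List.Perm.swap _ _ _)
  rw [← hinv gI]
  set s6 : Fin 6 → Sc K.length L.length := ![sc 1, sc 0, x2, sc 3, sc 4, sc 5] with hs6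
  have hgd : Gd ((x1, x2) :: (K' ++ Jp)) := by
    refine (Gd_cons.1 hO.gdq).2.2.perm ?_
    rw [List.append_assoc]
    exact List.perm_middle
  have hinj : Function.Injective s6 := by
    intro i j hij
    fin_cases i <;> fin_cases j <;> first
      | rfl
      | exact absurd hij (hx2 _)
      | exact absurd hij.symm (hx2 _)
      | exact absurd (sc_inj hij) (by decide)
  have hmem : ∀ t ∈ K' ++ Jp, t ∈ K' ++ [(x1, x2)] ++ Jp := fun t ht => by
    rcases List.mem_append.1 ht with h | h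
    · simp [h]
    · simp [h]
  have hd : ∀ j, ∀ t ∈ K' ++ Jp, s6 j ≠ t.1 ∧ s6 j ≠ t.2 := by
    intro j t ht
    have ht' := hmem t ht
    have h1 := (Gd_cons.1 hgd).2.1 t ht
    fin_cases j
    · exact hne 1 t ht'
    · exact hne 0 t ht'
    · exact ⟨h1.2.2.1, h1.2.2.2⟩
    · exact hne 3 t ht'
    · exact hne 4 t ht'
    · exact hne 5 t ht'
  have hsw : (K'.map Prod.swap) ++ (Jp.map Prod.swap) = (K' ++ Jp).map Prod.swap := by
    rw [List.map_append]
  have z1 : ∀ t ∈ K' ++ Jp, z' t.1 = z t.1 ∧ z' t.2 = z t.1 := fun t ht => by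
    have h1 := hne 2 t (hmem t ht)
    rw [u1 _ h1.1.symm, u1 _ h1.2.symm, hpair t (hmem t ht)]
    exact ⟨rfl, rfl⟩
  have zx2 : exp (I * -z' x2) = x⁻¹ := by
    rw [u1 x2 (hx2 2).symm, hpair (x1, x2) (by simp), mul_neg, Complex.exp_neg]
    exact congrArg _ e3'
  have zb : exp (I * -z' (sc 3)) = b⁻¹ := by
    rw [u1 _ (fun e => absurd (sc_inj e) (by decide)), mul_neg, Complex.exp_neg, hzb]
  have w1 := WT_eq_WC (ω := ω⁻¹) (z := fun i => -z' i) (K := K'.map Prod.swap) (L := Jp.map Prod.swap)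
    (s := s6) hinj (by
      rw [hsw]
      exact gd_swp (Gd_cons.1 hgd).2.2) (fun j t ht => by
      rw [hsw] at ht
      obtain ⟨t', ht', rfl⟩ := List.mem_map.1 ht
      exact ⟨(hd j t' ht').2, (hd j t' ht').1⟩)
    (A := [2]) (B := [3]) (by decide) (m := 2) (by decide) (fun t ht => by
      rw [hsw] at ht
      obtain ⟨t', ht', rfl⟩ := List.mem_map.1 ht
      show exp (I * -z' t'.1) = exp (I * -z' t'.2)
      rw [(z1 t' ht').1, (z1 t' ht').2]) (v := ![1, 1, x⁻¹, b⁻¹, 1, 1]) (fun j hj => by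
      fin_cases hj
      · exact zx2
      · exact zb) (K' := I'.map (·⁻¹)) (L' := L.map (·⁻¹)) (by
      refine Eq.trans ?_ (congrArg (List.map (·⁻¹)) e2)
      rw [List.map_map, List.map_map]
      refine List.map_congr_left fun t ht => ?_
      show exp (I * -z' t.2) = (exp (I * z t.1))⁻¹
      rw [(z1 t (List.mem_append_left _ ht)).2, mul_neg, Complex.exp_neg]) (by
      refine Eq.trans ?_ (congrArg (List.map (·⁻¹)) hJ)
      rw [List.map_map, List.map_map]
      refine List.map_congr_left fun t ht => ?_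
      show exp (I * -z' t.2) = (exp (I * z t.1))⁻¹
      rw [(z1 t (List.mem_append_right _ ht)).2, mul_neg, Complex.exp_neg])
  have n1 : (K'.map Prod.swap).length = I'.length := by
    rw [List.length_map, ← e2, List.length_map]
  have n2 : (Jp.map Prod.swap).length = L.length := by
    rw [List.length_map, hJp]
    simp [Jc]
  rw [n1, n2, div_eq_iff (mul_ne_zero (cQ_ne _) (cQ_ne _))] at w1
  have w2 : WT ω⁻¹ (fun i => -z' i) (K'.map Prod.swap) (Jp.map Prod.swap) [x2] [sc 3] (sc 1) (sc 0) x2 =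
      (fam ω⁻¹).O (I'.map (·⁻¹)) (L.map (·⁻¹)) x⁻¹ b⁻¹ *
        (cQ (I'.length + L.length + 1) * cQ (I'.length + L.length + 1)) := w1
  rw [w2]
  ring

/-- The field for the last line of the group `I`. -/
theorem Xo_core (hinv : ∀ x b I' L, GC th (x⁻¹ :: b⁻¹ :: (I' ++ L)) →
      (fam ω⁻¹).O (I'.map (·⁻¹)) (L.map (·⁻¹)) x⁻¹ b⁻¹ = (fam ω⁻¹).O I' L x⁻¹ b⁻¹)
    (K L : List ℂ) (hG : GC th (b :: (K ++ L))) :
    ∃ P : ℂ[X], (∀ a, GC th (a :: b :: (K ++ L)) →
      a ^ (2 * (K.length + L.length) + 3) * (fam ω).X K L a b = P.eval (a ^ 2)) ∧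
    (∀ x I', K = I' ++ [x] → P.eval (th ^ 10 * x ^ 2) =
      _root_.TC.dn th (2 * (K.length + L.length) + 3) x (b :: (I' ++ L)) *
        (fam ω⁻¹).O I' L x⁻¹ b⁻¹) := by
  obtain ⟨P, hP⟩ := Xos_pol (ω := ω) hG
  have hc : cQ (K.length + L.length + 2) * cQ (K.length + L.length) ≠ 0 :=
    mul_ne_zero (cQ_ne _) (cQ_ne _)
  refine ⟨Polynomial.C (cQ (K.length + L.length + 2) * cQ (K.length + L.length))⁻¹ * P,
    fun a ha => ?_, ?_⟩
  · have h1 := hP (lg a) (Xos_go ha)
    have ea : exp (I * lg a) = a := exp_lg (gc_ne ha a (by simp))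
    rw [ea] at h1
    rw [Xos_eq, Polynomial.eval_mul, Polynomial.eval_C, ← h1]
    field_simp
  · rintro x I' rfl
    obtain ⟨s, h1, h2, h3⟩ := Xos_x (ω := ω) (hinv x b I' L) hG
    have h4 := hP s h2
    have hl : (I' ++ [x]).length + L.length = I'.length + L.length + 1 := by
      rw [List.length_append, List.length_singleton]
      omega
    rw [h3, h1] at h4
    rw [Polynomial.eval_mul, Polynomial.eval_C, ← h4, hl, cQ2]
    have hc1 := cQ_ne (I'.length + L.length + 1)
    field_simp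

end can

section liftI

open _root_.TC (dn)

variable {T : List ℂ} {W : List ℂ → List ℂ → ℂ → ℂ} {k : ℕ → ℕ} {e1 : ℕ}
  {D : List ℂ → List ℂ → ℂ → ℂ}

/-- All the nodes of the group `I` (`PolU.lift` without the group `J`). -/
theorem liftI
    (hK : ∀ I I' J a, I.Perm I' → GC th (a :: (T ++ (I ++ J))) → W I J a = W I' J a)
    (iK : ∀ I x J a, GC th (a :: (T ++ ((x :: I) ++ J))) → W (x :: I) J a = W (x⁻¹ :: I) J a)
    (core : ∀ I J, GC th (T ++ (I ++ J)) → ∃ P : ℂ[X],
      (∀ a, GC th (a :: (T ++ (I ++ J))) → a ^ k (I.length + J.length) * W I J a = P.eval (a ^ 2)) ∧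
      (∀ x I', I = I' ++ [x] → P.eval (th ^ e1 * x ^ 2) = D I' J x)) :
    ∀ I J, GC th (T ++ (I ++ J)) → ∃ P : ℂ[X],
      (∀ a, GC th (a :: (T ++ (I ++ J))) → a ^ k (I.length + J.length) * W I J a = P.eval (a ^ 2)) ∧
      (∀ x I' t, I.Perm (x :: I') → (t = x ∨ t = x⁻¹) → P.eval (th ^ e1 * t ^ 2) = D I' J t) := by
  intro I J hG
  obtain ⟨P, p2, -⟩ := core I J hG
  refine ⟨P, p2, ?_⟩
  intro x I' t hI ht
  have g0 : ∀ a, GC th (a :: (T ++ (I ++ J))) → GC th (a :: (T ++ ((x :: I') ++ J))) :=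
    fun a ha => ha.perm th8 (((hI.append_right J).append_left T).cons a)
  have gt : ∀ a, GC th (a :: (T ++ (I ++ J))) → GC th (a :: (T ++ ((t :: I') ++ J))) := by
    intro a ha
    have h1 := _root_.TC.GC.remI th8 (S := a :: T) hI ht ha
    refine h1.perm th8 ?_
    exact (List.perm_middle (l₁ := a :: T) (l₂ := I' ++ J) (a := t)).symm
  have pm : ∀ a, (a :: (T ++ ((t :: I') ++ J))).Perm (a :: (T ++ ((I' ++ [t]) ++ J))) :=
    fun a => (((List.perm_append_singleton t I').symm.append_right J).append_left T).cons a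
  have hG1 : GC th (T ++ ((I' ++ [t]) ++ J)) := by
    have h1 := _root_.TC.GC.remI th8 (S := T) hI ht hG
    refine h1.perm th8 ?_
    refine (List.perm_middle (l₁ := T) (l₂ := I' ++ J) (a := t)).symm.trans ?_
    exact ((List.perm_append_singleton t I').symm.append_right J).append_left T
  obtain ⟨Q, q2, q3⟩ := core (I' ++ [t]) J hG1
  have hl : (I' ++ [t]).length = I.length := by
    rw [hI.length_eq]
    simp
  rw [hl] at q2
  have e : P = Q := by
    refine pol_eq (n := k (I.length + J.length)) (F := W I J) (F' := W (I' ++ [t]) J) hG p2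
      (fun a ha => q2 a ?_) fun a ha => ?_
    · exact (gt a ha).perm th8 (pm a)
    · rw [hK I (x :: I') J a hI ha]
      have h2 : W (x :: I') J a = W (t :: I') J a := by
        rcases ht with rfl | rfl
        · rfl
        · exact iK I' x J a (g0 a ha)
      rw [h2, hK (t :: I') (I' ++ [t]) J a (List.perm_append_singleton t I').symm (gt a ha)]
  rw [e]
  exact q3 t I' rfl

end liftI

/-- All the full lines inverted. -/
theorem famO_inv {ω u v : ℂ} {K L : List ℂ} (hG : GC th (u :: v :: (K ++ L))) :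
    (fam ω).O (K.map (·⁻¹)) (L.map (·⁻¹)) u v = (fam ω).O K L u v := by
  obtain ⟨h1, h2⟩ := WC_invallK (ω := ω) (v := ![1, 1, u, v, 1, 1]) (A := [2]) (B := [3]) (m := 2)
    (c := 4) (d := 5) (by decide) (by decide) (by decide) (by decide) (by decide) (K := K) (L := L) hG
  obtain ⟨h3, -⟩ := WC_invallL (ω := ω) (v := ![1, 1, u, v, 1, 1]) (A := [2]) (B := [3]) (m := 2)
    (c := 4) (d := 5) (by decide) (by decide) (by decide) (by decide) (by decide)
    (K := K.map (·⁻¹)) (L := L) h2
  exact h3.trans h1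

/-- **Field `polXo`.** -/
theorem fam_polXo {ω : ℂ} (I J : List ℂ) (b : ℂ) (hG : GC th (b :: (I ++ J))) :
    ∃ P : ℂ[X],
      (∀ a, GC th (a :: b :: (I ++ J)) →
        a ^ (2 * (I.length + J.length) + 3) * (fam ω).X I J a b = P.eval (a ^ 2)) ∧
      (∀ x I' t, I.Perm (x :: I') → (t = x ∨ t = x⁻¹) → P.eval (th ^ 10 * t ^ 2) =
        _root_.TC.dn th (2 * (I.length + J.length) + 3) t (b :: (I' ++ J)) *
          (fam ω⁻¹).O I' J t⁻¹ b⁻¹) := by
  obtain ⟨P, h1, h2⟩ := liftI (T := [b]) (W := fun K L a => (fam ω).X K L a b)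
    (k := fun n => 2 * n + 3) (e1 := 10)
    (D := fun I' L x => _root_.TC.dn th (2 * (I'.length + 1 + L.length) + 3) x (b :: (I' ++ L)) *
      (fam ω⁻¹).O I' L x⁻¹ b⁻¹)
    (fun I I' J a h g => famX_perm h (List.Perm.refl _) g)
    (fun I x J a g => famX_invK g)
    (fun K L g => by
      obtain ⟨P, p1, p2⟩ := Xo_core (ω := ω) (fun x b I' L g => famO_inv g) K L g
      refine ⟨P, p1, ?_⟩
      rintro x I' rfl
      rw [p2 x I' rfl]
      simp only [List.length_append, List.length_singleton]) I J hG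
  refine ⟨P, h1, fun x I' t hI ht => ?_⟩
  rw [h2 x I' t hI ht, hI.length_eq, List.length_cons]

end Pool.Agent.TC
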