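import Pool.Agent.TC.Cross

/-!
# Fusion of two neighbouring lines at any place, for `PH` and for the exit functional (helper92)

`z p = z q - 2 λ`, `q` directly above `p`, `z' q = z q - λ`, `z' = z` on the other lines.
-/

set_option autoImplicit false

namespace Pool.Agent.TC

open _root_.Pool.Agent.EXL _root_.Pool.Agent.EXL.Pat Filter Topology
open _root_.Pool.Agent.EXL.Fm (lam)
open _root_.Pool.Agent.NUF _root_.Pool.Agent.NUU _root_.Pool.Agent.NUTV
open Polynomial (C natDegree)

variable {α : Type*} [DecidableEq α] {z z' : α → ℂ} {X Y L A B D : List α} {b c d i j k p q : α}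

theorem gz_ins {s : ℂ} (hG : Gz z L) (hb : b ∉ L) (hs : Fb z L s) :
    Gz (Function.update z b s) (b :: L) := by
  have hm : ∀ x ∈ L, Function.update z b s x = z x := fun x hx => (upd_out hb x hx).symm
  have hb1 : Function.update z b s b = s := Function.update_self _ _ _
  constructor
  · intro x hx y hy hxy
    rcases List.mem_cons.1 hx with ex | mx
    · rcases List.mem_cons.1 hy with ey | my
      · exact absurd (ex.trans ey.symm) hxy
      · rw [ex, hb1, hm y my]
        exact (hs y my).1
    · rcases List.mem_cons.1 hy with ey | my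
      · rw [ey, hb1, hm x mx]
        exact hs.sin' mx
      · rw [hm x mx, hm y my]
        exact hG.s x mx y my hxy
  · intro x hx y hy hxy
    rcases List.mem_cons.1 hx with ex | mx
    · rcases List.mem_cons.1 hy with ey | my
      · exact absurd (ex.trans ey.symm) hxy
      · rw [ex, hb1, hm y my]
        exact (hs y my).2.1
    · rcases List.mem_cons.1 hy with ey | my
      · rw [ey, hb1, hm x mx]
        exact (hs x mx).2.2
      · rw [hm x mx, hm y my]
        exact hG.d x mx y my hxy

/-- **Fusion** at any place. -/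
theorem PH_fuseA [Finite α] : ∀ (A Y : List α), (A ++ p :: q :: Y).Nodup →
    c ∉ A ++ p :: q :: Y → d ∉ A ++ p :: q :: Y → c ≠ d → z p = z q - 2 * lam →
    z' q = z q - lam → (∀ y ∈ A ++ Y, z' y = z y) →
    Gz z (q :: (A ++ Y)) → Gz z (p :: (A ++ Y)) → Gz z' (q :: (A ++ Y)) →
      PH z (A ++ p :: q :: Y) =
        fuf (z' q) z (A ++ Y).toFinset • (PH z' (A ++ q :: Y) ∘ₗ uops.Y q p) := by
  intro A
  induction A using List.reverseRecOn with
  | nil =>
    intro Y hn hc hd hcd hz hz' hY h1 h2 _
    exact PH_fuse hn hc hd hcd hz hz' hY h1 h2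
  | append_singleton A a ih =>
    intro Y hn hc hd hcd hz hz' hY h1 h2 h3
    have e0 : A ++ [a] ++ p :: q :: Y = A ++ a :: p :: q :: Y := by simp
    have e1 : A ++ [a] ++ Y = A ++ a :: Y := by simp
    have e2 : A ++ [a] ++ q :: Y = A ++ a :: q :: Y := by simp
    rw [e0] at hn hc hd ⊢
    rw [e1] at h1 h2 h3 hY ⊢
    rw [e2]
    have p1 : (A ++ a :: p :: q :: Y).Perm (A ++ p :: q :: a :: Y) := by
      have q1 := swap_perm A (q :: Y) a p
      have q2 : (A ++ p :: a :: q :: Y).Perm (A ++ p :: q :: a :: Y) := by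
        have := swap_perm (A ++ [p]) Y a q
        simpa using this
      exact q1.trans q2
    have hzip : z q - z p = 2 * lam := by rw [hz]; ring
    have h4 : Complex.sin (z q - z p) ≠ 0 ∧ Fm.Dn (z q - z p) ≠ 0 := by
      rw [hzip]
      exact ⟨lam_facts.2.1, lam_facts.2.2.2⟩
    rw [PH_two hn hc hd hcd h1 h2 (fun x hx => hx) h4,
      ih (a :: Y) (p1.nodup_iff.1 hn) (fun h => hc (p1.mem_iff.2 h)) (fun h => hd (p1.mem_iff.2 h)) hcd
        hz hz' hY h1 h2 h3]
    have hm : a ∈ A ++ a :: Y := by simp
    have hnp : (p :: (A ++ a :: q :: Y)).Nodup := by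
      have : (A ++ a :: p :: q :: Y).Perm (p :: (A ++ a :: q :: Y)) := by
        have := List.perm_middle (l₁ := A ++ [a]) (l₂ := q :: Y) (a := p)
        simpa using this
      exact this.nodup_iff.1 hn
    have hni : (q :: (A ++ a :: p :: Y)).Nodup := by
      have : (A ++ a :: p :: q :: Y).Perm (q :: (A ++ a :: p :: Y)) := by
        have := List.perm_middle (l₁ := A ++ [a, p]) (l₂ := Y) (a := q)
        simpa using this
      exact this.nodup_iff.1 hn
    have hap : p ≠ a := fun e => (List.nodup_cons.1 hnp).1 (by simp [e])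
    have hai : q ≠ a := fun e => (List.nodup_cons.1 hni).1 (by simp [e])
    have hpi : q ≠ p := fun e => (List.nodup_cons.1 hnp).1 (by simp [e])
    have hza : z' a = z a := hY a hm
    have k1 : okR (z p - z a) := (EXL.Fm.okR_iff _).2
      (h2.d p (by simp) a (List.mem_cons_of_mem _ hm) hap)
    have k2 : okR (z q - z a) := (EXL.Fm.okR_iff _).2
      (h1.d q (by simp) a (List.mem_cons_of_mem _ hm) hai)
    have k3 : okR (z' q - z a) := by
      have := h3.d q (by simp) a (List.mem_cons_of_mem _ hm) hai
      rw [hza] at this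
      exact (EXL.Fm.okR_iff _).2 this
    have el : (uops (ι := α)).l = lam := by
      rw [uops_l]
      rfl
    have eh : z p - z a + (uops (ι := α)).l + (uops (ι := α)).l = z q - z a := by
      rw [hz, el]
      ring
    have eh' : z p - z a + (uops (ι := α)).l = z' q - z a := by
      rw [hz, hz', el]
      ring
    have key := (ulaws (ι := α)).B1 (i := q) (j := p) (r := a) (w := z p - z a) hpi hai hap k1
      (by rw [eh']; exact k3) (by rw [eh]; exact k2)
    rw [eh, eh'] at key
    -- the exchange of `q` and `a`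
    have hn3 : (A ++ q :: a :: Y).Nodup := by
      have s1 : (A ++ q :: a :: Y).Sublist (A ++ p :: q :: a :: Y) :=
        List.Sublist.append_left (List.sublist_cons_self p _) A
      exact (p1.nodup_iff.1 hn).sublist s1
    have hmem : ∀ x ∈ A ++ q :: a :: Y, x ∈ A ++ a :: p :: q :: Y := fun x hx => by
      simp only [List.mem_append, List.mem_cons] at hx ⊢
      tauto
    have hx := PH_exch (z := z') (A := A) (B := Y) (j := q) (k := a) hn3 (fun h => hc (hmem _ h))
      (fun h => hd (hmem _ h)) hcd (h3.perm List.perm_middle.symm)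
    rw [hza] at hx
    refine LinearMap.ext fun F => ?_
    rw [← hx]
    simp only [LinearMap.smul_apply, LinearMap.comp_apply]
    have := LinearMap.congr_fun key F
    rw [Module.End.mul_apply, Module.End.mul_apply, Module.End.mul_apply] at this
    rw [Module.End.mul_apply, this]

/-- the polynomial of the factor -/
noncomputable def fuP (ζ : ℂ) : Polynomial ℂ := Polynomial.X + C (NUMv.cc ζ)

theorem fuP_top (ζ : ℂ) : (fuP ζ).natDegree ≤ 1 ∧ (fuP ζ).coeff 1 = 1 := by
  constructor
  · unfold fuP
    compute_degree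
  · unfold fuP
    rw [Polynomial.coeff_add, Polynomial.coeff_X, Polynomial.coeff_C]
    norm_num

/-- **Fusion of the exit functional** at any place. -/
theorem PS_fuseA [Finite α] (A Y : List α) (hn : (b :: (A ++ p :: q :: Y)).Nodup)
    (hc : c ∉ b :: (A ++ p :: q :: Y)) (hd : d ∉ b :: (A ++ p :: q :: Y)) (hcd : c ≠ d)
    (hz : z p = z q - 2 * lam) (hz' : z' q = z q - lam) (hY : ∀ y ∈ A ++ Y, z' y = z y)
    (h1 : Gz z (q :: (A ++ Y))) (h2 : Gz z (p :: (A ++ Y))) (h3 : Gz z' (q :: (A ++ Y))) :
    PS z b (A ++ p :: q :: Y) =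
      fuf (z' q) z (A ++ Y).toFinset • (PS z' b (A ++ q :: Y) ∘ₗ uops.Y q p) := by
  have hn1 := List.nodup_cons.1 hn
  have hsub : (A ++ Y).Sublist (A ++ p :: q :: Y) :=
    List.Sublist.append_left ((List.sublist_cons_self q Y).trans (List.sublist_cons_self p _)) A
  have hsub1 : (A ++ q :: Y).Sublist (A ++ p :: q :: Y) :=
    List.Sublist.append_left (List.sublist_cons_self p _) A
  have hbAY : b ∉ A ++ Y := fun h => hn1.1 (hsub.subset h)
  have hbq : b ∉ A ++ q :: Y := fun h => hn1.1 (hsub1.subset h)
  have hnY : (b :: (A ++ q :: Y)).Nodup := List.nodup_cons.2 ⟨hbq, hn1.2.sublist hsub1⟩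
  have hcX : c ∉ A ++ p :: q :: Y := fun h => hc (List.mem_cons_of_mem _ h)
  have hdX : d ∉ A ++ p :: q :: Y := fun h => hd (List.mem_cons_of_mem _ h)
  have hpb : p ≠ b := fun e => hn1.1 (by simp [e])
  have hib : q ≠ b := fun e => hn1.1 (by simp [e])
  have hzip : z q - z p = 2 * lam := by rw [hz]; ring
  have h4 : Complex.sin (z q - z p) ≠ 0 ∧ Fm.Dn (z q - z p) ≠ 0 := by
    rw [hzip]
    exact ⟨lam_facts.2.1, lam_facts.2.2.2⟩
  have hpi : q ≠ p := by
    intro e
    rw [e, sub_self] at hzip
    exact lam_facts.2.1 (by rw [← hzip, Complex.sin_zero])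
  have hg : Go z (A ++ p :: q :: Y) := by
    have := go_pi (z := z) (A := A) (B := []) (D := Y) (p := p) (i := q) (X := A ++ Y)
      (by simpa using hn1.2) h1 h2 (fun x hx => by simpa using hx) h4
    simpa using this
  have hgY : Go z' (A ++ q :: Y) := go_of (h3.perm List.perm_middle.symm) (hn1.2.sublist hsub1)
  refine LinearMap.ext fun F => ?_
  have key : psP z b (A ++ p :: q :: Y) F -
      C (fuf (z' q) z (A ++ Y).toFinset) * (fuP (z' q) * psP z' b (A ++ q :: Y) (uops.Y q p F)) = 0 := by
    refine pol_zero (s0 := 0) ?_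
    filter_upwards [ev_fb z (p :: q :: (A ++ Y)) 0, ev_fb z' (q :: (A ++ Y)) 0] with s hs hs'
    set w := Function.update z b s with hw
    set w' := Function.update z' b s with hw'
    have wb : w b = s := by rw [hw, Function.update_self]
    have wz : ∀ x, x ≠ b → w x = z x := fun x hx => by rw [hw, Function.update_of_ne hx]
    have wz' : ∀ x, x ≠ b → w' x = z' x := fun x hx => by rw [hw', Function.update_of_ne hx]
    have wb' : w' b = s := by rw [hw', Function.update_self]
    have hxb : ∀ x ∈ A ++ Y, x ≠ b := fun x hx e => hbAY (e ▸ hx)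
    have b1 : b ∉ q :: (A ++ Y) := fun h => by
      rcases List.mem_cons.1 h with h | h
      · exact hib h.symm
      · exact hbAY h
    have b2 : b ∉ p :: (A ++ Y) := fun h => by
      rcases List.mem_cons.1 h with h | h
      · exact hpb h.symm
      · exact hbAY h
    have g1 : Gz w (q :: (b :: A ++ Y)) := (gz_ins h1 b1 (hs.sub fun y hy => by
      simp only [List.mem_cons] at hy ⊢
      tauto)).perm (List.Perm.swap _ _ _)
    have g2 : Gz w (p :: (b :: A ++ Y)) := (gz_ins h2 b2 (hs.sub fun y hy => by
      simp only [List.mem_cons] at hy ⊢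
      tauto)).perm (List.Perm.swap _ _ _)
    have g3 : Gz w' (q :: (b :: A ++ Y)) := (gz_ins h3 b1 hs').perm (List.Perm.swap _ _ _)
    have hX := PH_fuseA (z := w) (z' := w') (c := c) (d := d) (p := p) (q := q) (b :: A) Y hn hc hd hcd
      (by rw [wz p hpb, wz q hib, hz]) (by rw [wz' q hib, wz q hib, hz'])
      (fun y hy => by
        by_cases e : y = b
        · rw [e, wb, wb']
        · have : y ∈ A ++ Y := by
            simp only [List.cons_append, List.mem_cons] at hy
            rcases hy with hy | hy
            · exact absurd hy e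
            · exact hy
          rw [wz y e, wz' y e, hY y this]) g1 g2 g3
    have e1 := LinearMap.congr_fun hX (F - opE ℂ b F)
    rw [List.cons_append, List.cons_append, List.cons_append] at e1
    rw [psP_val hn hcX hdX hcd hg, LinearMap.smul_apply, LinearMap.comp_apply, opE_Y hpb hib hpi,
      psP_val hnY (fun h => hcX (hsub1.subset h)) (fun h => hdX (hsub1.subset h)) hcd hgY] at e1
    have hbT : b ∉ (A ++ Y).toFinset := by rwa [List.mem_toFinset]
    have e2 : fuf (w' q) w (b :: (A ++ Y)).toFinset =
        fuf (z' q) z (A ++ Y).toFinset * (fuP (z' q)).eval (cf (hh - s)) := by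
      have ecf : cf (hh - s) = NUMv.cc s := by
        unfold cf NUMv.cc hh lam
        rw [← Complex.cos_neg]
        congr 1
        ring
      have c1 : ∏ k ∈ (A ++ Y).toFinset, (NUMv.cc (z' q) + NUMv.cc (w k)) =
          ∏ k ∈ (A ++ Y).toFinset, (NUMv.cc (z' q) + NUMv.cc (z k)) :=
        Finset.prod_congr rfl fun k hk => by rw [wz k (hxb k (List.mem_toFinset.1 hk))]
      unfold fuf fuP
      rw [List.toFinset_cons, Finset.prod_insert hbT, wz' q hib, wb, c1, Polynomial.eval_add,
        Polynomial.eval_X, Polynomial.eval_C, ecf]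
      ring
    rw [e2] at e1
    rw [Polynomial.eval_sub, Polynomial.eval_mul, Polynomial.eval_mul, Polynomial.eval_C]
    linear_combination e1
  have t1 := (psP_top (z := z) (b := b) hn1.2 F).2
  have t2 := psP_top (z := z') (b := b) (X := A ++ q :: Y) (hn1.2.sublist hsub1) (uops.Y q p F)
  rw [sub_eq_zero] at key
  rw [key, Polynomial.coeff_C_mul] at t1
  have hlen : (A ++ p :: q :: Y).length - 1 = 1 + ((A ++ q :: Y).length - 1) := by
    simp only [List.length_append, List.length_cons]
    omega
  rw [hlen, Polynomial.coeff_mul_add_eq_of_natDegree_le (fuP_top _).1 t2.1, (fuP_top _).2, one_mul,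
    t2.2] at t1
  rw [LinearMap.smul_apply, LinearMap.comp_apply, smul_eq_mul]
  apply mul_left_cancel₀ s2_ne
  rw [← t1]
  ring

end Pool.Agent.TC
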