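import Pool.Agent.TC.Can
import Pool.Agent.TC.Cross
import Pool.Agent.TC.FuseA

/-!
# The local relations of the one leg functions of the strip (helper36)

Nodes (an ended line next to a full line), zero and fusion of two ended lines, exchange of two ended lines.
-/

set_option autoImplicit false

namespace Pool.Agent.TC

open _root_.Pool.Agent.EXL _root_.Pool.Agent.NUF _root_.Pool.Agent.NUU _root_.Pool.Agent.NUT2
open _root_.Pool.Agent.EXL.Fm (lam)
open Complex (I exp sin cos)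

section spare

variable {ι : Type*} {K L : List (ι × ι)} {A B : List ι} {q g c d : ι}

/-- Two more sites. -/
structure Spr (K L : List (ι × ι)) (A B : List ι) (q g c d : ι) : Prop where
  ne : c ≠ d
  c : c ∉ sites K L A B q g
  d : d ∉ sites K L A B q g

theorem mem_sites_R {x : ι} (h : x ∈ q :: lr K L A) : x ∈ sites K L A B q g := by
  unfold lr at h
  unfold sites
  simp only [List.mem_append, List.mem_cons, List.map_append] at h ⊢
  tauto

theorem mem_sites_L {x : ι} (h : x ∈ g :: ll K L B) : x ∈ sites K L A B q g := by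
  unfold ll at h
  unfold sites
  simp only [List.mem_append, List.mem_cons, List.map_append] at h ⊢
  tauto

theorem Spr.hR (h : Spr K L A B q g c d) : (c ∉ q :: lr K L A) ∧ (d ∉ q :: lr K L A) :=
  ⟨fun h1 => h.c (mem_sites_R h1), fun h1 => h.d (mem_sites_R h1)⟩

theorem Spr.hL (h : Spr K L A B q g c d) : (c ∉ g :: ll K L B) ∧ (d ∉ g :: ll K L B) :=
  ⟨fun h1 => h.c (mem_sites_L h1), fun h1 => h.d (mem_sites_L h1)⟩

theorem Spr.hR0 (h : Spr K L A B q g c d) : (c ∉ lr K L A) ∧ (d ∉ lr K L A) :=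
  ⟨fun h1 => h.hR.1 (List.mem_cons_of_mem _ h1), fun h1 => h.hR.2 (List.mem_cons_of_mem _ h1)⟩

theorem Spr.hL0 (h : Spr K L A B q g c d) : (c ∉ ll K L B) ∧ (d ∉ ll K L B) :=
  ⟨fun h1 => h.hL.1 (List.mem_cons_of_mem _ h1), fun h1 => h.hL.2 (List.mem_cons_of_mem _ h1)⟩

end spare

section sup

variable {ι : Type*} [DecidableEq ι] {z : ι → ℂ} {L K : List (ι × ι)} {A B : List ι} {q g m : ι}

theorem sR (z : ι → ℂ) (K L : List (ι × ι)) (A : List ι) : SupS (SR K L A) (PH z (lr K L A)) :=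
  PH_supS _ _

theorem sL (z : ι → ℂ) (K L : List (ι × ι)) (B : List ι) : SupS (SL K L B) (PH z (ll K L B)) :=
  PH_supS _ _

theorem sRq (z : ι → ℂ) (K L : List (ι × ι)) (A : List ι) (q : ι) :
    SupS (insert q (SR K L A)) (PS z q (lr K L A)) := PS_supS _ _ _

theorem sLg (z : ι → ℂ) (K L : List (ι × ι)) (B : List ι) (g : ι) :
    SupS (insert g (SL K L B)) (PS z g (ll K L B)) := PS_supS _ _ _

end sup

/-! ### The sites of the configurations -/

section cfg

variable {ι : Type*} {K L : List (ι × ι)} {A B : List ι} {x x' p q g m : ι}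

theorem lr_lo : lr (K ++ [(x, x')]) L (p :: A) = K.map Prod.fst ++ x :: p :: (A ++ L.map Prod.fst) := by
  unfold lr
  simp

theorem lr_hi : lr K ((x, x') :: L) (A ++ [p]) =
    (K.map Prod.fst ++ A) ++ p :: x :: L.map Prod.fst := by
  unfold lr
  simp

theorem ll_lo : ll (K ++ [(x, x')]) L B = ll K L (x' :: B) := by
  unfold ll
  simp

theorem ll_hi : ll K ((x, x') :: L) B = ll K L (B ++ [x']) := by
  unfold ll
  simp

theorem lr_lo' : lr (K ++ [(x, x')]) L A = lr K L (x :: A) := by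
  unfold lr
  simp

theorem lr_hi' : lr K ((x, x') :: L) A = lr K L (A ++ [x]) := by
  unfold lr
  simp

theorem ll_lo' : ll (K ++ [(x, x')]) L (p :: B) = K.map Prod.snd ++ x' :: p :: (B ++ L.map Prod.snd) := by
  unfold ll
  simp

theorem ll_hi'' : ll K ((x, x') :: L) (B ++ [p]) =
    (K.map Prod.snd ++ B) ++ p :: x' :: L.map Prod.snd := by
  unfold ll
  simp

/-- The sites after a node on the right, lower line. -/
theorem nd_lo (h : (sites (K ++ [(x, x')]) L (p :: A) B q g).Nodup) :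
    (sites K L A (x' :: B) q g).Nodup ∧
    (p ∉ lr K L A ∧ p ∉ ll K L (x' :: B) ∧ x ∉ lr K L A ∧ x ∉ ll K L (x' :: B)) ∧
    (p ≠ q ∧ p ≠ g ∧ x ≠ q ∧ x ≠ g ∧ p ≠ x ∧ p ≠ x') ∧ x ∉ L.map Prod.fst ∧ p ∉ L.map Prod.fst ∧
    ∀ t ∈ K ++ L, p ≠ t.1 ∧ p ≠ t.2 := by
  unfold sites at h ⊢
  unfold lr ll
  simp only [List.nodup_append, List.nodup_cons, List.map_append, List.mem_append, List.mem_cons,
    List.map_cons, List.map_nil, List.not_mem_nil, or_false] at h ⊢
  refine ⟨?_, ?_, ?_, ?_, ?_, ?_⟩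
  all_goals grind

/-- The sites after a node on the right, upper line. -/
theorem nd_hi (h : (sites K ((x, x') :: L) (A ++ [p]) B q g).Nodup) :
    (sites K L A (B ++ [x']) q g).Nodup ∧
    (p ∉ lr K L A ∧ p ∉ ll K L (B ++ [x']) ∧ x ∉ lr K L A ∧ x ∉ ll K L (B ++ [x'])) ∧
    (p ≠ q ∧ p ≠ g ∧ x ≠ q ∧ x ≠ g ∧ p ≠ x ∧ p ≠ x') ∧ x ∉ L.map Prod.fst ∧ p ∉ L.map Prod.fst ∧
    ∀ t ∈ K ++ L, p ≠ t.1 ∧ p ≠ t.2 := by
  unfold sites at h ⊢
  unfold lr ll
  simp only [List.nodup_append, List.nodup_cons, List.map_append, List.mem_append, List.mem_cons,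
    List.map_cons, List.map_nil, List.not_mem_nil, or_false] at h ⊢
  refine ⟨?_, ?_, ?_, ?_, ?_, ?_⟩
  all_goals grind

end cfg

/-! ### Nodes -/

theorem uops_Us {ι : Type*} [DecidableEq ι] (i j : ι) :
    (uops (ι := ι)).U i j = (uops (ι := ι)).U j i := by
  by_cases h : i = j
  · rw [h]
  refine LinearMap.ext fun F => ?_
  rw [uops_U_apply h, uops_U_apply (Ne.symm h)]
  funext q
  simp only [EXL.U]
  by_cases e1 : q i = i <;> by_cases e2 : q j = j <;>
    simp [e1, e2, _root_.Pool.Agent.EXL.Ins.cup_symm (i := i) (j := j)]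

section node

variable {ι : Type*} [DecidableEq ι] [Finite ι] {ω : ℂ} {z : ι → ℂ} {K L : List (ι × ι)} {A B : List ι}
  {x x' p q g m c d : ι}

omit [Finite ι] in
theorem perm_lo (K L : List (ι × ι)) (t : ι × ι) : (K ++ [t] ++ L).Perm (t :: (K ++ L)) := by
  rw [List.append_assoc]
  exact List.perm_middle

omit [Finite ι] in
theorem perm_hi (K L : List (ι × ι)) (t : ι × ι) : (K ++ t :: L).Perm (t :: (K ++ L)) :=
  List.perm_middle

/-- The functionals of the right side at the lower node. -/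
theorem cross_lo (hO : OkT (K ++ [(x, x')]) L (p :: A) B q g m)
    (hs : Spr (K ++ [(x, x')]) L (p :: A) B q g c d) (hz : z p = z x - 3 * lam)
    (h1 : Gz (fun i => -z i) (p :: lr K L A)) (h2 : Gz (fun i => -z i) (x :: lr K L A)) :
    PH (fun i => -z i) (lr (K ++ [(x, x')]) L (p :: A)) =
      crf (fun i => -z i) x p (lr K L A).toFinset •
        (PH (fun i => -z i) (lr K L A) ∘ₗ uops.U x p) ∧
    PS (fun i => -z i) q (lr (K ++ [(x, x')]) L (p :: A)) =
      crf (fun i => -z i) x p (lr K L A).toFinset •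
        (PS (fun i => -z i) q (lr K L A) ∘ₗ uops.U x p) := by
  have n1 := hO.ndR
  have n2 := List.nodup_cons.2 ⟨hO.outR.1, n1⟩
  have c1 := hs.hR0
  have c2 := hs.hR
  rw [lr_lo] at n1 n2 c1 c2 ⊢
  have hz' : -z x = -z p - 3 * lam := by rw [hz]; ring
  exact ⟨PH_crossA (z := fun i => -z i) _ _ n1 c1.1 c1.2 hs.ne hz' h1 h2,
    PS_crossA (z := fun i => -z i) _ _ n2 c2.1 c2.2 hs.ne hz' h1 h2⟩

/-- The functionals of the right side at the upper node. -/
theorem cross_hi (hO : OkT K ((x, x') :: L) (A ++ [p]) B q g m)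
    (hs : Spr K ((x, x') :: L) (A ++ [p]) B q g c d) (hz : z p = z x + 3 * lam)
    (h1 : Gz (fun i => -z i) (p :: lr K L A)) (h2 : Gz (fun i => -z i) (x :: lr K L A)) :
    PH (fun i => -z i) (lr K ((x, x') :: L) (A ++ [p])) =
      crf (fun i => -z i) p x (lr K L A).toFinset •
        (PH (fun i => -z i) (lr K L A) ∘ₗ uops.U x p) ∧
    PS (fun i => -z i) q (lr K ((x, x') :: L) (A ++ [p])) =
      crf (fun i => -z i) p x (lr K L A).toFinset •
        (PS (fun i => -z i) q (lr K L A) ∘ₗ uops.U x p) := by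
  have n1 := hO.ndR
  have n2 := List.nodup_cons.2 ⟨hO.outR.1, n1⟩
  have c1 := hs.hR0
  have c2 := hs.hR
  rw [lr_hi] at n1 n2 c1 c2 ⊢
  have e : lr K L A = (K.map Prod.fst ++ A) ++ L.map Prod.fst := by
    unfold lr
    rw [List.append_assoc]
  rw [e] at h1 h2 ⊢
  have hz' : -z p = -z x - 3 * lam := by rw [hz]; ring
  rw [uops_Us x p]
  exact ⟨PH_crossA (z := fun i => -z i) _ _ n1 c1.1 c1.2 hs.ne hz' h2 h1,
    PS_crossA (z := fun i => -z i) _ _ n2 c2.1 c2.2 hs.ne hz' h2 h1⟩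

/-- **Lower node, occupied line.** -/
theorem WT_lo_o (hO : OkT (K ++ [(x, x')]) L (p :: A) B q g p)
    (hs : Spr (K ++ [(x, x')]) L (p :: A) B q g c d) (hz : z p = z x - 3 * lam)
    (h1 : Gz (fun i => -z i) (p :: lr K L A)) (h2 : Gz (fun i => -z i) (x :: lr K L A)) :
    WT ω z (K ++ [(x, x')]) L (p :: A) B q g p =
      crf (fun i => -z i) x p (lr K L A).toFinset * WT ω z K L A (x' :: B) q g x' := by
  obtain ⟨a1, a2⟩ := cross_lo hO hs hz h1 h2
  obtain ⟨n1, ⟨n2, n3, n4, n5⟩, ⟨n6, n7, n8, n9, n10, n11⟩, n12, n13, n14⟩ := nd_lo hO.nd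
  have hO' : OkT K L A (x' :: B) q g x' := ⟨n1, by simp⟩
  have p1 : Gd ((p, q) :: (x, x') :: (K ++ L)) := hO.gdq.perm ((perm_lo K L _).cons _)
  have p2 : Gd ((p, g) :: (x, x') :: (K ++ L)) := hO.gdg.perm ((perm_lo K L _).cons _)
  have hχ : chw L x = chw L p := by
    unfold chw
    rw [if_neg n12, if_neg n13]
  unfold WT WR WG
  rw [a1, a2, ll_lo, Wp_smul, Wp_smul, Wp_perm (nuw_neg ω) hO.gdq (perm_lo K L _),
    Wp_perm (nuw_neg ω) hO.gdg (perm_lo K L _), mul_add]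
  congr 2
  · refine node_oI (χ := chw L) (sRq _ _ _ _ _) (sL _ _ _ _) hO'.disjR p1 ?_ ?_ n3 n5 hχ
    · rw [Set.mem_insert_iff, not_or]
      exact ⟨n6, n2⟩
    · rw [Set.mem_insert_iff, not_or]
      exact ⟨n8, n4⟩
  · refine node_oI (χ := chw L) (sR _ _ _ _) (sLg _ _ _ _ _) hO'.disjL p2 n2 n4 ?_ ?_ hχ
    · rw [Set.mem_insert_iff, not_or]
      exact ⟨n7, n3⟩
    · rw [Set.mem_insert_iff, not_or]
      exact ⟨n9, n5⟩

/-- **Lower node, empty line.** -/
theorem WT_lo_e (hO : OkT (K ++ [(x, x')]) L (p :: A) B q g m) (hm : m ∈ A ++ B)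
    (hs : Spr (K ++ [(x, x')]) L (p :: A) B q g c d) (hz : z p = z x - 3 * lam)
    (h1 : Gz (fun i => -z i) (p :: lr K L A)) (h2 : Gz (fun i => -z i) (x :: lr K L A)) :
    WT ω z (K ++ [(x, x')]) L (p :: A) B q g m =
      crf (fun i => -z i) x p (lr K L A).toFinset * WT ω z K L A (x' :: B) q g m := by
  obtain ⟨a1, a2⟩ := cross_lo hO hs hz h1 h2
  obtain ⟨n1, ⟨n2, n3, n4, n5⟩, ⟨n6, n7, n8, n9, n10, n11⟩, n12, n13, n14⟩ := nd_lo hO.nd
  have hO' : OkT K L A (x' :: B) q g m := ⟨n1, by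
    simp only [List.mem_append, List.mem_cons] at hm ⊢
    tauto⟩
  have hpm : p ≠ m := by
    rintro rfl
    have h := hO.nd
    unfold sites at h
    simp only [List.nodup_append, List.nodup_cons, List.map_append, List.mem_append, List.mem_cons,
      List.cons_append] at h hm
    grind
  have p1 : Gd ((m, q) :: (x, x') :: (K ++ L)) := hO.gdq.perm ((perm_lo K L _).cons _)
  have p2 : Gd ((m, g) :: (x, x') :: (K ++ L)) := hO.gdg.perm ((perm_lo K L _).cons _)
  unfold WT WR WG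
  rw [a1, a2, ll_lo, Wp_smul, Wp_smul, Wp_perm (nuw_neg ω) hO.gdq (perm_lo K L _),
    Wp_perm (nuw_neg ω) hO.gdg (perm_lo K L _), mul_add]
  congr 2
  · refine node_e (nuw_neg ω) (nuw_zero ω) (sRq _ _ _ _ _) (sL _ _ _ _) hO'.disjR p1 hpm n6 n10 n11 n14
      ?_ ?_ n3 n5
    · rw [Set.mem_insert_iff, not_or]
      exact ⟨n6, n2⟩
    · rw [Set.mem_insert_iff, not_or]
      exact ⟨n8, n4⟩
  · refine node_e (nuw_neg ω) (nuw_zero ω) (sR _ _ _ _) (sLg _ _ _ _ _) hO'.disjL p2 hpm n7 n10 n11 n14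
      n2 n4 ?_ ?_
    · rw [Set.mem_insert_iff, not_or]
      exact ⟨n7, n3⟩
    · rw [Set.mem_insert_iff, not_or]
      exact ⟨n9, n5⟩

/-- the labels without the line `x` -/
theorem chw_hi {S S' : Set ι} {V V' : Fnl ι} (hV : SupS S V) (hV' : SupS S' V') (hd : Disjoint S S')
    (hx : x ∉ S) (hx' : x ∉ S') (k m : ι) (M : List (ι × ι)) :
    Wp (nuw ω) (ce (chw ((x, x') :: L)) k) V V' m k M = Wp (nuw ω) (chX L k) V V' m k M := by
  refine Wp_chi hV hV' hd (fun y hy => ?_) _ _ _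
  have hyx : y ≠ x := by
    rintro rfl
    rcases hy with hy | hy
    · exact hx hy
    · exact hx' hy
  unfold ce chX
  rw [Pi.add_apply, Pi.add_apply]
  have e : chw ((x, x') :: L) y = chw L y := by
    unfold chw
    have h2 : y ∈ ((x, x') :: L).map Prod.fst ↔ y ∈ L.map Prod.fst := by
      rw [List.map_cons, List.mem_cons]
      exact ⟨fun h => h.resolve_left hyx, Or.inr⟩
    by_cases h : y ∈ L.map Prod.fst
    · rw [if_pos h, if_pos (h2.2 h)]
    · rw [if_neg h, if_neg fun hh => h (h2.1 hh)]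
  rw [e]

/-- **Upper node, occupied line.** -/
theorem WT_hi_o (hω : ω ≠ 0) (hO : OkT K ((x, x') :: L) (A ++ [p]) B q g p)
    (hs : Spr K ((x, x') :: L) (A ++ [p]) B q g c d) (hz : z p = z x + 3 * lam)
    (h1 : Gz (fun i => -z i) (p :: lr K L A)) (h2 : Gz (fun i => -z i) (x :: lr K L A)) :
    WT ω z K ((x, x') :: L) (A ++ [p]) B q g p =
      crf (fun i => -z i) p x (lr K L A).toFinset * (ω * WT ω z K L A (B ++ [x']) q g x') := by
  obtain ⟨a1, a2⟩ := cross_hi hO hs hz h1 h2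
  obtain ⟨n1, ⟨n2, n3, n4, n5⟩, ⟨n6, n7, n8, n9, n10, n11⟩, n12, n13, n14⟩ := nd_hi hO.nd
  have hO' : OkT K L A (B ++ [x']) q g x' := ⟨n1, by simp⟩
  have p1 : Gd ((p, q) :: (x, x') :: (K ++ L)) := hO.gdq.perm ((perm_hi K L _).cons _)
  have p2 : Gd ((p, g) :: (x, x') :: (K ++ L)) := hO.gdg.perm ((perm_hi K L _).cons _)
  have hχ : chw ((x, x') :: L) x = chw ((x, x') :: L) p + 1 := by
    unfold chw
    rw [if_pos (by simp), if_neg (by
      rw [List.map_cons, List.mem_cons, not_or]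
      exact ⟨n10, n13⟩)]
    rfl
  unfold WT WR WG
  rw [a1, a2, ll_hi, Wp_smul, Wp_smul, Wp_perm (nuw_neg ω) hO.gdq (perm_hi K L _),
    Wp_perm (nuw_neg ω) hO.gdg (perm_hi K L _), mul_add ω, mul_add]
  congr 2
  · have hq : q ∉ SR K L A := by
      have := hO'.outR.1
      exact this
    have i1 : p ∉ insert q (SR K L A) := by
      rw [Set.mem_insert_iff, not_or]
      exact ⟨n6, n2⟩
    have i2 : x ∉ insert q (SR K L A) := by
      rw [Set.mem_insert_iff, not_or]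
      exact ⟨n8, n4⟩
    have h := node_oJ (χ := chw ((x, x') :: L)) hω (sRq (fun i => -z i) K L A q)
      (sL z K L (B ++ [x'])) hO'.disjR p1 i1 i2 n3 n5 hχ
    rw [chw_hi (sRq _ _ _ _ _) (sL _ _ _ _) hO'.disjR i2 n5] at h
    exact h
  · have i1 : p ∉ insert g (SL K L (B ++ [x'])) := by
      rw [Set.mem_insert_iff, not_or]
      exact ⟨n7, n3⟩
    have i2 : x ∉ insert g (SL K L (B ++ [x'])) := by
      rw [Set.mem_insert_iff, not_or]
      exact ⟨n9, n5⟩
    have h := node_oJ (χ := chw ((x, x') :: L)) hω (sR (fun i => -z i) K L A)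
      (sLg z K L (B ++ [x']) g) hO'.disjL p2 n2 n4 i1 i2 hχ
    rw [chw_hi (sR _ _ _ _) (sLg _ _ _ _ _) hO'.disjL n4 i2] at h
    exact h

/-- **Upper node, empty line.** -/
theorem WT_hi_e (hO : OkT K ((x, x') :: L) (A ++ [p]) B q g m) (hm : m ∈ A ++ B)
    (hs : Spr K ((x, x') :: L) (A ++ [p]) B q g c d) (hz : z p = z x + 3 * lam)
    (h1 : Gz (fun i => -z i) (p :: lr K L A)) (h2 : Gz (fun i => -z i) (x :: lr K L A)) :
    WT ω z K ((x, x') :: L) (A ++ [p]) B q g m =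
      crf (fun i => -z i) p x (lr K L A).toFinset * WT ω z K L A (B ++ [x']) q g m := by
  obtain ⟨a1, a2⟩ := cross_hi hO hs hz h1 h2
  obtain ⟨n1, ⟨n2, n3, n4, n5⟩, ⟨n6, n7, n8, n9, n10, n11⟩, n12, n13, n14⟩ := nd_hi hO.nd
  have hO' : OkT K L A (B ++ [x']) q g m := ⟨n1, by
    simp only [List.mem_append, List.mem_cons] at hm ⊢
    tauto⟩
  have hpm : p ≠ m := by
    rintro rfl
    have h := hO.nd
    unfold sites at h
    simp only [List.nodup_append, List.nodup_cons, List.map_append, List.mem_append, List.mem_cons,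
      List.cons_append] at h hm
    grind
  have p1 : Gd ((m, q) :: (x, x') :: (K ++ L)) := hO.gdq.perm ((perm_hi K L _).cons _)
  have p2 : Gd ((m, g) :: (x, x') :: (K ++ L)) := hO.gdg.perm ((perm_hi K L _).cons _)
  unfold WT WR WG
  rw [a1, a2, ll_hi, Wp_smul, Wp_smul, Wp_perm (nuw_neg ω) hO.gdq (perm_hi K L _),
    Wp_perm (nuw_neg ω) hO.gdg (perm_hi K L _), mul_add]
  congr 2
  · have i1 : p ∉ insert q (SR K L A) := by
      rw [Set.mem_insert_iff, not_or]
      exact ⟨n6, n2⟩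
    have i2 : x ∉ insert q (SR K L A) := by
      rw [Set.mem_insert_iff, not_or]
      exact ⟨n8, n4⟩
    have h := node_e (χ := ce (chw ((x, x') :: L)) q) (nuw_neg ω) (nuw_zero ω)
      (sRq (fun i => -z i) K L A q) (sL z K L (B ++ [x'])) hO'.disjR p1 hpm n6 n10 n11 n14 i1 i2 n3 n5
    rw [chw_hi (sRq _ _ _ _ _) (sL _ _ _ _) hO'.disjR i2 n5] at h
    exact h
  · have i1 : p ∉ insert g (SL K L (B ++ [x'])) := by
      rw [Set.mem_insert_iff, not_or]
      exact ⟨n7, n3⟩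
    have i2 : x ∉ insert g (SL K L (B ++ [x'])) := by
      rw [Set.mem_insert_iff, not_or]
      exact ⟨n9, n5⟩
    have h := node_e (χ := ce (chw ((x, x') :: L)) g) (nuw_neg ω) (nuw_zero ω)
      (sR (fun i => -z i) K L A) (sLg z K L (B ++ [x']) g) hO'.disjL p2 hpm n7 n10 n11 n14 n2 n4 i1 i2
    rw [chw_hi (sR _ _ _ _) (sLg _ _ _ _ _) hO'.disjL n4 i2] at h
    exact h

end node

/-! ### Empty lines of the left half strip -/

section gd

variable {ι : Type*}

theorem gd_swp {L : List (ι × ι)} (h : Gd L) : Gd (L.map Prod.swap) := by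
  unfold Gd at h ⊢
  rw [List.map_map, List.map_map]
  have e1 : (Prod.fst ∘ Prod.swap : ι × ι → ι) = Prod.snd := rfl
  have e2 : (Prod.snd ∘ Prod.swap : ι × ι → ι) = Prod.fst := rfl
  rw [e1, e2]
  exact (List.perm_append_comm.nodup_iff).1 h

/-- The pairs in the other order. -/
theorem gd_swt {m q x x' : ι} {L : List (ι × ι)} (h : Gd ((m, q) :: (x, x') :: L)) :
    Gd ((m, q) :: (x', x) :: L.map Prod.swap) := by
  obtain ⟨e1, e2, e3⟩ := Gd_cons.1 h
  obtain ⟨e4, e5, e6⟩ := Gd_cons.1 e3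
  rw [Gd_cons, Gd_cons]
  simp only at e1 e4 ⊢
  refine ⟨e1, ?_, Ne.symm e4, ?_, gd_swp e6⟩
  · intro t ht
    rcases List.mem_cons.1 ht with rfl | ht
    · have := e2 (x, x') (by simp)
      exact ⟨this.2.1, this.1, this.2.2.2, this.2.2.1⟩
    · obtain ⟨s, hs, rfl⟩ := List.mem_map.1 ht
      have := e2 s (by simp [hs])
      exact ⟨this.2.1, this.1, this.2.2.2, this.2.2.1⟩
  · intro t ht
    obtain ⟨s, hs, rfl⟩ := List.mem_map.1 ht
    have := e5 s hs
    exact ⟨this.2.2.2, this.2.2.1, this.2.1, this.1⟩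

end gd

section chie

variable {Γ ι : Type*} [AddCommGroup Γ] [DecidableEq ι] {ν : Γ → ℂ} {S S' : Set ι} {V V' : Fnl ι}

/-- The label of an empty site does not matter. -/
theorem Wp_chi_e (hV : SupS S V) (hV' : SupS S' V') (hd : Disjoint S S') {χ χ' : ι → Γ} {x m q : ι}
    {L : List (ι × ι)} (h1 : x ≠ m) (h2 : x ≠ q) (h3 : ∀ t ∈ L, x ≠ t.1 ∧ x ≠ t.2)
    (h : ∀ y, y ≠ x → χ y = χ' y) : Wp ν χ V V' m q L = Wp ν χ' V V' m q L := by
  have hz : ∀ P : LPat Γ ι, P x ≠ x → Gf ν m q L P = 0 := by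
    intro P hP
    have h4 : oo ν x (Gf ν m q L) P = Gf ν m q L P := by rw [oo_apply, if_neg hP]
    have h5 : oo ν x (Gf ν m q L) = 0 := by
      show Gf ν m q L - (cops ν).E x (Gf ν m q L) = 0
      rw [E_Gf h1 h2 h3, sub_self]
    rw [← h4, h5]
    rfl
  unfold Wp
  rw [pr_apply, pr_apply]
  refine hV.congr fun p hp => hV'.congr fun r hr => ?_
  have hD := dj_of_sup hd hp hr
  show Gf ν m q L (LPat.gau χ (ofP Γ (un p r))) = Gf ν m q L (LPat.gau χ' (ofP Γ (un p r)))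
  by_cases hxx : un p r x = x
  · congr 1
    refine gau_congr fun y => ?_
    show χ y - χ (un p r y) = χ' y - χ' (un p r y)
    by_cases hy : y = x
    · rw [hy, hxx, sub_self, sub_self]
    · have h6 : un p r y ≠ x := by
        intro e
        have h7 : un p r (un p r y) = y := (un p r).inv y
        rw [e, hxx] at h7
        exact hy h7.symm
      rw [h y hy, h _ h6]
  · rw [hz _ hxx, hz _ hxx]

end chie

section nodeL

variable {ι : Type*} [DecidableEq ι] [Finite ι] {ω : ℂ} {z : ι → ℂ} {K L : List (ι × ι)} {A B : List ι}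
  {x x' p q g m c d : ι}

/-- The sites after a node on the left, lower line. -/
theorem ndL_lo (h : (sites (K ++ [(x, x')]) L A (p :: B) q g).Nodup) :
    (sites K L (x :: A) B q g).Nodup ∧
    (p ∉ ll K L B ∧ p ∉ lr K L (x :: A) ∧ x' ∉ ll K L B ∧ x' ∉ lr K L (x :: A)) ∧
    (p ≠ q ∧ p ≠ g ∧ x' ≠ q ∧ x' ≠ g ∧ p ≠ x ∧ p ≠ x') ∧ ∀ t ∈ K ++ L, p ≠ t.1 ∧ p ≠ t.2 := by
  unfold sites at h ⊢
  unfold lr ll
  simp only [List.nodup_append, List.nodup_cons, List.map_append, List.mem_append, List.mem_cons,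
    List.map_cons, List.map_nil, List.not_mem_nil, or_false] at h ⊢
  refine ⟨?_, ?_, ?_, ?_⟩
  all_goals grind

/-- The sites after a node on the left, upper line. -/
theorem ndL_hi (h : (sites K ((x, x') :: L) A (B ++ [p]) q g).Nodup) :
    (sites K L (A ++ [x]) B q g).Nodup ∧
    (p ∉ ll K L B ∧ p ∉ lr K L (A ++ [x]) ∧ x' ∉ ll K L B ∧ x' ∉ lr K L (A ++ [x])) ∧
    (p ≠ q ∧ p ≠ g ∧ x' ≠ q ∧ x' ≠ g ∧ p ≠ x ∧ p ≠ x') ∧
    (∀ t ∈ K ++ L, p ≠ t.1 ∧ p ≠ t.2) ∧ (x ≠ q ∧ x ≠ g ∧ ∀ t ∈ K ++ L, x ≠ t.1 ∧ x ≠ t.2) := by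
  unfold sites at h ⊢
  unfold lr ll
  simp only [List.nodup_append, List.nodup_cons, List.map_append, List.mem_append, List.mem_cons,
    List.map_cons, List.map_nil, List.not_mem_nil, or_false] at h ⊢
  refine ⟨?_, ?_, ?_, ?_, ?_⟩
  all_goals grind

/-- The functionals of the left side at the lower node. -/
theorem crossL_lo (hO : OkT (K ++ [(x, x')]) L A (p :: B) q g m)
    (hs : Spr (K ++ [(x, x')]) L A (p :: B) q g c d) (hz : z p = z x' + 3 * lam)
    (h1 : Gz z (p :: ll K L B)) (h2 : Gz z (x' :: ll K L B)) :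
    PH z (ll (K ++ [(x, x')]) L (p :: B)) =
      crf z x' p (ll K L B).toFinset • (PH z (ll K L B) ∘ₗ uops.U x' p) ∧
    PS z g (ll (K ++ [(x, x')]) L (p :: B)) =
      crf z x' p (ll K L B).toFinset • (PS z g (ll K L B) ∘ₗ uops.U x' p) := by
  have n1 := hO.ndL
  have n2 := List.nodup_cons.2 ⟨hO.outL.2.1, n1⟩
  have c1 := hs.hL0
  have c2 := hs.hL
  rw [ll_lo'] at n1 n2 c1 c2 ⊢
  have hz' : z x' = z p - 3 * lam := by rw [hz]; ring
  exact ⟨PH_crossA _ _ n1 c1.1 c1.2 hs.ne hz' h1 h2, PS_crossA _ _ n2 c2.1 c2.2 hs.ne hz' h1 h2⟩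

/-- The functionals of the left side at the upper node. -/
theorem crossL_hi (hO : OkT K ((x, x') :: L) A (B ++ [p]) q g m)
    (hs : Spr K ((x, x') :: L) A (B ++ [p]) q g c d) (hz : z p = z x' - 3 * lam)
    (h1 : Gz z (p :: ll K L B)) (h2 : Gz z (x' :: ll K L B)) :
    PH z (ll K ((x, x') :: L) (B ++ [p])) =
      crf z p x' (ll K L B).toFinset • (PH z (ll K L B) ∘ₗ uops.U x' p) ∧
    PS z g (ll K ((x, x') :: L) (B ++ [p])) =
      crf z p x' (ll K L B).toFinset • (PS z g (ll K L B) ∘ₗ uops.U x' p) := by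
  have n1 := hO.ndL
  have n2 := List.nodup_cons.2 ⟨hO.outL.2.1, n1⟩
  have c1 := hs.hL0
  have c2 := hs.hL
  rw [ll_hi''] at n1 n2 c1 c2 ⊢
  have e : ll K L B = (K.map Prod.snd ++ B) ++ L.map Prod.snd := by
    unfold ll
    rw [List.append_assoc]
  rw [e] at h1 h2 ⊢
  rw [uops_Us x' p]
  exact ⟨PH_crossA _ _ n1 c1.1 c1.2 hs.ne hz h2 h1, PS_crossA _ _ n2 c2.1 c2.2 hs.ne hz h2 h1⟩

/-- One empty site of the left side joined to a full line. -/
theorem node_eL {S S' : Set ι} {V V' : Fnl ι} {χ : ι → ℤ × ℤ} {L : List (ι × ι)}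
    (hV : SupS S V) (hV' : SupS S' V') (hd : Disjoint S S')
    (hL : Gd ((m, q) :: (x, x') :: L)) (h1 : p ≠ m) (h2 : p ≠ q) (h3 : p ≠ x) (h4 : p ≠ x')
    (h5 : ∀ t ∈ L, p ≠ t.1 ∧ p ≠ t.2) (hp : p ∉ S') (hx : x' ∉ S') (hp' : p ∉ S) (hx' : x' ∉ S) :
    Wp (nuw ω) χ V (V' ∘ₗ uops.U x' p) m q ((x, x') :: L) = Wp (nuw ω) χ V V' m q L := by
  have h5' : ∀ t ∈ L.map Prod.swap, p ≠ t.1 ∧ p ≠ t.2 := by
    intro t ht
    obtain ⟨s, hs, rfl⟩ := List.mem_map.1 ht
    exact ⟨(h5 s hs).2, (h5 s hs).1⟩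
  have k1 := node_e (ν := nuw ω) (χ := χ) (nuw_neg ω) (nuw_zero ω) hV' hV hd.symm (gd_swt hL) h1 h2
    h4 h3 h5' hp hx hp' hx'
  have sU : SupS (insert x' (insert p S')) (V' ∘ₗ uops.U x' p) := by
    have s1 : SupS (insert x' (insert p S')) V' := supS_mono hV' fun y hy => Or.inr (Or.inr hy)
    exact s1.comp (On.cU (T := insert x' (insert p S')) (Or.inl rfl) (Or.inr (Or.inl rfl)))
  have dU : Disjoint S (insert x' (insert p S')) := by
    rw [Set.disjoint_insert_right, Set.disjoint_insert_right]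
    exact ⟨hx', hp', hd⟩
  rw [Wp_swap (nuw_neg ω) (nuw_zero ω) hV sU dU, List.map_cons, Prod.swap_prod_mk, k1,
    ← Wp_swap (nuw_neg ω) (nuw_zero ω) hV hV' hd]

/-- **Lower node of the left half strip.** -/
theorem WTL_lo (hO : OkT (K ++ [(x, x')]) L A (p :: B) q g m) (hm : m ∈ A ++ B)
    (hs : Spr (K ++ [(x, x')]) L A (p :: B) q g c d) (hz : z p = z x' + 3 * lam)
    (h1 : Gz z (p :: ll K L B)) (h2 : Gz z (x' :: ll K L B)) :
    WT ω z (K ++ [(x, x')]) L A (p :: B) q g m =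
      crf z x' p (ll K L B).toFinset * WT ω z K L (x :: A) B q g m := by
  obtain ⟨a1, a2⟩ := crossL_lo hO hs hz h1 h2
  obtain ⟨n1, ⟨n2, n3, n4, n5⟩, ⟨n6, n7, n8, n9, n10, n11⟩, n12⟩ := ndL_lo hO.nd
  have hO' : OkT K L (x :: A) B q g m := ⟨n1, by
    simp only [List.mem_append, List.mem_cons] at hm ⊢
    tauto⟩
  have hpm : p ≠ m := by
    rintro rfl
    have h := hO.nd
    unfold sites at h
    simp only [List.nodup_append, List.nodup_cons, List.map_append, List.mem_append, List.mem_cons,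
      List.cons_append] at h hm
    grind
  have p1 : Gd ((m, q) :: (x, x') :: (K ++ L)) := hO.gdq.perm ((perm_lo K L _).cons _)
  have p2 : Gd ((m, g) :: (x, x') :: (K ++ L)) := hO.gdg.perm ((perm_lo K L _).cons _)
  unfold WT WR WG
  rw [a1, a2, lr_lo', Wp_smul', Wp_smul', Wp_perm (nuw_neg ω) hO.gdq (perm_lo K L _),
    Wp_perm (nuw_neg ω) hO.gdg (perm_lo K L _), mul_add]
  congr 2
  · refine node_eL (sRq _ _ _ _ _) (sL _ _ _ _) hO'.disjR p1 hpm n6 n10 n11 n12 n2 n4 ?_ ?_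
    · rw [Set.mem_insert_iff, not_or]
      exact ⟨n6, n3⟩
    · rw [Set.mem_insert_iff, not_or]
      exact ⟨n8, n5⟩
  · refine node_eL (sR _ _ _ _) (sLg _ _ _ _ _) hO'.disjL p2 hpm n7 n10 n11 n12 ?_ ?_ n3 n5
    · rw [Set.mem_insert_iff, not_or]
      exact ⟨n7, n2⟩
    · rw [Set.mem_insert_iff, not_or]
      exact ⟨n9, n4⟩

/-- The labels without the line `x`. -/
theorem chX_ne' (k y : ι) (hy : y ≠ x) : chX ((x, x') :: L) k y = chX L k y := by
  unfold chX
  rw [Pi.add_apply, Pi.add_apply]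
  have e : chw ((x, x') :: L) y = chw L y := by
    unfold chw
    have h2 : y ∈ ((x, x') :: L).map Prod.fst ↔ y ∈ L.map Prod.fst := by
      rw [List.map_cons, List.mem_cons]
      exact ⟨fun h => h.resolve_left hy, Or.inr⟩
    by_cases h : y ∈ L.map Prod.fst
    · rw [if_pos h, if_pos (h2.2 h)]
    · rw [if_neg h, if_neg fun hh => h (h2.1 hh)]
  rw [e]

/-- **Upper node of the left half strip.** -/
theorem WTL_hi (hO : OkT K ((x, x') :: L) A (B ++ [p]) q g m) (hm : m ∈ A ++ B)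
    (hs : Spr K ((x, x') :: L) A (B ++ [p]) q g c d) (hz : z p = z x' - 3 * lam)
    (h1 : Gz z (p :: ll K L B)) (h2 : Gz z (x' :: ll K L B)) :
    WT ω z K ((x, x') :: L) A (B ++ [p]) q g m =
      crf z p x' (ll K L B).toFinset * WT ω z K L (A ++ [x]) B q g m := by
  obtain ⟨a1, a2⟩ := crossL_hi hO hs hz h1 h2
  obtain ⟨n1, ⟨n2, n3, n4, n5⟩, ⟨n6, n7, n8, n9, n10, n11⟩, n12, n13, n14, n15⟩ := ndL_hi hO.nd
  have hO' : OkT K L (A ++ [x]) B q g m := ⟨n1, by
    simp only [List.mem_append, List.mem_cons] at hm ⊢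
    tauto⟩
  have hpm : p ≠ m := by
    rintro rfl
    have h := hO.nd
    unfold sites at h
    simp only [List.nodup_append, List.nodup_cons, List.map_append, List.mem_append, List.mem_cons,
      List.cons_append] at h hm
    grind
  have hxm : x ≠ m := by
    rintro rfl
    have h := hO.nd
    unfold sites at h
    simp only [List.nodup_append, List.nodup_cons, List.map_append, List.mem_append, List.mem_cons,
      List.cons_append, List.map_cons] at h hm
    grind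
  have p1 : Gd ((m, q) :: (x, x') :: (K ++ L)) := hO.gdq.perm ((perm_hi K L _).cons _)
  have p2 : Gd ((m, g) :: (x, x') :: (K ++ L)) := hO.gdg.perm ((perm_hi K L _).cons _)
  unfold WT WR WG
  rw [a1, a2, lr_hi', Wp_smul', Wp_smul', Wp_perm (nuw_neg ω) hO.gdq (perm_hi K L _),
    Wp_perm (nuw_neg ω) hO.gdg (perm_hi K L _), mul_add]
  congr 2
  · rw [node_eL (sRq _ _ _ _ _) (sL _ _ _ _) hO'.disjR p1 hpm n6 n10 n11 n12 n2 n4
      (by
        rw [Set.mem_insert_iff, not_or]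
        exact ⟨n6, n3⟩)
      (by
        rw [Set.mem_insert_iff, not_or]
        exact ⟨n8, n5⟩)]
    exact Wp_chi_e (sRq _ _ _ _ _) (sL _ _ _ _) hO'.disjR hxm n13 n15 fun y hy => chX_ne' _ _ hy
  · rw [node_eL (sR _ _ _ _) (sLg _ _ _ _ _) hO'.disjL p2 hpm n7 n10 n11 n12
      (by
        rw [Set.mem_insert_iff, not_or]
        exact ⟨n7, n2⟩)
      (by
        rw [Set.mem_insert_iff, not_or]
        exact ⟨n9, n4⟩) n3 n5]
    exact Wp_chi_e (sR _ _ _ _) (sLg _ _ _ _ _) hO'.disjL hxm n14 n15 fun y hy => chX_ne' _ _ hy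

end nodeL

/-! ### Zero and fusion of two ended lines -/

section fus

variable {ι : Type*} [DecidableEq ι] [Finite ι] {ω : ℂ} {z z' : ι → ℂ} {K L : List (ι × ι)}
  {A B : List ι} {a b q g m c d : ι}

omit [DecidableEq ι] [Finite ι] in
theorem lr_ab : lr K L [a, b] = K.map Prod.fst ++ a :: b :: L.map Prod.fst := by
  unfold lr
  simp

omit [DecidableEq ι] [Finite ι] in
theorem lr_b : lr K L [b] = K.map Prod.fst ++ b :: L.map Prod.fst := by
  unfold lr
  simp

omit [DecidableEq ι] [Finite ι] in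
theorem lr_nil : lr K L [] = K.map Prod.fst ++ L.map Prod.fst := by
  unfold lr
  simp

omit [DecidableEq ι] [Finite ι] in
/-- The sites of two ended lines of the right half strip. -/
theorem ab_nd (h : (sites K L [a, b] B q g).Nodup) :
    (sites K L [b] B q g).Nodup ∧ (a ≠ b ∧ a ≠ q ∧ a ≠ g ∧ b ≠ q ∧ b ≠ g) ∧
    (∀ t ∈ K ++ L, a ≠ t.1 ∧ a ≠ t.2) ∧ (a ∉ ll K L B ∧ b ∉ ll K L B) ∧
    (a ∉ L.map Prod.fst ∧ b ∉ L.map Prod.fst) ∧ a ∉ lr K L [] ∧ b ∉ lr K L [] := by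
  unfold sites at h ⊢
  unfold lr ll
  simp only [List.nodup_append, List.nodup_cons, List.map_append, List.mem_append, List.mem_cons,
    List.map_cons, List.map_nil, List.not_mem_nil, or_false, false_or] at h ⊢
  refine ⟨?_, ?_, ?_, ?_, ?_, ?_⟩
  all_goals grind

/-- **Zero**: empty below occupied, `z a = z b + 3 λ`. -/
theorem WT_zero (hO : OkT K L [a, b] B q g b) (hs : Spr K L [a, b] B q g c d)
    (hz : z a = z b + 3 * lam) (h1 : Gz (fun i => -z i) (b :: lr K L []))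
    (h2 : Gz (fun i => -z i) (a :: lr K L [])) : WT ω z K L [a, b] B q g b = 0 := by
  obtain ⟨n1, ⟨n2, n3, n4, n5, n6⟩, n7, ⟨n8, n9⟩, n10, n11, n12⟩ := ab_nd hO.nd
  have k1 := hO.ndR
  have k2 := List.nodup_cons.2 ⟨hO.outR.1, k1⟩
  have c1 := hs.hR0
  have c2 := hs.hR
  have d1 := hO.disjR
  have d2 := hO.disjL
  rw [lr_nil] at h1 h2
  have hz' : -z a = -z b - 3 * lam := by rw [hz]; ring
  have e1 : PH (fun i => -z i) (lr K L [a, b]) = crf (fun i => -z i) a b (lr K L []).toFinset •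
      (PH (fun i => -z i) (lr K L []) ∘ₗ uops.U a b) := by
    rw [lr_ab] at k1 c1 ⊢
    rw [lr_nil]
    exact PH_crossA (z := fun i => -z i) _ _ k1 c1.1 c1.2 hs.ne hz' h1 h2
  have e2 : PS (fun i => -z i) q (lr K L [a, b]) = crf (fun i => -z i) a b (lr K L []).toFinset •
      (PS (fun i => -z i) q (lr K L []) ∘ₗ uops.U a b) := by
    rw [lr_ab] at k2 c2 ⊢
    rw [lr_nil]
    exact PS_crossA (z := fun i => -z i) _ _ k2 c2.1 c2.2 hs.ne hz' h1 h2
  have f1 : Disjoint (insert q (SR K L [])) (SL K L B) := by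
    refine Set.disjoint_of_subset_left ?_ d1
    intro y hy
    rcases hy with hy | hy
    · exact Or.inl hy
    · refine Or.inr ?_
      show y ∈ lr K L [a, b]
      have hy' : y ∈ lr K L [] := hy
      unfold lr at hy' ⊢
      simp only [List.mem_append, List.nil_append] at hy' ⊢
      tauto
  have f2 : Disjoint (SR K L []) (insert g (SL K L B)) := by
    refine Set.disjoint_of_subset_left ?_ d2
    intro y hy
    show y ∈ lr K L [a, b]
    have hy' : y ∈ lr K L [] := hy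
    unfold lr at hy' ⊢
    simp only [List.mem_append, List.nil_append] at hy' ⊢
    tauto
  unfold WT WR WG
  rw [e1, e2, Wp_smul, Wp_smul,
    node_z (ν := nuw ω) (nuw_neg ω) (nuw_zero ω) (sRq _ _ _ _ _) (sL _ _ _ _) f1 n2 n3 n7 n8 n9,
    node_z (ν := nuw ω) (nuw_neg ω) (nuw_zero ω) (sR _ _ _ _) (sLg _ _ _ _ _) f2 n2 n4 n7
      (by
        rw [Set.mem_insert_iff, not_or]
        exact ⟨n4, n8⟩)
      (by
        rw [Set.mem_insert_iff, not_or]
        exact ⟨n6, n9⟩)]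
  simp

/-- **Fusion**: empty below occupied, `z a = z b + 2 λ`. -/
theorem WT_fus (hO : OkT K L [a, b] B q g b) (hs : Spr K L [a, b] B q g c d)
    (hz : z a = z b + 2 * lam) (hz' : z' b = z b + lam) (hY : ∀ y, y ≠ b → z' y = z y)
    (h1 : Gz (fun i => -z i) (b :: lr K L [])) (h2 : Gz (fun i => -z i) (a :: lr K L []))
    (h3 : Gz (fun i => -z' i) (b :: lr K L [])) :
    WT ω z K L [a, b] B q g b = fuf (-z' b) (fun i => -z i) (lr K L []).toFinset *
      (EXL.xh * WT ω z' K L [b] B q g b) := by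
  obtain ⟨n1, ⟨n2, n3, n4, n5, n6⟩, n7, ⟨n8, n9⟩, ⟨n10, n10'⟩, n11, n12⟩ := ab_nd hO.nd
  have hO' : OkT K L [b] B q g b := ⟨n1, by simp⟩
  have k1 := hO.ndR
  have k2 := List.nodup_cons.2 ⟨hO.outR.1, k1⟩
  have c1 := hs.hR0
  have c2 := hs.hR
  have d1 := hO'.disjR
  have d2 := hO'.disjL
  have hb : ∀ y ∈ lr K L [], z' y = z y := fun y hy => hY y fun e => n12 (e ▸ hy)
  rw [lr_nil] at h1 h2 h3 hb
  have hza : -z a = -z b - 2 * lam := by rw [hz]; ring
  have hzb : -z' b = -z b - lam := by rw [hz']; ring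
  have hb' : ∀ y ∈ K.map Prod.fst ++ L.map Prod.fst, -z' y = -z y := fun y hy => by rw [hb y hy]
  have e1 : PH (fun i => -z i) (lr K L [a, b]) =
      fuf (-z' b) (fun i => -z i) (lr K L []).toFinset •
        (PH (fun i => -z' i) (lr K L [b]) ∘ₗ uops.Y b a) := by
    rw [lr_ab] at k1 c1 ⊢
    rw [lr_nil, lr_b]
    exact PH_fuseA (z := fun i => -z i) (z' := fun i => -z' i) _ _ k1 c1.1 c1.2 hs.ne hza hzb hb'
      h1 h2 h3
  have e2 : PS (fun i => -z i) q (lr K L [a, b]) =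
      fuf (-z' b) (fun i => -z i) (lr K L []).toFinset •
        (PS (fun i => -z' i) q (lr K L [b]) ∘ₗ uops.Y b a) := by
    rw [lr_ab] at k2 c2 ⊢
    rw [lr_nil, lr_b]
    exact PS_fuseA (z := fun i => -z i) (z' := fun i => -z' i) _ _ k2 c2.1 c2.2 hs.ne hza hzb hb'
      h1 h2 h3
  have hl : ∀ y ∈ ll K L B, z y = z' y := fun y hy => (hY y fun e => n9 (e ▸ hy)).symm
  have e3 : PH z (ll K L B) = PH z' (ll K L B) := PH_congr hl
  have e4 : PS z g (ll K L B) = PS z' g (ll K L B) := PS_congr hl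
  have hb0 : b ∈ lr K L [b] := by
    unfold lr
    simp
  have ca : chw L a = 0 := if_neg n10
  have cb : chw L b = 0 := if_neg n10'
  have χq : chX L q b = chX L q a := by
    unfold chX
    rw [Pi.add_apply, Pi.add_apply, ca, cb, Pi.single_eq_of_ne n3, Pi.single_eq_of_ne n5]
  have χg : chX L g b = chX L g a := by
    unfold chX
    rw [Pi.add_apply, Pi.add_apply, ca, cb, Pi.single_eq_of_ne n4, Pi.single_eq_of_ne n6]
  unfold WT WR WG
  rw [e1, e2, e3, e4, Wp_smul, Wp_smul,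
    fus_o (ν := nuw ω) (nuw_neg ω) (nuw_zero ω) (sRq _ _ _ _ _) (sL _ _ _ _) d1 (Ne.symm n2) n3 n7
      (Or.inr hb0) n8 χq,
    fus_o (ν := nuw ω) (nuw_neg ω) (nuw_zero ω) (sR _ _ _ _) (sLg _ _ _ _ _) d2 (Ne.symm n2) n4 n7
      hb0
      (by
        rw [Set.mem_insert_iff, not_or]
        exact ⟨n4, n8⟩) χg]
  ring

end fus

end Pool.Agent.TC
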