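import Pool.Agent.TC.Can2
import Pool.Agent.TC.LineW
import Pool.Agent.TC.Const
import Pool.Agent.TC.DegS
import Pool.Agent.TC.Node
import Pool.Agent.TC.PolU
import Pool.Agent.TC.GoAt
import Pool.Agent.NUT2.Tp6

/-!
# The fields `polY`, `polYo` of the lattice family (helper69)
-/

set_option autoImplicit false

namespace Pool.Agent.TC.FY

open _root_.Pool.Agent.EXL _root_.Pool.Agent.EXL.Pat Polynomial
open _root_.Pool.Agent.EXL.Fm (lam)
open _root_.Pool.Agent.NUF _root_.Pool.Agent.NUU _root_.Pool.Agent.NUT2 _root_.Pool.Agent.NUTV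
open _root_.Pool.Agent.NUF.Fr (TP ee)
open Complex (I exp sin cos)

/-! ### The lists of lines -/

section can

variable {ω a b x t : ℂ} {K L I' J' : List ℂ} {v : Fin 6 → ℂ}

/-- the lines of the first half strip -/
theorem EL_lr {A : List (Fin 6)} (hK : ∀ a ∈ K, a ≠ 0) (hL : ∀ a ∈ L, a ≠ 0)
    (hA : ∀ j ∈ A, v j ≠ 0) :
    EL (zc K L v) (lr (Ic K.length L.length) (Jc K.length L.length) (A.map sc)) =
      K ++ (A.map v ++ L) := by
  unfold EL lr
  rw [List.map_append, List.map_append, map_Jc1 hL, map_Ic1 hK, _root_.Pool.Agent.NUT2.map_sc hA]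

/-- the lines of the second half strip -/
theorem EL_ll {B : List (Fin 6)} (hK : ∀ a ∈ K, a ≠ 0) (hL : ∀ a ∈ L, a ≠ 0)
    (hB : ∀ j ∈ B, v j ≠ 0) :
    EL (zc K L v) (ll (Ic K.length L.length) (Jc K.length L.length) (B.map sc)) =
      K ++ (B.map v ++ L) := by
  unfold EL ll
  rw [List.map_append, List.map_append, map_Jc2 hL, map_Ic2 hK, _root_.Pool.Agent.NUT2.map_sc hB]

theorem gt_lr {A : List (Fin 6)} (hG : _root_.TC.GC NUTP.th (A.map v ++ (K ++ L))) :
    GT (zc K L v) (lr (Ic K.length L.length) (Jc K.length L.length) (A.map sc)) := by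
  have h0 := gc_ne hG
  refine gt_of_gc ?_
  have e := EL_lr (K := K) (L := L) (v := v) (A := A) (fun a ha => h0 a (by simp [ha]))
    (fun a ha => h0 a (by simp [ha])) (fun j hj => h0 _ (by
      rw [List.mem_append]
      exact Or.inl (List.mem_map_of_mem hj)))
  unfold EL at e
  rw [e]
  refine _root_.TC.GC.perm NUTP.th8 ?_ hG
  rw [← List.append_assoc, ← List.append_assoc]
  exact List.perm_append_comm.append_right L

theorem gt_ll {B : List (Fin 6)} (hG : _root_.TC.GC NUTP.th (B.map v ++ (K ++ L))) :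
    GT (zc K L v) (ll (Ic K.length L.length) (Jc K.length L.length) (B.map sc)) := by
  have h0 := gc_ne hG
  refine gt_of_gc ?_
  have e := EL_ll (K := K) (L := L) (v := v) (B := B) (fun a ha => h0 a (by simp [ha]))
    (fun a ha => h0 a (by simp [ha])) (fun j hj => h0 _ (by
      rw [List.mem_append]
      exact Or.inl (List.mem_map_of_mem hj)))
  unfold EL at e
  rw [e]
  refine _root_.TC.GC.perm NUTP.th8 ?_ hG
  rw [← List.append_assoc, ← List.append_assoc]
  exact List.perm_append_comm.append_right L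

end can

/-! ### The polynomial of an ended line -/

section pol

variable {ι : Type*} [DecidableEq ι] [Finite ι] {ω : ℂ} {z : ι → ℂ} {K L : List (ι × ι)}
  {A1 A2 B : List ι} {q g m p c d : ι}

omit [DecidableEq ι] [Finite ι] in
theorem lr_split (K L : List (ι × ι)) (A1 A2 : List ι) (p : ι) :
    lr K L (A1 ++ p :: A2) = (K.map Prod.fst ++ A1) ++ p :: (A2 ++ L.map Prod.fst) := by
  unfold lr
  simp

omit [DecidableEq ι] [Finite ι] in
theorem lr_rest (K L : List (ι × ι)) (A1 A2 : List ι) :
    (K.map Prod.fst ++ A1) ++ (A2 ++ L.map Prod.fst) = lr K L (A1 ++ A2) := by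
  unfold lr
  simp

omit [DecidableEq ι] [Finite ι] in
theorem lr_len (K L : List (ι × ι)) (A : List ι) :
    (lr K L A).length = K.length + L.length + A.length := by
  unfold lr
  simp only [List.length_append, List.length_map]
  omega

omit [DecidableEq ι] [Finite ι] in
theorem spareR {A : List ι} (hc : c ∉ sites K L A B q g) : c ∉ lr K L A ∧ c ≠ q ∧ c ≠ g ∧
    c ∉ ll K L B := by
  unfold sites at hc
  unfold lr ll
  simp only [List.map_append, List.mem_append, List.mem_cons, not_or] at hc ⊢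
  tauto

/-- the functionals of the first half strip as functions of the line `p` -/
theorem LP_lr (hO : OkT K L (A1 ++ p :: A2) B q g m) (hc : c ∉ sites K L (A1 ++ p :: A2) B q g)
    (hd : d ∉ sites K L (A1 ++ p :: A2) B q g) (hcd : c ≠ d) (hG : Gk z (lr K L (A1 ++ A2))) :
    LP (fun w => PS w q (lr K L (A1 ++ p :: A2))) (fun i => -z i) (lr K L (A1 ++ p :: A2)) p
      (lr K L (A1 ++ A2)).length ∧
    LP (fun w => PH w (lr K L (A1 ++ p :: A2))) (fun i => -z i) (lr K L (A1 ++ p :: A2)) p
      (lr K L (A1 ++ A2)).length := by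
  have hn := hO.ndR
  have hq := hO.outR.1
  obtain ⟨c1, c2, -, -⟩ := spareR hc
  obtain ⟨d1, d2, -, -⟩ := spareR hd
  have hG' := gk_neg hG
  rw [lr_split] at hn hq c1 d1 ⊢
  rw [← lr_rest] at hG' ⊢
  rw [List.length_append]
  refine ⟨LP_PS (c := c) (d := d) (List.nodup_cons.2 ⟨hq, hn⟩) ?_ ?_ hcd hG',
    LP_PH (c := c) (d := d) hn c1 d1 hcd hG'⟩
  · simp only [List.mem_cons, not_or]
    exact ⟨c2, by simpa using c1⟩
  · simp only [List.mem_cons, not_or]
    exact ⟨d2, by simpa using d1⟩

/-- **The polynomial of an empty line of the first half strip.** -/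
theorem WT_polE (hO : OkT K L (A1 ++ p :: A2) B q g m) (hc : c ∉ sites K L (A1 ++ p :: A2) B q g)
    (hd : d ∉ sites K L (A1 ++ p :: A2) B q g) (hcd : c ≠ d) (hG : Gk z (lr K L (A1 ++ A2)))
    (hpm : p ≠ m) : ∃ P : ℂ[X],
      P.natDegree ≤ 2 * (K.length + L.length + (A1 ++ A2).length) ∧
      ∀ s, Go (fun i => -Function.update z p s i) (lr K L (A1 ++ p :: A2)) →
        exp (I * s) ^ (2 * (K.length + L.length + (A1 ++ A2).length)) *
          WT ω (Function.update z p s) K L (A1 ++ p :: A2) B q g m = P.eval (exp (I * s) ^ 2) := by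
  obtain ⟨h1, h2⟩ := LP_lr hO hc hd hcd hG
  obtain ⟨f, t1, e1⟩ := WT_E1 (ω := ω) (z := z) (fun w X => PH_supS w X) (fun w b X => PS_supS w b X)
    hO (by simp) hpm h1 h2
  obtain ⟨P, p1, p2⟩ := TP.toPol t1
  rw [lr_len] at p1 p2
  exact ⟨P, p1, fun s hs => by rw [e1 s hs, p2]⟩

/-- **The polynomial of the occupied line of the first half strip.** -/
theorem WT_polO (hO : OkT K L (A1 ++ p :: A2) B q g p) (hc : c ∉ sites K L (A1 ++ p :: A2) B q g)
    (hd : d ∉ sites K L (A1 ++ p :: A2) B q g) (hcd : c ≠ d) (hG : Gk z (lr K L (A1 ++ A2))) :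
    ∃ P : ℂ[X],
      P.natDegree ≤ 2 * (K.length + L.length + (A1 ++ A2).length) + 1 ∧
      ∀ s, Go (fun i => -Function.update z p s i) (lr K L (A1 ++ p :: A2)) →
        exp (I * s) ^ (2 * (K.length + L.length + (A1 ++ A2).length) + 1) *
          WT ω (Function.update z p s) K L (A1 ++ p :: A2) B q g p = P.eval (exp (I * s) ^ 2) := by
  obtain ⟨h1, h2⟩ := LP_lr hO hc hd hcd hG
  obtain ⟨f, t1, e1⟩ := WT_O1 (ω := ω) (z := z) (fun w X => PH_supS w X) (fun w b X => PS_supS w b X)
    hO (by simp) h1 h2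
  obtain ⟨P, p1, p2⟩ := TP.toPol t1
  rw [lr_len] at p1 p2
  exact ⟨P, p1, fun s hs => by rw [e1 s hs, p2]⟩

end pol

/-! ### `Y` as a function of its empty line -/

section Y

variable {ω a b x t : ℂ} {K L I' J' : List ℂ}

/-- `Y` with the rapidity `s` of the empty line -/
noncomputable def Ys (ω : ℂ) (K L : List ℂ) (b s : ℂ) : ℂ :=
  WT ω (Function.update (zc K L ![1, 1, 1, b, 1, 1]) (sc 2) s) (Ic _ _) (Jc _ _) [sc 2, sc 3] []
    (sc 0) (sc 1) (sc 3) / (cQ (K.length + L.length + 2) * cQ (K.length + L.length))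

theorem v_upd2 (a b : ℂ) : Function.update (![1, 1, 1, b, 1, 1] : Fin 6 → ℂ) 2 a =
    ![1, 1, a, b, 1, 1] := by
  funext j
  fin_cases j <;> rfl

theorem Ys_eq (a : ℂ) : (fam ω).Y K L a b = Ys ω K L b (lg a) := by
  unfold Ys
  rw [← zc_update, v_upd2]
  rfl

theorem okY (n m : ℕ) : OkT (Ic n m) (Jc n m) [sc 2, sc 3] [] (sc 0) (sc 1) (sc 3) :=
  okT_can (A := [2, 3]) (B := []) (by decide) (by decide)

theorem len_can (n m : ℕ) : (Ic n m).length = n ∧ (Jc n m).length = m := by
  constructor
  · simp [Ic]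
  · simp [Jc]

/-- The spare sites. -/
theorem spare_can {n m : ℕ} {A B : List (Fin 6)} {j : Fin 6} (hj : j ∉ 0 :: 1 :: (A ++ B)) :
    (sc j : Sc n m) ∉ sites (Ic n m) (Jc n m) (A.map sc) (B.map sc) (sc 0) (sc 1) := by
  intro h
  unfold sites at h
  rcases List.mem_append.1 h with h | h
  · rcases List.mem_append.1 h with h | h
    · obtain ⟨t, ht, e⟩ := List.mem_map.1 h
      exact (sc_ne j t ht).1 e.symm
    · obtain ⟨t, ht, e⟩ := List.mem_map.1 h
      exact (sc_ne j t ht).2 e.symm
  · have e : sc (n := n) (m := m) 0 :: sc 1 :: (A.map sc ++ B.map sc) =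
        (0 :: 1 :: (A ++ B)).map sc := by simp
    rw [e] at h
    obtain ⟨i, hi, e'⟩ := List.mem_map.1 h
    exact hj (sc_inj e' ▸ hi)

/-- the rapidity of the empty line is generic -/
def GoY (K L : List ℂ) (b s : ℂ) : Prop :=
  Go (fun i => -Function.update (zc K L ![1, 1, 1, b, 1, 1]) (sc 2) s i)
    (lr (Ic K.length L.length) (Jc K.length L.length) [sc 2, sc 3])

/-- **The polynomial of `Y` in the empty line.** -/
theorem Ys_pol (hG : _root_.TC.GC NUTP.th (b :: (K ++ L))) : ∃ P : ℂ[X],
    P.natDegree ≤ 2 * (K.length + L.length) + 2 ∧ ∀ s, GoY K L b s →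
      exp (I * s) ^ (2 * (K.length + L.length) + 2) * Ys ω K L b s = P.eval (exp (I * s) ^ 2) := by
  have hg := gt_lr (K := K) (L := L) (v := ![1, 1, 1, b, 1, 1]) (A := [3]) hG
  have i4 := spare_can (n := K.length) (m := L.length) (A := [2, 3]) (B := []) (j := 4)
    (by decide)
  have i5 := spare_can (n := K.length) (m := L.length) (A := [2, 3]) (B := []) (j := 5)
    (by decide)
  obtain ⟨P, p1, p2⟩ := WT_polE (ω := ω) (z := zc K L ![1, 1, 1, b, 1, 1]) (A1 := []) (A2 := [sc 3])
    (p := sc 2) (okY K.length L.length) i4 i5 (fun h => absurd (sc_inj h) (by decide)) hg.gk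
    (fun h => absurd (sc_inj h) (by decide))
  rw [(len_can _ _).1, (len_can _ _).2] at p1 p2
  refine ⟨C (cQ (K.length + L.length + 2) * cQ (K.length + L.length))⁻¹ * P,
    (natDegree_C_mul_le _ _).trans (p1.trans (by simp; omega)), fun s hs => ?_⟩
  rw [eval_mul, eval_C, ← p2 s hs]
  unfold Ys
  have e : 2 * (K.length + L.length + ([] ++ [sc (n := K.length) (m := L.length) 3]).length) =
      2 * (K.length + L.length) + 2 := by
    simp only [List.nil_append, List.length_cons, List.length_nil]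
    omega
  rw [e, div_eq_mul_inv]
  show _ = _ * (_ * WT ω _ _ _ [sc 2, sc 3] [] _ _ _)
  ring

theorem go_gen (ha : _root_.TC.GC NUTP.th (a :: b :: (K ++ L))) : GoY K L b (lg a) := by
  have hg := gt_lr (K := K) (L := L) (v := ![1, 1, a, b, 1, 1]) (A := [2, 3]) ha
  unfold GoY
  rw [← zc_update, v_upd2]
  exact go_Gk (gk_neg hg.gk) (okY _ _).ndR

/-- the line `p` at an integer distance from the line `x` -/
theorem gz_shift {ι : Type*} [DecidableEq ι] {z : ι → ℂ} {X : List ι} {p x : ι}
    (hG : Gk z (x :: X)) (hx : x ∉ X) (hp : p ∉ x :: X) (j : ℤ) :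
    Gz (fun i => -Function.update z p (z x + j * lam) i) (p :: X) ∧
    Gz (fun i => -Function.update z p (z x + j * lam) i) (x :: X) := by
  have e : ∀ i ∈ x :: X, z i = Function.update z p (z x + j * lam) i := fun i hi => by
    rw [Function.update_of_ne]
    rintro rfl
    exact hp hi
  refine ⟨(gk_neg ?_).gz, (gk_neg (hG.congr e)).gz⟩
  have e' : ∀ i ∈ X, Function.update z p (z x + j * lam) i = z i := fun i hi =>
    (e i (List.mem_cons_of_mem _ hi)).symm
  have e2 : Function.update z p (z x + j * lam) p = z x + j * lam := Function.update_self _ _ _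
  intro i hi k hk hik n
  rcases List.mem_cons.1 hi with hi | hi
  · rcases List.mem_cons.1 hk with hk | hk
    · exact absurd (hi.trans hk.symm) hik
    · rw [hi, e2, e' k hk]
      have hkx : x ≠ k := fun h => hx (h ▸ hk)
      have := hG x (by simp) k (by simp [hk]) hkx (j + n)
      rwa [show z x - z k + ((j + n : ℤ) : ℂ) * lam = z x + j * lam - z k + n * lam by
        push_cast; ring] at this
  · rcases List.mem_cons.1 hk with hk | hk
    · rw [hk, e2, e' i hi]
      have hix : i ≠ x := fun h => hx (h ▸ hi)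
      have := hG i (by simp [hi]) x (by simp) hix (n - j)
      rwa [show z i - z x + ((n - j : ℤ) : ℂ) * lam = z i - (z x + j * lam) + n * lam by
        push_cast; ring] at this
    · rw [e' i hi, e' k hk]
      exact hG i (by simp [hi]) k (by simp [hk]) hik n

/-- **The node of the last line of `I`.** -/
theorem Y_x (hG : _root_.TC.GC NUTP.th (b :: ((I' ++ [x]) ++ L))) :
    ∃ s, GoY (I' ++ [x]) L b s ∧ exp (I * s) ^ 2 = NUTP.th ^ 10 * x ^ 2 ∧ ∀ n, exp (I * s) ^ n *
      Ys ω (I' ++ [x]) L b s = _root_.TC.dn NUTP.th n x (b :: (I' ++ L)) * (fam ω).O I' L b x := by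
  set K := I' ++ [x] with hK
  have h0 := gc_ne hG
  have nK : ∀ a ∈ K, a ≠ 0 := fun a ha => h0 a (by simp [ha])
  have nL : ∀ a ∈ L, a ≠ 0 := fun a ha => h0 a (by simp [ha])
  have nb : b ≠ 0 := h0 b (by simp)
  set z := zc K L ![1, 1, 1, b, 1, 1] with hz
  have hO := okY K.length L.length
  have hg := (gt_lr (K := K) (L := L) (v := ![1, 1, 1, b, 1, 1]) (A := [3]) hG).gk
  have i4 := spare_can (n := K.length) (m := L.length) (A := [2, 3]) (B := []) (j := 4) (by decide)
  have i5 := spare_can (n := K.length) (m := L.length) (A := [2, 3]) (B := []) (j := 5) (by decide)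
  have hpair := _root_.Pool.Agent.NUT2.zc_pair K L ![1, 1, 1, b, 1, 1]
  have hne := fun j => sc_ne (n := K.length) (m := L.length) j
  have hlen := len_can K.length L.length
  obtain ⟨K', ⟨x1, x2⟩, e1, e2, e3⟩ := split_last
    ((Ic_map (K := K) (L := L) (v := ![1, 1, 1, b, 1, 1]) nK).trans hK)
  rw [← hz] at e2 e3 hg hpair
  have hJ := Jc_map (K := K) (L := L) (v := ![1, 1, 1, b, 1, 1]) nL
  rw [← hz] at hJ
  unfold GoY Ys
  rw [← hz]
  set Jp := Jc K.length L.length with hJp
  rw [e1] at hO hg i4 i5 hpair hne hlen ⊢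
  have hgd : Gd ((x1, x2) :: (K' ++ Jp)) := by
    refine (Gd_cons.1 hO.gdq).2.2.perm ?_
    rw [List.append_assoc]
    exact List.perm_middle
  -- the lists of the first half strip
  have l1 : lr (K' ++ [(x1, x2)]) Jp [sc 2, sc 3] = (K'.map Prod.fst ++ [x1]) ++ sc 2 ::
      (sc 3 :: Jp.map Prod.fst) := by
    unfold lr
    simp
  have l2 : lr (K' ++ [(x1, x2)]) Jp ([3].map sc) = (K'.map Prod.fst ++ [x1]) ++
      (sc 3 :: Jp.map Prod.fst) := by
    unfold lr
    simp
  have nd := hO.ndR
  rw [l1] at nd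
  rw [l2] at hg
  have hpm : (x1 :: lr K' Jp [sc 3]).Perm ((K'.map Prod.fst ++ [x1]) ++ (sc 3 :: Jp.map Prod.fst)) := by
    unfold lr
    have : (K'.map Prod.fst ++ [x1]) ++ (sc 3 :: Jp.map Prod.fst) = K'.map Prod.fst ++
        x1 :: ([sc 3] ++ Jp.map Prod.fst) := by simp
    rw [this]
    exact List.perm_middle.symm
  have hgx : Gk z (x1 :: lr K' Jp [sc 3]) := hg.sub fun y hy => hpm.mem_iff.1 hy
  have hx1 : x1 ∉ lr K' Jp [sc 3] := (List.nodup_cons.1 (hpm.nodup_iff.2 (nd.sublist (by simp)))).1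
  have hp1 : (sc 2 : Sc K.length L.length) ∉ x1 :: lr K' Jp [sc 3] := by
    intro h
    have h1 := hpm.mem_iff.1 h
    have h2 := (List.perm_middle.nodup_iff.1 nd)
    exact (List.nodup_cons.1 h2).1 h1
  obtain ⟨g1, g2⟩ := gz_shift hgx hx1 hp1 (-3)
  have hs3 : z x1 + ((-3 : ℤ) : ℂ) * lam = z x1 - 3 * lam := by
    push_cast
    ring
  rw [hs3] at g1 g2
  set z' := Function.update z (sc 2) (z x1 - 3 * lam) with hz'
  have zp : z' (sc 2) = z x1 - 3 * lam := Function.update_self _ _ _
  have zo : ∀ y ∈ x1 :: lr K' Jp [sc 3], z' y = z y := fun y hy => by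
    rw [hz', Function.update_of_ne]
    rintro rfl
    exact hp1 hy
  have zx : z' x1 = z x1 := zo x1 (by simp)
  refine ⟨z x1 - 3 * lam, ?_, ?_, fun n => ?_⟩
  · rw [l1]
    have := go_at (z := z) nd hg (x := x1) (by simp) (-3)
      (fun _ => ⟨sin_jl (by decide), Dn_jl (by decide) (by decide)⟩) (fun h => by
        exfalso
        exact hx1 (by
          unfold lr
          simp only [List.mem_append, List.mem_cons] at h ⊢
          tauto))
    rwa [hs3] at this
  · have h1 := NUTP.th13 (z x1)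
    rw [lamN] at h1
    have e3' : exp (I * z x1) = x := e3
    have h2 : exp (I * (z x1 - 3 * lam)) = NUTP.th ^ 13 * x := by
      rw [← e3']
      exact h1.symm
    rw [h2]
    linear_combination (x ^ 2 * NUTP.th ^ 10) * NUTP.th16 NUTP.th8
  · have hZ := WT_lo_e (ω := ω) (z := z') (K := K') (L := Jp) (x := x1) (x' := x2) (p := sc 2)
      (A := [sc 3]) (B := []) hO (by simp) ⟨fun h => absurd (sc_inj h) (by decide), i4, i5⟩
      (by rw [zp, zx]) g1 g2
    rw [hZ]
    have hY : (lr K' Jp [sc (n := K.length) (m := L.length) 3]).Nodup :=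
      (List.nodup_cons.1 (hpm.nodup_iff.2 (nd.sublist (by simp)))).2
    have a1 : exp (I * z (sc 3)) = b := ex_zcs (v := ![1, 1, 1, b, 1, 1]) (j := 3) nb
    have hE : EL z' (lr K' Jp [sc 3]) = I' ++ (b :: L) := by
      unfold EL
      rw [List.map_congr_left (g := fun i => exp (I * z i)) fun y hy => by
        rw [zo y (List.mem_cons_of_mem _ hy)]]
      unfold lr
      rw [List.map_append, List.map_append, List.map_map, List.map_map]
      have a2 : K'.map ((fun i => exp (I * z i)) ∘ Prod.fst) = I' := e2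
      have a3 : Jp.map ((fun i => exp (I * z i)) ∘ Prod.fst) = L := hJ
      rw [a2, a3, List.map_cons, List.map_nil, a1]
      rfl
    have hS : (EL z' (lr K' Jp [sc 3])).Perm (b :: (I' ++ L)) := by
      rw [hE]
      exact List.perm_middle
    have hcr := crf_dn1 (z := z') (p := sc 2) (x := x1) (by rw [zp, zx]) hY (fun k hk => by
      have hk' : (sc 2 : Sc K.length L.length) ≠ k := fun h => hp1 (by simp [h, hk])
      have h1 := g1.s (sc 2) (by simp) k (by simp [hk]) hk'
      rwa [show -z' (sc 2) - -z' k = -(z' (sc 2) - z' k) by ring, Complex.sin_neg, neg_ne_zero] at h1)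
      hS n
    have e3' : exp (I * z x1) = x := e3
    rw [zx, e3'] at hcr
    have key : WT ω z' K' Jp [sc 3] [x2] (sc 0) (sc 1) (sc 3) /
        (cQ (K'.length + Jp.length + 1) * cQ (K'.length + Jp.length + 1)) = (fam ω).O I' L b x := by
      set s6 : Fin 6 → Sc K.length L.length := ![sc 0, sc 1, sc 3, x2, sc 4, sc 5] with hs6
      have hx2 : ∀ j : Fin 6, (sc j : Sc K.length L.length) ≠ x2 := fun j =>
        (hne j (x1, x2) (by simp)).2
      have hinj : Function.Injective s6 := by
        intro i j hij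
        fin_cases i <;> fin_cases j <;> first
          | rfl
          | exact absurd hij (hx2 _)
          | exact absurd hij.symm (hx2 _)
          | exact absurd (sc_inj hij) (by decide)
      have hd : ∀ j, ∀ t ∈ K' ++ Jp, s6 j ≠ t.1 ∧ s6 j ≠ t.2 := by
        intro j t ht
        have ht' : t ∈ K' ++ [(x1, x2)] ++ Jp := by
          rcases List.mem_append.1 ht with h | h
          · simp [h]
          · simp [h]
        have h1 := (Gd_cons.1 hgd).2.1 t ht
        fin_cases j
        · exact hne 0 t ht'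
        · exact hne 1 t ht'
        · exact hne 3 t ht'
        · exact ⟨h1.2.2.1, h1.2.2.2⟩
        · exact hne 4 t ht'
        · exact hne 5 t ht'
      have zt : ∀ t ∈ K' ++ Jp, z' t.1 = z t.1 ∧ z' t.2 = z t.2 := by
        intro t ht
        have ht' : t ∈ K' ++ [(x1, x2)] ++ Jp := by
          rcases List.mem_append.1 ht with h | h
          · simp [h]
          · simp [h]
        have h1 := hne 2 t ht'
        rw [hz', Function.update_of_ne (Ne.symm h1.1), Function.update_of_ne (Ne.symm h1.2)]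
        exact ⟨rfl, rfl⟩
      have ht2 : ∀ t ∈ K' ++ Jp, t ∈ K' ++ [(x1, x2)] ++ Jp := fun t ht => by
        rcases List.mem_append.1 ht with h | h
        · simp [h]
        · simp [h]
      have z3 : z' (sc 3) = z (sc 3) := zo _ (List.mem_cons_of_mem _ (by unfold lr; simp))
      have z2 : z' x2 = z x2 := by
        rw [hz', Function.update_of_ne (Ne.symm (hx2 2))]
      have := WT_eq_WC (ω := ω) (z := z') (K := K') (L := Jp) (s := s6) hinj (Gd_cons.1 hgd).2.2 hd
        (A := [2]) (B := [3]) (by decide) (m := 2) (by decide) (fun t ht => by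
          rw [(zt t ht).1, (zt t ht).2, hpair t (ht2 t ht)]) (v := ![1, 1, b, x, 1, 1])
        (K' := I') (L' := L) (fun j hj => by
          fin_cases hj
          · show exp (I * z' (sc 3)) = b
            rw [z3, a1]
          · show exp (I * z' x2) = x
            rw [z2, ← e3']
            exact congrArg (fun w => exp (I * w)) (hpair (x1, x2) (by simp))) (by
          rw [List.map_congr_left (g := fun t => exp (I * z t.1)) fun t ht => by
            rw [(zt t (by simp [ht])).1]]
          exact e2) (by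
          rw [List.map_congr_left (g := fun t => exp (I * z t.1)) fun t ht => by
            rw [(zt t (by simp [ht])).1]]
          exact hJ)
      exact this
    have hN1 : K'.length = I'.length := by rw [← e2, List.length_map]
    have hN2 : Jp.length = L.length := hlen.2
    have hN3 : K.length = I'.length + 1 := by rw [hK]; simp
    have hYl : (lr K' Jp [sc (n := K.length) (m := L.length) 3]).length =
        I'.length + L.length + 1 := by
      rw [lr_len, hN1, hN2]
      rfl
    rw [hYl] at hcr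
    rw [hN1, hN2] at key
    have c1 := cQ_ne (I'.length + L.length + 1)
    have hcc : cQ (K.length + L.length + 2) * cQ (K.length + L.length) =
        2 * 4 ^ (I'.length + L.length + 1) *
          (cQ (I'.length + L.length + 1) * cQ (I'.length + L.length + 1)) := by
      rw [hN3]
      rw [show I'.length + 1 + L.length + 2 = (I'.length + L.length + 1) + 1 + 1 by omega,
        show I'.length + 1 + L.length = I'.length + L.length + 1 by omega, cQ_succ, cQ_succ,
        show (4 : ℂ) ^ (I'.length + L.length + 1) =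
          2 ^ (I'.length + L.length + 1) * 2 ^ (I'.length + L.length + 1) by
          rw [← mul_pow]; norm_num]
      ring
    rw [hcc, ← key, mul_div_assoc', ← mul_assoc, hcr]
    have c2 : (4 : ℂ) ^ (I'.length + L.length + 1) ≠ 0 := pow_ne_zero _ (by norm_num)
    field_simp

theorem zc_3 : zc K L ![1, 1, 1, b, 1, 1] (sc 3) = lg b := rfl

/-- the lists at an integer distance from the occupied line -/
theorem Y_pts (hG : _root_.TC.GC NUTP.th (b :: (K ++ L))) {j : ℤ} (h8 : ¬ (8 : ℤ) ∣ j)
    (h2 : ¬ (8 : ℤ) ∣ (j + 2)) (h3 : ¬ (8 : ℤ) ∣ (j + 3)) :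
    GoY K L b (lg b + j * lam) ∧
    Gz (fun i => -Function.update (zc K L ![1, 1, 1, b, 1, 1]) (sc 2) (lg b + j * lam) i)
      (sc 3 :: lr (Ic K.length L.length) (Jc K.length L.length) []) ∧
    Gz (fun i => -Function.update (zc K L ![1, 1, 1, b, 1, 1]) (sc 2) (lg b + j * lam) i)
      (sc 2 :: lr (Ic K.length L.length) (Jc K.length L.length) []) := by
  have hg := (gt_lr (K := K) (L := L) (v := ![1, 1, 1, b, 1, 1]) (A := [3]) hG).gk
  have nd := (okY K.length L.length).ndR
  have l1 : lr (Ic K.length L.length) (Jc K.length L.length) [sc 2, sc 3] =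
      (Ic K.length L.length).map Prod.fst ++ sc 2 :: (sc 3 :: (Jc K.length L.length).map Prod.fst) := by
    unfold lr
    simp
  have l2 : lr (Ic K.length L.length) (Jc K.length L.length) ([3].map sc) =
      (Ic K.length L.length).map Prod.fst ++ (sc 3 :: (Jc K.length L.length).map Prod.fst) := by
    unfold lr
    simp
  have l3 : lr (Ic K.length L.length) (Jc K.length L.length) [] =
      (Ic K.length L.length).map Prod.fst ++ (Jc K.length L.length).map Prod.fst := by
    unfold lr
    simp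
  rw [l1] at nd
  rw [l2] at hg
  have hpm : (sc 3 :: lr (Ic K.length L.length) (Jc K.length L.length) []).Perm
      ((Ic K.length L.length).map Prod.fst ++ (sc 3 :: (Jc K.length L.length).map Prod.fst)) := by
    rw [l3]
    exact List.perm_middle.symm
  have hgx : Gk (zc K L ![1, 1, 1, b, 1, 1])
      (sc 3 :: lr (Ic K.length L.length) (Jc K.length L.length) []) :=
    hg.sub fun y hy => hpm.mem_iff.1 hy
  have h3' := (List.nodup_cons.1 (hpm.nodup_iff.2 (nd.sublist (by simp)))).1
  have h2' : (sc 2 : Sc K.length L.length) ∉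
      sc 3 :: lr (Ic K.length L.length) (Jc K.length L.length) [] := by
    intro h
    exact (List.nodup_cons.1 (List.perm_middle.nodup_iff.1 nd)).1 (hpm.mem_iff.1 h)
  obtain ⟨g1, g2⟩ := gz_shift hgx h3' h2' j
  rw [zc_3] at g1 g2
  refine ⟨?_, g2, g1⟩
  unfold GoY
  rw [l1]
  have := go_at (z := zc K L ![1, 1, 1, b, 1, 1]) nd hg (x := sc 3) (by simp) j (fun h => by
      exfalso
      obtain ⟨t, ht, e⟩ := List.mem_map.1 h
      exact (sc_ne 3 t (List.mem_append_left _ ht)).1 e.symm)
    (fun _ => ⟨sin_jl h8, Dn_jl h2 h3⟩)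
  rw [zc_3] at this
  exact this

/-- **The zero.** -/
theorem Y_z (hG : _root_.TC.GC NUTP.th (b :: (K ++ L))) :
    GoY K L b (lg b + 3 * lam) ∧ Ys ω K L b (lg b + 3 * lam) = 0 := by
  obtain ⟨g1, g2, g3⟩ := Y_pts hG (j := 3) (by decide) (by decide) (by decide)
  have e : lg b + ((3 : ℤ) : ℂ) * lam = lg b + 3 * lam := by
    push_cast
    ring
  rw [e] at g1 g2 g3
  refine ⟨g1, ?_⟩
  have i4 := spare_can (n := K.length) (m := L.length) (A := [2, 3]) (B := []) (j := 4) (by decide)
  have i5 := spare_can (n := K.length) (m := L.length) (A := [2, 3]) (B := []) (j := 5) (by decide)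
  unfold Ys
  rw [WT_zero (okY K.length L.length) ⟨fun h => absurd (sc_inj h) (by decide), i4, i5⟩ ?_ g2 g3,
    zero_div]
  rw [Function.update_self, Function.update_of_ne (fun h => absurd (sc_inj h) (by decide)), zc_3]

/-- the line `p` moved by a multiple of `λ` -/
theorem gk_move {ι : Type*} [DecidableEq ι] {z : ι → ℂ} {X : List ι} {p : ι}
    (hG : Gk z (p :: X)) (hp : p ∉ X) (j : ℤ) :
    Gk (Function.update z p (z p + j * lam)) (p :: X) := by
  have e' : ∀ i ∈ X, Function.update z p (z p + j * lam) i = z i := fun i hi => by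
    rw [Function.update_of_ne]
    rintro rfl
    exact hp hi
  have e2 : Function.update z p (z p + j * lam) p = z p + j * lam := Function.update_self _ _ _
  intro i hi k hk hik n
  rcases List.mem_cons.1 hi with hi | hi
  · rcases List.mem_cons.1 hk with hk | hk
    · exact absurd (hi.trans hk.symm) hik
    · rw [hi, e2, e' k hk]
      have hkx : p ≠ k := fun h => hp (h ▸ hk)
      have := hG p (by simp) k (by simp [hk]) hkx (j + n)
      rwa [show z p - z k + ((j + n : ℤ) : ℂ) * lam = z p + j * lam - z k + n * lam by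
        push_cast; ring] at this
  · rcases List.mem_cons.1 hk with hk | hk
    · rw [hk, e2, e' i hi]
      have hix : i ≠ p := fun h => hp (h ▸ hi)
      have := hG i (by simp [hi]) p (by simp) hix (n - j)
      rwa [show z i - z p + ((n - j : ℤ) : ℂ) * lam = z i - (z p + j * lam) + n * lam by
        push_cast; ring] at this
    · rw [e' i hi, e' k hk]
      exact hG i (by simp [hi]) k (by simp [hk]) hik n

/-- **The fusion point.** -/
theorem Y_f (hG : _root_.TC.GC NUTP.th (b :: (K ++ L))) :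
    GoY K L b (lg b + 2 * lam) ∧ Ys ω K L b (lg b + 2 * lam) =
      _root_.TC.fu NUTP.th (NUTP.th * b) (K ++ L) * (fam ω).R K L (NUTP.th * b) := by
  obtain ⟨g1, g2, g3⟩ := Y_pts hG (j := 2) (by decide) (by decide) (by decide)
  have e : lg b + ((2 : ℤ) : ℂ) * lam = lg b + 2 * lam := by
    push_cast
    ring
  rw [e] at g1 g2 g3
  refine ⟨g1, ?_⟩
  have h0 := gc_ne hG
  have nK : ∀ a ∈ K, a ≠ 0 := fun a ha => h0 a (by simp [ha])
  have nL : ∀ a ∈ L, a ≠ 0 := fun a ha => h0 a (by simp [ha])
  have nb : b ≠ 0 := h0 b (by simp)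
  have i4 := spare_can (n := K.length) (m := L.length) (A := [2, 3]) (B := []) (j := 4) (by decide)
  have i5 := spare_can (n := K.length) (m := L.length) (A := [2, 3]) (B := []) (j := 5) (by decide)
  set z := Function.update (zc K L ![1, 1, 1, b, 1, 1]) (sc 2) (lg b + 2 * lam) with hz
  set z' := Function.update z (sc 3) (lg b + lam) with hz'
  have z3 : z (sc 3) = lg b := by
    rw [hz, Function.update_of_ne (fun h => absurd (sc_inj h) (by decide)), zc_3]
  have z2 : z (sc 2) = lg b + 2 * lam := Function.update_self _ _ _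
  have z3' : z' (sc 3) = lg b + lam := Function.update_self _ _ _
  have hO := okY K.length L.length
  have l3 : (sc 3 : Sc K.length L.length) ∉ lr (Ic K.length L.length) (Jc K.length L.length) [] := by
    have nd := hO.ndR
    unfold lr at nd ⊢
    rw [List.nodup_append] at nd
    have nd2 := (List.nodup_cons.1 (List.nodup_cons.1 nd.2.1).2).1
    have nd3 := nd.2.2
    simp only [List.nil_append, List.mem_append, not_or]
    exact ⟨fun h => nd3 _ h (sc 3) (by simp) rfl, nd2⟩
  have hgk : Gk z (sc 3 :: lr (Ic K.length L.length) (Jc K.length L.length) []) := by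
    have hg := (gt_lr (K := K) (L := L) (v := ![1, 1, 1, b, 1, 1]) (A := [3]) hG).gk
    have h1 : Gk (zc K L ![1, 1, 1, b, 1, 1])
        (sc 3 :: lr (Ic K.length L.length) (Jc K.length L.length) []) := hg.sub fun y hy => by
      unfold lr at hy ⊢
      simp only [List.mem_cons, List.mem_append, List.nil_append, List.map_cons, List.map_nil,
        List.not_mem_nil, or_false] at hy ⊢
      tauto
    refine h1.congr fun i hi => ?_
    rw [hz, Function.update_of_ne]
    rintro rfl
    rcases List.mem_cons.1 hi with h | h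
    · exact absurd (sc_inj h) (by decide)
    · have nd := hO.ndR
      unfold lr at nd h
      rw [List.nodup_append] at nd
      rcases List.mem_append.1 h with h | h
      · exact nd.2.2 _ h (sc 2) (by simp) rfl
      · exact (List.nodup_cons.1 nd.2.1).1 (by
          simp only [List.nil_append] at h
          show sc 2 ∈ [sc 3] ++ (Jc K.length L.length).map Prod.fst
          exact List.mem_append_right _ h)
  have g4 : Gz (fun i => -z' i) (sc 3 :: lr (Ic K.length L.length) (Jc K.length L.length) []) := by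
    have := gk_move hgk l3 1
    rw [z3, show lg b + ((1 : ℤ) : ℂ) * lam = lg b + lam by push_cast; ring] at this
    exact (gk_neg this).gz
  have hF := WT_fus (ω := ω) (z := z) (z' := z') (a := sc 2) (b := sc 3) hO
    ⟨fun h => absurd (sc_inj h) (by decide), i4, i5⟩ (by rw [z2, z3]) (by rw [z3', z3])
    (fun y hy => Function.update_of_ne hy _ _) g2 g3 g4
  unfold Ys
  rw [← hz, hF, fuf_neg, z3']
  have ne2 : ∀ y ∈ lr (Ic K.length L.length) (Jc K.length L.length) [],
      z y = zc K L ![1, 1, 1, b, 1, 1] y := by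
    intro y hy
    rw [hz, Function.update_of_ne]
    rintro rfl
    have nd := hO.ndR
    unfold lr at nd hy
    rw [List.nodup_append] at nd
    rcases List.mem_append.1 hy with h | h
    · exact nd.2.2 _ h (sc 2) (by simp) rfl
    · exact (List.nodup_cons.1 nd.2.1).1 (by
        simp only [List.nil_append] at h
        show sc 2 ∈ [sc 3] ++ (Jc K.length L.length).map Prod.fst
        exact List.mem_append_right _ h)
  have hYn : (lr (Ic K.length L.length) (Jc K.length L.length) []).Nodup := by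
    refine hO.ndR.sublist ?_
    unfold lr
    simp
  have hE : EL z (lr (Ic K.length L.length) (Jc K.length L.length) []) = K ++ L := by
    have := EL_lr (K := K) (L := L) (v := ![1, 1, 1, b, 1, 1]) (A := []) nK nL (by simp)
    unfold EL at this ⊢
    rw [List.map_congr_left (g := fun i => exp (I * zc K L ![1, 1, 1, b, 1, 1] i)) fun y hy => by
      rw [ne2 y hy]]
    exact this
  have hfu := fuf_eq hYn (by rw [hE] : (EL z (lr (Ic K.length L.length) (Jc K.length L.length) [])).Perm
    (K ++ L)) (lg b + lam)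
  have hex : exp (I * (lg b + lam)) = NUTP.th * b := by
    have h1 := NUTP.th1 (lg b)
    rw [lamN] at h1
    have h2 : NUTP.ea (lg b) = b := exp_lg nb
    rw [h2] at h1
    exact h1.symm
  have hYl : (lr (Ic K.length L.length) (Jc K.length L.length) []).length = K.length + L.length := by
    rw [lr_len, (len_can _ _).1, (len_can _ _).2]
    rfl
  rw [hex, hYl] at hfu
  have key : WT ω z' (Ic K.length L.length) (Jc K.length L.length) [sc 3] [] (sc 0) (sc 1) (sc 3) /
      (cQ (K.length + L.length + 1) * cQ (K.length + L.length)) = (fam ω).R K L (NUTP.th * b) := by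
    have hinj : Function.Injective fun j => (sc (Equiv.swap 2 3 j) : Sc K.length L.length) :=
      sc_inj.comp (Equiv.injective _)
    have hu : ∀ t ∈ Ic K.length L.length ++ Jc K.length L.length,
        z' t.1 = zc K L ![1, 1, 1, b, 1, 1] t.1 ∧ z' t.2 = zc K L ![1, 1, 1, b, 1, 1] t.2 := by
      intro t ht
      have h3 := sc_ne 3 t ht
      have h2 := sc_ne 2 t ht
      rw [hz', hz, Function.update_of_ne (Ne.symm h3.1), Function.update_of_ne (Ne.symm h3.2),
        Function.update_of_ne (Ne.symm h2.1), Function.update_of_ne (Ne.symm h2.2)]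
      exact ⟨rfl, rfl⟩
    have := WT_eq_WC (ω := ω) (z := z') (K := Ic K.length L.length) (L := Jc K.length L.length) hinj
      (Gd_cons.1 hO.gdq).2.2 (fun j t ht => sc_ne _ t ht) (A := [2]) (B := []) (by decide) (m := 2)
      (by decide) (fun t ht => by
        rw [(hu t ht).1, (hu t ht).2, _root_.Pool.Agent.NUT2.zc_pair K L _ t ht])
      (v := ![1, 1, NUTP.th * b, 1, 1, 1]) (K' := K) (L' := L) (fun j hj => by
        fin_cases hj
        show exp (I * z' (sc 3)) = NUTP.th * b
        rw [z3', hex]) (by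
        rw [List.map_congr_left (g := fun t => exp (I * zc K L ![1, 1, 1, b, 1, 1] t.1)) fun t ht => by
          rw [(hu t (by simp [ht])).1]]
        exact Ic_map nK) (by
        rw [List.map_congr_left (g := fun t => exp (I * zc K L ![1, 1, 1, b, 1, 1] t.1)) fun t ht => by
          rw [(hu t (by simp [ht])).1]]
        exact Jc_map nL)
    rw [(len_can _ _).1, (len_can _ _).2] at this
    exact this
  have c1 := cQ_ne (K.length + L.length + 1)
  have c3 := cQ_ne (K.length + L.length)
  have hcc : cQ (K.length + L.length + 2) =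
      2 * 2 ^ (K.length + L.length) * cQ (K.length + L.length + 1) := by
    rw [show K.length + L.length + 2 = (K.length + L.length + 1) + 1 by omega, cQ_succ, pow_succ]
    ring
  have c2 : (2 : ℂ) ^ (K.length + L.length) ≠ 0 := pow_ne_zero _ two_ne_zero
  rw [← mul_assoc, hfu, ← key, hcc]
  field_simp

end Y

/-! ### `Y` as a function of its occupied line -/

section Z

variable {ω a b y t : ℂ} {K L I' J' : List ℂ}

/-- `Y` with the rapidity `s` of the occupied line -/
noncomputable def Zs (ω : ℂ) (K L : List ℂ) (a s : ℂ) : ℂ :=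
  WT ω (Function.update (zc K L ![1, 1, a, 1, 1, 1]) (sc 3) s) (Ic _ _) (Jc _ _) [sc 2, sc 3] []
    (sc 0) (sc 1) (sc 3) / (cQ (K.length + L.length + 2) * cQ (K.length + L.length))

theorem v_upd3 (a b : ℂ) : Function.update (![1, 1, a, 1, 1, 1] : Fin 6 → ℂ) 3 b =
    ![1, 1, a, b, 1, 1] := by
  funext j
  fin_cases j <;> rfl

theorem Zs_eq (b : ℂ) : (fam ω).Y K L a b = Zs ω K L a (lg b) := by
  unfold Zs
  rw [← zc_update, v_upd3]
  rfl

/-- the rapidity of the occupied line is generic -/
def GoZ (K L : List ℂ) (a s : ℂ) : Prop :=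
  Go (fun i => -Function.update (zc K L ![1, 1, a, 1, 1, 1]) (sc 3) s i)
    (lr (Ic K.length L.length) (Jc K.length L.length) [sc 2, sc 3])

/-- **The polynomial of `Y` in the occupied line.** -/
theorem Zs_pol (hG : _root_.TC.GC NUTP.th (a :: (K ++ L))) : ∃ P : ℂ[X], ∀ s, GoZ K L a s →
      exp (I * s) ^ (2 * (K.length + L.length) + 3) * Zs ω K L a s = P.eval (exp (I * s) ^ 2) := by
  have hg := gt_lr (K := K) (L := L) (v := ![1, 1, a, 1, 1, 1]) (A := [2]) hG
  have i4 := spare_can (n := K.length) (m := L.length) (A := [2, 3]) (B := []) (j := 4) (by decide)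
  have i5 := spare_can (n := K.length) (m := L.length) (A := [2, 3]) (B := []) (j := 5) (by decide)
  obtain ⟨P, p1, p2⟩ := WT_polO (ω := ω) (z := zc K L ![1, 1, a, 1, 1, 1]) (A1 := [sc 2]) (A2 := [])
    (p := sc 3) (okY K.length L.length) i4 i5 (fun h => absurd (sc_inj h) (by decide)) hg.gk
  rw [(len_can _ _).1, (len_can _ _).2] at p2
  refine ⟨C (cQ (K.length + L.length + 2) * cQ (K.length + L.length))⁻¹ * P, fun s hs => ?_⟩
  rw [eval_mul, eval_C, ← p2 s hs]
  unfold Zs
  have e : 2 * (K.length + L.length + ([sc (n := K.length) (m := L.length) 2] ++ []).length) + 1 =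
      2 * (K.length + L.length) + 3 := by
    simp only [List.append_nil, List.length_cons, List.length_nil]
    omega
  rw [e, div_eq_mul_inv]
  show _ = _ * (_ * WT ω _ _ _ [sc 2, sc 3] [] _ _ _)
  ring

theorem go_genZ (hb : _root_.TC.GC NUTP.th (b :: a :: (K ++ L))) : GoZ K L a (lg b) := by
  have hb' : _root_.TC.GC NUTP.th (a :: b :: (K ++ L)) :=
    _root_.TC.GC.perm NUTP.th8 (List.Perm.swap _ _ _) hb
  have hg := gt_lr (K := K) (L := L) (v := ![1, 1, a, b, 1, 1]) (A := [2, 3]) hb'
  unfold GoZ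
  rw [← zc_update, v_upd3]
  exact go_Gk (gk_neg hg.gk) (okY _ _).ndR

/-- **The node of the first line of `J`.** -/
theorem Z_y (hω : ω ≠ 0) (hG : _root_.TC.GC NUTP.th (a :: (K ++ (y :: J')))) :
    ∃ s, GoZ K (y :: J') a s ∧ exp (I * s) ^ 2 = NUTP.th ^ 6 * y ^ 2 ∧ ∀ n, exp (I * s) ^ n *
      Zs ω K (y :: J') a s = ω * _root_.TC.up NUTP.th n y (a :: (K ++ J')) *
        WC ω K J' ![1, 1, a, y, 1, 1] [2] [3] 3 := by
  set L := y :: J' with hL
  have h0 := gc_ne hG
  have nK : ∀ a ∈ K, a ≠ 0 := fun a ha => h0 a (by simp [ha])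
  have nL : ∀ a ∈ L, a ≠ 0 := fun a ha => h0 a (by simp [ha])
  have na : a ≠ 0 := h0 a (by simp)
  set z := zc K L ![1, 1, a, 1, 1, 1] with hz
  have hO := okY K.length L.length
  have hg := (gt_lr (K := K) (L := L) (v := ![1, 1, a, 1, 1, 1]) (A := [2]) hG).gk
  have i4 := spare_can (n := K.length) (m := L.length) (A := [2, 3]) (B := []) (j := 4) (by decide)
  have i5 := spare_can (n := K.length) (m := L.length) (A := [2, 3]) (B := []) (j := 5) (by decide)
  have hpair := _root_.Pool.Agent.NUT2.zc_pair K L ![1, 1, a, 1, 1, 1]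
  have hne := fun j => sc_ne (n := K.length) (m := L.length) j
  have hlen := len_can K.length L.length
  obtain ⟨⟨y1, y2⟩, Jq, e1, e2, e3⟩ := split_head
    ((Jc_map (K := K) (L := L) (v := ![1, 1, a, 1, 1, 1]) nL).trans hL)
  rw [← hz] at e2 e3 hg hpair
  have hI := Ic_map (K := K) (L := L) (v := ![1, 1, a, 1, 1, 1]) nK
  rw [← hz] at hI
  unfold GoZ Zs
  rw [← hz]
  set Ip := Ic K.length L.length with hIp
  rw [e1] at hO hg i4 i5 hpair hne hlen ⊢
  have hgd : Gd ((y1, y2) :: (Ip ++ Jq)) := (Gd_cons.1 hO.gdq).2.2.perm List.perm_middle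
  -- the lists of the first half strip
  have l1 : lr Ip ((y1, y2) :: Jq) [sc 2, sc 3] = (Ip.map Prod.fst ++ [sc 2]) ++ sc 3 ::
      (y1 :: Jq.map Prod.fst) := by
    unfold lr
    simp
  have l2 : lr Ip ((y1, y2) :: Jq) ([2].map sc) = (Ip.map Prod.fst ++ [sc 2]) ++
      (y1 :: Jq.map Prod.fst) := by
    unfold lr
    simp
  have nd := hO.ndR
  rw [l1] at nd
  rw [l2] at hg
  have hpm : (y1 :: lr Ip Jq [sc 2]).Perm ((Ip.map Prod.fst ++ [sc 2]) ++ (y1 :: Jq.map Prod.fst)) := by
    unfold lr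
    rw [← List.append_assoc]
    exact List.perm_middle.symm
  have hgx : Gk z (y1 :: lr Ip Jq [sc 2]) := hg.sub fun y hy => hpm.mem_iff.1 hy
  have hx1 : y1 ∉ lr Ip Jq [sc 2] := (List.nodup_cons.1 (hpm.nodup_iff.2 (nd.sublist (by simp)))).1
  have hp1 : (sc 3 : Sc K.length L.length) ∉ y1 :: lr Ip Jq [sc 2] := by
    intro h
    have h1 := hpm.mem_iff.1 h
    have h2 := (List.perm_middle.nodup_iff.1 nd)
    exact (List.nodup_cons.1 h2).1 h1
  obtain ⟨g1, g2⟩ := gz_shift hgx hx1 hp1 3
  have hs3 : z y1 + ((3 : ℤ) : ℂ) * lam = z y1 + 3 * lam := by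
    push_cast
    ring
  rw [hs3] at g1 g2
  set z' := Function.update z (sc 3) (z y1 + 3 * lam) with hz'
  have zp : z' (sc 3) = z y1 + 3 * lam := Function.update_self _ _ _
  have zo : ∀ y ∈ y1 :: lr Ip Jq [sc 2], z' y = z y := fun y hy => by
    rw [hz', Function.update_of_ne]
    rintro rfl
    exact hp1 hy
  have zx : z' y1 = z y1 := zo y1 (by simp)
  refine ⟨z y1 + 3 * lam, ?_, ?_, fun n => ?_⟩
  · rw [l1]
    have := go_at (z := z) nd hg (x := y1) (by simp) 3
      (fun h => by
        exfalso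
        exact hx1 (by
          unfold lr
          simp only [List.mem_append, List.mem_cons] at h ⊢
          tauto)) (fun _ => ⟨sin_jl (by decide), Dn_jl (by decide) (by decide)⟩)
    rwa [hs3] at this
  · have h1 := NUTP.th3 (z y1)
    rw [lamN] at h1
    have e3' : exp (I * z y1) = y := e3
    have h2 : exp (I * (z y1 + 3 * lam)) = NUTP.th ^ 3 * y := by
      rw [← e3']
      exact h1.symm
    rw [h2]
    ring
  · have hZ := WT_hi_o (ω := ω) (z := z') (K := Ip) (L := Jq) (x := y1) (x' := y2) (p := sc 3)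
      (A := [sc 2]) (B := []) hω hO ⟨fun h => absurd (sc_inj h) (by decide), i4, i5⟩
      (by rw [zp, zx]) g1 g2
    have hZ' : WT ω z' Ip ((y1, y2) :: Jq) [sc 2, sc 3] [] (sc 0) (sc 1) (sc 3) =
      crf (fun i => -z' i) (sc 3) y1 (lr Ip Jq [sc 2]).toFinset *
        (ω * WT ω z' Ip Jq [sc 2] [y2] (sc 0) (sc 1) y2) := hZ
    rw [hZ']
    have hY : (lr Ip Jq [sc (n := K.length) (m := L.length) 2]).Nodup :=
      (List.nodup_cons.1 (hpm.nodup_iff.2 (nd.sublist (by simp)))).2
    have a1 : exp (I * z (sc 2)) = a := ex_zcs (v := ![1, 1, a, 1, 1, 1]) (j := 2) na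
    have hE : EL z' (lr Ip Jq [sc 2]) = K ++ (a :: J') := by
      unfold EL
      rw [List.map_congr_left (g := fun i => exp (I * z i)) fun y hy => by
        rw [zo y (List.mem_cons_of_mem _ hy)]]
      unfold lr
      rw [List.map_append, List.map_append, List.map_map, List.map_map]
      have a2 : Jq.map ((fun i => exp (I * z i)) ∘ Prod.fst) = J' := e2
      have a3 : Ip.map ((fun i => exp (I * z i)) ∘ Prod.fst) = K := hI
      rw [a2, a3, List.map_cons, List.map_nil, a1]
      rfl
    have hS : (EL z' (lr Ip Jq [sc 2])).Perm (a :: (K ++ J')) := by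
      rw [hE]
      exact List.perm_middle
    have hcr := crf_up1 (z := z') (p := sc 3) (y := y1) (by rw [zp, zx]) hY (fun k hk => by
      have hk' : y1 ≠ k := fun h => hx1 (h ▸ hk)
      have h1 := g2.s y1 (by simp) k (by simp [hk]) hk'
      rwa [show -z' y1 - -z' k = -(z' y1 - z' k) by ring, Complex.sin_neg, neg_ne_zero] at h1)
      hS n
    have e3' : exp (I * z y1) = y := e3
    rw [zx, e3'] at hcr
    have key : WT ω z' Ip Jq [sc 2] [y2] (sc 0) (sc 1) y2 /
        (cQ (Ip.length + Jq.length + 1) * cQ (Ip.length + Jq.length + 1)) =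
        WC ω K J' ![1, 1, a, y, 1, 1] [2] [3] 3 := by
      set s6 : Fin 6 → Sc K.length L.length := ![sc 0, sc 1, sc 2, y2, sc 4, sc 5] with hs6
      have hx2 : ∀ j : Fin 6, (sc j : Sc K.length L.length) ≠ y2 := fun j =>
        (hne j (y1, y2) (by simp)).2
      have hinj : Function.Injective s6 := by
        intro i j hij
        fin_cases i <;> fin_cases j <;> first
          | rfl
          | exact absurd hij (hx2 _)
          | exact absurd hij.symm (hx2 _)
          | exact absurd (sc_inj hij) (by decide)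
      have ht2 : ∀ t ∈ Ip ++ Jq, t ∈ Ip ++ (y1, y2) :: Jq := fun t ht => by
        rcases List.mem_append.1 ht with h | h
        · simp [h]
        · simp [h]
      have hd : ∀ j, ∀ t ∈ Ip ++ Jq, s6 j ≠ t.1 ∧ s6 j ≠ t.2 := by
        intro j t ht
        have ht' := ht2 t ht
        have h1 := (Gd_cons.1 hgd).2.1 t ht
        fin_cases j
        · exact hne 0 t ht'
        · exact hne 1 t ht'
        · exact hne 2 t ht'
        · exact ⟨h1.2.2.1, h1.2.2.2⟩
        · exact hne 4 t ht'
        · exact hne 5 t ht'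
      have zt : ∀ t ∈ Ip ++ Jq, z' t.1 = z t.1 ∧ z' t.2 = z t.2 := by
        intro t ht
        have h1 := hne 3 t (ht2 t ht)
        rw [hz', Function.update_of_ne (Ne.symm h1.1), Function.update_of_ne (Ne.symm h1.2)]
        exact ⟨rfl, rfl⟩
      have z3 : z' (sc 2) = z (sc 2) := zo _ (List.mem_cons_of_mem _ (by unfold lr; simp))
      have z2 : z' y2 = z y2 := by
        rw [hz', Function.update_of_ne (Ne.symm (hx2 3))]
      have := WT_eq_WC (ω := ω) (z := z') (K := Ip) (L := Jq) (s := s6) hinj (Gd_cons.1 hgd).2.2 hd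
        (A := [2]) (B := [3]) (by decide) (m := 3) (by decide) (fun t ht => by
          rw [(zt t ht).1, (zt t ht).2, hpair t (ht2 t ht)]) (v := ![1, 1, a, y, 1, 1])
        (K' := K) (L' := J') (fun j hj => by
          fin_cases hj
          · show exp (I * z' (sc 2)) = a
            rw [z3, a1]
          · show exp (I * z' y2) = y
            rw [z2, ← e3']
            exact congrArg (fun w => exp (I * w)) (hpair (y1, y2) (by simp))) (by
          rw [List.map_congr_left (g := fun t => exp (I * z t.1)) fun t ht => by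
            rw [(zt t (by simp [ht])).1]]
          exact hI) (by
          rw [List.map_congr_left (g := fun t => exp (I * z t.1)) fun t ht => by
            rw [(zt t (by simp [ht])).1]]
          exact e2)
      exact this
    have hN1 : Jq.length = J'.length := by rw [← e2, List.length_map]
    have hN2 : Ip.length = K.length := hlen.1
    have hN3 : L.length = J'.length + 1 := by rw [hL]; simp
    have hYl : (lr Ip Jq [sc (n := K.length) (m := L.length) 2]).length =
        K.length + J'.length + 1 := by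
      rw [lr_len, hN1, hN2]
      rfl
    rw [hYl] at hcr
    rw [hN1, hN2] at key
    have c1 := cQ_ne (K.length + J'.length + 1)
    have hcc : cQ (K.length + L.length + 2) * cQ (K.length + L.length) =
        2 * 4 ^ (K.length + J'.length + 1) *
          (cQ (K.length + J'.length + 1) * cQ (K.length + J'.length + 1)) := by
      rw [hN3]
      rw [show K.length + (J'.length + 1) + 2 = (K.length + J'.length + 1) + 1 + 1 by omega,
        show K.length + (J'.length + 1) = K.length + J'.length + 1 by omega, cQ_succ, cQ_succ,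
        show (4 : ℂ) ^ (K.length + J'.length + 1) =
          2 ^ (K.length + J'.length + 1) * 2 ^ (K.length + J'.length + 1) by
          rw [← mul_pow]; norm_num]
      ring
    rw [hcc, ← key, mul_div_assoc', ← mul_assoc, hcr]
    have c2 : (4 : ℂ) ^ (K.length + J'.length + 1) ≠ 0 := pow_ne_zero _ (by norm_num)
    field_simp

end Z

/-! ### The field `polY` -/

section field

variable {ω b : ℂ}

/-- the node value -/
noncomputable def DY (ω b : ℂ) (I' J : List ℂ) (t : ℂ) : ℂ :=
  _root_.TC.dn NUTP.th (2 * (I'.length + 1 + J.length) + 2) t (b :: (I' ++ J)) * (fam ω).O I' J b t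

/-- degree, zero and fusion -/
def EY (ω b : ℂ) (I J : List ℂ) (P : ℂ[X]) : Prop :=
  P.natDegree ≤ 2 * (I.length + J.length) + 2 ∧ P.eval (NUTP.th ^ 6 * b ^ 2) = 0 ∧
    P.eval (NUTP.th ^ 4 * b ^ 2) = (NUTP.th ^ 2 * b) ^ (2 * (I.length + J.length) + 2) *
      _root_.TC.fu NUTP.th (NUTP.th * b) (I ++ J) * (fam ω).R I J (NUTP.th * b)

theorem coreY (I J : List ℂ) (hG : _root_.TC.GC NUTP.th ([b] ++ (I ++ J))) : ∃ P : ℂ[X],
    EY ω b I J P ∧
    (∀ a, _root_.TC.GC NUTP.th (a :: ([b] ++ (I ++ J))) →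
      a ^ (2 * (I.length + J.length) + 2) * (fam ω).Y I J a b = P.eval (a ^ 2)) ∧
    (∀ x I', I = I' ++ [x] → P.eval (NUTP.th ^ 10 * x ^ 2) = DY ω b I' J x) := by
  have hG' : _root_.TC.GC NUTP.th (b :: (I ++ J)) := hG
  have nb : b ≠ 0 := gc_ne hG' b (by simp)
  obtain ⟨P, p1, p2⟩ := Ys_pol (ω := ω) hG'
  refine ⟨P, ⟨p1, ?_, ?_⟩, fun a ha => ?_, ?_⟩
  · obtain ⟨g, e⟩ := Y_z (ω := ω) hG'
    have h := p2 _ g
    rw [e, mul_zero] at h
    have h1 := NUTP.th3 (lg b)
    rw [lamN, show NUTP.ea (lg b) = b from exp_lg nb] at h1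
    have h2 : exp (Complex.I * (lg b + 3 * lam)) = NUTP.th ^ 3 * b := h1.symm
    rw [h2] at h
    rw [show NUTP.th ^ 6 * b ^ 2 = (NUTP.th ^ 3 * b) ^ 2 by ring]
    exact h.symm
  · obtain ⟨g, e⟩ := Y_f (ω := ω) hG'
    have h := p2 _ g
    rw [e] at h
    have h1 := NUTP.th2 (lg b)
    rw [lamN, show NUTP.ea (lg b) = b from exp_lg nb] at h1
    have h2 : exp (Complex.I * (lg b + 2 * lam)) = NUTP.th ^ 2 * b := h1.symm
    rw [h2] at h
    rw [show NUTP.th ^ 4 * b ^ 2 = (NUTP.th ^ 2 * b) ^ 2 by ring, ← h]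
    ring
  · have ha' : _root_.TC.GC NUTP.th (a :: b :: (I ++ J)) := ha
    have na : a ≠ 0 := gc_ne ha' a (by simp)
    have h := p2 _ (go_gen ha')
    rw [exp_lg na] at h
    rw [Ys_eq, h]
  · intro x I' hI
    subst hI
    obtain ⟨s, g, e1, e2⟩ := Y_x (ω := ω) hG'
    have h := p2 s g
    rw [e2, e1] at h
    rw [← h]
    unfold DY
    rw [List.length_append]
    rfl

/-- **The field `polY`.** -/
theorem fam_polY (ω : ℂ) (I J : List ℂ) (b : ℂ) (hG : _root_.TC.GC NUTP.th (b :: (I ++ J))) :
    ∃ P : ℂ[X], P.natDegree ≤ 2 * (I.length + J.length) + 2 ∧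
    (∀ a, _root_.TC.GC NUTP.th (a :: b :: (I ++ J)) →
      a ^ (2 * (I.length + J.length) + 2) * (fam ω).Y I J a b = P.eval (a ^ 2)) ∧
    (∀ x I' t, I.Perm (x :: I') → (t = x ∨ t = x⁻¹) → P.eval (NUTP.th ^ 10 * t ^ 2) =
      _root_.TC.dn NUTP.th (2 * (I.length + J.length) + 2) t (b :: (I' ++ J)) * (fam ω).O I' J b t) ∧
    P.eval (NUTP.th ^ 6 * b ^ 2) = 0 ∧
    P.eval (NUTP.th ^ 4 * b ^ 2) = (NUTP.th ^ 2 * b) ^ (2 * (I.length + J.length) + 2) *
      _root_.TC.fu NUTP.th (NUTP.th * b) (I ++ J) * (fam ω).R I J (NUTP.th * b) := by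
  classical
  have hc := coreY (ω := ω) (b := b)
  choose PP q1 q2 q3 using hc
  obtain ⟨P, h1, h2, h3, -⟩ := lift (T := [b]) (W := fun I J a => (fam ω).Y I J a b)
    (k := fun n => 2 * n + 2) (e1 := 10) (e2 := 0) (D := DY ω b)
    (U := fun I J' y => if h : _root_.TC.GC NUTP.th ([b] ++ (I ++ (y :: J'))) then
      (PP I (y :: J') h).eval (NUTP.th ^ 0 * y ^ 2) else 0) (Ex := EY ω b)
    (fun I I' J a h hG => famY_perm h (List.Perm.refl _) hG)
    (fun I J J' a h hG => famY_perm (List.Perm.refl _) h hG)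
    (fun I x J a hG => famY_invK hG) (fun I y J a hG => famY_invL hG)
    (fun I J hG => ⟨PP I J hG, q1 I J hG, q2 I J hG, q3 I J hG, fun y J' hJ => by
      subst hJ
      rw [dif_pos hG]⟩) I J hG
  refine ⟨P, h1.1, h2, fun x I' t hI ht => ?_, h1.2⟩
  rw [h3 x I' t hI ht]
  unfold DY
  rw [hI.length_eq]
  rfl

/-! ### The field `polYo` -/

theorem coreZ {ω a : ℂ} (hω : ω ≠ 0) (I J : List ℂ) (hG : _root_.TC.GC NUTP.th ([a] ++ (I ++ J))) :
    ∃ P : ℂ[X],
    (∀ b, _root_.TC.GC NUTP.th (b :: ([a] ++ (I ++ J))) →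
      b ^ (2 * (I.length + J.length) + 3) * (fam ω).Y I J a b = P.eval (b ^ 2)) ∧
    (∀ y J', J = y :: J' → P.eval (NUTP.th ^ 6 * y ^ 2) =
      ω * _root_.TC.up NUTP.th (2 * (I.length + (J'.length + 1)) + 3) y (a :: (I ++ J')) *
        (fam ω⁻¹).O I J' y⁻¹ a⁻¹) := by
  have hG' : _root_.TC.GC NUTP.th (a :: (I ++ J)) := hG
  obtain ⟨P, p2⟩ := Zs_pol (ω := ω) hG'
  refine ⟨P, fun b hb => ?_, ?_⟩
  · have hb' : _root_.TC.GC NUTP.th (b :: a :: (I ++ J)) := hb
    have nb : b ≠ 0 := gc_ne hb' b (by simp)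
    have h := p2 _ (go_genZ hb')
    rw [exp_lg nb] at h
    rw [Zs_eq, h]
  · intro y J' hJ
    subst hJ
    obtain ⟨s, g, e1, e2⟩ := Z_y (ω := ω) hω hG'
    have h := p2 s g
    rw [e2, e1] at h
    rw [← h, WC_OL (i := 2) (j := 3) (by decide) (by decide) (by decide) (by decide) (by decide)]
    · rfl
    · refine _root_.TC.GC.perm NUTP.th8 ?_ hG'
      exact List.perm_middle.cons a

/-- **The field `polYo`.** -/
theorem fam_polYo {ω : ℂ} (hω : ω ≠ 0) (I J : List ℂ) (a : ℂ)
    (hG : _root_.TC.GC NUTP.th (a :: (I ++ J))) : ∃ P : ℂ[X],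
    (∀ b, _root_.TC.GC NUTP.th (b :: a :: (I ++ J)) →
      b ^ (2 * (I.length + J.length) + 3) * (fam ω).Y I J a b = P.eval (b ^ 2)) ∧
    (∀ y J' t, J.Perm (y :: J') → (t = y ∨ t = y⁻¹) → P.eval (NUTP.th ^ 6 * t ^ 2) =
      ω * _root_.TC.up NUTP.th (2 * (I.length + J.length) + 3) t (a :: (I ++ J')) *
        (fam ω⁻¹).O I J' t⁻¹ a⁻¹) := by
  classical
  have hc := coreZ (ω := ω) (a := a) hω
  choose PP q1 q2 using hc
  obtain ⟨P, -, h2, -, h4⟩ := lift (T := [a]) (W := fun I J b => (fam ω).Y I J a b)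
    (k := fun n => 2 * n + 3) (e1 := 0) (e2 := 6)
    (D := fun I' J x => if h : _root_.TC.GC NUTP.th ([a] ++ ((I' ++ [x]) ++ J)) then
      (PP (I' ++ [x]) J h).eval (NUTP.th ^ 0 * x ^ 2) else 0)
    (U := fun I J' y => ω *
      _root_.TC.up NUTP.th (2 * (I.length + (J'.length + 1)) + 3) y (a :: (I ++ J')) *
        (fam ω⁻¹).O I J' y⁻¹ a⁻¹) (Ex := fun _ _ _ => True)
    (fun I I' J b h hG => famY_perm h (List.Perm.refl _) (gc_sw hG))
    (fun I J J' b h hG => famY_perm (List.Perm.refl _) h (gc_sw hG))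
    (fun I x J b hG => famY_invK (gc_sw hG)) (fun I y J b hG => famY_invL (gc_sw hG))
    (fun I J hG => ⟨PP I J hG, trivial, q1 I J hG, fun x I' hI => by
      subst hI
      rw [dif_pos hG], q2 I J hG⟩) I J hG
  refine ⟨P, h2, fun y J' t hJ ht => ?_⟩
  rw [h4 y J' t hJ ht, hJ.length_eq]
  rfl

end field

end Pool.Agent.TC.FY

namespace Pool.Agent.TC

open Polynomial

/-- **The field `polY` of `Rel NUTP.th ω (fam ω) B`.** -/
theorem fam_polY (ω : ℂ) (I J : List ℂ) (b : ℂ) (hG : _root_.TC.GC NUTP.th (b :: (I ++ J))) :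
    ∃ P : ℂ[X], P.natDegree ≤ 2 * (I.length + J.length) + 2 ∧
    (∀ a, _root_.TC.GC NUTP.th (a :: b :: (I ++ J)) →
      a ^ (2 * (I.length + J.length) + 2) * (fam ω).Y I J a b = P.eval (a ^ 2)) ∧
    (∀ x I' t, I.Perm (x :: I') → (t = x ∨ t = x⁻¹) → P.eval (NUTP.th ^ 10 * t ^ 2) =
      _root_.TC.dn NUTP.th (2 * (I.length + J.length) + 2) t (b :: (I' ++ J)) * (fam ω).O I' J b t) ∧
    P.eval (NUTP.th ^ 6 * b ^ 2) = 0 ∧
    P.eval (NUTP.th ^ 4 * b ^ 2) = (NUTP.th ^ 2 * b) ^ (2 * (I.length + J.length) + 2) *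
      _root_.TC.fu NUTP.th (NUTP.th * b) (I ++ J) * (fam ω).R I J (NUTP.th * b) :=
  FY.fam_polY ω I J b hG

/-- **The field `polYo` of `Rel NUTP.th ω (fam ω) (fam ω⁻¹)`.** -/
theorem fam_polYo {ω : ℂ} (hω : ω ≠ 0) (I J : List ℂ) (a : ℂ)
    (hG : _root_.TC.GC NUTP.th (a :: (I ++ J))) : ∃ P : ℂ[X],
    (∀ b, _root_.TC.GC NUTP.th (b :: a :: (I ++ J)) →
      b ^ (2 * (I.length + J.length) + 3) * (fam ω).Y I J a b = P.eval (b ^ 2)) ∧
    (∀ y J' t, J.Perm (y :: J') → (t = y ∨ t = y⁻¹) → P.eval (NUTP.th ^ 6 * t ^ 2) =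
      ω * _root_.TC.up NUTP.th (2 * (I.length + J.length) + 3) t (a :: (I ++ J')) *
        (fam ω⁻¹).O I J' t⁻¹ a⁻¹) :=
  FY.fam_polYo hω I J a hG

end Pool.Agent.TC
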