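import Pool.Agent.TC.TrivP
import Pool.Agent.TC.Node
import Pool.Agent.TC.Gen

/-!
# The trivial lines at the level of the one leg function (helper17)

`TT_hi`: the upper empty line at `3π/16` = the left empty line at `-3π/16`; `TT_lo`: the lower empty line at
`-3π/16` = the left empty line at `3π/16`.
-/

set_option autoImplicit false

namespace Pool.Agent.TC

open _root_.Pool.Agent.EXL _root_.Pool.Agent.EXL.Pat
open _root_.Pool.Agent.EXL.Fm (lam)
open _root_.Pool.Agent.NUF _root_.Pool.Agent.NUU _root_.Pool.Agent.NUT2 _root_.Pool.Agent.NUTV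
open Complex (I exp sin cos)

/-! ### The line moved to the top or to the bottom -/

section moves

variable {α : Type*} [DecidableEq α] {z : α → ℂ} {V : List α → Fnl α} {X0 : List α} {b c d q : α}

/-- The exchange law of a family of functionals. -/
def Exl (V : List α → Fnl α) (z : α → ℂ) (X0 : List α) : Prop :=
  ∀ (A : List α) (j k : α) (B : List α), (A ++ j :: k :: B).Perm X0 →
    V (A ++ j :: k :: B) ∘ₗ uops.R j k (z j - z k) = V (A ++ k :: j :: B)

theorem Exl.up (hE : Exl V z X0) (b : α) : ∀ Y A : List α, (A ++ b :: Y).Perm X0 →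
    V (A ++ b :: Y) = V (A ++ (Y ++ [b])) ∘ₗ uops.M (fun i => -z i) b (-z b) Y.reverse := by
  intro Y
  induction Y with
  | nil =>
    intro A _
    rw [List.nil_append, List.reverse_nil, Glob.Ops.M_nil]
    rfl
  | cons k Y ih =>
    intro A hA
    have hp : (A ++ k :: b :: Y).Perm X0 :=
      (List.Perm.append_left _ (List.Perm.swap _ _ _)).trans hA
    have h1 := hE A k b Y hp
    have h2 := ih (A ++ [k]) (by rw [List.append_assoc]; exact hp)
    rw [List.append_assoc, List.append_assoc, List.singleton_append, List.singleton_append] at h2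
    have h3 : uops.R k b (z k - z b) = (uops.R b k (-z b - -z k) : Module.End ℂ (Pat α → ℂ)) := by
      rw [(ulaws (ι := α)).Rs]
      congr 1
      ring
    rw [← h1, h2, List.reverse_cons, Glob.Ops.M_append, Glob.Ops.M_cons, Glob.Ops.M_nil, mul_one, h3]
    rfl

theorem Exl.dn (hE : Exl V z X0) (b : α) : ∀ Y A B : List α, (A ++ (Y ++ b :: B)).Perm X0 →
    V (A ++ (Y ++ b :: B)) = V (A ++ b :: (Y ++ B)) ∘ₗ uops.M z b (z b) Y := by
  intro Y
  induction Y with
  | nil =>
    intro A B _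
    rw [List.nil_append, List.nil_append, Glob.Ops.M_nil]
    rfl
  | cons k Y ih =>
    intro A B hA
    have h2 := ih (A ++ [k]) B (by rw [List.append_assoc]; exact hA)
    rw [List.append_assoc, List.append_assoc, List.singleton_append, List.singleton_append] at h2
    have hp : (A ++ b :: k :: (Y ++ B)).Perm X0 := by
      refine List.Perm.trans ?_ hA
      refine List.Perm.append_left _ ?_
      refine (List.Perm.swap _ _ _).trans ?_
      exact (List.perm_middle.symm).cons _
    have h1 := hE A b k (Y ++ B) hp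
    rw [List.cons_append, h2, ← h1, Glob.Ops.M_cons]
    rfl

theorem exl_PH [Finite α] (hn : X0.Nodup) (hc : c ∉ X0) (hd : d ∉ X0) (hcd : c ≠ d) (hG : Gz z X0) :
    Exl (fun X => PH z X) z X0 := by
  intro A j k B hp
  have hp' : (A ++ k :: j :: B).Perm X0 := (List.Perm.append_left _ (List.Perm.swap _ _ _)).trans hp
  have n1 := hp.nodup_iff.2 hn
  have n2 := hp'.nodup_iff.2 hn
  exact PH_exchO n1 (fun h => hc (hp.mem_iff.1 h)) (fun h => hd (hp.mem_iff.1 h)) hcd
    (go_of (hG.perm hp.symm) n1) (go_of (hG.perm hp'.symm) n2)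

theorem exl_PS [Finite α] (hn : (q :: X0).Nodup) (hc : c ∉ q :: X0) (hd : d ∉ q :: X0) (hcd : c ≠ d)
    (hG : Gz z X0) : Exl (fun X => PS z q X) z X0 := by
  intro A j k B hp
  have hp' : (A ++ k :: j :: B).Perm X0 := (List.Perm.append_left _ (List.Perm.swap _ _ _)).trans hp
  have n0 := (hp.cons q).nodup_iff.2 hn
  have n1 := hp.nodup_iff.2 (List.nodup_cons.1 hn).2
  have n2 := hp'.nodup_iff.2 (List.nodup_cons.1 hn).2
  exact PS_exch n0 (fun h => hc ((hp.cons q).mem_iff.1 h)) (fun h => hd ((hp.cons q).mem_iff.1 h)) hcd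
    (go_of (hG.perm hp.symm) n1) (go_of (hG.perm hp'.symm) n2)

end moves

/-! ### The trivial point is generic with respect to the other lines -/

section gen

theorem half_ne {x : ℂ} (h : Sm x x) (k : ℤ) : sin (x + k * lam / 2) ≠ 0 := by
  intro e
  apply h k
  rw [show x + x + k * lam = 2 * (x + k * lam / 2) by ring, Complex.sin_two_mul, e]
  ring

theorem half_ne' {x y : ℂ} (h : Sm x x) (k : ℤ) (e : y = x + k * lam / 2 ∨ y = -(x + k * lam / 2)) :
    sin y ≠ 0 := by
  rcases e with rfl | rfl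
  · exact half_ne h k
  · rw [Complex.sin_neg]
    exact neg_ne_zero.2 (half_ne h k)

theorem hh_l : (3 * Real.pi / 16 : ℂ) = 3 * lam / 2 := by
  unfold Fm.lam
  ring

variable {α : Type*} {z : α → ℂ} {X : List α} {b : α} {ε : ℂ}

/-- The trivial point added to a generic list. -/
theorem gz_triv (hε : ε = 1 ∨ ε = -1) (hz : z b = ε * (3 * Real.pi / 16)) (hX : GT z X) :
    Gz z (b :: X) := by
  have key : ∀ i ∈ X, (sin (z b - z i) ≠ 0 ∧ Fm.Dn (z b - z i) ≠ 0) ∧ (sin (z i - z b) ≠ 0 ∧
      Fm.Dn (z i - z b) ≠ 0) := by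
    intro i hi
    have h := hX.add i hi i hi
    rw [hz, hh_l]
    unfold Fm.Dn
    rcases hε with rfl | rfl
    · refine ⟨⟨half_ne' h (-3) (Or.inr ?_), mul_ne_zero (half_ne' h (-7) (Or.inr ?_))
        (half_ne' h (-9) (Or.inr ?_))⟩, half_ne' h (-3) (Or.inl ?_), mul_ne_zero
        (half_ne' h 1 (Or.inl ?_)) (half_ne' h 3 (Or.inl ?_))⟩ <;> push_cast <;> ring
    · refine ⟨⟨half_ne' h 3 (Or.inr ?_), mul_ne_zero (half_ne' h (-1) (Or.inr ?_))
        (half_ne' h (-3) (Or.inr ?_))⟩, half_ne' h 3 (Or.inl ?_), mul_ne_zero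
        (half_ne' h 7 (Or.inl ?_)) (half_ne' h 9 (Or.inl ?_))⟩ <;> push_cast <;> ring
  have hG := hX.gz
  constructor
  · intro i hi j hj hij
    rcases List.mem_cons.1 hi with e1 | h1
    · rcases List.mem_cons.1 hj with e2 | h2
      · exact absurd (e1.trans e2.symm) hij
      · rw [e1]
        exact (key j h2).1.1
    · rcases List.mem_cons.1 hj with e2 | h2
      · rw [e2]
        exact (key i h1).2.1
      · exact hG.s i h1 j h2 hij
  · intro i hi j hj hij
    rcases List.mem_cons.1 hi with e1 | h1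
    · rcases List.mem_cons.1 hj with e2 | h2
      · exact absurd (e1.trans e2.symm) hij
      · rw [e1]
        exact (key j h2).1.2
    · rcases List.mem_cons.1 hj with e2 | h2
      · rw [e2]
        exact (key i h1).2.2
      · exact hG.d i h1 j h2 hij

/-- `Dn` of the frame rapidity is not zero and even. -/
theorem Dn_ux {x : ℂ} (h : Sm x x) : Fm.Dn (3 * Real.pi / 16 - x) ≠ 0 := by
  rw [hh_l]
  unfold Fm.Dn
  refine mul_ne_zero (half_ne' h (-7) (Or.inr ?_)) (half_ne' h (-9) (Or.inr ?_)) <;> push_cast <;> ring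

theorem Dn_ux' {x : ℂ} (h : Sm x x) : Fm.Dn (-(3 * Real.pi / 16 - x)) ≠ 0 := by
  rw [hh_l]
  unfold Fm.Dn
  refine mul_ne_zero (half_ne' h 1 (Or.inl ?_)) (half_ne' h 3 (Or.inl ?_)) <;> push_cast <;> ring

theorem fa_ux {x : ℂ} (h : Sm x x) : Fr.fa (3 * Real.pi / 16 - x) ≠ 0 := by
  rw [hh_l]
  unfold Fr.fa
  exact half_ne' h (-3) (Or.inr (by push_cast; ring))

theorem Dn_even (x : ℂ) : Fm.Dn (3 * Real.pi / 16 - x) = Fm.Dn (3 * Real.pi / 16 + x) := by
  rw [hh_l]
  unfold Fm.Dn
  rw [← Fm.sin_8lam_sub (2 * lam + (3 * lam / 2 + x)), ← Fm.sin_8lam_sub (3 * lam + (3 * lam / 2 + x)), mul_comm]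
  congr 2 <;> ring

/-- Regular rhombi at the column. -/
theorem okC_hh {x : ℂ} (h : Sm x x) : OkC (3 * Real.pi / 16 + x) := by
  unfold OkC
  have e : (3 * Real.pi / 8 : ℂ) = 3 * lam := by
    unfold Fm.lam
    ring
  rw [e, hh_l]
  simp only [EXL.Fm.okR_iff]
  unfold Fm.Dn
  refine ⟨mul_ne_zero (half_ne' h 7 (Or.inl ?_)) (half_ne' h 9 (Or.inl ?_)),
    mul_ne_zero (half_ne' h (-1) (Or.inr ?_)) (half_ne' h (-3) (Or.inr ?_)),
    mul_ne_zero (half_ne' h (-7) (Or.inr ?_)) (half_ne' h (-9) (Or.inr ?_)),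
    mul_ne_zero (half_ne' h 1 (Or.inl ?_)) (half_ne' h 3 (Or.inl ?_))⟩ <;> push_cast <;> ring

end gen

/-! ### The vectors -/

section vec

variable {α : Type*} [DecidableEq α] [Finite α] {z : α → ℂ} {A B : List α} {b c d q : α}

omit [Finite α] [DecidableEq α] in
theorem ux_top (hz : z b = -(3 * Real.pi / 16)) : ux z b = 3 * lam := by
  unfold ux Fm.lam
  rw [hz]
  ring

omit [Finite α] [DecidableEq α] in
theorem ux_bot (hz : z b = 3 * Real.pi / 16) : ux z b = 0 := by
  unfold ux
  rw [hz]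
  ring

omit [Finite α] [DecidableEq α] in
theorem top_ne {x : ℂ} (h : Sm x x) : sin (3 * lam - (3 * Real.pi / 16 - x)) ≠ 0 := by
  rw [hh_l]
  exact half_ne' h 3 (Or.inl (by push_cast; ring))

/-- **The trivial line leaves through the top.** -/
theorem PHv_up (hz : z b = -(3 * Real.pi / 16)) (hn : (b :: (A ++ B)).Nodup) (hc : c ∉ b :: (A ++ B))
    (hd : d ∉ b :: (A ++ B)) (hcd : c ≠ d) (hG : GT z (A ++ B)) :
    PH z (A ++ b :: B) = Kt z (A ++ B).toFinset •
      (PH z (A ++ B) ∘ₗ uops.M (fun i => -z i) b (3 * Real.pi / 16) B.reverse) := by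
  have hGb : Gz z (b :: (A ++ B)) := gz_triv (ε := -1) (Or.inr rfl) (by rw [hz]; ring) hG
  have hE := exl_PH hn hc hd hcd hGb
  have hp : (A ++ b :: B).Perm (b :: (A ++ B)) := List.perm_middle
  have e1 := hE.up b B A hp
  have hn2 : (A ++ B ++ [b]).Nodup :=
    (List.perm_append_comm (l₁ := A ++ B) (l₂ := [b])).nodup_iff.2 hn
  have e2 := PH_top (ux_top hz) _ (A ++ B) rfl hn2 fun i hi => top_ne (hG.add i hi i hi)
  rw [List.append_assoc] at e2
  rw [hz, neg_neg] at e1
  rw [e1]
  refine LinearMap.ext fun F => ?_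
  have e3 := LinearMap.congr_fun e2 (uops.M (fun i => -z i) b (3 * Real.pi / 16) B.reverse F)
  rw [LinearMap.comp_apply, LinearMap.smul_apply, LinearMap.comp_apply]
  exact e3

theorem PSv_up (hz : z b = -(3 * Real.pi / 16)) (hn : (q :: b :: (A ++ B)).Nodup)
    (hc : c ∉ q :: b :: (A ++ B)) (hd : d ∉ q :: b :: (A ++ B)) (hcd : c ≠ d) (hG : GT z (A ++ B)) :
    PS z q (A ++ b :: B) = Kt z (A ++ B).toFinset •
      (PS z q (A ++ B) ∘ₗ uops.M (fun i => -z i) b (3 * Real.pi / 16) B.reverse) := by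
  have hGb : Gz z (b :: (A ++ B)) := gz_triv (ε := -1) (Or.inr rfl) (by rw [hz]; ring) hG
  have hE := exl_PS hn hc hd hcd hGb
  have hp : (A ++ b :: B).Perm (b :: (A ++ B)) := List.perm_middle
  have e1 := hE.up b B A hp
  have hn2 : (A ++ B ++ [b]).Nodup :=
    (List.perm_append_comm (l₁ := A ++ B) (l₂ := [b])).nodup_iff.2 (List.nodup_cons.1 hn).2
  have e2 := PS0_top (b := q) (ux_top hz) hn2 fun i hi => top_ne (hG.add i hi i hi)
  rw [List.append_assoc] at e2
  rw [hz, neg_neg] at e1
  rw [e1]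
  refine LinearMap.ext fun F => ?_
  have e3 := LinearMap.congr_fun e2 (uops.M (fun i => -z i) b (3 * Real.pi / 16) B.reverse F)
  rw [LinearMap.smul_apply] at e3
  simp only [PS, LinearMap.comp_apply, LinearMap.smul_apply, smul_eq_mul] at e3 ⊢
  rw [e3]
  ring

/-- **The trivial line leaves through the floor.** -/
theorem PHv_dn (hz : z b = 3 * Real.pi / 16) (hn : (b :: (A ++ B)).Nodup) (hc : c ∉ b :: (A ++ B))
    (hd : d ∉ b :: (A ++ B)) (hcd : c ≠ d) (hG : GT z (A ++ B)) :
    PH z (A ++ b :: B) = Kt z (A ++ B).toFinset •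
      (PH z (A ++ B) ∘ₗ uops.M z b (3 * Real.pi / 16) A) := by
  have hGb : Gz z (b :: (A ++ B)) := gz_triv (ε := 1) (Or.inl rfl) (by rw [hz]; ring) hG
  have hE := exl_PH hn hc hd hcd hGb
  have hp : (A ++ b :: B).Perm (b :: (A ++ B)) := List.perm_middle
  have e1 := hE.dn b A [] B (by rw [List.nil_append]; exact hp)
  rw [List.nil_append, List.nil_append, hz] at e1
  have e2 := PH_bot (ux_bot hz) hn (fun h => hc (List.mem_cons_of_mem _ h))
    (fun h => hd (List.mem_cons_of_mem _ h)) hcd hG.gz fun i hi => fa_ux (hG.add i hi i hi)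
  rw [e1]
  refine LinearMap.ext fun F => ?_
  have e3 := LinearMap.congr_fun e2 (uops.M z b (3 * Real.pi / 16) A F)
  rw [LinearMap.comp_apply, LinearMap.smul_apply, LinearMap.comp_apply]
  exact e3

theorem PSv_dn (hz : z b = 3 * Real.pi / 16) (hn : (q :: b :: (A ++ B)).Nodup)
    (hc : c ∉ q :: b :: (A ++ B)) (hd : d ∉ q :: b :: (A ++ B)) (hcd : c ≠ d) (hG : GT z (A ++ B)) :
    PS z q (A ++ b :: B) = Kt z (A ++ B).toFinset •
      ((PS z q (A ++ B) ∘ₗ uops.M z b (3 * Real.pi / 16) A) +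
        (PH z (A ++ B) ∘ₗ (opCu ℂ q b * uops.M z b (3 * Real.pi / 16) A))) := by
  have hGb : Gz z (b :: (A ++ B)) := gz_triv (ε := 1) (Or.inl rfl) (by rw [hz]; ring) hG
  have hE := exl_PS hn hc hd hcd hGb
  have hp : (A ++ b :: B).Perm (b :: (A ++ B)) := List.perm_middle
  have e1 := hE.dn b A [] B (by rw [List.nil_append]; exact hp)
  rw [List.nil_append, List.nil_append, hz] at e1
  have e2 := PS0_bot (ux_bot hz) hn (fun h => hc (List.mem_cons_of_mem _ (List.mem_cons_of_mem _ h)))
    (fun h => hd (List.mem_cons_of_mem _ (List.mem_cons_of_mem _ h))) hcd hG.gz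
    (fun i hi => fa_ux (hG.add i hi i hi)) fun i hi => Dn_ux' (hG.add i hi i hi)
  rw [e1]
  refine LinearMap.ext fun F => ?_
  have e3 := LinearMap.congr_fun e2 (uops.M z b (3 * Real.pi / 16) A F)
  have h2 : (2 * Fr.s2 : ℂ) ≠ 0 := s2_ne
  simp only [PS, LinearMap.comp_apply, LinearMap.smul_apply, LinearMap.add_apply, Module.End.mul_apply,
    smul_eq_mul] at e3 ⊢
  rw [e3]
  have h3 : (2 * Fr.s2 : ℂ)⁻¹ * (2 * Fr.s2) = 1 := inv_mul_cancel₀ h2
  linear_combination (Kt z (A ++ B).toFinset *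
    PH z (A ++ B) (opCu ℂ q b (uops.M z b (3 * Real.pi / 16) A F))) * h3

end vec

/-! ### The one leg function -/

section main

variable {ι : Type*} [DecidableEq ι] [Finite ι] {ω : ℂ} {z : ι → ℂ} {K L : List (ι × ι)}
  {a b q g c d : ι}

omit [Finite ι] in
/-- The full lines have the same factor on both sides. -/
theorem Kt_full (ho : OkT K L [a] [] q g a) (hz : ∀ t ∈ K ++ L, z t.2 = z t.1) :
    Kt (fun i => -z i) (lr K L [a]).toFinset =
      2 * Fm.Dn (ux (fun i => -z i) a) * Kt z (ll K L []).toFinset := by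
  have nR := ho.ndR
  have nL := ho.ndL
  have e1 : Kt (fun i => -z i) (lr K L [a]).toFinset =
      ((lr K L [a]).map fun k => 2 * Fm.Dn (ux (fun i => -z i) k)).prod := by
    unfold Kt
    exact List.prod_toFinset _ nR
  have e2 : Kt z (ll K L []).toFinset = ((ll K L []).map fun k => 2 * Fm.Dn (ux z k)).prod := by
    unfold Kt
    exact List.prod_toFinset _ nL
  have e3 : ∀ M : List (ι × ι), (∀ t ∈ M, z t.2 = z t.1) →
      ((M.map Prod.fst).map fun k => 2 * Fm.Dn (ux (fun i => -z i) k)).prod =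
        ((M.map Prod.snd).map fun k => 2 * Fm.Dn (ux z k)).prod := by
    intro M hM
    rw [List.map_map, List.map_map]
    congr 1
    refine List.map_congr_left fun t ht => ?_
    show 2 * Fm.Dn (3 * Real.pi / 16 - -z t.1) = 2 * Fm.Dn (3 * Real.pi / 16 - z t.2)
    rw [sub_neg_eq_add, ← Dn_even, hM t ht]
  rw [e1, e2]
  unfold lr ll
  simp only [List.map_append, List.prod_append, List.map_cons, List.map_nil, List.prod_cons, List.prod_nil]
  rw [e3 K fun t ht => hz t (List.mem_append_left _ ht), e3 L fun t ht => hz t (List.mem_append_right _ ht)]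
  ring

omit [Finite ι] [DecidableEq ι] in
/-- The sites of the full lines are different. -/
theorem pair_inj (ho : OkT K L [a] [] q g a) {t s : ι × ι} (ht : t ∈ K ++ L) (hs : s ∈ K ++ L)
    (h : t.1 = s.1) : t = s := by
  have hn : ((K ++ L).map Prod.fst).Nodup := by
    have := ho.nd
    unfold sites at this
    rw [List.append_assoc] at this
    exact (List.nodup_append.1 this).1
  exact List.inj_on_of_nodup_map hn ht hs h

omit [Finite ι] [DecidableEq ι] in
theorem GT_left (ho : OkT K L [a] [] q g a) (hz : ∀ t ∈ K ++ L, z t.2 = z t.1) (hG : GT z (lr K L [a])) :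
    GT z (ll K L []) := by
  have key : ∀ i ∈ ll K L [], ∃ t ∈ K ++ L, i = t.2 := by
    intro i hi
    unfold ll at hi
    simp only [List.nil_append, List.mem_append, List.mem_map] at hi
    rcases hi with ⟨t, ht, rfl⟩ | ⟨t, ht, rfl⟩
    · exact ⟨t, List.mem_append_left _ ht, rfl⟩
    · exact ⟨t, List.mem_append_right _ ht, rfl⟩
  have key2 : ∀ t ∈ K ++ L, t.1 ∈ lr K L [a] := by
    intro t ht
    unfold lr
    rcases List.mem_append.1 ht with h | h
    · exact List.mem_append_left _ (List.mem_map_of_mem h)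
    · exact List.mem_append_right _ (List.mem_append_right _ (List.mem_map_of_mem h))
  constructor
  · intro i hi j hj hij
    obtain ⟨t, ht, rfl⟩ := key i hi
    obtain ⟨s, hs, rfl⟩ := key j hj
    rw [hz t ht, hz s hs]
    refine hG.sub _ (key2 t ht) _ (key2 s hs) fun e => hij ?_
    rw [pair_inj ho ht hs e]
  · intro i hi j hj
    obtain ⟨t, ht, rfl⟩ := key i hi
    obtain ⟨s, hs, rfl⟩ := key j hj
    rw [hz t ht, hz s hs]
    exact hG.add _ (key2 t ht) _ (key2 s hs)

omit [Finite ι] in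
theorem M_congr_z {z z' : ι → ℂ} {e : ι} {w : ℂ} {X : List ι} (h : ∀ x ∈ X, z x = z' x) :
    (uops.M z e w X : Module.End ℂ (Pat ι → ℂ)) = uops.M z' e w X := by
  unfold Glob.Ops.M
  congr 1
  refine List.map_congr_left fun x hx => ?_
  rw [h x hx]

omit [Finite ι] [DecidableEq ι] in
/-- The sites. -/
theorem facts {A : List ι} (hA : A.Perm [a, b]) (hO : OkT K L A [] q g a) (hS : Spr K L A [] q g c d) :
    OkT K L [a] [] q g a ∧ Fr0 b a q (K ++ L) ∧ Fr0 b a g (K ++ L) ∧ Fr0 c a q (K ++ L) ∧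
    Fr0 c a g (K ++ L) ∧ (b ∉ lr K L [a] ∧ b ∉ ll K L [] ∧ c ∉ lr K L [a] ∧ c ∉ ll K L []) ∧
    (b ≠ c ∧ b ≠ q ∧ b ≠ g ∧ c ≠ q ∧ c ≠ g) ∧
    (∀ t ∈ K ++ L, t.1 ≠ q ∧ t.1 ≠ g ∧ t.2 ≠ q ∧ t.2 ≠ g) ∧
    (∀ t ∈ K ++ L, ∀ s ∈ K ++ L, t.2 ≠ s.1) ∧ q ≠ g ∧ a ≠ q ∧ a ≠ g := by
  set P := K ++ L with hP
  have hpA : (sites K L A [] q g).Perm (P.map Prod.fst ++ P.map Prod.snd ++ (q :: g :: [a, b])) := by
    unfold sites
    rw [List.append_nil]
    exact List.Perm.append_left _ ((hA.cons g).cons q)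
  have hn := hpA.nodup_iff.1 hO.nd
  have c1 : c ∉ P.map Prod.fst ++ P.map Prod.snd ++ (q :: g :: [a, b]) := fun h => hS.c (hpA.mem_iff.2 h)
  obtain ⟨n12, n4, n5⟩ := List.nodup_append.1 hn
  obtain ⟨n1, n2, n3⟩ := List.nodup_append.1 n12
  have f1 : ∀ t ∈ P, t.1 ∈ P.map Prod.fst := fun t ht => List.mem_map_of_mem ht
  have f2 : ∀ t ∈ P, t.2 ∈ P.map Prod.snd := fun t ht => List.mem_map_of_mem ht
  simp only [List.nodup_cons, List.mem_cons, List.not_mem_nil, or_false, not_or, List.nodup_nil, and_true,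
    not_false_eq_true] at n4
  obtain ⟨⟨qg, qa, qb⟩, ⟨ga, gb⟩, ab⟩ := n4
  simp only [List.mem_append, List.mem_cons, List.not_mem_nil, or_false, not_or] at c1
  obtain ⟨⟨cf, cs⟩, cq, cg, ca, cb⟩ := c1
  have k1 : ∀ t ∈ P, ∀ y ∈ [q, g, a, b], t.1 ≠ y := fun t ht y hy =>
    n5 _ (List.mem_append_left _ (f1 t ht)) y hy
  have k2 : ∀ t ∈ P, ∀ y ∈ [q, g, a, b], t.2 ≠ y := fun t ht y hy =>
    n5 _ (List.mem_append_right _ (f2 t ht)) y hy
  have mR : ∀ x, x ∈ lr K L [a] → x ∈ P.map Prod.fst ∨ x = a := by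
    intro x hx
    unfold lr at hx
    rw [hP, List.map_append]
    simp only [List.mem_append, List.mem_cons, List.not_mem_nil, or_false] at hx ⊢
    tauto
  have mL : ∀ x, x ∈ ll K L [] → x ∈ P.map Prod.snd := by
    intro x hx
    unfold ll at hx
    rw [hP, List.map_append]
    exact hx
  have bf : b ∉ P.map Prod.fst := fun h => by
    obtain ⟨t, ht, e⟩ := List.mem_map.1 h
    exact k1 t ht b (by simp) e
  have bs : b ∉ P.map Prod.snd := fun h => by
    obtain ⟨t, ht, e⟩ := List.mem_map.1 h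
    exact k2 t ht b (by simp) e
  refine ⟨⟨?_, by simp⟩, ⟨Ne.symm ab, Ne.symm qb, fun t ht => ⟨(k1 t ht b (by simp)).symm,
    (k2 t ht b (by simp)).symm⟩⟩, ⟨Ne.symm ab, Ne.symm gb, fun t ht => ⟨(k1 t ht b (by simp)).symm,
    (k2 t ht b (by simp)).symm⟩⟩, ⟨ca, cq, fun t ht => ⟨fun e => cf (e ▸ f1 t ht),
    fun e => cs (e ▸ f2 t ht)⟩⟩, ⟨ca, cg, fun t ht => ⟨fun e => cf (e ▸ f1 t ht),
    fun e => cs (e ▸ f2 t ht)⟩⟩, ⟨?_, fun h => bs (mL _ h), ?_, fun h => cs (mL _ h)⟩,
    ⟨Ne.symm cb, Ne.symm qb, Ne.symm gb, cq, cg⟩,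
    fun t ht => ⟨k1 t ht q (by simp), k1 t ht g (by simp), k2 t ht q (by simp), k2 t ht g (by simp)⟩,
    fun t ht s hs e => n3 _ (f1 s hs) _ (f2 t ht) e.symm, qg, Ne.symm qa, Ne.symm ga⟩
  · have hsub : (sites K L [a] [] q g).Sublist (P.map Prod.fst ++ P.map Prod.snd ++ (q :: g :: [a, b])) := by
      unfold sites
      rw [List.append_nil]
      refine List.Sublist.append_left ?_ _
      exact ((List.Sublist.refl [b]).cons₂ a |>.trans (List.Sublist.refl _) |> fun _ => by
        simp)
    exact hn.sublist hsub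
  · intro h
    rcases mR _ h with h | h
    · exact bf h
    · exact ab h.symm
  · intro h
    rcases mR _ h with h | h
    · exact cf h
    · exact ca h

theorem chX_lab {e : ι} {t : ι × ι} (he : t.1 ≠ e) (ht : t ∈ L) : chX L e t.1 = (1, 0) := by
  unfold chX chw
  rw [Pi.add_apply, Pi.single_eq_of_ne he, if_pos (List.mem_map_of_mem ht), add_zero]

theorem chX_0 {e x : ι} (he : x ≠ e) (hx : ∀ s ∈ L, x ≠ s.1) : chX L e x = 0 := by
  unfold chX chw
  rw [Pi.add_apply, Pi.single_eq_of_ne he, if_neg, add_zero]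
  · rfl
  · intro h
    obtain ⟨s, hs, e1⟩ := List.mem_map.1 h
    exact hx s hs e1.symm

/-- **The upper empty line on the right at the trivial point = the left empty line at the trivial point.** -/
theorem TT_hi (hO : OkT K L [a, b] [] q g a) (hS : Spr K L [a, b] [] q g c d)
    (hz : ∀ t ∈ K ++ L, z t.2 = z t.1) (hG : GT z (lr K L [a])) (hb : z b = 3 * Real.pi / 16) :
    WT ω z K L [a, b] [] q g a = 2 * Fm.Dn (ux (fun i => -z i) a) *
      WT ω (Function.update z b (-(3 * Real.pi / 16))) K L [a] [b] q g a := by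
  obtain ⟨ho, fbq, fbg, fcq, fcg, ⟨b1, b2, c1, c2⟩, ⟨bc, bq, bg, cq, cg⟩, ht1, ht2, qg, aq, ag⟩ :=
    facts (List.Perm.refl _) hO hS
  have hGL := GT_left ho hz hG
  set z' := Function.update z b (-(3 * Real.pi / 16)) with hz'
  have hz'b : z' b = -(3 * Real.pi / 16) := Function.update_self ..
  have ez : ∀ x, x ≠ b → z x = z' x := fun x hx => (Function.update_of_ne hx _ _).symm
  set Rl := lr K L [a] with hRl
  set Ll := ll K L [] with hLl
  have eR : lr K L [a, b] = (K.map Prod.fst ++ [a]) ++ b :: L.map Prod.fst := by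
    unfold lr
    simp
  have eR' : (K.map Prod.fst ++ [a]) ++ L.map Prod.fst = Rl := by
    rw [hRl]
    unfold lr
    simp
  have eL : ll K L [b] = K.map Prod.snd ++ b :: L.map Prod.snd := rfl
  have eL' : K.map Prod.snd ++ L.map Prod.snd = Ll := rfl
  -- nodup
  have nR : Rl.Nodup := ho.ndR
  have nL : Ll.Nodup := ho.ndL
  have qR := ho.outR
  have qL := ho.outL
  have hcR := hS.hR
  have hdR := hS.hR.2
  have hdl : ∀ x, x ∈ lr K L [a, b] ↔ x = b ∨ x ∈ Rl := by
    intro x
    rw [eR, ← eR']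
    simp only [List.mem_append, List.mem_cons]
    tauto
  have dR : d ∉ b :: Rl := by
    intro h
    rcases List.mem_cons.1 h with h | h
    · exact hdR (List.mem_cons_of_mem _ ((hdl d).2 (Or.inl h)))
    · exact hdR (List.mem_cons_of_mem _ ((hdl d).2 (Or.inr h)))
  have dq : d ≠ q := fun e => hdR (by simp [e])
  have cd := hS.ne
  have hdL := hS.hL.2
  have dg : d ≠ g := fun e => hdL (by simp [e])
  have dL : d ∉ b :: Ll := by
    intro h
    rcases List.mem_cons.1 h with h | h
    · exact hdR (List.mem_cons_of_mem _ ((hdl d).2 (Or.inl h)))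
    · exact hdL (List.mem_cons_of_mem _ h)
  have cR : c ∉ b :: Rl := by
    intro h
    rcases List.mem_cons.1 h with h | h
    · exact bc h.symm
    · exact c1 h
  have cL : c ∉ b :: Ll := by
    intro h
    rcases List.mem_cons.1 h with h | h
    · exact bc h.symm
    · exact c2 h
  -- the factors
  set κR := Kt (fun i => -z i) Rl.toFinset with hκR
  set κL := Kt z Ll.toFinset with hκL
  have hκ : κR = 2 * Fm.Dn (ux (fun i => -z i) a) * κL := Kt_full ho hz
  have ezL : ∀ x ∈ Ll, z' x = z x := fun x hx => (ez x (fun e => b2 (e ▸ hx))).symm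
  have eκ : Kt z' Ll.toFinset = κL := by
    rw [hκL]
    unfold Kt ux
    refine Finset.prod_congr rfl fun x hx => ?_
    rw [ezL x (List.mem_toFinset.1 hx)]
  have hzz : (fun i => -(fun i => -z i) i) = z := by
    funext i
    exact neg_neg _
  -- the right side
  have hGR : GT (fun i => -z i) ((K.map Prod.fst ++ [a]) ++ L.map Prod.fst) := by
    rw [eR']
    exact hG.neg
  have r1 := PHv_up (z := fun i => -z i) (b := b) (c := c) (d := d) (A := K.map Prod.fst ++ [a])
    (B := L.map Prod.fst) (by show -z b = _; rw [hb]) (by rw [eR']; exact List.nodup_cons.2 ⟨b1, nR⟩)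
    (by rw [eR']; exact cR) (by rw [eR']; exact dR) cd hGR
  have r2 := PSv_up (z := fun i => -z i) (b := b) (c := c) (d := d) (q := q) (A := K.map Prod.fst ++ [a])
    (B := L.map Prod.fst) (by show -z b = _; rw [hb])
    (by
      rw [eR']
      refine List.nodup_cons.2 ⟨?_, List.nodup_cons.2 ⟨b1, nR⟩⟩
      intro h
      rcases List.mem_cons.1 h with h | h
      · exact bq h.symm
      · exact qR.1 h)
    (by
      rw [eR']
      intro h
      rcases List.mem_cons.1 h with h | h
      · exact cq h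
      · exact cR h)
    (by
      rw [eR']
      intro h
      rcases List.mem_cons.1 h with h | h
      · exact dq h
      · exact dR h) cd hGR
  rw [eR', hzz, ← eR] at r1 r2
  -- the left side
  have hGL' : GT z' Ll := hGL.congr fun x hx => (ezL x hx).symm
  have l1 := PHv_up (z := z') (b := b) (c := c) (d := d) (A := K.map Prod.snd)
    (B := L.map Prod.snd) hz'b (by rw [eL']; exact List.nodup_cons.2 ⟨b2, nL⟩)
    (by rw [eL']; exact cL) (by rw [eL']; exact dL) cd (by rw [eL']; exact hGL')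
  have l2 := PSv_up (z := z') (b := b) (c := c) (d := d) (q := g) (A := K.map Prod.snd)
    (B := L.map Prod.snd) hz'b
    (by
      rw [eL']
      refine List.nodup_cons.2 ⟨?_, List.nodup_cons.2 ⟨b2, nL⟩⟩
      intro h
      rcases List.mem_cons.1 h with h | h
      · exact bg h.symm
      · exact qL.2.1 h)
    (by
      rw [eL']
      intro h
      rcases List.mem_cons.1 h with h | h
      · exact cg h
      · exact cL h)
    (by
      rw [eL']
      intro h
      rcases List.mem_cons.1 h with h | h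
      · exact dg h
      · exact dL h) cd (by rw [eL']; exact hGL')
  have eM : (uops.M (fun i => -z' i) b (3 * Real.pi / 16) (L.map Prod.snd).reverse :
      Module.End ℂ (Pat ι → ℂ)) =
      uops.M (fun i => -z i) b (3 * Real.pi / 16) (L.map Prod.snd).reverse := by
    refine M_congr_z fun x hx => ?_
    have hx' := List.mem_reverse.1 hx
    rw [ezL x]
    rw [← eL']
    exact List.mem_append_right _ hx'
  rw [eL', ← eL, eκ, eM, PH_congr ezL] at l1
  rw [eL', ← eL, eκ, eM, PS_congr ezL] at l2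
  have p1 : PH (fun i => -z' i) Rl = PH (fun i => -z i) Rl :=
    PH_congr fun x hx => by
      show -z' x = -z x
      rw [ez x (fun e => b1 (e ▸ hx))]
  have p2 : PS (fun i => -z' i) q Rl = PS (fun i => -z i) q Rl :=
    PS_congr fun x hx => by
      show -z' x = -z x
      rw [ez x (fun e => b1 (e ▸ hx))]
  -- the pairing
  have hP1 : Gd ((a, q) :: (K ++ L)) := ho.gdq
  have hP2 : Gd ((a, g) :: (K ++ L)) := ho.gdg
  have nLf : (L.map Prod.fst).Nodup := by
    refine nR.sublist ?_
    rw [← eR']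
    exact List.sublist_append_right _ _
  have mR : ∀ t ∈ L, t.1 ∈ Rl := fun t ht => by
    rw [← eR']
    exact List.mem_append_right _ (List.mem_map_of_mem ht)
  have mL : ∀ t ∈ L, t.2 ∈ Ll := fun t ht => by
    rw [← eL']
    exact List.mem_append_right _ (List.mem_map_of_mem ht)
  have w1 := Wp_half (nuw_neg ω) (nuw_zero ω) (ℓ := ((1, 0) : ℤ × ℤ)) (χ := chX L q) (m := a) (q := q)
    (b := b) (d := c) (h := b) (P := K ++ L) (Ls := L) (z := z) (V := PS (fun i => -z i) q Rl)
    (V' := PH z Ll) hP1 (fun t ht => List.mem_append_right _ ht) nLf (sRq (fun i => -z i) K L [a] q)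
    (sL z K L []) ho.disjR bc bc.symm
    (by
      rintro (e | e)
      · exact bq e
      · exact b1 e)
    (by
      rintro (e | e)
      · exact cq e
      · exact c1 e)
    (by
      rintro (e | e)
      · exact bq e
      · exact b1 e) b2 c2 b2 fbq fcq fbq (fun t ht => by
      have ht' : t ∈ K ++ L := List.mem_append_right _ ht
      refine ⟨Or.inr (mR t ht), mL t ht, chX_lab (ht1 t ht').1 ht, ?_, hz t ht', okC_hh
        (hG.add _ (mR t ht) _ (mR t ht))⟩
      rw [chX_0 (ht1 t ht').2.2.1 fun s hs => ht2 t ht' s (List.mem_append_right _ hs),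
        chX_0 bq fun s hs => (fbq.2.2 s (List.mem_append_right _ hs)).1])
  have w2 := Wp_half (nuw_neg ω) (nuw_zero ω) (ℓ := ((1, 0) : ℤ × ℤ)) (χ := chX L g) (m := a) (q := g)
    (b := b) (d := c) (h := b) (P := K ++ L) (Ls := L) (z := z) (V := PH (fun i => -z i) Rl)
    (V' := PS z g Ll) hP2 (fun t ht => List.mem_append_right _ ht) nLf (sR (fun i => -z i) K L [a])
    (sLg z K L [] g) ho.disjL bc bc.symm b1 c1 b1
    (by
      rintro (e | e)
      · exact bg e
      · exact b2 e)
    (by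
      rintro (e | e)
      · exact cg e
      · exact c2 e)
    (by
      rintro (e | e)
      · exact bg e
      · exact b2 e) fbg fcg fbg (fun t ht => by
      have ht' : t ∈ K ++ L := List.mem_append_right _ ht
      refine ⟨mR t ht, Or.inr (mL t ht), chX_lab (ht1 t ht').2.1 ht, ?_, hz t ht', okC_hh
        (hG.add _ (mR t ht) _ (mR t ht))⟩
      rw [chX_0 (ht1 t ht').2.2.2 fun s hs => ht2 t ht' s (List.mem_append_right _ hs),
        chX_0 bg fun s hs => (fbg.2.2 s (List.mem_append_right _ hs)).1])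
  unfold WT WR WG
  rw [r1, r2, l1, l2, p1, p2, Wp_smul, Wp_smul, Wp_smul', Wp_smul', w1, w2, ← hκR, hκ]
  ring

/-- **The lower empty line on the right at the trivial point = the left empty line at the trivial point.** -/
theorem TT_lo (hO : OkT K L [b, a] [] q g a) (hS : Spr K L [b, a] [] q g c d)
    (hz : ∀ t ∈ K ++ L, z t.2 = z t.1) (hG : GT z (lr K L [a])) (hb : z b = -(3 * Real.pi / 16)) :
    WT ω z K L [b, a] [] q g a = 2 * Fm.Dn (ux (fun i => -z i) a) *
      WT ω (Function.update z b (3 * Real.pi / 16)) K L [a] [b] q g a := by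
  obtain ⟨ho, fbq, fbg, fcq, fcg, ⟨b1, b2, c1, c2⟩, ⟨bc, bq, bg, cq, cg⟩, ht1, ht2, qg, aq, ag⟩ :=
    facts (List.Perm.swap _ _ _) hO hS
  have hGL := GT_left ho hz hG
  set z' := Function.update z b (3 * Real.pi / 16) with hz'
  have hz'b : z' b = 3 * Real.pi / 16 := Function.update_self ..
  have ez : ∀ x, x ≠ b → z x = z' x := fun x hx => (Function.update_of_ne hx _ _).symm
  set Rl := lr K L [a] with hRl
  set Ll := ll K L [] with hLl
  have eR : lr K L [b, a] = K.map Prod.fst ++ b :: (a :: L.map Prod.fst) := rfl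
  have eR' : K.map Prod.fst ++ (a :: L.map Prod.fst) = Rl := rfl
  have eL : ll K L [b] = K.map Prod.snd ++ b :: L.map Prod.snd := rfl
  have eL' : K.map Prod.snd ++ L.map Prod.snd = Ll := rfl
  have nR : Rl.Nodup := ho.ndR
  have nL : Ll.Nodup := ho.ndL
  have qR := ho.outR
  have qL := ho.outL
  have hdR := hS.hR.2
  have hdl : ∀ x, x ∈ lr K L [b, a] ↔ x = b ∨ x ∈ Rl := by
    intro x
    rw [eR, ← eR']
    simp only [List.mem_append, List.mem_cons]
    tauto
  have dR : d ∉ b :: Rl := by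
    intro h
    rcases List.mem_cons.1 h with h | h
    · exact hdR (List.mem_cons_of_mem _ ((hdl d).2 (Or.inl h)))
    · exact hdR (List.mem_cons_of_mem _ ((hdl d).2 (Or.inr h)))
  have dq : d ≠ q := fun e => hdR (by simp [e])
  have cd := hS.ne
  have hdL := hS.hL.2
  have dg : d ≠ g := fun e => hdL (by simp [e])
  have dL : d ∉ b :: Ll := by
    intro h
    rcases List.mem_cons.1 h with h | h
    · exact hdR (List.mem_cons_of_mem _ ((hdl d).2 (Or.inl h)))
    · exact hdL (List.mem_cons_of_mem _ h)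
  have cR : c ∉ b :: Rl := by
    intro h
    rcases List.mem_cons.1 h with h | h
    · exact bc h.symm
    · exact c1 h
  have cL : c ∉ b :: Ll := by
    intro h
    rcases List.mem_cons.1 h with h | h
    · exact bc h.symm
    · exact c2 h
  set κR := Kt (fun i => -z i) Rl.toFinset with hκR
  set κL := Kt z Ll.toFinset with hκL
  have hκ : κR = 2 * Fm.Dn (ux (fun i => -z i) a) * κL := Kt_full ho hz
  have ezL : ∀ x ∈ Ll, z' x = z x := fun x hx => (ez x (fun e => b2 (e ▸ hx))).symm
  have eκ : Kt z' Ll.toFinset = κL := by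
    rw [hκL]
    unfold Kt ux
    refine Finset.prod_congr rfl fun x hx => ?_
    rw [ezL x (List.mem_toFinset.1 hx)]
  have hzz : (fun i => -(fun i => -z i) i) = z := by
    funext i
    exact neg_neg _
  -- the right side
  have r1 := PHv_dn (z := fun i => -z i) (b := b) (c := c) (d := d) (A := K.map Prod.fst)
    (B := a :: L.map Prod.fst) (by show -z b = _; rw [hb, neg_neg])
    (by rw [eR']; exact List.nodup_cons.2 ⟨b1, nR⟩)
    (by rw [eR']; exact cR) (by rw [eR']; exact dR) cd hG.neg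
  have r2 := PSv_dn (z := fun i => -z i) (b := b) (c := c) (d := d) (q := q) (A := K.map Prod.fst)
    (B := a :: L.map Prod.fst) (by show -z b = _; rw [hb, neg_neg])
    (by
      rw [eR']
      refine List.nodup_cons.2 ⟨?_, List.nodup_cons.2 ⟨b1, nR⟩⟩
      intro h
      rcases List.mem_cons.1 h with h | h
      · exact bq h.symm
      · exact qR.1 h)
    (by
      rw [eR']
      intro h
      rcases List.mem_cons.1 h with h | h
      · exact cq h
      · exact cR h)
    (by
      rw [eR']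
      intro h
      rcases List.mem_cons.1 h with h | h
      · exact dq h
      · exact dR h) cd hG.neg
  rw [eR', ← eR] at r1 r2
  -- the left side
  have hGL' : GT z' Ll := hGL.congr fun x hx => (ezL x hx).symm
  have l1 := PHv_dn (z := z') (b := b) (c := c) (d := d) (A := K.map Prod.snd)
    (B := L.map Prod.snd) hz'b (by rw [eL']; exact List.nodup_cons.2 ⟨b2, nL⟩)
    (by rw [eL']; exact cL) (by rw [eL']; exact dL) cd (by rw [eL']; exact hGL')
  have l2 := PSv_dn (z := z') (b := b) (c := c) (d := d) (q := g) (A := K.map Prod.snd)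
    (B := L.map Prod.snd) hz'b
    (by
      rw [eL']
      refine List.nodup_cons.2 ⟨?_, List.nodup_cons.2 ⟨b2, nL⟩⟩
      intro h
      rcases List.mem_cons.1 h with h | h
      · exact bg h.symm
      · exact qL.2.1 h)
    (by
      rw [eL']
      intro h
      rcases List.mem_cons.1 h with h | h
      · exact cg h
      · exact cL h)
    (by
      rw [eL']
      intro h
      rcases List.mem_cons.1 h with h | h
      · exact dg h
      · exact dL h) cd (by rw [eL']; exact hGL')
  have eM : (uops.M z' b (3 * Real.pi / 16) (K.map Prod.snd) : Module.End ℂ (Pat ι → ℂ)) =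
      uops.M z b (3 * Real.pi / 16) (K.map Prod.snd) := by
    refine M_congr_z fun x hx => ?_
    rw [ezL x]
    rw [← eL']
    exact List.mem_append_left _ hx
  rw [eL', ← eL, eκ, eM, PH_congr ezL] at l1
  rw [eL', ← eL, eκ, eM, PS_congr ezL, PH_congr ezL] at l2
  have p1 : PH (fun i => -z' i) Rl = PH (fun i => -z i) Rl :=
    PH_congr fun x hx => by
      show -z' x = -z x
      rw [ez x (fun e => b1 (e ▸ hx))]
  have p2 : PS (fun i => -z' i) q Rl = PS (fun i => -z i) q Rl :=
    PS_congr fun x hx => by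
      show -z' x = -z x
      rw [ez x (fun e => b1 (e ▸ hx))]
  -- the pairing
  have hP1 : Gd ((a, q) :: (K ++ L)) := ho.gdq
  have hP2 : Gd ((a, g) :: (K ++ L)) := ho.gdg
  have nKf : (K.reverse.map Prod.fst).Nodup := by
    rw [List.map_reverse, List.nodup_reverse]
    refine nR.sublist ?_
    rw [← eR']
    exact List.sublist_append_left _ _
  have nKs : (K.map Prod.snd).Nodup := by
    refine nL.sublist ?_
    rw [← eL']
    exact List.sublist_append_left _ _
  have mR : ∀ t ∈ K, t.1 ∈ Rl := fun t ht => by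
    rw [← eR']
    exact List.mem_append_left _ (List.mem_map_of_mem ht)
  have mL : ∀ t ∈ K, t.2 ∈ Ll := fun t ht => by
    rw [← eL']
    exact List.mem_append_left _ (List.mem_map_of_mem ht)
  have hnKL : ∀ t ∈ K, ∀ s ∈ L, t.1 ≠ s.1 := by
    intro t ht s hs
    have h1 := nR
    rw [← eR'] at h1
    exact (List.nodup_append.1 h1).2.2 _ (List.mem_map_of_mem ht) _
      (List.mem_cons_of_mem _ (List.mem_map_of_mem hs))
  have rv1 : (K.reverse.map Prod.fst).reverse = K.map Prod.fst := by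
    rw [List.map_reverse, List.reverse_reverse]
  have rv2 : (K.reverse.map Prod.snd).reverse = K.map Prod.snd := by
    rw [List.map_reverse, List.reverse_reverse]
  have w1 := Wp_half (nuw_neg ω) (nuw_zero ω) (ℓ := (0 : ℤ × ℤ)) (χ := chX L q) (m := a) (q := q)
    (b := b) (d := c) (h := b) (P := K ++ L) (Ls := K.reverse) (z := fun i => -z i)
    (V := PS (fun i => -z i) q Rl)
    (V' := PH z Ll) hP1 (fun t ht => List.mem_append_left _ (List.mem_reverse.1 ht)) nKf
    (sRq (fun i => -z i) K L [a] q)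
    (sL z K L []) ho.disjR bc bc.symm
    (by
      rintro (e | e)
      · exact bq e
      · exact b1 e)
    (by
      rintro (e | e)
      · exact cq e
      · exact c1 e)
    (by
      rintro (e | e)
      · exact bq e
      · exact b1 e) b2 c2 b2 fbq fcq fbq (fun t ht => by
      have ht0 := List.mem_reverse.1 ht
      have ht' : t ∈ K ++ L := List.mem_append_left _ ht0
      refine ⟨Or.inr (mR t ht0), mL t ht0, chX_0 (ht1 t ht').1 (hnKL t ht0), ?_, ?_, okC_hh
        (hG.neg.add _ (mR t ht0) _ (mR t ht0))⟩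
      · rw [chX_0 (ht1 t ht').2.2.1 fun s hs => ht2 t ht' s (List.mem_append_right _ hs),
          chX_0 bq fun s hs => (fbq.2.2 s (List.mem_append_right _ hs)).1]
      · show -z t.2 = -z t.1
        rw [hz t ht'])
  have w2 := Wp_half (nuw_neg ω) (nuw_zero ω) (ℓ := (0 : ℤ × ℤ)) (χ := chX L g) (m := a) (q := g)
    (b := b) (d := c) (h := b) (P := K ++ L) (Ls := K.reverse) (z := fun i => -z i)
    (V := PH (fun i => -z i) Rl)
    (V' := PS z g Ll) hP2 (fun t ht => List.mem_append_left _ (List.mem_reverse.1 ht)) nKf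
    (sR (fun i => -z i) K L [a])
    (sLg z K L [] g) ho.disjL bc bc.symm b1 c1 b1
    (by
      rintro (e | e)
      · exact bg e
      · exact b2 e)
    (by
      rintro (e | e)
      · exact cg e
      · exact c2 e)
    (by
      rintro (e | e)
      · exact bg e
      · exact b2 e) fbg fcg fbg (fun t ht => by
      have ht0 := List.mem_reverse.1 ht
      have ht' : t ∈ K ++ L := List.mem_append_left _ ht0
      refine ⟨mR t ht0, Or.inr (mL t ht0), chX_0 (ht1 t ht').2.1 (hnKL t ht0), ?_, ?_, okC_hh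
        (hG.neg.add _ (mR t ht0) _ (mR t ht0))⟩
      · rw [chX_0 (ht1 t ht').2.2.2 fun s hs => ht2 t ht' s (List.mem_append_right _ hs),
          chX_0 bg fun s hs => (fbg.2.2 s (List.mem_append_right _ hs)).1]
      · show -z t.2 = -z t.1
        rw [hz t ht'])
  have w3 := Wp_halfX (nuw_neg ω) (nuw_zero ω) (χ := chX L q) (χ' := chX L g) (m := a) (q := q) (g := g)
    (a := b) (h := b) (P := K ++ L) (Ls := K) (z := fun i => -z i) (V := PH (fun i => -z i) Rl)
    (V' := PH z Ll) hP1 hP2 (fun t ht => List.mem_append_left _ ht) nKs (sR (fun i => -z i) K L [a])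
    (sL z K L []) ho.disj bq.symm bg qg bg.symm qR.1 b1 qR.2.1 b1 qL.1 b2 qL.2.1 b2 fbq fbg
    (chX_0 bq fun s hs => (fbq.2.2 s (List.mem_append_right _ hs)).1)
    (chX_0 qg.symm fun s hs => (ht1 s (List.mem_append_right _ hs)).2.1.symm)
    (fun x hx => by
      have h1 : x ≠ q ∧ x ≠ g := by
        rcases hx with hx | hx
        · exact ⟨fun e => qR.1 (e ▸ hx), fun e => qR.2.1 (e ▸ hx)⟩
        · exact ⟨fun e => qL.1 (e ▸ hx), fun e => qL.2.1 (e ▸ hx)⟩
      unfold chX
      rw [Pi.add_apply, Pi.add_apply, Pi.single_eq_of_ne h1.1, Pi.single_eq_of_ne h1.2])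
    (by
      unfold chX chw
      rw [Pi.add_apply, Pi.add_apply, Pi.single_eq_same, Pi.single_eq_same, if_neg, if_neg]
      · intro h
        obtain ⟨s, hs, e⟩ := List.mem_map.1 h
        exact (ht1 s (List.mem_append_right _ hs)).1 e
      · intro h
        obtain ⟨s, hs, e⟩ := List.mem_map.1 h
        exact (ht1 s (List.mem_append_right _ hs)).2.1 e)
    (fun t ht => by
      have ht' : t ∈ K ++ L := List.mem_append_left _ ht
      refine ⟨mR t ht, mL t ht, chX_0 (ht1 t ht').1 (hnKL t ht), chX_0 (ht1 t ht').2.2.1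
        fun s hs => ht2 t ht' s (List.mem_append_right _ hs), ?_, ?_⟩
      · show -z t.2 = -z t.1
        rw [hz t ht']
      · show OkC (3 * Real.pi / 16 - -z t.1)
        rw [sub_neg_eq_add]
        exact okC_hh (hG.add _ (mR t ht) _ (mR t ht)))
  rw [rv1, rv2, hzz] at w1 w2
  rw [hzz] at w3
  unfold WT WR WG
  rw [r1, r2, l1, l2, p1, p2, Wp_smul, Wp_smul, Wp_smul', Wp_smul', Wp_add, Wp_add', w1, w2, w3, ← hκR, hκ]
  ring

end main

end Pool.Agent.TC
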