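import Pool.Agent.TC.LineP
import Pool.Agent.TC.Can1
import Pool.Agent.TC.TrivW

/-!
# The fields `trX`, `trY` of the one leg functions of the strip (helper25)

`val_lim`: the value of the polynomial of a line at any point, by continuity.  `trX_of`, `trY_of`: the fields from
the trivial line at the canonical sites.
-/

set_option autoImplicit false

namespace Pool.Agent.TC

open _root_.Pool.Agent.EXL _root_.Pool.Agent.NUF _root_.Pool.Agent.NUU _root_.Pool.Agent.NUT2
open _root_.Pool.Agent.NUTV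
open _root_.Pool.Agent.EXL.Fm (lam)
open _root_.Pool.Agent.NUF.Fr (TP)
open Complex (I exp sin cos)
open Filter Topology
open scoped Polynomial

section val

/-- **The value of the polynomial of a line at any point.** -/
theorem val_lim {S : List ℂ} (hG : _root_.TC.GC NUTP.th S) {F f : ℂ → ℂ} {k : ℕ} {P : ℂ[X]} {c : ℂ}
    (hf : Continuous f) (hP : ∀ b, _root_.TC.GC NUTP.th (b :: S) → b ^ k * F b = P.eval (b ^ 2))
    (hF : ∀ s, _root_.TC.GC NUTP.th (exp (I * s) :: S) → F (exp (I * s)) = f s / c) (s0 : ℂ) :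
    exp (I * s0) ^ k * (f s0 / c) = P.eval (exp (I * s0) ^ 2) := by
  have c1 : Continuous fun s : ℂ => exp (I * s) ^ k * (f s / c) :=
    ((by fun_prop : Continuous fun s : ℂ => exp (I * s) ^ k)).mul (hf.div_const c)
  have c2 : Continuous fun s : ℂ => P.eval (exp (I * s) ^ 2) :=
    P.continuous.comp (by fun_prop)
  have h1 : Tendsto (fun s : ℂ => exp (I * s) ^ k * (f s / c)) (𝓝[≠] s0)
      (𝓝 (exp (I * s0) ^ k * (f s0 / c))) := (c1.tendsto s0).mono_left nhdsWithin_le_nhds
  have h2 : Tendsto (fun s : ℂ => P.eval (exp (I * s) ^ 2)) (𝓝[≠] s0)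
      (𝓝 (P.eval (exp (I * s0) ^ 2))) := (c2.tendsto s0).mono_left nhdsWithin_le_nhds
  refine tendsto_nhds_unique_of_eventuallyEq h1 h2 ?_
  filter_upwards [gc_near hG s0] with s hs
  rw [← hF s hs, hP _ hs]

theorem th16 : NUTP.th ^ 16 = 1 := by
  have h := NUTP.th8
  rw [show (16 : ℕ) = 8 * 2 by norm_num, pow_mul, h]
  norm_num

theorem exp_hi : exp (I * (3 * Real.pi / 16)) ^ 2 = NUTP.th ^ 3 := by
  unfold NUTP.th NUTP.ea
  rw [← Complex.exp_nat_mul, ← Complex.exp_nat_mul, lamN]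
  congr 1
  unfold EXL.Fm.lam
  push_cast
  ring

theorem exp_lo : exp (I * -(3 * Real.pi / 16)) ^ 2 = NUTP.th ^ 13 := by
  have h1 : exp (I * (3 * Real.pi / 16)) ^ 2 * exp (I * -(3 * Real.pi / 16)) ^ 2 = 1 := by
    rw [← mul_pow, ← Complex.exp_add]
    rw [show I * (3 * Real.pi / 16) + I * -(3 * Real.pi / 16) = 0 by ring, Complex.exp_zero, one_pow]
  have h2 : NUTP.th ^ 3 * NUTP.th ^ 13 = 1 := by
    rw [← pow_add]
    exact th16
  rw [exp_hi] at h1
  have h3 : NUTP.th ^ 3 ≠ 0 := pow_ne_zero _ (NUTP.ea_ne _)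
  exact mul_left_cancel₀ h3 (h1.trans h2.symm)

/-- the factor of the occupied line -/
theorem Dn_kp {a : ℂ} (ha : a ≠ 0) : Fm.Dn (3 * Real.pi / 16 - -lg a) = _root_.TC.kp NUTP.th a := by
  have h1 : sin (2 * lam + (3 * Real.pi / 16 - -lg a)) = cos (lg a - lam / 2) := by
    rw [← Complex.sin_pi_div_two_sub, ← Complex.sin_pi_sub]
    congr 1
    unfold EXL.Fm.lam
    ring
  have h2 : sin (3 * lam + (3 * Real.pi / 16 - -lg a)) = cos (lg a + lam / 2) := by
    rw [← Complex.sin_pi_div_two_sub, ← Complex.sin_pi_sub]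
    congr 1
    unfold EXL.Fm.lam
    ring
  have h3 : NUTP.cs (a ^ 2) = cos (2 * lg a) := by
    unfold NUTP.cs
    rw [Complex.cos, ← exp_lg ha, ← Complex.exp_nat_mul, ← Complex.exp_neg, exp_lg ha]
    congr 2
    · congr 1
      push_cast
      ring
    · congr 1
      push_cast
      ring
  have h4 : NUTP.cs NUTP.th = cos lam := by
    unfold NUTP.cs NUTP.th NUTP.ea
    rw [Complex.cos, ← Complex.exp_neg, lamN]
    congr 2
    · congr 1
      ring
    · congr 1
      ring
  unfold Fm.Dn _root_.TC.kp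
  rw [h1, h2, h3, h4, Complex.cos_sub, Complex.cos_add, Complex.cos_two_mul]
  have e : cos lam = 2 * cos (lam / 2) ^ 2 - 1 := by
    rw [← Complex.cos_two_mul]
    congr 1
    ring
  have e2 := Complex.sin_sq_add_cos_sq (lam / 2)
  have e3 := Complex.sin_sq_add_cos_sq (lg a)
  rw [e]
  linear_combination (-(sin (lg a) ^ 2)) * e2 + (cos (lam / 2) ^ 2 - 1) * e3

end val

section can

variable {ω : ℂ} {K L : List ℂ} {a : ℂ}

/-- The function depends on the exponentials only. -/
theorem WT_cexp {ι : Type*} [DecidableEq ι] {z z' : ι → ℂ} {K L : List (ι × ι)} {A B : List ι}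
    {q g m : ι} (hO : OkT K L A B q g m)
    (hz : ∀ x, x ∈ lr K L A ∨ x ∈ ll K L B → exp (I * z' x) = exp (I * z x)) :
    WT ω z' K L A B q g m = WT ω z K L A B q g m := by
  have h := WT_map (ω := ω) (e := id) Function.injective_id hO hz
  have e1 : ∀ M : List (ι × ι), M.map (Prod.map id id) = M := fun M => by simp
  rw [e1, e1, List.map_id, List.map_id] at h
  exact h

theorem ez_upd (v : Fin 6 → ℂ) (j : Fin 6) (s : ℂ) (x : Sc K.length L.length) :
    exp (I * zc K L (Function.update v j (exp (I * s))) x) =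
      exp (I * Function.update (zc K L v) (sc j) s x) := by
  rcases x with x | x | k
  · rw [Function.update_of_ne (by simp [sc])]
    rfl
  · rw [Function.update_of_ne (by simp [sc])]
    rfl
  · by_cases h : k = j
    · subst h
      have e : Function.update (zc K L v) (sc k) s (Sum.inr (Sum.inr k)) = s := Function.update_self _ _ _
      rw [e]
      show exp (I * lg (Function.update v k (exp (I * s)) k)) = _
      rw [Function.update_self, exp_lg (Complex.exp_ne_zero _)]
    · have h' : (Sum.inr (Sum.inr k) : Sc K.length L.length) ≠ sc j := by simpa [sc] using h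
      rw [Function.update_of_ne h']
      show exp (I * lg (Function.update v j (exp (I * s)) k)) = exp (I * lg (v k))
      rw [Function.update_of_ne h]

/-- One line of a canonical configuration as a variable. -/
theorem WT_updC (v : Fin 6 → ℂ) (j : Fin 6) (s : ℂ) {A B : List (Fin 6)}
    (hA : (0 :: 1 :: (A ++ B)).Nodup) {m : Fin 6} (hm : m ∈ A ++ B) :
    WT ω (zc K L (Function.update v j (exp (I * s)))) (Ic _ _) (Jc _ _) (A.map sc) (B.map sc) (sc 0)
      (sc 1) (sc m) =
    WT ω (Function.update (zc K L v) (sc j) s) (Ic _ _) (Jc _ _) (A.map sc) (B.map sc) (sc 0)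
      (sc 1) (sc m) :=
  WT_cexp (okT_can hA hm) fun x _ => ez_upd v j s x

/-- An ended line at `± 3 π / 16` is generic with respect to generic lines. -/
theorem df_triv {x : ℂ} (h : Sm x x) {s : ℂ} (hs : s = 3 * Real.pi / 16 ∨ s = -(3 * Real.pi / 16)) :
    Df x s := by
  intro k h0
  rw [Complex.sin_eq_zero_iff] at h0
  obtain ⟨j, hj⟩ := h0
  rcases hs with rfl | rfl
  · refine h (2 * k - 3) ?_
    rw [show x + x + ((2 * k - 3 : ℤ) : ℂ) * lam = ((2 * j : ℤ) : ℂ) * Real.pi by
      unfold EXL.Fm.lam at hj ⊢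
      push_cast
      linear_combination 2 * hj]
    exact Complex.sin_int_mul_pi _
  · refine h (2 * k + 3) ?_
    rw [show x + x + ((2 * k + 3 : ℤ) : ℂ) * lam = ((2 * j : ℤ) : ℂ) * Real.pi by
      unfold EXL.Fm.lam at hj ⊢
      push_cast
      linear_combination 2 * hj]
    exact Complex.sin_int_mul_pi _

/-- Generic rapidities and one line at `± 3 π / 16`. -/
theorem gk_triv {ι : Type*} [DecidableEq ι] {z : ι → ℂ} {X : List ι} {p : ι} (h : GT z X) (hp : p ∉ X)
    {s : ℂ} (hs : s = 3 * Real.pi / 16 ∨ s = -(3 * Real.pi / 16)) :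
    Gk (Function.update z p s) (p :: X) := by
  have e : ∀ y ∈ X, Function.update z p s y = z y := fun y hy => by
    refine Function.update_of_ne ?_ _ _
    rintro rfl
    exact hp hy
  intro i hi j hj hij k
  rcases List.mem_cons.1 hi with hi' | hi'
  · rcases List.mem_cons.1 hj with hj' | hj'
    · exact absurd (hi'.trans hj'.symm) hij
    · rw [hi', e j hj', Function.update_self]
      exact (df_triv (h.add j hj' j hj') hs).symm k
  · rcases List.mem_cons.1 hj with hj' | hj'
    · rw [hj', e i hi', Function.update_self]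
      exact df_triv (h.add i hi' i hi') hs k
    · rw [e i hi', e j hj']
      exact h.sub i hi' j hj' hij k

theorem cQ_rel (n : ℕ) : cQ (n + 2) * cQ n = 2 * (cQ (n + 1) * cQ (n + 1)) := by
  rw [show n + 2 = (n + 1) + 1 by ring, cQ_succ (n + 1), cQ_succ n, pow_succ]
  ring

theorem updf (a x : ℂ) : (![1, 1, a, x, 1, 1] : Fin 6 → ℂ) = Function.update ![1, 1, a, 1, 1, 1] 3 x := by
  funext j
  fin_cases j <;> rfl

theorem updf2 (a x : ℂ) : (![1, 1, a, x, 1, 1] : Fin 6 → ℂ) ∘ Equiv.swap 2 3 = ![1, 1, x, a, 1, 1] := by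
  funext j
  fin_cases j <;> rfl

/-- **The upper empty line of the right side as a variable.** -/
theorem X_line (hG : _root_.TC.GC NUTP.th (a :: (K ++ L))) {P : ℂ[X]}
    (hP : ∀ b, _root_.TC.GC NUTP.th (b :: a :: (K ++ L)) →
      b ^ (2 * (K.length + L.length) + 2) * (fam ω).X K L a b = P.eval (b ^ 2)) {s0 : ℂ}
    (hs : s0 = 3 * Real.pi / 16 ∨ s0 = -(3 * Real.pi / 16)) :
    exp (I * s0) ^ (2 * (K.length + L.length) + 2) *
      (WT ω (Function.update (zc K L ![1, 1, a, 1, 1, 1]) (sc 3) s0) (Ic _ _) (Jc _ _) [sc 2, sc 3] []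
        (sc 0) (sc 1) (sc 2) / (cQ (K.length + L.length + 2) * cQ (K.length + L.length))) =
      P.eval (exp (I * s0) ^ 2) := by
  have hG2 : _root_.TC.GC NUTP.th (([2] : List (Fin 6)).map ![1, 1, a, 1, 1, 1] ++ (K ++ L)) := hG
  have g0 : GT (zc K L ![1, 1, a, 1, 1, 1]) (lr (Ic _ _) (Jc _ _) [sc 2]) := gt_canR hG2
  have hO : OkT (Ic K.length L.length) (Jc K.length L.length) ([sc 2] ++ sc 3 :: []) [] (sc 0) (sc 1)
      (sc 2) := okT_can (A := [2, 3]) (B := []) (by decide) (a := 2) (by simp)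
  have hS : Spr (Ic K.length L.length) (Jc K.length L.length) ([sc 2] ++ sc 3 :: []) [] (sc 0) (sc 1)
      (sc 4) (sc 5) := spr_can (A := [2, 3]) (B := []) (by decide)
  obtain ⟨f, t, hf⟩ := WT_lineE (ω := ω) (z := zc K L ![1, 1, a, 1, 1, 1]) hO hS g0.gk (by simp [sc])
  have hp : (sc 3 : Sc K.length L.length) ∉ lr (Ic _ _) (Jc _ _) [sc 2] := by
    have h1 := hO.ndR
    rw [lr_mid, List.nodup_middle, List.nodup_cons] at h1
    have h2 := h1.1
    rw [← lr_mid0] at h2
    exact h2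
  have hperm : ∀ x, x ∈ lr (Ic K.length L.length) (Jc K.length L.length) ([sc 2] ++ sc 3 :: []) →
      x ∈ sc 3 :: lr (Ic K.length L.length) (Jc K.length L.length) [sc 2] := by
    intro x hx
    unfold lr at hx ⊢
    simp only [List.mem_append, List.mem_cons] at hx ⊢
    tauto
  have hgo : ∀ s, Gk (Function.update (zc K L ![1, 1, a, 1, 1, 1]) (sc 3) s)
      (sc 3 :: lr (Ic _ _) (Jc _ _) [sc 2]) →
      Go (fun i => -Function.update (zc K L ![1, 1, a, 1, 1, 1]) (sc 3) s i)
        (lr (Ic _ _) (Jc _ _) ([sc 2] ++ sc 3 :: [])) := fun s h =>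
    go_of (_root_.Pool.Agent.NUTV.gk_neg (h.sub hperm)).gz hO.ndR
  have hF : ∀ s, _root_.TC.GC NUTP.th (exp (I * s) :: a :: (K ++ L)) →
      (fam ω).X K L a (exp (I * s)) = f s / (cQ (K.length + L.length + 2) * cQ (K.length + L.length)) := by
    intro s h
    have e1 : (fam ω).X K L a (exp (I * s)) =
        WT ω (zc K L ![1, 1, a, exp (I * s), 1, 1]) (Ic _ _) (Jc _ _) (([2, 3] : List (Fin 6)).map sc)
          (([] : List (Fin 6)).map sc) (sc 0) (sc 1) (sc 2) /
          (cQ (K.length + L.length + 2) * cQ (K.length + L.length)) := rfl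
    rw [e1, updf, WT_updC _ _ _ (by decide) (by simp)]
    have h3 : _root_.TC.GC NUTP.th (([2, 3] : List (Fin 6)).map
        (Function.update ![1, 1, a, 1, 1, 1] 3 (exp (I * s))) ++ (K ++ L)) := by
      rw [← updf]
      exact GC.perm h (List.Perm.swap _ _ _)
    have g1 := gt_canR h3
    have g2 : GT (Function.update (zc K L ![1, 1, a, 1, 1, 1]) (sc 3) s)
        (lr (Ic _ _) (Jc _ _) (([2, 3] : List (Fin 6)).map sc)) := by
      refine gt_of_gc ?_
      have e2 : (lr (Ic K.length L.length) (Jc K.length L.length) (([2, 3] : List (Fin 6)).map sc)).map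
          (fun x => exp (I * Function.update (zc K L ![1, 1, a, 1, 1, 1]) (sc 3) s x)) =
          (lr (Ic K.length L.length) (Jc K.length L.length) (([2, 3] : List (Fin 6)).map sc)).map
          (fun x => exp (I * zc K L (Function.update ![1, 1, a, 1, 1, 1] 3 (exp (I * s))) x)) :=
        List.map_congr_left fun x _ => (ez_upd _ _ _ x).symm
      rw [e2]
      exact gc_of_gt hO.ndR g1
    rw [← hf s (go_of (_root_.Pool.Agent.NUTV.gk_neg g2.gk).gz hO.ndR)]
    rfl
  rw [← val_lim hG (_root_.Pool.Agent.TC.TP.cont t) hP hF s0]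
  congr 2
  exact hf s0 (hgo s0 (gk_triv g0 hp hs))

/-- **The lower empty line of the right side as a variable.** -/
theorem Y_line (hG : _root_.TC.GC NUTP.th (a :: (K ++ L))) {P : ℂ[X]}
    (hP : ∀ b, _root_.TC.GC NUTP.th (b :: a :: (K ++ L)) →
      b ^ (2 * (K.length + L.length) + 2) * (fam ω).Y K L b a = P.eval (b ^ 2)) {s0 : ℂ}
    (hs : s0 = 3 * Real.pi / 16 ∨ s0 = -(3 * Real.pi / 16)) :
    exp (I * s0) ^ (2 * (K.length + L.length) + 2) *
      (WT ω (Function.update (zc K L ![1, 1, a, 1, 1, 1]) (sc 3) s0) (Ic _ _) (Jc _ _) [sc 3, sc 2] []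
        (sc 0) (sc 1) (sc 2) / (cQ (K.length + L.length + 2) * cQ (K.length + L.length))) =
      P.eval (exp (I * s0) ^ 2) := by
  have hG2 : _root_.TC.GC NUTP.th (([2] : List (Fin 6)).map ![1, 1, a, 1, 1, 1] ++ (K ++ L)) := hG
  have g0 : GT (zc K L ![1, 1, a, 1, 1, 1]) (lr (Ic _ _) (Jc _ _) [sc 2]) := gt_canR hG2
  have hO : OkT (Ic K.length L.length) (Jc K.length L.length) ([] ++ sc 3 :: [sc 2]) [] (sc 0) (sc 1)
      (sc 2) := okT_can (A := [3, 2]) (B := []) (by decide) (a := 2) (by simp)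
  have hS : Spr (Ic K.length L.length) (Jc K.length L.length) ([] ++ sc 3 :: [sc 2]) [] (sc 0) (sc 1)
      (sc 4) (sc 5) := spr_can (A := [3, 2]) (B := []) (by decide)
  obtain ⟨f, t, hf⟩ := WT_lineE (ω := ω) (z := zc K L ![1, 1, a, 1, 1, 1]) hO hS g0.gk (by simp [sc])
  have hp : (sc 3 : Sc K.length L.length) ∉ lr (Ic _ _) (Jc _ _) [sc 2] := by
    have h1 := hO.ndR
    rw [lr_mid, List.nodup_middle, List.nodup_cons] at h1
    have h2 := h1.1
    rw [← lr_mid0] at h2
    exact h2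
  have hperm : ∀ x, x ∈ lr (Ic K.length L.length) (Jc K.length L.length) ([] ++ sc 3 :: [sc 2]) →
      x ∈ sc 3 :: lr (Ic K.length L.length) (Jc K.length L.length) [sc 2] := by
    intro x hx
    unfold lr at hx ⊢
    simp only [List.mem_append, List.mem_cons] at hx ⊢
    tauto
  have hgo : ∀ s, Gk (Function.update (zc K L ![1, 1, a, 1, 1, 1]) (sc 3) s)
      (sc 3 :: lr (Ic _ _) (Jc _ _) [sc 2]) →
      Go (fun i => -Function.update (zc K L ![1, 1, a, 1, 1, 1]) (sc 3) s i)
        (lr (Ic _ _) (Jc _ _) ([] ++ sc 3 :: [sc 2])) := fun s h =>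
    go_of (_root_.Pool.Agent.NUTV.gk_neg (h.sub hperm)).gz hO.ndR
  have hF : ∀ s, _root_.TC.GC NUTP.th (exp (I * s) :: a :: (K ++ L)) →
      (fam ω).Y K L (exp (I * s)) a = f s / (cQ (K.length + L.length + 2) * cQ (K.length + L.length)) := by
    intro s h
    have e1 : (fam ω).Y K L (exp (I * s)) a =
        WT ω (zc K L ![1, 1, exp (I * s), a, 1, 1]) (Ic _ _) (Jc _ _) (([2, 3] : List (Fin 6)).map sc)
          (([] : List (Fin 6)).map sc) (sc 0) (sc 1) (sc 3) /
          (cQ (K.length + L.length + 2) * cQ (K.length + L.length)) := rfl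
    have e0 := WT_perm6 ω K L ![1, 1, a, exp (I * s), 1, 1] (A := [2, 3]) (B := []) (by decide) (a := 3)
      (by simp) (Equiv.swap 2 3) (by decide) (by decide)
    rw [updf2] at e0
    have e3 : WT ω (zc K L ![1, 1, exp (I * s), a, 1, 1]) (Ic _ _) (Jc _ _)
          (([2, 3] : List (Fin 6)).map sc) (([] : List (Fin 6)).map sc) (sc 0) (sc 1) (sc 3) =
        WT ω (zc K L ![1, 1, a, exp (I * s), 1, 1]) (Ic _ _) (Jc _ _)
          (([3, 2] : List (Fin 6)).map sc) (([] : List (Fin 6)).map sc) (sc 0) (sc 1) (sc 2) :=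
      e0.symm
    rw [e1, e3, updf, WT_updC _ _ _ (by decide) (by simp)]
    have h3 : _root_.TC.GC NUTP.th (([3, 2] : List (Fin 6)).map
        (Function.update ![1, 1, a, 1, 1, 1] 3 (exp (I * s))) ++ (K ++ L)) := by
      rw [← updf]
      exact h
    have g1 := gt_canR h3
    have g2 : GT (Function.update (zc K L ![1, 1, a, 1, 1, 1]) (sc 3) s)
        (lr (Ic _ _) (Jc _ _) (([3, 2] : List (Fin 6)).map sc)) := by
      refine gt_of_gc ?_
      have e2 : (lr (Ic K.length L.length) (Jc K.length L.length) (([3, 2] : List (Fin 6)).map sc)).map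
          (fun x => exp (I * Function.update (zc K L ![1, 1, a, 1, 1, 1]) (sc 3) s x)) =
          (lr (Ic K.length L.length) (Jc K.length L.length) (([3, 2] : List (Fin 6)).map sc)).map
          (fun x => exp (I * zc K L (Function.update ![1, 1, a, 1, 1, 1] 3 (exp (I * s))) x)) :=
        List.map_congr_left fun x _ => (ez_upd _ _ _ x).symm
      rw [e2]
      exact gc_of_gt hO.ndR g1
    rw [← hf s (go_of (_root_.Pool.Agent.NUTV.gk_neg g2.gk).gz hO.ndR)]
    rfl
  rw [← val_lim hG (_root_.Pool.Agent.TC.TP.cont t) hP hF s0]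
  congr 2
  exact hf s0 (hgo s0 (gk_triv g0 hp hs))

/-- **The empty line of the left side as a variable.** -/
theorem O_line (hG : _root_.TC.GC NUTP.th (a :: (K ++ L))) {P : ℂ[X]}
    (hP : ∀ h, _root_.TC.GC NUTP.th (h :: a :: (K ++ L)) →
      h ^ (2 * (K.length + L.length)) * (fam ω).O K L a h = P.eval (h ^ 2)) {s0 : ℂ}
    (hs : s0 = 3 * Real.pi / 16 ∨ s0 = -(3 * Real.pi / 16)) :
    exp (I * s0) ^ (2 * (K.length + L.length)) *
      (WT ω (Function.update (zc K L ![1, 1, a, 1, 1, 1]) (sc 3) s0) (Ic _ _) (Jc _ _) [sc 2] [sc 3]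
        (sc 0) (sc 1) (sc 2) / (cQ (K.length + L.length + 1) * cQ (K.length + L.length + 1))) =
      P.eval (exp (I * s0) ^ 2) := by
  have hG2 : _root_.TC.GC NUTP.th (([] : List (Fin 6)).map ![1, 1, a, 1, 1, 1] ++ (K ++ L)) :=
    GC.sublist hG (List.sublist_cons_self _ _)
  have g0 : GT (zc K L ![1, 1, a, 1, 1, 1]) (ll (Ic _ _) (Jc _ _) []) := gt_canL hG2
  have hO : OkT (Ic K.length L.length) (Jc K.length L.length) [sc 2] ([] ++ sc 3 :: []) (sc 0) (sc 1)
      (sc 2) := okT_can (A := [2]) (B := [3]) (by decide) (a := 2) (by simp)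
  have hS : Spr (Ic K.length L.length) (Jc K.length L.length) [sc 2] ([] ++ sc 3 :: []) (sc 0) (sc 1)
      (sc 4) (sc 5) := spr_can (A := [2]) (B := [3]) (by decide)
  obtain ⟨f, t, hf⟩ := WT_lineL (ω := ω) (z := zc K L ![1, 1, a, 1, 1, 1]) hO hS g0.gk (by simp [sc])
  have hp : (sc 3 : Sc K.length L.length) ∉ ll (Ic _ _) (Jc _ _) [] := by
    have h1 := hO.ndL
    rw [ll_mid, List.nodup_middle, List.nodup_cons] at h1
    have h2 := h1.1
    rw [← ll_mid0] at h2
    exact h2
  have hperm : ∀ x, x ∈ ll (Ic K.length L.length) (Jc K.length L.length) ([] ++ sc 3 :: []) →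
      x ∈ sc 3 :: ll (Ic K.length L.length) (Jc K.length L.length) [] := by
    intro x hx
    unfold ll at hx ⊢
    simp only [List.mem_append, List.mem_cons] at hx ⊢
    tauto
  have hgo : ∀ s, Gk (Function.update (zc K L ![1, 1, a, 1, 1, 1]) (sc 3) s)
      (sc 3 :: ll (Ic _ _) (Jc _ _) []) →
      Go (Function.update (zc K L ![1, 1, a, 1, 1, 1]) (sc 3) s)
        (ll (Ic _ _) (Jc _ _) ([] ++ sc 3 :: [])) := fun s h =>
    go_of (h.sub hperm).gz hO.ndL
  have hF : ∀ s, _root_.TC.GC NUTP.th (exp (I * s) :: a :: (K ++ L)) →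
      (fam ω).O K L a (exp (I * s)) =
        f s / (cQ (K.length + L.length + 1) * cQ (K.length + L.length + 1)) := by
    intro s h
    have e1 : (fam ω).O K L a (exp (I * s)) =
        WT ω (zc K L ![1, 1, a, exp (I * s), 1, 1]) (Ic _ _) (Jc _ _) (([2] : List (Fin 6)).map sc)
          (([3] : List (Fin 6)).map sc) (sc 0) (sc 1) (sc 2) /
          (cQ (K.length + L.length + 1) * cQ (K.length + L.length + 1)) := rfl
    rw [e1, updf, WT_updC _ _ _ (by decide) (by simp)]
    have h3 : _root_.TC.GC NUTP.th (([3] : List (Fin 6)).map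
        (Function.update ![1, 1, a, 1, 1, 1] 3 (exp (I * s))) ++ (K ++ L)) := by
      rw [← updf]
      exact GC.sublist h ((List.sublist_cons_self _ _).cons_cons _)
    have g1 := gt_canL h3
    have g2 : GT (Function.update (zc K L ![1, 1, a, 1, 1, 1]) (sc 3) s)
        (ll (Ic _ _) (Jc _ _) (([3] : List (Fin 6)).map sc)) := by
      refine gt_of_gc ?_
      have e2 : (ll (Ic K.length L.length) (Jc K.length L.length) (([3] : List (Fin 6)).map sc)).map
          (fun x => exp (I * Function.update (zc K L ![1, 1, a, 1, 1, 1]) (sc 3) s x)) =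
          (ll (Ic K.length L.length) (Jc K.length L.length) (([3] : List (Fin 6)).map sc)).map
          (fun x => exp (I * zc K L (Function.update ![1, 1, a, 1, 1, 1] 3 (exp (I * s))) x)) :=
        List.map_congr_left fun x _ => (ez_upd _ _ _ x).symm
      rw [e2]
      exact gc_of_gt hO.ndL g1
    rw [← hf s (go_of g2.gk.gz hO.ndL)]
    rfl
  rw [← val_lim hG (_root_.Pool.Agent.TC.TP.cont t) hP hF s0]
  congr 2
  exact hf s0 (hgo s0 (gk_triv g0 hp hs))

theorem tr_alg {w1 w2 k : ℂ} (h : w1 = 2 * k * w2) (n : ℕ) :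
    w1 / (cQ (n + 2) * cQ n) = k * (w2 / (cQ (n + 1) * cQ (n + 1))) := by
  rw [cQ_rel, h]
  have h1 := cQ_ne (n + 1)
  field_simp

/-- **Field `trX`** from the trivial line. -/
theorem trX_of (hG : _root_.TC.GC NUTP.th (a :: (K ++ L)))
    (hT : WT ω (Function.update (zc K L ![1, 1, a, 1, 1, 1]) (sc 3) (3 * Real.pi / 16)) (Ic _ _) (Jc _ _)
        [sc 2, sc 3] [] (sc 0) (sc 1) (sc 2) = 2 * Fm.Dn (3 * Real.pi / 16 - -lg a) *
      WT ω (Function.update (zc K L ![1, 1, a, 1, 1, 1]) (sc 3) (-(3 * Real.pi / 16))) (Ic _ _) (Jc _ _)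
        [sc 2] [sc 3] (sc 0) (sc 1) (sc 2)) (P P' : ℂ[X])
    (hP : ∀ b, _root_.TC.GC NUTP.th (b :: a :: (K ++ L)) →
      b ^ (2 * (K.length + L.length) + 2) * (fam ω).X K L a b = P.eval (b ^ 2))
    (hP' : ∀ h, _root_.TC.GC NUTP.th (h :: a :: (K ++ L)) →
      h ^ (2 * (K.length + L.length)) * (fam ω).O K L a h = P'.eval (h ^ 2)) :
    NUTP.th ^ (13 * (K.length + L.length + 1)) * P.eval (NUTP.th ^ 3) =
      _root_.TC.kp NUTP.th a * (NUTP.th ^ (3 * (K.length + L.length)) * P'.eval (NUTP.th ^ 13)) := by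
  have ha : a ≠ 0 := gc_ne hG a (by simp)
  have h1 := X_line (s0 := 3 * Real.pi / 16) hG hP (Or.inl rfl)
  have h2 := O_line (s0 := -(3 * Real.pi / 16)) hG hP' (Or.inr rfl)
  rw [show 2 * (K.length + L.length) + 2 = 2 * (K.length + L.length + 1) by ring, pow_mul, exp_hi,
    ← pow_mul] at h1
  rw [pow_mul, exp_lo, ← pow_mul] at h2
  rw [← h1, ← h2, ← mul_assoc, ← mul_assoc (NUTP.th ^ (3 * (K.length + L.length))), ← pow_add, ← pow_add,
    show 13 * (K.length + L.length + 1) + 3 * (K.length + L.length + 1) =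
      16 * (K.length + L.length + 1) by ring,
    show 3 * (K.length + L.length) + 13 * (K.length + L.length) = 16 * (K.length + L.length) by ring,
    pow_mul, pow_mul, th16, one_pow, one_pow, one_mul, one_mul]
  rw [Dn_kp ha] at hT
  exact tr_alg hT _

/-- **Field `trY`** from the trivial line. -/
theorem trY_of (hG : _root_.TC.GC NUTP.th (a :: (K ++ L)))
    (hT : WT ω (Function.update (zc K L ![1, 1, a, 1, 1, 1]) (sc 3) (-(3 * Real.pi / 16))) (Ic _ _)
        (Jc _ _) [sc 3, sc 2] [] (sc 0) (sc 1) (sc 2) = 2 * Fm.Dn (3 * Real.pi / 16 - -lg a) *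
      WT ω (Function.update (zc K L ![1, 1, a, 1, 1, 1]) (sc 3) (3 * Real.pi / 16)) (Ic _ _) (Jc _ _)
        [sc 2] [sc 3] (sc 0) (sc 1) (sc 2)) (P P' : ℂ[X])
    (hP : ∀ b, _root_.TC.GC NUTP.th (b :: a :: (K ++ L)) →
      b ^ (2 * (K.length + L.length) + 2) * (fam ω).Y K L b a = P.eval (b ^ 2))
    (hP' : ∀ h, _root_.TC.GC NUTP.th (h :: a :: (K ++ L)) →
      h ^ (2 * (K.length + L.length)) * (fam ω).O K L a h = P'.eval (h ^ 2)) :
    NUTP.th ^ (3 * (K.length + L.length + 1)) * P.eval (NUTP.th ^ 13) =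
      _root_.TC.kp NUTP.th a * (NUTP.th ^ (13 * (K.length + L.length)) * P'.eval (NUTP.th ^ 3)) := by
  have ha : a ≠ 0 := gc_ne hG a (by simp)
  have h1 := Y_line (s0 := -(3 * Real.pi / 16)) hG hP (Or.inr rfl)
  have h2 := O_line (s0 := 3 * Real.pi / 16) hG hP' (Or.inl rfl)
  rw [show 2 * (K.length + L.length) + 2 = 2 * (K.length + L.length + 1) by ring, pow_mul, exp_lo,
    ← pow_mul] at h1
  rw [pow_mul, exp_hi, ← pow_mul] at h2
  rw [← h1, ← h2, ← mul_assoc, ← mul_assoc (NUTP.th ^ (13 * (K.length + L.length))), ← pow_add, ← pow_add,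
    show 3 * (K.length + L.length + 1) + 13 * (K.length + L.length + 1) =
      16 * (K.length + L.length + 1) by ring,
    show 13 * (K.length + L.length) + 3 * (K.length + L.length) = 16 * (K.length + L.length) by ring,
    pow_mul, pow_mul, th16, one_pow, one_pow, one_mul, one_mul]
  rw [Dn_kp ha] at hT
  exact tr_alg hT _

theorem ux_updC (s : ℂ) : ux (fun i => -Function.update (zc K L ![1, 1, a, 1, 1, 1]) (sc 3) s i) (sc 2) =
    3 * Real.pi / 16 - -lg a := by
  show 3 * Real.pi / 16 - -Function.update (zc K L ![1, 1, a, 1, 1, 1]) (sc 3) s (sc 2) = _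
  rw [Function.update_of_ne (by simp [sc] : (sc 2 : Sc K.length L.length) ≠ sc 3)]
  rfl

theorem gt_updC (hG : _root_.TC.GC NUTP.th (a :: (K ++ L))) (s : ℂ) :
    GT (Function.update (zc K L ![1, 1, a, 1, 1, 1]) (sc 3) s) (lr (Ic _ _) (Jc _ _) [sc 2]) := by
  have hG2 : _root_.TC.GC NUTP.th (([2] : List (Fin 6)).map ![1, 1, a, 1, 1, 1] ++ (K ++ L)) := hG
  have g0 : GT (zc K L ![1, 1, a, 1, 1, 1]) (lr (Ic _ _) (Jc _ _) [sc 2]) := gt_canR hG2
  refine g0.congr fun x hx => ?_
  have hO : OkT (Ic K.length L.length) (Jc K.length L.length) ([sc 2] ++ sc 3 :: []) [] (sc 0) (sc 1)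
      (sc 2) := okT_can (A := [2, 3]) (B := []) (by decide) (a := 2) (by simp)
  have hp : (sc 3 : Sc K.length L.length) ∉ lr (Ic _ _) (Jc _ _) [sc 2] := by
    have h1 := hO.ndR
    rw [lr_mid, List.nodup_middle, List.nodup_cons] at h1
    have h2 := h1.1
    rw [← lr_mid0] at h2
    exact h2
  rw [Function.update_of_ne]
  rintro rfl
  exact hp hx

theorem hz_updC (s : ℂ) (t : Sc K.length L.length × Sc K.length L.length) (ht : t ∈ Ic _ _ ++ Jc _ _) :
    Function.update (zc K L ![1, 1, a, 1, 1, 1]) (sc 3) s t.2 =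
      Function.update (zc K L ![1, 1, a, 1, 1, 1]) (sc 3) s t.1 := by
  have h := sc_ne_full 3 t ht
  rw [Function.update_of_ne h.1.symm, Function.update_of_ne h.2.symm]
  exact zc_pair t ht

/-- **Field `trX`.** -/
theorem fam_trX (hG : _root_.TC.GC NUTP.th (a :: (K ++ L))) (P P' : ℂ[X])
    (hP : ∀ b, _root_.TC.GC NUTP.th (b :: a :: (K ++ L)) →
      b ^ (2 * (K.length + L.length) + 2) * (fam ω).X K L a b = P.eval (b ^ 2))
    (hP' : ∀ h, _root_.TC.GC NUTP.th (h :: a :: (K ++ L)) →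
      h ^ (2 * (K.length + L.length)) * (fam ω).O K L a h = P'.eval (h ^ 2)) :
    NUTP.th ^ (13 * (K.length + L.length + 1)) * P.eval (NUTP.th ^ 3) =
      _root_.TC.kp NUTP.th a * (NUTP.th ^ (3 * (K.length + L.length)) * P'.eval (NUTP.th ^ 13)) := by
  refine trX_of hG ?_ P P' hP hP'
  have h := TT_hi (ω := ω) (okT_can (n := K.length) (m := L.length) (A := [2, 3]) (B := []) (by decide)
    (a := 2) (by simp)) (spr_can (A := [2, 3]) (B := []) (by decide))
    (hz_updC (a := a) (3 * Real.pi / 16)) (gt_updC hG _) (Function.update_self _ _ _)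
  rw [Function.update_idem, ux_updC] at h
  exact h

/-- **Field `trY`.** -/
theorem fam_trY (hG : _root_.TC.GC NUTP.th (a :: (K ++ L))) (P P' : ℂ[X])
    (hP : ∀ b, _root_.TC.GC NUTP.th (b :: a :: (K ++ L)) →
      b ^ (2 * (K.length + L.length) + 2) * (fam ω).Y K L b a = P.eval (b ^ 2))
    (hP' : ∀ h, _root_.TC.GC NUTP.th (h :: a :: (K ++ L)) →
      h ^ (2 * (K.length + L.length)) * (fam ω).O K L a h = P'.eval (h ^ 2)) :
    NUTP.th ^ (3 * (K.length + L.length + 1)) * P.eval (NUTP.th ^ 13) =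
      _root_.TC.kp NUTP.th a * (NUTP.th ^ (13 * (K.length + L.length)) * P'.eval (NUTP.th ^ 3)) := by
  refine trY_of hG ?_ P P' hP hP'
  have h := TT_lo (ω := ω) (okT_can (n := K.length) (m := L.length) (A := [3, 2]) (B := []) (by decide)
    (a := 2) (by simp)) (spr_can (A := [3, 2]) (B := []) (by decide))
    (hz_updC (a := a) (-(3 * Real.pi / 16))) (gt_updC hG _) (Function.update_self _ _ _)
  rw [Function.update_idem, ux_updC] at h
  exact h

end can

end Pool.Agent.TC
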