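import Pool.Agent.TC.F_N0
import Pool.Agent.TC.F_R
import Pool.Agent.TC.F_X
import Pool.Agent.TC.F_Xo
import Pool.Agent.TC.F_Y
import Pool.Agent.TC.F_O
import Pool.Agent.TC.F_ex
import Pool.Agent.TC.F_tr
import Pool.Agent.TC.Uniq

/-!
# The one leg functions of the lattice strip satisfy the list of properties (helper86)

No hypothesis left: `fam_data`.  With the uniqueness theorem and the values without full lines: every
other family with the same list is equal to the lattice (`fam_unique`).
-/

set_option autoImplicit false

namespace Pool.Agent.TC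

/-- **The relations** of the lattice family with the weight `ω`. -/
theorem fam_rel {ω : ℂ} (hω : ω ≠ 0) : _root_.TC.Rel NUTP.th ω (fam ω) (fam ω⁻¹) where
  polR I J hG := fam_polR hω I J hG
  polX I J a hG := fam_polX ω I J a hG
  polXo I J b hG := fam_polXo I J b hG
  polY I J b hG := fam_polY ω I J b hG
  polYo I J a hG := fam_polYo hω I J a hG
  polO I J b hG := fam_polO ω I J b hG
  exX _ _ _ _ hG := fam_exX hG
  exY _ _ _ _ hG := fam_exY hG
  trY _ _ _ hG := fam_trY hG
  trX _ _ _ hG := fam_trX hG

/-- **The lattice family satisfies the list of properties.** -/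
theorem fam_data : _root_.TC.Data NUTP.th fam := fun _ hω => fam_rel hω

/-- **The lattice family is determined** by the list of properties and by the values without full
lines. -/
theorem fam_unique {W : ℂ → _root_.TC.RF} (hW : _root_.TC.Data NUTP.th W)
    (h0 : ∀ ω : ℂ, ω ≠ 0 → _root_.TC.IsN0 NUTP.th tau (W ω)) {ω : ℂ} (hω : ω ≠ 0) (I J : List ℂ) :
    _root_.TC.Agree NUTP.th (fam ω) (W ω) I J :=
  _root_.TC.uniq NUTP.th8 fam_data hW (fun ω hω => (fam_N0 ω).agree (h0 ω hω)) ω hω I J

end Pool.Agent.TC
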