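import Pool.Agent.TC.Psi

/-!
# The fixed point equation of the exit functional (helper92)

`PS_fix`: `PS z b X - PS z b X ∘ T0 z c X = PH z X ∘ hT1` , where `hT1` = the column with a strand that enters
through the floor and has the leg `b`.
-/

set_option autoImplicit false

namespace Pool.Agent.TC

open _root_.Pool.Agent.EXL _root_.Pool.Agent.EXL.Pat Filter Topology
open _root_.Pool.Agent.EXL.Fm (lam)
open _root_.Pool.Agent.NUF _root_.Pool.Agent.NUU _root_.Pool.Agent.NUTV

section abs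

variable {ι : Type*} [DecidableEq ι] {V : Type*} [AddCommGroup V] [Module ℂ V] {z : ι → ℂ}
  {A : Fr.Frame ι V z} {Ph : Finset ι → V}

/-- The abstract form: (R2) and (c2). -/
theorem fix_abs (hz : Fr.Reg z) (h : Fr.Rec A Ph) (X : Finset ι) :
    ∑ i ∈ X, Fr.wt z i (X.erase i) • A.F i (X.erase i) (Ph (X.erase i)) -
      A.T0 X (∑ i ∈ X, Fr.wt z i (X.erase i) • A.F i (X.erase i) (Ph (X.erase i))) =
        (2 * Fr.s2) • A.T1 X (Ph X) := by
  have h4 := fun Y => Fr.four hz h Y
  have hR2 : A.T1 X (Ph X) = _ := (h4 X).R2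
  rw [hR2, map_sum, ← Finset.sum_sub_distrib, smul_smul, Finset.smul_sum]
  refine Finset.sum_congr rfl fun i hi => ?_
  have hc := A.c2 (Finset.notMem_erase i X) (h4 (X.erase i)).m (hz.D i)
  rw [Finset.insert_erase hi] at hc
  have hD := hz.D i
  have hp := Fr.Dn_pos (z i)
  rw [map_smul, hc, (h4 (X.erase i)).T]
  unfold Fr.fv Fr.rv Fr.ru1
  match_scalars
  · field_simp
    linear_combination (Fr.wt z i (X.erase i)) * hp
  · field_simp

end abs

section rows

variable {α : Type*} [DecidableEq α] [Finite α] {z : α → ℂ} {X : List α} {b c d : α}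

/-- `PS0` of good rows as the sum over the frame. -/
theorem PS0_frame (h : Good z X) (hb : b ∉ X) (hc : c ∉ X) (hbc : b ≠ c) :
    PS0 z b X = ∑ i ∈ (Finset.univ : Finset (Fin X.length)),
      Fr.wt (fun k => ux z (X.get k)) i (Finset.univ.erase i) •
        (fr (h.sites hb hc hbc) h.regS).F i (Finset.univ.erase i)
          (Fr.RPh (fr (h.sites hb hc hbc) h.regS) (VV z []) (Finset.univ.erase i)) := by
  have hs : Sites X.get b c := h.sites hb hc hbc
  have hG := h.gen
  have hsg := hG.sg0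
  have hinj := hs.inj
  have hun : (Finset.univ : Finset (Fin X.length)).image X.get = X.toFinset := by
    rw [← lst_toFinset, lst_univ]
  unfold PS0
  rw [← hun, Finset.sum_image fun a _ b _ h => hinj h]
  apply Finset.sum_congr rfl
  intro k _
  have hk : k ∉ Finset.univ.erase k := Finset.notMem_erase k _
  have hX : insert k (Finset.univ.erase k) = (Finset.univ : Finset (Fin X.length)) :=
    Finset.insert_erase (Finset.mem_univ k)
  have heX : X.erase (X.get k) = lst X.get (Finset.univ.erase k) := by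
    have := erase_lst hinj hk
    rwa [hX, lst_univ] at this
  have hgo : Good z (X.erase (X.get k)) := h.sub List.erase_sublist
  have e1 := PH_good hbc _ (X.erase (X.get k)) rfl hgo (fun h => hb (List.mem_of_mem_erase h))
    (fun h => hc (List.mem_of_mem_erase h))
  rw [rph hs h.regS hG.toReg hsg h.regY, map_smul, e1, wt_comp hinj, Qs_comp hinj,
    Finset.image_erase hinj, erase_toF h.nd, hun, LinearMap.smul_comp, heX]
  congr 2
  rw [fr_F, hX, lst_univ, oF, uhlaws.cus (i := X.get k) (j := b)]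

/-- **The fixed point equation for good rows.** -/
theorem PS0_fix_good (h : Good z X) (hb : b ∉ X) (hc : c ∉ X) (hbc : b ≠ c) :
    PS0 z b X - PS0 z b X ∘ₗ T0 z c X =
      (2 * Fr.s2) • (PH z X ∘ₗ hT1 uops (fun i j => opCu ℂ i j) z c b X) := by
  have hs : Sites X.get b c := h.sites hb hc hbc
  have hG := h.gen
  have hsg := hG.sg0
  have key := fix_abs hG.toReg (rec0 hs h.regS hsg h.regY) Finset.univ
  rw [← PS0_frame h hb hc hbc, rph hs h.regS hG.toReg hsg h.regY, lst_univ, Qs_comp hs.inj] at key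
  have hun : (Finset.univ : Finset (Fin X.length)).image X.get = X.toFinset := by
    rw [← lst_toFinset, lst_univ]
  rw [hun, ← PH_good hbc _ X rfl h hb hc] at key
  have e0 : ∀ V : Fnl α, (fr hs h.regS).T0 Finset.univ V = V ∘ₗ T0 z c X := fun V => by
    rw [fr_T0, lst_univ]
  have e1 : ∀ V : Fnl α, (fr hs h.regS).T1 Finset.univ V =
      V ∘ₗ hT1 uops (fun i j => opCu ℂ i j) z c b X := fun V => by
    have : (fr hs h.regS).T1 Finset.univ V = V ∘ₗ hT1 uops (fun i j => opCu ℂ i j) z c b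
      (lst X.get Finset.univ) := rfl
    rw [this, lst_univ]
  rw [e0, e1] at key
  exact key

/-- `PH` is fixed by the column (good rows). -/
theorem PH_fix_good (h : Good z X) (hb : b ∉ X) (hc : c ∉ X) (hbc : b ≠ c) :
    PH z X ∘ₗ T0 z c X = PH z X := by
  rw [PH_good hbc _ X rfl h hb hc, LinearMap.smul_comp,
    (isV_VV h.nd hc (h.reg X (List.Sublist.refl _))).fix c hc]

/-! ### All rapidities -/

/-- The rapidities are regular with respect to the column. -/
def Dc (z : α → ℂ) (X : List α) : Prop := ∀ r ∈ X, Fm.Dn (ux z r) ≠ 0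

theorem dt_line {zs : ℂ → α → ℂ} {t : ℂ} (hc : c ∉ X)
    (hz : ∀ x ∈ X, DifferentiableAt ℂ (fun s => zs s x) t) (hD : Dc (zs t) X) :
    DtE (fun s => uops.M (zs s) c (uops (ι := α)).h X) t := by
  refine dt_M (w := fun _ => (uops (ι := α)).h) fun r hr => ?_
  have hcr : c ≠ r := fun e => hc (e ▸ hr)
  refine dt_R hcr (u := fun s => (uops (ι := α)).h - zs s r) ((hz r hr).const_sub _) ?_
  exact hD r hr

theorem dt_T0 {zs : ℂ → α → ℂ} {t : ℂ} (hc : c ∉ X)
    (hz : ∀ x ∈ X, DifferentiableAt ℂ (fun s => zs s x) t) (hD : Dc (zs t) X) :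
    DtE (fun s => T0 (zs s) c X) t := by
  unfold T0
  exact ((DtE.const _).mul (dt_line hc hz hD)).mul (DtE.const _)

theorem dt_hT1 {zs : ℂ → α → ℂ} {t : ℂ} (hc : c ∉ X)
    (hz : ∀ x ∈ X, DifferentiableAt ℂ (fun s => zs s x) t) (hD : Dc (zs t) X) :
    DtE (fun s => hT1 uops (fun i j => opCu ℂ i j) (zs s) c b X) t := by
  unfold hT1
  exact ((DtE.const _).mul (dt_line hc hz hD)).mul (DtE.const _)

/-- the product of the `Dn` of the frame rapidities -/
noncomputable def dcP (X : List α) (z : α → ℂ) : ℂ := (X.map fun r => Fm.Dn (ux z r)).prod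

omit [DecidableEq α] [Finite α] in
theorem dcP_ne : dcP X z ≠ 0 ↔ ∀ r ∈ X, Fm.Dn (ux z r) ≠ 0 := by
  unfold dcP
  rw [← not_iff_not, not_not, List.prod_eq_zero_iff]
  simp only [List.mem_map, not_forall, not_not]
  constructor
  · rintro ⟨r, hr, e⟩
    exact ⟨r, hr, e⟩
  · rintro ⟨r, hr, e⟩
    exact ⟨r, hr, e⟩

omit [DecidableEq α] [Finite α] in
theorem dcP_diff (X : List α) (w : α → ℂ) :
    Differentiable ℂ fun s => dcP X fun i => z0 + s * w i := by
  unfold dcP
  induction X with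
  | nil =>
    simp only [List.map_nil, List.prod_nil]
    exact differentiable_const _
  | cons r X ih =>
    simp only [List.map_cons, List.prod_cons]
    refine Differentiable.mul ?_ ih
    unfold ux Fm.Dn
    fun_prop

/-- **`PH` is fixed by the column.** -/
theorem PH_fix_gz (hn : X.Nodup) (hb : b ∉ X) (hc : c ∉ X) (hbc : b ≠ c) (hG : Gz z X)
    (hD : Dc z X) : PH z X ∘ₗ T0 z c X = PH z X := by
  refine LinearMap.ext fun F => ?_
  obtain ⟨r, hr0, hr⟩ := exists_NR α
  refine gz_ext (f := fun z => (PH z X ∘ₗ T0 z c X) F) (g := fun z => PH z X F) hr0 (P := dcP X)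
    (fun w => dcP_diff X w) ?_ ?_ ?_ hG (dcP_ne.2 hD)
  · intro z hz hG _
    exact LinearMap.congr_fun (PH_fix_good (good_of hr hn hz hG) hb hc hbc) F
  · intro w t hG hP
    exact DtF.comp (PH_dt hn (fun x _ => curve_diff w x t) hG)
      (dt_T0 hc (fun x _ => curve_diff w x t) (dcP_ne.1 hP)) F
  · intro w t hG _
    exact PH_dt hn (fun x _ => curve_diff w x t) hG F

/-- **The fixed point equation.** -/
theorem PS_fix_gz (hn : X.Nodup) (hb : b ∉ X) (hc : c ∉ X) (hbc : b ≠ c) (hG : Gz z X)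
    (hD : Dc z X) : PS z b X - PS z b X ∘ₗ T0 z c X =
      PH z X ∘ₗ hT1 uops (fun i j => opCu ℂ i j) z c b X := by
  refine LinearMap.ext fun F => ?_
  obtain ⟨r, hr0, hr⟩ := exists_NR α
  refine gz_ext (f := fun z => (PS z b X - PS z b X ∘ₗ T0 z c X) F)
    (g := fun z => (PH z X ∘ₗ hT1 uops (fun i j => opCu ℂ i j) z c b X) F) hr0 (P := dcP X)
    (fun w => dcP_diff X w) ?_ ?_ ?_ hG (dcP_ne.2 hD)
  · intro z hz hG _
    have h1 := LinearMap.congr_fun (PS0_fix_good (good_of hr hn hz hG) hb hc hbc) F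
    simp only [LinearMap.sub_apply, LinearMap.comp_apply, LinearMap.smul_apply, smul_eq_mul] at h1
    simp only [PS, LinearMap.sub_apply, LinearMap.comp_apply, LinearMap.smul_apply, smul_eq_mul]
    rw [← mul_sub, h1, inv_mul_cancel_left₀ s2_ne]
  · intro w t hG hP
    have hGo := go_of hG hn
    have d1 := PS_dt (b := b) hn (fun x _ => curve_diff w x t) hGo
    exact (d1 F).sub (DtF.comp d1 (dt_T0 hc (fun x _ => curve_diff w x t) (dcP_ne.1 hP)) F)
  · intro w t hG hP
    exact DtF.comp (PH_dt hn (fun x _ => curve_diff w x t) hG)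
      (dt_hT1 hc (fun x _ => curve_diff w x t) (dcP_ne.1 hP)) F

omit [DecidableEq α] [Finite α] in
theorem ev_dc {f : α → ℂ} (hD : ∀ r ∈ X, Fm.Dn (ux z r) ≠ 0) :
    ∀ᶠ t in 𝓝[≠] (0 : ℂ), ∀ r ∈ X, Fm.Dn (ux (gpath f z t) r) ≠ 0 := by
  classical
  have h : ∀ᶠ t in 𝓝 (0 : ℂ), ∀ r ∈ X.toFinset, Fm.Dn (ux (gpath f z t) r) ≠ 0 := by
    rw [Finset.eventually_all]
    intro r hr
    have hc : ContinuousAt (fun t => Fm.Dn (ux (gpath f z t) r)) 0 := by
      unfold ux gpath Fm.Dn
      fun_prop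
    refine hc.eventually_ne ?_
    rw [gpath_zero]
    exact hD r (List.mem_toFinset.1 hr)
  filter_upwards [eventually_nhdsWithin_of_eventually_nhds h] with t ht
  exact fun r hr => ht r (List.mem_toFinset.2 hr)

/-- **`PH` is fixed by the column**, ordered generic rapidities. -/
theorem PH_fix (hn : X.Nodup) (hb : b ∉ X) (hc : c ∉ X) (hbc : b ≠ c) (hG : Go z X)
    (hD : Dc z X) : PH z X ∘ₗ T0 z c X = PH z X := by
  refine LinearMap.ext fun F => ?_
  have e0 := gpath_zero (idf X) z
  have h := eq_of_path (f := fun t => (PH (gpath (idf X) z t) X ∘ₗ T0 (gpath (idf X) z t) c X) F)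
    (g := fun t => PH (gpath (idf X) z t) X F)
    (DtF.comp (PH_dtO hn (fun x _ => gpath_diff _ z x 0) (by rw [e0]; exact hG))
      (dt_T0 hc (fun x _ => gpath_diff _ z x 0) (by rw [e0]; exact hD)) F)
    (PH_dtO hn (fun x _ => gpath_diff _ z x 0) (by rw [e0]; exact hG) F) ?_
  · simp only [e0] at h
    exact h
  · filter_upwards [ev_gpath (idf_inj X) z, ev_dc (f := idf X) hD] with t h1 h2
    exact LinearMap.congr_fun (PH_fix_gz hn hb hc hbc h1 h2) F

/-- **The fixed point equation of the exit functional**, ordered generic rapidities. -/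
theorem PS_fix (hn : X.Nodup) (hb : b ∉ X) (hc : c ∉ X) (hbc : b ≠ c) (hG : Go z X)
    (hD : Dc z X) : PS z b X - PS z b X ∘ₗ T0 z c X =
      PH z X ∘ₗ hT1 uops (fun i j => opCu ℂ i j) z c b X := by
  refine LinearMap.ext fun F => ?_
  have e0 := gpath_zero (idf X) z
  have g0 : Go (gpath (idf X) z 0) X := by rw [e0]; exact hG
  have d0 : Dc (gpath (idf X) z 0) X := by rw [e0]; exact hD
  have d1 := PS_dt (b := b) (zs := gpath (idf X) z) hn (fun x _ => gpath_diff _ z x 0) g0
  have h := eq_of_path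
    (f := fun t => (PS (gpath (idf X) z t) b X -
      PS (gpath (idf X) z t) b X ∘ₗ T0 (gpath (idf X) z t) c X) F)
    (g := fun t => (PH (gpath (idf X) z t) X ∘ₗ
      hT1 uops (fun i j => opCu ℂ i j) (gpath (idf X) z t) c b X) F)
    ((d1 F).sub (DtF.comp d1 (dt_T0 hc (fun x _ => gpath_diff _ z x 0) d0) F))
    (DtF.comp (PH_dtO hn (fun x _ => gpath_diff _ z x 0) g0)
      (dt_hT1 hc (fun x _ => gpath_diff _ z x 0) d0) F) ?_
  · simp only [e0] at h
    exact h
  · filter_upwards [ev_gpath (idf_inj X) z, ev_dc (f := idf X) hD] with t h1 h2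
    exact LinearMap.congr_fun (PS_fix_gz hn hb hc hbc h1 h2) F

end rows

end Pool.Agent.TC
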