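import Pool.Agent.TC.ReflR

/-!
# The highest line of a half strip (helper4)

The functional has no poles in the rapidity of the highest line: it is the functional of the reversed list at
the opposite rapidities (helper22's `PH_rev`), where this line is the lowest one.
-/

set_option autoImplicit false

namespace Pool.Agent.TC

open _root_.Pool.Agent.EXL _root_.Pool.Agent.EXL.Pat Filter Topology
open _root_.Pool.Agent.EXL.Fm (lam)
open _root_.Pool.Agent.NUF _root_.Pool.Agent.NUU

variable {α : Type*} {z z' : α → ℂ} {X Y : List α} {p q b c : α}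

theorem gzn (h : Gz z X) : Gz (fun i => -z i) X where
  s i hi j hj hij := by
    rw [show -z i - -z j = -(z i - z j) by ring, Complex.sin_neg]
    exact neg_ne_zero.2 (h.s i hi j hj hij)
  d i hi j hj hij := by
    rw [show -z i - -z j = z j - z i by ring]
    exact h.d j hj i hi hij.symm

theorem gzn_rev (h : Gz z X) : Gz (fun i => -z i) X.reverse :=
  (gzn h).perm (List.reverse_perm X).symm

variable [DecidableEq α] [Finite α]

/-- The highest line: the functional is the analytic function on the right. -/
theorem PH_topF (hn : (X ++ [p]).Nodup) (hb : b ∉ X ++ [p]) (hc : c ∉ X ++ [p]) (hbc : b ≠ c)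
    (hG : Gz z (X ++ [p])) : PH z (X ++ [p]) = PH (fun i => -z i) (p :: X.reverse) := by
  have h := PH_rev hn hb hc hbc hG
  rw [List.reverse_append, List.reverse_singleton, List.singleton_append] at h
  exact h.symm

/-- **The highest line has no poles.** -/
theorem PH_dtN {zs : ℂ → α → ℂ} {t : ℂ} (hn : X.Nodup) (hp : DifferentiableAt ℂ (fun s => zs s p) t)
    (hz : ∀ x ∈ X, DifferentiableAt ℂ (fun s => zs s x) t) (hG : Gz (zs t) X) :
    DtF (fun s => PH (fun i => -zs s i) (p :: X.reverse)) t :=
  PH_dt1 (List.nodup_reverse.2 hn) hp.neg (fun x hx => (hz x (by simpa using hx)).neg) (gzn_rev hG)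

end Pool.Agent.TC
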