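import Pool.Agent.BAR.LegCF
import Pool.Agent.BAR.ColG
import Pool.Agent.HexLoop.Par

/-!
TARGET-G2, walk side: flux of the Smirnov identity through a part of the domain; complex sums over sets of words.
-/

set_option autoImplicit false

namespace HexObs

namespace TC

open Complex Finset Filter

open scoped ENNReal Topology

/-! the finite flux identity -/

lemma sum_arrV (Ω : Finset Pt) (v0 d0 : Pt) (V : Pt → Prop) [DecidablePred V] :
    ∑ t ∈ arr Ω v0 d0, (if V (vx v0 d0 t t.length) then wt t else 0) =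
      (if V v0 then 1 else 0) + ∑ t ∈ exte Ω v0 d0, (if V (tip v0 d0 t) then wt t else 0) := by
  classical
  have hnil : [] ∈ arr Ω v0 d0 := mem_arr.2 (isArr_nil Ω v0 d0)
  rw [← Finset.add_sum_erase _ _ hnil, wt_nil]
  congr 1
  have h1 : ∑ t ∈ exte Ω v0 d0, (if V (tip v0 d0 t) then wt t else 0) =
      ∑ t ∈ exte Ω v0 d0, ∑ b : Bool, (if V (tip v0 d0 t) then wt (t ++ [b]) else 0) := by
    apply Finset.sum_congr rfl
    intro t _
    split_ifs
    · rw [Fintype.sum_bool, wt_extend]
    · rw [Finset.sum_const_zero]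
  rw [h1, ← Finset.sum_product']
  symm
  refine Finset.sum_bij (fun p _ => p.1 ++ [p.2]) ?_ ?_ ?_ ?_
  · rintro ⟨t, b⟩ hp
    rw [Finset.mem_product, mem_exte] at hp
    rw [Finset.mem_erase, mem_arr]
    exact ⟨by simp, isArr_append_one.2 hp.1⟩
  · rintro ⟨t, b⟩ _ ⟨s, c⟩ _ h
    have := List.append_inj' h rfl
    simp only [List.cons.injEq, and_true] at this
    exact Prod.ext this.1 this.2
  · intro t ht
    rw [Finset.mem_erase, mem_arr] at ht
    obtain ⟨hne, harr⟩ := ht
    have h2 := List.dropLast_append_getLast hne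
    refine ⟨(t.dropLast, t.getLast hne), ?_, h2⟩
    rw [Finset.mem_product, mem_exte]
    refine ⟨?_, Finset.mem_univ _⟩
    rw [← h2] at harr
    exact isArr_append_one.1 harr
  · rintro ⟨t, b⟩ _
    have hl : (t ++ [b]).length = t.length + 1 := by simp
    have e : vx v0 d0 (t ++ [b]) (t ++ [b]).length = tip v0 d0 t := by
      rw [hl, vx_append (by omega)]
      rfl
    simp only [e]

lemma sum_backV {Ω : Finset Pt} {v0 d0 : Pt} (h0 : d0 ∈ dirs) (hhalf : ∀ v ∈ Ω, 0 < ip (v - v0) d0)
    (V : Pt → Prop) [DecidablePred V] :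
    ∑ t ∈ back Ω v0 d0, (if V (tip v0 d0 t) then wt t else 0) = 0 := by
  refine Finset.sum_involution (fun t _ => revw t (ret v0 d0 t)) ?_ ?_ ?_ ?_
  · intro t ht
    obtain ⟨h1, h2, h3⟩ := back_ret hhalf ht
    obtain ⟨_, _, ht'⟩ := revw_back h0 (mem_back.1 ht).1 h1 h2 h3
    have h4 := wt_revw h0 hhalf (mem_back.1 ht).1 h1 h2 h3
    simp only [ht']
    split_ifs
    · exact h4
    · rw [add_zero]
  · intro t ht _
    obtain ⟨h1, h2, h3⟩ := back_ret hhalf ht
    exact revw_ne h1 h2
  · intro t ht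
    obtain ⟨h1, h2, h3⟩ := back_ret hhalf ht
    obtain ⟨h', hv', ht'⟩ := revw_back h0 (mem_back.1 ht).1 h1 h2 h3
    rw [mem_back]
    refine ⟨h', ?_, ?_⟩
    · rw [ht']
      exact (mem_back.1 ht).2.1
    · push Not
      exact ⟨ret v0 d0 t, by rw [revw_length]; exact h2, hv'⟩
  · intro t ht
    obtain ⟨h1, h2, h3⟩ := back_ret hhalf ht
    obtain ⟨h', hv', ht'⟩ := revw_back h0 (mem_back.1 ht).1 h1 h2 h3
    show revw (revw t (ret v0 d0 t)) (ret v0 d0 (revw t (ret v0 d0 t))) = t
    rw [ret_unique h' h1 (by rw [revw_length]; exact h2) hv']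
    exact revw_revw h1 h2

open Classical in
/-- **Flux**: the walks that leave the vertices of V against the walks that arrive at them. -/
theorem flux_fin {Ω : Finset Pt} {v0 d0 : Pt} (h0 : d0 ∈ dirs) (hhalf : ∀ v ∈ Ω, 0 < ip (v - v0) d0)
    (V : Pt → Prop) (hV : ¬ V v0) :
    ∑ t ∈ (arr Ω v0 d0).filter (fun t => V (vx v0 d0 t t.length)), wt t =
      ∑ t ∈ (arr Ω v0 d0).filter (fun t => tip v0 d0 t ∈ Ω ∧ V (tip v0 d0 t)), wt t := by
  have h1 := sum_arrV Ω v0 d0 V
  have h2 := sum_backV h0 hhalf V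
  have h3 := sum_arr Ω v0 d0 (fun t => if tip v0 d0 t ∈ Ω ∧ V (tip v0 d0 t) then wt t else 0)
  have e1 : ∑ t ∈ exits Ω v0 d0, (if tip v0 d0 t ∈ Ω ∧ V (tip v0 d0 t) then wt t else 0) = 0 := by
    apply Finset.sum_eq_zero
    intro t ht
    rw [if_neg (fun h => (mem_exits.1 ht).2 h.1)]
  have e2 : ∑ t ∈ exte Ω v0 d0, (if tip v0 d0 t ∈ Ω ∧ V (tip v0 d0 t) then wt t else 0) =
      ∑ t ∈ exte Ω v0 d0, (if V (tip v0 d0 t) then wt t else 0) := by
    apply Finset.sum_congr rfl
    intro t ht
    have := (mem_exte.1 ht).2.1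
    simp only [this, true_and]
  have e3 : ∑ t ∈ back Ω v0 d0, (if tip v0 d0 t ∈ Ω ∧ V (tip v0 d0 t) then wt t else 0) =
      ∑ t ∈ back Ω v0 d0, (if V (tip v0 d0 t) then wt t else 0) := by
    apply Finset.sum_congr rfl
    intro t ht
    have := (mem_back.1 ht).2.1
    simp only [this, true_and]
  rw [e1, e2, e3, h2, zero_add, add_zero] at h3
  rw [Finset.sum_filter, Finset.sum_filter, h3, h1, if_neg hV, zero_add]

/-! complex sums over sets of words -/

lemma norm_wt (t : List Bool) : ‖wt t‖ = xc ^ t.length := by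
  unfold wt
  rw [norm_mul, Complex.norm_exp_ofReal_mul_I, one_mul, norm_pow, Complex.norm_real, Real.norm_of_nonneg xc_pos.le]

lemma summable_ind {P : Set (List Bool)} (h : gf P ≠ ⊤) : Summable (P.indicator fun t => xc ^ t.length) := by
  classical
  rw [gf_ind] at h
  have h1 := ENNReal.summable_toReal h
  refine h1.congr fun t => ?_
  unfold Set.indicator wE
  split_ifs
  · rw [ENNReal.toReal_ofReal (pow_nonneg xc_pos.le _)]
  · rfl

/-- limits of sums over finite sets of words -/
theorem tendsto_sw {P Q : Set (List Bool)} (hP : gf P ≠ ⊤) {F : ℕ → Finset (List Bool)}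
    (hF : ∀ M, ∀ t ∈ F M, t ∈ P) (hQ : Q ⊆ P) (hlim : ∀ t ∈ P, ∀ᶠ M in atTop, (t ∈ F M ↔ t ∈ Q)) {C : ℝ}
    {g : List Bool → ℂ} (hg : ∀ t ∈ P, ‖g t‖ ≤ C * xc ^ t.length) :
    Tendsto (fun M => ∑ t ∈ F M, g t) atTop (𝓝 (∑' t, Q.indicator g t)) := by
  classical
  have e : ∀ M, ∑ t ∈ F M, g t = ∑' t, ((F M : Set (List Bool)).indicator g t) := by
    intro M
    rw [tsum_eq_sum (s := F M)]
    · apply Finset.sum_congr rfl
      intro t ht
      rw [Set.indicator_of_mem (Finset.mem_coe.2 ht)]
    · intro t ht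
      rw [Set.indicator_of_notMem (fun h => ht (Finset.mem_coe.1 h))]
  simp only [e]
  refine tendsto_tsum_of_dominated_convergence (bound := fun t => C * P.indicator (fun t => xc ^ t.length) t)
    ((summable_ind hP).mul_left C) ?_ ?_
  · intro t
    by_cases ht : t ∈ P
    · have h1 := hlim t ht
      apply tendsto_const_nhds.congr'
      filter_upwards [h1] with M hM
      unfold Set.indicator
      simp only [Finset.mem_coe]
      by_cases h2 : t ∈ Q
      · rw [if_pos h2, if_pos (hM.2 h2)]
      · rw [if_neg h2, if_neg (fun h => h2 (hM.1 h))]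
    · have h2 : t ∉ Q := fun h => ht (hQ h)
      rw [Set.indicator_of_notMem h2]
      apply tendsto_const_nhds.congr
      intro M
      rw [Set.indicator_of_notMem (fun h => ht (hF M t (Finset.mem_coe.1 h)))]
  · filter_upwards with M t
    by_cases ht : t ∈ F M
    · rw [Set.indicator_of_mem (Finset.mem_coe.2 ht), Set.indicator_of_mem (hF M t ht)]
      exact hg t (hF M t ht)
    · rw [Set.indicator_of_notMem (fun h => ht (Finset.mem_coe.1 h)), norm_zero]
      by_cases h2 : t ∈ P
      · rw [Set.indicator_of_mem h2]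
        exact (norm_nonneg _).trans (hg t h2)
      · rw [Set.indicator_of_notMem h2, mul_zero]

/-! exhaustion of the strip -/

open LP (nn lv Vt De Par)

/-- finite sets that exhaust the lattice vertices of the strip of N rows -/
structure Exh (N : ℕ) (Ω : ℕ → Finset Pt) : Prop where
  sub : ∀ M, ∀ v ∈ Ω M, Vt v ∧ 0 < lv v ∧ lv v < 3 * (N : ℤ) + 2
  ev : ∀ v, Vt v → 0 < lv v → lv v < 3 * (N : ℤ) + 2 → ∀ᶠ M in atTop, v ∈ Ω M

lemma ip_up (v : Pt) : ip v up = lv v := by
  unfold ip up lv
  ring

theorem exh_par (N : ℕ) : Exh N fun M => Par N M M := by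
  constructor
  · intro M v hv
    rw [LP.mem_par] at hv
    exact ⟨hv.1, hv.2.1, hv.2.2.1⟩
  · intro v h1 h2 h3
    filter_upwards [Filter.eventually_ge_atTop ((nn v).natAbs + 1)] with M hM
    rw [LP.mem_par]
    refine ⟨h1, h2, h3, ?_, ?_⟩ <;> omega

/-- eventually all vertices of the path are decided -/
lemma Exh.path {N : ℕ} {Ω : ℕ → Finset Pt} (h : Exh N Ω) (x : ℕ → Pt) (hx : ∀ i, Vt (x i)) (n : ℕ) :
    ∀ᶠ M in atTop, ∀ i, i ≤ n → (x i ∈ Ω M ↔ 0 < lv (x i) ∧ lv (x i) < 3 * (N : ℤ) + 2) := by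
  have h1 : ∀ i ∈ Finset.range (n + 1), ∀ᶠ M in atTop,
      (x i ∈ Ω M ↔ 0 < lv (x i) ∧ lv (x i) < 3 * (N : ℤ) + 2) := by
    intro i _
    by_cases h2 : 0 < lv (x i) ∧ lv (x i) < 3 * (N : ℤ) + 2
    · filter_upwards [h.ev (x i) (hx i) h2.1 h2.2] with M hM
      exact ⟨fun _ => h2, fun _ => hM⟩
    · refine Filter.Eventually.of_forall fun M => ⟨fun h3 => (h.sub M _ h3).2, fun h3 => absurd h3 h2⟩
  have h2 := (Filter.eventually_all_finset (Finset.range (n + 1))).2 h1
  filter_upwards [h2] with M hM i hi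
  exact hM i (Finset.mem_range.2 (by omega))

lemma vt_vx {u d : Pt} (h : De (u, d)) (t : List Bool) (i : ℕ) : Vt (vx u d t i) := by
  unfold vx
  obtain ⟨_, h1, h2⟩ := h
  unfold Vt at h1 h2 ⊢
  rw [cl_vs]
  split_ifs
  · exact h1
  · rw [← cl_add]
    exact h2

lemma de_oo : De (oo, up) := by
  unfold De Vt
  refine ⟨by decide, by decide, by decide⟩

/-- words up to the lower vertices of the row r, leaving upwards through a row edge -/
def UU (N r : ℕ) : Set (List Bool) := {t | t ∈ SSt N ∧ lev t t.length = 3 * r + 2 ∧ lev t (t.length + 1) = 3 * r + 3}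

/-- the same row edges, downwards -/
def DD (N r : ℕ) : Set (List Bool) := {t | t ∈ SSt N ∧ lev t t.length = 3 * r + 3 ∧ lev t (t.length + 1) = 3 * r + 2}

/-- the floor words -/
def AA (N : ℕ) : Set (List Bool) := {t | t ∈ SSt N ∧ lev t (t.length + 1) = 0}

lemma lev_dyn (t : List Bool) (i : ℕ) : (Even i ∧ 3 ∣ lev t i ∧ (lev t (i + 1) = lev t i + 2 ∨ lev t (i + 1) = lev t i - 1)) ∨
    (¬ Even i ∧ 3 ∣ lev t i - 2 ∧ (lev t (i + 1) = lev t i - 2 ∨ lev t (i + 1) = lev t i + 1)) := by
  have h1 := lev_mod t i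
  have h2 := lev_mod t (i + 1)
  have h3 := lev_succ t i
  have h4 : ip (dx up t i) up = 2 ∨ ip (dx up t i) up = 1 ∨ ip (dx up t i) up = -1 ∨ ip (dx up t i) up = -2 := by
    have : ∀ d ∈ dirs, ip d up = 2 ∨ ip d up = 1 ∨ ip d up = -1 ∨ ip d up = -2 := by decide
    exact this _ (ds_mem (by decide) i)
  by_cases he : Even i
  · left
    have he' : ¬ Even (i + 1) := by simpa [Nat.even_add_one] using he
    rw [if_pos he] at h1
    rw [if_neg he'] at h2
    refine ⟨he, by omega, by omega⟩
  · right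
    have he' : Even (i + 1) := by simpa [Nat.even_add_one] using he
    rw [if_neg he] at h1
    rw [if_pos he'] at h2
    refine ⟨he, by omega, by omega⟩

lemma mem_SSt {N : ℕ} {t : List Bool} : t ∈ SSt N ↔ (∀ i, 1 ≤ i → i ≤ t.length → 0 < lev t i ∧ lev t i < 3 * (N : ℤ) + 2) ∧
    ∀ i k, i < k → k ≤ t.length → vx oo up t i ≠ vx oo up t k := by
  constructor
  · intro h
    exact ⟨fun i h1 h2 => mem_St.1 (h.mem i h1 h2), h.inj⟩
  · rintro ⟨h1, h2⟩
    exact ⟨fun i h3 h4 => mem_St.2 (h1 i h3 h4), h2⟩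

open Classical in
/-- **The flux through the row r of the strip.** -/
theorem flux_strip {N r : ℕ} (hr : r < N) :
    ∑' t, (UU N r).indicator wt t + ∑' t, (AA N).indicator wt t = ∑' t, (DD N r).indicator wt t + 1 := by
  obtain ⟨V, hV⟩ : ∃ V : Pt → Prop, V = fun v => 0 < lv v ∧ lv v ≤ 3 * (r : ℤ) + 2 := ⟨_, rfl⟩
  have hP := PLW.gf_SSt_fin N
  have hlev : ∀ t i, lv (vx oo up t i) = lev t i := fun t i => (ip_up _).symm
  have hg : ∀ t ∈ SSt N, ‖wt t‖ ≤ 1 * xc ^ t.length := fun t _ => by rw [norm_wt, one_mul]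
  have hfin : ∀ M, ∑ t ∈ (arr (Par N M M) oo up).filter (fun t => V (vx oo up t t.length)), wt t =
      ∑ t ∈ (arr (Par N M M) oo up).filter (fun t => tip oo up t ∈ Par N M M ∧ V (tip oo up t)), wt t := by
    intro M
    apply flux_fin (by decide)
    · intro v hv
      have e : v - oo = v := sub_zero v
      rw [e, ip_up]
      exact ((exh_par N).sub M v hv).2.1
    · rw [hV]
      show ¬ (0 < lv oo ∧ lv oo ≤ 3 * (r : ℤ) + 2)
      have : lv oo = 0 := by decide
      rw [this]
      exact fun h => absurd h.1 (lt_irrefl _)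
  have hsub : ∀ M, ∀ t ∈ arr (Par N M M) oo up, t ∈ SSt N := by
    intro M t ht
    rw [mem_arr] at ht
    rw [mem_SSt]
    refine ⟨fun i h1 h2 => ?_, ht.inj⟩
    have := ((exh_par N).sub M _ (ht.mem i h1 h2)).2
    rwa [hlev] at this
  have harr : ∀ t ∈ SSt N, ∀ᶠ M in atTop, (t ∈ arr (Par N M M) oo up ∧
      (tip oo up t ∈ Par N M M ↔ 0 < lev t (t.length + 1) ∧ lev t (t.length + 1) < 3 * (N : ℤ) + 2)) := by
    intro t ht
    rw [mem_SSt] at ht
    filter_upwards [(exh_par N).path (vx oo up t) (vt_vx de_oo t) (t.length + 1)] with M hM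
    refine ⟨mem_arr.2 ⟨fun i h1 h2 => (hM i (by omega)).2 ?_, ht.2⟩, ?_⟩
    · rw [hlev]
      exact ht.1 i h1 h2
    · have := hM (t.length + 1) le_rfl
      rw [hlev] at this
      exact this
  -- the two limits
  obtain ⟨L, hL⟩ : ∃ L : Set (List Bool), L = {t | t ∈ SSt N ∧ 0 < lev t t.length ∧ lev t t.length ≤ 3 * (r : ℤ) + 2} := ⟨_, rfl⟩
  obtain ⟨R, hR⟩ : ∃ R : Set (List Bool), R = {t | t ∈ SSt N ∧ 0 < lev t (t.length + 1) ∧
    lev t (t.length + 1) ≤ 3 * (r : ℤ) + 2} := ⟨_, rfl⟩
  have hrN : (r : ℤ) < N := by exact_mod_cast hr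
  have l1 := tendsto_sw (Q := L) hP (F := fun M => (arr (Par N M M) oo up).filter (fun t => V (vx oo up t t.length)))
    (fun M t ht => hsub M t (Finset.mem_filter.1 ht).1) (by rw [hL]; exact fun t ht => ht.1)
    (by
      intro t ht
      filter_upwards [harr t ht] with M hM
      rw [Finset.mem_filter, hL, hV, Set.mem_setOf_eq]
      simp only [hlev]
      exact ⟨fun h => ⟨ht, h.2⟩, fun h => ⟨hM.1, h.2⟩⟩) hg
  have l2 := tendsto_sw (Q := R) hP
    (F := fun M => (arr (Par N M M) oo up).filter (fun t => tip oo up t ∈ Par N M M ∧ V (tip oo up t)))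
    (fun M t ht => hsub M t (Finset.mem_filter.1 ht).1) (by rw [hR]; exact fun t ht => ht.1)
    (by
      intro t ht
      filter_upwards [harr t ht] with M hM
      have e : lv (tip oo up t) = lev t (t.length + 1) := hlev t _
      rw [Finset.mem_filter, hR, hV, Set.mem_setOf_eq]
      simp only [e]
      constructor
      · exact fun h => ⟨ht, h.2.2⟩
      · intro h
        exact ⟨hM.1, hM.2.2 ⟨h.2.1, by linarith [h.2.2]⟩, h.2⟩) hg
  simp only [hfin] at l1
  have hLR := tendsto_nhds_unique l1 l2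
  -- pointwise bookkeeping
  have hsum : ∀ Q : Set (List Bool), Q ⊆ SSt N → Summable (Q.indicator wt) := by
    intro Q hQ
    have h1 := (summable_ind hP)
    refine Summable.of_norm_bounded h1 fun t => ?_
    by_cases ht : t ∈ Q
    · rw [Set.indicator_of_mem ht, Set.indicator_of_mem (hQ ht), norm_wt]
    · rw [Set.indicator_of_notMem ht, norm_zero]
      exact Set.indicator_nonneg (fun t _ => pow_nonneg xc_pos.le _) t
  have hnil : ([] : List Bool) ∈ SSt N := by
    rw [mem_SSt]
    constructor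
    · intro i h1 h2
      rw [List.length_nil] at h2
      omega
    · intro i k h1 h2
      rw [List.length_nil] at h2
      omega
  have hpt : ∀ t, L.indicator wt t + ((DD N r).indicator wt t + ({[]} : Set (List Bool)).indicator wt t) =
      R.indicator wt t + ((UU N r).indicator wt t + (AA N).indicator wt t) := by
    intro t
    unfold Set.indicator
    by_cases ht : t ∈ SSt N
    · have hd := lev_dyn t t.length
      have h1 := (mem_SSt.1 ht).1 t.length
      by_cases h0 : t = []
      · subst h0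
        have e1 : lev [] 0 = 0 := lev_zero []
        have e2 : lev [] 1 = 2 := lev_one []
        have a1 : ([] : List Bool) ∉ L := by
          rw [hL]
          rintro ⟨_, h, _⟩
          rw [List.length_nil, e1] at h
          exact lt_irrefl _ h
        have a2 : ([] : List Bool) ∈ R := by
          rw [hR]
          refine ⟨hnil, ?_⟩
          rw [List.length_nil, e2]
          constructor <;> omega
        have a3 : ([] : List Bool) ∉ DD N r := by
          rintro ⟨_, h, _⟩
          rw [List.length_nil, e1] at h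
          omega
        have a4 : ([] : List Bool) ∉ UU N r := by
          rintro ⟨_, h, _⟩
          rw [List.length_nil, e1] at h
          omega
        have a5 : ([] : List Bool) ∉ AA N := by
          rintro ⟨_, h⟩
          rw [List.length_nil, e2] at h
          omega
        rw [if_neg a1, if_pos a2, if_neg a3, if_neg a4, if_neg a5, if_pos (Set.mem_singleton _)]
        ring
      · have hlen : 1 ≤ t.length := by
          rcases Nat.eq_zero_or_pos t.length with h2 | h2
          · exact absurd (List.length_eq_zero_iff.1 h2) h0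
          · exact h2
        have h2 := h1 hlen le_rfl
        have a0 : t ∉ ({[]} : Set (List Bool)) := fun h => h0 h
        have aL : t ∈ L ↔ 0 < lev t t.length ∧ lev t t.length ≤ 3 * (r : ℤ) + 2 := by
          rw [hL]
          exact ⟨fun h => h.2, fun h => ⟨ht, h⟩⟩
        have aR : t ∈ R ↔ 0 < lev t (t.length + 1) ∧ lev t (t.length + 1) ≤ 3 * (r : ℤ) + 2 := by
          rw [hR]
          exact ⟨fun h => h.2, fun h => ⟨ht, h⟩⟩
        have aU : t ∈ UU N r ↔ lev t t.length = 3 * r + 2 ∧ lev t (t.length + 1) = 3 * r + 3 :=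
          ⟨fun h => h.2, fun h => ⟨ht, h⟩⟩
        have aD : t ∈ DD N r ↔ lev t t.length = 3 * r + 3 ∧ lev t (t.length + 1) = 3 * r + 2 :=
          ⟨fun h => h.2, fun h => ⟨ht, h⟩⟩
        have aA : t ∈ AA N ↔ lev t (t.length + 1) = 0 := ⟨fun h => h.2, fun h => ⟨ht, h⟩⟩
        simp only [aL, aR, aU, aD, aA, a0, if_false]
        split_ifs <;> first
          | omega
          | (simp only [add_zero, zero_add])
    · have b1 : t ∉ L := fun h => ht (by rw [hL] at h; exact h.1)
      have b2 : t ∉ R := fun h => ht (by rw [hR] at h; exact h.1)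
      have b3 : t ∉ DD N r := fun h => ht h.1
      have b4 : t ∉ UU N r := fun h => ht h.1
      have b5 : t ∉ AA N := fun h => ht h.1
      have b6 : t ∉ ({[]} : Set (List Bool)) := fun h => ht (by rw [Set.mem_singleton_iff.1 h]; exact hnil)
      rw [if_neg b1, if_neg b2, if_neg b3, if_neg b4, if_neg b5, if_neg b6]
  have sL := hsum L (by rw [hL]; exact fun t ht => ht.1)
  have sR := hsum R (by rw [hR]; exact fun t ht => ht.1)
  have sD := hsum (DD N r) fun t ht => ht.1
  have sU := hsum (UU N r) fun t ht => ht.1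
  have sA := hsum (AA N) fun t ht => ht.1
  have sN := hsum {[]} (fun t ht => by rw [Set.mem_singleton_iff.1 ht]; exact hnil)
  have key : ∑' t, (L.indicator wt t + ((DD N r).indicator wt t + ({[]} : Set (List Bool)).indicator wt t)) =
      ∑' t, (R.indicator wt t + ((UU N r).indicator wt t + (AA N).indicator wt t)) := tsum_congr hpt
  rw [sL.tsum_add (sD.add sN), sD.tsum_add sN, sR.tsum_add (sU.add sA), sU.tsum_add sA, hLR] at key
  have e1 : ∑' t, ({[]} : Set (List Bool)).indicator wt t = 1 := by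
    rw [tsum_eq_single ([] : List Bool)]
    · rw [Set.indicator_of_mem (Set.mem_singleton _), wt_nil]
    · intro t ht
      rw [Set.indicator_of_notMem (fun h => ht (Set.mem_singleton_iff.1 h))]
  rw [e1] at key
  linear_combination -key

/-! the real parts -/

lemma re_wt (t : List Bool) : (wt t).re = Real.cos (wind t * (Real.pi / 8)) * xc ^ t.length := by
  unfold wt
  rw [← Complex.ofReal_pow, Complex.re_mul_ofReal, Complex.exp_ofReal_mul_I_re]

lemma summable_sw {P : Set (List Bool)} (h : gf P ≠ ⊤) : Summable (P.indicator wt) := by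
  refine Summable.of_norm_bounded (summable_ind h) fun t => ?_
  by_cases ht : t ∈ P
  · rw [Set.indicator_of_mem ht, Set.indicator_of_mem ht, norm_wt]
  · rw [Set.indicator_of_notMem ht, Set.indicator_of_notMem ht, norm_zero]

lemma re_sw {P : Set (List Bool)} (h : gf P ≠ ⊤) :
    (∑' t, P.indicator wt t).re = ∑' t, P.indicator (fun t => (wt t).re) t := by
  rw [Complex.re_tsum (summable_sw h)]
  apply tsum_congr
  intro t
  by_cases ht : t ∈ P
  · rw [Set.indicator_of_mem ht, Set.indicator_of_mem ht]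
  · rw [Set.indicator_of_notMem ht, Set.indicator_of_notMem ht, Complex.zero_re]

lemma gf_toReal_ind (P : Set (List Bool)) : (gf P).toReal = ∑' t, P.indicator (fun t => xc ^ t.length) t := by
  classical
  rw [gf_ind, ENNReal.tsum_toReal_eq]
  · apply tsum_congr
    intro t
    unfold Set.indicator wE
    split_ifs
    · rw [ENNReal.toReal_ofReal (pow_nonneg xc_pos.le _)]
    · rfl
  · intro t
    split_ifs
    · exact wE_ne_top t
    · exact ENNReal.zero_ne_top

lemma AA_dir {N : ℕ} {t : List Bool} (ht : t ∈ AA N) : 1 ≤ t.length ∧ dx up t t.length = -up := by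
  have h1 := (mem_SSt.1 ht.1).1 t.length
  have h2 : lev t (t.length + 1) = 0 := ht.2
  have hlen : 1 ≤ t.length := by
    rcases Nat.eq_zero_or_pos t.length with h | h
    · exfalso
      rw [h] at h2
      have h3 : lev t (0 + 1) = 2 := lev_one t
      rw [h3] at h2
      norm_num at h2
    · exact h
  have h3 := h1 hlen le_rfl
  have h4 := lev_dyn t t.length
  have h5 := lev_succ t t.length
  have h6 : ip (dx up t t.length) up = -2 := by omega
  refine ⟨hlen, ?_⟩
  have : ∀ d ∈ dirs, ip d up = -2 → d = -up := by decide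
  exact this _ (ds_mem (by decide) _) h6

lemma re_AA {N : ℕ} {t : List Bool} (ht : t ∈ AA N) : (wt t).re = Real.cos (3 * Real.pi / 8) * xc ^ t.length := by
  obtain ⟨hlen, hd⟩ := AA_dir ht
  have hS := mem_SSt.1 ht.1
  have e : ∀ v : Pt, v - oo = v := fun v => sub_zero v
  have h1 := wind_exit (v0 := oo) (d0 := up) (by decide) hS.2 (fun i h1 h2 => by
      rw [e]
      exact (hS.1 i h1 h2).1) (fun i h1 h2 => by
      rw [hd]
      have h3 : ip (tip oo up t) up = 0 := ht.2
      have h4 : 0 < ip (vx oo up t i) up := (hS.1 i h1 h2).1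
      unfold ip up at h3 h4 ⊢
      simp only [Prod.fst_sub, Prod.snd_sub, Prod.fst_neg, Prod.snd_neg]
      linarith)
  rw [hd] at h1
  have h2 : wind t = 3 ∨ wind t = -3 := by
    rcases h1 with h | h | h | h | h | h
    · exact absurd h.1 (by decide)
    · exact absurd h.1 (by decide)
    · exact absurd h.1 (by decide)
    · exact absurd h.1 (by decide)
    · exact absurd h.1 (by decide)
    · exact h.2
  rw [re_wt]
  rcases h2 with h | h
  · rw [h]
    push_cast
    congr 2
    ring
  · rw [h]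
    push_cast
    have : (-3 : ℝ) * (Real.pi / 8) = -(3 * Real.pi / 8) := by ring
    rw [this, Real.cos_neg]

lemma gf_AA_le (N : ℕ) : gf (AA N) ≤ AT N := by
  unfold AT
  apply gf_mono
  intro t ht
  obtain ⟨hlen, hd⟩ := AA_dir ht
  refine ⟨ht.1, ?_, hd⟩
  intro h
  have h1 : (0 : ℤ) < lev t (t.length + 1) := by
    have h2 : vx oo up t (t.length + 1) ∈ St N := h
    exact (mem_St.1 h2).1
  have h2 : lev t (t.length + 1) = 0 := ht.2
  rw [h2] at h1
  exact lt_irrefl _ h1

/-- **The real parts: upwards minus downwards is between 0 and 1.** -/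
theorem flux_re {N r : ℕ} (hr : r < N) :
    (∑' t, (DD N r).indicator wt t).re ≤ (∑' t, (UU N r).indicator wt t).re := by
  have hN : 1 ≤ N := by omega
  have h1 := congrArg Complex.re (flux_strip hr)
  rw [Complex.add_re, Complex.add_re, Complex.one_re] at h1
  have hA : gf (AA N) ≠ ⊤ := ne_top_of_le_ne_top (AT_ne_top hN) (gf_AA_le N)
  have h2 : (∑' t, (AA N).indicator wt t).re = Real.cos (3 * Real.pi / 8) * (gf (AA N)).toReal := by
    rw [re_sw hA, gf_toReal_ind, ← tsum_mul_left]
    apply tsum_congr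
    intro t
    by_cases ht : t ∈ AA N
    · rw [Set.indicator_of_mem ht, Set.indicator_of_mem ht, re_AA ht]
    · rw [Set.indicator_of_notMem ht, Set.indicator_of_notMem ht, mul_zero]
  have h3 : (gf (AA N)).toReal ≤ aT N := ENNReal.toReal_mono (AT_ne_top hN) (gf_AA_le N)
  have h4 := bT_add_aT hN
  have h5 := bT_nonneg N
  have h6 := cos3_pos
  have h7 : Real.cos (3 * Real.pi / 8) * (gf (AA N)).toReal ≤ Real.cos (3 * Real.pi / 8) * aT N :=
    mul_le_mul_of_nonneg_left h3 h6.le
  rw [h2] at h1
  linarith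

/-! mirror: left and right row edges -/

lemma mulE_inj' {p q : Pt} (h : mulE (-1, 1) (conjE p) = mulE (-1, 1) (conjE q)) : p = q := by
  rw [mirror_pt, mirror_pt] at h
  have h1 := congrArg Prod.fst h
  have h2 := congrArg Prod.snd h
  simp only at h1 h2
  exact Prod.ext (by omega) (by omega)

lemma wind_not (t : List Bool) : wind (t.map not) = -wind t := by
  induction t with
  | nil => rfl
  | cons b t ih =>
    have e : ∀ (b : Bool) (t : List Bool), wind (b :: t) = sgn b + wind t := fun b t => by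
      unfold wind
      rw [List.map_cons, List.sum_cons]
    rw [List.map_cons, e, e, ih]
    cases b <;> simp [sgn] <;> ring

lemma wt_not (t : List Bool) : wt (t.map not) = (starRingEnd ℂ) (wt t) := by
  unfold wt
  rw [wind_not, List.length_map, map_mul, map_pow, Complex.conj_ofReal, ← Complex.exp_conj, map_mul, Complex.conj_I,
    Complex.conj_ofReal]
  congr 2
  push_cast
  ring

lemma not_not_map (t : List Bool) : (t.map not).map not = t := by
  induction t with
  | nil => rfl
  | cons b t ih =>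
    rw [List.map_cons, List.map_cons, ih, Bool.not_not]

lemma SSt_not {N : ℕ} {t : List Bool} (h : t ∈ SSt N) : t.map not ∈ SSt N := by
  rw [mem_SSt] at h ⊢
  rw [List.length_map]
  refine ⟨fun i h1 h2 => ?_, fun i k h1 h2 => ?_⟩
  · rw [lev_not t (by omega)]
    exact h.1 i h1 h2
  · intro he
    rw [vx_not t (by omega), vx_not t (by omega)] at he
    have e1 := congrArg Prod.fst he
    have e2 := congrArg Prod.snd he
    simp only at e1 e2
    exact h.2 i k h1 h2 (Prod.ext (by omega) (by omega))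

/-- the part of a set of words with the last direction d -/
def Dir (P : Set (List Bool)) (d : Pt) : Set (List Bool) := {t | t ∈ P ∧ dx up t t.length = d}

lemma sw_not {P Q : Set (List Bool)} (h : ∀ t, t ∈ P ↔ t.map not ∈ Q) :
    ∑' t, P.indicator wt t = (starRingEnd ℂ) (∑' t, Q.indicator wt t) := by
  rw [Complex.conj_tsum]
  have e : ∀ t, P.indicator wt t = (starRingEnd ℂ) (Q.indicator wt (t.map not)) := by
    intro t
    by_cases ht : t ∈ P
    · rw [Set.indicator_of_mem ht, Set.indicator_of_mem ((h t).1 ht), wt_not, Complex.conj_conj]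
    · rw [Set.indicator_of_notMem ht, Set.indicator_of_notMem (fun h1 => ht ((h t).2 h1)), map_zero]
  rw [tsum_congr e]
  exact (Function.Involutive.toPerm (fun t : List Bool => t.map not) not_not_map).tsum_eq
    (fun t => (starRingEnd ℂ) (Q.indicator wt t))

end TC

end HexObs
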