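import Pool.Agent.TC.Flux

/-!
TARGET-G2, walk side: the words from one directed row edge to the floor against the words from the reversed edge.
-/

set_option autoImplicit false

namespace HexObs

namespace TC

open Complex Finset Filter

open scoped ENNReal Topology

open LP (nn lv Vt De Par)

open BAR (MF MFp)

lemma mem_MF_rev {N : ℕ} {u d : Pt} {t : List Bool} :
    t ∈ MF N u d ↔ rev t ∈ SSt N ∧ dx up (rev t) t.length = -d ∧ lev (rev t) (t.length + 1) = lv u := by
  have hl := rev_length t
  constructor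
  · intro h
    have h : MFp N u d t := h
    refine ⟨BAR.rev_mem_SSt h, ?_, ?_⟩
    · have h1 := dx_rev d t t.length le_rfl
      rw [h.dir, neg_neg, Nat.sub_self] at h1
      exact h1
    · rw [BAR.lev_rev_MF h le_rfl, Nat.sub_self]
      exact ip_up u
  · rintro ⟨h1, h2, h3⟩
    have h4 := mem_SSt.1 h1
    rw [hl] at h4
    have e0 : rev (rev t) = t := rev_rev t
    have hv : ∀ i, i ≤ t.length + 1 → vx u d t i = (u - tip oo up (rev t)) + vx oo up (rev t) (t.length + 1 - i) := by
      intro i hi
      have h5 := vx_rev oo up (rev t) i (by rw [hl]; exact hi)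
      rw [hl, h2, neg_neg, e0] at h5
      rw [← h5, BAR.vx_base u, BAR.vx_base (tip oo up (rev t))]
      abel
    have hlv : ∀ i, i ≤ t.length + 1 → ip (vx u d t i) up = lev (rev t) (t.length + 1 - i) := by
      intro i hi
      rw [hv i hi, ip_add_left, BAR.ip_sub_up]
      have h5 : ip (tip oo up (rev t)) up = lev (rev t) (t.length + 1) := by
        unfold tip
        rw [hl]
        rfl
      rw [h5, h3, ip_up u, sub_self, zero_add]
      rfl
    refine ⟨fun i hi1 hi2 => ?_, fun i j hi hij hj => ?_, ?_, ?_⟩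
    · rw [hlv i (by omega)]
      exact h4.1 _ (by omega) (by omega)
    · rw [hv i (by omega), hv j (by omega)]
      intro he
      exact h4.2 _ _ (by omega : t.length + 1 - j < t.length + 1 - i) (by omega) (add_left_cancel he).symm
    · have h5 := dx_rev up (rev t) t.length (by rw [hl])
      rw [hl, h2, neg_neg, e0, Nat.sub_self] at h5
      exact h5
    · rw [hlv _ le_rfl, Nat.sub_self]
      exact lev_zero _

lemma wt_rev (t : List Bool) : wt (rev t) = (starRingEnd ℂ) (wt t) := by
  unfold wt
  rw [wind_rev, rev_length, map_mul, map_pow, Complex.conj_ofReal, ← Complex.exp_conj, map_mul, Complex.conj_I,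
    Complex.conj_ofReal]
  congr 2
  push_cast
  ring

lemma sw_rev {P Q : Set (List Bool)} (h : ∀ t, t ∈ P ↔ rev t ∈ Q) :
    ∑' t, P.indicator wt t = (starRingEnd ℂ) (∑' t, Q.indicator wt t) := by
  rw [Complex.conj_tsum]
  have e : ∀ t, P.indicator wt t = (starRingEnd ℂ) (Q.indicator wt (rev t)) := by
    intro t
    by_cases ht : t ∈ P
    · rw [Set.indicator_of_mem ht, Set.indicator_of_mem ((h t).1 ht), wt_rev, Complex.conj_conj]
    · rw [Set.indicator_of_notMem ht, Set.indicator_of_notMem (fun h1 => ht ((h t).2 h1)), map_zero]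
  rw [tsum_congr e]
  exact (Function.Involutive.toPerm (fun t : List Bool => rev t) rev_rev).tsum_eq
    (fun t => (starRingEnd ℂ) (Q.indicator wt t))

/-- the sum of the weights exp (i wind pi / 8) xc ^ length of the words from the half edge (u, d) to the floor -/
noncomputable def Sfl (N : ℕ) (u d : Pt) : ℂ := ∑' t, (MF N u d).indicator wt t

lemma dir_split {P : Set (List Bool)} (hP : gf P ≠ ⊤) {d d' : Pt} (hd : d ≠ d')
    (h : ∀ t ∈ P, dx up t t.length = d ∨ dx up t t.length = d')
    (hm : ∀ t, t ∈ Dir P d ↔ t.map not ∈ Dir P d') :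
    (∑' t, P.indicator wt t).re = 2 * (∑' t, (Dir P d).indicator wt t).re := by
  have h1 : gf (Dir P d) ≠ ⊤ := ne_top_of_le_ne_top hP (gf_mono fun t ht => ht.1)
  have h2 : gf (Dir P d') ≠ ⊤ := ne_top_of_le_ne_top hP (gf_mono fun t ht => ht.1)
  have e : ∑' t, P.indicator wt t = ∑' t, (Dir P d).indicator wt t + ∑' t, (Dir P d').indicator wt t := by
    rw [← (summable_sw h1).tsum_add (summable_sw h2)]
    apply tsum_congr
    intro t
    by_cases ht : t ∈ P
    · rcases h t ht with h3 | h3
      · have a1 : t ∈ Dir P d := ⟨ht, h3⟩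
        have a2 : t ∉ Dir P d' := fun h4 => hd (h3.symm.trans h4.2)
        rw [Set.indicator_of_mem ht, Set.indicator_of_mem a1, Set.indicator_of_notMem a2, add_zero]
      · have a1 : t ∈ Dir P d' := ⟨ht, h3⟩
        have a2 : t ∉ Dir P d := fun h4 => hd (h4.2.symm.trans h3)
        rw [Set.indicator_of_mem ht, Set.indicator_of_mem a1, Set.indicator_of_notMem a2, zero_add]
    · have a1 : t ∉ Dir P d := fun h4 => ht h4.1
      have a2 : t ∉ Dir P d' := fun h4 => ht h4.1
      rw [Set.indicator_of_notMem ht, Set.indicator_of_notMem a1, Set.indicator_of_notMem a2, add_zero]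
  have h3 := sw_not hm
  rw [e, h3, Complex.add_re, Complex.conj_re]
  ring

lemma UU_dir {N r : ℕ} {t : List Bool} (ht : t ∈ UU N r) : dx up t t.length = (1, 0) ∨ dx up t t.length = (-1, 1) := by
  have h1 := lev_succ t t.length
  rw [ht.2.1, ht.2.2] at h1
  have h2 : ip (dx up t t.length) up = 1 := by linarith
  have : ∀ d ∈ dirs, ip d up = 1 → d = (1, 0) ∨ d = (-1, 1) := by decide
  exact this _ (ds_mem (by decide) _) h2

lemma DD_dir {N r : ℕ} {t : List Bool} (ht : t ∈ DD N r) : dx up t t.length = (-1, 0) ∨ dx up t t.length = (1, -1) := by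
  have h1 := lev_succ t t.length
  rw [ht.2.1, ht.2.2] at h1
  have h2 : ip (dx up t t.length) up = -1 := by linarith
  have : ∀ d ∈ dirs, ip d up = -1 → d = (-1, 0) ∨ d = (1, -1) := by decide
  exact this _ (ds_mem (by decide) _) h2

lemma UU_not {N r : ℕ} {t : List Bool} (ht : t ∈ UU N r) : t.map not ∈ UU N r := by
  refine ⟨SSt_not ht.1, ?_, ?_⟩
  · rw [List.length_map, lev_not t (by omega)]
    exact ht.2.1
  · rw [List.length_map, lev_not t le_rfl]
    exact ht.2.2

lemma DD_not {N r : ℕ} {t : List Bool} (ht : t ∈ DD N r) : t.map not ∈ DD N r := by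
  refine ⟨SSt_not ht.1, ?_, ?_⟩
  · rw [List.length_map, lev_not t (by omega)]
    exact ht.2.1
  · rw [List.length_map, lev_not t le_rfl]
    exact ht.2.2

lemma dir_not {P : Set (List Bool)} (hP : ∀ t ∈ P, t.map not ∈ P) {d d' : Pt} (h : mulE (-1, 1) (conjE d) = d')
    (h' : mulE (-1, 1) (conjE d') = d) (t : List Bool) : t ∈ Dir P d ↔ t.map not ∈ Dir P d' := by
  constructor
  · rintro ⟨h1, h2⟩
    refine ⟨hP t h1, ?_⟩
    rw [List.length_map, dx_not t le_rfl, h2, h]
  · rintro ⟨h1, h2⟩
    have h3 := hP _ h1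
    rw [not_not_map] at h3
    refine ⟨h3, ?_⟩
    have h4 := dx_not (t.map not) (i := t.length) (by rw [List.length_map])
    rw [not_not_map] at h4
    rw [List.length_map] at h2
    rw [h4, h2, h']

lemma gf_sub_fin {N : ℕ} {P : Set (List Bool)} (h : P ⊆ SSt N) : gf P ≠ ⊤ :=
  ne_top_of_le_ne_top (PLW.gf_SSt_fin N) (gf_mono h)

/-- the words from the directed row edge (u, (1, -1)) (u = its upper end) to the floor -/
theorem Sfl_up {N r : ℕ} {u : Pt} (hu : lv u = 3 * r + 3) :
    (Sfl N u (1, -1)).re = (∑' t, (UU N r).indicator wt t).re / 2 := by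
  have h1 := dir_split (P := UU N r) (gf_sub_fin fun t ht => ht.1) (d := (-1, 1)) (d' := (1, 0)) (by decide)
    (fun t ht => (UU_dir ht).symm) (dir_not (fun t ht => UU_not ht) (by decide) (by decide))
  have h2 : Sfl N u (1, -1) = (starRingEnd ℂ) (∑' t, (Dir (UU N r) (-1, 1)).indicator wt t) := by
    apply sw_rev
    intro t
    rw [mem_MF_rev]
    unfold Dir UU
    rw [Set.mem_setOf_eq, Set.mem_setOf_eq, rev_length]
    have e : -((1, -1) : Pt) = (-1, 1) := by decide
    rw [e, hu]
    constructor
    · rintro ⟨a, b, c⟩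
      refine ⟨⟨a, ?_, c⟩, b⟩
      have := lev_succ (rev t) t.length
      rw [b, c] at this
      have e2 : ip ((-1, 1) : Pt) up = 1 := by decide
      rw [e2] at this
      linarith
    · rintro ⟨⟨a, _, c⟩, b⟩
      exact ⟨a, b, c⟩
  rw [h2, Complex.conj_re, h1]
  ring

/-- the words from the directed row edge (w, (-1, 1)) (w = its lower end) to the floor -/
theorem Sfl_dn {N r : ℕ} {w : Pt} (hw : lv w = 3 * r + 2) :
    (Sfl N w (-1, 1)).re = (∑' t, (DD N r).indicator wt t).re / 2 := by
  have h1 := dir_split (P := DD N r) (gf_sub_fin fun t ht => ht.1) (d := (1, -1)) (d' := (-1, 0)) (by decide)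
    (fun t ht => (DD_dir ht).symm) (dir_not (fun t ht => DD_not ht) (by decide) (by decide))
  have h2 : Sfl N w (-1, 1) = (starRingEnd ℂ) (∑' t, (Dir (DD N r) (1, -1)).indicator wt t) := by
    apply sw_rev
    intro t
    rw [mem_MF_rev]
    unfold Dir DD
    rw [Set.mem_setOf_eq, Set.mem_setOf_eq, rev_length]
    have e : -((-1, 1) : Pt) = (1, -1) := by decide
    rw [e, hw]
    constructor
    · rintro ⟨a, b, c⟩
      refine ⟨⟨a, ?_, c⟩, b⟩
      have := lev_succ (rev t) t.length
      rw [b, c] at this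
      have e2 : ip ((1, -1) : Pt) up = -1 := by decide
      rw [e2] at this
      linarith
    · rintro ⟨⟨a, _, c⟩, b⟩
      exact ⟨a, b, c⟩
  rw [h2, Complex.conj_re, h1]
  ring

/-- **one direction dominates** -/
theorem Sfl_le {N r : ℕ} (hr : r < N) {u : Pt} (hu : lv u = 3 * r + 3) :
    (Sfl N (u + (1, -1)) (-1, 1)).re ≤ (Sfl N u (1, -1)).re := by
  have hw : lv (u + (1, -1)) = 3 * r + 2 := by
    have : lv (u + (1, -1)) = lv u - 1 := by
      unfold lv
      simp only [Prod.fst_add, Prod.snd_add]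
      ring
    rw [this, hu]
    ring
  rw [Sfl_up hu, Sfl_dn hw]
  have := flux_re hr
  linarith

end TC

end HexObs
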