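import Pool.Agent.NUT2.Tp1

/-!
# The pairing with an ended line: change of the labels (helper36)

`Wp_hom`: a homomorphism of the label groups.  `Wp_shift`: the same shift of the labels at the two sites of a
pair changes nothing.
-/

set_option autoImplicit false

namespace Pool.Agent.TC

open Pool.Agent.NUF Pool.Agent Pool.Agent.NUT2

section hom

variable {Γ Γ' ι : Type*} [AddCommGroup Γ] [AddCommGroup Γ'] [DecidableEq ι] {ν : Γ' → ℂ}

/-- The image of the labels. -/
def lmap (φ : Γ →+ Γ') (p : LPat Γ ι) : LPat Γ' ι where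
  f := p.f
  s x := φ (p.s x)
  inv := p.inv
  anti x := by rw [p.anti, map_neg]
  fix x h := by rw [p.fix x h, map_zero]

/-- The pull back. -/
def pb (φ : Γ →+ Γ') (F : LPat Γ' ι → ℂ) : LPat Γ ι → ℂ := fun p => F (lmap φ p)

theorem lmap_jo (φ : Γ →+ Γ') (i j : ι) (p : LPat Γ ι) :
    lmap φ (LPat.jo i j p) = LPat.jo i j (lmap φ p) := by
  by_cases h : p i = j
  · have h' : (lmap φ p) i = j := h
    rw [jo_pos _ h, jo_pos _ h']
    refine LPat.ext rfl (funext fun x => ?_)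
    show φ (if p i = j then (if x = i then 0 else if x = j then 0 else p.s x) else p.s x) =
      if p i = j then (if x = i then 0 else if x = j then 0 else φ (p.s x)) else φ (p.s x)
    split_ifs <;> simp
  · have h' : (lmap φ p) i ≠ j := h
    rw [jo_neg _ h, jo_neg _ h']
    refine LPat.ext rfl (funext fun x => ?_)
    show φ (if LPat.CtOK i j p then
      (if x = i then 0 else if x = j then 0 else if x = p i then p.s j - p.s i
        else if x = p j then p.s i - p.s j else p.s x) else p.s x) =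
      if LPat.CtOK i j p then
      (if x = i then 0 else if x = j then 0 else if x = p i then φ (p.s j) - φ (p.s i)
        else if x = p j then φ (p.s i) - φ (p.s j) else φ (p.s x)) else φ (p.s x)
    split_ifs <;> simp

theorem lmap_lw (φ : Γ →+ Γ') (i j : ι) (p : LPat Γ ι) :
    LPat.lw (ν ∘ φ) i j p = LPat.lw ν i j (lmap φ p) := by
  by_cases h : p i = j
  · have h' : (lmap φ p) i = j := h
    rw [lw_pos _ _ h, lw_pos _ _ h']
    rfl
  · have h' : (lmap φ p) i ≠ j := h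
    rw [lw_neg _ _ h, lw_neg _ _ h']

theorem glue_pb (φ : Γ →+ Γ') (a b : ι) (F : LPat Γ' ι → ℂ) :
    (cops (ν ∘ φ)).glue a b (pb φ F) = pb φ ((cops ν).glue a b F) := by
  rw [glueL, glueL]
  split_ifs with h
  · rfl
  · funext p
    show (lE Γ ℂ a * lE Γ ℂ b) (pb φ F) p + lCt (ν ∘ φ) a b (pb φ F) p =
      (lE Γ' ℂ a * lE Γ' ℂ b) F (lmap φ p) + lCt ν a b F (lmap φ p)
    rw [Module.End.mul_apply, Module.End.mul_apply, lE_apply, lE_apply, lE_apply, lE_apply,
      lCt_apply, lCt_apply, lmap_lw]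
    congr 1
    by_cases h : LPat.OcOK a b p
    · have h' : LPat.OcOK a b (lmap φ p) := h
      rw [if_pos h, if_pos h']
      show _ * F (lmap φ (LPat.jo a b p)) = _
      rw [lmap_jo]
    · have h' : ¬ LPat.OcOK a b (lmap φ p) := h
      rw [if_neg h, if_neg h']

theorem dl_pb (φ : Γ →+ Γ') : dl Γ ι = pb φ (dl Γ' ι) := by
  classical
  funext p
  show dl Γ ι p = dl Γ' ι (lmap φ p)
  unfold dl
  by_cases h : p = LPat.empty
  · rw [if_pos h, if_pos]
    rw [h]
    refine LPat.ext rfl (funext fun x => ?_)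
    show φ 0 = 0
    exact map_zero φ
  · rw [if_neg h, if_neg]
    intro e
    apply h
    have e1 : p.f = id := congrArg LPat.f e
    refine LPat.ext e1 (funext fun x => ?_)
    exact p.fix x (by rw [e1]; rfl)

theorem gm_pb (φ : Γ →+ Γ') (L : List (ι × ι)) : gm (ν ∘ φ) L = pb φ (gm ν L) := by
  induction L with
  | nil => exact dl_pb φ
  | cons t L ih => rw [gm_cons, gm_cons, ih, glue_pb]

theorem oo_pb (φ : Γ →+ Γ') (i : ι) (F : LPat Γ' ι → ℂ) : oo (ν ∘ φ) i (pb φ F) = pb φ (oo ν i F) := by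
  funext p
  show oo (ν ∘ φ) i (pb φ F) p = oo ν i F (lmap φ p)
  rw [oo_apply, oo_apply]
  rfl

theorem Tw_pb (φ : Γ →+ Γ') (χ : ι → Γ) (F : LPat Γ' ι → ℂ) :
    Tw χ (pb φ F) = pb φ (Tw (φ ∘ χ) F) := by
  funext p
  show F (lmap φ (LPat.gau χ p)) = F (LPat.gau (φ ∘ χ) (lmap φ p))
  congr 1
  refine LPat.ext rfl (funext fun x => ?_)
  show φ (p.s x + χ x - χ (p x)) = φ (p.s x) + φ (χ x) - φ (χ (p x))
  rw [map_sub, map_add]

theorem pr_pb (φ : Γ →+ Γ') (V V' : Fnl ι) (F : LPat Γ' ι → ℂ) :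
    pr Γ V V' (pb φ F) = pr Γ' V V' F := by
  show V (fun p => V' fun q => F (lmap φ (ofP Γ (un p q)))) = V fun p => V' fun q => F (ofP Γ' (un p q))
  congr 1
  funext p
  congr 1
  funext q
  congr 1
  refine LPat.ext rfl (funext fun x => ?_)
  exact map_zero φ

/-- **Homomorphism of the labels.** -/
theorem Wp_hom (φ : Γ →+ Γ') (χ : ι → Γ) (V V' : Fnl ι) (m q : ι) (L : List (ι × ι)) :
    Wp (ν ∘ φ) χ V V' m q L = Wp ν (φ ∘ χ) V V' m q L := by
  unfold Wp Gf
  rw [gm_pb, oo_pb, Tw_pb, pr_pb]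

end hom

section shift

variable {Γ ι : Type*} [AddCommGroup Γ] [DecidableEq ι] {ν : Γ → ℂ}

theorem Tw_add (χ χ' : ι → Γ) (F : LPat Γ ι → ℂ) : Tw (χ + χ') F = Tw χ (Tw χ' F) := by
  funext p
  show F (LPat.gau (χ + χ') p) = F (LPat.gau χ' (LPat.gau χ p))
  rw [gau_gau, add_comm]

theorem Tw_gm0 {χ : ι → Γ} {L : List (ι × ι)} (h : ∀ t ∈ L, χ t.1 = χ t.2) :
    Tw χ (gm ν L) = gm ν L := by
  induction L with
  | nil => exact Tw_dl χ
  | cons t L ih =>
    rw [gm_cons, ← Module.End.mul_apply, (tglue (h t (by simp))).eq, Module.End.mul_apply,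
      ih fun s hs => h s (by simp [hs])]

theorem Tw_Gf0 {χ : ι → Γ} {m q : ι} {L : List (ι × ι)} (h : ∀ t ∈ (m, q) :: L, χ t.1 = χ t.2) :
    Tw χ (Gf ν m q L) = Gf ν m q L := by
  unfold Gf
  rw [← Module.End.mul_apply, (comm_oo_Tw χ m).eq, Module.End.mul_apply, Tw_gm0 h]

/-- **Shift of the labels along the pairs.** -/
theorem Wp_shift (χ χ' : ι → Γ) (V V' : Fnl ι) {m q : ι} {L : List (ι × ι)}
    (h : ∀ t ∈ (m, q) :: L, χ' t.1 = χ' t.2) :
    Wp ν (χ + χ') V V' m q L = Wp ν χ V V' m q L := by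
  unfold Wp
  rw [Tw_add, Tw_Gf0 h]

theorem Wp_smul (c : ℂ) (χ : ι → Γ) (V V' : Fnl ι) (m q : ι) (L : List (ι × ι)) :
    Wp ν χ (c • V) V' m q L = c * Wp ν χ V V' m q L := rfl

theorem Wp_smul' (c : ℂ) (χ : ι → Γ) (V V' : Fnl ι) (m q : ι) (L : List (ι × ι)) :
    Wp ν χ V (c • V') m q L = c * Wp ν χ V V' m q L := by
  unfold Wp
  show V (fun p => c * V' fun q => _) = c * V fun p => V' fun q => _
  rw [← smul_eq_mul c (V _), ← map_smul]
  rfl

theorem Wp_add (χ : ι → Γ) (V1 V2 V' : Fnl ι) (m q : ι) (L : List (ι × ι)) :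
    Wp ν χ (V1 + V2) V' m q L = Wp ν χ V1 V' m q L + Wp ν χ V2 V' m q L := rfl

theorem Wp_add' (χ : ι → Γ) (V V1 V2 : Fnl ι) (m q : ι) (L : List (ι × ι)) :
    Wp ν χ V (V1 + V2) m q L = Wp ν χ V V1 m q L + Wp ν χ V V2 m q L := by
  unfold Wp
  show V (fun p => (V1 + V2) fun q => _) = V (fun p => V1 fun q => _) + V fun p => V2 fun q => _
  rw [← map_add]
  rfl

end shift

/-! ### The weight of the leg -/

/-- The weight of the closed loop: the second label counts the exit. -/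
noncomputable def nuw (ω : ℂ) (g : ℤ × ℤ) : ℂ :=
  if g.2 = 1 then ω ^ g.1 else if g.2 = -1 then ω ^ (-g.1) else 0

theorem nuw_neg (ω : ℂ) (g : ℤ × ℤ) : nuw ω (-g) = nuw ω g := by
  unfold nuw
  rw [Prod.snd_neg, Prod.fst_neg, neg_neg]
  by_cases h1 : g.2 = 1
  · have h2 : ¬ (-g.2 = 1) := by omega
    rw [if_neg h2, if_pos (by omega), if_pos h1]
  · by_cases h2 : g.2 = -1
    · rw [if_pos (by omega), if_neg h1, if_pos h2]
    · rw [if_neg (by omega), if_neg (by omega), if_neg h1, if_neg h2]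

theorem nuw_zero (ω : ℂ) : nuw ω 0 = 0 := by
  unfold nuw
  rw [Prod.snd_zero, if_neg (by omega), if_neg (by omega)]

/-- The inverse weight. -/
def phN : ℤ × ℤ →+ ℤ × ℤ where
  toFun g := (-g.1, g.2)
  map_zero' := by simp
  map_add' g h := by
    ext
    · simp; ring
    · simp

theorem nuw_inv (ω : ℂ) : nuw ω ∘ phN = nuw ω⁻¹ := by
  funext g
  show nuw ω (-g.1, g.2) = nuw ω⁻¹ g
  unfold nuw
  simp only [inv_zpow', neg_neg]

/-- The shift of the first label by the second one. -/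
def phS (c : ℤ) : ℤ × ℤ →+ ℤ × ℤ where
  toFun g := (g.1 + c * g.2, g.2)
  map_zero' := by simp
  map_add' g h := by
    ext
    · simp; ring
    · simp

theorem nuw_shift {ω : ℂ} (hω : ω ≠ 0) (c : ℤ) (g : ℤ × ℤ) :
    (nuw ω ∘ phS c) g = ω ^ c * nuw ω g := by
  show nuw ω (g.1 + c * g.2, g.2) = _
  unfold nuw
  by_cases h1 : g.2 = 1
  · simp only [h1, if_true, mul_one]
    rw [zpow_add₀ hω, mul_comm]
  · by_cases h2 : g.2 = -1
    · simp only [h1, h2, if_true, if_false]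
      rw [if_neg (by omega), if_neg (by omega), ← zpow_add₀ hω]
      congr 1
      ring
    · simp only [h1, h2, if_false, mul_zero]

/-! ### The leg alone -/

section leg

variable {Γ Γ' ι : Type*} [AddCommGroup Γ] [AddCommGroup Γ'] [DecidableEq ι] {ν : Γ → ℂ} {m q : ι}

/-- The closed loop consists of the leg only. -/
theorem Gf_nil_apply (hmq : m ≠ q) (P : LPat Γ ι) : Gf ν m q [] P =
    open Classical in
    if P m = q ∧ (∀ x, x ≠ m → x ≠ q → P x = x) then ν (P.s m) else 0 := by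
  classical
  unfold Gf
  rw [oo_apply, gm_cons, gm_nil, glueL, if_neg hmq, LinearMap.add_apply, Pi.add_apply,
    Module.End.mul_apply, lE_apply, lCt_apply]
  have inv : ∀ x, P (P x) = x := P.inv
  by_cases h1 : P m = m
  · rw [if_pos h1, if_neg]
    rintro ⟨h2, -⟩
    exact hmq (by rw [← h1, h2])
  rw [if_neg h1, if_neg h1, zero_add]
  by_cases h2 : P m = q
  · have h3 : P q = m := by rw [← h2, inv]
    have hO : LPat.OcOK m q P := ⟨hmq, h1, by rw [h3]; exact hmq⟩
    rw [if_pos hO, lw_pos _ _ h2, jo_pos _ h2]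
    by_cases h4 : ∀ x, x ≠ m → x ≠ q → P x = x
    · rw [if_pos ⟨h2, h4⟩]
      have e : LPat.rem m q P = LPat.empty := by
        have e1 : (LPat.rem m q P).f = id := by
          funext x
          show (if P m = q then (if x = m then m else if x = q then q else P x) else P x) = x
          rw [if_pos h2]
          split_ifs with a b
          · exact a.symm
          · exact b.symm
          · exact h4 x a b
        refine LPat.ext e1 (funext fun x => ?_)
        exact (LPat.rem m q P).fix x (by rw [e1]; rfl)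
      unfold dl
      rw [if_pos e, mul_one]
    · rw [if_neg fun h => h4 h.2]
      have e : LPat.rem m q P ≠ LPat.empty := by
        intro e
        apply h4
        intro x hx1 hx2
        have e1 : (LPat.rem m q P).f x = x := by rw [e]; rfl
        have e2 : (LPat.rem m q P).f x =
          (if P m = q then (if x = m then m else if x = q then q else P x) else P x) := rfl
        rw [e2, if_pos h2, if_neg hx1, if_neg hx2] at e1
        exact e1
      unfold dl
      rw [if_neg e, mul_zero]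
  · have hR : (if P m = q ∧ (∀ x, x ≠ m → x ≠ q → P x = x) then ν (P.s m) else 0) = 0 :=
      if_neg fun h => h2 h.1
    rw [hR]
    by_cases hO : LPat.OcOK m q P
    · rw [if_pos hO, jo_neg _ h2]
      have hc : LPat.CtOK m q P := ⟨hO.1, hO.2.1, hO.2.2, h2⟩
      have e : LPat.cut m q P ≠ LPat.empty := by
        intro e
        have e1 : (LPat.cut m q P).f (P m) = P m := by rw [e]; rfl
        have e2 : (LPat.cut m q P).f (P m) = if LPat.CtOK m q P then
          (if P m = m then m else if P m = q then q else if P m = P m then P q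
            else if P m = P q then P m else P (P m)) else P (P m) := rfl
        rw [e2, if_pos hc, if_neg h1, if_neg h2, if_pos rfl] at e1
        have := congrArg P e1
        rw [inv, inv] at this
        exact hmq this.symm
      unfold dl
      rw [if_neg e, mul_zero]
    · rw [if_neg hO]

/-- The pairs glued to a function. -/
noncomputable def gL (ν : Γ → ℂ) (L : List (ι × ι)) (F : LPat Γ ι → ℂ) : LPat Γ ι → ℂ :=
  (L.map fun t => (cops ν).glue t.1 t.2).prod F

theorem gL_nil (F : LPat Γ ι → ℂ) : gL ν [] F = F := rfl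

theorem gL_cons (t : ι × ι) (L : List (ι × ι)) (F : LPat Γ ι → ℂ) :
    gL ν (t :: L) F = (cops ν).glue t.1 t.2 (gL ν L F) := by
  unfold gL
  rw [List.map_cons, List.prod_cons, Module.End.mul_apply]

theorem gL_smul (c : ℂ) (L : List (ι × ι)) (F : LPat Γ ι → ℂ) : gL ν L (c • F) = c • gL ν L F :=
  map_smul _ _ _

theorem gL_pb {ν : Γ' → ℂ} (φ : Γ →+ Γ') (L : List (ι × ι)) (F : LPat Γ' ι → ℂ) :
    gL (ν ∘ φ) L (pb φ F) = pb φ (gL ν L F) := by
  induction L with
  | nil => rfl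
  | cons t L ih => rw [gL_cons, gL_cons, ih, glue_pb]

theorem Gf_gL (hν : ∀ g, ν (-g) = ν g) {L : List (ι × ι)}
    (hL : ∀ t ∈ L, m ≠ t.1 ∧ m ≠ t.2 ∧ q ≠ t.1 ∧ q ≠ t.2) :
    Gf ν m q L = gL ν L (Gf ν m q []) := by
  induction L with
  | nil => rfl
  | cons t L ih =>
    obtain ⟨h1, h2, h3, h4⟩ := hL t (by simp)
    rw [Gf_cons hν h1 h2 h3 h4, ih fun s hs => hL s (by simp [hs]), gL_cons]

theorem Tw_gL {χ : ι → Γ} {L : List (ι × ι)} (h : ∀ t ∈ L, χ t.1 = χ t.2) (F : LPat Γ ι → ℂ) :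
    Tw χ (gL ν L F) = gL ν L (Tw χ F) := by
  induction L with
  | nil => rfl
  | cons t L ih =>
    rw [gL_cons, gL_cons, ← Module.End.mul_apply, (tglue (h t (by simp))).eq, Module.End.mul_apply,
      ih fun s hs => h s (by simp [hs])]

end leg

section scale

variable {ι : Type*} [DecidableEq ι] {m q : ι} {ω : ℂ}

/-- The labels without exit. -/
def ph0 : ℤ →+ ℤ × ℤ where
  toFun n := (n, 0)
  map_zero' := rfl
  map_add' a b := by simp

theorem scale_aux (hω : ω ≠ 0) (hmq : m ≠ q) (c : ℤ) :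
    pb ph0 (Tw (Pi.single q (c, 1)) (Gf (nuw ω) m q [])) =
      ω ^ c • pb ph0 (Tw (Pi.single q (0, 1)) (Gf (nuw ω) m q [])) := by
  classical
  funext P
  show Gf (nuw ω) m q [] (LPat.gau (Pi.single q (c, 1)) (lmap ph0 P)) =
    ω ^ c * Gf (nuw ω) m q [] (LPat.gau (Pi.single q (0, 1)) (lmap ph0 P))
  rw [Gf_nil_apply hmq, Gf_nil_apply hmq]
  by_cases h : P m = q ∧ ∀ x, x ≠ m → x ≠ q → P x = x
  · have h1 : (LPat.gau (Pi.single q ((c, 1) : ℤ × ℤ)) (lmap ph0 P)) m = q ∧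
        ∀ x, x ≠ m → x ≠ q → (LPat.gau (Pi.single q ((c, 1) : ℤ × ℤ)) (lmap ph0 P)) x = x := h
    have h2 : (LPat.gau (Pi.single q ((0, 1) : ℤ × ℤ)) (lmap ph0 P)) m = q ∧
        ∀ x, x ≠ m → x ≠ q → (LPat.gau (Pi.single q ((0, 1) : ℤ × ℤ)) (lmap ph0 P)) x = x := h
    rw [if_pos h1, if_pos h2]
    have e : ∀ d : ℤ, (LPat.gau (Pi.single q ((d, 1) : ℤ × ℤ)) (lmap ph0 P)).s m =
        (P.s m - d, -1) := by
      intro d
      show ph0 (P.s m) + (Pi.single q ((d, 1) : ℤ × ℤ) : ι → ℤ × ℤ) m -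
        (Pi.single q ((d, 1) : ℤ × ℤ) : ι → ℤ × ℤ) (P m) = _
      rw [h.1, Pi.single_eq_same, Pi.single_eq_of_ne hmq]
      show ((P.s m, 0) : ℤ × ℤ) + 0 - (d, 1) = _
      ext
      · simp
      · simp
    rw [e, e]
    unfold nuw
    simp only [if_true]
    rw [if_neg (by omega), if_neg (by omega), ← zpow_add₀ hω]
    congr 1
    ring
  · have h1 : ¬ ((LPat.gau (Pi.single q ((c, 1) : ℤ × ℤ)) (lmap ph0 P)) m = q ∧
        ∀ x, x ≠ m → x ≠ q → (LPat.gau (Pi.single q ((c, 1) : ℤ × ℤ)) (lmap ph0 P)) x = x) := h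
    have h2 : ¬ ((LPat.gau (Pi.single q ((0, 1) : ℤ × ℤ)) (lmap ph0 P)) m = q ∧
        ∀ x, x ≠ m → x ≠ q → (LPat.gau (Pi.single q ((0, 1) : ℤ × ℤ)) (lmap ph0 P)) x = x) := h
    rw [if_neg h1, if_neg h2, mul_zero]

/-- **The scaling**: a shift of the label of the exit. -/
theorem Wp_scale (hω : ω ≠ 0) (hmq : m ≠ q) (c : ℤ) (χ : ι → ℤ) (V V' : Fnl ι) {L : List (ι × ι)}
    (hL : ∀ t ∈ L, m ≠ t.1 ∧ m ≠ t.2 ∧ q ≠ t.1 ∧ q ≠ t.2) :
    Wp (nuw ω) ((fun x => (χ x, 0)) + Pi.single q (c, 1)) V V' m q L =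
      ω ^ c * Wp (nuw ω) ((fun x => (χ x, 0)) + Pi.single q (0, 1)) V V' m q L := by
  have key : ∀ d : ℤ, Wp (nuw ω) ((fun x => (χ x, 0)) + Pi.single q (d, 1)) V V' m q L =
      pr ℤ V V' (Tw χ (gL (nuw ω ∘ ph0) L (pb ph0 (Tw (Pi.single q (d, 1)) (Gf (nuw ω) m q []))))) := by
    intro d
    unfold Wp
    rw [Tw_add, Gf_gL (nuw_neg ω) hL, Tw_gL (χ := Pi.single q (d, 1)), gL_pb, Tw_pb, pr_pb]
    · rfl
    · intro t ht
      obtain ⟨-, -, h3, h4⟩ := hL t ht
      rw [Pi.single_eq_of_ne h3.symm, Pi.single_eq_of_ne h4.symm]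
  rw [key, key, scale_aux hω hmq, gL_smul, map_smul, map_smul, smul_eq_mul]

end scale

end Pool.Agent.TC
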