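import Pool.Agent.TC.R2E
import Pool.Agent.NUS4.H1g

/-!
# The lower bound of the exponential moments of the field, folded gas (nu34/53C [4.7], helper73)

The transport of the symmetric mode `symE g` inserted in `TCR.r2F`: explicit form.
-/

set_option autoImplicit false

open MeasureTheory Set Filter Topology

namespace TCR

open NUE NUOC NUDp NUKer NUR2 NUTr NUS4 TCF TCS

noncomputable section

variable {δ K : ℝ} {c : ℝ → ℝ} {p n : ℕ}

/-- the window measure of the folded gas with the wall factor -/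
abbrev mF (R : ℝ) (ηX ηX1 ηY ηY1 aX aY : ℝ → ℝ) : Measure (Cfg p n) :=
  mu R (fq (pW (iD ηX))) (fq (pW (iD ηY))) (fq (pG (iD ηX) (iD ηY)))
    (Aw (iD ηX) (iD ηX1) fun t => beta t * aX t) (Aw (iD ηY) (iD ηY1) fun t => beta t * aY t)

/-- the odd part of the exponent -/
def elF (c : ℝ → ℝ) (h X0 X R R1 s : ℝ) (EX EY : ℝ → ℝ) (m : Measure (Cfg p n))
    (g : Fin (fN h X0 X) → ℝ) : ℝ :=
  ellS m (fun x => sym x.1) (fun x => sym x.2) R (fun t => s * NUMF.P t)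
    (cutF' c h R1 (off h X) (symE g)) Uw Ug (fun x => EX x + Real.log (beta x))
    (fun x => EY x + Real.log (beta x)) (grid (chi c h) (off h X) h (symE g))

theorem elF_neg (h X0 X R R1 s : ℝ) (EX EY : ℝ → ℝ) (m : Measure (Cfg p n))
    (g : Fin (fN h X0 X) → ℝ) :
    elF c h X0 X R R1 s EX EY m (-g) = - elF c h X0 X R R1 s EX EY m g := by
  unfold elF
  rw [← ellS_neg]
  congr 1
  · funext t
    rw [symE_neg, cutF'_neg]
  · funext t
    rw [symE_neg, grid_neg]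

/-- monotonicity in the size -/
lemma Ext1.mono {R l l' : ℝ} {ψ e E : ℝ → ℝ} (h : Ext1 R l ψ e E) (hl : l ≤ l') :
    Ext1 R l' ψ e E := ⟨h.ce, h.small.mono hl, h.iE, h.iE', h.eq⟩

lemma OBF.mono {R l l' : ℝ} {ψ ψ' A e E w : ℝ → ℝ} {k k' : ℝ → ℝ → ℝ}
    (h : OBF R l ψ ψ' A e E w k k') (hl : l ≤ l') : OBF R l' ψ ψ' A e E w k k' :=
  ⟨h.a0, h.am, h.ext.mono hl, h.rel⟩

set_option maxHeartbeats 4000000 in
/-- **explicit lower bound of the exponential moments of the folded gas** -/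
theorem h1F_core (hP : Prof δ K c) {h : ℝ} (hh : 0 < h) (hK : K * h < Real.pi) (q : ℕ) :
    ∃ C cs : ℝ, 1 ≤ C ∧ 0 < cs ∧ ∀ {p n : ℕ} (X0 X R R1 s lam l0 l1 S : ℝ) (g : Fin (fN h X0 X) → ℝ)
    (ηX ηX1 ηY ηY1 aX aY EX EY : ℝ → ℝ), 0 < s → 0 ≤ X → X < R1 → R1 + 1 < R →
    sz s R1 (symE g) ≤ cs →
    O 4 lam ηX → O 4 lam ηY → (∀ t, HasDerivAt ηX (ηX1 t) t) → (∀ t, HasDerivAt ηY (ηY1 t) t) →
    (∀ t, ηX (-t) = -ηX t) → (∀ t, ηY (-t) = -ηY t) → (∀ t, 0 ≤ aX t) → (∀ t, 0 ≤ aY t) →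
    Measurable aX → Measurable aY → (∀ t, aX (-t) = aX t) → (∀ t, aY (-t) = aY t) →
    C * R ^ 7 * (lam + sz s R1 (symE g)) ≤ 1 → l0 + C * R ^ 3 * sz s R1 (symE g) ≤ l1 →
    FD c h R R1 (off h X) s l0 ηX ηX1 ηY ηY1 aX aY EX EY (symE g) →
    IsFiniteMeasure (mF (p := p) (n := n) R ηX ηX1 ηY ηY1 aX aY) →
    RigS (mF (p := p) (n := n) R ηX ηX1 ηY ηY1 aX aY) (fun x => sym x.1) (fun x => sym x.2) R
      (fun t => s * NUMF.P t) S → 0 ≤ S → 0 ≤ l1 →
    ENNReal.ofReal ((mF (p := p) (n := n) R ηX ηX1 ηY ηY1 aX aY).real univ *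
      Real.exp (1 / 2 * ((∑ i, ∑ j, symE g i * toep (fun θ => rs c (θ / h)) (gN h X) i j *
        symE g j) / 2 +
        elF c h X0 X R R1 s EX EY (mF (p := p) (n := n) R ηX ηX1 ηY ηY1 aX aY) g -
        er C R X R1 lam l1 S s q (symE g)))) ≤
    ∫⁻ y, ENNReal.ofReal (Real.exp (1 / 2 * (∑ i, grid (chi c h) (off h X) h (symE g) (sym y.1 i) -
      ∑ j, grid (chi c h) (off h X) h (symE g) (sym y.2 j))))
        ∂(mF (p := p) (n := n) R ηX ηX1 ηY ηY1 aX aY) := by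
  obtain ⟨C1, hC1, H1⟩ := psi_win hP hh hK q
  obtain ⟨C2, cs, hC2, hcs, H2⟩ := geo hP h
  obtain ⟨C3, hC3, H3⟩ := exists_kers
  obtain ⟨C4, hC4, H4⟩ := exists_KC1_of_O
  obtain ⟨C5, hC5, H5⟩ := O.delta 3
  obtain ⟨C6', hC6'⟩ := BD_chig hP 4 h
  obtain ⟨C6, hC6⟩ : ∃ C6, C6 = |C6'| + 1 := ⟨_, rfl⟩
  obtain ⟨C7, hC7, H7⟩ := wall_data
  have hC60 : 1 ≤ C6 := by rw [hC6]; linarith [abs_nonneg C6']
  -- the common constant
  obtain ⟨C, hCd⟩ : ∃ C, C = C1 + C2 + 2 * (C3 * C2) + C4 * (C5 * (C6 * C2)) + C7 * C2 := ⟨_, rfl⟩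
  have q1 : 1 ≤ C3 * C2 := one_le_mul_of_one_le_of_one_le hC3 hC2
  have q2 : 0 ≤ C4 * (C5 * (C6 * C2)) := by positivity
  have q3 : 0 ≤ C7 * C2 := by positivity
  refine ⟨C, cs / C2, by linarith, by positivity, ?_⟩
  intro p n X0 X R R1 s lam l0 l1 S g ηX ηX1 ηY ηY1 aX aY EX EY hs hR0 hR01 hR hsz oηX oηY dηX dηY
    odX odY aX0 aY0 aXm aYm aXe aYe hsm hl01 hF hfin hrig hS hl1
  obtain ⟨x, hxg⟩ : ∃ x : Fin (gN h X) → ℝ, x = symE g := ⟨_, rfl⟩
  obtain ⟨a, hag⟩ : ∃ a : ℝ, a = off h X := ⟨_, rfl⟩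
  have hg : ∀ j : Fin (gN h X), |a + (j : ℕ) * h| ≤ X := by
    intro j
    rw [hag]
    exact abs_grid_le hh hR0 j
  have oF : ∀ t, cutF c h R1 a x (-t) = - cutF c h R1 a x t := by
    intro t
    rw [hxg, hag]
    exact cutF_odd R1 g t
  have eF' : ∀ t, cutF' c h R1 a x (-t) = cutF' c h R1 a x t := by
    intro t
    rw [hxg, hag]
    exact cutF'_even hP R1 g t
  have hel : elF c h X0 X R R1 s EX EY (mF (p := p) (n := n) R ηX ηX1 ηY ηY1 aX aY) g =
      ellS (mF (p := p) (n := n) R ηX ηX1 ηY ηY1 aX aY) (fun x => sym x.1) (fun x => sym x.2) R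
      (fun t => s * NUMF.P t) (cutF' c h R1 a x) Uw Ug (fun x => EX x + Real.log (beta x))
      (fun x => EY x + Real.log (beta x)) (grid (chi c h) a h x) := by
    rw [hxg, hag]
    rfl
  rw [hel]
  rw [← hxg] at hsz hsm hl01 hF ⊢
  rw [← hag] at hF ⊢
  obtain ⟨A, hA⟩ : ∃ A, A = ∑ j, |x j| := ⟨_, rfl⟩
  have hA0 : 0 ≤ A := by rw [hA]; exact Finset.sum_nonneg fun j _ => abs_nonneg _
  have hP0 := NUMF.P_pos (R1 + 1)
  have hsP : 0 < s * NUMF.P (R1 + 1) := mul_pos hs hP0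
  obtain ⟨z, hz⟩ : ∃ z, z = sz s R1 x := ⟨_, rfl⟩
  have hzA : z = A / (s * NUMF.P (R1 + 1)) := by rw [hz, hA]; rfl
  have hz0 : 0 ≤ z := by rw [hzA]; positivity
  have hR1 : 1 < R := by linarith
  have hR1' : (1:ℝ) ≤ R := hR1.le
  have hlam := oηX.nonneg
  rw [← hz] at hsz hsm hl01
  have g0 : C2 * ∑ j, |x j| ≤ cs * (s * NUMF.P (R1 + 1)) := by
    rw [← hA]
    rw [hzA, div_le_div_iff₀ hsP (by linarith)] at hsz
    linarith
  obtain ⟨tr, bF', oX, oY, dX, dY, zX, zY, aX', aY'⟩ := H2 R R1 a s x hs (by linarith) hR g0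
  rw [← hA] at bF' oX oY
  rw [← hzA] at oX oY
  -- smallness of the displacement
  have hR7 : (1:ℝ) ≤ R ^ 7 := one_le_pow₀ hR1'
  have hCC : 2 * (C3 * C2) ≤ C := by rw [hCd]; linarith
  have e1' : 2 * (C3 * R ^ 7 * (lam + C2 * z)) ≤ C * R ^ 7 * (lam + z) := by
    calc 2 * (C3 * R ^ 7 * (lam + C2 * z)) ≤ 2 * (C3 * R ^ 7 * (C2 * (lam + z))) := by
          refine mul_le_mul_of_nonneg_left (mul_le_mul_of_nonneg_left ?_ (by positivity)) (by norm_num)
          nlinarith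
      _ = 2 * (C3 * C2) * (R ^ 7 * (lam + z)) := by ring
      _ ≤ C * (R ^ 7 * (lam + z)) := mul_le_mul_of_nonneg_right hCC (by positivity)
      _ = _ := by ring
  have e10 : 0 ≤ C3 * R ^ 7 * (lam + C2 * z) := by positivity
  have e1 : C3 * R ^ 7 * (lam + C2 * z) ≤ C * R ^ 7 * (lam + z) := by linarith
  have hle2 : C2 * z ≤ 1 / 2 := by
    have h1 : 2 * (C3 * R ^ 7 * (C2 * z)) ≤ 1 := by
      refine le_trans ?_ (e1'.trans hsm)
      refine mul_le_mul_of_nonneg_left (mul_le_mul_of_nonneg_left (by linarith) (by positivity))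
        (by norm_num)
    have h2 : 1 ≤ C3 * R ^ 7 := one_le_mul_of_one_le_of_one_le hC3 hR7
    have h3 : 0 ≤ C2 * z := by positivity
    nlinarith
  have hle1 : C2 * z ≤ 1 := by linarith
  have kers := H3 R hR1' lam (C2 * z) ηX ηX1 ηY ηY1 _ _ _ _ oηX oηY oX oY dηX dηY dX dY
    (fun t ht => by
      rw [add_sub_cancel]
      exact (tr.bX t).2 ht)
    (fun t ht => by
      rw [add_sub_cancel]
      exact (tr.bY t).2 ht) (e1.trans hsm)
  obtain ⟨Λ, hΛ⟩ : ∃ Λ, Λ = C * R ^ 7 * (lam + z) := ⟨_, rfl⟩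
  rw [← hΛ] at e1
  have e2 : C3 * R ^ 7 * lam ≤ Λ := by
    refine le_trans ?_ e1
    refine mul_le_mul_of_nonneg_left ?_ (by positivity)
    have : 0 ≤ C2 * z := by positivity
    linarith
  have cη : ∀ {η : ℝ → ℝ}, O 4 lam η → Measurable (iD η) := by
    intro η hη
    have := hη.cont.measurable
    unfold iD
    fun_prop
  have cη1 : ∀ {η η1 : ℝ → ℝ}, O 4 lam η → (∀ t, HasDerivAt η (η1 t) t) → Measurable (iD η1) := by
    intro η η1 hη hd
    obtain ⟨-, u2, h3, h4⟩ := hη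
    have e1 : u2 = η1 := funext fun t => (h3 t).unique (hd t)
    have h5 : Measurable η1 := by
      rw [← e1]
      exact h4.cont.measurable
    exact iD_meas h5
  have hψX : ∀ t, pX c h R1 a s x t = t + (ps s (cutF c h R1 a x) t - t) := fun t => by ring
  have hψY : ∀ t, pY c h R1 a s x t = t + (ps s (fun t => - cutF c h R1 a x t) t - t) := fun t => by ring
  have pkX : Pk R Λ (pX c h R1 a s x) (pX c h R1 a s x) Uw (pW (iD ηX)) (kw (iD ηX) (iD ηX1))
      (kT ηX ηX1 (pX c h R1 a s x) (pX' c h R1 a s x)) :=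
    { li := Uw_li
      ev := Uw_even
      kc := kers.kX.mono e2
      kc' := kers.kX'.mono e1
      rel := kers.relX hψX (fun t ht => (tr.bX t).2 ht)
      log := fun u v hu hv hne => kers.logX hψX dX hu hv hne
      q0 := pW_nonneg _
      qm := pW_meas (cη oηX) }
  have pkY : Pk R Λ (pY c h R1 a s x) (pY c h R1 a s x) Uw (pW (iD ηY)) (kw (iD ηY) (iD ηY1))
      (kT ηY ηY1 (pY c h R1 a s x) (pY' c h R1 a s x)) :=
    { li := Uw_li
      ev := Uw_even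
      kc := kers.kY.mono e2
      kc' := kers.kY'.mono e1
      rel := kers.relY hψY (fun t ht => (tr.bY t).2 ht)
      log := fun u v hu hv hne => kers.logY hψY dY hu hv hne
      q0 := pW_nonneg _
      qm := pW_meas (cη oηY) }
  have pkc : Pk R Λ (pX c h R1 a s x) (pY c h R1 a s x) Ug (pG (iD ηX) (iD ηY)) (kg (iD ηX) (iD ηY))
      (kg (cD (fun t => pX c h R1 a s x t - t) (iD ηX)) (cD (fun t => pY c h R1 a s x t - t) (iD ηY))) :=
    { li := Ug_li
      ev := Ug_even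
      kc := kers.kc.mono e2
      kc' := kers.kc'.mono e1
      rel := kers.relc hψX hψY (fun t ht => (tr.bX t).2 ht) (fun t ht => (tr.bY t).2 ht)
      log := fun u v hu hv _ => kers.logc hψX hψY hu hv
      q0 := pG_nonneg _ _
      qm := pG_meas (cη oηX) (cη oηY) }
  -- parities
  have oψX : ∀ t, pX c h R1 a s x (-t) = - pX c h R1 a s x t := ps_odd s oF
  have oF2 : ∀ t, (fun t => - cutF c h R1 a x t) (-t) = - (fun t => - cutF c h R1 a x t) t := by
    intro t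
    simp only
    rw [oF]
  have oψY : ∀ t, pY c h R1 a s x (-t) = - pY c h R1 a s x t := ps_odd s oF2
  have eψX : ∀ t, pX' c h R1 a s x (-t) = pX' c h R1 a s x t := ps'_even s oF eF'
  have eψY : ∀ t, pY' c h R1 a s x (-t) = pY' c h R1 a s x t := ps'_even s oF2 (fun t => by
    rw [eF'])
  have DX := oddD_iD odX dηX
  have DY := oddD_iD odY dηY
  have DX' := oddD_cD (ξ := fun t => pX c h R1 a s x t - t) (ξ1 := fun t => pX' c h R1 a s x t - 1) DX
    (fun t => by rw [oψX]; ring) (fun t => by rw [eψX])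
  have DY' := oddD_cD (ξ := fun t => pY c h R1 a s x t - t) (ξ1 := fun t => pY' c h R1 a s x t - 1) DY
    (fun t => by rw [oψY]; ring) (fun t => by rw [eψY])
  have evX := kw_ev kers.sm_X DX
  have evY := kw_ev kers.sm_Y DY
  have evc := kg_ev kers.sm_c DX DY
  have evX' := kw_ev kers.sm_X' DX'
  have evY' := kw_ev kers.sm_Y' DY'
  have evc' := kg_ev kers.sm_c' DX' DY'
  -- the wall factor
  obtain ⟨wX, cwX, kwX, ewX, hwX, iX, iX'⟩ := H7 R hR1' oX oψX hle2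
  obtain ⟨wY, cwY, kwY, ewY, hwY, iY, iY'⟩ := H7 R hR1' oY oψY hle2
  have cψX : Continuous (pX c h R1 a s x) :=
    continuous_iff_continuousAt.2 fun t => (tr.dX.der t).continuousAt
  have cψY : Continuous (pY c h R1 a s x) :=
    continuous_iff_continuousAt.2 fun t => (tr.dY.der t).continuousAt
  have hlw : l0 + C7 * R ^ 3 * (C2 * z) ≤ l1 := by
    refine le_trans ?_ hl01
    have h1 : C7 * C2 ≤ C := by rw [hCd]; linarith
    have h2 : C7 * R ^ 3 * (C2 * z) ≤ C * R ^ 3 * z := by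
      calc C7 * R ^ 3 * (C2 * z) = C7 * C2 * (R ^ 3 * z) := by ring
        _ ≤ C * (R ^ 3 * z) := mul_le_mul_of_nonneg_right h1 (by positivity)
        _ = _ := by ring
    linarith
  have obX := (OBF_of DX oψX eψX cψX pkX.rel hF.oX aXe beta_nonneg beta_cont.measurable (cη oηX)
    (cη1 oηX dηX) aXm aX0 cwX kwX hwX ewX evX evX' (fun t ht => beta_pos ht) iX iX').mono hlw
  have obY := (OBF_of DY oψY eψY cψY pkY.rel hF.oY aYe beta_nonneg beta_cont.measurable (cη oηY)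
    (cη1 oηY dηY) aYm aY0 cwY kwY hwY ewY evY evY' (fun t ht => beta_pos ht) iY iY').mono hlw
  -- the test function
  have bχ : BD 4 (C6 * A) (grid (chi c h) a h x) := by
    have h1 := hC6' a x
    rw [← hA] at h1
    exact h1.mono (mul_le_mul_of_nonneg_right (by rw [hC6]; linarith [le_abs_self C6']) hA0)
  have dχ : ∀ t, HasDerivAt (grid (chi c h) a h x) (deriv (grid (chi c h) a h x) t) t := bχ.hasDeriv
  have oχ : O 3 (C6 * A) (deriv (grid (chi c h) a h x)) := O_deriv_of_BD bχ dχ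
  obtain ⟨l2, hl2⟩ : ∃ l2, l2 = C * R ^ 3 * A * z := ⟨_, rfl⟩
  have hchi : ∀ ψ : ℝ → ℝ, O 4 (C2 * z) (fun t => ψ t - t) →
      KC R l2 (fun t _ => ((grid (chi c h) a h x (ψ t) - grid (chi c h) a h x t : ℝ) : ℂ)) := by
    intro ψ hψ
    have h1 := H5 dχ oχ hψ.lower hle1
    have h2 := (H4 R hR1' _ _ h1).left
    refine (h2.mono ?_).congr fun t t' _ _ => ?_
    · have h3 : C4 * (C5 * (C6 * C2)) ≤ C := by rw [hCd]; linarith
      calc C4 * R ^ 3 * (C5 * (C6 * A * (C2 * z))) = C4 * (C5 * (C6 * C2)) * (R ^ 3 * A * z) := by ring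
        _ ≤ C * (R ^ 3 * A * z) := mul_le_mul_of_nonneg_right h3 (by positivity)
        _ = l2 := by rw [hl2]; ring
    · rw [add_sub_cancel]
  have key := r2F (p := p) (n := n) (S := S) ⟨tr, oψX, oψY, pkX, pkY, pkc, kers.sX, kers.sX', kers.sY,
    kers.sY', evX, evX', evY, evY', evc, evc', obX, obY, bχ.1.continuous, hchi _ oX, hchi _ oY, hfin,
    hrig⟩
  refine (ENNReal.ofReal_le_ofReal ?_).trans key
  refine mul_le_mul_of_nonneg_left (Real.exp_le_exp.2 ?_) measureReal_nonneg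
  refine mul_le_mul_of_nonneg_left ?_ (by norm_num)
  -- comparison of the exponents
  have h1 := H1 a x hR0 hR01 hR hg
  obtain ⟨N1, hN1⟩ : ∃ N1, N1 = ∫ t, |cutF' c h R1 a x t| ∂(mW R) := ⟨_, rfl⟩
  have hN10 : 0 ≤ N1 := by rw [hN1]; exact integral_nonneg fun t => abs_nonneg _
  have hCA : C2 * A ≤ C * A := mul_le_mul_of_nonneg_right (by rw [hCd]; linarith) hA0
  have hN1' : N1 ≤ 2 * R * (C * A) := by
    have h2 : N1 ≤ ∫ _t, C * A ∂(mW R) := by
      rw [hN1]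
      refine integral_mono_of_nonneg (Eventually.of_forall fun t => abs_nonneg _)
        (integrable_const _) (Eventually.of_forall fun t => (bF' t).trans hCA)
    refine h2.trans (le_of_eq ?_)
    rw [integral_const, smul_eq_mul]
    congr 1
    unfold mW
    rw [measureReal_restrict_apply_univ, Real.volume_real_Icc_of_le (by linarith)]
    ring
  have hC0 : 0 ≤ C := by rw [hCd]; linarith
  have hl20 : 0 ≤ l2 := by rw [hl2]; positivity
  have hΛ0 : 0 ≤ Λ := by rw [hΛ]; positivity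
  have hC1C : C1 ≤ C := by rw [hCd]; linarith
  have h3 : 2 * S * (l1 + l2 + 2 * Λ * N1) + 4 * S * Λ + 2 * (l1 + l2) * N1 + 2 * Λ * N1 ^ 2 ≤
      2 * S * (l1 + l2 + 2 * Λ * (2 * R * (C * A))) + 4 * S * Λ +
        2 * (l1 + l2) * (2 * R * (C * A)) + 2 * Λ * (2 * R * (C * A)) ^ 2 := by
    gcongr
  have h4 : C1 * ((R1 / (R1 - X)) ^ (q + 4) * ((1 + R1) ^ q)⁻¹ * ∑ j, |x j|) ^ 2 ≤
      C * ((R1 / (R1 - X)) ^ (q + 4) * ((1 + R1) ^ q)⁻¹ * ∑ j, |x j|) ^ 2 :=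
    mul_le_mul_of_nonneg_right hC1C (sq_nonneg _)
  unfold er err
  rw [← hA, ← hz, ← hl2, ← hΛ] at *
  rw [← hN1]
  linarith

end

end TCR
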