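import Pool.Agent.TC.S4Sym
import Pool.Agent.TC.Dbl
import Pool.Agent.TC.FAct1
import Pool.Agent.TC.Br2F

/-!
# [4.9] of the folded gas: the sharp bound from H0 (grid squares), the tail and H1

Statistics of the doubled configuration on the grid of positive points `fLa h X0 X`,
`X0 = e T`, `X = (1 - 2 e) T`, `T = (3/8) log m`.

* `FiF`: the statistics; `H1F`: the alternative (H1) on the window;
* `sum_FstF`: relation with `NU42.Fst` (form of `TCF.FWO_act` with a symmetric set of grid points);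
* `finF`: the sharp bound.
-/

set_option autoImplicit false

open MeasureTheory Set Filter Topology

namespace TCS

open NUE NUMF NUKer NUR2 NUDi NUS4 TCD
open scoped ENNReal

noncomputable section

variable {p n : ℕ}

lemma sym_eq_dbl (t : Fin p → ℝ) : TCF.sym t = dbl t := rfl

/-- the statistics of the positive grid at the doubled configuration -/
def FiF (c : ℝ → ℝ) (h X0 X : ℝ) (cc : Fin (fN h X0 X) → ℝ) (i : Fin (fN h X0 X)) (x : Cfg p n) : ℝ :=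
  ∑ a, chi c h (dbl x.1 a - fpt h X0 X i) - ∑ b, chi c h (dbl x.2 b - fpt h X0 X i) - cc i

/-- the constants of the statistics -/
def ccF (c : ℝ → ℝ) (h X0 X : ℝ) (τ : ℝ → ℝ) (i : Fin (fN h X0 X)) : ℝ :=
  ∫ u, τ u * chi c h (u - fpt h X0 X i)

lemma FiF_meas {δ K : ℝ} {c : ℝ → ℝ} (hP : Prof δ K c) (h X0 X : ℝ) (cc : Fin (fN h X0 X) → ℝ)
    (i : Fin (fN h X0 X)) : Measurable (FiF (p := p) (n := n) c h X0 X cc i) := by
  have h1 := (chi_cont hP h).measurable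
  have h2 : ∀ a : Fin (p + p), Measurable fun x : Cfg p n => dbl x.1 a := fun a =>
    (measurable_pi_apply a).comp (dbl_meas.comp measurable_fst)
  have h3 : ∀ a : Fin (n + n), Measurable fun x : Cfg p n => dbl x.2 a := fun a =>
    (measurable_pi_apply a).comp (dbl_meas.comp measurable_snd)
  unfold FiF
  refine ((Finset.measurable_sum _ fun a _ => ?_).sub (Finset.measurable_sum _ fun b _ => ?_)).sub_const _
  · exact h1.comp ((h2 a).sub_const _)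
  · exact h1.comp ((h3 b).sub_const _)

lemma fpt_cast {h X0 X : ℝ} (i : Fin (fN h X0 X)) :
    (0 : ℝ) + ((((i : ℕ) : ℤ) + (lo h X0 : ℤ) : ℤ) : ℝ) * h = fpt h X0 X i := by
  unfold fpt
  push_cast
  ring

/-- relation with the statistics of the splitting -/
lemma sum_FstF (c : ℝ → ℝ) (h X0 X : ℝ) (τ : ℝ → ℝ) (x : Cfg p n) :
    ∑ l ∈ fLa h X0 X, NU42.Fst c h 0 τ l (dbl x.1) (dbl x.2) ^ 2 =
      ∑ i : Fin (fN h X0 X), FiF c h X0 X (ccF c h X0 X τ) i x ^ 2 := by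
  rw [sum_fLa h X0 X fun l => NU42.Fst c h 0 τ l (dbl x.1) (dbl x.2) ^ 2]
  refine Finset.sum_congr rfl fun i _ => ?_
  unfold NU42.Fst FiF ccF
  rw [fpt_cast]

/-- the statistics at a negative grid point -/
lemma Fst_neg (c : ℝ → ℝ) (h : ℝ) {τ : ℝ → ℝ} (hτ : ∀ x, τ (-x) = τ x) (l : ℤ) (t : Fin p → ℝ)
    (t' : Fin n → ℝ) : NU42.Fst c h 0 τ (-l) (dbl t) (dbl t') = NU42.Fst c h 0 τ l (dbl t) (dbl t') := by
  have h1 : ∀ {k : ℕ} (y : Fin k → ℝ), ∑ a, chi c h (dbl y a - (0 + ((-l : ℤ) : ℝ) * h)) =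
      ∑ a, chi c h (dbl y a - (0 + (l : ℝ) * h)) := by
    intro k y
    rw [sum_dbl (fun u => chi c h (u - (0 + ((-l : ℤ) : ℝ) * h))),
      sum_dbl (fun u => chi c h (u - (0 + (l : ℝ) * h)))]
    refine Finset.sum_congr rfl fun i _ => ?_
    rw [← TC.chi_neg c h (y i - _), ← TC.chi_neg c h (-y i - _), add_comm]
    congr 2
    · push_cast; ring
    · push_cast; ring
  have h3 : ∫ x, τ x * chi c h (x - (0 + ((-l : ℤ) : ℝ) * h)) =
      ∫ x, τ x * chi c h (x - (0 + (l : ℝ) * h)) := by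
    rw [← integral_neg_eq_self]
    refine integral_congr_ae (ae_of_all _ fun x => ?_)
    simp only
    rw [hτ, ← TC.chi_neg c h (-x - _)]
    congr 2
    push_cast
    ring
  unfold NU42.Fst
  rw [h1, h1, h3]

/-- the symmetric set of grid points gives twice the positive ones -/
lemma sum_FstS (c : ℝ → ℝ) {h X0 X : ℝ} (hh : 0 < h) (hX0 : 0 < X0) {τ : ℝ → ℝ} (hτ : ∀ x, τ (-x) = τ x)
    (x : Cfg p n) :
    ∑ l ∈ fLa h X0 X ∪ (fLa h X0 X).image (fun l => -l), NU42.Fst c h 0 τ l (dbl x.1) (dbl x.2) ^ 2 =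
      2 * ∑ i : Fin (fN h X0 X), FiF c h X0 X (ccF c h X0 X τ) i x ^ 2 := by
  rw [TC.sum_pos_sym _ (fLa_pos hh hX0) (fun l => NU42.Fst c h 0 τ l (dbl x.1) (dbl x.2) ^ 2)
    (fun l => by rw [Fst_neg c h hτ]), sum_FstF]

/-- the alternative (H1) on the window `B` -/
def H1F (c : ℝ → ℝ) (h η X0 X e' : ℝ) (l : (Fin (fN h X0 X) → ℝ) → ℝ) (cc : Fin (fN h X0 X) → ℝ)
    (B : Set (Cfg p n)) (W : Cfg p n → ℝ≥0∞) : Prop :=
  ∀ g : Fin (fN h X0 X) → ℝ, ∑ i, g i ^ 2 ≤ (2 * (fN h X0 X : ℝ) + 4) / η →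
    (∫⁻ x in B, W x) * ENNReal.ofReal (Real.exp ((∑ i, ∑ j, g i *
      toep (fun θ => rs c (θ / h)) (fN h X0 X) i j * g j) / 2 + l g - e')) ≤
      ∫⁻ x in B, W x * ENNReal.ofReal (Real.exp (∑ i, g i * FiF c h X0 X cc i x))

/-- **the sharp bound of the folded gas** -/
theorem finF {ε : ℝ} (hε : 0 < ε) (hε1 : ε ≤ 1) : ∃ (δ K η : ℝ) (c : ℝ → ℝ), 0 < δ ∧ δ < K ∧ 0 < η ∧
    ContDiff ℝ ((⊤ : ℕ∞) : WithTop ℕ∞) c ∧ (∀ k, 0 ≤ c k) ∧ (∀ k, c (-k) = c k) ∧ (∀ k, |k| ≤ δ → c k = 0) ∧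
    (∀ k, K ≤ |k| → c k = 0) ∧ (∀ k, k ≠ 0 → c k ^ 2 ≤ Lh k) ∧ Continuous (rs c) ∧ (∀ k, rs c k ≤ 1 - η) ∧
    ∀ h : ℝ, 0 < h → K * h < Real.pi →
      ∃ C₀ : ℝ, 1 ≤ C₀ ∧ ∀ e : ℝ, 0 < e → e ≤ 1 / 3 → ∀ m : ℕ, 3 ≤ m →
      ∀ {p n : ℕ} (W : Cfg p n → ℝ≥0∞) (B : Set (Cfg p n)) (X0 X A a e' : ℝ) (τ : ℝ → ℝ),
        X0 = e * (3 / 8 * Real.log m) → X = (1 - 2 * e) * (3 / 8 * Real.log m) →
        Measurable W → MeasurableSet B → (∀ x, τ (-x) = τ x) → 0 ≤ A → 0 ≤ e' → 1 / 4 ≤ a →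
        ∫⁻ x, W x * ENNReal.ofReal (Real.exp (1 / 4 *
          ∑ i ∈ fLa h X0 X ∪ (fLa h X0 X).image (fun l => -l),
            NU42.Fst c h 0 τ i (dbl x.1) (dbl x.2) ^ 2)) ≤ ENNReal.ofReal (A * (m : ℝ) ^ a) →
        ∫⁻ x in Bᶜ, W x ≤ ENNReal.ofReal A →
        (∫⁻ x in B, W x ≤ ENNReal.ofReal (A * (m : ℝ) ^ (a - 1 / 4)) ∨
          ∃ l : (Fin (fN h X0 X) → ℝ) → ℝ, (∀ g, l (-g) = -l g) ∧
            H1F c h η X0 X e' l (ccF c h X0 X τ) B W) →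
        ∫⁻ x, W x ≤ ENNReal.ofReal ((C₀ * Real.exp e' + 1) * A * (m : ℝ) ^ (a - 1 / 4 + (ε + e))) := by
  obtain ⟨δ, K, η, c, hδ, hK, hη, hc1, hc2, hc3, hc4, hc5, hc6, hc7, hc8, hc9⟩ := coreF_lint hε hε1
  refine ⟨δ, K, η, c, hδ, hK, hη, hc1, hc2, hc3, hc4, hc5, hc6, hc7, hc8, fun h hh hKh => ?_⟩
  obtain ⟨C₀, hC0, hC⟩ := hc9 h hh hKh
  refine ⟨C₀, hC0, ?_⟩
  intro e he0 he1 m hm p n W B X0 X A a e' τ hX0 hX hW hB hτ hA he' ha hup htail hor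
  subst hX0 hX
  have hP : Prof δ K c := ⟨hδ, hc1, hc3, hc4, hc5⟩
  have hX0p : 0 < e * (3 / 8 * Real.log m) := by
    have := NUDi.one_le_log hm
    positivity
  have hup' : ∫⁻ x, W x * ENNReal.ofReal (Real.exp ((∑ i, FiF c h (e * (3 / 8 * Real.log m))
      ((1 - 2 * e) * (3 / 8 * Real.log m)) (ccF c h (e * (3 / 8 * Real.log m))
      ((1 - 2 * e) * (3 / 8 * Real.log m)) τ) i x ^ 2) / 2)) ≤ ENNReal.ofReal (A * (m : ℝ) ^ a) := by
    refine le_trans (le_of_eq ?_) hup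
    refine lintegral_congr fun x => ?_
    rw [sum_FstS c hh hX0p hτ]
    congr 3
    ring
  rcases hor with h1 | ⟨l, hl, h1⟩
  · exact hC e he0.le he1 m (by omega) _ rfl volume W B _ A e' a (fun _ => 0) hW hB
      (fun i => FiF_meas hP h _ _ _ i) (fun g => by simp) hA he' ha hup' htail (Or.inl h1)
  · exact hC e he0.le he1 m (by omega) _ rfl volume W B _ A e' a l hW hB
      (fun i => FiF_meas hP h _ _ _ i) hl hA he' ha hup' htail (Or.inr h1)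

end

end TCS
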