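import Pool.Agent.TC.H1Fa
import Pool.Agent.TC.S4Fin
import Pool.Agent.TC.FAct1

/-!
# (H1) of the folded gas in the form of `TCS.H1F` (nu34/53C [4.7], helper73)

* `h1F_lint`: from the bound of the moments of the symmetric field to the statistics `FiF`;
* `h1F_final`, `h1F_full`: for large `m`.
-/

set_option autoImplicit false

open MeasureTheory Set Filter Topology

namespace TCR

open NUE NUOC NUDp NUKer NUR2 NUTr NUS4 TCF TCS
open scoped ENNReal

noncomputable section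

variable {δ K : ℝ} {c : ℝ → ℝ} {p n : ℕ}

/-- the weight of the folded gas with the wall factor -/
abbrev WF (ηX ηX1 ηY ηY1 aX aY : ℝ → ℝ) (x : Cfg p n) : ℝ≥0∞ :=
  ENNReal.ofReal (FWO (iD ηX) (iD ηX1) (iD ηY) (iD ηY1) (fun t => beta t * aX t)
    (fun t => beta t * aY t) x.1 x.2)

lemma mF_eq {R : ℝ} {ηX ηX1 ηY ηY1 : ℝ → ℝ} (hX : OddD (iD ηX) (iD ηX1)) (hY : OddD (iD ηY) (iD ηY1))
    (aX aY : ℝ → ℝ) : mF (p := p) (n := n) R ηX ηX1 ηY ηY1 aX aY =
      (volume.restrict (Bx R)).withDensity (WF ηX ηX1 ηY ηY1 aX aY) :=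
  muF_eq hX hY _ _

/-- the field at the symmetrised configuration -/
lemma sum_FiF (h X0 X : ℝ) (cc g : Fin (fN h X0 X) → ℝ) (x : Cfg p n) :
    ∑ i, g i * FiF c h X0 X cc i x =
      1 / 2 * (∑ a, grid (chi c h) (off h X) h (symE g) (sym x.1 a) -
        ∑ b, grid (chi c h) (off h X) h (symE g) (sym x.2 b)) - ∑ i, g i * cc i := by
  have e1 : ∀ {k : ℕ} (t : Fin k → ℝ), ∑ a, grid (chi c h) (off h X) h (symE g) (sym t a) =
      2 * ∑ i, g i * ∑ a, chi c h (sym t a - fpt h X0 X i) := by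
    intro k t
    have e2 : ∀ u : ℝ, grid (chi c h) (off h X) h (symE g) u =
        ∑ i, g i * (chi c h (u - fpt h X0 X i) + chi c h (u + fpt h X0 X i)) := fun u =>
      grid_symE (chi c h) g u
    simp only [e2]
    rw [Finset.sum_comm, Finset.mul_sum]
    refine Finset.sum_congr rfl fun i _ => ?_
    rw [← Finset.mul_sum, Finset.sum_add_distrib]
    have e3 : ∑ a, chi c h (sym t a + fpt h X0 X i) = ∑ a, chi c h (sym t a - fpt h X0 X i) := by
      rw [sum_sym (fun u => chi c h (u + fpt h X0 X i)) t,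
        sum_sym (fun u => chi c h (u - fpt h X0 X i)) t, add_comm]
      congr 1
      · refine Finset.sum_congr rfl fun a _ => ?_
        rw [← TC.chi_neg c h (-t a + fpt h X0 X i)]
        congr 1
        ring
      · refine Finset.sum_congr rfl fun a _ => ?_
        rw [← TC.chi_neg c h (t a + fpt h X0 X i)]
        congr 1
        ring
    rw [e3]
    ring
  rw [e1, e1]
  have e4 : ∀ i, g i * FiF c h X0 X cc i x = (g i * ∑ a, chi c h (sym x.1 a - fpt h X0 X i) -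
      g i * ∑ b, chi c h (sym x.2 b - fpt h X0 X i)) - g i * cc i := by
    intro i
    unfold FiF
    simp only [← sym_eq_dbl]
    ring
  simp only [e4]
  rw [Finset.sum_sub_distrib, Finset.sum_sub_distrib]
  ring

/-- **the form needed in the glue** -/
theorem h1F_lint {h X0 X R E : ℝ} {ηX ηX1 ηY ηY1 aX aY : ℝ → ℝ} (hX : OddD (iD ηX) (iD ηX1))
    (hY : OddD (iD ηY) (iD ηY1)) (h1 : Measurable ηX)
    (h2 : Measurable ηX1) (h3 : Measurable ηY) (h4 : Measurable ηY1) (h5 : Measurable aX)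
    (h6 : Measurable aY) (hP : Prof δ K c) (g cc : Fin (fN h X0 X) → ℝ)
    (hfin : IsFiniteMeasure (mF (p := p) (n := n) R ηX ηX1 ηY ηY1 aX aY))
    (key : ENNReal.ofReal ((mF (p := p) (n := n) R ηX ηX1 ηY ηY1 aX aY).real univ * Real.exp E) ≤
      ∫⁻ y, ENNReal.ofReal (Real.exp (1 / 2 * (∑ i, grid (chi c h) (off h X) h (symE g) (sym y.1 i) -
      ∑ j, grid (chi c h) (off h X) h (symE g) (sym y.2 j))))
        ∂(mF (p := p) (n := n) R ηX ηX1 ηY ηY1 aX aY)) :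
    (∫⁻ x in Bx R, WF (p := p) (n := n) ηX ηX1 ηY ηY1 aX aY x) *
      ENNReal.ofReal (Real.exp (E - ∑ i, g i * cc i)) ≤
    ∫⁻ x in Bx R, WF (p := p) (n := n) ηX ηX1 ηY ηY1 aX aY x *
      ENNReal.ofReal (Real.exp (∑ i, g i * FiF c h X0 X cc i x)) := by
  have hW : Measurable (WF (p := p) (n := n) ηX ηX1 ηY ηY1 aX aY) :=
    ENNReal.measurable_ofReal.comp
      (FWO_meas (iD_meas h1) (iD_meas h2) (iD_meas h3) (iD_meas h4)
        (beta_cont.measurable.mul h5) (beta_cont.measurable.mul h6))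
  have hG : Measurable fun y : Cfg p n => 1 / 2 *
      (∑ i, grid (chi c h) (off h X) h (symE g) (sym y.1 i) -
      ∑ j, grid (chi c h) (off h X) h (symE g) (sym y.2 j)) := by
    have c0 : Measurable (grid (chi c h) (off h X) h (symE g)) := by
      have := (chi_cont hP h).measurable
      unfold grid
      exact Finset.measurable_sum _ fun j _ => by fun_prop
    have h2 : ∀ i, Measurable fun x : Cfg p n => sym x.1 i := fun i =>
      (measurable_pi_apply i).comp (sym_meas.comp measurable_fst)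
    have h3 : ∀ i, Measurable fun x : Cfg p n => sym x.2 i := fun i =>
      (measurable_pi_apply i).comp (sym_meas.comp measurable_snd)
    exact ((Finset.measurable_sum _ fun a _ => c0.comp (h2 a)).sub
      (Finset.measurable_sum _ fun a _ => c0.comp (h3 a))).const_mul _
  have e1 : ENNReal.ofReal ((mF (p := p) (n := n) R ηX ηX1 ηY ηY1 aX aY).real univ * Real.exp E) =
      (∫⁻ x in Bx R, WF (p := p) (n := n) ηX ηX1 ηY ηY1 aX aY x) * ENNReal.ofReal (Real.exp E) := by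
    rw [ENNReal.ofReal_mul measureReal_nonneg]
    congr 1
    unfold Measure.real
    rw [ENNReal.ofReal_toReal (measure_ne_top _ _), mF_eq hX hY,
      withDensity_apply _ MeasurableSet.univ, Measure.restrict_univ]
  have e2 : ∫⁻ x in Bx R, WF (p := p) (n := n) ηX ηX1 ηY ηY1 aX aY x *
      ENNReal.ofReal (Real.exp (∑ i, g i * FiF c h X0 X cc i x)) =
      (∫⁻ y, ENNReal.ofReal (Real.exp (1 / 2 *
        (∑ i, grid (chi c h) (off h X) h (symE g) (sym y.1 i) -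
      ∑ j, grid (chi c h) (off h X) h (symE g) (sym y.2 j))))
        ∂(mF (p := p) (n := n) R ηX ηX1 ηY ηY1 aX aY)) *
      ENNReal.ofReal (Real.exp (-∑ i, g i * cc i)) := by
    rw [mF_eq hX hY, lintegral_withDensity_eq_lintegral_mul _ hW (by fun_prop), ← lintegral_mul_const]
    · refine lintegral_congr fun x => ?_
      simp only [Pi.mul_apply]
      rw [mul_assoc, ← ENNReal.ofReal_mul (Real.exp_pos _).le, ← Real.exp_add, sum_FiF]
      congr 3
    · exact hW.mul (by fun_prop)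
  rw [e2]
  rw [e1] at key
  have e3 : ENNReal.ofReal (Real.exp (E - ∑ i, g i * cc i)) =
      ENNReal.ofReal (Real.exp E) * ENNReal.ofReal (Real.exp (-∑ i, g i * cc i)) := by
    rw [← ENNReal.ofReal_mul (Real.exp_pos _).le, ← Real.exp_add, sub_eq_add_neg]
  rw [e3, ← mul_assoc]
  exact mul_le_mul_left key _

lemma fN_le_gN (h X0 X : ℝ) : fN h X0 X ≤ gN h X := by
  unfold fN gN
  omega

/-- the symmetric extension of a mode in the ball is in the ball with half the constant -/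
lemma sq_symE_le {h X0 X η : ℝ} (hh : 0 < h) (hX0 : 0 < X0) (hη : 0 < η) (g : Fin (fN h X0 X) → ℝ)
    (hg : ∑ i, g i ^ 2 ≤ (2 * (fN h X0 X : ℝ) + 4) / η) :
    ∑ b, symE g b ^ 2 ≤ (2 * ((gN h X : ℕ) : ℝ) + 4) / (η / 2) := by
  rw [sq_symE (lo_pos hh hX0)]
  have h1 : (fN h X0 X : ℝ) ≤ gN h X := by exact_mod_cast fN_le_gN h X0 X
  calc 2 * ∑ i, g i ^ 2 ≤ 2 * ((2 * (fN h X0 X : ℝ) + 4) / η) := by gcongr
    _ ≤ 2 * ((2 * (gN h X : ℝ) + 4) / η) := by gcongr
    _ = _ := by field_simp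

/-- **(H1) of the folded gas** from the field data of the symmetric modes -/
theorem h1F_final (hP : Prof δ K c) {h : ℝ} (hh : 0 < h) (hK : K * h < Real.pi) (k : ℕ) {κ e η : ℝ}
    (hκ : 0 < κ) (he : 0 < e) (he1 : e ≤ 1 / 4) (hη : 0 < η) : ∃ (C : ℝ) (m0 : ℕ) (e' : ℝ), 1 ≤ C ∧ 3 ≤ m0 ∧
    0 ≤ e' ∧ ∀ m : ℕ, m0 ≤ m → ∀ {p n : ℕ} (X0 R s lam l1 S : ℝ) (ηX ηX1 ηY ηY1 aX aY EX EY : ℝ → ℝ),
    X0 = e * (3 / 8 * Real.log m) →
    (m : ℝ) / 2 ≤ s → 3 / 8 * Real.log m ≤ R → R ≤ Real.log m ^ k →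
    O 4 lam ηX → O 4 lam ηY → (∀ t, HasDerivAt ηX (ηX1 t) t) → (∀ t, HasDerivAt ηY (ηY1 t) t) →
    (∀ t, ηX (-t) = -ηX t) → (∀ t, ηY (-t) = -ηY t) → (∀ t, 0 ≤ aX t) → (∀ t, 0 ≤ aY t) →
    (∀ t, aX (-t) = aX t) → (∀ t, aY (-t) = aY t) →
    lam ≤ (m : ℝ) ^ (-κ) → 0 ≤ l1 → l1 ≤ (m : ℝ) ^ (-κ) → 0 ≤ S → S ≤ Real.log m ^ k →
    Measurable aX → Measurable aY →
    (∀ x : Fin (gN h (Xf e m)) → ℝ, ∑ i, x i ^ 2 ≤ (2 * ((gN h (Xf e m) : ℕ) : ℝ) + 4) / (η / 2) →
      ∃ l0 : ℝ, l0 + C * R ^ 3 * sz s (R1f e m) x ≤ l1 ∧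
      FD c h R (R1f e m) (off h (Xf e m)) s l0 ηX ηX1 ηY ηY1 aX aY EX EY x) →
    IsFiniteMeasure (mF (p := p) (n := n) R ηX ηX1 ηY ηY1 aX aY) →
    RigS (mF (p := p) (n := n) R ηX ηX1 ηY ηY1 aX aY) (fun x => sym x.1) (fun x => sym x.2) R
      (fun t => s * NUMF.P t) S →
    ∀ cc : Fin (fN h X0 (Xf e m)) → ℝ, ∃ l : (Fin (fN h X0 (Xf e m)) → ℝ) → ℝ, (∀ g, l (-g) = - l g) ∧
      H1F c h η X0 (Xf e m) e' l cc (Bx R) (WF (p := p) (n := n) ηX ηX1 ηY ηY1 aX aY) := by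
  obtain ⟨C, cs, hC, hcs, H⟩ := h1F_core hP hh hK 2
  obtain ⟨m1, e1, hm1, he1', HN⟩ := er_num k hκ he he1 hh (half_pos hη) hC hcs
  obtain ⟨Ci, hCi, HI⟩ := img_small hP hh hK he (by linarith) hη
  refine ⟨C, max 3 m1, (e1 + Ci) / 2, hC, le_max_left _ _, by linarith, ?_⟩
  intro m hm p n X0 R s lam l1 S ηX ηX1 ηY ηY1 aX aY EX EY hX0 hs hRl hR oX oY dX dY odX odY aX0 aY0
    aXe aYe hlam hl0 hl hS0 hS maX maY hF hfin hrig cc
  have hm3 : 3 ≤ m := (le_max_left _ _).trans hm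
  have hmr : (1:ℝ) ≤ m := by exact_mod_cast (by omega : 1 ≤ m)
  have hL : 0 ≤ Real.log m := Real.log_nonneg hmr
  have hL1 : 1 ≤ Real.log m := NUDi.one_le_log hm3
  have hX00 : 0 < X0 := by rw [hX0]; positivity
  have mη : ∀ {u : ℝ → ℝ} {u1 : ℝ → ℝ}, O 4 lam u → (∀ t, HasDerivAt u (u1 t) t) → Measurable u1 := by
    intro u u1 h1 h2
    obtain ⟨-, u2, h3, h4⟩ := h1
    have e1 : u2 = u1 := funext fun t => (h3 t).unique (h2 t)
    rw [← e1]
    exact h4.cont.measurable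
  have hRR : 0 ≤ R := le_trans (by positivity) hRl
  refine ⟨fun g => 1 / 2 * elF c h X0 (Xf e m) R (R1f e m) s EX EY
    (mF (p := p) (n := n) R ηX ηX1 ηY ηY1 aX aY) g - ∑ i, g i * cc i, fun g => ?_, fun g hg => ?_⟩
  · simp only
    rw [elF_neg]
    have e1 : ∑ i, (-g) i * cc i = -∑ i, g i * cc i := by
      rw [← Finset.sum_neg_distrib]
      refine Finset.sum_congr rfl fun i _ => ?_
      rw [Pi.neg_apply]
      ring
    rw [e1]
    ring
  · have hgE := sq_symE_le hh hX00 hη g hg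
    obtain ⟨n1, n2, n3, n4, n5⟩ := HN m ((le_max_right _ _).trans hm) R s lam l1 S hs hRR hR oX.nonneg
      hlam hl0 hl hS0 hS (symE g) hgE
    have hs0 : 0 < s := by linarith
    have hR1R : R1f e m + 1 < R := by
      have h1 : R1f e m + 1 = (1 - e) * (3 / 8 * Real.log m) := by unfold R1f; ring
      rw [h1]
      have h2 : Xf e m < R1f e m := n2
      unfold Xf R1f at h2
      nlinarith
    obtain ⟨l0, hll, hFD⟩ := hF (symE g) hgE
    have key := H (p := p) (n := n) X0 (Xf e m) R (R1f e m) s lam l0 l1 S g ηX ηX1 ηY ηY1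
      aX aY EX EY hs0 n1 n2 hR1R n3 oX oY dX dY odX odY aX0 aY0 maX maY aXe aYe n4 hll hFD hfin hrig
      hS0 hl0
    have k2 := h1F_lint (p := p) (n := n) (oddD_iD odX dX) (oddD_iD odY dY) oX.cont.measurable
      (mη oX dX) oY.cont.measurable (mη oY dY) maX maY hP g cc hfin key
    refine le_trans ?_ k2
    refine mul_le_mul_right (ENNReal.ofReal_le_ofReal (Real.exp_le_exp.2 ?_)) _
    simp only
    rw [toep_symE]
    have hI := HI m hm3 (fN h X0 (Xf e m)) (by rw [hX0]; rfl) g hg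
    rw [← hX0] at hI
    have hI2 := (abs_le.1 hI).1
    linarith

end

end TCR
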