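import Pool.Agent.TC.H1Fb
import Pool.Agent.NUS4.Sharp

/-!
# (H1) of the folded gas with the field data inserted (nu34/53C [4.7], helper73)

* `h1F_full`: odd curves, even one body factors `beta * a0`, `a0` as in `NUS4.h1_full`;
* `GDF`: `NUS4.GD` with parities; `h1F_gd`: the alternative (H1) in the literal form of `TCS.sharpA`.
-/

set_option autoImplicit false

open MeasureTheory Set Filter Topology

namespace TCR

open NUE NUOC NUDp NUKer NUR2 NUTr NUS4 TCF TCS NUDi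
open scoped ENNReal

noncomputable section

variable {δ K : ℝ} {c : ℝ → ℝ} {p n : ℕ}

set_option maxHeartbeats 4000000 in
/-- **(H1) of the folded gas, full form** -/
theorem h1F_full (hP : Prof δ K c) {h : ℝ} (hh : 0 < h) (hK : K * h < Real.pi) (k : ℕ) {κ e η w : ℝ}
    (hκ : 0 < κ) (he : 0 < e) (he1 : e ≤ 1 / 4) (hη : 0 < η) (hw : 0 < w) (hw1 : w ≤ 1 / 10) :
    ∃ (m0 : ℕ) (e' : ℝ), 3 ≤ m0 ∧ 0 ≤ e' ∧
    ∀ m : ℕ, m0 ≤ m → ∀ {p n : ℕ} (X0 R s ε M b A Ar S : ℝ)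
    (eX eY ηX ηX1 ηY ηY1 ErX ErY aX aY : ℝ → ℝ) (FX FY : ℂ → ℂ),
    X0 = e * (3 / 8 * Real.log m) →
    (m : ℝ) / 2 ≤ s → s ≤ 2 * m → Real.log m ≤ R → R ≤ Real.log m ^ k → R1f e m + 1 ≤ b → b + 3 ≤ R →
    NUAct.Cur s ε M b eX ηX → NUAct.Cur s ε M b eY ηY → (∀ t, HasDerivAt ηX (ηX1 t) t) →
    (∀ t, HasDerivAt ηY (ηY1 t) t) →
    (∀ t, ηX (-t) = -ηX t) → (∀ t, ηY (-t) = -ηY t) →
    ε ≤ (m : ℝ) ^ (-κ) → M ≤ Real.log m ^ k → 0 ≤ A →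
    A ≤ Real.log m ^ k → Ar ≤ Real.log m ^ k →
    (∀ z : ℂ, |z.re| ≤ b + 2 → |z.im| < w → DifferentiableAt ℂ FX z ∧ ‖FX z‖ ≤ A) →
    (∀ z : ℂ, |z.re| ≤ b + 2 → |z.im| < w → DifferentiableAt ℂ FY z ∧ ‖FY z‖ ≤ A) →
    NUR2.Ext 4 b Ar ErX → NUR2.Ext 4 b Ar ErY → (∀ x, 0 ≤ aX x) → (∀ x, 0 ≤ aY x) →
    Measurable aX → Measurable aY → (∀ t, aX (-t) = aX t) → (∀ t, aY (-t) = aY t) →
    (∀ x, |x| ≤ b → aX x = Real.exp (s * (NUAct.vc (NUAct.zt (iD ηX) x)).re +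
      (FX (NUAct.zt (iD ηX) x)).re + ErX x)) →
    (∀ x, |x| ≤ b → aY x = Real.exp (s * (NUAct.vc (NUAct.zt (iD ηY) x)).re +
      (FY (NUAct.zt (iD ηY) x)).re + ErY x)) → 0 ≤ S → S ≤ Real.log m ^ k →
    IsFiniteMeasure (mF (p := p) (n := n) R ηX ηX1 ηY ηY1 aX aY) →
    RigS (mF (p := p) (n := n) R ηX ηX1 ηY ηY1 aX aY) (fun x => sym x.1) (fun x => sym x.2) R
      (fun t => s * NUMF.P t) S →
    ∀ cc : Fin (fN h X0 (Xf e m)) → ℝ, ∃ l : (Fin (fN h X0 (Xf e m)) → ℝ) → ℝ, (∀ g, l (-g) = - l g) ∧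
      H1F c h η X0 (Xf e m) e' l cc (Bx R) (WF (p := p) (n := n) ηX ηX1 ηY ηY1 aX aY) := by
  have hκ1 : 0 < min κ e / 2 := half_pos (lt_min hκ he)
  obtain ⟨Cf, m2, e', hCf, hm2, he', HF⟩ := h1F_final hP hh hK (k + 1) hκ1 he he1 hη
  obtain ⟨C, cs, hC, hcs, H⟩ := exists_FD hP h hw hw1
  obtain ⟨m1, hm1, HN⟩ := fd_num (k + 1) (κ := κ) (e := e) (h := h) (η := η / 2) hκ he he1 hh
    (half_pos hη) (C := C + Cf) (by linarith) hcs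
  obtain ⟨m3, hm3⟩ := (Real.tendsto_log_atTop.comp tendsto_natCast_atTop_atTop).eventually
    (eventually_ge_atTop (2 : ℝ)) |>.exists_forall_of_atTop
  refine ⟨max m3 (max m1 m2), e', hm2.trans ((le_max_right _ _).trans (le_max_right _ _)), he', ?_⟩
  intro m hm p n X0 R s ε M b A Ar S eX eY ηX ηX1 ηY ηY1 ErX ErY aX aY FX FY hX0 hs hs2 hRl hR hb hbR
    cX cY dX dY odX odY hε hM hA0 hA hAr hFX hFY hEX hEY aX0 aY0 aXm aYm aXe aYe haX haY hS0 hS hfin hrig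
  have hmm : 1 ≤ m := hm1.trans ((le_max_left _ _).trans ((le_max_right _ _).trans hm))
  have hmr : (1:ℝ) ≤ m := by exact_mod_cast hmm
  have hs0 : 0 < s := by linarith
  have hL2 := hm3 m ((le_max_left _ _).trans hm)
  simp only [Function.comp] at hL2
  obtain ⟨L, hL⟩ : ∃ L, L = Real.log m := ⟨_, rfl⟩
  rw [← hL] at hL2
  have hL1 : 1 ≤ L := by linarith
  have hLk1 : 1 ≤ L ^ k := one_le_pow₀ hL1
  have hLk : L ^ k ≤ L ^ (k + 1) := pow_le_pow_right₀ hL1 (by omega)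
  have hLk2 : L ^ k + 1 ≤ L ^ (k + 1) := by
    rw [pow_succ]
    nlinarith
  have hAr0 : 0 ≤ Ar := hEX.nonneg
  rw [← hL] at hR hM hA hAr hS
  have hR' : R ≤ Real.log m ^ (k + 1) := by rw [← hL]; exact hR.trans hLk
  have hM' : M ≤ Real.log m ^ (k + 1) := by rw [← hL]; exact hM.trans hLk
  have hA' : A ≤ Real.log m ^ (k + 1) := by rw [← hL]; exact hA.trans hLk
  have hAr' : Ar + 1 ≤ Real.log m ^ (k + 1) := by rw [← hL]; linarith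
  have hS' : S ≤ Real.log m ^ (k + 1) := by rw [← hL]; exact hS.trans hLk
  obtain ⟨r1, l1, hl0, hl, HX⟩ := HN m ((le_max_left _ _).trans ((le_max_right _ _).trans hm)) R s ε M A
    (Ar + 1) hs hs2 hRl hR' cX.ε0 hε (cX.M0 hs0.le) hM' hA0 hA' (by linarith) hAr'
  obtain ⟨EX, EY, HE⟩ := H R (R1f e m) r1 hb hbR hs0 cX cY dX dY hA0 hFX hFY hEX hEY aX0 aY0 aXm aYm
    haX haY
  have hεκ : ε ≤ (m : ℝ) ^ (-(min κ e / 2)) := by
    refine hε.trans (Real.rpow_le_rpow_of_exponent_le hmr ?_)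
    have := min_le_left κ e
    linarith
  have hR0 : 0 ≤ R := by
    have : 0 ≤ Real.log m := by rw [← hL]; linarith
    linarith
  refine HF m ((le_max_right _ _).trans ((le_max_right _ _).trans hm)) X0 R s ε l1 S ηX ηX1 ηY ηY1 aX aY
    EX EY hX0 hs (by rw [← hL] at hRl ⊢; linarith) hR' cX.O4 cY.O4 dX dY odX odY aX0 aY0 aXe aYe hεκ hl0
    hl hS0 hS' aXm aYm (fun x hx => ?_) hfin hrig
  obtain ⟨h1, h2, h3⟩ := HX x hx
  have hz0 : 0 ≤ sz s (R1f e m) x := by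
    have := NUMF.P_pos (R1f e m + 1)
    have hx0 : 0 ≤ ∑ j, |x j| := Finset.sum_nonneg fun j _ => abs_nonneg _
    unfold sz
    positivity
  obtain ⟨z, hz⟩ : ∃ z, z = sz s (R1f e m) x := ⟨_, rfl⟩
  have hε0 := cX.ε0
  have hM0 := cX.M0 hs0.le
  have h2' : C * R ^ 7 * (ε + sz s (R1f e m) x) ≤ 1 := by
    refine le_trans ?_ h2
    have h4 : 0 ≤ Cf * (R ^ 7 * (ε + sz s (R1f e m) x)) := by positivity
    nlinarith
  refine ⟨_, ?_, HE _ x h1 h2'⟩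
  refine le_trans ?_ h3
  rw [← hz] at hz0 ⊢
  have hB : 0 ≤ R ^ 8 * (M * (ε + z)) + R ^ 3 * ((A + s * Real.exp (-2 * R) + Ar) * z) := by positivity
  obtain ⟨B, hBd⟩ : ∃ B, B = R ^ 8 * (M * (ε + z)) + R ^ 3 * ((A + s * Real.exp (-2 * R) + Ar) * z) :=
    ⟨_, rfl⟩
  rw [← hBd] at hB ⊢
  have e1 : R ^ 8 * (M * (ε + z)) + R ^ 3 * ((A + s * Real.exp (-2 * R) + (Ar + 1)) * z) =
      B + R ^ 3 * z := by
    rw [hBd]
    ring
  rw [e1]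
  have h5 : 0 ≤ C * (R ^ 3 * z) := by positivity
  have h6 : 0 ≤ Cf * B := by positivity
  nlinarith

/-- curve and one body data of the folded gas in the bulk -/
structure GDF (m : ℕ) (k : ℕ) (κ e w s R b : ℝ) (ηX ηX1 ηY ηY1 aX aY : ℝ → ℝ) : Prop where
  gd : GD m k κ e w s R b ηX ηX1 ηY ηY1 aX aY
  odX : ∀ t, ηX (-t) = -ηX t
  odY : ∀ t, ηY (-t) = -ηY t
  aXe : ∀ t, aX (-t) = aX t
  aYe : ∀ t, aY (-t) = aY t

/-- **(H1) for the data `GDF`**, in the form of `TCS.sharpA` -/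
theorem h1F_gd (hP : Prof δ K c) {h : ℝ} (hh : 0 < h) (hK : K * h < Real.pi) (k : ℕ) {κ e η w : ℝ}
    (hκ : 0 < κ) (he : 0 < e) (he1 : e ≤ 1 / 4) (hη : 0 < η) (hw : 0 < w) (hw1 : w ≤ 1 / 10)
    {C₄ : ℝ} (hC4 : 0 ≤ C₄) : ∃ (m0 : ℕ) (e' : ℝ), 3 ≤ m0 ∧ 0 ≤ e' ∧
    ∀ m : ℕ, m0 ≤ m → ∀ {p n : ℕ} (X0 X R s b : ℝ) (ηX ηX1 ηY ηY1 aX aY : ℝ → ℝ),
    X0 = e * (3 / 8 * Real.log m) → X = (1 - 2 * e) * (3 / 8 * Real.log m) →
    GDF m k κ e w s R b ηX ηX1 ηY ηY1 aX aY →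
    IsFiniteMeasure (mWin R (WF (p := p) (n := n) ηX ηX1 ηY ηY1 aX aY)) →
    RigS (mWin R (WF (p := p) (n := n) ηX ηX1 ηY ηY1 aX aY)) (fun x => sym x.1) (fun x => sym x.2) R
      (fun t => s * NUMF.P t) (C₄ * Real.log m ^ 8) →
    ∀ cc : Fin (fN h X0 X) → ℝ, ∃ l : (Fin (fN h X0 X) → ℝ) → ℝ, (∀ g, l (-g) = - l g) ∧
      H1F c h η X0 X e' l cc (Bx R) (WF (p := p) (n := n) ηX ηX1 ηY ηY1 aX aY) := by
  obtain ⟨m1, e', hm1, he', HF⟩ := h1F_full hP hh hK (k + 9) hκ he he1 hη hw hw1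
  obtain ⟨m2, hm2⟩ := (Real.tendsto_log_atTop.comp tendsto_natCast_atTop_atTop).eventually
    (eventually_ge_atTop (2 + C₄)) |>.exists_forall_of_atTop
  refine ⟨max 3 (max m1 m2), e', le_max_left _ _, he', ?_⟩
  intro m hm p n X0 X R s b ηX ηX1 ηY ηY1 aX aY hX0 hX D hfin hrig cc
  have hmm2 := hm2 m (le_trans (le_trans (le_max_right _ _) (le_max_right _ _)) hm)
  simp only [Function.comp] at hmm2
  obtain ⟨L, hL⟩ : ∃ L, L = Real.log m := ⟨_, rfl⟩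
  rw [← hL] at hmm2
  have hL1 : 1 ≤ L := by linarith
  have hLk : L ^ k ≤ L ^ (k + 9) := pow_le_pow_right₀ hL1 (by omega)
  have hL3 : 2 * L ^ 2 ≤ L ^ (k + 9) := by
    calc 2 * L ^ 2 ≤ L * L ^ 2 := by gcongr; linarith
      _ = L ^ 3 := by ring
      _ ≤ L ^ (k + 9) := pow_le_pow_right₀ hL1 (by omega)
  have hL9 : C₄ * L ^ 8 ≤ L ^ (k + 9) := by
    calc C₄ * L ^ 8 ≤ L * L ^ 8 := by gcongr; linarith
      _ = L ^ 9 := by ring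
      _ ≤ L ^ (k + 9) := pow_le_pow_right₀ hL1 (by omega)
  obtain ⟨⟨s1, s2, R1, R2, b1, b2, ⟨εX, MX, eX, cX, cX1, cX2⟩, ⟨εY, MY, eY, cY, cY1, cY2⟩, dX, dY, aX0,
    aY0, aXm, aYm, ⟨AX, ArX, FX, ErX, hAX0, hAX, hArX, hFX, hEX, haX⟩,
    ⟨AY, ArY, FY, ErY, hAY0, hAY, hArY, hFY, hEY, haY⟩⟩, odX, odY, aXe, aYe⟩ := D
  rw [← hL] at cX2 cY2 hAX hArX hAY hArY R2
  have cX' := cur_mono cX (le_max_left εX εY) (le_max_left MX MY)
  have cY' := cur_mono cY (le_max_right εX εY) (le_max_right MX MY)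
  have hL' : Real.log m = L := hL.symm
  have hXf : X = Xf e m := hX
  subst hXf
  have hmF := mF_eq (p := p) (n := n) (R := R) (oddD_iD odX dX) (oddD_iD odY dY) aX aY
  refine HF m (le_trans (le_trans (le_max_left _ _) (le_max_right _ _)) hm) (p := p) (n := n) X0 R s
    (max εX εY) (max MX MY) b (max AX AY) (max ArX ArY) (C₄ * Real.log m ^ 8) eX eY ηX ηX1 ηY ηY1
    ErX ErY aX aY FX FY hX0 s1 s2 R1 ?_ b1 b2 cX' cY' dX dY odX odY (max_le cX1 cY1) ?_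
    (le_max_of_le_left hAX0) ?_
    ?_ (fun z h1 h2 => ⟨(hFX z h1 h2).1, (hFX z h1 h2).2.trans (le_max_left _ _)⟩)
    (fun z h1 h2 => ⟨(hFY z h1 h2).1, (hFY z h1 h2).2.trans (le_max_right _ _)⟩)
    (hEX.mono (le_max_left _ _)) (hEY.mono (le_max_right _ _)) aX0 aY0 aXm aYm aXe aYe haX haY ?_ ?_ ?_
    ?_ cc
  · rw [hL']
    exact R2.trans hL3
  · rw [hL']
    exact (max_le cX2 cY2).trans hLk
  · rw [hL']
    exact (max_le hAX hAY).trans hLk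
  · rw [hL']
    exact (max_le hArX hArY).trans hLk
  · positivity
  · rw [hL']
    exact hL9
  · rw [hmF]
    exact hfin
  · rw [hmF]
    exact hrig

end

end TCR
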