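import Pool.Agent.NUF.ULin
import Pool.Agent.NUF.UPlan
import Pool.Agent.NUF.UHex

/-!
# Type C, link: the linear equation `W - W T = U` for functionals

`A` = a class of non-empty states, `1 - T` injective on the functions on `A`.  For every functional `U` supported on
`A` there is exactly one functional `W` supported on `A` with `W - W T = U`; it is continuous in parameters.
-/

set_option autoImplicit false

namespace Pool.Agent.TC

open _root_.Pool.Agent.EXL _root_.Pool.Agent.EXL.Pat _root_.Pool.Agent.EXL.HS Pool.Agent.NUF Filter Topology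

section lin

variable {α K : Type*} [Field K] {A : Pat α → Prop}

/-- the functional with the values `v`. -/
noncomputable def wfun [Fintype (NE A)] (v : NE A → K) : (Pat α → K) →ₗ[K] K where
  toFun F := ∑ p : NE A, v p * F p.1
  map_add' F G := by
    simp only [Pi.add_apply, mul_add, Finset.sum_add_distrib]
  map_smul' a F := by
    simp only [Pi.smul_apply, smul_eq_mul, RingHom.id_apply, Finset.mul_sum]
    exact Finset.sum_congr rfl fun p _ => by ring

theorem wfun_apply [Fintype (NE A)] (v : NE A → K) (F : Pat α → K) :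
    wfun v F = ∑ p : NE A, v p * F p.1 := rfl

theorem wfun_sup [Fintype (NE A)] (v : NE A → K) : SupF A (wfun v) := by
  intro F hF
  rw [wfun_apply]
  exact Finset.sum_eq_zero fun p _ => by rw [hF _ p.2.2, mul_zero]

theorem wfun_ind [Fintype (NE A)] (v : NE A → K) (q : NE A) : wfun v (HS.ind q.1) = v q := by
  classical
  rw [wfun_apply, Finset.sum_eq_single q]
  · rw [ind_self, mul_one]
  · intro p _ hp
    rw [ind_ne (fun h => hp (Subtype.ext h)), mul_zero]
  · intro h
    exact absurd (Finset.mem_univ _) h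

/-- Two functionals supported on `A` (a class of non-empty states) that agree on the indicators. -/
theorem sup_ext' [Finite α] (he : ¬ A Pat.empty) {V W : (Pat α → K) →ₗ[K] K} (hV : SupF A V) (hW : SupF A W)
    (h : ∀ q : NE A, V (HS.ind q.1) = W (HS.ind q.1)) : V = W :=
  sup_ext hV hW fun q hq => h ⟨q, fun e => he (e ▸ hq), hq⟩

/-- the value of a functional supported on `A`. -/
theorem sup_sum' [Finite α] [Fintype (NE A)] (he : ¬ A Pat.empty) {V : (Pat α → K) →ₗ[K] K} (hV : SupF A V)
    (F : Pat α → K) : V F = ∑ p : NE A, F p.1 * V (HS.ind p.1) := by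
  rw [sup_sum hV F, hV (HS.ind Pat.empty) fun p hp => ind_ne fun e => he (e ▸ hp), mul_zero, zero_add]

/-- the action of `T` on the functions on `A`. -/
theorem T_row [Finite α] [Fintype (NE A)] (he : ¬ A Pat.empty) {T : Module.End K (Pat α → K)}
    (hP : Pres A A (fun F => T F)) (F : Pat α → K) (p : NE A) :
    T F p.1 = ∑ q : NE A, T (HS.ind q.1) p.1 * F q.1 := by
  have h1 : T F p.1 = T (fun r => ∑ q : NE A, F q.1 * HS.ind q.1 r) p.1 := by
    refine hP _ _ (fun r hr => ?_) p.1 p.2.2
    rw [Finset.sum_eq_single (⟨r, fun e => he (e ▸ hr), hr⟩ : NE A)]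
    · rw [ind_self, mul_one]
    · intro q _ hq
      rw [ind_ne (fun h => hq (Subtype.ext h.symm)), mul_zero]
    · intro h
      exact absurd (Finset.mem_univ _) h
  rw [h1]
  have h2 := (lin_end T).sum Finset.univ (fun q : NE A => F q.1) (fun q : NE A => (HS.ind q.1 : Pat α → K))
  rw [congrFun h2 p.1]
  exact Finset.sum_congr rfl fun q _ => mul_comm _ _

theorem wfun_solve [Finite α] [Fintype (NE A)] [DecidableEq (NE A)] (he : ¬ A Pat.empty)
    {T : Module.End K (Pat α → K)} (hP : Pres A A (fun F => T F))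
    (hdet : (nmat A (fun F => T F)).det ≠ 0) {U : (Pat α → K) →ₗ[K] K} (hU : SupF A U) :
    wfun (Matrix.vecMul (fun q : NE A => U (HS.ind q.1)) (nmat A (fun F => T F))⁻¹) -
      wfun (Matrix.vecMul (fun q : NE A => U (HS.ind q.1)) (nmat A (fun F => T F))⁻¹) ∘ₗ T = U := by
  set κ : NE A → K := fun q => U (HS.ind q.1) with hκ
  set v : NE A → K := Matrix.vecMul κ (nmat A (fun F => T F))⁻¹ with hv
  have hvM : Matrix.vecMul v (nmat A (fun F => T F)) = κ := by
    rw [hv, Matrix.vecMul_vecMul, Matrix.nonsing_inv_mul _ (Ne.isUnit hdet), Matrix.vecMul_one]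
  refine sup_ext' he ((wfun_sup v).sub ((wfun_sup v).comp hP)) hU fun q => ?_
  have h1 := congrFun hvM q
  rw [LinearMap.sub_apply, LinearMap.comp_apply, wfun_ind, wfun_apply]
  have h2 : Matrix.vecMul v (nmat A (fun F => T F)) q = v q - ∑ p : NE A, v p * T (HS.ind q.1) p.1 := by
    classical
    unfold Matrix.vecMul dotProduct nmat
    simp only [mul_sub, Finset.sum_sub_distrib]
    congr 1
    rw [Finset.sum_eq_single q]
    · rw [if_pos rfl, mul_one]
    · intro p _ hp
      rw [if_neg hp, mul_zero]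
    · intro h
      exact absurd (Finset.mem_univ _) h
  rw [← h2, h1]

/-- **Existence.** -/
theorem sol_exists [Finite α] (he : ¬ A Pat.empty) {T : Module.End K (Pat α → K)}
    (hP : Pres A A (fun F => T F)) (inj : InjN A (fun F => T F)) {U : (Pat α → K) →ₗ[K] K} (hU : SupF A U) :
    ∃ W : (Pat α → K) →ₗ[K] K, SupF A W ∧ W - W ∘ₗ T = U := by
  classical
  have : Fintype (NE A) := Fintype.ofFinite _
  exact ⟨_, wfun_sup _, wfun_solve he hP ((nmat_det (lin_end _)).2 inj) hU⟩

/-- **Uniqueness.** -/
theorem sol_unique [Finite α] (he : ¬ A Pat.empty) {T : Module.End K (Pat α → K)}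
    (inj : InjN A (fun F => T F)) {W W' : (Pat α → K) →ₗ[K] K} (hW : SupF A W) (hW' : SupF A W')
    (h : W - W ∘ₗ T = W' - W' ∘ₗ T) : W = W' := by
  rw [← sub_eq_zero]
  refine fix_unique inj (hW.sub hW') ?_ ?_
  · rw [LinearMap.sub_comp]
    have h1 : W - W' - (W ∘ₗ T - W' ∘ₗ T) = 0 := by
      have h2 : W - W' - (W ∘ₗ T - W' ∘ₗ T) = (W - W ∘ₗ T) - (W' - W' ∘ₗ T) := by abel
      rw [h2, h, sub_self]
    exact (sub_eq_zero.1 h1).symm
  · exact (hW.sub hW') (HS.ind Pat.empty) fun p hp => ind_ne fun e => he (e ▸ hp)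

end lin

section near

variable {Z : Type*} [TopologicalSpace Z] {z0 : Z} {α K : Type*} [Field K] [TopologicalSpace K]
  [IsTopologicalRing K] [ContinuousInv₀ K] [T1Space K] {A : Pat α → Prop}

/-- **Existence and continuity near a regular point.** -/
theorem sol_near [Finite α] (he : ¬ A Pat.empty) {T : Z → Module.End K (Pat α → K)}
    {U : Z → (Pat α → K) →ₗ[K] K} (hP : ∀ z, Pres A A (fun F => T z F)) (hU : ∀ z, SupF A (U z))
    (hcont : ∀ (F : Pat α → K) (p : Pat α), ContinuousAt (fun z => T z F p) z0)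
    (hUc : ∀ F : Pat α → K, ContinuousAt (fun z => U z F) z0)
    (inj : InjN A (fun F => T z0 F)) :
    ∃ W : Z → (Pat α → K) →ₗ[K] K, (∀ z, SupF A (W z)) ∧ (∀ F, ContinuousAt (fun z => W z F) z0) ∧
      ∀ᶠ z in 𝓝 z0, W z - W z ∘ₗ T z = U z ∧ InjN A (fun F => T z F) := by
  classical
  have : Fintype (NE A) := Fintype.ofFinite _
  have hM : ContinuousAt (fun z => nmat A (fun F => T z F)) z0 := by
    refine continuousAt_pi.2 fun p => continuousAt_pi.2 fun q => ?_
    unfold nmat
    exact continuousAt_const.sub (hcont _ _)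
  have hdet : ContinuousAt (fun z => (nmat A (fun F => T z F)).det) z0 := by
    exact (Continuous.matrix_det continuous_id).continuousAt.comp hM
  have hd0 : (nmat A (fun F => T z0 F)).det ≠ 0 := (nmat_det (lin_end _)).2 inj
  have hne : ∀ᶠ z in 𝓝 z0, (nmat A (fun F => T z F)).det ≠ 0 := hdet.eventually_ne hd0
  have hinv : ContinuousAt (fun z => (nmat A (fun F => T z F))⁻¹) z0 := by
    have e : (fun z => (nmat A (fun F => T z F))⁻¹) =
        fun z => (nmat A (fun F => T z F)).det⁻¹ • (nmat A (fun F => T z F)).adjugate := by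
      funext z
      rw [Matrix.inv_def, Ring.inverse_eq_inv']
    rw [e]
    exact (hdet.inv₀ hd0).smul ((Continuous.matrix_adjugate continuous_id).continuousAt.comp hM)
  refine ⟨fun z => wfun (Matrix.vecMul (fun q : NE A => U z (HS.ind q.1)) (nmat A (fun F => T z F))⁻¹),
    fun z => wfun_sup _, fun F => ?_, ?_⟩
  · simp only [wfun_apply]
    refine tendsto_finsetSum _ fun p _ => ?_
    refine Tendsto.mul ?_ tendsto_const_nhds
    unfold Matrix.vecMul dotProduct
    refine tendsto_finsetSum _ fun q _ => ?_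
    exact (hUc _).mul ((continuousAt_pi.1 (continuousAt_pi.1 hinv q)) p)
  · filter_upwards [hne] with z hz
    exact ⟨wfun_solve he (hP z) hz (hU z), (nmat_det (lin_end _)).1 hz⟩

end near

end Pool.Agent.TC
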