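import Pool.Agent.TC.LineW
import Pool.Agent.TC.DegS
import Pool.Agent.TC.Node

/-!
# The one leg function as a function of one ended line, at any place (helper70)
-/

set_option autoImplicit false

namespace Pool.Agent.TC

open _root_.Pool.Agent.EXL _root_.Pool.Agent.EXL.Pat
open _root_.Pool.Agent.EXL.Fm (lam)
open _root_.Pool.Agent.NUF _root_.Pool.Agent.NUU _root_.Pool.Agent.NUT2 _root_.Pool.Agent.NUTV
open _root_.Pool.Agent.NUF.Fr (TP ee)
open Complex (I exp sin cos)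

section WT

variable {ι : Type*} [DecidableEq ι] [Finite ι] {ω : ℂ} {z : ι → ℂ} {L K : List (ι × ι)}
  {A B A1 A2 B1 B2 : List ι} {q g m p c d : ι}

omit [DecidableEq ι] [Finite ι] in
theorem lr_mid : lr K L (A1 ++ p :: A2) = (K.map Prod.fst ++ A1) ++ p :: (A2 ++ L.map Prod.fst) := by
  unfold lr
  simp

omit [DecidableEq ι] [Finite ι] in
theorem ll_mid : ll K L (B1 ++ p :: B2) = (K.map Prod.snd ++ B1) ++ p :: (B2 ++ L.map Prod.snd) := by
  unfold ll
  simp

omit [DecidableEq ι] [Finite ι] in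
theorem lr_mid0 : lr K L (A1 ++ A2) = (K.map Prod.fst ++ A1) ++ (A2 ++ L.map Prod.fst) := by
  unfold lr
  simp

omit [DecidableEq ι] [Finite ι] in
theorem ll_mid0 : ll K L (B1 ++ B2) = (K.map Prod.snd ++ B1) ++ (B2 ++ L.map Prod.snd) := by
  unfold ll
  simp

/-- the functionals of the first half strip -/
theorem LPR (h : OkT K L (A1 ++ p :: A2) B q g m) (hs : Spr K L (A1 ++ p :: A2) B q g c d)
    (hG : Gk z (lr K L (A1 ++ A2))) :
    LP (fun w => PS w q (lr K L (A1 ++ p :: A2))) (fun i => -z i) (lr K L (A1 ++ p :: A2)) p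
        (lr K L (A1 ++ A2)).length ∧
      LP (fun w => PH w (lr K L (A1 ++ p :: A2))) (fun i => -z i) (lr K L (A1 ++ p :: A2)) p
        (lr K L (A1 ++ A2)).length := by
  have n1 := h.ndR
  have n2 := List.nodup_cons.2 ⟨h.outR.1, n1⟩
  have c1 := hs.hR0
  have c2 := hs.hR
  have g1 : Gk (fun i => -z i) (lr K L (A1 ++ A2)) := _root_.Pool.Agent.NUTV.gk_neg hG
  rw [lr_mid] at n1 n2 c1 c2 ⊢
  rw [lr_mid0] at g1 ⊢
  rw [List.length_append]
  exact ⟨LP_PS n2 c2.1 c2.2 hs.ne g1, LP_PH n1 c1.1 c1.2 hs.ne g1⟩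

/-- the functionals of the second half strip -/
theorem LPL (h : OkT K L A (B1 ++ p :: B2) q g m) (hs : Spr K L A (B1 ++ p :: B2) q g c d)
    (hG : Gk z (ll K L (B1 ++ B2))) :
    LP (fun w => PH w (ll K L (B1 ++ p :: B2))) z (ll K L (B1 ++ p :: B2)) p
        (ll K L (B1 ++ B2)).length ∧
      LP (fun w => PS w g (ll K L (B1 ++ p :: B2))) z (ll K L (B1 ++ p :: B2)) p
        (ll K L (B1 ++ B2)).length := by
  have n1 := h.ndL
  have n2 := List.nodup_cons.2 ⟨h.outL.2.1, n1⟩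
  have c1 := hs.hL0
  have c2 := hs.hL
  rw [ll_mid] at n1 n2 c1 c2 ⊢
  rw [ll_mid0] at hG ⊢
  rw [List.length_append]
  exact ⟨LP_PH n1 c1.1 c1.2 hs.ne hG, LP_PS n2 c2.1 c2.2 hs.ne hG⟩

omit [Finite ι] in
theorem sS' (w : ι → ℂ) (b : ι) (X : List ι) : SupS (insert b {x | x ∈ X}) (PS w b X) := PS_supS _ _ _

/-- **The occupied line of the first half strip.** -/
theorem WT_lineO (h : OkT K L (A1 ++ p :: A2) B q g p) (hs : Spr K L (A1 ++ p :: A2) B q g c d)
    (hG : Gk z (lr K L (A1 ++ A2))) :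
    ∃ f, TP (2 * (lr K L (A1 ++ A2)).length + 1) f ∧
      ∀ s, Go (fun i => -Function.update z p s i) (lr K L (A1 ++ p :: A2)) →
        WT ω (Function.update z p s) K L (A1 ++ p :: A2) B q g p = f s :=
  WT_O1 PH_supS sS' h (by simp) (LPR h hs hG).1 (LPR h hs hG).2

/-- **An empty line of the first half strip.** -/
theorem WT_lineE (h : OkT K L (A1 ++ p :: A2) B q g m) (hs : Spr K L (A1 ++ p :: A2) B q g c d)
    (hG : Gk z (lr K L (A1 ++ A2))) (hpm : p ≠ m) :
    ∃ f, TP (2 * (lr K L (A1 ++ A2)).length) f ∧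
      ∀ s, Go (fun i => -Function.update z p s i) (lr K L (A1 ++ p :: A2)) →
        WT ω (Function.update z p s) K L (A1 ++ p :: A2) B q g m = f s :=
  WT_E1 PH_supS sS' h (by simp) hpm (LPR h hs hG).1 (LPR h hs hG).2

/-- **An empty line of the second half strip.** -/
theorem WT_lineL (h : OkT K L A (B1 ++ p :: B2) q g m) (hs : Spr K L A (B1 ++ p :: B2) q g c d)
    (hG : Gk z (ll K L (B1 ++ B2))) (hpm : p ≠ m) :
    ∃ f, TP (2 * (ll K L (B1 ++ B2)).length) f ∧
      ∀ s, Go (Function.update z p s) (ll K L (B1 ++ p :: B2)) →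
        WT ω (Function.update z p s) K L A (B1 ++ p :: B2) q g m = f s :=
  WT_E2 PH_supS sS' h (by simp) hpm (LPL h hs hG).1 (LPL h hs hG).2

end WT

end Pool.Agent.TC
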