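import Pool.Agent.TC.LkExp
import Pool.Agent.NUN.Front

/-!
# (LK2), first part: the columns of the network with an arc from the exit site `bb` to the foot of a column

`cX` = the column of the right part whose auxiliary line starts at the exit, `cY` = the column of the left part whose
auxiliary line ends at the exit; `tot_R`, `tot_L`: the network with the arc to a foot on the right / on the left.
-/

set_option autoImplicit false

namespace Pool.Agent.NUN

open Pool.Agent.EXL Pool.Agent.EXL.Pat Pool.Agent.EXL.Net HexObs HexObs.LP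

variable {K : Type*} [CommRing K] {N : ℕ}

/-- the exit site. -/
abbrev bb : NUF.St N := Sum.inr 1

theorem fr_bb (ka kb : ℕ → ℤ) (o : Bool) (k j : ℤ) : fr N ka kb o k j bb = lX 1 := by
  simp [fr]

theorem fr_cc (ka kb : ℕ → ℤ) (k j : ℤ) : fr N ka kb false k j cc = lN k j := by
  simp [fr]

theorem fr_cc' (ka kb : ℕ → ℤ) (k j : ℤ) : fr N ka kb true k j cc = lS k j := by
  simp [fr]

/-- a column of the right part, all states. -/
theorem rCol_gen (x : K) (k : ℤ) (kb : ℕ → ℤ) (hkb : ∀ i, i < N → kb i ≠ k) (G : Pat Lab → K)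
    (q : Pat (NUF.St N)) :
    rCol x N k G (Fr (fun _ => k + 1) kb false k (-1) q) =
      EXL.M (fun _ => hexW x) cc ((List.finRange N).map Xr)
        (emp cc (fun q => G (Fr (fun _ => k) kb false 0 0 q))) q := by
  unfold rCol
  rw [Module.End.mul_apply]
  have h0 : Fr (fun _ => k + 1) kb false k (-1) q =
      Fr (fun n => if n < 0 then k else k + 1) kb false k (((0 : ℕ) : ℤ) - 1) q := by
    simp
  rw [h0]
  have h1 := rows_right x k kb hkb (Co (lN k ((N : ℤ) - 1)) (lS k N) G) N 0 (by omega) q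
  rw [List.drop_zero, List.drop_zero] at h1
  rw [h1]
  congr 1
  funext q'
  have f1 : Fr (fun n => if n < N then k else k + 1) kb false k ((N : ℤ) - 1) q' (lS k N) =
      lS k N := by
    apply lft_of_notMem
    rintro ⟨b, hb⟩
    rcases b with ⟨i', _ | _⟩ | l
    · simp [fr] at hb
    · simp [fr] at hb
    · simp only [fr] at hb
      split_ifs at hb <;> simp at hb
  have f2 : Fr (fun n => if n < N then k else k + 1) kb false k ((N : ℤ) - 1) q'
      (lN k ((N : ℤ) - 1)) = fr N (fun n => if n < N then k else k + 1) kb false k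
        ((N : ℤ) - 1) (q' cc) := by
    have e : lN k ((N : ℤ) - 1) = fr N (fun n => if n < N then k else k + 1) kb false k
        ((N : ℤ) - 1) cc := by simp [fr]
    rw [e]
    exact lft_apply _ _ _ _
  have f3 : lN k ((N : ℤ) - 1) = fr N (fun n => if n < N then k else k + 1) kb false k
        ((N : ℤ) - 1) cc := by simp [fr]
  rw [Co_apply]
  unfold emp
  by_cases c : q' cc = cc
  · rw [if_pos c, if_pos ⟨by rw [f2, c, ← f3], f1⟩]
    congr 1
    exact Fr_move c (fun i hi => by simp [hi]) (fun _ _ => rfl)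
  · rw [if_neg c, if_neg, if_pos (Or.inr (Or.inl f1))]
    rintro ⟨h3, -⟩
    rw [f2] at h3
    exact c (fr_inj _ _ _ _ _ (h3.trans f3))

/-- the column of the right part whose auxiliary line starts at the exit. -/
noncomputable def cX (x : K) (N : ℕ) (G : Pat (NUF.St N) → K) : Pat (NUF.St N) → K :=
  cupO cc bb (EXL.M (fun _ => hexW x) cc ((List.finRange N).map Xr) (emp cc G))

/-- the column of the left part whose auxiliary line (from the top to the bottom) ends at the exit. -/
noncomputable def cY (x : K) (N : ℕ) (G : Pat (NUF.St N) → K) : Pat (NUF.St N) → K :=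
  emp cc (EXL.M (fun _ => hexW x) cc (((List.finRange N).map Xl).reverse)
    (fun q => if q cc ≠ cc ∧ q bb = bb then G (swap cc bb q) else 0))

theorem rX_eq (x : K) (k : ℤ) (kb : ℕ → ℤ) (hkb : ∀ i, i < N → kb i ≠ k) (G : Pat Lab → K)
    {q : Pat (NUF.St N)} (hq : q cc = cc) :
    (cupO (lX 1) (lN k (-1)) * rCol x N k : Op Lab K) G (Fr (fun _ => k + 1) kb false 0 0 q) =
      cX x N (fun q => G (Fr (fun _ => k) kb false 0 0 q)) q := by
  have h0 : Fr (fun _ => k + 1) kb false 0 0 q = Fr (fun _ => k + 1) kb false k (-1) q :=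
    Fr_move hq (fun _ _ => rfl) (fun _ _ => rfl)
  rw [h0, Module.End.mul_apply]
  unfold cX
  have e1 : (lX 1 : Lab) = fr N (fun _ => k + 1) kb false k (-1) bb := (fr_bb _ _ _ _ _).symm
  have e2 : (lN k (-1) : Lab) = fr N (fun _ => k + 1) kb false k (-1) cc := (fr_cc _ _ _ _).symm
  rw [cupO_apply, cupO_apply]
  have f1 : (Fr (fun _ => k + 1) kb false k (-1) q (lX 1) = lX 1) ↔ q bb = bb := by
    rw [e1]
    unfold Fr
    rw [lft_apply]
    exact (fr_inj _ _ _ _ _).eq_iff
  have f2 : (Fr (fun _ => k + 1) kb false k (-1) q (lN k (-1)) = lN k (-1)) ↔ q cc = cc := by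
    rw [e2]
    unfold Fr
    rw [lft_apply]
    exact (fr_inj _ _ _ _ _).eq_iff
  by_cases c : q cc = cc ∧ q bb = bb
  · rw [if_pos c, if_pos ⟨f1.2 c.2, f2.2 c.1⟩]
    have e3 : cup (lX 1) (lN k (-1)) (Fr (fun _ => k + 1) kb false k (-1) q) =
        Fr (fun _ => k + 1) kb false k (-1) (cup cc bb q) := by
      rw [e1, e2]
      unfold Fr
      rw [cup_lft, Net.cup_symm bb cc q]
    rw [e3]
    exact rCol_gen x k kb hkb G _
  · rw [if_neg c, if_neg fun h => c ⟨f2.1 h.2, f1.1 h.1⟩]


/-! ### commutation -/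

theorem comm_cup_Crv (x : K) {l : ℕ} {h : Pt × Pt} {p : Pt} (hp : h.1 ≠ p) :
    Commute (cupO (lX l) (hf h) : Op Lab K) (Crv x p) := by
  have e : ∀ d : Pt, (hf (p, d) : Lab) ≠ hf h := by
    intro d he
    rw [Sum.inl.injEq] at he
    exact hp (by rw [← he])
  unfold Crv
  obtain ⟨d1, d2, d3⟩ := Lb.dv_dirs p
  exact (Cr_cupO_comm (lX_ne l _ d1).symm (e _) (lX_ne l _ d2).symm (e _) (lX_ne l _ d3).symm (e _)).symm

theorem foot_ne_A (k k' i : ℤ) : (_root_.EXL.B k (-1), ((0, 1) : Pt)).1 ≠ _root_.EXL.A k' i := by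
  unfold _root_.EXL.A _root_.EXL.B
  intro e
  have e1 := congrArg Prod.fst e
  have e2 := congrArg Prod.snd e
  simp only at e1 e2
  omega

theorem foot_ne_B (k k' : ℤ) {i : ℤ} (hi : 0 ≤ i) :
    (_root_.EXL.B k (-1), ((0, 1) : Pt)).1 ≠ _root_.EXL.B k' i := by
  unfold _root_.EXL.B
  intro e
  have e1 := congrArg Prod.fst e
  have e2 := congrArg Prod.snd e
  simp only at e1 e2
  omega

theorem comm_cup_A (x : K) (k k' i : ℤ) :
    Commute (cupO (lX 1) (lN k (-1)) : Op Lab K) (Crv x (_root_.EXL.A k' i)) :=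
  comm_cup_Crv x (foot_ne_A k k' i)

theorem comm_cup_B (x : K) (k k' : ℤ) {i : ℤ} (hi : 0 ≤ i) :
    Commute (cupO (lX 1) (lN k (-1)) : Op Lab K) (Crv x (_root_.EXL.B k' i)) :=
  comm_cup_Crv x (foot_ne_B k k' hi)

theorem comm_cup_Rho (x : K) {k k' : ℤ} (hk : k ≠ k') {i : ℤ} (hi : 0 ≤ i) :
    Commute (cupO (lX 1) (lN k (-1)) : Op Lab K) (Rho x k' i) := by
  have c1 : Commute (cupO (lX 1) (lN k (-1)) : Op Lab K) (Co (lN k' (i - 1)) (lS k' i)) :=
    cupO_Co_comm (by simp) (by simp) (by simp [hk]) (by simp)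
  have c2 : Commute (cupO (lX 1) (lN k (-1)) : Op Lab K) (Co (lW (k' + 1) i) (lE k' i)) :=
    cupO_Co_comm (by simp) (by simp) (by simp) (by simp)
  have c3 : Commute (cupO (lX 1) (lN k (-1)) : Op Lab K) (Co (lM k' i) (rM k' i)) :=
    cupO_Co_comm (by simp) (by simp) (by simp) (by simp)
  unfold Rho
  exact ((comm_cup_A x k k' i).mul_right (comm_cup_B x k k' hi)).mul_right
    ((c1.mul_right c2).mul_right c3)

theorem comm_cup_lRho (x : K) (k k' : ℤ) {i : ℤ} (hi : 0 ≤ i) :
    Commute (cupO (lX 1) (lN k (-1)) : Op Lab K) (lRho x k' i) := by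
  have c1 : Commute (cupO (lX 1) (lN k (-1)) : Op Lab K) (Co (lS k' (i + 1)) (lN k' i)) :=
    cupO_Co_comm (by simp) (by simp) (by simp) (by
      rw [Ne, lN_inj]
      rintro ⟨-, h⟩
      omega)
  have c2 : Commute (cupO (lX 1) (lN k (-1)) : Op Lab K) (Co (lE (k' - 1) i) (lW k' i)) :=
    cupO_Co_comm (by simp) (by simp) (by simp) (by simp)
  have c3 : Commute (cupO (lX 1) (lN k (-1)) : Op Lab K) (Co (rM k' i) (lM k' i)) :=
    cupO_Co_comm (by simp) (by simp) (by simp) (by simp)
  unfold lRho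
  exact ((comm_cup_B x k k' hi).mul_right (comm_cup_A x k k' i)).mul_right
    ((c1.mul_right c2).mul_right c3)

theorem comm_cup_rCol (x : K) {k k' : ℤ} (hk : k ≠ k') :
    Commute (cupO (lX 1) (lN k (-1)) : Op Lab K) (rCol x N k') := by
  unfold rCol
  refine Commute.mul_right (Commute.list_prod_right _ _ ?_) ?_
  · intro y hy
    obtain ⟨i, -, rfl⟩ := List.mem_map.1 hy
    exact comm_cup_Rho x hk (by omega)
  · exact cupO_Co_comm (by simp) (by simp) (by simp [hk]) (by simp)

theorem comm_cup_lCol (x : K) {k k' : ℤ} (hk : k ≠ k') :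
    Commute (cupO (lX 1) (lN k (-1)) : Op Lab K) (lCol x N k') := by
  unfold lCol
  refine Commute.mul_right (Commute.list_prod_right _ _ ?_) ?_
  · intro y hy
    obtain ⟨i, -, rfl⟩ := List.mem_map.1 hy
    exact comm_cup_lRho x k k' (by omega)
  · exact cupO_Co_comm (by simp) (by simp) (by simp) (by simp [hk])

/-- the foot of the left column. -/
theorem cut_foot {α β : Type*} [DecidableEq α] [DecidableEq β] {κ : β → α} (hκ : Function.Injective κ) {n : α}
    (hn : ¬ ∃ b, κ b = n) {c b : β} (hcb : c ≠ b) {q : Pat β} (hc : q c ≠ c) (hb : q b = b) :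
    cut (κ c) n (cup (κ b) n (lft κ hκ q)) = lft κ hκ (swap c b q) := by
  have hn' : ∀ b, κ b ≠ n := fun b e => hn ⟨b, e⟩
  have e1 : lft κ hκ q n = n := lft_of_notMem _ _ _ hn
  have e2 : lft κ hκ q (κ b) = κ b := by rw [lft_apply, hb]
  have s1 : ∀ y, cup (κ b) n (lft κ hκ q) y = if y = κ b then n else if y = n then κ b else lft κ hκ q y :=
    pcup_apply e2 e1
  have i1 : (κ c ≠ κ b) := fun e => hcb (hκ e)
  have t1 : cup (κ b) n (lft κ hκ q) (κ c) = κ (q c) := by
    rw [s1, if_neg i1, if_neg (hn' c), lft_apply]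
  have t2 : cup (κ b) n (lft κ hκ q) n = κ b := by
    rw [s1, if_neg (hn' b).symm, if_pos rfl]
  have hcn : κ c ≠ n := hn' c
  have u1 : cup (κ b) n (lft κ hκ q) (κ c) ≠ κ c := by
    rw [t1]
    exact fun e => hc (hκ e)
  have u2 : cup (κ b) n (lft κ hκ q) n ≠ n := by
    rw [t2]
    exact hn' b
  have u3 : cup (κ b) n (lft κ hκ q) (κ c) ≠ n := by
    rw [t1]
    exact hn' _
  have qcb : q c ≠ b := by
    intro e
    have h1 : q (q c) = c := q.inv c
    rw [e, hb] at h1
    exact hcb h1.symm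
  have hqq : q (q c) = c := q.inv c
  ext y
  rw [pcut_apply hcn u1 u2 u3, t1, t2]
  by_cases hy : ∃ d, κ d = y
  · obtain ⟨d, rfl⟩ := hy
    rw [lft_apply, pswap_apply, s1, if_neg (hn' d)]
    simp only [hκ.eq_iff, lft_apply, if_neg (hn' d)]
    by_cases d1 : d = c
    · subst d1
      rw [if_pos rfl, Equiv.swap_apply_left, hb, Equiv.swap_apply_right]
    · rw [if_neg d1]
      by_cases d2 : d = q c
      · subst d2
        rw [if_pos rfl, Equiv.swap_apply_of_ne_of_ne d1 qcb, hqq, Equiv.swap_apply_left]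
      · rw [if_neg d2]
        by_cases d3 : d = b
        · subst d3
          rw [if_pos rfl, Equiv.swap_apply_right, Equiv.swap_apply_of_ne_of_ne hc qcb]
        · rw [if_neg d3, if_neg d3, Equiv.swap_apply_of_ne_of_ne d1 d3]
          have h5 : q d ≠ c := by
            intro e
            apply d2
            rw [← e]
            exact (q.inv d).symm
          have h6 : q d ≠ b := by
            intro e
            have h7 : q (q d) = d := q.inv d
            rw [e, hb] at h7
            exact d3 h7.symm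
          rw [Equiv.swap_apply_of_ne_of_ne h5 h6]
  · rw [lft_of_notMem _ _ _ hy]
    have hy' : ∀ d, y ≠ κ d := fun d e => hy ⟨d, e.symm⟩
    rw [if_neg (hy' c)]
    by_cases y1 : y = n
    · rw [if_pos y1, y1]
    · rw [if_neg y1, if_neg (hy' _), if_neg (hy' b), s1, if_neg (hy' b), if_neg y1, lft_of_notMem _ _ _ hy]

theorem lX_eq (x : K) (k : ℤ) (ka : ℕ → ℤ) (hka : ∀ i, i < N → ka i ≠ k) (G : Pat Lab → K)
    {q : Pat (NUF.St N)} (hq : q cc = cc) :
    (cupO (lX 1) (lN k (-1)) * lCol x N k : Op Lab K) G (Fr ka (fun _ => k - 1) false 0 0 q) =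
      cY x N (fun q => G (Fr ka (fun _ => k) false 0 0 q)) q := by
  have hc : Commute (cupO (lX 1) (lN k (-1)) : Op Lab K)
      ((List.range N).reverse.map (fun i : ℕ => lRho x k (i : ℤ))).prod := by
    refine Commute.list_prod_right _ _ ?_
    intro y hy
    obtain ⟨i, -, rfl⟩ := List.mem_map.1 hy
    exact comm_cup_lRho x k k (by omega)
  unfold lCol
  rw [← mul_assoc, hc.eq, mul_assoc, Module.End.mul_apply]
  have h0 : Fr ka (fun _ => k - 1) false 0 0 q =
      Fr ka (fun n => if n < N then k - 1 else k) true k (N : ℤ) q :=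
    Fr_move hq (fun _ _ => rfl) (fun i hi => by simp [hi])
  rw [h0]
  have h1 := rows_left x k ka hka ((cupO (lX 1) (lN k (-1)) * Co (lS k 0) (lN k (-1)) : Op Lab K) G) N le_rfl q
  have h3 : (List.finRange N).take N = List.finRange N := by
    apply List.take_of_length_le
    rw [List.length_finRange]
  rw [h3] at h1
  rw [h1]
  unfold cY
  have h2 : ∀ H : Pat (NUF.St N) → K, emp cc H q = H q := by
    intro H
    unfold emp
    rw [if_pos hq]
  rw [h2]
  congr 1
  funext q'
  have hn : ¬ ∃ b, fr N ka (fun n => if n < 0 then k - 1 else k) true k 0 b = lN k (-1) := by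
    rintro ⟨b, hb⟩
    rcases b with ⟨i', _ | _⟩ | l
    · simp [fr] at hb
    · simp [fr] at hb
    · simp only [fr] at hb
      split_ifs at hb <;> simp at hb
  have f1 : Fr ka (fun n => if n < 0 then k - 1 else k) true k 0 q' (lN k (-1)) = lN k (-1) :=
    lft_of_notMem _ _ _ hn
  have e1 : (lX 1 : Lab) = fr N ka (fun n => if n < 0 then k - 1 else k) true k 0 bb := (fr_bb _ _ _ _ _).symm
  have e2 : (lS k 0 : Lab) = fr N ka (fun n => if n < 0 then k - 1 else k) true k 0 cc := (fr_cc' _ _ _ _).symm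
  have f2 : (Fr ka (fun n => if n < 0 then k - 1 else k) true k 0 q' (lX 1) = lX 1) ↔ q' bb = bb := by
    rw [e1]
    unfold Fr
    rw [lft_apply]
    exact (fr_inj _ _ _ _ _).eq_iff
  rw [Module.End.mul_apply, cupO_apply]
  by_cases c1 : q' bb = bb
  swap
  · rw [if_neg fun h => c1 (f2.1 h.1), if_neg fun h => c1 h.2]
  rw [if_pos ⟨f2.2 c1, f1⟩]
  set s := Fr ka (fun n => if n < 0 then k - 1 else k) true k 0 q' with hs
  have s1 : ∀ y, cup (lX 1) (lN k (-1)) s y = if y = lX 1 then lN k (-1) else if y = lN k (-1) then lX 1 else s y :=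
    pcup_apply (f2.2 c1) f1
  have t2 : cup (lX 1) (lN k (-1)) s (lN k (-1)) = lX 1 := by
    rw [s1, if_neg (by simp), if_pos rfl]
  have t1 : cup (lX 1) (lN k (-1)) s (lS k 0) = s (lS k 0) := by
    rw [s1, if_neg (by simp), if_neg (by simp)]
  have t3 : s (lS k 0) = fr N ka (fun n => if n < 0 then k - 1 else k) true k 0 (q' cc) := by
    rw [hs, e2]
    exact lft_apply _ _ _ _
  rw [Co_apply, if_neg (fun h => by
    have h2 := h.2
    rw [t2] at h2
    simp at h2)]
  by_cases c2 : q' cc = cc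
  · have h6 : cup (lX 1) (lN k (-1)) s (lS k 0) = lS k 0 := by rw [t1, t3, c2, ← e2]
    rw [if_pos (Or.inl h6), if_neg (show ¬ (q' cc ≠ cc ∧ q' bb = bb) from fun h => h.1 c2)]
  · rw [if_pos (show q' cc ≠ cc ∧ q' bb = bb from ⟨c2, c1⟩), if_neg]
    · have h5 : cut (lS k 0) (lN k (-1)) (cup (lX 1) (lN k (-1)) s) =
          Fr ka (fun n => if n < 0 then k - 1 else k) true k 0 (swap cc bb q') := by
        rw [e1, e2, hs]
        exact cut_foot _ hn (by simp) c2 c1
      rw [h5]
      congr 1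
      refine Fr_move ?_ (fun _ _ => rfl) (fun i hi => by simp)
      rw [pswap_apply, Equiv.swap_apply_left, c1, Equiv.swap_apply_right]
    · rintro (h | h | h)
      · rw [t1, t3, e2] at h
        exact c2 (fr_inj _ _ _ _ _ h)
      · rw [t2] at h
        simp at h
      · rw [t1, t3] at h
        exact hn ⟨_, h⟩

/-! ### all columns -/

theorem cX_congr (x : K) {F F' : Pat (NUF.St N) → K} (h : ∀ q : Pat (NUF.St N), q cc = cc → F q = F' q) :
    cX x N F = cX x N F' := by
  unfold cX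
  rw [emp_congr h]

theorem cY_congr (x : K) {F F' : Pat (NUF.St N) → K} (h : ∀ q : Pat (NUF.St N), q cc = cc → F q = F' q) :
    cY x N F = cY x N F' := by
  unfold cY
  congr 2
  funext q
  split_ifs with c
  · apply h
    rw [pswap_apply, Equiv.swap_apply_left, c.2, Equiv.swap_apply_right]
  · rfl

theorem rTot_X (x : K) (j n : ℕ) (kb : ℕ → ℤ) (hkb : ∀ i, kb i < 0) (G : Pat Lab → K) :
    ∀ q : Pat (NUF.St N), q cc = cc →
      (cupO (lX 1) (lN j (-1)) * rTot x N (j + 1 + n) : Op Lab K) G (Fr (fun _ => ((j + 1 + n : ℕ) : ℤ)) kb false 0 0 q) =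
      (NUF.colF (fun _ => hexW x) cc ((List.finRange N).map Xr))^[n]
        (cX x N ((NUF.colF (fun _ => hexW x) cc ((List.finRange N).map Xr))^[j]
          (fun q => G (Fr (fun _ => 0) kb false 0 0 q)))) q := by
  induction n with
  | zero =>
    intro q hq
    have e2 : rTot x N (j + 1 + 0) = rCol x N j * rTot x N j := rfl
    have e : (fun _ : ℕ => ((j + 1 + 0 : ℕ) : ℤ)) = fun _ => (j : ℤ) + 1 := by
      funext _
      push_cast
      ring
    rw [e2, e, ← mul_assoc, Module.End.mul_apply, rX_eq x (j : ℤ) kb (fun i _ => by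
      have := hkb i
      omega) _ hq, Function.iterate_zero_apply]
    exact congrFun (cX_congr x (rTot_eq x j kb hkb G)) q
  | succ n ih =>
    intro q hq
    have e2 : rTot x N (j + 1 + (n + 1)) = rCol x N ((j + 1 + n : ℕ) : ℤ) * rTot x N (j + 1 + n) := rfl
    have e : (fun _ : ℕ => ((j + 1 + (n + 1) : ℕ) : ℤ)) = fun _ => ((j + 1 + n : ℕ) : ℤ) + 1 := by
      funext _
      push_cast
      ring
    have hc : Commute (cupO (lX 1) (lN j (-1)) : Op Lab K) (rCol x N ((j + 1 + n : ℕ) : ℤ)) :=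
      comm_cup_rCol x (by omega)
    rw [e2, e, ← mul_assoc, hc.eq, mul_assoc, Module.End.mul_apply, rCol_eq x _ kb (fun i _ => by
      have := hkb i
      omega) _ hq, Function.iterate_succ_apply']
    exact congrFun (colF_congr ih) q

theorem lTot_X (x : K) (j n : ℕ) (G : Pat Lab → K) :
    ∀ q : Pat (NUF.St N), q cc = cc →
      (cupO (lX 1) (lN (-(j : ℤ) - 1) (-1)) * lTot x N (j + 1 + n) : Op Lab K) G
        (Fr (fun _ => 0) (fun _ => -((j + 1 + n : ℕ) : ℤ) - 1) false 0 0 q) =
      (NUF.colF (fun _ => hexW x) cc (((List.finRange N).map Xl).reverse))^[n]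
        (cY x N ((NUF.colF (fun _ => hexW x) cc (((List.finRange N).map Xl).reverse))^[j]
          (fun q => G (Fr (fun _ => 0) (fun _ => -1) false 0 0 q)))) q := by
  induction n with
  | zero =>
    intro q hq
    have e2 : lTot x N (j + 1 + 0) = lCol x N (-(j : ℤ) - 1) * lTot x N j := rfl
    have e : (fun _ : ℕ => -((j + 1 + 0 : ℕ) : ℤ) - 1) = fun _ => (-(j : ℤ) - 1) - 1 := by
      funext _
      push_cast
      ring
    rw [e2, e, ← mul_assoc, Module.End.mul_apply, lX_eq x (-(j : ℤ) - 1) (fun _ => 0) (fun i _ => by omega) _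
      hq, Function.iterate_zero_apply]
    exact congrFun (cY_congr x (lTot_eq x j G)) q
  | succ n ih =>
    intro q hq
    have e2 : lTot x N (j + 1 + (n + 1)) = lCol x N (-((j + 1 + n : ℕ) : ℤ) - 1) * lTot x N (j + 1 + n) := rfl
    have e : (fun _ : ℕ => -((j + 1 + (n + 1) : ℕ) : ℤ) - 1) = fun _ => (-((j + 1 + n : ℕ) : ℤ) - 1) - 1 := by
      funext _
      push_cast
      ring
    have hc : Commute (cupO (lX 1) (lN (-(j : ℤ) - 1) (-1)) : Op Lab K) (lCol x N (-((j + 1 + n : ℕ) : ℤ) - 1)) :=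
      comm_cup_lCol x (by omega)
    rw [e2, e, ← mul_assoc, hc.eq, mul_assoc, Module.End.mul_apply,
      lCol_eq x (-((j + 1 + n : ℕ) : ℤ) - 1) (fun _ => 0) (fun i _ => by omega) _ hq, Function.iterate_succ_apply']
    exact congrFun (colF_congr ih) q

theorem comm_cup_rTot (x : K) {k : ℤ} (hk : k < 0) (m : ℕ) :
    Commute (cupO (lX 1) (lN k (-1)) : Op Lab K) (rTot x N m) := by
  induction m with
  | zero => exact Commute.one_right _
  | succ m ih =>
    show Commute _ (rCol x N m * rTot x N m)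
    exact (comm_cup_rCol x (by omega)).mul_right ih

/-- the arc to a foot on the right. -/
theorem tot_R (x : K) (j n : ℕ) (G : Pat Lab → K) :
    (cupO (lX 1) (lN j (-1)) * (rTot x N (j + 1 + n) * lTot x N (j + 1 + n)) : Op Lab K) G Pat.empty =
      (NUF.colF (fun _ => hexW x) cc ((List.finRange N).map Xr))^[n]
        (cX x N ((NUF.colF (fun _ => hexW x) cc ((List.finRange N).map Xr))^[j]
          ((NUF.colF (fun _ => hexW x) cc (((List.finRange N).map Xl).reverse))^[j + 1 + n]
            (fun q => G (Fr (fun _ => 0) (fun _ => -1) false 0 0 q))))) Pat.empty := by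
  have e0 : (Pat.empty : Pat (NUF.St N)) cc = cc := rfl
  rw [← mul_assoc, Module.End.mul_apply,
    ← Fr_empty (N := N) (fun _ => ((j + 1 + n : ℕ) : ℤ)) (fun _ => -((j + 1 + n : ℕ) : ℤ) - 1) false 0 0,
    rTot_X x j n (fun _ => -((j + 1 + n : ℕ) : ℤ) - 1) (fun i => by omega) _ _ e0]
  refine iter_congr (fun q _ => ?_) n _ e0
  refine congrFun (cX_congr x ?_) q
  exact iter_congr (lTot_eq x (j + 1 + n) G) j

/-- the arc to a foot on the left. -/
theorem tot_L (x : K) (j n : ℕ) (G : Pat Lab → K) :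
    (cupO (lX 1) (lN (-(j : ℤ) - 1) (-1)) * (rTot x N (j + 1 + n) * lTot x N (j + 1 + n)) : Op Lab K) G Pat.empty =
      (NUF.colF (fun _ => hexW x) cc ((List.finRange N).map Xr))^[j + 1 + n]
        ((NUF.colF (fun _ => hexW x) cc (((List.finRange N).map Xl).reverse))^[n]
          (cY x N ((NUF.colF (fun _ => hexW x) cc (((List.finRange N).map Xl).reverse))^[j]
            (fun q => G (Fr (fun _ => 0) (fun _ => -1) false 0 0 q))))) Pat.empty := by
  have e0 : (Pat.empty : Pat (NUF.St N)) cc = cc := rfl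
  have hc : Commute (cupO (lX 1) (lN (-(j : ℤ) - 1) (-1)) : Op Lab K) (rTot x N (j + 1 + n)) :=
    comm_cup_rTot x (by omega) _
  rw [← mul_assoc, hc.eq, mul_assoc, Module.End.mul_apply,
    ← Fr_empty (N := N) (fun _ => ((j + 1 + n : ℕ) : ℤ)) (fun _ => -((j + 1 + n : ℕ) : ℤ) - 1) false 0 0,
    rTot_eq x (j + 1 + n) (fun _ => -((j + 1 + n : ℕ) : ℤ) - 1) (fun i => by omega) _ _ e0]
  exact iter_congr (lTot_X x j n G) _ _ e0

end Pool.Agent.NUN
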