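import Pool.Agent.TC.LkFin0

/-!
# Type C, link: the one leg function of the honeycomb strip as the value of the family at the honeycomb point

`val_tend`: the function `O` of the family tends to `(Qh N / cQ N) ^ 2 * Mreg om N r` when all rapidities tend to
`- π / 16` (rows pairwise distinct on each side).
-/

set_option autoImplicit false

namespace Pool.Agent.TC

open _root_.Pool.Agent.EXL hiding cc
open _root_.Pool.Agent.EXL.HS Pool.Agent.NUF Pool.Agent.NUT2 Pool.Agent.NUN Filter Topology
open Complex (I exp)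

section val

variable {N r : ℕ}

/-- the sites of the exits and of the ended lines. -/
def sv (hr : r < N) : Fin 6 → NUF.St N :=
  ![Sum.inr 1, Sum.inr 2, Xr ⟨r, hr⟩, Xl ⟨r, hr⟩, Sum.inr 0, Sum.inr 3]

theorem sv_inj (hr : r < N) : Function.Injective (sv hr) := by
  intro a b h
  fin_cases a <;> fin_cases b <;> first | rfl | (exfalso; revert h; simp [sv, Xr, Xl])

theorem mem_low {t : NUF.St N × NUF.St N} (h : t ∈ Llow N r ++ Lup N r) :
    ∃ i : Fin N, (i : ℕ) ≠ r ∧ t = lk i := by
  rcases List.mem_append.1 h with h | h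
  · obtain ⟨i, hi, rfl⟩ := List.mem_map.1 h
    exact ⟨i, by have := mem_take_fin' hi; omega, rfl⟩
  · obtain ⟨i, hi, rfl⟩ := List.mem_map.1 h
    exact ⟨i, by have := mem_drop_fin' hi; omega, rfl⟩
where
  mem_take_fin' {i : Fin N} (h : i ∈ (List.finRange N).take r) : (i : ℕ) < r := by
    rw [List.mem_take_iff_getElem] at h
    obtain ⟨j, hj, rfl⟩ := h
    rw [List.getElem_finRange]
    simp only [Fin.val_cast]
    omega
  mem_drop_fin' {i : Fin N} (h : i ∈ (List.finRange N).drop (r + 1)) : r < (i : ℕ) := by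
    rw [List.mem_drop_iff_getElem] at h
    obtain ⟨j, hj, rfl⟩ := h
    rw [List.getElem_finRange]
    simp only [Fin.val_cast]
    omega

/-- the rapidities of the sites: `u` = the rows, `h` = the left end of the cut row. -/
noncomputable def zv (r : ℕ) (u : Fin N → ℂ) (h : ℂ) : NUF.St N → ℂ :=
  Sum.elim (fun x => if (x.1 : ℕ) = r ∧ x.2 = true then h else u x.1) (fun _ => 0)

theorem zv_r (u : Fin N → ℂ) (h : ℂ) (i : Fin N) : zv r u h (Xr i) = u i := by
  simp [zv, Xr]

theorem zv_l (u : Fin N → ℂ) (h : ℂ) (i : Fin N) : zv r u h (Xl i) = if (i : ℕ) = r then h else u i := by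
  simp [zv, Xl]

/-- the lines below the cut row. -/
noncomputable def Kv (r : ℕ) (u : Fin N → ℂ) : List ℂ := ((List.finRange N).take r).map fun i => exp (I * u i)

/-- the lines above the cut row. -/
noncomputable def Lv (r : ℕ) (u : Fin N → ℂ) : List ℂ := ((List.finRange N).drop (r + 1)).map fun i => exp (I * u i)

/-- the function of the network is the function of the lines. -/
theorem WT_eq_O (om : ℂ) (hr : r < N) (u : Fin N → ℂ) (h : ℂ) :
    WT om (zv r u h) (Llow N r) (Lup N r) [Xr ⟨r, hr⟩] [Xl ⟨r, hr⟩] (Sum.inr 1) (Sum.inr 2) (Xr ⟨r, hr⟩) =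
      (cQ N * cQ N) * (fam om).O (Kv r u) (Lv r u) (exp (I * u ⟨r, hr⟩)) (exp (I * h)) := by
  have hG : Gd (Llow N r ++ Lup N r) := (Gd_cons.1 (okT_net hr).gdq).2.2
  have hlen : (Llow N r).length + (Lup N r).length + 1 = N := by
    unfold Llow Lup
    rw [List.length_map, List.length_map, List.length_take, List.length_drop, List.length_finRange]
    omega
  have key := WT_eq_WC (ω := om) (z := zv r u h) (K := Llow N r) (L := Lup N r) (s := sv hr) (sv_inj hr) hG
    (fun k t ht => by
      obtain ⟨i, hi, rfl⟩ := mem_low ht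
      fin_cases k <;> simp [sv, Xr, Xl, lk] <;> (intro e; exact hi (by rw [← e])))
    (A := [2]) (B := [3]) (by decide) (m := 2) (by simp) (fun t ht => by
      obtain ⟨i, hi, rfl⟩ := mem_low ht
      show exp (I * zv r u h (Xl i)) = exp (I * zv r u h (Xr i))
      rw [zv_l, zv_r, if_neg hi]) (v := ![1, 1, exp (I * u ⟨r, hr⟩), exp (I * h), 1, 1]) (fun j hj => by
      simp only [List.cons_append, List.nil_append, List.mem_cons, List.not_mem_nil, or_false] at hj
      rcases hj with rfl | rfl
      · show exp (I * zv r u h (Xr ⟨r, hr⟩)) = _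
        rw [zv_r]
        rfl
      · show exp (I * zv r u h (Xl ⟨r, hr⟩)) = _
        rw [zv_l, if_pos rfl]
        rfl) (K' := Kv r u) (L' := Lv r u) (by
      unfold Llow Kv
      rw [List.map_map]
      refine List.map_congr_left fun i _ => ?_
      show exp (I * zv r u h (Xr i)) = _
      rw [zv_r]) (by
      unfold Lup Lv
      rw [List.map_map]
      refine List.map_congr_left fun i _ => ?_
      show exp (I * zv r u h (Xr i)) = _
      rw [zv_r])
  simp only [List.length_cons, List.length_nil, zero_add, hlen] at key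
  have hne : cQ N * cQ N ≠ 0 := mul_ne_zero (cQ_ne N) (cQ_ne N)
  rw [div_eq_iff hne] at key
  rw [mul_comm]
  exact key

/-- **The value at the honeycomb point.** -/
theorem val_tend (om : ℂ) (hr : r < N) {Z : Type*} {l : Filter Z} {u : Z → Fin N → ℂ} {h : Z → ℂ}
    (hu : ∀ i, Tendsto (fun y => u y i) l (𝓝 (-NUF.z0))) (hh : Tendsto h l (𝓝 (-NUF.z0)))
    (d1 : ∀ᶠ y in l, ∀ i j, i ≠ j → u y i ≠ u y j) (d2 : ∀ᶠ y in l, ∀ i : Fin N, (i : ℕ) ≠ r → h y ≠ u y i) :
    Tendsto (fun y => (fam om).O (Kv r (u y)) (Lv r (u y)) (exp (I * u y ⟨r, hr⟩)) (exp (I * h y))) l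
      (𝓝 (Qh N * Qh N / (cQ N * cQ N) * Mreg om N r hr)) := by
  have hO := okT_net hr
  have key := WT_tend (ω := om) (s := -1) (l := l) (ζ := fun y => zv r (u y) (h y)) hO (Or.inr rfl)
    (spare_net hr (l := 0) (by decide)) (spare_net hr (l := 3) (by decide)) (by simp)
    (fun x hx => by
      rw [lr_net] at hx
      obtain ⟨i, -, rfl⟩ := List.mem_map.1 hx
      simp only [zv_r]
      rw [neg_one_mul]
      exact hu i)
    (fun x hx => by
      rw [ll_net] at hx
      obtain ⟨i, -, rfl⟩ := List.mem_map.1 hx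
      simp only [zv_l]
      rw [neg_one_mul]
      by_cases hi : (i : ℕ) = r
      · simp only [if_pos hi]
        exact hh
      · simp only [if_neg hi]
        exact hu i)
    (by
      filter_upwards [d1] with y hy x hx x' hx' hne
      rw [lr_net] at hx hx'
      obtain ⟨i, -, rfl⟩ := List.mem_map.1 hx
      obtain ⟨j, -, rfl⟩ := List.mem_map.1 hx'
      rw [zv_r, zv_r]
      exact hy i j fun e => hne (by rw [e]))
    (by
      filter_upwards [d1, d2] with y hy hy2 x hx x' hx' hne
      rw [ll_net] at hx hx'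
      obtain ⟨i, -, rfl⟩ := List.mem_map.1 hx
      obtain ⟨j, -, rfl⟩ := List.mem_map.1 hx'
      have hij : i ≠ j := fun e => hne (by rw [e])
      rw [zv_l, zv_l]
      by_cases hi : (i : ℕ) = r
      · have hj : (j : ℕ) ≠ r := fun e => hij (Fin.ext (hi.trans e.symm))
        rw [if_pos hi, if_neg hj]
        exact hy2 j hj
      · by_cases hj : (j : ℕ) = r
        · rw [if_neg hi, if_pos hj]
          exact (hy2 i hi).symm
        · rw [if_neg hi, if_neg hj]
          exact hy i j hij)
  rw [lr_net, ll_net, List.length_map, List.length_map, List.length_finRange] at key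
  have hne : cQ N * cQ N ≠ 0 := mul_ne_zero (cQ_ne N) (cQ_ne N)
  have e : ∀ y, (fam om).O (Kv r (u y)) (Lv r (u y)) (exp (I * u y ⟨r, hr⟩)) (exp (I * h y)) =
      (cQ N * cQ N)⁻¹ * WT om (zv r (u y) (h y)) (Llow N r) (Lup N r) [Xr ⟨r, hr⟩] [Xl ⟨r, hr⟩] (Sum.inr 1)
        (Sum.inr 2) (Xr ⟨r, hr⟩) := by
    intro y
    rw [WT_eq_O om hr, ← mul_assoc, inv_mul_cancel₀ hne, one_mul]
  simp only [e]
  have k2 := key.const_mul (cQ N * cQ N)⁻¹
  refine k2.trans_eq ?_
  congr 1
  show (cQ N * cQ N)⁻¹ * (Qh N * Qh N * WH om (-1) _ _ _ _ _ _ _) = _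
  unfold Mreg
  field_simp

end val

end Pool.Agent.TC
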