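import Pool.Agent.TC.MfS
import Pool.Agent.NUI.Assem

/-!
TARGET-G2, walk side: the finite sums over the parallelograms `Om N m` converge to the one leg function of the strip, and
the growth condition of `TCAvg.window` gives `LowFam MidR (13 / 48)`.
-/

set_option autoImplicit false

namespace HexObs

namespace TC

open Complex Finset Filter

open scoped ENNReal Topology

open LP (nn lv Vt De Par PP f0 arr0 le rv)

open BAR (MF MFp MidR LowFam HLow)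

open Pool.Agent.NUN (crA clA p0 qf Wf Om)

lemma lv_A (k i : ℤ) : lv (_root_.EXL.A k i) = 3 * i + 2 := by
  unfold lv _root_.EXL.A
  ring

lemma nn_A (k i : ℤ) : nn (_root_.EXL.A k i) = 3 * k - 1 := by
  unfold nn _root_.EXL.A
  ring

lemma lv_B (k i : ℤ) : lv (_root_.EXL.B k i) = 3 * i + 3 := by
  unfold lv _root_.EXL.B
  ring

lemma nn_B (k i : ℤ) : nn (_root_.EXL.B k i) = 3 * k := by
  unfold nn _root_.EXL.B
  ring

lemma pt_ext {v w : Pt} (h1 : nn v = nn w) (h2 : lv v = lv w) : v = w := by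
  unfold nn at h1
  unfold lv at h2
  exact Prod.ext (by omega) (by omega)

lemma Vt_mod {v : Pt} (hv : Vt v) : nn v % 3 ≠ 1 ∧ lv v % 3 = nn v % 3 := by
  constructor
  · intro h
    apply hv
    rw [cl_nn]
    have h4 : ((nn v : ℤ) : ZMod 3) = ((1 : ℤ) : ZMod 3) := by
      rw [ZMod.intCast_eq_intCast_iff']
      simpa using h
    simpa using h4
  · unfold lv nn
    omega

/-- the parallelograms of NUN exhaust the strip -/
theorem exh_Om (N : ℕ) : Exh N (Om N) := by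
  constructor
  · intro M v hv
    obtain ⟨k, i, _, h2, h3⟩ := Pool.Agent.NUN.mem_Om.1 hv
    refine ⟨Pool.Agent.NUN.Om_vt hv, ?_⟩
    rcases h3 with rfl | rfl
    · rw [lv_A]
      omega
    · rw [lv_B]
      omega
  · intro v hv h1 h2
    obtain ⟨h3, h4⟩ := Vt_mod hv
    filter_upwards [Filter.eventually_ge_atTop ((nn v).natAbs + 1)] with M hM
    rw [Pool.Agent.NUN.mem_Om]
    by_cases h5 : nn v % 3 = 2
    · refine ⟨(nn v + 1) / 3, (lv v - 2) / 3, ⟨by omega, by omega⟩, ⟨by omega, by omega⟩, Or.inl (pt_ext ?_ ?_)⟩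
      · rw [nn_A]
        omega
      · rw [lv_A]
        omega
    · refine ⟨nn v / 3, (lv v - 3) / 3, ⟨by omega, by omega⟩, ⟨by omega, by omega⟩, Or.inr (pt_ext ?_ ?_)⟩
      · rw [nn_B]
        omega
      · rw [lv_B]
        omega

lemma mem_Wf {N m r : ℕ} {k : ℤ} {t : List Bool} : t ∈ Wf N m r k ↔ LP.Arr0 (Om N m) (p0 r) t ∧
    rv (le (p0 r) t) = qf k := by
  unfold Pool.Agent.NUN.Wf
  rw [Finset.mem_filter, LP.mem_arr0]

lemma Wf_MW {N m r : ℕ} {k : ℤ} {t : List Bool} (h : t ∈ Wf N m r k) : t ∈ MW N r := by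
  obtain ⟨h1, h2⟩ := mem_Wf.1 h
  have e1 : tip (p0 r).1 (1, -1) t = _root_.EXL.B k (-1) := congrArg Prod.fst h2
  have e2 : -dx (1, -1) t t.length = ((0, 1) : Pt) := congrArg Prod.snd h2
  refine ⟨fun i hi1 hi2 => ?_, h1.inj, ?_, ?_⟩
  · rw [ip_up]
    exact ((exh_Om N).sub m _ (h1.mem i hi1 hi2)).2
  · rw [← neg_neg (dx (1, -1) t t.length), e2]
    rfl
  · have e3 : vx (p0 r).1 (1, -1) t (t.length + 1) = _root_.EXL.B k (-1) := e1
    rw [e3, ip_up, lv_B]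
    norm_num

lemma MW_qf {N r : ℕ} {t : List Bool} (h : t ∈ MW N r) : ∃ k : ℤ, rv (le (p0 r) t) = qf k := by
  have h : MFp N (p0 r).1 (1, -1) t := h
  have hv : Vt (tip (p0 r).1 (1, -1) t) := vt_vx (de_p0' r) t _
  have h1 : lv (tip (p0 r).1 (1, -1) t) = 0 := by
    rw [← ip_up]
    exact h.flo
  obtain ⟨h3, h4⟩ := Vt_mod hv
  refine ⟨nn (tip (p0 r).1 (1, -1) t) / 3, ?_⟩
  refine Prod.ext ?_ ?_
  · show tip (p0 r).1 (1, -1) t = _root_.EXL.B _ (-1)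
    apply pt_ext
    · rw [nn_B]
      omega
    · rw [lv_B, h1]
      norm_num
  · show -dx (1, -1) t t.length = ((0, 1) : Pt)
    rw [h.dir, neg_neg]
    rfl

open Classical in
/-- **The finite sums converge to the one leg function of the strip.** -/
theorem tendsto_Wf (N r : ℕ) {om : ℂ} (hom : om ≠ 0) :
    Tendsto (fun m : ℕ => ∑ k ∈ Finset.Ico (-(m : ℤ)) m, ∑ t ∈ Wf N m r k, (xc : ℂ) ^ t.length * om ^ clA r t) atTop
      (𝓝 (Mfl N r om)) := by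
  obtain ⟨F, hF⟩ : ∃ F : ℕ → Finset (List Bool), F = fun m : ℕ => (Finset.Ico (-(m : ℤ)) m).biUnion (Wf N m r) := ⟨_, rfl⟩
  have e : ∀ m : ℕ, ∑ k ∈ Finset.Ico (-(m : ℤ)) m, ∑ t ∈ Wf N m r k, (xc : ℂ) ^ t.length * om ^ clA r t =
      ∑ t ∈ F m, (xc : ℂ) ^ t.length * om ^ clA r t := by
    intro m
    rw [hF]
    rw [Finset.sum_biUnion]
    intro k _ k' _ hkk
    rw [Function.onFun, Finset.disjoint_left]
    intro t h1 h2
    apply hkk
    have h3 := (mem_Wf.1 h1).2.symm.trans (mem_Wf.1 h2).2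
    have h4 : _root_.EXL.B k (-1) = _root_.EXL.B k' (-1) := congrArg Prod.fst h3
    have h5 := congrArg nn h4
    rw [nn_B, nn_B] at h5
    omega
  simp only [e]
  obtain ⟨K, hK⟩ : ∃ K : ℝ, K = (max ‖om‖ ‖om‖⁻¹) ^ (3 * N + 2) := ⟨_, rfl⟩
  have hb : ∀ c : ℤ, |c| ≤ 3 * (N : ℤ) + 2 → ‖om ^ c‖ ≤ K := by
    intro c hc
    have h0 : 0 < ‖om‖ := norm_pos_iff.2 hom
    have h1 : 1 ≤ max ‖om‖ ‖om‖⁻¹ := by
      rcases le_total 1 ‖om‖ with h | h
      · exact le_max_of_le_left h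
      · exact le_max_of_le_right ((one_le_inv₀ h0).2 h)
    rw [norm_zpow, hK]
    rcases le_total 0 c with h | h
    · obtain ⟨n, rfl⟩ := Int.eq_ofNat_of_zero_le h
      rw [zpow_natCast]
      calc ‖om‖ ^ n ≤ (max ‖om‖ ‖om‖⁻¹) ^ n := pow_le_pow_left₀ h0.le (le_max_left _ _) n
        _ ≤ _ := pow_le_pow_right₀ h1 (by rw [abs_of_nonneg h] at hc; omega)
    · obtain ⟨n, hn⟩ := Int.eq_ofNat_of_zero_le (neg_nonneg.2 h)
      have hc' : c = -(n : ℤ) := by omega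
      rw [hc', zpow_neg, zpow_natCast, ← inv_pow]
      calc ‖om‖⁻¹ ^ n ≤ (max ‖om‖ ‖om‖⁻¹) ^ n := pow_le_pow_left₀ (inv_nonneg.2 h0.le) (le_max_right _ _) n
        _ ≤ _ := pow_le_pow_right₀ h1 (by rw [hc', abs_neg, Nat.abs_cast] at hc; omega)
  unfold Mfl
  refine tendsto_sw (P := MW N r) (Q := MW N r) (gf_MW N r) (F := F) ?_ (fun t ht => ht) ?_
    (g := fun t => (xc : ℂ) ^ t.length * om ^ clA r t) (C := K) ?_
  · intro m t ht
    rw [hF] at ht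
    obtain ⟨k, _, h2⟩ := Finset.mem_biUnion.1 ht
    exact Wf_MW h2
  · intro t ht
    obtain ⟨k, hk⟩ := MW_qf ht
    filter_upwards [(exh_Om N).path (vx (p0 r).1 (1, -1) t) (vt_vx (de_p0' r) t) t.length,
      Filter.eventually_ge_atTop (k.natAbs + 1)] with m h1 h2
    refine ⟨fun _ => ht, fun _ => ?_⟩
    rw [hF]
    refine Finset.mem_biUnion.2 ⟨k, Finset.mem_Ico.2 ⟨by omega, by omega⟩, mem_Wf.2 ⟨⟨fun i hi1 hi2 => ?_, ?_⟩, hk⟩⟩
    · have h3 := (show MFp N (p0 r).1 (1, -1) t from ht).mem i hi1 hi2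
      rw [ip_up] at h3
      exact (h1 i hi2).2 h3
    · exact (show MFp N (p0 r).1 (1, -1) t from ht).inj
  · intro t ht
    rw [norm_mul, norm_pow, Complex.norm_real, Real.norm_of_nonneg xc_pos.le, mul_comm]
    exact mul_le_mul_of_nonneg_right (hb _ (clA_bound ht)) (pow_nonneg xc_pos.le _)

/-- the one leg function of the middle of the strip of 2 J + 1 rows, as a function of the spin s -/
noncomputable def Mleg (J : ℕ) (s : ℂ) : ℂ := Mfl (2 * J + 1) J (Complex.exp (2 * Real.pi * I * s))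

theorem Mleg_expSum (J : ℕ) : TCAvg.ExpSum (Mleg J) := Mfl_expSum _ _

theorem Mleg_zero (J : ℕ) : (Mleg J 0).re = (gf (MW (2 * J + 1) J)).toReal := by
  unfold Mleg
  rw [mul_zero, Complex.exp_zero, Mfl_one, Complex.ofReal_re]

/-- the value at 0 is a part of `MidR` -/
theorem Mleg_le (J : ℕ) : ENNReal.ofReal (Mleg J 0).re ≤ gf (MidR J) := by
  rw [Mleg_zero, ENNReal.ofReal_toReal (gf_MW _ _)]
  apply BAR.mf_le_midR_dn
  · rw [ip_up, lv_p0]
  · decide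

/-- **the anchor** -/
theorem Mleg_anchor (hL : Pool.Agent.NUF.NFLow) : ∀ ε > 0, ∀ᶠ J : ℕ in atTop,
    Real.exp ((1 / 12 - ε) * Real.log J) ≤
      (Complex.exp (-(Real.pi / 8) * I) * Mleg J (((3 / 8 : ℝ)) : ℂ)).re := by
  intro ε hε
  obtain ⟨c, hc, h⟩ := anchor_pow hL (half_pos hε)
  have h1 : ∀ᶠ J : ℕ in atTop, -Real.log c / (ε / 2) ≤ Real.log J := NUI.log_ge _
  filter_upwards [h1, Filter.eventually_ge_atTop 1] with J hJ hJ1
  have h2 := h J hJ1 (p0 J).1 (cl_p0 J) (lv_p0 J)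
  unfold Mleg
  rw [Mfl_spin]
  refine le_trans ?_ h2
  have hJ0 : (0 : ℝ) < J := by exact_mod_cast hJ1
  rw [Real.rpow_def_of_pos hJ0]
  nth_rewrite 1 [← Real.exp_log hc]
  rw [← Real.exp_add, Real.exp_le_exp]
  rw [div_le_iff₀ (by positivity)] at hJ
  linarith

theorem norm_omega : ‖Complex.exp (-(Real.pi / 8) * I)‖ ≤ 1 := by
  have e : (-(Real.pi / 8) * I : ℂ) = ((-(Real.pi / 8) : ℝ) : ℂ) * I := by
    push_cast
    ring
  rw [e, Complex.norm_exp_ofReal_mul_I]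

/-- **The growth condition of the window theorem gives the one leg lower bound with the exponent 13 / 48.** -/
theorem lowFam_of_growth (hL : Pool.Agent.NUF.NFLow) {κ0 K : ℝ} {κ : ℕ → ℝ} (hK : 0 ≤ K) (hκ : ∀ J, 0 < κ J)
    (hκl : ∀ ε > 0, ∀ᶠ J : ℕ in atTop, Real.exp ((κ0 - ε) * Real.log J) ≤ κ J)
    (hG : ∀ η0 > 0, ∃ η : ℝ, 0 < η ∧ η ≤ η0 ∧ ∃ (n : ℕ) (x y g : ℕ → ℝ) (k : ℝ), 0 ≤ k ∧
      2 * Real.pi ^ 2 * (1 / (3 * Real.pi ^ 2)) * k ≤ K * η ^ 2 ∧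
      (∀ i < n, 0 < x i) ∧ (∀ i < n, x i ≤ 1) ∧ (∀ i < n, 0 < y i) ∧
      (∀ i < n, y i ≤ 1) ∧ (∀ i < n, 0 ≤ g i) ∧ (∀ i < n, TCAvg.Adm (x i) (y i) (g i) k (2 * (3 / 8 + η))) ∧
      TCAvg.GrowthC (κ0 + 13 / 48) (1 / (3 * Real.pi ^ 2)) (3 / 8 + η) n x y g κ Mleg) :
    LowFam MidR (13 / 48) := by
  have hpi := Real.pi_pos
  have hc : 0 < 1 / (3 * Real.pi ^ 2) := by positivity
  have e4 : 4 * Real.pi ^ 2 * (1 / (3 * Real.pi ^ 2)) * (3 / 8) ^ 2 = 3 / 16 := by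
    field_simp
    norm_num
  have W := TCAvg.window (a := κ0 + 13 / 48) (c := 1 / (3 * Real.pi ^ 2)) (s0 := 3 / 8) (α := 1 / 12) (κ0 := κ0) (K := K)
    (κ := κ) (M := Mleg) (Complex.exp (-(Real.pi / 8) * I)) hc (by norm_num) (by norm_num) hK hκ Mleg_expSum hκl
    norm_omega (Mleg_anchor hL) (by rw [e4]; ring) hG
  refine BAR.lowFam_of (x := fun J => (Mleg J 0).re) (k0 := 0) (fun J _ => Mleg_le J) fun ε hε => ?_
  have h1 := W ε hε
  rw [e4] at h1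
  have h2 : ∀ᶠ m : ℕ in atTop, 1 * ((Real.log m) ^ 2 + 1) ≤ Real.exp (ε * Real.log m) := NUI.poly_absorb hε
  obtain ⟨m0, hm0⟩ := Filter.eventually_atTop.1 (h1.and (h2.and (Filter.eventually_ge_atTop 1)))
  refine ⟨1, m0, one_pos, fun m hm => ?_⟩
  obtain ⟨⟨J, hJ1, hJ2, hJ3⟩, h3, h4⟩ := hm0 m hm
  have hm1 : (0 : ℝ) < m := by exact_mod_cast h4
  have h5 : (NUI.NN m : ℝ) ≤ (m : ℝ) ^ ε := by
    rw [Real.rpow_def_of_pos hm1, mul_comm]
    have := NUI.NN_le m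
    linarith
  refine ⟨J, Nat.zero_le _, ?_, ?_, ?_⟩
  · have : (m : ℝ) ≤ J + NUI.NN m := by exact_mod_cast hJ1
    linarith
  · have : (J : ℝ) ≤ m + NUI.NN m := by exact_mod_cast hJ2
    linarith
  · rw [one_mul, Real.rpow_def_of_pos hm1, mul_comm]
    have e : (1 / 12 + 3 / 16 - ε : ℝ) = 13 / 48 - ε := by norm_num
    rw [e] at hJ3
    exact hJ3

end TC

end HexObs
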