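import Pool.Agent.TC.LkFin
import Pool.Agent.TC.LkVal
import Pool.Agent.TC.MfG

/-!
# Type C, link: the one leg function of the honeycomb strip is the limit of the pairing

`Mreg_eq_Mfl`, `Mleg_eq`, and the value of the lattice family `fam` at the honeycomb point in terms of `Mleg`.
-/

set_option autoImplicit false

namespace Pool.Agent.TC

open Complex Filter Topology

/-- **The pairing is the one leg function of the strip.** -/
theorem Mreg_eq_Mfl {om : ℂ} (hom : om ≠ 0) {N : ℕ} (r : Fin N) :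
    Mreg om N r r.2 = HexObs.TC.Mfl N r om :=
  tendsto_nhds_unique (lk_lim om r) (HexObs.TC.tendsto_Wf N r hom)

theorem lt_mid (J : ℕ) : J < 2 * J + 1 := by omega

/-- **The one leg function of the middle of the strip of `2 J + 1` rows.** -/
theorem Mleg_eq (J : ℕ) (s : ℂ) :
    HexObs.TC.Mleg J s = Mreg (exp (2 * Real.pi * I * s)) (2 * J + 1) J (lt_mid J) :=
  (Mreg_eq_Mfl (exp_ne_zero _) ⟨J, lt_mid J⟩).symm

/-- **The value of the lattice family at the honeycomb point.** -/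
theorem fam_Mleg (J : ℕ) (s : ℂ) {Z : Type*} {l : Filter Z} {u : Z → Fin (2 * J + 1) → ℂ} {h : Z → ℂ}
    (hu : ∀ i, Tendsto (fun y => u y i) l (𝓝 (-NUF.z0))) (hh : Tendsto h l (𝓝 (-NUF.z0)))
    (d1 : ∀ᶠ y in l, ∀ i j, i ≠ j → u y i ≠ u y j)
    (d2 : ∀ᶠ y in l, ∀ i : Fin (2 * J + 1), (i : ℕ) ≠ J → h y ≠ u y i) :
    Tendsto (fun y => (fam (exp (2 * Real.pi * I * s))).O (Kv J (u y)) (Lv J (u y)) (exp (I * u y ⟨J, lt_mid J⟩))
      (exp (I * h y))) l
      (𝓝 (Qh (2 * J + 1) * Qh (2 * J + 1) / (cQ (2 * J + 1) * cQ (2 * J + 1)) * HexObs.TC.Mleg J s)) := by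
  rw [Mleg_eq]
  exact val_tend _ _ hu hh d1 d2

end Pool.Agent.TC
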