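import Pool.Agent.TC.CutNet
import Pool.Agent.NUN.Sort
import Pool.Agent.NUN.Lft
import Pool.Agent.NUF.PPair

/-!
# (LK1): the network of the parallelogram with the cut row edge is the sum over the words to a foot

The labels are in `ℤ × ℤ`: first component = signed crossings of the line above the cut edge (from the right to the left
`+1`), second component = 1 for the leg.  A closed loop has the weight 0, the leg with the label `a` the weight `om ^ a`.
-/

set_option autoImplicit false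

namespace Pool.Agent.NUN

open Pool.Agent.NUF Pool.Agent.NUF.LPat Pool.Agent.EXL.Net HexObs HexObs.LP

/-! ### the labels -/

/-- signed crossings of the line above the row `r`, from the right to the left `+1`. -/
def crA (r : ℕ) (h : Pt × Pt) : ℤ :=
  if h.2 = (-1, 1) ∧ h.1.2 = h.1.1 + 1 ∧ (r : ℤ) < h.1.1 then 1
  else if h.2 = (1, -1) ∧ h.1.2 = h.1.1 + 3 ∧ (r : ℤ) ≤ h.1.1 then -1 else 0

theorem crA_rv (r : ℕ) (h : Pt × Pt) : crA r (rv h) = - crA r h := by
  obtain ⟨⟨a, b⟩, ⟨c, d⟩⟩ := h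
  have e1 : (rv ((a, b), (c, d))).2 = (-c, -d) := rfl
  have e2 : (rv ((a, b), (c, d))).1 = (a + c, b + d) := rfl
  unfold crA
  rw [e1, e2]
  show (if (-c, -d) = ((-1, 1) : Pt) ∧ b + d = a + c + 1 ∧ (r : ℤ) < a + c then (1 : ℤ)
    else if (-c, -d) = ((1, -1) : Pt) ∧ b + d = a + c + 3 ∧ (r : ℤ) ≤ a + c then -1 else 0) =
    -(if (c, d) = ((-1, 1) : Pt) ∧ b = a + 1 ∧ (r : ℤ) < a then (1 : ℤ)
    else if (c, d) = ((1, -1) : Pt) ∧ b = a + 3 ∧ (r : ℤ) ≤ a then -1 else 0)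
  simp only [Prod.mk.injEq]
  by_cases h1 : c = -1 ∧ d = 1
  · obtain ⟨rfl, rfl⟩ := h1
    rw [if_neg (by omega)]
    by_cases h2 : b = a + 1 ∧ (r : ℤ) < a
    · rw [if_pos (by omega), if_pos (by omega)]
    · rw [if_neg (by omega), if_neg (by omega), if_neg (by omega), neg_zero]
  · by_cases h3 : c = 1 ∧ d = -1
    · obtain ⟨rfl, rfl⟩ := h3
      by_cases h2 : b = a + 3 ∧ (r : ℤ) ≤ a
      · rw [if_pos (by omega), if_neg (by omega), if_pos (by omega), neg_neg]
      · rw [if_neg (by omega), if_neg (by omega), if_neg (by omega), if_neg (by omega), neg_zero]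
    · rw [if_neg (by omega), if_neg (by omega), if_neg (by omega), if_neg (by omega), neg_zero]

/-- the row edges. -/
theorem crA_A (r : ℕ) (k i : ℤ) :
    crA r (_root_.EXL.A k i, (-1, 1)) = if k = 0 ∧ (r : ℤ) < i then 1 else 0 := by
  unfold crA _root_.EXL.A
  simp only [true_and]
  by_cases c : k = 0 ∧ (r : ℤ) < i
  · rw [if_pos c, if_pos (by omega)]
  · rw [if_neg c, if_neg (by omega), if_neg]
    rintro ⟨h, -⟩
    simp at h

theorem crA_B (r : ℕ) (k i : ℤ) :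
    crA r (_root_.EXL.B k i, (1, -1)) = if k = -1 ∧ (r : ℤ) < i then -1 else 0 := by
  have e : (_root_.EXL.B k i, ((1, -1) : Pt)) = rv (_root_.EXL.A (k + 1) i, (-1, 1)) := by
    unfold rv _root_.EXL.A _root_.EXL.B
    refine Prod.ext (Prod.ext ?_ ?_) (Prod.ext ?_ ?_)
    · show 2 * k + i + 1 = 2 * (k + 1) + i + -1
      ring
    · show -k + 1 + i = -(k + 1) + 1 + i + 1
      ring
    · rfl
    · rfl
  rw [e, crA_rv, crA_A]
  by_cases c : k = -1 ∧ (r : ℤ) < i
  · rw [if_pos c, if_pos (by omega)]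
  · rw [if_neg c, if_neg (by omega), neg_zero]

theorem crA_o (r : ℕ) {h : Pt × Pt} (h1 : h.2 ≠ (1, -1)) (h2 : h.2 ≠ (-1, 1)) : crA r h = 0 := by
  unfold crA
  rw [if_neg (fun h => h2 h.1), if_neg (fun h => h1 h.1)]

/-- the weight of a loop: 0 for the closed loops, `om ^ a` for the leg. -/
noncomputable def nuL (om : ℂ) (g : ℤ × ℤ) : ℂ :=
  if g.2 = 1 then om ^ g.1 else if g.2 = -1 then om ^ (-g.1) else 0

theorem nuL_neg (om : ℂ) (g : ℤ × ℤ) : nuL om (-g) = nuL om g := by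
  unfold nuL
  simp only [Prod.fst_neg, Prod.snd_neg, neg_neg]
  by_cases h1 : g.2 = 1
  · rw [if_neg (by omega), if_pos (by omega), if_pos h1]
  · by_cases h2 : g.2 = -1
    · rw [if_pos (by omega), if_neg h1, if_pos h2]
    · rw [if_neg (by omega), if_neg (by omega), if_neg h1, if_neg h2]

theorem nuL_loop (om : ℂ) (a : ℤ) : nuL om (a, 0) = 0 := by
  unfold nuL
  rw [if_neg (by norm_num), if_neg (by norm_num)]

theorem nuL_leg (om : ℂ) (a : ℤ) : nuL om (a, 1) = om ^ a := by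
  unfold nuL
  rw [if_pos rfl]

theorem nuL_leg' (om : ℂ) (a : ℤ) : nuL om (a, -1) = om ^ (-a) := by
  unfold nuL
  rw [if_neg (by norm_num), if_pos rfl]

/-- the labels of the line above the row `r`. -/
noncomputable def DC (om : ℂ) (r : ℕ) : Lb (ℤ × ℤ) ℂ where
  nu := nuL om
  even := nuL_neg om
  lab h := (crA r h, 0)
  anti h := by
    rw [crA_rv]
    rfl

theorem DC_lab (om : ℂ) (r : ℕ) (h : Pt × Pt) : (DC om r).lab h = (crA r h, 0) := rfl

theorem lE_DC (om : ℂ) (r : ℕ) (E : Finset (Pt × Pt)) : ((DC om r).lE E).2 = 0 := by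
  unfold Lb.lE
  rw [Prod.snd_sum]
  exact Finset.sum_eq_zero fun _ _ => rfl

/-- the closed loops have the weight 0. -/
theorem gas_DC (om : ℂ) (r : ℕ) (x : ℂ) : (DC om r).Gas x (fun _ => 1) where
  emp := rfl
  step A v _ _ := by
    rw [Finset.sum_eq_zero, add_zero]
    intro E _
    have h1 : (DC om r).nu ((DC om r).lE E) = 0 := by
      show nuL om ((DC om r).lE E) = 0
      unfold nuL
      rw [lE_DC, if_neg (by norm_num), if_neg (by norm_num)]
    rw [h1]
    ring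

/-! ### the words -/

/-- the first half edge of the words: the left end of the row edge `r`. -/
def p0 (r : ℕ) : Pt × Pt := (_root_.EXL.B (-1) r, (1, -1))

/-- the foot `k`, outside. -/
def qf (k : ℤ) : Pt × Pt := (_root_.EXL.B k (-1), (0, 1))

theorem p0_tip (r : ℕ) : (p0 r).1 + (p0 r).2 = _root_.EXL.A 0 r := by
  unfold p0 _root_.EXL.A _root_.EXL.B
  refine Prod.ext ?_ ?_
  · show 2 * (-1) + (r : ℤ) + 1 + 1 = 2 * 0 + (r : ℤ)
    ring
  · show -(-1) + 1 + (r : ℤ) + -1 = -0 + 1 + (r : ℤ)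
    ring

theorem rv_p0 (r : ℕ) : rv (p0 r) = (_root_.EXL.A 0 r, (-1, 1)) := by
  unfold rv
  rw [p0_tip]
  rfl

theorem De_p0 (r : ℕ) : De (p0 r) := by
  refine ⟨by show ((1, -1) : Pt) ∈ dirs; decide, Vt_B _ _, ?_⟩
  rw [p0_tip]
  exact Vt_A _ _

theorem crA_p0 (r : ℕ) : crA r (p0 r) = 0 := by
  unfold p0
  rw [crA_B, if_neg]
  omega

theorem qf_notMem (N m : ℕ) (k : ℤ) : (qf k).1 ∉ Om N m := by
  intro h
  obtain ⟨k', i, -, h2, h | h⟩ := mem_Om.1 h
  · unfold qf _root_.EXL.A _root_.EXL.B at h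
    have e1 := congrArg Prod.fst h
    have e2 := congrArg Prod.snd h
    simp only at e1 e2
    omega
  · unfold qf _root_.EXL.B at h
    have e1 := congrArg Prod.fst h
    have e2 := congrArg Prod.snd h
    simp only at e1 e2
    omega

/-- the words from the row edge `r` to the foot `k` in the parallelogram. -/
noncomputable def Wf (N m r : ℕ) (k : ℤ) : Finset (List Bool) :=
  (arr0 (Om N m) (p0 r)).filter (fun t => rv (le (p0 r) t) = qf k)

/-- the signed number of the crossings of the line above the edge. -/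
def clA (r : ℕ) (t : List Bool) : ℤ :=
  ∑ i ∈ Finset.range (t.length + 1), crA r (vx (p0 r).1 (p0 r).2 t i, dx (p0 r).2 t i)

theorem ls_DC (om : ℂ) (r : ℕ) (t : List Bool) : (DC om r).ls (p0 r) t = (clA r t, 0) := by
  unfold Lb.ls clA
  refine Prod.ext ?_ ?_
  · rw [Prod.fst_sum]
    rfl
  · rw [Prod.snd_sum]
    exact Finset.sum_eq_zero fun _ _ => rfl

/-- (LK1'), first part -/
theorem Pw_words (om x : ℂ) (N m r : ℕ) (k : ℤ) :
    (DC om r).Pw x (fun _ => 1) (Om N m) (qf k) (0, -1) (p0 r) = ∑ t ∈ Wf N m r k, x ^ t.length * om ^ clA r t := by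
  unfold Lb.Pw Wf
  refine Finset.sum_congr rfl fun t _ => ?_
  rw [ls_DC, mul_one]
  congr 1
  have e : ((0, -1) : ℤ × ℤ) - (clA r t, 0) = (-clA r t, -1) := by
    refine Prod.ext ?_ ?_ <;> simp
  rw [e]
  show nuL om (-clA r t, -1) = _
  rw [nuL_leg', neg_neg]

/-! ### the network -/

/-- the operator of the cut row edge. -/
noncomputable def Xcut (om : ℂ) (r : ℕ) : LOp (ℤ × ℤ) ℂ :=
  lCo (nuL om) (0, 1) (lX 1) (lW 0 r) * NUF.lE (ℤ × ℤ) ℂ (EXL.Net.lE (-1) r)

theorem lX_ne (l : ℕ) (h : Pt × Pt) (hh : h.2 ∈ dirs) : lX l ≠ hf h := by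
  unfold lX
  intro e
  rw [Sum.inl.injEq] at e
  rw [← e] at hh
  have key : ∀ d ∈ dirs, d.1 ≤ 1 := by decide
  have := key _ hh
  simp only at this
  omega

theorem qf_dirs (k : ℤ) : (qf k).2 ∈ dirs := by
  show ((0, 1) : Pt) ∈ dirs
  decide

/-- **(LK1)** -/
theorem lk1 (om x : ℂ) {N m r : ℕ} (hr : r < N) (hm : 1 ≤ m) (k : ℤ) :
    (lCR (ℤ × ℤ) x (Om N m) * (DC om r).cO ((edg (Om N m)).erase (ed (_root_.EXL.A 0 r, (-1, 1))))
      ((edg_Edg _).erase _) * Xcut om r) (dl (ℤ × ℤ) Lab) (arc (lX 1) (hf (qf k)) 0) =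
      (DC om r).Pw x (fun _ => 1) (Om N m) (qf k) (0, -1) (p0 r) := by
  have hw : (p0 r).1 + (p0 r).2 ∈ Om N m := by
    rw [p0_tip]
    exact A_mem_Om (by omega) (by omega) (by omega) (by omega)
  have hed : ed (_root_.EXL.A 0 r, (-1, 1)) = ed (p0 r) := by
    rw [← rv_p0, ed_rv]
  have h := Lb.cut_main (gas_DC om r x) (fun a b h => mul_left_cancel₀ two_ne_zero h)
    (A := Om N m) (fun w hw => Om_vt hw) (edg_Edg _) (incl _) (De_p0 r) hw (qf_notMem N m k) (qf_dirs k)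
    (lX_ne 1) (0, 0) (0, 1) (dl (ℤ × ℤ) Lab)
  have e0 : dl (ℤ × ℤ) Lab LPat.empty = (1 : ℂ) := if_pos rfl
  have e1 : (DC om r).Pw x (fun _ => 1) (Om N m) (qf k) (0, -1) (p0 r) = _ :=
    (DC om r).Pw_in x _ (0, -1) hw (fun h => qf_notMem N m k (by rw [← h]; exact hw))
  have e2 : ((0, 0) : ℤ × ℤ) - (0, 1) = (0, -1) := rfl
  have e3 : ((0, -1) : ℤ × ℤ) - (DC om r).lab (p0 r) = (0, -1) := by
    rw [DC_lab, crA_p0]
    rfl
  rw [e2, e0, mul_one] at h
  rw [e3] at e1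
  rw [e1, ← h]
  unfold Lb.Cut Xcut
  rw [mul_assoc]
  simp only [hed]
  have e4 : (lW 0 r : Lab) = hf (rv (p0 r)) := by
    rw [rv_p0]
    rfl
  rw [e4]
  rfl

end Pool.Agent.NUN
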