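import Pool.Agent.TC.LkLim0
import Pool.Agent.NUT2.Tp1

/-!
# Type C, link: the limit of the sum over the exits as the pairing of the two half strips
-/

set_option autoImplicit false

namespace Pool.Agent.TC

open _root_.Pool.Agent.EXL _root_.Pool.Agent.EXL.HS Pool.Agent.NUF Pool.Agent.NUG Pool.Agent.NUT2
  HexObs Filter Topology

section lim

variable {Γ α : Type*} [AddCommGroup Γ] [DecidableEq α] {b c d m : α} {X Y : List α} {ν : Γ → ℂ}

/-- the source and the exit are joined. -/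
theorem Gf_exit (hmb : m ≠ b) (L : List (α × α)) {P : LPat Γ α} (hP : P b = b) : Gf ν m b L P = 0 := by
  unfold Gf
  rw [oo_apply]
  split_ifs with h
  · rfl
  · rw [gm_cons, glue_apply hmb, if_neg h, zero_add, if_neg fun h' : LPat.OcOK m b P => h'.2.2 hP]

theorem emp_F0 (hmb : m ≠ b) (χ : α → Γ) (L : List (α × α)) :
    EXL.emp b (fun p => Tw χ (Gf ν m b L) (ofP Γ p)) = 0 := by
  funext p
  unfold EXL.emp
  split_ifs with h
  · exact Gf_exit hmb L h
  · rfl

/-- **The limit of the sum over the exits.** -/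
theorem exits_lim [Finite α] (hn : (b :: (X ++ Y)).Nodup) (hc : c ∉ b :: (X ++ Y)) (hd : d ∉ b :: (X ++ Y))
    (hcd : c ≠ d) (hmb : m ≠ b) (χ : α → Γ) (L : List (α × α)) {F : EXL.Pat α → ℂ}
    (hF : F = fun p => Tw χ (Gf ν m b L) (ofP Γ p)) :
    Tendsto (fun n => (∑ j ∈ Finset.range n, (colF (fun _ => hexW (xc : ℂ)) c X)^[n - 1 - j]
      (colX (fun _ => hexW (xc : ℂ)) c b X ((colF (fun _ => hexW (xc : ℂ)) c X)^[j]
        ((colF (fun _ => hexW (xc : ℂ)) c Y.reverse)^[n] F))) Pat.empty) +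
      ∑ j ∈ Finset.range n, (colF (fun _ => hexW (xc : ℂ)) c X)^[n]
      ((colF (fun _ => hexW (xc : ℂ)) c Y.reverse)^[n - 1 - j] (colT (fun _ => hexW (xc : ℂ)) c b Y.reverse
        ((colF (fun _ => hexW (xc : ℂ)) c Y.reverse)^[j] F))) Pat.empty) atTop
      (𝓝 (Wp ν χ (WW z0 b X) (VV (fun j => -z0 j) Y) m b L +
        Wp ν χ (VV z0 X) (WW (fun j => -z0 j) b Y) m b L)) := by
  have h0 : EXL.emp b F = 0 := by
    rw [hF]
    exact emp_F0 hmb χ L
  have h1 := exits_right hn hc hd hcd h0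
  have h2 := exits_left hn hc hd hcd h0
  have e1 : Wp ν χ (WW z0 b X) (VV (fun j => -z0 j) Y) m b L =
      pU (WW z0 b X) (VV (fun j => -z0 j) Y) F := by
    rw [hF]
    rfl
  have e2 : Wp ν χ (VV z0 X) (WW (fun j => -z0 j) b Y) m b L =
      pU (VV z0 X) (WW (fun j => -z0 j) b Y) F := by
    rw [hF]
    rfl
  rw [e1, e2]
  exact h1.add h2

end lim

end Pool.Agent.TC
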