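import Pool.Agent.TC.LkCol
import Pool.Agent.NUN.Fin
import Pool.Agent.TC.Fam
import Pool.Agent.TC.LkLim1

/-!
# (LK2): the words from the cut row edge to a foot as a value of the columns

`lk2R`: for the foot `j ≥ 0` (`m = j + 1 + n`), `lk2L`: for the foot `-j - 1`; `F0` = the gluing of the lines other than
the row `r`, the right end of the cut row edge (site `Xr r`) is joined to the exit site `bb`.
-/

set_option autoImplicit false

namespace Pool.Agent.NUN

open Pool.Agent.NUF Pool.Agent.NUF.LPat Pool.Agent.EXL.Net HexObs HexObs.LP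

/-! ### the list of the factors -/

theorem gv_totl (N m : ℕ) : ((totl N m).filterMap gv).toFinset = Om N m := by
  ext p
  rw [List.mem_toFinset, mem_gv, mem_Om]
  unfold totl
  rw [List.mem_append, List.mem_append, mem_rtot, mem_ltot, mem_glu]
  constructor
  · rintro ((⟨k, hk, h⟩ | ⟨k, hk, h⟩) | ⟨i, hi, h⟩)
    · rw [mem_rcol] at h
      simp only [reduceCtorEq, At.v.injEq, or_false] at h
      obtain ⟨i, hi, h⟩ := h
      exact ⟨k, i, ⟨by omega, by omega⟩, ⟨by omega, by omega⟩, h⟩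
    · rw [mem_lcol] at h
      simp only [reduceCtorEq, At.v.injEq, or_false] at h
      obtain ⟨i, hi, h⟩ := h
      exact ⟨-(k : ℤ) - 1, i, ⟨by omega, by omega⟩, ⟨by omega, by omega⟩, h.symm⟩
    · simp at h
  · rintro ⟨k, i, ⟨h1, h2⟩, ⟨h3, h4⟩, h⟩
    obtain ⟨i, rfl⟩ := Int.eq_ofNat_of_zero_le h3
    left
    by_cases hk : 0 ≤ k
    · obtain ⟨k, rfl⟩ := Int.eq_ofNat_of_zero_le hk
      refine Or.inl ⟨k, by omega, mem_rcol.2 (Or.inl ⟨i, by omega, ?_⟩)⟩
      rcases h with rfl | rfl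
      · exact Or.inl rfl
      · exact Or.inr (Or.inl rfl)
    · obtain ⟨j, hj⟩ := Int.eq_ofNat_of_zero_le (show 0 ≤ -k - 1 by omega)
      have e : k = -(j : ℤ) - 1 := by omega
      subst e
      refine Or.inr ⟨j, by omega, mem_lcol.2 (Or.inl ⟨i, by omega, ?_⟩)⟩
      rcases h with rfl | rfl
      · exact Or.inr (Or.inl rfl)
      · exact Or.inl rfl

theorem gc_totl {N m : ℕ} (hN : 1 ≤ N) (hm : 1 ≤ m) : (((totl N m).filterMap gc).map ed).toFinset = edg (Om N m) := by
  ext e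
  rw [List.mem_toFinset, List.mem_map, mem_edg]
  constructor
  · rintro ⟨h, hh, rfl⟩
    rw [mem_gc] at hh
    unfold totl at hh
    rw [List.mem_append, List.mem_append, mem_rtot, mem_ltot, mem_glu] at hh
    rcases hh with (⟨k, hk, hh⟩ | ⟨k, hk, hh⟩) | ⟨i, hi, hh⟩
    · rw [mem_rcol] at hh
      simp only [reduceCtorEq, At.c.injEq, false_or] at hh
      rcases hh with ⟨i, hi, rfl | rfl | rfl⟩ | rfl
      · exact ⟨_, A_mem_Om (by omega) (by omega) (by omega) (by omega), (Tot.De_A' k i).1, rfl⟩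
      · refine ⟨rv (_root_.EXL.A (k + 1) i, (-1, 1)), ?_, Tot.De_rv' (Tot.De_A' (k + 1) i).2.1, ed_rv _⟩
        show _root_.EXL.A (k + 1) i + (-1, 1) ∈ _
        rw [_root_.EXL.A_left, add_sub_cancel_right]
        exact B_mem_Om (by omega) (by omega) (by omega) (by omega)
      · exact ⟨_, A_mem_Om (by omega) (by omega) (by omega) (by omega), (Tot.De_A' k i).2.2, rfl⟩
      · refine ⟨rv (_root_.EXL.A k N, (0, -1)), ?_, Tot.De_rv' (Tot.De_A' k N).1, ed_rv _⟩
        show _root_.EXL.A k N + (0, -1) ∈ _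
        rw [_root_.EXL.A_down]
        exact B_mem_Om (by omega) (by omega) (by omega) (by omega)
    · rw [mem_lcol] at hh
      simp only [reduceCtorEq, At.c.injEq, false_or] at hh
      set k' : ℤ := -(k : ℤ) - 1 with hk'
      rcases hh with ⟨i, hi, rfl | rfl | rfl⟩ | rfl
      · refine ⟨_, B_mem_Om (by omega) (by omega) (by omega) (by omega), ?_, rfl⟩
        have h1 := Tot.De_rv' (Tot.De_A' k' ((i : ℤ) + 1)).1
        unfold rv at h1
        simp only [_root_.EXL.A_down, add_sub_cancel_right] at h1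
        exact h1
      · exact ⟨_, A_mem_Om (by omega) (by omega) (by omega) (by omega), (Tot.De_A' k' i).2.1, rfl⟩
      · refine ⟨_, B_mem_Om (by omega) (by omega) (by omega) (by omega), ?_, rfl⟩
        have h1 := Tot.De_rv' (Tot.De_A' k' i).2.2
        unfold rv at h1
        simp only [_root_.EXL.A_right] at h1
        exact h1
      · exact ⟨_, A_mem_Om (by omega) (by omega) (by omega) (by omega), (Tot.De_A' k' 0).1, rfl⟩
    · rw [At.c.injEq] at hh
      subst hh
      exact ⟨_, A_mem_Om (by omega) (by omega) (by omega) (by omega), (Tot.De_A' 0 i).2.1, rfl⟩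
  · rintro ⟨⟨p, d⟩, hp, hd, rfl⟩
    obtain ⟨k, i, ⟨h1, h2⟩, ⟨h3, h4⟩, h⟩ := mem_Om.1 hp
    obtain ⟨i, rfl⟩ := Int.eq_ofNat_of_zero_le h3
    have hi : i < N := by exact_mod_cast h4
    have key : ∀ h h' : Pt × Pt, At.c h ∈ totl N m → ed h = ed h' →
        ∃ a ∈ List.filterMap gc (totl N m), ed a = ed h' :=
      fun h h' hh e => ⟨h, mem_gc.2 hh, e⟩
    have keyr : ∀ (j : ℕ) (a : At), j < m → a ∈ rcol N j → a ∈ totl N m := by
      intro j a hj ha
      unfold totl
      exact List.mem_append.2 (Or.inl (List.mem_append.2 (Or.inl (mem_rtot.2 ⟨j, hj, ha⟩))))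
    have keyl : ∀ (j : ℤ) (a : At), -(m : ℤ) ≤ j → j < 0 → a ∈ lcol N j → a ∈ totl N m := by
      intro j a hj hj0 ha
      obtain ⟨l, hl⟩ := Int.eq_ofNat_of_zero_le (show 0 ≤ -j - 1 by omega)
      have e : j = -(l : ℤ) - 1 := by omega
      rw [e] at ha
      unfold totl
      exact List.mem_append.2 (Or.inl (List.mem_append.2 (Or.inr (mem_ltot.2 ⟨l, by omega, ha⟩))))
    have keyg : ∀ a : At, a ∈ glu N → a ∈ totl N m := by
      intro a ha
      unfold totl
      exact List.mem_append.2 (Or.inr ha)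
    by_cases hk : 0 ≤ k
    · obtain ⟨k, rfl⟩ := Int.eq_ofNat_of_zero_le hk
      have hk : k < m := by exact_mod_cast h2
      rcases h with h | h
      · simp only at h
        subst h
        rcases Tot.De_A hd with rfl | rfl | rfl
        · exact key _ _ (keyr k _ hk (mem_rcol.2 (Or.inl ⟨i, hi, by simp⟩))) rfl
        · by_cases hk0 : k = 0
          · subst hk0
            exact key _ _ (keyg _ (mem_glu.2 ⟨i, hi, rfl⟩)) rfl
          · obtain ⟨k', rfl⟩ : ∃ k', k = k' + 1 := ⟨k - 1, by omega⟩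
            refine key (_root_.EXL.A ((k' : ℤ) + 1) i, (-1, 1)) _ (keyr k' _ (by omega)
              (mem_rcol.2 (Or.inl ⟨i, hi, by simp⟩))) ?_
            push_cast
            rfl
        · exact key _ _ (keyr k _ hk (mem_rcol.2 (Or.inl ⟨i, hi, by simp⟩))) rfl
      · simp only at h
        subst h
        rcases Tot.De_B hd with rfl | rfl | rfl
        · have e1 : ed (_root_.EXL.B (k : ℤ) i, (0, 1)) = ed (_root_.EXL.A (k : ℤ) ((i : ℤ) + 1), (0, -1)) := by
            rw [← ed_rv]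
            unfold rv
            simp only [_root_.EXL.B_up]
            rfl
          rw [e1]
          by_cases hiN : i + 1 = N
          · refine key (_root_.EXL.A (k : ℤ) N, (0, -1)) _ (keyr k _ hk (mem_rcol.2 (Or.inr rfl))) ?_
            rw [← hiN]
            push_cast
            rfl
          · refine key (_root_.EXL.A (k : ℤ) ((i + 1 : ℕ) : ℤ), (0, -1)) _ (keyr k _ hk
              (mem_rcol.2 (Or.inl ⟨i + 1, by omega, by simp⟩))) ?_
            push_cast
            rfl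
        · have e1 : ed (_root_.EXL.B (k : ℤ) i, (1, -1)) = ed (_root_.EXL.A ((k : ℤ) + 1) i, (-1, 1)) := by
            rw [← ed_rv]
            unfold rv
            simp only [_root_.EXL.B_right]
            rfl
          rw [e1]
          exact key _ _ (keyr k _ hk (mem_rcol.2 (Or.inl ⟨i, hi, by simp⟩))) rfl
        · have e1 : ed (_root_.EXL.B (k : ℤ) i, (-1, 0)) = ed (_root_.EXL.A (k : ℤ) i, (1, 0)) := by
            rw [← ed_rv]
            unfold rv
            simp only [_root_.EXL.B_left]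
            rfl
          rw [e1]
          exact key _ _ (keyr k _ hk (mem_rcol.2 (Or.inl ⟨i, hi, by simp⟩))) rfl
    · have hk : k < 0 := by omega
      rcases h with h | h
      · simp only at h
        subst h
        rcases Tot.De_A hd with rfl | rfl | rfl
        · by_cases hi0 : i = 0
          · subst hi0
            exact key _ _ (keyl k _ h1 hk (mem_lcol.2 (Or.inr rfl))) rfl
          · obtain ⟨i', rfl⟩ : ∃ i', i = i' + 1 := ⟨i - 1, by omega⟩
            have e1 : ed (_root_.EXL.A k ((i' + 1 : ℕ) : ℤ), (0, -1)) = ed (_root_.EXL.B k (i' : ℤ), (0, 1)) := by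
              rw [← ed_rv]
              unfold rv
              simp only [_root_.EXL.A_down]
              push_cast
              rw [add_sub_cancel_right]
              rfl
            rw [e1]
            exact key _ _ (keyl k _ h1 hk (mem_lcol.2 (Or.inl ⟨i', by omega, by simp⟩))) rfl
        · exact key _ _ (keyl k _ h1 hk (mem_lcol.2 (Or.inl ⟨i, hi, by simp⟩))) rfl
        · have e1 : ed (_root_.EXL.A k (i : ℤ), (1, 0)) = ed (_root_.EXL.B k (i : ℤ), (-1, 0)) := by
            rw [← ed_rv]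
            unfold rv
            simp only [_root_.EXL.A_right]
            rfl
          rw [e1]
          exact key _ _ (keyl k _ h1 hk (mem_lcol.2 (Or.inl ⟨i, hi, by simp⟩))) rfl
      · simp only at h
        subst h
        rcases Tot.De_B hd with rfl | rfl | rfl
        · exact key _ _ (keyl k _ h1 hk (mem_lcol.2 (Or.inl ⟨i, hi, by simp⟩))) rfl
        · have e1 : ed (_root_.EXL.B k (i : ℤ), (1, -1)) = ed (_root_.EXL.A (k + 1) i, (-1, 1)) := by
            rw [← ed_rv]
            unfold rv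
            simp only [_root_.EXL.B_right]
            rfl
          rw [e1]
          by_cases hk1 : k = -1
          · subst hk1
            exact key (_root_.EXL.A 0 i, (-1, 1)) _ (keyg _ (mem_glu.2 ⟨i, hi, rfl⟩)) rfl
          · exact key _ _ (keyl (k + 1) _ (by omega) (by omega) (mem_lcol.2 (Or.inl ⟨i, hi, by simp⟩))) rfl
        · exact key _ _ (keyl k _ h1 hk (mem_lcol.2 (Or.inl ⟨i, hi, by simp⟩))) rfl

/-- the edges that cross the line, without the row `r`. -/
def gluX (N r : ℕ) : List At :=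
  ((List.range N).take r ++ (List.range N).drop (r + 1)).map fun i : ℕ => At.c (_root_.EXL.A 0 i, (-1, 1))

/-- all factors without the cut row edge. -/
def totX (N m r : ℕ) : List At := rtot N m ++ ltot N m ++ gluX N r

theorem range_split {N r : ℕ} (hr : r < N) :
    List.range N = (List.range N).take r ++ r :: (List.range N).drop (r + 1) := by
  have h : (List.range N).drop r = r :: (List.range N).drop (r + 1) := by
    rw [List.drop_eq_getElem_cons (by rw [List.length_range]; exact hr)]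
    simp
  rw [← h, List.take_append_drop]

theorem gluX_sub {N r : ℕ} (hr : r < N) : (gluX N r).Sublist (glu N) := by
  unfold gluX glu
  conv_rhs => rw [range_split hr]
  exact (List.Sublist.append (List.Sublist.refl _) (List.sublist_cons_self _ _)).map _

theorem glu_perm {N r : ℕ} (hr : r < N) :
    (glu N).Perm (At.c (_root_.EXL.A 0 r, (-1, 1)) :: gluX N r) := by
  unfold gluX glu
  conv_lhs => rw [range_split hr]
  rw [show (At.c (_root_.EXL.A 0 (r : ℤ), (-1, 1)) :: List.map (fun i : ℕ => At.c (_root_.EXL.A 0 (i : ℤ), (-1, 1)))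
    ((List.range N).take r ++ (List.range N).drop (r + 1))) =
    (r :: ((List.range N).take r ++ (List.range N).drop (r + 1))).map
      (fun i : ℕ => At.c (_root_.EXL.A 0 (i : ℤ), (-1, 1))) from rfl]
  exact List.perm_middle.map _

theorem totX_sub {N r : ℕ} (m : ℕ) (hr : r < N) : (totX N m r).Sublist (totl N m) :=
  List.Sublist.append (List.Sublist.refl _) (gluX_sub hr)

theorem totl_perm {N r : ℕ} (m : ℕ) (hr : r < N) :
    (totl N m).Perm (At.c (_root_.EXL.A 0 r, (-1, 1)) :: totX N m r) := by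
  unfold totl totX
  exact ((List.Perm.refl _).append (glu_perm hr)).trans List.perm_middle

theorem ok_totX {N r : ℕ} (m : ℕ) (hr : r < N) : (totX N m r).Pairwise Ok :=
  (ok_totl N m).sublist (totX_sub m hr)

theorem gv_totX {N r : ℕ} (m : ℕ) (hr : r < N) : ((totX N m r).filterMap gv).toFinset = Om N m := by
  rw [← gv_totl N m]
  ext p
  rw [List.mem_toFinset, List.mem_toFinset, mem_gv, mem_gv, (totl_perm m hr).mem_iff, List.mem_cons]
  simp

theorem gc_totX {N r m : ℕ} (hm : 1 ≤ m) (hr : r < N) : (((totX N m r).filterMap gc).map ed).toFinset =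
    (edg (Om N m)).erase (ed (_root_.EXL.A 0 r, (-1, 1))) := by
  rw [← gc_totl (show 1 ≤ N by omega) hm]
  have h1 : (((totl N m).filterMap gc).map ed).Perm
      (ed (_root_.EXL.A 0 r, (-1, 1)) :: ((totX N m r).filterMap gc).map ed) :=
    ((totl_perm m hr).filterMap gc).map ed
  have h2 := h1.nodup_iff.1 (nodup_gc (ok_totl N m))
  rw [List.nodup_cons] at h2
  ext e
  rw [Finset.mem_erase, List.mem_toFinset, List.mem_toFinset, h1.mem_iff, List.mem_cons]
  constructor
  · intro h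
    exact ⟨fun e' => h2.1 (e' ▸ h), Or.inr h⟩
  · rintro ⟨h, h' | h'⟩
    · exact absurd h' h
    · exact h'

/-- **The network of the parallelogram without the cut row edge in column order.** -/
theorem totX_eq {Γ : Type*} {K : Type} [AddCommGroup Γ] [CommRing K] (D : Lb Γ K) (x : K) {N r m : ℕ}
    (hm : 1 ≤ m) (hr : r < N) :
    ((totX N m r).map (D.op x)).prod = lCR Γ x (Om N m) *
      D.cO ((edg (Om N m)).erase (ed (_root_.EXL.A 0 r, (-1, 1)))) ((edg_Edg _).erase _) := by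
  have hok := ok_totX m hr
  rw [D.sort x _ hok, lCR_list x (nodup_gv hok) (gv_totX m hr), D.cO_list (nodup_gc hok) _ (gc_totX hm hr)]

/-! ### the labels, from the left to the right -/

/-- the labels of the line above the row `r`, from the left to the right. -/
noncomputable def DN (om : ℂ) (r : ℕ) : Lb (ℤ × ℤ) ℂ where
  nu := TC.nuw om
  even := TC.nuw_neg om
  lab h := (-crA r h, 0)
  anti h := by
    rw [crA_rv]
    rfl

theorem DN_lab (om : ℂ) (r : ℕ) (h : Pt × Pt) : (DN om r).lab h = (-crA r h, 0) := rfl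

theorem lE_DN (om : ℂ) (r : ℕ) (E : Finset (Pt × Pt)) : ((DN om r).lE E).2 = 0 := by
  unfold Lb.lE
  rw [Prod.snd_sum]
  exact Finset.sum_eq_zero fun _ _ => rfl

/-- the closed loops have the weight 0. -/
theorem gas_DN (om : ℂ) (r : ℕ) (x : ℂ) : (DN om r).Gas x (fun _ => 1) where
  emp := rfl
  step A v _ _ := by
    rw [Finset.sum_eq_zero, add_zero]
    intro E _
    have h1 : (DN om r).nu ((DN om r).lE E) = 0 := by
      show TC.nuw om ((DN om r).lE E) = 0
      unfold TC.nuw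
      rw [lE_DN, if_neg (by norm_num), if_neg (by norm_num)]
    rw [h1]
    ring

theorem ls_DN (om : ℂ) (r : ℕ) (t : List Bool) : (DN om r).ls (p0 r) t = (-clA r t, 0) := by
  unfold Lb.ls clA
  refine Prod.ext ?_ ?_
  · rw [Prod.fst_sum]
    show ∑ i ∈ _, _ = -∑ i ∈ _, _
    rw [← Finset.sum_neg_distrib]
    rfl
  · rw [Prod.snd_sum]
    exact Finset.sum_eq_zero fun _ _ => rfl

theorem Pw_DN (om x : ℂ) (N m r : ℕ) (k : ℤ) :
    (DN om r).Pw x (fun _ => 1) (Om N m) (qf k) (0, 1) (p0 r) = ∑ t ∈ Wf N m r k, x ^ t.length * om ^ clA r t := by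
  unfold Lb.Pw Wf
  refine Finset.sum_congr rfl fun t _ => ?_
  rw [ls_DN, mul_one]
  congr 1
  have e : ((0, 1) : ℤ × ℤ) - (-clA r t, 0) = (clA r t, 1) := by
    refine Prod.ext ?_ ?_ <;> simp
  rw [e]
  show TC.nuw om (clA r t, 1) = _
  unfold TC.nuw
  rw [if_pos rfl]

/-- (LK1) with the labels from the left to the right. -/
theorem lk1' (om x : ℂ) {N m r : ℕ} (hr : r < N) (hm : 1 ≤ m) (k : ℤ) :
    (lCR (ℤ × ℤ) x (Om N m) * (DN om r).cO ((edg (Om N m)).erase (ed (_root_.EXL.A 0 r, (-1, 1))))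
      ((edg_Edg _).erase _) * (lCo (TC.nuw om) (0, -1) (lX 1) (lW 0 r) *
        NUF.lE (ℤ × ℤ) ℂ (EXL.Net.lE (-1) r))) (dl (ℤ × ℤ) Lab) (arc (lX 1) (hf (qf k)) 0) =
      ∑ t ∈ Wf N m r k, x ^ t.length * om ^ clA r t := by
  rw [← Pw_DN]
  have hw : (p0 r).1 + (p0 r).2 ∈ Om N m := by
    rw [p0_tip]
    exact A_mem_Om (by omega) (by omega) (by omega) (by omega)
  have hed : ed (_root_.EXL.A 0 r, (-1, 1)) = ed (p0 r) := by
    rw [← rv_p0, ed_rv]
  have h := Lb.cut_main (gas_DN om r x) (fun a b h => mul_left_cancel₀ two_ne_zero h)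
    (A := Om N m) (fun w hw => Om_vt hw) (edg_Edg _) (incl _) (De_p0 r) hw (qf_notMem N m k) (qf_dirs k)
    (lX_ne 1) (0, 0) (0, -1) (dl (ℤ × ℤ) Lab)
  have e0 : dl (ℤ × ℤ) Lab LPat.empty = (1 : ℂ) := if_pos rfl
  have e1 : (DN om r).Pw x (fun _ => 1) (Om N m) (qf k) (0, 1) (p0 r) = _ :=
    (DN om r).Pw_in x _ (0, 1) hw (fun h => qf_notMem N m k (by rw [← h]; exact hw))
  have e2 : ((0, 0) : ℤ × ℤ) - (0, -1) = (0, 1) := rfl
  have e3 : ((0, 1) : ℤ × ℤ) - (DN om r).lab (p0 r) = (0, 1) := by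
    rw [DN_lab, crA_p0]
    rfl
  rw [e2, e0, mul_one] at h
  rw [e3] at e1
  rw [e1, ← h]
  unfold Lb.Cut
  rw [mul_assoc]
  simp only [hed]
  have e4 : (lW 0 r : Lab) = hf (rv (p0 r)) := by
    rw [rv_p0]
    rfl
  rw [e4]
  rfl

/-! ### the gluing -/

/-- the lines other than the row `r`. -/
def LF (N r : ℕ) : List (Fin N) := (List.finRange N).take r ++ (List.finRange N).drop (r + 1)

theorem LF_lk (N r : ℕ) : (LF N r).map lk = La N r ++ Lb' N (r + 1) := by
  unfold LF La Lb'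
  rw [List.map_append]

theorem LF_perm {N : ℕ} (r : Fin N) : (List.finRange N).Perm (r :: LF N r) := by
  have h : (List.finRange N).drop r = r :: (List.finRange N).drop (r + 1) := by
    rw [List.drop_eq_getElem_cons (by rw [List.length_finRange]; exact r.2)]
    simp
  have h2 : List.finRange N = (List.finRange N).take r ++ r :: (List.finRange N).drop (r + 1) := by
    rw [← h, List.take_append_drop]
  conv_lhs => rw [h2]
  unfold LF
  exact List.perm_middle

theorem mem_LF {N : ℕ} {r i : Fin N} : i ∈ LF N r ↔ i ≠ r := by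
  have h1 := (LF_perm r).nodup_iff.1 (List.nodup_finRange N)
  rw [List.nodup_cons] at h1
  have h2 : i ∈ r :: LF N r := (LF_perm r).mem_iff.1 (List.mem_finRange i)
  constructor
  · rintro h rfl
    exact h1.1 h
  · intro h
    exact (List.mem_cons.1 h2).resolve_left h

theorem mem_drop_fin {N r : ℕ} {i : Fin N} : i ∈ (List.finRange N).drop r ↔ r ≤ (i : ℕ) := by
  have h1 : i ∈ (List.finRange N).take r ++ (List.finRange N).drop r := by
    rw [List.take_append_drop]
    exact List.mem_finRange i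
  have h2 : ((List.finRange N).take r ++ (List.finRange N).drop r).Nodup := by
    rw [List.take_append_drop]
    exact List.nodup_finRange N
  rw [List.nodup_append] at h2
  rw [List.mem_append, mem_take_fin] at h1
  constructor
  · intro h
    by_contra c
    exact h2.2.2 i (mem_take_fin.2 (by omega)) i h rfl
  · intro h
    exact h1.resolve_left (by omega)

theorem Gd_LF {N : ℕ} (r : Fin N) : Gd ((Xr r, bb) :: (LF N r).map lk) := by
  have h1 := (LF_perm r).nodup_iff.1 (List.nodup_finRange N)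
  unfold Gd
  rw [List.map_cons, List.map_cons, List.map_map, List.map_map]
  have e1 : (Xr r, (bb : NUF.St N)).1 :: (LF N r).map (Prod.fst ∘ lk) = (r :: LF N r).map Xr := rfl
  rw [e1, List.nodup_append]
  refine ⟨h1.map (fun i j h => by simpa [Xr] using h), ?_, ?_⟩
  · rw [List.nodup_cons] at h1 ⊢
    refine ⟨?_, h1.2.map (fun i j h => by simpa [lk] using h)⟩
    intro h
    obtain ⟨i, -, hi⟩ := List.mem_map.1 h
    simp [lk] at hi
  · intro a ha b hb
    obtain ⟨i, -, rfl⟩ := List.mem_map.1 ha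
    rcases List.mem_cons.1 hb with rfl | hb
    · simp [Xr]
    · obtain ⟨j, -, rfl⟩ := List.mem_map.1 hb
      simp [Xr, lk]

/-- the labels of the lines other than `r`. -/
theorem chX_lk {N : ℕ} (r i : Fin N) :
    TC.chX (Lb' N (r + 1)) bb (lk i).2 - TC.chX (Lb' N (r + 1)) bb (lk i).1 =
      (-(if (r : ℕ) < i then 1 else 0), 0) := by
  have h1 : (lk i).2 ∉ (Lb' N (r + 1)).map Prod.fst := by
    unfold Lb'
    rw [List.map_map]
    intro h
    obtain ⟨j, -, hj⟩ := List.mem_map.1 h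
    simp [lk] at hj
  have h2 : (lk i).1 ∈ (Lb' N (r + 1)).map Prod.fst ↔ (r : ℕ) < i := by
    unfold Lb'
    rw [List.map_map, List.mem_map]
    constructor
    · rintro ⟨j, hj, he⟩
      have e : j = i := by simpa [lk] using he
      rw [e, mem_drop_fin] at hj
      omega
    · intro h
      exact ⟨i, mem_drop_fin.2 (by omega), rfl⟩
  have h3 : (lk i).1 ≠ (bb : NUF.St N) := by simp [lk]
  have h4 : (lk i).2 ≠ (bb : NUF.St N) := by simp [lk]
  unfold TC.chX TC.chw
  rw [Pi.add_apply, Pi.add_apply, Pi.single_eq_of_ne h3, Pi.single_eq_of_ne h4, if_neg h1]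
  by_cases c : (r : ℕ) < i
  · rw [if_pos (h2.2 c), if_pos c]
    rfl
  · rw [if_neg (fun h => c (h2.1 h)), if_neg c]
    rfl

theorem chX_bb {N : ℕ} (r : Fin N) :
    TC.chX (Lb' N (r + 1)) bb (bb : NUF.St N) - TC.chX (Lb' N (r + 1)) bb (Xr r) = (0, 1) := by
  have h1 : (bb : NUF.St N) ∉ (Lb' N (r + 1)).map Prod.fst := by
    unfold Lb'
    rw [List.map_map]
    intro h
    obtain ⟨j, -, hj⟩ := List.mem_map.1 h
    simp [lk] at hj
  have h2 : Xr r ∉ (Lb' N (r + 1)).map Prod.fst := by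
    unfold Lb'
    rw [List.map_map, List.mem_map]
    rintro ⟨j, hj, he⟩
    have e : j = r := by simpa [lk, Xr] using he
    rw [e, mem_drop_fin] at hj
    omega
  have h3 : Xr r ≠ (bb : NUF.St N) := by simp [Xr]
  unfold TC.chX TC.chw
  rw [Pi.add_apply, Pi.add_apply, Pi.single_eq_of_ne h3, Pi.single_eq_same, if_neg h1, if_neg h2]
  rfl

/-- the gluing of the two halves of the strip: the right end of the row `r` is joined to the exit site. -/
noncomputable def F0 (om : ℂ) {N : ℕ} (r : Fin N) (q : EXL.Pat (NUF.St N)) : ℂ :=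
  Tw (TC.chX (Lb' N (r + 1)) bb) (gm (TC.nuw om) ((Xr r, bb) :: (La N r ++ Lb' N (r + 1)))) (ofP (ℤ × ℤ) q)

theorem lE_dl {Γ α : Type*} [AddCommGroup Γ] [DecidableEq α] (c : α) :
    NUF.lE Γ ℂ c (dl Γ α) = dl Γ α := by
  funext p
  rw [lE_apply]
  by_cases h : p c = c
  · rw [if_pos h]
  · rw [if_neg h]
    unfold dl
    rw [if_neg]
    rintro rfl
    exact h rfl

theorem gluX_fin (N r : ℕ) : gluX N r = (LF N r).map fun i : Fin N => At.c (_root_.EXL.A 0 ((i : ℕ) : ℤ), (-1, 1)) := by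
  unfold gluX LF
  rw [← List.map_coe_finRange_eq_range, ← List.map_take, ← List.map_drop, ← List.map_append, List.map_map]
  rfl

theorem gluX_ofP (om x : ℂ) {N : ℕ} (r : Fin N) (q : EXL.Pat (NUF.St N)) :
    ((gluX N r).map ((DN om r).op x)).prod ((lCo (TC.nuw om) (0, -1) (lX 1) (lW 0 ((r : ℕ) : ℤ)) *
        NUF.lE (ℤ × ℤ) ℂ (EXL.Net.lE (-1) ((r : ℕ) : ℤ))) (dl (ℤ × ℤ) Lab))
        (ofP (ℤ × ℤ) (Fr (fun _ => 0) (fun _ => -1) false 0 0 q)) = F0 om r q := by
  set κ := fr N (fun _ => 0) (fun _ => -1) false 0 0 with hκ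
  set χ := TC.chX (Lb' N (r + 1)) (bb : NUF.St N) with hχ
  set L : List (NUF.St N × NUF.St N) := (LF N r).map lk ++ [(Xr r, bb)] with hL
  have e0 : (lCo (TC.nuw om) (0, -1) (lX 1) (lW 0 ((r : ℕ) : ℤ)) *
        NUF.lE (ℤ × ℤ) ℂ (EXL.Net.lE (-1) ((r : ℕ) : ℤ))) (dl (ℤ × ℤ) Lab) =
      lCo (TC.nuw om) (χ bb - χ (Xr r)) (κ (Xr r)) (κ bb) (dl (ℤ × ℤ) Lab) := by
    rw [Module.End.mul_apply, lE_dl]
    have h1 : (κ bb : Lab) = lX 1 := fr_bb _ _ _ _ _
    have h2 : (κ (Xr r) : Lab) = lW 0 ((r : ℕ) : ℤ) := rfl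
    rw [h1, h2, chX_bb, lCo_symm (TC.nuw_neg om) _ (show (lX 1 : Lab) ≠ lW 0 ((r : ℕ) : ℤ) by simp)]
    rfl
  have e1 : (gluX N r).map ((DN om r).op x) = ((LF N r).map lk).map fun t =>
      lCo (TC.nuw om) (χ t.2 - χ t.1) (κ t.1) (κ t.2) := by
    rw [gluX_fin, List.map_map, List.map_map]
    refine List.map_congr_left fun i _ => ?_
    show (DN om r).cS (ed (_root_.EXL.A 0 ((i : ℕ) : ℤ), (-1, 1))) =
      lCo (TC.nuw om) (χ (lk i).2 - χ (lk i).1) (κ (lk i).1) (κ (lk i).2)
    rw [chX_lk, Lb.cS_ed]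
    have e2 : (DN om r).lab (_root_.EXL.A 0 ((i : ℕ) : ℤ), (-1, 1)) =
        (-(if (r : ℕ) < i then 1 else 0), 0) := by
      rw [DN_lab, crA_A]
      by_cases c : (r : ℕ) < i
      · rw [if_pos c, if_pos ⟨rfl, by exact_mod_cast c⟩]
      · rw [if_neg c, if_neg (fun h => c (by exact_mod_cast h.2))]
    have e3 : (hf (rv (_root_.EXL.A 0 ((i : ℕ) : ℤ), (-1, 1))) : Lab) = EXL.Net.lE (-1) ((i : ℕ) : ℤ) := by
      unfold rv EXL.Net.lE
      simp only [_root_.EXL.A_left]
      rfl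
    rw [e2, e3]
    rfl
  have e5 : ((gluX N r).map ((DN om r).op x)).prod ((lCo (TC.nuw om) (0, -1) (lX 1) (lW 0 ((r : ℕ) : ℤ)) *
        NUF.lE (ℤ × ℤ) ℂ (EXL.Net.lE (-1) ((r : ℕ) : ℤ))) (dl (ℤ × ℤ) Lab)) =
      (L.map fun t => lCo (TC.nuw om) (χ t.2 - χ t.1) (κ t.1) (κ t.2)).prod (dl (ℤ × ℤ) Lab) := by
    rw [e0, e1, hL, List.map_append, List.prod_append, Module.End.mul_apply]
    rw [List.map_cons, List.map_nil, List.prod_cons, List.prod_nil, mul_one]
  have hG := Gd_LF r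
  have hp : L.Perm ((Xr r, bb) :: (LF N r).map lk) := List.perm_append_singleton _ _
  have hG' : Gd L := hG.perm hp.symm
  have e4 : Tw χ (gm (TC.nuw om) L) =
      (L.map fun t => lCo (TC.nuw om) (χ t.2 - χ t.1) t.1 t.2).prod (dl (ℤ × ℤ) (NUF.St N)) := by
    refine lG_gm (TC.nuw om) χ ?_
    intro t ht
    rw [hL, List.mem_append] at ht
    rcases ht with ht | ht
    · obtain ⟨i, -, rfl⟩ := List.mem_map.1 ht
      simp [lk]
    · rw [List.mem_singleton] at ht
      subst ht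
      simp [Xr]
  rw [e5]
  unfold F0
  rw [← LF_lk, ← gm_perm (TC.nuw_neg om) hG' hp, ← hχ, e4]
  unfold Fr
  rw [lftL_ofP]
  exact prod_lftL _ (TC.nuw om) _ _ _

/-! ### the two forms of the gluing -/

section forms

variable (om : ℂ) {N : ℕ} (r : Fin N)

/-- the gluing, the right end of the row `r` is occupied. -/
noncomputable def FG (q : EXL.Pat (NUF.St N)) : ℂ :=
  Tw (TC.chX (Lb' N (r + 1)) bb) (NUT2.Gf (TC.nuw om) (Xr r) bb (La N r ++ Lb' N (r + 1))) (ofP (ℤ × ℤ) q)

theorem F0_occ {q : EXL.Pat (NUF.St N)} (hq : q bb ≠ bb) : F0 om r q = FG om r q := by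
  have hmb : Xr r ≠ (bb : NUF.St N) := by simp [Xr]
  show gm (TC.nuw om) ((Xr r, bb) :: (La N r ++ Lb' N (r + 1))) (gau _ (ofP (ℤ × ℤ) q)) =
    NUT2.Gf (TC.nuw om) (Xr r) bb (La N r ++ Lb' N (r + 1)) (gau _ (ofP (ℤ × ℤ) q))
  set P : LPat (ℤ × ℤ) (NUF.St N) := gau (TC.chX (Lb' N (r + 1)) bb) (ofP (ℤ × ℤ) q) with hP
  have hb : P bb ≠ bb := hq
  unfold NUT2.Gf
  rw [NUT2.oo_apply]
  by_cases hm : P (Xr r) = Xr r
  · rw [if_pos hm, gm_cons, NUG.glue_apply hmb, if_pos hm, if_neg hb, zero_add,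
      if_neg fun h' : LPat.OcOK (Xr r) bb P => h'.2.1 hm]
  · rw [if_neg hm]

theorem F0_split : F0 om r = FG om r + EXL.emp bb (F0 om r) := by
  have hmb : Xr r ≠ (bb : NUF.St N) := by simp [Xr]
  funext q
  rw [Pi.add_apply]
  by_cases hq : q bb = bb
  · have h1 := congrFun (TC.emp_F0 (ν := TC.nuw om) hmb (TC.chX (Lb' N (r + 1)) bb) (La N r ++ Lb' N (r + 1))) q
    unfold EXL.emp at h1 ⊢
    rw [if_pos hq] at h1 ⊢
    show _ = FG om r q + _
    rw [show FG om r q = 0 from h1, zero_add]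
  · unfold EXL.emp
    rw [if_neg hq, add_zero, F0_occ om r hq]

end forms

section cols

variable {K : Type*} [CommRing K] {N : ℕ}

theorem cX_eq (x : K) (G : EXL.Pat (NUF.St N) → K) :
    cX x N G = TC.colX (fun _ => EXL.hexW x) cc bb ((List.finRange N).map Xr) G := rfl

theorem cY_eq (x : K) (G : EXL.Pat (NUF.St N) → K) :
    cY x N G = TC.colT (fun _ => EXL.hexW x) cc bb (((List.finRange N).map Xl).reverse) G := by
  have hb : (bb : NUF.St N) ∉ ((List.finRange N).map Xl).reverse := by simp [Xl]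
  have hc : (cc : NUF.St N) ∉ ((List.finRange N).map Xl).reverse := by simp [Xl]
  have hbc : (bb : NUF.St N) ≠ cc := by simp
  have e : (fun q : EXL.Pat (NUF.St N) => if q cc ≠ cc ∧ q bb = bb then G (EXL.Pat.swap cc bb q) else 0) =
      TC.outT cc bb G := by
    funext q
    unfold TC.outT
    by_cases h : q bb = bb ∧ q cc ≠ cc
    · rw [if_pos h, if_pos ⟨h.2, h.1⟩]
    · rw [if_neg h, if_neg fun h' => h ⟨h'.2, h'.1⟩]
  funext p
  unfold cY TC.colT
  rw [e]
  have e2 : EXL.M (fun _ => EXL.hexW x) cc (((List.finRange N).map Xl).reverse) (TC.outT cc bb G) =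
      EXL.emp bb (EXL.M (fun _ => EXL.hexW x) cc (((List.finRange N).map Xl).reverse) (TC.outT cc bb G)) := by
    rw [emp_M_comm _ hbc hb hc]
    congr 1
    funext q
    unfold EXL.emp TC.outT
    by_cases h : q bb = bb
    · rw [if_pos h]
    · rw [if_neg h, if_neg fun h' => h h'.1]
  by_cases h : p cc = cc ∧ p bb = bb
  · rw [if_pos h]
    unfold EXL.emp
    rw [if_pos h.1]
  · rw [if_neg h, e2]
    unfold EXL.emp
    by_cases h1 : p cc = cc
    · rw [if_pos h1, if_neg fun h2 => h ⟨h1, h2⟩]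
    · rw [if_neg h1]

theorem colT_emp (x : K) (G : EXL.Pat (NUF.St N) → K) :
    TC.colT (fun _ => EXL.hexW x) cc bb (((List.finRange N).map Xl).reverse) (EXL.emp bb G) = 0 := by
  have e : TC.outT cc bb (EXL.emp bb G) = (0 : EXL.Pat (NUF.St N) → K) := by
    funext q
    unfold TC.outT
    split_ifs with h
    · unfold EXL.emp
      rw [if_neg]
      · rfl
      · rw [EXL.Pat.pswap_apply, Equiv.swap_apply_right]
        intro h1
        have h2 : q cc ≠ bb := by
          intro h3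
          have h4 : q (q cc) = cc := q.inv cc
          rw [h3, h.1] at h4
          simp at h4
        rw [Equiv.swap_apply_of_ne_of_ne h.2 h2] at h1
        exact h2 h1
    · rfl
  funext p
  unfold TC.colT
  rw [e, TC.Lin.zero (lin_M _ _ _)]
  split_ifs <;> rfl

end cols

/-! ### (LK2) -/

section final

variable (om : ℂ) {N : ℕ} (r : Fin N)

/-- the columns of the right half. -/
noncomputable abbrev RR (N : ℕ) : (EXL.Pat (NUF.St N) → ℂ) → EXL.Pat (NUF.St N) → ℂ :=
  NUF.colF (fun _ => EXL.hexW (xc : ℂ)) cc ((List.finRange N).map Xr)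

/-- the columns of the left half. -/
noncomputable abbrev LL (N : ℕ) : (EXL.Pat (NUF.St N) → ℂ) → EXL.Pat (NUF.St N) → ℂ :=
  NUF.colF (fun _ => EXL.hexW (xc : ℂ)) cc (((List.finRange N).map Xl).reverse)

/-- the column of the right half which starts at the exit. -/
noncomputable abbrev RX (N : ℕ) : (EXL.Pat (NUF.St N) → ℂ) → EXL.Pat (NUF.St N) → ℂ :=
  TC.colX (fun _ => EXL.hexW (xc : ℂ)) cc bb ((List.finRange N).map Xr)

/-- the column of the left half which ends at the exit. -/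
noncomputable abbrev LT (N : ℕ) : (EXL.Pat (NUF.St N) → ℂ) → EXL.Pat (NUF.St N) → ℂ :=
  TC.colT (fun _ => EXL.hexW (xc : ℂ)) cc bb (((List.finRange N).map Xl).reverse)

theorem exo_RR : TC.Exo (bb : NUF.St N) (RR N) (RX N) :=
  TC.exo_col _ (by simp [Xr]) (by simp) (by simp [Xr])

theorem exo_LL : TC.Exo (bb : NUF.St N) (LL N)
    (TC.colX (fun _ => EXL.hexW (xc : ℂ)) cc bb (((List.finRange N).map Xl).reverse)) :=
  TC.exo_col _ (by simp [Xl]) (by simp) (by simp [Xl])

theorem ofP_emptyΓ {Γ β : Type*} [AddCommGroup Γ] : ofP Γ (EXL.Pat.empty : EXL.Pat β) = LPat.empty := by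
  ext x
  · rfl
  · rfl

theorem arc_ofP {Γ β : Type*} [AddCommGroup Γ] [DecidableEq β] (a b : β) :
    arc a b (0 : Γ) = ofP Γ (EXL.Pat.cup a b EXL.Pat.empty) := by
  unfold arc
  rw [tw_zero, ← ofP_emptyΓ, ofP_cup]

theorem lab_tot' (N m : ℕ) : ∀ h, At.c h ∈ rtot N m ++ ltot N m →
    (DN om r).lab h = 0 ∧ h.2 ≠ 0 := by
  intro h hh
  have a1 : ((0, -1) : Pt) ≠ (1, -1) ∧ ((0, -1) : Pt) ≠ (-1, 1) := by decide
  have a2 : ((1, 0) : Pt) ≠ (1, -1) ∧ ((1, 0) : Pt) ≠ (-1, 1) := by decide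
  have a3 : ((0, 1) : Pt) ≠ (1, -1) ∧ ((0, 1) : Pt) ≠ (-1, 1) := by decide
  have a4 : ((-1, 0) : Pt) ≠ (1, -1) ∧ ((-1, 0) : Pt) ≠ (-1, 1) := by decide
  have key : crA r h = 0 := by
    rw [List.mem_append, mem_rtot, mem_ltot] at hh
    rcases hh with ⟨k, -, hh⟩ | ⟨k, -, hh⟩
    · rw [mem_rcol] at hh
      rcases hh with ⟨i, -, hh⟩ | hh
      · rcases hh with hh | hh | hh | hh | hh
        · exact absurd hh (by simp)
        · exact absurd hh (by simp)
        · obtain rfl := At.c.inj hh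
          exact crA_o _ a1.1 a1.2
        · obtain rfl := At.c.inj hh
          rw [crA_A, if_neg (by omega)]
        · obtain rfl := At.c.inj hh
          exact crA_o _ a2.1 a2.2
      · obtain rfl := At.c.inj hh
        exact crA_o _ a1.1 a1.2
    · rw [mem_lcol] at hh
      rcases hh with ⟨i, -, hh⟩ | hh
      · rcases hh with hh | hh | hh | hh | hh
        · exact absurd hh (by simp)
        · exact absurd hh (by simp)
        · obtain rfl := At.c.inj hh
          exact crA_o _ a3.1 a3.2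
        · obtain rfl := At.c.inj hh
          rw [crA_A, if_neg (by omega)]
        · obtain rfl := At.c.inj hh
          exact crA_o _ a4.1 a4.2
      · obtain rfl := At.c.inj hh
        exact crA_o _ a1.1 a1.2
  refine ⟨?_, (lab_tot 1 r N m h hh).2⟩
  rw [DN_lab, key]
  rfl

/-- the value of the network. -/
theorem words_tot (m : ℕ) (hm : 1 ≤ m) (k : ℤ) :
    ∑ t ∈ Wf N m r k, (xc : ℂ) ^ t.length * om ^ clA r t =
      (EXL.Net.cupO (lX 1) (lN k (-1)) * (rTot (xc : ℂ) N m * lTot (xc : ℂ) N m) : EXL.Net.Op Lab ℂ)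
        (fun p => ((gluX N r).map ((DN om r).op (xc : ℂ))).prod
          ((lCo (TC.nuw om) (0, -1) (lX 1) (lW 0 ((r : ℕ) : ℤ)) *
            NUF.lE (ℤ × ℤ) ℂ (EXL.Net.lE (-1) ((r : ℕ) : ℤ))) (dl (ℤ × ℤ) Lab)) (ofP (ℤ × ℤ) p))
        EXL.Pat.empty := by
  rw [← lk1' om (xc : ℂ) r.2 hm k, ← totX_eq (DN om r) (xc : ℂ) hm r.2]
  unfold totX
  rw [List.map_append, List.prod_append]
  simp only [Module.End.mul_apply]
  rw [arc_ofP, prod_ofP (DN om r) (TC.nuw_zero om) (xc : ℂ) _ (lab_tot' om r N m), List.map_append,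
    List.prod_append, prod_rtot, prod_ltot, EXL.Net.cupO_apply, if_pos ⟨rfl, rfl⟩, Module.End.mul_apply]
  rfl

theorem glu_fun (x : ℂ) :
    (fun q : EXL.Pat (NUF.St N) => (fun p => ((gluX N r).map ((DN om r).op x)).prod
      ((lCo (TC.nuw om) (0, -1) (lX 1) (lW 0 ((r : ℕ) : ℤ)) *
        NUF.lE (ℤ × ℤ) ℂ (EXL.Net.lE (-1) ((r : ℕ) : ℤ))) (dl (ℤ × ℤ) Lab)) (ofP (ℤ × ℤ) p))
      (Fr (fun _ => 0) (fun _ => -1) false 0 0 q)) = F0 om r :=
  funext fun q => gluX_ofP om x r q

/-- **(LK2), the feet on the right.** -/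
theorem lk2R (j n : ℕ) :
    ∑ t ∈ Wf N (j + 1 + n) r j, (xc : ℂ) ^ t.length * om ^ clA r t =
      (RR N)^[n] (RX N ((RR N)^[j] ((LL N)^[j + 1 + n] (FG om r)))) EXL.Pat.empty := by
  rw [words_tot om r (j + 1 + n) (by omega) j, tot_R, glu_fun]
  have e : RX N ((RR N)^[j] ((LL N)^[j + 1 + n] (F0 om r))) = RX N ((RR N)^[j] ((LL N)^[j + 1 + n] (FG om r))) := by
    conv_lhs => rw [F0_split om r]
    have hL := TC.Lin.add (lin_iterate (lin_colF (fun _ => EXL.hexW (xc : ℂ)) (cc : NUF.St N)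
      (((List.finRange N).map Xl).reverse)) (j + 1 + n))
    have hR := TC.Lin.add (lin_iterate (lin_colF (fun _ => EXL.hexW (xc : ℂ)) (cc : NUF.St N)
      ((List.finRange N).map Xr)) j)
    have h1 : (LL N)^[j + 1 + n] (EXL.emp bb (F0 om r)) = EXL.emp bb ((LL N)^[j + 1 + n] (F0 om r)) :=
      (exo_LL.iter_emp _ _).symm
    have h2 : ∀ G : EXL.Pat (NUF.St N) → ℂ, (RR N)^[j] (EXL.emp bb G) = EXL.emp bb ((RR N)^[j] G) :=
      fun G => (exo_RR.iter_emp _ _).symm
    rw [show (LL N)^[j + 1 + n] (FG om r + EXL.emp bb (F0 om r)) = _ from hL _ _, h1,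
      show (RR N)^[j] ((LL N)^[j + 1 + n] (FG om r) + EXL.emp bb ((LL N)^[j + 1 + n] (F0 om r))) = _ from hR _ _, h2,
      TC.Lin.add exo_RR.linX, exo_RR.X_emp, add_zero]
  rw [← e]
  rfl

/-- **(LK2), the feet on the left.** -/
theorem lk2L (j n : ℕ) :
    ∑ t ∈ Wf N (j + 1 + n) r (-(j : ℤ) - 1), (xc : ℂ) ^ t.length * om ^ clA r t =
      (RR N)^[j + 1 + n] ((LL N)^[n] (LT N ((LL N)^[j] (FG om r)))) EXL.Pat.empty := by
  rw [words_tot om r (j + 1 + n) (by omega) (-(j : ℤ) - 1), tot_L, glu_fun]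
  have e : LT N ((LL N)^[j] (F0 om r)) = LT N ((LL N)^[j] (FG om r)) := by
    conv_lhs => rw [F0_split om r]
    have hL := TC.Lin.add (lin_iterate (lin_colF (fun _ => EXL.hexW (xc : ℂ)) (cc : NUF.St N)
      (((List.finRange N).map Xl).reverse)) j)
    have h1 : (LL N)^[j] (EXL.emp bb (F0 om r)) = EXL.emp bb ((LL N)^[j] (F0 om r)) :=
      (exo_LL.iter_emp _ _).symm
    have hT : ∀ F G : EXL.Pat (NUF.St N) → ℂ, LT N (F + G) = LT N F + LT N G :=
      TC.Lin.add (TC.lin_colT _ _ _ _)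
    have hz : ∀ G : EXL.Pat (NUF.St N) → ℂ, LT N (EXL.emp bb G) = 0 := fun G => colT_emp _ G
    rw [show (LL N)^[j] (FG om r + EXL.emp bb (F0 om r)) = _ from hL _ _, h1, hT, hz, add_zero]
  rw [cY_eq, ← e]

/-- **(LK2)**: all feet. -/
theorem lk2 (m : ℕ) :
    ∑ k ∈ Finset.Ico (-(m : ℤ)) m, ∑ t ∈ Wf N m r k, (xc : ℂ) ^ t.length * om ^ clA r t =
      (∑ j ∈ Finset.range m, (RR N)^[m - 1 - j] (RX N ((RR N)^[j] ((LL N)^[m] (FG om r))))) EXL.Pat.empty +
      (∑ j ∈ Finset.range m, (RR N)^[m] ((LL N)^[m - 1 - j] (LT N ((LL N)^[j] (FG om r))))) EXL.Pat.empty := by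
  rw [Finset.sum_apply, Finset.sum_apply]
  have e1 : ∀ j ∈ Finset.range m, ((RR N)^[m - 1 - j] (RX N ((RR N)^[j] ((LL N)^[m] (FG om r))))) EXL.Pat.empty =
      ∑ t ∈ Wf N m r (j : ℤ), (xc : ℂ) ^ t.length * om ^ clA r t := by
    intro j hj
    rw [Finset.mem_range] at hj
    obtain ⟨n, rfl⟩ : ∃ n, m = j + 1 + n := ⟨m - (j + 1), by omega⟩
    rw [lk2R, show j + 1 + n - 1 - j = n by omega]
  have e2 : ∀ j ∈ Finset.range m, ((RR N)^[m] ((LL N)^[m - 1 - j] (LT N ((LL N)^[j] (FG om r))))) EXL.Pat.empty =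
      ∑ t ∈ Wf N m r (-(j : ℤ) - 1), (xc : ℂ) ^ t.length * om ^ clA r t := by
    intro j hj
    rw [Finset.mem_range] at hj
    obtain ⟨n, rfl⟩ : ∃ n, m = j + 1 + n := ⟨m - (j + 1), by omega⟩
    rw [lk2L, show j + 1 + n - 1 - j = n by omega]
  rw [Finset.sum_congr rfl e1, Finset.sum_congr rfl e2]
  have hd : Disjoint (Finset.Ico (-(m : ℤ)) 0) (Finset.Ico 0 (m : ℤ)) := by
    rw [Finset.disjoint_left]
    intro k h1 h2
    rw [Finset.mem_Ico] at h1 h2
    omega
  have hu : Finset.Ico (-(m : ℤ)) m = Finset.Ico (-(m : ℤ)) 0 ∪ Finset.Ico 0 (m : ℤ) := by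
    ext k
    simp only [Finset.mem_union, Finset.mem_Ico]
    omega
  rw [hu, Finset.sum_union hd, add_comm]
  congr 1
  · symm
    refine Finset.sum_bij' (fun j _ => (j : ℤ)) (fun k _ => k.toNat) ?_ ?_ ?_ ?_ ?_
    · intro j hj
      rw [Finset.mem_range] at hj
      rw [Finset.mem_Ico]
      omega
    · intro k hk
      rw [Finset.mem_Ico] at hk
      rw [Finset.mem_range]
      omega
    · intro j _
      simp
    · intro k hk
      rw [Finset.mem_Ico] at hk
      exact Int.toNat_of_nonneg hk.1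
    · intro j _
      rfl
  · symm
    refine Finset.sum_bij' (fun j _ => -(j : ℤ) - 1) (fun k _ => (-k - 1).toNat) ?_ ?_ ?_ ?_ ?_
    · intro j hj
      rw [Finset.mem_range] at hj
      rw [Finset.mem_Ico]
      omega
    · intro k hk
      rw [Finset.mem_Ico] at hk
      rw [Finset.mem_range]
      omega
    · intro j _
      omega
    · intro k hk
      rw [Finset.mem_Ico] at hk
      omega
    · intro j _
      rfl

end final

end Pool.Agent.NUN
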