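import Pool.Agent.TC.LkFin0
import Pool.Agent.TC.LkSum

/-!
# Type C, link: the sum over the walks to the floor tends to the one leg function of the honeycomb strip

`lk_lim`: the sum over the feet and the words tends to `Mreg om N r`.
-/

set_option autoImplicit false

namespace Pool.Agent.TC

open _root_.Pool.Agent.EXL hiding cc
open _root_.Pool.Agent.EXL.Pat _root_.Pool.Agent.EXL.HS Pool.Agent.NUF Pool.Agent.NUT2
  Pool.Agent.NUN HexObs Filter Topology

theorem Llow_eq (N r : ℕ) : La N r = Llow N r := rfl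

theorem Lup_eq (N r : ℕ) : Lb' N (r + 1) = Lup N r := rfl

/-- **The sum over the walks to the floor tends to the one leg function of the honeycomb strip.** -/
theorem lk_lim (om : ℂ) {N : ℕ} (r : Fin N) :
    Tendsto (fun m : ℕ => ∑ k ∈ Finset.Ico (-(m : ℤ)) m, ∑ t ∈ Wf N m r k,
      (xc : ℂ) ^ t.length * om ^ clA r t) atTop (𝓝 (Mreg om N r r.2)) := by
  have hn : ((bb : NUF.St N) :: ((List.finRange N).map Xr ++ (List.finRange N).map Xl)).Nodup := by
    rw [List.nodup_cons, List.nodup_append]
    have i1 : ((List.finRange N).map (Xr : Fin N → NUF.St N)).Nodup :=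
      (List.nodup_finRange N).map (fun i j h => by simpa [Xr] using h)
    have i2 : ((List.finRange N).map (Xl : Fin N → NUF.St N)).Nodup :=
      (List.nodup_finRange N).map (fun i j h => by simpa [Xl] using h)
    refine ⟨?_, i1, i2, ?_⟩
    · rw [List.mem_append, List.mem_map, List.mem_map]
      rintro (⟨i, -, h⟩ | ⟨i, -, h⟩)
      · simp [Xr] at h
      · simp [Xl] at h
    · intro a ha b hb
      obtain ⟨i, -, rfl⟩ := List.mem_map.1 ha
      obtain ⟨j, -, rfl⟩ := List.mem_map.1 hb
      simp [Xr, Xl]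
  have hout : ∀ l : Fin 4, l ≠ 1 → (Sum.inr l : NUF.St N) ∉
      (bb : NUF.St N) :: ((List.finRange N).map Xr ++ (List.finRange N).map Xl) := by
    intro l hl
    rw [List.mem_cons, List.mem_append, List.mem_map, List.mem_map]
    rintro (h | ⟨i, -, h⟩ | ⟨i, -, h⟩)
    · exact hl (Sum.inr_injective h)
    · simp [Xr] at h
    · simp [Xl] at h
  have key := exits_lim (ν := nuw om) (F := FG om r) hn (hout 0 (by decide)) (hout 3 (by decide)) (by simp)
    (m := Xr r) (by simp [Xr]) (chX (Lup N r) bb) (Llow N r ++ Lup N r) rfl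
  rw [Mreg_eq om r.2]
  refine key.congr fun m => ?_
  rw [lk2 om r m, Finset.sum_apply, Finset.sum_apply]

end Pool.Agent.TC
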