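import Pool.Agent.TC.WVec
import Pool.Agent.NUF.URen

/-!
# Renaming of the one leg functional
-/

set_option autoImplicit false

namespace Pool.Agent.TC

open _root_.Pool.Agent.EXL _root_.Pool.Agent.EXL.Pat _root_.Pool.Agent.EXL.HS Pool.Agent.NUF

section ren

variable {α β : Type*} [DecidableEq α] [DecidableEq β] {e : β → α} (he : Function.Injective e)
  {X : List β} {b c : β} {z : β → ℂ} {z' : α → ℂ}

include he in
theorem T1_rst (h : ∀ j ∈ X, z' (e j) = z j) (hc : c ∉ X) (F : Pat α → ℂ) (q : Pat β) :
    T1 z' (e c) (e b) (X.map e) F (rst he q) = T1 z c b X (fun q => F (rst he q)) q := by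
  have hcc : rst he q (e c) = e c ↔ q c = c := by
    rw [rst_apply]
    exact he.eq_iff
  have hbb : rst he q (e b) = e b ↔ q b = b := by
    rw [rst_apply]
    exact he.eq_iff
  unfold T1
  rw [Module.End.mul_apply, Module.End.mul_apply, Module.End.mul_apply, Module.End.mul_apply, opCu_apply,
    opCu_apply]
  by_cases hok : CuOK c b q
  · have hok' : CuOK (e c) (e b) (rst he q) := ⟨hcc.2 hok.1, hbb.2 hok.2⟩
    rw [if_pos hok, if_pos hok', uops_E_apply, uops_E_apply, uops_M_apply _ _ (notMem_map he hc),
      uops_M_apply _ _ hc]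
    have e1 : cup (e c) (e b) (rst he q) = rst he (cup c b q) := by
      have := Pat.Emb.st_cup (eE he) q c b
      exact this
    rw [e1]
    have h2 := M_rst he (w := fun j => rwt ((uops (ι := β)).h - z j)) (w' := fun j => rwt ((uops (ι := α)).h - z' j))
      (X := X) (fun j hj => by rw [h j hj]; rfl) c (emp (e c) F) (cup c b q)
    refine h2.trans ?_
    congr 1
    funext q''
    exact emp_st (eE he) F q'' c
  · have hok' : ¬ CuOK (e c) (e b) (rst he q) := fun h => hok ⟨hcc.1 h.1, hbb.1 h.2⟩
    rw [if_neg hok, if_neg hok']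

variable [Finite α] [Finite β]

/-- **Renaming of the one leg functional.** -/
theorem IsW.push {W : Fnl β} (hn : (b :: X).Nodup) (hc : c ∉ b :: X) (h : ∀ j ∈ X, z' (e j) = z j)
    (hR : Reg z X) (hW : IsW z b X W) : IsW z' (e b) (X.map e) (NUF.push he W) := by
  have hn' : (e b :: X.map e).Nodup := by
    rw [← List.map_cons]
    exact hn.map he
  have hc' : e c ∉ e b :: X.map e := by
    rw [← List.map_cons]
    exact notMem_map he hc
  have hnX := (List.nodup_cons.1 hn).2
  have hcX := (notMem_cons hc).2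
  have hR' := (reg_map_iff he hnX hcX h).2 hR
  have hs : SupF (A1 (e b) (X.map e)) (NUF.push he W) := by
    intro F hF
    rw [push_apply]
    refine hW.sup _ fun q hq => hF _ ⟨?_, ?_⟩
    · have h1 : AX ((b :: X).map e) (rst he q) := (ax_rst he).2 hq.1
      exact h1
    · rw [rst_apply]
      exact fun e1 => hq.2 (he e1)
  refine ⟨hs, fun c' hc2 => eq_indep (isV_VV (hnX.map he) (notMem_map he hcX) hR').sup hs hn' hc' hc2 ?_⟩
  refine LinearMap.ext fun F => ?_
  have k := congrArg (fun U : Fnl β => U (fun q => F (rst he q))) (hW.eq c hc)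
  simp only [LinearMap.sub_apply, LinearMap.comp_apply] at k ⊢
  rw [push_apply, push_apply, VV_map he hnX hcX h hR]
  have h1 : (fun q => T0 z' (e c) (X.map e) F (rst he q)) = T0 z c X (fun q => F (rst he q)) := by
    funext q
    exact T0_rst he h hcX F q
  have h2 : (fun q => T1 z' (e c) (e b) (X.map e) F (rst he q)) = T1 z c b X (fun q => F (rst he q)) := by
    funext q
    exact T1_rst he h hcX F q
  rw [h1, h2]
  exact k

theorem WW_map (hn : (b :: X).Nodup) (hc : c ∉ b :: X) (h : ∀ j ∈ X, z' (e j) = z j)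
    (hR : Reg z X) (hR1 : Reg1 z b X) (hR1' : Reg1 z' (e b) (X.map e)) :
    WW z' (e b) (X.map e) = NUF.push he (WW z b X) := by
  have hn' : (e b :: X.map e).Nodup := by
    rw [← List.map_cons]
    exact hn.map he
  have hc' : e c ∉ e b :: X.map e := by
    rw [← List.map_cons]
    exact notMem_map he hc
  have hnX := (List.nodup_cons.1 hn).2
  have hcX := (notMem_cons hc).2
  exact (((isW_WW hn hc hR hR1).push he hn hc h hR).eq_WW hn' hc' ((reg_map_iff he hnX hcX h).2 hR) hR1').symm

end ren

end Pool.Agent.TC
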