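import Pool.Agent.TC.PSW
import Pool.Agent.TC.Fam

/-!
# The one leg function of the strip at the honeycomb point (helper92)

`WT_tend`: when all rapidities tend to `s z0` (`s = 1` or `-1`) the function `WT ω ζ K L A B q g m` tends to
`Qh |right| * Qh |left|` times `WH ω s K L A B q g m`, the pairing of the vectors `VV`, `WW` of the honeycomb
half strips.
-/

set_option autoImplicit false

namespace Pool.Agent.TC

open _root_.Pool.Agent.EXL _root_.Pool.Agent.EXL.HS _root_.Pool.Agent.NUF _root_.Pool.Agent.NUU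
open _root_.Pool.Agent.NUT2 Filter Topology

section bil

variable {α : Type*}

/-- a functional as a finite sum -/
theorem fnl_sum [Fintype (Pat α)] (V : Fnl α) (F : Pat α → ℂ) : V F = ∑ p, F p * V (HS.ind p) := by
  classical
  have e : F = ∑ p, F p • (HS.ind p : Pat α → ℂ) := by
    funext q
    rw [Finset.sum_apply, Finset.sum_eq_single q]
    · rw [Pi.smul_apply, ind_self, smul_eq_mul, mul_one]
    · intro p _ hp
      rw [Pi.smul_apply, ind_ne hp.symm, smul_zero]
    · intro h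
      exact absurd (Finset.mem_univ _) h
  conv_lhs => rw [e]
  rw [map_sum]
  exact Finset.sum_congr rfl fun p _ => by rw [map_smul, smul_eq_mul]

variable {Γ : Type*} [AddCommGroup Γ] [DecidableEq α] [Finite α] {Z : Type*} {l : Filter Z}

theorem Wp_tend {ν : Γ → ℂ} {χ : α → Γ} {V V' : Z → Fnl α} {V0 V0' : Fnl α} {m q : α}
    {L : List (α × α)} (h : ∀ F, Tendsto (fun y => V y F) l (𝓝 (V0 F)))
    (h' : ∀ F, Tendsto (fun y => V' y F) l (𝓝 (V0' F))) :
    Tendsto (fun y => Wp ν χ (V y) (V' y) m q L) l (𝓝 (Wp ν χ V0 V0' m q L)) := by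
  have : Fintype (Pat α) := Fintype.ofFinite _
  have e : ∀ U U' : Fnl α, Wp ν χ U U' m q L = ∑ p, U' (fun r =>
      Tw χ (Gf ν m q L) (ofP Γ (un p r))) * U (HS.ind p) := fun U U' => by
    show U (fun p => U' fun r => Tw χ (Gf ν m q L) (ofP Γ (un p r))) = _
    rw [fnl_sum]
  simp only [e]
  exact tendsto_finsetSum _ fun p _ => (h' _).mul (h _)

end bil

section hex

variable {α : Type*} [DecidableEq α] {K L : List (α × α)} {A B : List α} {q g m c d : α} {s ω : ℂ}

/-- **The one leg function of the honeycomb strip** (rapidities `s z0`, right half strip `-s z0`). -/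
noncomputable def WH (ω s : ℂ) (K L : List (α × α)) (A B : List α) (q g m : α) : ℂ :=
  Wp (nuw ω) (chX L q) (WW (fun _ => -s * z0) q (lr K L A)) (VV (fun _ => s * z0) (ll K L B)) m q (K ++ L) +
    Wp (nuw ω) (chX L g) (VV (fun _ => -s * z0) (lr K L A)) (WW (fun _ => s * z0) g (ll K L B)) m g (K ++ L)

omit [DecidableEq α] in
/-- a spare site -/
theorem OkT.spare (h : OkT K L A B q g m) (hc : c ∉ sites K L A B q g) :
    c ∉ q :: lr K L A ∧ c ∉ g :: ll K L B := by
  have hn := h.nd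
  unfold sites at hn hc
  unfold lr ll
  simp only [List.nodup_append, List.nodup_cons, List.map_append, List.mem_append, List.mem_cons,
    not_or] at hn hc ⊢
  grind

theorem OkT.ndq (h : OkT K L A B q g m) : (q :: lr K L A).Nodup ∧ (g :: ll K L B).Nodup :=
  ⟨List.nodup_cons.2 ⟨h.outR.1, h.ndR⟩, List.nodup_cons.2 ⟨h.outL.2.1, h.ndL⟩⟩

/-- **The value at the honeycomb point.** -/
theorem WT_tend [Finite α] {Z : Type*} {l : Filter Z} {ζ : Z → α → ℂ} (h : OkT K L A B q g m)
    (hs : s = 1 ∨ s = -1) (hc : c ∉ sites K L A B q g) (hd : d ∉ sites K L A B q g) (hcd : c ≠ d)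
    (hR : ∀ x ∈ lr K L A, Tendsto (fun y => ζ y x) l (𝓝 (s * z0)))
    (hL : ∀ x ∈ ll K L B, Tendsto (fun y => ζ y x) l (𝓝 (s * z0)))
    (dR : ∀ᶠ y in l, ∀ i ∈ lr K L A, ∀ j ∈ lr K L A, i ≠ j → ζ y i ≠ ζ y j)
    (dL : ∀ᶠ y in l, ∀ i ∈ ll K L B, ∀ j ∈ ll K L B, i ≠ j → ζ y i ≠ ζ y j) :
    Tendsto (fun y => WT ω (ζ y) K L A B q g m) l
      (𝓝 (Qh (lr K L A).length * Qh (ll K L B).length * WH ω s K L A B q g m)) := by
  have c1 := h.spare hc
  have d1 := h.spare hd
  have n1 := h.ndq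
  have hs' : -s = 1 ∨ -s = -1 := by
    rcases hs with rfl | rfl
    · exact Or.inr rfl
    · exact Or.inl (neg_neg 1)
  have hR' : ∀ x ∈ lr K L A, Tendsto (fun y => (fun i => -ζ y i) x) l (𝓝 (-s * z0)) := fun x hx => by
    rw [neg_mul]
    exact (hR x hx).neg
  have dR' : ∀ᶠ y in l, ∀ i ∈ lr K L A, ∀ j ∈ lr K L A, i ≠ j →
      (fun i => -ζ y i) i ≠ (fun i => -ζ y i) j := by
    filter_upwards [dR] with y hy i hi j hj hij e
    exact hy i hi j hj hij (neg_injective e)
  have e : Qh (lr K L A).length * Qh (ll K L B).length * WH ω s K L A B q g m =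
      Wp (nuw ω) (chX L q) (Qh (lr K L A).length • WW (fun _ => -s * z0) q (lr K L A))
        (Qh (ll K L B).length • VV (fun _ => s * z0) (ll K L B)) m q (K ++ L) +
      Wp (nuw ω) (chX L g) (Qh (lr K L A).length • VV (fun _ => -s * z0) (lr K L A))
        (Qh (ll K L B).length • WW (fun _ => s * z0) g (ll K L B)) m g (K ++ L) := by
    rw [Wp_smul, Wp_smul', Wp_smul, Wp_smul']
    unfold WH
    ring
  rw [e]
  refine Tendsto.add ?_ ?_
  · refine Wp_tend (fun F => ?_) fun F => ?_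
    · exact PS_tend n1.1 hs' c1.1 d1.1 hcd hR' dR' F
    · exact PH_tend h.ndL hs (notMem_cons c1.2).2 (notMem_cons d1.2).2 hcd hL dL F
  · refine Wp_tend (fun F => ?_) fun F => ?_
    · exact PH_tend h.ndR hs' (notMem_cons c1.1).2 (notMem_cons d1.1).2 hcd hR' dR' F
    · exact PS_tend n1.2 hs c1.2 d1.2 hcd hL dL F

end hex

end Pool.Agent.TC
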