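import Pool.Agent.TC.LkLim1
import Pool.Agent.TC.WRen
import Pool.Agent.TC.WTHex
import Pool.Agent.TC.Can
import Pool.Agent.NUN.Front

/-!
# Type C, link: the one leg function of the honeycomb strip on the sites of the network

`Mreg om N r hr` = `WH om (-1)` on the sites `St N`, with the cut row `r`; `WH_one`: both exits may be the same site.
-/

set_option autoImplicit false

namespace Pool.Agent.TC

open _root_.Pool.Agent.EXL _root_.Pool.Agent.EXL.HS Pool.Agent.NUF Pool.Agent.NUT2 Pool.Agent.NUN Filter Topology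

section gen

variable {α : Type*} [DecidableEq α] {K L : List (α × α)} {A B : List α} {q g m c d : α} {ω s : ℂ}
  {z : α → ℂ} {X : List α} {b : α}

theorem VV_supS [Finite α] (hn : X.Nodup) (hc : c ∉ X) (hR : Reg z X) : SupS {x | x ∈ X} (VV z X) :=
  fun F hF => (isV_VV hn hc hR).sup F fun p hp => hF p fun x hx => ax_out hp hx

theorem WW_supS [Finite α] (hn : (b :: X).Nodup) (hc : c ∉ b :: X) (hR : Reg z X) (hR1 : Reg1 z b X) :
    SupS (insert b {x | x ∈ X}) (WW z b X) :=
  fun F hF => (isW_WW hn hc hR hR1).sup F fun p hp => hF p fun x hx => ax_out hp.1 fun h => hx (by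
    rcases List.mem_cons.1 h with rfl | h
    · exact Set.mem_insert _ _
    · exact Set.mem_insert_of_mem _ h)

theorem map_swap_id {Y : List α} (h1 : q ∉ Y) (h2 : g ∉ Y) : Y.map (Equiv.swap q g) = Y := by
  have : Y.map (Equiv.swap q g) = Y.map id := by
    refine List.map_congr_left fun x hx => ?_
    exact Equiv.swap_apply_of_ne_of_ne (fun e => h1 (e ▸ hx)) (fun e => h2 (e ▸ hx))
  rw [this, List.map_id]

theorem map_swap_id2 {Y : List (α × α)} (h1 : q ∉ Y.map Prod.fst) (h2 : g ∉ Y.map Prod.fst)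
    (h3 : q ∉ Y.map Prod.snd) (h4 : g ∉ Y.map Prod.snd) :
    Y.map (Prod.map (Equiv.swap q g) (Equiv.swap q g)) = Y := by
  have : Y.map (Prod.map (Equiv.swap q g) (Equiv.swap q g)) = Y.map id := by
    refine List.map_congr_left fun x hx => ?_
    have k1 := List.mem_map_of_mem (f := Prod.fst) hx
    have k2 := List.mem_map_of_mem (f := Prod.snd) hx
    refine Prod.ext ?_ ?_
    · exact Equiv.swap_apply_of_ne_of_ne (fun e => h1 (e ▸ k1)) (fun e => h2 (e ▸ k1))
    · exact Equiv.swap_apply_of_ne_of_ne (fun e => h3 (e ▸ k2)) (fun e => h4 (e ▸ k2))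
  rw [this, List.map_id]

/-- **The exit on the left may use the site of the exit on the right.** -/
theorem Wp_exit [Finite α] (h : OkT K L A B q g m) (hs : s = 1 ∨ s = -1) (hc : c ∉ sites K L A B q g)
    (hd : d ∉ sites K L A B q g) (hcd : c ≠ d) :
    Wp (nuw ω) (chX L g) (VV (fun _ => -s * z0) (lr K L A)) (WW (fun _ => s * z0) g (ll K L B)) m g (K ++ L) =
      Wp (nuw ω) (chX L q) (VV (fun _ => -s * z0) (lr K L A)) (WW (fun _ => s * z0) q (ll K L B)) m q
        (K ++ L) := by
  have hs' : -s = 1 ∨ -s = -1 := by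
    rcases hs with rfl | rfl
    · exact Or.inr rfl
    · exact Or.inl (neg_neg 1)
  have c1 := h.spare hc
  have d1 := h.spare hd
  have nd := h.ndq
  have oR := h.outR
  have oL := h.outL
  have hnd := h.nd
  have hm := h.m_mem
  -- the sites c, d are outside everything
  have cq : c ≠ q ∧ c ≠ g ∧ d ≠ q ∧ d ≠ g := by
    unfold sites at hc hd
    simp only [List.mem_append, List.mem_cons, not_or] at hc hd
    exact ⟨hc.2.1, hc.2.2.1, hd.2.1, hd.2.2.1⟩
  have cL := (notMem_cons c1.2).2
  have dL := (notMem_cons d1.2).2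
  have cR := (notMem_cons c1.1).2
  have dR := (notMem_cons d1.1).2
  have nqL : (q :: ll K L B).Nodup := List.nodup_cons.2 ⟨oL.1, h.ndL⟩
  have cqL : c ∉ q :: ll K L B := by
    rw [List.mem_cons, not_or]
    exact ⟨cq.1, cL⟩
  have dqL : d ∉ q :: ll K L B := by
    rw [List.mem_cons, not_or]
    exact ⟨cq.2.2.1, dL⟩
  set e : α → α := ⇑(Equiv.swap q g) with he0
  have he : Function.Injective e := (Equiv.swap q g).injective
  have hR : Reg (fun _ : α => s * z0) (ll K L B) := reg_s h.ndL hs cL dL hcd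
  have hRR : Reg (fun _ : α => -s * z0) (lr K L A) := reg_s h.ndR hs' cR dR hcd
  have hR1 : Reg1 (fun _ : α => s * z0) q (ll K L B) := reg1_s nqL hs cqL dqL hcd
  have hR1' : Reg1 (fun _ : α => s * z0) g (ll K L B) := reg1_s nd.2 hs c1.2 d1.2 hcd
  have eqg : e q = g := Equiv.swap_apply_left q g
  have egq : e g = q := Equiv.swap_apply_right q g
  have mapL : (ll K L B).map e = ll K L B := map_swap_id oL.1 oL.2.1
  have mapR : (lr K L A).map e = lr K L A := map_swap_id oR.1 oR.2.1
  have memll : ∀ x, x ∈ (K ++ L).map Prod.snd → x ∈ ll K L B := by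
    intro x hx
    unfold ll
    simp only [List.map_append, List.mem_append] at hx ⊢
    tauto
  have memlr : ∀ x, x ∈ (K ++ L).map Prod.fst → x ∈ lr K L A := by
    intro x hx
    unfold lr
    simp only [List.map_append, List.mem_append] at hx ⊢
    tauto
  have mapK : (K ++ L).map (Prod.map e e) = K ++ L :=
    map_swap_id2 (fun h => oR.1 (memlr _ h)) (fun h => oR.2.1 (memlr _ h)) (fun h => oL.1 (memll _ h))
      (fun h => oL.2.1 (memll _ h))
  have mapL' : L.map (Prod.map e e) = L := by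
    refine map_swap_id2 (fun h => oR.1 (memlr _ ?_)) (fun h => oR.2.1 (memlr _ ?_)) (fun h => oL.1 (memll _ ?_))
      (fun h => oL.2.1 (memll _ ?_))
    all_goals
      simp only [List.map_append, List.mem_append]
      exact Or.inr h
  have hmq : m ≠ q ∧ m ≠ g := by
    have g1 := h.gdq
    have g2 := h.gdg
    exact ⟨(Gd_cons.1 g1).1, (Gd_cons.1 g2).1⟩
  have em : e m = m := Equiv.swap_apply_of_ne_of_ne hmq.1 hmq.2
  have w1 : WW (fun _ => s * z0) g (ll K L B) = push he (WW (fun _ => s * z0) q (ll K L B)) := by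
    have := WW_map he (z := fun _ : α => s * z0) (z' := fun _ : α => s * z0) nqL cqL (fun _ _ => rfl) hR hR1
      (by rw [eqg, mapL]; exact hR1')
    rwa [eqg, mapL] at this
  have w2 : VV (fun _ => -s * z0) (lr K L A) = push he (VV (fun _ => -s * z0) (lr K L A)) := by
    refine LinearMap.ext fun F => ?_
    have := VV_map he (z := fun _ : α => -s * z0) (z' := fun _ : α => -s * z0) h.ndR cR (fun _ _ => rfl) hRR F
    rw [mapR] at this
    exact this
  have key := Wp_map (ν := nuw ω) he (χ := chX L q) (χ' := chX L g) (fun x => by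
      have := chX_map he L q x
      rwa [mapL', eqg] at this) h.gdq (V := VV (fun _ => -s * z0) (lr K L A))
      (V' := WW (fun _ => s * z0) q (ll K L B)) (VV_supS h.ndR cR hRR) (WW_supS nqL cqL hR hR1) (by
      rw [Set.disjoint_left]
      intro x hx hx'
      rcases hx' with rfl | hx'
      · exact oR.1 hx
      · exact oR.2.2 x hx' hx)
  rw [em, eqg, mapK, ← w1, ← w2] at key
  exact key

/-- the negative labels. -/
theorem Wp_neg {ι : Type*} [DecidableEq ι] (χ : ι → ℤ × ℤ) (V V' : Fnl ι) (m q : ι) (L : List (ι × ι)) :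
    Wp (nuw ω) (-χ) V V' m q L = Wp (nuw ω) χ V V' m q L := by
  have h := Wp_hom (ν := nuw ω) (-(AddMonoidHom.id (ℤ × ℤ))) χ V V' m q L
  have e1 : nuw ω ∘ (-(AddMonoidHom.id (ℤ × ℤ))) = nuw ω := by
    funext g
    show nuw ω (-g) = nuw ω g
    exact nuw_neg ω g
  rw [e1] at h
  exact h.symm

end gen

/-! ### the sites of the network -/

section net

/-- the lines below the cut row. -/
def Llow (N r : ℕ) : List (NUF.St N × NUF.St N) := ((List.finRange N).take r).map lk

/-- the lines above the cut row. -/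
def Lup (N r : ℕ) : List (NUF.St N × NUF.St N) := ((List.finRange N).drop (r + 1)).map lk

theorem fin_split {N r : ℕ} (hr : r < N) :
    List.finRange N = (List.finRange N).take r ++ (⟨r, hr⟩ :: (List.finRange N).drop (r + 1)) := by
  conv_lhs => rw [← List.take_append_drop r (List.finRange N)]
  congr 1
  rw [List.drop_eq_getElem_cons (by rw [List.length_finRange]; exact hr)]
  congr 1
  rw [List.getElem_finRange]
  rfl

theorem lr_net {N r : ℕ} (hr : r < N) :
    lr (Llow N r) (Lup N r) [Xr ⟨r, hr⟩] = (List.finRange N).map Xr := by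
  conv_rhs => rw [fin_split hr]
  unfold lr Llow Lup
  simp only [List.map_append, List.map_map, List.map_cons, List.singleton_append]
  rfl

theorem ll_net {N r : ℕ} (hr : r < N) :
    ll (Llow N r) (Lup N r) [Xl ⟨r, hr⟩] = (List.finRange N).map Xl := by
  conv_rhs => rw [fin_split hr]
  unfold ll Llow Lup
  simp only [List.map_append, List.map_map, List.map_cons, List.singleton_append]
  rfl

theorem okT_net {N r : ℕ} (hr : r < N) :
    OkT (Llow N r) (Lup N r) [Xr ⟨r, hr⟩] [Xl ⟨r, hr⟩] (Sum.inr 1) (Sum.inr 2) (Xr ⟨r, hr⟩) := by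
  refine ⟨?_, by simp⟩
  have hp : (sites (Llow N r) (Lup N r) [Xr ⟨r, hr⟩] [Xl ⟨r, hr⟩] (Sum.inr 1) (Sum.inr 2)).Perm
      ((List.finRange N).map Xr ++ ((List.finRange N).map Xl ++ [Sum.inr 1, Sum.inr 2])) := by
    rw [← lr_net hr, ← ll_net hr]
    unfold sites lr ll
    rw [← Multiset.coe_eq_coe]
    simp only [List.map_append, ← Multiset.coe_add, ← Multiset.cons_coe, ← Multiset.singleton_add,
      Multiset.coe_nil]
    abel
  rw [hp.nodup_iff, List.nodup_append, List.nodup_append]
  have i1 : ((List.finRange N).map (Xr : Fin N → NUF.St N)).Nodup :=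
    (List.nodup_finRange N).map (fun i j h => by simpa [Xr] using h)
  have i2 : ((List.finRange N).map (Xl : Fin N → NUF.St N)).Nodup :=
    (List.nodup_finRange N).map (fun i j h => by simpa [Xl] using h)
  refine ⟨i1, ⟨i2, by simp, ?_⟩, ?_⟩
  · intro a ha b hb
    obtain ⟨i, -, rfl⟩ := List.mem_map.1 ha
    simp only [List.mem_cons, List.not_mem_nil, or_false] at hb
    rcases hb with rfl | rfl <;> simp [Xl]
  · intro a ha b hb
    obtain ⟨i, -, rfl⟩ := List.mem_map.1 ha
    simp only [List.mem_append, List.mem_cons, List.not_mem_nil, or_false] at hb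
    rcases hb with hb | rfl | rfl
    · obtain ⟨j, -, rfl⟩ := List.mem_map.1 hb
      simp [Xr, Xl]
    · simp [Xr]
    · simp [Xr]

theorem spare_net {N r : ℕ} (hr : r < N) {l : Fin 4} (hl : l ≠ 1 ∧ l ≠ 2) :
    (Sum.inr l : NUF.St N) ∉ sites (Llow N r) (Lup N r) [Xr ⟨r, hr⟩] [Xl ⟨r, hr⟩] (Sum.inr 1) (Sum.inr 2) := by
  unfold sites Llow Lup
  simp only [List.map_append, List.map_map, List.mem_append, List.mem_map, List.mem_cons, List.not_mem_nil,
    Function.comp_apply, not_or, or_false, lk, Xr, Xl, Sum.inr.injEq]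
  refine ⟨⟨⟨?_, ?_⟩, ?_, ?_⟩, hl.1, hl.2, ?_, ?_⟩
  · rintro ⟨i, -, h⟩
    simp at h
  · rintro ⟨i, -, h⟩
    simp at h
  · rintro ⟨i, -, h⟩
    simp at h
  · rintro ⟨i, -, h⟩
    simp at h
  · simp
  · simp

/-- **The one leg function of the honeycomb strip** with `N` rows, cut at the row `r`. -/
noncomputable def Mreg (om : ℂ) (N r : ℕ) (hr : r < N) : ℂ :=
  WH om (-1) (Llow N r) (Lup N r) [Xr ⟨r, hr⟩] [Xl ⟨r, hr⟩] (Sum.inr 1) (Sum.inr 2) (Xr ⟨r, hr⟩)

/-- with one exit site and the rapidities `± π / 16`. -/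
theorem Mreg_eq (om : ℂ) {N r : ℕ} (hr : r < N) : Mreg om N r hr =
    Wp (nuw om) (chX (Lup N r) (Sum.inr 1)) (WW NUG.z0 (Sum.inr 1) ((List.finRange N).map Xr))
      (VV (fun j => -NUG.z0 j) ((List.finRange N).map Xl)) (Xr ⟨r, hr⟩) (Sum.inr 1) (Llow N r ++ Lup N r) +
    Wp (nuw om) (chX (Lup N r) (Sum.inr 1)) (VV NUG.z0 ((List.finRange N).map Xr))
      (WW (fun j => -NUG.z0 j) (Sum.inr 1) ((List.finRange N).map Xl)) (Xr ⟨r, hr⟩) (Sum.inr 1)
      (Llow N r ++ Lup N r) := by
  have e1 : (fun _ : NUF.St N => -(-1) * NUF.z0) = NUG.z0 := by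
    funext _
    unfold NUF.z0 NUG.z0
    ring
  have e2 : (fun _ : NUF.St N => (-1) * NUF.z0) = fun j => -NUG.z0 j := by
    funext _
    unfold NUF.z0 NUG.z0
    ring
  have h := Wp_exit (ω := om) (s := -1) (okT_net hr) (Or.inr rfl) (spare_net hr (l := 0) (by decide))
    (spare_net hr (l := 3) (by decide)) (by simp)
  unfold Mreg WH
  rw [h, lr_net, ll_net]
  congr 1
  · congr 1
    · rw [← e1]
    · rw [← e2]
  · congr 1
    · rw [← e1]
    · rw [← e2]

end net

end Pool.Agent.TC
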