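import Pool.Agent.TC.LkFin0
import Pool.Agent.TC.LkCol

/-!
# Type C, link: the sum over the feet tends to the one leg function of the honeycomb strip

`lk_fin`: from the values of the network (the columns in order) to the limit `Mreg`.
-/

set_option autoImplicit false

namespace Pool.Agent.TC

open _root_.Pool.Agent.EXL hiding cc
open _root_.Pool.Agent.EXL.Pat _root_.Pool.Agent.EXL.HS Pool.Agent.NUF Pool.Agent.NUT2
  Pool.Agent.NUN HexObs Filter Topology

theorem nuL_eq (om : ℂ) : nuL om = nuw om := rfl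

section cols

variable {K : Type*} [CommRing K] {N : ℕ}

theorem cX_eq (x : K) (G : Pat (NUF.St N) → K) :
    cX x N G = colX (fun _ => hexW x) cc bb ((List.finRange N).map Xr) G := rfl

theorem cY_eq (x : K) (G : Pat (NUF.St N) → K) :
    cY x N G = colT (fun _ => hexW x) cc bb ((List.finRange N).map Xl).reverse G := by
  have e : (fun q : Pat (NUF.St N) => if q cc ≠ cc ∧ q bb = bb then G (swap cc bb q) else 0) = outT cc bb G := by
    funext q
    unfold outT
    by_cases h : q cc ≠ cc ∧ q bb = bb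
    · rw [if_pos h, if_pos ⟨h.2, h.1⟩]
    · rw [if_neg h, if_neg fun h' => h ⟨h'.2, h'.1⟩]
  have hb : (bb : NUF.St N) ∉ ((List.finRange N).map Xl).reverse := by
    rw [List.mem_reverse, List.mem_map]
    rintro ⟨i, -, h⟩
    simp [Xl] at h
  have hc : (cc : NUF.St N) ∉ ((List.finRange N).map Xl).reverse := by
    rw [List.mem_reverse, List.mem_map]
    rintro ⟨i, -, h⟩
    simp [Xl] at h
  have hcb : (bb : NUF.St N) ≠ cc := by simp
  unfold cY
  rw [e]
  funext p
  unfold colT emp
  by_cases h1 : p cc = cc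
  · by_cases h2 : p bb = bb
    · rw [if_pos h1, if_pos ⟨h1, h2⟩]
    · rw [if_pos h1, if_neg fun h => h2 h.2]
      have hp : Pres (K := K) (fun p : Pat (NUF.St N) => p bb ≠ bb) (fun p => p bb ≠ bb)
          (EXL.M (fun _ => hexW x) cc ((List.finRange N).map Xl).reverse) :=
        pres_occ (lin_M _ cc _) fun F => emp_M_comm _ hcb hb hc F
      have h3 := hp (outT cc bb G) 0 (fun q hq => by
        unfold outT
        rw [if_neg fun h => hq h.1]
        rfl) p h2
      rw [h3, Lin.zero (lin_M _ cc _)]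
      rfl
  · rw [if_neg h1, if_neg fun h => h1 h.1]

end cols

theorem sum_Ico_sym (m : ℕ) (f : ℤ → ℂ) : ∑ k ∈ Finset.Ico (-(m : ℤ)) m, f k =
    ∑ j ∈ Finset.range m, f j + ∑ j ∈ Finset.range m, f (-(j : ℤ) - 1) := by
  induction m with
  | zero => simp
  | succ m ih =>
    rw [Finset.sum_range_succ, Finset.sum_range_succ]
    have e : Finset.Ico (-((m + 1 : ℕ) : ℤ)) ((m + 1 : ℕ) : ℤ) =
        insert (-(m : ℤ) - 1) (insert (m : ℤ) (Finset.Ico (-(m : ℤ)) m)) := by
      ext k
      simp only [Finset.mem_Ico, Finset.mem_insert]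
      push_cast
      omega
    rw [e, Finset.sum_insert, Finset.sum_insert, ih]
    · ring
    · simp
    · simp only [Finset.mem_insert, Finset.mem_Ico, not_or]
      omega

/-- the gluing of the two half strips with the cut row. -/
noncomputable def F0 (om : ℂ) {N r : ℕ} (hr : r < N) : Pat (NUF.St N) → ℂ := fun p =>
  Tw (-(chX (Lup N r) bb)) (Gf (nuL om) (Xr ⟨r, hr⟩) bb (Llow N r ++ Lup N r)) (ofP (ℤ × ℤ) p)

/-- **From the network to the one leg function.** -/
theorem lk_fin (om : ℂ) {N r : ℕ} (hr : r < N) {f : ℕ → ℤ → ℂ}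
    (hR : ∀ m j : ℕ, j < m → f m j =
      (NUF.colF (fun _ => hexW (xc : ℂ)) cc ((List.finRange N).map Xr))^[m - 1 - j]
        (cX (xc : ℂ) N ((NUF.colF (fun _ => hexW (xc : ℂ)) cc ((List.finRange N).map Xr))^[j]
          ((NUF.colF (fun _ => hexW (xc : ℂ)) cc (((List.finRange N).map Xl).reverse))^[m] (F0 om hr)))) Pat.empty)
    (hL : ∀ m j : ℕ, j < m → f m (-(j : ℤ) - 1) =
      (NUF.colF (fun _ => hexW (xc : ℂ)) cc ((List.finRange N).map Xr))^[m]
        ((NUF.colF (fun _ => hexW (xc : ℂ)) cc (((List.finRange N).map Xl).reverse))^[m - 1 - j]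
          (cY (xc : ℂ) N ((NUF.colF (fun _ => hexW (xc : ℂ)) cc (((List.finRange N).map Xl).reverse))^[j]
            (F0 om hr)))) Pat.empty) :
    Tendsto (fun m : ℕ => ∑ k ∈ Finset.Ico (-(m : ℤ)) m, f m k) atTop (𝓝 (Mreg om N r hr)) := by
  have hn : ((bb : NUF.St N) :: ((List.finRange N).map Xr ++ (List.finRange N).map Xl)).Nodup := by
    have h := (okT_net hr).nd
    rw [List.nodup_cons, List.nodup_append]
    have i1 : ((List.finRange N).map (Xr : Fin N → NUF.St N)).Nodup :=
      (List.nodup_finRange N).map (fun i j h => by simpa [Xr] using h)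
    have i2 : ((List.finRange N).map (Xl : Fin N → NUF.St N)).Nodup :=
      (List.nodup_finRange N).map (fun i j h => by simpa [Xl] using h)
    refine ⟨?_, i1, i2, ?_⟩
    · rw [List.mem_append, List.mem_map, List.mem_map]
      rintro (⟨i, -, h⟩ | ⟨i, -, h⟩)
      · simp [Xr] at h
      · simp [Xl] at h
    · intro a ha b hb
      obtain ⟨i, -, rfl⟩ := List.mem_map.1 ha
      obtain ⟨j, -, rfl⟩ := List.mem_map.1 hb
      simp [Xr, Xl]
  have hout : ∀ l : Fin 4, l ≠ 1 → (Sum.inr l : NUF.St N) ∉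
      (bb : NUF.St N) :: ((List.finRange N).map Xr ++ (List.finRange N).map Xl) := by
    intro l hl
    rw [List.mem_cons, List.mem_append, List.mem_map, List.mem_map]
    rintro (h | ⟨i, -, h⟩ | ⟨i, -, h⟩)
    · exact hl (Sum.inr_injective h)
    · simp [Xr] at h
    · simp [Xl] at h
  have key := exits_lim (ν := nuw om) (F := F0 om hr) hn (hout 0 (by decide)) (hout 3 (by decide)) (by simp)
    (m := Xr ⟨r, hr⟩) (by simp [Xr]) (-(chX (Lup N r) bb)) (Llow N r ++ Lup N r) rfl
  rw [Wp_neg, Wp_neg, ← Mreg_eq om hr] at key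
  refine key.congr fun m => ?_
  rw [sum_Ico_sym]
  refine congrArg₂ (· + ·) (Finset.sum_congr rfl fun j hj => ?_) (Finset.sum_congr rfl fun j hj => ?_)
  · rw [hR m j (Finset.mem_range.1 hj), cX_eq]
  · rw [hL m j (Finset.mem_range.1 hj), cY_eq]

end Pool.Agent.TC
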