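import Pool.Agent.TC.LkSide

/-!
# Type C, link: the sum over the exits, in the limit of infinitely many columns
-/

set_option autoImplicit false

namespace Pool.Agent.TC

open _root_.Pool.Agent.EXL _root_.Pool.Agent.EXL.Pat _root_.Pool.Agent.EXL.HS Pool.Agent.NUF Pool.Agent.NUG
  HexObs Filter Topology

section lim

variable {α : Type*} [DecidableEq α] {b c d : α} {X Y : List α}

theorem pU_add_left (V V' W : Fnl α) (F : Pat α → ℂ) : pU (V + V') W F = pU V W F + pU V' W F := by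
  rw [pU_apply, pU_apply, pU_apply]
  rfl

theorem pU_add_right (V W W' : Fnl α) (F : Pat α → ℂ) : pU V (W + W') F = pU V W F + pU V W' F := by
  rw [pU_apply, pU_apply, pU_apply, ← map_add]
  rfl

/-- the states with an empty exit do not count. -/
theorem pU_exit {A B : Pat α → Prop} {V W : Fnl α} (hV : SupF A V) (hW : SupF B W)
    (hd : ∀ p q, A p → B q → Dj p q) (hA : ∀ p, A p → p b = b) (hB : ∀ p, B p → p b = b) {F : Pat α → ℂ}
    (hF : emp b F = 0) : pU V W F = 0 := by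
  rw [pU_apply]
  apply hV
  intro p hp
  apply hW
  intro q hq
  have h1 : un p q b = b := by rw [un_left (hd p q hp hq) (hB q hq)]; exact hA p hp
  have h2 := congrFun hF (un p q)
  unfold emp at h2
  have h3 : (if un p q b = b then F (un p q) else 0) = F (un p q) := if_pos h1
  rw [← h3]
  exact h2

/-- the exits on the right. -/
theorem exits_right [Finite α] (hn : (b :: (X ++ Y)).Nodup) (hc : c ∉ b :: (X ++ Y)) (hd : d ∉ b :: (X ++ Y))
    (hcd : c ≠ d) {F : Pat α → ℂ} (hF : emp b F = 0) :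
    Tendsto (fun m => ∑ j ∈ Finset.range m, (colF (fun _ => hexW (xc : ℂ)) c X)^[m - 1 - j]
      (colX (fun _ => hexW (xc : ℂ)) c b X ((colF (fun _ => hexW (xc : ℂ)) c X)^[j]
        ((colF (fun _ => hexW (xc : ℂ)) c Y.reverse)^[m] F))) Pat.empty) atTop
      (𝓝 (pU (WW z0 b X) (VV (fun j => -z0 j) Y) F)) := by
  simp only [List.nodup_cons, List.nodup_append, List.mem_append, not_or] at hn
  simp only [List.mem_cons, List.mem_append, not_or] at hc hd
  obtain ⟨⟨hbX, hbY⟩, hnX, hnY, hXY⟩ := hn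
  obtain ⟨hcb, hcX, hcY⟩ := hc
  obtain ⟨hdb, hdX, hdY⟩ := hd
  have nX : (b :: X).Nodup := List.nodup_cons.2 ⟨hbX, hnX⟩
  have nY : (b :: Y).Nodup := List.nodup_cons.2 ⟨hbY, hnY⟩
  have cX : c ∉ b :: X := by
    rw [List.mem_cons, not_or]
    exact ⟨hcb, hcX⟩
  have cY : c ∉ b :: Y := by
    rw [List.mem_cons, not_or]
    exact ⟨hcb, hcY⟩
  have dY : d ∉ b :: Y := by
    rw [List.mem_cons, not_or]
    exact ⟨hdb, hdY⟩
  have hS := side_hex nX cX
  have hE := hS.sysE
  have hR := reg_hex (z := z0 (ι := α)) hnX fun _ _ => rfl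
  have hR1 := reg1_hex (z := z0 (ι := α)) nX fun _ _ => rfl
  have hVW := isF_WW hS (rap_hex X) hR hR1
  rw [wC_hex] at hE hVW
  obtain ⟨hL, hW⟩ := sysL0 nY cY dY hcd
  have hdj : ∀ p q : Pat α, AX (b :: X) p → AX Y q → Dj p q := fun p q hp hq =>
    dj_lists (fun x hx hx' => by
      rcases List.mem_cons.1 hx with rfl | hx
      · exact hbY hx'
      · exact hXY x hx x hx' rfl) hp hq
  have outY : ∀ q : Pat α, AX Y q → q c = c ∧ q b = b ∧ ∀ x ∈ X, q x = x := fun q hq =>
    ⟨ax_out hq hcY, ax_out hq hbY, fun x hx => ax_out hq fun h => hXY x hx x h rfl⟩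
  have outX : ∀ p : Pat α, AX (b :: X) p → p c = c ∧ ∀ x ∈ Y.reverse, p x = x := fun p hp =>
    ⟨ax_out hp cX, fun x hx => ax_out hp fun h => by
      rw [List.mem_reverse] at hx
      rcases List.mem_cons.1 h with rfl | h
      · exact hbY hx
      · exact hXY x h x hx rfl⟩
  have key := hE.lim2 hL hdj
    (ul_of hdj fun q G H hq h => RelU.colE _ h (outY q hq).1 (outY q hq).2.1 (outY q hq).2.2)
    (ur_of hdj fun p G H hp h => h.colF _ (outX p hp).1 (outX p hp).2)
    (ul_of hdj fun q G H hq h => RelU.colE _ h (outY q hq).1 (outY q hq).2.1 (outY q hq).2.2)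
    (ur_of hdj fun p G H hp h => h.colF _ (outX p hp).1 (outX p hp).2) hVW hW F
  rw [pU_add_left, pU_exit (isF_VV hS (rap_hex X) hR).sup hW.sup
    (fun p q hp hq => hdj p q (ax_cons' hbX hp) hq) (fun p hp => ax_out hp hbX) (fun q hq => ax_out hq hbY) hF,
    zero_add] at key
  refine key.congr fun m => ?_
  have ex := exo_col (K := ℂ) (fun _ => hexW (xc : ℂ)) hbX hcb hcX
  have exL := exo_colT (K := ℂ) (fun _ => hexW (xc : ℂ)) (X := Y.reverse) (by simpa using hbY) hcb (by simpa using hcY)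
  exact ex.iter_empty (G := (colF (fun _ => hexW (xc : ℂ)) c Y.reverse)^[m] F) (exL.iter_zero hF m) m

/-- the exits on the left. -/
theorem exits_left [Finite α] (hn : (b :: (X ++ Y)).Nodup) (hc : c ∉ b :: (X ++ Y)) (hd : d ∉ b :: (X ++ Y))
    (hcd : c ≠ d) {F : Pat α → ℂ} (hF : emp b F = 0) :
    Tendsto (fun m => ∑ j ∈ Finset.range m, (colF (fun _ => hexW (xc : ℂ)) c X)^[m]
      ((colF (fun _ => hexW (xc : ℂ)) c Y.reverse)^[m - 1 - j] (colT (fun _ => hexW (xc : ℂ)) c b Y.reverse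
        ((colF (fun _ => hexW (xc : ℂ)) c Y.reverse)^[j] F))) Pat.empty) atTop
      (𝓝 (pU (VV z0 X) (WW (fun j => -z0 j) b Y) F)) := by
  simp only [List.nodup_cons, List.nodup_append, List.mem_append, not_or] at hn
  simp only [List.mem_cons, List.mem_append, not_or] at hc hd
  obtain ⟨⟨hbX, hbY⟩, hnX, hnY, hXY⟩ := hn
  obtain ⟨hcb, hcX, hcY⟩ := hc
  obtain ⟨hdb, hdX, hdY⟩ := hd
  have nX : (b :: X).Nodup := List.nodup_cons.2 ⟨hbX, hnX⟩
  have nY : (b :: Y).Nodup := List.nodup_cons.2 ⟨hbY, hnY⟩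
  have cX : c ∉ b :: X := by
    rw [List.mem_cons, not_or]
    exact ⟨hcb, hcX⟩
  have cY : c ∉ b :: Y := by
    rw [List.mem_cons, not_or]
    exact ⟨hcb, hcY⟩
  have dY : d ∉ b :: Y := by
    rw [List.mem_cons, not_or]
    exact ⟨hdb, hdY⟩
  have hS := side_hex nX cX
  have hE := hS.sys0
  have hR := reg_hex (z := z0 (ι := α)) hnX fun _ _ => rfl
  have hV := isF_VV hS (rap_hex X) hR
  rw [wC_hex] at hE hV
  obtain ⟨hL, hW⟩ := sysLE nY cY dY hcd (reg1_cross nY cY dY hcd)
  have hdj : ∀ p q : Pat α, AX X p → AX (b :: Y) q → Dj p q := fun p q hp hq =>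
    dj_lists (fun x hx hx' => by
      rcases List.mem_cons.1 hx' with rfl | hx'
      · exact hbX hx
      · exact hXY x hx x hx' rfl) hp hq
  have outY : ∀ q : Pat α, AX (b :: Y) q → q c = c ∧ ∀ x ∈ X, q x = x := fun q hq =>
    ⟨ax_out hq cY, fun x hx => ax_out hq fun h => by
      rcases List.mem_cons.1 h with rfl | h
      · exact hbX hx
      · exact hXY x hx x h rfl⟩
  have outX : ∀ p : Pat α, AX X p → p c = c ∧ p b = b ∧ ∀ x ∈ Y.reverse, p x = x := fun p hp =>
    ⟨ax_out hp hcX, ax_out hp hbX, fun x hx => ax_out hp fun h => by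
      rw [List.mem_reverse] at hx
      exact hXY x h x hx rfl⟩
  have key := hE.lim2 hL hdj
    (ul_of hdj fun q G H hq h => h.colF _ (outY q hq).1 (outY q hq).2)
    (ur_of hdj fun p G H hp h => RelU.colG _ h (outX p hp).1 (outX p hp).2.1 (outX p hp).2.2)
    (ul_of hdj fun q G H hq h => h.colF _ (outY q hq).1 (outY q hq).2)
    (ur_of hdj fun p G H hp h => RelU.colG _ h (outX p hp).1 (outX p hp).2.1 (outX p hp).2.2) hV hW F
  obtain ⟨-, hW0⟩ := sysL0 nY cY dY hcd
  rw [pU_add_right, pU_exit hV.sup hW0.sup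
    (fun p q hp hq => hdj p q hp (ax_cons' hbY hq)) (fun p hp => ax_out hp hbX) (fun q hq => ax_out hq hbY) hF,
    zero_add] at key
  refine key.congr fun m => ?_
  have ex := exo_col (K := ℂ) (fun _ => hexW (xc : ℂ)) hbX hcb hcX
  have exL := exo_colT (K := ℂ) (fun _ => hexW (xc : ℂ)) (X := Y.reverse) (by simpa using hbY) hcb (by simpa using hcY)
  set R := colF (fun _ => hexW (xc : ℂ)) c X with hRd
  set Lc := colF (fun _ => hexW (xc : ℂ)) c Y.reverse with hLd
  set LT := colT (fun _ => hexW (xc : ℂ)) c b Y.reverse with hLT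
  have e1 : (colG (fun _ => hexW (xc : ℂ)) c b Y.reverse)^[m] F =
      Lc^[m] F + ∑ k ∈ Finset.range m, Lc^[m - 1 - k] (LT (Lc^[k] F)) := exL.iter_expand F m
  rw [e1, Lin.add (lin_iterate ex.linT m), Lin.fsum (lin_iterate ex.linT m), Pi.add_apply, Finset.sum_apply,
    apply_empty (ex.iter_zero (exL.iter_zero hF m) m), zero_add]

end lim

end Pool.Agent.TC
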