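import Pool.Agent.TC.WHexT
import Pool.Agent.NUG.ZVun

/-!
# Type C, link: columns with an optional exit, limits of the iterated columns

`colX w c b X` = the column whose auxiliary line starts at the exit `b`, `colE = colF + colX`.
`Sys A T Tc` = a positive operator with its complexification and the majorant property on the class `A`;
`Sys.lim` = the limit of the iterates, `Sys.lim2` = the limit of the iterates of two operators on disjoint sites.
-/

set_option autoImplicit false

namespace Pool.Agent.TC

open _root_.Pool.Agent.EXL _root_.Pool.Agent.EXL.Pat _root_.Pool.Agent.EXL.HS Pool.Agent.NUF Pool.Agent.NUG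
  HexObs Filter Topology

section alg

variable {α K : Type*} [DecidableEq α] [CommRing K] {w : α → Wt K} {b c d : α} {X : List α}

/-- the column whose auxiliary line starts at the exit. -/
def colX (w : α → Wt K) (c b : α) (X : List α) (F : Pat α → K) : Pat α → K := fun p =>
  if p c = c ∧ p b = b then EXL.M w c X (emp c F) (cup c b p) else 0

/-- the column with an optional exit. -/
def colE (w : α → Wt K) (c b : α) (X : List α) (F : Pat α → K) : Pat α → K := fun p =>
  colF w c X F p + colX w c b X F p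

theorem lin_colX (w : α → Wt K) (c b : α) (X : List α) : Lin (colX w c b X) := by
  intro u v F G
  funext p
  unfold colX
  by_cases h : p c = c ∧ p b = b
  · simp only [if_pos h]
    rw [lin_emp, lin_M]
  · simp only [if_neg h]
    ring

theorem lin_colE (w : α → Wt K) (c b : α) (X : List α) : Lin (colE w c b X) := by
  intro u v F G
  funext p
  unfold colE
  rw [lin_colF, lin_colX]
  ring

theorem emp_emp (c : α) (F : Pat α → K) : emp c (emp c F) = emp c F := by
  funext p
  unfold emp
  split_ifs <;> rfl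

theorem emp_colF (w : α → Wt K) (hb : b ∉ X) (hcb : c ≠ b) (hcX : c ∉ X) (F : Pat α → K) :
    emp b (colF w c X F) = colF w c X (emp b F) := by
  unfold colF
  rw [emp_comm, emp_M_comm w hcb.symm hb hcX, emp_comm b c F]

theorem emp_colX (w : α → Wt K) (c b : α) (X : List α) (F : Pat α → K) : emp b (colX w c b X F) = colX w c b X F := by
  funext p
  unfold emp colX
  by_cases h : p b = b
  · rw [if_pos h]
  · rw [if_neg h, if_neg (fun h' => h h'.2)]

theorem colX_emp (w : α → Wt K) (hb : b ∉ X) (hcb : c ≠ b) (hcX : c ∉ X) (F : Pat α → K) :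
    colX w c b X (emp b F) = 0 := by
  funext p
  unfold colX
  split_ifs with h
  · rw [emp_comm, ← emp_M_comm w hcb.symm hb hcX]
    unfold emp
    rw [if_neg]
    · rfl
    · rw [pcup_apply h.1 h.2, if_neg hcb.symm, if_pos rfl]
      exact hcb
  · rfl

theorem colX_occ {p : Pat α} (F : Pat α → K) (h : p b ≠ b) : colX w c b X F p = 0 := by
  unfold colX
  rw [if_neg fun h' => h h'.2]

theorem pres_occ_colF (w : α → Wt K) (hb : b ∉ X) (hcb : c ≠ b) (hcX : c ∉ X) :
    Pres (fun p => p b ≠ b) (fun p => p b ≠ b) (colF w c X) :=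
  pres_occ (lin_colF w c X) fun F => emp_colF w hb hcb hcX F

theorem pres_axb_colF (w : α → Wt K) (hn : (b :: X).Nodup) (hc : c ∉ b :: X) :
    Pres (AX (b :: X)) (AX (b :: X)) (colF w c X) := by
  have h1 := pres_ax_emp_l (K := K) (L1 := [b]) (L2 := X) (c := c) hc
  have h2 := pres_ax_M w X (c := c) (L1 := [b]) (L2 := []) (by
    simp only [List.append_nil, List.singleton_append, List.nodup_cons] at hn ⊢
    refine ⟨?_, (notMem_cons hc).2, hn.2⟩
    simp only [List.mem_cons, not_or]
    exact ⟨fun e => hc (by rw [e]; exact List.mem_cons_self), hn.1⟩)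
  have h3 := pres_ax_emp_r (K := K) ([b] ++ X) [] c
  simp only [List.append_nil, List.singleton_append] at h1 h2 h3
  exact h1.comp (h2.comp h3)

theorem pres_A1_colF (w : α → Wt K) (hn : (b :: X).Nodup) (hc : c ∉ b :: X) :
    Pres (A1 b X) (A1 b X) (colF w c X) :=
  (pres_axb_colF w hn hc).inter (pres_occ_colF w (List.nodup_cons.1 hn).1 (notMem_cons hc).1 (notMem_cons hc).2)

theorem pres_colX (w : α → Wt K) (hn : (b :: X).Nodup) (hc : c ∉ b :: X) :
    Pres (AX X) (A1 b X) (colX w c b X) := by
  have hcb := (notMem_cons hc).1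
  have hcX := (notMem_cons hc).2
  have hbX := (List.nodup_cons.1 hn).1
  have h2 : Pres (AX (b :: c :: X)) (AX (b :: X ++ [c])) (EXL.M w c X) := by
    have := pres_ax_M w X (c := c) (L1 := [b]) (L2 := []) (by
      simp only [List.append_nil, List.singleton_append, List.nodup_cons] at hn ⊢
      refine ⟨?_, hcX, hn.2⟩
      simp only [List.mem_cons, not_or]
      exact ⟨hcb.symm, hn.1⟩)
    simpa using this
  have h2' : Pres (fun p => p b ≠ b) (fun p => p b ≠ b) (EXL.M w c X) :=
    pres_occ (lin_M w c X) fun F => emp_M_comm w hcb.symm hbX hcX F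
  have h3 : Pres (K := K) (AX (b :: X ++ [c])) (AX (b :: X)) (emp c) := by
    have := pres_ax_emp_r (K := K) (b :: X) [] c
    simpa using this
  have h3' : Pres (K := K) (fun p => p b ≠ b) (fun p => p b ≠ b) (emp c) :=
    pres_occ (lin_emp c) fun F => emp_comm b c F
  have h4 := (h2.inter h2').comp (h3.inter h3')
  intro F G hFG p hp
  unfold colX
  split_ifs
  · exact h4 F G hFG _ (ax_cup hn hc hp)
  · rfl

/-- an empty exit is removed. -/
theorem ax_tail' {p : Pat α} (h : AX (b :: X) p) (hp : p b = b) : AX X p := by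
  have h1 : AX ([] ++ b :: X) p := h
  exact ax_remove h1 hp

theorem ax_cons' {p : Pat α} (hb : b ∉ X) (h : AX X p) : AX (b :: X) p := by
  have h1 : AX ([] ++ b :: X) p := ax_insert (L1 := []) (L2 := X) (by simpa using hb) h
  exact h1

theorem pres_colX' (w : α → Wt K) (hn : (b :: X).Nodup) (hc : c ∉ b :: X) :
    Pres (AX (b :: X)) (AX (b :: X)) (colX w c b X) := by
  intro F G hFG p hp
  by_cases h : p b = b
  · exact pres_colX w hn hc F G (fun q hq => hFG q hq.1) p (ax_tail' hp h)
  · rw [colX_occ F h, colX_occ G h]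

theorem pres_colE (w : α → Wt K) (hn : (b :: X).Nodup) (hc : c ∉ b :: X) :
    Pres (AX (b :: X)) (AX (b :: X)) (colE w c b X) := by
  intro F G hFG p hp
  unfold colE
  rw [pres_axb_colF w hn hc F G hFG p hp, pres_colX' w hn hc F G hFG p hp]

theorem colX_ind (w : α → Wt K) (hcb : c ≠ b) (hcX : c ∉ X) : colX w c b X (HS.ind Pat.empty) = 0 := by
  funext p
  unfold colX
  split_ifs with h
  · rw [emp_ind, M_fix_ind w hcX, ind_empty_ne (x := c)]
    · rfl
    · rw [pcup_apply h.1 h.2, if_pos rfl]
      exact hcb.symm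
  · rfl

theorem colE_ind (w : α → Wt K) (hcb : c ≠ b) (hcX : c ∉ X) :
    colE w c b X (HS.ind Pat.empty) = HS.ind Pat.empty := by
  funext p
  unfold colE
  rw [colX_ind w hcb hcX, colF_ind w hcX]
  simp

/-! ### the exits, one at a time -/

/-- the operator with an exit, and the operator without. -/
structure Exo (b : α) (T X : (Pat α → K) → (Pat α → K)) : Prop where
  linT : Lin T
  linX : Lin X
  T_emp : ∀ F, emp b (T F) = T (emp b F)
  emp_X : ∀ F, emp b (X F) = X F
  X_emp : ∀ F, X (emp b F) = 0

theorem exo_col (w : α → Wt K) (hb : b ∉ X) (hcb : c ≠ b) (hcX : c ∉ X) : Exo b (colF w c X) (colX w c b X) :=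
  ⟨lin_colF w c X, lin_colX w c b X, emp_colF w hb hcb hcX, emp_colX w c b X, colX_emp w hb hcb hcX⟩

omit [DecidableEq α] in
theorem Lin.zero {T : (Pat α → K) → (Pat α → K)} (h : Lin T) : T 0 = 0 := by
  have := h 0 0 0 0
  simpa [← Pi.zero_def] using this

omit [DecidableEq α] in
theorem Lin.add {T : (Pat α → K) → (Pat α → K)} (h : Lin T) (F G : Pat α → K) : T (F + G) = T F + T G := by
  have := h 1 1 F G
  simp only [one_mul] at this
  exact this

omit [DecidableEq α] in
theorem Lin.fsum {T : (Pat α → K) → (Pat α → K)} (h : Lin T) {κ : Type*} (s : Finset κ) (F : κ → Pat α → K) :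
    T (∑ k ∈ s, F k) = ∑ k ∈ s, T (F k) := by
  classical
  induction s using Finset.induction_on with
  | empty => rw [Finset.sum_empty, Finset.sum_empty, Lin.zero h]
  | insert a s ha ih => rw [Finset.sum_insert ha, Finset.sum_insert ha, Lin.add h, ih]

theorem Exo.iter_emp {T X : (Pat α → K) → (Pat α → K)} (h : Exo b T X) (n : ℕ) (F : Pat α → K) :
    emp b (T^[n] F) = T^[n] (emp b F) := by
  induction n with
  | zero => rfl
  | succ n ih => rw [Function.iterate_succ_apply', Function.iterate_succ_apply', h.T_emp, ih]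

theorem Exo.iter_expand {T X : (Pat α → K) → (Pat α → K)} (h : Exo b T X) (G : Pat α → K) (m : ℕ) :
    (fun F => T F + X F)^[m] G = T^[m] G + ∑ k ∈ Finset.range m, T^[m - 1 - k] (X (T^[k] G)) := by
  induction m with
  | zero => simp
  | succ m ih =>
    rw [Function.iterate_succ_apply', ih, Lin.add h.linT, Lin.add h.linX, Lin.fsum h.linT, Lin.fsum h.linX,
      ← Function.iterate_succ_apply' T, Finset.sum_range_succ]
    have h1 : ∑ k ∈ Finset.range m, X (T^[m - 1 - k] (X (T^[k] G))) = 0 := by
      refine Finset.sum_eq_zero fun k _ => ?_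
      rw [← h.emp_X (T^[k] G), ← h.iter_emp, h.X_emp]
    have h2 : ∑ k ∈ Finset.range m, T (T^[m - 1 - k] (X (T^[k] G))) =
        ∑ k ∈ Finset.range m, T^[m + 1 - 1 - k] (X (T^[k] G)) := by
      refine Finset.sum_congr rfl fun k hk => ?_
      rw [← Function.iterate_succ_apply' T]
      congr 2
      have := Finset.mem_range.1 hk
      omega
    rw [h1, h2]
    have h3 : T^[m + 1 - 1 - m] (X (T^[m] G)) = X (T^[m] G) := by
      have : m + 1 - 1 - m = 0 := by omega
      rw [this]
      rfl
    rw [h3]
    abel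

/-- the operators do not create the exit. -/
theorem Exo.iter_zero {T X : (Pat α → K) → (Pat α → K)} (h : Exo b T X) {G : Pat α → K} (hG : emp b G = 0) (n : ℕ) :
    emp b (T^[n] G) = 0 := by
  rw [h.iter_emp, hG]
  induction n with
  | zero => rfl
  | succ n ih => rw [Function.iterate_succ_apply', ih, Lin.zero h.linT]

omit [DecidableEq α] in
theorem apply_empty {G : Pat α → K} [DecidableEq α] (hG : emp b G = 0) : G Pat.empty = 0 := by
  have h := congrFun hG Pat.empty
  unfold emp at h
  have e : (Pat.empty : Pat α).f b = b := rfl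
  rw [if_pos e] at h
  exact h

/-- **exactly one exit.** -/
theorem Exo.iter_empty {T X : (Pat α → K) → (Pat α → K)} (h : Exo b T X) {G : Pat α → K} (hG : emp b G = 0)
    (m : ℕ) : (fun F => T F + X F)^[m] G Pat.empty =
      ∑ k ∈ Finset.range m, T^[m - 1 - k] (X (T^[k] G)) Pat.empty := by
  rw [h.iter_expand, Pi.add_apply, apply_empty (h.iter_zero hG m), zero_add, Finset.sum_apply]

end alg

/-! ### The majorant with the exit -/

section maj

variable {α : Type*} [DecidableEq α] {b c d : α} {X : List α} {w : Wt ℝ}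

/-- the class `A` has no nonnegative function that increases under `T`, except at the empty state. -/
def Maj (A : Pat α → Prop) (T : (Pat α → ℝ) → (Pat α → ℝ)) : Prop := ∀ G : Pat α → ℝ, (∀ p, 0 ≤ G p) →
  (∀ p, ¬ (p ≠ Pat.empty ∧ A p) → G p = 0) → (∀ p, p ≠ Pat.empty → A p → G p ≤ T G p) → ∀ p, G p = 0

/-- a half strip with the weights `w`. -/
structure Side (w : Wt ℝ) (c b : α) (X : List α) : Prop where
  nd : (b :: X).Nodup
  nc : c ∉ b :: X
  nn : w.Nn
  m0 : Maj (AX X) (colF (fun _ => w) c X)
  m1 : Maj (A1 b X) (colF (fun _ => w) c X)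

theorem side_hex (hn : (b :: X).Nodup) (hc : c ∉ b :: X) : Side (hexW xc) c b X where
  nd := hn
  nc := hc
  nn := hexW_nn xc_pos.le
  m0 _ h0 hs h1 := major_hex (List.nodup_cons.1 hn).2 (notMem_cons hc).2 h0 hs h1
  m1 _ h0 hs h1 := major1_hex hn hc h0 (fun q hq => hs q fun h => hq h.2)
    (fun q hq => h1 q (fun e => A1_ne b X (e ▸ hq)) hq)

theorem cross_cross {K : Type*} (w : Wt K) : cross (cross w) = w := rfl

theorem cross_nn {w : Wt ℝ} (h : w.Nn) : (cross w).Nn := ⟨h.v, h.u2, h.u1, h.w2, h.w1⟩

/-- the reversed rapidity. -/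
theorem side_cross (hn : (b :: X).Nodup) (hc : c ∉ b :: X) (hd : d ∉ b :: X) (hcd : c ≠ d) :
    Side (cross (hexW xc)) d b X := by
  have hn' : (b :: X.reverse).Nodup := by
    rw [List.nodup_cons, List.mem_reverse, List.nodup_reverse]
    exact List.nodup_cons.1 hn
  have hc' : c ∉ b :: X.reverse := by
    rw [List.mem_cons, List.mem_reverse, ← List.mem_cons]
    exact hc
  have hnX := (List.nodup_cons.1 hn).2
  have hcX := (notMem_cons hc).2
  have hdX := (notMem_cons hd).2
  have hcol : ∀ (G : Pat α → ℝ) {p : Pat α}, p c = c → p d = d →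
      colF (fun _ => cross (hexW xc)) d X G p = colF (fun _ => hexW xc) c X.reverse G p := by
    intro G p h1 h2
    have := colF_rev (fun _ : α => cross (hexW (xc : ℝ))) hnX hcd hcX hdX G h2 h1
    exact this
  have hax : ∀ p : Pat α, AX (X.reverse ++ [b]) p ↔ AX (b :: X) p := by
    intro p
    rw [← List.reverse_cons]
    exact ax_reverse hn p
  refine ⟨hn, hd, cross_nn (hexW_nn xc_pos.le), ?_, ?_⟩
  · intro G h0 hs h1
    refine major_hex (List.nodup_reverse.2 hnX) (notMem_cons hc').2 h0 (fun p hp => hs p fun h => hp ⟨h.1, ?_⟩)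
      fun p hp hA => ?_
    · exact (ax_reverse hnX p).2 h.2
    · have hA' := (ax_reverse hnX p).1 hA
      rw [← hcol G (ax_out hA' hcX) (ax_out hA' hdX)]
      exact h1 p hp hA'
  · intro G h0 hs h1
    refine major1_hexT hn' hc' h0 (fun p hp => hs p fun h => hp ⟨(hax p).2 h.2.1, h.2.2⟩) fun p hA => ?_
    have hA' : A1 b X p := ⟨(hax p).1 hA.1, hA.2⟩
    rw [← hcol G (ax_out hA'.1 hc) (ax_out hA'.1 hd)]
    exact h1 p (fun e => A1_ne b X (e ▸ hA')) hA'

theorem pos_colF {w : Wt ℝ} (hw : w.Nn) (c : α) (X : List α) : PosOp (colF (fun _ => w) c X) := by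
  intro F hF p
  exact emp_nn c (M_nn (fun _ => hw) c X (emp_nn c hF)) p

theorem pos_colX {w : Wt ℝ} (hw : w.Nn) (c b : α) (X : List α) : PosOp (colX (fun _ => w) c b X) := by
  intro F hF p
  unfold colX
  split_ifs
  · exact M_nn (fun _ => hw) c X (emp_nn c hF) _
  · exact le_rfl

theorem pos_colE {w : Wt ℝ} (hw : w.Nn) (c b : α) (X : List α) : PosOp (colE (fun _ => w) c b X) := by
  intro F hF p
  exact add_nonneg (pos_colF hw c X F hF p) (pos_colX hw c b X F hF p)

/-- **The majorant for the column with an optional exit.** -/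
theorem Side.mE (h : Side w c b X) : Maj (AX (b :: X)) (colE (fun _ => w) c b X) := by
  classical
  intro G h0 hs h1
  have hb := (List.nodup_cons.1 h.nd).1
  have hcb := (notMem_cons h.nc).1
  have hcX := (notMem_cons h.nc).2
  have s1 : ∀ p, p b ≠ b → G p = 0 := by
    set G1 : Pat α → ℝ := fun p => if p b ≠ b then G p else 0 with hG1
    have k : ∀ p, G1 p = 0 := by
      refine h.m1 G1 (fun p => ?_) (fun p hp => ?_) fun p hp hA => ?_
      · rw [hG1]
        simp only
        split_ifs
        · exact h0 p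
        · exact le_rfl
      · rw [hG1]
        simp only
        split_ifs with h2
        · apply hs
          intro h3
          exact hp ⟨h3.1, h3.2, h2⟩
        · rfl
      · have e1 : G1 p = G p := if_pos hA.2
        have e2 : colF (fun _ => w) c X G1 p = colF (fun _ => w) c X G p :=
          pres_occ_colF (fun _ => w) hb hcb hcX G1 G (fun q hq => if_pos hq) p hA.2
        rw [e1, e2]
        refine (h1 p hp hA.1).trans (le_of_eq ?_)
        unfold colE
        rw [colX_occ G hA.2, add_zero]
    intro p hp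
    have := k p
    rw [hG1] at this
    simp only [if_pos hp] at this
    exact this
  refine h.m0 G h0 (fun p hp => ?_) fun p hp hA => ?_
  · by_cases h2 : p b = b
    · apply hs
      intro h3
      exact hp ⟨h3.1, ax_tail' h3.2 h2⟩
    · exact s1 p h2
  · refine (h1 p hp (ax_cons' hb hA)).trans (le_of_eq ?_)
    unfold colE
    have e : colX (fun _ => w) c b X G p = 0 := by
      have h2 := pres_colX (fun _ => w) h.nd h.nc G 0 (fun q hq => s1 q hq.2) p hA
      rw [h2, Lin.zero (lin_colX _ c b X)]
      rfl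
    rw [e, add_zero]

end maj

/-! ### Systems -/

section sys

variable {α : Type*} [DecidableEq α] {A B : Pat α → Prop} {T T' : (Pat α → ℝ) → (Pat α → ℝ)}
  {Tc Tc' : (Pat α → ℂ) → (Pat α → ℂ)} {V W : Fnl α}

/-- a positive operator with the majorant property and its complexification. -/
structure Sys (A : Pat α → Prop) (T : (Pat α → ℝ) → (Pat α → ℝ)) (Tc : (Pat α → ℂ) → (Pat α → ℂ)) : Prop where
  pos : PosOp T
  lin : Lin T
  linC : Lin Tc
  ofR : ∀ F : Pat α → ℝ, Tc (fun p => (F p : ℂ)) = fun p => ((T F p : ℝ) : ℂ)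
  pres : Pres A A T
  ind : ∀ p, A p → T (HS.ind Pat.empty) p = HS.ind Pat.empty p
  emp : A Pat.empty
  maj : Maj A T

/-- the functional is fixed by the operator. -/
structure IsF (A : Pat α → Prop) (Tc : (Pat α → ℂ) → (Pat α → ℂ)) (V : Fnl α) : Prop where
  sup : SupF A V
  one : V (HS.ind Pat.empty) = 1
  fix : ∀ F, V (Tc F) = V F

theorem Sys.inj (h : Sys A T Tc) : InjN A T := by
  intro G h0 h1 p
  have k := h.maj (fun q => |G q|) (fun q => abs_nonneg _) (fun q hq => by rw [h0 q hq, abs_zero])
    (fun q hq hA => by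
      have h2 : |T G q| ≤ T (fun r => |G r|) q := by
        rw [abs_le]
        constructor
        · have h3 := h.pos.mono h.lin (F := fun r => (-1 : ℝ) * |G r|) (G := G)
            (fun r => by
              have := neg_abs_le (G r)
              linarith) q
          rw [PosOp.smul h.lin (-1) (fun r => |G r|)] at h3
          linarith
        · exact h.pos.mono h.lin (fun r => le_abs_self _) q
      rw [h1 q hq hA] at h2
      exact h2) p
  exact abs_eq_zero.1 k

theorem Sys.ofR_iter (h : Sys A T Tc) (F : Pat α → ℝ) (n : ℕ) :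
    Tc^[n] (fun p => (F p : ℂ)) = fun p => ((T^[n] F p : ℝ) : ℂ) := by
  induction n with
  | zero => rfl
  | succ n ih => rw [Function.iterate_succ_apply', ih, h.ofR, Function.iterate_succ_apply']

theorem Sys.to0 [Finite α] (h : Sys A T Tc) (F : Pat α → ℝ) {p : Pat α} (hp : p ≠ Pat.empty) (hA : A p) :
    Tendsto (fun n => T^[n] F p) atTop (𝓝 0) :=
  iterate_tendsto h.pos h.lin h.pres h.ind h.inj (fun G h0 hs h1 => h.maj G h0 hs h1) F hp hA

theorem Sys.to0C [Finite α] (h : Sys A T Tc) (F : Pat α → ℂ) {p : Pat α} (hp : p ≠ Pat.empty) (hA : A p) :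
    Tendsto (fun n => Tc^[n] F p) atTop (𝓝 0) := by
  have h1 := h.to0 (fun q => (F q).re) hp hA
  have h2 := h.to0 (fun q => (F q).im) hp hA
  have e : ∀ n, Tc^[n] F p =
      ((T^[n] (fun q => (F q).re) p : ℝ) : ℂ) + Complex.I * ((T^[n] (fun q => (F q).im) p : ℝ) : ℂ) := by
    intro n
    exact cx_split (lin_iterate h.linC n) (fun G => h.ofR_iter G n) F p
  have h3 : Tendsto (fun n => ((T^[n] (fun q => (F q).re) p : ℝ) : ℂ) +
        Complex.I * ((T^[n] (fun q => (F q).im) p : ℝ) : ℂ)) atTop
        (𝓝 (((0 : ℝ) : ℂ) + Complex.I * ((0 : ℝ) : ℂ))) :=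
    ((Complex.continuous_ofReal.tendsto _).comp h1).add
      (((Complex.continuous_ofReal.tendsto _).comp h2).const_mul _)
  simp only [Complex.ofReal_zero, mul_zero, add_zero] at h3
  exact h3.congr fun n => (e n).symm

theorem IsF.iter (hV : IsF A Tc V) (n : ℕ) (F : Pat α → ℂ) : V (Tc^[n] F) = V F := by
  induction n with
  | zero => rfl
  | succ n ih => rw [Function.iterate_succ_apply', hV.fix, ih]

/-- **The limit of the iterates.** -/
theorem Sys.lim [Finite α] (h : Sys A T Tc) (hV : IsF A Tc V) (F : Pat α → ℂ) :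
    Tendsto (fun n => (Tc^[n] F) Pat.empty) atTop (𝓝 (V F)) := by
  classical
  have : Fintype (NE A) := Fintype.ofFinite _
  have h2 : ∀ n, (Tc^[n] F) Pat.empty = V F - ∑ p : NE A, (Tc^[n] F) p.1 * V (HS.ind p.1) := by
    intro n
    rw [← hV.iter n, sup_sum hV.sup, hV.one, mul_one]
    ring
  have h3 : Tendsto (fun n => V F - ∑ p : NE A, (Tc^[n] F) p.1 * V (HS.ind p.1)) atTop
      (𝓝 (V F - ∑ p : NE A, 0 * V (HS.ind p.1))) := by
    apply tendsto_const_nhds.sub
    apply tendsto_finsetSum
    intro p _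
    exact (h.to0C F p.2.1 p.2.2).mul_const _
  simp only [zero_mul, Finset.sum_const_zero, sub_zero] at h3
  exact h3.congr fun n => (h2 n).symm

theorem Sys.bdd [Finite α] (h : Sys A T Tc) (hV : IsF A Tc V) :
    ∃ a : ℝ, Tendsto (fun n => (T^[n] (fun _ => 1)) Pat.empty) atTop (𝓝 a) := by
  have h1 := h.lim hV (fun _ => ((1 : ℝ) : ℂ))
  have e : ∀ n, Tc^[n] (fun _ => ((1 : ℝ) : ℂ)) Pat.empty = ((T^[n] (fun _ => 1) Pat.empty : ℝ) : ℂ) := fun n =>
    congrFun (h.ofR_iter (fun _ => 1) n) Pat.empty
  simp only [e] at h1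
  refine ⟨(V fun _ => ((1 : ℝ) : ℂ)).re, ?_⟩
  have h2 := (Complex.continuous_re.tendsto _).comp h1
  simpa only [Function.comp_def, Complex.ofReal_re] using h2

/-- an operator that agrees on the class. -/
theorem Sys.congr (h : Sys A T Tc) (hp : PosOp T') (hl : Lin T') (hlC : Lin Tc')
    (ho : ∀ F : Pat α → ℝ, Tc' (fun p => (F p : ℂ)) = fun p => ((T' F p : ℝ) : ℂ))
    (e : ∀ F p, A p → T' F p = T F p) : Sys A T' Tc' where
  pos := hp
  lin := hl
  linC := hlC
  ofR := ho
  pres F G hFG p hA := by rw [e F p hA, e G p hA]; exact h.pres F G hFG p hA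
  ind p hA := by rw [e _ p hA]; exact h.ind p hA
  emp := h.emp
  maj G h0 hs h1 := h.maj G h0 hs fun p hp hA => by rw [← e G p hA]; exact h1 p hp hA

theorem IsF.congr (h : IsF A Tc V) (e : ∀ F p, A p → Tc' F p = Tc F p) : IsF A Tc' V where
  sup := h.sup
  one := h.one
  fix F := by rw [h.sup.congr fun p hA => e F p hA, h.fix]

/-- the operator acts on the left factor. -/
def UL {K : Type*} (A B : Pat α → Prop) (T : (Pat α → K) → (Pat α → K)) : Prop := ∀ (F : Pat α → K) (p q : Pat α),
  A p → B q → T F (un p q) = T (fun p' => F (un p' q)) p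

/-- the operator acts on the right factor. -/
def UR {K : Type*} (A B : Pat α → Prop) (T : (Pat α → K) → (Pat α → K)) : Prop := ∀ (F : Pat α → K) (p q : Pat α),
  A p → B q → T F (un p q) = T (fun q' => F (un p q')) q

theorem UL.iter {K : Type*} {T : (Pat α → K) → (Pat α → K)} (hP : Pres A A T) (h : UL A B T) (n : ℕ) : UL A B (T^[n]) := by
  induction n with
  | zero => intro F p q _ _; rfl
  | succ n ih =>
    intro F p q hp hq
    rw [Function.iterate_succ_apply', Function.iterate_succ_apply', h _ p q hp hq]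
    exact hP _ _ (fun p' hp' => ih F p' q hp' hq) p hp

theorem UR.iter {K : Type*} {T : (Pat α → K) → (Pat α → K)} (hP : Pres B B T) (h : UR A B T) (n : ℕ) : UR A B (T^[n]) := by
  induction n with
  | zero => intro F p q _ _; rfl
  | succ n ih =>
    intro F p q hp hq
    rw [Function.iterate_succ_apply', Function.iterate_succ_apply', h _ p q hp hq]
    exact hP _ _ (fun q' hq' => ih F p q' hp hq') q hq

/-- **Two families of operators on disjoint sites.** -/
theorem Sys.lim2 [Finite α] (h : Sys A T Tc) (h' : Sys B T' Tc') (hd : ∀ p q, A p → B q → Dj p q)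
    (ul : UL A B T) (ur : UR A B T') (ulC : UL A B Tc) (urC : UR A B Tc') (hV : IsF A Tc V) (hW : IsF B Tc' W)
    (F : Pat α → ℂ) : Tendsto (fun n => Tc^[n] (Tc'^[n] F) Pat.empty) atTop (𝓝 (pU V W F)) := by
  classical
  cases nonempty_fintype α
  have : Fintype (Pat α) := Fintype.ofFinite _
  set AU : Pat α → Prop := fun r => ∃ p q, A p ∧ B q ∧ un p q = r with hAU
  have : Fintype (NE AU) := Fintype.ofFinite _
  -- the constant function
  set one : Pat α → ℝ := fun _ => 1 with hone
  have ulI := ul.iter h.pres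
  have urI := ur.iter h'.pres
  have presI : ∀ n, Pres A A (T^[n]) := by
    intro n
    induction n with
    | zero => exact fun F G hFG p hp => hFG p hp
    | succ n ih =>
      intro F G hFG p hp
      rw [Function.iterate_succ_apply', Function.iterate_succ_apply']
      exact h.pres _ _ (ih F G hFG) p hp
  have prod1 : ∀ n p q, A p → B q → T^[n] (T'^[n] one) (un p q) = T'^[n] one q * T^[n] one p := by
    intro n p q hp hq
    rw [ulI n _ p q hp hq]
    have e2 : T^[n] (fun p' => T'^[n] one (un p' q)) p = T^[n] (fun p' => T'^[n] one q * one p') p := by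
      apply presI n _ _ _ p hp
      intro p' hp'
      rw [urI n _ p' q hp' hq, hone, mul_one]
    rw [e2]
    have hLn := lin_iterate h.lin n
    have := hLn (T'^[n] one q) 0 one one
    simpa using congrFun this p
  have lim1 : ∀ p q, A p → B q → (p ≠ Pat.empty ∨ q ≠ Pat.empty) →
      Tendsto (fun n => T^[n] (T'^[n] one) (un p q)) atTop (𝓝 0) := by
    intro p q hp hq hne
    simp only [prod1 _ p q hp hq]
    obtain ⟨a, ha⟩ := h.bdd hV
    obtain ⟨b, hb⟩ := h'.bdd hW
    by_cases h1 : p = Pat.empty
    · have h2 : q ≠ Pat.empty := hne.resolve_left (fun h' => h' h1)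
      have l1 : Tendsto (fun n => T'^[n] one q) atTop (𝓝 0) := h'.to0 one h2 hq
      have l2 : Tendsto (fun n => T^[n] one p) atTop (𝓝 a) := by rw [h1]; exact ha
      simpa using l1.mul l2
    · have l2 : Tendsto (fun n => T^[n] one p) atTop (𝓝 0) := h.to0 one h1 hp
      by_cases h2 : q = Pat.empty
      · have l1 : Tendsto (fun n => T'^[n] one q) atTop (𝓝 b) := by rw [h2]; exact hb
        simpa using l1.mul l2
      · have l1 : Tendsto (fun n => T'^[n] one q) atTop (𝓝 0) := h'.to0 one h2 hq
        simpa using l1.mul l2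
  have mono : ∀ (n : ℕ) (S : (Pat α → ℝ) → (Pat α → ℝ)), PosOp S → Lin S → ∀ {G H : Pat α → ℝ},
      (∀ r, G r ≤ H r) → ∀ r, S^[n] G r ≤ S^[n] H r := by
    intro n S hS hSL G H hGH
    induction n with
    | zero => exact hGH
    | succ n ih =>
      intro r
      rw [Function.iterate_succ_apply', Function.iterate_succ_apply']
      exact hS.mono hSL ih r
  have smul : ∀ (n : ℕ) (S : (Pat α → ℝ) → (Pat α → ℝ)), Lin S → ∀ (a : ℝ) (G : Pat α → ℝ),
      S^[n] (fun r => a * G r) = fun r => a * S^[n] G r := by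
    intro n S hSL a G
    have := lin_iterate hSL n a 0 G G
    simpa using this
  -- real functions tend to 0
  have real0 : ∀ (F : Pat α → ℝ) p q, A p → B q → (p ≠ Pat.empty ∨ q ≠ Pat.empty) →
      Tendsto (fun n => T^[n] (T'^[n] F) (un p q)) atTop (𝓝 0) := by
    intro F p q hp hq hne
    obtain ⟨C, hC⟩ : ∃ C : ℝ, ∀ r, |F r| ≤ C := by
      refine ⟨∑ q, |F q|, fun p => ?_⟩
      exact Finset.single_le_sum (f := fun q => |F q|) (fun _ _ => abs_nonneg _) (Finset.mem_univ p)
    have key : ∀ n, |T^[n] (T'^[n] F) (un p q)| ≤ C * T^[n] (T'^[n] one) (un p q) := by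
      intro n
      have up : ∀ r, T^[n] (T'^[n] F) r ≤ C * T^[n] (T'^[n] one) r := by
        intro r
        have h1 := mono n T h.pos h.lin (fun r => mono n T' h'.pos h'.lin (G := F) (H := fun r => C * one r)
          (fun r => by rw [hone, mul_one]; exact le_of_abs_le (hC r)) r) r
        rwa [smul n T' h'.lin C one, smul n T h.lin C] at h1
      have lo : ∀ r, (-C) * T^[n] (T'^[n] one) r ≤ T^[n] (T'^[n] F) r := by
        intro r
        have h1 := mono n T h.pos h.lin (fun r => mono n T' h'.pos h'.lin (G := fun r => (-C) * one r) (H := F)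
          (fun r => by rw [hone, mul_one]; exact neg_le_of_abs_le (hC r)) r) r
        rwa [smul n T' h'.lin (-C) one, smul n T h.lin (-C)] at h1
      rw [abs_le]
      exact ⟨by have := lo (un p q); linarith, up _⟩
    have h1 := (lim1 p q hp hq hne).const_mul C
    rw [mul_zero] at h1
    exact squeeze_zero_norm (fun n => by rw [Real.norm_eq_abs]; exact key n) h1
  have cx0 : ∀ p q, A p → B q → (p ≠ Pat.empty ∨ q ≠ Pat.empty) →
      Tendsto (fun n => Tc^[n] (Tc'^[n] F) (un p q)) atTop (𝓝 0) := by
    intro p q hp hq hne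
    have h1 := real0 (fun q => (F q).re) p q hp hq hne
    have h2 := real0 (fun q => (F q).im) p q hp hq hne
    have e : ∀ n, Tc^[n] (Tc'^[n] F) (un p q) = ((T^[n] (T'^[n] fun q => (F q).re) (un p q) : ℝ) : ℂ) +
        ((T^[n] (T'^[n] fun q => (F q).im) (un p q) : ℝ) : ℂ) * Complex.I := by
      intro n
      have hL := lin_iterate h.linC n
      have hL' := lin_iterate h'.linC n
      have hF : F = fun q => 1 * (((F q).re : ℝ) : ℂ) + Complex.I * (((F q).im : ℝ) : ℂ) := by
        funext q
        rw [one_mul, mul_comm]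
        exact (Complex.re_add_im (F q)).symm
      conv_lhs => rw [hF]
      rw [hL', hL]
      simp only [h.ofR_iter, h'.ofR_iter]
      ring
    simp only [e]
    have h3 := (Complex.continuous_ofReal.tendsto 0).comp h1
    have h4 := ((Complex.continuous_ofReal.tendsto 0).comp h2).mul_const Complex.I
    have h5 := h3.add h4
    simpa using h5
  -- the functional
  have fixl : ∀ G, pU V W (Tc G) = pU V W G := by
    intro G
    rw [pU_apply, pU_apply, dual_swap, dual_swap V W]
    apply hW.sup.congr
    intro q hq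
    have a2 : (V fun p => Tc G (un p q)) = V (Tc (fun p => G (un p q))) := by
      apply hV.sup.congr
      intro p hp
      exact ulC G p q hp hq
    rw [a2, hV.fix]
  have fixr : ∀ G, pU V W (Tc' G) = pU V W G := by
    intro G
    rw [pU_apply, pU_apply]
    apply hV.sup.congr
    intro p hp
    have a2 : (W fun q => Tc' G (un p q)) = W (Tc' (fun q => G (un p q))) := by
      apply hW.sup.congr
      intro q hq
      exact urC G p q hp hq
    rw [a2, hW.fix]
  have e1 : ∀ n G, pU V W (Tc^[n] G) = pU V W G := by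
    intro n G
    induction n with
    | zero => rfl
    | succ n ih => rw [Function.iterate_succ_apply', fixl, ih]
  have e2 : ∀ n G, pU V W (Tc'^[n] G) = pU V W G := by
    intro n G
    induction n with
    | zero => rfl
    | succ n ih => rw [Function.iterate_succ_apply', fixr, ih]
  have hsup : SupF AU (pU V W) := by
    intro G hG
    rw [pU_apply]
    apply hV.sup
    intro p hp
    apply hW.sup
    intro q hq
    exact hG _ ⟨p, q, hp, hq, rfl⟩
  have hone' : pU V W (HS.ind Pat.empty) = 1 := by
    rw [pU_apply]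
    have a1 : ∀ p, A p → (W fun q => (HS.ind Pat.empty : Pat α → ℂ) (un p q)) =
        (HS.ind Pat.empty : Pat α → ℂ) p := by
      intro p hp
      have a2 : (W fun q => (HS.ind Pat.empty : Pat α → ℂ) (un p q)) =
          W ((HS.ind Pat.empty : Pat α → ℂ) p • (HS.ind Pat.empty : Pat α → ℂ)) := by
        apply hW.sup.congr
        intro q hq
        have hdj := hd p q hp hq
        rw [Pi.smul_apply, smul_eq_mul]
        by_cases h1 : p = Pat.empty
        · by_cases h2 : q = Pat.empty
          · rw [h1, h2, un_empty, ind_self, mul_one]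
          · obtain ⟨x, hx⟩ := un_ne_right hdj h2
            rw [ind_ne h2, mul_zero]
            exact ind_empty_ne hx
        · obtain ⟨x, hx⟩ := un_ne_left hdj h1
          rw [ind_ne h1, zero_mul]
          exact ind_empty_ne hx
      rw [a2, map_smul, hW.one, smul_eq_mul, mul_one]
    rw [hV.sup.congr a1, hV.one]
  have e3 : ∀ n, Tc^[n] (Tc'^[n] F) Pat.empty = pU V W F -
      ∑ p : NE AU, Tc^[n] (Tc'^[n] F) p.1 * pU V W (HS.ind p.1) := by
    intro n
    have := sup_sum hsup (Tc^[n] (Tc'^[n] F))
    rw [e1, e2, hone', mul_one] at this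
    rw [this]
    ring
  have e4 : Tendsto (fun n => ∑ p : NE AU, Tc^[n] (Tc'^[n] F) p.1 * pU V W (HS.ind p.1)) atTop (𝓝 0) := by
    have : (0 : ℂ) = ∑ p : NE AU, 0 * pU V W (HS.ind p.1) := by simp
    rw [this]
    refine tendsto_finsetSum _ fun r _ => Tendsto.mul_const _ ?_
    obtain ⟨r, hr1, p, q, hp, hq, rfl⟩ := r
    exact cx0 p q hp hq (un_eq_empty (hd p q hp hq) hr1)
  have e5 := (tendsto_const_nhds (x := pU V W F) (f := atTop (α := ℕ))).sub e4
  rw [sub_zero] at e5
  exact e5.congr fun n => (e3 n).symm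

end sys

end Pool.Agent.TC
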