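import Pool.Agent.TC.LkTop
import Pool.Agent.NUG.Split5
import Pool.Agent.NUF.UTv

/-!
# Type C, link: the two half strips of the honeycomb lattice and their exits

`exits_lim`: the sum over the feet of the iterated columns with one exit tends to
`pU (WW z0 b X) (VV (-z0) Y) F + pU (VV z0 X) (WW (-z0) b Y) F`.
-/

set_option autoImplicit false

namespace Pool.Agent.TC

open _root_.Pool.Agent.EXL _root_.Pool.Agent.EXL.Pat _root_.Pool.Agent.EXL.HS Pool.Agent.NUF Pool.Agent.NUG
  HexObs Filter Topology

/-! ### relations -/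

section rel

variable {α K : Type*} [DecidableEq α] [CommRing K] {q : Pat α} {F H : Pat α → K} {c b : α}

theorem RelU.colX (w : α → Wt K) {L : List α} (h : RelU q F H) (hc : q c = c) (hb : q b = b)
    (hL : ∀ x ∈ L, q x = x) : RelU q (colX w c b L F) (colX w c b L H) := by
  intro p hp
  have hM := (h.emp hc).M w hc hL
  unfold TC.colX
  rw [un_left hp hc, un_left hp hb]
  split_ifs
  · rw [un_cup hp hc hb]
    exact hM _ (cup_sub hc hb hp)
  · rfl

theorem RelU.colE (w : α → Wt K) {L : List α} (h : RelU q F H) (hc : q c = c) (hb : q b = b)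
    (hL : ∀ x ∈ L, q x = x) : RelU q (colE w c b L F) (colE w c b L H) := by
  intro p hp
  have h1 := h.colF w hc hL p hp
  have h2 := RelU.colX w h hc hb hL p hp
  unfold TC.colE
  rw [h1, h2]

theorem RelU.outT (h : RelU q F H) (hc : q c = c) (hb : q b = b) : RelU q (outT c b F) (outT c b H) := by
  intro p hp
  unfold TC.outT
  rw [un_left hp hc, un_left hp hb, un_swap hp hc hb]
  split_ifs
  · exact h _ (hp.swap hc hb)
  · rfl

theorem RelU.colT (w : α → Wt K) {L : List α} (h : RelU q F H) (hc : q c = c) (hb : q b = b)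
    (hL : ∀ x ∈ L, q x = x) : RelU q (colT w c b L F) (colT w c b L H) := by
  intro p hp
  have hM := (RelU.outT h hc hb).M w hc hL
  unfold TC.colT
  rw [un_left hp hc, un_left hp hb]
  split_ifs
  · exact hM p hp
  · rfl

/-- the column with an optional exit at its end. -/
def colG (w : α → Wt K) (c b : α) (X : List α) (F : Pat α → K) : Pat α → K := fun p =>
  colF w c X F p + TC.colT w c b X F p

theorem lin_colG (w : α → Wt K) (c b : α) (X : List α) : Lin (colG w c b X) := by
  intro u v F G
  funext p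
  unfold colG
  rw [lin_colF, lin_colT]
  ring

theorem RelU.colG (w : α → Wt K) {L : List α} (h : RelU q F H) (hc : q c = c) (hb : q b = b)
    (hL : ∀ x ∈ L, q x = x) : RelU q (colG w c b L F) (colG w c b L H) := by
  intro p hp
  have h1 := h.colF w hc hL p hp
  have h2 := RelU.colT w h hc hb hL p hp
  unfold TC.colG
  rw [h1, h2]

theorem ul_of {T : (Pat α → K) → (Pat α → K)} {A B : Pat α → Prop} (hd : ∀ p q, A p → B q → Dj p q)
    (h : ∀ (q : Pat α) (F H : Pat α → K), B q → RelU q F H → RelU q (T F) (T H)) : UL A B T := by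
  intro F p q hp hq
  exact h q F (fun p' => F (un p' q)) hq (fun _ _ => rfl) p (hd p q hp hq)

theorem ur_of {T : (Pat α → K) → (Pat α → K)} {A B : Pat α → Prop} (hd : ∀ p q, A p → B q → Dj p q)
    (h : ∀ (p : Pat α) (F H : Pat α → K), A p → RelU p F H → RelU p (T F) (T H)) : UR A B T := by
  intro F p q hp hq
  have hdj := hd p q hp hq
  rw [un_comm hdj]
  exact h p F (fun q' => F (un p q')) hp (fun q' hq' => by rw [un_comm hq']) q hdj.symm

end rel

/-! ### the systems of a half strip -/

section side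

variable {α : Type*} [DecidableEq α] {b c d : α} {X : List α} {w : Wt ℝ}

/-- the complex weights. -/
noncomputable def wC (w : Wt ℝ) : Wt ℂ := w.map Complex.ofRealHom

theorem wC_hex : wC (hexW xc) = hexW (xc : ℂ) := hexW_map _ _

theorem wC_cross (w : Wt ℝ) : wC (cross w) = cross (wC w) := rfl

theorem emp_ofReal (c : α) (G : Pat α → ℝ) : emp c (fun p => (G p : ℂ)) = fun p => ((emp c G p : ℝ) : ℂ) := by
  funext p
  simp only [emp]
  split_ifs
  · rfl
  · simp

theorem M_ofReal (w : Wt ℝ) (c : α) (X : List α) (G : Pat α → ℝ) :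
    EXL.M (fun _ => wC w) c X (fun p => (G p : ℂ)) = fun p => ((EXL.M (fun _ => w) c X G p : ℝ) : ℂ) :=
  M_map Complex.ofRealHom (fun _ => w) c X G

theorem colF_ofR (w : Wt ℝ) (c : α) (X : List α) (F : Pat α → ℝ) :
    colF (fun _ => wC w) c X (fun p => (F p : ℂ)) = fun p => ((colF (fun _ => w) c X F p : ℝ) : ℂ) := by
  unfold colF
  rw [emp_ofReal, M_ofReal, emp_ofReal]

theorem colX_ofR (w : Wt ℝ) (c b : α) (X : List α) (F : Pat α → ℝ) :
    colX (fun _ => wC w) c b X (fun p => (F p : ℂ)) = fun p => ((colX (fun _ => w) c b X F p : ℝ) : ℂ) := by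
  funext p
  unfold colX
  split_ifs
  · rw [emp_ofReal, M_ofReal]
  · simp

theorem outT_ofR (c b : α) (F : Pat α → ℝ) :
    outT c b (fun p => (F p : ℂ)) = fun p => ((outT c b F p : ℝ) : ℂ) := by
  funext p
  unfold outT
  split_ifs
  · rfl
  · simp

theorem colT_ofR (w : Wt ℝ) (c b : α) (X : List α) (F : Pat α → ℝ) :
    colT (fun _ => wC w) c b X (fun p => (F p : ℂ)) = fun p => ((colT (fun _ => w) c b X F p : ℝ) : ℂ) := by
  funext p
  unfold colT
  split_ifs
  · rw [outT_ofR, M_ofReal]
  · simp

theorem Side.sys0 (h : Side w c b X) : Sys (AX X) (colF (fun _ => w) c X) (colF (fun _ => wC w) c X) where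
  pos := pos_colF h.nn c X
  lin := lin_colF _ c X
  linC := lin_colF _ c X
  ofR F := colF_ofR w c X F
  pres := pres_colF _ (List.nodup_cons.1 h.nd).2 (notMem_cons h.nc).2
  ind p _ := by rw [colF_ind _ (notMem_cons h.nc).2]
  emp := ax_empty X
  maj := h.m0

theorem Side.sysE (h : Side w c b X) :
    Sys (AX (b :: X)) (colE (fun _ => w) c b X) (colE (fun _ => wC w) c b X) where
  pos := pos_colE h.nn c b X
  lin := lin_colE _ c b X
  linC := lin_colE _ c b X
  ofR F := by
    funext p
    unfold colE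
    rw [colF_ofR, colX_ofR]
    push_cast
    rfl
  pres := pres_colE _ h.nd h.nc
  ind p _ := by rw [colE_ind _ (notMem_cons h.nc).1 (notMem_cons h.nc).2]
  emp := ax_empty (b :: X)
  maj := h.mE

/-- the rapidities of the weights. -/
def Rap (z : α → ℂ) (w : Wt ℝ) (X : List α) : Prop := ∀ j ∈ X, rwt (3 * Real.pi / 16 - z j) = wC w

theorem rap_hex (X : List α) : Rap (z0 (ι := α)) (hexW xc) X := by
  intro j _
  unfold z0
  rw [show (3 * Real.pi / 16 - Real.pi / 16 : ℂ) = Real.pi / 8 by ring, rwt_hex, wC_hex]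

theorem rap_cross (X : List α) : Rap (fun j => -z0 (ι := α) j) (cross (hexW xc)) X := by
  intro j _
  unfold z0
  rw [show (3 * Real.pi / 16 - -(Real.pi / 16) : ℂ) = 3 * Real.pi / 8 - Real.pi / 8 by ring, rwt_cross,
    rwt_hex, wC_cross, wC_hex]

variable {z : α → ℂ}

theorem T0_rap (hz : Rap z w X) (hc : c ∉ X) (F : Pat α → ℂ) : T0 z c X F = colF (fun _ => wC w) c X F := by
  have h1 := congrFun (T0_fun z hc) F
  rw [h1]
  unfold colF
  have h : EXL.M (fun j => rwt (3 * Real.pi / 16 - z j)) c X = EXL.M (fun _ => wC w) c X := by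
    apply M_congr'
    intro j hj
    exact hz j hj
  rw [h]

theorem T1_rap (hz : Rap z w X) (hc : c ∉ X) (F : Pat α → ℂ) : T1 z c b X F = colX (fun _ => wC w) c b X F := by
  have h : EXL.M (fun j => rwt (3 * Real.pi / 16 - z j)) c X = EXL.M (fun _ => wC w) c X := by
    apply M_congr'
    intro j hj
    exact hz j hj
  funext p
  unfold T1 colX
  rw [Module.End.mul_apply, Module.End.mul_apply, uops_E_apply, uops_M_apply _ _ hc, opCu_apply]
  by_cases hp : p c = c ∧ p b = b
  · have hp' : CuOK c b p := hp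
    rw [if_pos hp, if_pos hp', ← h]
    rfl
  · have hp' : ¬ CuOK c b p := hp
    rw [if_neg hp, if_neg hp']

theorem isF_VV [Finite α] (h : Side w c b X) (hz : Rap z w X) (hR : Reg z X) :
    IsF (AX X) (colF (fun _ => wC w) c X) (VV z X) := by
  have hc := (notMem_cons h.nc).2
  have hV := isV_VV (List.nodup_cons.1 h.nd).2 hc hR
  refine ⟨hV.sup, hV.one, fun F => ?_⟩
  rw [← T0_rap hz hc]
  exact congrArg (fun W : Fnl α => W F) (hV.fix c hc)

theorem isF_WW [Finite α] (h : Side w c b X) (hz : Rap z w X) (hR : Reg z X) (hR1 : Reg1 z b X) :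
    IsF (AX (b :: X)) (colE (fun _ => wC w) c b X) (VV z X + WW z b X) := by
  have hc := (notMem_cons h.nc).2
  have hb := (List.nodup_cons.1 h.nd).1
  have hV := isV_VV (List.nodup_cons.1 h.nd).2 hc hR
  have hW := isW_WW h.nd h.nc hR hR1
  refine ⟨?_, ?_, fun F => ?_⟩
  · intro G hG
    rw [LinearMap.add_apply, hV.sup G (fun p hp => hG p (ax_cons' hb hp)), hW.sup G (fun p hp => hG p hp.1), add_zero]
  · rw [LinearMap.add_apply, hV.one, hW.sup _ (fun p hp => ind_ne fun e : p = Pat.empty => A1_ne b X (e ▸ hp)), add_zero]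
  · have e1 : VV z X (colF (fun _ => wC w) c X F) = VV z X F := (isF_VV h hz hR).fix F
    have e2 : WW z b X F - WW z b X (colF (fun _ => wC w) c X F) = VV z X (colX (fun _ => wC w) c b X F) := by
      rw [← T0_rap hz hc, ← T1_rap hz hc]
      exact congrArg (fun W : Fnl α => W F) (hW.eq c h.nc)
    have e3 : WW z b X (colX (fun _ => wC w) c b X F) = 0 :=
      hW.sup _ fun p hp => colX_occ F hp.2
    have e4 : colE (fun _ => wC w) c b X F = colF (fun _ => wC w) c X F + colX (fun _ => wC w) c b X F := rfl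
    rw [e4, LinearMap.add_apply, LinearMap.add_apply, map_add, map_add, e1, e3, ← e2]
    ring

end side

/-! ### the left half strip -/

section left

variable {α : Type*} [DecidableEq α] {b c d : α} {Y : List α}

theorem colF_left (hn : (b :: Y).Nodup) (hc : c ∉ b :: Y) (hd : d ∉ b :: Y) (hcd : c ≠ d) {K : Type*} [CommRing K]
    (w : Wt K) (F : Pat α → K) {p : Pat α} (hp : AX (b :: Y) p) :
    colF (fun _ => w) c Y.reverse F p = colF (fun _ => cross w) d Y F p := by
  have := colF_rev (fun _ : α => cross w) (X := Y) (c := d) (d := c) (List.nodup_cons.1 hn).2 hcd (notMem_cons hc).2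
    (notMem_cons hd).2 F (ax_out hp hd) (ax_out hp hc)
  exact this.symm

theorem colT_left (hn : (b :: Y).Nodup) (hc : c ∉ b :: Y) (hd : d ∉ b :: Y) (hcd : c ≠ d) {K : Type*} [CommRing K]
    (w : Wt K) (F : Pat α → K) {p : Pat α} (hp : AX (b :: Y) p) :
    colT (fun _ => w) c b Y.reverse F p = colX (fun _ => cross w) d b Y F p := by
  have hb := (List.nodup_cons.1 hn).1
  have := colT_rev (fun _ : α => w) (X := Y.reverse) (c := c) (d := d) (b := b)
    (List.nodup_reverse.2 (List.nodup_cons.1 hn).2) hcd.symm (notMem_cons hc).1.symm (notMem_cons hd).1.symm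
    (by simpa using (notMem_cons hd).2) (by simpa using (notMem_cons hc).2) (by simpa using hb) F
    (ax_out hp hc) (ax_out hp hd)
  rw [List.reverse_reverse] at this
  exact this

theorem pos_colT {w : Wt ℝ} (hw : w.Nn) (c b : α) (X : List α) : PosOp (colT (fun _ => w) c b X) := by
  intro F hF p
  unfold colT
  split_ifs
  · refine M_nn (fun _ => hw) c X (fun q => ?_) _
    unfold outT
    split_ifs
    · exact hF _
    · exact le_rfl
  · exact le_rfl

/-- the exits of the left columns, one at a time. -/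
theorem exo_colT {K : Type*} [CommRing K] (w : α → Wt K) {X : List α} (hb : b ∉ X) (hcb : c ≠ b) (hcX : c ∉ X) :
    Exo b (colF w c X) (colT w c b X) where
  linT := lin_colF w c X
  linX := lin_colT w c b X
  T_emp := emp_colF w hb hcb hcX
  emp_X F := by
    funext p
    unfold emp colT
    by_cases h : p b = b
    · rw [if_pos h]
    · rw [if_neg h, if_neg (fun h' => h h'.2)]
  X_emp F := by
    have e : outT c b (emp b F) = 0 := by
      funext q
      unfold outT emp
      by_cases h : q b = b ∧ q c ≠ c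
      · rw [if_pos h, if_neg]
        · rfl
        · rw [pswap_apply, Equiv.swap_apply_right]
          intro h1
          have := congrArg (Equiv.swap c b) h1
          rw [Equiv.swap_apply_self, Equiv.swap_apply_right] at this
          exact h.2 this
      · rw [if_neg h]
        rfl
    funext p
    unfold colT
    rw [e, Lin.zero (lin_M w c X)]
    split_ifs <;> rfl

variable [Finite α]

/-- the left columns without exit. -/
theorem sysL0 (hn : (b :: Y).Nodup) (hc : c ∉ b :: Y) (hd : d ∉ b :: Y) (hcd : c ≠ d) :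
    Sys (AX Y) (colF (fun _ => hexW xc) c Y.reverse) (colF (fun _ => hexW (xc : ℂ)) c Y.reverse) ∧
    IsF (AX Y) (colF (fun _ => hexW (xc : ℂ)) c Y.reverse) (VV (fun j => -z0 j) Y) := by
  have hb := (List.nodup_cons.1 hn).1
  have hS := side_cross hn hc hd hcd
  have hR : Reg (fun j => -z0 j) Y := by
    have h1 := (reg_hex (z := z0 (ι := α)) (X := Y.reverse) (List.nodup_reverse.2 (List.nodup_cons.1 hn).2)
      fun _ _ => rfl).rev (List.nodup_reverse.2 (List.nodup_cons.1 hn).2) hcd (by simpa using (notMem_cons hc).2)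
      (by simpa using (notMem_cons hd).2)
    rwa [List.reverse_reverse] at h1
  constructor
  · refine hS.sys0.congr (pos_colF (hexW_nn xc_pos.le) c _) (lin_colF _ c _) (lin_colF _ c _) (fun F => ?_)
      fun F p hp => colF_left hn hc hd hcd _ F (ax_cons' hb hp)
    have := colF_ofR (hexW xc) c Y.reverse F
    rwa [wC_hex] at this
  · refine (isF_VV hS (rap_cross Y) hR).congr fun F p hp => ?_
    rw [wC_cross, wC_hex]
    exact colF_left hn hc hd hcd _ F (ax_cons' hb hp)

/-- the left columns with an optional exit. -/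
theorem sysLE (hn : (b :: Y).Nodup) (hc : c ∉ b :: Y) (hd : d ∉ b :: Y) (hcd : c ≠ d)
    (hR1 : Reg1 (fun j => -z0 j) b Y) :
    Sys (AX (b :: Y)) (colG (fun _ => hexW xc) c b Y.reverse) (colG (fun _ => hexW (xc : ℂ)) c b Y.reverse) ∧
    IsF (AX (b :: Y)) (colG (fun _ => hexW (xc : ℂ)) c b Y.reverse)
      (VV (fun j => -z0 j) Y + WW (fun j => -z0 j) b Y) := by
  have hS := side_cross hn hc hd hcd
  have hR : Reg (fun j => -z0 j) Y := by
    have h1 := (reg_hex (z := z0 (ι := α)) (X := Y.reverse) (List.nodup_reverse.2 (List.nodup_cons.1 hn).2)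
      fun _ _ => rfl).rev (List.nodup_reverse.2 (List.nodup_cons.1 hn).2) hcd (by simpa using (notMem_cons hc).2)
      (by simpa using (notMem_cons hd).2)
    rwa [List.reverse_reverse] at h1
  constructor
  · refine hS.sysE.congr (fun F hF p => ?_) (lin_colG _ c b _) (lin_colG _ c b _) (fun F => ?_) fun F p hp => ?_
    · exact add_nonneg (pos_colF (hexW_nn xc_pos.le) c _ F hF p) (pos_colT (hexW_nn xc_pos.le) c b _ F hF p)
    · have h1 := colF_ofR (hexW xc) c Y.reverse F
      have h2 := colT_ofR (hexW xc) c b Y.reverse F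
      rw [wC_hex] at h1 h2
      funext p
      unfold colG
      rw [h1, h2]
      push_cast
      rfl
    · unfold colG colE
      rw [colF_left hn hc hd hcd _ F hp, colT_left hn hc hd hcd _ F hp]
  · refine (isF_WW hS (rap_cross Y) hR hR1).congr fun F p hp => ?_
    rw [wC_cross, wC_hex]
    unfold colG colE
    rw [colF_left hn hc hd hcd _ F hp, colT_left hn hc hd hcd _ F hp]

omit [Finite α] in
theorem A1_rev (hn : (b :: Y).Nodup) {p : Pat α} : A1 b Y.reverse p ↔ A1 b Y p := by
  have hn' : (b :: Y.reverse).Nodup := by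
    rw [List.nodup_cons, List.mem_reverse, List.nodup_reverse]
    exact List.nodup_cons.1 hn
  constructor
  · rintro ⟨h1, h2⟩
    refine ⟨?_, h2⟩
    have h3 := ax_rotate hn' h1
    rw [← List.reverse_cons] at h3
    exact (ax_reverse hn p).1 h3
  · rintro ⟨h1, h2⟩
    refine ⟨?_, h2⟩
    have h3 := (ax_reverse hn p).2 h1
    rw [List.reverse_cons] at h3
    exact ax_rotate' hn' h3

omit [Finite α] in
/-- the reversed honeycomb point is regular for the one leg functional. -/
theorem reg1_cross (hn : (b :: Y).Nodup) (hc : c ∉ b :: Y) (hd : d ∉ b :: Y) (hcd : c ≠ d) :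
    Reg1 (fun j => -z0 j) b Y := by
  have hn' : (b :: Y.reverse).Nodup := by
    rw [List.nodup_cons, List.mem_reverse, List.nodup_reverse]
    exact List.nodup_cons.1 hn
  have hc' : c ∉ b :: Y.reverse := by
    rw [List.mem_cons, List.mem_reverse, ← List.mem_cons]
    exact hc
  refine reg1_of hn hd ?_
  intro G h0 h1 p
  refine inj1_cx hn' hc' G (fun q hq => h0 q fun h => hq ⟨h.1, (A1_rev hn).2 h.2⟩) (fun q hq hA => ?_) p
  have hA' := (A1_rev hn).1 hA
  have h2 := h1 q hq hA'
  simp only at h2
  rw [T0_rap (w := cross (hexW xc)) (rap_cross Y) (notMem_cons hd).2, wC_cross, wC_hex] at h2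
  rw [colF_left hn hc hd hcd _ G hA'.1]
  exact h2

end left

end Pool.Agent.TC
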