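import Pool.Agent.TC.LkOne

/-!
# Type C, link: the column which ends at the exit

`colT w c b X` = the column whose auxiliary line ends (after the last row) at the exit `b`.  Read from the other side
it is the column `colX` of the reversed rows with the crossed weights.
-/

set_option autoImplicit false

namespace Pool.Agent.TC

open _root_.Pool.Agent.EXL _root_.Pool.Agent.EXL.Pat _root_.Pool.Agent.EXL.HS Pool.Agent.NUF Pool.Agent.NUG
  HexObs Filter Topology

section top

variable {α K : Type*} [DecidableEq α] [CommRing K] {w : α → Wt K} {b c d : α} {X : List α}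

/-- the auxiliary line becomes the exit. -/
def outT (c b : α) (F : Pat α → K) : Pat α → K := fun q => if q b = b ∧ q c ≠ c then F (swap c b q) else 0

/-- the column which ends at the exit. -/
def colT (w : α → Wt K) (c b : α) (X : List α) (F : Pat α → K) : Pat α → K := fun p =>
  if p c = c ∧ p b = b then EXL.M w c X (outT c b F) p else 0

theorem lin_outT (c b : α) : Lin (K := K) (outT c b) := by
  intro u v F G
  funext p
  unfold outT
  split_ifs <;> ring

theorem lin_colT (w : α → Wt K) (c b : α) (X : List α) : Lin (colT w c b X) := by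
  intro u v F G
  funext p
  unfold colT
  by_cases h : p c = c ∧ p b = b
  · simp only [if_pos h]
    rw [lin_outT, lin_M]
  · simp only [if_neg h]
    ring

/-- a column commutes with the exchange of two sites outside. -/
theorem sw_M_comm (w' : α → Wt K) {X : List α} (hcd : c ≠ d) (hbd : b ≠ d) (hc : c ∉ X) (hb : b ∉ X)
    (hdX : d ∉ X) (F : Pat α → K) : sw c b (EXL.M w' d X F) = EXL.M w' d X (sw c b F) := by
  have h : Com (sw c b) (EXL.M w' d X) := by
    apply Com.M
    intro j hj G
    have hcj : c ≠ j := fun e => hc (e ▸ hj)
    have hbj : b ≠ j := fun e => hb (e ▸ hj)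
    have hdj : d ≠ j := fun e => hdX (e ▸ hj)
    refine (sw_isLoc c b).comm (R_isLoc (w' j) hdj) ?_ G
    rw [Set.disjoint_left]
    intro x hx hx'
    simp only [Set.mem_insert_iff, Set.mem_singleton_iff] at hx hx'
    rcases hx with rfl | rfl <;> rcases hx' with h | h
    · exact hcd h
    · exact hcj h
    · exact hbd h
    · exact hbj h
  exact h F

/-- an operator that commutes with the projection on `b` empty keeps `b` empty. -/
theorem pres_emp {b : α} {x : (Pat α → K) → (Pat α → K)} (h : ∀ F, emp b (x F) = x (emp b F)) :
    Pres (fun p => p b = b) (fun p => p b = b) x := by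
  intro F G hFG p hp
  have e : emp b F = emp b G := by
    funext q
    unfold emp
    split_ifs with hq
    · exact hFG q hq
    · rfl
  have k : ∀ H : Pat α → K, emp b H p = H p := fun H => by
    unfold emp
    rw [if_pos hp]
  rw [← k (x F), ← k (x G), h, h, e]

/-- **The column which ends at the exit, read from the other side.** -/
theorem colT_rev (w : α → Wt K) (hn : X.Nodup) (hdc : d ≠ c) (hbc : b ≠ c) (hbd : b ≠ d) (hd : d ∉ X)
    (hc : c ∉ X) (hb : b ∉ X) (F : Pat α → K) {p : Pat α} (hpc : p c = c) (hpd : p d = d) :
    colT w c b X F p = colX (fun j => cross (w j)) d b X.reverse F p := by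
  have hd' : d ∉ X.reverse := by simpa using hd
  have hc' : c ∉ X.reverse := by simpa using hc
  have hb' : b ∉ X.reverse := by simpa using hb
  by_cases hpb : p b = b
  swap
  · unfold colT colX
    rw [if_neg fun h => hpb h.2, if_neg fun h => hpb h.2]
  set cw : α → Wt K := fun j => cross (w j) with hcw
  unfold colT colX
  rw [if_pos ⟨hpc, hpb⟩, if_pos ⟨hpd, hpb⟩]
  have hu := congrFun (U_M_cross w hn hdc hd hc (emp d (outT c b F))) p
  have hcupd : cup d c p d = c := by rw [pcup_apply hpd hpc, if_pos rfl]
  have hcupc : cup d c p c = d := by rw [pcup_apply hpd hpc, if_neg hdc.symm, if_pos rfl]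
  have hcupb : cup d c p b = b := by rw [pcup_apply hpd hpc, if_neg hbd, if_neg hbc, hpb]
  simp only [U] at hu
  rw [if_pos hpd, if_pos hpc, if_pos hpd, if_pos hpc] at hu
  -- the left hand side
  have l1 : EXL.M w c X (emp d (outT c b F)) p = EXL.M w c X (outT c b F) p := by
    rw [← emp_M_comm w hdc hd hc]
    unfold emp
    rw [if_pos hpd]
  have l2 : EXL.M w c X (emp d (outT c b F)) (cup d c p) = 0 := by
    rw [← emp_M_comm w hdc hd hc]
    unfold emp
    rw [if_neg]
    rw [hcupd]
    exact hdc.symm
  -- the right hand side
  have r1 : EXL.M cw d X.reverse (emp d (outT c b F)) p = 0 := by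
    have e : EXL.M cw d X.reverse (emp d (outT c b F)) p =
        emp c (EXL.M cw d X.reverse (emp d (outT c b F))) p := by
      unfold emp
      rw [if_pos hpc]
    rw [e, emp_M_comm cw hdc.symm hc' hd']
    have e2 : emp c (emp d (outT c b F)) = 0 := by
      funext q
      unfold emp outT
      split_ifs with h1 h2 h3
      · exact absurd h1 h3.2
      · rfl
      · rfl
      · rfl
    rw [e2, Lin.zero (lin_M cw d X.reverse)]
    rfl
  have r2 : EXL.M cw d X.reverse (emp d (outT c b F)) (cup d c p) =
      EXL.M cw d X.reverse (emp d F) (cup d b p) := by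
    have h1 : Pres (K := K) (fun p => p b = b) (fun p => p b = b) (EXL.M cw d X.reverse) :=
      pres_emp fun F => emp_M_comm cw hbd hb' hd' F
    have h2 : Pres (K := K) (fun p => p c ≠ c) (fun p => p c ≠ c) (EXL.M cw d X.reverse) :=
      pres_occ (lin_M cw d X.reverse) fun F => emp_M_comm cw hdc.symm hc' hd' F
    have h3 : EXL.M cw d X.reverse (emp d (outT c b F)) (cup d c p) =
        EXL.M cw d X.reverse (sw c b (emp d F)) (cup d c p) := by
      refine (h1.inter h2) _ _ (fun q hq => ?_) _ ⟨hcupb, by rw [hcupc]; exact hdc⟩
      have e1 : swap c b q d = d ↔ q d = d := by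
        rw [pswap_apply, Equiv.swap_apply_of_ne_of_ne hdc hbd.symm]
        constructor
        · intro h
          have := congrArg (Equiv.swap c b) h
          rwa [Equiv.swap_apply_self, Equiv.swap_apply_of_ne_of_ne hdc hbd.symm] at this
        · intro h
          rw [h, Equiv.swap_apply_of_ne_of_ne hdc hbd.symm]
      unfold emp outT sw
      by_cases h : q d = d
      · rw [if_pos h, if_pos ⟨hq.1, hq.2⟩]
        exact (if_pos (e1.2 h)).symm
      · rw [if_neg h]
        exact (if_neg (fun h' => h (e1.1 h'))).symm
    rw [h3, ← sw_M_comm cw hdc.symm hbd hc' hb' hd']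
    have e : swap c b (cup d c p) = cup d b p := by
      ext x
      rw [pswap_apply, pcup_apply hpd hpc, pcup_apply hpd hpb]
      by_cases hx : x = d
      · subst hx
        rw [Equiv.swap_apply_of_ne_of_ne hdc hbd.symm, if_pos rfl, if_pos rfl, Equiv.swap_apply_left]
      · by_cases hx2 : x = b
        · subst hx2
          rw [Equiv.swap_apply_right, if_neg hdc.symm, if_pos rfl, Equiv.swap_apply_of_ne_of_ne hdc hbd.symm,
            if_neg hbd, if_pos rfl]
        · by_cases hx3 : x = c
          · subst hx3
            rw [Equiv.swap_apply_left, if_neg hbd, if_neg hbc, hpb, Equiv.swap_apply_right, if_neg hx,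
              if_neg hx2, hpc]
          · rw [Equiv.swap_apply_of_ne_of_ne hx3 hx2, if_neg hx, if_neg hx3, if_neg hx, if_neg hx2]
            have h1 : p x ≠ c := fun e => hx3 (by
              have := congrArg p.f e
              rw [show p.f (p x) = x from p.inv x] at this
              rw [this]
              exact hpc)
            have h2 : p x ≠ b := fun e => hx2 (by
              have := congrArg p.f e
              rw [show p.f (p x) = x from p.inv x] at this
              rw [this]
              exact hpb)
            rw [Equiv.swap_apply_of_ne_of_ne h1 h2]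
    show EXL.M cw d X.reverse (emp d F) (swap c b (cup d c p)) = _
    rw [e]
  rw [l1, l2, r1, r2, add_zero, zero_add] at hu
  exact hu

end top

end Pool.Agent.TC
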