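import Pool.Agent.BAR.LegCF
import Pool.Agent.HexLoop.Defs

/-!
TARGET-G2, walk side: the turning number of a walk between the floor and an inner row edge is determined by the number
of its crossings of the line above the edge (Hopf's secant map).
-/

set_option autoImplicit false

namespace HexObs

namespace TC

open Complex Finset

open LP (nn lv)

/-! angles -/

lemma arg_div' {x y : ℂ} (hx : x ≠ 0) (hy : y ≠ 0) (h1 : arg x ≠ Real.pi)
    (h : arg y - arg x ∈ Set.Ioc (-Real.pi) Real.pi) : arg (y / x) = arg y - arg x := by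
  have hinv : arg x⁻¹ = -arg x := by rw [Complex.arg_inv, if_neg h1]
  rw [div_eq_mul_inv, Complex.arg_mul hy (inv_ne_zero hx), hinv]
  · ring
  · rw [hinv]
    exact h

lemma arg_pos_im {x : ℂ} (hx : 0 < x.im) : 0 < arg x ∧ arg x < Real.pi := by
  constructor
  · rcases lt_or_eq_of_le (Complex.arg_nonneg_iff.2 hx.le) with h | h
    · exact h
    · exfalso
      have := (Complex.arg_eq_zero_iff.1 h.symm).2
      linarith
  · rcases lt_or_eq_of_le (Complex.arg_le_pi x) with h | h
    · exact h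
    · exfalso
      have := (Complex.arg_eq_pi_iff.1 h).2
      linarith

lemma arg_neg_im {x : ℂ} (hx : x.im < 0) : arg x < 0 ∧ -Real.pi < arg x :=
  ⟨Complex.arg_neg_iff.2 hx, Complex.neg_pi_lt_arg x⟩

lemma step_up {x y : ℂ} (hx : 0 < x.im) (hy : 0 < y.im) : arg (y / x) = arg y - arg x := by
  have h1 := arg_pos_im hx
  have h2 := arg_pos_im hy
  apply arg_div'
  · rintro rfl
    simp at hx
  · rintro rfl
    simp at hy
  · exact ne_of_lt h1.2
  · constructor <;> linarith

lemma step_dn {x y : ℂ} (hx : x.im < 0) (hy : y.im < 0) : arg (y / x) = arg y - arg x := by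
  have h1 := arg_neg_im hx
  have h2 := arg_neg_im hy
  have := Real.pi_pos
  apply arg_div'
  · rintro rfl
    simp at hx
  · rintro rfl
    simp at hy
  · linarith [h1.1]
  · constructor <;> linarith

lemma step_re {x y : ℂ} (hx : 0 < x.re) (hy : 0 < y.re) : arg (y / x) = arg y - arg x := by
  have h := arg_div_of_half (c := 1) (x := x) (y := y) (by simpa using hx) (by simpa using hy)
  rwa [div_one, div_one] at h

/-- crossing the negative real axis upwards (clockwise) -/
lemma step_cross {x y : ℂ} (hx : x.re < 0) (hy : y.re < 0) (hx' : x.im < 0) (hy' : 0 < y.im) :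
    arg (y / x) = arg y - arg x - 2 * Real.pi := by
  have h := step_re (x := -x) (y := -y) (by simpa using hx) (by simpa using hy)
  rw [neg_div_neg_eq] at h
  rw [h, Complex.arg_neg_eq_arg_sub_pi_of_im_pos hy', Complex.arg_neg_eq_arg_add_pi_of_im_neg hx']
  ring

lemma step_cross' {x y : ℂ} (hx : x.re < 0) (hy : y.re < 0) (hx' : 0 < x.im) (hy' : y.im < 0) :
    arg (y / x) = arg y - arg x + 2 * Real.pi := by
  have h := step_re (x := -x) (y := -y) (by simpa using hx) (by simpa using hy)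
  rw [neg_div_neg_eq] at h
  rw [h, Complex.arg_neg_eq_arg_sub_pi_of_im_pos hx', Complex.arg_neg_eq_arg_add_pi_of_im_neg hy']
  ring

/-! the frame of the line (1, 1) -/

/-- the vector Q in the frame of the line (1, 1) -/
noncomputable def Tq (Q : Pt) : ℂ := emb Q / emb (1, 1)

lemma emb11 : emb (1, 1) ≠ 0 := by
  intro h
  have := congrArg Complex.re h
  rw [emb_re] at this
  norm_num at this

lemma normSq11 : Complex.normSq (emb (1, 1)) = 3 := by
  rw [Complex.normSq_apply, emb_re, emb_im]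
  have h3 : Real.sqrt 3 * Real.sqrt 3 = 3 := Real.mul_self_sqrt (by norm_num)
  push_cast
  nlinarith

lemma Tq_eq (Q : Pt) : Tq Q = (emb Q * (starRingEnd ℂ) (emb (1, 1))) / ((3 : ℝ) : ℂ) := by
  unfold Tq
  rw [div_eq_div_iff emb11 (by norm_num), mul_assoc, mul_comm ((starRingEnd ℂ) (emb (1, 1))), Complex.mul_conj,
    normSq11]

lemma Tq_re (Q : Pt) : (Tq Q).re = (Q.1 + Q.2 : ℝ) / 2 := by
  rw [Tq_eq, Complex.div_ofReal_re, re_emb_mul]
  unfold ip
  push_cast
  ring

lemma Tq_im (Q : Pt) : (Tq Q).im = -(Real.sqrt 3 / 6) * (Q.1 - Q.2 : ℝ) := by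
  rw [Tq_eq, Complex.div_ofReal_im, Complex.mul_im, Complex.conj_re, Complex.conj_im, emb_re, emb_re, emb_im, emb_im]
  push_cast
  ring

lemma Tq_div (Q Q' : Pt) : emb Q' / emb Q = Tq Q' / Tq Q := by
  unfold Tq
  rw [div_div_div_cancel_right₀ emb11]

/-- signed crossing of the line above the edge {w, w + (-1, 1)} by the directed edge p: + from right to left. -/
def crU (w : Pt) (p : Pt × Pt) : ℤ :=
  if p.2 = (-1, 1) ∧ nn p.1 = nn w ∧ lv w < lv p.1 then 1
  else if p.2 = (1, -1) ∧ nn p.1 = nn w - 2 ∧ lv w < lv p.1 - 1 then -1 else 0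

lemma crU_rv (w : Pt) (p : Pt × Pt) : crU w (LP.rv p) = -crU w p := by
  have e1 : ((-p.2 : Pt) = (-1, 1)) ↔ p.2 = (1, -1) := by
    constructor
    · intro h
      rw [← neg_neg p.2, h]
      rfl
    · rintro h
      rw [h]
      rfl
  have e2 : ((-p.2 : Pt) = (1, -1)) ↔ p.2 = (-1, 1) := by
    constructor
    · intro h
      rw [← neg_neg p.2, h]
      rfl
    · rintro h
      rw [h]
      rfl
  unfold crU LP.rv
  simp only [e1, e2]
  by_cases h1 : p.2 = (-1, 1)
  · have h2 : p.2 ≠ (1, -1) := by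
      rw [h1]
      decide
    simp only [h1, h2, true_and, false_and, if_false]
    unfold nn lv
    simp only [Prod.fst_add, Prod.snd_add]
    have h3 : ((-1, 1) : Pt) ≠ (1, -1) := by decide
    simp only [h3, false_and, if_false]
    by_cases h4 : p.1.1 - p.1.2 = w.1 - w.2 ∧ w.1 + 2 * w.2 < p.1.1 + 2 * p.1.2
    · rw [if_pos h4, if_pos ⟨by omega, by omega⟩]
    · rw [if_neg h4, if_neg (fun h => h4 ⟨by omega, by omega⟩)]
      rfl
  · by_cases h2 : p.2 = (1, -1)
    · simp only [h1, h2, true_and, false_and, if_false]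
      unfold nn lv
      simp only [Prod.fst_add, Prod.snd_add]
      have h3 : ((1, -1) : Pt) ≠ (-1, 1) := by decide
      simp only [h3, false_and, if_false]
      by_cases h4 : p.1.1 - p.1.2 = w.1 - w.2 - 2 ∧ w.1 + 2 * w.2 < p.1.1 + 2 * p.1.2 - 1
      · rw [if_pos h4, if_pos ⟨by omega, by omega⟩]
        rfl
      · rw [if_neg h4, if_neg (fun h => h4 ⟨by omega, by omega⟩)]
        rfl
    · simp only [h1, h2, false_and, if_false]
      rfl

lemma Tq_im_pos {Q : Pt} (h : nn Q < 0) : 0 < (Tq Q).im := by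
  have h3s : 0 < Real.sqrt 3 := Real.sqrt_pos.2 (by norm_num)
  have h1 : (Q.1 - Q.2 : ℝ) < 0 := by
    have : ((nn Q : ℤ) : ℝ) < 0 := by exact_mod_cast h
    unfold nn at this
    push_cast at this
    exact this
  rw [Tq_im]
  have : 0 < Real.sqrt 3 / 6 := by positivity
  nlinarith

lemma Tq_im_neg {Q : Pt} (h : 0 < nn Q) : (Tq Q).im < 0 := by
  have h3s : 0 < Real.sqrt 3 := Real.sqrt_pos.2 (by norm_num)
  have h1 : 0 < (Q.1 - Q.2 : ℝ) := by
    have : 0 < ((nn Q : ℤ) : ℝ) := by exact_mod_cast h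
    unfold nn at this
    push_cast at this
    exact this
  rw [Tq_im]
  have : 0 < Real.sqrt 3 / 6 := by positivity
  nlinarith

lemma ang_same {Q Q' : Pt} (h : (0 < nn Q ∧ 0 < nn Q') ∨ (nn Q < 0 ∧ nn Q' < 0)) :
    arg (Tq Q' / Tq Q) = arg (Tq Q') - arg (Tq Q) := by
  rcases h with ⟨h1, h2⟩ | ⟨h1, h2⟩
  · exact step_dn (Tq_im_neg h1) (Tq_im_neg h2)
  · exact step_up (Tq_im_pos h1) (Tq_im_pos h2)

lemma ang_re {Q Q' : Pt} (h1 : 0 < Q.1 + Q.2) (h2 : 0 < Q'.1 + Q'.2) :
    arg (Tq Q' / Tq Q) = arg (Tq Q') - arg (Tq Q) := by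
  apply step_re
  · rw [Tq_re]
    have : (0 : ℝ) < Q.1 + Q.2 := by exact_mod_cast h1
    linarith
  · rw [Tq_re]
    have : (0 : ℝ) < Q'.1 + Q'.2 := by exact_mod_cast h2
    linarith

lemma ang_right {Q Q' : Pt} (h1 : Q.1 + Q.2 < 0) (h2 : Q'.1 + Q'.2 < 0) (h3 : 0 < nn Q) (h4 : nn Q' < 0) :
    arg (Tq Q' / Tq Q) = arg (Tq Q') - arg (Tq Q) - 2 * Real.pi := by
  apply step_cross _ _ (Tq_im_neg h3) (Tq_im_pos h4)
  · rw [Tq_re]
    have : (Q.1 + Q.2 : ℝ) < 0 := by exact_mod_cast h1
    linarith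
  · rw [Tq_re]
    have : (Q'.1 + Q'.2 : ℝ) < 0 := by exact_mod_cast h2
    linarith

lemma ang_left {Q Q' : Pt} (h1 : Q.1 + Q.2 < 0) (h2 : Q'.1 + Q'.2 < 0) (h3 : nn Q < 0) (h4 : 0 < nn Q') :
    arg (Tq Q' / Tq Q) = arg (Tq Q') - arg (Tq Q) + 2 * Real.pi := by
  apply step_cross' _ _ (Tq_im_pos h3) (Tq_im_neg h4)
  · rw [Tq_re]
    have : (Q.1 + Q.2 : ℝ) < 0 := by exact_mod_cast h1
    linarith
  · rw [Tq_re]
    have : (Q'.1 + Q'.2 : ℝ) < 0 := by exact_mod_cast h2
    linarith

/-- one step of the angle seen from the middle of the edge {w, w + (-1, 1)}. -/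
lemma step_angle {w x d : Pt} (hd : d ∈ dirs) (h1 : nn x ≠ nn w - 1) (h2 : nn (x + d) ≠ nn w - 1)
    (h3 : ¬ (d = (1, -1) ∧ x = w + (-1, 1))) (h4 : ¬ (d = (-1, 1) ∧ x = w)) :
    arg (emb (w + w + (-1, 1) - (x + d) - (x + d)) / emb (w + w + (-1, 1) - x - x)) =
      arg (Tq (w + w + (-1, 1) - (x + d) - (x + d))) - arg (Tq (w + w + (-1, 1) - x - x)) +
        2 * Real.pi * crU w (x, d) := by
  rw [Tq_div]
  obtain ⟨Q, hQ⟩ : ∃ Q : Pt, Q = w + w + (-1, 1) - x - x := ⟨_, rfl⟩
  obtain ⟨Q', hQ'⟩ : ∃ Q' : Pt, Q' = w + w + (-1, 1) - (x + d) - (x + d) := ⟨_, rfl⟩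
  rw [← hQ, ← hQ']
  have a1 : Q.1 = 2 * w.1 - 1 - 2 * x.1 := by
    rw [hQ]
    simp only [Prod.fst_add, Prod.fst_sub]
    ring
  have a2 : Q.2 = 2 * w.2 + 1 - 2 * x.2 := by
    rw [hQ]
    simp only [Prod.snd_add, Prod.snd_sub]
    ring
  have b1 : Q'.1 = 2 * w.1 - 1 - 2 * x.1 - 2 * d.1 := by
    rw [hQ']
    simp only [Prod.fst_add, Prod.fst_sub]
    ring
  have b2 : Q'.2 = 2 * w.2 + 1 - 2 * x.2 - 2 * d.2 := by
    rw [hQ']
    simp only [Prod.snd_add, Prod.snd_sub]
    ring
  have e0 : crU w (x, d) = 0 → (0 < nn Q ∧ 0 < nn Q') ∨ (nn Q < 0 ∧ nn Q' < 0) →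
      arg (Tq Q' / Tq Q) = arg (Tq Q') - arg (Tq Q) + 2 * Real.pi * crU w (x, d) := by
    intro h5 h6
    rw [h5, ang_same h6]
    push_cast
    ring
  have e1 : crU w (x, d) = 0 → 0 < Q.1 + Q.2 → 0 < Q'.1 + Q'.2 →
      arg (Tq Q' / Tq Q) = arg (Tq Q') - arg (Tq Q) + 2 * Real.pi * crU w (x, d) := by
    intro h5 h6 h7
    rw [h5, ang_re h6 h7]
    push_cast
    ring
  clear hQ hQ'
  unfold nn at h1 h2 e0
  simp only [Prod.fst_add, Prod.snd_add] at h2
  have n1 : ((1, -1) : Pt) ≠ (-1, 1) := by decide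
  have n2 : ((-1, 1) : Pt) ≠ (1, -1) := by decide
  have hxw : ∀ y : Pt, x.1 = y.1 → x.2 = y.2 → x = y := fun y h h' => Prod.ext h h'
  have hcases : d = (1, -1) ∨ d = (-1, 1) ∨ (d = (1, 0) ∨ d = (-1, 0) ∨ d = (0, 1) ∨ d = (0, -1)) := by
    revert hd
    clear * -
    revert d
    decide
  rcases hcases with h | h | h
  · subst h
    simp only at b1 b2 h2
    by_cases h5 : x.1 - x.2 = w.1 - w.2 - 2
    · -- crossing from left to right
      by_cases h6 : w.1 + 2 * w.2 < x.1 + 2 * x.2 - 1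
      · have h7 : crU w (x, (1, -1)) = -1 := by
          unfold crU nn lv
          rw [if_neg (fun h => n1 h.1), if_pos ⟨rfl, h5, h6⟩]
        rw [h7, ang_right (by omega) (by omega) (by unfold nn; omega) (by unfold nn; omega)]
        push_cast
        ring
      · have h7 : crU w (x, (1, -1)) = 0 := by
          unfold crU nn lv
          rw [if_neg (fun h => n1 h.1), if_neg (fun h => h6 h.2.2)]
        have h8 : ¬ (x.1 = w.1 - 1 ∧ x.2 = w.2 + 1) := by
          rintro ⟨h9, h10⟩
          exact h3 ⟨rfl, hxw _ (by simp only [Prod.fst_add]; omega) (by simp only [Prod.snd_add]; omega)⟩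
        exact e1 h7 (by omega) (by omega)
    · have h7 : crU w (x, (1, -1)) = 0 := by
        unfold crU nn lv
        rw [if_neg (fun h => n1 h.1), if_neg (fun h => h5 h.2.1)]
      exact e0 h7 (by omega)
  · subst h
    simp only at b1 b2 h2
    by_cases h5 : x.1 - x.2 = w.1 - w.2
    · by_cases h6 : w.1 + 2 * w.2 < x.1 + 2 * x.2
      · have h7 : crU w (x, (-1, 1)) = 1 := by
          unfold crU nn lv
          rw [if_pos ⟨rfl, h5, h6⟩]
        rw [h7, ang_left (by omega) (by omega) (by unfold nn; omega) (by unfold nn; omega)]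
        push_cast
        ring
      · have h7 : crU w (x, (-1, 1)) = 0 := by
          unfold crU nn lv
          rw [if_neg (fun h => h6 h.2.2), if_neg (fun h => n2 h.1)]
        have h8 : ¬ (x.1 = w.1 ∧ x.2 = w.2) := by
          rintro ⟨h9, h10⟩
          exact h4 ⟨rfl, hxw _ h9 h10⟩
        exact e1 h7 (by omega) (by omega)
    · have h7 : crU w (x, (-1, 1)) = 0 := by
        unfold crU nn lv
        rw [if_neg (fun h => h5 h.2.1), if_neg (fun h => n2 h.1)]
      exact e0 h7 (by omega)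
  · have h7 : crU w (x, d) = 0 := by
      unfold crU
      rw [if_neg, if_neg]
      · rintro ⟨h8, -⟩
        change d = (1, -1) at h8
        rw [h8] at h
        revert h
        decide
      · rintro ⟨h8, -⟩
        change d = (-1, 1) at h8
        rw [h8] at h
        revert h
        decide
    rcases h with h | h | h | h
    all_goals
      subst h
      simp only at b1 b2 h2
      exact e0 h7 (by omega)

lemma arg_Tq_up : arg (Tq up) = Real.pi / 6 := by
  have h3 : 0 < Real.sqrt 3 := Real.sqrt_pos.2 (by norm_num)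
  have h3' : Real.sqrt 3 * Real.sqrt 3 = 3 := Real.mul_self_sqrt (by norm_num)
  have e : Tq up = ((1 / Real.sqrt 3 : ℝ) : ℂ) * (Complex.cos ((Real.pi / 6 : ℝ) : ℂ) + Complex.sin ((Real.pi / 6 : ℝ) : ℂ) * I) := by
    apply Complex.ext
    · rw [Tq_re, Complex.re_ofReal_mul, Complex.add_re, Complex.mul_I_re, ← Complex.ofReal_cos, ← Complex.ofReal_sin,
        Complex.ofReal_re, Complex.ofReal_im, Real.cos_pi_div_six]
      unfold up
      field_simp
      push_cast
      nlinarith
    · rw [Tq_im, Complex.im_ofReal_mul, Complex.add_im, Complex.mul_I_im, ← Complex.ofReal_cos, ← Complex.ofReal_sin,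
        Complex.ofReal_re, Complex.ofReal_im, Real.sin_pi_div_six]
      unfold up
      field_simp
      push_cast
      nlinarith
  rw [e, Complex.arg_mul_cos_add_sin_mul_I (by positivity)]
  constructor <;> linarith [Real.pi_pos]

lemma arg_Tq_end : arg (Tq (-1, 1)) = Real.pi / 2 := by
  have h3 : 0 < Real.sqrt 3 := Real.sqrt_pos.2 (by norm_num)
  rw [Complex.arg_eq_pi_div_two_iff]
  constructor
  · rw [Tq_re]
    norm_num
  · rw [Tq_im]
    push_cast
    nlinarith

lemma arg_foot {D : Pt} (h : 0 < ip D up) : arg (Tq D) = arg (emb D / emb up) + Real.pi / 6 := by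
  have hre : 0 < (emb D / emb up).re := by
    have h1 : (emb D * (starRingEnd ℂ) (emb up)).re = (ip D up : ℝ) / 2 := re_emb_mul D up
    have hup : emb up ≠ 0 := emb_ne (by decide)
    have h2 : emb D / emb up = (emb D * (starRingEnd ℂ) (emb up)) / (Complex.normSq (emb up) : ℂ) := by
      have hn : (Complex.normSq (emb up) : ℂ) ≠ 0 := by
        have := Complex.normSq_pos.2 hup
        exact_mod_cast this.ne'
      rw [div_eq_div_iff hup hn, mul_assoc, mul_comm ((starRingEnd ℂ) (emb up)), Complex.mul_conj]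
    rw [h2, Complex.div_ofReal_re, h1]
    have h3 := Complex.normSq_pos.2 hup
    have h4 : (0 : ℝ) < ip D up := by exact_mod_cast h
    positivity
  have hφ := abs_lt.1 (Complex.abs_arg_lt_pi_div_two_iff.2 (Or.inl hre))
  have hup : emb up ≠ 0 := emb_ne (by decide)
  have e : Tq D = (emb D / emb up) * Tq up := by
    unfold Tq
    field_simp [emb11]
  have h0 : emb D / emb up ≠ 0 := by
    intro h1
    rw [h1] at hre
    simp at hre
  have h1 : Tq up ≠ 0 := by
    unfold Tq
    exact div_ne_zero hup emb11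
  rw [e, Complex.arg_mul h0 h1, arg_Tq_up]
  rw [arg_Tq_up]
  constructor <;> linarith [hφ.1, hφ.2, Real.pi_pos]

/-- **Turning number = crossing number**, for a path from a foot to the middle of the edge {w, w + (-1, 1)}. -/
theorem turn_foot {v0 w : Pt} {τ : ℕ → Bool} {b : ℕ} {c : Bool} (hb : 0 < b)
    (hd : ∀ i k, i < k → k ≤ b → vs v0 up τ i ≠ vs v0 up τ k)
    (hup : ∀ i, 1 ≤ i → i ≤ b → 0 < ip (vs v0 up τ i - v0) up)
    (hw : vs v0 up τ b = w) (hc : turn c (ds up τ (b - 1)) = (-1, 1))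
    (hn : ∀ i, i ≤ b → nn (vs v0 up τ i) ≠ nn w - 1) :
    ∑ k ∈ range (b - 1), sgn (τ k) + sgn c = 1 + 6 * ∑ i ∈ range b, crU w (vs v0 up τ i, ds up τ i) := by
  have h0 : up ∈ dirs := by decide
  have H := hopf_half (v0 := v0) (τ := τ) (c := c) h0 hb (fun i k _ h1 h2 => hd i k h1 h2)
  rw [hc] at H
  simp only [Nat.sub_zero] at H
  have P0 : ∀ i, i ≤ b → poly v0 up τ 0 b (-1, 1) i = vs v0 up τ i + vs v0 up τ i := by
    intro i hi
    unfold poly
    rw [if_pos (by omega), Nat.zero_add]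
  have P1 : poly v0 up τ 0 b (-1, 1) (b + 1) = w + w + (-1, 1) := by
    unfold poly
    rw [if_neg (by omega), hw]
  have hup0 : emb up ≠ 0 := emb_ne h0
  -- the first sum
  have ipP : ∀ j, 1 ≤ j → j ≤ b + 1 → 0 < ip (poly v0 up τ 0 b (-1, 1) j - poly v0 up τ 0 b (-1, 1) 0) up := by
    intro j h1 h2
    rcases Nat.lt_or_ge b j with h3 | h3
    · have e : j = b + 1 := by omega
      have h4 := hup b (by omega) le_rfl
      rw [hw] at h4
      rw [e, P1, P0 0 (by omega)]
      have e0 : vs v0 up τ 0 = v0 := rfl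
      rw [e0]
      unfold ip up at h4 ⊢
      simp only [Prod.fst_add, Prod.snd_add, Prod.fst_sub, Prod.snd_sub] at h4 ⊢
      linarith
    · have h4 := hup j h1 h3
      rw [P0 j h3, P0 0 (by omega)]
      have e0 : vs v0 up τ 0 = v0 := rfl
      rw [e0]
      unfold ip up at h4 ⊢
      simp only [Prod.fst_add, Prod.snd_add, Prod.fst_sub, Prod.snd_sub] at h4 ⊢
      linarith
  have S1 : ∑ j ∈ range b, arg ((emb (poly v0 up τ 0 b (-1, 1) (j + 2)) - emb (poly v0 up τ 0 b (-1, 1) 0)) /
      (emb (poly v0 up τ 0 b (-1, 1) (j + 1)) - emb (poly v0 up τ 0 b (-1, 1) 0))) =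
      arg (emb (w + w + (-1, 1) - v0 - v0) / emb up) := by
    have h1 : ∀ j ∈ range b, arg ((emb (poly v0 up τ 0 b (-1, 1) (j + 2)) - emb (poly v0 up τ 0 b (-1, 1) 0)) /
        (emb (poly v0 up τ 0 b (-1, 1) (j + 1)) - emb (poly v0 up τ 0 b (-1, 1) 0))) =
        arg ((emb (poly v0 up τ 0 b (-1, 1) (j + 1 + 1)) - emb (poly v0 up τ 0 b (-1, 1) 0)) / emb up) -
        arg ((emb (poly v0 up τ 0 b (-1, 1) (j + 1)) - emb (poly v0 up τ 0 b (-1, 1) 0)) / emb up) := by
      intro j hj
      rw [mem_range] at hj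
      apply arg_div_of_half
      · rw [← emb_sub, re_emb_mul]
        have := ipP (j + 1) (by omega) (by omega)
        have h2 : (0 : ℝ) < ip (poly v0 up τ 0 b (-1, 1) (j + 1) - poly v0 up τ 0 b (-1, 1) 0) up := by
          exact_mod_cast this
        linarith
      · rw [← emb_sub, re_emb_mul]
        have := ipP (j + 2) (by omega) (by omega)
        have h2 : (0 : ℝ) < ip (poly v0 up τ 0 b (-1, 1) (j + 2) - poly v0 up τ 0 b (-1, 1) 0) up := by
          exact_mod_cast this
        linarith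
    rw [Finset.sum_congr rfl h1,
      Finset.sum_range_sub (fun j => arg ((emb (poly v0 up τ 0 b (-1, 1) (j + 1)) - emb (poly v0 up τ 0 b (-1, 1) 0)) / emb up)) b]
    have e1 : poly v0 up τ 0 b (-1, 1) (0 + 1) = v0 + up + (v0 + up) := P0 1 (by omega)
    have e0 : poly v0 up τ 0 b (-1, 1) 0 = v0 + v0 := P0 0 (by omega)
    rw [e1, e0, P1]
    have e2 : (emb (v0 + up + (v0 + up)) - emb (v0 + v0)) / emb up = ((2 : ℝ) : ℂ) := by
      rw [← emb_sub]
      have e3 : v0 + up + (v0 + up) - (v0 + v0) = up + up := by abel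
      rw [e3, emb_two, mul_div_assoc, div_self hup0, mul_one]
    have e4 : w + w + (-1, 1) - v0 - v0 = w + w + (-1, 1) - (v0 + v0) := by abel
    rw [e2, Complex.arg_ofReal_of_nonneg (by norm_num), sub_zero, e4, emb_sub]
  -- the second sum
  have S2 : ∑ i ∈ range b, arg ((emb (poly v0 up τ 0 b (-1, 1) (b + 1)) - emb (poly v0 up τ 0 b (-1, 1) (i + 1))) /
      (emb (poly v0 up τ 0 b (-1, 1) (b + 1)) - emb (poly v0 up τ 0 b (-1, 1) i))) =
      Real.pi / 2 - arg (Tq (w + w + (-1, 1) - v0 - v0)) +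
        2 * Real.pi * ((∑ i ∈ range b, crU w (vs v0 up τ i, ds up τ i) : ℤ) : ℝ) := by
    have h1 : ∀ i ∈ range b, arg ((emb (poly v0 up τ 0 b (-1, 1) (b + 1)) - emb (poly v0 up τ 0 b (-1, 1) (i + 1))) /
        (emb (poly v0 up τ 0 b (-1, 1) (b + 1)) - emb (poly v0 up τ 0 b (-1, 1) i))) =
        (arg (Tq (w + w + (-1, 1) - vs v0 up τ (i + 1) - vs v0 up τ (i + 1))) -
          arg (Tq (w + w + (-1, 1) - vs v0 up τ i - vs v0 up τ i))) +
          2 * Real.pi * (crU w (vs v0 up τ i, ds up τ i) : ℝ) := by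
      intro i hi
      rw [mem_range] at hi
      rw [P1, P0 i (by omega), P0 (i + 1) (by omega), ← emb_sub, ← emb_sub]
      have hd' : ds up τ i ∈ dirs := ds_mem h0 i
      have h5 := step_angle (w := w) (x := vs v0 up τ i) (d := ds up τ i) hd' (hn i (by omega)) (hn (i + 1) (by omega))
        (by
          rintro ⟨h6, h7⟩
          have h8 : vs v0 up τ (i + 1) = w := by
            rw [vs_succ, h6, h7]
            rw [add_assoc]
            have : ((-1, 1) : Pt) + (1, -1) = 0 := by decide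
            rw [this, add_zero]
          have h9 : i + 1 = b := by
            by_contra h10
            exact hd (i + 1) b (by omega) le_rfl (h8.trans hw.symm)
          have h11 : b - 1 = i := by omega
          rw [h11, h6] at hc
          revert hc
          cases c <;> decide)
        (by
          rintro ⟨h6, h7⟩
          exact hd i b hi le_rfl (h7.trans hw.symm))
      have e1 : w + w + (-1, 1) - (vs v0 up τ (i + 1) + vs v0 up τ (i + 1)) =
          w + w + (-1, 1) - (vs v0 up τ i + ds up τ i) - (vs v0 up τ i + ds up τ i) := by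
        rw [vs_succ]
        abel
      have e2 : w + w + (-1, 1) - (vs v0 up τ i + vs v0 up τ i) = w + w + (-1, 1) - vs v0 up τ i - vs v0 up τ i := by
        abel
      rw [e1, e2, h5]
      rfl
    rw [Finset.sum_congr rfl h1, Finset.sum_add_distrib,
      Finset.sum_range_sub (fun i => arg (Tq (w + w + (-1, 1) - vs v0 up τ i - vs v0 up τ i))) b, hw]
    have e1 : w + w + (-1, 1) - w - w = ((-1, 1) : Pt) := by abel
    have e2 : vs v0 up τ 0 = v0 := rfl
    rw [e1, e2, arg_Tq_end, ← Finset.mul_sum]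
    push_cast
    ring
  rw [S1, S2, arg_foot (D := w + w + (-1, 1) - v0 - v0)] at H
  · have hπ := Real.pi_pos
    have e : (∑ k ∈ range (b - 1), (sgn (τ (0 + k)) : ℝ) + sgn c) =
        ((∑ k ∈ range (b - 1), sgn (τ k) + sgn c : ℤ) : ℝ) := by
      push_cast
      simp only [Nat.zero_add]
    rw [e] at H
    have h5 : ((∑ k ∈ range (b - 1), sgn (τ k) + sgn c : ℤ) : ℝ) =
        ((1 + 6 * ∑ i ∈ range b, crU w (vs v0 up τ i, ds up τ i) : ℤ) : ℝ) := by
      have h6 : ((∑ k ∈ range (b - 1), sgn (τ k) + sgn c : ℤ) : ℝ) * (Real.pi / 3) =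
          ((1 + 6 * ∑ i ∈ range b, crU w (vs v0 up τ i, ds up τ i) : ℤ) : ℝ) * (Real.pi / 3) := by
        rw [H]
        push_cast
        ring
      exact mul_right_cancel₀ (by positivity) h6
    exact_mod_cast h5
  · have := ipP (b + 1) (by omega) le_rfl
    rw [P1, P0 0 (by omega)] at this
    have e0 : vs v0 up τ 0 = v0 := rfl
    rw [e0] at this
    have e4 : w + w + (-1, 1) - v0 - v0 = w + w + (-1, 1) - (v0 + v0) := by abel
    rw [e4]
    exact this

/-- signed number of the crossings of the line above the edge {w, w + (-1, 1)} by the word t from (u, d). -/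
def clr (w u d : Pt) (t : List Bool) : ℤ := ∑ i ∈ range (t.length + 1), crU w (vx u d t i, dx d t i)

lemma cl_nn (v : Pt) : cl v = ((nn v : ℤ) : ZMod 3) := by
  unfold cl nn
  push_cast
  rfl

lemma nn_vx {u : Pt} (hu : cl u = 0) (t : List Bool) (i : ℕ) : nn (vx u (1, -1) t i) ≠ nn (u + (1, -1)) - 1 := by
  intro h
  have h1 : cl (vx u (1, -1) t i) = ((nn (u + (1, -1)) - 1 : ℤ) : ZMod 3) := by rw [cl_nn, h]
  have h2 : ((nn (u + (1, -1)) - 1 : ℤ) : ZMod 3) = cl u + 1 := by
    rw [cl_nn u]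
    unfold nn
    simp only [Prod.fst_add, Prod.snd_add]
    push_cast
    ring_nf
  unfold vx at h1
  rw [h2, cl_vs, hu] at h1
  split_ifs at h1
  · revert h1
    decide
  · revert h1
    decide

/-- **The winding of a word from a row edge to the floor.** -/
theorem wind_MF {N : ℕ} {u : Pt} (hu : cl u = 0) {t : List Bool} (h : BAR.MFp N u (1, -1) t) :
    wind t = -1 + 6 * clr (u + (1, -1)) u (1, -1) t := by
  obtain ⟨w, hw⟩ : ∃ w, w = u + (1, -1) := ⟨_, rfl⟩
  rw [← hw]
  have hn0 : 0 < t.length := by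
    rcases Nat.eq_zero_or_pos t.length with h0 | h0
    · exfalso
      have := h.dir
      rw [h0] at this
      change ((1, -1) : Pt) = -up at this
      revert this
      decide
    · exact h0
  have hl := rev_length t
  -- the reversed path
  have hv : ∀ i, i ≤ t.length + 1 → vs (tip u (1, -1) t) up (tf (rev t)) i = vx u (1, -1) t (t.length + 1 - i) := by
    intro i hi
    have h1 := vx_rev u (1, -1) t i hi
    rw [h.dir, neg_neg] at h1
    exact h1
  have hds : ∀ i, i ≤ t.length → ds up (tf (rev t)) i = -dx (1, -1) t (t.length - i) := by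
    intro i hi
    have h1 := dx_rev (1, -1) t i hi
    rw [h.dir, neg_neg] at h1
    exact h1
  have hip : ∀ j, 1 ≤ j → j ≤ t.length → 0 < ip (vx u (1, -1) t j - tip u (1, -1) t) up := by
    intro j h1 h2
    rw [BAR.ip_sub_up]
    have h3 := (h.mem j h1 h2).1
    have h4 : ip (tip u (1, -1) t) up = 0 := h.flo
    rw [h4, sub_zero]
    exact h3
  have key := turn_foot (v0 := tip u (1, -1) t) (w := w) (τ := tf (rev t)) (b := t.length)
    (c := tf (rev t) (t.length - 1)) hn0
    (by
      intro i k hik hk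
      rw [hv i (by omega), hv k (by omega)]
      rcases Nat.eq_zero_or_pos i with h0 | h0
      · rw [h0]
        intro he
        have h3 := hip (t.length + 1 - k) (by omega) (by omega)
        rw [← he] at h3
        have : vx u (1, -1) t (t.length + 1 - 0) = tip u (1, -1) t := rfl
        rw [this, sub_self] at h3
        simp [ip] at h3
      · exact (h.inj _ _ (by omega) (by omega : t.length + 1 - k < t.length + 1 - i) (by omega)).symm)
    (by
      intro i h1 h2
      rw [hv i (by omega)]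
      exact hip _ (by omega) (by omega))
    (by
      rw [hv _ (by omega)]
      have : t.length + 1 - t.length = 1 := by omega
      rw [this, hw]
      rfl)
    (by
      have h1 := hds t.length le_rfl
      obtain ⟨m, hm⟩ : ∃ m, t.length = m + 1 := ⟨t.length - 1, by omega⟩
      rw [hm, ds_succ, Nat.sub_self] at h1
      rw [hm, Nat.add_sub_cancel, h1]
      show -((1, -1) : Pt) = (-1, 1)
      decide)
    (by
      intro i hi
      rw [hv i (by omega), hw]
      exact nn_vx hu t _)
  have e1 : ∑ k ∈ range (t.length - 1), sgn (tf (rev t) k) + sgn (tf (rev t) (t.length - 1)) = -wind t := by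
    rw [← wind_rev, wind_sum, hl]
    obtain ⟨m, hm⟩ : ∃ m, t.length = m + 1 := ⟨t.length - 1, by omega⟩
    rw [hm, Nat.add_sub_cancel, Finset.sum_range_succ]
  have e2 : ∑ i ∈ range t.length, crU w (vs (tip u (1, -1) t) up (tf (rev t)) i, ds up (tf (rev t)) i) =
      -clr w u (1, -1) t := by
    unfold clr
    rw [Finset.sum_range_succ']
    have h0 : crU w (vx u (1, -1) t 0, dx (1, -1) t 0) = 0 := by
      have h1 : vx u (1, -1) t 0 = u := rfl
      have h2 : dx (1, -1) t 0 = (1, -1) := rfl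
      rw [h1, h2, hw]
      unfold crU nn lv
      simp only [Prod.fst_add, Prod.snd_add]
      rw [if_neg (fun h => absurd h.1 (by decide)), if_neg (fun h => by omega)]
    rw [h0, add_zero, ← Finset.sum_range_reflect, ← Finset.sum_neg_distrib]
    apply Finset.sum_congr rfl
    intro i hi
    rw [mem_range] at hi
    have h3 : t.length + 1 - (t.length - 1 - i) = i + 1 + 1 := by omega
    have h4 : t.length - (t.length - 1 - i) = i + 1 := by omega
    rw [hv _ (by omega), hds _ (by omega), ← crU_rv, h3, h4]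
    rfl
  rw [e1, e2] at key
  linarith

end TC

end HexObs
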