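import Pool.Agent.TC.AnchorS
import Pool.Agent.TC.Turn
import Pool.Agent.TC.LkExp
import Pool.Agent.TC.AvgFin
import Pool.Agent.BAR.LegCG

/-!
TARGET-G2, walk side: the one leg function of the middle row edge in the strip as a finite sum over the winding classes,
its value at spin 3/8, and the reduction of `LowFam MidR (13 / 48)` to the growth condition of `TCAvg.window`.
-/

set_option autoImplicit false

namespace HexObs

namespace TC

open Complex Finset Filter

open scoped ENNReal Topology

open LP (nn lv Vt De Par PP f0)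

open BAR (MF MFp MidR LowFam HLow)

open Pool.Agent.NUN (crA clA p0 qf Wf Om)

lemma crU_eq_crA (r : ℕ) (h : Pt × Pt) : crU (_root_.EXL.A 0 r) h = crA r h := by
  obtain ⟨⟨a, b⟩, d⟩ := h
  unfold crU crA _root_.EXL.A nn lv
  simp only
  by_cases h1 : d = (-1, 1)
  · have h2 : d ≠ (1, -1) := by
      rw [h1]
      decide
    by_cases h3 : b = a + 1 ∧ (r : ℤ) < a
    · rw [if_pos ⟨h1, by omega, by omega⟩, if_pos ⟨h1, h3.1, h3.2⟩]
    · rw [if_neg (fun h => h3 ⟨by omega, by omega⟩), if_neg (fun h => h2 h.1), if_neg (fun h => h3 h.2),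
        if_neg (fun h => h2 h.1)]
  · by_cases h3 : b = a + 3 ∧ (r : ℤ) ≤ a
    · by_cases h2 : d = (1, -1)
      · rw [if_neg (fun h => h1 h.1), if_pos ⟨h2, by omega, by omega⟩, if_neg (fun h => h1 h.1), if_pos ⟨h2, h3.1, h3.2⟩]
      · rw [if_neg (fun h => h1 h.1), if_neg (fun h => h2 h.1), if_neg (fun h => h1 h.1), if_neg (fun h => h2 h.1)]
    · rw [if_neg (fun h => h1 h.1), if_neg (fun h => h3 ⟨by omega, by omega⟩), if_neg (fun h => h1 h.1),
        if_neg (fun h => h3 h.2)]

lemma p0_fst (r : ℕ) : (p0 r).1 = _root_.EXL.B (-1) r := rfl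

lemma p0_snd (r : ℕ) : (p0 r).2 = (1, -1) := rfl

lemma lv_p0 (r : ℕ) : lv (p0 r).1 = 3 * r + 3 := by
  rw [p0_fst]
  unfold lv _root_.EXL.B
  ring

lemma cl_p0 (r : ℕ) : cl (p0 r).1 = 0 := by
  rw [p0_fst]
  exact _root_.EXL.cl_B _ _

lemma clA_eq (r : ℕ) (t : List Bool) : clA r t = clr ((p0 r).1 + (1, -1)) (p0 r).1 (1, -1) t := by
  have e : (p0 r).1 + (1, -1) = _root_.EXL.A 0 r := Pool.Agent.NUN.p0_tip r
  rw [e]
  unfold clA clr
  rw [p0_snd]
  exact Finset.sum_congr rfl fun i _ => (crU_eq_crA r _).symm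

/-- the words from the row edge r (from its upper end, to the right) to the floor of the strip of N rows -/
abbrev MW (N r : ℕ) : Set (List Bool) := MF N (p0 r).1 (1, -1)

/-- **winding = crossing number** -/
theorem wind_clA {N r : ℕ} {t : List Bool} (h : t ∈ MW N r) : wind t = -1 + 6 * clA r t := by
  rw [clA_eq]
  exact wind_MF (cl_p0 r) h

lemma de_p0' (r : ℕ) : De ((p0 r).1, (1, -1)) := Pool.Agent.NUN.De_p0 r

lemma MW_SM {N r : ℕ} : MW N r ⊆ SM N (p0 r).1 (1, -1) := by
  intro t ht
  have ht : MFp N (p0 r).1 (1, -1) t := ht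
  refine ⟨fun i hi1 hi2 => ?_, ht.inj⟩
  rw [← ip_up]
  exact ht.mem i hi1 hi2

theorem gf_MW (N r : ℕ) : gf (MW N r) ≠ ⊤ :=
  ne_top_of_le_ne_top (gf_SM (N := N) (de_p0' r) (by decide)) (gf_mono MW_SM)

/-- the number of crossings is bounded -/
theorem clr_bound {N : ℕ} {w u : Pt} (hw : w = u + (1, -1)) {t : List Bool} (h : MFp N u (1, -1) t) :
    |clr w u (1, -1) t| ≤ 3 * (N : ℤ) + 2 := by
  classical
  -- the crossings
  obtain ⟨C, hC⟩ : ∃ C : Finset ℕ, C = (range (t.length + 1)).filter
    (fun i => crU w (vx u (1, -1) t i, dx (1, -1) t i) ≠ 0) := ⟨_, rfl⟩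
  have habs : ∀ p, |crU w p| ≤ 1 := by
    intro p
    unfold crU
    split_ifs <;> norm_num
  have h1 : |clr w u (1, -1) t| ≤ C.card := by
    unfold clr
    refine (Finset.abs_sum_le_sum_abs _ _).trans ?_
    rw [← Finset.sum_filter_add_sum_filter_not (range (t.length + 1))
      (fun i => crU w (vx u (1, -1) t i, dx (1, -1) t i) ≠ 0)]
    have e1 : ∑ i ∈ (range (t.length + 1)).filter (fun i => ¬ (crU w (vx u (1, -1) t i, dx (1, -1) t i) ≠ 0)),
        |crU w (vx u (1, -1) t i, dx (1, -1) t i)| = 0 := by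
      apply Finset.sum_eq_zero
      intro i hi
      have := (Finset.mem_filter.1 hi).2
      rw [not_not] at this
      rw [this, abs_zero]
    rw [e1, add_zero, ← hC]
    calc ∑ i ∈ C, |crU w (vx u (1, -1) t i, dx (1, -1) t i)| ≤ ∑ i ∈ C, (1 : ℤ) := Finset.sum_le_sum fun i _ => habs _
      _ = C.card := by simp
  -- the lower end of the crossed edge
  obtain ⟨a, ha⟩ : ∃ a : ℕ → ℕ, a = fun i => if dx (1, -1) t i = (-1, 1) then i else i + 1 := ⟨_, rfl⟩
  have hcross : ∀ i ∈ C, 1 ≤ i ∧ a i ≤ t.length ∧ i ≤ a i ∧ a i ≤ i + 1 ∧ nn (vx u (1, -1) t (a i)) = nn w ∧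
      (dx (1, -1) t i = (-1, 1) → vx u (1, -1) t (i + 1) = vx u (1, -1) t (a i) + (-1, 1)) ∧
      (dx (1, -1) t i ≠ (-1, 1) → vx u (1, -1) t i = vx u (1, -1) t (a i) + (-1, 1)) := by
    intro i hi
    rw [hC, Finset.mem_filter, mem_range] at hi
    obtain ⟨h2, h3⟩ := hi
    have hi0 : i ≠ 0 := by
      intro h0
      apply h3
      rw [h0]
      have e1 : vx u (1, -1) t 0 = u := rfl
      have e2 : dx (1, -1) t 0 = (1, -1) := rfl
      rw [e1, e2, hw]
      unfold crU nn lv
      simp only [Prod.fst_add, Prod.snd_add]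
      rw [if_neg (fun h => absurd h.1 (by decide)), if_neg (fun h => by omega)]
    have hil : i ≠ t.length := by
      intro h0
      apply h3
      rw [h0, h.dir]
      unfold crU
      rw [if_neg (fun h => absurd h.1 (by decide : ¬ (-up : Pt) = (-1, 1))),
        if_neg (fun h => absurd h.1 (by decide : ¬ (-up : Pt) = (1, -1)))]
    unfold crU at h3
    simp only at h3
    by_cases h4 : dx (1, -1) t i = (-1, 1)
    · have ea : a i = i := by
        rw [ha]
        simp only [h4, if_true]
      rw [ea]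
      refine ⟨by omega, by omega, by omega, by omega, ?_, fun _ => ?_, fun h => absurd h4 h⟩
      · by_contra h5
        apply h3
        rw [if_neg (fun h => h5 h.2.1), if_neg (fun h => by
          rw [h4] at h
          exact absurd h.1 (by decide))]
      · show vx u (1, -1) t i + dx (1, -1) t i = _
        rw [h4]
    · have ea : a i = i + 1 := by
        rw [ha]
        simp only [h4, if_false]
      have h5 : dx (1, -1) t i = (1, -1) ∧ nn (vx u (1, -1) t i) = nn w - 2 := by
        by_contra h5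
        apply h3
        rw [if_neg (fun h => h4 h.1), if_neg (fun h => h5 ⟨h.1, h.2.1⟩)]
      have e1 : vx u (1, -1) t (i + 1) = vx u (1, -1) t i + (1, -1) := by
        show vx u (1, -1) t i + dx (1, -1) t i = _
        rw [h5.1]
      rw [ea]
      refine ⟨by omega, by omega, by omega, by omega, ?_, fun h => absurd h h4, fun _ => ?_⟩
      · rw [e1]
        have h6 := h5.2
        unfold nn at h6 ⊢
        simp only [Prod.fst_add, Prod.snd_add]
        omega
      · rw [e1, add_assoc]
        have : ((1, -1) : Pt) + (-1, 1) = 0 := by decide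
        rw [this, add_zero]
  have hinj : ∀ i ∈ C, ∀ j ∈ C, lv (vx u (1, -1) t (a i)) = lv (vx u (1, -1) t (a j)) → i = j := by
    intro i hi j hj he
    obtain ⟨a1, a2, a3, a4, a5, a6, a7⟩ := hcross i hi
    obtain ⟨b1, b2, b3, b4, b5, b6, b7⟩ := hcross j hj
    have hv : vx u (1, -1) t (a i) = vx u (1, -1) t (a j) := by
      have h2 : nn (vx u (1, -1) t (a i)) = nn (vx u (1, -1) t (a j)) := a5.trans b5.symm
      unfold nn at h2
      unfold lv at he
      exact Prod.ext (by omega) (by omega)
    have hne : ∀ x y : ℕ, 1 ≤ x → x ≤ t.length → 1 ≤ y → y ≤ t.length → vx u (1, -1) t x = vx u (1, -1) t y → x = y := by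
      intro x y hx1 hx2 hy1 hy2 hxy
      rcases lt_trichotomy x y with h2 | h2 | h2
      · exact absurd hxy (h.inj x y hx1 h2 hy2)
      · exact h2
      · exact absurd hxy.symm (h.inj y x hy1 h2 hx2)
    have haa := hne (a i) (a j) (by omega) a2 (by omega) b2 hv
    by_cases h4 : dx (1, -1) t i = (-1, 1)
    · by_cases h5 : dx (1, -1) t j = (-1, 1)
      · have e1 : a i = i := by rw [ha]; simp only [h4, if_true]
        have e2 : a j = j := by rw [ha]; simp only [h5, if_true]
        omega
      · have e1 : a i = i := by rw [ha]; simp only [h4, if_true]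
        have e2 : a j = j + 1 := by rw [ha]; simp only [h5, if_false]
        exfalso
        have h6 := a6 h4
        have h7 := b7 h5
        rw [hv] at h6
        have hil : i ≠ t.length := by
          intro h0
          rw [h0, h.dir] at h4
          revert h4
          decide
        have := hne (i + 1) j (by omega) (by omega) (by omega) (by omega) (h6.trans h7.symm)
        omega
    · by_cases h5 : dx (1, -1) t j = (-1, 1)
      · have e1 : a i = i + 1 := by rw [ha]; simp only [h4, if_false]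
        have e2 : a j = j := by rw [ha]; simp only [h5, if_true]
        exfalso
        have h6 := a7 h4
        have h7 := b6 h5
        rw [hv] at h6
        have hil : j ≠ t.length := by
          intro h0
          rw [h0, h.dir] at h5
          revert h5
          decide
        have := hne (j + 1) i (by omega) (by omega) (by omega) (by omega) (h7.trans h6.symm)
        omega
      · have e1 : a i = i + 1 := by rw [ha]; simp only [h4, if_false]
        have e2 : a j = j + 1 := by rw [ha]; simp only [h5, if_false]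
        omega
  have h2 : C.card ≤ (Finset.Ioo (0 : ℤ) (3 * N + 2)).card := by
    refine Finset.card_le_card_of_injOn (fun i => lv (vx u (1, -1) t (a i))) ?_ ?_
    · intro i hi
      obtain ⟨a1, a2, a3, a4, _⟩ := hcross i hi
      have h3 := h.mem (a i) (by omega) a2
      rw [ip_up] at h3
      rw [Finset.mem_coe, Finset.mem_Ioo]
      exact h3
    · intro i hi j hj he
      exact hinj i hi j hj he
  rw [Int.card_Ioo] at h2
  have h3 : (C.card : ℤ) ≤ 3 * N + 2 := by omega
  exact h1.trans h3

theorem clA_bound {N r : ℕ} {t : List Bool} (h : t ∈ MW N r) : |clA r t| ≤ 3 * (N : ℤ) + 2 := by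
  rw [clA_eq]
  exact clr_bound rfl h

/-- the one leg function of the row edge r, floor exits -/
noncomputable def Mfl (N r : ℕ) (om : ℂ) : ℂ :=
  ∑' t, (MW N r).indicator (fun t => (xc : ℂ) ^ t.length * om ^ clA r t) t

/-- the weight of the winding class c -/
noncomputable def Acl (N r : ℕ) (c : ℤ) : ℝ :=
  ∑' t, {t | t ∈ MW N r ∧ clA r t = c}.indicator (fun t => xc ^ t.length) t

lemma Acl_nonneg (N r : ℕ) (c : ℤ) : 0 ≤ Acl N r c :=
  tsum_nonneg fun t => Set.indicator_nonneg (fun t _ => pow_nonneg xc_pos.le _) t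

theorem Mfl_sum (N r : ℕ) (om : ℂ) :
    Mfl N r om = ∑ c ∈ Finset.Icc (-(3 * (N : ℤ) + 2)) (3 * N + 2), (Acl N r c : ℂ) * om ^ c := by
  classical
  have hs : ∀ c : ℤ, Summable ({t | t ∈ MW N r ∧ clA r t = c}.indicator (fun t => xc ^ t.length)) := by
    intro c
    exact summable_ind (ne_top_of_le_ne_top (gf_MW N r) (gf_mono fun t ht => ht.1))
  have hs' : ∀ c : ℤ, Summable (fun t => (({t | t ∈ MW N r ∧ clA r t = c}.indicator (fun t => xc ^ t.length) t : ℝ) : ℂ) *
      om ^ c) := fun c => (Complex.ofRealCLM.summable (hs c)).mul_right _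
  have e1 : ∀ c : ℤ, (Acl N r c : ℂ) * om ^ c =
      ∑' t, (({t | t ∈ MW N r ∧ clA r t = c}.indicator (fun t => xc ^ t.length) t : ℝ) : ℂ) * om ^ c := by
    intro c
    rw [tsum_mul_right, ← Complex.ofReal_tsum]
    rfl
  rw [Finset.sum_congr rfl fun c _ => e1 c, ← Summable.tsum_finsetSum fun c _ => hs' c]
  unfold Mfl
  apply tsum_congr
  intro t
  by_cases ht : t ∈ MW N r
  · have hb := clA_bound ht
    rw [abs_le] at hb
    rw [Set.indicator_of_mem ht, Finset.sum_eq_single (clA r t)]
    · have : t ∈ {t | t ∈ MW N r ∧ clA r t = clA r t} := ⟨ht, rfl⟩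
      rw [Set.indicator_of_mem (show t ∈ {t' | t' ∈ MW N r ∧ clA r t' = clA r t} from ⟨ht, rfl⟩)]
      push_cast
      rfl
    · intro c _ hc
      rw [Set.indicator_of_notMem (fun h => hc h.2.symm), Complex.ofReal_zero, zero_mul]
    · intro h
      exact absurd (Finset.mem_Icc.2 ⟨hb.1, hb.2⟩) h
  · rw [Set.indicator_of_notMem ht]
    symm
    apply Finset.sum_eq_zero
    intro c _
    rw [Set.indicator_of_notMem (fun h => ht h.1), Complex.ofReal_zero, zero_mul]

theorem Mfl_expSum (N r : ℕ) : TCAvg.ExpSum (fun s => Mfl N r (Complex.exp (2 * Real.pi * I * s))) := by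
  refine ⟨ℤ, Finset.Icc (-(3 * (N : ℤ) + 2)) (3 * N + 2), Acl N r, fun c => 2 * Real.pi * c, fun c _ => Acl_nonneg N r c,
    fun s => ?_⟩
  show Mfl N r (Complex.exp (2 * Real.pi * I * s)) = _
  rw [Mfl_sum]
  apply Finset.sum_congr rfl
  intro c _
  rw [← Complex.exp_int_mul]
  congr 2
  push_cast
  ring

theorem Mfl_one (N r : ℕ) : Mfl N r 1 = ((gf (MW N r)).toReal : ℂ) := by
  rw [gf_toReal_ind, Complex.ofReal_tsum]
  unfold Mfl
  apply tsum_congr
  intro t
  by_cases ht : t ∈ MW N r
  · rw [Set.indicator_of_mem ht, Set.indicator_of_mem ht, one_zpow, mul_one]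
    push_cast
    rfl
  · rw [Set.indicator_of_notMem ht, Set.indicator_of_notMem ht, Complex.ofReal_zero]

/-- the value at spin 3 / 8 -/
theorem Mfl_spin (N r : ℕ) :
    Complex.exp (-(Real.pi / 8) * I) * Mfl N r (Complex.exp (2 * Real.pi * I * ((3 / 8 : ℝ) : ℂ))) =
      Sfl N (p0 r).1 (1, -1) := by
  unfold Mfl Sfl
  rw [← tsum_mul_left]
  apply tsum_congr
  intro t
  by_cases ht : t ∈ MW N r
  · rw [Set.indicator_of_mem ht, Set.indicator_of_mem ht]
    unfold wt
    rw [wind_clA ht, ← Complex.exp_int_mul, mul_left_comm, ← Complex.exp_add, mul_comm]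
    congr 2
    push_cast
    ring
  · rw [Set.indicator_of_notMem ht, Set.indicator_of_notMem ht, mul_zero]

end TC

end HexObs
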