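import Pool.Agent.NUR2.OC

/-!
# Logarithm and division by the variable in the calculus `NUOC.O`

* `O.inv1`, `O.log1`: `1 / (1 + u)` and `log (1 + u)` for `u` small;
* `O.avg`: averages `∫ s in 0..1, s ^ k * g (s t)`;
* `O.div`: a function with `f 0 = 0` is `t * q t` with `q` in the class.
-/

set_option autoImplicit false

open MeasureTheory Set Filter Topology
open scoped Interval

namespace NUOC

noncomputable section

/-- `1 / (1 + u)` -/
theorem O.inv1 (j : ℕ) : ∃ C : ℝ, 1 ≤ C ∧ ∀ {lam : ℝ} {u : ℝ → ℝ}, O j lam u → lam ≤ 1 / 2 →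
    O j C fun x => (1 + u x)⁻¹ := by
  have pos : ∀ {lam : ℝ} {u : ℝ → ℝ}, (∀ x, |u x| ≤ lam) → lam ≤ 1 / 2 → ∀ x, 1 / 2 ≤ 1 + u x := by
    intro lam u h hl x
    have := (abs_le.1 (h x)).1
    linarith
  have bd : ∀ {lam : ℝ} {u : ℝ → ℝ}, (∀ x, |u x| ≤ lam) → lam ≤ 1 / 2 → ∀ x, |(1 + u x)⁻¹| ≤ 2 := by
    intro lam u h hl x
    have h1 := pos h hl x
    rw [abs_of_pos (inv_pos.2 (by linarith))]
    rw [inv_le_comm₀ (by linarith) (by norm_num)]
    linarith
  induction j with
  | zero =>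
    refine ⟨2, by norm_num, fun {lam u} h hl => ⟨?_, bd h.2 hl⟩⟩
    exact Continuous.inv₀ (continuous_const.add h.1) fun x => by
      have := pos h.2 hl x
      linarith
  | succ j ih =>
    obtain ⟨C, hC1, hC⟩ := ih
    refine ⟨2 + 2 ^ j * (2 ^ j * (C * C)), ?_, fun {lam u} h hl => ?_⟩
    · have : (0:ℝ) ≤ 2 ^ j * (2 ^ j * (C * C)) := by positivity
      linarith
    have hul := h.lower
    have hlam := h.nonneg
    obtain ⟨h1, u', h2, h3⟩ := h
    have hinv := hC hul hl
    refine ⟨fun x => (bd h1 hl x).trans ?_, fun x => -(u' x * ((1 + u x)⁻¹ * (1 + u x)⁻¹)), fun x => ?_, ?_⟩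
    · have : (0:ℝ) ≤ 2 ^ j * (2 ^ j * (C * C)) := by positivity
      linarith
    · have hp : (1:ℝ) + u x ≠ 0 := by
        have := pos h1 hl x
        linarith
      have e1 := ((h2 x).const_add 1).inv hp
      refine HasDerivAt.congr_deriv e1 ?_
      field_simp
    · have e1 := (h3.mul (hinv.mul hinv)).neg
      refine e1.mono ?_
      have e2 : (0:ℝ) ≤ 2 ^ j * (C * C) := by positivity
      have e3 : lam * (2 ^ j * (C * C)) ≤ 1 * (2 ^ j * (C * C)) :=
        mul_le_mul_of_nonneg_right (by linarith) e2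
      have e4 : (2:ℝ) ^ j * (lam * (2 ^ j * (C * C))) ≤ 2 ^ j * (1 * (2 ^ j * (C * C))) :=
        mul_le_mul_of_nonneg_left e3 (by positivity)
      linarith

/-- `log (1 + u)` -/
theorem O.log1 (j : ℕ) : ∃ C : ℝ, 1 ≤ C ∧ ∀ {lam : ℝ} {u : ℝ → ℝ}, O j lam u → lam ≤ 1 / 2 →
    O j (C * lam) fun x => Real.log (1 + u x) := by
  have pos : ∀ {lam : ℝ} {u : ℝ → ℝ}, (∀ x, |u x| ≤ lam) → lam ≤ 1 / 2 → ∀ x, 1 / 2 ≤ 1 + u x := by
    intro lam u h hl x
    have := (abs_le.1 (h x)).1
    linarith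
  have bd : ∀ {lam : ℝ} {u : ℝ → ℝ}, (∀ x, |u x| ≤ lam) → lam ≤ 1 / 2 → ∀ x,
      |Real.log (1 + u x)| ≤ 2 * lam := by
    intro lam u h hl x
    have h1 := pos h hl x
    have h2 := abs_le.1 (h x)
    have hl0 : 0 ≤ lam := (abs_nonneg _).trans (h 0)
    rw [abs_le]
    constructor
    · have e := Real.one_sub_inv_le_log_of_pos (show (0:ℝ) < 1 + u x by linarith)
      have e2 : 1 - (1 + u x)⁻¹ = u x * (1 + u x)⁻¹ := by
        field_simp
        ring
      rw [e2] at e
      have e3 : (1 + u x)⁻¹ ≤ 2 := by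
        rw [inv_le_comm₀ (by linarith) (by norm_num)]
        linarith
      have e4 : 0 < (1 + u x)⁻¹ := inv_pos.2 (by linarith)
      have e5 : -lam * 2 ≤ u x * (1 + u x)⁻¹ := by
        rcases le_total 0 (u x) with h0 | h0
        · have := mul_nonneg h0 e4.le
          nlinarith
        · nlinarith
      linarith
    · have e := Real.log_le_sub_one_of_pos (show (0:ℝ) < 1 + u x by linarith)
      linarith
  induction j with
  | zero =>
    refine ⟨2, by norm_num, fun {lam u} h hl => ⟨?_, bd h.2 hl⟩⟩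
    exact Continuous.log (continuous_const.add h.1) fun x => by
      have := pos h.2 hl x
      linarith
  | succ j ih =>
    obtain ⟨C, hC1, hC⟩ := ih
    obtain ⟨Ci, hCi1, hCi⟩ := O.inv1 j
    refine ⟨2 + 2 ^ j * Ci, ?_, fun {lam u} h hl => ?_⟩
    · have : (0:ℝ) ≤ 2 ^ j * Ci := by positivity
      linarith
    have hul := h.lower
    have hlam := h.nonneg
    obtain ⟨h1, u', h2, h3⟩ := h
    refine ⟨fun x => (bd h1 hl x).trans ?_, fun x => u' x * (1 + u x)⁻¹, fun x => ?_, ?_⟩
    · have : (0:ℝ) ≤ 2 ^ j * Ci := by positivity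
      nlinarith [mul_nonneg this hlam]
    · have hp : (1:ℝ) + u x ≠ 0 := by
        have := pos h1 hl x
        linarith
      have e1 := ((h2 x).const_add 1).log hp
      refine HasDerivAt.congr_deriv e1 ?_
      field_simp
    · refine (h3.mul (hCi hul hl)).mono ?_
      nlinarith

/-- averages along rays -/
theorem O.avg (j : ℕ) : ∀ {a : ℝ} {g : ℝ → ℝ} (k : ℕ), O j a g →
    O j a fun t => ∫ s in (0:ℝ)..1, s ^ k * g (s * t) := by
  have bd : ∀ {a : ℝ} {g : ℝ → ℝ} (k : ℕ), (∀ x, |g x| ≤ a) → ∀ t,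
      |∫ s in (0:ℝ)..1, s ^ k * g (s * t)| ≤ a := by
    intro a g k h t
    have ha : 0 ≤ a := (abs_nonneg _).trans (h 0)
    have e := intervalIntegral.norm_integral_le_of_norm_le_const (a := (0:ℝ)) (b := 1) (C := a)
      (f := fun s => s ^ k * g (s * t)) (fun s hs => by
        rw [uIoc_of_le zero_le_one] at hs
        rw [norm_mul, Real.norm_eq_abs, Real.norm_eq_abs, abs_of_nonneg (pow_nonneg hs.1.le k)]
        calc s ^ k * |g (s * t)| ≤ 1 * a :=
              mul_le_mul (pow_le_one₀ hs.1.le hs.2) (h _) (abs_nonneg _) zero_le_one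
          _ = a := one_mul a)
    rw [Real.norm_eq_abs] at e
    simpa using e
  induction j with
  | zero =>
    intro a g k h
    refine ⟨?_, bd k h.2⟩
    have hc : Continuous fun p : ℝ × ℝ => p.2 ^ k * g (p.2 * p.1) :=
      (continuous_snd.pow k).mul (h.1.comp (continuous_snd.mul continuous_fst))
    exact intervalIntegral.continuous_parametric_intervalIntegral_of_continuous' hc 0 1
  | succ j ih =>
    intro a g k h
    have hgc := h.cont
    obtain ⟨h1, g', h2, h3⟩ := h
    refine ⟨bd k h1, fun t => ∫ s in (0:ℝ)..1, s ^ (k + 1) * g' (s * t), fun t => ?_, ih (k + 1) h3⟩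
    have hg'c := h3.cont
    have ha : 0 ≤ a := h3.nonneg
    refine (intervalIntegral.hasDerivAt_integral_of_dominated_loc_of_deriv_le (F := fun t s => s ^ k * g (s * t))
      (F' := fun t s => s ^ (k + 1) * g' (s * t)) (bound := fun _ => a) (μ := volume) (s := univ)
      univ_mem ?_ ?_ ?_ ?_ ?_ ?_).2
    · exact Eventually.of_forall fun x => (Continuous.aestronglyMeasurable (by fun_prop))
    · exact Continuous.intervalIntegrable (by fun_prop) _ _
    · exact Continuous.aestronglyMeasurable (by fun_prop)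
    · refine Eventually.of_forall fun s hs x _ => ?_
      rw [uIoc_of_le zero_le_one] at hs
      rw [norm_mul, Real.norm_eq_abs, Real.norm_eq_abs, abs_of_nonneg (pow_nonneg hs.1.le _)]
      calc s ^ (k + 1) * |g' (s * x)| ≤ 1 * a :=
            mul_le_mul (pow_le_one₀ hs.1.le hs.2) (h3.le _) (abs_nonneg _) zero_le_one
        _ = a := one_mul a
    · exact intervalIntegrable_const
    · refine Eventually.of_forall fun s _ x _ => ?_
      have e1 : HasDerivAt (fun x : ℝ => s * x) s x := by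
        simpa using (hasDerivAt_id x).const_mul s
      have e2 := ((h2 (s * x)).comp x e1).const_mul (s ^ k)
      refine HasDerivAt.congr_deriv e2 ?_
      rw [pow_succ]
      ring

/-- **division by the variable** -/
theorem O.div {j : ℕ} {a : ℝ} {f : ℝ → ℝ} (h : O (j + 1) a f) (h0 : f 0 = 0) :
    ∃ q : ℝ → ℝ, O j a q ∧ ∀ t, f t = t * q t := by
  obtain ⟨h1, f', h2, h3⟩ := h
  refine ⟨_, O.avg j 0 h3, fun t => ?_⟩
  simp only [pow_zero, one_mul]
  rcases eq_or_ne t 0 with rfl | ht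
  · rw [h0, zero_mul]
  · have e1 := intervalIntegral.integral_comp_mul_right (a := (0:ℝ)) (b := 1) (fun x => f' x) ht
    rw [e1, zero_mul, one_mul, intervalIntegral.integral_eq_sub_of_hasDerivAt (fun x _ => h2 x)
      (h3.cont.intervalIntegrable _ _), h0, sub_zero, smul_eq_mul, ← mul_assoc,
      mul_inv_cancel₀ ht, one_mul]

end

end NUOC
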