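import Pool.Agent.TC.WcF
import Pool.Agent.TC.EvenI
import Pool.Agent.NUH0.OneF

/-!
# Folded gas, one component, smooth even extra potential

Folded version of `NUH0/One.lean`: density `ρ` (even, full line), extra potential `E` (even, class
`C1P`), wall factor `be` with `be x * exp (F x) ≤ wlc L x * exp (E x)` on `(0, T]`.

* `BTC`: the bound, half of the exponent of the full gas with `2 n` particles and the wall terms;
* `oneC_half`, `oneC`: the integrals over `(0, T]^n` and `[-T, T]^n`.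
-/

set_option autoImplicit false

open MeasureTheory Set Filter Topology
open Pool.Agent.Szego62 (Aser abs_term_c)
open scoped Real ENNReal

namespace TCO

open Pool.Agent.FSz NUMF NUWC NUC37 NUH0 TCW

noncomputable section

variable {G L T : ℝ}

/-- real cosine coefficients -/
def ce (L : ℝ) (E : ℝ → ℝ) (p : ℕ) : ℝ := (fc L E (p + 1)).re

/-- logarithm of the wall factor on the circle -/
def lwc (L x : ℝ) : ℝ := Real.log |Real.sin (2 * π * x / L)| -
  1 / 2 * Real.log (Real.sin (2 * π * x / L) ^ 2 + Real.sinh (sw L) ^ 2)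

/-- constant part of the exponent -/
def B0C (G L δ : ℝ) (n : ℕ) (ρ : ℝ → ℝ) : ℝ :=
  1 / 4 * (∫ s, ρ s * ∫ s', ρ s' * V (s - s')) - NUC62.uG G L / 4 * (n - mI L ρ / 2) ^ 2 +
    1 / 2 * (∫ t in (-(L / 2))..(L / 2), ρ t * lwc L t) + 7 / 24 * L +
    NUC62.err G L n / 2 + cV * δ ^ 2 * (2 * G + 1) / 2 + NUC62.eG G * L + 2

/-- the bound of the folded one component gas on `[-T, T]^n` -/
def BTC (G L δ : ℝ) (n : ℕ) (ρ E : ℝ → ℝ) : ℝ :=
  (n.factorial : ℝ) * (4 * π / √NUC62.cω) ^ n *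
    Real.exp (B0C G L δ n ρ + 1 / 2 * (∫ t in (-(L / 2))..(L / 2), ρ t * E t) +
      1 / 2 * Qt G L E - XW G L (ce L E))

lemma ce_even {E : ℝ → ℝ} (hE : ∀ x, E (-x) = E x) (p : ℕ) :
    fc L E (p + 1) = ((ce L E p : ℝ) : ℂ) := fc_re hE _

lemma ce_summable {E E' : ℝ → ℝ} (hL : 0 < L) (hE : C1P L E E') :
    Summable fun p => |ce L E p| := by
  refine Summable.of_nonneg_of_le (fun p => abs_nonneg _) (fun p => ?_) (NUC37.summable_fc hL hE)
  exact Complex.abs_re_le_norm _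

lemma ce_norm {E : ℝ → ℝ} (hE : ∀ x, E (-x) = E x) (p : ℕ) : ‖fc L E (p + 1)‖ ^ 2 = ce L E p ^ 2 := by
  rw [ce_even hE, Complex.norm_real, Real.norm_eq_abs, sq_abs]

lemma ce_energy {E E' : ℝ → ℝ} (hG : 9 ≤ G) (hL : 0 < L) (hE : C1P L E E')
    (hEe : ∀ x, E (-x) = E x) :
    Summable fun p : ℕ => L * ce L E p ^ 2 / NUC62.uh G (NUC62.kp L p) := by
  have h := (energy_C1 hG hL hE).1
  simp_rw [ce_norm hEe] at h
  exact h

lemma ce_QFr {E : ℝ → ℝ} (hEe : ∀ x, E (-x) = E x) :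
    Qt G L E = L * (fc L E 0).re ^ 2 / 2 + QFr G L (ce L E) := by
  unfold Qt QF QFr
  simp_rw [ce_norm hEe]

lemma ce_ser {E E' : ℝ → ℝ} (hL : 0 < L) (hE : C1P L E E') (hEe : ∀ x, E (-x) = E x) {t : ℝ}
    (ht : t ∈ Icc (-(L / 2)) (L / 2)) :
    E t = (fc L E 0).re + Cser (ce L E) (2 * π * t / L) := by
  rw [ser_C1P hL hE ht, ← Cser_eq]
  congr 2
  funext p
  exact ce_even hEe p

lemma SW_eq (hL : 0 < L) {ρ : ℝ → ℝ} (hρ : Continuous ρ) :
    SW L ρ = -(1 / 2) * (∫ x in (-(L / 2))..(L / 2), ρ x * lwc L x) - sw L / 2 * mI L ρ := by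
  unfold SW lwc mI
  rw [(wall_pars hL hρ).tsum_eq]

/-- the exponent of `wc1C` -/
lemma EF_le {T δ M : ℝ} (hG : 9 ≤ G) (hT : 0 < T) (n : ℕ) {ρ : ℝ → ℝ} (hρc : Continuous ρ)
    (hρ : Integrable ρ) (hM : ∀ s, |ρ s| ≤ M)
    (hδ : ∀ s, T ≤ |s| → |ρ s| ≤ δ * Real.exp (-(|s| - T))) (hL : L = 2 * T + 2 * G)
    {E E' : ℝ → ℝ} (hE : C1P L E E') (hEe : ∀ x, E (-x) = E x) :
    EF G L n ρ (fc L E 0).re (ce L E) ≤ B0C G L δ n ρ +
      1 / 2 * (∫ t in (-(L / 2))..(L / 2), ρ t * E t) + 1 / 2 * Qt G L E - XW G L (ce L E) := by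
  have hL0 : 0 < L := by rw [hL]; linarith
  have hle : -(L / 2) ≤ L / 2 := by linarith
  have h1 := EI_le' (by linarith : (1:ℝ) ≤ G) hT hρc hρ hM hδ
  rw [← hL] at h1
  have e1 : (∫ t in (-(L / 2))..(L / 2), ρ t * ((fc L E 0).re + Cser (ce L E) (2 * π * t / L))) =
      ∫ t in (-(L / 2))..(L / 2), ρ t * E t := by
    refine intervalIntegral.integral_congr fun t ht => ?_
    rw [uIcc_of_le hle] at ht
    rw [← ce_ser hL0 hE hEe ht]
  have hu := NUMFC.uG_ge hG hL0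
  unfold EF B0C
  rw [e1, SW_eq hL0 hρc, ce_QFr hEe]
  set m := mI L ρ with hm
  set E0 := (fc L E 0).re with hE0
  set u := NUC62.uG G L with hudef
  have hu0 : 0 < u := lt_of_lt_of_le (by positivity) hu
  have h2 : ((n : ℝ) - m / 2) * E0 ≤ u / 2 * (n - m / 2) ^ 2 + L * E0 ^ 2 / 4 := by
    have h3 : ((n : ℝ) - m / 2) * E0 ≤ u / 2 * (n - m / 2) ^ 2 + E0 ^ 2 / (2 * u) := by
      have : 0 ≤ u / 2 * ((n - m / 2) - E0 / u) ^ 2 := by positivity
      have e : u / 2 * ((n - m / 2) - E0 / u) ^ 2 =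
          u / 2 * (n - m / 2) ^ 2 - (n - m / 2) * E0 + E0 ^ 2 / (2 * u) := by
        field_simp
        ring
      linarith
    have h4 : E0 ^ 2 / (2 * u) ≤ L * E0 ^ 2 / 4 := by
      rw [div_le_iff₀ (by positivity)]
      have h5 : 1 ≤ L / 2 * u := by
        have : L / 2 * (2 / L) = 1 := by field_simp
        rw [← this]
        gcongr
      nlinarith [sq_nonneg E0]
    linarith
  have h6 : -((n : ℝ) - m / 2) * sw L ≤ u / 4 * (n - m / 2) ^ 2 + 1 := by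
    have h7 : -((n : ℝ) - m / 2) * sw L ≤ u / 4 * (n - m / 2) ^ 2 + sw L ^ 2 / u := by
      have : 0 ≤ u / 4 * ((n - m / 2) + 2 * sw L / u) ^ 2 := by positivity
      have e : u / 4 * ((n - m / 2) + 2 * sw L / u) ^ 2 =
          u / 4 * (n - m / 2) ^ 2 + (n - m / 2) * sw L + sw L ^ 2 / u := by
        field_simp
        ring
      linarith
    have h8 : sw L ^ 2 / u ≤ 1 := by
      have hL18 : 18 ≤ L := by rw [hL]; linarith
      have hpi := Real.pi_pos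
      have hpi4 := Real.pi_lt_four
      rw [div_le_one hu0]
      refine le_trans ?_ hu
      unfold sw
      have h9 : π ^ 2 / (4 * L) ≤ 4 / L := by
        have h11 : π ^ 2 ≤ 16 := by nlinarith
        rw [div_le_div_iff₀ (by positivity) hL0]
        nlinarith
      have h10 : 4 / L ≤ 1 / 4 := by
        rw [div_le_div_iff₀ hL0 (by norm_num)]
        linarith
      calc (π ^ 2 / (4 * L)) ^ 2 = (π ^ 2 / (4 * L)) * (π ^ 2 / (4 * L)) := by ring
        _ ≤ 1 / 4 * (4 / L) := by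
          refine mul_le_mul (h9.trans h10) h9 (by positivity) (by norm_num)
        _ ≤ 2 / L := by
          rw [← mul_div_assoc]
          gcongr
          norm_num
    linarith
  have e2 : -(-(1 / 2) * (∫ x in (-(L / 2))..(L / 2), ρ x * lwc L x) - sw L / 2 * m) - n * sw L =
      1 / 2 * (∫ x in (-(L / 2))..(L / 2), ρ x * lwc L x) + -((n : ℝ) - m / 2) * sw L := by ring
  nlinarith

/-! ### evenness -/

lemma K_neg_left (x y : ℝ) : NU42.om (-x - y) * NU42.om (-x + y) = NU42.om (x - y) * NU42.om (x + y) := by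
  rw [show -x - y = -(x + y) by ring, show -x + y = -(x - y) by ring, TCF.om_even, TCF.om_even,
    mul_comm]

lemma K_neg_right (x y : ℝ) : NU42.om (x - -y) * NU42.om (x + -y) = NU42.om (x - y) * NU42.om (x + y) := by
  rw [sub_neg_eq_add, ← sub_eq_add_neg, mul_comm]

lemma fpom_sign {n : ℕ} {t u : Fin n → ℝ} (h : ∀ j, u j = t j ∨ u j = -t j) :
    TCF.fpom u = TCF.fpom t := by
  unfold TCF.fpom
  congr 1
  · refine Finset.prod_congr rfl fun i _ => Finset.prod_congr rfl fun j _ => ?_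
    rcases h i with hi | hi <;> rcases h j with hj | hj <;> rw [hi, hj]
    · exact K_neg_right _ _
    · exact K_neg_left _ _
    · rw [K_neg_left, K_neg_right]
  · refine Finset.prod_congr rfl fun i _ => ?_
    rcases h i with hi | hi
    · rw [hi]
    · rw [hi, mul_neg, TCF.om_even]

lemma upd_sign {n : ℕ} (t : Fin n → ℝ) (i j : Fin n) :
    Function.update t i (-t i) j = t j ∨ Function.update t i (-t i) j = -t j := by
  by_cases h : j = i
  · subst h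
    right
    rw [Function.update_self]
  · left
    rw [Function.update_of_ne h]

lemma conv_even {ρ : ℝ → ℝ} (hρe : ∀ x, ρ (-x) = ρ x) (x : ℝ) :
    (∫ s, ρ s * V (-x - s)) = ∫ s, ρ s * V (x - s) := by
  rw [← integral_neg_eq_self]
  refine integral_congr_ae (Eventually.of_forall fun s => ?_)
  simp only [hρe]
  rw [show -x - -s = -(x - s) by ring, V_neg]

/-- weight of one folded component -/
def W1 (be : ℝ → ℝ) {n : ℕ} (ρ F : ℝ → ℝ) (t : Fin n → ℝ) : ℝ :=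
  TCF.fpom t * ∏ i, (be (t i) * Real.exp ((∫ s, ρ s * V (t i - s)) + F (t i)))

lemma W1_nonneg {be : ℝ → ℝ} (hbe0 : ∀ x, 0 ≤ be x) {n : ℕ} (ρ F : ℝ → ℝ) (t : Fin n → ℝ) :
    0 ≤ W1 be ρ F t :=
  mul_nonneg (TCF.fpom_nonneg t) (Finset.prod_nonneg fun _ _ => mul_nonneg (hbe0 _) (Real.exp_pos _).le)

lemma W1_meas {be : ℝ → ℝ} (hbm : Measurable be) {n : ℕ} {ρ F : ℝ → ℝ} (hρ : Measurable ρ)
    (hF : Measurable F) : Measurable (W1 be ρ F : (Fin n → ℝ) → ℝ) := by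
  unfold W1
  refine TCF.fpom_meas.mul ?_
  refine Finset.measurable_fun_prod _ fun i _ => (hbm.comp (measurable_pi_apply i)).mul
    (Real.measurable_exp.comp ?_)
  exact ((conv_meas hρ).comp (measurable_pi_apply i)).add (hF.comp (measurable_pi_apply i))

lemma W1_sign {be : ℝ → ℝ} (hbe : ∀ x, be (-x) = be x) {n : ℕ} {ρ F : ℝ → ℝ}
    (hρe : ∀ x, ρ (-x) = ρ x) (hFe : ∀ x, F (-x) = F x) {t u : Fin n → ℝ}
    (h : ∀ j, u j = t j ∨ u j = -t j) : W1 be ρ F u = W1 be ρ F t := by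
  unfold W1
  rw [fpom_sign h]
  congr 1
  refine Finset.prod_congr rfl fun i _ => ?_
  rcases h i with hi | hi
  · rw [hi]
  · rw [hi, hbe, conv_even hρe, hFe]

/-- **One folded component on `(0, T]^n`** -/
theorem oneC_half {T δ M τ : ℝ} (hG : 9 ≤ G) (hT : 0 < T) (n : ℕ) {ρ : ℝ → ℝ} (hρc : Continuous ρ)
    (hρ : Integrable ρ) (hρe : ∀ x, ρ (-x) = ρ x) (hM : ∀ s, |ρ s| ≤ M)
    (hδ : ∀ s, T ≤ |s| → |ρ s| ≤ δ * Real.exp (-(|s| - T))) (hL : L = 2 * T + 2 * G)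
    {E E' : ℝ → ℝ} (hE : C1P L E E') (hEe : ∀ x, E (-x) = E x) {be F : ℝ → ℝ}
    (hbe0 : ∀ x, 0 ≤ be x)
    (hF : ∀ x, 0 < x → x ≤ T → be x * Real.exp (F x) ≤ wlc L x * Real.exp (E x)) (hτ : 0 ≤ τ)
    (hRU : ∀ b0, HRU n (NUC62.wK G L (n ^ 2 + 1)) (cF G L ρ (ce L E)) b0 τ) :
    ∫⁻ t : Fin n → ℝ in Set.univ.pi fun _ => Ioc 0 T, ENNReal.ofReal (W1 be ρ F t) ≤
    ENNReal.ofReal ((n.factorial : ℝ) * (2 * π / √NUC62.cω) ^ n *
      Real.exp (B0C G L δ n ρ + 1 / 2 * (∫ t in (-(L / 2))..(L / 2), ρ t * E t) +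
      1 / 2 * Qt G L E - XW G L (ce L E)) * τ) := by
  have hL0 : 0 < L := by rw [hL]; linarith
  have hEF := EF_le hG hT n hρc hρ hM hδ hL hE hEe
  have hser : ∀ x, 0 < x → x ≤ T → E x ≤ (fc L E 0).re + Cser (ce L E) (2 * π * x / L) :=
    fun x hx hx' => (ce_ser hL0 hE hEe ⟨by linarith, by rw [hL]; linarith⟩).le
  have hfs := ce_summable hL0 hE
  have hfe := ce_energy hG hL0 hE hEe
  subst hL
  have h1 := wc1C hG hT n hρc hρ hρe hM (fc (2 * T + 2 * G) E 0).re hfs hfe hτ hRU (F := E) hser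
  have hm : MeasurableSet (Set.univ.pi fun _ : Fin n => Ioc (0 : ℝ) T) :=
    MeasurableSet.univ_pi fun _ => measurableSet_Ioc
  refine le_trans (setLIntegral_mono' hm fun t ht => ?_) (h1.trans (ENNReal.ofReal_le_ofReal ?_))
  · refine ENNReal.ofReal_le_ofReal ?_
    unfold W1
    refine mul_le_mul_of_nonneg_left ?_ (TCF.fpom_nonneg t)
    refine Finset.prod_le_prod (fun i _ => mul_nonneg (hbe0 _) (Real.exp_pos _).le) fun i _ => ?_
    have h2 := hF (t i) (ht i (mem_univ i)).1 (ht i (mem_univ i)).2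
    rw [Real.exp_add, Real.exp_add]
    calc be (t i) * (Real.exp (∫ s, ρ s * V (t i - s)) * Real.exp (F (t i))) =
        Real.exp (∫ s, ρ s * V (t i - s)) * (be (t i) * Real.exp (F (t i))) := by ring
      _ ≤ Real.exp (∫ s, ρ s * V (t i - s)) * (wlc (2 * T + 2 * G) (t i) * Real.exp (E (t i))) :=
        mul_le_mul_of_nonneg_left h2 (Real.exp_pos _).le
      _ = _ := by ring
  · refine mul_le_mul_of_nonneg_right (mul_le_mul_of_nonneg_left (Real.exp_le_exp.2 hEF) ?_) hτ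
    positivity

/-- **One folded component on `[-T, T]^n`** -/
theorem oneC {T δ M τ : ℝ} (hG : 9 ≤ G) (hT : 0 < T) (n : ℕ) {ρ : ℝ → ℝ} (hρc : Continuous ρ)
    (hρ : Integrable ρ) (hρe : ∀ x, ρ (-x) = ρ x) (hM : ∀ s, |ρ s| ≤ M)
    (hδ : ∀ s, T ≤ |s| → |ρ s| ≤ δ * Real.exp (-(|s| - T))) (hL : L = 2 * T + 2 * G)
    {E E' : ℝ → ℝ} (hE : C1P L E E') (hEe : ∀ x, E (-x) = E x) {be F : ℝ → ℝ}
    (hbe0 : ∀ x, 0 ≤ be x) (hbe : ∀ x, be (-x) = be x) (hbm : Measurable be)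
    (hFe : ∀ x, F (-x) = F x) (hFm : Measurable F)
    (hF : ∀ x, 0 < x → x ≤ T → be x * Real.exp (F x) ≤ wlc L x * Real.exp (E x)) (hτ : 0 ≤ τ)
    (hRU : ∀ b0, HRU n (NUC62.wK G L (n ^ 2 + 1)) (cF G L ρ (ce L E)) b0 τ) :
    ∫⁻ t : Fin n → ℝ in Set.univ.pi fun _ => Icc (-T) T, ENNReal.ofReal (W1 be ρ F t) ≤
    ENNReal.ofReal (BTC G L δ n ρ E * τ) := by
  have h1 := oneC_half hG hT n hρc hρ hρe hM hδ hL hE hEe hbe0 hF hτ hRU
  have h2 := TCE.lintegral_even_pi n (T := T) (fun t : Fin n → ℝ => ENNReal.ofReal (W1 be ρ F t))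
    (ENNReal.measurable_ofReal.comp (W1_meas hbm hρc.measurable hFm))
    (fun i t => by rw [W1_sign hbe hρe hFe (upd_sign t i)])
  rw [h2]
  refine (mul_le_mul_right h1 _).trans (le_of_eq ?_)
  have e2 : (2 : ℝ≥0∞) ^ n = ENNReal.ofReal (2 ^ n) := by
    rw [ENNReal.ofReal_pow (by norm_num), ENNReal.ofReal_ofNat]
  rw [e2, ← ENNReal.ofReal_mul (by positivity)]
  congr 1
  unfold BTC
  have e3 : (4 * π / √NUC62.cω) ^ n = 2 ^ n * (2 * π / √NUC62.cω) ^ n := by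
    rw [← mul_pow]
    congr 1
    ring
  rw [e3]
  ring

end

end TCO
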