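import Pool.Agent.TC.OneC
import Pool.Agent.TC.Dbl
import Pool.Agent.NUDi.Mode

/-!
# Folded gas, one component, exponential moments of the modes

Folded version of `NUH0/OneF.lean`.

* `one_linC`: one even linear statistic on top of `TCO.oneC`;
* `expF_C`: `ExpF` for the positions `±t`, `q0 = 44 R + qτ`, the bound `BTC * τ0`; the hypothesis
  on the circular input is `HRU` for the fields shifted by the modes.
-/

set_option autoImplicit false

open MeasureTheory Set Filter Topology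
open Pool.Agent.Szego62 (Aser abs_term_c)
open scoped Real ENNReal

namespace TCO

open Pool.Agent.FSz NUMF NUWC NUC37 NUH0 TCW NUKer NUDi

noncomputable section

variable {G L T : ℝ}

lemma ce_lin {E f : ℝ → ℝ} (hE : ContinuousOn E (Icc (-(L / 2)) (L / 2)))
    (hf : ContinuousOn f (Icc (-(L / 2)) (L / 2))) (hL : 0 < L) (x : ℝ) :
    ce L (fun t => E t + x * f t) = fun p => ce L E p + x * ce L f p := by
  funext p
  unfold ce
  rw [fc_lin hE hf hL, Complex.add_re, Complex.re_ofReal_mul]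

lemma XW_lin {E E' f f' : ℝ → ℝ} (hG : 9 ≤ G) (hL : 0 < L) (hE : C1P L E E') (hf : C1P L f f')
    (x : ℝ) : XW G L (ce L fun t => E t + x * f t) = XW G L (ce L E) + x * XW G L (ce L f) := by
  have h1 : Summable fun p => |x * ce L f p| := by
    simp_rw [abs_mul]
    exact (ce_summable hL hf).mul_left _
  rw [ce_lin hE.cont hf.cont hL, XW_add hG hL (ce_summable hL hE) h1, XW_smul]

/-- **one even linear statistic** -/
theorem one_linC {T δ M : ℝ} (hG : 9 ≤ G) (hT : 0 < T) (n : ℕ) {ρ : ℝ → ℝ} (hρc : Continuous ρ)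
    (hρ : Integrable ρ) (hρe : ∀ x, ρ (-x) = ρ x) (hM : ∀ s, |ρ s| ≤ M)
    (hδ : ∀ s, T ≤ |s| → |ρ s| ≤ δ * Real.exp (-(|s| - T))) (hL : L = 2 * T + 2 * G)
    {E E' : ℝ → ℝ} (hE : C1P L E E') (hEe : ∀ x, E (-x) = E x) {be F : ℝ → ℝ}
    (hbe0 : ∀ x, 0 ≤ be x) (hbe : ∀ x, be (-x) = be x) (hbm : Measurable be)
    (hFe : ∀ x, F (-x) = F x) (hFm : Measurable F)
    (hF : ∀ x, 0 < x → x ≤ T → be x * Real.exp (F x) ≤ wlc L x * Real.exp (E x))
    {f f' : ℝ → ℝ} (hf : C1P L f f') (hfe : ∀ x, f (-x) = f x) {φ : ℝ → ℝ}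
    (hφe : ∀ x, φ (-x) = φ x) (hφm : Measurable φ) (hφ : ∀ x, 0 < x → x ≤ T → φ x = f x) :
    ∃ B : ℝ, B ^ 2 ≤ Qt G L E * Qt G L f ∧ ∀ x τ : ℝ, 0 ≤ τ →
      (∀ b0, HRU n (NUC62.wK G L (n ^ 2 + 1)) (cF G L ρ (ce L fun t => E t + 2 * x * f t)) b0 τ) →
    ∫⁻ t : Fin n → ℝ in Set.univ.pi fun _ => Icc (-T) T, ENNReal.ofReal (W1 be ρ F t) *
      ENNReal.ofReal (Real.exp (x * (2 * ∑ i, φ (t i)))) ≤
    ENNReal.ofReal (BTC G L δ n ρ E) * ENNReal.ofReal (Real.exp (((∫ t in (-(L / 2))..(L / 2),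
      ρ t * f t) + 2 * B - 2 * XW G L (ce L f)) * x + 4 * Qt G L f * x ^ 2 / 2) * τ) := by
  have hL0 : 0 < L := by rw [hL]; linarith
  have hle : -(L / 2) ≤ L / 2 := by linarith
  obtain ⟨B, hB1, hB2⟩ := Qt_add hG hL0 hE hf
  refine ⟨B, hB1, fun x τ hτ hRU => ?_⟩
  have h1 := oneC hG hT n hρc hρ hρe hM hδ hL (C1P.lin hE hf (2 * x))
    (fun t => by simp only [hEe, hfe]) (F := fun t => F t + 2 * x * φ t) hbe0 hbe hbm
    (fun t => by simp only [hFe, hφe]) (hFm.add (hφm.const_mul _))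
    (fun t ht ht' => by
      rw [hφ t ht ht', Real.exp_add, Real.exp_add, ← mul_assoc, ← mul_assoc]
      exact mul_le_mul_of_nonneg_right (hF t ht ht') (Real.exp_pos _).le) hτ hRU
  refine le_trans (le_of_eq ?_) (h1.trans (le_of_eq ?_))
  · refine lintegral_congr fun t => ?_
    rw [← ENNReal.ofReal_mul (W1_nonneg hbe0 ρ F t)]
    congr 1
    unfold W1
    rw [mul_assoc]
    congr 1
    have e : x * (2 * ∑ i, φ (t i)) = ∑ i, 2 * x * φ (t i) := by
      rw [← Finset.mul_sum]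
      ring
    rw [e, Real.exp_sum, ← Finset.prod_mul_distrib]
    refine Finset.prod_congr rfl fun i _ => ?_
    rw [mul_assoc, ← Real.exp_add]
    congr 2
    ring
  · rw [← ENNReal.ofReal_mul (by unfold BTC; positivity)]
    congr 1
    unfold BTC
    rw [← mul_assoc, mul_assoc (n.factorial * (4 * π / √NUC62.cω) ^ n : ℝ) _ (Real.exp _),
      ← Real.exp_add]
    congr 3
    rw [hB2 (2 * x), XW_lin hG hL0 hE hf]
    have e1 : (∫ t in (-(L / 2))..(L / 2), ρ t * (E t + 2 * x * f t)) =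
        (∫ t in (-(L / 2))..(L / 2), ρ t * E t) + 2 * x * ∫ t in (-(L / 2))..(L / 2), ρ t * f t := by
      rw [← intervalIntegral.integral_const_mul, ← intervalIntegral.integral_add]
      · refine intervalIntegral.integral_congr fun t _ => ?_
        ring
      · refine ContinuousOn.intervalIntegrable ?_
        rw [uIcc_of_le hle]
        exact hρc.continuousOn.mul hE.cont
      · refine ContinuousOn.intervalIntegrable ?_
        rw [uIcc_of_le hle]
        exact (hρc.continuousOn.mul hf.cont).const_smul (2 * x)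
    rw [e1]
    ring

/-- the cut off mode -/
def md (T : ℝ) (b : ℝ → ℝ) (a t : ℝ) : ℝ := chi T t * (b t * Real.cos (a * t))

lemma chi_even (T t : ℝ) : chi T (-t) = chi T t := by
  unfold chi
  rw [sub_neg_eq_add, ← sub_eq_add_neg, mul_comm]

lemma md_even {b : ℝ → ℝ} (hb : ∀ x, b (-x) = b x) (T a t : ℝ) : md T b a (-t) = md T b a t := by
  unfold md
  rw [chi_even, hb, mul_neg, Real.cos_neg]

/-- the cross term of a mode with the wall -/
lemma XW_md {R : ℝ} (hG : 9 ≤ G) (hL : 0 < L) {f f' : ℝ → ℝ} (hf : C1P L f f')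
    (hfe : ∀ x, f (-x) = f x) (hf1 : ∀ x, |f x| ≤ 1) (hq : Qt G L f ≤ R) :
    |XW G L (ce L f)| ≤ 1 + 10 * √R := by
  have hle : -(L / 2) ≤ L / 2 := by linarith
  have h1 := XW_le hG hL (ce_summable hL hf) (ce_energy hG hL hf hfe)
  have hQ := ce_QFr (G := G) (L := L) hfe
  have h0 : |(fc L f 0).re| ≤ 1 := fc_zero_le hL fun x _ => hf1 x
  have e0 := ce_ser hL hf hfe (t := 0) ⟨by linarith, by linarith⟩
  have e1 := ce_ser hL hf hfe (t := L / 2) ⟨by linarith, le_rfl⟩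
  rw [mul_zero, zero_div] at e0
  rw [show 2 * π * (L / 2) / L = π by field_simp] at e1
  have b0 : |Cser (ce L f) 0| ≤ 2 := by
    have : Cser (ce L f) 0 = f 0 - (fc L f 0).re := by linarith
    rw [this]
    exact (abs_sub _ _).trans (by linarith [hf1 0])
  have b1 : |Cser (ce L f) π| ≤ 2 := by
    have : Cser (ce L f) π = f (L / 2) - (fc L f 0).re := by linarith
    rw [this]
    exact (abs_sub _ _).trans (by linarith [hf1 (L / 2)])
  have b2 : √(QFr G L (ce L f)) ≤ √R := by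
    refine Real.sqrt_le_sqrt ?_
    have : 0 ≤ L * (fc L f 0).re ^ 2 / 2 := by positivity
    linarith
  linarith

/-- **Exponential moments of one even mode of one folded component.** -/
theorem modeC {T δ M R τ0 q1 : ℝ} (hG : 9 ≤ G) (hT : 0 < T) (n : ℕ) {ρ ρν : ℝ → ℝ}
    (hρc : Continuous ρ) (hρ : Integrable ρ) (hρe : ∀ x, ρ (-x) = ρ x) (hM : ∀ s, |ρ s| ≤ M)
    (hδ : ∀ s, T ≤ |s| → |ρ s| ≤ δ * Real.exp (-(|s| - T))) (hL : L = 2 * T + 2 * G)
    {E E' : ℝ → ℝ} (hE : C1P L E E') (hEe : ∀ x, E (-x) = E x) {be F : ℝ → ℝ}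
    (hbe0 : ∀ x, 0 ≤ be x) (hbe : ∀ x, be (-x) = be x) (hbm : Measurable be)
    (hFe : ∀ x, F (-x) = F x) (hFm : Measurable F)
    (hF : ∀ x, 0 < x → x ≤ T → be x * Real.exp (F x) ≤ wlc L x * Real.exp (E x))
    {b b' : ℝ → ℝ} (hb : Cutf R b) (hbev : ∀ x, b (-x) = b x) (hR : 1 ≤ R)
    (hbd : ∀ x, HasDerivAt b (b' x) x) (hbc : Continuous b') (hb1 : ∀ x, |b' x| ≤ 1)
    (hν : Integrable ρν) {m2 δ2 : ℝ} (h2 : ∫ x, |ρ x - ρν x| ≤ m2)
    (h3 : ∫ x in {x | T ≤ |x|}, |ρν x| ≤ δ2) (hτ : 0 ≤ τ0) (hq1 : 0 ≤ q1) (a : ℝ)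
    (hRU : ∀ x b0 : ℝ, HRU n (NUC62.wK G L (n ^ 2 + 1))
      (cF G L ρ (ce L fun t => E t + 2 * x * md T b a t)) b0
      (τ0 * Real.exp (q1 * (1 + |a|) * x ^ 2 / 2))) :
    ∃ l q : ℝ, q ≤ (44 * R + q1) * (1 + |a|) ∧
      l ^ 2 ≤ ((m2 + δ2) ^ 2 + 3 * Qt G L E + 601) * ((44 * R + q1) * (1 + |a|)) ∧ ∀ x : ℝ,
      ∫⁻ ω, (Set.univ.pi fun _ : Fin n => Icc (-T) T).indicator (fun t =>
        ENNReal.ofReal (W1 be ρ F t)) ω *
        ENNReal.ofReal (Real.exp (x * nuF ρν (TCD.dbl ω) fun t => b t * Real.cos (a * t))) ∂volume ≤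
        ENNReal.ofReal (BTC G L δ n ρ E * τ0) *
          ENNReal.ofReal (Real.exp (l * x + q * x ^ 2 / 2)) := by
  have hL0 : 0 < L := by rw [hL]; linarith
  have hTL : 2 * T + 2 ≤ L := by rw [hL]; linarith
  have hS : MeasurableSet (Set.univ.pi fun _ : Fin n => Icc (-T) T) :=
    MeasurableSet.univ_pi fun _ => measurableSet_Icc
  have hE0 := Qt_nonneg hG hL0 hE
  have hbt0 : 0 ≤ BTC G L δ n ρ E := by unfold BTC; positivity
  have ha := abs_nonneg a
  have he : ∀ x, HasDerivAt (fun t => Real.cos (a * t)) (-Real.sin (a * x) * a) x := fun x => by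
    have := ((hasDerivAt_id x).const_mul a).cos
    simpa using this
  have he' : Continuous fun x => -Real.sin (a * x) * a := by fun_prop
  have he1 : ∀ x, |Real.cos (a * x)| ≤ 1 := fun x => Real.abs_cos_le_one _
  have he2 : ∀ x, |-Real.sin (a * x) * a| ≤ |a| := fun x => by
    rw [abs_mul, abs_neg]
    exact mul_le_of_le_one_left (abs_nonneg _) (Real.abs_sin_le_one _)
  have hec : Continuous fun x => Real.cos (a * x) := by fun_prop
  have hm := mode_C1P hL0 hTL hbd hbc he he' (T := T)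
  have hq := mode_Qt (a := a) hG hL0 hTL (by linarith : 0 ≤ R) hbd hbc hb.le hb1
    (fun x _ hx => hb.zero x hx) (fun x _ hx => deriv_zero hb hbd hx) he he' he1 he2
  have hφe : ∀ x, b (-x) * Real.cos (a * -x) = b x * Real.cos (a * x) := fun x => by
    rw [hbev, mul_neg, Real.cos_neg]
  obtain ⟨B, hB1, hB2⟩ := one_linC hG hT n hρc hρ hρe hM hδ hL hE hEe hbe0 hbe hbm hFe hFm hF hm
    (md_even hbev T a) (φ := fun x => b x * Real.cos (a * x)) hφe
    (hb.cont.mul hec).measurable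
    (fun x hx hx' => by rw [chi_in (by rw [abs_of_pos hx]; exact hx'), one_mul])
  set f : ℝ → ℝ := fun x => chi T x * (b x * Real.cos (a * x)) with hfdef
  set Qf := Qt G L f with hQf
  have hf1 : ∀ x, |f x| ≤ 1 := fun x => by
    rw [hfdef]
    simp only
    rw [abs_mul, abs_mul]
    calc |chi T x| * (|b x| * |Real.cos (a * x)|) ≤ 1 * (1 * 1) := by
          gcongr
          · exact chi_abs T x
          · exact hb.le x
          · exact he1 x
      _ = 1 := by norm_num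
  have hX := XW_md hG hL0 hm (md_even hbev T a) hf1 hq
  have hl := lin_le hT hTL hρ hν (f := fun x => b x * Real.cos (a * x)) (hb.cont.mul hec)
    (fun x => by
      rw [abs_mul]
      calc |b x| * |Real.cos (a * x)| ≤ 1 * 1 := by
            gcongr
            · exact hb.le x
            · exact he1 x
        _ = 1 := by norm_num) h2 h3
  set l0 := (∫ t in (-(L / 2))..(L / 2), ρ t * (chi T t * (b t * Real.cos (a * t)))) -
    ∫ t, b t * Real.cos (a * t) * ρν t with hl0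
  set X := XW G L (ce L f) with hXdef
  set A := R * (1 + |a|) with hA
  have hA1 : 1 ≤ A := by
    rw [hA]
    nlinarith
  refine ⟨l0 + 2 * B - 2 * X, 4 * Qf + q1 * (1 + |a|), by nlinarith, ?_, fun x => ?_⟩
  · have h4 : l0 ^ 2 ≤ (m2 + δ2) ^ 2 := by
      rw [← sq_abs l0]
      gcongr
    have h5 : B ^ 2 ≤ Qt G L E * (11 * A) := hB1.trans (by
      refine mul_le_mul_of_nonneg_left ?_ hE0
      rw [hA]
      linarith)
    have h6 : X ^ 2 ≤ 2 + 2200 * A := by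
      have h7 : X ^ 2 ≤ (1 + 10 * √(11 * R * (1 + |a|))) ^ 2 := by
        rw [← sq_abs X]
        gcongr
      have h8 : √(11 * R * (1 + |a|)) ^ 2 = 11 * A := by
        rw [Real.sq_sqrt (by positivity), hA]
        ring
      nlinarith [sq_nonneg (1 - 10 * √(11 * R * (1 + |a|)))]
    have h9 : (l0 + 2 * B - 2 * X) ^ 2 ≤ 3 * l0 ^ 2 + 12 * B ^ 2 + 12 * X ^ 2 := by
      nlinarith [sq_nonneg (l0 - 2 * B), sq_nonneg (l0 + 2 * X), sq_nonneg (2 * B + 2 * X)]
    have h10 : 44 * A ≤ (44 * R + q1) * (1 + |a|) := by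
      rw [hA]
      nlinarith
    have h11 : 0 ≤ (m2 + δ2) ^ 2 + 3 * Qt G L E + 601 := by positivity
    refine h9.trans (le_trans ?_ (mul_le_mul_of_nonneg_left h10 h11))
    have h12 : 3 * (m2 + δ2) ^ 2 ≤ (m2 + δ2) ^ 2 * (44 * A) := by
      nlinarith [sq_nonneg (m2 + δ2)]
    nlinarith
  · have h4 := hB2 x _ (by positivity) (fun b0 => hRU x b0)
    have e1 : ∀ ω : Fin n → ℝ, (Set.univ.pi fun _ : Fin n => Icc (-T) T).indicator (fun t =>
        ENNReal.ofReal (W1 be ρ F t)) ω *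
        ENNReal.ofReal (Real.exp (x * nuF ρν (TCD.dbl ω) fun t => b t * Real.cos (a * t))) =
        ENNReal.ofReal (Real.exp (-(x * ∫ t, b t * Real.cos (a * t) * ρν t))) *
        ((Set.univ.pi fun _ => Icc (-T) T).indicator (fun t =>
          ENNReal.ofReal (W1 be ρ F t) *
          ENNReal.ofReal (Real.exp (x * (2 * ∑ i, b (t i) * Real.cos (a * t i))))) ω) := by
      intro ω
      by_cases hω : ω ∈ Set.univ.pi fun _ : Fin n => Icc (-T) T
      · rw [indicator_of_mem hω, indicator_of_mem hω, mul_left_comm]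
        congr 1
        rw [← ENNReal.ofReal_mul (Real.exp_pos _).le, ← Real.exp_add]
        congr 2
        rw [TCD.nuF_dbl_even _ hφe]
        ring
      · rw [indicator_of_notMem hω, indicator_of_notMem hω, zero_mul, mul_zero]
    simp_rw [e1]
    rw [lintegral_const_mul' _ _ ENNReal.ofReal_ne_top, lintegral_indicator hS]
    calc ENNReal.ofReal (Real.exp (-(x * ∫ t, b t * Real.cos (a * t) * ρν t))) * _ ≤
        ENNReal.ofReal (Real.exp (-(x * ∫ t, b t * Real.cos (a * t) * ρν t))) * _ :=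
          mul_le_mul_right h4 _
      _ = _ := by
        rw [ENNReal.ofReal_mul hbt0, mul_left_comm, mul_assoc (ENNReal.ofReal (BTC G L δ n ρ E)),
          ← ENNReal.ofReal_mul (Real.exp_pos _).le, ← ENNReal.ofReal_mul hτ]
        congr 2
        rw [hl0, show ∀ u v : ℝ, Real.exp u * (Real.exp v * (τ0 *
          Real.exp (q1 * (1 + |a|) * x ^ 2 / 2))) = τ0 * (Real.exp u * Real.exp v *
          Real.exp (q1 * (1 + |a|) * x ^ 2 / 2)) from fun u v => by ring, ← Real.exp_add,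
          ← Real.exp_add]
        congr 2
        ring

/-- the odd modes and the total mass -/
theorem sinC {n : ℕ} {W : (Fin n → ℝ) → ℝ≥0∞} {ρν b : ℝ → ℝ} {B : ℝ≥0∞} {q0 M : ℝ}
    (hbev : ∀ x, b (-x) = b x) (hνe : ∀ x, ρν (-x) = ρν x) (hq0 : 0 ≤ q0) (hM : 0 ≤ M)
    (h : ∫⁻ ω, W ω ≤ B) (a : ℝ) : ∃ l q : ℝ, q ≤ q0 * (1 + |a|) ∧ l ^ 2 ≤ M * (q0 * (1 + |a|)) ∧
      ∀ x : ℝ, ∫⁻ ω, W ω * ENNReal.ofReal (Real.exp (x * nuF ρν (TCD.dbl ω)
        fun t => b t * Real.sin (a * t))) ∂volume ≤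
        B * ENNReal.ofReal (Real.exp (l * x + q * x ^ 2 / 2)) := by
  refine ⟨0, 0, by positivity, by rw [zero_pow two_ne_zero]; positivity, fun x => ?_⟩
  have e : ∀ ω : Fin n → ℝ, nuF ρν (TCD.dbl ω) (fun t => b t * Real.sin (a * t)) = 0 := fun ω =>
    TCD.nuF_dbl_odd hνe ω fun t => by
      rw [hbev, mul_neg, Real.sin_neg]
      ring
  simp_rw [e]
  simpa using h

/-- **Exponential moments of the modes of one folded component.** -/
theorem expF_C {T δ M R τ0 q1 : ℝ} (hG : 9 ≤ G) (hT : 0 < T) (n : ℕ) {ρ ρν : ℝ → ℝ}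
    (hρc : Continuous ρ) (hρ : Integrable ρ) (hρe : ∀ x, ρ (-x) = ρ x) (hM : ∀ s, |ρ s| ≤ M)
    (hδ : ∀ s, T ≤ |s| → |ρ s| ≤ δ * Real.exp (-(|s| - T))) (hL : L = 2 * T + 2 * G)
    {E E' : ℝ → ℝ} (hE : C1P L E E') (hEe : ∀ x, E (-x) = E x) {be F : ℝ → ℝ}
    (hbe0 : ∀ x, 0 ≤ be x) (hbe : ∀ x, be (-x) = be x) (hbm : Measurable be)
    (hFe : ∀ x, F (-x) = F x) (hFm : Measurable F)
    (hF : ∀ x, 0 < x → x ≤ T → be x * Real.exp (F x) ≤ wlc L x * Real.exp (E x))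
    {b b' : ℝ → ℝ} (hb : Cutf R b) (hbev : ∀ x, b (-x) = b x) (hR : 1 ≤ R)
    (hbd : ∀ x, HasDerivAt b (b' x) x) (hbc : Continuous b') (hb1 : ∀ x, |b' x| ≤ 1)
    (hν : Integrable ρν) {m2 δ2 : ℝ} (h2 : ∫ x, |ρ x - ρν x| ≤ m2)
    (h3 : ∫ x in {x | T ≤ |x|}, |ρν x| ≤ δ2) (hτ : 0 ≤ τ0) (hq1 : 0 ≤ q1)
    (hνe : ∀ x, ρν (-x) = ρν x)
    (hRU : ∀ a x b0 : ℝ, HRU n (NUC62.wK G L (n ^ 2 + 1))
      (cF G L ρ (ce L fun t => E t + 2 * x * md T b a t)) b0
      (τ0 * Real.exp (q1 * (1 + |a|) * x ^ 2 / 2))) :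
    ExpF volume ((Set.univ.pi fun _ : Fin n => Icc (-T) T).indicator fun t =>
        ENNReal.ofReal (W1 be ρ F t)) b ρν (fun t : Fin n → ℝ => TCD.dbl t)
      (ENNReal.ofReal (BTC G L δ n ρ E * τ0)) (44 * R + q1)
      ((m2 + δ2) ^ 2 + 3 * Qt G L E + 601) := by
  have hL0 : 0 < L := by rw [hL]; linarith
  have hE0 := Qt_nonneg hG hL0 hE
  have go := fun a => modeC hG hT n hρc hρ hρe hM hδ hL hE hEe hbe0 hbe hbm hFe hFm hF hb hbev hR
    hbd hbc hb1 hν h2 h3 hτ hq1 a (hRU a)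
  refine ⟨go, sinC hbev hνe (by linarith) (by positivity) ?_⟩
  obtain ⟨l, q, -, -, h⟩ := go 0
  simpa using h 0

end

end TCO
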