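import Pool.Agent.TC.OneCL

/-!
# Folded gas, one component: high frequencies

`expF_C_hi`: the circular input of `TCO.expF_C` is only needed for the frequencies `|a| ≤ A0`,
`N² ≤ (44 R + q1) (1 + A0)`, `N = 2 n + ‖ρν‖₁`; price: a factor `exp (1/2)` in the bound.
-/

set_option autoImplicit false

open MeasureTheory Set Filter Topology
open scoped Real ENNReal

namespace TCO

open Pool.Agent.FSz NUMF NUWC NUC37 NUH0 TCW NUKer NUDi

noncomputable section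

variable {G L T : ℝ}

/-- the trivial bound of a statistic -/
lemma nuF_triv {n : ℕ} {ρν : ℝ → ℝ} (hν : Integrable ρν) {f : ℝ → ℝ} (hf : ∀ x, |f x| ≤ 1)
    (ω : Fin n → ℝ) : |nuF ρν (TCD.dbl ω) f| ≤ 2 * n + ∫ x, |ρν x| := by
  rw [TCD.nuF_dbl]
  refine (abs_sub _ _).trans (add_le_add ?_ ?_)
  · refine (Finset.abs_sum_le_sum_abs _ _).trans ?_
    calc ∑ i, |f (ω i) + f (-ω i)| ≤ ∑ _i : Fin n, (2 : ℝ) :=
          Finset.sum_le_sum fun i _ => (abs_add_le _ _).trans (by linarith [hf (ω i), hf (-ω i)])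
      _ = 2 * n := by
        rw [Finset.sum_const, Finset.card_univ, Fintype.card_fin, nsmul_eq_mul, mul_comm]
  · rw [← Real.norm_eq_abs]
    refine norm_integral_le_of_norm_le hν.abs (Eventually.of_forall fun x => ?_)
    rw [Real.norm_eq_abs, abs_mul]
    exact mul_le_of_le_one_left (abs_nonneg _) (hf x)

/-- the high modes of a weight on the folded configurations -/
theorem hiC {n : ℕ} {W : (Fin n → ℝ) → ℝ≥0∞} {ρν b : ℝ → ℝ} {B q0 M a : ℝ} (hν : Integrable ρν)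
    (hb : ∀ x, |b x| ≤ 1) (hM : 0 ≤ M) (hN : (2 * n + ∫ x, |ρν x|) ^ 2 ≤ q0 * (1 + |a|))
    (h : ∫⁻ ω, W ω ≤ ENNReal.ofReal B) : ∃ l q : ℝ, q ≤ q0 * (1 + |a|) ∧
      l ^ 2 ≤ M * (q0 * (1 + |a|)) ∧
      ∀ x : ℝ, ∫⁻ ω, W ω * ENNReal.ofReal (Real.exp (x * nuF ρν (TCD.dbl ω)
        fun t => b t * Real.cos (a * t))) ∂volume ≤
        ENNReal.ofReal (B * Real.exp (1 / 2)) * ENNReal.ofReal (Real.exp (l * x + q * x ^ 2 / 2)) := by
  set N : ℝ := 2 * n + ∫ x, |ρν x| with hNdef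
  have hN0 : 0 ≤ N := by
    have : 0 ≤ ∫ x, |ρν x| := integral_nonneg fun x => abs_nonneg _
    positivity
  refine ⟨0, N ^ 2, hN, ?_, fun x => ?_⟩
  · rw [zero_pow two_ne_zero]
    exact mul_nonneg hM ((sq_nonneg N).trans hN)
  · have h1 : ∀ ω : Fin n → ℝ, W ω * ENNReal.ofReal (Real.exp (x * nuF ρν (TCD.dbl ω)
        fun t => b t * Real.cos (a * t))) ≤
        ENNReal.ofReal (Real.exp (1 / 2 + N ^ 2 * x ^ 2 / 2)) * W ω := by
      intro ω
      rw [mul_comm]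
      refine mul_le_mul_left (ENNReal.ofReal_le_ofReal (Real.exp_le_exp.2 ?_)) _
      have h2 := nuF_triv hν (f := fun t => b t * Real.cos (a * t)) (fun t => by
        rw [abs_mul]
        calc |b t| * |Real.cos (a * t)| ≤ 1 * 1 := by
              gcongr
              · exact hb t
              · exact Real.abs_cos_le_one _
          _ = 1 := by norm_num) ω
      have h3 : x * nuF ρν (TCD.dbl ω) (fun t => b t * Real.cos (a * t)) ≤ |x| * N := by
        refine (le_abs_self _).trans ?_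
        rw [abs_mul]
        gcongr
      have h4 : x ^ 2 = |x| ^ 2 := (sq_abs x).symm
      rw [h4]
      nlinarith [sq_nonneg (|x| * N - 1)]
    refine (lintegral_mono h1).trans ?_
    rw [lintegral_const_mul' _ _ ENNReal.ofReal_ne_top]
    refine (mul_le_mul_right h _).trans (le_of_eq ?_)
    rw [zero_mul, zero_add, Real.exp_add, ENNReal.ofReal_mul (Real.exp_pos _).le,
      ENNReal.ofReal_mul' (Real.exp_pos _).le]
    ring

/-- **Exponential moments of the modes**, circular input for low frequencies only -/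
theorem expF_C_hi {T δ M R τ0 q1 A0 : ℝ} (hG : 9 ≤ G) (hT : 0 < T) (n : ℕ) {ρ ρν : ℝ → ℝ}
    (hρc : Continuous ρ) (hρ : Integrable ρ) (hρe : ∀ x, ρ (-x) = ρ x) (hM : ∀ s, |ρ s| ≤ M)
    (hδ : ∀ s, T ≤ |s| → |ρ s| ≤ δ * Real.exp (-(|s| - T))) (hL : L = 2 * T + 2 * G)
    {E E' : ℝ → ℝ} (hE : C1P L E E') (hEe : ∀ x, E (-x) = E x) {be F : ℝ → ℝ}
    (hbe0 : ∀ x, 0 ≤ be x) (hbe : ∀ x, be (-x) = be x) (hbm : Measurable be)
    (hFe : ∀ x, F (-x) = F x) (hFm : Measurable F)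
    (hF : ∀ x, 0 < x → x ≤ T → be x * Real.exp (F x) ≤ wlc L x * Real.exp (E x))
    {b b' : ℝ → ℝ} (hb : Cutf R b) (hbev : ∀ x, b (-x) = b x) (hR : 1 ≤ R)
    (hbd : ∀ x, HasDerivAt b (b' x) x) (hbc : Continuous b') (hb1 : ∀ x, |b' x| ≤ 1)
    (hν : Integrable ρν) (hνe : ∀ x, ρν (-x) = ρν x)
    {m2 δ2 : ℝ} (h2 : ∫ x, |ρ x - ρν x| ≤ m2) (h3 : ∫ x in {x | T ≤ |x|}, |ρν x| ≤ δ2)
    (hτ : 0 ≤ τ0) (hq1 : 0 ≤ q1) (hA0 : 0 ≤ A0)
    (hN : (2 * n + ∫ x, |ρν x|) ^ 2 ≤ (44 * R + q1) * (1 + A0))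
    (hRU : ∀ a x b0 : ℝ, |a| ≤ A0 → HRU n (NUC62.wK G L (n ^ 2 + 1))
      (cF G L ρ (ce L fun t => E t + 2 * x * md T b a t)) b0
      (τ0 * Real.exp (q1 * (1 + |a|) * x ^ 2 / 2))) :
    ExpF volume ((Set.univ.pi fun _ : Fin n => Icc (-T) T).indicator fun t =>
        ENNReal.ofReal (W1 be ρ F t)) b ρν (fun t : Fin n → ℝ => TCD.dbl t)
      (ENNReal.ofReal (BTC G L δ n ρ E * τ0 * Real.exp (1 / 2))) (44 * R + q1)
      ((m2 + δ2) ^ 2 + 3 * Qt G L E + 601) := by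
  have hL0 : 0 < L := by rw [hL]; linarith
  have hE0 := Qt_nonneg hG hL0 hE
  have hbt0 : 0 ≤ BTC G L δ n ρ E := by unfold BTC; positivity
  have hB0 : 0 ≤ BTC G L δ n ρ E * τ0 := mul_nonneg hbt0 hτ
  have go := fun a (ha : |a| ≤ A0) => modeC hG hT n hρc hρ hρe hM hδ hL hE hEe hbe0 hbe hbm hFe hFm
    hF hb hbev hR hbd hbc hb1 hν h2 h3 hτ hq1 a (fun x b0 => hRU a x b0 ha)
  have hmass : ∫⁻ ω, (Set.univ.pi fun _ : Fin n => Icc (-T) T).indicator (fun t =>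
      ENNReal.ofReal (W1 be ρ F t)) ω ≤ ENNReal.ofReal (BTC G L δ n ρ E * τ0) := by
    obtain ⟨l, q, -, -, h⟩ := go 0 (by rw [abs_zero]; exact hA0)
    simpa using h 0
  have he1 : (1:ℝ) ≤ Real.exp (1 / 2) := Real.one_le_exp (by norm_num)
  have hBle : ENNReal.ofReal (BTC G L δ n ρ E * τ0) ≤
      ENNReal.ofReal (BTC G L δ n ρ E * τ0 * Real.exp (1 / 2)) :=
    ENNReal.ofReal_le_ofReal (le_mul_of_one_le_right hB0 he1)
  refine ⟨fun a => ?_, sinC hbev hνe (by linarith) (by positivity) (hmass.trans hBle)⟩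
  rcases le_or_gt |a| A0 with ha | ha
  · obtain ⟨l, q, h4, h5, h6⟩ := go a ha
    exact ⟨l, q, h4, h5, fun x => (h6 x).trans (mul_le_mul_left hBle _)⟩
  · refine hiC hν hb.le (by positivity) (hN.trans ?_) hmass
    have : 0 ≤ 44 * R + q1 := by linarith
    gcongr

end

end TCO
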