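import Pool.Agent.TC.WallA
import Pool.Agent.NUDi.FtoB

/-!
# The smooth remainder of the wall

`gw T L` is an even `C^1` function on the line, zero for `|x| > T + 1`, with
`gw = log tanh (2 |x|) - log |sin θ| + (1/2) log (sin² θ + sinh² (sw L))`, `θ = 2 π x / L`, for
`0 < |x| ≤ T`; it is bounded and has bounded `L²` norm and energy, uniformly in `T` and `G`
(`L = 2 T + 2 G`, `G ≥ 9`).
-/

set_option autoImplicit false

open MeasureTheory Set Filter Topology
open scoped Real

namespace TCW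

open NUDi (cb cb1 cb_hd cb_nonneg cb_le cb_one cb_zero cb1_zero exists_cb)

noncomputable section

theorem analyticAt_dslope {f : ℝ → ℝ} (hf : ∀ x, AnalyticAt ℝ f x) (x : ℝ) :
    AnalyticAt ℝ (dslope f 0) x := by
  by_cases hx : x = 0
  · subst hx
    obtain ⟨p, hp⟩ := hf 0
    exact ⟨_, hp.has_fpower_series_dslope_fslope⟩
  · have e : dslope f 0 =ᶠ[𝓝 x] fun y => (f y - f 0) / y := by
      filter_upwards [isOpen_ne.mem_nhds hx] with y hy
      rw [dslope_of_ne _ hy, slope_def_field, sub_zero]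
    have h : AnalyticAt ℝ (fun y => (f y - f 0) / y) x :=
      ((hf x).sub analyticAt_const).div analyticAt_id hx
    exact h.congr e.symm

/-- `sinh y / y` -/
def Sh : ℝ → ℝ := dslope Real.sinh 0

/-- `sin y / y` -/
def Sn : ℝ → ℝ := dslope Real.sin 0

theorem Sh_an (x : ℝ) : AnalyticAt ℝ Sh x := analyticAt_dslope (fun _ => Real.analyticAt_sinh) x

theorem Sn_an (x : ℝ) : AnalyticAt ℝ Sn x := analyticAt_dslope (fun _ => Real.analyticAt_sin) x

theorem Sh_ne {x : ℝ} (hx : x ≠ 0) : Sh x = Real.sinh x / x := by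
  unfold Sh
  rw [dslope_of_ne _ hx, slope_def_field, Real.sinh_zero, sub_zero, sub_zero]

theorem Sn_ne {x : ℝ} (hx : x ≠ 0) : Sn x = Real.sin x / x := by
  unfold Sn
  rw [dslope_of_ne _ hx, slope_def_field, Real.sin_zero, sub_zero, sub_zero]

theorem Sh_zero : Sh 0 = 1 := by
  unfold Sh
  rw [dslope_same, (Real.hasDerivAt_sinh 0).deriv, Real.cosh_zero]

theorem Sn_zero : Sn 0 = 1 := by
  unfold Sn
  rw [dslope_same, (Real.hasDerivAt_sin 0).deriv, Real.cos_zero]

theorem Sh_pos (x : ℝ) : 0 < Sh x := by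
  rcases lt_trichotomy x 0 with h | h | h
  · rw [Sh_ne h.ne]
    exact div_pos_of_neg_of_neg (Real.sinh_neg_iff.2 h) h
  · rw [h, Sh_zero]
    exact one_pos
  · rw [Sh_ne h.ne']
    exact div_pos (Real.sinh_pos_iff.2 h) h

theorem Sn_pos {x : ℝ} (hx : |x| < π) : 0 < Sn x := by
  rw [abs_lt] at hx
  rcases lt_trichotomy x 0 with h | h | h
  · rw [Sn_ne h.ne]
    exact div_pos_of_neg_of_neg (Real.sin_neg_of_neg_of_neg_pi_lt h hx.1) h
  · rw [h, Sn_zero]
    exact one_pos
  · rw [Sn_ne h.ne']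
    exact div_pos (Real.sin_pos_of_pos_of_lt_pi h hx.2) h

theorem Sh_neg (x : ℝ) : Sh (-x) = Sh x := by
  by_cases h : x = 0
  · rw [h, neg_zero]
  · rw [Sh_ne h, Sh_ne (neg_ne_zero.2 h), Real.sinh_neg, neg_div_neg_eq]

theorem Sn_neg (x : ℝ) : Sn (-x) = Sn x := by
  by_cases h : x = 0
  · rw [h, neg_zero]
  · rw [Sn_ne h, Sn_ne (neg_ne_zero.2 h), Real.sin_neg, neg_div_neg_eq]

theorem Sh_hd (x : ℝ) : HasDerivAt Sh (deriv Sh x) x := (Sh_an x).differentiableAt.hasDerivAt

theorem Sn_hd (x : ℝ) : HasDerivAt Sn (deriv Sn x) x := (Sn_an x).differentiableAt.hasDerivAt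

theorem Sh_cont : Continuous Sh := continuous_iff_continuousAt.2 fun x => (Sh_an x).continuousAt

theorem Sn_cont : Continuous Sn := continuous_iff_continuousAt.2 fun x => (Sn_an x).continuousAt

theorem Sh1_cont : Continuous (deriv Sh) :=
  continuous_iff_continuousAt.2 fun x => (Sh_an x).deriv.continuousAt

theorem Sn1_cont : Continuous (deriv Sn) :=
  continuous_iff_continuousAt.2 fun x => (Sn_an x).deriv.continuousAt

theorem Sh1_ne {x : ℝ} (hx : x ≠ 0) :
    deriv Sh x = (Real.cosh x * x - Real.sinh x) / x ^ 2 := by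
  have e : Sh =ᶠ[𝓝 x] fun y => Real.sinh y / y := by
    filter_upwards [isOpen_ne.mem_nhds hx] with y hy
    exact Sh_ne hy
  rw [e.deriv_eq]
  have h := (Real.hasDerivAt_sinh x).div (hasDerivAt_id x) hx
  rw [mul_one] at h
  exact h.deriv

theorem Sn1_ne {x : ℝ} (hx : x ≠ 0) :
    deriv Sn x = (Real.cos x * x - Real.sin x) / x ^ 2 := by
  have e : Sn =ᶠ[𝓝 x] fun y => Real.sin y / y := by
    filter_upwards [isOpen_ne.mem_nhds hx] with y hy
    exact Sn_ne hy
  rw [e.deriv_eq]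
  have h := (Real.hasDerivAt_sin x).div (hasDerivAt_id x) hx
  rw [mul_one] at h
  exact h.deriv

/-- the smooth remainder before the cut -/
def hw (L x : ℝ) : ℝ :=
  Real.log 2 + Real.log (Sh (2 * x)) - Real.log (Real.cosh (2 * x)) -
    Real.log (Sn (2 * π * x / L)) +
    1 / 2 * Real.log ((L / (2 * π)) ^ 2 *
      (Real.sin (2 * π * x / L) ^ 2 + Real.sinh (sw L) ^ 2))

/-- its derivative -/
def hw1 (L x : ℝ) : ℝ :=
  2 * (deriv Sh (2 * x) / Sh (2 * x)) - 2 * (Real.sinh (2 * x) / Real.cosh (2 * x)) -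
    2 * π / L * (deriv Sn (2 * π * x / L) / Sn (2 * π * x / L)) +
    2 * π / L * (Real.sin (2 * π * x / L) * Real.cos (2 * π * x / L) /
      (Real.sin (2 * π * x / L) ^ 2 + Real.sinh (sw L) ^ 2))

variable {L T : ℝ}

theorem sh_pos (hL : 0 < L) : 0 < Real.sinh (sw L) := Real.sinh_pos_iff.2 (sw_pos hL)

theorem den_pos (hL : 0 < L) (x : ℝ) : 0 < Real.sin x ^ 2 + Real.sinh (sw L) ^ 2 := by
  have := sh_pos hL
  positivity

theorem th_lt (hL : 0 < L) {x : ℝ} (hx : |x| < L / 2) : |2 * π * x / L| < π := by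
  rw [abs_div, abs_mul, abs_of_pos hL, abs_of_pos (by positivity : (0:ℝ) < 2 * π),
    div_lt_iff₀ hL]
  have := Real.pi_pos
  nlinarith

theorem hw_hd (hL : 0 < L) {x : ℝ} (hx : |x| < L / 2) : HasDerivAt (hw L) (hw1 L x) x := by
  have hpi := Real.pi_pos
  have e1 : HasDerivAt (fun x : ℝ => 2 * x) 2 x := by
    simpa using (hasDerivAt_id x).const_mul 2
  have e2 : HasDerivAt (fun x : ℝ => 2 * π * x / L) (2 * π / L) x := by
    have := ((hasDerivAt_id x).const_mul (2 * π)).div_const L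
    simpa using this
  have hsn := Sn_pos (th_lt hL hx)
  have hd := den_pos hL (2 * π * x / L)
  have a1 : HasDerivAt (fun x => Real.log (Sh (2 * x))) (deriv Sh (2 * x) * 2 / Sh (2 * x)) x :=
    ((Sh_hd (2 * x)).comp x e1).log (Sh_pos (2 * x)).ne'
  have a2 : HasDerivAt (fun x => Real.log (Real.cosh (2 * x)))
      (Real.sinh (2 * x) * 2 / Real.cosh (2 * x)) x :=
    ((Real.hasDerivAt_cosh (2 * x)).comp x e1).log (Real.cosh_pos (2 * x)).ne'
  have a3 : HasDerivAt (fun x => Real.log (Sn (2 * π * x / L)))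
      (deriv Sn (2 * π * x / L) * (2 * π / L) / Sn (2 * π * x / L)) x :=
    ((Sn_hd (2 * π * x / L)).comp x e2).log hsn.ne'
  have a4 : HasDerivAt (fun x => (L / (2 * π)) ^ 2 *
      (Real.sin (2 * π * x / L) ^ 2 + Real.sinh (sw L) ^ 2))
      ((L / (2 * π)) ^ 2 * (2 * Real.sin (2 * π * x / L) *
        (Real.cos (2 * π * x / L) * (2 * π / L)))) x := by
    have h := ((((Real.hasDerivAt_sin (2 * π * x / L)).comp x e2).pow 2).add_const
      (Real.sinh (sw L) ^ 2)).const_mul ((L / (2 * π)) ^ 2)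
    simpa using h
  have hne : (L / (2 * π)) ^ 2 * (Real.sin (2 * π * x / L) ^ 2 + Real.sinh (sw L) ^ 2) ≠ 0 := by
    positivity
  have a5 := (a4.log hne).const_mul (1 / 2 : ℝ)
  have h := ((((a1.const_add (Real.log 2)).sub a2).sub a3).add a5)
  refine HasDerivAt.congr_deriv h ?_
  unfold hw1
  have h1 := (Sh_pos (2 * x)).ne'
  have h2 := (Real.cosh_pos (2 * x)).ne'
  have h3 := hsn.ne'
  have h4 := hd.ne'
  field_simp

theorem hw1_contAt (hL : 0 < L) {x : ℝ} (hx : |x| < L / 2) : ContinuousAt (hw1 L) x := by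
  have c1 := Sh1_cont
  have c2 := Sh_cont
  have c3 := Sn1_cont
  have c4 := Sn_cont
  have hsn := Sn_pos (th_lt hL hx)
  have hd := den_pos hL (2 * π * x / L)
  unfold hw1
  refine ContinuousAt.add (ContinuousAt.sub (ContinuousAt.sub ?_ ?_) ?_) ?_
  · exact ContinuousAt.mul continuousAt_const (ContinuousAt.div (by fun_prop) (by fun_prop)
      (Sh_pos _).ne')
  · exact ContinuousAt.mul continuousAt_const (ContinuousAt.div (by fun_prop) (by fun_prop)
      (Real.cosh_pos _).ne')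
  · exact ContinuousAt.mul continuousAt_const (ContinuousAt.div (by fun_prop) (by fun_prop)
      hsn.ne')
  · exact ContinuousAt.mul continuousAt_const (ContinuousAt.div (by fun_prop) (by fun_prop)
      hd.ne')

/-- the literal form away from `0` -/
theorem hw_eq (hL : 0 < L) {x : ℝ} (hx0 : x ≠ 0) (hx : |x| < L / 2) :
    hw L x = Real.log (Real.tanh (2 * |x|)) - Real.log |Real.sin (2 * π * x / L)| +
      1 / 2 * Real.log (Real.sin (2 * π * x / L) ^ 2 + Real.sinh (sw L) ^ 2) := by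
  have hpi := Real.pi_pos
  have ha : 0 < |x| := abs_pos.2 hx0
  have e1 : Sh (2 * x) = Real.sinh (2 * |x|) / (2 * |x|) := by
    rcases abs_choice x with h | h
    · rw [h]
      exact Sh_ne (mul_ne_zero two_ne_zero hx0)
    · rw [h, ← Sh_neg, ← mul_neg]
      exact Sh_ne (mul_ne_zero two_ne_zero (neg_ne_zero.2 hx0))
  have e2 : Real.cosh (2 * x) = Real.cosh (2 * |x|) := by
    rcases abs_choice x with h | h
    · rw [h]
    · rw [h, mul_neg, Real.cosh_neg]
  have hth := th_lt hL hx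
  have e3 : Sn (2 * π * x / L) = |Real.sin (2 * π * x / L)| / (2 * π * |x| / L) := by
    have hp := Sn_pos hth
    have hne : 2 * π * x / L ≠ 0 := by positivity
    rw [← abs_of_pos hp, Sn_ne hne, abs_div]
    congr 1
    rw [abs_div, abs_mul, abs_of_pos hL, abs_of_pos (by positivity : (0:ℝ) < 2 * π)]
  have hs : 0 < |Real.sin (2 * π * x / L)| := by
    have hp := Sn_pos hth
    rw [e3] at hp
    by_contra hcon
    have : |Real.sin (2 * π * x / L)| = 0 := le_antisymm (not_lt.1 hcon) (abs_nonneg _)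
    rw [this, zero_div] at hp
    exact lt_irrefl _ hp
  have hsh : 0 < Real.sinh (2 * |x|) := Real.sinh_pos_iff.2 (by positivity)
  have hch := Real.cosh_pos (2 * |x|)
  have hd := den_pos hL (2 * π * x / L)
  unfold hw
  rw [e1, e2, e3, Real.tanh_eq_sinh_div_cosh, Real.log_div hsh.ne' (by positivity),
    Real.log_div hsh.ne' hch.ne', Real.log_div hs.ne' (by positivity),
    Real.log_mul (by positivity) hd.ne', Real.log_pow, Real.log_div hL.ne' (by positivity),
    Real.log_mul two_ne_zero ha.ne', Real.log_div (by positivity) hL.ne',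
    Real.log_mul (by positivity : 2 * π ≠ 0) ha.ne']
  push_cast
  ring

/-- the literal form of the derivative away from `0` -/
theorem hw1_eq (hL : 0 < L) {x : ℝ} (hx0 : x ≠ 0) (hx : |x| < L / 2) :
    hw1 L x = 2 / (Real.sinh (2 * x) * Real.cosh (2 * x)) -
      2 * π / L * (Real.cos (2 * π * x / L) * Real.sinh (sw L) ^ 2 /
        (Real.sin (2 * π * x / L) *
          (Real.sin (2 * π * x / L) ^ 2 + Real.sinh (sw L) ^ 2))) := by
  have hpi := Real.pi_pos
  have hth := th_lt hL hx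
  have hne : 2 * π * x / L ≠ 0 := by positivity
  have h2x : 2 * x ≠ 0 := mul_ne_zero two_ne_zero hx0
  have hsn := Sn_pos hth
  have hs : Real.sin (2 * π * x / L) ≠ 0 := by
    intro h
    rw [Sn_ne hne, h, zero_div] at hsn
    exact lt_irrefl _ hsn
  have hsh : Real.sinh (2 * x) ≠ 0 := by
    intro h
    have := Sh_pos (2 * x)
    rw [Sh_ne h2x, h, zero_div] at this
    exact lt_irrefl _ this
  have hch := (Real.cosh_pos (2 * x)).ne'
  have hd := (den_pos hL (2 * π * x / L)).ne'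
  unfold hw1
  rw [Sh1_ne h2x, Sh_ne h2x, Sn1_ne hne, Sn_ne hne]
  have e1 : (Real.cosh (2 * x) * (2 * x) - Real.sinh (2 * x)) / (2 * x) ^ 2 /
      (Real.sinh (2 * x) / (2 * x)) = Real.cosh (2 * x) / Real.sinh (2 * x) - 1 / (2 * x) := by
    field_simp
  have e2 : (Real.cos (2 * π * x / L) * (2 * π * x / L) - Real.sin (2 * π * x / L)) /
      (2 * π * x / L) ^ 2 / (Real.sin (2 * π * x / L) / (2 * π * x / L)) =
      Real.cos (2 * π * x / L) / Real.sin (2 * π * x / L) - 1 / (2 * π * x / L) := by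
    set a := 2 * π * x / L
    field_simp
  rw [e1, e2]
  have e3 : 2 * (Real.cosh (2 * x) / Real.sinh (2 * x)) -
      2 * (Real.sinh (2 * x) / Real.cosh (2 * x)) =
      2 / (Real.sinh (2 * x) * Real.cosh (2 * x)) := by
    have := Real.cosh_sq_sub_sinh_sq (2 * x)
    field_simp
    linarith
  have e4 : Real.cos (2 * π * x / L) / Real.sin (2 * π * x / L) -
      Real.sin (2 * π * x / L) * Real.cos (2 * π * x / L) /
      (Real.sin (2 * π * x / L) ^ 2 + Real.sinh (sw L) ^ 2) =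
      Real.cos (2 * π * x / L) * Real.sinh (sw L) ^ 2 /
        (Real.sin (2 * π * x / L) *
          (Real.sin (2 * π * x / L) ^ 2 + Real.sinh (sw L) ^ 2)) := by
    field_simp
    ring
  rw [← e4, ← e3]
  have e5 : 2 * π / L * (1 / (2 * π * x / L)) = 1 / x := by field_simp
  have e6 : 2 * (1 / (2 * x)) = 1 / x := by field_simp
  linear_combination e5 - e6

/-! ## Bounds -/

theorem sinh_le_two {s : ℝ} (h0 : 0 ≤ s) (h1 : s ≤ 1) : Real.sinh s ≤ 2 * s := by
  have a1 := Real.abs_exp_sub_one_sub_id_le (x := s) (by rw [abs_of_nonneg h0]; exact h1)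
  rw [abs_le] at a1
  have a2 := Real.add_one_le_exp (-s)
  rw [Real.sinh_eq]
  nlinarith

theorem sw_le {L : ℝ} (hL : 18 ≤ L) : sw L ≤ 1 := by
  have hpi := Real.pi_le_four
  have hpi0 := Real.pi_pos
  unfold sw
  rw [div_le_one (by linarith)]
  nlinarith

theorem shs_le {L : ℝ} (hL : 18 ≤ L) : Real.sinh (sw L) ≤ 5 / L := by
  have hL0 : 0 < L := by linarith
  refine (sinh_le_two (sw_pos hL0).le (sw_le hL)).trans ?_
  unfold sw
  have hpi := Real.pi_lt_d2
  have hpi0 := Real.pi_pos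
  rw [show 2 * (π ^ 2 / (4 * L)) = (π ^ 2 / 2) / L by field_simp; ring]
  gcongr
  nlinarith

theorem sin_lb {L : ℝ} (hL : 0 < L) {x : ℝ} (hx : |x| ≤ L / 2) :
    4 * min |x| (L / 2 - |x|) / L ≤ |Real.sin (2 * π * x / L)| := by
  have hpi := Real.pi_pos
  have e0 : |2 * π * x / L| = 2 * π * |x| / L := by
    rw [abs_div, abs_mul, abs_of_pos hL, abs_of_pos (by positivity : (0:ℝ) < 2 * π)]
  have ha : 0 ≤ 2 * π * |x| / L := by positivity
  have hb : 2 * π * |x| / L ≤ π := by
    rw [div_le_iff₀ hL]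
    nlinarith
  have e1 : |Real.sin (2 * π * x / L)| = Real.sin (2 * π * |x| / L) := by
    rw [← e0, ← abs_of_nonneg (Real.sin_nonneg_of_nonneg_of_le_pi (abs_nonneg _) (e0 ▸ hb))]
    rcases abs_choice (2 * π * x / L) with h | h
    · rw [h]
    · rw [h, Real.sin_neg, abs_neg]
  rw [e1]
  rcases le_total |x| (L / 4) with h | h
  · have h1 : 2 * π * |x| / L ≤ π / 2 := by
      rw [div_le_iff₀ hL]
      nlinarith
    have h2 := Real.mul_le_sin ha h1
    refine le_trans ?_ h2
    rw [show 2 / π * (2 * π * |x| / L) = 4 * |x| / L by field_simp; ring]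
    gcongr
    exact min_le_left _ _
  · have h1 : π - 2 * π * |x| / L ≤ π / 2 := by
      have : π / 2 ≤ 2 * π * |x| / L := by
        rw [le_div_iff₀ hL]
        nlinarith
      linarith
    have h2 := Real.mul_le_sin (sub_nonneg.2 hb) h1
    rw [Real.sin_pi_sub] at h2
    refine le_trans ?_ h2
    rw [show 2 / π * (π - 2 * π * |x| / L) = 4 * (L / 2 - |x|) / L by field_simp; ring]
    gcongr
    exact min_le_right _ _

/-- the bounding function -/
def Bf (L x : ℝ) : ℝ := 1 / (1 + x ^ 2) + 1 / (1 + (x - L / 2) ^ 2) + 1 / (1 + (x + L / 2) ^ 2)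

theorem Bf_ge1 (L x : ℝ) : 1 / (1 + x ^ 2) ≤ Bf L x := by
  unfold Bf
  have h1 : 0 ≤ 1 / (1 + (x - L / 2) ^ 2) := by positivity
  have h2 : 0 ≤ 1 / (1 + (x + L / 2) ^ 2) := by positivity
  linarith

theorem Bf_ge2 (L x : ℝ) : 1 / (1 + (L / 2 - |x|) ^ 2) ≤ Bf L x := by
  unfold Bf
  have h0 : 0 ≤ 1 / (1 + x ^ 2) := by positivity
  have h1 : 0 ≤ 1 / (1 + (x - L / 2) ^ 2) := by positivity
  have h2 : 0 ≤ 1 / (1 + (x + L / 2) ^ 2) := by positivity
  rcases abs_choice x with h | h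
  · rw [h, show (L / 2 - x) ^ 2 = (x - L / 2) ^ 2 by ring]
    linarith
  · rw [h, show (L / 2 - -x) ^ 2 = (x + L / 2) ^ 2 by ring]
    linarith

theorem inv_sq_le {m : ℝ} (hm : 1 ≤ m) : 1 / m ^ 2 ≤ 2 / (1 + m ^ 2) := by
  rw [div_le_div_iff₀ (by positivity) (by positivity)]
  nlinarith

theorem inv_min_le {L x : ℝ} (h1 : 1 ≤ |x|) (h2 : 1 ≤ L / 2 - |x|) :
    1 / (min |x| (L / 2 - |x|)) ^ 2 ≤ 2 * Bf L x := by
  rcases min_choice |x| (L / 2 - |x|) with h | h
  · rw [h]
    refine (inv_sq_le h1).trans ?_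
    rw [sq_abs]
    have := Bf_ge1 L x
    rw [show 2 / (1 + x ^ 2) = 2 * (1 / (1 + x ^ 2)) by ring]
    linarith
  · rw [h]
    refine (inv_sq_le h2).trans ?_
    have := Bf_ge2 L x
    rw [show 2 / (1 + (L / 2 - |x|) ^ 2) = 2 * (1 / (1 + (L / 2 - |x|) ^ 2)) by ring]
    linarith

theorem q_le {L x : ℝ} (hL : 18 ≤ L) (h1 : 1 ≤ |x|) (h2 : 1 ≤ L / 2 - |x|) :
    Real.sinh (sw L) ^ 2 / Real.sin (2 * π * x / L) ^ 2 ≤
      2 / (min |x| (L / 2 - |x|)) ^ 2 := by
  have hL0 : 0 < L := by linarith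
  set m := min |x| (L / 2 - |x|) with hm
  have hm1 : 1 ≤ m := le_min h1 h2
  have a1 := sin_lb hL0 (x := x) (by linarith)
  rw [← hm] at a1
  have a2 := shs_le hL
  have a3 := sh_pos hL0
  have hp : 0 < 4 * m / L := by positivity
  rw [← sq_abs (Real.sin _)]
  calc Real.sinh (sw L) ^ 2 / |Real.sin (2 * π * x / L)| ^ 2 ≤ (5 / L) ^ 2 / (4 * m / L) ^ 2 := by
        gcongr
    _ = 25 / 16 / m ^ 2 := by
        field_simp
        ring
    _ ≤ 2 / m ^ 2 := by
        gcongr
        norm_num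

theorem tanh_posC {y : ℝ} (hy : 0 < y) : 0 < Real.tanh y := by
  rw [Real.tanh_eq_sinh_div_cosh]
  exact div_pos (Real.sinh_pos_iff.2 hy) (Real.cosh_pos y)

theorem tanh_le_oneC (y : ℝ) : Real.tanh y ≤ 1 := by
  rw [Real.tanh_eq_sinh_div_cosh, div_le_one (Real.cosh_pos y)]
  have := Real.cosh_sub_sinh y
  have h := Real.exp_pos (-y)
  linarith

theorem log_tanh_le {x : ℝ} (h1 : 1 ≤ |x|) :
    |Real.log (Real.tanh (2 * |x|))| ≤ 1 / (1 + x ^ 2) := by
  set y := 2 * |x| with hy
  have hy2 : 2 ≤ y := by linarith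
  have ht := tanh_posC (show 0 < y by linarith)
  have ht1 := tanh_le_oneC y
  have h0 : Real.log (Real.tanh y) ≤ 0 := Real.log_nonpos ht.le ht1
  rw [abs_of_nonpos h0]
  have h2 := Real.one_sub_inv_le_log_of_pos ht
  have hs : y ≤ Real.sinh y := Real.self_le_sinh_iff.2 (by linarith)
  have hs0 : 0 < Real.sinh y := by linarith
  have e1 : (Real.tanh y)⁻¹ - 1 = Real.exp (-y) / Real.sinh y := by
    rw [Real.tanh_eq_sinh_div_cosh, inv_div, ← Real.cosh_sub_sinh]
    field_simp
  have h3 : Real.exp (-y) ≤ 1 / (1 + x ^ 2) := by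
    rw [Real.exp_neg, ← one_div]
    have := Real.quadratic_le_exp_of_nonneg (show 0 ≤ y by linarith)
    have e : y ^ 2 = 4 * x ^ 2 := by rw [hy, mul_pow, sq_abs]; norm_num
    rw [e] at this
    apply one_div_le_one_div_of_le (by positivity)
    nlinarith [sq_nonneg x]
  have h4 : Real.exp (-y) / Real.sinh y ≤ Real.exp (-y) := by
    rw [div_le_iff₀ hs0]
    have := Real.exp_pos (-y)
    nlinarith
  linarith

theorem hw_far {L x : ℝ} (hL : 18 ≤ L) (h1 : 1 ≤ |x|) (h2 : 1 ≤ L / 2 - |x|) :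
    |hw L x| ≤ 3 * Bf L x := by
  have hL0 : 0 < L := by linarith
  have hx0 : x ≠ 0 := by
    intro h
    rw [h, abs_zero] at h1
    linarith
  have hsp : 0 < |Real.sin (2 * π * x / L)| := by
    have := sin_lb hL0 (x := x) (by linarith)
    have hm1 : 1 ≤ min |x| (L / 2 - |x|) := le_min h1 h2
    have hp : 0 < 4 * min |x| (L / 2 - |x|) / L := by positivity
    linarith
  have hsq : Real.sin (2 * π * x / L) ^ 2 = |Real.sin (2 * π * x / L)| ^ 2 := (sq_abs _).symm
  have hq := q_le hL h1 h2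
  have hm := inv_min_le h1 h2
  have e : hw L x = Real.log (Real.tanh (2 * |x|)) +
      1 / 2 * Real.log (1 + Real.sinh (sw L) ^ 2 / Real.sin (2 * π * x / L) ^ 2) := by
    rw [hw_eq hL0 hx0 (by linarith)]
    have e1 : Real.sin (2 * π * x / L) ^ 2 + Real.sinh (sw L) ^ 2 =
        |Real.sin (2 * π * x / L)| ^ 2 *
        (1 + Real.sinh (sw L) ^ 2 / Real.sin (2 * π * x / L) ^ 2) := by
      rw [hsq]
      field_simp
    rw [e1, Real.log_mul (by positivity) (by positivity), Real.log_pow]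
    push_cast
    ring
  have hl := log_tanh_le h1
  have hq0 : 0 ≤ Real.sinh (sw L) ^ 2 / Real.sin (2 * π * x / L) ^ 2 := by positivity
  have hl2 : |1 / 2 * Real.log (1 + Real.sinh (sw L) ^ 2 / Real.sin (2 * π * x / L) ^ 2)| ≤
      2 * Bf L x := by
    have a0 : 0 ≤ Real.log (1 + Real.sinh (sw L) ^ 2 / Real.sin (2 * π * x / L) ^ 2) :=
      Real.log_nonneg (by linarith)
    rw [abs_of_nonneg (by positivity)]
    have a1 := Real.log_le_sub_one_of_pos
      (show 0 < 1 + Real.sinh (sw L) ^ 2 / Real.sin (2 * π * x / L) ^ 2 by positivity)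
    have a2 : 2 / (min |x| (L / 2 - |x|)) ^ 2 = 2 * (1 / (min |x| (L / 2 - |x|)) ^ 2) := by ring
    linarith
  have hb := Bf_ge1 L x
  rw [e]
  refine (abs_add_le _ _).trans ?_
  linarith

theorem cosh_ge (x : ℝ) : (1 + x ^ 2) / 2 ≤ Real.cosh (2 * x) := by
  have h : ∀ y : ℝ, 0 ≤ y → (1 + y ^ 2) / 2 ≤ Real.cosh (2 * y) := by
    intro y hy
    have a := Real.quadratic_le_exp_of_nonneg (show 0 ≤ 2 * y by linarith)
    have b := Real.exp_pos (-(2 * y))
    rw [Real.cosh_eq]
    nlinarith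
  rcases le_total 0 x with h0 | h0
  · exact h x h0
  · have := h (-x) (by linarith)
    rw [mul_neg, Real.cosh_neg, neg_pow, even_two.neg_one_pow, one_mul] at this
    exact this

theorem hw1_far {L x : ℝ} (hL : 18 ≤ L) (h1 : 1 ≤ |x|) (h2 : 1 ≤ L / 2 - |x|) :
    |hw1 L x| ≤ 10 * Bf L x := by
  have hpi := Real.pi_pos
  have hL0 : 0 < L := by linarith
  have hx0 : x ≠ 0 := by
    intro h
    rw [h, abs_zero] at h1
    linarith
  have hm1 : 1 ≤ min |x| (L / 2 - |x|) := le_min h1 h2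
  have hlb := sin_lb hL0 (x := x) (by linarith)
  have hq := q_le hL h1 h2
  have hm := inv_min_le h1 h2
  set m := min |x| (L / 2 - |x|) with hmd
  have hp : 0 < 4 * m / L := by positivity
  have hsp : 0 < |Real.sin (2 * π * x / L)| := by linarith
  rw [hw1_eq hL0 hx0 (by linarith)]
  have hb := Bf_ge1 L x
  refine (abs_sub _ _).trans ?_
  have A : |2 / (Real.sinh (2 * x) * Real.cosh (2 * x))| ≤ 2 * Bf L x := by
    rw [abs_div, abs_mul, abs_of_pos (Real.cosh_pos _), abs_two]
    have a1 : 2 ≤ |Real.sinh (2 * x)| := by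
      have : 2 * |x| ≤ |Real.sinh (2 * x)| := by
        rcases le_total 0 x with h0 | h0
        · rw [abs_of_nonneg h0]
          exact (Real.self_le_sinh_iff.2 (by linarith)).trans (le_abs_self _)
        · rw [abs_of_nonpos h0, ← abs_neg, ← Real.sinh_neg]
          have : -(2 * x) ≤ Real.sinh (-(2 * x)) := Real.self_le_sinh_iff.2 (by linarith)
          exact (show 2 * -x ≤ Real.sinh (-(2 * x)) by linarith).trans (le_abs_self _)
      linarith
    have a2 := cosh_ge x
    have a3 : 2 / (|Real.sinh (2 * x)| * Real.cosh (2 * x)) ≤ 2 / (2 * ((1 + x ^ 2) / 2)) := by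
      gcongr
    refine a3.trans ?_
    rw [show 2 / (2 * ((1 + x ^ 2) / 2)) = 2 * (1 / (1 + x ^ 2)) by field_simp]
    linarith
  have B : |2 * π / L * (Real.cos (2 * π * x / L) * Real.sinh (sw L) ^ 2 /
        (Real.sin (2 * π * x / L) *
          (Real.sin (2 * π * x / L) ^ 2 + Real.sinh (sw L) ^ 2)))| ≤ 8 * Bf L x := by
    rw [abs_mul (2 * π / L), abs_of_pos (by positivity : (0:ℝ) < 2 * π / L), abs_div,
      abs_mul (Real.cos _), abs_mul (Real.sin _),
      abs_of_pos (den_pos hL0 _), abs_of_nonneg (sq_nonneg (Real.sinh (sw L)))]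
    have c1 : |Real.cos (2 * π * x / L)| ≤ 1 := Real.abs_cos_le_one _
    have c2 : 0 ≤ Real.sinh (sw L) ^ 2 := sq_nonneg _
    calc 2 * π / L * (|Real.cos (2 * π * x / L)| * Real.sinh (sw L) ^ 2 /
        (|Real.sin (2 * π * x / L)| *
          (Real.sin (2 * π * x / L) ^ 2 + Real.sinh (sw L) ^ 2))) ≤
        2 * π / L * (1 * Real.sinh (sw L) ^ 2 / ((4 * m / L) *
          (Real.sin (2 * π * x / L) ^ 2 + 0))) := by
          gcongr
          · have : 0 < Real.sin (2 * π * x / L) ^ 2 := by rw [← sq_abs]; positivity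
            positivity
      _ = π / (2 * m) * (Real.sinh (sw L) ^ 2 / Real.sin (2 * π * x / L) ^ 2) := by
          rw [← sq_abs (Real.sin _)]
          field_simp
          ring
      _ ≤ 4 / 2 * (2 / m ^ 2) := by
          gcongr
          · exact Real.pi_le_four
          · linarith
      _ = 4 * (1 / m ^ 2) := by ring
      _ ≤ 8 * Bf L x := by linarith
  linarith

theorem exists_bd {f : ℝ → ℝ} (R : ℝ) (hf : ContinuousOn f (Icc (-R) R)) :
    ∃ C : ℝ, 0 ≤ C ∧ ∀ x, |x| ≤ R → |f x| ≤ C := by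
  obtain ⟨C, hC⟩ := isCompact_Icc.exists_bound_of_continuousOn (s := Icc (-R) R) hf
  refine ⟨max C 0, le_max_right _ _, fun x hx => ?_⟩
  exact (hC x (abs_le.1 hx)).trans (le_max_left _ _)

theorem near : ∃ C : ℝ, 0 ≤ C ∧ ∀ L : ℝ, 18 ≤ L → ∀ x, |x| ≤ 1 →
    |hw L x| ≤ C ∧ |hw1 L x| ≤ C := by
  have hpi := Real.pi_pos
  have hpi3 := Real.pi_gt_three
  have hpi4 := Real.pi_le_four
  have cs := Sh_cont
  have cs1 := Sh1_cont
  have cn := Sn_cont
  have cn1 := Sn1_cont
  have hnp : ∀ y ∈ Icc (-1 : ℝ) 1, 0 < Sn y := by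
    intro y hy
    apply Sn_pos
    rw [abs_lt]
    constructor
    · linarith [hy.1]
    · linarith [hy.2]
  obtain ⟨C1, h10, h1⟩ := exists_bd (f := fun y => Real.log (Sh y)) 2
    (ContinuousOn.log cs.continuousOn fun y _ => (Sh_pos y).ne')
  obtain ⟨C2, h20, h2⟩ := exists_bd (f := fun y => Real.log (Real.cosh y)) 2
    (ContinuousOn.log Real.continuous_cosh.continuousOn fun y _ => (Real.cosh_pos y).ne')
  obtain ⟨C3, h30, h3⟩ := exists_bd (f := fun y => Real.log (Sn y)) 1
    (ContinuousOn.log cn.continuousOn fun y hy => (hnp y hy).ne')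
  obtain ⟨C4, h40, h4⟩ := exists_bd (f := fun y => deriv Sh y / Sh y) 2
    (ContinuousOn.div cs1.continuousOn cs.continuousOn fun y _ => (Sh_pos y).ne')
  obtain ⟨C5, h50, h5⟩ := exists_bd (f := fun y => Real.sinh y / Real.cosh y) 2
    (ContinuousOn.div Real.continuous_sinh.continuousOn Real.continuous_cosh.continuousOn
      fun y _ => (Real.cosh_pos y).ne')
  obtain ⟨C6, h60, h6⟩ := exists_bd (f := fun y => deriv Sn y / Sn y) 1
    (ContinuousOn.div cn1.continuousOn cn.continuousOn fun y hy => (hnp y hy).ne')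
  refine ⟨C1 + C2 + C3 + 2 * C4 + 2 * C5 + C6 + 10, by positivity, fun L hL x hx => ?_⟩
  have hL0 : 0 < L := by linarith
  have hs := sw_pos hL0
  have hx2 : |2 * x| ≤ 2 := by
    rw [abs_mul, abs_two]
    linarith
  have hth : |2 * π * x / L| ≤ 1 := by
    rw [abs_div, abs_mul, abs_of_pos hL0, abs_of_pos (by positivity : (0:ℝ) < 2 * π),
      div_le_one hL0]
    nlinarith
  have b1 := h1 _ hx2
  have b2 := h2 _ hx2
  have b3 := h3 _ hth
  have b4 := h4 _ hx2
  have b5 := h5 _ hx2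
  have b6 := h6 _ hth
  have hd := den_pos hL0 (2 * π * x / L)
  have hsh := sh_pos hL0
  constructor
  · have hA0 : 0 < (L / (2 * π)) ^ 2 *
        (Real.sin (2 * π * x / L) ^ 2 + Real.sinh (sw L) ^ 2) := by positivity
    have hA1 : (π / 8) ^ 2 ≤ (L / (2 * π)) ^ 2 *
        (Real.sin (2 * π * x / L) ^ 2 + Real.sinh (sw L) ^ 2) := by
      have e : (π / 8) ^ 2 = (L / (2 * π)) ^ 2 * (0 + sw L ^ 2) := by
        unfold sw
        field_simp
        ring
      rw [e]
      gcongr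
      · positivity
      · exact Real.self_le_sinh_iff.2 hs.le
    have hA2 : (L / (2 * π)) ^ 2 *
        (Real.sin (2 * π * x / L) ^ 2 + Real.sinh (sw L) ^ 2) ≤ 2 := by
      have c1 : Real.sin (2 * π * x / L) ^ 2 ≤ (2 * π * x / L) ^ 2 := by
        exact sq_le_sq.2 Real.abs_sin_le_abs
      have c2 : Real.sinh (sw L) ^ 2 ≤ (2 * sw L) ^ 2 := by
        gcongr
        exact sinh_le_two hs.le (sw_le hL)
      calc (L / (2 * π)) ^ 2 * (Real.sin (2 * π * x / L) ^ 2 + Real.sinh (sw L) ^ 2) ≤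
          (L / (2 * π)) ^ 2 * ((2 * π * x / L) ^ 2 + (2 * sw L) ^ 2) := by gcongr
        _ = x ^ 2 + (π / 4) ^ 2 := by
            unfold sw
            field_simp
        _ ≤ 2 := by
            rw [← sq_abs x]
            have : |x| ^ 2 ≤ 1 := by
              have := abs_nonneg x
              nlinarith
            nlinarith
    have hlog : |Real.log ((L / (2 * π)) ^ 2 *
        (Real.sin (2 * π * x / L) ^ 2 + Real.sinh (sw L) ^ 2))| ≤ 10 := by
      rw [abs_le]
      constructor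
      · have d1 := Real.one_sub_inv_le_log_of_pos hA0
        have d2 : ((L / (2 * π)) ^ 2 * (Real.sin (2 * π * x / L) ^ 2 + Real.sinh (sw L) ^ 2))⁻¹ ≤
            ((π / 8) ^ 2)⁻¹ := by
          gcongr
        have d3 : ((π / 8) ^ 2)⁻¹ ≤ 10 := by
          rw [inv_le_comm₀ (by positivity) (by norm_num)]
          nlinarith
        linarith
      · have d1 := Real.log_le_sub_one_of_pos hA0
        linarith
    unfold hw
    have hl2 : |Real.log 2| ≤ 1 := by
      rw [abs_of_pos (Real.log_pos (by norm_num))]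
      linarith [Real.log_two_lt_d9]
    refine (abs_add_le _ _).trans ?_
    refine (add_le_add (abs_sub _ _) le_rfl).trans ?_
    refine (add_le_add (add_le_add (abs_sub _ _) le_rfl) le_rfl).trans ?_
    refine (add_le_add (add_le_add (add_le_add (abs_add_le _ _) le_rfl) le_rfl) le_rfl).trans ?_
    rw [abs_mul, abs_of_pos (by norm_num : (0:ℝ) < 1 / 2)]
    linarith
  · have hlast : |2 * π / L * (Real.sin (2 * π * x / L) * Real.cos (2 * π * x / L) /
        (Real.sin (2 * π * x / L) ^ 2 + Real.sinh (sw L) ^ 2))| ≤ 2 := by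
      rw [abs_mul (2 * π / L), abs_of_pos (by positivity : (0:ℝ) < 2 * π / L), abs_div,
        abs_mul (Real.sin _), abs_of_pos hd]
      have c1 : |Real.cos (2 * π * x / L)| ≤ 1 := Real.abs_cos_le_one _
      have c3 : sw L ≤ Real.sinh (sw L) := Real.self_le_sinh_iff.2 hs.le
      have c2 : |Real.sin (2 * π * x / L)| * |Real.cos (2 * π * x / L)| /
          (Real.sin (2 * π * x / L) ^ 2 + Real.sinh (sw L) ^ 2) ≤ 1 / (2 * sw L) := by
        rw [div_le_div_iff₀ hd (by positivity), ← sq_abs (Real.sin _)]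
        have d0 := abs_nonneg (Real.sin (2 * π * x / L))
        have d1 : |Real.sin (2 * π * x / L)| * |Real.cos (2 * π * x / L)| ≤
            |Real.sin (2 * π * x / L)| * 1 := by gcongr
        have d2 : |Real.sin (2 * π * x / L)| * |Real.cos (2 * π * x / L)| * (2 * sw L) ≤
            |Real.sin (2 * π * x / L)| * 1 * (2 * Real.sinh (sw L)) := by gcongr
        nlinarith [sq_nonneg (|Real.sin (2 * π * x / L)| - Real.sinh (sw L))]
      calc 2 * π / L * (|Real.sin (2 * π * x / L)| * |Real.cos (2 * π * x / L)| /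
          (Real.sin (2 * π * x / L) ^ 2 + Real.sinh (sw L) ^ 2)) ≤
          2 * π / L * (1 / (2 * sw L)) := by gcongr
        _ = 4 / π := by
            unfold sw
            field_simp
        _ ≤ 2 := by
            rw [div_le_iff₀ hpi]
            linarith
    have hmid : |2 * π / L * (deriv Sn (2 * π * x / L) / Sn (2 * π * x / L))| ≤ C6 := by
      rw [abs_mul, abs_of_pos (by positivity : (0:ℝ) < 2 * π / L)]
      have c1 : 2 * π / L ≤ 1 := by
        rw [div_le_one hL0]
        linarith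
      calc 2 * π / L * |deriv Sn (2 * π * x / L) / Sn (2 * π * x / L)| ≤ 1 * C6 := by gcongr
        _ = C6 := one_mul _
    unfold hw1
    refine (abs_add_le _ _).trans ?_
    refine (add_le_add (abs_sub _ _) le_rfl).trans ?_
    refine (add_le_add (add_le_add (abs_sub _ _) le_rfl) le_rfl).trans ?_
    rw [abs_mul, abs_mul, abs_two]
    linarith

/-- the smooth remainder of the wall -/
def gw (T L x : ℝ) : ℝ := cb T x * hw L x

/-- its derivative -/
def gw1 (T L x : ℝ) : ℝ := cb1 T x * hw L x + cb T x * hw1 L x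

theorem gw_zero {x : ℝ} (hx : T + 1 < |x|) : gw T L x = 0 := by
  unfold gw
  rw [cb_zero hx, zero_mul]

theorem gw1_zero {x : ℝ} (hx : T + 1 < |x|) : gw1 T L x = 0 := by
  unfold gw1
  rw [cb_zero hx, cb1_zero hx, zero_mul, zero_mul, add_zero]

theorem gw_hd (hL : T + 1 < L / 2) (hL0 : 0 < L) (x : ℝ) :
    HasDerivAt (gw T L) (gw1 T L x) x := by
  rcases lt_or_ge |x| (L / 2) with h | h
  · exact (cb_hd T x).mul (hw_hd hL0 h)
  · have hx : T + 1 < |x| := by linarith
    rw [gw1_zero hx]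
    have ho : IsOpen {y : ℝ | T + 1 < |y|} := isOpen_lt continuous_const continuous_abs
    have e : gw T L =ᶠ[𝓝 x] fun _ => (0 : ℝ) := by
      filter_upwards [ho.mem_nhds hx] with y hy
      exact gw_zero hy
    exact (hasDerivAt_const x (0 : ℝ)).congr_of_eventuallyEq e

theorem cb1_cont (R : ℝ) : Continuous (cb1 R) := by
  have hc : Continuous (deriv Real.smoothTransition) :=
    (Real.smoothTransition.contDiff (n := 1)).continuous_deriv le_rfl
  have hs := Real.smoothTransition.continuous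
  unfold cb1
  fun_prop

theorem gw_cont (hL : T + 1 < L / 2) (hL0 : 0 < L) : Continuous (gw T L) :=
  continuous_iff_continuousAt.2 fun x => (gw_hd hL hL0 x).continuousAt

theorem gw1_cont (hL : T + 1 < L / 2) (hL0 : 0 < L) : Continuous (gw1 T L) := by
  rw [continuous_iff_continuousAt]
  intro x
  rcases lt_or_ge |x| (L / 2) with h | h
  · unfold gw1
    exact ((cb1_cont T).continuousAt.mul (hw_hd hL0 h).continuousAt).add
      ((cb_hd T x).continuousAt.mul (hw1_contAt hL0 h))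
  · have hx : T + 1 < |x| := by linarith
    have ho : IsOpen {y : ℝ | T + 1 < |y|} := isOpen_lt continuous_const continuous_abs
    have e : (fun _ => (0 : ℝ)) =ᶠ[𝓝 x] gw1 T L := by
      filter_upwards [ho.mem_nhds hx] with y hy
      exact (gw1_zero hy).symm
    exact continuousAt_const.congr e

theorem cb_even (R x : ℝ) : cb R (-x) = cb R x := by
  unfold cb
  rw [sub_neg_eq_add, mul_comm, ← sub_eq_add_neg]

theorem hw_even (L x : ℝ) : hw L (-x) = hw L x := by
  unfold hw
  have e : 2 * π * -x / L = -(2 * π * x / L) := by ring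
  rw [mul_neg, Sh_neg, Real.cosh_neg, e, Sn_neg, Real.sin_neg, neg_sq]

theorem gw_even (T L x : ℝ) : gw T L (-x) = gw T L x := by
  unfold gw
  rw [cb_even, hw_even]

theorem gw_eq (hL : T + 1 < L / 2) (hL0 : 0 < L) {x : ℝ} (hx0 : x ≠ 0) (hx : |x| ≤ T) :
    gw T L x = Real.log (Real.tanh (2 * |x|)) - Real.log |Real.sin (2 * π * x / L)| +
      1 / 2 * Real.log (Real.sin (2 * π * x / L) ^ 2 + Real.sinh (sw L) ^ 2) := by
  unfold gw
  rw [cb_one hx, one_mul, hw_eq hL0 hx0 (by linarith)]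

/-- pointwise bounds -/
theorem gw_bound : ∃ C : ℝ, 0 ≤ C ∧ ∀ T L : ℝ, 0 ≤ T → T + 9 ≤ L / 2 → ∀ x,
    |gw T L x| ≤ C * Bf L x ∧ |gw1 T L x| ≤ C * Bf L x := by
  obtain ⟨C, hC0, hC⟩ := near
  obtain ⟨D, hD0, hD⟩ := exists_cb
  refine ⟨(2 * C + 3) * (D + 1) + (2 * C + 10), by positivity, fun T L hT hL x => ?_⟩
  have hB0 : 0 ≤ Bf L x := by
    unfold Bf
    positivity
  rcases lt_or_ge (T + 1) |x| with h | h
  · rw [gw_zero h, gw1_zero h, abs_zero]
    constructor <;> positivity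
  · have hd := hD T hT
    have hc1 := hd.le1 x
    have hc0 := cb_nonneg T x
    have hcl := cb_le T x
    have hwb : |hw L x| ≤ (2 * C + 3) * Bf L x ∧ |hw1 L x| ≤ (2 * C + 10) * Bf L x := by
      rcases le_or_gt |x| 1 with h1 | h1
      · have hb := hC L (by linarith) x h1
        have hb1 := Bf_ge1 L x
        have hx2 : x ^ 2 ≤ 1 := by
          rw [← sq_abs]
          have := abs_nonneg x
          nlinarith
        have hh : 1 / 2 ≤ 1 / (1 + x ^ 2) := by
          apply one_div_le_one_div_of_le (by positivity)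
          linarith
        have hf : C ≤ 2 * C * Bf L x := by nlinarith
        constructor
        · nlinarith [hb.1]
        · nlinarith [hb.2]
      · have f1 := hw_far (L := L) (x := x) (by linarith) h1.le (by linarith)
        have f2 := hw1_far (L := L) (x := x) (by linarith) h1.le (by linarith)
        constructor
        · nlinarith [mul_nonneg hC0 hB0]
        · nlinarith [mul_nonneg hC0 hB0]
    have hp1 : |gw T L x| ≤ (2 * C + 3) * Bf L x := by
      unfold gw
      rw [abs_mul, abs_of_nonneg hc0]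
      have := hwb.1
      nlinarith [abs_nonneg (hw L x)]
    have hp2 : |gw1 T L x| ≤ D * ((2 * C + 3) * Bf L x) + (2 * C + 10) * Bf L x := by
      unfold gw1
      refine (abs_add_le _ _).trans ?_
      rw [abs_mul, abs_mul, abs_of_nonneg hc0]
      have h1 := hwb.1
      have h2 := hwb.2
      have e1 : |cb1 T x| * |hw L x| ≤ D * ((2 * C + 3) * Bf L x) := by gcongr
      have e2 : cb T x * |hw1 L x| ≤ 1 * ((2 * C + 10) * Bf L x) := by gcongr
      linarith
    constructor
    · nlinarith [mul_nonneg hC0 hB0, mul_nonneg hD0 hB0, mul_nonneg (mul_nonneg hC0 hB0) hD0]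
    · nlinarith [mul_nonneg hC0 hB0, mul_nonneg hD0 hB0, mul_nonneg (mul_nonneg hC0 hB0) hD0]

theorem Bf_nonneg (L x : ℝ) : 0 ≤ Bf L x := by
  unfold Bf
  positivity

theorem Bf_le (L x : ℝ) : Bf L x ≤ 3 := by
  have h : ∀ y : ℝ, 1 / (1 + y ^ 2) ≤ 1 := fun y => by
    rw [div_le_one (by positivity)]
    nlinarith [sq_nonneg y]
  unfold Bf
  linarith [h x, h (x - L / 2), h (x + L / 2)]

theorem Bf_sq (L x : ℝ) : Bf L x ^ 2 ≤ 3 * Bf L x := by
  nlinarith [Bf_nonneg L x, Bf_le L x]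

theorem Bf_cont (L : ℝ) : Continuous (Bf L) := by
  unfold Bf
  refine Continuous.add (Continuous.add ?_ ?_) ?_
  · exact continuous_const.div (by fun_prop) fun x => by positivity
  · exact continuous_const.div (by fun_prop) fun x => by positivity
  · exact continuous_const.div (by fun_prop) fun x => by positivity

theorem int_one (a b : ℝ) : ∫ x in a..b, 1 / (1 + x ^ 2) ≤ π := by
  rw [integral_one_div_one_add_sq]
  have h1 := Real.arctan_lt_pi_div_two b
  have h2 := Real.neg_pi_div_two_lt_arctan a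
  linarith

theorem Bf_int (L a b : ℝ) : ∫ x in a..b, Bf L x ≤ 3 * π := by
  have c1 : Continuous fun x : ℝ => 1 / (1 + x ^ 2) :=
    continuous_const.div (by fun_prop) fun x => by positivity
  have c2 : Continuous fun x : ℝ => 1 / (1 + (x - L / 2) ^ 2) :=
    continuous_const.div (by fun_prop) fun x => by positivity
  have c3 : Continuous fun x : ℝ => 1 / (1 + (x + L / 2) ^ 2) :=
    continuous_const.div (by fun_prop) fun x => by positivity
  have e0 : ∫ x in a..b, Bf L x = (∫ x in a..b, 1 / (1 + x ^ 2)) +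
      (∫ x in a..b, 1 / (1 + (x - L / 2) ^ 2)) + ∫ x in a..b, 1 / (1 + (x + L / 2) ^ 2) := by
    have c12 : Continuous fun x : ℝ => 1 / (1 + x ^ 2) + 1 / (1 + (x - L / 2) ^ 2) := c1.add c2
    rw [← intervalIntegral.integral_add (c1.intervalIntegrable _ _) (c2.intervalIntegrable _ _),
      ← intervalIntegral.integral_add (c12.intervalIntegrable _ _)
      (c3.intervalIntegrable _ _)]
    rfl
  rw [e0]
  have e2 : ∫ x in a..b, 1 / (1 + (x - L / 2) ^ 2) =
      ∫ x in (a - L / 2)..(b - L / 2), 1 / (1 + x ^ 2) :=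
    intervalIntegral.integral_comp_sub_right (fun x => 1 / (1 + x ^ 2)) (L / 2)
  have e3 : ∫ x in a..b, 1 / (1 + (x + L / 2) ^ 2) =
      ∫ x in (a + L / 2)..(b + L / 2), 1 / (1 + x ^ 2) :=
    intervalIntegral.integral_comp_add_right (fun x => 1 / (1 + x ^ 2)) (L / 2)
  rw [e2, e3]
  linarith [int_one a b, int_one (a - L / 2) (b - L / 2), int_one (a + L / 2) (b + L / 2)]

theorem sq_int {f : ℝ → ℝ} (hf : Continuous f) {C L : ℝ}
    (h : ∀ x, |f x| ≤ C * Bf L x) {a b : ℝ} (hab : a ≤ b) :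
    ∫ x in a..b, f x ^ 2 ≤ 3 * C ^ 2 * (3 * π) := by
  have h1 : ∫ x in a..b, f x ^ 2 ≤ ∫ x in a..b, 3 * C ^ 2 * Bf L x := by
    apply intervalIntegral.integral_mono hab
    · exact (hf.pow 2).intervalIntegrable _ _
    · exact ((Bf_cont L).const_mul _).intervalIntegrable _ _
    · intro x
      have h2 := h x
      have h3 := Bf_sq L x
      show f x ^ 2 ≤ 3 * C ^ 2 * Bf L x
      calc f x ^ 2 = |f x| ^ 2 := (sq_abs _).symm
        _ ≤ (C * Bf L x) ^ 2 := by gcongr
        _ = C ^ 2 * Bf L x ^ 2 := by ring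
        _ ≤ C ^ 2 * (3 * Bf L x) := by gcongr
        _ = _ := by ring
  rw [intervalIntegral.integral_const_mul] at h1
  refine h1.trans ?_
  gcongr
  exact Bf_int L a b

/-- **the smooth remainder of the wall: uniform bounds** -/
theorem gw_main : ∃ C : ℝ, 0 ≤ C ∧ ∀ T G L : ℝ, 0 < T → 9 ≤ G → L = 2 * T + 2 * G →
    (∀ x, HasDerivAt (gw T L) (gw1 T L x) x) ∧ Continuous (gw1 T L) ∧
    (∀ x, gw T L (-x) = gw T L x) ∧ (∀ x, T + 1 < |x| → gw T L x = 0) ∧
    (∀ x, x ≠ 0 → |x| ≤ T → gw T L x = Real.log (Real.tanh (2 * |x|)) -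
      Real.log |Real.sin (2 * π * x / L)| +
      1 / 2 * Real.log (Real.sin (2 * π * x / L) ^ 2 + Real.sinh (sw L) ^ 2)) ∧
    (∀ x, |gw T L x| ≤ C) ∧ (∀ x, |gw1 T L x| ≤ C) ∧
    (∫ x in (-(L / 2))..(L / 2), gw T L x ^ 2) ≤ C ∧
    (∫ x in (-(L / 2))..(L / 2), gw1 T L x ^ 2) ≤ C := by
  obtain ⟨C, hC0, hC⟩ := gw_bound
  have hpi := Real.pi_pos
  refine ⟨3 * C + 3 * C ^ 2 * (3 * π), by positivity, fun T G L hT hG hL => ?_⟩
  have hL0 : 0 < L := by linarith
  have hL1 : T + 1 < L / 2 := by linarith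
  have hL2 : T + 9 ≤ L / 2 := by linarith
  have hb := hC T L hT.le hL2
  have hsq : 0 ≤ 3 * C ^ 2 * (3 * π) := by positivity
  refine ⟨gw_hd hL1 hL0, gw1_cont hL1 hL0, gw_even T L, fun x hx => gw_zero hx,
    fun x hx0 hx => gw_eq hL1 hL0 hx0 hx, fun x => ?_, fun x => ?_, ?_, ?_⟩
  · have := (hb x).1
    have := Bf_le L x
    nlinarith
  · have := (hb x).2
    have := Bf_le L x
    nlinarith
  · have := sq_int (gw_cont hL1 hL0) (fun x => (hb x).1)
      (show -(L / 2) ≤ L / 2 by linarith)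
    linarith
  · have := sq_int (gw1_cont hL1 hL0) (fun x => (hb x).2)
      (show -(L / 2) ≤ L / 2 by linarith)
    linarith

end

end TCW
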