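import Pool.Agent.TC.OneCX
import Pool.Agent.TC.WallC
import Pool.Agent.NUH0.ShH0

/-!
# Folded gas, one component: the constants on the window

`be x = tanh (2 |x|)`, `E = chi T * φ + gw T (Lw T)`: class `C1P`, wall inequality, bound of the
constant `BTC` by the energies on the line.
-/

set_option autoImplicit false

open MeasureTheory Set Filter Topology
open scoped Real ENNReal

namespace TCO

open Pool.Agent.FSz NUMF NUWC NUC37 NUH0 TCW NUKer NUDi NUMFC

noncomputable section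

/-- the wall on the line -/
def tw (x : ℝ) : ℝ := Real.tanh (2 * |x|)

lemma tw_nonneg (x : ℝ) : 0 ≤ tw x := by
  unfold tw
  rw [Real.tanh_eq_sinh_div_cosh]
  exact div_nonneg (Real.sinh_nonneg_iff.2 (by positivity)) (Real.cosh_pos _).le

lemma tw_pos {x : ℝ} (hx : x ≠ 0) : 0 < tw x := by
  unfold tw
  rw [Real.tanh_eq_sinh_div_cosh]
  exact div_pos (Real.sinh_pos_iff.2 (by positivity)) (Real.cosh_pos _)

lemma tw_even (x : ℝ) : tw (-x) = tw x := by
  unfold tw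
  rw [abs_neg]

lemma tw_le (x : ℝ) : tw x ≤ 1 := by
  unfold tw
  rw [Real.tanh_eq_sinh_div_cosh, div_le_one (Real.cosh_pos _)]
  exact (Real.sinh_lt_cosh _).le

lemma tw_cont : Continuous tw := by
  unfold tw
  have : Continuous fun x : ℝ => Real.sinh (2 * |x|) / Real.cosh (2 * |x|) :=
    (Real.continuous_sinh.comp (by fun_prop)).div (Real.continuous_cosh.comp (by fun_prop))
      fun x => (Real.cosh_pos _).ne'
  refine this.congr fun x => ?_
  rw [Real.tanh_eq_sinh_div_cosh]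

/-- the extra potential on the circle -/
def Eg (T : ℝ) (φ : ℝ → ℝ) (t : ℝ) : ℝ := chi T t * φ t + gw T (Lw T) t

/-- its derivative -/
def Eg' (T : ℝ) (φ φ' : ℝ → ℝ) (t : ℝ) : ℝ :=
  (chi' T t * φ t + chi T t * φ' t) + gw1 T (Lw T) t

variable {T : ℝ} {φ φ' : ℝ → ℝ}

lemma gw_C1P (hT : 0 < T) : C1P (Lw T) (gw T (Lw T)) (gw1 T (Lw T)) := by
  obtain ⟨C, -, hC⟩ := gw_main
  obtain ⟨h1, h2, h3, h4, -⟩ := hC T (Gw T) (Lw T) hT (Gw_ge hT.le) rfl
  exact ⟨fun x _ => (h1 x).continuousAt.continuousWithinAt, fun x _ => h1 x, h2.continuousOn, h3 _⟩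

lemma Eg_C1P (hT : 0 < T) (hd : ∀ t, HasDerivAt φ (φ' t) t) (hc : Continuous φ') :
    C1P (Lw T) (Eg T φ) (Eg' T φ φ') := by
  have hL := Lw_pos hT.le
  have hTL : 2 * T + 2 ≤ Lw T := by linarith [Lw_ge hT.le]
  have h1 := cut_C1P hL hTL (fun x _ => hd x) hc.continuousOn
  have h2 := C1P.lin h1 (gw_C1P hT) 1
  simp only [one_mul] at h2
  exact h2

lemma gw_ev (hT : 0 < T) (x : ℝ) : gw T (Lw T) (-x) = gw T (Lw T) x := by
  obtain ⟨C, -, hC⟩ := gw_main
  exact (hC T (Gw T) (Lw T) hT (Gw_ge hT.le) rfl).2.2.1 x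

lemma Eg_even (hT : 0 < T) (hφ : ∀ x, φ (-x) = φ x) (x : ℝ) : Eg T φ (-x) = Eg T φ x := by
  unfold Eg
  rw [chi_even, hφ, gw_ev hT]

lemma sin_pos_of {L x : ℝ} (hL : 0 < L) (hx : 0 < x) (hx' : x < L / 2) :
    0 < Real.sin (2 * π * x / L) := by
  have hpi := Real.pi_pos
  apply Real.sin_pos_of_pos_of_lt_pi
  · positivity
  · rw [div_lt_iff₀ hL]
    nlinarith

lemma exp_lwc {L x : ℝ} (hL : 0 < L) (hx : 0 < x) (hx' : x < L / 2) :
    Real.exp (lwc L x) = wlc L x := by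
  have hs := sin_pos_of hL hx hx'
  have h0 : 0 < Real.sin (2 * π * x / L) ^ 2 + Real.sinh (sw L) ^ 2 := by positivity
  unfold lwc wlc
  rw [abs_of_pos hs, Real.exp_sub, Real.exp_log hs]
  congr 1
  rw [show 1 / 2 * Real.log (Real.sin (2 * π * x / L) ^ 2 + Real.sinh (sw L) ^ 2) =
    Real.log (Real.sin (2 * π * x / L) ^ 2 + Real.sinh (sw L) ^ 2) / 2 by ring,
    ← Real.log_sqrt h0.le, Real.exp_log (Real.sqrt_pos.2 h0)]

/-- on the window `gw + lwc = log tanh` -/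
lemma gw_lwc (hT : 0 < T) {x : ℝ} (hx0 : x ≠ 0) (hx : |x| ≤ T) :
    gw T (Lw T) x + lwc (Lw T) x = Real.log (tw x) := by
  obtain ⟨C, -, hC⟩ := gw_main
  rw [(hC T (Gw T) (Lw T) hT (Gw_ge hT.le) rfl).2.2.2.2.1 x hx0 hx]
  unfold lwc tw
  ring

/-- the wall inequality -/
lemma Eg_wall (hT : 0 < T) (x : ℝ) (hx : 0 < x) (hx' : x ≤ T) :
    tw x * Real.exp (φ x) ≤ wlc (Lw T) x * Real.exp (Eg T φ x) := by
  have hL := Lw_pos hT.le
  have hTL : 2 * T + 18 ≤ Lw T := Lw_ge hT.le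
  have h1 := gw_lwc hT hx.ne' (by rw [abs_of_pos hx]; exact hx')
  have h2 := tw_pos hx.ne'
  unfold Eg
  rw [chi_in (by rw [abs_of_pos hx]; exact hx'), one_mul, Real.exp_add,
    ← exp_lwc hL hx (by linarith)]
  have e : tw x = Real.exp (gw T (Lw T) x) * Real.exp (lwc (Lw T) x) := by
    rw [← Real.exp_add, h1, Real.exp_log h2]
  rw [e]
  exact le_of_eq (by ring)

/-! ### the wall against the density -/

variable {L : ℝ}

lemma lwc_intv (hL : 0 < L) (a b : ℝ) : IntervalIntegrable (lwc L) volume a b := by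
  unfold lwc
  refine (logsin_int hL a b).sub (Continuous.intervalIntegrable ?_ _ _)
  have hs : 0 < Real.sinh (sw L) := Real.sinh_pos_iff.2 (sw_pos hL)
  refine continuous_const.mul (Continuous.log (by fun_prop) fun x => ?_)
  positivity

lemma lwc_nonpos {x : ℝ} (hx : Real.sin (2 * π * x / L) ≠ 0) : lwc L x ≤ 0 := by
  have h0 : 0 < Real.sin (2 * π * x / L) ^ 2 := by positivity
  have h1 : Real.log (Real.sin (2 * π * x / L) ^ 2) = 2 * Real.log |Real.sin (2 * π * x / L)| := by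
    rw [Real.log_pow, Real.log_abs]
    push_cast
    ring
  have h2 : Real.log (Real.sin (2 * π * x / L) ^ 2) ≤
      Real.log (Real.sin (2 * π * x / L) ^ 2 + Real.sinh (sw L) ^ 2) :=
    Real.log_le_log h0 (by nlinarith [sq_nonneg (Real.sinh (sw L))])
  unfold lwc
  linarith

lemma am_one (hL : 0 < L) (p : ℕ) : am L (fun _ => 1) p = 0 := by
  unfold am
  have hp : (0 : ℝ) < (p : ℝ) + 1 := by positivity
  have hpi := Real.pi_pos
  have h1 : ∀ x ∈ uIcc (-(L / 2)) (L / 2), HasDerivAt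
      (fun x => L / (2 * π * ((p : ℝ) + 1)) * Real.sin (((p : ℝ) + 1) * (2 * π * x / L)))
      (1 * Real.cos (((p : ℝ) + 1) * (2 * π * x / L))) x := by
    intro x _
    have h2 : HasDerivAt (fun x : ℝ => ((p : ℝ) + 1) * (2 * π * x / L))
        (((p : ℝ) + 1) * (2 * π / L)) x := by
      have := (((hasDerivAt_id x).const_mul (2 * π)).div_const L).const_mul ((p : ℝ) + 1)
      simpa using this
    refine HasDerivAt.congr_deriv (h2.sin.const_mul _) ?_
    field_simp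
  rw [intervalIntegral.integral_eq_sub_of_hasDerivAt h1
    (Continuous.intervalIntegrable (by fun_prop) _ _)]
  have e1 : ((p : ℝ) + 1) * (2 * π * (L / 2) / L) = ((p + 1 : ℕ) : ℝ) * π := by
    push_cast
    field_simp
  have e2 : ((p : ℝ) + 1) * (2 * π * (-(L / 2)) / L) = -(((p + 1 : ℕ) : ℝ) * π) := by
    push_cast
    field_simp
  rw [e1, e2, Real.sin_neg, Real.sin_nat_mul_pi]
  ring

lemma int_lwc (hL : 0 < L) : ∫ x in (-(L / 2))..(L / 2), lwc L x = -(π ^ 2 / 4) := by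
  have h := (wall_pars hL (ρ := fun _ => 1) continuous_const).tsum_eq
  have h0 : (fun p : ℕ => L * (fc L (fun _ => 1) (p + 1)).re * wz L p) = fun _ => 0 := by
    funext p
    rw [fc_am hL continuous_const, am_one hL, zero_mul]
  rw [h0, tsum_zero] at h
  have e : (∫ x in (-(L / 2))..(L / 2), (1 : ℝ)) = L := by
    rw [intervalIntegral.integral_const, smul_eq_mul, mul_one]
    ring
  have e2 : (∫ x in (-(L / 2))..(L / 2), (1 : ℝ) * (Real.log |Real.sin (2 * π * x / L)| -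
      1 / 2 * Real.log (Real.sin (2 * π * x / L) ^ 2 + Real.sinh (sw L) ^ 2))) =
      ∫ x in (-(L / 2))..(L / 2), lwc L x := by
    refine intervalIntegral.integral_congr fun x _ => ?_
    simp only [one_mul]
    rfl
  rw [e, e2] at h
  have e3 : sw L * L = π ^ 2 / 4 := by
    unfold sw
    field_simp
  linarith

/-- the wall has a finite total weight on the circle -/
lemma int_abs_lwc (hL : 0 < L) : IntegrableOn (fun x => |lwc L x|) (Ioc (-(L / 2)) (L / 2)) ∧
    ∫ x in Ioc (-(L / 2)) (L / 2), |lwc L x| ≤ 3 := by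
  have hle : -(L / 2) ≤ L / 2 := by linarith
  have h1 := (lwc_intv hL (-(L / 2)) (L / 2)).1
  refine ⟨h1.abs, ?_⟩
  have h2 : ∫ x in Ioc (-(L / 2)) (L / 2), |lwc L x| = ∫ x in Ioc (-(L / 2)) (L / 2), -lwc L x := by
    refine setIntegral_congr_ae measurableSet_Ioc ?_
    filter_upwards [sin_ne_ae hL] with x hx hI
    rw [abs_of_nonpos (lwc_nonpos (hx (by rw [uIoc_of_le hle]; exact hI)))]
  rw [h2, integral_neg, ← intervalIntegral.integral_of_le hle, int_lwc hL]
  have := Real.pi_lt_d2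
  have := Real.pi_pos
  nlinarith

lemma log_tw_abs {x : ℝ} (hx : 1 ≤ |x|) : |Real.log (tw x)| ≤ 1 := by
  have h0 : x ≠ 0 := by
    intro h
    rw [h, abs_zero] at hx
    linarith
  have h1 := tw_pos h0
  rw [abs_of_nonpos (Real.log_nonpos h1.le (tw_le x))]
  have h2 : Real.exp (-1) ≤ tw x := by
    unfold tw
    rw [Real.tanh_eq_sinh_div_cosh, le_div_iff₀ (Real.cosh_pos _), Real.sinh_eq, Real.cosh_eq]
    have h3 : Real.exp (-(2 * |x|)) ≤ Real.exp (-2) := Real.exp_le_exp.2 (by linarith)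
    have h4 : Real.exp 2 ≤ Real.exp (2 * |x|) := Real.exp_le_exp.2 (by linarith)
    have h5 : Real.exp (-2) ≤ 1 / 2 := by
      rw [Real.exp_neg, inv_eq_one_div]
      apply one_div_le_one_div_of_le (by norm_num)
      have := Real.add_one_le_exp (2 : ℝ)
      linarith
    have h6 : Real.exp (-1) ≤ 1 / 2 := by
      rw [Real.exp_neg, inv_eq_one_div]
      apply one_div_le_one_div_of_le (by norm_num)
      have := Real.add_one_le_exp (1 : ℝ)
      linarith
    have h7 := Real.add_one_le_exp (2 : ℝ)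
    have h8 := Real.exp_pos (-(2 * |x|))
    have h9 := Real.exp_pos (-1)
    nlinarith
  have h3 := Real.log_le_log (Real.exp_pos _) h2
  rw [Real.log_exp] at h3
  linarith

lemma gw_facts : ∃ C : ℝ, 0 ≤ C ∧ ∀ T : ℝ, 0 < T → Continuous (gw T (Lw T)) ∧
    (∀ x, |gw T (Lw T) x| ≤ C) ∧ Qt (Gw T) (Lw T) (gw T (Lw T)) ≤ C ∧
    ∀ x, T + 1 < |x| → gw T (Lw T) x = 0 := by
  obtain ⟨C, hC0, hC⟩ := gw_main
  refine ⟨3 * C, by linarith, fun T hT => ?_⟩
  obtain ⟨h1, h2, h3, h4, h5, h6, h7, h8, h9⟩ := hC T (Gw T) (Lw T) hT (Gw_ge hT.le) rfl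
  refine ⟨continuous_iff_continuousAt.2 fun x => (h1 x).continuousAt, fun x => (h6 x).trans (by linarith),
    ?_, h4⟩
  refine (Qt_le (Gw_ge hT.le) (Lw_pos hT.le) (gw_C1P hT)).trans ?_
  have hL := Lw_pos hT.le
  have h10 : √((∫ x in (-(Lw T / 2))..(Lw T / 2), gw T (Lw T) x ^ 2) *
      ∫ x in (-(Lw T / 2))..(Lw T / 2), gw1 T (Lw T) x ^ 2) ≤ C := by
    rw [Real.sqrt_le_left hC0, sq]
    refine mul_le_mul h8 h9 (intervalIntegral.integral_nonneg (by linarith) fun x _ => sq_nonneg _) hC0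
  linarith

lemma log_tw_int (hT : 0 < T) : IntegrableOn (fun x => Real.log (tw x)) (Icc (-T) T) := by
  have hL := Lw_pos hT.le
  obtain ⟨C, -, hC⟩ := gw_facts
  have hgc := (hC T hT).1
  have h1 : IntegrableOn (fun x => gw T (Lw T) x + lwc (Lw T) x) (Icc (-T) T) := by
    refine (hgc.continuousOn.integrableOn_Icc).add ?_
    rw [integrableOn_Icc_iff_integrableOn_Ioc]
    exact (lwc_intv hL (-T) T).1
  refine h1.congr ?_
  have hne : ∀ᵐ x : ℝ, x ≠ 0 := by simp [ae_iff, measure_singleton]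
  filter_upwards [ae_restrict_of_ae hne, ae_restrict_mem measurableSet_Icc] with x hx0 hx
  exact gw_lwc hT hx0 (abs_le.2 hx)

lemma mem_Icc_abs {x R : ℝ} : x ∈ Icc (-R) R ↔ |x| ≤ R := abs_le.symm

lemma rho_log_tw {M : ℝ} {ρ : ℝ → ℝ} (hρ : Integrable ρ) (hM : ∀ s, |ρ s| ≤ M) :
    Integrable fun x => ρ x * Real.log (tw x) := by
  rw [← integrableOn_univ, ← union_compl_self (Icc (-1 : ℝ) 1)]
  refine IntegrableOn.union ?_ ?_
  · exact (log_tw_int one_pos).bdd_mul hρ.aestronglyMeasurable.restrict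
      (Eventually.of_forall fun s => by rw [Real.norm_eq_abs]; exact hM s)
  · refine Integrable.mono' hρ.abs.integrableOn ?_ ?_
    · exact (hρ.aestronglyMeasurable.restrict.mul
        (Real.measurable_log.comp tw_cont.measurable).aestronglyMeasurable)
    · filter_upwards [ae_restrict_mem measurableSet_Icc.compl] with x hx
      rw [mem_compl_iff, mem_Icc_abs, not_le] at hx
      rw [Real.norm_eq_abs, abs_mul]
      exact mul_le_of_le_one_right (abs_nonneg _) (log_tw_abs hx.le)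

/-- **the wall against the density** -/
theorem wall_dens : ∃ C : ℝ, 0 ≤ C ∧ ∀ {T δ M : ℝ} {ρ : ℝ → ℝ}, 1 ≤ T → Continuous ρ →
    Integrable ρ → (∀ s, |ρ s| ≤ M) → 0 ≤ δ → (∀ s, T ≤ |s| → |ρ s| ≤ δ * Real.exp (-(|s| - T))) →
    (∫ x in (-(Lw T / 2))..(Lw T / 2), ρ x * gw T (Lw T) x) +
      (∫ x in (-(Lw T / 2))..(Lw T / 2), ρ x * lwc (Lw T) x) ≤
      (∫ x, ρ x * Real.log (tw x)) + C * δ := by
  obtain ⟨C, hC0, hC⟩ := gw_facts
  refine ⟨2 * C + 3 + 2, by linarith, fun {T δ M ρ} hT1 hρc hρ hM hδ0 hδ => ?_⟩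
  have hT : 0 < T := by linarith
  have hL := Lw_pos hT.le
  have hLT := Lw_ge hT.le
  have hle : -(Lw T / 2) ≤ Lw T / 2 := by linarith
  obtain ⟨hgc, hgb, -, -⟩ := hC T hT
  set L := Lw T with hLdef
  set S := Ioc (-(L / 2)) (L / 2) with hS
  set A := Icc (-T) T with hA
  have hSm : MeasurableSet S := measurableSet_Ioc
  have hAm : MeasurableSet A := measurableSet_Icc
  have hδ1 : ∀ s, T ≤ |s| → |ρ s| ≤ δ := fun s hs => (hδ s hs).trans (by
    have : Real.exp (-(|s| - T)) ≤ 1 := Real.exp_le_one_iff.2 (by linarith)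
    nlinarith)
  have htail := tail2 hδ0 hρ hδ
  -- the two integrands
  have i1 : IntegrableOn (fun x => ρ x * gw T L x) S :=
    ((hρc.mul hgc).intervalIntegrable _ _).1
  have i2 : IntegrableOn (fun x => ρ x * lwc L x) S :=
    ((lwc_intv hL (-(L / 2)) (L / 2)).1).bdd_mul hρ.aestronglyMeasurable.restrict
      (Eventually.of_forall fun s => by rw [Real.norm_eq_abs]; exact hM s)
  have i3 := rho_log_tw hρ hM
  rw [intervalIntegral.integral_of_le hle, intervalIntegral.integral_of_le hle, ← integral_add i1 i2]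
  have i4 : IntegrableOn (fun x => ρ x * gw T L x + ρ x * lwc L x) S := i1.add i2
  have hAS : A ⊆ S := fun x hx => ⟨by linarith [hx.1], by linarith [hx.2]⟩
  have e1 : ∫ x in S, (ρ x * gw T L x + ρ x * lwc L x) =
      (∫ x in A, (ρ x * gw T L x + ρ x * lwc L x)) +
      ∫ x in S \ A, (ρ x * gw T L x + ρ x * lwc L x) := by
    have h := integral_inter_add_sdiff (s := S) hAm i4
    rw [inter_eq_self_of_subset_right hAS] at h
    exact h.symm
  have e2 : ∫ x in A, (ρ x * gw T L x + ρ x * lwc L x) = ∫ x in A, ρ x * Real.log (tw x) := by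
    refine setIntegral_congr_ae hAm ?_
    have hne : ∀ᵐ x : ℝ, x ≠ 0 := by simp [ae_iff, measure_singleton]
    filter_upwards [hne] with x hx0 hx
    rw [← mul_add, gw_lwc hT hx0 (abs_le.2 hx)]
  have e3 : (∫ x, ρ x * Real.log (tw x)) = (∫ x in A, ρ x * Real.log (tw x)) +
      ∫ x in Aᶜ, ρ x * Real.log (tw x) := (integral_add_compl hAm i3).symm
  -- the tails
  have hAc : ∀ x, x ∈ Aᶜ → T < |x| := fun x hx => by
    rw [mem_compl_iff, hA, mem_Icc_abs, not_le] at hx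
    exact hx
  have hsub : Aᶜ ⊆ {x : ℝ | T ≤ |x|} := fun x hx => (hAc x hx).le
  have hmT : MeasurableSet {x : ℝ | T ≤ |x|} := measurableSet_le measurable_const (by fun_prop)
  have b0 : ∫ x in Aᶜ, |ρ x| ≤ 2 * δ :=
    (setIntegral_mono_set hρ.abs.integrableOn (Eventually.of_forall fun x => abs_nonneg _)
      hsub.eventuallyLE).trans htail
  have b1 : -(2 * δ) ≤ ∫ x in Aᶜ, ρ x * Real.log (tw x) := by
    have h1 : |∫ x in Aᶜ, ρ x * Real.log (tw x)| ≤ ∫ x in Aᶜ, |ρ x| := by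
      rw [← Real.norm_eq_abs]
      refine norm_integral_le_of_norm_le hρ.abs.integrableOn ?_
      filter_upwards [ae_restrict_mem hAm.compl] with x hx
      rw [Real.norm_eq_abs, abs_mul]
      exact mul_le_of_le_one_right (abs_nonneg _) (log_tw_abs (hT1.trans (hAc x hx).le))
    have := neg_abs_le (∫ x in Aᶜ, ρ x * Real.log (tw x))
    linarith
  have hSA : S \ A ⊆ Aᶜ := fun x hx => hx.2
  obtain ⟨j1, j2⟩ := int_abs_lwc hL
  have b2 : ∫ x in S \ A, (ρ x * gw T L x + ρ x * lwc L x) ≤ 2 * C * δ + 3 * δ := by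
    have h1 : ∫ x in S \ A, (ρ x * gw T L x + ρ x * lwc L x) ≤
        ∫ x in S \ A, (C * |ρ x| + δ * |lwc L x|) := by
      refine setIntegral_mono_on (i4.mono_set sdiff_subset) ?_ (hSm.diff hAm) fun x hx => ?_
      · exact ((hρ.abs.integrableOn).const_mul C).add ((j1.mono_set sdiff_subset).const_mul δ)
      · have h2 := hδ1 x (hAc x (hSA hx)).le
        have h3 := hgb x
        have h4 := le_abs_self (ρ x * gw T L x)
        have h5 := le_abs_self (ρ x * lwc L x)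
        rw [abs_mul] at h4 h5
        have h6 : |ρ x| * |gw T L x| ≤ |ρ x| * C := by gcongr
        have h7 : |ρ x| * |lwc L x| ≤ δ * |lwc L x| := by gcongr
        linarith
    refine h1.trans ?_
    rw [integral_add ((hρ.abs.integrableOn).const_mul C) ((j1.mono_set sdiff_subset).const_mul δ),
      integral_const_mul, integral_const_mul]
    have h8 : ∫ x in S \ A, |ρ x| ≤ 2 * δ :=
      (setIntegral_mono_set hρ.abs.integrableOn (Eventually.of_forall fun x => abs_nonneg _)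
        hSA.eventuallyLE).trans b0
    have h9 : ∫ x in S \ A, |lwc L x| ≤ 3 :=
      (setIntegral_mono_set j1 (Eventually.of_forall fun x => abs_nonneg _)
        sdiff_subset.eventuallyLE).trans j2
    have h10 := mul_le_mul_of_nonneg_left h8 hC0
    have h11 := mul_le_mul_of_nonneg_left h9 hδ0
    linarith
  rw [e1, e2, e3]
  linarith

/-! ### the extra potential -/

/-- energy of the remainder on the window -/
def Nlr (T : ℝ) (φ φ' : ℝ → ℝ) : ℝ := ∫ t in (-(T + 1))..(T + 1), (φ t ^ 2 + φ' t ^ 2)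

lemma Nlr_nonneg (hT : 0 ≤ T) (φ φ' : ℝ → ℝ) : 0 ≤ Nlr T φ φ' :=
  intervalIntegral.integral_nonneg (by linarith) fun t _ => by positivity

lemma Qt_two {G L : ℝ} (hG : 9 ≤ G) (hL : 0 < L) {f f' g g' : ℝ → ℝ} (hf : C1P L f f')
    (hg : C1P L g g') : Qt G L (fun t => f t + g t) ≤ 2 * Qt G L f + 2 * Qt G L g := by
  obtain ⟨B, h1, h2⟩ := Qt_add hG hL hf hg
  have h3 := h2 1
  simp only [one_mul, mul_one, one_pow] at h3
  have a := Qt_nonneg hG hL hf
  have b := Qt_nonneg hG hL hg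
  have h4 : 2 * B ≤ Qt G L f + Qt G L g := by
    have h5 : (2 * B) ^ 2 ≤ (Qt G L f + Qt G L g) ^ 2 := by nlinarith [sq_nonneg (Qt G L f - Qt G L g)]
    exact (le_abs_self _).trans (abs_le_of_sq_le_sq h5 (by positivity))
  rw [h3]
  linarith

lemma Eg_Qt : ∃ C : ℝ, 0 ≤ C ∧ ∀ {T : ℝ} {φ φ' : ℝ → ℝ}, 0 < T → (∀ t, HasDerivAt φ (φ' t) t) →
    Continuous φ' → Qt (Gw T) (Lw T) (Eg T φ) ≤ C + 22 * Nlr T φ φ' := by
  obtain ⟨C, hC0, hC⟩ := gw_facts
  refine ⟨2 * C, by linarith, fun {T φ φ'} hT hd hc => ?_⟩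
  have hL := Lw_pos hT.le
  have hTL : 2 * T + 2 ≤ Lw T := by linarith [Lw_ge hT.le]
  have h1 := Qt_cut (Gw_ge hT.le) hT.le hTL hd hc
  have h2 := (hC T hT).2.2.1
  have h3 := Qt_two (Gw_ge hT.le) hL (cut_C1P hL hTL (fun x _ => hd x) hc.continuousOn) (gw_C1P hT)
  have e : Qt (Gw T) (Lw T) (Eg T φ) = Qt (Gw T) (Lw T) fun t => chi T t * φ t + gw T (Lw T) t := rfl
  unfold Nlr
  rw [e]
  linarith

/-- value at the origin -/
lemma phi_zero (hT : 0 < T) (hd : ∀ t, HasDerivAt φ (φ' t) t) (hc : Continuous φ') :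
    |φ 0| ≤ 1 + Nlr T φ φ' := by
  have hφ : Continuous φ := continuous_iff_continuousAt.2 fun t => (hd t).continuousAt
  have h1 : ∀ t ∈ Icc (0:ℝ) 1, |φ 0| ≤ |φ t| + ∫ u in (0:ℝ)..1, |φ' u| := by
    intro t ht
    have h2 : ∫ u in (0:ℝ)..t, φ' u = φ t - φ 0 :=
      intervalIntegral.integral_eq_sub_of_hasDerivAt (fun x _ => hd x) (hc.intervalIntegrable _ _)
    have h3 : |∫ u in (0:ℝ)..t, φ' u| ≤ ∫ u in (0:ℝ)..1, |φ' u| := by
      refine (intervalIntegral.abs_integral_le_integral_abs ht.1).trans ?_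
      refine intervalIntegral.integral_mono_interval le_rfl ht.1 ht.2
        (Eventually.of_forall fun x => abs_nonneg _) (hc.abs.intervalIntegrable _ _)
    have h4 : |φ 0| = |φ t - ∫ u in (0:ℝ)..t, φ' u| := by
      rw [h2]
      congr 1
      ring
    rw [h4]
    exact (abs_sub _ _).trans (add_le_add le_rfl h3)
  have h5 : |φ 0| ≤ ∫ t in (0:ℝ)..1, (|φ t| + |φ' t|) := by
    have h6 : ∫ _t in (0:ℝ)..1, |φ 0| ≤ ∫ t in (0:ℝ)..1, (|φ t| + ∫ u in (0:ℝ)..1, |φ' u|) :=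
      intervalIntegral.integral_mono_on zero_le_one intervalIntegrable_const
        (Continuous.intervalIntegrable (by fun_prop) _ _) h1
    rw [intervalIntegral.integral_const, sub_zero, one_smul, intervalIntegral.integral_add
      (hφ.abs.intervalIntegrable _ _) intervalIntegrable_const, intervalIntegral.integral_const,
      sub_zero, one_smul] at h6
    rw [intervalIntegral.integral_add (hφ.abs.intervalIntegrable _ _) (hc.abs.intervalIntegrable _ _)]
    exact h6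
  have h7 : ∫ t in (0:ℝ)..1, (|φ t| + |φ' t|) ≤ ∫ t in (0:ℝ)..1, (1 + (φ t ^ 2 + φ' t ^ 2) / 2) := by
    refine intervalIntegral.integral_mono_on zero_le_one
      (Continuous.intervalIntegrable (by fun_prop) _ _)
      (Continuous.intervalIntegrable (by fun_prop) _ _) fun t _ => ?_
    have a := sq_nonneg (|φ t| - 1)
    have b := sq_nonneg (|φ' t| - 1)
    have a' := sq_abs (φ t)
    have b' := sq_abs (φ' t)
    nlinarith
  have hci : Continuous fun t => φ t ^ 2 + φ' t ^ 2 := by fun_prop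
  have h8 : ∫ t in (0:ℝ)..1, (1 + (φ t ^ 2 + φ' t ^ 2) / 2) = 1 +
      (∫ t in (0:ℝ)..1, (φ t ^ 2 + φ' t ^ 2)) / 2 := by
    rw [intervalIntegral.integral_add intervalIntegrable_const
      ((hci.div_const 2).intervalIntegrable _ _), intervalIntegral.integral_const,
      intervalIntegral.integral_div]
    simp
  have h9 : ∫ t in (0:ℝ)..1, (φ t ^ 2 + φ' t ^ 2) ≤ Nlr T φ φ' := by
    unfold Nlr
    exact intervalIntegral.integral_mono_interval (by linarith) zero_le_one (by linarith)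
      (Eventually.of_forall fun x => by positivity) (hci.intervalIntegrable _ _)
  have h10 := Nlr_nonneg hT.le φ φ'
  linarith

/-- the cross term of the potential with the wall -/
lemma Eg_XW : ∃ C : ℝ, 0 ≤ C ∧ ∀ {T : ℝ} {φ φ' : ℝ → ℝ}, 0 < T → (∀ t, HasDerivAt φ (φ' t) t) →
    Continuous φ' → (∀ x, φ (-x) = φ x) →
    |XW (Gw T) (Lw T) (ce (Lw T) (Eg T φ))| ≤ C * (1 + Nlr T φ φ') := by
  obtain ⟨C, hC0, hC⟩ := gw_facts
  obtain ⟨D, hD0, hD⟩ := Eg_Qt
  refine ⟨C + 20 * D + 250, by linarith, fun {T φ φ'} hT hd hc hφ => ?_⟩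
  have hL := Lw_pos hT.le
  have hG := Gw_ge hT.le
  have hLT := Lw_ge hT.le
  have hN := Nlr_nonneg hT.le φ φ'
  obtain ⟨-, hgb, -, hg0⟩ := hC T hT
  have hQ := hD hT hd hc
  have hE := Eg_C1P hT hd hc
  have hEe := Eg_even hT hφ
  set L := Lw T with hLdef
  set E := Eg T φ with hEdef
  have hle : -(L / 2) ≤ L / 2 := by linarith
  have h1 := XW_le hG hL (ce_summable hL hE) (ce_energy hG hL hE hEe)
  have hQe := ce_QFr (G := Gw T) (L := L) hEe
  have e0 := ce_ser hL hE hEe (t := 0) ⟨by linarith, by linarith⟩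
  have e1 := ce_ser hL hE hEe (t := L / 2) ⟨by linarith, le_rfl⟩
  rw [mul_zero, zero_div] at e0
  rw [show 2 * π * (L / 2) / L = π by field_simp] at e1
  have hEL : E (L / 2) = 0 := by
    rw [hEdef]
    unfold Eg
    rw [chi_out (by rw [abs_of_pos (by linarith)]; linarith), zero_mul, zero_add]
    exact hg0 _ (by rw [abs_of_pos (by linarith)]; linarith)
  have hE0 : |E 0| ≤ 1 + Nlr T φ φ' + C := by
    rw [hEdef]
    unfold Eg
    rw [chi_in (by rw [abs_zero]; exact hT.le), one_mul]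
    exact (abs_add_le _ _).trans (add_le_add (phi_zero hT hd hc) (hgb 0))
  set F0 := (fc L E 0).re with hF0
  have hQr : 0 ≤ QFr (Gw T) L (ce L E) := tsum_nonneg fun p => by
    have := NUC62.uh_pos hG (NUC62.kp_pos hL p)
    positivity
  have hQt : 0 ≤ Qt (Gw T) L E := Qt_nonneg hG hL hE
  have hF : |F0| ≤ 1 + Qt (Gw T) L E := by
    have h2 : L * F0 ^ 2 / 2 ≤ Qt (Gw T) L E := by linarith
    have h3 : F0 ^ 2 ≤ Qt (Gw T) L E := by nlinarith [sq_nonneg F0]
    have h4 := sq_abs F0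
    nlinarith [sq_nonneg (|F0| - 1)]
  have b0 : |Cser (ce L E) 0| ≤ |E 0| + |F0| := by
    have : Cser (ce L E) 0 = E 0 - F0 := by linarith
    rw [this]
    exact abs_sub _ _
  have b1 : |Cser (ce L E) π| ≤ |F0| := by
    have : Cser (ce L E) π = -F0 := by linarith
    rw [this, abs_neg]
  have b2 : √(QFr (Gw T) L (ce L E)) ≤ (1 + Qt (Gw T) L E) := by
    rw [Real.sqrt_le_left (by linarith)]
    have : 0 ≤ L * F0 ^ 2 / 2 := by positivity
    nlinarith
  refine h1.trans ?_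
  have h5 : (|Cser (ce L E) 0| + |Cser (ce L E) π|) / 4 + 10 * √(QFr (Gw T) L (ce L E)) ≤
      (1 + Nlr T φ φ' + C) / 4 + 11 * (1 + Qt (Gw T) L E) := by linarith
  refine h5.trans ?_
  nlinarith [mul_nonneg hC0 hN, mul_nonneg hD0 hN]

/-- **the constant of one folded component** -/
theorem BTC_le : ∃ C : ℝ, 0 ≤ C ∧ ∀ {T δ M : ℝ} {ρ φ φ' : ℝ → ℝ} (n : ℕ), 1 ≤ T → Continuous ρ →
    Integrable ρ → (∀ s, |ρ s| ≤ M) → 0 ≤ δ → δ ≤ 1 → δ ^ 2 * (2 * Gw T + 1) ≤ 23 →
    (∀ s, T ≤ |s| → |ρ s| ≤ δ * Real.exp (-(|s| - T))) →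
    (∀ t, HasDerivAt φ (φ' t) t) → Continuous φ' → (∀ x, φ (-x) = φ x) →
    BTC (Gw T) (Lw T) δ n ρ (Eg T φ) ≤ (n.factorial : ℝ) * (2 * cpc) ^ n *
      Real.exp (1 / 4 * (∫ s, ρ s * ∫ s', ρ s' * V (s - s')) +
        1 / 2 * (∫ t in (-(Lw T / 2))..(Lw T / 2), ρ t * (chi T t * φ t)) +
        1 / 2 * (∫ t, ρ t * Real.log (tw t)) + (7 / 24 * Lw T + NUC62.err (Gw T) (Lw T) n / 2) +
        C * (1 + Nlr T φ φ') - NUC62.uG (Gw T) (Lw T) / 4 * (n - mI (Lw T) ρ / 2) ^ 2) := by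
  obtain ⟨C1, h1, H1⟩ := wall_dens
  obtain ⟨C2, h2, H2⟩ := Eg_Qt
  obtain ⟨C3, h3, H3⟩ := Eg_XW
  refine ⟨C1 + C2 + C3 + 20 * cV + 20, by have := cV_pos; linarith, fun {T δ M ρ φ φ'} n hT1 hρc hρ hM
    hδ0 hδ1 hδG hδ hd hc hφ => ?_⟩
  have hT : 0 < T := by linarith
  have hL := Lw_pos hT.le
  have hG := Gw_ge hT.le
  have hLT := Lw_ge hT.le
  have hcV := cV_pos
  have hN := Nlr_nonneg hT.le φ φ'
  have a1 := H1 hT1 hρc hρ hM hδ0 hδ
  have a2 := H2 hT hd hc
  have a3 := H3 hT hd hc hφ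
  have a4 := eG_Lw hT.le
  have a5 : (7 : ℝ) / (1 + T) ≤ 7 := by
    rw [div_le_iff₀ (by linarith)]
    nlinarith
  have hle : -(Lw T / 2) ≤ Lw T / 2 := by linarith
  obtain ⟨C', -, hC'⟩ := gw_facts
  have hgc := (hC' T hT).1
  have hφc : Continuous φ := continuous_iff_continuousAt.2 fun t => (hd t).continuousAt
  have hcc := chi_cont T
  have e1 : (∫ t in (-(Lw T / 2))..(Lw T / 2), ρ t * Eg T φ t) =
      (∫ t in (-(Lw T / 2))..(Lw T / 2), ρ t * (chi T t * φ t)) +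
      ∫ t in (-(Lw T / 2))..(Lw T / 2), ρ t * gw T (Lw T) t := by
    have i1 : IntervalIntegrable (fun t => ρ t * (chi T t * φ t)) volume (-(Lw T / 2)) (Lw T / 2) :=
      (hρc.mul (hcc.mul hφc)).intervalIntegrable _ _
    have i2 : IntervalIntegrable (fun t => ρ t * gw T (Lw T) t) volume (-(Lw T / 2)) (Lw T / 2) :=
      (hρc.mul hgc).intervalIntegrable _ _
    rw [← intervalIntegral.integral_add i1 i2]
    refine intervalIntegral.integral_congr fun t _ => ?_
    unfold Eg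
    ring
  unfold BTC
  have hc2 : (4 * π / √NUC62.cω) = 2 * cpc := by
    unfold cpc
    ring
  rw [hc2]
  have hcp := cpc_pos
  refine mul_le_mul_of_nonneg_left (Real.exp_le_exp.2 ?_) (by positivity)
  unfold B0C
  rw [e1]
  have a6 : cV * δ ^ 2 * (2 * Gw T + 1) / 2 ≤ 12 * cV := by
    have : cV * (δ ^ 2 * (2 * Gw T + 1)) ≤ cV * 23 := mul_le_mul_of_nonneg_left hδG hcV.le
    linarith
  have a7 : C1 * δ ≤ C1 := mul_le_of_le_one_right h1 hδ1
  have a8 := neg_abs_le (XW (Gw T) (Lw T) (ce (Lw T) (Eg T φ)))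
  have a9 : C2 * Nlr T φ φ' ≥ 0 := mul_nonneg h2 hN
  have a10 : C1 * Nlr T φ φ' ≥ 0 := mul_nonneg h1 hN
  have a11 : cV * Nlr T φ φ' ≥ 0 := mul_nonneg hcV.le hN
  have a12 : (1:ℝ) / 2 * ((∫ x in (-(Lw T / 2))..(Lw T / 2), ρ x * gw T (Lw T) x) +
      ∫ x in (-(Lw T / 2))..(Lw T / 2), ρ x * lwc (Lw T) x) ≤
      1 / 2 * ((∫ x, ρ x * Real.log (tw x)) + C1 * δ) := by linarith
  nlinarith

end

end TCO
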