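import Pool.Agent.NUTV.Vec

/-!
# The functional of a half strip at ordered generic rapidities (helper92)

The functional `PH z X` has no poles except at `sin (z i - z r) = 0` and at `Dn (z i - z r) = 0` for `r` BELOW
`i`.  So the support and the exchange hold at ordered generic rapidities: in particular for two neighbouring
lines `p` (lower), `i` with `z p = z i - 3 λ` or `z p = z i - 2 λ`.
-/

set_option autoImplicit false

namespace Pool.Agent.TC

open _root_.Pool.Agent.EXL _root_.Pool.Agent.EXL.Pat Filter Topology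
open _root_.Pool.Agent.EXL.Fm (lam)
open _root_.Pool.Agent.NUF _root_.Pool.Agent.NUU _root_.Pool.Agent.NUTV

variable {α : Type*} {z z' : α → ℂ} {X Y A B : List α} {b c d i j k p q r : α}

/-- **Ordered generic rapidities**: `r` is below `i`. -/
def Go (z : α → ℂ) (X : List α) : Prop :=
  X.Pairwise fun r i => Complex.sin (z i - z r) ≠ 0 ∧ Fm.Dn (z i - z r) ≠ 0

theorem go_of (h : Gz z X) (hn : X.Nodup) : Go z X := by
  have h1 : ∀ Z : List α, Z.Nodup → (∀ x ∈ Z, x ∈ X) → Go z Z := by
    intro Z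
    induction Z with
    | nil => exact fun _ _ => List.Pairwise.nil
    | cons a Z ih =>
      intro hZ hs
      have hZ1 := List.nodup_cons.1 hZ
      refine List.Pairwise.cons (fun i hi => ?_) (ih hZ1.2 fun x hx => hs x (by simp [hx]))
      have hia : i ≠ a := fun e => hZ1.1 (e ▸ hi)
      exact ⟨h.s i (hs i (by simp [hi])) a (hs a (by simp)) hia,
        h.d i (hs i (by simp [hi])) a (hs a (by simp)) hia⟩
  exact h1 X hn fun x hx => hx

theorem Go.subl (h : Go z X) (hY : Y.Sublist X) : Go z Y := List.Pairwise.sublist hY h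

theorem Go.congr (h : Go z X) (e : ∀ x ∈ X, z x = z' x) : Go z' X := by
  have h1 : ∀ Z : List α, Go z Z → (∀ x ∈ Z, x ∈ X) → Go z' Z := by
    intro Z
    induction Z with
    | nil => exact fun _ _ => List.Pairwise.nil
    | cons a Z ih =>
      intro hZ hs
      obtain ⟨h1, h2⟩ := List.pairwise_cons.1 hZ
      refine List.Pairwise.cons (fun i hi => ?_) (ih h2 fun x hx => hs x (by simp [hx]))
      rw [← e i (hs i (by simp [hi])), ← e a (hs a (by simp))]
      exact h1 i hi
  exact h1 X h fun x hx => hx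

theorem Go.split {L D : List α} (h : Go z (L ++ i :: D)) {r : α} (hr : r ∈ L) :
    Complex.sin (z i - z r) ≠ 0 ∧ Fm.Dn (z i - z r) ≠ 0 :=
  (List.pairwise_append.1 h).2.2 r hr i (by simp)

theorem Go.sin (h : Go z X) (hi : i ∈ X) (hk : k ∈ X) (hik : i ≠ k) :
    Complex.sin (z i - z k) ≠ 0 := by
  induction X with
  | nil => simp at hi
  | cons a X ih =>
    obtain ⟨h1, h2⟩ := List.pairwise_cons.1 h
    rcases List.mem_cons.1 hi with e | hi'
    · rcases List.mem_cons.1 hk with e' | hk'
      · exact absurd (e.trans e'.symm) hik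
      · rw [e]
        intro h3
        apply (h1 k hk').1
        rw [← neg_sub, Complex.sin_neg, h3, neg_zero]
    · rcases List.mem_cons.1 hk with e' | hk'
      · rw [e']
        exact (h1 i hi').1
      · exact ih h2 hi' hk'

section dec

variable [DecidableEq α]

theorem Go.below (h : Go z X) (hi : i ∈ X) (hr : r ∈ below X i) :
    Complex.sin (z i - z r) ≠ 0 ∧ Fm.Dn (z i - z r) ≠ 0 := by
  obtain ⟨L, D, rfl, hL⟩ := split_of_mem hi
  rw [below_split hL] at hr
  exact h.split hr

/-- **Analyticity at ordered generic rapidities.** -/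
theorem PH_dtO' [Finite α] {zs : ℂ → α → ℂ} {t : ℂ} : ∀ (n : ℕ) (X : List α), X.length = n →
    X.Nodup → (∀ x ∈ X, DifferentiableAt ℂ (fun s => zs s x) t) → Go (zs t) X →
      DtF (fun s => PH (zs s) X) t := by
  intro n
  induction n using Nat.strong_induction_on with
  | _ n ih =>
    intro X hX hn hz hG
    cases X with
    | nil =>
      have e : (fun s => PH (zs s) ([] : List α)) = fun _ => ev0 := by
        funext s
        unfold PH
        rw [RL_nil]
      rw [e]
      exact DtF.const _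
    | cons p X =>
      obtain ⟨hp, hn'⟩ := List.nodup_cons.1 hn
      simp only [List.length_cons] at hX
      have hG' : Go (zs t) X := hG.subl (List.sublist_cons_self p X)
      have hz' : ∀ x ∈ X, DifferentiableAt ℂ (fun s => zs s x) t := fun x hx => hz x (by simp [hx])
      have hx : ∀ x ∈ X.toFinset, DifferentiableAt ℂ (fun s => ux (zs s) x) t := fun x hx => by
        unfold ux
        exact (hz' x (List.mem_toFinset.1 hx)).const_sub _
      have hxp : DifferentiableAt ℂ (fun s => ux (zs s) p) t := by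
        unfold ux
        exact (hz p (by simp)).const_sub _
      have hDl : ∀ Y ⊆ X.toFinset,
          DifferentiableAt ℂ (fun s => Fr.Dl (ux (zs s)) (ux (zs s) p) Y) t := by
        intro Y hY
        unfold Fr.Dl
        exact DifferentiableAt.fun_finsetProd fun k hk => dt_dl hxp (hx k (hY hk))
      simp only [PH_cons]
      refine (DtF.smul (hDl _ (Finset.Subset.refl _)) (ih X.length (by omega) X rfl hn' hz' hG')).add
        (DtF.sum _ fun i hi => ?_)
      have hi' := List.mem_toFinset.1 hi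
      have hlen : (X.erase i).length < n := by
        have := List.length_erase_le (a := i) (l := X)
        omega
      have hwt : DifferentiableAt ℂ (fun s => Fr.wt (ux (zs s)) i (X.toFinset.erase i)) t := by
        unfold Fr.wt
        refine ((dt_fa' (hx i hi)).const_mul _).mul (DifferentiableAt.fun_finsetProd fun k hk => ?_)
        have hk' := Finset.mem_erase.1 hk
        refine dt_pr (hx k hk'.2) (hx i hi) ?_
        have := hG'.sin hi' (List.mem_toFinset.1 hk'.2) hk'.1.symm
        unfold ux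
        rwa [sub_sub_sub_cancel_left]
      have hD2 := hDl (X.toFinset.erase i) (Finset.erase_subset _ _)
      refine DtF.comp (ih _ hlen (X.erase i) rfl (hn'.erase i)
        (fun x hx => hz' x (List.mem_of_mem_erase hx)) (hG'.subl List.erase_sublist))
        (DtE.mul (dt_jn ((hwt.mul hD2).mul (dt_fe (hx i hi))) ((hwt.mul hD2).mul (dt_fa hxp))) ?_)
      unfold oE
      refine dt_M fun r hr => ?_
      obtain ⟨k1, k2⟩ := below_subset r hr
      exact dt_R k2.symm ((hz' i hi').sub (hz' r k1)) (hG'.below hi' hr).2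

theorem PH_dtO [Finite α] {zs : ℂ → α → ℂ} {t : ℂ} (hn : X.Nodup)
    (hz : ∀ x ∈ X, DifferentiableAt ℂ (fun s => zs s x) t) (hG : Go (zs t) X) :
    DtF (fun s => PH (zs s) X) t := PH_dtO' X.length X rfl hn hz hG

end dec

/-! ### One more line -/

/-- the rapidity `s` is generic with respect to the lines `X` -/
def Fb (z : α → ℂ) (X : List α) (s : ℂ) : Prop :=
  ∀ k ∈ X, Complex.sin (s - z k) ≠ 0 ∧ Fm.Dn (s - z k) ≠ 0 ∧ Fm.Dn (z k - s) ≠ 0

theorem Fb.sub {s : ℂ} (h : Fb z X s) (hY : ∀ y ∈ Y, y ∈ X) : Fb z Y s := fun k hk => h k (hY k hk)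

theorem Fb.sin' {s : ℂ} (h : Fb z X s) {k : α} (hk : k ∈ X) : Complex.sin (z k - s) ≠ 0 := by
  intro h1
  apply (h k hk).1
  rw [← neg_sub, Complex.sin_neg, h1, neg_zero]

theorem ev_fb (z : α → ℂ) (X : List α) (s0 : ℂ) : ∀ᶠ s in 𝓝[≠] s0, Fb z X s := by
  classical
  have h1 : ∀ k ∈ X.toFinset, ∀ᶠ s in 𝓝[≠] s0, Complex.sin (s - z k) ≠ 0 ∧
      Fm.Dn (s - z k) ≠ 0 ∧ Fm.Dn (z k - s) ≠ 0 := by
    intro k _
    filter_upwards [ev_sin' (-z k) s0 one_ne_zero, ev_sin' (2 * lam - z k) s0 one_ne_zero,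
      ev_sin' (3 * lam - z k) s0 one_ne_zero, ev_sin' (2 * lam + z k) s0 (neg_ne_zero.2 one_ne_zero),
      ev_sin' (3 * lam + z k) s0 (neg_ne_zero.2 one_ne_zero)] with s a1 a3 a4 a5 a6
    unfold Fm.Dn
    refine ⟨?_, mul_ne_zero ?_ ?_, mul_ne_zero ?_ ?_⟩
    · convert a1 using 2
      ring
    · convert a3 using 2
      ring
    · convert a4 using 2
      ring
    · convert a5 using 2
      ring
    · convert a6 using 2
      ring
  have h2 : ∀ᶠ s in 𝓝[≠] s0, ∀ k ∈ X.toFinset, Complex.sin (s - z k) ≠ 0 ∧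
      Fm.Dn (s - z k) ≠ 0 ∧ Fm.Dn (z k - s) ≠ 0 := by
    rw [Finset.eventually_all]
    exact h1
  filter_upwards [h2] with s hs
  exact fun k hk => hs k (List.mem_toFinset.2 hk)

theorem Go.ins [DecidableEq α] {s : ℂ} (h : Go z (A ++ B)) (hb : b ∉ A ++ B) (hs : Fb z (A ++ B) s) :
    Go (Function.update z b s) (A ++ b :: B) := by
  have hz : ∀ x ∈ A ++ B, z x = Function.update z b s x := upd_out hb
  have h' := h.congr hz
  unfold Go at h' ⊢
  rw [List.pairwise_append] at h' ⊢
  refine ⟨h'.1, List.Pairwise.cons (fun i hi => ?_) h'.2.1, fun a ha x hx => ?_⟩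
  · have hm : i ∈ A ++ B := by simp [hi]
    rw [Function.update_self, ← hz i hm]
    exact ⟨hs.sin' hm, (hs i hm).2.2⟩
  · rcases List.mem_cons.1 hx with hx | hx
    · have hm : a ∈ A ++ B := by simp [ha]
      rw [hx, Function.update_self, ← hz a hm]
      exact ⟨(hs a hm).1, (hs a hm).2.1⟩
    · exact h'.2.2 a ha x hx

/-! ### A generic path -/

/-- the path -/
noncomputable def gpath (f : α → ℂ) (z : α → ℂ) (t : ℂ) : α → ℂ := fun x => z x + f x * t

theorem gpath_zero (f z : α → ℂ) : gpath f z 0 = z := by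
  funext x
  unfold gpath
  ring

theorem gpath_diff (f z : α → ℂ) (x : α) (t : ℂ) :
    DifferentiableAt ℂ (fun s => gpath f z s x) t := by
  unfold gpath
  fun_prop

theorem ev_gpath {f : α → ℂ} (hf : ∀ i ∈ X, ∀ j ∈ X, i ≠ j → f i ≠ f j) (z : α → ℂ) :
    ∀ᶠ t in 𝓝[≠] (0 : ℂ), Gz (gpath f z t) X := by
  classical
  have h1 : ∀ i ∈ X.toFinset, ∀ j ∈ X.toFinset, ∀ᶠ t in 𝓝[≠] (0 : ℂ), i ≠ j →
      Complex.sin (gpath f z t i - gpath f z t j) ≠ 0 ∧ Fm.Dn (gpath f z t i - gpath f z t j) ≠ 0 := by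
    intro i hi j hj
    by_cases hij : i = j
    · exact Filter.Eventually.of_forall fun t h => absurd hij h
    have hc : f i - f j ≠ 0 :=
      sub_ne_zero.2 (hf i (List.mem_toFinset.1 hi) j (List.mem_toFinset.1 hj) hij)
    filter_upwards [ev_sin' (z i - z j) 0 hc, ev_sin' (2 * lam + (z i - z j)) 0 hc,
      ev_sin' (3 * lam + (z i - z j)) 0 hc] with t a1 a2 a3 _
    unfold Fm.Dn gpath
    refine ⟨?_, mul_ne_zero ?_ ?_⟩
    · convert a1 using 2
      ring
    · convert a2 using 2
      ring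
    · convert a3 using 2
      ring
  have h2 : ∀ᶠ t in 𝓝[≠] (0 : ℂ), ∀ i ∈ X.toFinset, ∀ j ∈ X.toFinset, i ≠ j →
      Complex.sin (gpath f z t i - gpath f z t j) ≠ 0 ∧ Fm.Dn (gpath f z t i - gpath f z t j) ≠ 0 := by
    rw [Finset.eventually_all]
    intro i hi
    rw [Finset.eventually_all]
    exact fun j hj => h1 i hi j hj
  filter_upwards [h2] with t ht
  exact ⟨fun i hi j hj hij => (ht i (List.mem_toFinset.2 hi) j (List.mem_toFinset.2 hj) hij).1,
    fun i hi j hj hij => (ht i (List.mem_toFinset.2 hi) j (List.mem_toFinset.2 hj) hij).2⟩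

theorem eq_of_path {f g : ℂ → ℂ} (hf : DifferentiableAt ℂ f 0) (hg : DifferentiableAt ℂ g 0)
    (h : ∀ᶠ t in 𝓝[≠] (0 : ℂ), f t = g t) : f 0 = g 0 :=
  tendsto_nhds_unique_of_eventuallyEq (hf.continuousAt.mono_left nhdsWithin_le_nhds)
    (hg.continuousAt.mono_left nhdsWithin_le_nhds) h

section rel

variable [DecidableEq α]

/-- the index in the list, injective on the list -/
noncomputable def idf (X : List α) : α → ℂ := fun x => (X.idxOf x : ℂ)

theorem idf_inj (X : List α) : ∀ i ∈ X, ∀ j ∈ X, i ≠ j → idf X i ≠ idf X j := by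
  intro i hi j _ hij h
  unfold idf at h
  have h' : X.idxOf i = X.idxOf j := by exact_mod_cast h
  exact hij ((List.idxOf_inj hi).1 h')

theorem idf_inj_perm (h : X.Perm Y) : ∀ i ∈ Y, ∀ j ∈ Y, i ≠ j → idf X i ≠ idf X j :=
  fun i hi j hj hij => idf_inj X i (h.mem_iff.2 hi) j (h.mem_iff.2 hj) hij

variable [Finite α]

/-- **The support.** -/
theorem PH_supO (hn : X.Nodup) (hc : c ∉ X) (hd : d ∉ X) (hcd : c ≠ d) (hG : Go z X) :
    Sup X (PH z X) := by
  intro F hF
  have e0 := gpath_zero (idf X) z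
  have h := eq_of_path (f := fun t => PH (gpath (idf X) z t) X F) (g := fun _ => 0)
    (PH_dtO hn (fun x _ => gpath_diff _ z x 0) (by rw [e0]; exact hG) F)
    (differentiableAt_const _) ?_
  · simp only [e0] at h
    exact h
  · filter_upwards [ev_gpath (idf_inj X) z] with t ht
    exact PH_sup hn hc hd hcd ht F hF

omit [DecidableEq α] [Finite α] in
theorem swap_perm (A B : List α) (j k : α) : (A ++ j :: k :: B).Perm (A ++ k :: j :: B) :=
  List.Perm.append_left _ (List.Perm.swap _ _ _)

/-- **The exchange of two neighbouring lines.** -/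
theorem PH_exchO (hn : (A ++ j :: k :: B).Nodup) (hc : c ∉ A ++ j :: k :: B)
    (hd : d ∉ A ++ j :: k :: B) (hcd : c ≠ d) (h1 : Go z (A ++ j :: k :: B))
    (h2 : Go z (A ++ k :: j :: B)) :
    PH z (A ++ j :: k :: B) ∘ₗ uops.R j k (z j - z k) = PH z (A ++ k :: j :: B) := by
  refine LinearMap.ext fun F => ?_
  set X := A ++ j :: k :: B with hX
  have hp : X.Perm (A ++ k :: j :: B) := swap_perm A B j k
  have hn' := hp.nodup_iff.1 hn
  have hjk : j ≠ k := by
    have := (List.nodup_append.1 hn).2.1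
    rw [List.nodup_cons] at this
    exact fun e => this.1 (by rw [e]; simp)
  have hD : Fm.Dn (z j - z k) ≠ 0 := by
    have h3 := (List.pairwise_append.1 h2).2.1
    exact ((List.pairwise_cons.1 h3).1 j (by simp)).2
  have e0 := gpath_zero (idf X) z
  have h := eq_of_path
    (f := fun t => (PH (gpath (idf X) z t) X ∘ₗ
      uops.R j k (gpath (idf X) z t j - gpath (idf X) z t k)) F)
    (g := fun t => PH (gpath (idf X) z t) (A ++ k :: j :: B) F)
    (DtF.comp (PH_dtO hn (fun x _ => gpath_diff _ z x 0) (by rw [e0]; exact h1))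
      (dt_R hjk (u := fun t => gpath (idf X) z t j - gpath (idf X) z t k)
        ((gpath_diff _ z j 0).fun_sub (gpath_diff _ z k 0)) (by simp only [e0]; exact hD)) F)
    (PH_dtO hn' (fun x _ => gpath_diff _ z x 0) (by rw [e0]; exact h2) F) ?_
  · simp only [e0] at h
    exact h
  · filter_upwards [ev_gpath (idf_inj X) z] with t ht
    exact LinearMap.congr_fun (PH_exch hn hc hd hcd ht) F

end rel

end Pool.Agent.TC
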