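import Pool.Agent.TC.WNear
import Pool.Agent.NUF.UInj
import Pool.Agent.NUF.UHex

/-!
# Type C, link: the honeycomb point is regular for the one leg functional

`live_majorP` : a function that increases under the column on a class of live states (and is `≤ 0` elsewhere) is not
positive.  Transported to the states with the exit occupied: `reg1_hex`, and the iterated columns tend to 0 on them.
-/

set_option autoImplicit false

namespace Pool.Agent.TC

open _root_.Pool.Agent.EXL _root_.Pool.Agent.EXL.Pat _root_.Pool.Agent.EXL.HS _root_.Pool.Agent.EXL.Site Pool.Agent.NUF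
  HexObs Filter Topology

section major

variable {α : Type*} [DecidableEq α] [Finite α] {b t : α} {A : Pat α → Prop} {X : (Pat α → ℝ) → (Pat α → ℝ)}

/-- A function on a class of live states that increases under the operator is not positive. -/
theorem live_majorP (hbt : b ≠ t) (hf : A (full b t)) (he : A Pat.empty) (hP : PosOp X) (hX : Good b t X)
    (PX : Pres A A X) {β : ℝ}
    (hβ : ∀ m, FF b t X (m + 1) Pat.empty - FF b t X m Pat.empty ≤ β)
    (hβ2 : Tendsto (fun m => FF b t X (m + 1) Pat.empty - FF b t X m Pat.empty) atTop (𝓝 β))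
    (hR : Reach A b t X) (hC : CoReach A b t X) {H : Pat α → ℝ}
    {P : Pat α → Prop} (h0 : ∀ p, ¬ (P p ∧ Live b t p ∧ A p) → H p ≤ 0)
    (h1 : ∀ p, P p → Live b t p → A p → H p ≤ X H p) (p : Pat α) : H p ≤ 0 := by
  classical
  have : Fintype (Pat α) := Fintype.ofFinite _
  have half := half_lim hbt hf he hP hX PX hβ hβ2 hR
  set F := Flim b t A X with hF
  have hge : ∀ m p, A p → p ≠ Pat.empty → FF b t X m p ≤ F p := by
    intro m p hp hne
    obtain ⟨K, hK⟩ := FF_bdd hP hX hβ hR hp hne
    rw [hF]
    unfold Flim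
    rw [if_pos ⟨hp, hne⟩]
    exact le_ciSup (f := fun m => FF b t X m p) ⟨K, by rintro _ ⟨m, rfl⟩; exact hK m⟩ m
  have hpos : ∀ p, Live b t p → A p → 0 < F p := by
    intro p hl hp
    obtain ⟨c, hc⟩ := hC p hl hp
    exact lt_of_lt_of_le hc (hge c p hp hl.2)
  have hnn : ∀ p, 0 ≤ F p := by
    intro p
    by_cases h : A p ∧ p ≠ Pat.empty
    · exact (FF_nonneg hP 0 p).trans (hge 0 p h.1 h.2)
    · rw [hF]
      unfold Flim
      rw [if_neg h]
  set C : ℝ := ∑ q, |H q| / F q with hCdef
  have hC0 : 0 ≤ C := Finset.sum_nonneg fun q _ => div_nonneg (abs_nonneg _) (hnn q)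
  have key : ∀ m p, Live b t p → A p → H p ≤ C * (F p - FF b t X m p) := by
    intro m
    induction m with
    | zero =>
      intro p hl hp
      have h0 : FF b t X 0 p = 0 := by
        apply ind_ne
        rintro rfl
        apply hl.1
        rw [full_apply, if_pos rfl]
      rw [h0, sub_zero]
      have h1 : |H p| / F p ≤ C :=
        Finset.single_le_sum (f := fun q => |H q| / F q)
          (fun q _ => div_nonneg (abs_nonneg _) (hnn q)) (Finset.mem_univ p)
      exact (le_abs_self _).trans ((div_le_iff₀ (hpos p hl hp)).1 h1)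
    | succ m ih =>
      intro p hl hp
      by_cases hbo : P p
      swap
      · refine (h0 p fun h => hbo h.1).trans ?_
        exact mul_nonneg hC0 (sub_nonneg.2 (hge _ p hp hl.2))
      -- the difference
      let D : Pat α → ℝ := fun q => if Live b t q ∧ A q then F q - FF b t X m q else 0
      have hD : ∀ q, H q ≤ C * D q := by
        intro q
        by_cases hq : Live b t q ∧ A q
        · have e : D q = F q - FF b t X m q := if_pos hq
          rw [e]
          exact ih q hq.1 hq.2
        · have e : D q = 0 := if_neg hq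
          rw [e, mul_zero]
          exact h0 q fun h => hq h.2
      have h2 : X H p ≤ X (fun q => C * D q) p := hP.mono hX.lin hD p
      rw [PosOp.smul hX.lin C D] at h2
      refine (h1 p hbo hl hp).trans (h2.trans (le_of_eq ?_))
      -- X D = F - FF (m + 1)
      have e1 : ∀ r, A r → (fun r => F r - FF b t X m r) r =
          (fun r => D r + (F Pat.empty - FF b t X m Pat.empty) * (dE : Pat α → ℝ) r) r := by
        intro r hr
        by_cases hr0 : r = Pat.empty
        · subst hr0
          simp only
          rw [dE_empty]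
          have e : D Pat.empty = 0 := if_neg (fun h => h.1.2 rfl)
          rw [e]
          ring
        · simp only
          rw [dE_ne hr0, mul_zero, add_zero]
          by_cases hrb : r b = t
          · have e : D r = 0 := if_neg (fun h => h.1.1 hrb)
            rw [e]
            rcases full_or_dead hrb with rfl | hd
            · rw [half.fullv, FF_full hX, sub_self]
            · rw [half.dead r hr hd, FF_dead hX m r hd, sub_self]
          · have e : D r = F r - FF b t X m r := if_pos ⟨⟨hrb, hr0⟩, hr⟩
            rw [e]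
      have h3 := PX _ _ e1 p hp
      rw [hX.lin.addSmul, hX.dE, hX.lin.sub] at h3
      simp only at h3
      rw [dE_ne hl.2, mul_zero, add_zero, half.eq p hp hl.2] at h3
      show C * X D p = _
      rw [← h3, FF_succ]
  by_cases hp : Live b t p ∧ A p
  · have h2 : Tendsto (fun m => C * (F p - FF b t X m p)) atTop (𝓝 (C * (F p - F p))) :=
      (tendsto_const_nhds.sub (Flim_tendsto hP hX hβ hR hp.2 hp.1.2)).const_mul _
    rw [sub_self, mul_zero] at h2
    exact ge_of_tendsto' h2 fun m => key m p hp.1 hp.2
  · exact h0 p fun h => hp h.2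

end major

theorem live_majorP_colH {N : ℕ} (hN : 1 ≤ N) {H : Pat (Site N) → ℝ} {P : Pat (Site N) → Prop}
    (h0 : ∀ p, ¬ (P p ∧ HS.Live fl tp p ∧ AN N p) → H p ≤ 0)
    (h1 : ∀ p, P p → HS.Live fl tp p → AN N p → H p ≤ colH N H p) (p : Pat (Site N)) : H p ≤ 0 := by
  refine live_majorP (β := bT N) (by simp) (AN_full N) (AN_empty N) (posOp_colH N) (good_colH N)
    (pres_colH N) ?_ ?_ (reach N) (coReach_AN N) h0 h1 p
  · intro m
    rw [FF_eq, FF_eq, Zm_eq_Zw hN, Zm_eq_Zw hN]
    exact (Zw_step_le hN m).2
  · have h := Zw_step_tendsto hN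
    simp only [← Zm_eq_Zw hN, ← FF_eq] at h
    exact h

/-! ### Transport -/

section nc

variable {α β γ : Type*}

/-- planarity is transported by embeddings with the same order of the occupied sites. -/
theorem nc_transfer (E : Pat.Emb γ α) (E' : Pat.Emb γ β) (h0 : E.p₀ = Pat.empty) (h0' : E'.p₀ = Pat.empty)
    {r : α → ℤ} {r' : β → ℤ} {q : Pat γ}
    (h : ∀ x y, q x ≠ x → q y ≠ y → (r (E.φ x) < r (E.φ y) ↔ r' (E'.φ x) < r' (E'.φ y)))
    (hnc : NC r (E.st q)) : NC r' (E'.st q) := by
  intro a b hab hba
  have out : ∀ x, (¬ ∃ c, E'.φ c = x) → E'.st q x = x := by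
    intro x hx
    rw [Pat.Emb.st_apply' _ _ hx, h0']
    rfl
  by_cases ha : ∃ c, E'.φ c = a
  swap
  · rw [out a ha] at hba
    omega
  by_cases hb : ∃ c, E'.φ c = b
  swap
  · rw [out b hb]
    exact ⟨hab, hba⟩
  obtain ⟨x, rfl⟩ := ha
  obtain ⟨y, rfl⟩ := hb
  rw [Pat.Emb.st_apply] at hba ⊢
  rw [Pat.Emb.st_apply]
  by_cases hx : q x = x
  · rw [hx] at hba
    omega
  by_cases hy : q y = y
  · rw [hy]
    exact ⟨hab, hba⟩
  have qx : q (q x) ≠ q x := by
    rw [q.inv]
    exact fun e => hx e.symm
  have qy : q (q y) ≠ q y := by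
    rw [q.inv]
    exact fun e => hy e.symm
  have k := hnc (E.φ x) (E.φ y) ((h x y hx hy).2 hab) (by rw [Pat.Emb.st_apply]; exact (h y (q x) hy qx).2 hba)
  rw [Pat.Emb.st_apply, Pat.Emb.st_apply] at k
  exact ⟨(h x (q y) hx qy).1 k.1, (h (q y) (q x) qy qx).1 k.2⟩

end nc

section trans

variable {α : Type*} [DecidableEq α] {X : List α} {b c : α}

/-- the rows, the exit and the auxiliary line in the sites of the strip. -/
def E3 (N : ℕ) : Pat.Emb (Option (Option (Fin N))) (Site N) where
  φ o := o.elim (ax 0) (fun o => o.elim fl row)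
  inj a b h := by
    rcases a with _ | _ | a <;> rcases b with _ | _ | b <;>
      simp only [Option.elim_none, Option.elim_some, row.injEq, reduceCtorEq] at h ⊢
    rw [h]
  p₀ := Pat.empty
  closed b := ⟨b, rfl⟩

/-- the same in the sites of a list. -/
def E4 (hn : (b :: X).Nodup) (hc : c ∉ b :: X) : Pat.Emb (Option (Option (Fin X.length))) α where
  φ o := o.elim c (fun o => o.elim b X.get)
  inj x y h := by
    have hcb : c ≠ b := (notMem_cons hc).1
    have hcX : c ∉ X := (notMem_cons hc).2
    have hbX : b ∉ X := (List.nodup_cons.1 hn).1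
    rcases x with _ | _ | x <;> rcases y with _ | _ | y <;>
      simp only [Option.elim_none, Option.elim_some] at h
    · rfl
    · exact absurd h hcb
    · exact absurd (h ▸ List.get_mem X y) hcX
    · exact absurd h.symm hcb
    · rfl
    · exact absurd (h ▸ List.get_mem X y) hbX
    · exact absurd (h ▸ List.get_mem X x) hcX
    · exact absurd (h ▸ List.get_mem X x) hbX
    · rw [(List.nodup_cons.1 hn).2.injective_get h]
  p₀ := Pat.empty
  closed b := ⟨b, rfl⟩

/-- the abstract column. -/
def colD (w : Wt ℝ) (N : ℕ) : (Pat (Option (Option (Fin N))) → ℝ) → Pat (Option (Option (Fin N))) → ℝ :=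
  colF (fun _ => w) none ((List.finRange N).map fun i => some (some i))

/-- the column of the list. -/
theorem colF_st3 (w : Wt ℝ) (hn : (b :: X).Nodup) (hc : c ∉ b :: X) (F : Pat α → ℝ)
    (q : Pat (Option (Option (Fin X.length)))) :
    colF (fun _ => w) c X F ((E4 hn hc).st q) = colD w X.length (fun q => F ((E4 hn hc).st q)) q := by
  have e3 : X = ((List.finRange X.length).map fun i => some (some i)).map (E4 hn hc).φ := by
    rw [List.map_map]
    exact (List.map_get_finRange X).symm
  unfold colD colF
  show emp ((E4 hn hc).φ none) _ ((E4 hn hc).st q) = _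
  rw [emp_st]
  congr 1
  funext q'
  have e4 : EXL.M (fun _ => w) c X (emp c F) ((E4 hn hc).st q') =
      EXL.M (fun _ => w) ((E4 hn hc).φ none) (((List.finRange X.length).map fun i => some (some i)).map
        (E4 hn hc).φ) (emp ((E4 hn hc).φ none) F) ((E4 hn hc).st q') := by
    rw [← e3]
    rfl
  rw [e4, M_st]
  congr 1
  funext q''
  rw [emp_st]

/-- the honeycomb column dominates the column without the exits. -/
theorem colH_ge {N : ℕ} {F : Pat (Site N) → ℝ} (hF : ∀ p, 0 ≤ F p) (q : Pat (Option (Option (Fin N)))) :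
    colD (hexW xc) N (fun q => F ((E3 N).st q)) q ≤ colH N F ((E3 N).st q) := by
  rw [colH_eq]
  unfold HS.CC
  have hx : (hexW xc).Nn := hexW_nn xc_pos.le
  have e1 : ∀ G : Pat (Site N) → ℝ, (∀ p, 0 ≤ G p) → ∀ p, emp (ax 0) G p ≤ bc (ax 0) fl G p := by
    intro G hG p
    unfold emp bc
    split_ifs
    · linarith [hG (cup (ax 0) fl p)]
    · exact le_rfl
    · exact le_rfl
  have e2 : ∀ p, emp (ax 0) F p ≤ tc (ax 0) tp F p := by
    intro p
    unfold emp tc
    split_ifs
    · exact le_rfl
    · exact hF _
    · exact le_rfl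
  have e3 : ∀ p, EXL.M (fun _ => hexW xc) (ax 0) (rowsL N) (emp (ax 0) F) p ≤
      EXL.M (fun _ => hexW xc) (ax 0) (rowsL N) (tc (ax 0) tp F) p := by
    intro p
    have hL := lin_M (fun _ => hexW xc) (ax 0 : Site N) (rowsL N)
    have h1 := M_nn (fun _ => hx) (ax 0 : Site N) (rowsL N)
      (F := fun r => 1 * tc (ax 0) tp F r + (-1) * emp (ax 0) F r) (fun r => by linarith [e2 r]) p
    rw [hL] at h1
    linarith
  have e4 : ∀ p, 0 ≤ EXL.M (fun _ => hexW xc) (ax 0) (rowsL N) (tc (ax 0) tp F) p :=
    fun p => M_nn (fun _ => hx) _ _ (tc_nn _ _ hF) p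
  refine le_trans ?_ (e1 _ e4 _)
  have e5 : rowsL N = ((List.finRange N).map fun i => some (some i)).map (E3 N).φ := by
    unfold rowsL
    rw [List.map_map]
    rfl
  have e6 : colD (hexW xc) N (fun q => F ((E3 N).st q)) q =
      emp (ax 0) (EXL.M (fun _ => hexW xc) (ax 0) (rowsL N) (emp (ax 0) F)) ((E3 N).st q) := by
    unfold colD colF
    have e0 : (ax 0 : Site N) = (E3 N).φ none := rfl
    rw [e5, e0, emp_st]
    congr 1
    funext q'
    rw [M_st]
    congr 1
    funext q''
    rw [emp_st]
  rw [e6]
  unfold emp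
  split_ifs
  · exact e3 _
  · exact le_rfl

/-- the function of the strip that belongs to a function on the list. -/
noncomputable def lift3 (hn : (b :: X).Nodup) (hc : c ∉ b :: X) (G : Pat α → ℝ) : Pat (Site X.length) → ℝ :=
  open scoped Classical in
  fun p => if h : ∃ q, (E3 X.length).st q = p ∧ q none = none then G ((E4 hn hc).st h.choose) else 0

theorem lift3_st (hn : (b :: X).Nodup) (hc : c ∉ b :: X) (G : Pat α → ℝ) {q : Pat (Option (Option (Fin X.length)))}
    (hq : q none = none) : lift3 hn hc G ((E3 X.length).st q) = G ((E4 hn hc).st q) := by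
  classical
  have hex : ∃ q', (E3 X.length).st q' = (E3 X.length).st q ∧ q' none = none := ⟨q, rfl, hq⟩
  unfold lift3
  rw [dif_pos hex]
  congr 2
  exact st_inj _ hex.choose_spec.1

theorem lift3_nn (hn : (b :: X).Nodup) (hc : c ∉ b :: X) {G : Pat α → ℝ} (hG : ∀ p, 0 ≤ G p) (p) :
    0 ≤ lift3 hn hc G p := by
  unfold lift3
  split_ifs
  · exact hG _
  · exact le_rfl

/-- the order of the sites. -/
theorem ord34 (hn : (b :: X).Nodup) (hc : c ∉ b :: X) {q : Pat (Option (Option (Fin X.length)))}
    (hq : q none = none) (x y : Option (Option (Fin X.length))) (hx : q x ≠ x) (hy : q y ≠ y) :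
    (((b :: X).idxOf ((E4 hn hc).φ x) : ℤ) < ((b :: X).idxOf ((E4 hn hc).φ y) : ℤ) ↔
      rk ((E3 X.length).φ x) < rk ((E3 X.length).φ y)) := by
  have hbX : b ∉ X := (List.nodup_cons.1 hn).1
  have hnX : X.Nodup := (List.nodup_cons.1 hn).2
  have hget : ∀ i : Fin X.length, (b :: X).idxOf (X.get i) = (i : ℕ) + 1 := by
    intro i
    have hne : X.get i ≠ b := fun e => hbX (by rw [← e]; exact List.get_mem X i)
    rw [idx_cons_ne hne, idx_get hnX]
  have hb : (b :: X).idxOf b = 0 := idx_cons_self b X
  have r0 : rk (fl : Site X.length) = 0 := rfl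
  have r1 : ∀ k : Fin X.length, rk (row k) = 2 * (k : ℤ) + 2 := fun k => rfl
  rcases x with _ | _ | i
  · exact absurd hq hx
  · rcases y with _ | _ | j
    · exact absurd hq hy
    · show (((b :: X).idxOf b : ℤ) < ((b :: X).idxOf b : ℤ) ↔ rk (fl : Site X.length) < rk (fl : Site X.length))
      constructor <;> intro h <;> omega
    · show (((b :: X).idxOf b : ℤ) < ((b :: X).idxOf (X.get j) : ℤ) ↔
        rk (fl : Site X.length) < rk (row j))
      rw [hb, hget, r0, r1]
      constructor <;> intro h <;> [omega; (push_cast; omega)]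
  · rcases y with _ | _ | j
    · exact absurd hq hy
    · show (((b :: X).idxOf (X.get i) : ℤ) < ((b :: X).idxOf b : ℤ) ↔
        rk (row i) < rk (fl : Site X.length))
      rw [hb, hget, r0, r1]
      push_cast
      constructor <;> intro h <;> omega
    · show (((b :: X).idxOf (X.get i) : ℤ) < ((b :: X).idxOf (X.get j) : ℤ) ↔ rk (row i) < rk (row j))
      rw [hget, hget, r1, r1]
      push_cast
      constructor <;> intro h <;> omega

/-- **The majorant.**  A nonnegative function supported on the states with the exit occupied that increases under the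
honeycomb column vanishes. -/
theorem major1_hex (hn : (b :: X).Nodup) (hc : c ∉ b :: X) {G : Pat α → ℝ} (h0 : ∀ p, 0 ≤ G p)
    (hs : ∀ p, ¬ A1 b X p → G p = 0)
    (h1 : ∀ p, A1 b X p → G p ≤ colF (fun _ => hexW xc) c X G p) (p : Pat α) : G p = 0 := by
  classical
  by_cases hp : A1 b X p
  swap
  · exact hs p hp
  have hbX : b ∉ X := (List.nodup_cons.1 hn).1
  have hmem : ∀ x, x ∈ b :: X → p x ∈ b :: X := by
    intro x hx
    by_contra h'
    have h1 := ax_out hp.1 h'
    rw [p.inv] at h1
    exact h' (h1 ▸ hx)
  by_cases hN : 1 ≤ X.length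
  swap
  · exfalso
    have hX : X = [] := by
      rw [← List.length_eq_zero_iff]
      omega
    subst hX
    have h2 := hmem b (by simp)
    simp only [List.mem_singleton] at h2
    exact hp.2 h2
  -- the state comes from the abstract states
  have hex : ∀ x, x ∈ b :: X → ∃ o : Option (Fin X.length), (E4 hn hc).φ (some o) = x := by
    intro x hx
    rcases List.mem_cons.1 hx with rfl | hx
    · exact ⟨none, rfl⟩
    · obtain ⟨i, hi⟩ := List.get_of_mem hx
      exact ⟨some i, hi⟩
  obtain ⟨q, hq⟩ := exists_st (E4 hn hc) p (by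
    intro o
    rcases o with _ | o
    · refine ⟨none, ?_⟩
      exact ax_out hp.1 hc
    · have hm : (E4 hn hc).φ (some o) ∈ b :: X := by
        rcases o with _ | i
        · exact List.mem_cons_self
        · exact List.mem_cons_of_mem _ (List.get_mem X i)
      obtain ⟨o', ho'⟩ := hex _ (hmem _ hm)
      exact ⟨some o', ho'.symm⟩) (by
    intro x hx
    apply ax_out hp.1
    intro hxX
    obtain ⟨o, ho⟩ := hex x hxX
    exact hx ⟨some o, ho⟩)
  have hqn : q none = none := by
    apply (E4 hn hc).inj
    rw [← Pat.Emb.st_apply, hq]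
    exact ax_out hp.1 hc
  -- the function of the strip
  have key := live_majorP_colH hN (H := lift3 hn hc G)
    (P := fun p => ∃ q, (E3 X.length).st q = p ∧ q none = none ∧ A1 b X ((E4 hn hc).st q)) ?_ ?_
    ((E3 X.length).st q)
  · rw [lift3_st hn hc G hqn, hq] at key
    exact le_antisymm key (h0 p)
  · intro p' hp'
    by_contra hcon
    apply hp'
    push Not at hcon
    have hex' : ∃ q, (E3 X.length).st q = p' ∧ q none = none := by
      by_contra h
      unfold lift3 at hcon
      rw [dif_neg h] at hcon
      exact lt_irrefl _ hcon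
    obtain ⟨q', rfl, hq'⟩ := hex'
    rw [lift3_st hn hc G hq'] at hcon
    have hA : A1 b X ((E4 hn hc).st q') := by
      by_contra h
      rw [hs _ h] at hcon
      exact lt_irrefl _ hcon
    refine ⟨⟨q', rfl, hq', hA⟩, ⟨?_, ?_⟩, ⟨?_, ?_⟩⟩
    · -- the walk is not complete
      have e : (fl : Site X.length) = (E3 X.length).φ (some none) := rfl
      rw [e, Pat.Emb.st_apply]
      intro h
      rcases hqq : q' (some none) with _ | _ | i
      · rw [hqq] at h
        exact absurd h (by simp [E3])
      · rw [hqq] at h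
        exact absurd h (by simp [E3])
      · rw [hqq] at h
        exact absurd h (by simp [E3])
    · intro h
      apply hA.2
      have e2 : (E3 X.length).st q' ((E3 X.length).φ (some none)) = (E3 X.length).φ (some none) := by
        rw [h]
        rfl
      rw [Pat.Emb.st_apply] at e2
      have e3 := (E3 X.length).inj e2
      have e4 := Pat.Emb.st_apply (E4 hn hc) q' (some none)
      rw [e3] at e4
      exact e4
    · intro x hx
      unfold DN at hx
      simp only [Set.mem_ofPred_eq, not_forall, not_not] at hx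
      obtain ⟨k, rfl⟩ := hx
      by_cases hk : k = 0
      · subst hk
        have e : (ax 0 : Site X.length) = (E3 X.length).φ none := rfl
        rw [e, Pat.Emb.st_apply, hq']
      · rw [Pat.Emb.st_apply']
        · rfl
        · rintro ⟨o, ho⟩
          rcases o with _ | _ | o
          · exact hk (by simpa [E3] using ho.symm)
          · simp [E3] at ho
          · simp [E3] at ho
    · exact nc_transfer (E4 hn hc) (E3 X.length) rfl rfl (ord34 hn hc hq') hA.1.nc
  · rintro p' ⟨q', rfl, hq', hA⟩ _ _
    refine le_trans ?_ (colH_ge (lift3_nn hn hc h0) q')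
    rw [lift3_st hn hc G hq']
    refine (h1 _ hA).trans (le_of_eq ?_)
    rw [colF_st3]
    unfold colD colF
    congr 2
    funext r
    unfold emp
    split_ifs with hr
    · exact (lift3_st hn hc G hr).symm
    · rfl

end trans

/-! ### The honeycomb point -/

section hex

variable {α : Type*} [DecidableEq α] {X : List α} {b c : α}

/-- injectivity over the real numbers. -/
theorem inj1_real (hn : (b :: X).Nodup) (hc : c ∉ b :: X) : InjN (A1 b X) (colF (fun _ => hexW xc) c X) := by
  intro G h0 h1 p
  have hL := lin_colF (fun _ => hexW xc) c X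
  have hP := colF_pos c X
  have h := major1_hex hn hc (G := fun q => |G q|) (fun q => abs_nonneg _)
    (fun q hq => by rw [h0 q (fun h => hq h.2), abs_zero]) (by
      intro q hA
      have hq : q ≠ Pat.empty := fun e => A1_ne b X (e ▸ hA)
      have h2 : |colF (fun _ => hexW xc) c X G q| ≤ colF (fun _ => hexW xc) c X (fun r => |G r|) q := by
        rw [abs_le]
        constructor
        · have h3 := hP.mono hL (F := fun r => (-1 : ℝ) * |G r|) (G := G)
            (fun r => by
              have := neg_abs_le (G r)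
              linarith) q
          rw [PosOp.smul hL (-1) (fun r => |G r|)] at h3
          linarith
        · exact hP.mono hL (fun r => le_abs_self _) q
      rw [h1 q hq hA] at h2
      exact h2) p
  exact abs_eq_zero.1 h

/-- injectivity over the complex numbers. -/
theorem inj1_cx (hn : (b :: X).Nodup) (hc : c ∉ b :: X) :
    InjN (A1 b X) (colF (fun _ => hexW (xc : ℂ)) c X) := by
  intro G h0 h1 p
  have hsplit := cx_split (lin_colF (fun _ => hexW (xc : ℂ)) c X) (colF_ofReal c X) G
  have key : ∀ q, q ≠ Pat.empty → A1 b X q → colF (fun _ => hexW xc) c X (fun q => (G q).re) q = (G q).re ∧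
      colF (fun _ => hexW xc) c X (fun q => (G q).im) q = (G q).im := by
    intro q hq hA
    have h2 := h1 q hq hA
    rw [hsplit] at h2
    constructor
    · have := congrArg Complex.re h2
      simpa using this
    · have := congrArg Complex.im h2
      simpa using this
  apply Complex.ext
  · exact inj1_real hn hc (fun q => (G q).re) (fun q hq => by rw [h0 q hq]; rfl)
      (fun q hq hA => (key q hq hA).1) p
  · exact inj1_real hn hc (fun q => (G q).im) (fun q hq => by rw [h0 q hq]; rfl)
      (fun q hq hA => (key q hq hA).2) p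

/-- **The honeycomb point is regular for the one leg functional.** -/
theorem reg1_hex {z : α → ℂ} (hn : (b :: X).Nodup) (hz : ∀ j ∈ X, z j = Real.pi / 16) : Reg1 z b X := by
  intro c hc
  rw [T0_hex hz (notMem_cons hc).2]
  exact inj1_cx hn hc

/-- the exit stays occupied (real column). -/
theorem pres1_real (hn : (b :: X).Nodup) (hc : c ∉ b :: X) :
    Pres (A1 b X) (A1 b X) (colF (fun _ => hexW xc) c X) := by
  intro F G hFG p hp
  have h := pres_A1 (fun _ => (Real.pi / 16 : ℂ)) hn hc (fun q => (F q : ℂ)) (fun q => (G q : ℂ))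
    (fun q hq => by rw [hFG q hq]) p hp
  have e := T0_hex (z := fun _ : α => (Real.pi / 16 : ℂ)) (X := X) (fun _ _ => rfl) (notMem_cons hc).2
  have e1 := congrFun e (fun q => (F q : ℂ))
  have e2 := congrFun e (fun q => (G q : ℂ))
  simp only at e1 e2 h
  rw [e1, e2, colF_ofReal, colF_ofReal] at h
  simp only at h
  exact_mod_cast h

/-- **The iterated honeycomb columns tend to 0 on the states with the exit occupied.** -/
theorem iter1_tendsto [Finite α] (hn : (b :: X).Nodup) (hc : c ∉ b :: X) (F : Pat α → ℝ) {p : Pat α}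
    (hA : A1 b X p) : Tendsto (fun n => (colF (fun _ => hexW xc) c X)^[n] F p) atTop (𝓝 0) :=
  iterate_tendsto (colF_pos c X) (lin_colF _ c X) (pres1_real hn hc)
    (fun q _ => by rw [colF_ind _ (notMem_cons hc).2]) (inj1_real hn hc)
    (fun _ h0 hs h1 => major1_hex hn hc h0 (fun q hq => hs q fun h => hq h.2)
      (fun q hq => h1 q (fun e => A1_ne b X (e ▸ hq)) hq)) F (fun e => A1_ne b X (e ▸ hA)) hA

theorem iter1_tendsto_cx [Finite α] (hn : (b :: X).Nodup) (hc : c ∉ b :: X) (F : Pat α → ℂ) {p : Pat α}
    (hA : A1 b X p) : Tendsto (fun n => (colF (fun _ => hexW (xc : ℂ)) c X)^[n] F p) atTop (𝓝 0) := by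
  have h1 := iter1_tendsto hn hc (fun q => (F q).re) hA
  have h2 := iter1_tendsto hn hc (fun q => (F q).im) hA
  have e : ∀ n, (colF (fun _ => hexW (xc : ℂ)) c X)^[n] F p =
      (((colF (fun _ => hexW xc) c X)^[n] (fun q => (F q).re) p : ℝ) : ℂ) +
        Complex.I * (((colF (fun _ => hexW xc) c X)^[n] (fun q => (F q).im) p : ℝ) : ℂ) := by
    intro n
    exact cx_split (lin_iterate (lin_colF (fun _ => hexW (xc : ℂ)) c X) n)
      (fun G => colF_iterate_ofReal c X G n) F p
  have h3 : Tendsto (fun n => (((colF (fun _ => hexW xc) c X)^[n] (fun q => (F q).re) p : ℝ) : ℂ) +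
        Complex.I * (((colF (fun _ => hexW xc) c X)^[n] (fun q => (F q).im) p : ℝ) : ℂ)) atTop
        (𝓝 (((0 : ℝ) : ℂ) + Complex.I * ((0 : ℝ) : ℂ))) :=
    ((Complex.continuous_ofReal.tendsto _).comp h1).add
      (((Complex.continuous_ofReal.tendsto _).comp h2).const_mul _)
  simp only [Complex.ofReal_zero, mul_zero, add_zero] at h3
  exact h3.congr fun n => (e n).symm

end hex

end Pool.Agent.TC
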