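import Pool.Agent.TC.Fix
import Pool.Agent.TC.WHex
import Pool.Agent.NUF.PRels
import Pool.Agent.NUF.UTv

/-!
# The exit functional is `Q` times the one leg functional of the strip (helper92)

`PS_good`: `PS z b X = Q • WW z b X`, `Q = Fr.Qs (ux z) X.toFinset`, for good rows and a regular exit.
`Reg1.rev`: the reversed list at the opposite rapidities (so that both discs are regular at the honeycomb point).
`PS_near`, `PS_lim` : near the honeycomb point and at it.
-/

set_option autoImplicit false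

namespace Pool.Agent.TC

open _root_.Pool.Agent.EXL _root_.Pool.Agent.EXL.Pat _root_.Pool.Agent.EXL.HS Filter Topology
open _root_.Pool.Agent.EXL.Fm (lam)
open _root_.Pool.Agent.NUF _root_.Pool.Agent.NUU _root_.Pool.Agent.NUTV

variable {α : Type*} [DecidableEq α] {z : α → ℂ} {X : List α} {b c d : α}

/-! ### The reversed list -/

theorem a1_rev (hn : (b :: X).Nodup) (p : Pat α) : A1 b X.reverse p ↔ A1 b X p := by
  have hn' : (b :: X.reverse).Nodup := by
    rw [List.nodup_cons, List.mem_reverse, List.nodup_reverse]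
    exact List.nodup_cons.1 hn
  have e : AX (b :: X.reverse) = AX (X.reverse ++ [b]) :=
    funext fun _ => propext ⟨ax_rotate hn', ax_rotate' hn'⟩
  have e2 : X.reverse ++ [b] = (b :: X).reverse := by simp
  unfold A1
  rw [e, e2, ax_reverse hn]

theorem nodup_rev (hn : (b :: X).Nodup) : (b :: X.reverse).Nodup := by
  rw [List.nodup_cons, List.mem_reverse, List.nodup_reverse]
  exact List.nodup_cons.1 hn

/-- `T0_rev` with the condition on the two auxiliary sites only. -/
theorem T0_rev' (hn : X.Nodup) (hcd : c ≠ d) (hc : c ∉ X) (hd : d ∉ X) (F : Pat α → ℂ) {p : Pat α}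
    (hpc : p c = c) (hpd : p d = d) : T0 z c X F p = T0 (fun j => -z j) d X.reverse F p := by
  have hd' : d ∉ X.reverse := by simpa using hd
  have h1 := congrFun (congrFun (T0_fun z hc) F) p
  have h2 := congrFun (congrFun (T0_fun (fun j => -z j) hd') F) p
  rw [h1, h2, colF_rev _ hn hcd.symm hd hc F hpc hpd]
  congr 2
  funext j
  rw [← rwt_cross]
  congr 1
  ring

theorem Reg1.rev (hn : (b :: X).Nodup) (hcd : c ≠ d) (hc : c ∉ b :: X) (hd : d ∉ b :: X)
    (hR : Reg1 z b X) : Reg1 (fun j => -z j) b X.reverse := by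
  have hd' : d ∉ b :: X.reverse := by simpa using hd
  apply reg1_of (nodup_rev hn) hd'
  intro G h0 h1 p
  refine hR c hc G (fun q hq => h0 q fun h => hq ⟨h.1, (a1_rev hn q).1 h.2⟩) (fun q hq hA => ?_) p
  have h2 := h1 q hq ((a1_rev hn q).2 hA)
  show T0 z c X G q = G q
  rw [T0_rev' (List.nodup_cons.1 hn).2 hcd (notMem_cons hc).2 (notMem_cons hd).2 G (ax_out hA.1 hc)
    (ax_out hA.1 hd)]
  exact h2

/-- **The honeycomb point of the other disc.** -/
theorem reg1_hex' (hn : (b :: X).Nodup) (hcd : c ≠ d) (hc : c ∉ b :: X) (hd : d ∉ b :: X)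
    (hz : ∀ j ∈ X, z j = -(Real.pi / 16)) : Reg1 z b X := by
  have h1 : Reg1 (fun j => -z j) b X.reverse := reg1_hex (nodup_rev hn) fun j hj => by
    rw [hz j (by simpa using hj), neg_neg]
  have h2 := h1.rev (nodup_rev hn) hcd (by simpa using hc) (by simpa using hd)
  rw [List.reverse_reverse] at h2
  exact h2.congr fun j _ => neg_neg _

/-! ### The support -/

/-- a functional with planar support and with the exit occupied -/
theorem sup_A1 {W : Fnl α} (hW : Sup (b :: X) W) (hE : ∀ F, W (opE ℂ b F) = 0) : SupF (A1 b X) W := by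
  intro F hF
  have e : W F = W (F - opE ℂ b F) := by rw [map_sub, hE, sub_zero]
  rw [e]
  apply hW
  intro q hq
  rw [Pi.sub_apply, opE_apply]
  split_ifs with h
  · rw [sub_self]
  · rw [hF q ⟨hq, h⟩, sub_zero]

variable [Finite α]

theorem PS_supA (hn : (b :: X).Nodup) (hc : c ∉ b :: X) (hd : d ∉ b :: X) (hcd : c ≠ d)
    (hG : Go z X) : SupF (A1 b X) (PS z b X) := sup_A1 (PS_sup hn hc hd hcd hG) (PS_E hn)

/-- **Uniqueness**, in the form used below: `W` and `q W'`. -/
theorem eq_smul_WW {W : Fnl α} {q : ℂ} (hn : (b :: X).Nodup) (hc : c ∉ b :: X) (hR : Reg z X)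
    (hR1 : Reg1 z b X) (hW : SupF (A1 b X) W)
    (h : W - W ∘ₗ T0 z c X = (q • VV z X) ∘ₗ T1 z c b X) : W = q • WW z b X := by
  have hWW := isW_WW hn hc hR hR1
  refine sol_unique (A1_ne b X) (hR1 c hc) hW ?_ ?_
  · intro F hF
    rw [LinearMap.smul_apply, hWW.sup F hF, smul_zero]
  · rw [h, LinearMap.smul_comp, LinearMap.smul_comp, ← hWW.eq c hc, smul_sub]

/-- **The exit functional of good rows.** -/
theorem PS_good (h : Good z X) (hn : (b :: X).Nodup) (hc : c ∉ b :: X) (hd : d ∉ b :: X)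
    (hcd : c ≠ d) (hR1 : Reg1 z b X) : PS z b X = Fr.Qs (ux z) X.toFinset • WW z b X := by
  have hb := (List.nodup_cons.1 hn).1
  have hbc : b ≠ c := fun e => hc (by simp [e])
  have hGz : Gz z X := by
    refine ⟨fun i hi j hj hij => ?_, fun i hi j hj hij => ?_⟩
    · have := h.s j hj i hi hij.symm
      unfold ux at this
      rwa [sub_sub_sub_cancel_left] at this
    · have := h.d j hj i hi hij.symm
      unfold ux at this
      rwa [sub_sub_sub_cancel_left] at this
  have hR := h.reg X (List.Sublist.refl _)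
  refine eq_smul_WW hn hc hR hR1 (PS_supA hn hc hd hcd (go_of hGz h.nd)) ?_
  rw [PS_fix_gz h.nd hb (notMem_cons hc).2 hbc hGz h.D, T1_eq,
    PH_good hbc _ X rfl h hb (notMem_cons hc).2]

/-! ### The honeycomb point -/

/-- the values of `Q` at the honeycomb point -/
noncomputable def Qh (n : ℕ) : ℂ := Fr.qc (List.replicate n (NUMv.cc z0))

omit [DecidableEq α] [Finite α] in
theorem qc_tend {Z : Type*} {l : Filter Z} {ζ : Z → α → ℂ} {s : ℂ} (hs : s = 1 ∨ s = -1)
    (hζ : ∀ x ∈ X, Tendsto (fun y => ζ y x) l (𝓝 (s * z0))) :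
    Tendsto (fun y => Fr.qc (X.map fun i => NUMv.cc (ζ y i))) l (𝓝 (Qh X.length)) := by
  have hcc : NUMv.cc (s * z0) = NUMv.cc z0 := by
    rcases hs with rfl | rfl
    · rw [one_mul]
    · unfold NUMv.cc
      rw [show 2 * (-1 * z0) = -(2 * z0) by ring, Complex.cos_neg]
  have e : List.replicate X.length (NUMv.cc z0) = X.map fun _ => NUMv.cc z0 := by
    rw [List.map_const']
  unfold Qh Fr.qc NUMv.ev
  rw [e]
  simp only [List.length_map]
  refine ((MvPolynomial.continuous_eval _).tendsto _).comp (tendsto_pi_nhds.2 fun k => ?_)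
  unfold NUMv.pt
  by_cases hk : k < X.length
  · have h1 : ∀ f : α → ℂ, (X.map f).getD k 0 = f X[k] := fun f => by
      rw [List.getD_eq_getElem _ _ (by simpa using hk), List.getElem_map]
    simp only [h1]
    rw [← hcc]
    have hc : Continuous NUMv.cc := by
      unfold NUMv.cc
      fun_prop
    exact (hc.tendsto _).comp (hζ _ (List.getElem_mem hk))
  · have h1 : ∀ f : α → ℂ, (X.map f).getD k 0 = 0 := fun f =>
      List.getD_eq_default _ _ (by simpa using not_lt.1 hk)
    simp only [h1]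
    exact tendsto_const_nhds

section tend

variable {Z : Type*} {l : Filter Z} {ζ : Z → α → ℂ} {s : ℂ}

omit [DecidableEq α] in
/-- `s z0` is regular for the column. -/
theorem okR_s (hs : s = 1 ∨ s = -1) : okR (3 * Real.pi / 16 - s * z0) := by
  rcases hs with rfl | rfl
  · exact okR_t (t := 1) (by norm_num) (by norm_num) (by unfold z0 lam; push_cast; ring)
  · exact okR_t (t := 2) (by norm_num) (by norm_num) (by unfold z0 lam; push_cast; ring)

omit [Finite α] in
theorem reg_s (hn : X.Nodup) (hs : s = 1 ∨ s = -1) (hc : c ∉ X) (hd : d ∉ X) (hcd : c ≠ d) :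
    Reg (fun _ : α => s * z0) X := by
  rcases hs with rfl | rfl
  · exact reg_hex hn fun j _ => by
      rw [one_mul]
      rfl
  · have h1 : Reg (fun _ : α => z0) X.reverse := reg_hex (List.nodup_reverse.2 hn) fun j _ => rfl
    have h2 := h1.rev (List.nodup_reverse.2 hn) hcd (by simpa using hc) (by simpa using hd)
    rw [List.reverse_reverse] at h2
    exact h2.congr fun j _ => (neg_one_mul _).symm

omit [Finite α] in
theorem reg1_s (hn : (b :: X).Nodup) (hs : s = 1 ∨ s = -1) (hc : c ∉ b :: X) (hd : d ∉ b :: X)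
    (hcd : c ≠ d) : Reg1 (fun _ : α => s * z0) b X := by
  rcases hs with rfl | rfl
  · exact reg1_hex hn fun j _ => by
      rw [one_mul]
      rfl
  · exact reg1_hex' hn hcd hc hd fun j _ => by
      rw [neg_one_mul]
      rfl

/-- the rapidities outside the list do not matter -/
noncomputable def ζc (ζ : Z → α → ℂ) (s : ℂ) (X : List α) (y : Z) : α → ℂ :=
  fun x => if x ∈ X then ζ y x else s * z0

omit [Finite α] in
theorem ζc_tend (hζ : ∀ x ∈ X, Tendsto (fun y => ζ y x) l (𝓝 (s * z0))) :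
    Tendsto (ζc ζ s X) l (𝓝 fun _ => s * z0) := by
  refine tendsto_pi_nhds.2 fun x => ?_
  unfold ζc
  by_cases hx : x ∈ X
  · simp only [if_pos hx]
    exact hζ x hx
  · simp only [if_neg hx]
    exact tendsto_const_nhds

omit [Finite α] in
theorem ζc_eq (y : Z) : ∀ x ∈ X, ζc ζ s X y x = ζ y x := fun x hx => by
  unfold ζc
  rw [if_pos hx]

/-- near the honeycomb point the rows are good -/
theorem good_ev (hn : X.Nodup) (hs : s = 1 ∨ s = -1) (hc : c ∉ X) (hd : d ∉ X) (hcd : c ≠ d)
    (hζ : ∀ x ∈ X, Tendsto (fun y => ζ y x) l (𝓝 (s * z0)))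
    (hdist : ∀ᶠ y in l, ∀ i ∈ X, ∀ j ∈ X, i ≠ j → ζ y i ≠ ζ y j) :
    ∀ᶠ y in l, Good (ζ y) X ∧ Fr.Qs (ux (ζ y)) X.toFinset = Fr.qc (X.map fun i => NUMv.cc (ζ y i)) := by
  obtain ⟨r, hr0, hr⟩ := exists_NR α
  have h1 : ∀ᶠ y in l, ∀ x ∈ X, s * ζ y x ∈ Metric.ball z0 r := by
    have h2 : ∀ᶠ y in l, ∀ x ∈ X.toFinset, s * ζ y x ∈ Metric.ball z0 r := by
      rw [Finset.eventually_all]
      intro x hx
      have h3 := (hζ x (List.mem_toFinset.1 hx)).const_mul s
      have h4 : s * (s * z0) = z0 := by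
        rcases hs with rfl | rfl
        · ring
        · ring
      rw [h4] at h3
      exact h3.eventually (Metric.ball_mem_nhds z0 hr0)
    filter_upwards [h2] with y hy
    exact fun x hx => hy x (List.mem_toFinset.2 hx)
  filter_upwards [h1, hdist] with y hy hd'
  rcases hs with rfl | rfl
  · have hS : Sx r (ζ y) X c d := ⟨hn, fun i hi => by simpa using hy i hi, hd', hcd, hc, hd⟩
    exact ⟨hS.good hr, hS.q hr⟩
  · have hS : Sx r (fun i => -ζ y i) X c d := ⟨hn, fun i hi => by simpa using hy i hi,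
      fun i hi j hj hij e => hd' i hi j hj hij (neg_injective e), hcd, hc, hd⟩
    have e : (fun i => - -ζ y i) = ζ y := funext fun i => neg_neg _
    have g1 := hS.good' hr
    have g2 := hS.q' hr
    rw [e] at g1 g2
    refine ⟨g1, g2.trans ?_⟩
    congr 1
    refine List.map_congr_left fun i _ => ?_
    unfold NUMv.cc
    rw [show 2 * -ζ y i = -(2 * ζ y i) by ring, Complex.cos_neg]

/-- **The zero leg functional at the honeycomb point.** -/
theorem PH_tend (hn : X.Nodup) (hs : s = 1 ∨ s = -1) (hc : c ∉ X) (hd : d ∉ X) (hcd : c ≠ d)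
    (hζ : ∀ x ∈ X, Tendsto (fun y => ζ y x) l (𝓝 (s * z0)))
    (hdist : ∀ᶠ y in l, ∀ i ∈ X, ∀ j ∈ X, i ≠ j → ζ y i ≠ ζ y j) (F : Pat α → ℂ) :
    Tendsto (fun y => PH (ζ y) X F) l (𝓝 (Qh X.length * VV (fun _ => s * z0) X F)) := by
  have : Fintype α := Fintype.ofFinite α
  have h1 := (reg_near (Z := α → ℂ) (ζ := fun z => z) (y0 := fun _ => s * z0) hn hc
    (fun j _ => (continuous_apply j).continuousAt) (fun j _ => okR_s hs)
    (reg_s hn hs hc hd hcd)).2 F
  have h2 : Tendsto (fun y => VV (ζ y) X F) l (𝓝 (VV (fun _ => s * z0) X F)) := by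
    have h3 := Tendsto.comp h1 (ζc_tend hζ)
    refine h3.congr fun y => ?_
    show VV (ζc ζ s X y) X F = _
    rw [VV_congr (ζc_eq y)]
  refine ((qc_tend hs hζ).mul h2).congr' ?_
  filter_upwards [good_ev hn hs hc hd hcd hζ hdist] with y hy
  rw [PH_good hcd _ X rfl hy.1 hc hd, hy.2, LinearMap.smul_apply, smul_eq_mul]

/-- **The exit functional at the honeycomb point.** -/
theorem PS_tend (hn : (b :: X).Nodup) (hs : s = 1 ∨ s = -1) (hc : c ∉ b :: X) (hd : d ∉ b :: X)
    (hcd : c ≠ d) (hζ : ∀ x ∈ X, Tendsto (fun y => ζ y x) l (𝓝 (s * z0)))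
    (hdist : ∀ᶠ y in l, ∀ i ∈ X, ∀ j ∈ X, i ≠ j → ζ y i ≠ ζ y j) (F : Pat α → ℂ) :
    Tendsto (fun y => PS (ζ y) b X F) l (𝓝 (Qh X.length * WW (fun _ => s * z0) b X F)) := by
  have : Fintype α := Fintype.ofFinite α
  have hcX := (notMem_cons hc).2
  have hdX := (notMem_cons hd).2
  have hnX := (List.nodup_cons.1 hn).2
  have h1 := reg1_near (Z := α → ℂ) (ζ := fun z => z) (y0 := fun _ => s * z0) hn hc
    (fun j _ => (continuous_apply j).continuousAt) (fun j _ => okR_s hs)
    (reg_s hnX hs hcX hdX hcd) (reg1_s hn hs hc hd hcd)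
  have h2 : Tendsto (fun y => WW (ζ y) b X F) l (𝓝 (WW (fun _ => s * z0) b X F)) := by
    have h3 := Tendsto.comp (h1.2 F) (ζc_tend hζ)
    refine h3.congr fun y => ?_
    show WW (ζc ζ s X y) b X F = _
    rw [WW_congr (ζc_eq y)]
  have h4 : ∀ᶠ y in l, Reg1 (ζ y) b X := by
    filter_upwards [(ζc_tend hζ).eventually h1.1] with y hy
    exact hy.congr (ζc_eq y)
  refine ((qc_tend hs hζ).mul h2).congr' ?_
  filter_upwards [good_ev hnX hs hcX hdX hcd hζ hdist, h4] with y hy hy1
  rw [PS_good hy.1 hn hc hd hcd hy1, hy.2, LinearMap.smul_apply, smul_eq_mul]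

end tend

end Pool.Agent.TC
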