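import Pool.Agent.TC.S4Core
import Pool.Agent.NUE.PsiC
import Pool.Agent.NUS4.H1d
import Pool.Agent.NUDi.Num

/-!
# The symmetric extension of a vector on the positive grid

`symE g : Fin (gN h X) → ℝ` (full line grid `-gM .. gM`) for `g : Fin (fN h X0 X) → ℝ` (positive grid).

* `sum_symE`, `grid_symE`, `sq_symE`;
* `toep_symE`: `1/4` of the form of `symE g` is `1/2` of the form of `g` plus the image part;
* `img_small`: the image part is bounded.
-/

set_option autoImplicit false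

open MeasureTheory Set Filter Topology

namespace TCS

open NUMF NUE NUS4 NUR2

noncomputable section

variable {h X0 X : ℝ}

/-- index of the point `l h` -/
def ip (a : Fin (fN h X0 X)) : Fin (gN h X) := ⟨gM h X + lo h X0 + a, by
  have := a.2
  unfold fN at this
  unfold gN
  omega⟩

/-- index of the point `- l h` -/
def im (a : Fin (fN h X0 X)) : Fin (gN h X) := ⟨gM h X - lo h X0 - a, by
  have := a.2
  unfold fN at this
  unfold gN
  omega⟩

lemma gp_ip (a : Fin (fN h X0 X)) : gp h X (ip a) = fpt h X0 X a := by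
  unfold gp fpt ip
  push_cast
  ring

lemma im_cast (a : Fin (fN h X0 X)) : (((im a : Fin (gN h X)) : ℕ) : ℝ) = gM h X - lo h X0 - (a : ℕ) := by
  have h1 := a.2
  unfold fN at h1
  have h2 : ((im a : Fin (gN h X)) : ℕ) + lo h X0 + a = gM h X := by
    unfold im
    simp only
    omega
  have h3 : (((im a : Fin (gN h X)) : ℕ) : ℝ) + lo h X0 + (a : ℕ) = gM h X := by exact_mod_cast h2
  linarith

lemma gp_im (a : Fin (fN h X0 X)) : gp h X (im a) = -fpt h X0 X a := by
  unfold gp fpt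
  rw [im_cast]
  ring

lemma ip_inj {a b : Fin (fN h X0 X)} : ip a = ip b ↔ a = b := by
  constructor
  · intro h1
    have h2 := congrArg Fin.val h1
    unfold ip at h2
    simp only at h2
    exact Fin.ext (by omega)
  · intro h1
    rw [h1]

lemma im_inj {a b : Fin (fN h X0 X)} : im a = im b ↔ a = b := by
  constructor
  · intro h1
    have h2 := congrArg Fin.val h1
    have ha := a.2
    have hb := b.2
    unfold fN at ha hb
    unfold im at h2
    simp only at h2
    exact Fin.ext (by omega)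
  · intro h1
    rw [h1]

lemma ip_ne_im (hl : 0 < lo h X0) (a b : Fin (fN h X0 X)) : ip a ≠ im b := by
  intro h1
  have h2 := congrArg Fin.val h1
  unfold ip im at h2
  simp only at h2
  omega

/-- the symmetric extension -/
def symE (g : Fin (fN h X0 X) → ℝ) (b : Fin (gN h X)) : ℝ :=
  ∑ i, g i * ((if b = ip i then 1 else 0) + (if b = im i then 1 else 0))

lemma symE_neg (g : Fin (fN h X0 X) → ℝ) : symE (-g) = -symE g := by
  funext b
  unfold symE
  simp only [Pi.neg_apply, neg_mul, Finset.sum_neg_distrib]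

/-- sums against the symmetric extension -/
lemma sum_symE (g : Fin (fN h X0 X) → ℝ) (f : Fin (gN h X) → ℝ) :
    ∑ b, symE g b * f b = ∑ i, g i * (f (ip i) + f (im i)) := by
  unfold symE
  simp only [Finset.sum_mul]
  rw [Finset.sum_comm]
  refine Finset.sum_congr rfl fun i _ => ?_
  have e1 : ∀ b : Fin (gN h X), g i * ((if b = ip i then (1:ℝ) else 0) + (if b = im i then 1 else 0)) * f b =
      g i * ((if b = ip i then f b else 0) + (if b = im i then f b else 0)) := by
    intro b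
    split_ifs <;> ring
  simp only [e1]
  rw [← Finset.mul_sum, Finset.sum_add_distrib, Finset.sum_ite_eq' Finset.univ (ip i) f,
    Finset.sum_ite_eq' Finset.univ (im i) f]
  simp

lemma symE_ip (hl : 0 < lo h X0) (g : Fin (fN h X0 X) → ℝ) (a : Fin (fN h X0 X)) : symE g (ip a) = g a := by
  unfold symE
  rw [Finset.sum_eq_single a]
  · rw [if_pos rfl, if_neg (ip_ne_im hl a a)]
    ring
  · intro b _ hb
    rw [if_neg (fun e => hb (ip_inj.1 e).symm), if_neg (ip_ne_im hl a b)]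
    ring
  · intro ha
    exact absurd (Finset.mem_univ _) ha

lemma symE_im (hl : 0 < lo h X0) (g : Fin (fN h X0 X) → ℝ) (a : Fin (fN h X0 X)) : symE g (im a) = g a := by
  unfold symE
  rw [Finset.sum_eq_single a]
  · rw [if_pos rfl, if_neg (fun e => ip_ne_im hl a a e.symm)]
    ring
  · intro b _ hb
    rw [if_neg (fun e => ip_ne_im hl b a e.symm), if_neg (fun e => hb (im_inj.1 e).symm)]
    ring
  · intro ha
    exact absurd (Finset.mem_univ _) ha

lemma sq_symE (hl : 0 < lo h X0) (g : Fin (fN h X0 X) → ℝ) : ∑ b, symE g b ^ 2 = 2 * ∑ i, g i ^ 2 := by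
  have h1 := sum_symE g (symE g)
  simp only [symE_ip hl, symE_im hl] at h1
  rw [Finset.mul_sum]
  simp only [pow_two]
  rw [h1]
  exact Finset.sum_congr rfl fun i _ => by ring

/-- grid function of the symmetric extension -/
lemma grid_symE (f : ℝ → ℝ) (g : Fin (fN h X0 X) → ℝ) (t : ℝ) :
    grid f (-(h * gM h X)) h (symE g) t =
      ∑ i, g i * (f (t - fpt h X0 X i) + f (t + fpt h X0 X i)) := by
  have e1 : ∀ b : Fin (gN h X), -(h * (gM h X : ℝ)) + ((b : ℕ) : ℝ) * h = gp h X b := by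
    intro b
    unfold gp
    ring
  unfold grid
  simp only [e1]
  rw [sum_symE g fun b => f (t - gp h X b)]
  refine Finset.sum_congr rfl fun i _ => ?_
  rw [gp_ip, gp_im, sub_neg_eq_add]

/-- Fourier coefficient of the symbol at the real argument `u` -/
def tc (f : ℝ → ℝ) (u : ℝ) : ℝ := 1 / (2 * Real.pi) * ∫ θ in (-Real.pi)..Real.pi, f θ * Real.cos (θ * u)

lemma toep_tc (f : ℝ → ℝ) (N : ℕ) (i j : Fin N) : toep f N i j = tc f ((i : ℝ) - (j : ℝ)) := rfl

lemma tc_neg (f : ℝ → ℝ) (u : ℝ) : tc f (-u) = tc f u := by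
  unfold tc
  congr 1
  refine intervalIntegral.integral_congr fun θ _ => ?_
  rw [mul_neg, Real.cos_neg]

/-- the form of the symmetric extension -/
theorem toep_symE (f : ℝ → ℝ) (g : Fin (fN h X0 X) → ℝ) :
    ∑ a, ∑ b, symE g a * toep f (gN h X) a b * symE g b =
      2 * ∑ i, ∑ j, g i * toep f (fN h X0 X) i j * g j +
      2 * ∑ i : Fin (fN h X0 X), ∑ j : Fin (fN h X0 X),
        g i * tc f ((i : ℝ) + (j : ℝ) + 2 * lo h X0) * g j := by
  have h1 : ∀ a : Fin (gN h X), ∑ b, symE g a * toep f (gN h X) a b * symE g b =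
      symE g a * ∑ j, g j * (toep f (gN h X) a (ip j) + toep f (gN h X) a (im j)) := by
    intro a
    rw [← sum_symE g fun b => toep f (gN h X) a b, Finset.mul_sum]
    exact Finset.sum_congr rfl fun b _ => by ring
  simp only [h1]
  rw [sum_symE g fun a => ∑ j, g j * (toep f (gN h X) a (ip j) + toep f (gN h X) a (im j))]
  have h2 : ∀ i j : Fin (fN h X0 X), toep f (gN h X) (ip i) (ip j) = toep f (fN h X0 X) i j := by
    intro i j
    rw [toep_tc, toep_tc]
    congr 1
    unfold ip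
    push_cast
    ring
  have h3 : ∀ i j : Fin (fN h X0 X), toep f (gN h X) (im i) (im j) = toep f (fN h X0 X) i j := by
    intro i j
    rw [toep_tc, toep_tc, ← tc_neg]
    congr 1
    rw [im_cast, im_cast]
    ring
  have h4 : ∀ i j : Fin (fN h X0 X), toep f (gN h X) (ip i) (im j) =
      tc f ((i : ℝ) + (j : ℝ) + 2 * lo h X0) := by
    intro i j
    rw [toep_tc]
    congr 1
    rw [im_cast]
    unfold ip
    push_cast
    ring
  have h5 : ∀ i j : Fin (fN h X0 X), toep f (gN h X) (im i) (ip j) =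
      tc f ((i : ℝ) + (j : ℝ) + 2 * lo h X0) := by
    intro i j
    rw [toep_tc, ← tc_neg]
    congr 1
    rw [im_cast]
    unfold ip
    push_cast
    ring
  simp only [h2, h3, h4, h5]
  rw [Finset.mul_sum, Finset.mul_sum, ← Finset.sum_add_distrib]
  refine Finset.sum_congr rfl fun i _ => ?_
  rw [← Finset.sum_add_distrib, Finset.mul_sum, Finset.mul_sum, Finset.mul_sum, ← Finset.sum_add_distrib]
  refine Finset.sum_congr rfl fun j _ => ?_
  ring

/-- the symbol is a smooth profile -/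
lemma pf_rs {δ K : ℝ} {c : ℝ → ℝ} (hP : Prof δ K c) : Pf (rs c) := by
  have h1 : rs c = fun k => 2 * c k * ev c k := by
    funext k
    unfold rs ev
    ring
  rw [h1]
  refine ⟨(contDiff_const.mul hP.smooth).mul hP.pf_ev.1, ?_⟩
  exact hP.hcs fun k hk => by rw [hk]; ring

/-- decay of the Fourier coefficients -/
lemma tc_decay {δ K : ℝ} {c : ℝ → ℝ} (hP : Prof δ K c) (hh : 0 < h) (hK : K * h < Real.pi) (n : ℕ) :
    ∃ C, 0 ≤ C ∧ ∀ u, |tc (fun θ => rs c (θ / h)) u| * (1 + |u|) ^ n ≤ C := by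
  obtain ⟨C, hC, H⟩ := decay n (pf_rs hP)
  have hpi := Real.pi_pos
  have e1 : ∀ u, tc (fun θ => rs c (θ / h)) u = h / (2 * Real.pi) * ct (rs c) (h * u) := by
    intro u
    unfold tc ct
    have e2 : ∫ θ in (-Real.pi)..Real.pi, rs c (θ / h) * Real.cos (θ * u) =
        ∫ θ in (-Real.pi)..Real.pi, (fun k => rs c k * Real.cos (k * (h * u))) (θ / h) := by
      refine intervalIntegral.integral_congr fun θ _ => ?_
      simp only
      congr 2
      field_simp
    rw [e2, intervalIntegral.integral_comp_div (fun k => rs c k * Real.cos (k * (h * u))) hh.ne', smul_eq_mul,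
      neg_div, int_line hh]
    · ring
    · intro k hk
      have : K < |k| := by
        refine lt_of_le_of_lt ?_ hk
        rw [le_div_iff₀ hh]
        exact hK.le
      unfold rs
      rw [hP.large' k this]
      simp
  obtain ⟨M, hM⟩ : ∃ M, M = max 1 (1 / h) := ⟨_, rfl⟩
  have hM1 : 1 ≤ M := hM ▸ le_max_left _ _
  have hM2 : 1 / h ≤ M := hM ▸ le_max_right _ _
  refine ⟨h / (2 * Real.pi) * C * M ^ n, by positivity, fun u => ?_⟩
  have h1 := (H (h * u)).1
  have h2 : 1 + |u| ≤ M * (1 + |h * u|) := by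
    rw [abs_mul, abs_of_pos hh, mul_add, mul_one]
    have h3 : 1 / h * (h * |u|) ≤ M * (h * |u|) := mul_le_mul_of_nonneg_right hM2 (by positivity)
    have h4 : 1 / h * (h * |u|) = |u| := by field_simp
    linarith
  have h3 : (1 + |u|) ^ n ≤ M ^ n * (1 + |h * u|) ^ n := by
    rw [← mul_pow]
    exact pow_le_pow_left₀ (by positivity) h2 n
  rw [e1, abs_mul, abs_of_pos (by positivity : 0 < h / (2 * Real.pi))]
  calc h / (2 * Real.pi) * |ct (rs c) (h * u)| * (1 + |u|) ^ n
      ≤ h / (2 * Real.pi) * |ct (rs c) (h * u)| * (M ^ n * (1 + |h * u|) ^ n) := by gcongr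
    _ = h / (2 * Real.pi) * ((1 + |h * u|) ^ n * |ct (rs c) (h * u)|) * M ^ n := by ring
    _ ≤ h / (2 * Real.pi) * C * M ^ n := by gcongr

/-- a form with small coefficients -/
lemma form_le {N : ℕ} {T : Fin N → Fin N → ℝ} {B : ℝ} (hT : ∀ i j, |T i j| ≤ B) (hB : 0 ≤ B)
    (g : Fin N → ℝ) : |∑ i, ∑ j, g i * T i j * g j| ≤ B * (N * ∑ i, g i ^ 2) := by
  have h1 : |∑ i, ∑ j, g i * T i j * g j| ≤ ∑ i, ∑ j, |g i| * B * |g j| := by
    refine (Finset.abs_sum_le_sum_abs _ _).trans (Finset.sum_le_sum fun i _ => ?_)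
    refine (Finset.abs_sum_le_sum_abs _ _).trans (Finset.sum_le_sum fun j _ => ?_)
    rw [abs_mul, abs_mul]
    have := hT i j
    gcongr
  refine h1.trans ?_
  have h2 : ∑ i, ∑ j, |g i| * B * |g j| = B * (∑ i, |g i|) ^ 2 := by
    rw [pow_two, Finset.sum_mul_sum, Finset.mul_sum]
    refine Finset.sum_congr rfl fun i _ => ?_
    rw [Finset.mul_sum]
    exact Finset.sum_congr rfl fun j _ => by ring
  rw [h2]
  refine mul_le_mul_of_nonneg_left ?_ hB
  have h3 := sq_sum_le_card_mul_sum_sq (s := (Finset.univ : Finset (Fin N))) (f := fun i => |g i|)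
  simp only [Finset.card_univ, Fintype.card_fin, sq_abs] at h3
  exact h3

/-- **the image part is bounded** -/
theorem img_small {δ K : ℝ} {c : ℝ → ℝ} (hP : Prof δ K c) (hh : 0 < h) (hK : K * h < Real.pi) {e η : ℝ}
    (he : 0 < e) (he1 : e ≤ 1 / 3) (hη : 0 < η) : ∃ C, 0 ≤ C ∧ ∀ (m : ℕ), 3 ≤ m → ∀ (N : ℕ),
      N = fN h (e * (3 / 8 * Real.log m)) ((1 - 2 * e) * (3 / 8 * Real.log m)) →
      ∀ g : Fin N → ℝ, ∑ i, g i ^ 2 ≤ (2 * (N : ℝ) + 4) / η →
      |∑ i : Fin N, ∑ j : Fin N, g i * tc (fun θ => rs c (θ / h)) ((i : ℝ) + (j : ℝ) +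
        2 * lo h (e * (3 / 8 * Real.log m))) * g j| ≤ C := by
  obtain ⟨C, hC, H⟩ := tc_decay hP hh hK 2
  obtain ⟨Q, hQ⟩ : ∃ Q, Q = (1 + h) * (8 / 3) / e := ⟨_, rfl⟩
  have hQ0 : 0 ≤ Q := by rw [hQ]; positivity
  refine ⟨C * (Q * (2 * Q + 4) / η), by positivity, ?_⟩
  intro m hm N hN g hg
  obtain ⟨L, hL⟩ : ∃ L, L = Real.log m := ⟨_, rfl⟩
  have hL1 : 1 ≤ L := hL ▸ NUDi.one_le_log hm
  rw [← hL] at hN ⊢
  obtain ⟨X0, hX0⟩ : ∃ X0, X0 = e * (3 / 8 * L) := ⟨_, rfl⟩
  have hX00 : 0 < X0 := by rw [hX0]; positivity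
  rw [← hX0] at hN ⊢
  -- size of the coefficients
  have h1 : ∀ i j : Fin N, |tc (fun θ => rs c (θ / h)) ((i : ℝ) + (j : ℝ) + 2 * lo h X0)| ≤
      C / (1 + 2 * lo h X0) ^ 2 := by
    intro i j
    have h2 := H ((i : ℝ) + (j : ℝ) + 2 * lo h X0)
    rw [le_div_iff₀ (by positivity)]
    refine le_trans ?_ h2
    have hi : (0:ℝ) ≤ (i : ℝ) := Nat.cast_nonneg _
    have hj : (0:ℝ) ≤ (j : ℝ) := Nat.cast_nonneg _
    have hll : (0:ℝ) ≤ lo h X0 := Nat.cast_nonneg _
    rw [abs_of_nonneg (by positivity : 0 ≤ (i : ℝ) + (j : ℝ) + 2 * (lo h X0 : ℝ))]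
    gcongr
    linarith
  refine (form_le h1 (by positivity) g).trans ?_
  have h3 : (N : ℝ) * h ≤ L * (1 + h) := by
    rw [hN]
    have h4 := fN_le (X0 := X0) (X := (1 - 2 * e) * (3 / 8 * L)) hh (mul_nonneg (by linarith) (by positivity))
    have h5 : (1 - 2 * e) * (3 / 8 * L) ≤ 1 * (3 / 8 * L) :=
      mul_le_mul_of_nonneg_right (by linarith) (by positivity)
    nlinarith
  have h4 := le_lo (X0 := X0) hh
  have hll : (0:ℝ) ≤ lo h X0 := Nat.cast_nonneg _
  obtain ⟨D, hD⟩ : ∃ D : ℝ, D = 1 + 2 * lo h X0 := ⟨_, rfl⟩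
  have hD1 : 1 ≤ D := by rw [hD]; linarith
  -- `N ≤ h⁻¹ Q h D ..`: all in units of `D`
  have h6 : L ≤ 8 / 3 / e * (h * D) := by
    have h7 : e * (3 / 8 * L) ≤ h * D := by
      rw [← hX0, hD]
      nlinarith
    have h8 : L = 8 / 3 / e * (e * (3 / 8 * L)) := by
      field_simp
    calc L = 8 / 3 / e * (e * (3 / 8 * L)) := h8
      _ ≤ _ := by gcongr
  have h9 : (N : ℝ) ≤ Q * D := by
    have h10 : (N : ℝ) * h ≤ Q * D * h := by
      refine h3.trans ?_
      calc L * (1 + h) ≤ 8 / 3 / e * (h * D) * (1 + h) := by gcongr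
        _ = Q * D * h := by rw [hQ]; ring
    exact le_of_mul_le_mul_right h10 hh
  have hN0 : (0:ℝ) ≤ (N : ℝ) := Nat.cast_nonneg _
  have h11 : (N : ℝ) * ∑ i, g i ^ 2 ≤ Q * D * ((2 * (Q * D) + 4 * D) / η) := by
    refine mul_le_mul h9 (hg.trans ?_) (Finset.sum_nonneg fun i _ => sq_nonneg _) (by positivity)
    gcongr
    linarith
  rw [← hD]
  calc C / D ^ 2 * (N * ∑ i, g i ^ 2) ≤ C / D ^ 2 * (Q * D * ((2 * (Q * D) + 4 * D) / η)) := by gcongr
    _ = C * (Q * (2 * Q + 4) / η) := by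
      have : D ≠ 0 := by positivity
      field_simp

end

end TCS
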