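import Pool.Agent.TC.Wall0
import Pool.Agent.TC.FAct1

/-!
# The wall factor of the folded gas

* `bC z = sinh (2z)² / (cosh (2z) - cos l)`: boundary factor of a quantum;
* `betaC z`, `beta t`: the same divided by the own image `|w (2z)|^{1/2}` (`norm_bC`);
* (W1) `wall_curve`: on a curve `t + i η t`, `|η| ≤ e min (1, |t|)`: `betaC ≤ beta t exp (K e²)`;
* (W2) `wall_trans`: `beta (t + D t) = beta t exp (w t)` with `w` small in the class `O j`, for `D 0 = 0`;
* (W3) `wall_int`: the first order term of the wall for a transport of the density is odd.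
-/

set_option autoImplicit false

open MeasureTheory Set Filter Topology

namespace TCF

open NUOC NUKer

noncomputable section

/-- `cos l`, `l = π / 8` -/
def cl8 : ℝ := Real.cos NUMF.l

lemma cl8_pos : 0 < cl8 := by
  unfold cl8 NUMF.l
  exact Real.cos_pos_of_mem_Ioo ⟨by linarith [Real.pi_pos], by linarith [Real.pi_pos]⟩

lemma cl8_lt : cl8 < 1 := by
  unfold cl8 NUMF.l
  have h1 : 0 < Real.pi / 8 := by linarith [Real.pi_pos]
  have h := Real.cos_lt_cos_of_nonneg_of_le_pi (x := 0) (y := Real.pi / 8) le_rfl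
    (by linarith [Real.pi_pos]) h1
  rwa [Real.cos_zero] at h

lemma r_pos' : 0 < NUMF.r := by
  unfold NUMF.r
  positivity

/-- boundary factor of a quantum -/
def bC (z : ℂ) : ℂ := Complex.sinh (2 * z) ^ 2 / (Complex.cosh (2 * z) - cl8)

/-- the wall factor (own image taken out), complex argument -/
def betaC (z : ℂ) : ℝ := ‖Complex.sinh (2 * z)‖ *
  Real.sqrt (‖Complex.cosh (4 * z) - NUMF.r‖ / ‖Complex.cosh (4 * z)‖) / ‖Complex.cosh (2 * z) - cl8‖

/-- **the boundary factor is the own image times the wall factor** -/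
theorem norm_bC {z : ℂ} (h1 : Complex.cosh (4 * z) ≠ 0) (h2 : Complex.cosh (4 * z) - NUMF.r ≠ 0) :
    ‖bC z‖ = Real.sqrt ‖wcx (2 * z)‖ * betaC z := by
  unfold bC betaC wcx
  have e4 : (2:ℂ) * (2 * z) = 4 * z := by ring
  rw [e4, norm_div, norm_div, norm_mul, norm_pow]
  have p1 := norm_pos_iff.2 h1
  have p2 := norm_pos_iff.2 h2
  have p0 := norm_nonneg (Complex.sinh (2 * z))
  set S := ‖Complex.sinh (2 * z)‖
  set X := ‖Complex.cosh (4 * z)‖
  set Y := ‖Complex.cosh (4 * z) - NUMF.r‖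
  have e : Real.sqrt (S ^ 2 * X / Y) * (S * Real.sqrt (Y / X)) = S ^ 2 := by
    rw [mul_left_comm, ← Real.sqrt_mul (by positivity)]
    have e1 : S ^ 2 * X / Y * (Y / X) = S ^ 2 := by
      field_simp
    rw [e1, Real.sqrt_sq p0, sq]
  rw [← mul_div_assoc, e]

/-- logarithm of the wall factor over `|t|` -/
def Ew (t : ℝ) : ℝ := Real.log (Nk 0 t) +
  1 / 2 * (Real.log (Real.cosh (4 * t) - NUMF.r) - Real.log (Real.cosh (4 * t) - 0)) -
  Real.log (Real.cosh (2 * t) - cl8)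

/-- derivative of `Ew` -/
def Ew' (t : ℝ) : ℝ := Mk 1 t + 1 / 2 * (4 * Aq 4 NUMF.r t - 4 * Aq 4 0 t) - 2 * Aq 2 cl8 t

/-- the wall factor on the real line -/
def beta (t : ℝ) : ℝ := |t| * Real.exp (Ew t)

lemma hasDerivAt_log_den {κ c : ℝ} (hc : c < 1) (t : ℝ) :
    HasDerivAt (fun t => Real.log (Real.cosh (κ * t) - c)) (κ * Aq κ c t) t := by
  have h := (hasDerivAt_cosh_k κ c t).log (den_pos hc (κ * t)).ne'
  refine HasDerivAt.congr_deriv h ?_
  unfold Aq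
  ring

lemma hasDerivAt_Ew (t : ℝ) : HasDerivAt Ew (Ew' t) t := by
  have h1 := (hasDerivAt_Nk 0 t).log (Nk0_pos t).ne'
  have h2 := (hasDerivAt_log_den (κ := 4) r_lt t).sub (hasDerivAt_log_den (κ := 4) (c := 0) one_pos t)
  have h3 := hasDerivAt_log_den (κ := 2) cl8_lt t
  have h := (h1.add (h2.const_mul (1 / 2))).sub h3
  refine HasDerivAt.congr_deriv h ?_
  unfold Ew' Mk
  rw [zero_add]

lemma Ew_cont : Continuous Ew := continuous_iff_continuousAt.2 fun t => (hasDerivAt_Ew t).continuousAt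

lemma Ew_O (j : ℕ) : ∃ C : ℝ, O j C Ew' := by
  obtain ⟨C1, h1⟩ := Mk_O j 1
  obtain ⟨C2, h2, -⟩ := AB_O (κ := 4) r_pos'.le r_lt j
  obtain ⟨C3, h3, -⟩ := AB_O (κ := 4) (c := 0) le_rfl one_pos j
  obtain ⟨C4, h4, -⟩ := AB_O (κ := 2) cl8_pos.le cl8_lt j
  exact ⟨_, (h1.add (((h2.smul 4).sub (h3.smul 4)).smul (1 / 2))).sub (h4.smul 2)⟩

lemma beta_nonneg (t : ℝ) : 0 ≤ beta t := mul_nonneg (abs_nonneg _) (Real.exp_pos _).le

lemma beta_cont : Continuous beta := continuous_abs.mul (Real.continuous_exp.comp Ew_cont)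

lemma beta_pos {t : ℝ} (ht : t ≠ 0) : 0 < beta t := mul_pos (abs_pos.2 ht) (Real.exp_pos _)

lemma beta_eq (t : ℝ) : beta t = |Real.sinh (2 * t)| *
    Real.sqrt ((Real.cosh (4 * t) - NUMF.r) / Real.cosh (4 * t)) / (Real.cosh (2 * t) - cl8) := by
  have h1 := Nk0_pos t
  have h2 := den_pos r_lt (4 * t)
  have h3 := Real.cosh_pos (4 * t)
  have h4 := den_pos cl8_lt (2 * t)
  unfold beta Ew
  rw [sub_zero, Real.exp_sub, Real.exp_add, Real.exp_log h1, Real.exp_log h4, ← Real.log_div h2.ne' h3.ne',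
    one_div_mul_eq_div, Real.exp_half, Real.exp_log (div_pos h2 h3), ← mul_Nk0, abs_mul, abs_of_pos h1]
  ring

/-! ### (W1) -/

lemma norm_sinh_sq (a b : ℝ) : ‖Complex.sinh (a + b * Complex.I)‖ ^ 2 = Real.sinh a ^ 2 + Real.sin b ^ 2 := by
  have e : Complex.sinh (a + b * Complex.I) = ((Real.sinh a * Real.cos b : ℝ) : ℂ) +
      ((Real.cosh a * Real.sin b : ℝ) : ℂ) * Complex.I := by
    rw [Complex.sinh_add, Complex.cosh_mul_I, Complex.sinh_mul_I]
    push_cast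
    ring
  rw [e, ← Complex.normSq_eq_norm_sq, Complex.normSq_add_mul_I]
  have h1 := Real.cosh_sq a
  have h2 := Real.sin_sq_add_cos_sq b
  have h3 : Real.cos b ^ 2 = 1 - Real.sin b ^ 2 := by linarith
  rw [mul_pow, mul_pow, h1, h3]
  ring

lemma norm_cosh_sq (a b c : ℝ) : ‖Complex.cosh (a + b * Complex.I) - c‖ ^ 2 =
    (Real.cosh a - c) ^ 2 + 2 * c * Real.cosh a * (1 - Real.cos b) - Real.sin b ^ 2 := by
  have e : Complex.cosh (a + b * Complex.I) - c = ((Real.cosh a * Real.cos b - c : ℝ) : ℂ) +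
      ((Real.sinh a * Real.sin b : ℝ) : ℂ) * Complex.I := by
    rw [Complex.cosh_add, Complex.cosh_mul_I, Complex.sinh_mul_I]
    push_cast
    ring
  rw [e, ← Complex.normSq_eq_norm_sq, Complex.normSq_add_mul_I]
  have h1 := Real.sinh_sq a
  have h2 := Real.sin_sq_add_cos_sq b
  have h3 : Real.cos b ^ 2 = 1 - Real.sin b ^ 2 := by linarith
  rw [mul_pow, h1]
  have e1 : (Real.cosh a * Real.cos b - c) ^ 2 =
      Real.cosh a ^ 2 * Real.cos b ^ 2 - 2 * c * Real.cosh a * Real.cos b + c ^ 2 := by ring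
  rw [e1, h3]
  ring

lemma sin_sq_le (b : ℝ) : Real.sin b ^ 2 ≤ b ^ 2 := by
  have h := Real.abs_sin_le_abs (x := b)
  rw [← sq_abs (Real.sin b), ← sq_abs b]
  exact pow_le_pow_left₀ (abs_nonneg _) h 2

lemma den_lower {c : ℝ} (hc0 : 0 ≤ c) (hc : c < 1) (a b : ℝ) :
    (Real.cosh a - c) ^ 2 * (1 - b ^ 2 / (1 - c) ^ 2) ≤ ‖Complex.cosh (a + b * Complex.I) - c‖ ^ 2 := by
  rw [norm_cosh_sq]
  have h1 := Real.one_le_cosh a
  have h2 := Real.cos_le_one b
  have h3 := sin_sq_le b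
  have h4 : 0 < (1 - c) ^ 2 := by
    have : 0 < 1 - c := by linarith
    positivity
  have h5 : b ^ 2 ≤ (Real.cosh a - c) ^ 2 * (b ^ 2 / (1 - c) ^ 2) := by
    have h6 : (1 - c) ^ 2 ≤ (Real.cosh a - c) ^ 2 := pow_le_pow_left₀ (by linarith) (by linarith) 2
    have h7 : (1 - c) ^ 2 * (b ^ 2 / (1 - c) ^ 2) = b ^ 2 := mul_div_cancel₀ _ h4.ne'
    rw [← h7]
    have h8 : 0 ≤ b ^ 2 / (1 - c) ^ 2 := by positivity
    have h9 := mul_le_mul_of_nonneg_right h6 h8
    rw [h7] at h9 ⊢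
    exact h9
  have h10 : 0 ≤ 2 * c * Real.cosh a * (1 - Real.cos b) :=
    mul_nonneg (mul_nonneg (by linarith) (by linarith)) (by linarith)
  nlinarith

lemma num_upper {c : ℝ} (hc0 : 0 ≤ c) (hc : c < 1) (a b : ℝ) :
    ‖Complex.cosh (a + b * Complex.I) - c‖ ^ 2 ≤ (Real.cosh a - c) ^ 2 * (1 + c * b ^ 2 / (1 - c) ^ 2) := by
  rw [norm_cosh_sq]
  have h1 := Real.one_le_cosh a
  have h2 := Real.one_sub_sq_div_two_le_cos (x := b)
  have h4 : 0 < (1 - c) ^ 2 := by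
    have : 0 < 1 - c := by linarith
    positivity
  have h5 : Real.cosh a * (1 - c) ^ 2 ≤ (Real.cosh a - c) ^ 2 := by
    have e : (Real.cosh a - c) ^ 2 - Real.cosh a * (1 - c) ^ 2 =
        (Real.cosh a - 1) ^ 2 + (Real.cosh a - 1) * ((1 - c) * (1 + c)) := by ring
    have h6 : 0 ≤ (Real.cosh a - 1) * ((1 - c) * (1 + c)) :=
      mul_nonneg (by linarith) (mul_nonneg (by linarith) (by linarith))
    nlinarith [sq_nonneg (Real.cosh a - 1)]
  have h6 : 2 * c * Real.cosh a * (1 - Real.cos b) ≤ 2 * c * Real.cosh a * (b ^ 2 / 2) :=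
    mul_le_mul_of_nonneg_left (by linarith) (mul_nonneg (by linarith) (by linarith))
  have h7 : 2 * c * Real.cosh a * (b ^ 2 / 2) ≤ (Real.cosh a - c) ^ 2 * (c * b ^ 2 / (1 - c) ^ 2) := by
    have e : 2 * c * Real.cosh a * (b ^ 2 / 2) = (Real.cosh a * (1 - c) ^ 2) * (c * b ^ 2 / (1 - c) ^ 2) := by
      rw [mul_assoc (Real.cosh a), mul_div_cancel₀ _ h4.ne']
      ring
    rw [e]
    exact mul_le_mul_of_nonneg_right h5 (by positivity)
  have h8 := sq_nonneg (Real.sin b)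
  nlinarith

lemma exp_neg_two_le {y : ℝ} (h0 : 0 ≤ y) (h1 : y ≤ 1 / 2) : Real.exp (-(2 * y)) ≤ 1 - y := by
  have h2 := Real.add_one_le_exp (2 * y)
  rw [Real.exp_neg, inv_le_comm₀ (Real.exp_pos _) (by linarith)]
  refine le_trans ?_ h2
  rw [inv_le_comm₀ (by linarith) (by linarith)]
  rw [inv_eq_one_div, div_le_iff₀ (by linarith)]
  nlinarith

/-- **(W1)** the wall factor on a curve -/
theorem wall_curve : ∃ K : ℝ, 1 ≤ K ∧ ∀ e : ℝ, 0 ≤ e → K * e ≤ 1 → ∀ t η : ℝ, |η| ≤ e → |η| ≤ e * |t| →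
    betaC (t + η * Complex.I) ≤ beta t * Real.exp (K * e ^ 2) := by
  have hr := r_pos'
  have hr1 := r_lt
  have hc := cl8_pos
  have hc1 := cl8_lt
  set K1 : ℝ := 16 * NUMF.r / (1 - NUMF.r) ^ 2 with hK1
  set K2 : ℝ := 8 / (1 - cl8) ^ 2 with hK2
  have k1 : 0 ≤ K1 := by positivity
  have k2 : 0 ≤ K2 := by positivity
  refine ⟨34 + K1 + 2 * K2, by linarith, fun e he hKe t η h1 h2 => ?_⟩
  have he1 : e ≤ 1 / 34 := by nlinarith
  have hη : η ^ 2 ≤ e ^ 2 := by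
    rw [← sq_abs η]
    exact pow_le_pow_left₀ (abs_nonneg _) h1 2
  have e2 : (2:ℂ) * (t + η * Complex.I) = ((2 * t : ℝ) : ℂ) + ((2 * η : ℝ) : ℂ) * Complex.I := by
    push_cast
    ring
  have e4 : (4:ℂ) * (t + η * Complex.I) = ((4 * t : ℝ) : ℂ) + ((4 * η : ℝ) : ℂ) * Complex.I := by
    push_cast
    ring
  unfold betaC
  rw [e2, e4]
  set S := ‖Complex.sinh (((2 * t : ℝ) : ℂ) + ((2 * η : ℝ) : ℂ) * Complex.I)‖ with hS
  set Y := ‖Complex.cosh (((4 * t : ℝ) : ℂ) + ((4 * η : ℝ) : ℂ) * Complex.I) - NUMF.r‖ with hY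
  set X := ‖Complex.cosh (((4 * t : ℝ) : ℂ) + ((4 * η : ℝ) : ℂ) * Complex.I)‖ with hX
  set D := ‖Complex.cosh (((2 * t : ℝ) : ℂ) + ((2 * η : ℝ) : ℂ) * Complex.I) - cl8‖ with hD
  set S0 := |Real.sinh (2 * t)| with hS0
  set Y0 := Real.cosh (4 * t) - NUMF.r with hY0
  set X0 := Real.cosh (4 * t) with hX0
  set D0 := Real.cosh (2 * t) - cl8 with hD0
  have pY0 : 0 < Y0 := den_pos hr1 _
  have pX0 : 0 < X0 := Real.cosh_pos _
  have pD0 : 0 < D0 := den_pos hc1 _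
  have pS0 : 0 ≤ S0 := abs_nonneg _
  -- the four bounds
  have bS : S ^ 2 ≤ S0 ^ 2 * Real.exp (e ^ 2) := by
    rw [hS, norm_sinh_sq, hS0, sq_abs]
    have a1 := sin_sq_le (2 * η)
    have a2 : (2 * η) ^ 2 ≤ e ^ 2 * Real.sinh (2 * t) ^ 2 := by
      have a3 : |2 * t| ≤ |Real.sinh (2 * t)| := by
        rw [Real.abs_sinh]
        exact Real.self_le_sinh_iff.2 (abs_nonneg _)
      have a4 : |2 * η| ≤ e * |Real.sinh (2 * t)| := by
        rw [abs_mul, abs_two]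
        rw [abs_mul, abs_two] at a3
        nlinarith
      rw [← sq_abs (2 * η), ← sq_abs (Real.sinh (2 * t)), ← mul_pow]
      exact pow_le_pow_left₀ (abs_nonneg _) a4 2
    have a5 := Real.add_one_le_exp (e ^ 2)
    have a6 := mul_le_mul_of_nonneg_left a5 (sq_nonneg (Real.sinh (2 * t)))
    nlinarith
  have bY : Y ^ 2 ≤ Y0 ^ 2 * Real.exp (K1 * e ^ 2) := by
    refine (num_upper hr.le hr1 (4 * t) (4 * η)).trans ?_
    refine mul_le_mul_of_nonneg_left ?_ (sq_nonneg _)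
    refine le_trans ?_ (Real.add_one_le_exp _)
    have : NUMF.r * (4 * η) ^ 2 / (1 - NUMF.r) ^ 2 = K1 * η ^ 2 := by
      rw [hK1]
      ring
    rw [this]
    nlinarith
  have bX : X0 ^ 2 * Real.exp (-(32 * e ^ 2)) ≤ X ^ 2 := by
    have a1 := den_lower (c := 0) le_rfl one_pos (4 * t) (4 * η)
    rw [Complex.ofReal_zero, sub_zero, sub_zero, sub_zero, one_pow, div_one] at a1
    refine le_trans ?_ a1
    refine mul_le_mul_of_nonneg_left ?_ (sq_nonneg _)
    have a2 := exp_neg_two_le (y := 16 * e ^ 2) (by positivity) (by nlinarith)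
    have a3 : -(32 * e ^ 2) = -(2 * (16 * e ^ 2)) := by ring
    rw [a3]
    nlinarith
  have bD : D0 ^ 2 * Real.exp (-(K2 * e ^ 2)) ≤ D ^ 2 := by
    refine le_trans ?_ (den_lower hc.le hc1 (2 * t) (2 * η))
    refine mul_le_mul_of_nonneg_left ?_ (sq_nonneg _)
    have a0 : K2 * e ^ 2 ≤ 1 := by
      have : K2 * e ≤ 1 := by nlinarith
      nlinarith
    have a2 := exp_neg_two_le (y := K2 * e ^ 2 / 2) (by positivity) (by linarith)
    have a3 : -(K2 * e ^ 2) = -(2 * (K2 * e ^ 2 / 2)) := by ring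
    rw [a3]
    refine a2.trans ?_
    have a4 : (2 * η) ^ 2 / (1 - cl8) ^ 2 = K2 * η ^ 2 / 2 := by
      rw [hK2]
      ring
    rw [a4]
    nlinarith
  have pX : 0 < X ^ 2 := lt_of_lt_of_le (mul_pos (pow_pos pX0 2) (Real.exp_pos _)) bX
  have pD : 0 < D ^ 2 := lt_of_lt_of_le (mul_pos (pow_pos pD0 2) (Real.exp_pos _)) bD
  have nX : 0 < X := lt_of_le_of_ne (norm_nonneg _) (fun h => by rw [← h] at pX; norm_num at pX)
  have nD : 0 < D := lt_of_le_of_ne (norm_nonneg _) (fun h => by rw [← h] at pD; norm_num at pD)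
  have nY : 0 ≤ Y := norm_nonneg _
  have nS : 0 ≤ S := norm_nonneg _
  rw [beta_eq]
  refine (pow_le_pow_iff_left₀ (by positivity) (by positivity) (show (4:ℕ) ≠ 0 by norm_num)).1 ?_
  have L : (S * Real.sqrt (Y / X) / D) ^ 4 = (S ^ 2) ^ 2 * (Y ^ 2 / X ^ 2) / (D ^ 2) ^ 2 := by
    have h : Real.sqrt (Y / X) ^ 4 = Y ^ 2 / X ^ 2 := by
      rw [show (4:ℕ) = 2 * 2 from rfl, pow_mul, Real.sq_sqrt (by positivity), div_pow]
    rw [div_pow, mul_pow, h]
    ring
  have R : (S0 * Real.sqrt (Y0 / X0) / D0 * Real.exp ((34 + K1 + 2 * K2) * e ^ 2)) ^ 4 =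
      (S0 ^ 2) ^ 2 * (Y0 ^ 2 / X0 ^ 2) / (D0 ^ 2) ^ 2 * Real.exp (4 * ((34 + K1 + 2 * K2) * e ^ 2)) := by
    have h : Real.sqrt (Y0 / X0) ^ 4 = Y0 ^ 2 / X0 ^ 2 := by
      rw [show (4:ℕ) = 2 * 2 from rfl, pow_mul, Real.sq_sqrt (by positivity), div_pow]
    rw [mul_pow, div_pow, mul_pow, h, ← Real.exp_nat_mul]
    push_cast
    ring
  rw [L, R]
  calc (S ^ 2) ^ 2 * (Y ^ 2 / X ^ 2) / (D ^ 2) ^ 2 ≤ (S0 ^ 2 * Real.exp (e ^ 2)) ^ 2 *
        (Y0 ^ 2 * Real.exp (K1 * e ^ 2) / (X0 ^ 2 * Real.exp (-(32 * e ^ 2)))) /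
        (D0 ^ 2 * Real.exp (-(K2 * e ^ 2))) ^ 2 := by gcongr
    _ = (S0 ^ 2) ^ 2 * (Y0 ^ 2 / X0 ^ 2) / (D0 ^ 2) ^ 2 * Real.exp (2 * e ^ 2 + K1 * e ^ 2 + 32 * e ^ 2 +
        2 * (K2 * e ^ 2)) := by
        rw [Real.exp_add, Real.exp_add, Real.exp_add, Real.exp_neg, Real.exp_neg,
          show Real.exp (2 * e ^ 2) = Real.exp (e ^ 2) ^ 2 by rw [← Real.exp_nat_mul]; norm_num,
          show Real.exp (2 * (K2 * e ^ 2)) = Real.exp (K2 * e ^ 2) ^ 2 by rw [← Real.exp_nat_mul]; norm_num]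
        field_simp
    _ ≤ _ := by
        refine mul_le_mul_of_nonneg_left (Real.exp_le_exp.2 ?_) (by positivity)
        have : 0 ≤ (34 + K1 + 2 * K2) * e ^ 2 := by positivity
        nlinarith

/-! ### (W2) -/

/-- **(W2)** the wall factor under a transport `t + D t` with `D 0 = 0` -/
theorem wall_trans (j : ℕ) : ∃ C : ℝ, 1 ≤ C ∧ ∀ {lam : ℝ} {D : ℝ → ℝ}, O (j + 1) lam D → D 0 = 0 →
    lam ≤ 1 / 2 → ∃ w : ℝ → ℝ, O j (C * lam) w ∧ ∀ t, beta (t + D t) = beta t * Real.exp (w t) := by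
  obtain ⟨C1, hC1, H1⟩ := O.log1 j
  obtain ⟨C2, hC2, H2⟩ := O.delta j
  obtain ⟨C3, H3⟩ := Ew_O j
  have hC3 := H3.nonneg
  refine ⟨C1 + C2 * C3, by nlinarith [mul_nonneg (show 0 ≤ C2 by linarith) hC3], fun {lam D} hD h0 hl => ?_⟩
  obtain ⟨q, hq, hq2⟩ := hD.div h0
  have a1 := H1 hq hl
  have a2 := H2 hasDerivAt_Ew H3 hD.lower (by linarith)
  refine ⟨fun t => Real.log (1 + q t) + (Ew (t + D t) - Ew t), (a1.add a2).mono (le_of_eq (by ring)),
    fun t => ?_⟩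
  have hq1 : 0 < 1 + q t := by
    have := (abs_le.1 (hq.le t)).1
    linarith
  unfold beta
  rw [Real.exp_add, Real.exp_log hq1, Real.exp_sub]
  have e1 : t + D t = t * (1 + q t) := by
    rw [hq2 t]
    ring
  have e2 : |t + D t| = |t| * (1 + q t) := by
    rw [e1, abs_mul, abs_of_pos hq1]
  rw [e2]
  have := (Real.exp_pos (Ew t)).ne'
  field_simp

/-! ### (W3) -/

lemma log_beta {t : ℝ} (ht : t ≠ 0) : Real.log (beta t) = Real.log t + Ew t := by
  unfold beta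
  rw [Real.log_mul (abs_pos.2 ht).ne' (Real.exp_pos _).ne', Real.log_exp, Real.log_abs]

lemma log_beta_int (R : ℝ) : IntegrableOn (fun y => Real.log (beta y)) (Icc (-R) R) := by
  rcases le_or_gt R 0 with hR | hR
  · rcases eq_or_lt_of_le hR with rfl | hR
    · rw [neg_zero, Icc_self]
      have h0 : (volume.restrict ({(0:ℝ)} : Set ℝ)) = 0 := by
        rw [Measure.restrict_eq_zero, Real.volume_singleton]
      unfold IntegrableOn
      rw [h0]
      exact integrable_zero_measure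
    · rw [Icc_eq_empty (by linarith)]
      exact integrableOn_empty
  have h1 : IntervalIntegrable Real.log volume (-R) R := intervalIntegral.intervalIntegrable_log'
  have h2 : IntegrableOn Real.log (Icc (-R) R) := by
    rw [integrableOn_Icc_iff_integrableOn_Ioc]
    rwa [intervalIntegrable_iff_integrableOn_Ioc_of_le (by linarith)] at h1
  have h3 : IntegrableOn Ew (Icc (-R) R) := Ew_cont.continuousOn.integrableOn_compact isCompact_Icc
  refine (h2.add h3).congr ?_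
  have h4 : ∀ᵐ y ∂(volume.restrict (Icc (-R) R)), y ≠ 0 := by
    refine ae_restrict_of_ae ?_
    simp [ae_iff, measure_singleton]
  filter_upwards [h4] with y hy
  rw [Pi.add_apply, log_beta hy]

/-- **(W3)** the mean of the wall field of a transport -/
theorem wall_int {R : ℝ} {ρ F' ψ w : ℝ → ℝ} (cρ : Continuous ρ) (cF : Continuous F') (cw : Continuous w)
    (cov : ∀ f : ℝ → ℝ, ∫ y in Icc (-R) R, f (ψ y) * (ρ y + F' y) = ∫ y in Icc (-R) R, f y * ρ y)
    (hw : ∀ y, beta (ψ y) = beta y * Real.exp (w y)) :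
    ∫ y in Icc (-R) R, w y * ρ y =
      -(∫ y in Icc (-R) R, Real.log (beta y) * F' y) - ∫ y in Icc (-R) R, w y * F' y := by
  have hL := log_beta_int R
  have bdd : ∀ {g : ℝ → ℝ}, Continuous g → IntegrableOn (fun y => Real.log (beta y) * g y) (Icc (-R) R) := by
    intro g hg
    obtain ⟨C, hC⟩ := isCompact_Icc.exists_bound_of_continuousOn (s := Icc (-R) R) hg.continuousOn
    refine Integrable.mul_bdd (c := C) hL hg.aestronglyMeasurable ?_
    rw [ae_restrict_iff' measurableSet_Icc]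
    exact Eventually.of_forall fun y hy => hC y hy
  have i1 := bdd cρ
  have i2 := bdd cF
  have i3 : IntegrableOn (fun y => w y * ρ y) (Icc (-R) R) :=
    (cw.mul cρ).continuousOn.integrableOn_compact isCompact_Icc
  have i4 : IntegrableOn (fun y => w y * F' y) (Icc (-R) R) :=
    (cw.mul cF).continuousOn.integrableOn_compact isCompact_Icc
  have h := cov fun y => Real.log (beta y)
  have h4 : ∀ᵐ y ∂(volume.restrict (Icc (-R) R)), y ≠ 0 := by
    refine ae_restrict_of_ae ?_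
    simp [ae_iff, measure_singleton]
  have e : ∫ y in Icc (-R) R, Real.log (beta (ψ y)) * (ρ y + F' y) =
      ∫ y in Icc (-R) R, ((Real.log (beta y) * ρ y + Real.log (beta y) * F' y) + (w y * ρ y + w y * F' y)) := by
    refine integral_congr_ae ?_
    filter_upwards [h4] with y hy
    rw [hw, Real.log_mul (beta_pos hy).ne' (Real.exp_pos _).ne', Real.log_exp]
    ring
  have s1 := integral_add (i1.add i2) (i3.add i4)
  have s2 := integral_add i1 i2
  have s3 := integral_add i3 i4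
  simp only [Pi.add_apply] at s1
  rw [e, s1, s2, s3] at h
  linarith

end

end TCF
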