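import Pool.Agent.TC.R2T
import Pool.Agent.TC.Wall
import Pool.Agent.TC.S4Sym
import Pool.Agent.NUS4.H1c

/-!
# Parities: odd transports of symmetric modes, even kernels, the wall factor (nu34/53C [4.7], helper73)

* `kw_ev`, `kg_ev`: kernels of odd paths are even;
* `cutF_odd`, `cutF'_even`: the displacement of the symmetric extension `symE g`;
* `ps_odd`, `ps'_even`: the transport;
* `wall_data`: the wall factor `TCF.beta` under the transport.
-/

set_option autoImplicit false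

open MeasureTheory Set Filter Topology

namespace TCR

open NUE NUOC NUDp NUKer NUR2 NUTr NUS4 TCF TCS

/-- the derivative of an odd function is even -/
lemma even_of_odd {f f' : ℝ → ℝ} (hf : ∀ t, HasDerivAt f (f' t) t) (ho : ∀ t, f (-t) = -f t) (t : ℝ) :
    f' (-t) = f' t := by
  have h1 : HasDerivAt (fun x => -f (-x)) (f' (-t)) t := by
    have h2 := ((hf (-t)).comp t (hasDerivAt_neg t)).fun_neg
    have e : -(f' (-t) * -1) = f' (-t) := by ring
    rw [e] at h2
    exact h2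
  have h3 : (fun x => -f (-x)) = f := by
    funext x
    rw [ho, neg_neg]
  rw [h3] at h1
  exact h1.unique (hf t)

lemma oddD_iD {η η1 : ℝ → ℝ} (ho : ∀ t, η (-t) = -η t) (hd : ∀ t, HasDerivAt η (η1 t) t) :
    OddD (iD η) (iD η1) where
  odd := fun t => by
    unfold iD
    rw [ho]
    push_cast
    ring
  even := fun t => by
    unfold iD
    rw [even_of_odd hd ho]

lemma oddD_cD {ξ ξ1 : ℝ → ℝ} {D D1 : ℝ → ℂ} (hD : OddD D D1) (ho : ∀ t, ξ (-t) = -ξ t)
    (he : ∀ t, ξ1 (-t) = ξ1 t) : OddD (cD ξ D) (cD1 ξ ξ1 D1) where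
  odd := fun t => by
    unfold cD
    rw [ho, show -t + -ξ t = -(t + ξ t) by ring, hD.odd]
    push_cast
    ring
  even := fun t => by
    unfold cD1
    rw [ho, he, show -t + -ξ t = -(t + ξ t) by ring, hD.even]

/-- the own kernel of an odd path is even -/
lemma kw_ev {R : ℝ} {D D1 : ℝ → ℂ} (h : Sm R D D1) (hD : OddD D D1) : EvK R (kw D D1) := by
  intro x y hx hy
  rcases eq_or_ne x y with e | e
  · subst e
    rw [kw_diag, kw_diag, hD.even]
  · have h1 := norm_wcx h hx hy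
    have h2 := norm_wcx h (t := -x) (t' := -y) (by rwa [abs_neg]) (by rwa [abs_neg])
    rw [hD.odd, hD.odd, ← wcx_neg] at h2
    have e1 : -(((-x : ℝ) : ℂ) + -D x - (((-y : ℝ) : ℂ) + -D y)) = (x + D x) - (y + D y) := by
      push_cast
      ring
    rw [e1, h1, show -x - -y = -(x - y) by ring, NUAct.w_neg] at h2
    have hw := w_pos (sub_ne_zero.2 e)
    have h3 := mul_left_cancel₀ hw.ne' h2
    exact (Real.exp_injective h3).symm

/-- the cross kernel of odd paths is even -/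
lemma kg_ev {R : ℝ} {D D1 D' D1' : ℝ → ℂ} (h : Sm2 R D D') (hD : OddD D D1) (hD' : OddD D' D1') :
    EvK R (kg D D') := by
  intro x y hx hy
  have h1 := norm_gcx h hx hy
  have h2 := norm_gcx h (t := -x) (t' := -y) (by rwa [abs_neg]) (by rwa [abs_neg])
  rw [hD.odd, hD'.odd, ← gcx_neg] at h2
  have e1 : -(((-x : ℝ) : ℂ) + -D x - (((-y : ℝ) : ℂ) + -D' y)) = (x + D x) - (y + D' y) := by
    push_cast
    ring
  rw [e1, h1, show -x - -y = -(x - y) by ring, NUAct.g_neg] at h2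
  have h3 := mul_left_cancel₀ (NUMF.g_pos _).ne' h2
  exact (Real.exp_injective h3).symm

/-! ### the displacement of a symmetric mode -/

lemma psi_odd (c : ℝ → ℝ) (h t : ℝ) : psi c h (-t) = -psi c h t := by
  unfold psi st
  have e1 : (fun k => ev1 c k * Real.sin (k * -t)) = fun k => -(ev1 c k * Real.sin (k * t)) := by
    funext k
    rw [mul_neg, Real.sin_neg]
    ring
  rw [e1, integral_neg]
  ring

lemma Hc_even (R t : ℝ) : Hc R (-t) = Hc R t := by
  unfold Hc
  rw [sub_neg_eq_add, mul_comm, sub_eq_add_neg]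

variable {h X0 X : ℝ} {c : ℝ → ℝ}

lemma grid_odd {f : ℝ → ℝ} (hf : ∀ t, f (-t) = -f t) (g : Fin (fN h X0 X) → ℝ) (t : ℝ) :
    grid f (-(h * gM h X)) h (symE g) (-t) = -grid f (-(h * gM h X)) h (symE g) t := by
  rw [grid_symE, grid_symE, ← Finset.sum_neg_distrib]
  refine Finset.sum_congr rfl fun i _ => ?_
  rw [show -t - fpt h X0 X i = -(t + fpt h X0 X i) by ring,
    show -t + fpt h X0 X i = -(t - fpt h X0 X i) by ring, hf, hf]
  ring

lemma cutF_odd (R : ℝ) (g : Fin (fN h X0 X) → ℝ) (t : ℝ) :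
    cutF c h R (-(h * gM h X)) (symE g) (-t) = -cutF c h R (-(h * gM h X)) (symE g) t := by
  unfold cutF
  rw [Hc_even, grid_odd (psi_odd c h)]
  ring

lemma cutF'_even {δ K : ℝ} (hP : Prof δ K c) (R : ℝ) (g : Fin (fN h X0 X) → ℝ) (t : ℝ) :
    cutF' c h R (-(h * gM h X)) (symE g) (-t) = cutF' c h R (-(h * gM h X)) (symE g) t :=
  even_of_odd (fun t => hasDerivAt_cutF hP (-(h * gM h X)) (symE g) t) (cutF_odd R g) t

/-! ### the transport -/

lemma Gi_odd (u : ℝ) : Gi (-u) = -Gi u := by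
  unfold Gi
  rw [mul_neg, Real.tan_neg, mul_neg, Real.arsinh_neg]
  ring

lemma ps_odd {F : ℝ → ℝ} (s : ℝ) (hF : ∀ t, F (-t) = -F t) (t : ℝ) : ps s F (-t) = -ps s F t := by
  unfold ps
  rw [NUMF.G_neg, hF, ← Gi_odd]
  congr 1
  ring

lemma ps'_even {F F' : ℝ → ℝ} (s : ℝ) (hF : ∀ t, F (-t) = -F t) (hF' : ∀ t, F' (-t) = F' t) (t : ℝ) :
    ps' s F F' (-t) = ps' s F F' t := by
  unfold ps'
  rw [ps_odd s hF, NUMF.P_neg, NUMF.P_neg, hF']

/-! ### the wall factor -/

lemma Nk0_even (t : ℝ) : Nk 0 (-t) = Nk 0 t := by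
  unfold Nk
  have h1 := intervalIntegral.integral_comp_neg (a := -1) (b := 1)
    (fun u => (2 * u) ^ 0 * Real.exp (2 * u * t))
  rw [neg_neg] at h1
  rw [← h1]
  refine intervalIntegral.integral_congr fun u _ => ?_
  simp only [pow_zero, one_mul]
  congr 1
  ring

lemma Ew_even (t : ℝ) : Ew (-t) = Ew t := by
  unfold Ew
  rw [Nk0_even, show 4 * -t = -(4 * t) by ring, show 2 * -t = -(2 * t) by ring, Real.cosh_neg,
    Real.cosh_neg]

lemma beta_even (t : ℝ) : beta (-t) = beta t := by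
  unfold beta
  rw [Ew_even, abs_neg]

/-- **the wall factor under a transport** -/
theorem wall_data : ∃ C : ℝ, 1 ≤ C ∧ ∀ (R : ℝ), 1 ≤ R → ∀ {lam : ℝ} {ψ : ℝ → ℝ},
    O 4 lam (fun t => ψ t - t) → (∀ t, ψ (-t) = -ψ t) → lam ≤ 1 / 2 → ∃ w : ℝ → ℝ, Continuous w ∧
    KC R (C * R ^ 3 * lam) (fun x _ => (w x : ℂ)) ∧ (∀ t, w (-t) = w t) ∧
    (∀ t, beta (ψ t) = beta t * Real.exp (w t)) ∧
    Integrable (fun x => Real.log (beta x)) (mW R) ∧
    Integrable (fun x => Real.log (beta (ψ x))) (mW R) := by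
  obtain ⟨C1, hC1, H1⟩ := wall_trans 3
  obtain ⟨C2, hC2, H2⟩ := exists_KC1_of_O
  refine ⟨C2 * C1, by nlinarith, ?_⟩
  intro R hR lam ψ hD ho hlam
  have h0 : ψ 0 = 0 := by
    have := ho 0
    rw [neg_zero] at this
    linarith
  obtain ⟨w, hw, hw2⟩ := H1 hD (by rw [h0, sub_zero]) hlam
  have hw3 : ∀ t, beta (ψ t) = beta t * Real.exp (w t) := by
    intro t
    rw [← hw2 t]
    congr 1
    ring
  have i1 : Integrable (fun x => Real.log (beta x)) (mW R) := log_beta_int R
  refine ⟨w, hw.cont, ?_, ?_, hw3, i1, ?_⟩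
  · refine (H2 R hR _ _ hw).left.mono (le_of_eq ?_)
    ring
  · intro t
    rcases eq_or_ne t 0 with e | e
    · subst e
      rw [neg_zero]
    · have e1 := hw3 t
      have e2 := hw3 (-t)
      rw [ho, beta_even, beta_even, e1] at e2
      exact (Real.exp_injective (mul_left_cancel₀ (beta_pos e).ne' e2)).symm
  · have i2 : Integrable (fun x => Real.log (beta x) + w x) (mW R) := i1.add (int_mW hw.cont)
    refine i2.congr ?_
    have h0 : ∀ᵐ x ∂(mW R), x ≠ 0 := by
      unfold mW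
      apply ae_restrict_of_ae
      exact compl_mem_ae_iff.2 (measure_singleton 0)
    filter_upwards [h0] with x hx
    rw [hw3 x, Real.log_mul (beta_pos hx).ne' (Real.exp_pos _).ne', Real.log_exp]

end TCR
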