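import Pool.Agent.NUR2.R2core
import Pool.Agent.TC.DiSq

/-!
# R2 for statistics of positions (folded gas), abstract form (nu34/53C [4.7], helper73)

`Ω` with a finite measure `μ`, positions `sX : Ω → Fin P → ℝ`, `sY : Ω → Fin N → ℝ` in the window.
Input: the transport identity with the exponent `β` (`β = 1` for a gas on the line, `β = 1/2` for the
folded gas with symmetrised positions) and the expectations `RigS`.
Output `r2S`: lower bound of the exponential moment of the charge statistics.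
-/

set_option autoImplicit false

open MeasureTheory Set Filter Topology NUKer NUTr NUR2

namespace TCR

variable {Ω : Type*} [MeasurableSpace Ω] {P N : ℕ}

/-- external one body data: `e = E ∘ ψ - E` almost everywhere, `e` continuous and small -/
structure Ext1 (R l : ℝ) (ψ e E : ℝ → ℝ) : Prop where
  ce : Continuous e
  small : KC R l (fun x _ => (e x : ℂ))
  iE : Integrable E (mW R)
  iE' : Integrable (fun x => E (ψ x)) (mW R)
  eq : ∀ᵐ x ∂(mW R), e x = E (ψ x) - E x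

/-- one body function of species `X` -/
noncomputable def wX (R : ℝ) (ρ Us Uc ψX eX : ℝ → ℝ) (kX kc : ℝ → ℝ → ℝ) (x : ℝ) : ℝ :=
  eX x + (IX R ρ Us Uc kX kc (ψX x) - IX R ρ Us Uc kX kc x)

/-- one body function of species `Y` -/
noncomputable def wY (R : ℝ) (ρ Us Uc ψY eY : ℝ → ℝ) (kY kc : ℝ → ℝ → ℝ) (x : ℝ) : ℝ :=
  eY x + (IY R ρ Us Uc kY kc (ψY x) - IY R ρ Us Uc kY kc x)

variable {β R Λ l1 l2 S : ℝ} {μ : Measure Ω} {sX : Ω → Fin P → ℝ} {sY : Ω → Fin N → ℝ}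
  {ρ F' ψX ψX' ψY ψY' Us Uc eX eY EX EY χ : ℝ → ℝ}
  {qX qY qc kX kX' kY kY' kc kc' : ℝ → ℝ → ℝ}

/-- all hypotheses -/
structure HypS (β : ℝ) (μ : Measure Ω) (sX : Ω → Fin P → ℝ) (sY : Ω → Fin N → ℝ) (R Λ l1 l2 S : ℝ)
    (ρ F' ψX ψX' ψY ψY' Us Uc eX eY EX EY χ : ℝ → ℝ)
    (qX qY qc kX kX' kY kY' kc kc' : ℝ → ℝ → ℝ) : Prop where
  T : Tr R ρ F' ψX ψX' ψY ψY'
  mX : Measurable sX
  mY : Measurable sY
  win : ∀ᵐ ω ∂μ, (sX ω, sY ω) ∈ Bx (p := P) (n := N) R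
  rig : RigS μ sX sY R ρ S
  tr : ∫⁻ ω, ENNReal.ofReal (Real.exp (β * (∑ i, χ (sX ω i) - ∑ j, χ (sY ω j)))) ∂μ =
    ∫⁻ ω, ENNReal.ofReal (Real.exp (β * (Th (wX R ρ Us Uc ψX eX kX kc) (wY R ρ Us Uc ψY eY kY kc)
      (fun x y => kX' x y - kX x y) (fun x y => kY' x y - kY x y) (fun x y => kc' x y - kc x y)
      (sX ω, sY ω) + (∑ i, χ (ψX (sX ω i)) - ∑ j, χ (ψY (sY ω j)))))) ∂μ
  PX : Pk R Λ ψX ψX Us qX kX kX'
  PY : Pk R Λ ψY ψY Us qY kY kY'
  Pc : Pk R Λ ψX ψY Uc qc kc kc'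
  syX : ∀ x y, |x| ≤ R → |y| ≤ R → kX x y = kX y x
  syX' : ∀ x y, |x| ≤ R → |y| ≤ R → kX' x y = kX' y x
  syY : ∀ x y, |x| ≤ R → |y| ≤ R → kY x y = kY y x
  syY' : ∀ x y, |x| ≤ R → |y| ≤ R → kY' x y = kY' y x
  OX : Ext1 R l1 ψX eX EX
  OY : Ext1 R l1 ψY eY EY
  cχ : Continuous χ
  χX : KC R l2 (fun x _ => ((χ (ψX x) - χ x : ℝ) : ℂ))
  χY : KC R l2 (fun x _ => ((χ (ψY x) - χ x : ℝ) : ℂ))
  β0 : 0 ≤ β
  fin : IsFiniteMeasure μ

/-- the odd part -/
noncomputable def ellS (μ : Measure Ω) (sX : Ω → Fin P → ℝ) (sY : Ω → Fin N → ℝ) (R : ℝ)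
    (ρ F' Us Uc EX EY χ : ℝ → ℝ) : ℝ :=
  ((∫ y, F' y * EY y ∂(mW R)) - ∫ y, F' y * EX y ∂(mW R)) +
    ((∫ ω, nu R ρ (sX ω) (Lf R Us Uc F' χ) ∂μ) - ∫ ω, nu R ρ (sY ω) (Lf R Us Uc F' χ) ∂μ) / μ.real univ

/-- the odd part is odd in the field -/
theorem ellS_neg (μ : Measure Ω) (sX : Ω → Fin P → ℝ) (sY : Ω → Fin N → ℝ) (R : ℝ)
    (ρ F' Us Uc EX EY χ : ℝ → ℝ) :
    ellS μ sX sY R ρ (fun x => - F' x) Us Uc EX EY (fun x => - χ x) =
      - ellS μ sX sY R ρ F' Us Uc EX EY χ := by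
  have hL : Lf R Us Uc (fun x => - F' x) (fun x => - χ x) = fun x => - Lf R Us Uc F' χ x := by
    funext x
    unfold Lf
    simp only [mul_neg, integral_neg]
    ring
  have hn : ∀ {q : ℕ} (t : Fin q → ℝ) (f : ℝ → ℝ), nu R ρ t (fun x => - f x) = - nu R ρ t f := by
    intro q t f
    unfold nu
    simp only [Finset.sum_neg_distrib, neg_mul, intervalIntegral.integral_neg]
    ring
  unfold ellS
  rw [hL]
  simp only [neg_mul, integral_neg, hn]
  ring

/-- continuous functions of the positions are integrable -/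
lemma int_pos [IsFiniteMeasure μ] (hX : Measurable sX) (hY : Measurable sY)
    (hw : ∀ᵐ ω ∂μ, (sX ω, sY ω) ∈ Bx (p := P) (n := N) R) {G : Cfg P N → ℝ} (hG : Continuous G) :
    Integrable (fun ω => G (sX ω, sY ω)) μ := by
  obtain ⟨C, hC⟩ := (isCompact_Bx (p := P) (n := N) (R := R)).exists_bound_of_continuousOn hG.continuousOn
  refine Integrable.of_bound (hG.measurable.comp (hX.prodMk hY)).aestronglyMeasurable C ?_
  filter_upwards [hw] with ω hω
  exact hC _ hω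


set_option maxHeartbeats 4000000 in
theorem r2S0 (H : HypS β μ sX sY R Λ l1 l2 S ρ F' ψX ψX' ψY ψY' Us Uc eX eY EX EY χ qX qY qc
      kX kX' kY kY' kc kc')
    (cX : Continuous fun z : ℝ × ℝ => kX z.1 z.2) (cX' : Continuous fun z : ℝ × ℝ => kX' z.1 z.2)
    (cY : Continuous fun z : ℝ × ℝ => kY z.1 z.2) (cY' : Continuous fun z : ℝ × ℝ => kY' z.1 z.2)
    (cc : Continuous fun z : ℝ × ℝ => kc z.1 z.2) (cc' : Continuous fun z : ℝ × ℝ => kc' z.1 z.2)
    (yX : ∀ x y, kX x y = kX y x) (yX' : ∀ x y, kX' x y = kX' y x)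
    (yY : ∀ x y, kY x y = kY y x) (yY' : ∀ x y, kY' x y = kY' y x) :
    ENNReal.ofReal (μ.real univ *
      Real.exp (β * ((-2 * (∫ y, F' y * χ y ∂(mW R)) - TT (mW R) (fun x y => Us (x - y) - Uc (x - y)) F' F') +
        ellS μ sX sY R ρ F' Us Uc EX EY χ - err Λ l1 l2 S (∫ y, |F' y| ∂(mW R))))) ≤
    ∫⁻ ω, ENNReal.ofReal (Real.exp (β * (∑ i, χ (sX ω i) - ∑ j, χ (sY ω j)))) ∂μ := by
  obtain ⟨T, mX, mY, win, rig, htr, PX, PY, Pc, -, -, -, -, OX, OY, cχ, hχX, hχY, hβ, hfin⟩ := H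
  have hR := T.R0.le
  have cρ := T.cρ
  set NN : ℝ := ∫ y, |F' y| ∂(mW R) with hN
  have cψX : Continuous ψX := continuous_iff_continuousAt.2 fun x => (T.dX.der x).continuousAt
  have cψY : Continuous ψY := continuous_iff_continuousAt.2 fun x => (T.dY.der x).continuousAt
  -- kernels
  set κX : ℝ → ℝ → ℝ := fun x y => kX' x y - kX x y with hκX
  set κY : ℝ → ℝ → ℝ := fun x y => kY' x y - kY x y with hκY
  set κc : ℝ → ℝ → ℝ := fun x y => kc' x y - kc x y with hκc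
  have cκX : Continuous fun z : ℝ × ℝ => κX z.1 z.2 := cX'.sub cX
  have cκY : Continuous fun z : ℝ × ℝ => κY z.1 z.2 := cY'.sub cY
  have cκc : Continuous fun z : ℝ × ℝ => κc z.1 z.2 := cc'.sub cc
  have sκX : ∀ x y, κX x y = κX y x := fun x y => by simp only [hκX]; rw [yX, yX']
  have sκY : ∀ x y, κY x y = κY y x := fun x y => by simp only [hκY]; rw [yY, yY']
  have KκX : KC R (2 * Λ) (fun t t' => (κX t t' : ℂ)) :=
    ((PX.kc'.sub PX.kc).mono (le_of_eq (by ring))).congr fun t t' _ _ => by simp only [hκX]; push_cast; ring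
  have KκY : KC R (2 * Λ) (fun t t' => (κY t t' : ℂ)) :=
    ((PY.kc'.sub PY.kc).mono (le_of_eq (by ring))).congr fun t t' _ _ => by simp only [hκY]; push_cast; ring
  have Kκc : KC R (2 * Λ) (fun t t' => (κc t t' : ℂ)) :=
    ((Pc.kc'.sub Pc.kc).mono (le_of_eq (by ring))).congr fun t t' _ _ => by simp only [hκc]; push_cast; ring
  -- one body functions
  set u1 := vX R ρ F' ψX Us Uc (fun _ => 0) kX kX' kc kc' with hu1
  set u2 := vY R ρ F' ψY Us Uc (fun _ => 0) kY kY' kc kc' with hu2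
  set v1 : ℝ → ℝ := fun x => eX x + u1 x with hv1
  set v2 : ℝ → ℝ := fun x => eY x + u2 x with hv2
  have cUs := conv_cont PX.li T.cF T.sF
  have cUc := conv_cont Pc.li T.cF T.sF
  have cχX : Continuous fun y => χ (ψX y) := cχ.comp cψX
  have cχY : Continuous fun y => χ (ψY y) := cχ.comp cψY
  have cgX := cont_mW (F' := F') hR cX' T.cF
  have cgY := cont_mW (F' := F') hR cY' T.cF
  have cgc := cont_mW (F' := F') hR cc' T.cF
  have cgc' := cont_mW' (F' := F') hR cc' T.cF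
  have cu1 : Continuous u1 := by
    rw [hu1]
    exact (((((continuous_const.sub continuous_const).add (cUs.sub cUc)).sub cgX).add cgc).sub
      (cont_conv cκX cρ)).sub (cont_conv cκc cρ)
  have cu2 : Continuous u2 := by
    rw [hu2]
    exact (((((continuous_const.sub continuous_const).sub (cUs.sub cUc)).add cgY).sub cgc').sub
      (cont_conv cκY cρ)).sub (cont_conv' cκc cρ)
  have cv1 : Continuous v1 := OX.ce.add cu1
  have cv2 : Continuous v2 := OY.ce.add cu2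
  have hwX : ∀ x, |x| ≤ R → wX R ρ Us Uc ψX eX kX kc x = v1 x := by
    intro x hx
    have h1 := vX_eq (EX := fun _ => (0:ℝ)) T PX Pc cX cX' cc cc' hx
    simp only [hv1, hu1, wX]
    rw [h1]
    ring
  have hwY : ∀ x, |x| ≤ R → wY R ρ Us Uc ψY eY kY kc x = v2 x := by
    intro x hx
    have h1 := vY_eq (EY := fun _ => (0:ℝ)) T PY Pc cY cY' cc cc' hx
    simp only [hv2, hu2, wY]
    rw [h1]
    ring
  -- the transported integral
  have htr' : ∫⁻ ω, ENNReal.ofReal (Real.exp (β * (∑ i, χ (sX ω i) - ∑ j, χ (sY ω j)))) ∂μ =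
      ∫⁻ ω, ENNReal.ofReal (Real.exp (β * (Th v1 v2 κX κY κc (sX ω, sY ω) +
        (∑ i, χ (ψX (sX ω i)) - ∑ j, χ (ψY (sY ω j)))))) ∂μ := by
    rw [htr]
    refine lintegral_congr_ae ?_
    filter_upwards [win] with ω hω
    have e1 : Th (wX R ρ Us Uc ψX eX kX kc) (wY R ρ Us Uc ψY eY kY kc) κX κY κc (sX ω, sY ω) =
        Th v1 v2 κX κY κc (sX ω, sY ω) := by
      unfold Th Th1
      rw [Finset.sum_congr rfl fun i _ => hwX _ (hω.1 i), Finset.sum_congr rfl fun j _ => hwY _ (hω.2 j)]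
    rw [e1]
  rw [htr']
  -- decomposition
  set f1 := LX R ρ v1 κX κc with hf1
  set f2 := LX R ρ v2 κY (fun y x => κc x y) with hf2
  have cf1 : Continuous f1 := by
    rw [hf1]
    exact (cv1.add (cont_conv cκX cρ)).add (cont_conv cκc cρ)
  have cf2 : Continuous f2 := by
    rw [hf2]
    exact (cv2.add (cont_conv cκY cρ)).add (cont_conv' cκc cρ)
  set L := Lf R Us Uc F' χ with hL
  have cL : Continuous L := by
    rw [hL]
    exact cχ.add (cUs.sub cUc)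
  set r1 : ℝ → ℝ := fun x => eX x + (χ (ψX x) - χ x) -
    (∫ y, kX' x y * F' y ∂(mW R)) + (∫ y, kc' x y * F' y ∂(mW R)) with hr1
  set r2 : ℝ → ℝ := fun y => eY y - (χ (ψY y) - χ y) +
    (∫ z, kY' y z * F' z ∂(mW R)) - (∫ x, kc' x y * F' x ∂(mW R)) with hr2
  have cr1 : Continuous r1 := ((OX.ce.add (cχX.sub cχ)).sub cgX).add cgc
  have cr2 : Continuous r2 := ((OY.ce.sub (cχY.sub cχ)).add cgY).sub cgc'
  have g1 : ∀ x, f1 x = eX x + LX R ρ u1 κX κc x := by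
    intro x
    simp only [hf1, LX, hv1]
    ring
  have g2 : ∀ x, f2 x = eY x + LX R ρ u2 κY (fun y x => κc x y) x := by
    intro x
    simp only [hf2, LX, hv2]
    ring
  have d1 : ∀ x, f1 x + χ (ψX x) = L x + r1 x := by
    intro x
    rw [g1, hu1, hκX, hκc, LX_eq]
    simp only [hL, Lf, hr1]
    ring
  have d2 : ∀ x, f2 x - χ (ψY x) = r2 x - L x := by
    intro x
    rw [g2, hu2, hκY, hκc, LY_eq]
    simp only [hL, Lf, hr2]
    ring
  set S0 : ℝ := ((∫ y in (-R)..R, f1 y * ρ y) + (∫ y in (-R)..R, f2 y * ρ y) -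
      1 / 2 * (∫ y in (-R)..R, (∫ x in (-R)..R, κX x y * ρ x) * ρ y) -
      1 / 2 * (∫ y in (-R)..R, (∫ x in (-R)..R, κY x y * ρ x) * ρ y) -
      ∫ x in (-R)..R, (∫ y in (-R)..R, κc x y * ρ y) * ρ x) +
      ((∫ y in (-R)..R, χ (ψX y) * ρ y) - ∫ y in (-R)..R, χ (ψY y) * ρ y) with hS0
  have hdec : ∀ ω : Ω, Th v1 v2 κX κY κc (sX ω, sY ω) +
        (∑ i, χ (ψX (sX ω i)) - ∑ j, χ (ψY (sY ω j))) =
      ((nu R ρ (sX ω) L - nu R ρ (sY ω) L) + (nu R ρ (sX ω) r1 + nu R ρ (sY ω) r2)) +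
      (1 / 2 * nu2 R ρ ρ (sX ω) (sX ω) κX + 1 / 2 * nu2 R ρ ρ (sY ω) (sY ω) κY +
        nu2 R ρ ρ (sX ω) (sY ω) κc) + S0 := by
    intro ω
    have e1 := Th_split (p := P) (n := N) (R := R) cρ cv1 cv2 cκX cκY cκc sκX sκY (sX ω, sY ω)
    rw [← hf1, ← hf2] at e1
    simp only at e1
    have e2 : (∑ i, χ (ψX (sX ω i)) - ∑ j, χ (ψY (sY ω j))) =
        (nu R ρ (sX ω) (fun t => χ (ψX t)) + ∫ y in (-R)..R, χ (ψX y) * ρ y) -
        (nu R ρ (sY ω) (fun t => χ (ψY t)) + ∫ y in (-R)..R, χ (ψY y) * ρ y) := by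
      simp only [nu]
      ring
    have e3 : nu R ρ (sX ω) f1 + nu R ρ (sX ω) (fun t => χ (ψX t)) =
        nu R ρ (sX ω) L + nu R ρ (sX ω) r1 := by
      rw [← nu_add cρ cf1 cχX, ← nu_add cρ cL cr1]
      congr 1
      funext t
      exact d1 t
    have e4 : nu R ρ (sY ω) f2 - nu R ρ (sY ω) (fun t => χ (ψY t)) =
        nu R ρ (sY ω) r2 - nu R ρ (sY ω) L := by
      rw [← nu_sub cρ cf2 cχY, ← nu_sub cρ cr2 cL]
      congr 1
      funext t
      exact d2 t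
    rw [e1, e2, hS0]
    linarith
  simp only [hdec]
  -- integrals
  have : IsFiniteMeasure μ := hfin
  set Z : ℝ := μ.real univ with hZ
  have hZ0 : 0 ≤ Z := measureReal_nonneg
  have i1 : Integrable (fun ω => nu R ρ (sX ω) L) μ := int_pos mX mY win (nu_contX cL)
  have i2 : Integrable (fun ω => nu R ρ (sY ω) L) μ := int_pos mX mY win (nu_contY cL)
  have i3 : Integrable (fun ω => nu R ρ (sX ω) r1) μ := int_pos mX mY win (nu_contX cr1)
  have i4 : Integrable (fun ω => nu R ρ (sY ω) r2) μ := int_pos mX mY win (nu_contY cr2)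
  have i5 : Integrable (fun ω => nu2 R ρ ρ (sX ω) (sX ω) κX) μ :=
    int_pos mX mY win (nu2_contXX cρ cκX)
  have i6 : Integrable (fun ω => nu2 R ρ ρ (sY ω) (sY ω) κY) μ :=
    int_pos mX mY win (nu2_contYY cρ cκY)
  have i7 : Integrable (fun ω => nu2 R ρ ρ (sX ω) (sY ω) κc) μ :=
    int_pos mX mY win (nu2_contXY cρ cκc)
  have iT : Integrable (fun ω => ((nu R ρ (sX ω) L - nu R ρ (sY ω) L) +
      (nu R ρ (sX ω) r1 + nu R ρ (sY ω) r2)) +
      (1 / 2 * nu2 R ρ ρ (sX ω) (sX ω) κX + 1 / 2 * nu2 R ρ ρ (sY ω) (sY ω) κY +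
        nu2 R ρ ρ (sX ω) (sY ω) κc) + S0) μ :=
    (((i1.sub i2).add (i3.add i4)).add (((i5.const_mul _).add (i6.const_mul _)).add i7)).add
      (integrable_const _)
  have hint : ∫ ω, ((nu R ρ (sX ω) L - nu R ρ (sY ω) L) +
      (nu R ρ (sX ω) r1 + nu R ρ (sY ω) r2)) +
      (1 / 2 * nu2 R ρ ρ (sX ω) (sX ω) κX + 1 / 2 * nu2 R ρ ρ (sY ω) (sY ω) κY +
        nu2 R ρ ρ (sX ω) (sY ω) κc) + S0 ∂μ =
      ((∫ ω, nu R ρ (sX ω) L ∂μ) - ∫ ω, nu R ρ (sY ω) L ∂μ) +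
      ((∫ ω, nu R ρ (sX ω) r1 ∂μ) + ∫ ω, nu R ρ (sY ω) r2 ∂μ) +
      (1 / 2 * (∫ ω, nu2 R ρ ρ (sX ω) (sX ω) κX ∂μ) + 1 / 2 * (∫ ω, nu2 R ρ ρ (sY ω) (sY ω) κY ∂μ) +
        ∫ ω, nu2 R ρ ρ (sX ω) (sY ω) κc ∂μ) + S0 * Z := by
    have a1 := integral_add (((i1.sub i2).add (i3.add i4)).add (((i5.const_mul (1/2)).add (i6.const_mul (1/2))).add i7))
      (integrable_const (μ := μ) S0)
    have a2 := integral_add ((i1.sub i2).add (i3.add i4)) (((i5.const_mul (1/2)).add (i6.const_mul (1/2))).add i7)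
    have a3 := integral_add (i1.sub i2) (i3.add i4)
    have a4 := integral_sub i1 i2
    have a5 := integral_add i3 i4
    have a6 := integral_add ((i5.const_mul (1/2)).add (i6.const_mul (1/2))) i7
    have a7 := integral_add (i5.const_mul (1/2)) (i6.const_mul (1/2))
    simp only [Pi.add_apply, Pi.sub_apply] at a1 a2 a3 a4 a5 a6 a7
    rw [a1, a2, a3, a4, a5, a6, a7, integral_const_mul, integral_const_mul, integral_const, smul_eq_mul,
      mul_comm S0]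
  -- the value of `S0`
  have c0 : Continuous fun _ : ℝ => (0:ℝ) := continuous_const
  have hS := S0_eq (EX := fun _ => (0:ℝ)) (EY := fun _ => (0:ℝ)) (χ := χ) T PX PY Pc cX cX' cY cY' cc cc'
    yX yX' yY yY' c0 c0 cχ
  rw [← hu1, ← hu2] at hS
  simp only [sub_self, mul_zero, integral_zero] at hS
  have cl1 : Continuous (LX R ρ u1 κX κc) := (cu1.add (cont_conv cκX cρ)).add (cont_conv cκc cρ)
  have cl2 : Continuous (LX R ρ u2 κY (fun y x => κc x y)) :=
    (cu2.add (cont_conv cκY cρ)).add (cont_conv' cκc cρ)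
  have s1 : ∫ y in (-R)..R, f1 y * ρ y = (∫ y in (-R)..R, eX y * ρ y) +
      ∫ y in (-R)..R, LX R ρ u1 κX κc y * ρ y := by
    have e0 := intervalIntegral.integral_add (a := -R) (b := R) (μ := volume)
      ((OX.ce.mul cρ).intervalIntegrable _ _) ((cl1.mul cρ).intervalIntegrable _ _)
    simp only [Pi.mul_apply] at e0
    rw [← e0]
    refine intervalIntegral.integral_congr fun y _ => ?_
    simp only [g1]
    ring
  have s2 : ∫ y in (-R)..R, f2 y * ρ y = (∫ y in (-R)..R, eY y * ρ y) +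
      ∫ y in (-R)..R, LX R ρ u2 κY (fun y x => κc x y) y * ρ y := by
    have e0 := intervalIntegral.integral_add (a := -R) (b := R) (μ := volume)
      ((OY.ce.mul cρ).intervalIntegrable _ _) ((cl2.mul cρ).intervalIntegrable _ _)
    simp only [Pi.mul_apply] at e0
    rw [← e0]
    refine intervalIntegral.integral_congr fun y _ => ?_
    simp only [g2]
    ring
  -- the external terms
  have bρ : Bd (mW R) ρ := bd_mW T.cρ T.bρ
  have bF := T.bF
  have covX := fun f => cov_of (R := R) (b := F') T.dX T.bX T.massX f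
  have covY := fun f => cov_of (R := R) (b := fun x => - F' x) T.dY T.bY
    (fun x hx => by rw [T.massY x hx, sub_eq_add_neg]) f
  have bmul : ∀ {u v : ℝ → ℝ}, Bd (mW R) u → Integrable v (mW R) → Integrable (fun x => u x * v x) (mW R) := by
    intro u v hu hv
    obtain ⟨C, hC⟩ := hu.bd
    exact hv.bdd_mul hu.meas (Eventually.of_forall hC)
  have t1 : ∫ y in (-R)..R, eX y * ρ y = - (∫ y, F' y * eX y ∂(mW R)) - ∫ y, F' y * EX y ∂(mW R) := by
    have a1 : ∫ y, eX y * ρ y ∂(mW R) = (∫ y, ρ y * EX (ψX y) ∂(mW R)) - ∫ y, ρ y * EX y ∂(mW R) := by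
      rw [← integral_sub (bmul bρ OX.iE') (bmul bρ OX.iE)]
      refine integral_congr_ae ?_
      filter_upwards [OX.eq] with y hy
      rw [hy]
      ring
    have a2 : (∫ y, ρ y * EX (ψX y) ∂(mW R)) + ∫ y, F' y * EX (ψX y) ∂(mW R) =
        ∫ y, ρ y * EX y ∂(mW R) := by
      rw [← integral_add (bmul bρ OX.iE') (bmul bF OX.iE')]
      have := covX EX
      have e1 : ∫ y, EX y * ρ y ∂(mW R) = ∫ y, ρ y * EX y ∂(mW R) :=
        integral_congr_ae (Eventually.of_forall fun y => mul_comm _ _)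
      rw [← e1, ← this]
      exact integral_congr_ae (Eventually.of_forall fun y => by simp only; ring)
    have a3 : ∫ y, F' y * eX y ∂(mW R) = (∫ y, F' y * EX (ψX y) ∂(mW R)) - ∫ y, F' y * EX y ∂(mW R) := by
      rw [← integral_sub (bmul bF OX.iE') (bmul bF OX.iE)]
      refine integral_congr_ae ?_
      filter_upwards [OX.eq] with y hy
      rw [hy]
      ring
    rw [ii_eq hR, a1, a3]
    linarith
  have t2 : ∫ y in (-R)..R, eY y * ρ y = (∫ y, F' y * eY y ∂(mW R)) + ∫ y, F' y * EY y ∂(mW R) := by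
    have a1 : ∫ y, eY y * ρ y ∂(mW R) = (∫ y, ρ y * EY (ψY y) ∂(mW R)) - ∫ y, ρ y * EY y ∂(mW R) := by
      rw [← integral_sub (bmul bρ OY.iE') (bmul bρ OY.iE)]
      refine integral_congr_ae ?_
      filter_upwards [OY.eq] with y hy
      rw [hy]
      ring
    have a2 : (∫ y, ρ y * EY (ψY y) ∂(mW R)) - ∫ y, F' y * EY (ψY y) ∂(mW R) =
        ∫ y, ρ y * EY y ∂(mW R) := by
      rw [← integral_sub (bmul bρ OY.iE') (bmul bF OY.iE')]
      have := covY EY
      have e1 : ∫ y, EY y * ρ y ∂(mW R) = ∫ y, ρ y * EY y ∂(mW R) :=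
        integral_congr_ae (Eventually.of_forall fun y => mul_comm _ _)
      rw [← e1, ← this]
      exact integral_congr_ae (Eventually.of_forall fun y => by simp only; ring)
    have a3 : ∫ y, F' y * eY y ∂(mW R) = (∫ y, F' y * EY (ψY y) ∂(mW R)) - ∫ y, F' y * EY y ∂(mW R) := by
      rw [← integral_sub (bmul bF OY.iE') (bmul bF OY.iE)]
      refine integral_congr_ae ?_
      filter_upwards [OY.eq] with y hy
      rw [hy]
      ring
    rw [ii_eq hR, a1, a3]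
    linarith
  -- bounds
  have hΛ := PX.kc.nonneg
  have hN0 : 0 ≤ NN := integral_nonneg fun y => abs_nonneg _
  have kgX := kc_int hR cX' PX.kc' T.cF
  have kgY := kc_int hR cY' PY.kc' T.cF
  have kgc := kc_int hR cc' Pc.kc' T.cF
  have kgc' : KC R (Λ * NN) (fun y _ => ((∫ x, kc' x y * F' x ∂(mW R) : ℝ) : ℂ)) := by
    have c3 : Continuous fun z : ℝ × ℝ => (fun y x => kc' x y) z.1 z.2 := cc'.comp continuous_swap
    have h3 : KC R Λ (fun t t' => (((fun y x => kc' x y) t t' : ℝ) : ℂ)) := by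
      intro ε hε
      obtain ⟨ι, hι, c, a, b, h1, h2⟩ := Pc.kc' ε hε
      refine ⟨ι, hι, c, b, a, ?_, fun t t' ht ht' => ?_⟩
      · refine le_trans (le_of_eq (Finset.sum_congr rfl fun i _ => ?_)) h1
        ring
      · have := h2 t' t ht' ht
        refine le_trans (le_of_eq ?_) this
        congr 2
        refine Finset.sum_congr rfl fun i _ => ?_
        rw [add_comm (b i * t)]
    exact kc_int hR c3 h3 T.cF
  have kr1 : KC R (l1 + l2 + 2 * Λ * NN) (fun t _ => (r1 t : ℂ)) := by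
    refine (((OX.small.add hχX).sub kgX).add kgc |>.mono (le_of_eq ?_)).congr fun t t' _ _ => ?_
    · rw [← hN]
      ring
    · simp only [hr1]
      push_cast
      ring
  have kr2 : KC R (l1 + l2 + 2 * Λ * NN) (fun t _ => (r2 t : ℂ)) := by
    refine (((OY.small.sub hχY).add kgY).sub kgc' |>.mono (le_of_eq ?_)).congr fun t t' _ _ => ?_
    · rw [← hN]
      ring
    · simp only [hr2]
      push_cast
      ring
  have b1 := (abs_le.1 (rig.linX r1 _ cr1 kr1)).1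
  have b2 := (abs_le.1 (rig.linY r2 _ cr2 kr2)).1
  have b3 := (abs_le.1 (rig.XX κX _ cκX KκX)).1
  have b4 := (abs_le.1 (rig.YY κY _ cκY KκY)).1
  have b5 := (abs_le.1 (rig.XY κc _ cκc Kκc)).1
  rw [← hZ] at b1 b2 b3 b4 b5
  have q1 := (abs_le.1 (int_small hR OX.small T.cF)).2
  have q2 := (abs_le.1 (int_small hR OY.small T.cF)).1
  have q3 := (abs_le.1 (int_small hR hχX T.cF)).2
  have q4 := (abs_le.1 (int_small hR hχY T.cF)).2
  have q5 := (abs_le.1 (TT_small hR cX' PX.kc' T.cF)).1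
  have q6 := (abs_le.1 (TT_small hR cY' PY.kc' T.cF)).1
  have q7 := (abs_le.1 (TT_small hR cc' Pc.kc' T.cF)).2
  rw [← hN] at q1 q2 q3 q4 q5 q6 q7
  have hjen : (β * ((-2 * (∫ y, F' y * χ y ∂(mW R)) -
      TT (mW R) (fun x y => Us (x - y) - Uc (x - y)) F' F') +
        ellS μ sX sY R ρ F' Us Uc EX EY χ - err Λ l1 l2 S NN)) * μ.real univ ≤
      ∫ ω, β * (((nu R ρ (sX ω) L - nu R ρ (sY ω) L) +
      (nu R ρ (sX ω) r1 + nu R ρ (sY ω) r2)) +
      (1 / 2 * nu2 R ρ ρ (sX ω) (sX ω) κX + 1 / 2 * nu2 R ρ ρ (sY ω) (sY ω) κY +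
        nu2 R ρ ρ (sX ω) (sY ω) κc) + S0) ∂μ := by
    rw [integral_const_mul, hint, mul_assoc]
    refine mul_le_mul_of_nonneg_left ?_ hβ
    rw [← hZ]
    -- final inequality
    set A1 : ℝ := ∫ ω, nu R ρ (sX ω) L ∂μ with hA1
    set A2 : ℝ := ∫ ω, nu R ρ (sY ω) L ∂μ with hA2
    set M0 : ℝ := -2 * (∫ y, F' y * χ y ∂(mW R)) - TT (mW R) (fun x y => Us (x - y) - Uc (x - y)) F' F' with hM0
    set O1 : ℝ := (∫ y, F' y * EY y ∂(mW R)) - ∫ y, F' y * EX y ∂(mW R) with hO1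
    have hell : ellS μ sX sY R ρ F' Us Uc EX EY χ = O1 + (A1 - A2) / Z := rfl
    have hS0' : M0 + O1 - (2 * (l1 + l2) * NN + 2 * Λ * NN ^ 2) ≤ S0 := by
      rw [hS0, s1, s2, t1, t2]
      linarith
    have hellZ : (M0 + ellS μ sX sY R ρ F' Us Uc EX EY χ - err Λ l1 l2 S NN) * Z ≤
        (M0 + O1 - err Λ l1 l2 S NN) * Z + (A1 - A2) := by
      rw [hell]
      rcases eq_or_lt_of_le hZ0 with h0 | h0
      · -- the measure vanishes
        have hμ0 : μ = 0 := by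
          rw [← Measure.measure_univ_eq_zero]
          have : μ.real univ = 0 := by rw [← hZ]; exact h0.symm
          rw [measureReal_def, ENNReal.toReal_eq_zero_iff] at this
          rcases this with h | h
          · exact h
          · exact absurd h (measure_ne_top μ _)
        have e1 : A1 = 0 := by rw [hA1, hμ0]; simp
        have e2 : A2 = 0 := by rw [hA2, hμ0]; simp
        rw [e1, e2, ← h0]
        simp
      · have : (A1 - A2) / Z * Z = A1 - A2 := div_mul_cancel₀ _ h0.ne'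
        nlinarith
    refine hellZ.trans ?_
    have hm := mul_le_mul_of_nonneg_right hS0' hZ0
    unfold err
    nlinarith [hm]
  exact jensen_lower (iT.const_mul β) hjen

lemma wX_clk {x : ℝ} (hx : |x| ≤ R) (hψ : |ψX x| ≤ R) :
    wX R ρ Us Uc ψX eX (clk R kX) (clk R kc) x = wX R ρ Us Uc ψX eX kX kc x := by
  unfold wX
  rw [IX_clk hx, IX_clk hψ]

lemma wY_clk {x : ℝ} (hx : |x| ≤ R) (hψ : |ψY x| ≤ R) :
    wY R ρ Us Uc ψY eY (clk R kY) (clk R kc) x = wY R ρ Us Uc ψY eY kY kc x := by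
  unfold wY
  rw [IY_clk hx, IY_clk hψ]

/-- **R2 for the statistics of positions** -/
theorem r2S (H : HypS β μ sX sY R Λ l1 l2 S ρ F' ψX ψX' ψY ψY' Us Uc eX eY EX EY χ qX qY qc
      kX kX' kY kY' kc kc') :
    ENNReal.ofReal (μ.real univ *
      Real.exp (β * ((-2 * (∫ y, F' y * χ y ∂(mW R)) - TT (mW R) (fun x y => Us (x - y) - Uc (x - y)) F' F') +
        ellS μ sX sY R ρ F' Us Uc EX EY χ - err Λ l1 l2 S (∫ y, |F' y| ∂(mW R))))) ≤
    ∫⁻ ω, ENNReal.ofReal (Real.exp (β * (∑ i, χ (sX ω i) - ∑ j, χ (sY ω j)))) ∂μ := by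
  have hR := H.T.R0.le
  have HX := H.PX.kc.clamp hR
  have HX' := H.PX.kc'.clamp hR
  have HY := H.PY.kc.clamp hR
  have HY' := H.PY.kc'.clamp hR
  have Hc := H.Pc.kc.clamp hR
  have Hc' := H.Pc.kc'.clamp hR
  have htr : ∫⁻ ω, ENNReal.ofReal (Real.exp (β * (∑ i, χ (sX ω i) - ∑ j, χ (sY ω j)))) ∂μ =
    ∫⁻ ω, ENNReal.ofReal (Real.exp (β * (Th (wX R ρ Us Uc ψX eX (clk R kX) (clk R kc))
      (wY R ρ Us Uc ψY eY (clk R kY) (clk R kc))
      (fun x y => clk R kX' x y - clk R kX x y) (fun x y => clk R kY' x y - clk R kY x y)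
      (fun x y => clk R kc' x y - clk R kc x y)
      (sX ω, sY ω) + (∑ i, χ (ψX (sX ω i)) - ∑ j, χ (ψY (sY ω j)))))) ∂μ := by
    rw [H.tr]
    refine lintegral_congr_ae ?_
    filter_upwards [H.win] with ω hω
    have hX := hω.1
    have hY := hω.2
    simp only at hX hY
    have a1 : ∀ i, wX R ρ Us Uc ψX eX (clk R kX) (clk R kc) (sX ω i) =
        wX R ρ Us Uc ψX eX kX kc (sX ω i) := fun i => wX_clk (hX i) ((H.T.bX _).2 (hX i))
    have a2 : ∀ i, wY R ρ Us Uc ψY eY (clk R kY) (clk R kc) (sY ω i) =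
        wY R ρ Us Uc ψY eY kY kc (sY ω i) := fun i => wY_clk (hY i) ((H.T.bY _).2 (hY i))
    have a3 : ∀ (k : ℝ → ℝ → ℝ) i j, clk R k (sX ω i) (sX ω j) = k (sX ω i) (sX ω j) :=
      fun k i j => clk_eq (hX i) (hX j)
    have a4 : ∀ (k : ℝ → ℝ → ℝ) i j, clk R k (sY ω i) (sY ω j) = k (sY ω i) (sY ω j) :=
      fun k i j => clk_eq (hY i) (hY j)
    have a5 : ∀ (k : ℝ → ℝ → ℝ) i j, clk R k (sX ω i) (sY ω j) = k (sX ω i) (sY ω j) :=
      fun k i j => clk_eq (hX i) (hY j)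
    simp only [Th, Th1, a1, a2, a3, a4, a5]
  have H' : HypS β μ sX sY R Λ l1 l2 S ρ F' ψX ψX' ψY ψY' Us Uc eX eY EX EY χ qX qY qc
      (clk R kX) (clk R kX') (clk R kY) (clk R kY') (clk R kc) (clk R kc') :=
    ⟨H.T, H.mX, H.mY, H.win, H.rig, htr, H.PX.clk hR H.T.bX H.T.bX, H.PY.clk hR H.T.bY H.T.bY,
      H.Pc.clk hR H.T.bX H.T.bY, fun x y _ _ => clk_symm hR H.syX x y,
      fun x y _ _ => clk_symm hR H.syX' x y, fun x y _ _ => clk_symm hR H.syY x y,
      fun x y _ _ => clk_symm hR H.syY' x y, H.OX, H.OY, H.cχ, H.χX, H.χY, H.β0, H.fin⟩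
  exact r2S0 H' HX.1 HX'.1 HY.1 HY'.1 Hc.1 Hc'.1 (clk_symm hR H.syX) (clk_symm hR H.syX')
    (clk_symm hR H.syY) (clk_symm hR H.syY')

end TCR
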