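import Pool.Agent.TC.R2S
import Pool.Agent.NUR2.Wo

/-!
# R2 for the folded gas (nu34/53C [4.7], helper73)

The folded gas has the pair functions `fq q x y = q x y * q x (-y)` on the full window.  Odd maps
`ψ`, `φ` transport it; the exponent is one half of the exponent of the full gas at the symmetrised
configuration (`Th_sym`).

* `transportF`: the transported integral;
* `HypF`, `r2F`: lower bound of the exponential moment of the symmetrised charge statistics;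
* `FWO_eq_W`: the folded positive gas `TCF.FWO` as an instance.
-/

set_option autoImplicit false

open MeasureTheory Set Filter Topology ENNReal NUTr NUKer NUR2 TCF

namespace TCR

variable {p n : ℕ}

/-- folded pair function -/
def fq (q : ℝ → ℝ → ℝ) (x y : ℝ) : ℝ := q x y * q x (-y)

/-- folded kernel -/
def fk (κ : ℝ → ℝ → ℝ) (x y : ℝ) : ℝ := κ x y + κ x (-y)

/-- symmetrised function -/
noncomputable def fv (v : ℝ → ℝ) (x : ℝ) : ℝ := 1 / 2 * (v x + v (-x))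

lemma fq_nonneg {q : ℝ → ℝ → ℝ} (h : ∀ x y, 0 ≤ q x y) (x y : ℝ) : 0 ≤ fq q x y :=
  mul_nonneg (h _ _) (h _ _)

lemma fq_meas {q : ℝ → ℝ → ℝ} (h : Measurable fun z : ℝ × ℝ => q z.1 z.2) :
    Measurable fun z : ℝ × ℝ => fq q z.1 z.2 := by
  have h2 : Measurable fun z : ℝ × ℝ => q z.1 (-z.2) :=
    h.comp (measurable_fst.prodMk measurable_snd.neg)
  exact h.mul h2

lemma fq_rel {R : ℝ} {ψ φ : ℝ → ℝ} {q κ : ℝ → ℝ → ℝ} (h : PairRel R ψ φ q κ) (o : ∀ x, φ (-x) = -φ x) :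
    PairRel R ψ φ (fq q) (fk κ) := by
  intro x y hx hy
  unfold fq fk
  rw [h x y hx hy, ← o, h x (-y) hx (by rwa [abs_neg]), Real.exp_add]
  ring

/-- double sums of a kernel over symmetrised configurations -/
lemma sum_sym_kernel {R : ℝ} {κ : ℝ → ℝ → ℝ} (hn : ∀ x y, |x| ≤ R → |y| ≤ R → κ (-x) (-y) = κ x y)
    {t : Fin p → ℝ} {t' : Fin n → ℝ} (ht : ∀ i, |t i| ≤ R) (ht' : ∀ j, |t' j| ≤ R) :
    ∑ i, ∑ j, κ (sym t i) (sym t' j) = 2 * ∑ i, ∑ j, fk κ (t i) (t' j) := by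
  have h1 : ∀ x, ∑ j, κ x (sym t' j) = ∑ j, (κ x (t' j) + κ x (-t' j)) := by
    intro x
    rw [sum_sym (fun y => κ x y) t', Finset.sum_add_distrib]
  simp_rw [h1]
  rw [sum_sym (fun x => ∑ j, (κ x (t' j) + κ x (-t' j))) t, ← Finset.sum_add_distrib, Finset.mul_sum]
  refine Finset.sum_congr rfl fun i _ => ?_
  rw [← Finset.sum_add_distrib, Finset.mul_sum]
  refine Finset.sum_congr rfl fun j _ => ?_
  have e1 := hn (t i) (t' j) (ht i) (ht' j)
  have e2 := hn (t i) (-t' j) (ht i) (by rw [abs_neg]; exact ht' j)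
  rw [neg_neg] at e2
  unfold fk
  rw [e1, e2]
  ring

/-- **the exponent at the symmetrised configuration** -/
theorem Th_sym {R : ℝ} {vX vY : ℝ → ℝ} {κX κY κc : ℝ → ℝ → ℝ}
    (nX : ∀ x y, |x| ≤ R → |y| ≤ R → κX (-x) (-y) = κX x y)
    (nY : ∀ x y, |x| ≤ R → |y| ≤ R → κY (-x) (-y) = κY x y)
    (nc : ∀ x y, |x| ≤ R → |y| ≤ R → κc (-x) (-y) = κc x y) {x : Cfg p n}
    (hx : x ∈ Bx (p := p) (n := n) R) :
    1 / 2 * Th vX vY κX κY κc (sym x.1, sym x.2) =
      Th (fv vX) (fv vY) (fk κX) (fk κY) (fk κc) x := by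
  have h1 : ∀ {k : ℕ} (v : ℝ → ℝ) (t : Fin k → ℝ), ∑ i, v (sym t i) = 2 * ∑ i, fv v (t i) := by
    intro k v t
    rw [sum_sym v t, ← Finset.sum_add_distrib, Finset.mul_sum]
    refine Finset.sum_congr rfl fun i _ => ?_
    unfold fv
    ring
  unfold Th Th1
  simp only
  rw [h1, h1, sum_sym_kernel nX hx.1 hx.1, sum_sym_kernel nY hx.2 hx.2, sum_sym_kernel nc hx.1 hx.2]
  ring

/-- the symmetrised transported configuration -/
lemma sym_mv {ψ : ℝ → ℝ} (o : ∀ x, ψ (-x) = -ψ x) (t : Fin p → ℝ) :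
    (sym fun i => ψ (t i)) = fun i => ψ (sym t i) := by
  funext i
  refine Fin.addCases (fun j => ?_) (fun j => ?_) i
  · rw [sym_left, sym_left]
  · rw [sym_right, sym_right, o]

/-- **the transported integral of the folded gas** -/
theorem transportF {ψ ψ' φ φ' : ℝ → ℝ} (h : Dif ψ ψ') (h' : Dif φ φ') (hm : Measurable ψ')
    (hm' : Measurable φ') {R : ℝ} (hR : ∀ x, |ψ x| ≤ R ↔ |x| ≤ R) (hR' : ∀ x, |φ x| ≤ R ↔ |x| ≤ R)
    (oψ : ∀ x, ψ (-x) = -ψ x) (oφ : ∀ x, φ (-x) = -φ x)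
    {pX pY pc κX κY κc : ℝ → ℝ → ℝ} {aX aY vX vY : ℝ → ℝ} (hX : PairRel R ψ ψ pX κX)
    (hY : PairRel R φ φ pY κY) (hc : PairRel R ψ φ pc κc)
    (sX : ∀ x y, |x| ≤ R → |y| ≤ R → κX x y = κX y x) (sY : ∀ x y, |x| ≤ R → |y| ≤ R → κY x y = κY y x)
    (nX : ∀ x y, |x| ≤ R → |y| ≤ R → κX (-x) (-y) = κX x y)
    (nY : ∀ x y, |x| ≤ R → |y| ≤ R → κY (-x) (-y) = κY x y)
    (nc : ∀ x y, |x| ≤ R → |y| ≤ R → κc (-x) (-y) = κc x y)
    (oX : OneRel R ψ ψ' aX (fv vX) (fk κX)) (oY : OneRel R φ φ' aY (fv vY) (fk κY))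
    (pX0 : ∀ x y, 0 ≤ pX x y) (pY0 : ∀ x y, 0 ≤ pY x y) (pc0 : ∀ x y, 0 ≤ pc x y)
    (aX0 : ∀ x, 0 ≤ aX x) (aY0 : ∀ x, 0 ≤ aY x)
    (mX : Measurable fun z : ℝ × ℝ => pX z.1 z.2)
    (mY : Measurable fun z : ℝ × ℝ => pY z.1 z.2) (mc : Measurable fun z : ℝ × ℝ => pc z.1 z.2)
    (maX : Measurable aX) (maY : Measurable aY)
    {G : Cfg p n → ℝ} (hG : Measurable G)
    (mT : Measurable fun x : Cfg p n => Th (fv vX) (fv vY) (fk κX) (fk κY) (fk κc) x) :
    ∫⁻ x, ENNReal.ofReal (Real.exp (G x)) ∂(mu R (fq pX) (fq pY) (fq pc) aX aY) =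
      ∫⁻ x, ENNReal.ofReal (Real.exp (1 / 2 * Th vX vY κX κY κc (sym x.1, sym x.2) + G (mv ψ φ x)))
        ∂(mu R (fq pX) (fq pY) (fq pc) aX aY) := by
  have sfk : ∀ {κ : ℝ → ℝ → ℝ}, (∀ x y, |x| ≤ R → |y| ≤ R → κ x y = κ y x) →
      (∀ x y, |x| ≤ R → |y| ≤ R → κ (-x) (-y) = κ x y) →
      ∀ x y, |x| ≤ R → |y| ≤ R → fk κ x y = fk κ y x := by
    intro κ h1 h2 x y hx hy
    have e1 := h2 y (-x) hy (by rwa [abs_neg])
    rw [neg_neg] at e1
    unfold fk
    rw [h1 x y hx hy, h1 x (-y) hx (by rwa [abs_neg]), e1]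
  have h1 := transport_mu (p := p) (n := n) h h' hm hm' hR hR' (fq_rel hX oψ) (fq_rel hY oφ)
    (fq_rel hc oφ) (sfk sX nX) (sfk sY nY) oX oY (fq_nonneg pX0) (fq_nonneg pY0) (fq_nonneg pc0)
    aX0 aY0 (fq_meas mX) (fq_meas mY) (fq_meas mc) maX maY hG mT
  rw [h1]
  refine lintegral_congr_ae ?_
  filter_upwards [mem_mu (fq pX) (fq pY) (fq pc) aX aY] with x hx
  rw [Th_sym nX nY nc hx]

/-! ### R2 for the folded gas -/

variable {R Λ l1 l2 S : ℝ} {ρ F' ψX ψX' ψY ψY' Us Uc eX eY EX EY AX AY χ : ℝ → ℝ}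
  {qX qY qc kX kX' kY kY' kc kc' : ℝ → ℝ → ℝ}

/-- evenness of a kernel in the window -/
def EvK (R : ℝ) (k : ℝ → ℝ → ℝ) : Prop := ∀ x y, |x| ≤ R → |y| ≤ R → k (-x) (-y) = k x y

/-- symmetry of a kernel in the window -/
def SyK (R : ℝ) (k : ℝ → ℝ → ℝ) : Prop := ∀ x y, |x| ≤ R → |y| ≤ R → k x y = k y x

/-- one body data of the folded gas: own image and wall factor are part of `A` -/
structure OBF (R l : ℝ) (ψ ψ' A e E w : ℝ → ℝ) (k k' : ℝ → ℝ → ℝ) : Prop where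
  a0 : ∀ x, 0 ≤ A x
  am : Measurable A
  ext : Ext1 R l ψ e E
  rel : ∀ x, |x| ≤ R → A (ψ x) * ψ' x = A x * Real.exp (fv w x +
    1 / 2 * ((k' x x - k x x) + (k' x (-x) - k x (-x))))

/-- all hypotheses for the folded gas -/
structure HypF (p n : ℕ) (R Λ l1 l2 S : ℝ) (ρ F' ψX ψX' ψY ψY' Us Uc eX eY EX EY AX AY χ : ℝ → ℝ)
    (qX qY qc kX kX' kY kY' kc kc' : ℝ → ℝ → ℝ) : Prop where
  T : Tr R ρ F' ψX ψX' ψY ψY'
  oX : ∀ x, ψX (-x) = -ψX x
  oY : ∀ x, ψY (-x) = -ψY x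
  PX : Pk R Λ ψX ψX Us qX kX kX'
  PY : Pk R Λ ψY ψY Us qY kY kY'
  Pc : Pk R Λ ψX ψY Uc qc kc kc'
  syX : SyK R kX
  syX' : SyK R kX'
  syY : SyK R kY
  syY' : SyK R kY'
  evX : EvK R kX
  evX' : EvK R kX'
  evY : EvK R kY
  evY' : EvK R kY'
  evc : EvK R kc
  evc' : EvK R kc'
  OX : OBF R l1 ψX ψX' AX eX EX (wX R ρ Us Uc ψX eX kX kc) kX kX'
  OY : OBF R l1 ψY ψY' AY eY EY (wY R ρ Us Uc ψY eY kY kc) kY kY'
  cχ : Continuous χ
  χX : KC R l2 (fun x _ => ((χ (ψX x) - χ x : ℝ) : ℂ))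
  χY : KC R l2 (fun x _ => ((χ (ψY x) - χ x : ℝ) : ℂ))
  fin : IsFiniteMeasure (mu (p := p) (n := n) R (fq qX) (fq qY) (fq qc) AX AY)
  rig : RigS (mu (p := p) (n := n) R (fq qX) (fq qY) (fq qc) AX AY) (fun x => sym x.1)
    (fun x => sym x.2) R ρ S

lemma EvK.sub {R : ℝ} {k k' : ℝ → ℝ → ℝ} (h : EvK R k) (h' : EvK R k') :
    EvK R (fun x y => k x y - k' x y) := fun x y hx hy => by
  simp only
  rw [h x y hx hy, h' x y hx hy]

lemma EvK.clk {R : ℝ} {k : ℝ → ℝ → ℝ} (h : EvK R k) : EvK R (NUR2.clk R k) := by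
  intro x y hx hy
  rw [clk_eq (by rwa [abs_neg]) (by rwa [abs_neg]), clk_eq hx hy, h x y hx hy]

lemma SyK.sub {R : ℝ} {k k' : ℝ → ℝ → ℝ} (h : SyK R k) (h' : SyK R k') :
    SyK R (fun x y => k x y - k' x y) := fun x y hx hy => by
  simp only
  rw [h x y hx hy, h' x y hx hy]

lemma sym_win {x : Cfg p n} (hx : x ∈ Bx (p := p) (n := n) R) :
    ((sym x.1, sym x.2) : Cfg (p + p) (n + n)) ∈ Bx (p := p + p) (n := n + n) R :=
  ⟨abs_sym_le hx.1, abs_sym_le hx.2⟩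

/-- the one body function of species `X` agrees with a continuous one -/
lemma wX_cont (T : Tr R ρ F' ψX ψX' ψY ψY') (PX : Pk R Λ ψX ψX Us qX kX kX')
    (Pc : Pk R Λ ψX ψY Uc qc kc kc') (cX : Continuous fun z : ℝ × ℝ => kX z.1 z.2)
    (cX' : Continuous fun z : ℝ × ℝ => kX' z.1 z.2) (cc : Continuous fun z : ℝ × ℝ => kc z.1 z.2)
    (cc' : Continuous fun z : ℝ × ℝ => kc' z.1 z.2) (ce : Continuous eX) :
    ∃ v : ℝ → ℝ, Continuous v ∧ ∀ x, |x| ≤ R → wX R ρ Us Uc ψX eX kX kc x = v x := by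
  have hR := T.R0.le
  have cκX : Continuous fun z : ℝ × ℝ => kX' z.1 z.2 - kX z.1 z.2 := cX'.sub cX
  have cκc : Continuous fun z : ℝ × ℝ => kc' z.1 z.2 - kc z.1 z.2 := cc'.sub cc
  have cUs := conv_cont PX.li T.cF T.sF
  have cUc := conv_cont Pc.li T.cF T.sF
  have cgX := cont_mW (F' := F') hR cX' T.cF
  have cgc := cont_mW (F' := F') hR cc' T.cF
  refine ⟨fun x => eX x + vX R ρ F' ψX Us Uc (fun _ => 0) kX kX' kc kc' x, ce.add ?_, fun x hx => ?_⟩
  · exact (((((continuous_const.sub continuous_const).add (cUs.sub cUc)).sub cgX).add cgc).sub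
      (cont_conv cκX T.cρ)).sub (cont_conv cκc T.cρ)
  · have h1 := vX_eq (EX := fun _ => (0:ℝ)) T PX Pc cX cX' cc cc' hx
    simp only [wX]
    rw [h1]
    ring

/-- the one body function of species `Y` agrees with a continuous one -/
lemma wY_cont (T : Tr R ρ F' ψX ψX' ψY ψY') (PY : Pk R Λ ψY ψY Us qY kY kY')
    (Pc : Pk R Λ ψX ψY Uc qc kc kc') (cY : Continuous fun z : ℝ × ℝ => kY z.1 z.2)
    (cY' : Continuous fun z : ℝ × ℝ => kY' z.1 z.2) (cc : Continuous fun z : ℝ × ℝ => kc z.1 z.2)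
    (cc' : Continuous fun z : ℝ × ℝ => kc' z.1 z.2) (ce : Continuous eY) :
    ∃ v : ℝ → ℝ, Continuous v ∧ ∀ x, |x| ≤ R → wY R ρ Us Uc ψY eY kY kc x = v x := by
  have hR := T.R0.le
  have cκY : Continuous fun z : ℝ × ℝ => kY' z.1 z.2 - kY z.1 z.2 := cY'.sub cY
  have cκc : Continuous fun z : ℝ × ℝ => kc' z.1 z.2 - kc z.1 z.2 := cc'.sub cc
  have cUs := conv_cont PY.li T.cF T.sF
  have cUc := conv_cont Pc.li T.cF T.sF
  have cgY := cont_mW (F' := F') hR cY' T.cF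
  have cgc' := cont_mW' (F' := F') hR cc' T.cF
  refine ⟨fun x => eY x + vY R ρ F' ψY Us Uc (fun _ => 0) kY kY' kc kc' x, ce.add ?_, fun x hx => ?_⟩
  · exact (((((continuous_const.sub continuous_const).sub (cUs.sub cUc)).add cgY).sub cgc').sub
      (cont_conv cκY T.cρ)).sub (cont_conv' cκc T.cρ)
  · have h1 := vY_eq (EY := fun _ => (0:ℝ)) T PY Pc cY cY' cc cc' hx
    simp only [wY]
    rw [h1]
    ring

lemma fv_congr {v w : ℝ → ℝ} (h : ∀ x, |x| ≤ R → v x = w x) {x : ℝ} (hx : |x| ≤ R) :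
    fv v x = fv w x := by
  unfold fv
  rw [h x hx, h (-x) (by rwa [abs_neg])]

set_option maxHeartbeats 2000000 in
/-- **R2 for the folded gas** -/
theorem r2F (H : HypF p n R Λ l1 l2 S ρ F' ψX ψX' ψY ψY' Us Uc eX eY EX EY AX AY χ qX qY qc
      kX kX' kY kY' kc kc') :
    ENNReal.ofReal ((mu (p := p) (n := n) R (fq qX) (fq qY) (fq qc) AX AY).real univ *
      Real.exp (1 / 2 * ((-2 * (∫ y, F' y * χ y ∂(mW R)) -
        TT (mW R) (fun x y => Us (x - y) - Uc (x - y)) F' F') +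
        ellS (mu (p := p) (n := n) R (fq qX) (fq qY) (fq qc) AX AY) (fun x => sym x.1)
          (fun x => sym x.2) R ρ F' Us Uc EX EY χ - err Λ l1 l2 S (∫ y, |F' y| ∂(mW R))))) ≤
    ∫⁻ x, ENNReal.ofReal (Real.exp (1 / 2 * (∑ i, χ (sym x.1 i) - ∑ j, χ (sym x.2 j))))
      ∂(mu (p := p) (n := n) R (fq qX) (fq qY) (fq qc) AX AY) := by
  obtain ⟨T, oX, oY, PX0, PY0, Pc0, syX, syX', syY, syY', evX, evX', evY, evY', evc, evc', OX, OY,
    cχ, hχX, hχY, hfin, rig⟩ := H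
  have hR := T.R0.le
  -- clamped kernels
  have PX := PX0.clk hR T.bX T.bX
  have PY := PY0.clk hR T.bY T.bY
  have Pc := Pc0.clk hR T.bX T.bY
  have cX := (PX0.kc.clamp hR).1
  have cX' := (PX0.kc'.clamp hR).1
  have cY := (PY0.kc.clamp hR).1
  have cY' := (PY0.kc'.clamp hR).1
  have cc := (Pc0.kc.clamp hR).1
  have cc' := (Pc0.kc'.clamp hR).1
  have zX := clk_symm hR syX
  have zX' := clk_symm hR syX'
  have zY := clk_symm hR syY
  have zY' := clk_symm hR syY'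
  obtain ⟨v1, cv1, hv1⟩ := wX_cont (eX := eX) T PX Pc cX cX' cc cc' OX.ext.ce
  obtain ⟨v2, cv2, hv2⟩ := wY_cont (eY := eY) T PY Pc cY cY' cc cc' OY.ext.ce
  have cψX : Continuous ψX := continuous_iff_continuousAt.2 fun x => (T.dX.der x).continuousAt
  have cψY : Continuous ψY := continuous_iff_continuousAt.2 fun x => (T.dY.der x).continuousAt
  -- one body relations
  have ox : OneRel R ψX ψX' AX (fv v1) (fk fun x y => clk R kX' x y - clk R kX x y) := by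
    intro x hx
    have hnx : |(-x)| ≤ R := by rwa [abs_neg]
    rw [OX.rel x hx]
    congr 2
    have e1 : fv (wX R ρ Us Uc ψX eX kX kc) x = fv v1 x := by
      rw [← fv_congr hv1 hx]
      refine fv_congr (R := R) (fun y hy => ?_) hx
      rw [wX_clk hy ((T.bX y).2 hy)]
    rw [e1]
    unfold fk
    simp only
    rw [clk_eq hx hx, clk_eq hx hx, clk_eq hx hnx, clk_eq hx hnx]
  have oy : OneRel R ψY ψY' AY (fv v2) (fk fun x y => clk R kY' x y - clk R kY x y) := by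
    intro x hx
    have hnx : |(-x)| ≤ R := by rwa [abs_neg]
    rw [OY.rel x hx]
    congr 2
    have e1 : fv (wY R ρ Us Uc ψY eY kY kc) x = fv v2 x := by
      rw [← fv_congr hv2 hx]
      refine fv_congr (R := R) (fun y hy => ?_) hx
      rw [wY_clk hy ((T.bY y).2 hy)]
    rw [e1]
    unfold fk
    simp only
    rw [clk_eq hx hx, clk_eq hx hx, clk_eq hx hnx, clk_eq hx hnx]
  -- measurability of the exponent
  have cf : ∀ {κ : ℝ → ℝ → ℝ}, (Continuous fun z : ℝ × ℝ => κ z.1 z.2) →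
      Continuous fun z : ℝ × ℝ => fk κ z.1 z.2 := by
    intro κ h
    exact h.add (h.comp (continuous_fst.prodMk continuous_snd.neg))
  have cfv : ∀ {v : ℝ → ℝ}, Continuous v → Continuous (fv v) := by
    intro v h
    unfold fv
    fun_prop
  have c1 := cf (κ := fun x y => clk R kX' x y - clk R kX x y) (cX'.sub cX)
  have c2 := cf (κ := fun x y => clk R kY' x y - clk R kY x y) (cY'.sub cY)
  have c3 := cf (κ := fun x y => clk R kc' x y - clk R kc x y) (cc'.sub cc)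
  have cTh : Continuous fun x : Cfg p n => Th (fv v1) (fv v2)
      (fk fun x y => clk R kX' x y - clk R kX x y) (fk fun x y => clk R kY' x y - clk R kY x y)
      (fk fun x y => clk R kc' x y - clk R kc x y) x := by
    unfold Th Th1
    refine Continuous.add (Continuous.add (Continuous.add ?_ (continuous_const.mul ?_))
      (Continuous.add ?_ (continuous_const.mul ?_))) ?_
    · exact continuous_finsetSum _ fun i _ => (cfv cv1).comp (by fun_prop)
    · exact continuous_finsetSum _ fun i _ => continuous_finsetSum _ fun j _ =>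
        c1.comp (by fun_prop : Continuous fun x : Cfg p n => (x.1 i, x.1 j))
    · exact continuous_finsetSum _ fun i _ => (cfv cv2).comp (by fun_prop)
    · exact continuous_finsetSum _ fun i _ => continuous_finsetSum _ fun j _ =>
        c2.comp (by fun_prop : Continuous fun x : Cfg p n => (x.2 i, x.2 j))
    · exact continuous_finsetSum _ fun i _ => continuous_finsetSum _ fun j _ =>
        c3.comp (by fun_prop : Continuous fun x : Cfg p n => (x.1 i, x.2 j))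
  have mG : Measurable fun x : Cfg p n =>
      1 / 2 * (∑ i, χ (sym x.1 i) - ∑ j, χ (sym x.2 j)) := by
    have h1 : ∀ i, Measurable fun x : Cfg p n => χ (sym x.1 i) := fun i =>
      cχ.measurable.comp ((measurable_pi_apply i).comp (sym_meas.comp measurable_fst))
    have h2 : ∀ i, Measurable fun x : Cfg p n => χ (sym x.2 i) := fun i =>
      cχ.measurable.comp ((measurable_pi_apply i).comp (sym_meas.comp measurable_snd))
    fun_prop
  have htr := transportF (p := p) (n := n) T.dX T.dY T.mX T.mY T.bX T.bY oX oY PX.rel PY.rel Pc.rel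
    (fun x y _ _ => by rw [zX x y, zX' x y]) (fun x y _ _ => by rw [zY x y, zY' x y])
    (evX'.clk.sub evX.clk) (evY'.clk.sub evY.clk) (evc'.clk.sub evc.clk) ox oy PX.q0 PY.q0 Pc.q0
    OX.a0 OY.a0 PX.qm PY.qm Pc.qm OX.am OY.am mG cTh.measurable
  refine r2S0 ⟨T, sym_meas.comp measurable_fst, sym_meas.comp measurable_snd, ?_, rig, ?_, PX, PY, Pc,
    fun x y _ _ => zX x y, fun x y _ _ => zX' x y, fun x y _ _ => zY x y, fun x y _ _ => zY' x y,
    OX.ext, OY.ext, cχ, hχX, hχY, by norm_num, hfin⟩ cX cX' cY cY' cc cc' zX zX' zY zY'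
  · filter_upwards [mem_mu (fq qX) (fq qY) (fq qc) AX AY] with x hx
    exact sym_win hx
  · rw [htr]
    refine lintegral_congr_ae ?_
    filter_upwards [mem_mu (fq qX) (fq qY) (fq qc) AX AY] with x hx
    have hs := sym_win hx
    have e1 : Th v1 v2 (fun x y => clk R kX' x y - clk R kX x y)
        (fun x y => clk R kY' x y - clk R kY x y) (fun x y => clk R kc' x y - clk R kc x y)
        (sym x.1, sym x.2) =
        Th (wX R ρ Us Uc ψX eX (clk R kX) (clk R kc)) (wY R ρ Us Uc ψY eY (clk R kY) (clk R kc))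
        (fun x y => clk R kX' x y - clk R kX x y)
        (fun x y => clk R kY' x y - clk R kY x y) (fun x y => clk R kc' x y - clk R kc x y)
        (sym x.1, sym x.2) := by
      unfold Th Th1
      rw [Finset.sum_congr rfl fun i _ => hv1 _ (hs.1 i), Finset.sum_congr rfl fun j _ => hv2 _ (hs.2 j)]
    rw [e1]
    congr 2
    unfold mv
    simp only
    rw [sym_mv oX, sym_mv oY]
    ring

/-! ### the folded positive gas as an instance -/

/-- one body factor of the folded positive gas: Jacobian, one body function, own image -/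
noncomputable def Aw (D D1 : ℝ → ℂ) (a : ℝ → ℝ) (t : ℝ) : ℝ :=
  ‖1 + D1 t‖ * a t * Real.sqrt ‖wcx (2 * (t + D t))‖

lemma Aw_nonneg {D D1 : ℝ → ℂ} {a : ℝ → ℝ} (h : ∀ t, 0 ≤ a t) (t : ℝ) : 0 ≤ Aw D D1 a t :=
  mul_nonneg (mul_nonneg (norm_nonneg _) (h t)) (Real.sqrt_nonneg _)

lemma Aw_meas {D D1 : ℝ → ℂ} {a : ℝ → ℝ} (h1 : Measurable D) (h2 : Measurable D1)
    (h3 : Measurable a) : Measurable (Aw D D1 a) := by
  unfold Aw
  refine Measurable.mul (by fun_prop) (Real.continuous_sqrt.measurable.comp ?_)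
  have := NU42.wcx_meas
  fun_prop

lemma fq_pW {D D1 : ℝ → ℂ} (hD : OddD D D1) (x y : ℝ) :
    fq (pW D) x y = ‖wcx ((x + D x) - (y + D y))‖ * ‖wcx ((x + D x) + (y + D y))‖ := by
  unfold fq pW
  rw [hD.odd]
  congr 3
  push_cast
  ring

lemma fq_pG {D D1 D' D1' : ℝ → ℂ} (_hD : OddD D D1) (hD' : OddD D' D1') (x y : ℝ) :
    fq (pG D D') x y = ‖gcx ((x + D x) - (y + D' y))‖ * ‖gcx ((x + D x) + (y + D' y))‖ := by
  unfold fq pG
  rw [hD'.odd]
  congr 3
  push_cast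
  ring

/-- **the folded positive gas** -/
theorem FWO_eq_W {DX DX1 DY DY1 : ℝ → ℂ} (hX : OddD DX DX1) (hY : OddD DY DY1) (a a' : ℝ → ℝ)
    (x : Cfg p n) : FWO DX DX1 DY DY1 a a' x.1 x.2 =
      W (fq (pW DX)) (fq (pW DY)) (fq (pG DX DY)) (Aw DX DX1 a) (Aw DY DY1 a') x := by
  unfold FWO W W1 fow fself fcr NU42.ob Aw
  simp only [fq_pW hX, fq_pW hY, fq_pG hX hY, Finset.prod_mul_distrib]
  ring

/-- the measure of the folded positive gas in the window -/
theorem muF_eq {R : ℝ} {DX DX1 DY DY1 : ℝ → ℂ} (hX : OddD DX DX1) (hY : OddD DY DY1) (a a' : ℝ → ℝ) :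
    mu (p := p) (n := n) R (fq (pW DX)) (fq (pW DY)) (fq (pG DX DY)) (Aw DX DX1 a) (Aw DY DY1 a') =
      (volume.restrict (Bx R)).withDensity fun x => ENNReal.ofReal (FWO DX DX1 DY DY1 a a' x.1 x.2) := by
  unfold mu
  congr 1
  funext x
  rw [FWO_eq_W hX hY]

/-- the own image part of the transport: square root of the pair relation at `(x, -x)` -/
theorem image_rel {R : ℝ} {D D1 : ℝ → ℂ} (hD : OddD D D1) {ψ : ℝ → ℝ} {κ : ℝ → ℝ → ℝ}
    (o : ∀ x, ψ (-x) = -ψ x) (h : PairRel R ψ ψ (pW D) κ) {x : ℝ} (hx : |x| ≤ R) :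
    Real.sqrt ‖wcx (2 * (ψ x + D (ψ x)))‖ =
      Real.sqrt ‖wcx (2 * (x + D x))‖ * Real.exp (1 / 2 * κ x (-x)) := by
  have e : ∀ y : ℝ, pW D y (-y) = ‖wcx (2 * (y + D y))‖ := by
    intro y
    unfold pW
    rw [hD.odd]
    congr 2
    push_cast
    ring
  have h1 := h x (-x) hx (by rwa [abs_neg])
  rw [o, e, e] at h1
  rw [h1, Real.sqrt_mul (norm_nonneg _)]
  congr 1
  rw [show κ x (-x) = 2 * (1 / 2 * κ x (-x)) by ring, two_mul, Real.exp_add,
    Real.sqrt_mul_self (Real.exp_pos _).le]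
  ring_nf

/-- **one body data of the folded gas** from those of the full gas and a wall factor `be`:
`a = be * a0`, `OB` for `‖1 + D1‖ a0`, `be (ψ x) = be x exp (w x)` -/
theorem OBF_of {R l l' : ℝ} {D D1 : ℝ → ℂ} (hD : OddD D D1) {ψ ψ' a0 be w E I : ℝ → ℝ}
    {k k' : ℝ → ℝ → ℝ} (o : ∀ x, ψ (-x) = -ψ x)
    (hev : ∀ x, ψ' (-x) = ψ' x) (cψ : Continuous ψ)
    (h : PairRel R ψ ψ (pW D) (fun x y => k' x y - k x y))
    (H : OB R l ψ ψ' (fun t => ‖1 + D1 t‖ * a0 t) E I k k')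
    (a0e : ∀ x, a0 (-x) = a0 x) (be0 : ∀ x, 0 ≤ be x) (bem : Measurable be)
    (mD : Measurable D) (mD1 : Measurable D1) (ma : Measurable a0) (ha : ∀ x, 0 ≤ a0 x)
    (cw : Continuous w) (kw : KC R l' (fun x _ => (w x : ℂ)))
    (hw : ∀ x, be (ψ x) = be x * Real.exp (w x)) (we : ∀ x, w (-x) = w x)
    (evk : EvK R k) (evk' : EvK R k') (bpos : ∀ x, x ≠ 0 → 0 < be x)
    (iL : Integrable (fun x => Real.log (be x)) (mW R))
    (iL' : Integrable (fun x => Real.log (be (ψ x))) (mW R)) :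
    OBF R (l + l') ψ ψ' (Aw D D1 fun t => be t * a0 t) (fun x => (E (ψ x) - E x) + w x)
      (fun x => E x + Real.log (be x)) (fun x => (E (ψ x) - E x) + w x + (I (ψ x) - I x)) k k' := by
  refine ⟨Aw_nonneg fun t => mul_nonneg (be0 t) (ha t), Aw_meas mD mD1 (bem.mul ma), ?_, ?_⟩
  · refine ⟨((H.cE.comp cψ).sub H.cE).add cw, ?_, ?_, ?_, ?_⟩
    · exact (H.small.add kw).congr fun t t' _ _ => by push_cast; ring
    · exact (int_mW H.cE).add iL
    · exact (int_mW (H.cE.comp cψ)).add iL'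
    · have h0 : ∀ᵐ x ∂(mW R), x ≠ 0 := by
        unfold mW
        apply ae_restrict_of_ae
        exact compl_mem_ae_iff.2 (measure_singleton 0)
      filter_upwards [h0] with x hx
      rw [hw x, Real.log_mul (bpos x hx).ne' (Real.exp_pos _).ne', Real.log_exp]
      ring
  · intro x hx
    have h1 := H.rel x hx
    have h2 := H.rel (-x) (by rwa [abs_neg])
    rw [o, hD.even, hD.even, hev, a0e, a0e, evk x x hx hx, evk' x x hx hx] at h2
    -- both relations have the same left hand side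
    have h3 := image_rel hD o h hx
    obtain ⟨A, hA⟩ : ∃ A, A = ‖1 + D1 (ψ x)‖ * a0 (ψ x) * ψ' x := ⟨_, rfl⟩
    obtain ⟨B, hB⟩ : ∃ B, B = ‖1 + D1 x‖ * a0 x := ⟨_, rfl⟩
    rw [← hA, ← hB] at h1 h2
    have hB0 : 0 ≤ B := by rw [hB]; exact mul_nonneg (norm_nonneg _) (ha x)
    -- the symmetrised exponent
    have h4 : A = B * Real.exp (1 / 2 * ((E (ψ x) - E x + (I (ψ x) - I x)) +
        (E (-ψ x) - E (-x) + (I (-ψ x) - I (-x)))) + 1 / 2 * (k' x x - k x x)) := by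
      have h5 : A * A = (B * Real.exp (1 / 2 * ((E (ψ x) - E x + (I (ψ x) - I x)) +
        (E (-ψ x) - E (-x) + (I (-ψ x) - I (-x)))) + 1 / 2 * (k' x x - k x x))) *
        (B * Real.exp (1 / 2 * ((E (ψ x) - E x + (I (ψ x) - I x)) +
        (E (-ψ x) - E (-x) + (I (-ψ x) - I (-x)))) + 1 / 2 * (k' x x - k x x))) := by
        nth_rewrite 1 [h1]
        rw [h2, mul_mul_mul_comm, mul_mul_mul_comm B _ B _, ← Real.exp_add, ← Real.exp_add]
        congr 2
        ring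
      have hA0 : 0 ≤ A := by rw [h1]; positivity
      exact (mul_self_inj hA0 (by positivity)).1 h5
    unfold Aw
    have e1 : ‖1 + D1 (ψ x)‖ * (be (ψ x) * a0 (ψ x)) * Real.sqrt ‖wcx (2 * (ψ x + D (ψ x)))‖ * ψ' x =
        A * be (ψ x) * Real.sqrt ‖wcx (2 * (ψ x + D (ψ x)))‖ := by rw [hA]; ring
    rw [e1, h4, h3, hw x]
    have e2 : ‖1 + D1 x‖ * (be x * a0 x) = B * be x := by rw [hB]; ring
    rw [e2]
    have e3 : fv (fun x => (E (ψ x) - E x) + w x + (I (ψ x) - I x)) x =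
        1 / 2 * ((E (ψ x) - E x + (I (ψ x) - I x)) + (E (-ψ x) - E (-x) + (I (-ψ x) - I (-x)))) +
          w x := by
      unfold fv
      simp only
      rw [o, we]
      ring
    rw [e3]
    have e4 : Real.exp (1 / 2 * ((E (ψ x) - E x + (I (ψ x) - I x)) +
        (E (-ψ x) - E (-x) + (I (-ψ x) - I (-x)))) + w x +
        1 / 2 * ((k' x x - k x x) + (k' x (-x) - k x (-x)))) =
        Real.exp (1 / 2 * ((E (ψ x) - E x + (I (ψ x) - I x)) +
        (E (-ψ x) - E (-x) + (I (-ψ x) - I (-x)))) + 1 / 2 * (k' x x - k x x)) * Real.exp (w x) *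
        Real.exp (1 / 2 * (k' x (-x) - k x (-x))) := by
      rw [← Real.exp_add, ← Real.exp_add]
      congr 1
      ring
    rw [e4]
    ring

end TCR
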