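import Pool.Agent.TC.FarB

/-!
# Reflection of the lowest line of a half strip with an exit at the floor (helper22)

`z ↦ Function.update z p (-z p)`, `p` the lowest line, `b` = the exit site below the lines:
`PS0 z⁻ b (p :: X) = PS0 z b (p :: X) ∘ (E p + κ • oc p) + c • (PH z (p :: X) ∘ Jm b p)`.
The proof: `PS0` is the limit of the functional with one more line `b` at the bottom; `b` is moved through `p`.
-/

set_option autoImplicit false

namespace Pool.Agent.TC

open _root_.Pool.Agent.EXL _root_.Pool.Agent.EXL.Pat Filter Topology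
open _root_.Pool.Agent.EXL.Fm (lam)
open _root_.Pool.Agent.NUF _root_.Pool.Agent.NUU
open Complex (I exp sin cos)

variable {α : Type*} [DecidableEq α] {z z' : α → ℂ} {X Y : List α} {p q b c d : α} {u u' : ℂ}

/-! ### States -/

theorem swap2 (i j : α) (s : Pat α) : swap i j (swap i j s) = s := by
  ext x
  simp [swap]

theorem swap_l {i j : α} {s : Pat α} (h0 : i ≠ j) (h : s j = j) : swap i j s i = i := by
  simp [swap, h]

theorem swap_r {i j : α} {s : Pat α} (h0 : i ≠ j) (h : s i = i) : swap i j s j = j := by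
  simp [swap, h]

theorem swap_l' {i j : α} {s : Pat α} (h : s j ≠ j) : swap i j s i ≠ i := by
  simp only [swap, Equiv.swap_apply_left]
  intro e
  apply h
  have := congrArg (Equiv.swap i j) e
  simpa using this

theorem swap_r' {i j : α} {s : Pat α} (h : s i ≠ i) : swap i j s j ≠ j := by
  simp only [swap, Equiv.swap_apply_right]
  intro e
  apply h
  have := congrArg (Equiv.swap i j) e
  simpa using this

theorem swap_lj {i j : α} {s : Pat α} (h : s i ≠ j) : swap i j s i ≠ j := by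
  simp only [swap, Equiv.swap_apply_left]
  intro e
  have h1 := congrArg (Equiv.swap i j) e
  rw [Equiv.swap_apply_self, Equiv.swap_apply_right] at h1
  exact h (by rw [← h1, s.inv])

theorem cut_swap {i j : α} {s : Pat α} (h0 : i ≠ j) (h1 : s i ≠ i) (h2 : s j ≠ j) (h3 : s i ≠ j) :
    cut i j (swap i j s) = cut i j s := by
  have h4 : s j ≠ i := fun h => h3 (by rw [← h, s.inv])
  have a1 : swap i j s i = s j := by
    simp only [swap, Equiv.swap_apply_left]
    exact Equiv.swap_apply_of_ne_of_ne h4 h2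
  have a2 : swap i j s j = s i := by
    simp only [swap, Equiv.swap_apply_right]
    exact Equiv.swap_apply_of_ne_of_ne h1 h3
  have b1 := swap_l' (i := i) h2
  have b2 := swap_r' (j := j) h1
  have b3 := swap_lj h3
  have k1 : i ≠ j ∧ swap i j s i ≠ i ∧ swap i j s j ≠ j ∧ swap i j s i ≠ j := ⟨h0, b1, b2, b3⟩
  have k2 : i ≠ j ∧ s i ≠ i ∧ s j ≠ j ∧ s i ≠ j := ⟨h0, h1, h2, h3⟩
  ext x
  simp only [cut]
  rw [if_pos k1, if_pos k2, a1, a2]
  by_cases e1 : x = i
  · rw [if_pos e1, if_pos e1]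
  · by_cases e2 : x = j
    · rw [if_neg e1, if_neg e1, if_pos e2, if_pos e2]
    · rw [if_neg e1, if_neg e1, if_neg e2, if_neg e2]
      by_cases e3 : x = s j
      · have e4 : x ≠ s i := fun e => h0 (s.inj (e.symm.trans e3))
        rw [if_pos e3, if_neg e4, if_pos e3]
      · by_cases e4 : x = s i
        · rw [if_neg e3, if_pos e4, if_pos e4]
        · rw [if_neg e3, if_neg e4, if_neg e4, if_neg e3]
          simp only [swap]
          rw [Equiv.swap_apply_of_ne_of_ne e1 e2]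
          refine Equiv.swap_apply_of_ne_of_ne (fun e => e4 ?_) (fun e => e3 ?_)
          · rw [← e, s.inv]
          · rw [← e, s.inv]

theorem cut_l {i j : α} {s : Pat α} (h0 : i ≠ j) (h1 : s i ≠ i) (h2 : s j ≠ j) (h3 : s i ≠ j) :
    cut i j s i = i := by
  simp [cut, h0, h1, h2, h3]

theorem cut_r {i j : α} {s : Pat α} (h0 : i ≠ j) (h1 : s i ≠ i) (h2 : s j ≠ j) (h3 : s i ≠ j) :
    cut i j s j = j := by
  simp [cut, h0, h0.symm, h1, h2, h3]

theorem cup_l {i j : α} {s : Pat α} (h1 : s i = i) (h2 : s j = j) : cup i j s i = j := by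
  simp [cup, h1, h2]

theorem cup_r {i j : α} {s : Pat α} (h0 : i ≠ j) (h1 : s i = i) (h2 : s j = j) : cup i j s j = i := by
  simp [cup, h1, h2, h0.symm]

/-! ### The kernel -/

/-- The line `p` is reflected: the factor `κ` when `p` is occupied. -/
noncomputable def Kp (κ : ℂ) (p : α) : Module.End ℂ (Pat α → ℂ) := uops.E p + κ • oc p

theorem Kp_ap (κ : ℂ) (F : Pat α → ℂ) (s : Pat α) : Kp κ p F s = if s p = p then F s else κ * F s := by
  show (uops.E p F : Pat α → ℂ) s + κ * oc p F s = _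
  rw [E_ap, oc_ap]
  split_ifs <;> simp

theorem core {w w' : EXL.Wt ℂ} (κ : ℂ) (h0 : b ≠ p) (F : Pat α → ℂ) (s : Pat α) :
    EXL.R w' b p (Kp κ p (EXL.R w b p (oc b F))) s =
      if s b = b then (if s p = p then (w.u2 + κ * w'.u2 * w.w1) * F (cup b p s)
        else (κ * w.u1 * w'.v + w'.u1 * w.v) * F (swap b p s))
      else if s p = p then (w.v * w'.v + κ * w.u1 * w'.u1) * F s
      else if s b = p then κ * (w.w1 * w'.w1) * F s
      else κ * (w.w1 * w'.w1) * F s + (κ * (w'.w1 * w.w2 + w'.w2 * w.w1) + w.u2 * w'.u2) *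
        F (cup b p (cut b p s)) := by
  by_cases e1 : s b = b
  · by_cases e2 : s p = p
    · -- both empty
      rw [if_pos e1, if_pos e2, EXL.R_e e1 e2 rfl, Kp_ap, if_pos e2, EXL.R_e e1 e2 rfl, Kp_ap,
        if_neg (by rw [cup_r h0 e1 e2]; exact h0), EXL.R_p h0 (cup_l e1 e2), oc_ap, if_pos e1, oc_ap,
        if_neg (by rw [cup_l e1 e2]; exact h0.symm)]
      ring
    · rw [if_pos e1, if_neg e2, EXL.R_r e1 e2 rfl, Kp_ap, if_neg e2, EXL.R_r e1 e2 rfl, Kp_ap,
        if_pos (swap_r h0 e1), EXL.R_l (swap_l' e2) (swap_r h0 e1) rfl, swap2, oc_ap, if_pos e1, oc_ap,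
        if_neg (swap_l' e2)]
      ring
  · by_cases e2 : s p = p
    · rw [if_neg e1, if_pos e2, EXL.R_l e1 e2 rfl, Kp_ap, if_pos e2, EXL.R_l e1 e2 rfl, Kp_ap,
        if_neg (swap_r' e1), EXL.R_r (swap_l h0 e2) (swap_r' e1) rfl, swap2, oc_ap, if_neg e1, oc_ap,
        if_pos (swap_l h0 e2)]
      ring
    · by_cases e3 : s b = p
      · rw [if_neg e1, if_neg e2, if_pos e3, EXL.R_p h0 e3, Kp_ap, if_neg e2, EXL.R_p h0 e3, oc_ap,
          if_neg e1]
        ring
      · have c1 := cut_l h0 e1 e2 e3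
        have c2 := cut_r h0 e1 e2 e3
        rw [if_neg e1, if_neg e2, if_neg e3, EXL.R_d e1 e2 e3 rfl rfl rfl, Kp_ap,
          if_neg (swap_r' e1), EXL.R_d (swap_l' e2) (swap_r' e1) (swap_lj e3) rfl rfl rfl, swap2,
          cut_swap h0 e1 e2 e3, Kp_ap, if_pos c2, EXL.R_e c1 c2 rfl, Kp_ap,
          if_neg (by rw [cup_r h0 c1 c2]; exact h0), EXL.R_p h0 (cup_l c1 c2), oc_ap, if_neg e1, oc_ap,
          if_pos c1, oc_ap, if_neg (by rw [cup_l c1 c2]; exact h0.symm)]
        ring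

/-- The exit strand is joined to the line `p`. -/
noncomputable def Jm (b p : α) : Module.End ℂ (Pat α → ℂ) :=
  opCu ℂ b p + uops.E b * oc p * opSw ℂ b p

theorem Jm_ap (F : Pat α → ℂ) (s : Pat α) : Jm b p F s = if s b = b then
    (if s p = p then F (cup b p s) else F (swap b p s)) else 0 := by
  show opCu ℂ b p F s + (uops.E b (oc p (opSw ℂ b p F)) : Pat α → ℂ) s = _
  rw [cu_ap, E_ap, oc_ap, opSw_apply]
  by_cases e1 : s b = b
  · by_cases e2 : s p = p
    · rw [if_pos ⟨e1, e2⟩, if_pos e1, if_pos e2, if_pos e1, if_pos e2, add_zero]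
    · rw [if_neg (fun h => e2 h.2), if_pos e1, if_neg e2, if_pos e1, if_neg e2, zero_add]
  · rw [if_neg (fun h => e1 h.1), if_neg e1, if_neg e1, add_zero]

/-- The kernel of the reflection. -/
noncomputable def RK (κ x : ℂ) (b p : α) (r : ℂ) : Module.End ℂ (Pat α → ℂ) :=
  uops.R b p (x + r) * Kp κ p * uops.R b p (x - r)

theorem RK_ap (κ x : ℂ) (h0 : b ≠ p) (r : ℂ) (F : Pat α → ℂ) (s : Pat α) :
    (RK κ x b p r * oc b) F s = EXL.R (EXL.rwt (x + r)) b p (Kp κ p (EXL.R (EXL.rwt (x - r)) b p (oc b F))) s := by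
  unfold RK
  rw [Module.End.mul_apply, Module.End.mul_apply, Module.End.mul_apply, uops_R_apply h0, uops_R_apply h0]

section lim

variable {β : Type*} {l : Filter β} {f : β → ℝ}

theorem ex1' (x : ℂ) : ex 1 x = exp (I * x) := by
  unfold ex
  rw [one_mul]

theorem om_ne : Fm.om ≠ 0 := Complex.exp_ne_zero _

theorem om2 : Fm.om ^ 2 = I := by
  rw [Fm.om, ← Complex.exp_nat_mul]
  have : ((2 : ℕ) : ℂ) * (I * (2 * lam)) = Real.pi / 2 * I := by
    unfold Fm.lam
    push_cast
    ring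
  rw [this, Complex.exp_pi_div_two_mul_I]

/-- **The part with `b` occupied.** -/
theorem RK_oc_lim (hf : Tendsto f l atTop) (κ x : ℂ) (h0 : b ≠ p) :
    LmE l (fun t => oc b * (RK κ x b p (f t * I) * oc b)) (Kp κ p * oc b) := by
  have w' := tw_up' hf x
  have w := tw_dn' hf x
  intro F s
  have e : ∀ t, (oc b * (RK κ x b p (f t * I) * oc b)) F s =
      if s b = b then 0 else (RK κ x b p (f t * I) * oc b) F s := fun t => by
    rw [Module.End.mul_apply, oc_ap]
  simp only [e, RK_ap κ x h0, core κ h0]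
  rw [Module.End.mul_apply, Kp_ap, oc_ap]
  have ho := om_ne
  have ww : Fm.om⁻¹ ^ 5 * Fm.om ^ 5 = 1 := by
    rw [← mul_pow, inv_mul_cancel₀ ho, one_pow]
  have wz : Fm.om ^ 5 * Fm.om⁻¹ ^ 3 + Fm.om ^ 3 * Fm.om⁻¹ ^ 5 = 0 := by
    have h2 := om2
    field_simp
    linear_combination (Fm.om ^ 2 + I) * h2 + Complex.I_sq
  by_cases e1 : s b = b
  · simp only [if_pos e1, mul_zero]
    split_ifs <;> exact tendsto_const_nhds
  · simp only [if_neg e1]
    by_cases e2 : s p = p
    · simp only [if_pos e2]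
      have := (((w.v.mul w'.v).add ((w.u1.const_mul κ).mul w'.u1))).mul_const (F s)
      convert this using 2
      simp only [Wi]
      ring
    · simp only [if_neg e2]
      have a := (((w.w1.mul w'.w1).const_mul κ)).mul_const (F s)
      have ea : κ * ((Wi Fm.om⁻¹).w1 * (Wi Fm.om).w1) * F s = κ * F s := by
        simp only [Wi]
        rw [ww, mul_one]
      rw [ea] at a
      by_cases e3 : s b = p
      · simp only [if_pos e3]
        exact a
      · simp only [if_neg e3]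
        have := a.add (((((w'.w1.mul w.w2).add (w'.w2.mul w.w1)).const_mul κ).add
          (w.u2.mul w'.u2)).mul_const (F (cup b p (cut b p s))))
        convert this using 2
        simp only [Wi]
        rw [wz]
        ring

/-! ### The weights of the turned strands at infinity -/

theorem Dn_dn (hf : Tendsto f l atTop) (x : ℂ) :
    Tendsto (fun t => Fm.Dn (x - f t * I) / (exp (f t) * exp (f t))) l
      (𝓝 (ex 1 (2 * lam + x) / (2 * I) * (ex 1 (3 * lam + x) / (2 * I)))) := by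
  have h1 := sin_lim hf (σ := 1) (Or.inl rfl) (2 * lam + x)
  have h2 := sin_lim hf (σ := 1) (Or.inl rfl) (3 * lam + x)
  simp only [one_mul] at h1 h2
  refine (h1.mul h2).congr fun t => ?_
  rw [div_mul_div_comm]
  unfold Fm.Dn
  congr 3
  · ring
  · ring

theorem Dn_up (hf : Tendsto f l atTop) (x : ℂ) :
    Tendsto (fun t => Fm.Dn (x + f t * I) / (exp (f t) * exp (f t))) l
      (𝓝 (ex 1 (-(2 * lam + x)) / (2 * I) * (ex 1 (-(3 * lam + x)) / (2 * I)))) := by
  have h1 := sin_lim' hf (σ := 1) (Or.inl rfl) (2 * lam + x)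
  have h2 := sin_lim' hf (σ := 1) (Or.inl rfl) (3 * lam + x)
  simp only [one_mul] at h1 h2
  have h3 := h1.mul h2
  rw [neg_mul_neg] at h3
  refine h3.congr fun t => ?_
  rw [div_mul_div_comm]
  unfold Fm.Dn
  congr 3
  · ring
  · ring

theorem quo_lim {g h : β → ℂ} {x y : ℂ} (hy : y ≠ 0) (hg : Tendsto (fun t => g t / exp (f t)) l (𝓝 x))
    (hh : Tendsto (fun t => h t / (exp (f t) * exp (f t))) l (𝓝 y)) (k : ℂ) :
    Tendsto (fun t => exp (f t) * ((h t)⁻¹ * (k * g t))) l (𝓝 (k * (x / y))) := by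
  refine ((hg.div hh hy).const_mul k).congr fun t => ?_
  have h1 : exp (f t : ℂ) ≠ 0 := Complex.exp_ne_zero _
  simp only [Pi.div_apply]
  by_cases h2 : h t = 0
  · simp [h2]
  · field_simp

theorem ex8' : ex 1 (8 * lam) = -1 := by
  rw [ex1']
  exact Fm.exp_8lam

theorem alg1 {s A B C D : ℂ} (hA : A ≠ 0) (hB : B ≠ 0) (k : C = D * (A * B)) :
    s * (C / (2 * I) / (A / (2 * I) * (B / (2 * I)))) = 2 * I * s * D := by
  have hI : (I : ℂ) ≠ 0 := Complex.I_ne_zero
  rw [k]
  field_simp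

theorem dn_u1 (hf : Tendsto f l atTop) (x : ℂ) :
    Tendsto (fun t => exp (f t) * (EXL.rwt (x - f t * I)).u1) l (𝓝 (2 * I * Fr.s2 * ex 1 (-x))) := by
  have h1 := sin_lim' hf (σ := 1) (Or.inl rfl) (3 * lam - x)
  simp only [one_mul] at h1
  have hI : (I : ℂ) ≠ 0 := Complex.I_ne_zero
  have hy : ex 1 (2 * lam + x) / (2 * I) * (ex 1 (3 * lam + x) / (2 * I)) ≠ 0 := by
    have a := ex_ne 1 (2 * lam + x)
    have b := ex_ne 1 (3 * lam + x)
    have hI2 : (2 : ℂ) * I ≠ 0 := mul_ne_zero two_ne_zero hI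
    exact mul_ne_zero (div_ne_zero a hI2) (div_ne_zero b hI2)
  have := quo_lim hy h1 (Dn_dn hf x) Fr.s2
  have e : Fr.s2 * (-(ex 1 (-(3 * lam - x)) / (2 * I)) / (ex 1 (2 * lam + x) / (2 * I) *
      (ex 1 (3 * lam + x) / (2 * I)))) = 2 * I * Fr.s2 * ex 1 (-x) := by
    have k : ex 1 (-(3 * lam - x)) = ex 1 (-x) * (-1) * (ex 1 (2 * lam + x) * ex 1 (3 * lam + x)) := by
      have : ex 1 (-(3 * lam - x)) * ex 1 (8 * lam) =
          ex 1 (-x) * (ex 1 (2 * lam + x) * ex 1 (3 * lam + x)) := by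
        rw [← ex_add, ← ex_add, ← ex_add]
        congr 1
        ring
      rw [ex8'] at this
      linear_combination -this
    have := alg1 (s := Fr.s2) (ex_ne 1 (2 * lam + x)) (ex_ne 1 (3 * lam + x)) k
    rw [neg_div, mul_neg, this]
    ring
  rw [e] at this
  refine this.congr fun t => ?_
  rw [Fm.rwt_eq]
  simp only [Fm.Wc, Fm.Wn, EXL.Wt.sc, Fr.s2]
  congr 3
  ring

theorem dn_u2 (hf : Tendsto f l atTop) (x : ℂ) :
    Tendsto (fun t => exp (f t) * (EXL.rwt (x - f t * I)).u2) l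
      (𝓝 (2 * I * Fr.s2 * ex 1 (-x - 5 * lam))) := by
  have h1 := sin_lim hf (σ := 1) (Or.inl rfl) x
  simp only [one_mul] at h1
  have hI : (I : ℂ) ≠ 0 := Complex.I_ne_zero
  have hy : ex 1 (2 * lam + x) / (2 * I) * (ex 1 (3 * lam + x) / (2 * I)) ≠ 0 := by
    have a := ex_ne 1 (2 * lam + x)
    have b := ex_ne 1 (3 * lam + x)
    have hI2 : (2 : ℂ) * I ≠ 0 := mul_ne_zero two_ne_zero hI
    exact mul_ne_zero (div_ne_zero a hI2) (div_ne_zero b hI2)
  have := quo_lim hy h1 (Dn_dn hf x) Fr.s2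
  have e : Fr.s2 * (ex 1 x / (2 * I) / (ex 1 (2 * lam + x) / (2 * I) *
      (ex 1 (3 * lam + x) / (2 * I)))) = 2 * I * Fr.s2 * ex 1 (-x - 5 * lam) := by
    have k : ex 1 x = ex 1 (-x - 5 * lam) * (ex 1 (2 * lam + x) * ex 1 (3 * lam + x)) := by
      rw [← ex_add, ← ex_add]
      congr 1
      ring
    exact alg1 (s := Fr.s2) (ex_ne 1 (2 * lam + x)) (ex_ne 1 (3 * lam + x)) k
  rw [e] at this
  refine this.congr fun t => ?_
  rw [Fm.rwt_eq]
  simp only [Fm.Wc, Fm.Wn, EXL.Wt.sc, Fr.s2]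

theorem up_u1 (hf : Tendsto f l atTop) (x : ℂ) :
    Tendsto (fun t => exp (f t) * (EXL.rwt (x + f t * I)).u1) l (𝓝 (-(2 * I * Fr.s2 * ex 1 x))) := by
  have h1 := sin_lim hf (σ := 1) (Or.inl rfl) (3 * lam - x)
  simp only [one_mul] at h1
  have hI : (I : ℂ) ≠ 0 := Complex.I_ne_zero
  have hy : ex 1 (-(2 * lam + x)) / (2 * I) * (ex 1 (-(3 * lam + x)) / (2 * I)) ≠ 0 := by
    have a := ex_ne 1 (-(2 * lam + x))
    have b := ex_ne 1 (-(3 * lam + x))
    have hI2 : (2 : ℂ) * I ≠ 0 := mul_ne_zero two_ne_zero hI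
    exact mul_ne_zero (div_ne_zero a hI2) (div_ne_zero b hI2)
  have := quo_lim hy h1 (Dn_up hf x) Fr.s2
  have e : Fr.s2 * (ex 1 (3 * lam - x) / (2 * I) / (ex 1 (-(2 * lam + x)) / (2 * I) *
      (ex 1 (-(3 * lam + x)) / (2 * I)))) = -(2 * I * Fr.s2 * ex 1 x) := by
    have k : ex 1 (3 * lam - x) = -ex 1 x * (ex 1 (-(2 * lam + x)) * ex 1 (-(3 * lam + x))) := by
      have : ex 1 (3 * lam - x) =
          ex 1 (8 * lam) * (ex 1 x * (ex 1 (-(2 * lam + x)) * ex 1 (-(3 * lam + x)))) := by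
        rw [← ex_add, ← ex_add, ← ex_add]
        congr 1
        ring
      rw [ex8'] at this
      linear_combination this
    have := alg1 (s := Fr.s2) (ex_ne 1 (-(2 * lam + x))) (ex_ne 1 (-(3 * lam + x))) k
    rw [this]
    ring
  rw [e] at this
  refine this.congr fun t => ?_
  rw [Fm.rwt_eq]
  simp only [Fm.Wc, Fm.Wn, EXL.Wt.sc, Fr.s2]
  congr 3
  ring

theorem up_u2 (hf : Tendsto f l atTop) (x : ℂ) :
    Tendsto (fun t => exp (f t) * (EXL.rwt (x + f t * I)).u2) l
      (𝓝 (-(2 * I * Fr.s2 * ex 1 (x + 5 * lam)))) := by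
  have h1 := sin_lim' hf (σ := 1) (Or.inl rfl) x
  simp only [one_mul] at h1
  have hI : (I : ℂ) ≠ 0 := Complex.I_ne_zero
  have hy : ex 1 (-(2 * lam + x)) / (2 * I) * (ex 1 (-(3 * lam + x)) / (2 * I)) ≠ 0 := by
    have a := ex_ne 1 (-(2 * lam + x))
    have b := ex_ne 1 (-(3 * lam + x))
    have hI2 : (2 : ℂ) * I ≠ 0 := mul_ne_zero two_ne_zero hI
    exact mul_ne_zero (div_ne_zero a hI2) (div_ne_zero b hI2)
  have := quo_lim hy h1 (Dn_up hf x) Fr.s2
  have e : Fr.s2 * (-(ex 1 (-x) / (2 * I)) / (ex 1 (-(2 * lam + x)) / (2 * I) *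
      (ex 1 (-(3 * lam + x)) / (2 * I)))) = -(2 * I * Fr.s2 * ex 1 (x + 5 * lam)) := by
    have k : ex 1 (-x) = ex 1 (x + 5 * lam) * (ex 1 (-(2 * lam + x)) * ex 1 (-(3 * lam + x))) := by
      rw [← ex_add, ← ex_add]
      congr 1
      ring
    have := alg1 (s := Fr.s2) (ex_ne 1 (-(2 * lam + x))) (ex_ne 1 (-(3 * lam + x))) k
    rw [neg_div, mul_neg, this]
  rw [e] at this
  refine this.congr fun t => ?_
  rw [Fm.rwt_eq]
  simp only [Fm.Wc, Fm.Wn, EXL.Wt.sc, Fr.s2]

/-- The constant of the joined strands. -/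
noncomputable def kj (x : ℂ) : ℂ := -(2 * Fr.s2 * sin (2 * x) / sin (3 * Real.pi / 16 - x))

/-- The reflection factor of an occupied line. -/
noncomputable def kr (x : ℂ) : ℂ := sin (3 * Real.pi / 16 + x) / sin (3 * Real.pi / 16 - x)

theorem om_ex : Fm.om = ex 1 (2 * lam) := by
  rw [ex1']
  rfl

theorem om5 : Fm.om⁻¹ ^ 5 = ex 1 (-(10 * lam)) := by
  rw [om_ex, ← ex_neg]
  have : ∀ n : ℕ, ex 1 (-(2 * lam)) ^ n = ex 1 (n * -(2 * lam)) := fun n => by
    induction n with
    | zero => simp [ex]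
    | succ n ih =>
      rw [pow_succ, ih, ← ex_add]
      congr 1
      push_cast
      ring
  rw [this]
  congr 1
  push_cast
  ring

theorem hh_lam : (3 * Real.pi / 16 : ℂ) = 3 * lam / 2 := by
  unfold Fm.lam
  ring

theorem ex_sin (x : ℂ) : 2 * I * sin x = ex 1 x - ex 1 (-x) := by
  rw [EXL.Fm.two_I_sin, ex1', ex1']
  congr 2
  ring

/-- algebra of the two constants -/
theorem algA {A B C S D : ℂ} (hS : S ≠ 0) (hI : (I : ℂ) ≠ 0) (hk : A * S - B * D = C) (k : ℂ) :
    2 * I * k * A + D / S * (-(2 * I * k) * B) = 2 * I * k * C / S := by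
  field_simp
  linear_combination k * hk

/-- algebra of the two constants -/
theorem algB {A B C S D W : ℂ} (hS : S ≠ 0) (hI : (I : ℂ) ≠ 0) (hk : A * D - B * S = C * W) (k : ℂ) :
    D / S * (2 * I * k * A) + -(2 * I * k * B) = C / I * -(2 * k * W / S) := by
  field_simp
  rw [Complex.I_sq]
  linear_combination (-k) * hk

theorem constA {x : ℂ} (hs : sin (3 * Real.pi / 16 - x) ≠ 0) :
    2 * I * Fr.s2 * ex 1 (x - 5 * lam) + kr x * (-(2 * I * Fr.s2 * ex 1 (-x + 5 * lam)) * Fm.om⁻¹ ^ 5) =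
      ex 1 (3 * Real.pi / 16) / I * kj x := by
  have hI : (I : ℂ) ≠ 0 := Complex.I_ne_zero
  have e1 := ex_sin (3 * Real.pi / 16 + x)
  have e2 := ex_sin (3 * Real.pi / 16 - x)
  have e3 := ex_sin (2 * x)
  rw [om5]
  unfold kr kj
  have hE : ex 1 (-x + 5 * lam) * ex 1 (-(10 * lam)) = ex 1 (-x - 5 * lam) := by
    rw [← ex_add]
    congr 1
    ring
  have hk : ex 1 (x - 5 * lam) * sin (3 * Real.pi / 16 - x) -
      ex 1 (-x - 5 * lam) * sin (3 * Real.pi / 16 + x) = ex 1 (3 * Real.pi / 16) * sin (2 * x) := by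
    have h2 : (2 * I : ℂ) ≠ 0 := mul_ne_zero two_ne_zero hI
    refine mul_left_cancel₀ h2 ?_
    have : 2 * I * (ex 1 (x - 5 * lam) * sin (3 * Real.pi / 16 - x) -
        ex 1 (-x - 5 * lam) * sin (3 * Real.pi / 16 + x)) =
        ex 1 (x - 5 * lam) * (2 * I * sin (3 * Real.pi / 16 - x)) -
        ex 1 (-x - 5 * lam) * (2 * I * sin (3 * Real.pi / 16 + x)) := by ring
    rw [this, e1, e2]
    have : 2 * I * (ex 1 (3 * Real.pi / 16) * sin (2 * x)) =
        ex 1 (3 * Real.pi / 16) * (2 * I * sin (2 * x)) := by ring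
    rw [this, e3]
    simp only [mul_sub, ← ex_add]
    rw [hh_lam]
    have g1 : x - 5 * lam + (3 * lam / 2 - x) = -x - 5 * lam + (3 * lam / 2 + x) := by ring
    have g2 : ex 1 (3 * lam / 2 + 2 * x) = -ex 1 (x - 5 * lam + -(3 * lam / 2 - x)) := by
      have : ex 1 (3 * lam / 2 + 2 * x) = ex 1 (8 * lam) * ex 1 (x - 5 * lam + -(3 * lam / 2 - x)) := by
        rw [← ex_add]
        congr 1
        ring
      rw [this, ex8']
      ring
    have g3 : ex 1 (3 * lam / 2 + -(2 * x)) = -ex 1 (-x - 5 * lam + -(3 * lam / 2 + x)) := by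
      have : ex 1 (3 * lam / 2 + -(2 * x)) = ex 1 (8 * lam) *
          ex 1 (-x - 5 * lam + -(3 * lam / 2 + x)) := by
        rw [← ex_add]
        congr 1
        ring
      rw [this, ex8']
      ring
    rw [g1, g2, g3]
    ring
  have h5 : kr x = kr x := rfl
  have := algA hs hI hk Fr.s2
  rw [show sin (3 * Real.pi / 16 + x) / sin (3 * Real.pi / 16 - x) *
      (-(2 * I * Fr.s2 * ex 1 (-x + 5 * lam)) * ex 1 (-(10 * lam))) =
      sin (3 * Real.pi / 16 + x) / sin (3 * Real.pi / 16 - x) *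
      (-(2 * I * Fr.s2) * (ex 1 (-x + 5 * lam) * ex 1 (-(10 * lam)))) by ring, hE, this]
  field_simp
  rw [Complex.I_sq]
  ring

theorem constB {x : ℂ} (hs : sin (3 * Real.pi / 16 - x) ≠ 0) :
    kr x * (2 * I * Fr.s2 * ex 1 x) + -(2 * I * Fr.s2 * ex 1 (-x)) =
      ex 1 (3 * Real.pi / 16) / I * kj x := by
  have hI : (I : ℂ) ≠ 0 := Complex.I_ne_zero
  have e1 := ex_sin (3 * Real.pi / 16 + x)
  have e2 := ex_sin (3 * Real.pi / 16 - x)
  have e3 := ex_sin (2 * x)
  unfold kr kj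
  have hk : ex 1 x * sin (3 * Real.pi / 16 + x) -
      ex 1 (-x) * sin (3 * Real.pi / 16 - x) = ex 1 (3 * Real.pi / 16) * sin (2 * x) := by
    have h2 : (2 * I : ℂ) ≠ 0 := mul_ne_zero two_ne_zero hI
    refine mul_left_cancel₀ h2 ?_
    have : 2 * I * (ex 1 x * sin (3 * Real.pi / 16 + x) -
        ex 1 (-x) * sin (3 * Real.pi / 16 - x)) =
        ex 1 x * (2 * I * sin (3 * Real.pi / 16 + x)) -
        ex 1 (-x) * (2 * I * sin (3 * Real.pi / 16 - x)) := by ring
    rw [this, e1, e2]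
    have : 2 * I * (ex 1 (3 * Real.pi / 16) * sin (2 * x)) =
        ex 1 (3 * Real.pi / 16) * (2 * I * sin (2 * x)) := by ring
    rw [this, e3]
    simp only [mul_sub, ← ex_add]
    have g1 : x + -(3 * Real.pi / 16 + x) = -x + -(3 * Real.pi / 16 - x) := by ring
    have g2 : x + (3 * Real.pi / 16 + x) = 3 * Real.pi / 16 + 2 * x := by ring
    have g3 : -x + (3 * Real.pi / 16 - x) = 3 * Real.pi / 16 + -(2 * x) := by ring
    rw [g1, g2, g3]
    ring
  exact algB hs hI hk Fr.s2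

/-- **The part with `b` empty.** -/
theorem RK_E_lim (hf : Tendsto f l atTop) {y : ℂ} (h0 : b ≠ p) (hs : sin (3 * Real.pi / 16 - y) ≠ 0) :
    LmE l (fun t => exp (f t) • (uops.E b * (RK (kr y) (-y) b p (f t * I) * oc b)))
      ((ex 1 (3 * Real.pi / 16) / I * kj y) • Jm b p) := by
  have w' := tw_up' hf (-y)
  have w := tw_dn' hf (-y)
  intro F s
  have e : ∀ t, (exp (f t) • (uops.E b * (RK (kr y) (-y) b p (f t * I) * oc b))) F s =
      exp (f t) * if s b = b then (RK (kr y) (-y) b p (f t * I) * oc b) F s else 0 := fun t => by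
    rw [LinearMap.smul_apply, Pi.smul_apply, smul_eq_mul, Module.End.mul_apply, E_ap]
  simp only [e, RK_ap (kr y) (-y) h0, core (kr y) h0]
  rw [LinearMap.smul_apply, Pi.smul_apply, smul_eq_mul, Jm_ap]
  by_cases e1 : s b = b
  · simp only [if_pos e1]
    by_cases e2 : s p = p
    · simp only [if_pos e2]
      have a1 := dn_u2 hf (-y)
      have a2 := up_u2 hf (-y)
      rw [neg_neg] at a1
      have := (a1.add ((a2.mul w.w1).const_mul (kr y))).mul_const (F (cup b p s))
      have ec : 2 * I * Fr.s2 * ex 1 (y - 5 * lam) +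
          kr y * (-(2 * I * Fr.s2 * ex 1 (-y + 5 * lam)) * (Wi Fm.om⁻¹).w1) =
            ex 1 (3 * Real.pi / 16) / I * kj y := constA hs
      rw [ec] at this
      refine this.congr fun t => ?_
      ring
    · simp only [if_neg e2]
      have a1 := dn_u1 hf (-y)
      have a2 := up_u1 hf (-y)
      rw [neg_neg] at a1
      have := (((a1.mul w'.v).const_mul (kr y)).add (a2.mul w.v)).mul_const (F (swap b p s))
      have ec : kr y * (2 * I * Fr.s2 * ex 1 y * (Wi Fm.om).v) +
          -(2 * I * Fr.s2 * ex 1 (-y)) * (Wi Fm.om⁻¹).v =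
            ex 1 (3 * Real.pi / 16) / I * kj y := by
        have := constB hs
        show kr y * (2 * I * Fr.s2 * ex 1 y * 1) + -(2 * I * Fr.s2 * ex 1 (-y)) * 1 = _
        rw [mul_one, mul_one, this]
      rw [ec] at this
      refine this.congr fun t => ?_
      ring
  · simp only [if_neg e1, mul_zero]
    exact tendsto_const_nhds

/-! ### Genericity with a far line -/

theorem gz_far (hf : Tendsto f l atTop) (hG : Gz z Y) (hb : b ∉ Y) :
    ∀ᶠ t in l, Gz (Function.update z b (f t * I)) (b :: Y) := by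
  have key : ∀ᶠ t in l, ∀ j ∈ Y.toFinset, ((f t : ℂ) * I - z j).im ≠ 0 := by
    rw [Filter.eventually_all_finset]
    intro j _
    filter_upwards [hf.eventually_gt_atTop (z j).im] with t ht
    have : ((f t : ℂ) * I - z j).im = f t - (z j).im := by simp
    rw [this]
    exact (sub_pos.2 ht).ne'
  filter_upwards [key] with t ht
  have e0 : Function.update z b (f t * I) b = f t * I := Function.update_self ..
  have e1 : ∀ j ∈ Y, Function.update z b (f t * I) j = z j := fun j hj => by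
    rw [Function.update_of_ne]
    rintro rfl
    exact hb hj
  have s1 : ∀ j ∈ Y, sin (f t * I - z j) ≠ 0 ∧ Fm.Dn (f t * I - z j) ≠ 0 := fun j hj => by
    have h := ht j (List.mem_toFinset.2 hj)
    exact ⟨sin_ne_im h, (EXL.Fm.okR_iff _).1 (ok_im h)⟩
  have s2 : ∀ j ∈ Y, sin (z j - f t * I) ≠ 0 ∧ Fm.Dn (z j - f t * I) ≠ 0 := fun j hj => by
    have h := ht j (List.mem_toFinset.2 hj)
    have h' : (z j - f t * I).im ≠ 0 := by
      rw [← neg_sub, Complex.neg_im]
      exact neg_ne_zero.2 h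
    exact ⟨sin_ne_im h', (EXL.Fm.okR_iff _).1 (ok_im h')⟩
  constructor
  · intro i hi j hj hij
    by_cases ei : i = b
    · by_cases ej : j = b
      · exact absurd (ei.trans ej.symm) hij
      · have hj' : j ∈ Y := (List.mem_cons.1 hj).resolve_left ej
        rw [ei, e0, e1 j hj']
        exact (s1 j hj').1
    · have hi' : i ∈ Y := (List.mem_cons.1 hi).resolve_left ei
      by_cases ej : j = b
      · rw [ej, e0, e1 i hi']
        exact (s2 i hi').1
      · have hj' : j ∈ Y := (List.mem_cons.1 hj).resolve_left ej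
        rw [e1 i hi', e1 j hj']
        exact hG.s i hi' j hj' hij
  · intro i hi j hj hij
    by_cases ei : i = b
    · by_cases ej : j = b
      · exact absurd (ei.trans ej.symm) hij
      · have hj' : j ∈ Y := (List.mem_cons.1 hj).resolve_left ej
        rw [ei, e0, e1 j hj']
        exact (s1 j hj').2
    · have hi' : i ∈ Y := (List.mem_cons.1 hi).resolve_left ei
      by_cases ej : j = b
      · rw [ej, e0, e1 i hi']
        exact (s2 i hi').2
      · have hj' : j ∈ Y := (List.mem_cons.1 hj).resolve_left ej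
        rw [e1 i hi', e1 j hj']
        exact hG.d i hi' j hj' hij

end lim

/-! ### The reflection -/

theorem cf_refl (x : ℂ) : cf (3 * Real.pi / 16 - x) = cf (3 * Real.pi / 16 + x) := by
  unfold cf
  rw [hh_lam, ← Complex.cos_neg]
  congr 1
  ring

/-- **Reflection without an exit.** -/
theorem PH_refl (hp : p ∉ X) (hS : SupA z X) (hs : sin (3 * Real.pi / 16 - z p) ≠ 0) (hX : X.Nodup) :
    PH (Function.update z p (-z p)) (p :: X) = PH z (p :: X) ∘ₗ Kp (kr (z p)) p := by
  rw [PH_upd (List.nodup_cons.2 ⟨hp, hX⟩), PH_fp]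
  have h : cf (ux z p) = cf (3 * Real.pi / 16 - -z p) := by
    rw [sub_neg_eq_add]
    exact cf_refl (z p)
  rw [fp_refl hp hS h hs]
  unfold Kp kr
  rw [sub_neg_eq_add]
  rfl

/-- The exchanges of the far line `b` with `p`. -/
theorem RK_exch [Finite α] {w : ℂ} (hn : (b :: p :: X).Nodup) (hc : c ∉ b :: p :: X)
    (hd : d ∉ b :: p :: X) (hcd : c ≠ d) (hs : sin (3 * Real.pi / 16 - z p) ≠ 0)
    (h1 : Gz (Function.update z b w) (b :: p :: X))
    (h2 : Gz (Function.update (Function.update z p (-z p)) b w) (b :: p :: X)) :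
    fp (Function.update z p (-z p)) b (3 * Real.pi / 16 - w) (p :: X) =
      fp z b (3 * Real.pi / 16 - w) (p :: X) ∘ₗ RK (kr (z p)) (-z p) b p w := by
  have hbp : b ≠ p := fun e => (List.nodup_cons.1 hn).1 (by simp [e])
  have hpm : (b :: p :: X).Perm (p :: b :: X) := List.Perm.swap _ _ _
  have hn' := hpm.nodup_iff.1 hn
  have hc' : c ∉ p :: b :: X := fun h => hc (hpm.mem_iff.2 h)
  have hd' : d ∉ p :: b :: X := fun h => hd (hpm.mem_iff.2 h)
  set zt := Function.update z b w with hzt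
  set zt' := Function.update (Function.update z p (-z p)) b w with hzt'
  have ep : zt p = z p := Function.update_of_ne hbp.symm _ _
  have eb : zt b = w := Function.update_self ..
  have ep' : zt' p = -z p := by
    rw [hzt', Function.update_of_ne hbp.symm, Function.update_self]
  have eb' : zt' b = w := Function.update_self ..
  have ez : zt' = Function.update zt p (-zt p) := by
    rw [ep, hzt, hzt', Function.update_comm hbp]
  have a1 := PH_exch (A := []) (B := X) (j := b) (k := p) hn hc hd hcd h1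
  have a2 := PH_exch (z := zt') (A := []) (B := X) (j := p) (k := b) hn' hc' hd' hcd (h2.perm hpm)
  simp only [List.nil_append] at a1 a2
  have hS : SupA zt (b :: X) := supA (List.nodup_cons.1 hn').2 (fun h => hc' (List.mem_cons_of_mem _ h))
    (fun h => hd' (List.mem_cons_of_mem _ h)) hcd (h1.sub fun x hx => hpm.mem_iff.2 (List.mem_cons_of_mem _ hx))
  have a3 := PH_refl (p := p) (X := b :: X) (List.nodup_cons.1 hn').1 hS (by rw [ep]; exact hs)
    (List.nodup_cons.1 hn').2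
  rw [← ez, ep] at a3
  rw [← PH_upd (z := Function.update z p (-z p)) hn w, ← hzt', ← a2, a3, ← a1,
    ← PH_upd (z := z) hn w, ← hzt, ep', eb', ep, eb]
  unfold RK
  have r1 : uops.R p b (-z p - w) = uops.R b p (-z p - w) := ulaws.Rs
  have r2 : w - z p = -z p + w := by ring
  rw [r1, r2]
  rfl

/-- `PS0` sees only the states with `b` occupied. -/
theorem PS0_oc (hb : b ∉ X) : PS0 z b X ∘ₗ oc b = PS0 z b X := by
  refine LinearMap.ext fun F => ?_
  unfold PS0
  simp only [LinearMap.comp_apply, LinearMap.smul_apply, LinearMap.sum_apply, Module.End.mul_apply]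
  refine Finset.sum_congr rfl fun i hi => ?_
  have hi' := List.mem_toFinset.1 hi
  have e := LinearMap.congr_fun (oE_oc (z := z) hb hi').eq F
  rw [Module.End.mul_apply, Module.End.mul_apply] at e
  rw [e]
  congr 2
  exact LinearMap.congr_fun (cu_oc (b := b) (i := i) fun e => hb (e ▸ hi')) _

theorem Kp_oc (κ : ℂ) : Kp κ p * oc b = oc b * Kp κ p := by
  refine LinearMap.ext fun F => funext fun s => ?_
  rw [Module.End.mul_apply, Module.End.mul_apply, Kp_ap, oc_ap, oc_ap, Kp_ap]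
  split_ifs <;> simp

/-- **Reflection of the lowest line with an exit at the floor.** -/
theorem PS0_refl [Finite α] (hn : (b :: p :: X).Nodup) (hc : c ∉ b :: p :: X)
    (hd : d ∉ b :: p :: X) (hcd : c ≠ d) (hs : sin (3 * Real.pi / 16 - z p) ≠ 0)
    (h1 : Gz z (p :: X)) (h2 : Gz (Function.update z p (-z p)) (p :: X)) :
    PS0 (Function.update z p (-z p)) b (p :: X) =
      PS0 z b (p :: X) ∘ₗ Kp (kr (z p)) p + kj (z p) • (PH z (p :: X) ∘ₗ Jm b p) := by
  obtain ⟨hb, hn1⟩ := List.nodup_cons.1 hn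
  have hbp : b ≠ p := fun e => hb (by simp [e])
  have hc1 : c ∉ p :: X := fun h => hc (List.mem_cons_of_mem _ h)
  have hd1 : d ∉ p :: X := fun h => hd (List.mem_cons_of_mem _ h)
  have hf : Tendsto (fun n : ℕ => (n : ℝ)) atTop atTop := tendsto_natCast_atTop_atTop
  have S1 : SupA z (p :: X) := supA hn1 hc1 hd1 hcd h1
  have S2 : SupA (Function.update z p (-z p)) (p :: X) := supA hn1 hc1 hd1 hcd h2
  set x0 : ℂ := 3 * Real.pi / 16 with hx0
  set n := (p :: X).toFinset.card with hcard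
  have e1 : ex 1 (2 * x0 - 3 * lam) = 1 := by
    rw [hx0, hh_lam, show 2 * (3 * lam / 2) - 3 * lam = (0 : ℂ) by ring, ex1', mul_zero,
      Complex.exp_zero]
  have L := fp_oc_lim hf hb S2 x0
  have R1 := fp_oc_lim hf hb S1 x0
  have R2 := fp_lim hf x0 z (p :: X) b
  rw [← hcard, e1, one_pow, mul_one] at L R1
  rw [← hcard, e1, one_pow, one_smul] at R2
  have K1 := RK_oc_lim hf (kr (z p)) (-z p) hbp
  have K2 := RK_E_lim hf (y := z p) hbp hs
  have R := (R1.comp K1).add (R2.comp K2)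
  have hex : ∀ᶠ t : ℕ in atTop, fp (Function.update z p (-z p)) b (x0 - 1 * ((t : ℝ) * I)) (p :: X) =
      fp z b (x0 - 1 * ((t : ℝ) * I)) (p :: X) ∘ₗ RK (kr (z p)) (-z p) b p ((t : ℝ) * I) := by
    filter_upwards [gz_far hf h1 hb, gz_far hf h2 hb] with t g1 g2
    rw [one_mul]
    exact RK_exch hn hc hd hcd hs g1 g2
  have hR := R.congr' (V' := fun t : ℕ => (exp ((t : ℝ) : ℂ) * (NUF.TT (t : ℝ) ^ n)⁻¹) •
      (fp (Function.update z p (-z p)) b (x0 - 1 * ((t : ℝ) * I)) (p :: X) ∘ₗ oc b)) (by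
    filter_upwards [hex] with t ht
    rw [ht]
    refine LinearMap.ext fun F => ?_
    set V := fp z b (x0 - 1 * ((t : ℝ) * I)) (p :: X) with hV
    set K := RK (kr (z p)) (-z p) b p ((t : ℝ) * I) with hK
    simp only [LinearMap.comp_apply, LinearMap.add_apply, LinearMap.smul_apply, Module.End.mul_apply,
      smul_eq_mul, map_smul]
    have q1 : oc b (oc b (K (oc b F))) = oc b (K (oc b F)) := LinearMap.congr_fun oc_oc _
    have q2 : V (K (oc b F)) = V (uops.E b (K (oc b F))) + V (oc b (K (oc b F))) := by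
      rw [← map_add]
      congr 1
      exact (LinearMap.congr_fun (E_add_oc (b := b)) _).symm
    rw [q1, q2]
    ring)
  have key := L.unique hR
  have hI : (I : ℂ) ≠ 0 := Complex.I_ne_zero
  have hc0 : ex 1 x0 / I ≠ 0 := div_ne_zero (ex_ne _ _) hI
  have key2 : (ex 1 x0 / I) • PS0 (Function.update z p (-z p)) b (p :: X) = (ex 1 x0 / I) •
      (PS0 z b (p :: X) ∘ₗ Kp (kr (z p)) p + kj (z p) • (PH z (p :: X) ∘ₗ Jm b p)) := by
    rw [key, Kp_oc]
    have q3 : PS0 z b (p :: X) ∘ₗ (oc b * Kp (kr (z p)) p) = PS0 z b (p :: X) ∘ₗ Kp (kr (z p)) p := by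
      have : PS0 z b (p :: X) ∘ₗ (oc b * Kp (kr (z p)) p) =
          (PS0 z b (p :: X) ∘ₗ oc b) ∘ₗ Kp (kr (z p)) p := rfl
      rw [this, PS0_oc hb]
    rw [LinearMap.smul_comp, q3]
    refine LinearMap.ext fun F => ?_
    simp only [LinearMap.comp_apply, LinearMap.add_apply, LinearMap.smul_apply, smul_eq_mul, map_smul]
    ring
  exact smul_right_injective _ hc0 key2

end Pool.Agent.TC
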