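import Pool.Agent.NUS4.Core

/-!
# The abstract glue of the folded gas ([4.8], [4.9] of nu34/53C): grid of positive points, gain `m ^ (- 1/4)`

Only the modes at `e T ≤ l h ≤ (1 - 2e) T`, `T = (3/8) log m`, are used: the wall is not seen.

* `lo`, `fN`, `fp`, `fLa`: the grid of positive points in `[X0, X]`;
* `coreF`, `coreF_lint`: abstract form of [4.9], in the form of measures and of densities with a window.
-/

set_option autoImplicit false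

namespace TCS

open MeasureTheory NUMF NUE NUS4
open scoped ENNReal

/-- index of the first grid point -/
noncomputable def lo (h X0 : ℝ) : ℕ := ⌈X0 / h⌉₊

/-- number of grid points of step `h` in `[X0, X]` -/
noncomputable def fN (h X0 X : ℝ) : ℕ := gM h X + 1 - lo h X0

/-- the grid points -/
noncomputable def fpt (h X0 X : ℝ) (a : Fin (fN h X0 X)) : ℝ := h * ((a : ℝ) + lo h X0)

/-- the grid as a set of integers -/
noncomputable def fLa (h X0 X : ℝ) : Finset ℤ :=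
  (Finset.range (fN h X0 X)).image fun k : ℕ => (k : ℤ) + lo h X0

lemma le_lo {h X0 : ℝ} (hh : 0 < h) : X0 ≤ h * lo h X0 := by
  have h1 := Nat.le_ceil (X0 / h)
  unfold lo
  rw [div_le_iff₀ hh] at h1
  linarith

lemma lo_lt {h X0 : ℝ} (hh : 0 < h) (hX : 0 ≤ X0) : h * lo h X0 < X0 + h := by
  have h1 := Nat.ceil_lt_add_one (a := X0 / h) (by positivity)
  unfold lo
  have h2 : h * (⌈X0 / h⌉₊ : ℝ) < h * (X0 / h + 1) := mul_lt_mul_of_pos_left h1 hh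
  have h3 : h * (X0 / h + 1) = X0 + h := by
    field_simp
  linarith

lemma lo_pos {h X0 : ℝ} (hh : 0 < h) (hX : 0 < X0) : 0 < lo h X0 := by
  unfold lo
  exact Nat.ceil_pos.2 (by positivity)

lemma fpt_ge {h X0 X : ℝ} (hh : 0 < h) (a : Fin (fN h X0 X)) : X0 ≤ fpt h X0 X a := by
  have h1 := le_lo (X0 := X0) hh
  have h2 : (0 : ℝ) ≤ h * (a : ℝ) := by positivity
  unfold fpt
  nlinarith

lemma fpt_le {h X0 X : ℝ} (hh : 0 < h) (hX : 0 ≤ X) (a : Fin (fN h X0 X)) : fpt h X0 X a ≤ X := by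
  have h1 := gM_le hh hX
  have h2 : (a : ℕ) + lo h X0 ≤ gM h X := by
    have := a.2
    unfold fN at this
    omega
  have h3 : (a : ℝ) + lo h X0 ≤ gM h X := by exact_mod_cast h2
  unfold fpt
  calc h * ((a : ℝ) + lo h X0) ≤ h * gM h X := mul_le_mul_of_nonneg_left h3 hh.le
    _ ≤ X := by linarith

lemma fpt_sub {h X0 X : ℝ} (a b : Fin (fN h X0 X)) :
    fpt h X0 X a - fpt h X0 X b = h * ((a : ℝ) - (b : ℝ)) := by
  unfold fpt
  ring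

lemma fpt_int {h X0 X : ℝ} (a : Fin (fN h X0 X)) :
    fpt h X0 X a = (((a : ℕ) : ℤ) + (lo h X0 : ℤ) : ℤ) * h := by
  unfold fpt
  push_cast
  ring

lemma le_fN {h X0 X : ℝ} (hh : 0 < h) (hX0 : 0 ≤ X0) : X - X0 - h ≤ (fN h X0 X : ℝ) * h := by
  have h1 := lt_gM (X := X) hh
  have h2 := lo_lt hh hX0
  have h3 : (gM h X : ℝ) + 1 - lo h X0 ≤ fN h X0 X := by
    unfold fN
    have h4 : (gM h X + 1 : ℕ) ≤ (gM h X + 1 - lo h X0) + lo h X0 := by omega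
    have h5 : ((gM h X + 1 : ℕ) : ℝ) ≤ ((gM h X + 1 - lo h X0 : ℕ) : ℝ) + lo h X0 := by
      exact_mod_cast h4
    push_cast at h5
    linarith
  nlinarith

lemma fN_le {h X0 X : ℝ} (hh : 0 < h) (hX : 0 ≤ X) : (fN h X0 X : ℝ) * h ≤ X + h := by
  have h1 := gM_le hh hX
  have h3 : (fN h X0 X : ℝ) ≤ gM h X + 1 := by
    unfold fN
    have h4 : gM h X + 1 - lo h X0 ≤ gM h X + 1 := Nat.sub_le _ _
    exact_mod_cast h4
  nlinarith

lemma fLa_pos {h X0 X : ℝ} (hh : 0 < h) (hX0 : 0 < X0) : ∀ l ∈ fLa h X0 X, 0 < l := by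
  intro l hl
  unfold fLa at hl
  rw [Finset.mem_image] at hl
  obtain ⟨k, -, rfl⟩ := hl
  have := lo_pos hh hX0
  omega

/-- sums over the grid -/
lemma sum_fLa {M : Type*} [AddCommMonoid M] (h X0 X : ℝ) (f : ℤ → M) :
    ∑ l ∈ fLa h X0 X, f l = ∑ a : Fin (fN h X0 X), f (((a : ℕ) : ℤ) + (lo h X0 : ℤ)) := by
  unfold fLa
  rw [Finset.sum_image (fun a _ b _ hab => by omega), Finset.sum_range]

/-- **[4.9] of the folded gas, abstract form** -/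
theorem coreF {ε : ℝ} (hε : 0 < ε) (hε1 : ε ≤ 1) : ∃ (δ K η : ℝ) (c : ℝ → ℝ), 0 < δ ∧ δ < K ∧ 0 < η ∧
    ContDiff ℝ ((⊤ : ℕ∞) : WithTop ℕ∞) c ∧ (∀ k, 0 ≤ c k) ∧ (∀ k, c (-k) = c k) ∧ (∀ k, |k| ≤ δ → c k = 0) ∧
    (∀ k, K ≤ |k| → c k = 0) ∧ (∀ k, k ≠ 0 → c k ^ 2 ≤ Lh k) ∧ Continuous (rs c) ∧ (∀ k, rs c k ≤ 1 - η) ∧
    ∀ h : ℝ, 0 < h → K * h < Real.pi → ∃ C₀ : ℝ, 1 ≤ C₀ ∧ ∀ (e : ℝ), 0 ≤ e → e ≤ 1 / 3 →
      ∀ (m : ℕ), 1 ≤ m → ∀ (N : ℕ), N = fN h (e * (3 / 8 * Real.log m)) ((1 - 2 * e) * (3 / 8 * Real.log m)) →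
      ∀ {Ω : Type*} [MeasurableSpace Ω] (μ : Measure Ω) [SFinite μ] (F : Fin N → Ω → ℝ) (A Z₁ e' a : ℝ)
        (l : (Fin N → ℝ) → ℝ), (∀ i, Measurable (F i)) → (∀ g, l (-g) = -l g) → 0 ≤ A → 0 ≤ Z₁ → 0 ≤ e' → 1 / 4 ≤ a →
        ∫⁻ x, ENNReal.ofReal (Real.exp ((∑ i, F i x ^ 2) / 2)) ∂μ ≤ ENNReal.ofReal (A * (m : ℝ) ^ a) →
        (Z₁ ≤ A * (m : ℝ) ^ (a - 1 / 4) ∨ ∀ g : Fin N → ℝ, ∑ i, g i ^ 2 ≤ (2 * (N : ℝ) + 4) / η →
          ENNReal.ofReal (Z₁ * Real.exp ((∑ i, ∑ j, g i * toep (fun θ => rs c (θ / h)) N i j * g j) / 2 +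
            l g - e')) ≤ ∫⁻ x, ENNReal.ofReal (Real.exp (∑ i, g i * F i x)) ∂μ) →
        Z₁ ≤ C₀ * Real.exp e' * A * (m : ℝ) ^ (a - 1 / 4 + (ε + e)) := by
  obtain ⟨δ, K, η, c, hδ, hK, hη, hc1, hc2, hc3, hc4, hc5, hc6, hc7, hc8, hc9⟩ := R3 hε
  refine ⟨δ, K, η, c, hδ, hK, hη, hc1, hc2, hc3, hc4, hc5, hc6, hc7, hc8, fun h hh hKh => ?_⟩
  obtain ⟨Cst, hC⟩ := hc9 h hh hKh
  refine ⟨Real.exp (|Cst| + h), Real.one_le_exp (by positivity), ?_⟩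
  intro e he0 he1 m hm N hN Ω _ μ _ F A Z₁ e' a l hF hl hA hZ1 he' ha hup hor
  have hm1 : (1 : ℝ) ≤ m := by exact_mod_cast hm
  have hm0 : (0 : ℝ) < m := by linarith
  have hlog : 0 ≤ Real.log m := Real.log_nonneg hm1
  have hC1 : 1 ≤ Real.exp (|Cst| + h) := Real.one_le_exp (by positivity)
  rcases hor with h1 | h1
  · have h2 : (m : ℝ) ^ (a - 1 / 4) ≤ (m : ℝ) ^ (a - 1 / 4 + (ε + e)) :=
      Real.rpow_le_rpow_of_exponent_le hm1 (by linarith)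
    have h3 : (1 : ℝ) ≤ Real.exp e' := Real.one_le_exp he'
    have h5 : 1 ≤ Real.exp (|Cst| + h) * Real.exp e' := one_le_mul_of_one_le_of_one_le hC1 h3
    calc Z₁ ≤ A * (m : ℝ) ^ (a - 1 / 4) := h1
      _ ≤ A * (m : ℝ) ^ (a - 1 / 4 + (ε + e)) := mul_le_mul_of_nonneg_left h2 hA
      _ = 1 * (A * (m : ℝ) ^ (a - 1 / 4 + (ε + e))) := (one_mul _).symm
      _ ≤ (Real.exp (|Cst| + h) * Real.exp e') * (A * (m : ℝ) ^ (a - 1 / 4 + (ε + e))) :=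
          mul_le_mul_of_nonneg_right h5 (by positivity)
      _ = _ := by ring
  · have h2 := hC N (gR η N) (gR_nonneg η N) (by
      rw [gR_sq hη]
      rw [mul_div_cancel₀ _ hη.ne']) μ F (A * (m : ℝ) ^ a) Z₁ e' l hF hl (by positivity) hZ1 hup
      (fun g hg => h1 g (by rwa [gR_sq hη] at hg))
    refine h2.trans ?_
    have h3 := le_fN (h := h) (X0 := e * (3 / 8 * Real.log m)) (X := (1 - 2 * e) * (3 / 8 * Real.log m)) hh
      (by positivity)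
    rw [← hN] at h3
    have hε2 : e' - 2 / 3 * (1 - ε) * (N * h) + Cst ≤ (|Cst| + h) + e' - (1 / 4 - (ε + e)) * Real.log m := by
      have h4 := le_abs_self Cst
      have h5 : 0 ≤ (N : ℝ) * h := by positivity
      have h7 : 2 / 3 * (1 - ε) * ((1 - 2 * e) * (3 / 8 * Real.log m) - e * (3 / 8 * Real.log m) - h) ≤
          2 / 3 * (1 - ε) * (N * h) :=
        mul_le_mul_of_nonneg_left h3 (by linarith)
      have h8 : 2 / 3 * (1 - ε) * ((1 - 2 * e) * (3 / 8 * Real.log m) - e * (3 / 8 * Real.log m) - h) =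
          (1 / 4 - (ε / 4 + 3 / 4 * e) + 3 / 4 * ε * e) * Real.log m - 2 / 3 * (1 - ε) * h := by ring
      have h9 : 2 / 3 * (1 - ε) * h ≤ h := by nlinarith
      have h10 : 0 ≤ 3 / 4 * ε * e * Real.log m := by positivity
      have h11 : 0 ≤ (3 / 4 * ε + 1 / 4 * e) * Real.log m := by positivity
      nlinarith
    calc A * (m : ℝ) ^ a * Real.exp (e' - 2 / 3 * (1 - ε) * (N * h) + Cst)
        ≤ A * (m : ℝ) ^ a * Real.exp ((|Cst| + h) + e' - (1 / 4 - (ε + e)) * Real.log m) := by gcongr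
      _ = _ := by
        rw [Real.rpow_def_of_pos hm0, Real.rpow_def_of_pos hm0, sub_eq_add_neg, Real.exp_add, Real.exp_add]
        have : Real.exp (Real.log m * (a - 1 / 4 + (ε + e))) =
            Real.exp (Real.log m * a) * Real.exp (-((1 / 4 - (ε + e)) * Real.log m)) := by
          rw [← Real.exp_add]
          congr 1
          ring
        rw [this]
        ring

/-- the form with densities and a window -/
theorem coreF_lint {ε : ℝ} (hε : 0 < ε) (hε1 : ε ≤ 1) : ∃ (δ K η : ℝ) (c : ℝ → ℝ), 0 < δ ∧ δ < K ∧ 0 < η ∧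
    ContDiff ℝ ((⊤ : ℕ∞) : WithTop ℕ∞) c ∧ (∀ k, 0 ≤ c k) ∧ (∀ k, c (-k) = c k) ∧ (∀ k, |k| ≤ δ → c k = 0) ∧
    (∀ k, K ≤ |k| → c k = 0) ∧ (∀ k, k ≠ 0 → c k ^ 2 ≤ Lh k) ∧ Continuous (rs c) ∧ (∀ k, rs c k ≤ 1 - η) ∧
    ∀ h : ℝ, 0 < h → K * h < Real.pi → ∃ C₀ : ℝ, 1 ≤ C₀ ∧ ∀ (e : ℝ), 0 ≤ e → e ≤ 1 / 3 →
      ∀ (m : ℕ), 1 ≤ m → ∀ (N : ℕ), N = fN h (e * (3 / 8 * Real.log m)) ((1 - 2 * e) * (3 / 8 * Real.log m)) →
      ∀ {Ω : Type*} [MeasurableSpace Ω] (μ : Measure Ω) [SFinite μ] (W : Ω → ℝ≥0∞) (B : Set Ω)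
        (F : Fin N → Ω → ℝ) (A e' a : ℝ) (l : (Fin N → ℝ) → ℝ), Measurable W → MeasurableSet B →
        (∀ i, Measurable (F i)) → (∀ g, l (-g) = -l g) → 0 ≤ A → 0 ≤ e' → 1 / 4 ≤ a →
        ∫⁻ x, W x * ENNReal.ofReal (Real.exp ((∑ i, F i x ^ 2) / 2)) ∂μ ≤ ENNReal.ofReal (A * (m : ℝ) ^ a) →
        ∫⁻ x in Bᶜ, W x ∂μ ≤ ENNReal.ofReal A →
        (∫⁻ x in B, W x ∂μ ≤ ENNReal.ofReal (A * (m : ℝ) ^ (a - 1 / 4)) ∨
          ∀ g : Fin N → ℝ, ∑ i, g i ^ 2 ≤ (2 * (N : ℝ) + 4) / η →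
          (∫⁻ x in B, W x ∂μ) * ENNReal.ofReal (Real.exp ((∑ i, ∑ j, g i *
            toep (fun θ => rs c (θ / h)) N i j * g j) / 2 + l g - e')) ≤
            ∫⁻ x in B, W x * ENNReal.ofReal (Real.exp (∑ i, g i * F i x)) ∂μ) →
        ∫⁻ x, W x ∂μ ≤ ENNReal.ofReal ((C₀ * Real.exp e' + 1) * A * (m : ℝ) ^ (a - 1 / 4 + (ε + e))) := by
  obtain ⟨δ, K, η, c, hδ, hK, hη, hc1, hc2, hc3, hc4, hc5, hc6, hc7, hc8, hc9⟩ := coreF hε hε1
  refine ⟨δ, K, η, c, hδ, hK, hη, hc1, hc2, hc3, hc4, hc5, hc6, hc7, hc8, fun h hh hKh => ?_⟩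
  obtain ⟨C₀, hC0, hC⟩ := hc9 h hh hKh
  refine ⟨C₀, hC0, ?_⟩
  intro e he0 he1 m hm N hN Ω _ μ _ W B F A e' a l hW hB hF hl hA he' ha hup htail hor
  have hm1 : (1 : ℝ) ≤ m := by exact_mod_cast hm
  have hm0 : (0 : ℝ) < m := by linarith
  -- the window part is finite
  have hone : ∀ x, W x ≤ W x * ENNReal.ofReal (Real.exp ((∑ i, F i x ^ 2) / 2)) := by
    intro x
    have h1 : (1 : ℝ≥0∞) ≤ ENNReal.ofReal (Real.exp ((∑ i, F i x ^ 2) / 2)) := by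
      rw [← ENNReal.ofReal_one]
      refine ENNReal.ofReal_le_ofReal (Real.one_le_exp ?_)
      have := Finset.sum_nonneg (fun i (_ : i ∈ Finset.univ) => sq_nonneg (F i x))
      positivity
    calc W x = W x * 1 := (mul_one _).symm
      _ ≤ _ := by gcongr
  have hfin : ∫⁻ x in B, W x ∂μ ≠ ∞ := by
    refine ne_top_of_le_ne_top ENNReal.ofReal_ne_top (le_trans ?_ hup)
    calc ∫⁻ x in B, W x ∂μ ≤ ∫⁻ x, W x ∂μ := setLIntegral_le_lintegral _ _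
      _ ≤ _ := lintegral_mono hone
  -- the measure
  set ν : Measure Ω := (μ.restrict B).withDensity W with hν
  have hint : ∀ f : Ω → ℝ≥0∞, Measurable f → ∫⁻ x, f x ∂ν = ∫⁻ x in B, W x * f x ∂μ := by
    intro f hf
    rw [hν, lintegral_withDensity_eq_lintegral_mul _ hW hf]
    rfl
  have key := hC e he0 he1 m hm N hN ν F A (∫⁻ x in B, W x ∂μ).toReal e' a l hF hl hA ENNReal.toReal_nonneg
    he' ha (by
      rw [hint _ (by fun_prop)]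
      exact (setLIntegral_le_lintegral _ _).trans hup) (by
      rcases hor with h1 | h1
      · left
        exact ENNReal.toReal_le_of_le_ofReal (by positivity) h1
      · right
        intro g hg
        rw [hint _ (by fun_prop), ENNReal.ofReal_mul ENNReal.toReal_nonneg, ENNReal.ofReal_toReal hfin]
        exact h1 g hg)
  have h2 : ∫⁻ x in B, W x ∂μ ≤ ENNReal.ofReal (C₀ * Real.exp e' * A * (m : ℝ) ^ (a - 1 / 4 + (ε + e))) := by
    rw [← ENNReal.ofReal_toReal hfin]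
    exact ENNReal.ofReal_le_ofReal key
  have h3 : (1 : ℝ) ≤ (m : ℝ) ^ (a - 1 / 4 + (ε + e)) := Real.one_le_rpow hm1 (by linarith)
  rw [← lintegral_add_compl _ hB]
  refine (add_le_add h2 htail).trans ?_
  have hC0' : 0 ≤ C₀ := by linarith
  rw [← ENNReal.ofReal_add (by positivity) hA]
  refine ENNReal.ofReal_le_ofReal ?_
  have h4 : A * 1 ≤ A * (m : ℝ) ^ (a - 1 / 4 + (ε + e)) := mul_le_mul_of_nonneg_left h3 hA
  nlinarith

end TCS
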