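import Pool.Agent.TC.S4Sharp
import Pool.Agent.TC.H1Fc

/-!
# The sharp bound of the folded gas with curves

`sharpF`: `sharpA` with (H1) (`TCR.h1F_gd`) inserted: data `TCR.GDF` (odd curves, even one body factors), weight
`TCR.WF` (the wall factor `TCF.beta` is part of the weight).
-/

set_option autoImplicit false

open MeasureTheory Set Filter Topology

namespace TCS

open NUE NUMF NUOC NUKer NUR2 NUTr NUDi NUS4 TCD TCDi TCF TCR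
open scoped ENNReal

noncomputable section

variable {p n : ℕ}

lemma WF_meas {ηX ηX1 ηY ηY1 aX aY : ℝ → ℝ} (h1 : Measurable ηX) (h2 : Measurable ηX1)
    (h3 : Measurable ηY) (h4 : Measurable ηY1) (h5 : Measurable aX) (h6 : Measurable aY) :
    Measurable (WF (p := p) (n := n) ηX ηX1 ηY ηY1 aX aY) := by
  unfold WF
  have hi : ∀ {u : ℝ → ℝ}, Measurable u → Measurable (iD u) := fun hu => by
    unfold iD
    fun_prop
  exact (FWO_meas (hi h1) (hi h2) (hi h3) (hi h4) (beta_cont.measurable.mul h5)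
    (beta_cont.measurable.mul h6)).ennreal_ofReal

/-- **the sharp bound of the folded gas on curves** -/
theorem sharpF {ε : ℝ} (hε : 0 < ε) (hε1 : ε ≤ 1) : ∃ (δ K : ℝ) (c : ℝ → ℝ), 0 < δ ∧ δ < K ∧
    ContDiff ℝ ((⊤ : ℕ∞) : WithTop ℕ∞) c ∧ (∀ k, 0 ≤ c k) ∧ (∀ k, c (-k) = c k) ∧ (∀ k, |k| ≤ δ → c k = 0) ∧
    (∀ k, K ≤ |k| → c k = 0) ∧ (∀ k, k ≠ 0 → c k ^ 2 ≤ NUMF.Lh k) ∧
    ∀ h : ℝ, 0 < h → K * h < Real.pi → ∀ {C₁ C₂ C₃ : ℝ}, 0 < C₁ → 0 ≤ C₂ → 0 ≤ C₃ →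
      ∀ (k : ℕ) {κ e w : ℝ}, 0 < κ → 0 < e → e ≤ 1 / 4 → 0 < w → w ≤ 1 / 10 →
      ∃ (C : ℝ) (m0 : ℕ), 1 ≤ C ∧ 3 ≤ m0 ∧ ∀ m : ℕ, m0 ≤ m →
      ∀ {p n : ℕ} (R s b A a M : ℝ) (τ ηX ηX1 ηY ηY1 aX aY : ℝ → ℝ),
        GDF m k κ e w s R b ηX ηX1 ηY ηY1 aX aY → (∀ x, τ (-x) = τ x) →
        0 ≤ M → M ≤ C₂ * Real.log m ^ 6 → 0 ≤ A → 1 / 4 ≤ a →
        ∫⁻ x, WF (p := p) (n := n) ηX ηX1 ηY ηY1 aX aY x * ENNReal.ofReal (Real.exp (1 / 4 *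
          ∑ i ∈ fLa h (e * (3 / 8 * Real.log m)) (Xf e m) ∪
            (fLa h (e * (3 / 8 * Real.log m)) (Xf e m)).image (fun l => -l),
            NU42.Fst c h 0 τ i (sym x.1) (sym x.2) ^ 2)) ≤ ENNReal.ofReal (A * (m : ℝ) ^ a) →
        ∫⁻ x in (Bx R)ᶜ, WF (p := p) (n := n) ηX ηX1 ηY ηY1 aX aY x ≤ ENNReal.ofReal A →
        SqWF (WF (p := p) (n := n) ηX ηX1 ηY ηY1 aX aY) R (fun t => s * NUMF.P t)
          (ENNReal.ofReal (A * (m : ℝ) ^ a * Real.exp C₃)) (1 / (8 * (C₁ * (R + 1)))) (1 + M) →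
        ∫⁻ x, WF (p := p) (n := n) ηX ηX1 ηY ηY1 aX aY x ≤
          ENNReal.ofReal (C * A * (m : ℝ) ^ (a - 1 / 4 + (ε + e))) := by
  obtain ⟨δ, K, η, c, hδ, hK, hη, hc1, hc2, hc3, hc4, hc5, hc6, hc7, hc8, hc9⟩ := sharpA hε hε1
  refine ⟨δ, K, c, hδ, hK, hc1, hc2, hc3, hc4, hc5, hc6, ?_⟩
  intro h hh hKh C₁ C₂ C₃ h1 h2 h3 k κ e w hκ he he1 hw hw1
  obtain ⟨C₀, C₄, hC0, hC4, hC⟩ := hc9 h hh hKh h1 h2 h3
  have hP : Prof δ K c := ⟨hδ, hc1, hc3, hc4, hc5⟩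
  obtain ⟨m0, e', hm0, he', HD⟩ := h1F_gd hP hh hKh k hκ he he1 hη hw hw1 (C₄ := C₄) (by linarith)
  have he'1 : 1 ≤ Real.exp e' := Real.one_le_exp he'
  refine ⟨C₀ * Real.exp e' + 1, m0, by nlinarith [Real.exp_pos e'], hm0, ?_⟩
  intro m hm p n R s b A a M τ ηX ηX1 ηY ηY1 aX aY D hτ hM hM2 hA ha hup htail hsq
  have hWm : Measurable (WF (p := p) (n := n) ηX ηX1 ηY ηY1 aX aY) := by
    obtain ⟨εX, MX, eX, cX, -⟩ := D.gd.cX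
    obtain ⟨εY, MY, eY, cY, -⟩ := D.gd.cY
    have mη : ∀ {u : ℝ → ℝ} {u1 : ℝ → ℝ} {lam : ℝ}, O 4 lam u → (∀ t, HasDerivAt u (u1 t) t) →
        Measurable u1 := by
      intro u u1 lam h1 h2
      obtain ⟨-, u2, h3, h4⟩ := h1
      have e1 : u2 = u1 := funext fun t => (h3 t).unique (h2 t)
      rw [← e1]
      exact h4.cont.measurable
    exact WF_meas cX.O4.cont.measurable (mη cX.O4 D.gd.dX) cY.O4.cont.measurable (mη cY.O4 D.gd.dY)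
      D.gd.aXm D.gd.aYm
  have hR0 : 0 ≤ R := by
    have h1 : (1:ℝ) ≤ m := by exact_mod_cast (by omega : 1 ≤ m)
    exact (Real.log_nonneg h1).trans D.gd.R1
  have hρ : Continuous fun t => s * NUMF.P t := continuous_const.mul NUMF.P_cont
  exact hC e he (by linarith) m (hm0.trans hm) _ R (e * (3 / 8 * Real.log m)) (Xf e m) A a e' M
    (fun t => s * NUMF.P t) τ rfl rfl hWm hR0 D.gd.R2 hρ (fun x => by simp only [NUMF.P_neg]) hτ hM hM2 hA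
    he' ha hup htail hsq
    fun q1 q2 => HD m hm (p := p) (n := n) (e * (3 / 8 * Real.log m)) (Xf e m) R s b ηX ηX1 ηY ηY1 aX aY
      rfl rfl D q1 q2 (ccF c h (e * (3 / 8 * Real.log m)) (Xf e m) τ)

end

end TCS
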