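import Pool.Agent.TC.S4Fin
import Pool.Agent.TC.DiSq

/-!
# The sharp bound of the folded gas from H0, the squares `SqWF`, the tail and (H1)

`sharpA`: form of `NUS4.fin` for the folded gas: `TCDi.dicho_rigS` (with `δ = 1/4`) inserted in `TCS.finF`; the
remaining input is (H1) for a window measure which satisfies `TCR.RigS`.
-/

set_option autoImplicit false

open MeasureTheory Set Filter Topology

namespace TCS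

open NUE NUMF NUKer NUR2 NUDi NUS4 TCD TCDi TCF
open scoped ENNReal

noncomputable section

/-- **the sharp bound of the folded gas**, (H1) as a hypothesis -/
theorem sharpA {ε : ℝ} (hε : 0 < ε) (hε1 : ε ≤ 1) : ∃ (δ K η : ℝ) (c : ℝ → ℝ), 0 < δ ∧ δ < K ∧ 0 < η ∧
    ContDiff ℝ ((⊤ : ℕ∞) : WithTop ℕ∞) c ∧ (∀ k, 0 ≤ c k) ∧ (∀ k, c (-k) = c k) ∧ (∀ k, |k| ≤ δ → c k = 0) ∧
    (∀ k, K ≤ |k| → c k = 0) ∧ (∀ k, k ≠ 0 → c k ^ 2 ≤ Lh k) ∧ Continuous (rs c) ∧ (∀ k, rs c k ≤ 1 - η) ∧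
    ∀ h : ℝ, 0 < h → K * h < Real.pi → ∀ {C₁ C₂ C₃ : ℝ}, 0 < C₁ → 0 ≤ C₂ → 0 ≤ C₃ →
      ∃ C₀ C₄ : ℝ, 1 ≤ C₀ ∧ 1 ≤ C₄ ∧ ∀ e : ℝ, 0 < e → e ≤ 1 / 3 → ∀ m : ℕ, 3 ≤ m →
      ∀ {p n : ℕ} (W : Cfg p n → ℝ≥0∞) (R X0 X A a e' M : ℝ) (ρ τ : ℝ → ℝ),
        X0 = e * (3 / 8 * Real.log m) → X = (1 - 2 * e) * (3 / 8 * Real.log m) →
        Measurable W → 0 ≤ R → R ≤ 2 * Real.log m ^ 2 → Continuous ρ → (∀ x, ρ (-x) = ρ x) →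
        (∀ x, τ (-x) = τ x) → 0 ≤ M → M ≤ C₂ * Real.log m ^ 6 → 0 ≤ A → 0 ≤ e' → 1 / 4 ≤ a →
        ∫⁻ x, W x * ENNReal.ofReal (Real.exp (1 / 4 *
          ∑ i ∈ fLa h X0 X ∪ (fLa h X0 X).image (fun l => -l),
            NU42.Fst c h 0 τ i (sym x.1) (sym x.2) ^ 2)) ≤ ENNReal.ofReal (A * (m : ℝ) ^ a) →
        ∫⁻ x in (Bx R)ᶜ, W x ≤ ENNReal.ofReal A →
        SqWF W R ρ (ENNReal.ofReal (A * (m : ℝ) ^ a * Real.exp C₃)) (1 / (8 * (C₁ * (R + 1)))) (1 + M) →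
        (IsFiniteMeasure (mWin R W) →
          TCR.RigS (mWin R W) (fun x => sym x.1) (fun x => sym x.2) R ρ (C₄ * Real.log m ^ 8) →
          ∃ l : (Fin (fN h X0 X) → ℝ) → ℝ, (∀ g, l (-g) = -l g) ∧
            H1F c h η X0 X e' l (ccF c h X0 X τ) (Bx R) W) →
        ∫⁻ x, W x ≤ ENNReal.ofReal ((C₀ * Real.exp e' + 1) * A * (m : ℝ) ^ (a - 1 / 4 + (ε + e))) := by
  obtain ⟨δ, K, η, c, hδ, hK, hη, hc1, hc2, hc3, hc4, hc5, hc6, hc7, hc8, hc9⟩ := finF hε hε1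
  refine ⟨δ, K, η, c, hδ, hK, hη, hc1, hc2, hc3, hc4, hc5, hc6, hc7, hc8, fun h hh hKh C₁ C₂ C₃ h1 h2 h3 => ?_⟩
  obtain ⟨C₀, hC0, hC⟩ := hc9 h hh hKh
  obtain ⟨C₄, hC4, hD⟩ := dicho_rigS (δ := 1 / 4) h1 h2 h3 (by norm_num) (by norm_num)
  refine ⟨C₀, C₄, hC0, hC4, ?_⟩
  intro e he0 he1 m hm p n W R X0 X A a e' M ρ τ hX0 hX hW hR hR2 hρ hρe hτ hM hM2 hA he' ha hup htail hsq hH1
  refine hC e he0 he1 m hm W (Bx R) X0 X A a e' τ hX0 hX hW (measurableSet_Bx R) hτ hA he' ha hup htail ?_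
  have hmW : ∫⁻ x in Bx R, W x = mWin R W univ := by
    unfold mWin
    rw [withDensity_apply _ MeasurableSet.univ, Measure.restrict_univ]
  rcases hD m hm R hR hR2 hW hρ hρe A a M hA hM hM2 hsq with h | ⟨h4, h5⟩
  · left
    rw [hmW]
    exact h
  · right
    exact hH1 h4 h5

end

end TCS
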