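import Pool.Agent.NUF.ScalA
import Pool.Agent.NUF.FarS
import Pool.Agent.NUU.Deg

/-!
# Trigonometric polynomials far away (helper4)
-/

set_option autoImplicit false

namespace Pool.Agent.TC

open _root_.Pool.Agent.EXL _root_.Pool.Agent.EXL.Pat Filter Topology
open _root_.Pool.Agent.EXL.Fm (lam)
open _root_.Pool.Agent.NUF _root_.Pool.Agent.NUU
open Complex (I exp sin cos)

theorem exp_nat (n : ℕ) (x : ℂ) : exp (n * x) = exp x ^ n := by
  rw [← Complex.exp_nat_mul]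

section

variable {β : Type*} {l : Filter β} {f : β → ℝ} {σ : ℂ}

theorem exp_neg2_lim (hf : Tendsto f l atTop) : Tendsto (fun b => exp (2 * -(f b : ℂ))) l (𝓝 0) := by
  have h := (exp_neg_lim hf).mul (exp_neg_lim hf)
  rw [mul_zero] at h
  refine h.congr fun b => ?_
  rw [← Complex.exp_add]
  congr 1
  ring

/-- The limit of a trigonometric polynomial at `i∞`, the lowest coefficient. -/
theorem tp_lim1 {n : ℕ} {g : ℂ → ℂ} {P : Polynomial ℂ}
    (h : ∀ u, exp (n * (I * u)) * g u = P.eval (Fr.ee u)) (hf : Tendsto f l atTop) :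
    Tendsto (fun b => g (1 * (f b * I)) / exp (n * f b)) l (𝓝 (P.coeff 0)) := by
  have h1 : Tendsto (fun b => P.eval (exp (2 * -(f b : ℂ)))) l (𝓝 (P.eval 0)) :=
    (P.continuous.tendsto 0).comp (exp_neg2_lim hf)
  rw [← Polynomial.coeff_zero_eq_eval_zero] at h1
  refine h1.congr fun b => ?_
  have h2 := h (1 * (f b * I))
  have e1 : I * (1 * ((f b : ℂ) * I)) = -(f b : ℂ) := by
    linear_combination (f b : ℂ) * Complex.I_mul_I
  unfold Fr.ee at h2
  rw [e1] at h2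
  rw [← h2, show (n : ℂ) * -(f b : ℂ) = -(n * f b) by ring, Complex.exp_neg]
  have := Complex.exp_ne_zero ((n : ℂ) * f b)
  field_simp

/-- The limit of a trigonometric polynomial at `-i∞`, the highest coefficient. -/
theorem tp_lim2 {n : ℕ} {g : ℂ → ℂ} {P : Polynomial ℂ} (hn : P.natDegree ≤ n)
    (h : ∀ u, exp (n * (I * u)) * g u = P.eval (Fr.ee u)) (hf : Tendsto f l atTop) :
    Tendsto (fun b => g (-1 * (f b * I)) / exp (n * f b)) l (𝓝 (P.coeff n)) := by
  obtain ⟨P', _, _, h0, h3⟩ := rev_pol P hn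
  have h1 : Tendsto (fun b => P'.eval (exp (2 * -(f b : ℂ)))) l (𝓝 (P'.eval 0)) :=
    (P'.continuous.tendsto 0).comp (exp_neg2_lim hf)
  rw [← Polynomial.coeff_zero_eq_eval_zero, h0] at h1
  refine h1.congr fun b => ?_
  have h2 := h (-1 * (f b * I))
  have e1 : I * (-1 * ((f b : ℂ) * I)) = (f b : ℂ) := by
    linear_combination (-(f b : ℂ)) * Complex.I_mul_I
  unfold Fr.ee at h2
  rw [e1] at h2
  have e2 : (exp (2 * -(f b : ℂ)))⁻¹ = exp (2 * (f b : ℂ)) := by
    rw [← Complex.exp_neg]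
    congr 1
    ring
  rw [h3 _ (Complex.exp_ne_zero _), e2, ← h2, ← exp_nat,
    show (n : ℂ) * (2 * -(f b : ℂ)) = -(n * f b) + -(n * f b) by ring, Complex.exp_add, Complex.exp_neg]
  have := Complex.exp_ne_zero ((n : ℂ) * f b)
  field_simp

theorem tp_lim {n : ℕ} {g : ℂ → ℂ} (h : Fr.TP n g) (hf : Tendsto f l atTop)
    (hσ : σ = 1 ∨ σ = -1) : ∃ c, Tendsto (fun b => g (σ * (f b * I)) / exp (n * f b)) l (𝓝 c) := by
  obtain ⟨P, h1, h2⟩ := h
  rcases hσ with rfl | rfl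
  · exact ⟨_, tp_lim1 h2 hf⟩
  · exact ⟨_, tp_lim2 h1 h2 hf⟩

end

/-- **A trigonometric polynomial which is small at both ends.** -/
theorem tp_down {n : ℕ} {g : ℂ → ℂ} (h : Fr.TP (n + 2) g)
    (h0 : ∀ σ : ℂ, σ = 1 ∨ σ = -1 →
      Tendsto (fun R : ℝ => g (σ * (R * I)) / exp ((n + 2 : ℕ) * R)) atTop (𝓝 0)) : Fr.TP n g := by
  obtain ⟨P, h1, h2⟩ := h
  have c0 : P.coeff 0 = 0 :=
    tendsto_nhds_unique (tp_lim1 (f := fun R : ℝ => R) h2 tendsto_id) (h0 1 (Or.inl rfl))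
  have c1 : P.coeff (n + 2) = 0 :=
    tendsto_nhds_unique (tp_lim2 (f := fun R : ℝ => R) h1 h2 tendsto_id) (h0 (-1) (Or.inr rfl))
  obtain ⟨P', rfl⟩ := Polynomial.X_dvd_iff.2 c0
  refine ⟨P', ?_, fun u => ?_⟩
  · rw [Polynomial.natDegree_le_iff_coeff_eq_zero]
    intro N hN
    rw [← Polynomial.coeff_X_mul]
    rcases Nat.lt_or_ge (n + 2) (N + 1) with h3 | h3
    · exact Polynomial.coeff_eq_zero_of_natDegree_lt (lt_of_le_of_lt h1 h3)
    · have : N + 1 = n + 2 := by omega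
      rw [this, c1]
  · have h3 := h2 u
    rw [Polynomial.eval_mul, Polynomial.eval_X] at h3
    have h4 : exp (((n + 2 : ℕ) : ℂ) * (I * u)) = Fr.ee u * exp (n * (I * u)) := by
      unfold Fr.ee
      rw [← Complex.exp_add]
      congr 1
      push_cast
      ring
    rw [h4, mul_assoc] at h3
    exact mul_left_cancel₀ (Complex.exp_ne_zero _) h3

end Pool.Agent.TC
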