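import Pool.Agent.TC.TauS
import Pool.Agent.TC.OneC
import Pool.Agent.NUMFC.Bk

/-!
# The error factor of the folded one component gas in a sea

`HRU_P`: density `s P + μ`, field `E`; the factor is polylogarithmic.
-/

set_option autoImplicit false

open MeasureTheory Set Filter Topology ProbabilityTheory
open scoped Real NNReal ENNReal

namespace Pool.Agent.FSz.Tau

open NUMF NUC62 NUWC TCW TCO
open NUC37 (C1P)

noncomputable section

/-- a profile of a sea -/
structure Prof (P P1 P2 : ℝ → ℝ) (c t0 C : ℝ) : Prop where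
  d1 : ∀ x, HasDerivAt P (P1 x) x
  d2 : ∀ x, HasDerivAt P1 (P2 x) x
  c2 : Continuous P2
  even : ∀ x, P (-x) = P x
  nonneg : ∀ x, 0 ≤ P x
  cpos : 0 < c
  t0pos : 0 < t0
  t0le : t0 ≤ 1
  low : ∀ t, 0 ≤ t → t ≤ t0 → c ≤ P t
  up : ∀ t, 0 ≤ t → t ≤ t0 → P t ≤ 3 * c
  C1 : 1 ≤ C
  b1 : ∀ x, |P1 x| ≤ C * P x
  b2 : ∀ x, |P2 x| ≤ C * P x
  b0 : ∀ x, P x ≤ C * Real.exp (-|x|)

namespace Prof

variable {P P1 P2 : ℝ → ℝ} {c t0 C : ℝ}

theorem odd1 (h : Prof P P1 P2 c t0 C) (x : ℝ) : P1 (-x) = -P1 x := by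
  have h1 : HasDerivAt (fun y => P (-y)) (-P1 (-x)) x := by
    have h3 := HasDerivAt.comp x (h.d1 (-x)) (hasDerivAt_neg x)
    rw [mul_neg_one] at h3
    exact h3
  have h2 : (fun y => P (-y)) = P := funext h.even
  rw [h2] at h1
  have := h1.unique (h.d1 x)
  linarith

theorem cont (h : Prof P P1 P2 c t0 C) : Continuous P :=
  continuous_iff_continuousAt.2 fun x => (h.d1 x).continuousAt

theorem cont1 (h : Prof P P1 P2 c t0 C) : Continuous P1 :=
  continuous_iff_continuousAt.2 fun x => (h.d2 x).continuousAt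

end Prof

/-- the regular part of the density: `s P` corrected at the ends -/
def rP (P P1 : ℝ → ℝ) (L s x : ℝ) : ℝ := s * (P x - P1 (L / 2) / L * x ^ 2)

def rP1 (P1 : ℝ → ℝ) (L s x : ℝ) : ℝ := s * (P1 x - 2 * (P1 (L / 2) / L) * x)

def rP2 (P1 P2 : ℝ → ℝ) (L s x : ℝ) : ℝ := s * (P2 x - 2 * (P1 (L / 2) / L))

section

variable {P P1 P2 : ℝ → ℝ} {c t0 C L : ℝ}

theorem rP_C1P (h : Prof P P1 P2 c t0 C) (s : ℝ) : C1P L (rP P P1 L s) (rP1 P1 L s) where
  cont := by
    have := h.cont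
    unfold rP
    exact (by fun_prop : Continuous fun x => s * (P x - P1 (L / 2) / L * x ^ 2)).continuousOn
  deriv x _ := by
    unfold rP rP1
    have h1 := ((h.d1 x).fun_sub ((hasDerivAt_pow 2 x).const_mul (P1 (L / 2) / L))).const_mul s
    refine h1.congr_deriv ?_
    push_cast
    ring
  cont' := by
    have := h.cont1
    unfold rP1
    exact (by fun_prop : Continuous fun x => s * (P1 x - 2 * (P1 (L / 2) / L) * x)).continuousOn
  per := by
    unfold rP
    rw [h.even]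
    ring

theorem rP1_C1P (h : Prof P P1 P2 c t0 C) (hL : 0 < L) (s : ℝ) :
    C1P L (rP1 P1 L s) (rP2 P1 P2 L s) where
  cont := by
    have := h.cont1
    unfold rP1
    exact (by fun_prop : Continuous fun x => s * (P1 x - 2 * (P1 (L / 2) / L) * x)).continuousOn
  deriv x _ := by
    unfold rP1 rP2
    have h1 := ((h.d2 x).fun_sub ((hasDerivAt_id' x).const_mul (2 * (P1 (L / 2) / L)))).const_mul s
    refine h1.congr_deriv ?_
    ring
  cont' := by
    have := h.c2
    unfold rP2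
    exact (by fun_prop : Continuous fun x => s * (P2 x - 2 * (P1 (L / 2) / L))).continuousOn
  per := by
    unfold rP1
    rw [h.odd1]
    field_simp
    simp

theorem exp_sq_int (hL : 0 < L) : ∫ x in (-(L / 2))..(L / 2), Real.exp (-|x|) ^ 2 ≤ 1 := by
  have hle : -(L / 2) ≤ 0 := by linarith
  have hle' : 0 ≤ L / 2 := by linarith
  have hc : Continuous fun x : ℝ => Real.exp (-|x|) ^ 2 := by fun_prop
  rw [← intervalIntegral.integral_add_adjacent_intervals (b := 0) (hc.intervalIntegrable _ _)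
    (hc.intervalIntegrable _ _)]
  have key : ∫ x in (0:ℝ)..(L / 2), Real.exp (-|x|) ^ 2 ≤ 1 / 2 := by
    have e : ∫ x in (0:ℝ)..(L / 2), Real.exp (-|x|) ^ 2 =
        ∫ x in (0:ℝ)..(L / 2), Real.exp (-(2 * x)) := by
      refine intervalIntegral.integral_congr fun x hx => ?_
      rw [uIcc_of_le hle'] at hx
      rw [abs_of_nonneg hx.1, ← Real.exp_nat_mul]
      congr 1
      push_cast
      ring
    rw [e]
    have h1 : ∀ x ∈ uIcc 0 (L / 2), HasDerivAt (fun x : ℝ => -(1 / 2) * Real.exp (-(2 * x)))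
        (Real.exp (-(2 * x))) x := by
      intro x _
      have h2 : HasDerivAt (fun x : ℝ => -(2 * x)) (-(2 * 1)) x :=
        ((hasDerivAt_id x).const_mul 2).neg
      have h3 := (h2.exp).const_mul (-(1 / 2))
      refine h3.congr_deriv ?_
      ring
    rw [intervalIntegral.integral_eq_sub_of_hasDerivAt h1
      ((by fun_prop : Continuous fun x : ℝ => Real.exp (-(2 * x))).intervalIntegrable _ _)]
    have := Real.exp_pos (-(2 * (L / 2)))
    simp only [mul_zero, neg_zero, Real.exp_zero]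
    linarith
  have e2 : ∫ x in (-(L / 2))..0, Real.exp (-|x|) ^ 2 = ∫ x in (0:ℝ)..(L / 2), Real.exp (-|x|) ^ 2 := by
    have h3 := intervalIntegral.integral_comp_neg (a := -(L / 2)) (b := 0)
      fun x : ℝ => Real.exp (-|x|) ^ 2
    rw [neg_neg, neg_zero] at h3
    rw [← h3]
    simp only [abs_neg]
  rw [e2]
  linarith

theorem rP2_int (h : Prof P P1 P2 c t0 C) (hL : 18 ≤ L) {s : ℝ} (hs : 0 ≤ s) :
    ∫ x in (-(L / 2))..(L / 2), rP2 P1 P2 L s x ^ 2 ≤ (2 * C ^ 2 * s) ^ 2 := by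
  have hL0 : 0 < L := by linarith
  have hC := h.C1
  have hle : -(L / 2) ≤ L / 2 := by linarith
  have hP1 : |P1 (L / 2)| ≤ C ^ 2 := by
    have h1 := h.b1 (L / 2)
    have h2 := h.b0 (L / 2)
    have h3 : Real.exp (-|L / 2|) ≤ 1 := Real.exp_le_one_iff.2 (by linarith [abs_nonneg (L / 2)])
    calc |P1 (L / 2)| ≤ C * P (L / 2) := h1
      _ ≤ C * (C * Real.exp (-|L / 2|)) := by gcongr
      _ ≤ C * (C * 1) := by gcongr
      _ = _ := by ring
  have hpt : ∀ x, rP2 P1 P2 L s x ^ 2 ≤ s ^ 2 * C ^ 4 * (2 * Real.exp (-|x|) ^ 2 + 8 / L ^ 2) := by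
    intro x
    have h1 : |P2 x| ≤ C ^ 2 * Real.exp (-|x|) := by
      have := h.b2 x
      have := h.b0 x
      calc |P2 x| ≤ C * P x := h.b2 x
        _ ≤ C * (C * Real.exp (-|x|)) := by gcongr
        _ = _ := by ring
    have h2 : |2 * (P1 (L / 2) / L)| ≤ 2 * C ^ 2 / L := by
      rw [abs_mul, abs_two, abs_div, abs_of_pos hL0, mul_div_assoc']
      gcongr
    have h3 : |rP2 P1 P2 L s x| ≤ s * (C ^ 2 * Real.exp (-|x|) + 2 * C ^ 2 / L) := by
      unfold rP2
      rw [abs_mul, abs_of_nonneg hs]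
      gcongr
      exact (abs_sub _ _).trans (add_le_add h1 h2)
    rw [← sq_abs]
    calc |rP2 P1 P2 L s x| ^ 2 ≤ (s * (C ^ 2 * Real.exp (-|x|) + 2 * C ^ 2 / L)) ^ 2 := by gcongr
      _ = s ^ 2 * C ^ 4 * (Real.exp (-|x|) + 2 / L) ^ 2 := by ring
      _ ≤ s ^ 2 * C ^ 4 * (2 * Real.exp (-|x|) ^ 2 + 8 / L ^ 2) := by
        gcongr
        have e : 8 / L ^ 2 = 2 * (2 / L) ^ 2 := by ring
        rw [e]
        nlinarith [sq_nonneg (Real.exp (-|x|) - 2 / L)]
  have hc2 := h.c2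
  have i1 : Continuous fun x => rP2 P1 P2 L s x ^ 2 := by
    unfold rP2
    fun_prop
  have i2 : Continuous fun x : ℝ => 2 * Real.exp (-|x|) ^ 2 := by fun_prop
  have h4 : ∫ x in (-(L / 2))..(L / 2), rP2 P1 P2 L s x ^ 2 ≤
      ∫ x in (-(L / 2))..(L / 2), s ^ 2 * C ^ 4 * (2 * Real.exp (-|x|) ^ 2 + 8 / L ^ 2) := by
    refine intervalIntegral.integral_mono_on hle (i1.intervalIntegrable _ _) ?_ fun x _ => hpt x
    exact (by fun_prop : Continuous fun x : ℝ => s ^ 2 * C ^ 4 *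
      (2 * Real.exp (-|x|) ^ 2 + 8 / L ^ 2)).intervalIntegrable _ _
  refine h4.trans ?_
  rw [intervalIntegral.integral_const_mul, intervalIntegral.integral_add (i2.intervalIntegrable _ _)
    (continuous_const.intervalIntegrable _ _), intervalIntegral.integral_const_mul,
    intervalIntegral.integral_const, smul_eq_mul]
  have h5 := exp_sq_int hL0
  have h6 : (L / 2 - -(L / 2)) * (8 / L ^ 2) ≤ 1 := by
    have e : (L / 2 - -(L / 2)) * (8 / L ^ 2) = 8 / L := by field_simp; ring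
    rw [e, div_le_one hL0]
    linarith
  calc s ^ 2 * C ^ 4 * (2 * (∫ x in (-(L / 2))..(L / 2), Real.exp (-|x|) ^ 2) +
      (L / 2 - -(L / 2)) * (8 / L ^ 2)) ≤ s ^ 2 * C ^ 4 * (2 * 1 + 1) := by gcongr
    _ ≤ _ := by
      have : 0 ≤ s ^ 2 * C ^ 4 := by positivity
      nlinarith

/-- `s P1 (L/2)` -/
theorem end_le (h : Prof P P1 P2 c t0 C) {s δ T : ℝ} (hs : 0 ≤ s) (hTL : T ≤ L / 2) (hL : 0 < L)
    (hδ : ∀ x, T ≤ |x| → s * P x ≤ δ) : s * |P1 (L / 2)| ≤ C * δ := by
  have hC := h.C1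
  have h1 := h.b1 (L / 2)
  have h2 := hδ (L / 2) (by rw [abs_of_pos (by linarith)]; exact hTL)
  calc s * |P1 (L / 2)| ≤ s * (C * P (L / 2)) := by gcongr
    _ = C * (s * P (L / 2)) := by ring
    _ ≤ _ := by gcongr

/-- **the input of the circle at a sea with a polylogarithmic factor** -/
theorem HRU_P (h : Prof P P1 P2 c t0 C) : ∃ K : ℝ, 1000 ≤ K ∧
    ∀ {G T L s l δ : ℝ} {n : ℕ} {μ E E' : ℝ → ℝ}, 9 ≤ G → 0 ≤ T → L = 2 * T + 2 * G → 0 ≤ s →
      Continuous μ → C1P L E E' → ∫ x in (-(L / 2))..(L / 2), μ x ^ 2 ≤ l →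
      ∫ x in (-(L / 2))..(L / 2), E' x ^ 2 ≤ l → (∀ x, T ≤ |x| → s * P x ≤ δ) → 0 ≤ δ →
      K * L ≤ l → K * δ ≤ l → K ≤ l → 32 * Real.log n ≤ l → l ^ 22 ≤ s →
      |2 * n - mI L (fun t => s * P t + μ t)| ≤ l ^ 19 → ∀ b0 : ℝ,
      HRU n (wK G L (n ^ 2 + 1)) (cF G L (fun t => s * P t + μ t) (ce L E)) b0
        (Real.exp (60 + 8 * Real.log l)) := by
  have hC := h.C1
  have hc := h.cpos
  have ht := h.t0pos
  refine ⟨1000 + C + 10 / c + 10 * C ^ 2 / c ^ 2 + 16 / (c * t0) + 8 * C ^ 2 / (c * t0) + 1 / t0, ?_,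
    ?_⟩
  · have : 0 ≤ 10 / c + 10 * C ^ 2 / c ^ 2 + 16 / (c * t0) + 8 * C ^ 2 / (c * t0) + 1 / t0 := by
      positivity
    linarith
  intro G T L s l δ n μ E E' hG hT hLT hs hμ hE hμ2 hE2 hδ hδ0 hKL hKδ hK hn hls hm b0
  set K := 1000 + C + 10 / c + 10 * C ^ 2 / c ^ 2 + 16 / (c * t0) + 8 * C ^ 2 / (c * t0) + 1 / t0
    with hKd
  have k1 : 1000 ≤ K := by
    have : 0 ≤ 10 / c + 10 * C ^ 2 / c ^ 2 + 16 / (c * t0) + 8 * C ^ 2 / (c * t0) + 1 / t0 := by
      positivity
    linarith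
  have k2 : C ≤ K := by
    have : 0 ≤ 10 / c + 10 * C ^ 2 / c ^ 2 + 16 / (c * t0) + 8 * C ^ 2 / (c * t0) + 1 / t0 := by
      positivity
    linarith
  have k3 : 10 / c ≤ l := by
    have : 0 ≤ C + 10 * C ^ 2 / c ^ 2 + 16 / (c * t0) + 8 * C ^ 2 / (c * t0) + 1 / t0 := by
      positivity
    linarith
  have k4 : 10 * C ^ 2 / c ^ 2 ≤ l := by
    have : 0 ≤ C + 10 / c + 16 / (c * t0) + 8 * C ^ 2 / (c * t0) + 1 / t0 := by
      positivity
    linarith
  have k5 : 16 / (c * t0) ≤ l := by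
    have : 0 ≤ C + 10 / c + 10 * C ^ 2 / c ^ 2 + 8 * C ^ 2 / (c * t0) + 1 / t0 := by
      positivity
    linarith
  have k6 : 8 * C ^ 2 / (c * t0) ≤ l := by
    have : 0 ≤ C + 10 / c + 10 * C ^ 2 / c ^ 2 + 16 / (c * t0) + 1 / t0 := by
      positivity
    linarith
  have k7 : 1 / t0 ≤ l := by
    have : 0 ≤ C + 10 / c + 10 * C ^ 2 / c ^ 2 + 16 / (c * t0) + 8 * C ^ 2 / (c * t0) := by
      positivity
    linarith
  have hl : 1000 ≤ l := k1.trans hK
  have hl0 : 0 < l := by linarith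
  have hl1 : 1 ≤ l := by linarith
  have hL : 18 ≤ L := by linarith
  have hL0 : 0 < L := by linarith
  have hLl : L ≤ l := by nlinarith
  have hTL : T ≤ L / 2 := by linarith
  have hpow : ∀ i j : ℕ, i ≤ j → l ^ i ≤ l ^ j := fun i j hij => pow_le_pow_right₀ hl1 hij
  have hCδ : C * δ ≤ l := by
    refine le_trans ?_ hKδ
    gcongr
  have hδl : δ ≤ l := by nlinarith
  have hend := end_le h hs hTL hL0 hδ
  have hendl : s * |P1 (L / 2)| ≤ l := hend.trans hCδ
  have hle : -(L / 2) ≤ L / 2 := by linarith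
  have hle0 : (0:ℝ) ≤ L / 2 := by linarith
  set κ := s * P1 (L / 2) / L with hκ
  have hκl : |κ| ≤ l / L := by
    rw [hκ, abs_div, abs_mul, abs_of_nonneg hs, abs_of_pos hL0]
    gcongr
  have hPc := h.cont
  set ρ1 := rP P P1 L s with hρ1
  set ρ2 : ℝ → ℝ := fun x => κ * x ^ 2 + μ x with hρ2
  have e12 : ∀ x, s * P x + μ x = ρ1 x + ρ2 x := by
    intro x
    rw [hρ1, hρ2, hκ]
    unfold rP
    ring
  have hρ1c : Continuous ρ1 := by
    rw [hρ1]
    unfold rP
    fun_prop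
  have hρ2c : Continuous ρ2 := by
    rw [hρ2]
    fun_prop
  -- the small part
  have hx4 : ∫ x in (-(L / 2))..(L / 2), x ^ 4 ≤ L ^ 5 / 40 := by
    rw [integral_pow]
    have : 0 < L ^ 5 := by positivity
    norm_num
    nlinarith
  have h2 : ∫ x in (-(L / 2))..(L / 2), ρ2 x ^ 2 ≤ l ^ 5 := by
    have a1 : ∫ x in (-(L / 2))..(L / 2), ρ2 x ^ 2 ≤
        ∫ x in (-(L / 2))..(L / 2), (2 * κ ^ 2 * x ^ 4 + 2 * μ x ^ 2) := by
      refine intervalIntegral.integral_mono_on hle
        ((by fun_prop : Continuous fun x => ρ2 x ^ 2).intervalIntegrable _ _)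
        ((by fun_prop : Continuous fun x => 2 * κ ^ 2 * x ^ 4 + 2 * μ x ^ 2).intervalIntegrable _ _)
        fun x _ => ?_
      rw [hρ2]
      simp only
      nlinarith [sq_nonneg (κ * x ^ 2 - μ x)]
    refine a1.trans ?_
    rw [intervalIntegral.integral_add
      ((by fun_prop : Continuous fun x : ℝ => 2 * κ ^ 2 * x ^ 4).intervalIntegrable _ _)
      ((by fun_prop : Continuous fun x => 2 * μ x ^ 2).intervalIntegrable _ _),
      intervalIntegral.integral_const_mul, intervalIntegral.integral_const_mul]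
    have a2 : κ ^ 2 ≤ (l / L) ^ 2 := by
      rw [← sq_abs]
      gcongr
    have a3 : 2 * κ ^ 2 * (∫ x in (-(L / 2))..(L / 2), x ^ 4) ≤ l ^ 5 / 20 := by
      have a4 : 0 ≤ ∫ x in (-(L / 2))..(L / 2), x ^ 4 :=
        intervalIntegral.integral_nonneg hle fun x _ => by positivity
      calc 2 * κ ^ 2 * (∫ x in (-(L / 2))..(L / 2), x ^ 4) ≤ 2 * (l / L) ^ 2 * (L ^ 5 / 40) := by
            gcongr
        _ = l ^ 2 * L ^ 3 / 20 := by field_simp; ring
        _ ≤ l ^ 2 * l ^ 3 / 20 := by gcongr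
        _ = _ := by ring
    have a5 : 4 * l ≤ l ^ 5 := by
      calc 4 * l ≤ l * l := by gcongr; linarith
        _ = l ^ 2 := by ring
        _ ≤ l ^ 5 := hpow 2 5 (by norm_num)
    linarith
  have hmμ : |mI L ρ2| ≤ l ^ 3 := by
    unfold mI
    have a1 : |∫ x in (-(L / 2))..(L / 2), ρ2 x| ≤ ∫ x in (-(L / 2))..(L / 2), |ρ2 x| :=
      intervalIntegral.abs_integral_le_integral_abs hle
    have a2 : ∫ x in (-(L / 2))..(L / 2), |ρ2 x| ≤
        ∫ x in (-(L / 2))..(L / 2), (l / L * (L / 2) ^ 2 + (1 + μ x ^ 2)) := by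
      refine intervalIntegral.integral_mono_on hle
        ((by fun_prop : Continuous fun x => |ρ2 x|).intervalIntegrable _ _)
        ((by fun_prop : Continuous fun x => l / L * (L / 2) ^ 2 + (1 + μ x ^ 2)).intervalIntegrable _ _)
        fun x hx => ?_
      have b1 : x ^ 2 ≤ (L / 2) ^ 2 := by
        rw [← sq_abs]
        have : |x| ≤ L / 2 := abs_le.2 ⟨hx.1, hx.2⟩
        gcongr
      have b2 : |κ * x ^ 2| ≤ l / L * (L / 2) ^ 2 := by
        rw [abs_mul, abs_of_nonneg (sq_nonneg x)]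
        gcongr
      have b3 : |μ x| ≤ 1 + μ x ^ 2 := by
        rw [← sq_abs (μ x)]
        nlinarith [sq_nonneg (|μ x| - 1), abs_nonneg (μ x)]
      exact (abs_add_le _ _).trans (add_le_add b2 b3)
    refine a1.trans (a2.trans ?_)
    rw [intervalIntegral.integral_add (continuous_const.intervalIntegrable _ _)
      ((by fun_prop : Continuous fun x => 1 + μ x ^ 2).intervalIntegrable _ _),
      intervalIntegral.integral_add (continuous_const.intervalIntegrable _ _)
      ((by fun_prop : Continuous fun x => μ x ^ 2).intervalIntegrable _ _),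
      intervalIntegral.integral_const, intervalIntegral.integral_const, smul_eq_mul, smul_eq_mul]
    have e1 : (L / 2 - -(L / 2)) * (l / L * (L / 2) ^ 2) = l * L ^ 2 / 4 := by
      field_simp
      ring
    rw [e1]
    have b4 : l * L ^ 2 / 4 ≤ l ^ 3 / 4 := by
      have : L ^ 2 ≤ l ^ 2 := by gcongr
      nlinarith
    have b5 : 4 * l ≤ l ^ 3 := by
      calc 4 * l ≤ l * l := by gcongr; linarith
        _ = l ^ 2 := by ring
        _ ≤ l ^ 3 := hpow 2 3 (by norm_num)
    linarith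
  have hm1 : mI L (fun t => s * P t + μ t) = mI L ρ1 + mI L ρ2 := by
    unfold mI
    rw [← intervalIntegral.integral_add (hρ1c.intervalIntegrable _ _) (hρ2c.intervalIntegrable _ _)]
    exact intervalIntegral.integral_congr fun x _ => e12 x
  have hp19 : l ^ 3 ≤ l ^ 19 := hpow 3 19 (by norm_num)
  have hp20 : 1000 * l ^ 19 ≤ l ^ 20 := by
    calc 1000 * l ^ 19 ≤ l * l ^ 19 := by gcongr
      _ = _ := by ring
  have hl19 : 0 < l ^ 19 := by positivity
  have hmm : |2 * n - mI L ρ1| ≤ l ^ 20 := by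
    have e : 2 * (n : ℝ) - mI L ρ1 = (2 * n - mI L (fun t => s * P t + μ t)) + mI L ρ2 := by
      rw [hm1]; ring
    rw [e]
    refine (abs_add_le _ _).trans ?_
    linarith
  -- sizes
  have hs1 : l * l ^ 21 ≤ s := by
    refine le_trans (le_of_eq (by ring)) hls
  have hcs : 10 * l ^ 21 ≤ c * s := by
    have : 10 ≤ c * l := by
      rw [div_le_iff₀ hc] at k3
      linarith
    calc 10 * l ^ 21 ≤ c * l * l ^ 21 := by gcongr
      _ = c * (l * l ^ 21) := by ring
      _ ≤ _ := by gcongr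
  have hl21 : l ^ 20 * 1000 ≤ l ^ 21 := by
    calc l ^ 20 * 1000 ≤ l ^ 20 * l := by gcongr
      _ = _ := by ring
  have hcts : 16 * l ^ 21 ≤ c * t0 * s := by
    have : 16 ≤ c * t0 * l := by
      rw [div_le_iff₀ (by positivity)] at k5
      linarith
    calc 16 * l ^ 21 ≤ c * t0 * l * l ^ 21 := by gcongr
      _ = c * t0 * (l * l ^ 21) := by ring
      _ ≤ _ := by gcongr
  have hmlow : c * t0 * s - l ^ 3 ≤ mI L ρ1 := by
    have a1 : mI L ρ1 = mI L (fun t => s * P t) - mI L (fun t => κ * t ^ 2) := by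
      unfold mI
      rw [← intervalIntegral.integral_sub
        ((by fun_prop : Continuous fun x => s * P x).intervalIntegrable _ _)
        ((by fun_prop : Continuous fun x : ℝ => κ * x ^ 2).intervalIntegrable _ _)]
      refine intervalIntegral.integral_congr fun x _ => ?_
      rw [hρ1, hκ]
      unfold rP
      ring
    have a2 : |mI L (fun t => κ * t ^ 2)| ≤ l ^ 3 := by
      unfold mI
      rw [intervalIntegral.integral_const_mul, abs_mul, integral_pow]
      have e1 : |((L / 2) ^ (2 + 1) - (-(L / 2)) ^ (2 + 1)) / (((2 : ℕ) : ℝ) + 1)| = L ^ 3 / 12 := by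
        have : ((L / 2) ^ (2 + 1) - (-(L / 2)) ^ (2 + 1)) / (((2 : ℕ) : ℝ) + 1) = L ^ 3 / 12 := by
          push_cast
          ring
        rw [this, abs_of_pos (by positivity)]
      rw [e1]
      calc |κ| * (L ^ 3 / 12) ≤ l / L * (L ^ 3 / 12) := by gcongr
        _ = l * L ^ 2 / 12 := by field_simp
        _ ≤ l * l ^ 2 / 12 := by gcongr
        _ ≤ _ := by
          have : 0 < l ^ 3 := by positivity
          nlinarith
    have a3 : c * t0 * s ≤ mI L (fun t => s * P t) := by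
      unfold mI
      have b1 : ∫ t in (0:ℝ)..t0, s * c ≤ ∫ t in (0:ℝ)..t0, s * P t := by
        refine intervalIntegral.integral_mono_on ht.le (continuous_const.intervalIntegrable _ _)
          ((by fun_prop : Continuous fun x => s * P x).intervalIntegrable _ _) fun x hx => ?_
        have := h.low x hx.1 hx.2
        gcongr
      have b2 : ∫ t in (0:ℝ)..t0, s * P t ≤ ∫ t in (-(L / 2))..(L / 2), s * P t := by
        refine intervalIntegral.integral_mono_interval (by linarith) ht.le (by linarith [h.t0le])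
          (Eventually.of_forall fun x => ?_)
          ((by fun_prop : Continuous fun x => s * P x).intervalIntegrable _ _)
        have := h.nonneg x
        simp only [Pi.zero_apply]
        positivity
      rw [intervalIntegral.integral_const, smul_eq_mul] at b1
      linarith
    have a4 := abs_le.1 a2
    rw [a1]
    linarith [a4.1, a4.2]
  have hmm' := abs_le.1 hmm
  have hnlow : c * t0 * s / 4 ≤ n := by
    have : l ^ 3 ≤ l ^ 20 := hpow 3 20 (by norm_num)
    linarith [hmm'.1, hmm'.2]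
  have hnl : l ^ 21 ≤ n := by linarith
  have hn1r : (1 : ℝ) ≤ n := le_trans (one_le_pow₀ hl1) hnl
  have hn1 : 1 ≤ n := by exact_mod_cast hn1r
  have hln : l ≤ n := by
    refine le_trans ?_ hnl
    calc l = l ^ 1 := (pow_one l).symm
      _ ≤ l ^ 21 := hpow 1 21 (by norm_num)
  -- near 0
  have near : ∀ t, 0 ≤ t → t ≤ t0 → |ρ1 t - s * P t| ≤ l := by
    intro t h3 h4
    have e : ρ1 t - s * P t = -(κ * t ^ 2) := by
      rw [hρ1, hκ]
      unfold rP
      ring
    rw [e, abs_neg, abs_mul, abs_of_nonneg (sq_nonneg t)]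
    have h5 : t ^ 2 ≤ 1 := by
      have := h.t0le
      nlinarith
    calc |κ| * t ^ 2 ≤ l / L * 1 := by gcongr
      _ ≤ l := by
        rw [mul_one]
        exact div_le_self hl0.le (by linarith)
  have hls' : l ≤ l ^ 21 / 1000 := by
    have : l ^ 1 ≤ l ^ 20 := hpow 1 20 (by norm_num)
    rw [pow_one] at this
    linarith
  refine HRU_sea (G := G) (L := L) (l := l) hG (by linarith) hl hLl n hn1 ?_
    (ρ := fun t => s * P t + μ t) (ρ1 := ρ1) (ρ2 := ρ2)
    (by fun_prop) (rP_C1P h s) (rP1_C1P h hL0 s) ?_ hρ2c.continuousOn (fun x _ => e12 x) h2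
    (f := ce L E) ?_ (H := 2 * C ^ 2 * s) (p0 := 4 / 5 * (c * s)) (rP2_int h hL hs) (by positivity)
    ?_ ?_ ?_ (t0 := t0) ?_ h.t0le ?_ ?_ hmm b0
  · -- n ^ 4
    have h3 : (n : ℝ) ^ 4 = Real.exp (4 * Real.log n) := by
      rw [show (4 : ℝ) * Real.log n = ((4 : ℕ) : ℝ) * Real.log n by norm_num, Real.exp_nat_mul,
        Real.exp_log (by linarith)]
    rw [h3]
    exact Real.exp_le_exp.2 (by linarith)
  · intro x
    rw [hρ1]
    unfold rP
    rw [h.even]
    ring
  · intro K'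
    have h3 := bessel1 hL0 hE K'
    have hpi := Real.pi_gt_three
    refine (Finset.sum_le_sum fun p _ => ?_).trans (h3.trans ?_)
    · unfold ce
      rw [mul_pow, mul_pow]
      exact mul_le_mul_of_nonneg_left (re_sq_le _) (by positivity)
    · have h4 : L / (8 * π ^ 2) ≤ l := by
        refine (div_le_self hL0.le ?_).trans hLl
        nlinarith
      have h5 : 0 ≤ ∫ x in (-(L / 2))..(L / 2), E' x ^ 2 :=
        intervalIntegral.integral_nonneg hle fun x _ => sq_nonneg _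
      calc L / (8 * π ^ 2) * ∫ x in (-(L / 2))..(L / 2), E' x ^ 2 ≤ l * l := by gcongr
        _ = l ^ 2 := by ring
        _ ≤ _ := hpow 2 5 (by norm_num)
  · -- H ≤ n ^ 4
    have h3 : 8 * C ^ 2 ≤ c * t0 * l := by
      rw [div_le_iff₀ (by positivity)] at k6
      linarith
    have h4 : l ^ 3 ≤ (n : ℝ) ^ 3 := by gcongr
    calc 2 * C ^ 2 * s = 8 * C ^ 2 * s / 4 := by ring
      _ ≤ c * t0 * l * s / 4 := by gcongr
      _ = l * (c * t0 * s / 4) := by ring
      _ ≤ l ^ 3 * (c * t0 * s / 4) := by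
        have : l ≤ l ^ 3 := by
          calc l = l ^ 1 := (pow_one l).symm
            _ ≤ l ^ 3 := hpow 1 3 (by norm_num)
        gcongr
      _ ≤ (n : ℝ) ^ 3 * n := by gcongr
      _ = _ := by ring
  · -- H l ^ 3 ≤ p0 ^ 2
    have h3 : 10 * C ^ 2 ≤ c ^ 2 * l := by
      rw [div_le_iff₀ (by positivity)] at k4
      linarith
    have h4 : l ^ 4 ≤ s := (hpow 4 22 (by norm_num)).trans hls
    calc 2 * C ^ 2 * s * l ^ 3 = 10 * C ^ 2 * (s * l ^ 3) / 5 := by ring
      _ ≤ c ^ 2 * l * (s * l ^ 3) / 5 := by gcongr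
      _ = c ^ 2 * s * l ^ 4 / 5 := by ring
      _ ≤ c ^ 2 * s * s / 5 := by gcongr
      _ ≤ _ := by
        have : 0 ≤ c ^ 2 * s * s := by positivity
        nlinarith
  · -- l ^ 21 ≤ p0
    have : 0 < l ^ 21 := by positivity
    linarith
  · rw [div_le_iff₀ hl0]
    rw [div_le_iff₀ ht] at k7
    linarith
  · intro t h3 h4
    have h5 := abs_le.1 (near t h3 h4)
    have h6 := h.low t h3 h4
    have h7 := h.up t h3 h4
    have h8 : s * c ≤ s * P t := by gcongr
    have h9 : s * P t ≤ s * (3 * c) := by gcongr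
    constructor <;> linarith [h5.1, h5.2]
  · intro t h3 h4
    have h5 : T ≤ |t| := by
      rw [abs_of_nonneg (by linarith)]
      linarith
    have h6 := hδ t h5
    have h7 : 0 ≤ s * P t := by
      have := h.nonneg t
      positivity
    have e : ρ1 t = s * P t - κ * t ^ 2 := by
      rw [hρ1, hκ]
      unfold rP
      ring
    have h8 : |κ * t ^ 2| ≤ l ^ 2 := by
      rw [abs_mul, abs_of_nonneg (sq_nonneg t)]
      have h9 : t ^ 2 ≤ (L / 2) ^ 2 := by
        have : 0 ≤ t := by linarith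
        gcongr
      calc |κ| * t ^ 2 ≤ l / L * (L / 2) ^ 2 := by gcongr
        _ = l * L / 4 := by field_simp; ring
        _ ≤ l * l := by nlinarith
        _ = _ := by ring
    have h10 := abs_le.1 h8
    have h11 : l ^ 2 ≤ l ^ 18 := hpow 2 18 (by norm_num)
    have h12 : l ≤ l ^ 18 := by
      calc l = l ^ 1 := (pow_one l).symm
        _ ≤ l ^ 18 := hpow 1 18 (by norm_num)
    have h13 : 1000 * l ^ 18 ≤ l ^ 19 := by
      calc 1000 * l ^ 18 ≤ l * l ^ 18 := by gcongr
        _ = _ := by ring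
    rw [e, abs_le]
    constructor <;> linarith [h10.1, h10.2]

end

end

end Pool.Agent.FSz.Tau
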