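import Pool.Agent.FSz.TauW

/-!
# The universal error factor of the folded circular gas
-/

open MeasureTheory Set Filter Topology ProbabilityTheory
open scoped Real NNReal ENNReal

namespace Pool.Agent.FSz.Tau

open NUMF NUC62 NUWC

noncomputable section

/-- the number `W` -/
def WW (Λ : ℝ) : ℝ := Λ ^ 2 + 16 * Λ + 26

/-- the universal factor -/
def TU (Λ : ℝ) (K1 n : ℕ) (B : ℝ) : ℝ :=
  (1 + π / 2 * (2 * n + 1 + 2 * ((2 * Λ + 4 * π) * B + WW Λ * NW Λ K1))) * NW Λ K1 * Real.exp 15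

theorem cT_eq {w c : ℕ → ℝ} {k : ℕ} (h : 0 < 1 - kap w k) :
    cT w c k = (c k - ek k / (k + 1) * kap w k) * (1 - kap w k)⁻¹ := by
  unfold cT
  have hk : (0 : ℝ) < (k : ℝ) + 1 := by positivity
  field_simp
  ring

theorem ek_nonneg (k : ℕ) : 0 ≤ ek k := by
  unfold ek
  split_ifs <;> norm_num

theorem ek_le (k : ℕ) : ek k ≤ 1 := by
  unfold ek
  split_ifs <;> norm_num

theorem kap_nonneg {G Λ : ℝ} (hG : 9 ≤ G) (hΛ : 0 < Λ) (K1 k : ℕ) : 0 ≤ kap (wK G Λ K1) k := by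
  have := wK_nonneg (G := G) (by linarith) hΛ K1 k
  unfold kap
  positivity

theorem cT_le {G Λ : ℝ} (hG : 9 ≤ G) (hΛ : 0 < Λ) (K1 : ℕ) (c : ℕ → ℝ) (k : ℕ) :
    ((k : ℝ) + 1) * |cT (wK G Λ K1) c k| ≤ (2 * Λ + 4 * π) * (((k : ℝ) + 1) * |c k|) +
      ((k : ℝ) + 1) * (vT (wK G Λ K1) k : ℝ) := by
  have hpi := Real.pi_pos
  obtain ⟨h1, h2⟩ := inv_kap hG hΛ K1 k
  have h3 := kap_nonneg hG hΛ K1 k
  have hk : (0 : ℝ) < (k : ℝ) + 1 := by positivity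
  have hi : 0 < (1 - kap (wK G Λ K1) k)⁻¹ := inv_pos.2 h1
  have h4 : (1 - kap (wK G Λ K1) k)⁻¹ ≤ 2 * Λ + 4 * π := by
    refine h2.trans ?_
    have : 2 * Λ / ((k : ℝ) + 1) ≤ 2 * Λ := by
      apply div_le_self (by positivity)
      have : (0:ℝ) ≤ k := Nat.cast_nonneg k
      linarith
    linarith
  have h5 : |c k - ek k / (k + 1) * kap (wK G Λ K1) k| ≤
      |c k| + 1 / (k + 1) * kap (wK G Λ K1) k := by
    refine (abs_sub _ _).trans ?_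
    rw [abs_of_nonneg (a := ek k / (k + 1) * kap (wK G Λ K1) k)
      (mul_nonneg (div_nonneg (ek_nonneg k) hk.le) h3)]
    gcongr
    exact ek_le k
  rw [cT_eq h1, abs_mul, abs_of_pos hi, vT_eq hG hΛ]
  calc ((k : ℝ) + 1) * (|c k - ek k / (k + 1) * kap (wK G Λ K1) k| *
      (1 - kap (wK G Λ K1) k)⁻¹) ≤
      ((k : ℝ) + 1) * ((|c k| + 1 / (k + 1) * kap (wK G Λ K1) k) *
        (1 - kap (wK G Λ K1) k)⁻¹) := by gcongr
    _ = (1 - kap (wK G Λ K1) k)⁻¹ * (((k : ℝ) + 1) * |c k|) +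
        kap (wK G Λ K1) k * (1 - kap (wK G Λ K1) k)⁻¹ := by
      field_simp
    _ ≤ (2 * Λ + 4 * π) * (((k : ℝ) + 1) * |c k|) +
        kap (wK G Λ K1) k * (1 - kap (wK G Λ K1) k)⁻¹ := by gcongr
    _ = _ := by
      congr 1
      unfold kap
      ring

theorem vT_sum' {G Λ : ℝ} (hG : 9 ≤ G) (hΛ : 0 < Λ) (K1 K : ℕ) :
    ∑ k : Fin K, ((k : ℕ) + 1 : ℝ) * (vT (wK G Λ K1) k : ℝ) ≤ WW Λ * NW Λ K1 := by
  have hW0 : 0 ≤ WW Λ := by unfold WW; positivity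
  have hW1 : 1 ≤ WW Λ := by unfold WW; nlinarith [sq_nonneg Λ]
  have h1 : ∀ k : Fin K, ((k : ℕ) + 1 : ℝ) * (vT (wK G Λ K1) k : ℝ) ≤
      WW Λ * (((k : ℕ) + 1 : ℝ) * √(vT (wK G Λ K1) k : ℝ)) := by
    intro k
    have h2 := vT_le hG hΛ K1 (k : ℕ)
    have h3 : (0 : ℝ) ≤ (vT (wK G Λ K1) k : ℝ) := NNReal.coe_nonneg _
    have h4 : √(vT (wK G Λ K1) k : ℝ) ≤ WW Λ := by
      apply sqrt_le_self hW1
      refine h2.trans ?_
      have h5 : (16 * Λ + Λ ^ 2) / (((k : ℕ) : ℝ) + 1) ^ 2 ≤ 16 * Λ + Λ ^ 2 := by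
        apply div_le_self (by positivity)
        have : (0:ℝ) ≤ ((k : ℕ) : ℝ) := Nat.cast_nonneg _
        nlinarith
      unfold WW
      linarith
    calc ((k : ℕ) + 1 : ℝ) * (vT (wK G Λ K1) k : ℝ) =
        ((k : ℕ) + 1 : ℝ) * (√(vT (wK G Λ K1) k : ℝ) * √(vT (wK G Λ K1) k : ℝ)) := by
          rw [Real.mul_self_sqrt h3]
      _ ≤ ((k : ℕ) + 1 : ℝ) * (WW Λ * √(vT (wK G Λ K1) k : ℝ)) := by gcongr
      _ = _ := by ring
  refine (Finset.sum_le_sum fun k _ => h1 k).trans ?_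
  rw [← Finset.mul_sum]
  exact mul_le_mul_of_nonneg_left (vT_sum hG hΛ K1 K) hW0

theorem BT_cT_le {G Λ : ℝ} (hG : 9 ≤ G) (hΛ : 0 < Λ) (K1 n : ℕ) {c : ℕ → ℝ} {B : ℝ} (K : ℕ)
    (hB : ∑ k ∈ Finset.range K, ((k : ℝ) + 1) * |c k| ≤ B) :
    BT n (fun k : Fin K => cT (wK G Λ K1) c k) ≤
      2 * n + 1 + 2 * ((2 * Λ + 4 * π) * B + WW Λ * NW Λ K1) := by
  have hpi := Real.pi_pos
  unfold BT
  have h1 : ∑ k : Fin K, ((k : ℕ) + 1 : ℝ) * |cT (wK G Λ K1) c k| ≤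
      (2 * Λ + 4 * π) * B + WW Λ * NW Λ K1 := by
    have h0 : ∑ k : Fin K, ((k : ℕ) + 1 : ℝ) * |cT (wK G Λ K1) c k| ≤
        ∑ k : Fin K, ((2 * Λ + 4 * π) * (((k : ℕ) + 1 : ℝ) * |c k|) +
          ((k : ℕ) + 1 : ℝ) * (vT (wK G Λ K1) k : ℝ)) :=
      Finset.sum_le_sum fun k _ => cT_le hG hΛ K1 c (k : ℕ)
    refine h0.trans ?_
    rw [Finset.sum_add_distrib, ← Finset.mul_sum]
    have h2 := vT_sum' hG hΛ K1 K
    have h3 : ∑ k : Fin K, ((k : ℕ) + 1 : ℝ) * |c k| ≤ B := by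
      rw [Fin.sum_univ_eq_sum_range (fun k => ((k : ℝ) + 1) * |c k|) K]
      exact hB
    gcongr
  linarith

/-- **universal error factor** -/
theorem tau_univ {G Λ : ℝ} (hG : 9 ≤ G) (hΛ : 0 < Λ) (n : ℕ) {K1 : ℕ} (hK1 : 1 ≤ K1)
    {c : ℕ → ℝ} {B : ℝ} (K : ℕ) (hB : ∑ k ∈ Finset.range K, ((k : ℝ) + 1) * |c k| ≤ B) :
    ∫⁻ x : Fin K → ℝ,
      ENNReal.ofReal (Real.exp (TT n fun k : Fin K => cT (wK G Λ K1) c k + x k))
        ∂(Measure.pi fun k : Fin K => gaussianReal 0 (vT (wK G Λ K1) k)) ≤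
      ENNReal.ofReal (TU Λ K1 n B) := by
  have hpi := Real.pi_pos
  have hN := NW_ge hΛ hK1
  have h1 := avg_univ n (vT (wK G Λ K1)) hN (fun k : Fin K => cT (wK G Λ K1) c k)
    (vT_sum hG hΛ K1 K)
  refine h1.trans (ENNReal.ofReal_le_ofReal ?_)
  unfold TU
  have h2 := BT_cT_le hG hΛ K1 n K hB
  gcongr

theorem TU_pos {Λ : ℝ} (hΛ : 0 < Λ) {K1 : ℕ} (hK1 : 1 ≤ K1) (n : ℕ) {B : ℝ} (hB : 0 ≤ B) :
    0 < TU Λ K1 n B := by
  have hpi := Real.pi_pos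
  have hN := NW_ge hΛ hK1
  have hW : 0 ≤ WW Λ := by unfold WW; positivity
  unfold TU
  positivity

/-- the circle input with the universal factor -/
theorem HRU_univ {G Λ : ℝ} (hG : 9 ≤ G) (hΛ : 0 < Λ) (n : ℕ) {K1 : ℕ} (hK1 : 1 ≤ K1)
    {c : ℕ → ℝ} {B : ℝ} (hc : Summable fun k => |c k|)
    (hB : ∀ K, ∑ k ∈ Finset.range K, ((k : ℝ) + 1) * |c k| ≤ B) (a0 : ℝ) :
    HRU n (wK G Λ K1) c a0 (TU Λ K1 n B) := by
  have hB0 : 0 ≤ B := by simpa using hB 0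
  have hT := TU_pos hΛ hK1 n hB0
  have h := HRU_of (n := n) (w := wK G Λ K1) (fun k => wK_nonneg (by linarith) hΛ K1 k)
    (fun k => by
      have := (inv_kap hG hΛ K1 k).1
      unfold kap at this
      linarith) (summable_wK (by linarith) hΛ K1) hc a0 (Real.log (TU Λ K1 n B)) 0
    (fun K _ => by
      rw [Real.exp_log hT]
      exact tau_univ hG hΛ n hK1 K (hB K))
  rwa [Real.exp_log hT] at h

end

end Pool.Agent.FSz.Tau
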