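import Pool.Agent.TC.WallA

/-!
# The wall of the folded gas on the circle: self energy and cross term

* `wall_self` (W1): `∑ (L wz² / (2 uh) - pr / (2 (p+1))) ≤ eG G L` for every cut;
* `XW G L f = ∑ L f wz / uh`: cross term of a field with the wall; `XW_le` (W2):
  `|XW f| ≤ (|Cser f 0| + |Cser f π|) / 4 + 6 √(QFr f)`.
-/

set_option autoImplicit false

open MeasureTheory Set Filter Topology
open scoped Real

namespace TCW

open Pool.Agent.FSz NUC62 NUMF NUWC

noncomputable section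

variable {G L : ℝ}

/-- one loop factor -/
def Dk (G L : ℝ) (p : ℕ) : ℝ := NUC62.kp L p / (2 * π) * uh G (NUC62.kp L p)

lemma y_eq (hL : 0 < L) (p : ℕ) : π * NUC62.kp L p / 8 = sw L * (p + 1) := by
  unfold NUC62.kp sw
  field_simp
  ring

lemma y_pos (hL : 0 < L) (p : ℕ) : 0 < sw L * ((p : ℝ) + 1) := by
  have := sw_pos hL
  positivity

lemma D_eq (hL : 0 < L) (p : ℕ) : Dk G L p = NUC62.R (sw L * (p + 1)) -
    NUC62.kp L p / (2 * π) * RGh G (NUC62.kp L p) := by
  have hk := NUC62.kp_pos hL p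
  have hpi := Real.pi_pos
  unfold Dk uh Vh
  rw [y_eq hL]
  field_simp

lemma x_nonneg (G : ℝ) {k : ℝ} (hk : 0 < k) : 0 ≤ eG G / (1 + k) := by
  unfold eG
  positivity

lemma D_ge (hG : 9 ≤ G) (hL : 0 < L) (p : ℕ) :
    (1 - eG G / (1 + NUC62.kp L p)) * Real.tanh (sw L * (p + 1) / 2) ≤ Dk G L p := by
  have hk := NUC62.kp_pos hL p
  have hpi := Real.pi_pos
  have h1 := uh_ge hG hk
  have h2 := ratio_half hG hk
  have h3 := R_ge (y_pos hL p)
  unfold Dk
  calc (1 - eG G / (1 + NUC62.kp L p)) * Real.tanh (sw L * (p + 1) / 2) ≤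
      (1 - eG G / (1 + NUC62.kp L p)) * NUC62.R (sw L * (p + 1)) :=
        mul_le_mul_of_nonneg_left h3 (by linarith)
    _ = NUC62.kp L p / (2 * π) * ((1 - eG G / (1 + NUC62.kp L p)) * Vh (NUC62.kp L p)) := by
        unfold Vh
        rw [y_eq hL]
        field_simp
    _ ≤ _ := by gcongr

lemma tanh_pos' {y : ℝ} (hy : 0 < y) : 0 < Real.tanh y := by
  rw [Real.tanh_eq_sinh_div_cosh]
  exact div_pos (Real.sinh_pos_iff.2 hy) (Real.cosh_pos _)

lemma D_ge2 (hG : 9 ≤ G) (hL : 0 < L) (p : ℕ) :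
    1 / 2 * Real.tanh (sw L * (p + 1) / 2) ≤ Dk G L p := by
  have h1 := D_ge hG hL p
  have h2 := ratio_half hG (NUC62.kp_pos hL p)
  have h3 := (tanh_pos' (y := sw L * (p + 1) / 2) (by have := y_pos hL p; linarith)).le
  nlinarith

lemma D_pos (hG : 9 ≤ G) (hL : 0 < L) (p : ℕ) : 0 < Dk G L p := by
  have h1 := D_ge2 hG hL p
  have h3 := tanh_pos' (y := sw L * (p + 1) / 2) (by have := y_pos hL p; linarith)
  linarith

/-- `tanh (y/2) = (1 - e^{-y}) / (1 + e^{-y})` -/
lemma tanh_half (y : ℝ) : Real.tanh (y / 2) = (1 - Real.exp (-y)) / (1 + Real.exp (-y)) := by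
  rw [Real.tanh_eq_sinh_div_cosh, Real.sinh_eq, Real.cosh_eq]
  have h1 : Real.exp (-y) = Real.exp (-(y / 2)) / Real.exp (y / 2) := by
    rw [← Real.exp_sub]
    congr 1
    ring
  rw [h1]
  have := Real.exp_pos (y / 2)
  have := Real.exp_pos (-(y / 2))
  field_simp

lemma L_div_uh (hG : 9 ≤ G) (hL : 0 < L) (p : ℕ) :
    L / uh G (NUC62.kp L p) = ((p : ℝ) + 1) / Dk G L p := by
  have hk := NUC62.kp_pos hL p
  have hpi := Real.pi_pos
  have hu := uh_pos hG hk
  have hD : Dk G L p = ((p : ℝ) + 1) / L * uh G (NUC62.kp L p) := by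
    unfold Dk NUC62.kp
    field_simp
  rw [hD]
  have hp : (0 : ℝ) < (p : ℝ) + 1 := by positivity
  field_simp

/-- one term of the self energy -/
lemma self_term (hG : 9 ≤ G) (hL : 0 < L) (p : ℕ) :
    L * wz L p ^ 2 / (2 * uh G (NUC62.kp L p)) - pr p / (2 * (p + 1)) ≤
      eG G * L / (2 * π) * (1 / ((p : ℝ) + 1) ^ 2) := by
  have hk := NUC62.kp_pos hL p
  have hpi := Real.pi_pos
  have hu := uh_pos hG hk
  have hp : (0 : ℝ) < (p : ℝ) + 1 := by positivity
  have he : 0 ≤ eG G := by unfold eG; positivity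
  have hy := y_pos hL p
  set y := sw L * ((p : ℝ) + 1) with hyd
  set ρ := Real.exp (-y) with hρ
  have hρ0 : 0 < ρ := Real.exp_pos _
  have hρ1 : ρ < 1 := Real.exp_lt_one_iff.2 (by linarith)
  have hD := D_ge hG hL p
  have hD0 := D_pos hG hL p
  set x := eG G / (1 + NUC62.kp L p) with hx
  have hx0 : 0 ≤ x := x_nonneg G hk
  have hx1 : x ≤ 1 / 2 := ratio_half hG hk
  rw [← hyd, tanh_half y, ← hρ] at hD
  have hwz : wz L p = pr p * (1 - ρ) / (p + 1) := rfl
  have h1 : L * wz L p ^ 2 / (2 * uh G (NUC62.kp L p)) =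
      pr p * ((1 - ρ) ^ 2 / Dk G L p) * (1 / (2 * (p + 1))) := by
    have e1 : L * wz L p ^ 2 / (2 * uh G (NUC62.kp L p)) =
        (L / uh G (NUC62.kp L p)) * wz L p ^ 2 / 2 := by
      field_simp
    rw [e1, L_div_uh hG hL, hwz, div_pow, mul_pow, pr_sq]
    field_simp
  have h2 : (1 - ρ) ^ 2 / Dk G L p ≤ 1 + 2 * x := by
    rw [div_le_iff₀ hD0]
    have h3 : (1 - ρ) ^ 2 ≤ (1 + 2 * x) * ((1 - x) * ((1 - ρ) / (1 + ρ))) := by
      have h4 : 1 ≤ (1 + 2 * x) * (1 - x) := by nlinarith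
      have h5 : (1 - ρ) ^ 2 ≤ (1 - ρ) / (1 + ρ) := by
        rw [le_div_iff₀ (by linarith)]
        have : (1 - ρ) ^ 2 * (1 + ρ) = (1 - ρ) * (1 - ρ ^ 2) := by ring
        rw [this]
        have : 1 - ρ ^ 2 ≤ 1 := by nlinarith
        nlinarith
      have h6 : 0 ≤ (1 - ρ) / (1 + ρ) := div_nonneg (by linarith) (by linarith)
      calc (1 - ρ) ^ 2 ≤ (1 - ρ) / (1 + ρ) := h5
        _ = 1 * ((1 - ρ) / (1 + ρ)) := (one_mul _).symm
        _ ≤ ((1 + 2 * x) * (1 - x)) * ((1 - ρ) / (1 + ρ)) := by gcongr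
        _ = _ := by ring
    refine h3.trans ?_
    gcongr
  have h3 : L * wz L p ^ 2 / (2 * uh G (NUC62.kp L p)) - pr p / (2 * (p + 1)) ≤
      pr p * (2 * x) * (1 / (2 * (p + 1))) := by
    rw [h1]
    have h4 := pr_nonneg p
    have h5 : pr p * ((1 - ρ) ^ 2 / Dk G L p) * (1 / (2 * ((p : ℝ) + 1))) ≤
        pr p * (1 + 2 * x) * (1 / (2 * ((p : ℝ) + 1))) := by gcongr
    have h6 : pr p * (1 + 2 * x) * (1 / (2 * ((p : ℝ) + 1))) - pr p / (2 * (p + 1)) =
        pr p * (2 * x) * (1 / (2 * (p + 1))) := by ring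
    linarith
  refine h3.trans ?_
  have h7 : x ≤ eG G * L / (2 * π) * (1 / ((p : ℝ) + 1)) := by
    have : eG G * L / (2 * π) * (1 / ((p : ℝ) + 1)) = eG G / NUC62.kp L p := by
      unfold NUC62.kp
      field_simp
    rw [this, hx]
    gcongr
    linarith
  have h8 := pr_le p
  have h9 := pr_nonneg p
  calc pr p * (2 * x) * (1 / (2 * ((p : ℝ) + 1))) ≤ 1 * (2 * (eG G * L / (2 * π) * (1 / ((p : ℝ) + 1)))) *
        (1 / (2 * ((p : ℝ) + 1))) := by gcongr
    _ = _ := by
      field_simp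

lemma sum_inv_sq' (K : ℕ) :
    ∑ p ∈ Finset.range (K + 1), 1 / ((p : ℝ) + 1) ^ 2 ≤ 2 - 1 / ((K : ℝ) + 1) := by
  induction K with
  | zero => norm_num
  | succ K ih =>
    rw [Finset.sum_range_succ]
    have hK : (0 : ℝ) ≤ K := Nat.cast_nonneg K
    have h : 1 / (((K + 1 : ℕ) : ℝ) + 1) ^ 2 ≤ 1 / ((K : ℝ) + 1) - 1 / (((K + 1 : ℕ) : ℝ) + 1) := by
      push_cast
      rw [div_sub_div _ _ (by positivity) (by positivity), div_le_div_iff₀ (by positivity) (by positivity)]
      nlinarith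
    linarith

lemma sum_inv_sq (K : ℕ) : ∑ p ∈ Finset.range K, 1 / ((p : ℝ) + 1) ^ 2 ≤ 2 := by
  cases K with
  | zero => norm_num
  | succ K =>
    have h1 := sum_inv_sq' K
    have h2 : 0 ≤ 1 / ((K : ℝ) + 1) := by positivity
    linarith

/-- **(W1) self energy of the wall** -/
theorem wall_self (hG : 9 ≤ G) (hL : 0 < L) (K : ℕ) :
    ∑ p ∈ Finset.range K, (L * wz L p ^ 2 / (2 * uh G (NUC62.kp L p)) - pr p / (2 * (p + 1))) ≤
      eG G * L := by
  have hpi := Real.pi_gt_three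
  have he : 0 ≤ eG G := by unfold eG; positivity
  refine (Finset.sum_le_sum fun p _ => self_term hG hL p).trans ?_
  rw [← Finset.mul_sum]
  calc eG G * L / (2 * π) * ∑ p ∈ Finset.range K, 1 / ((p : ℝ) + 1) ^ 2 ≤
      eG G * L / (2 * π) * 2 := by
        gcongr
        exact sum_inv_sq K
    _ = eG G * L * (1 / π) := by field_simp
    _ ≤ eG G * L * 1 := by
        gcongr
        rw [div_le_one (by linarith)]
        linarith
    _ = _ := mul_one _

/-! ### the cross term -/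

/-- cross term of a field with the wall -/
def XW (G L : ℝ) (f : ℕ → ℝ) : ℝ := ∑' p, L * f p * wz L p / uh G (NUC62.kp L p)

/-- quadratic energy of a real field -/
def QFr (G L : ℝ) (f : ℕ → ℝ) : ℝ := ∑' p, L * f p ^ 2 / uh G (NUC62.kp L p)

lemma xw_term (hG : 9 ≤ G) (hL : 0 < L) (f : ℕ → ℝ) (p : ℕ) :
    L * f p * wz L p / uh G (NUC62.kp L p) =
      f p * (pr p * (1 - Real.exp (-(sw L * (p + 1)))) / Dk G L p) := by
  have hu := uh_pos hG (NUC62.kp_pos hL p)
  have hp : (0 : ℝ) < (p : ℝ) + 1 := by positivity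
  have hD := D_pos hG hL p
  have e1 : L * f p * wz L p / uh G (NUC62.kp L p) = (L / uh G (NUC62.kp L p)) * f p * wz L p := by
    field_simp
  rw [e1, L_div_uh hG hL]
  unfold wz
  field_simp

/-- the multiplier of the wall is at most `4` -/
lemma mult_le (hG : 9 ≤ G) (hL : 0 < L) (p : ℕ) :
    |pr p * (1 - Real.exp (-(sw L * (p + 1)))) / Dk G L p| ≤ 4 := by
  have hD := D_pos hG hL p
  have hD2 := D_ge2 hG hL p
  have hy := y_pos hL p
  rw [tanh_half] at hD2
  set ρ := Real.exp (-(sw L * ((p : ℝ) + 1))) with hρ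
  have hρ0 : 0 < ρ := Real.exp_pos _
  have hρ1 : ρ < 1 := Real.exp_lt_one_iff.2 (by linarith)
  have h1 := pr_nonneg p
  have h2 := pr_le p
  rw [abs_of_nonneg (div_nonneg (mul_nonneg h1 (by linarith)) hD.le), div_le_iff₀ hD]
  have h3 : 1 - ρ ≤ 4 * (1 / 2 * ((1 - ρ) / (1 + ρ))) := by
    have : 4 * (1 / 2 * ((1 - ρ) / (1 + ρ))) = 2 * (1 - ρ) / (1 + ρ) := by ring
    rw [this, le_div_iff₀ (by linarith)]
    nlinarith
  calc pr p * (1 - ρ) ≤ 1 * (1 - ρ) := mul_le_mul_of_nonneg_right h2 (by linarith)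
    _ = 1 - ρ := one_mul _
    _ ≤ 4 * (1 / 2 * ((1 - ρ) / (1 + ρ))) := h3
    _ ≤ 4 * Dk G L p := by gcongr

lemma XW_summable (hG : 9 ≤ G) (hL : 0 < L) {f : ℕ → ℝ} (hf : Summable fun p => |f p|) :
    Summable fun p => L * f p * wz L p / uh G (NUC62.kp L p) := by
  refine Summable.of_norm_bounded (hf.mul_left 4) fun p => ?_
  rw [Real.norm_eq_abs, xw_term hG hL, abs_mul, mul_comm]
  exact mul_le_mul_of_nonneg_right (mult_le hG hL p) (abs_nonneg _)

lemma XW_add (hG : 9 ≤ G) (hL : 0 < L) {f g : ℕ → ℝ} (hf : Summable fun p => |f p|)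
    (hg : Summable fun p => |g p|) : XW G L (fun p => f p + g p) = XW G L f + XW G L g := by
  unfold XW
  rw [← (XW_summable hG hL hf).tsum_add (XW_summable hG hL hg)]
  congr 1
  funext p
  ring

lemma XW_smul (f : ℕ → ℝ) (x : ℝ) : XW G L (fun p => x * f p) = x * XW G L f := by
  unfold XW
  rw [← tsum_mul_left]
  congr 1
  funext p
  ring

/-- the loop factor is at most one -/
lemma D_le (hG : 9 ≤ G) (hL : 0 < L) (p : ℕ) : Dk G L p ≤ NUC62.R (sw L * (p + 1)) := by
  have hk := NUC62.kp_pos hL p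
  rw [D_eq hL]
  have := RGh_nonneg (by linarith : 1 ≤ G) (NUC62.kp L p)
  have : 0 ≤ NUC62.kp L p / (2 * π) * RGh G (NUC62.kp L p) := by positivity
  linarith

lemma R_small {y : ℝ} (hy : 0 < y) : NUC62.R y ≤ 9 / 4 * y := by
  unfold NUC62.R
  have h0 : 0 < Real.tanh (y / 2) := tanh_pos' (by linarith)
  have h1 : Real.tanh (y / 2) ≤ y := by
    rw [tanh_half]
    have h2 := Real.exp_pos (-y)
    have h3 := Real.add_one_le_exp (-y)
    rw [div_le_iff₀ (by linarith)]
    nlinarith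
  have h4 : 1 / (2 * Real.cosh (2 * y)) ≤ 1 / 2 := by
    have := Real.one_le_cosh (2 * y)
    exact one_div_le_one_div_of_le (by norm_num) (by linarith)
  have h5 : 1 / (2 * Real.cosh y) ≤ 1 / 2 := by
    have := Real.one_le_cosh y
    exact one_div_le_one_div_of_le (by norm_num) (by linarith)
  have h6 : 0 ≤ 1 / (2 * Real.cosh (2 * y)) := by
    have := Real.cosh_pos (2 * y)
    positivity
  have h7 : 0 ≤ 1 / (2 * Real.cosh y) := by
    have := Real.cosh_pos y
    positivity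
  calc Real.tanh (y / 2) * (1 + 1 / (2 * Real.cosh (2 * y))) * (1 + 1 / (2 * Real.cosh y)) ≤
      y * (1 + 1 / 2) * (1 + 1 / 2) := by gcongr
    _ = _ := by ring

/-- error of the multiplier -/
lemma mult_err (hG : 9 ≤ G) (hL : 0 < L) (p : ℕ) :
    (1 - Real.exp (-(sw L * (p + 1))) - Dk G L p) ^ 2 / Dk G L p ≤
      61 * (sw L * (p + 1) / (1 + (sw L * (p + 1)) ^ 2)) := by
  have hk := NUC62.kp_pos hL p
  have hpi := Real.pi_pos
  have hpi3 := Real.pi_gt_three
  have hpi4 := Real.pi_lt_four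
  have hD := D_pos hG hL p
  have hD2 := D_ge2 hG hL p
  have hDR := D_le hG hL p
  have hy := y_pos hL p
  have hyk := y_eq hL p
  have hx1 := ratio_half hG hk
  have hRG := RGh_small (by linarith : 1 ≤ G) hk
  have hDe := D_eq (G := G) hL p
  have hR1 := R_le_one hy
  have hR2 := R_small hy
  have hR3 := R_ge hy
  have hT := tanh_ge (z := sw L * ((p : ℝ) + 1) / 2) (by linarith)
  have hTh := tanh_half (sw L * ((p : ℝ) + 1))
  set y := sw L * ((p : ℝ) + 1) with hyd
  set ρ := Real.exp (-y) with hρ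
  have hρ0 : 0 < ρ := Real.exp_pos _
  have hρ1 : ρ < 1 := Real.exp_lt_one_iff.2 (by linarith)
  have hρ2 : 1 - y ≤ ρ := by
    have := Real.add_one_le_exp (-y)
    linarith
  have hD6 : y / 2 / (1 + y / 2) / 2 ≤ Dk G L p := by linarith
  rcases le_total y 1 with h1 | h1
  · -- near zero
    have h2 : y / 6 ≤ Dk G L p := by
      refine le_trans ?_ hD6
      rw [div_div, div_le_div_iff₀ (by norm_num) (by positivity)]
      nlinarith
    have h3 : |1 - ρ - Dk G L p| ≤ 9 / 4 * y := by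
      rw [abs_le]
      constructor <;> linarith
    have h4 : (1 - ρ - Dk G L p) ^ 2 ≤ (9 / 4 * y) ^ 2 := by
      rw [← sq_abs]
      exact pow_le_pow_left₀ (abs_nonneg _) h3 2
    rw [div_le_iff₀ hD]
    have h5 : (9 / 4 * y) ^ 2 ≤ 61 * (y / (1 + y ^ 2)) * (y / 6) := by
      have h6 : 1 / 2 ≤ 1 / (1 + y ^ 2) := one_div_le_one_div_of_le (by positivity) (by nlinarith)
      have h7 : 61 * (y / (1 + y ^ 2)) * (y / 6) = 61 / 6 * y ^ 2 * (1 / (1 + y ^ 2)) := by ring
      rw [h7]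
      calc (9 / 4 * y) ^ 2 = 81 / 16 * y ^ 2 := by ring
        _ ≤ 61 / 6 * y ^ 2 * (1 / 2) := by nlinarith [sq_nonneg y]
        _ ≤ _ := by gcongr
    refine (h4.trans h5).trans ?_
    gcongr
  · -- far
    have h2 : 1 / 6 ≤ Dk G L p := by
      refine le_trans ?_ hD6
      rw [div_div, div_le_div_iff₀ (by norm_num) (by positivity)]
      nlinarith
    have h3 : ρ ≤ 1 / (2 * y) := by
      have h4 : 2 * y ≤ Real.exp y := by
        have := Real.add_one_le_exp (y - 1)
        have h5 : Real.exp y = Real.exp 1 * Real.exp (y - 1) := by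
          rw [← Real.exp_add]
          congr 1
          ring
        have h6 := Real.exp_one_gt_d9
        rw [h5]
        nlinarith
      rw [hρ, Real.exp_neg, ← one_div]
      exact one_div_le_one_div_of_le (by linarith) h4
    have h4 : 1 - NUC62.R y ≤ 2 * ρ := by
      have : 1 - 2 * ρ ≤ (1 - ρ) / (1 + ρ) := by
        rw [le_div_iff₀ (by linarith)]
        nlinarith
      linarith
    have h5 : NUC62.kp L p / (2 * π) * RGh G (NUC62.kp L p) ≤ 1 / (4 * y) := by
      have h6 : NUC62.kp L p / (2 * π) * RGh G (NUC62.kp L p) ≤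
          NUC62.kp L p / (2 * π) * (eG G / (1 + NUC62.kp L p) * Vh (NUC62.kp L p)) := by gcongr
      have h7 : NUC62.kp L p / (2 * π) * (eG G / (1 + NUC62.kp L p) * Vh (NUC62.kp L p)) =
          eG G / (1 + NUC62.kp L p) * NUC62.R y := by
        unfold Vh
        rw [hyk]
        field_simp
      have h8 : NUC62.kp L p = 8 * y / π := by
        rw [← hyk]
        field_simp
      have h9 : 2 * y ≤ NUC62.kp L p := by
        rw [h8, le_div_iff₀ hpi]
        nlinarith
      have he : 0 ≤ eG G := by unfold eG; positivity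
      have he2 := eG_half hG
      have h10 : eG G / (1 + NUC62.kp L p) ≤ 1 / (4 * y) := by
        rw [div_le_div_iff₀ (by positivity) (by positivity)]
        nlinarith
      calc _ ≤ eG G / (1 + NUC62.kp L p) * NUC62.R y := h6.trans h7.le
        _ ≤ 1 / (4 * y) * 1 := by
          have hR0 := (R_pos hy).le
          gcongr
        _ = _ := mul_one _
    have h6 : |1 - ρ - Dk G L p| ≤ 5 / (4 * y) := by
      have e1 : 5 / (4 * y) = 2 * (1 / (2 * y)) + 1 / (4 * y) := by
        field_simp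
        ring
      have e2 : 0 < 1 / (4 * y) := by positivity
      rw [abs_le]
      constructor
      · linarith
      · linarith
    have h7 : (1 - ρ - Dk G L p) ^ 2 ≤ (5 / (4 * y)) ^ 2 := by
      rw [← sq_abs]
      exact pow_le_pow_left₀ (abs_nonneg _) h6 2
    rw [div_le_iff₀ hD]
    have h8 : (5 / (4 * y)) ^ 2 ≤ 61 * (y / (1 + y ^ 2)) * (1 / 6) := by
      have e1 : (5 / (4 * y)) ^ 2 = 25 / (16 * y ^ 2) := by
        field_simp
        ring
      have e2 : 61 * (y / (1 + y ^ 2)) * (1 / 6) = 61 * y / (6 * (1 + y ^ 2)) := by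
        field_simp
      rw [e1, e2, div_le_div_iff₀ (by positivity) (by positivity)]
      have : 1 ≤ y ^ 2 := by nlinarith
      nlinarith
    refine (h7.trans h8).trans ?_
    gcongr

lemma arctan_step {a b : ℝ} (ha : 0 ≤ a) (hab : a ≤ b) :
    (b - a) / (1 + b ^ 2) ≤ Real.arctan b - Real.arctan a := by
  have h := Convex.mul_sub_le_image_sub_of_le_deriv (D := Icc a b) (convex_Icc a b) (f := Real.arctan)
    Real.continuous_arctan.continuousOn Real.differentiable_arctan.differentiableOn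
    (C := 1 / (1 + b ^ 2)) (fun x hx => by
      rw [interior_Icc] at hx
      rw [Real.deriv_arctan]
      have h1 : x ^ 2 ≤ b ^ 2 := by
        have h2 := hx.1
        have h3 := hx.2
        nlinarith
      exact one_div_le_one_div_of_le (by positivity) (by linarith))
    a (left_mem_Icc.2 hab) b (right_mem_Icc.2 hab) hab
  calc (b - a) / (1 + b ^ 2) = 1 / (1 + b ^ 2) * (b - a) := by ring
    _ ≤ _ := h

lemma sum_arctan (hL : 0 < L) (K : ℕ) :
    ∑ p ∈ Finset.range K, sw L / (1 + (sw L * (p + 1)) ^ 2) ≤ Real.arctan (sw L * K) := by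
  have hs := sw_pos hL
  induction K with
  | zero => simp
  | succ K ih =>
    rw [Finset.sum_range_succ]
    have h := arctan_step (a := sw L * K) (b := sw L * (K + 1)) (by positivity) (by nlinarith)
    have e : sw L * ((K : ℝ) + 1) - sw L * K = sw L := by ring
    rw [e] at h
    push_cast
    linarith

/-- sum of the errors -/
lemma sum_err (hG : 9 ≤ G) (hL : 0 < L) (K : ℕ) :
    ∑ p ∈ Finset.range K, (1 - Real.exp (-(sw L * (p + 1))) - Dk G L p) ^ 2 /
      (Dk G L p * (p + 1)) ≤ 100 := by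
  have hs := sw_pos hL
  have h1 : ∀ p ∈ Finset.range K, (1 - Real.exp (-(sw L * ((p : ℝ) + 1))) - Dk G L p) ^ 2 /
      (Dk G L p * (p + 1)) ≤ 61 * (sw L / (1 + (sw L * (p + 1)) ^ 2)) := by
    intro p _
    have hD := D_pos hG hL p
    have hp : (0 : ℝ) < (p : ℝ) + 1 := by positivity
    have h2 := mult_err hG hL p
    rw [← div_div, div_le_iff₀ hp]
    refine h2.trans (le_of_eq ?_)
    ring
  refine (Finset.sum_le_sum h1).trans ?_
  rw [← Finset.mul_sum]
  have h3 := sum_arctan hL K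
  have h4 := Real.arctan_lt_pi_div_two (sw L * K)
  have h5 := Real.pi_lt_d2
  linarith

lemma Cser_zero (f : ℕ → ℝ) : Cser f 0 = ∑' k, 2 * f k := by
  unfold Cser
  congr 1
  funext k
  rw [mul_zero, Real.cos_zero, mul_one]

/-- the even part of a field at the two walls -/
lemma sum_pr {f : ℕ → ℝ} (hf : Summable fun p => |f p|) :
    Summable (fun p => f p * pr p) ∧ ∑' p, f p * pr p = (Cser f 0 + Cser f π) / 4 := by
  have hs : Summable f := hf.of_abs
  have h1 : Summable fun p => f p * pr p := by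
    refine Summable.of_norm_bounded hf fun p => ?_
    rw [Real.norm_eq_abs, abs_mul, abs_of_nonneg (pr_nonneg p)]
    exact mul_le_of_le_one_right (abs_nonneg _) (pr_le p)
  refine ⟨h1, ?_⟩
  have h2 : Summable fun k => 2 * f k := hs.mul_left 2
  have h3 : Summable fun k : ℕ => 2 * f k * Real.cos (((k : ℝ) + 1) * π) := by
    refine Summable.of_norm_bounded (hf.mul_left 2) fun p => ?_
    rw [Real.norm_eq_abs, abs_mul, abs_mul, abs_two]
    exact mul_le_of_le_one_right (by positivity) (Real.abs_cos_le_one _)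
  rw [Cser_zero]
  unfold Cser
  rw [← h2.tsum_add h3, ← tsum_div_const]
  congr 1
  funext k
  have e : Real.cos (((k : ℝ) + 1) * π) = 2 * pr k - 1 := by
    have e1 : ((k : ℝ) + 1) * π = ((k + 1 : ℕ) : ℝ) * π := by push_cast; ring
    rw [e1, Real.cos_nat_mul_pi]
    unfold pr
    split_ifs with h
    · rw [h.neg_one_pow]
      norm_num
    · rw [Nat.not_even_iff_odd] at h
      rw [h.neg_one_pow]
      norm_num
  rw [e]
  ring

/-- **(W2) cross term of a field with the wall** -/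
theorem XW_le (hG : 9 ≤ G) (hL : 0 < L) {f : ℕ → ℝ} (hf : Summable fun p => |f p|)
    (hfe : Summable fun p => L * f p ^ 2 / uh G (NUC62.kp L p)) :
    |XW G L f| ≤ (|Cser f 0| + |Cser f π|) / 4 + 10 * √(QFr G L f) := by
  obtain ⟨h1, h2⟩ := sum_pr hf
  have hX := XW_summable hG hL hf
  have hQ0 : ∀ p, 0 ≤ L * f p ^ 2 / uh G (NUC62.kp L p) := fun p => by
    have := uh_pos hG (NUC62.kp_pos hL p)
    positivity
  have h3 : XW G L f - ∑' p, f p * pr p =
      ∑' p, (L * f p * wz L p / uh G (NUC62.kp L p) - f p * pr p) := by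
    unfold XW
    rw [hX.tsum_sub h1]
  have h4 : ∀ K, |∑ p ∈ Finset.range K, (L * f p * wz L p / uh G (NUC62.kp L p) - f p * pr p)| ≤
      10 * √(QFr G L f) := by
    intro K
    have e1 : ∀ p : ℕ, L * f p * wz L p / uh G (NUC62.kp L p) - f p * pr p =
        (√(L / uh G (NUC62.kp L p)) * f p) *
          (pr p * (1 - Real.exp (-(sw L * (p + 1))) - Dk G L p) / √(Dk G L p * (p + 1))) := by
      intro p
      have hD := D_pos hG hL p
      have hp : (0 : ℝ) < (p : ℝ) + 1 := by positivity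
      rw [xw_term hG hL, L_div_uh hG hL, Real.sqrt_div hp.le, Real.sqrt_mul hD.le]
      have s1 : √(Dk G L p) ≠ 0 := (Real.sqrt_pos.2 hD).ne'
      have s2 : √((p : ℝ) + 1) ≠ 0 := (Real.sqrt_pos.2 hp).ne'
      have s3 : √(Dk G L p) * √(Dk G L p) = Dk G L p := Real.mul_self_sqrt hD.le
      have e2 : √((p : ℝ) + 1) / √(Dk G L p) * f p *
          (pr p * (1 - Real.exp (-(sw L * ((p : ℝ) + 1))) - Dk G L p) /
          (√(Dk G L p) * √((p : ℝ) + 1))) =
          f p * (pr p * (1 - Real.exp (-(sw L * ((p : ℝ) + 1))) - Dk G L p)) /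
          (√(Dk G L p) * √(Dk G L p)) := by
        field_simp
      rw [e2, s3]
      field_simp
    have h5 : (∑ p ∈ Finset.range K, (L * f p * wz L p / uh G (NUC62.kp L p) - f p * pr p)) ^ 2 ≤
        (∑ p ∈ Finset.range K, (√(L / uh G (NUC62.kp L p)) * f p) ^ 2) *
        ∑ p ∈ Finset.range K, (pr p * (1 - Real.exp (-(sw L * (p + 1))) - Dk G L p) /
          √(Dk G L p * (p + 1))) ^ 2 := by
      simp_rw [e1]
      exact Finset.sum_mul_sq_le_sq_mul_sq _ _ _
    have h6 : ∑ p ∈ Finset.range K, (√(L / uh G (NUC62.kp L p)) * f p) ^ 2 ≤ QFr G L f := by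
      have e3 : ∀ p : ℕ, (√(L / uh G (NUC62.kp L p)) * f p) ^ 2 =
          L * f p ^ 2 / uh G (NUC62.kp L p) := by
        intro p
        have := uh_pos hG (NUC62.kp_pos hL p)
        rw [mul_pow, Real.sq_sqrt (by positivity)]
        ring
      simp_rw [e3]
      exact hfe.sum_le_tsum _ fun p _ => hQ0 p
    have h7 : ∑ p ∈ Finset.range K, (pr p * (1 - Real.exp (-(sw L * (p + 1))) - Dk G L p) /
          √(Dk G L p * (p + 1))) ^ 2 ≤ 100 := by
      refine le_trans (Finset.sum_le_sum fun p _ => ?_) (sum_err hG hL K)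
      have hD := D_pos hG hL p
      rw [div_pow, Real.sq_sqrt (by positivity), mul_pow, pr_sq]
      gcongr
      exact mul_le_of_le_one_left (sq_nonneg _) (pr_le p)
    have hQn : 0 ≤ QFr G L f := tsum_nonneg hQ0
    have h8 : (∑ p ∈ Finset.range K, (L * f p * wz L p / uh G (NUC62.kp L p) - f p * pr p)) ^ 2 ≤
        (10 * √(QFr G L f)) ^ 2 := by
      rw [mul_pow, Real.sq_sqrt hQn]
      refine h5.trans ?_
      calc _ ≤ QFr G L f * 100 := mul_le_mul h6 h7 (Finset.sum_nonneg fun p _ => sq_nonneg _) hQn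
        _ = _ := by ring
    exact abs_le_of_sq_le_sq h8 (by positivity)
  have h5 : |XW G L f - ∑' p, f p * pr p| ≤ 10 * √(QFr G L f) := by
    rw [h3]
    have h6 := (hX.sub h1).hasSum.tendsto_sum_nat
    exact le_of_tendsto h6.abs (Eventually.of_forall h4)
  rw [h2] at h5
  have h6 : |(Cser f 0 + Cser f π) / 4| ≤ (|Cser f 0| + |Cser f π|) / 4 := by
    rw [abs_div, abs_of_pos (by norm_num : (0 : ℝ) < 4)]
    gcongr
    exact abs_add_le _ _
  have h7 := abs_sub_abs_le_abs_sub (XW G L f) ((Cser f 0 + Cser f π) / 4)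
  linarith

end

end TCW
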