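import Pool.Agent.TC.WallP
import Pool.Agent.TC.WallB
import Pool.Agent.TC.FAct1
import Pool.Agent.FSz.Bound
import Pool.Agent.NUWC.WCS

/-!
# Window bound of the one component folded gas

`wc1C`: even continuous integrable bounded density `ρ`, even potential given by a cosine series, wall
factor `wlc L x = sin θ / √(sin² θ + sinh² s)`, `θ = 2 π x / L`, on top of `FSz.circ_boundC`.
-/

set_option autoImplicit false

open MeasureTheory Set Filter Topology
open scoped Real ENNReal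

namespace TCW

open Pool.Agent.FSz NUC62 NUMF NUWC
open Pool.Agent.Szego62 (Aser abs_term_c)

noncomputable section

variable {G L T : ℝ}

lemma el_eq (p : ℕ) : el p = pr p := by
  unfold el pr
  by_cases h : p % 2 = 1
  · have : Even (p + 1) := by rw [Nat.even_iff]; omega
    simp [h, this]
  · have : ¬ Even (p + 1) := by rw [Nat.even_iff]; omega
    simp [h, this]

/-- cosine series as a special case of the complex series -/
lemma Cser_eq (f : ℕ → ℝ) (x : ℝ) : Aser (fun k => (f k : ℂ)) x = Cser f x := by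
  unfold Aser Cser
  congr 1
  funext k
  rw [Complex.re_ofReal_mul]
  have e : ((k + 1 : ℂ) * x * Complex.I) = (((((k : ℝ) + 1) * x : ℝ)) : ℂ) * Complex.I := by
    push_cast
    ring
  rw [e, Complex.exp_ofReal_mul_I_re]
  ring

/-- wall factor on the circle -/
def wlc (L x : ℝ) : ℝ :=
  Real.sin (2 * π * x / L) / √(Real.sin (2 * π * x / L) ^ 2 + Real.sinh (sw L) ^ 2)

lemma wlc_eq (hL : 0 < L) (x : ℝ) : wlc L x =
    Real.sin (2 * π * x / L) * Real.exp (Cser (wf L) (2 * π * x / L) - sw L + Real.log 2) := by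
  have hs : 0 < Real.sinh (sw L) := Real.sinh_pos_iff.2 (sw_pos hL)
  have h0 : 0 < Real.sin (2 * π * x / L) ^ 2 + Real.sinh (sw L) ^ 2 := by positivity
  unfold wlc
  rw [Cser_wf hL, div_eq_mul_inv]
  congr 1
  have h1 := Real.log_sqrt h0.le
  have h2 := Real.exp_log (Real.sqrt_pos.2 h0)
  rw [show sw L - Real.log 2 - 1 / 2 * Real.log (Real.sin (2 * π * x / L) ^ 2 +
      Real.sinh (sw L) ^ 2) - sw L + Real.log 2 = -(Real.log (Real.sin (2 * π * x / L) ^ 2 +
      Real.sinh (sw L) ^ 2) / 2) by ring, ← h1, Real.exp_neg, h2]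

lemma fc_even {ρ : ℝ → ℝ} (hρe : ∀ x, ρ (-x) = ρ x) (k : ℤ) : fc L ρ (-k) = fc L ρ k := by
  unfold fc
  congr 1
  have h3 := intervalIntegral.integral_comp_neg (a := -(L / 2)) (b := L / 2) fun x : ℝ =>
    Complex.exp (-(2 * Real.pi * k / L * x : ℝ) * Complex.I) * (ρ x : ℂ)
  rw [neg_neg] at h3
  rw [← h3]
  refine intervalIntegral.integral_congr fun x _ => ?_
  simp only [hρe]
  congr 3
  push_cast
  ring

/-- real coefficients of an even density -/
lemma fc_im {ρ : ℝ → ℝ} (hρe : ∀ x, ρ (-x) = ρ x) (k : ℤ) : (fc L ρ k).im = 0 := by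
  have h1 := fc_neg L ρ k
  rw [fc_even hρe] at h1
  have h3 := congrArg Complex.im h1
  rw [Complex.conj_im] at h3
  linarith

lemma fc_re {ρ : ℝ → ℝ} (hρe : ∀ x, ρ (-x) = ρ x) (k : ℤ) :
    fc L ρ k = (((fc L ρ k).re : ℝ) : ℂ) := by
  apply Complex.ext
  · rw [Complex.ofReal_re]
  · rw [Complex.ofReal_im, fc_im hρe]

lemma Cser_add' {f g : ℕ → ℝ} (hf : Summable fun k => |f k|) (hg : Summable fun k => |g k|)
    (x : ℝ) : Cser (fun k => f k + g k) x = Cser f x + Cser g x := by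
  have s1 : ∀ {f : ℕ → ℝ}, (Summable fun k => |f k|) →
      Summable fun k : ℕ => 2 * f k * Real.cos (((k : ℝ) + 1) * x) := fun {f} hf =>
    Summable.of_norm_bounded (hf.mul_left 2) fun k => by
      rw [Real.norm_eq_abs, abs_mul, abs_mul, abs_two]
      exact mul_le_of_le_one_right (by positivity) (Real.abs_cos_le_one _)
  unfold Cser
  rw [← (s1 hf).tsum_add (s1 hg)]
  congr 1
  funext k
  ring

lemma Cser_smul' (f : ℕ → ℝ) (a x : ℝ) : Cser (fun k => a * f k) x = a * Cser f x := by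
  unfold Cser
  rw [← tsum_mul_left]
  congr 1
  funext k
  ring

/-! ### the field -/

/-- the regular part of the field -/
def aF (G L : ℝ) (ρ : ℝ → ℝ) (f : ℕ → ℝ) (p : ℕ) : ℝ :=
  uk G (NUWC.kp L (p + 1)) * (fc L ρ (p + 1)).re + f p

/-- the field -/
def cF (G L : ℝ) (ρ : ℝ → ℝ) (f : ℕ → ℝ) (p : ℕ) : ℝ := aF G L ρ f p + wf L p

lemma cF_sub (ρ : ℝ → ℝ) (f : ℕ → ℝ) (p : ℕ) :
    cF G L ρ f p - el p / (p + 1) = aF G L ρ f p - wz L p := by
  have h := wf_sub L p
  rw [el_eq]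
  unfold cF
  linarith

/-- energy of the density and of the potential on the circle -/
def ENF (G L : ℝ) (ρ : ℝ → ℝ) (f0 : ℝ) (f : ℕ → ℝ) : ℝ :=
  1 / 2 * (∫ t in (-(L / 2))..(L / 2), ρ t * cconv L ρ (UP G L) t) -
    NUC62.uG G L / 2 * mI L ρ ^ 2 +
    (∫ t in (-(L / 2))..(L / 2), ρ t * (f0 + Cser f (2 * π * t / L))) - f0 * mI L ρ + QFr G L f

/-- the wall against the density -/
def SW (L : ℝ) (ρ : ℝ → ℝ) : ℝ := ∑' p : ℕ, L * (fc L ρ (p + 1)).re * wz L p

lemma norm_coeff {ρ : ℝ → ℝ} (hρe : ∀ x, ρ (-x) = ρ x) (f : ℕ → ℝ) (k : ℕ) :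
    (uk G (NUWC.kp L (k + 1)) : ℂ) * fc L ρ (k + 1) + (f k : ℂ) = ((aF G L ρ f k : ℝ) : ℂ) := by
  rw [fc_re hρe]
  unfold aF
  push_cast
  ring

/-- energy identity for the real coefficients -/
lemma aF_energy (hG : 9 ≤ G) (hLG : 2 * G ≤ L) {ρ : ℝ → ℝ} (hρc : Continuous ρ)
    (hρe : ∀ x, ρ (-x) = ρ x) (f0 : ℝ) {f : ℕ → ℝ} (hf : Summable fun k => |f k|)
    (hfe : Summable fun k : ℕ => L * f k ^ 2 / uh G (NUC62.kp L k)) :
    HasSum (fun k : ℕ => L * aF G L ρ f k ^ 2 / uh G (NUC62.kp L k)) (ENF G L ρ f0 f) := by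
  have hG1 : 1 ≤ G := by linarith
  have hL0 : 0 < L := by linarith
  have huk : ∀ k : ℕ, uk G (NUWC.kp L (k + 1)) = NUC62.uh G (NUC62.kp L k) := uk_kp hG1 hL0
  have hupos : ∀ k : ℕ, 0 < NUC62.uh G (NUC62.kp L k) := fun k => NUC62.uh_pos hG (NUC62.kp_pos hL0 k)
  have hn : ∀ x : ℝ, ‖(x : ℂ)‖ ^ 2 = x ^ 2 := fun x => by
    rw [Complex.norm_real, Real.norm_eq_abs, sq_abs]
  have h := energy hG1 hLG hρc (fun k => by rw [huk]; exact (hupos k).ne') f0
    (f := fun k => (f k : ℂ)) (by simpa [Complex.norm_real] using hf) (by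
    simp_rw [huk, hn]; exact hfe)
  simp_rw [norm_coeff hρe, hn, huk, Cser_eq] at h
  have e : ENF G L ρ f0 f = 1 / 2 * (∫ t in (-(L / 2))..(L / 2), ρ t * cconv L ρ (UP G L) t) -
      uk G 0 / (2 * L) * (∫ t in (-(L / 2))..(L / 2), ρ t) ^ 2 +
      (∫ t in (-(L / 2))..(L / 2), ρ t * (f0 + Cser f (2 * π * t / L))) -
      f0 * (∫ t in (-(L / 2))..(L / 2), ρ t) + ∑' k : ℕ, L * f k ^ 2 / uh G (NUC62.kp L k) := by
    unfold ENF mI QFr
    have hu0' : uk G 0 / (2 * L) = NUC62.uG G L / 2 := by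
      rw [← uk_zero hG1 (L := L)]
      field_simp
    rw [hu0']
  rw [e]
  exact h

lemma aF_summable (hG : 9 ≤ G) (hLG : 2 * G ≤ L) {ρ : ℝ → ℝ} (hρc : Continuous ρ) {f : ℕ → ℝ} (hf : Summable fun k => |f k|) :
    Summable fun k => |aF G L ρ f k| := by
  obtain ⟨hc, -⟩ := cconv_series (by linarith : (1:ℝ) ≤ G) hLG hρc
  refine Summable.of_nonneg_of_le (fun k => abs_nonneg _) (fun k => ?_) (hc.add hf)
  unfold aF
  refine (abs_add_le _ _).trans (add_le_add ?_ le_rfl)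
  rw [norm_mul, Complex.norm_real, Real.norm_eq_abs, abs_mul]
  exact mul_le_mul_of_nonneg_left (Complex.abs_re_le_norm _) (abs_nonneg _)

/-- the cross term of the regular field with the wall -/
lemma aF_cross (hG : 9 ≤ G) (hLG : 2 * G ≤ L) {ρ : ℝ → ℝ} (hρc : Continuous ρ)
    {f : ℕ → ℝ} (hf : Summable fun k => |f k|) :
    HasSum (fun p : ℕ => L * aF G L ρ f p * wz L p / uh G (NUC62.kp L p))
      (SW L ρ + XW G L f) := by
  have hL0 : 0 < L := by linarith
  have h1 := (wall_pars hL0 hρc).summable.hasSum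
  have h2 := (XW_summable hG hL0 hf).hasSum
  have e : (fun p : ℕ => L * aF G L ρ f p * wz L p / uh G (NUC62.kp L p)) = fun p : ℕ =>
      L * (fc L ρ (p + 1)).re * wz L p + L * f p * wz L p / uh G (NUC62.kp L p) := by
    funext p
    have hu := NUC62.uh_pos hG (NUC62.kp_pos hL0 p)
    unfold aF
    rw [uk_kp (by linarith : (1:ℝ) ≤ G) hL0]
    field_simp
  rw [e]
  exact h1.add h2

/-- **the exponent of the circular bound**, eventually in the cut-off -/
lemma aF_Q (hG : 9 ≤ G) (hLG : 2 * G ≤ L) {ρ : ℝ → ℝ} (hρc : Continuous ρ)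
    (hρe : ∀ x, ρ (-x) = ρ x) (f0 : ℝ) {f : ℕ → ℝ} (hf : Summable fun k => |f k|)
    (hfe : Summable fun k : ℕ => L * f k ^ 2 / uh G (NUC62.kp L k)) :
    ∀ᶠ K in atTop, ∑ p ∈ Finset.range K, (L * (cF G L ρ f p - el p / (p + 1)) ^ 2 /
      (2 * uh G (NUC62.kp L p)) - el p / (2 * ((p : ℝ) + 1))) ≤
      1 / 2 * ENF G L ρ f0 f - (SW L ρ + XW G L f) + eG G * L + 1 := by
  have hL0 : 0 < L := by linarith
  have h1 := (aF_energy hG hLG hρc hρe f0 hf hfe).tendsto_sum_nat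
  have h2 := (aF_cross hG hLG hρc hf).tendsto_sum_nat
  have h3 := (h1.const_mul (1 / 2)).sub h2
  have h4 := (tendsto_order.1 h3).2 (1 / 2 * ENF G L ρ f0 f - (SW L ρ + XW G L f) + 1)
    (by linarith)
  filter_upwards [h4] with K hK
  have h5 := wall_self hG hL0 K
  have e : ∀ p ∈ Finset.range K, (L * (cF G L ρ f p - el p / (p + 1)) ^ 2 /
      (2 * uh G (NUC62.kp L p)) - el p / (2 * ((p : ℝ) + 1))) =
      1 / 2 * (L * aF G L ρ f p ^ 2 / uh G (NUC62.kp L p)) -
      L * aF G L ρ f p * wz L p / uh G (NUC62.kp L p) +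
      (L * wz L p ^ 2 / (2 * uh G (NUC62.kp L p)) - pr p / (2 * (p + 1))) := by
    intro p _
    have hu := NUC62.uh_pos hG (NUC62.kp_pos hL0 p)
    rw [cF_sub, el_eq]
    field_simp
    ring
  rw [Finset.sum_congr rfl e, Finset.sum_add_distrib, Finset.sum_sub_distrib, ← Finset.mul_sum]
  linarith

/-! ### the comparison of the integrands -/

/-- the symmetrised double sum of an even kernel -/
lemma sum_sym_kernel {n : ℕ} {K : ℝ → ℝ} (hK : ∀ x, K (-x) = K x) (t : Fin n → ℝ) :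
    ∑ i, ∑ j, K (TCF.sym t i - TCF.sym t j) = 2 * (n * K 0) + 2 * ∑ i, K (2 * t i) +
      4 * ∑ i, ∑ j ∈ Finset.Ioi i, (K (t i - t j) + K (t i + t j)) := by
  have h1 : ∀ x : ℝ, ∑ j, K (x - TCF.sym t j) = ∑ j, (K (x - t j) + K (x + t j)) := by
    intro x
    rw [Fin.sum_univ_add, Finset.sum_add_distrib]
    simp only [TCF.sym_left, TCF.sym_right, sub_neg_eq_add]
  simp_rw [h1]
  rw [Fin.sum_univ_add]
  simp only [TCF.sym_left, TCF.sym_right]
  have h2 : ∑ i, ∑ j, (K (-t i - t j) + K (-t i + t j)) =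
      ∑ i, ∑ j, (K (t i - t j) + K (t i + t j)) := by
    refine Finset.sum_congr rfl fun i _ => Finset.sum_congr rfl fun j _ => ?_
    rw [show -t i - t j = -(t i + t j) by ring, show -t i + t j = -(t i - t j) by ring, hK, hK]
    ring
  rw [h2, NUE.sum_sum_eq (fun i j => K (t i - t j) + K (t i + t j)) (fun i j => by
    rw [show t i - t j = -(t j - t i) by ring, hK, add_comm (t i)])]
  have h3 : ∑ i, (K (t i - t i) + K (t i + t i)) = n * K 0 + ∑ i, K (2 * t i) := by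
    rw [Finset.sum_add_distrib]
    simp only [sub_self, Finset.sum_const, Finset.card_univ, Fintype.card_fin, nsmul_eq_mul]
    congr 1
    refine Finset.sum_congr rfl fun i _ => ?_
    rw [two_mul]
  rw [h3]
  ring

/-- **removal of the kernel of the remainder**, folded -/
lemma fold_psd {n : ℕ} (hG : 1 ≤ G) {ρ : ℝ → ℝ} (hρ : Integrable ρ) (hρe : ∀ x, ρ (-x) = ρ x)
    (t : Fin n → ℝ) :
    ∑ i, ∫ s, ρ s * RG G (t i - s) ≤ (n : ℝ) / 2 * RG G 0 + 1 / 2 * ∑ i, RG G (2 * t i) +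
      ∑ i, ∑ j ∈ Finset.Ioi i, (RG G (t i - t j) + RG G (t i + t j)) +
      1 / 4 * ∫ s, ρ s * ∫ s', ρ s' * RG G (s - s') := by
  have h1 := pts_psd (TCF.sym t) hρ hG
  rw [sum_sym_kernel (NUWC.RG_neg G)] at h1
  have h2 : ∀ x, (∫ s, ρ s * RG G (-x - s)) = ∫ s, ρ s * RG G (x - s) := by
    intro x
    rw [← integral_neg_eq_self]
    refine integral_congr_ae (Eventually.of_forall fun s => ?_)
    simp only [hρe]
    rw [show -x - -s = -(x - s) by ring, NUWC.RG_neg]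
  have h3 : ∑ i, ∫ s, ρ s * RG G (TCF.sym t i - s) = 2 * ∑ i, ∫ s, ρ s * RG G (t i - s) := by
    rw [Fin.sum_univ_add]
    simp only [TCF.sym_left, TCF.sym_right, h2]
    ring
  rw [h3] at h1
  linarith

/-- exponent of the folded window bound -/
def EF (G L : ℝ) (n : ℕ) (ρ : ℝ → ℝ) (f0 : ℝ) (f : ℕ → ℝ) : ℝ :=
  1 / 2 * EI G L ρ + 1 / 2 * (∫ t in (-(L / 2))..(L / 2), ρ t * (f0 + Cser f (2 * π * t / L))) +
    (n - mI L ρ / 2) * f0 - NUC62.uG G L * (n - mI L ρ / 2) ^ 2 + 1 / 2 * QFr G L f -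
    XW G L f - SW L ρ - n * sw L + 7 / 24 * L + NUC62.err G L n / 2 + eG G * L + 1

/-- the field of the density on the window -/
lemma field_eq (hG : 9 ≤ G) (hT : 0 < T) {ρ : ℝ → ℝ} (hρc : Continuous ρ)
    (hρe : ∀ x, ρ (-x) = ρ x) {f : ℕ → ℝ} (hf : Summable fun k => |f k|) {x : ℝ} (hx : |x| ≤ T) :
    (∫ s, ρ s * UG G (x - s)) + Cser f (2 * π * x / (2 * T + 2 * G)) +
      Cser (wf (2 * T + 2 * G)) (2 * π * x / (2 * T + 2 * G)) =
    NUC62.uG G (2 * T + 2 * G) * mI (2 * T + 2 * G) ρ +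
      Cser (cF G (2 * T + 2 * G) ρ f) (2 * π * x / (2 * T + 2 * G)) := by
  have hG1 : 1 ≤ G := by linarith
  have hL0 : 0 < 2 * T + 2 * G := by linarith
  have hLG : 2 * G ≤ 2 * T + 2 * G := by linarith
  obtain ⟨hc, hA⟩ := cconv_series hG1 hLG hρc
  have haS := aF_summable (f := f) hG hLG hρc hf
  have h0S := aF_summable (f := fun _ => 0) hG hLG hρc (by simp)
  rw [window_conv hG1 hT ρ hx, hA x, uk_zero hG1]
  have e1 : Aser (fun k => (uk G (NUWC.kp (2 * T + 2 * G) (k + 1)) : ℂ) *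
      fc (2 * T + 2 * G) ρ (k + 1)) (2 * π * x / (2 * T + 2 * G)) =
      Cser (aF G (2 * T + 2 * G) ρ fun _ => 0) (2 * π * x / (2 * T + 2 * G)) := by
    rw [← Cser_eq]
    congr 1
    funext k
    rw [← norm_coeff hρe, Complex.ofReal_zero, add_zero]
  rw [e1]
  have e2 : cF G (2 * T + 2 * G) ρ f = fun k => (aF G (2 * T + 2 * G) ρ (fun _ => 0) k + f k) +
      wf (2 * T + 2 * G) k := by
    funext k
    unfold cF aF
    ring
  have e3 : Summable fun k => |aF G (2 * T + 2 * G) ρ (fun _ => 0) k + f k| :=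
    Summable.of_nonneg_of_le (fun k => abs_nonneg _) (fun k => abs_add_le _ _) (h0S.add hf)
  rw [e2, Cser_add' e3 (wf_summable hL0), Cser_add' h0S hf]
  unfold mI
  ring

/-- **Window bound of the folded gas**, half line, wall factor `wlc`. -/
theorem wc1C {G T : ℝ} (hG : 9 ≤ G) (hT : 0 < T) (n : ℕ) {ρ : ℝ → ℝ} (hρc : Continuous ρ)
    (hρ : Integrable ρ) (hρe : ∀ x, ρ (-x) = ρ x) {M : ℝ} (hM : ∀ s, |ρ s| ≤ M) (f0 : ℝ)
    {f : ℕ → ℝ} (hf : Summable fun k => |f k|)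
    (hfe : Summable fun k : ℕ => (2 * T + 2 * G) * f k ^ 2 / uh G (NUC62.kp (2 * T + 2 * G) k))
    {τ : ℝ} (hτ : 0 ≤ τ)
    (hRU : ∀ b0, HRU n (wK G (2 * T + 2 * G) (n ^ 2 + 1)) (cF G (2 * T + 2 * G) ρ f) b0 τ)
    {F : ℝ → ℝ} (hF : ∀ x, 0 < x → x ≤ T → F x ≤ f0 + Cser f (2 * π * x / (2 * T + 2 * G))) :
    ∫⁻ t : Fin n → ℝ in Set.univ.pi fun _ => Ioc 0 T,
      ENNReal.ofReal (TCF.fpom t * ∏ i, (wlc (2 * T + 2 * G) (t i) *
        Real.exp ((∫ s, ρ s * V (t i - s)) + F (t i)))) ≤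
    ENNReal.ofReal ((n.factorial : ℝ) * (2 * π / √NUC62.cω) ^ n *
      Real.exp (EF G (2 * T + 2 * G) n ρ f0 f) * τ) := by
  have hG1 : 1 ≤ G := by linarith
  have hL0 : 0 < 2 * T + 2 * G := by linarith
  have hLG : 2 * G ≤ 2 * T + 2 * G := by linarith
  have hfield := fun {x : ℝ} (hx : |x| ≤ T) => field_eq (x := x) hG hT hρc hρe hf hx
  have haQ := aF_Q hG hLG hρc hρe f0 hf hfe
  have haS := aF_summable (f := f) hG hLG hρc hf
  set L := 2 * T + 2 * G with hL
  set c := cF G L ρ f with hcdef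
  have hcs : Summable fun k => |c k| :=
    Summable.of_nonneg_of_le (fun k => abs_nonneg _) (fun k => abs_add_le _ _)
      (haS.add (wf_summable hL0))
  set a0 := NUC62.uG G L * mI L ρ + f0 - sw L + Real.log 2 with ha0
  set g : ℝ → ℝ := fun x => √(omG G (2 * x)) * (|wlc L x| *
    Real.exp ((∫ s, ρ s * UG G (x - s)) + F x)) with hg
  have hsin : ∀ x, 0 < x → x ≤ T → 0 ≤ Real.sin (2 * π * x / L) := by
    intro x hx hx'
    have hpi := Real.pi_pos
    apply Real.sin_nonneg_of_nonneg_of_le_pi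
    · positivity
    · rw [div_le_iff₀ hL0]
      nlinarith
  have hwl : ∀ x, 0 < x → x ≤ T → 0 ≤ wlc L x := by
    intro x hx hx'
    rw [wlc_eq hL0]
    exact mul_nonneg (hsin x hx hx') (Real.exp_pos _).le
  have hg0 : ∀ x, 0 ≤ g x := fun x => by rw [hg]; positivity
  have hgle : ∀ x, 0 < x → x ≤ T → g x ≤ √(omG G (2 * x)) * Real.sin (2 * π * x / L) *
      Real.exp (a0 + Cser c (2 * π * x / L)) := by
    intro x hx hx'
    have h1 := hsin x hx hx'
    have e : g x = √(omG G (2 * x)) * Real.sin (2 * π * x / L) * Real.exp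
        ((Cser (wf L) (2 * π * x / L) - sw L + Real.log 2) +
          ((∫ s, ρ s * UG G (x - s)) + F x)) := by
      rw [hg]
      simp only
      rw [abs_of_nonneg (hwl x hx hx'), wlc_eq hL0, Real.exp_add (Cser (wf L) (2 * π * x / L) -
        sw L + Real.log 2)]
      ring
    rw [e]
    refine mul_le_mul_of_nonneg_left (Real.exp_le_exp.2 ?_) (mul_nonneg (Real.sqrt_nonneg _) h1)
    have h2 := hfield (x := x) (by rw [abs_of_pos hx]; exact hx')
    have h3 := hF x hx hx'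
    rw [ha0]
    linarith
  have hcb := circ_boundC hG hT (by linarith : 2 * T + G ≤ L) n c hcs a0 _ τ hτ hRU haQ g hg0 hgle
  -- compare the integrands
  set C0 := (n : ℝ) / 2 * RG G 0 + 1 / 4 * ∫ s, ρ s * ∫ s', ρ s' * RG G (s - s') with hC0
  have hpt : ∀ t : Fin n → ℝ, t ∈ (Set.univ.pi fun _ : Fin n => Ioc 0 T) →
      TCF.fpom t * ∏ i, (wlc L (t i) * Real.exp ((∫ s, ρ s * V (t i - s)) + F (t i))) ≤
      Real.exp C0 * ((∏ i, ∏ j ∈ Finset.Ioi i, (omG G (t i - t j) * omG G (t i + t j))) *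
        ∏ i, g (t i)) := by
    intro t ht
    have h1 := fold_psd hG1 hρ hρe t
    have e1 : (∏ i, ∏ j ∈ Finset.Ioi i, (omG G (t i - t j) * omG G (t i + t j))) *
        ∏ i, √(omG G (2 * t i)) = TCF.fpom t *
          Real.exp (∑ i, ∑ j ∈ Finset.Ioi i, (RG G (t i - t j) + RG G (t i + t j)) +
            1 / 2 * ∑ i, RG G (2 * t i)) := by
      have a1 : ∀ x, omG G x = NU42.om x * Real.exp (RG G x) := fun x => rfl
      have a2 : ∀ x, √(omG G x) = √(NU42.om x) * Real.exp (1 / 2 * RG G x) := by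
        intro x
        rw [a1, Real.sqrt_mul (show 0 ≤ NU42.om x from om_nonneg x), show 1 / 2 * RG G x = RG G x / 2 by ring,
          Real.exp_half]
      unfold TCF.fpom
      simp_rw [a2, a1]
      rw [Real.exp_add, Real.exp_sum, Finset.mul_sum, Real.exp_sum]
      have a3 : ∏ i, ∏ j ∈ Finset.Ioi i, (NU42.om (t i - t j) * Real.exp (RG G (t i - t j)) *
          (NU42.om (t i + t j) * Real.exp (RG G (t i + t j)))) =
          (∏ i, ∏ j ∈ Finset.Ioi i, (NU42.om (t i - t j) * NU42.om (t i + t j))) *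
          ∏ i, Real.exp (∑ j ∈ Finset.Ioi i, (RG G (t i - t j) + RG G (t i + t j))) := by
        rw [← Finset.prod_mul_distrib]
        refine Finset.prod_congr rfl fun i _ => ?_
        rw [Real.exp_sum, ← Finset.prod_mul_distrib]
        refine Finset.prod_congr rfl fun j _ => ?_
        rw [Real.exp_add]
        ring
      rw [a3, Finset.prod_mul_distrib]
      ring
    have e2 : ∀ x, ∫ s, ρ s * V (x - s) = (∫ s, ρ s * UG G (x - s)) + ∫ s, ρ s * RG G (x - s) :=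
      fun x => V_split hG1 hρ hM x
    have e3 : ∏ i, g (t i) = (∏ i, √(omG G (2 * t i))) * ((∏ i, wlc L (t i)) *
        Real.exp (∑ i, ((∫ s, ρ s * UG G (t i - s)) + F (t i)))) := by
      rw [Real.exp_sum, ← Finset.prod_mul_distrib, ← Finset.prod_mul_distrib]
      refine Finset.prod_congr rfl fun i _ => ?_
      have := ht i (mem_univ i)
      rw [hg]
      simp only
      rw [abs_of_nonneg (hwl _ this.1 this.2)]
    have hw0 : 0 ≤ ∏ i, wlc L (t i) := Finset.prod_nonneg fun i _ =>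
      hwl _ (ht i (mem_univ i)).1 (ht i (mem_univ i)).2
    have hf0 := TCF.fpom_nonneg t
    rw [e3, ← mul_assoc (∏ i, ∏ j ∈ Finset.Ioi i, (omG G (t i - t j) * omG G (t i + t j))), e1,
      Finset.prod_mul_distrib, ← Real.exp_sum]
    have e4 : ∀ a b c p w : ℝ, Real.exp a * (p * Real.exp b * (w * Real.exp c)) =
        p * (w * Real.exp (a + b + c)) := by
      intro a b c p w
      rw [Real.exp_add, Real.exp_add]
      ring
    rw [e4]
    refine mul_le_mul_of_nonneg_left (mul_le_mul_of_nonneg_left (Real.exp_le_exp.2 ?_) hw0) hf0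
    simp_rw [e2]
    simp only [Finset.sum_add_distrib] at h1 ⊢
    rw [hC0]
    linarith
  have hm : MeasurableSet (Set.univ.pi fun _ : Fin n => Ioc (0 : ℝ) T) :=
    MeasurableSet.univ_pi fun _ => measurableSet_Ioc
  calc ∫⁻ t : Fin n → ℝ in Set.univ.pi fun _ => Ioc 0 T,
      ENNReal.ofReal (TCF.fpom t * ∏ i, (wlc L (t i) *
        Real.exp ((∫ s, ρ s * V (t i - s)) + F (t i)))) ≤
      ∫⁻ t : Fin n → ℝ in Set.univ.pi fun _ => Ioc 0 T,
        ENNReal.ofReal (Real.exp C0) * ENNReal.ofReal ((∏ i, ∏ j ∈ Finset.Ioi i,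
        (omG G (t i - t j) * omG G (t i + t j))) * ∏ i, g (t i)) := by
        refine setLIntegral_mono' hm fun t ht => ?_
        rw [← ENNReal.ofReal_mul (Real.exp_pos _).le]
        exact ENNReal.ofReal_le_ofReal (hpt t ht)
    _ = ENNReal.ofReal (Real.exp C0) * ∫⁻ t : Fin n → ℝ in Set.univ.pi fun _ => Ioc 0 T,
        ENNReal.ofReal ((∏ i, ∏ j ∈ Finset.Ioi i,
        (omG G (t i - t j) * omG G (t i + t j))) * ∏ i, g (t i)) := by
        rw [lintegral_const_mul' _ _ ENNReal.ofReal_ne_top]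
    _ ≤ ENNReal.ofReal (Real.exp C0) * _ := mul_le_mul_right hcb _
    _ = _ := by
        rw [← ENNReal.ofReal_mul (Real.exp_pos _).le]
        congr 1
        have e5 : (2 * π / √NUC62.cω) ^ n = (π / √NUC62.cω) ^ n * Real.exp (n * Real.log 2) := by
          rw [Real.exp_nat_mul, Real.exp_log two_pos, ← mul_pow]
          congr 1
          ring
        rw [e5]
        have e6 : EF G L n ρ f0 f + n * Real.log 2 = C0 + (n * a0 - (n : ℝ) ^ 2 * uG G L -
            (n : ℝ) / 2 * RG G 0 + (1 / 2 * ENF G L ρ f0 f - (SW L ρ + XW G L f) + eG G * L + 1) +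
            7 / 24 * L + err G L n / 2) := by
          rw [hC0, ha0]
          unfold EF ENF EI
          ring
        rw [show (n.factorial : ℝ) * ((π / √NUC62.cω) ^ n * Real.exp (n * Real.log 2)) *
          Real.exp (EF G L n ρ f0 f) * τ = (n.factorial : ℝ) * (π / √NUC62.cω) ^ n *
          Real.exp (EF G L n ρ f0 f + n * Real.log 2) * τ by rw [Real.exp_add]; ring, e6,
          Real.exp_add C0]
        ring

end

end TCW
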