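import Pool.Agent.FSz.TauS
import Pool.Agent.TC.TauU
import Pool.Agent.TC.WcF
import Pool.Agent.NUH0.One

/-!
# The error factor of the folded circular gas at a good density

Sequence form.  `cF G L ρ f` is the field of `wc1C`.  The coefficients of the density are split,
`(fc L ρ (p+1)).re = r1 p + r2 p`, `r1` regular, `r2` and the potential `f` of polylogarithmic size.
-/

set_option autoImplicit false

open MeasureTheory Set Filter Topology ProbabilityTheory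
open scoped Real NNReal ENNReal

namespace Pool.Agent.FSz.Tau

open NUMF NUC62 NUWC TCW

noncomputable section

variable {G L : ℝ}

/-- quotient of the loop factors -/
def th (G L : ℝ) (K1 p : ℕ) : ℝ :=
  NUC62.kp L p / (2 * π) * NUC62.uh G (NUC62.kp L p) * (1 - kap (wK G L K1) p)⁻¹

theorem kp2 (L : ℝ) (p : ℕ) : NUC62.kp L p / (2 * π) = ((p : ℝ) + 1) / L := by
  have hpi := Real.pi_pos
  unfold NUC62.kp
  field_simp

theorem th_le (hG : 9 ≤ G) (hL : 0 < L) (K1 p : ℕ) : th G L K1 p ≤ 1 := by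
  obtain ⟨h1, -⟩ := inv_kap hG hL K1 p
  have h2 := wK_half (G := G) (by linarith) hL K1 p
  unfold th
  rw [← div_eq_mul_inv, div_le_one h1]
  unfold kap
  exact h2

theorem th_low (hG : 9 ≤ G) (hL : 0 < L) {K1 p : ℕ} (hp : p < K1) : th G L K1 p = 1 := by
  obtain ⟨h1, -⟩ := inv_kap hG hL K1 p
  have h2 := wG_half (G := G) hL p
  unfold th
  rw [← div_eq_mul_inv, div_eq_one_iff_eq h1.ne', ← h2]
  unfold kap wK
  rw [if_pos hp]

theorem th_ge (hG : 9 ≤ G) (hL : 0 < L) (K1 p : ℕ) : 1 / 2 ≤ th G L K1 p := by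
  rcases lt_or_ge p K1 with hp | hp
  · rw [th_low hG hL hp]
    norm_num
  have hpi := Real.pi_pos
  obtain ⟨h1, -⟩ := inv_kap hG hL K1 p
  have hk := NUC62.kp_pos hL p
  have h2 := wG_half (G := G) hL p
  have h3 := NUC62.uh_ge hG hk
  have h4 := ratio_half hG hk
  have h5 := Vh_pos hk
  unfold th
  rw [← div_eq_mul_inv, le_div_iff₀ h1]
  have e : 1 - kap (wK G L K1) p = NUC62.kp L p / (2 * π) * Vh (NUC62.kp L p) := by
    unfold kap wK
    rw [if_neg (by omega)]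
    unfold wG uh at h2
    have e2 : ((p : ℝ) + 1) * (wc L p + 2 / L * RGh G (NUC62.kp L p)) / 2 =
        ((p : ℝ) + 1) * wc L p / 2 + NUC62.kp L p / (2 * π) * RGh G (NUC62.kp L p) := by
      rw [kp2]
      field_simp
    rw [e2] at h2
    linarith
  rw [e]
  have h6 : 1 / 2 * Vh (NUC62.kp L p) ≤ NUC62.uh G (NUC62.kp L p) := by
    refine le_trans ?_ h3
    gcongr
    linarith
  calc 1 / 2 * (NUC62.kp L p / (2 * π) * Vh (NUC62.kp L p)) =
      NUC62.kp L p / (2 * π) * (1 / 2 * Vh (NUC62.kp L p)) := by ring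
    _ ≤ _ := by gcongr

/-- what is left of the wall -/
def Wl (G L : ℝ) (K1 p : ℕ) : ℝ :=
  pr p * (Real.exp (-(sw L * (p + 1))) - kap (wK G L K1) p) * (1 - kap (wK G L K1) p)⁻¹

theorem cT_cF (hG : 9 ≤ G) (hL : 0 < L) (K1 : ℕ) (ρ : ℝ → ℝ) (f : ℕ → ℝ) (p : ℕ) :
    ((p : ℝ) + 1) * cT (wK G L K1) (cF G L ρ f) p =
      L * (fc L ρ (p + 1)).re * th G L K1 p +
        ((p : ℝ) + 1) * f p * (1 - kap (wK G L K1) p)⁻¹ + Wl G L K1 p := by
  obtain ⟨h1, -⟩ := inv_kap hG hL K1 p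
  have hp : (0 : ℝ) < (p : ℝ) + 1 := by positivity
  have h2 := cF_sub (G := G) (L := L) ρ f p
  unfold cT
  rw [ek_el, h2, el_eq]
  unfold aF TCW.wz th Wl
  rw [uk_kp (by linarith : (1:ℝ) ≤ G) hL, kp2]
  set x := 1 - kap (wK G L K1) p with hx
  have e : kap (wK G L K1) p = 1 - x := by rw [hx]; ring
  rw [e]
  field_simp
  ring

theorem Wl_le (hG : 9 ≤ G) (hL : 0 < L) (K1 p : ℕ) : |Wl G L K1 p| ≤
    (3 * Real.exp (-(sw L * (p + 1))) + L / 256 / (p + 1)) * (2 * L + 13) := by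
  have hpi := Real.pi_pos
  have hpi2 : π < 3.15 := Real.pi_lt_d2
  have hp : (0 : ℝ) < (p : ℝ) + 1 := by positivity
  have hp1 : (1 : ℝ) ≤ (p : ℝ) + 1 := by
    have : (0:ℝ) ≤ p := Nat.cast_nonneg p
    linarith
  obtain ⟨h1, h2⟩ := inv_kap hG hL K1 p
  have h3 := wK_le' hG hL K1 p
  have h4 := kap_nonneg hG hL K1 p
  have hi : 0 < (1 - kap (wK G L K1) p)⁻¹ := inv_pos.2 h1
  have h5 : (1 - kap (wK G L K1) p)⁻¹ ≤ 2 * L + 13 := by
    refine h2.trans ?_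
    have : 2 * L / ((p : ℝ) + 1) ≤ 2 * L := div_le_self (by positivity) hp1
    linarith
  have h6 : kap (wK G L K1) p ≤ 2 * Real.exp (-(sw L * (p + 1))) + L / 256 / (p + 1) := by
    unfold kap
    have e1 : π ^ 2 / (4 * L) = sw L := rfl
    rw [e1] at h3
    calc ((p : ℝ) + 1) * wK G L K1 p / 2 ≤ ((p : ℝ) + 1) *
        (4 / ((p : ℝ) + 1) * Real.exp (-(sw L * ((p : ℝ) + 1))) + L / 128 / ((p : ℝ) + 1) ^ 2) / 2 := by
          gcongr
      _ = _ := by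
        field_simp
        ring
  have hE := Real.exp_pos (-(sw L * (p + 1)))
  have h7 : |Real.exp (-(sw L * (p + 1))) - kap (wK G L K1) p| ≤
      3 * Real.exp (-(sw L * (p + 1))) + L / 256 / (p + 1) := by
    rw [abs_le]
    have : 0 ≤ L / 256 / ((p : ℝ) + 1) := by positivity
    constructor <;> linarith
  unfold Wl
  rw [abs_mul, abs_mul, abs_of_pos hi, abs_of_nonneg (pr_nonneg p)]
  calc pr p * |Real.exp (-(sw L * (p + 1))) - kap (wK G L K1) p| * (1 - kap (wK G L K1) p)⁻¹ ≤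
      1 * (3 * Real.exp (-(sw L * (p + 1))) + L / 256 / (p + 1)) * (2 * L + 13) := by
        gcongr
        exact pr_le p
    _ = _ := by ring

theorem inv_sq_sum (K : ℕ) : ∑ p ∈ Finset.range K, 1 / ((p : ℝ) + 1) ^ 2 ≤ 2 := by
  have key : ∀ K : ℕ, ∑ p ∈ Finset.range (K + 1), 1 / ((p : ℝ) + 1) ^ 2 ≤ 2 - 1 / ((K : ℝ) + 1) := by
    intro K
    induction K with
    | zero => norm_num
    | succ K ih =>
      rw [Finset.sum_range_succ]
      have hK : (0 : ℝ) ≤ K := Nat.cast_nonneg K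
      have h1 : 1 / (((K + 1 : ℕ) : ℝ) + 1) ^ 2 ≤ 1 / ((K : ℝ) + 1) - 1 / (((K + 1 : ℕ) : ℝ) + 1) := by
        push_cast
        rw [div_sub_div _ _ (by positivity) (by positivity), div_le_div_iff₀ (by positivity) (by positivity)]
        nlinarith
      linarith
  rcases K with _ | K
  · simp
  · refine (key K).trans ?_
    have : 0 ≤ 1 / ((K : ℝ) + 1) := by positivity
    linarith

theorem sum_Wl (hG : 9 ≤ G) (hL : 0 < L) (K1 K : ℕ) : ∑ p ∈ Finset.range K, Wl G L K1 p ^ 2 ≤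
    (2 * L + 13) ^ 2 * (5 * L + L ^ 2 / 16384) := by
  have hpi := Real.pi_gt_three
  have h1 : ∀ p ∈ Finset.range K, Wl G L K1 p ^ 2 ≤ (2 * L + 13) ^ 2 *
      (18 * Real.exp (-(2 * sw L * ((p : ℝ) + 1))) + L ^ 2 / 32768 * (1 / ((p : ℝ) + 1) ^ 2)) := by
    intro p _
    have hp : (0 : ℝ) < (p : ℝ) + 1 := by positivity
    have h2 := Wl_le hG hL K1 p
    have e1 : Real.exp (-(2 * sw L * ((p : ℝ) + 1))) = Real.exp (-(sw L * ((p : ℝ) + 1))) ^ 2 := by
      rw [← Real.exp_nat_mul]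
      congr 1
      push_cast
      ring
    set x := Real.exp (-(sw L * ((p : ℝ) + 1))) with hx
    have hx0 : 0 < x := Real.exp_pos _
    set y := L / 256 / ((p : ℝ) + 1) with hy
    have hy0 : 0 < y := by positivity
    have e2 : L ^ 2 / 32768 * (1 / ((p : ℝ) + 1) ^ 2) = 2 * y ^ 2 := by
      rw [hy]
      field_simp
      ring
    rw [e1, e2, ← sq_abs]
    calc |Wl G L K1 p| ^ 2 ≤ ((3 * x + y) * (2 * L + 13)) ^ 2 := by gcongr
      _ = (2 * L + 13) ^ 2 * (3 * x + y) ^ 2 := by ring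
      _ ≤ _ := by
        gcongr
        nlinarith [sq_nonneg (3 * x - y)]
  refine (Finset.sum_le_sum h1).trans ?_
  rw [← Finset.mul_sum, Finset.sum_add_distrib, ← Finset.mul_sum, ← Finset.mul_sum]
  have h2 := geom_tail (a := 2 * sw L) (by have := sw_pos hL; positivity) K
  have h3 := inv_sq_sum K
  have h4 : 1 / (2 * sw L) ≤ 5 / 18 * L := by
    unfold sw
    rw [div_le_iff₀ (by positivity)]
    have : 5 / 18 * L * (2 * (π ^ 2 / (4 * L))) = 5 / 36 * π ^ 2 := by field_simp; ring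
    rw [this]
    nlinarith
  calc (2 * L + 13) ^ 2 * (18 * ∑ p ∈ Finset.range K, Real.exp (-(2 * sw L * ((p : ℝ) + 1))) +
      L ^ 2 / 32768 * ∑ p ∈ Finset.range K, 1 / ((p : ℝ) + 1) ^ 2) ≤
      (2 * L + 13) ^ 2 * (18 * (5 / 18 * L) + L ^ 2 / 32768 * 2) := by
        gcongr
        exact h2.trans h4
    _ = _ := by ring

/-- **size of the irregular part** -/
theorem V2_le (hG : 9 ≤ G) (hL : 0 < L) {l : ℝ} (hl : 1000 ≤ l) (hLl : L ≤ l) {K1 : ℕ} (hK1 : 1 ≤ K1)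
    {ρ : ℝ → ℝ} {f r1 r2 : ℕ → ℝ} (hr : ∀ p : ℕ, (fc L ρ (p + 1)).re = r1 p + r2 p)
    (h2 : ∀ K, ∑ p ∈ Finset.range K, r2 p ^ 2 ≤ l ^ 5)
    (hf : ∀ K, ∑ p ∈ Finset.range K, (((p : ℝ) + 1) * f p) ^ 2 ≤ l ^ 5)
    (h1 : ∀ K, ∑ p ∈ Finset.range K, (((p : ℝ) + 1) ^ 2 * r1 p) ^ 2 ≤ (K1 : ℝ) ^ 4 * l ^ 5) (K : ℕ) :
    V2 (fun k : Fin K => cT (wK G L K1) (cF G L ρ f) k - L * r1 k / ((k : ℕ) + 1 : ℝ)) ≤ l ^ 8 := by
  have hpi := Real.pi_pos
  have hpi2 : π < 3.15 := Real.pi_lt_d2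
  have hl0 : 0 < l := by linarith
  have hK1r : (1 : ℝ) ≤ K1 := by exact_mod_cast hK1
  unfold V2
  rw [Fin.sum_univ_eq_sum_range (fun k => (((k : ℝ) + 1) *
    (cT (wK G L K1) (cF G L ρ f) k - L * r1 k / ((k : ℝ) + 1))) ^ 2) K]
  have hpt : ∀ p ∈ Finset.range K, (((p : ℝ) + 1) *
      (cT (wK G L K1) (cF G L ρ f) p - L * r1 p / ((p : ℝ) + 1))) ^ 2 ≤
      4 * (L ^ 2 * r2 p ^ 2 + L ^ 2 / 4 / (K1 : ℝ) ^ 4 * (((p : ℝ) + 1) ^ 2 * r1 p) ^ 2 +
        (2 * L + 13) ^ 2 * (((p : ℝ) + 1) * f p) ^ 2 + Wl G L K1 p ^ 2) := by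
    intro p _
    have hp : (0 : ℝ) < (p : ℝ) + 1 := by positivity
    have hp1 : (1 : ℝ) ≤ (p : ℝ) + 1 := by
      have : (0:ℝ) ≤ p := Nat.cast_nonneg p
      linarith
    have e := cT_cF hG hL K1 ρ f p
    rw [hr] at e
    obtain ⟨g1, g2⟩ := inv_kap hG hL K1 p
    have hi : 0 < (1 - kap (wK G L K1) p)⁻¹ := inv_pos.2 g1
    have g3 : (1 - kap (wK G L K1) p)⁻¹ ≤ 2 * L + 13 := by
      refine g2.trans ?_
      have : 2 * L / ((p : ℝ) + 1) ≤ 2 * L := div_le_self (by positivity) hp1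
      linarith
    have t1 := th_le hG hL K1 p
    have t2 := th_ge hG hL K1 p
    set θ := th G L K1 p with hθ
    set i := (1 - kap (wK G L K1) p)⁻¹ with hi'
    set W := Wl G L K1 p with hW
    have e2 : ((p : ℝ) + 1) * (cT (wK G L K1) (cF G L ρ f) p - L * r1 p / ((p : ℝ) + 1)) =
        L * r2 p * θ + L * r1 p * (θ - 1) + ((p : ℝ) + 1) * f p * i + W := by
      rw [mul_sub, e]
      field_simp
      ring
    rw [e2]
    have s1 : (L * r2 p * θ) ^ 2 ≤ L ^ 2 * r2 p ^ 2 := by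
      have : θ ^ 2 ≤ 1 := by nlinarith
      calc (L * r2 p * θ) ^ 2 = L ^ 2 * r2 p ^ 2 * θ ^ 2 := by ring
        _ ≤ L ^ 2 * r2 p ^ 2 * 1 := by gcongr
        _ = _ := by ring
    have s3 : (((p : ℝ) + 1) * f p * i) ^ 2 ≤ (2 * L + 13) ^ 2 * (((p : ℝ) + 1) * f p) ^ 2 := by
      have : i ^ 2 ≤ (2 * L + 13) ^ 2 := by gcongr
      calc (((p : ℝ) + 1) * f p * i) ^ 2 = i ^ 2 * (((p : ℝ) + 1) * f p) ^ 2 := by ring
        _ ≤ _ := by gcongr
    have s2 : (L * r1 p * (θ - 1)) ^ 2 ≤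
        L ^ 2 / 4 / (K1 : ℝ) ^ 4 * (((p : ℝ) + 1) ^ 2 * r1 p) ^ 2 := by
      rcases lt_or_ge p K1 with hpK | hpK
      · have : θ = 1 := th_low hG hL hpK
        rw [this, sub_self, mul_zero, zero_pow two_ne_zero]
        positivity
      · have h5 : (θ - 1) ^ 2 ≤ 1 / 4 := by nlinarith
        have h6 : (K1 : ℝ) ≤ (p : ℝ) + 1 := by
          have : (K1 : ℝ) ≤ (p : ℝ) := by exact_mod_cast hpK
          linarith
        have h7 : (K1 : ℝ) ^ 4 ≤ ((p : ℝ) + 1) ^ 4 := by gcongr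
        calc (L * r1 p * (θ - 1)) ^ 2 = L ^ 2 * r1 p ^ 2 * (θ - 1) ^ 2 := by ring
          _ ≤ L ^ 2 * r1 p ^ 2 * (1 / 4) := by gcongr
          _ = L ^ 2 / 4 / (K1 : ℝ) ^ 4 * ((K1 : ℝ) ^ 4 * r1 p ^ 2) := by field_simp
          _ ≤ L ^ 2 / 4 / (K1 : ℝ) ^ 4 * (((p : ℝ) + 1) ^ 4 * r1 p ^ 2) := by gcongr
          _ = _ := by ring
    generalize L * r2 p * θ = a at *
    generalize L * r1 p * (θ - 1) = b at *
    generalize ((p : ℝ) + 1) * f p * i = c at *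
    nlinarith [sq_nonneg (a - b), sq_nonneg (a - c), sq_nonneg (a - W), sq_nonneg (b - c),
      sq_nonneg (b - W), sq_nonneg (c - W)]
  refine (Finset.sum_le_sum hpt).trans ?_
  rw [← Finset.mul_sum, Finset.sum_add_distrib, Finset.sum_add_distrib, Finset.sum_add_distrib,
    ← Finset.mul_sum, ← Finset.mul_sum, ← Finset.mul_sum]
  have q1 := h2 K
  have q2 := h1 K
  have q3 := hf K
  have q4 := sum_Wl hG hL K1 K
  calc 4 * (L ^ 2 * ∑ p ∈ Finset.range K, r2 p ^ 2 +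
      L ^ 2 / 4 / (K1 : ℝ) ^ 4 * ∑ p ∈ Finset.range K, (((p : ℝ) + 1) ^ 2 * r1 p) ^ 2 +
      (2 * L + 13) ^ 2 * ∑ p ∈ Finset.range K, (((p : ℝ) + 1) * f p) ^ 2 +
      ∑ p ∈ Finset.range K, Wl G L K1 p ^ 2) ≤
      4 * (l ^ 2 * l ^ 5 + l ^ 2 / 4 / (K1 : ℝ) ^ 4 * ((K1 : ℝ) ^ 4 * l ^ 5) +
        (2 * l + 13) ^ 2 * l ^ 5 + (2 * l + 13) ^ 2 * (5 * l + l ^ 2 / 16384)) := by
        gcongr
        refine q4.trans ?_
        gcongr
    _ = 4 * (l ^ 2 * l ^ 5 + l ^ 2 / 4 * l ^ 5 +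
        (2 * l + 13) ^ 2 * l ^ 5 + (2 * l + 13) ^ 2 * (5 * l + l ^ 2 / 16384)) := by
        field_simp
    _ ≤ 4 * (l ^ 2 * l ^ 5 + l ^ 2 / 4 * l ^ 5 + (5 * l ^ 2) * l ^ 5 + (5 * l ^ 2) * (l ^ 2)) := by
        have a1 : (2 * l + 13) ^ 2 ≤ 5 * l ^ 2 := by nlinarith
        have a2 : 5 * l + l ^ 2 / 16384 ≤ l ^ 2 := by nlinarith
        gcongr
    _ = 25 * l ^ 7 + 20 * l ^ 4 := by ring
    _ ≤ l * l ^ 7 := by
        have a3 : l ^ 4 ≤ l ^ 7 := pow_le_pow_right₀ (by linarith) (by norm_num)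
        have a4 : 0 < l ^ 7 := by positivity
        nlinarith
    _ = _ := by ring

theorem cs1 {r : ℕ → ℝ} {H : ℝ}
    (h1 : ∀ K, ∑ p ∈ Finset.range K, (((p : ℝ) + 1) ^ 2 * r p) ^ 2 ≤ H) (K : ℕ) :
    ∑ p ∈ Finset.range K, ((p : ℝ) + 1) * |r p| ≤ √(2 * H) := by
  apply Real.le_sqrt_of_sq_le
  have h2 := Finset.sum_mul_sq_le_sq_mul_sq (Finset.range K)
    (fun p => ((p : ℝ) + 1) ^ 2 * |r p|) (fun p => 1 / ((p : ℝ) + 1))
  have e1 : ∀ p ∈ Finset.range K, ((p : ℝ) + 1) ^ 2 * |r p| * (1 / ((p : ℝ) + 1)) =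
      ((p : ℝ) + 1) * |r p| := by
    intro p _
    have hp : (0 : ℝ) < (p : ℝ) + 1 := by positivity
    field_simp
  have e2 : ∀ p ∈ Finset.range K, (((p : ℝ) + 1) ^ 2 * |r p|) ^ 2 = (((p : ℝ) + 1) ^ 2 * r p) ^ 2 := by
    intro p _
    rw [mul_pow, sq_abs, mul_pow]
  have e3 : ∀ p ∈ Finset.range K, (1 / ((p : ℝ) + 1)) ^ 2 = 1 / ((p : ℝ) + 1) ^ 2 := by
    intro p _
    rw [div_pow, one_pow]
  rw [Finset.sum_congr rfl e1, Finset.sum_congr rfl e2, Finset.sum_congr rfl e3] at h2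
  refine h2.trans ?_
  have h3 := h1 K
  have h4 := inv_sq_sum K
  have h5 : 0 ≤ ∑ p ∈ Finset.range K, 1 / ((p : ℝ) + 1) ^ 2 :=
    Finset.sum_nonneg fun p _ => by positivity
  have h6 : 0 ≤ ∑ p ∈ Finset.range K, (((p : ℝ) + 1) ^ 2 * r p) ^ 2 :=
    Finset.sum_nonneg fun p _ => by positivity
  nlinarith

theorem sum_abs_le {r : ℕ → ℝ} {H : ℝ}
    (h1 : ∀ K, ∑ p ∈ Finset.range K, (((p : ℝ) + 1) ^ 2 * r p) ^ 2 ≤ H) (K : ℕ) :
    ∑ p ∈ Finset.range K, |r p| ≤ √(2 * H) := by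
  refine le_trans (Finset.sum_le_sum fun p _ => ?_) (cs1 h1 K)
  have : (0:ℝ) ≤ p := Nat.cast_nonneg p
  have := abs_nonneg (r p)
  nlinarith

theorem Cser_trunc {c : ℕ → ℝ} (hc : Summable fun k => |c k|) {ε : ℝ} (hε : 0 < ε) :
    ∃ K0 : ℕ, ∀ K, K0 ≤ K → ∀ x,
      |∑ k ∈ Finset.range K, 2 * c k * Real.cos (((k : ℝ) + 1) * x) - Cser c x| ≤ ε := by
  have h1 : Tendsto (fun i => ∑' k, 2 * |c (k + i)|) atTop (𝓝 0) :=
    tendsto_sum_nat_add fun k => 2 * |c k|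
  have h2 := (tendsto_order.1 h1).2 ε hε
  obtain ⟨K0, hK0⟩ := eventually_atTop.1 h2
  refine ⟨K0, fun K hK x => ?_⟩
  have hs2 : Summable fun k => 2 * |c k| := hc.mul_left 2
  have hs : Summable fun k : ℕ => 2 * c k * Real.cos (((k : ℝ) + 1) * x) :=
    Summable.of_norm_bounded hs2 fun k => by
      rw [Real.norm_eq_abs, abs_mul, abs_mul, abs_two]
      exact mul_le_of_le_one_right (by positivity) (Real.abs_cos_le_one _)
  have h3 := hs.sum_add_tsum_nat_add K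
  unfold Cser
  rw [← h3, sub_add_cancel_left, abs_neg]
  have hsK : Summable fun k : ℕ => 2 * |c (k + K)| := (summable_nat_add_iff K).2 hs2
  have h4 : ‖∑' i : ℕ, 2 * c (i + K) * Real.cos ((((i + K : ℕ) : ℝ) + 1) * x)‖ ≤
      ∑' i : ℕ, 2 * |c (i + K)| := by
    refine tsum_of_norm_bounded hsK.hasSum fun i => ?_
    rw [Real.norm_eq_abs, abs_mul, abs_mul, abs_two]
    exact mul_le_of_le_one_right (by positivity) (Real.abs_cos_le_one _)
  exact h4.trans (hK0 K hK).le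

theorem exp_ge_cube {x : ℝ} (hx : 0 ≤ x) : x ^ 3 / 6 ≤ Real.exp x := by
  have := Real.pow_div_factorial_le_exp x hx 3
  simpa [Nat.factorial] using this

/-- **good density, sequence form** -/
theorem hT_seq (hG : 9 ≤ G) (hL : 0 < L) {l : ℝ} (hl : 1000 ≤ l) (hLl : L ≤ l) (n : ℕ) {K1 : ℕ}
    (hK1 : 1 ≤ K1) (hn : (n : ℝ) ≤ Real.exp (l / 4)) (hK1l : (K1 : ℝ) ≤ Real.exp (l / 2))
    {ρ : ℝ → ℝ} {f r1 r2 : ℕ → ℝ} (hr : ∀ p : ℕ, (fc L ρ (p + 1)).re = r1 p + r2 p)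
    (h2 : ∀ K, ∑ p ∈ Finset.range K, r2 p ^ 2 ≤ l ^ 5)
    (hf : ∀ K, ∑ p ∈ Finset.range K, (((p : ℝ) + 1) * f p) ^ 2 ≤ l ^ 5) {H : ℝ}
    (h1 : ∀ K, ∑ p ∈ Finset.range K, (((p : ℝ) + 1) ^ 2 * r1 p) ^ 2 ≤ H)
    (hH : H ≤ (K1 : ℝ) ^ 4 * l ^ 5) (hHl : √(2 * H) ≤ Real.exp (l / 4))
    {P b b' B' : ℝ} (hP : 8 * l ^ 21 ≤ P) (hPH : 2 * L * √(2 * H) * l ≤ P ^ 2)
    (hb0 : 1 / l ^ 4 ≤ b) (hb : b ≤ π / 2) (hb0' : 1 / l ^ 4 ≤ b') (hb' : b' ≤ π / 2)
    (hB0 : 0 < B') (hB' : B' ≤ l ^ 21)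
    (g1 : ∀ x, 0 ≤ x → x ≤ b → P + 1 ≤ 2 * n + 1 + Cser (fun p => L * r1 p) x)
    (g2 : ∀ x, 0 ≤ x → x ≤ b → 2 * n + 1 + Cser (fun p => L * r1 p) x ≤ 8 * P - 1)
    (g3 : ∀ x, 0 ≤ x → x ≤ b' → |2 * n + 1 + Cser (fun p => L * r1 p) (π - x)| ≤ B' - 1) :
    ∃ K0 : ℕ, ∀ K, K0 ≤ K → ∫⁻ x : Fin K → ℝ,
      ENNReal.ofReal (Real.exp (TT n fun k : Fin K => cT (wK G L K1) (cF G L ρ f) k + x k))
        ∂(Measure.pi fun k : Fin K => gaussianReal 0 (vT (wK G L K1) k)) ≤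
      ENNReal.ofReal (Real.exp (60 + 8 * Real.log l)) := by
  have hpi := Real.pi_pos
  have hpi2 : π < 3.15 := Real.pi_lt_d2
  have hl0 : 0 < l := by linarith
  have hsum : Summable fun p => |L * r1 p| := by
    have h3 : Summable fun p => |r1 p| :=
      summable_of_sum_range_le (fun p => abs_nonneg _) (sum_abs_le h1)
    refine (h3.mul_left L).congr fun p => ?_
    rw [abs_mul, abs_of_pos hL]
  obtain ⟨K0, hK0⟩ := Cser_trunc hsum one_pos
  refine ⟨K0, fun K hK => ?_⟩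
  have htr := hK0 K hK
  set a : Fin K → ℝ := fun k => L * r1 k / ((k : ℕ) + 1 : ℝ) with ha
  set d : Fin K → ℝ := fun k => cT (wK G L K1) (cF G L ρ f) k - L * r1 k / ((k : ℕ) + 1 : ℝ) with hd
  have hV : V2 d ≤ l ^ 8 := V2_le hG hL hl hLl hK1 hr h2 hf (fun K => (h1 K).trans hH) K
  have e1 : ∀ x, Psi1 n a x = 2 * n + 1 +
      ∑ k ∈ Finset.range K, 2 * (L * r1 k) * Real.cos (((k : ℝ) + 1) * x) := by
    intro x
    unfold Psi1
    rw [Finset.mul_sum, ← Fin.sum_univ_eq_sum_range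
      (fun k => 2 * (L * r1 k) * Real.cos (((k : ℝ) + 1) * x)) K]
    congr 1
    refine Finset.sum_congr rfl fun k _ => ?_
    have hp : (0 : ℝ) < ((k : ℕ) : ℝ) + 1 := by positivity
    rw [ha]
    field_simp
  have e2 : ∀ x, |Psi2 a x| ≤ 2 * L * √(2 * H) := by
    intro x
    unfold Psi2
    rw [abs_neg, abs_mul, abs_two, mul_assoc]
    refine mul_le_mul_of_nonneg_left ?_ (by norm_num)
    refine (Finset.abs_sum_le_sum_abs _ _).trans ?_
    have h3 := cs1 h1 K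
    rw [← Fin.sum_univ_eq_sum_range (fun p => ((p : ℝ) + 1) * |r1 p|) K] at h3
    refine le_trans ?_ (mul_le_mul_of_nonneg_left h3 hL.le)
    rw [Finset.mul_sum]
    refine Finset.sum_le_sum fun k _ => ?_
    have hp : (0 : ℝ) < ((k : ℕ) : ℝ) + 1 := by positivity
    rw [abs_mul, abs_mul, abs_of_pos (by positivity : (0:ℝ) < (((k : ℕ) : ℝ) + 1) ^ 2), ha]
    simp only
    rw [abs_div, abs_mul, abs_of_pos hL, abs_of_pos hp]
    calc (((k : ℕ) : ℝ) + 1) ^ 2 * (L * |r1 k| / (((k : ℕ) : ℝ) + 1)) *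
        |Real.sin ((((k : ℕ) : ℝ) + 1) * x)| ≤
        (((k : ℕ) : ℝ) + 1) ^ 2 * (L * |r1 k| / (((k : ℕ) : ℝ) + 1)) * 1 := by
          gcongr
          exact Real.abs_sin_le_one _
      _ = _ := by field_simp
  have e3 : BT n a ≤ 2 * n + 1 + 2 * L * √(2 * H) := by
    unfold BT
    have h3 := sum_abs_le h1 K
    rw [← Fin.sum_univ_eq_sum_range (fun p => |r1 p|) K] at h3
    have h4 : ∑ k : Fin K, (((k : ℕ) : ℝ) + 1) * |a k| = L * ∑ k : Fin K, |r1 k| := by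
      rw [Finset.mul_sum]
      refine Finset.sum_congr rfl fun k _ => ?_
      have hp : (0 : ℝ) < ((k : ℕ) : ℝ) + 1 := by positivity
      rw [ha]
      simp only
      rw [abs_div, abs_mul, abs_of_pos hL, abs_of_pos hp]
      field_simp
    rw [h4]
    have h5 := mul_le_mul_of_nonneg_left h3 hL.le
    linarith
  -- numbers
  have hE0 := Real.exp_pos (l / 4)
  have x1 : (l / 2) ^ 3 / 6 ≤ Real.exp (l / 2) := exp_ge_cube (by positivity)
  have x2 : 20 * l ^ 2 ≤ Real.exp (l / 2) := by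
    refine le_trans ?_ x1
    nlinarith [sq_nonneg l]
  have x3 : Real.exp l = Real.exp (l / 2) * Real.exp (l / 2) := by
    rw [← Real.exp_add]; congr 1; ring
  have x4 : Real.exp (l / 4) ≤ Real.exp (l / 2) := Real.exp_le_exp.2 (by linarith)
  have hsq0 := Real.sqrt_nonneg (2 * H)
  have hn0 : (0 : ℝ) ≤ n := Nat.cast_nonneg n
  have hBT : 1 + π / 2 * BT n a ≤ Real.exp l := by
    have y1 : BT n a ≤ 2 * Real.exp (l / 2) + 1 + 2 * l * Real.exp (l / 2) := by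
      refine e3.trans ?_
      gcongr
      · exact hn.trans x4
      · exact hHl.trans x4
    have y2 : 1 + π / 2 * BT n a ≤ 1 + 2 * (2 * Real.exp (l / 2) + 1 + 2 * l * Real.exp (l / 2)) := by
      have : π / 2 ≤ 2 := by linarith
      have hb0 : 0 ≤ BT n a := by
        unfold BT
        have : 0 ≤ ∑ k : Fin K, (((k : ℕ) : ℝ) + 1) * |a k| :=
          Finset.sum_nonneg fun k _ => by positivity
        positivity
      have := mul_le_mul this y1 hb0 (by norm_num)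
      linarith
    refine y2.trans ?_
    rw [x3]
    have hE2 := Real.exp_pos (l / 2)
    have y3 : 20 * l ^ 2 * Real.exp (l / 2) ≤ Real.exp (l / 2) * Real.exp (l / 2) := by gcongr
    refine le_trans ?_ y3
    have y4 : 1 ≤ Real.exp (l / 2) := Real.one_le_exp (by positivity)
    have y5 : 1000 * l ≤ l ^ 2 := by nlinarith
    have y6 : (20000 * l) * Real.exp (l / 2) ≤ 20 * l ^ 2 * Real.exp (l / 2) :=
      mul_le_mul_of_nonneg_right (by linarith) hE2.le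
    refine le_trans ?_ y6
    nlinarith
  have hBT0 : 0 ≤ BT n a := by
    unfold BT
    have : 0 ≤ ∑ k : Fin K, (((k : ℕ) : ℝ) + 1) * |a k| :=
      Finset.sum_nonneg fun k _ => by positivity
    positivity
  have hNW : π / 2 * NW L K1 ≤ Real.exp l := by
    unfold NW
    have z1 : (K1 : ℝ) + 3 * L ^ 2 ≤ 1.15 * Real.exp (l / 2) := by
      have : L ^ 2 ≤ l ^ 2 := by gcongr
      linarith
    have z2 : L ^ 2 + 16 * L + 26 ≤ 2 * l ^ 2 := by
      have : L ^ 2 ≤ l ^ 2 := by gcongr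
      nlinarith
    have z3 : 0 ≤ L ^ 2 + 16 * L + 26 := by positivity
    calc π / 2 * (((K1 : ℝ) + 3 * L ^ 2) * (L ^ 2 + 16 * L + 26)) ≤
        2 * ((1.15 * Real.exp (l / 2)) * (2 * l ^ 2)) := by
          gcongr
          linarith
      _ ≤ Real.exp (l / 2) * (20 * l ^ 2) := by
          have := Real.exp_pos (l / 2)
          have : 0 < Real.exp (l / 2) * l ^ 2 := by positivity
          nlinarith
      _ ≤ Real.exp (l / 2) * Real.exp (l / 2) := by gcongr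
      _ = _ := x3.symm
  have hl21 : 0 < l ^ 21 := by positivity
  have hP0 : 0 < P := by linarith
  have hPB : P ≤ BT n a := by
    have h3 := g1 0 le_rfl (le_trans (by positivity) hb0)
    have h4 := abs_le.1 (htr 0)
    have h5 : Psi1 n a 0 ≤ BT n a := by
      unfold Psi1 BT
      have h6 : ∑ k : Fin K, (((k : ℕ) : ℝ) + 1) * a k * Real.cos ((((k : ℕ) : ℝ) + 1) * 0) ≤
          ∑ k : Fin K, (((k : ℕ) : ℝ) + 1) * |a k| := by
        refine Finset.sum_le_sum fun k _ => ?_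
        have hp : (0 : ℝ) < ((k : ℕ) : ℝ) + 1 := by positivity
        rw [mul_zero, Real.cos_zero, mul_one]
        exact mul_le_mul_of_nonneg_left (le_abs_self _) hp.le
      linarith
    rw [e1] at h5
    linarith [h4.1]
  have key := avgS n (vT (wK G L K1)) (D := 16 * L + L ^ 2) (N := NW L K1) (l := l) (by linarith)
    (NW_ge hL hK1) (fun k => vT_le hG hL K1 k) (by nlinarith)
    (vT_sum hG hL K1 K) (by
      have hN := NW_ge hL hK1
      rw [← Real.log_exp l]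
      exact Real.log_le_log (by positivity) hNW) a d hV
    (P := P) (A := 8) (R := 2 * L * √(2 * H)) (b := b) (b' := b') (B' := B') hP hb0 hb hb0' hb'
    (by positivity) hPH (by
      rw [← Real.log_exp l]
      apply Real.log_le_log (by linarith)
      refine le_trans ?_ hBT
      have : BT n a ≤ π / 2 * BT n a := by
        have : 1 ≤ π / 2 := by linarith [Real.pi_gt_three]
        nlinarith
      linarith) (by
      rw [← Real.log_exp l]
      apply Real.log_le_log (by positivity) hBT) le_rfl hB0 hB'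
    (fun x h5 h6 => by
      have h3 := g1 x h5 h6
      have h4 := abs_le.1 (htr x)
      rw [e1]
      linarith [h4.1])
    (fun x h5 h6 => by
      have h3 := g2 x h5 h6
      have h4 := abs_le.1 (htr x)
      rw [e1]
      linarith [h4.2])
    (fun x _ _ => e2 x)
    (fun x h5 h6 => by
      have h3 := abs_le.1 (g3 x h5 h6)
      have h4 := abs_le.1 (htr (π - x))
      rw [e1, abs_le]
      constructor
      · linarith [h4.1, h3.1]
      · linarith [h4.2, h3.2])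
  refine le_trans (le_of_eq ?_) key
  unfold gam
  congr 1
  funext x
  congr 3
  funext k
  rw [ha, hd]
  simp only
  ring

/-! ### functions -/

open NUC37 (C1P)

/-- Bessel, one side -/
theorem bessel (hL : 0 < L) {g : ℝ → ℝ} (hg : ContinuousOn g (Icc (-(L / 2)) (L / 2))) (K : ℕ) :
    ∑ p ∈ Finset.range K, ‖fc L g (p + 1)‖ ^ 2 ≤ 1 / (2 * L) * ∫ x in (-(L / 2))..(L / 2), g x ^ 2 := by
  obtain ⟨s1, e1⟩ := NUC37.parseval_half hL hg
  have h1 : ∑ p ∈ Finset.range K, L * ‖fc L g (p + 1)‖ ^ 2 ≤ ∑' p : ℕ, L * ‖fc L g (p + 1)‖ ^ 2 :=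
    s1.sum_le_tsum _ fun p _ => by positivity
  have h2 : 0 ≤ L * ‖fc L g 0‖ ^ 2 := by positivity
  rw [← Finset.mul_sum] at h1
  rw [div_mul_eq_mul_div, one_mul, le_div_iff₀ (by positivity)]
  linarith

/-- first derivative -/
theorem bessel1 (hL : 0 < L) {g g' : ℝ → ℝ} (h : C1P L g g') (K : ℕ) :
    ∑ p ∈ Finset.range K, (((p : ℝ) + 1) * ‖fc L g (p + 1)‖) ^ 2 ≤
      L / (8 * π ^ 2) * ∫ x in (-(L / 2))..(L / 2), g' x ^ 2 := by
  have hpi := Real.pi_pos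
  have h1 := bessel hL h.cont' K
  have e : ∀ p ∈ Finset.range K, (((p : ℝ) + 1) * ‖fc L g (p + 1)‖) ^ 2 =
      (L / (2 * π)) ^ 2 * ‖fc L g' (p + 1)‖ ^ 2 := by
    intro p _
    rw [NUC37.fc_deriv hL h p]
    unfold NUC62.kp
    field_simp
  rw [Finset.sum_congr rfl e, ← Finset.mul_sum]
  calc (L / (2 * π)) ^ 2 * ∑ p ∈ Finset.range K, ‖fc L g' (p + 1)‖ ^ 2 ≤
      (L / (2 * π)) ^ 2 * (1 / (2 * L) * ∫ x in (-(L / 2))..(L / 2), g' x ^ 2) := by gcongr
    _ = _ := by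
      field_simp
      ring

/-- second derivative -/
theorem bessel2 (hL : 0 < L) {g g' g'' : ℝ → ℝ} (h : C1P L g g') (h' : C1P L g' g'') (K : ℕ) :
    ∑ p ∈ Finset.range K, (((p : ℝ) + 1) ^ 2 * ‖fc L g (p + 1)‖) ^ 2 ≤
      L ^ 3 / (32 * π ^ 4) * ∫ x in (-(L / 2))..(L / 2), g'' x ^ 2 := by
  have hpi := Real.pi_pos
  have h1 := bessel hL h'.cont' K
  have e : ∀ p ∈ Finset.range K, (((p : ℝ) + 1) ^ 2 * ‖fc L g (p + 1)‖) ^ 2 =
      (L / (2 * π)) ^ 4 * ‖fc L g'' (p + 1)‖ ^ 2 := by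
    intro p _
    rw [NUC37.fc_deriv hL h' p, NUC37.fc_deriv hL h p]
    unfold NUC62.kp
    field_simp
  rw [Finset.sum_congr rfl e, ← Finset.mul_sum]
  calc (L / (2 * π)) ^ 4 * ∑ p ∈ Finset.range K, ‖fc L g'' (p + 1)‖ ^ 2 ≤
      (L / (2 * π)) ^ 4 * (1 / (2 * L) * ∫ x in (-(L / 2))..(L / 2), g'' x ^ 2) := by gcongr
    _ = _ := by
      field_simp
      ring

theorem re_sq_le (z : ℂ) : z.re ^ 2 ≤ ‖z‖ ^ 2 := by
  rw [← sq_abs z.re]
  have := Complex.abs_re_le_norm z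
  gcongr

/-- the density on the circle as a cosine series -/
theorem Cser_fc (hL : 0 < L) {g g' : ℝ → ℝ} (h : C1P L g g') (he : ∀ x, g (-x) = g x) {x : ℝ}
    (hx : x ∈ Icc (-π) π) :
    Cser (fun p => L * (fc L g (p + 1)).re) x = L * g (L * x / (2 * π)) - mI L g := by
  have hpi := Real.pi_pos
  have ht : L * x / (2 * π) ∈ Icc (-(L / 2)) (L / 2) := by
    constructor
    · rw [le_div_iff₀ (by positivity)]
      nlinarith [hx.1]
    · rw [div_le_iff₀ (by positivity)]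
      nlinarith [hx.2]
  have h1 := NUC37.ser_C1P hL h ht
  have e1 : 2 * π * (L * x / (2 * π)) / L = x := by field_simp
  rw [e1] at h1
  have e2 : (fun p : ℕ => fc L g (p + 1)) = fun p : ℕ => (((fc L g (p + 1)).re : ℝ) : ℂ) := by
    funext p
    exact fc_re he _
  rw [e2, Cser_eq] at h1
  rw [Cser_smul', h1]
  have e3 : L * (fc L g 0).re = mI L g := by
    unfold fc mI
    simp only [Int.cast_zero, mul_zero, zero_div, zero_mul, neg_zero, Complex.ofReal_zero,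
      Complex.exp_zero, one_mul]
    rw [intervalIntegral.integral_ofReal, ← Complex.ofReal_mul, Complex.ofReal_re]
    field_simp
  linarith

/-- **Good density.** The circle input with a polylogarithmic error factor. -/
theorem HRU_sea (hG : 9 ≤ G) (hLG : 2 * G ≤ L) {l : ℝ} (hl : 1000 ≤ l) (hLl : L ≤ l) (n : ℕ)
    (hn1 : 1 ≤ n) (hn4 : (n : ℝ) ^ 4 ≤ Real.exp (l / 8)) {ρ ρ1 ρ1' ρ1'' ρ2 : ℝ → ℝ}
    (hρc : Continuous ρ) (h1 : C1P L ρ1 ρ1') (h1' : C1P L ρ1' ρ1'') (h1e : ∀ x, ρ1 (-x) = ρ1 x)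
    (h2c : ContinuousOn ρ2 (Icc (-(L / 2)) (L / 2)))
    (hρ : ∀ x ∈ Icc (-(L / 2)) (L / 2), ρ x = ρ1 x + ρ2 x)
    (h2 : ∫ x in (-(L / 2))..(L / 2), ρ2 x ^ 2 ≤ l ^ 5)
    {f : ℕ → ℝ} (hf : ∀ K, ∑ p ∈ Finset.range K, (((p : ℝ) + 1) * f p) ^ 2 ≤ l ^ 5) {H p0 : ℝ}
    (hH : ∫ x in (-(L / 2))..(L / 2), ρ1'' x ^ 2 ≤ H ^ 2) (hH0 : 0 ≤ H) (hHn : H ≤ (n : ℝ) ^ 4)
    (hHp : H * l ^ 3 ≤ p0 ^ 2) (hp0 : l ^ 21 ≤ p0) {t0 : ℝ} (ht0 : 1 / l ≤ t0) (ht1 : t0 ≤ 1)
    (g1 : ∀ t, 0 ≤ t → t ≤ t0 → p0 ≤ ρ1 t ∧ ρ1 t ≤ 4 * p0)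
    (g2 : ∀ t, L / 2 - 1 ≤ t → t ≤ L / 2 → |ρ1 t| ≤ l ^ 19)
    (hm : |2 * n - mI L ρ1| ≤ l ^ 20) (a0 : ℝ) :
    HRU n (wK G L (n ^ 2 + 1)) (cF G L ρ f) a0 (Real.exp (60 + 8 * Real.log l)) := by
  have hpi := Real.pi_gt_three
  have hpi2 : π < 3.15 := Real.pi_lt_d2
  have hL : 0 < L := by linarith
  have hL18 : 18 ≤ L := by linarith
  have hl0 : 0 < l := by linarith
  have hl1 : 1 ≤ l := by linarith
  have hpow : ∀ i j : ℕ, i ≤ j → l ^ i ≤ l ^ j := fun i j hij => pow_le_pow_right₀ hl1 hij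
  have hK1 : 1 ≤ n ^ 2 + 1 := by omega
  have hn0 : (1 : ℝ) ≤ n := by exact_mod_cast hn1
  have hn : (n : ℝ) ≤ Real.exp (l / 8) := by
    refine le_trans ?_ hn4
    calc (n : ℝ) = (n : ℝ) ^ 1 := (pow_one _).symm
      _ ≤ (n : ℝ) ^ 4 := pow_le_pow_right₀ hn0 (by norm_num)
  set r1 : ℕ → ℝ := fun p => (fc L ρ1 (p + 1)).re with hr1
  set r2 : ℕ → ℝ := fun p => (fc L ρ2 (p + 1)).re with hr2
  have hfsum : Summable fun k => |f k| := by
    have b1 : ∀ K, ∑ p ∈ Finset.range K, |f p| ≤ √(2 * l ^ 5) := by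
      intro K
      apply Real.le_sqrt_of_sq_le
      have h3 := Finset.sum_mul_sq_le_sq_mul_sq (Finset.range K)
        (fun p => ((p : ℝ) + 1) * |f p|) (fun p => 1 / ((p : ℝ) + 1))
      have e1 : ∀ p ∈ Finset.range K, ((p : ℝ) + 1) * |f p| * (1 / ((p : ℝ) + 1)) = |f p| := by
        intro p _
        have hp : (0 : ℝ) < (p : ℝ) + 1 := by positivity
        field_simp
      have e2 : ∀ p ∈ Finset.range K, (((p : ℝ) + 1) * |f p|) ^ 2 = (((p : ℝ) + 1) * f p) ^ 2 := by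
        intro p _
        rw [mul_pow, sq_abs, mul_pow]
      have e3 : ∀ p ∈ Finset.range K, (1 / ((p : ℝ) + 1)) ^ 2 = 1 / ((p : ℝ) + 1) ^ 2 := by
        intro p _
        rw [div_pow, one_pow]
      rw [Finset.sum_congr rfl e1, Finset.sum_congr rfl e2, Finset.sum_congr rfl e3] at h3
      refine h3.trans ?_
      have h4 := inv_sq_sum K
      have h5 : 0 ≤ ∑ p ∈ Finset.range K, 1 / ((p : ℝ) + 1) ^ 2 :=
        Finset.sum_nonneg fun p _ => by positivity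
      have h6 : 0 ≤ ∑ p ∈ Finset.range K, (((p : ℝ) + 1) * f p) ^ 2 :=
        Finset.sum_nonneg fun p _ => by positivity
      nlinarith [hf K]
    exact summable_of_sum_range_le (fun p => abs_nonneg _) b1
  have hcs : Summable fun k => |cF G L ρ f k| := by
    refine Summable.of_nonneg_of_le (fun k => abs_nonneg _) (fun k => abs_add_le _ _)
      ((aF_summable hG hLG hρc hfsum).add (wf_summable hL))
  have hr : ∀ p : ℕ, (fc L ρ (p + 1)).re = r1 p + r2 p := by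
    intro p
    have h3 := NUH0.fc_lin (L := L) h1.cont h2c hL 1 ((p : ℤ) + 1)
    have h4 : fc L ρ ((p : ℤ) + 1) = fc L (fun t => ρ1 t + 1 * ρ2 t) ((p : ℤ) + 1) := by
      unfold fc
      congr 1
      refine intervalIntegral.integral_congr fun x hx => ?_
      rw [uIcc_of_le (by linarith)] at hx
      simp only [one_mul]
      rw [hρ x hx]
    rw [h4, h3, Complex.ofReal_one, one_mul, Complex.add_re]
  have s2 : ∀ K, ∑ p ∈ Finset.range K, r2 p ^ 2 ≤ l ^ 5 := by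
    intro K
    have h3 := bessel hL h2c K
    refine (Finset.sum_le_sum fun p _ => re_sq_le _).trans (h3.trans ?_)
    have h4 : 1 / (2 * L) ≤ 1 := by
      rw [div_le_one (by positivity)]
      linarith
    have h5 : 0 ≤ ∫ x in (-(L / 2))..(L / 2), ρ2 x ^ 2 :=
      intervalIntegral.integral_nonneg (by linarith) fun x _ => by positivity
    calc 1 / (2 * L) * ∫ x in (-(L / 2))..(L / 2), ρ2 x ^ 2 ≤ 1 * l ^ 5 := by gcongr
      _ = _ := one_mul _
  set H2 := L ^ 3 / (32 * π ^ 4) * H ^ 2 with hH2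
  have s1 : ∀ K, ∑ p ∈ Finset.range K, (((p : ℝ) + 1) ^ 2 * r1 p) ^ 2 ≤ H2 := by
    intro K
    have h3 := bessel2 hL h1 h1' K
    refine (Finset.sum_le_sum fun p _ => ?_).trans (h3.trans (by rw [hH2]; gcongr))
    rw [mul_pow, mul_pow]
    exact mul_le_mul_of_nonneg_left (re_sq_le _) (by positivity)
  have hpi4 : (81 : ℝ) ≤ π ^ 4 := by
    calc (81 : ℝ) = 3 ^ 4 := by norm_num
      _ ≤ π ^ 4 := by gcongr
  have hH2l : H2 ≤ ((n ^ 2 + 1 : ℕ) : ℝ) ^ 4 * l ^ 5 := by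
    rw [hH2]
    push_cast
    have e1 : L ^ 3 / (32 * π ^ 4) ≤ l ^ 5 := by
      rw [div_le_iff₀ (by positivity)]
      have : L ^ 3 ≤ l ^ 3 := by gcongr
      have h35 := hpow 3 5 (by norm_num)
      have : 0 < l ^ 5 := by positivity
      nlinarith
    have e2 : H ^ 2 ≤ ((n : ℝ) ^ 2 + 1) ^ 4 := by
      calc H ^ 2 ≤ ((n : ℝ) ^ 4) ^ 2 := by gcongr
        _ = ((n : ℝ) ^ 2) ^ 4 := by ring
        _ ≤ _ := by
          gcongr
          linarith
    calc L ^ 3 / (32 * π ^ 4) * H ^ 2 ≤ l ^ 5 * ((n : ℝ) ^ 2 + 1) ^ 4 := by gcongr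
      _ = _ := by ring
  have hsq : √(2 * H2) ≤ l ^ 2 / 36 * H := by
    rw [Real.sqrt_le_left (by positivity), hH2]
    have e1 : L ^ 3 ≤ l ^ 4 := by
      have : L ^ 3 ≤ l ^ 3 := by gcongr
      exact this.trans (hpow 3 4 (by norm_num))
    have e2 : 2 * (L ^ 3 / (32 * π ^ 4)) ≤ l ^ 4 / 1296 := by
      rw [mul_div_assoc', div_le_div_iff₀ (by positivity) (by norm_num)]
      have : 0 < l ^ 4 := by positivity
      nlinarith
    calc 2 * (L ^ 3 / (32 * π ^ 4) * H ^ 2) = 2 * (L ^ 3 / (32 * π ^ 4)) * H ^ 2 := by ring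
      _ ≤ l ^ 4 / 1296 * H ^ 2 := by gcongr
      _ = _ := by ring
  have hp00 : 0 < p0 := lt_of_lt_of_le (by positivity) hp0
  have hl20 : l ^ 20 ≤ p0 / 1000 := by
    have : l ^ 21 = l * l ^ 20 := by ring
    have h20 : 0 < l ^ 20 := by positivity
    nlinarith
  have hl20' : 1 ≤ l ^ 20 := one_le_pow₀ hl1
  have hmm := abs_le.1 hm
  have hb : (0:ℝ) < 2 * π / L := by positivity
  have ht00 : 0 < t0 := lt_of_lt_of_le (by positivity) ht0
  have hpos0 : ∀ x, 0 ≤ x → x ≤ 2 * π / L * t0 → 0 ≤ L * x / (2 * π) ∧ L * x / (2 * π) ≤ t0 := by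
    intro x hx hx'
    refine ⟨by positivity, ?_⟩
    rw [div_le_iff₀ (by positivity)]
    rw [div_mul_eq_mul_div, le_div_iff₀ hL] at hx'
    linarith
  have hbt : 2 * π / L * t0 ≤ 2 * π / L := by
    have := mul_le_mul_of_nonneg_left ht1 hb.le
    linarith
  have hb5 : 1 / l ^ 4 ≤ 2 * π / L * t0 := by
    have h3 : 1 / l ^ 4 ≤ 2 * π / L * (1 / l) := by
      rw [div_mul_div_comm, div_le_div_iff₀ (by positivity) (by positivity)]
      have h4 : L * l ≤ l ^ 4 := by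
        calc L * l ≤ l * l := by gcongr
          _ = l ^ 2 := by ring
          _ ≤ l ^ 4 := hpow 2 4 (by norm_num)
      have : 0 < l ^ 4 := by positivity
      nlinarith
    exact h3.trans (mul_le_mul_of_nonneg_left ht0 hb.le)
  have hpos : ∀ x, 0 ≤ x → x ≤ 2 * π / L → 0 ≤ L * x / (2 * π) ∧ L * x / (2 * π) ≤ 1 := by
    intro x hx hx'
    refine ⟨by positivity, ?_⟩
    rw [div_le_one (by positivity)]
    rw [le_div_iff₀ hL] at hx'
    linarith
  have hbpi : 2 * π / L ≤ π / 2 := by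
    rw [div_le_iff₀ hL]
    nlinarith
  have hb4 : 1 / l ^ 4 ≤ 2 * π / L := by
    rw [div_le_div_iff₀ (by positivity) hL]
    have : L ≤ l ^ 4 := by
      calc L ≤ l ^ 1 := by rw [pow_one]; exact hLl
        _ ≤ l ^ 4 := hpow 1 4 (by norm_num)
    nlinarith
  have hLp : 18 * p0 ≤ L * p0 := by gcongr
  obtain ⟨K0, hK0⟩ := hT_seq hG hL hl hLl n hK1 (hn.trans (Real.exp_le_exp.2 (by linarith)))
    (by
      push_cast
      have e1 : (n : ℝ) ^ 2 ≤ Real.exp (l / 4) := by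
        calc (n : ℝ) ^ 2 ≤ Real.exp (l / 8) ^ 2 := by gcongr
          _ = Real.exp (l / 4) := by
            rw [← Real.exp_nat_mul]
            congr 1
            push_cast
            ring
      have e2 : Real.exp (l / 2) = Real.exp (l / 4) * Real.exp (l / 4) := by
        rw [← Real.exp_add]
        congr 1
        ring
      have e3 : 2 ≤ Real.exp (l / 4) := by
        have := Real.add_one_le_exp (l / 4)
        linarith
      rw [e2]
      nlinarith) hr s2 hf (H := H2) s1 hH2l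
    (by
      refine hsq.trans ?_
      have e1 : l ^ 2 / 36 ≤ Real.exp (l / 8) := by
        refine le_trans ?_ (exp_ge_cube (x := l / 8) (by positivity))
        nlinarith [sq_nonneg l]
      have e2 : H ≤ Real.exp (l / 8) := hHn.trans hn4
      calc l ^ 2 / 36 * H ≤ Real.exp (l / 8) * Real.exp (l / 8) := by gcongr
        _ = _ := by
          rw [← Real.exp_add]
          congr 1
          ring)
    (P := 4 / 5 * L * p0) (b := 2 * π / L * t0) (b' := 2 * π / L) (B' := l ^ 21)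
    (by nlinarith)
    (by
      calc 2 * L * √(2 * H2) * l ≤ 2 * L * (l ^ 2 / 36 * H) * l := by gcongr
        _ = L / 18 * (H * l ^ 3) := by ring
        _ ≤ L / 18 * p0 ^ 2 := by gcongr
        _ ≤ _ := by
          have h3 : 0 < L * p0 ^ 2 := by positivity
          nlinarith)
    hb5 (hbt.trans hbpi) hb4 hbpi (by positivity) le_rfl
    (fun x hx hx' => by
      have h3 := hpos0 x hx hx'
      have h4 := g1 _ h3.1 h3.2
      rw [Cser_fc hL h1 h1e ⟨by linarith, by linarith⟩]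
      have h5 : L * p0 ≤ L * ρ1 (L * x / (2 * π)) := by
        have := h4.1
        gcongr
      linarith)
    (fun x hx hx' => by
      have h3 := hpos0 x hx hx'
      have h4 := g1 _ h3.1 h3.2
      rw [Cser_fc hL h1 h1e ⟨by linarith, by linarith⟩]
      have h5 : L * ρ1 (L * x / (2 * π)) ≤ L * (4 * p0) := by
        have := h4.2
        gcongr
      linarith)
    (fun x hx hx' => by
      have h3 := hpos x hx hx'
      rw [Cser_fc hL h1 h1e ⟨by linarith, by linarith⟩]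
      have e1 : L * (π - x) / (2 * π) = L / 2 - L * x / (2 * π) := by
        field_simp
      rw [e1]
      have h4 := g2 (L / 2 - L * x / (2 * π)) (by linarith [h3.2]) (by linarith [h3.1])
      have h5 : |L * ρ1 (L / 2 - L * x / (2 * π))| ≤ l ^ 20 := by
        rw [abs_mul, abs_of_pos hL]
        calc L * |ρ1 (L / 2 - L * x / (2 * π))| ≤ l * l ^ 19 := by gcongr
          _ = _ := by ring
      have h6 := abs_le.1 h5
      have h7 : 1000 * l ^ 20 ≤ l ^ 21 := by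
        calc 1000 * l ^ 20 ≤ l * l ^ 20 := by gcongr
          _ = _ := by ring
      rw [abs_le]
      constructor
      · linarith [h6.1]
      · linarith [h6.2])
  refine HRU_of (n := n) (w := wK G L (n ^ 2 + 1)) (fun k => wK_nonneg (by linarith) hL _ k)
    (fun k => by
      have := (inv_kap hG hL (n ^ 2 + 1) k).1
      unfold kap at this
      linarith) (summable_wK (by linarith) hL _) hcs a0 (60 + 8 * Real.log l) K0 hK0

end

end Pool.Agent.FSz.Tau
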