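import Pool.Agent.TC.TauS
import Pool.Agent.TC.OneCL

/-!
# The universal error factor of the folded window gas

* `HRU_cut`: the circle input of a field from that of a field with the high modes of the regular part
  removed;
* `HRU_H`: the circle input of `cF G L ρ f` with a factor polynomial in `n`, `L` and the square norm
  of the coefficients `(p + 1) aF p`;
* `hRU_univ`: the hypothesis `hRU` of `TCO.expF_C_hi` with an explicit polynomial factor.
-/

set_option autoImplicit false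

open MeasureTheory Set Filter Topology ProbabilityTheory
open scoped Real NNReal ENNReal

namespace Pool.Agent.FSz.Tau

open NUMF NUC62 NUWC TCW

noncomputable section

variable {G L : ℝ}

/-! ### truncation -/

theorem lf_cut {w c c' : ℕ → ℝ} {p : ℕ} {C : ℝ} (h1 : 0 < 1 - kap w p)
    (hC : (1 - kap w p)⁻¹ ≤ C) (h : |((p : ℝ) + 1) * c' p - el p| ≤ 1) :
    lf w c' p ≤ lf w c p * Real.exp (C * |c p - c' p|) := by
  have hk : (0 : ℝ) < (p : ℝ) + 1 := by positivity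
  have hd := abs_nonneg (c p - c' p)
  unfold lf
  rw [mul_assoc, ← Real.exp_add]
  refine mul_le_mul_of_nonneg_left (Real.exp_le_exp.2 ?_) (inv_nonneg.2 (Real.sqrt_nonneg _))
  have e1 : ∀ x : ℝ, ((p : ℝ) + 1) * (x - el p / (p + 1)) ^ 2 =
      ((p : ℝ) + 1) * x ^ 2 - 2 * el p * x + el p ^ 2 / (p + 1) := by
    intro x
    field_simp
    ring
  have e2 : 1 - ((p : ℝ) + 1) * w p / 2 = 1 - kap w p := rfl
  unfold lexp
  rw [e1, e1, e2]
  set D := 1 - kap w p with hD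
  have h2 : ((p : ℝ) + 1) * c' p ^ 2 - 2 * el p * c' p + el p ^ 2 / (p + 1) ≤
      (((p : ℝ) + 1) * c p ^ 2 - 2 * el p * c p + el p ^ 2 / (p + 1)) + 2 * |c p - c' p| := by
    have h3 : (c' p - c p) * (((p : ℝ) + 1) * c' p - el p) ≤ |c p - c' p| := by
      calc (c' p - c p) * (((p : ℝ) + 1) * c' p - el p) ≤
          |(c' p - c p) * (((p : ℝ) + 1) * c' p - el p)| := le_abs_self _
        _ = |c p - c' p| * |((p : ℝ) + 1) * c' p - el p| := by rw [abs_mul, abs_sub_comm]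
        _ ≤ |c p - c' p| * 1 := by gcongr
        _ = _ := mul_one _
    have h4 : 0 ≤ ((p : ℝ) + 1) * (c p - c' p) ^ 2 := by positivity
    nlinarith
  have h5 : (((p : ℝ) + 1) * c' p ^ 2 - 2 * el p * c' p + el p ^ 2 / (p + 1)) / (2 * D) ≤
      ((((p : ℝ) + 1) * c p ^ 2 - 2 * el p * c p + el p ^ 2 / (p + 1)) + 2 * |c p - c' p|) /
        (2 * D) := by gcongr
  have h6 : 2 * |c p - c' p| / (2 * D) ≤ C * |c p - c' p| := by
    have : 2 * |c p - c' p| / (2 * D) = D⁻¹ * |c p - c' p| := by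
      field_simp
    rw [this]
    gcongr
  have h7 := add_div (((p : ℝ) + 1) * c p ^ 2 - 2 * el p * c p + el p ^ 2 / (p + 1))
    (2 * |c p - c' p|) (2 * D)
  rw [h7] at h5
  linarith

theorem prod_lf_cut {w c c' : ℕ → ℝ} {C S : ℝ} (h1 : ∀ p, 0 < 1 - kap w p) (hC0 : 0 ≤ C)
    (h : ∀ p, c p = c' p ∨ ((1 - kap w p)⁻¹ ≤ C ∧ |((p : ℝ) + 1) * c' p - el p| ≤ 1))
    (hS : ∀ K, ∑ p ∈ Finset.range K, |c p - c' p| ≤ S) (K : ℕ) :
    ∏ p ∈ Finset.range K, lf w c' p ≤ (∏ p ∈ Finset.range K, lf w c p) * Real.exp (C * S) := by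
  have h2 : ∀ p ∈ Finset.range K, lf w c' p ≤ lf w c p * Real.exp (C * |c p - c' p|) := by
    intro p _
    rcases h p with h3 | ⟨h3, h4⟩
    · have e : lf w c' p = lf w c p := by
        unfold lf lexp
        rw [h3]
      rw [e, h3, sub_self, abs_zero, mul_zero, Real.exp_zero, mul_one]
    · exact lf_cut (h1 p) h3 h4
  have h0 : ∀ (c : ℕ → ℝ) (p : ℕ), 0 ≤ lf w c p := fun c p =>
    mul_nonneg (inv_nonneg.2 (Real.sqrt_nonneg _)) (Real.exp_pos _).le
  refine (Finset.prod_le_prod (fun p _ => h0 c' p) h2).trans ?_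
  rw [Finset.prod_mul_distrib, ← Real.exp_sum, ← Finset.mul_sum]
  refine mul_le_mul_of_nonneg_left (Real.exp_le_exp.2 ?_) (Finset.prod_nonneg fun p _ => h0 c p)
  exact mul_le_mul_of_nonneg_left (hS K) hC0

theorem Cser_diff {c c' : ℕ → ℝ} {S : ℝ} (hc : Summable fun k => |c k|)
    (hc' : Summable fun k => |c' k|) (hS : ∀ K, ∑ p ∈ Finset.range K, |c p - c' p| ≤ S) (x : ℝ) :
    Cser c x ≤ Cser c' x + 2 * S := by
  have s1 : ∀ {f : ℕ → ℝ}, (Summable fun k => |f k|) →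
      Summable fun k : ℕ => 2 * f k * Real.cos (((k : ℝ) + 1) * x) := fun {f} hf =>
    Summable.of_norm_bounded (hf.mul_left 2) fun k => by
      rw [Real.norm_eq_abs, abs_mul, abs_mul, abs_two]
      exact mul_le_of_le_one_right (by positivity) (Real.abs_cos_le_one _)
  have s2 : Summable fun k => |c k - c' k| :=
    Summable.of_nonneg_of_le (fun k => abs_nonneg _) (fun k => abs_sub _ _) (hc.add hc')
  have h1 : ∑' k, |c k - c' k| ≤ S := s2.tsum_le_of_sum_range_le hS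
  have h2 : Cser c x ≤ ∑' k : ℕ, (2 * c' k * Real.cos (((k : ℝ) + 1) * x) + 2 * |c k - c' k|) := by
    unfold Cser
    refine (s1 hc).tsum_le_tsum (fun k => ?_) ((s1 hc').add (s2.mul_left 2))
    have h3 : (c k - c' k) * Real.cos (((k : ℝ) + 1) * x) ≤ |c k - c' k| := by
      calc (c k - c' k) * Real.cos (((k : ℝ) + 1) * x) ≤
          |(c k - c' k) * Real.cos (((k : ℝ) + 1) * x)| := le_abs_self _
        _ = |c k - c' k| * |Real.cos (((k : ℝ) + 1) * x)| := abs_mul _ _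
        _ ≤ |c k - c' k| * 1 := by
          gcongr
          exact Real.abs_cos_le_one _
        _ = _ := mul_one _
    nlinarith
  rw [(s1 hc').tsum_add (s2.mul_left 2), tsum_mul_left] at h2
  unfold Cser at h2 ⊢
  linarith

theorem intC_cut {n : ℕ} {w c c' : ℕ → ℝ} {a0 S : ℝ} {θ : Fin n → ℝ}
    (h : ∀ x, Cser c x ≤ Cser c' x + 2 * S) :
    intC n w c a0 θ ≤ intC n w c' a0 θ * Real.exp (2 * n * S) := by
  unfold intC
  rw [mul_assoc]
  refine mul_le_mul_of_nonneg_left ?_ (Finset.prod_nonneg fun i _ => Finset.prod_nonneg fun j _ =>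
    by positivity)
  have e : Real.exp (2 * n * S) = ∏ _i : Fin n, Real.exp (2 * S) := by
    rw [Finset.prod_const, Finset.card_univ, Fintype.card_fin, ← Real.exp_nat_mul]
    congr 1
    ring
  rw [e, ← Finset.prod_mul_distrib]
  refine Finset.prod_le_prod (fun i _ => by positivity) fun i _ => ?_
  rw [mul_assoc (2 * Real.sin (θ i) ^ 2), ← Real.exp_add]
  refine mul_le_mul_of_nonneg_left (Real.exp_le_exp.2 ?_) (by positivity)
  have := h (θ i)
  linarith

/-- **truncation of the circle input** -/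
theorem HRU_cut {n : ℕ} {w c c' : ℕ → ℝ} {a0 τ C S : ℝ} (h1 : ∀ p, 0 < 1 - kap w p) (hC0 : 0 ≤ C)
    (h : ∀ p, c p = c' p ∨ ((1 - kap w p)⁻¹ ≤ C ∧ |((p : ℝ) + 1) * c' p - el p| ≤ 1))
    (hc : Summable fun k => |c k|) (hc' : Summable fun k => |c' k|)
    (hS : ∀ K, ∑ p ∈ Finset.range K, |c p - c' p| ≤ S) (hH : HRU n w c' a0 τ) :
    HRU n w c a0 (τ * Real.exp ((2 * n + C) * S)) := by
  intro E hE
  have h2 : ∀ᶠ K in atTop, ∏ p ∈ Finset.range K, lf w c' p ≤ Real.exp (E + C * S) := by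
    filter_upwards [hE] with K hK
    refine (prod_lf_cut h1 hC0 h hS K).trans ?_
    rw [Real.exp_add]
    exact mul_le_mul_of_nonneg_right hK (Real.exp_pos _).le
  have h3 := hH _ h2
  have h4 : ∫⁻ θ : Fin n → ℝ, ENNReal.ofReal (intC n w c a0 θ)
      ∂(Measure.pi fun _ => Pool.Agent.Szego62.mu) ≤
      (∫⁻ θ : Fin n → ℝ, ENNReal.ofReal (intC n w c' a0 θ)
        ∂(Measure.pi fun _ => Pool.Agent.Szego62.mu)) * ENNReal.ofReal (Real.exp (2 * n * S)) := by
    rw [← lintegral_mul_const' _ _ ENNReal.ofReal_ne_top]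
    refine lintegral_mono fun θ => ?_
    rw [← ENNReal.ofReal_mul' (Real.exp_pos _).le]
    exact ENNReal.ofReal_le_ofReal (intC_cut (Cser_diff hc hc' hS))
  refine h4.trans ((mul_le_mul_left h3 _).trans (le_of_eq ?_))
  rw [← ENNReal.ofReal_mul' (Real.exp_pos _).le]
  congr 1
  rw [show (n : ℝ) * a0 - (n : ℝ) / 2 * ∑' p, w p + (E + C * S) =
    (n * a0 - (n : ℝ) / 2 * ∑' p, w p + E) + C * S by ring, Real.exp_add _ (C * S),
    show (2 * (n : ℝ) + C) * S = 2 * n * S + C * S by ring, Real.exp_add (2 * n * S)]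
  ring

/-! ### the field of the window form -/

theorem uh_le (hG : 9 ≤ G) (hL : 0 < L) (p : ℕ) :
    ((p : ℝ) + 1) * NUC62.uh G (NUC62.kp L p) ≤ L := by
  have h2 := wK_half (G := G) (by linarith) hL 0 p
  have h3 := kap_nonneg hG hL 0 p
  rw [kp2] at h2
  have e : 1 - ((p : ℝ) + 1) * wK G L 0 p / 2 = 1 - kap (wK G L 0) p := rfl
  rw [e] at h2
  have h4 : ((p : ℝ) + 1) / L * NUC62.uh G (NUC62.kp L p) ≤ 1 := by linarith
  rw [div_mul_eq_mul_div, div_le_one hL] at h4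
  exact h4

theorem aF_le (hG : 9 ≤ G) (hL : 0 < L) (ρ : ℝ → ℝ) (f : ℕ → ℝ) (p : ℕ) :
    ((p : ℝ) + 1) * |aF G L ρ f p| ≤ L * ‖fc L ρ (p + 1)‖ + ((p : ℝ) + 1) * |f p| := by
  have hk : (0 : ℝ) < (p : ℝ) + 1 := by positivity
  have hu := NUC62.uh_pos hG (NUC62.kp_pos hL p)
  have h1 := uh_le hG hL p
  unfold aF
  rw [uk_kp (by linarith : (1:ℝ) ≤ G) hL]
  have h2 : |NUC62.uh G (NUC62.kp L p) * (fc L ρ (p + 1)).re + f p| ≤
      NUC62.uh G (NUC62.kp L p) * ‖fc L ρ (p + 1)‖ + |f p| := by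
    refine (abs_add_le _ _).trans (add_le_add ?_ le_rfl)
    rw [abs_mul, abs_of_pos hu]
    exact mul_le_mul_of_nonneg_left (Complex.abs_re_le_norm _) hu.le
  calc ((p : ℝ) + 1) * |NUC62.uh G (NUC62.kp L p) * (fc L ρ (p + 1)).re + f p| ≤
      ((p : ℝ) + 1) * (NUC62.uh G (NUC62.kp L p) * ‖fc L ρ (p + 1)‖ + |f p|) := by gcongr
    _ = (((p : ℝ) + 1) * NUC62.uh G (NUC62.kp L p)) * ‖fc L ρ (p + 1)‖ +
        ((p : ℝ) + 1) * |f p| := by ring
    _ ≤ _ := by gcongr

theorem aF_sq (hG : 9 ≤ G) (hL : 0 < L) {ρ : ℝ → ℝ} (hρ : Continuous ρ) (f : ℕ → ℝ) {A : ℝ}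
    (hf : ∀ K, ∑ p ∈ Finset.range K, (((p : ℝ) + 1) * f p) ^ 2 ≤ A) (K : ℕ) :
    ∑ p ∈ Finset.range K, (((p : ℝ) + 1) * aF G L ρ f p) ^ 2 ≤
      L * (∫ x in (-(L / 2))..(L / 2), ρ x ^ 2) + 2 * A := by
  have h1 := bessel hL hρ.continuousOn K
  have h2 : ∀ p ∈ Finset.range K, (((p : ℝ) + 1) * aF G L ρ f p) ^ 2 ≤
      2 * L ^ 2 * ‖fc L ρ (p + 1)‖ ^ 2 + 2 * (((p : ℝ) + 1) * f p) ^ 2 := by
    intro p _
    have hk : (0 : ℝ) < (p : ℝ) + 1 := by positivity
    have h3 := aF_le hG hL ρ f p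
    have h0 : 0 ≤ ((p : ℝ) + 1) * |aF G L ρ f p| := by positivity
    have e1 : (((p : ℝ) + 1) * aF G L ρ f p) ^ 2 = (((p : ℝ) + 1) * |aF G L ρ f p|) ^ 2 := by
      rw [mul_pow, mul_pow, sq_abs]
    have e2 : (((p : ℝ) + 1) * f p) ^ 2 = (((p : ℝ) + 1) * |f p|) ^ 2 := by
      rw [mul_pow, mul_pow, sq_abs]
    rw [e1, e2]
    have h4 : (((p : ℝ) + 1) * |aF G L ρ f p|) ^ 2 ≤
        (L * ‖fc L ρ (p + 1)‖ + ((p : ℝ) + 1) * |f p|) ^ 2 := pow_le_pow_left₀ h0 h3 2
    nlinarith [sq_nonneg (L * ‖fc L ρ (p + 1)‖ - ((p : ℝ) + 1) * |f p|)]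
  refine (Finset.sum_le_sum h2).trans ?_
  rw [Finset.sum_add_distrib, ← Finset.mul_sum, ← Finset.mul_sum]
  have h5 : 2 * L ^ 2 * ∑ p ∈ Finset.range K, ‖fc L ρ (p + 1)‖ ^ 2 ≤
      2 * L ^ 2 * (1 / (2 * L) * ∫ x in (-(L / 2))..(L / 2), ρ x ^ 2) := by gcongr
  have e : 2 * L ^ 2 * (1 / (2 * L) * ∫ x in (-(L / 2))..(L / 2), ρ x ^ 2) =
      L * ∫ x in (-(L / 2))..(L / 2), ρ x ^ 2 := by
    field_simp
  have := hf K
  linarith

theorem tail_sq {K2 : ℕ} (hK : 1 ≤ K2) (K : ℕ) :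
    ∑ p ∈ Finset.range K, (if p < K2 then (0 : ℝ) else 1 / ((p : ℝ) + 1) ^ 2) ≤ 1 / K2 := by
  have hK0 : (0 : ℝ) < K2 := by exact_mod_cast hK
  have h1 : ∀ j : ℕ, ∑ p ∈ Finset.range (K2 + j),
      (if p < K2 then (0 : ℝ) else 1 / ((p : ℝ) + 1) ^ 2) ≤ 1 / K2 - 1 / ((K2 : ℝ) + j) := by
    intro j
    induction j with
    | zero =>
      rw [Finset.sum_eq_zero]
      · simp
      · intro p hp
        rw [if_pos (by simpa using hp)]
    | succ j ih =>
      rw [← add_assoc, Finset.sum_range_succ, if_neg (by omega)]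
      have hj : (0 : ℝ) ≤ j := Nat.cast_nonneg j
      push_cast
      have h2 : 1 / ((K2 : ℝ) + j + 1) ^ 2 ≤ 1 / ((K2 : ℝ) + j) - 1 / ((K2 : ℝ) + (j + 1)) := by
        rw [div_sub_div _ _ (by positivity) (by positivity), div_le_div_iff₀ (by positivity)
          (by positivity)]
        nlinarith
      linarith
  have h2 : ∑ p ∈ Finset.range K, (if p < K2 then (0 : ℝ) else 1 / ((p : ℝ) + 1) ^ 2) ≤
      ∑ p ∈ Finset.range (K2 + K), (if p < K2 then (0 : ℝ) else 1 / ((p : ℝ) + 1) ^ 2) := by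
    refine Finset.sum_le_sum_of_subset_of_nonneg (Finset.range_mono (by omega)) fun p _ _ => ?_
    split_ifs
    · exact le_rfl
    · positivity
  have h3 := h1 K
  have h4 : 0 ≤ 1 / ((K2 : ℝ) + K) := by positivity
  linarith

theorem geo_sum {s : ℝ} (hs : 0 < s) (K : ℕ) :
    ∑ p ∈ Finset.range K, Real.exp (-(s * ((p : ℝ) + 1))) ≤ 1 / s := by
  have h1 : s * ∑ p ∈ Finset.range K, Real.exp (-(s * ((p : ℝ) + 1))) ≤
      1 - Real.exp (-(s * K)) := by
    induction K with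
    | zero => simp
    | succ K ih =>
      rw [Finset.sum_range_succ, mul_add]
      have e : Real.exp (-(s * (K : ℝ))) = Real.exp s * Real.exp (-(s * ((K : ℝ) + 1))) := by
        rw [← Real.exp_add]
        congr 1
        ring
      have h2 := Real.add_one_le_exp s
      have h3 := Real.exp_pos (-(s * ((K : ℝ) + 1)))
      push_cast
      nlinarith
  have h2 := Real.exp_pos (-(s * (K : ℝ)))
  rw [le_div_iff₀ hs]
  linarith

/-- bound of `∑ (p + 1) |c'|` -/
def BV (L : ℝ) (n : ℕ) (H : ℝ) : ℝ := ((2 * n + 15) * H + L) * H + L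

/-- the universal factor of a field with the norm `H` -/
def TV (L : ℝ) (n : ℕ) (H : ℝ) : ℝ := TU L (n ^ 2 + 1) n (BV L n H) * Real.exp 1

/-- **universal factor, norm of the coefficients** -/
theorem HRU_H (hG : 9 ≤ G) (hLG : 2 * G ≤ L) (n : ℕ) {ρ : ℝ → ℝ} (hρ : Continuous ρ) {f : ℕ → ℝ}
    (hf : Summable fun k => |f k|) {H : ℝ} (hH : 0 ≤ H)
    (hA : ∀ K, ∑ p ∈ Finset.range K, (((p : ℝ) + 1) * aF G L ρ f p) ^ 2 ≤ H ^ 2) (a0 : ℝ) :
    HRU n (wK G L (n ^ 2 + 1)) (cF G L ρ f) a0 (TV L n H) := by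
  have hpi2 : π < 3.15 := Real.pi_lt_d2
  have hpi := Real.pi_gt_three
  have hL18 : 18 ≤ L := by linarith
  have hL : 0 < L := by linarith
  have hs := sw_pos hL
  obtain ⟨K2, hK2⟩ : ∃ K2 : ℕ, K2 = ⌈((2 * n + 15) * H) ^ 2⌉₊ + ⌈L⌉₊ + 1 := ⟨_, rfl⟩
  have k1 : 1 ≤ K2 := by omega
  have k0 : (0 : ℝ) < K2 := by exact_mod_cast k1
  have k2 : ((2 * n + 15) * H) ^ 2 ≤ K2 := by
    have := Nat.le_ceil (((2 * n + 15) * H) ^ 2)
    rw [hK2]
    push_cast
    have : (0:ℝ) ≤ (⌈L⌉₊ : ℝ) := Nat.cast_nonneg _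
    linarith
  have k3 : L ≤ K2 := by
    have := Nat.le_ceil L
    rw [hK2]
    push_cast
    have : (0:ℝ) ≤ (⌈((2 * n + 15) * H) ^ 2⌉₊ : ℝ) := Nat.cast_nonneg _
    linarith
  have k4 : √(K2 : ℝ) ≤ (2 * n + 15) * H + L := by
    apply Real.sqrt_le_iff.2
    refine ⟨by positivity, ?_⟩
    have h1 := (Nat.ceil_lt_add_one (a := ((2 * n + 15) * H) ^ 2) (by positivity)).le
    have h2 := (Nat.ceil_lt_add_one (a := L) hL.le).le
    have h3 : (K2 : ℝ) ≤ ((2 * n + 15) * H) ^ 2 + L + 3 := by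
      rw [hK2]
      push_cast
      linarith
    have h4 : 0 ≤ (2 * n + 15) * H * L := by positivity
    nlinarith
  have hcs : Summable fun k => |cF G L ρ f k| :=
    Summable.of_nonneg_of_le (fun k => abs_nonneg _) (fun k => abs_add_le _ _)
      ((aF_summable hG hLG hρ hf).add (wf_summable hL))
  obtain ⟨c', hc'⟩ : ∃ c' : ℕ → ℝ,
      c' = fun p => (if p < K2 then aF G L ρ f p else 0) + wf L p := ⟨_, rfl⟩
  have hcs' : Summable fun k => |c' k| := by
    refine Summable.of_nonneg_of_le (fun k => abs_nonneg _) (fun k => ?_)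
      ((aF_summable hG hLG hρ hf).add (wf_summable hL))
    rw [hc']
    refine (abs_add_le _ _).trans (add_le_add ?_ le_rfl)
    split_ifs
    · exact le_rfl
    · rw [abs_zero]
      exact abs_nonneg _
  have hd : ∀ p, |cF G L ρ f p - c' p| = if p < K2 then 0 else |aF G L ρ f p| := by
    intro p
    rw [hc']
    unfold cF
    simp only
    split_ifs
    · rw [sub_self, abs_zero]
    · rw [zero_add, add_sub_cancel_right]
  -- the removed part
  have hS : ∀ K, ∑ p ∈ Finset.range K, |cF G L ρ f p - c' p| ≤ 1 / (2 * n + 15) := by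
    intro K
    have h3 := Finset.sum_mul_sq_le_sq_mul_sq (Finset.range K)
      (fun p => ((p : ℝ) + 1) * |aF G L ρ f p|)
      (fun p => if p < K2 then (0 : ℝ) else 1 / ((p : ℝ) + 1))
    have e1 : ∀ p ∈ Finset.range K, ((p : ℝ) + 1) * |aF G L ρ f p| *
        (if p < K2 then (0 : ℝ) else 1 / ((p : ℝ) + 1)) = |cF G L ρ f p - c' p| := by
      intro p _
      have hp : (0 : ℝ) < (p : ℝ) + 1 := by positivity
      rw [hd]
      split_ifs
      · rw [mul_zero]
      · field_simp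
    have e2 : ∀ p ∈ Finset.range K, (((p : ℝ) + 1) * |aF G L ρ f p|) ^ 2 =
        (((p : ℝ) + 1) * aF G L ρ f p) ^ 2 := by
      intro p _
      rw [mul_pow, sq_abs, mul_pow]
    have e3 : ∀ p ∈ Finset.range K, (if p < K2 then (0 : ℝ) else 1 / ((p : ℝ) + 1)) ^ 2 =
        if p < K2 then (0 : ℝ) else 1 / ((p : ℝ) + 1) ^ 2 := by
      intro p _
      split_ifs
      · norm_num
      · rw [div_pow, one_pow]
    rw [Finset.sum_congr rfl e1, Finset.sum_congr rfl e2, Finset.sum_congr rfl e3] at h3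
    have h4 := tail_sq k1 K
    have h5 := hA K
    have h6 : 0 ≤ ∑ p ∈ Finset.range K, (if p < K2 then (0 : ℝ) else 1 / ((p : ℝ) + 1) ^ 2) :=
      Finset.sum_nonneg fun p _ => by
        split_ifs
        · exact le_rfl
        · positivity
    have h7 : (∑ p ∈ Finset.range K, |cF G L ρ f p - c' p|) ^ 2 ≤ H ^ 2 * (1 / K2) :=
      h3.trans (mul_le_mul h5 h4 h6 (sq_nonneg H))
    have h8 : H ^ 2 * (1 / K2) ≤ (1 / (2 * n + 15)) ^ 2 := by
      rw [mul_one_div, div_pow, one_pow, div_le_div_iff₀ k0 (by positivity)]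
      nlinarith
    exact le_of_sq_le_sq (h7.trans h8) (by positivity)
  -- the kept part
  have hB : ∀ K, ∑ k ∈ Finset.range K, ((k : ℝ) + 1) * |c' k| ≤ BV L n H := by
    intro K
    have h1 : ∀ p ∈ Finset.range K, ((p : ℝ) + 1) * |c' p| ≤
        (if p < K2 then ((p : ℝ) + 1) * |aF G L ρ f p| else 0) +
          Real.exp (-(sw L * ((p : ℝ) + 1))) := by
      intro p _
      have hp : (0 : ℝ) < (p : ℝ) + 1 := by positivity
      have h2 : ((p : ℝ) + 1) * |wf L p| ≤ Real.exp (-(sw L * ((p : ℝ) + 1))) := by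
        rw [abs_of_nonneg (wf_nonneg L p)]
        unfold wf
        rw [mul_div_assoc', mul_comm ((p : ℝ) + 1), mul_div_assoc, div_self hp.ne', mul_one]
        exact mul_le_of_le_one_left (Real.exp_pos _).le (pr_le p)
      have h3 : |c' p| ≤ (if p < K2 then |aF G L ρ f p| else 0) + |wf L p| := by
        rw [hc']
        refine (abs_add_le _ _).trans (add_le_add ?_ le_rfl)
        split_ifs
        · exact le_rfl
        · rw [abs_zero]
      calc ((p : ℝ) + 1) * |c' p| ≤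
          ((p : ℝ) + 1) * ((if p < K2 then |aF G L ρ f p| else 0) + |wf L p|) := by gcongr
        _ = (if p < K2 then ((p : ℝ) + 1) * |aF G L ρ f p| else 0) +
            ((p : ℝ) + 1) * |wf L p| := by
          split_ifs <;> ring
        _ ≤ _ := by gcongr
    refine (Finset.sum_le_sum h1).trans ?_
    rw [Finset.sum_add_distrib]
    have h2 : ∑ p ∈ Finset.range K, (if p < K2 then ((p : ℝ) + 1) * |aF G L ρ f p| else 0) ≤
        ∑ p ∈ Finset.range K2, ((p : ℝ) + 1) * |aF G L ρ f p| := by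
      rw [← Finset.sum_filter]
      refine Finset.sum_le_sum_of_subset_of_nonneg (fun p hp => ?_) fun p _ _ => by positivity
      rw [Finset.mem_filter] at hp
      exact Finset.mem_range.2 hp.2
    have h3 : ∑ p ∈ Finset.range K2, ((p : ℝ) + 1) * |aF G L ρ f p| ≤ √(K2 : ℝ) * H := by
      have h4 := sq_sum_le_card_mul_sum_sq (s := Finset.range K2)
        (f := fun p : ℕ => ((p : ℝ) + 1) * |aF G L ρ f p|)
      rw [Finset.card_range] at h4
      have e2 : ∑ p ∈ Finset.range K2, (((p : ℝ) + 1) * |aF G L ρ f p|) ^ 2 =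
          ∑ p ∈ Finset.range K2, (((p : ℝ) + 1) * aF G L ρ f p) ^ 2 :=
        Finset.sum_congr rfl fun p _ => by rw [mul_pow, sq_abs, mul_pow]
      rw [e2] at h4
      refine le_of_sq_le_sq (h4.trans ?_) (by positivity)
      rw [mul_pow, Real.sq_sqrt k0.le]
      exact mul_le_mul_of_nonneg_left (hA K2) k0.le
    have h5 := geo_sum hs K
    have h6 : 1 / sw L ≤ L := by
      unfold sw
      rw [one_div_div, div_le_iff₀ (by positivity)]
      have h9 : 4 ≤ π ^ 2 := by nlinarith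
      have := mul_le_mul_of_nonneg_left h9 hL.le
      linarith
    have h7 : √(K2 : ℝ) * H ≤ ((2 * n + 15) * H + L) * H := mul_le_mul_of_nonneg_right k4 hH
    unfold BV
    linarith
  have hB0 : 0 ≤ BV L n H := by unfold BV; positivity
  have h9 := HRU_univ hG hL n (K1 := n ^ 2 + 1) (by omega) hcs' hB a0
  have h10 := HRU_cut (C := 15) (S := 1 / (2 * n + 15)) (c := cF G L ρ f)
    (fun p => (inv_kap hG hL (n ^ 2 + 1) p).1) (by norm_num) (fun p => by
      rcases lt_or_ge p K2 with hp | hp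
      · left
        rw [hc']
        unfold cF
        simp only
        rw [if_pos hp]
      · right
        have hk : (0 : ℝ) < (p : ℝ) + 1 := by positivity
        have hp' : L ≤ (p : ℝ) + 1 := by
          have : (K2 : ℝ) ≤ p := by exact_mod_cast hp
          linarith
        constructor
        · refine (inv_kap hG hL (n ^ 2 + 1) p).2.trans ?_
          have : 2 * L / ((p : ℝ) + 1) ≤ 2 := by
            rw [div_le_iff₀ hk]
            linarith
          linarith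
        · have e : c' p = wf L p := by
            rw [hc']
            simp only
            rw [if_neg (by omega), zero_add]
          rw [e, el_eq]
          have h11 := wf_sub L p
          have h12 := wz_nonneg hL p
          have h13 := wz_le hL p
          have e2 : ((p : ℝ) + 1) * wf L p - pr p = -(((p : ℝ) + 1) * wz L p) := by
            have : ((p : ℝ) + 1) * (wf L p - pr p / (p + 1)) = ((p : ℝ) + 1) * wf L p - pr p := by
              field_simp
            rw [← this, h11]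
            ring
          rw [e2, abs_neg, abs_of_nonneg (by positivity)]
          rw [le_div_iff₀ hk] at h13
          linarith) hcs hcs' hS h9
  have e : (2 * (n : ℝ) + 15) * (1 / (2 * n + 15)) = 1 := by
    field_simp
  rw [e] at h10
  exact h10

/-! ### polynomial form -/

theorem TV_le (hL : 18 ≤ L) (n : ℕ) {H : ℝ} (hH : 0 ≤ H) :
    TV L n H ≤ Real.exp 24 * ((n : ℝ) + 1) ^ 4 * L ^ 10 * (1 + H ^ 2) := by
  have hpi2 : π < 3.15 := Real.pi_lt_d2
  have hpi := Real.pi_gt_three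
  have hn : (0 : ℝ) ≤ n := Nat.cast_nonneg n
  have hL0 : 0 < L := by linarith
  obtain ⟨N, hN⟩ : ∃ N : ℝ, N = (n : ℝ) + 1 := ⟨_, rfl⟩
  have hN1 : 1 ≤ N := by linarith
  have e0 : (((n ^ 2 + 1 : ℕ) : ℝ)) = (n : ℝ) ^ 2 + 1 := by push_cast; ring
  have a1 : NW L (n ^ 2 + 1) ≤ 8 * N ^ 2 * L ^ 4 := by
    unfold NW
    rw [e0]
    have b1 : (n : ℝ) ^ 2 + 1 + 3 * L ^ 2 ≤ 4 * N ^ 2 * L ^ 2 := by
      have c1 : (n : ℝ) ^ 2 + 1 ≤ N ^ 2 := by rw [hN]; nlinarith
      have c2 : 1 ≤ N ^ 2 := by nlinarith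
      have c3 : 1 ≤ L ^ 2 := by nlinarith
      nlinarith [mul_le_mul c2 c3 (by norm_num) (by positivity)]
    have b2 : L ^ 2 + 16 * L + 26 ≤ 2 * L ^ 2 := by nlinarith
    calc ((n : ℝ) ^ 2 + 1 + 3 * L ^ 2) * (L ^ 2 + 16 * L + 26) ≤
        (4 * N ^ 2 * L ^ 2) * (2 * L ^ 2) := by gcongr
      _ = _ := by ring
  have a2 : WW L ≤ 2 * L ^ 2 := by
    unfold WW
    nlinarith
  have a0 : 0 ≤ NW L (n ^ 2 + 1) := by unfold NW; positivity
  have a3 : WW L * NW L (n ^ 2 + 1) ≤ 16 * N ^ 2 * L ^ 6 := by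
    calc WW L * NW L (n ^ 2 + 1) ≤ (2 * L ^ 2) * (8 * N ^ 2 * L ^ 4) := by gcongr
      _ = _ := by ring
  have a4 : BV L n H ≤ 20 * N * L * (1 + H ^ 2) := by
    unfold BV
    have b1 : (2 * n + 15) * H + L ≤ 15 * N * H + L := by
      rw [hN]
      nlinarith
    have b2 : ((2 * n + 15) * H + L) * H ≤ (15 * N * H + L) * H := by gcongr
    have b3 : 2 * H ≤ 1 + H ^ 2 := by nlinarith [sq_nonneg (H - 1)]
    have b4 : 15 * N * H ^ 2 ≤ 15 * N * L * H ^ 2 := by
      have : 15 * N * H ^ 2 * 1 ≤ 15 * N * H ^ 2 * L := by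
        refine mul_le_mul_of_nonneg_left (by linarith) (by positivity)
      nlinarith
    have b5 : L * H ≤ L * (1 + H ^ 2) := by
      refine mul_le_mul_of_nonneg_left ?_ hL0.le
      nlinarith
    have b6 : L * (1 + H ^ 2) ≤ N * L * (1 + H ^ 2) := by
      have : 1 * (L * (1 + H ^ 2)) ≤ N * (L * (1 + H ^ 2)) :=
        mul_le_mul_of_nonneg_right hN1 (by positivity)
      nlinarith
    have b7 : L ≤ L * (1 + H ^ 2) := by nlinarith [mul_nonneg hL0.le (sq_nonneg H)]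
    have b8 : 15 * N * L * H ^ 2 ≤ 15 * N * L * (1 + H ^ 2) := by
      refine mul_le_mul_of_nonneg_left (by linarith [sq_nonneg H]) (by positivity)
    nlinarith
  have a5 : 2 * L + 4 * π ≤ 3 * L := by linarith
  have a6 : 1 + π / 2 * (2 * n + 1 + 2 * ((2 * L + 4 * π) * BV L n H + WW L * NW L (n ^ 2 + 1))) ≤
      300 * N ^ 2 * L ^ 6 * (1 + H ^ 2) := by
    have c0 : 0 ≤ BV L n H := by unfold BV; positivity
    have c1 : (2 * L + 4 * π) * BV L n H ≤ 3 * L * (20 * N * L * (1 + H ^ 2)) := by gcongr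
    have c2 : (1:ℝ) ≤ 1 + H ^ 2 := by linarith [sq_nonneg H]
    have c3 : N * L ^ 2 ≤ N ^ 2 * L ^ 6 := by
      have d1 : N ≤ N ^ 2 := by nlinarith
      have d2 : L ^ 2 ≤ L ^ 6 := pow_le_pow_right₀ (by linarith) (by norm_num)
      gcongr
    have c4 : 1 ≤ N ^ 2 * L ^ 6 := by
      have d1 : 1 ≤ N ^ 2 := by nlinarith
      have d2 : 1 ≤ L ^ 6 := one_le_pow₀ (by linarith)
      nlinarith
    have c5 : N ≤ N ^ 2 * L ^ 6 := by
      have d1 : N ≤ N ^ 2 := by nlinarith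
      have d2 : 1 ≤ L ^ 6 := one_le_pow₀ (by linarith)
      nlinarith [mul_le_mul_of_nonneg_left d2 (show (0:ℝ) ≤ N ^ 2 by positivity)]
    obtain ⟨X, hX⟩ : ∃ X : ℝ, X = N ^ 2 * L ^ 6 * (1 + H ^ 2) := ⟨_, rfl⟩
    have x1 : N * L ^ 2 * (1 + H ^ 2) ≤ X := by rw [hX]; gcongr
    have x2 : N ^ 2 * L ^ 6 ≤ X := by
      rw [hX]
      nlinarith [mul_le_mul_of_nonneg_left c2 (show (0:ℝ) ≤ N ^ 2 * L ^ 6 by positivity)]
    have x3 : (1:ℝ) ≤ X := c4.trans x2
    have x4 : N ≤ X := c5.trans x2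
    have y1 : 2 * (n : ℝ) + 1 ≤ 2 * N := by rw [hN]; linarith
    have y2 : (2 * L + 4 * π) * BV L n H ≤ 60 * X := by
      refine c1.trans ?_
      have : 3 * L * (20 * N * L * (1 + H ^ 2)) = 60 * (N * L ^ 2 * (1 + H ^ 2)) := by ring
      rw [this]
      linarith
    have y3 : WW L * NW L (n ^ 2 + 1) ≤ 16 * X := by
      refine a3.trans ?_
      linarith
    have y4 : 2 * (n : ℝ) + 1 + 2 * ((2 * L + 4 * π) * BV L n H + WW L * NW L (n ^ 2 + 1)) ≤
        154 * X := by linarith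
    have y5 : π / 2 * (2 * (n : ℝ) + 1 + 2 * ((2 * L + 4 * π) * BV L n H +
        WW L * NW L (n ^ 2 + 1))) ≤ 1.6 * (154 * X) := by
      have z0 : 0 ≤ 2 * (n : ℝ) + 1 + 2 * ((2 * L + 4 * π) * BV L n H +
          WW L * NW L (n ^ 2 + 1)) := by
        have : 0 ≤ WW L := by unfold WW; positivity
        positivity
      have z1 : π / 2 ≤ 1.6 := by linarith
      exact mul_le_mul z1 y4 z0 (by norm_num)
    have e : 300 * N ^ 2 * L ^ 6 * (1 + H ^ 2) = 300 * X := by rw [hX]; ring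
    rw [e]
    linarith
  have h8 : Real.exp 8 ≥ 2400 := by
    have h1 := Real.add_one_le_exp (1 : ℝ)
    have h2 : Real.exp 8 = Real.exp 1 ^ 8 := by
      rw [← Real.exp_nat_mul]
      norm_num
    have h3 : (2.7 : ℝ) ≤ Real.exp 1 := by
      have := Real.exp_one_gt_d9
      linarith
    rw [h2]
    calc (2400 : ℝ) ≤ 2.7 ^ 8 := by norm_num
      _ ≤ Real.exp 1 ^ 8 := by gcongr
  unfold TV TU
  have b0 : 0 ≤ 1 + π / 2 * (2 * n + 1 + 2 * ((2 * L + 4 * π) * BV L n H +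
      WW L * NW L (n ^ 2 + 1))) := by
    have : 0 ≤ WW L := by unfold WW; positivity
    have : 0 ≤ BV L n H := by unfold BV; positivity
    positivity
  calc (1 + π / 2 * (2 * n + 1 + 2 * ((2 * L + 4 * π) * BV L n H + WW L * NW L (n ^ 2 + 1)))) *
      NW L (n ^ 2 + 1) * Real.exp 15 * Real.exp 1 ≤
      (300 * N ^ 2 * L ^ 6 * (1 + H ^ 2)) * (8 * N ^ 2 * L ^ 4) * Real.exp 15 * Real.exp 1 := by
        gcongr
    _ = 2400 * (Real.exp 15 * Real.exp 1) * N ^ 4 * L ^ 10 * (1 + H ^ 2) := by ring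
    _ ≤ Real.exp 8 * (Real.exp 15 * Real.exp 1) * N ^ 4 * L ^ 10 * (1 + H ^ 2) := by gcongr
    _ = Real.exp 24 * N ^ 4 * L ^ 10 * (1 + H ^ 2) := by
      rw [← Real.exp_add, ← Real.exp_add]
      norm_num
    _ ≤ _ := by rw [hN]

/-! ### the literal input of the folded window bounds -/

/-- `HRU` is monotone in the factor -/
theorem HRU_mono {n : ℕ} {w c : ℕ → ℝ} {a0 τ τ' : ℝ} (h : HRU n w c a0 τ) (hτ : τ ≤ τ') :
    HRU n w c a0 τ' := fun E hE => (h E hE).trans (ENNReal.ofReal_le_ofReal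
  (mul_le_mul_of_nonneg_left hτ (by positivity)))

open NUC37 (C1P)

/-- **The universal factor for a field with finite energy.** -/
theorem hRU_poly (hG : 9 ≤ G) (hLG : 2 * G ≤ L) (n : ℕ) {ρ : ℝ → ℝ} (hρ : Continuous ρ)
    {g g' : ℝ → ℝ} (hg : C1P L g g') {A B : ℝ} (hA : ∫ x in (-(L / 2))..(L / 2), ρ x ^ 2 ≤ A)
    (hB : ∫ x in (-(L / 2))..(L / 2), g' x ^ 2 ≤ B) (b0 : ℝ) :
    HRU n (wK G L (n ^ 2 + 1)) (cF G L ρ (TCO.ce L g)) b0
      (Real.exp 24 * ((n : ℝ) + 1) ^ 4 * L ^ 10 * (1 + L * (A + B))) := by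
  have hpi := Real.pi_gt_three
  have hL18 : 18 ≤ L := by linarith
  have hL : 0 < L := by linarith
  have hle : -(L / 2) ≤ L / 2 := by linarith
  have hA0 : 0 ≤ A := (intervalIntegral.integral_nonneg hle fun x _ => sq_nonneg _).trans hA
  have hB0 : 0 ≤ B := (intervalIntegral.integral_nonneg hle fun x _ => sq_nonneg _).trans hB
  have h1 : ∀ K, ∑ p ∈ Finset.range K, (((p : ℝ) + 1) * TCO.ce L g p) ^ 2 ≤
      L / (8 * π ^ 2) * B := by
    intro K
    refine le_trans (Finset.sum_le_sum fun p _ => ?_) ((bessel1 hL hg K).trans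
      (mul_le_mul_of_nonneg_left hB (by positivity)))
    have h2 := Complex.abs_re_le_norm (fc L g (p + 1))
    rw [← sq_abs, abs_mul, abs_of_nonneg (by positivity : (0:ℝ) ≤ (p : ℝ) + 1)]
    unfold TCO.ce
    gcongr
  have h2 := aF_sq hG hL hρ (TCO.ce L g) h1
  have h3 : L / (8 * π ^ 2) * B * 2 ≤ L * B := by
    have : L / (8 * π ^ 2) ≤ L / 2 := by
      apply div_le_div_of_nonneg_left hL.le (by norm_num)
      nlinarith
    nlinarith [mul_le_mul_of_nonneg_right this hB0]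
  have h4 : 0 ≤ L * (A + B) := by positivity
  have h5 := HRU_H (H := √(L * (A + B))) hG hLG n hρ (TCO.ce_summable hL hg) (Real.sqrt_nonneg _)
    (fun K => by
      rw [Real.sq_sqrt h4]
      refine (h2 K).trans ?_
      have := mul_le_mul_of_nonneg_left hA hL.le
      linarith) b0
  refine HRU_mono h5 ?_
  have h6 := TV_le hL18 n (Real.sqrt_nonneg (L * (A + B)))
  rwa [Real.sq_sqrt h4] at h6

/-- **The universal factor with a mode**: the literal hypothesis `hRU` of `TCO.expF_C_hi`. -/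
theorem hRU_univ {T A0 : ℝ} (hG : 9 ≤ G) (hT : 0 ≤ T) (hL2 : L = 2 * T + 2 * G) (n : ℕ)
    {ρ : ℝ → ℝ} (hρ : Continuous ρ) {E E' : ℝ → ℝ} (hE : C1P L E E') {b b' : ℝ → ℝ}
    (hb1 : ∀ x, |b x| ≤ 1) (hbd : ∀ x, HasDerivAt b (b' x) x) (hbc : Continuous b')
    (hb2 : ∀ x, |b' x| ≤ 1) {A B : ℝ} (hA : ∫ x in (-(L / 2))..(L / 2), ρ x ^ 2 ≤ A)
    (hB : ∫ x in (-(L / 2))..(L / 2), E' x ^ 2 ≤ B) :
    ∀ a x b0 : ℝ, |a| ≤ A0 → HRU n (NUC62.wK G L (n ^ 2 + 1))
      (TCW.cF G L ρ (TCO.ce L fun t => E t + 2 * x * TCO.md T b a t)) b0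
      (Real.exp 24 * ((n : ℝ) + 1) ^ 4 * L ^ 10 * (1 + L * (A + 2 * B) + 16 * L ^ 2 * (4 + A0) ^ 2) *
        Real.exp (1 * (1 + |a|) * x ^ 2 / 2)) := by
  intro a x b0 ha
  have hL : 0 < L := by rw [hL2]; linarith
  have hle : -(L / 2) ≤ L / 2 := by linarith
  have ha0 := abs_nonneg a
  have hA0 : 0 ≤ A := (intervalIntegral.integral_nonneg hle fun x _ => sq_nonneg _).trans hA
  have hB0 : 0 ≤ B := (intervalIntegral.integral_nonneg hle fun x _ => sq_nonneg _).trans hB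
  have hec : Continuous fun t : ℝ => -(Real.sin (a * t) * a) := by fun_prop
  have hed : ∀ t : ℝ, HasDerivAt (fun t : ℝ => Real.cos (a * t)) (-(Real.sin (a * t) * a)) t := by
    intro t
    have h := ((hasDerivAt_id t).const_mul a).cos
    simp only [id_eq, mul_one] at h
    convert h using 1
    ring
  have hm : C1P L (TCO.md T b a) _ := NUH0.mode_C1P hL (by rw [hL2]; linarith) hbd hbc hed hec
  obtain ⟨m', hm'⟩ : ∃ m' : ℝ → ℝ, m' = fun x => NUC37.chi' T x * (b x * Real.cos (a * x)) +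
      NUC37.chi T x * (b' x * Real.cos (a * x) + b x * -(Real.sin (a * x) * a)) := ⟨_, rfl⟩
  rw [← hm'] at hm
  have hg : C1P L (fun t => E t + 2 * x * TCO.md T b a t) (fun t => E' t + 2 * x * m' t) :=
    ⟨hE.cont.add (continuousOn_const.mul hm.cont),
      fun t ht => (hE.deriv t ht).add ((hm.deriv t ht).const_mul (2 * x)),
      hE.cont'.add (continuousOn_const.mul hm.cont'), by rw [hE.per, hm.per]⟩
  have h1 : ∀ t, |m' t| ≤ 4 + |a| := by
    intro t
    have a1 := NUC37.chi_abs T t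
    have a1' := NUC37.chi'_abs T t
    have a2 := hb1 t
    have a2' := hb2 t
    have a3 := Real.abs_cos_le_one (a * t)
    have a3' : |-(Real.sin (a * t) * a)| ≤ |a| := by
      rw [abs_neg, abs_mul]
      exact mul_le_of_le_one_left ha0 (Real.abs_sin_le_one _)
    rw [hm']
    calc |NUC37.chi' T t * (b t * Real.cos (a * t)) +
          NUC37.chi T t * (b' t * Real.cos (a * t) + b t * -(Real.sin (a * t) * a))| ≤
        |NUC37.chi' T t * (b t * Real.cos (a * t))| +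
          |NUC37.chi T t * (b' t * Real.cos (a * t) + b t * -(Real.sin (a * t) * a))| :=
          abs_add_le _ _
      _ ≤ |NUC37.chi' T t| * (|b t| * |Real.cos (a * t)|) +
          |NUC37.chi T t| * (|b' t| * |Real.cos (a * t)| + |b t| * |-(Real.sin (a * t) * a)|) := by
          rw [abs_mul, abs_mul, abs_mul (NUC37.chi T t)]
          gcongr
          refine (abs_add_le _ _).trans ?_
          rw [abs_mul, abs_mul]
      _ ≤ 3 * (1 * 1) + 1 * (1 * 1 + 1 * |a|) := by gcongr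
      _ = _ := by ring
  have hB' : ∫ t in (-(L / 2))..(L / 2), (E' t + 2 * x * m' t) ^ 2 ≤
      2 * B + 8 * x ^ 2 * (L * (4 + |a|) ^ 2) := by
    have i1 : IntervalIntegrable (fun t => E' t ^ 2) volume (-(L / 2)) (L / 2) := by
      apply ContinuousOn.intervalIntegrable
      rw [uIcc_of_le hle]
      exact hE.cont'.pow 2
    have i2 : IntervalIntegrable (fun t => m' t ^ 2) volume (-(L / 2)) (L / 2) := by
      apply ContinuousOn.intervalIntegrable
      rw [uIcc_of_le hle]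
      exact hm.cont'.pow 2
    have i3 : IntervalIntegrable (fun t => (E' t + 2 * x * m' t) ^ 2) volume (-(L / 2)) (L / 2) := by
      apply ContinuousOn.intervalIntegrable
      rw [uIcc_of_le hle]
      exact (hE.cont'.add (continuousOn_const.mul hm.cont')).pow 2
    have h2 : ∫ t in (-(L / 2))..(L / 2), (E' t + 2 * x * m' t) ^ 2 ≤
        ∫ t in (-(L / 2))..(L / 2), (2 * E' t ^ 2 + 8 * x ^ 2 * m' t ^ 2) := by
      refine intervalIntegral.integral_mono_on hle i3 ((i1.const_mul 2).add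
        (i2.const_mul (8 * x ^ 2))) fun t _ => ?_
      nlinarith [sq_nonneg (E' t - 2 * x * m' t)]
    rw [intervalIntegral.integral_add (i1.const_mul 2) (i2.const_mul (8 * x ^ 2)),
      intervalIntegral.integral_const_mul, intervalIntegral.integral_const_mul] at h2
    have h3 : ∫ t in (-(L / 2))..(L / 2), m' t ^ 2 ≤ ∫ t in (-(L / 2))..(L / 2), (4 + |a|) ^ 2 := by
      refine intervalIntegral.integral_mono_on hle i2 intervalIntegrable_const fun t _ => ?_
      rw [← sq_abs]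
      exact pow_le_pow_left₀ (abs_nonneg _) (h1 t) 2
    rw [intervalIntegral.integral_const, smul_eq_mul] at h3
    have h4 : (L / 2 - -(L / 2)) * (4 + |a|) ^ 2 = L * (4 + |a|) ^ 2 := by ring
    rw [h4] at h3
    have h5 := mul_le_mul_of_nonneg_left h3 (show 0 ≤ 8 * x ^ 2 by positivity)
    linarith
  have h6 := hRU_poly hG (by rw [hL2]; linarith) n hρ hg hA hB' b0
  refine HRU_mono h6 ?_
  obtain ⟨Y, hY⟩ : ∃ Y : ℝ, Y = x ^ 2 := ⟨_, rfl⟩
  have hY0 : 0 ≤ Y := by rw [hY]; positivity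
  have hex : 1 + Y ≤ 2 * Real.exp (1 * (1 + |a|) * x ^ 2 / 2) := by
    have b1 : Y / 2 + 1 ≤ Real.exp (Y / 2) := Real.add_one_le_exp _
    have b2 : Real.exp (Y / 2) ≤ Real.exp (1 * (1 + |a|) * x ^ 2 / 2) := by
      refine Real.exp_le_exp.2 ?_
      rw [← hY]
      nlinarith [mul_nonneg ha0 hY0]
    linarith
  have he1 : 1 ≤ Real.exp (1 * (1 + |a|) * x ^ 2 / 2) := Real.one_le_exp (by positivity)
  have h7 : 1 + L * (A + (2 * B + 8 * x ^ 2 * (L * (4 + |a|) ^ 2))) ≤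
      (1 + L * (A + 2 * B) + 16 * L ^ 2 * (4 + A0) ^ 2) *
        Real.exp (1 * (1 + |a|) * x ^ 2 / 2) := by
    have c1 : (4 + |a|) ^ 2 ≤ (4 + A0) ^ 2 := by gcongr
    have c2 : 8 * L ^ 2 * (4 + |a|) ^ 2 * Y ≤ 8 * L ^ 2 * (4 + A0) ^ 2 * Y := by gcongr
    have c3 : 0 ≤ 1 + L * (A + 2 * B) := by positivity
    have c4 : 0 ≤ 8 * L ^ 2 * (4 + A0) ^ 2 := by positivity
    have c5 := mul_le_mul_of_nonneg_left he1 c3
    have c6 := mul_le_mul_of_nonneg_left (show Y ≤ 2 * Real.exp (1 * (1 + |a|) * x ^ 2 / 2) by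
      linarith) c4
    rw [← hY] at c5 c6 ⊢
    linarith
  calc Real.exp 24 * ((n : ℝ) + 1) ^ 4 * L ^ 10 *
        (1 + L * (A + (2 * B + 8 * x ^ 2 * (L * (4 + |a|) ^ 2)))) ≤
      Real.exp 24 * ((n : ℝ) + 1) ^ 4 * L ^ 10 *
        ((1 + L * (A + 2 * B) + 16 * L ^ 2 * (4 + A0) ^ 2) *
          Real.exp (1 * (1 + |a|) * x ^ 2 / 2)) := by gcongr
    _ = _ := by ring

end

end Pool.Agent.FSz.Tau
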