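import Pool.Agent.TC.FarB

/-!
# The trivial rapidity of a line of a half strip (helper17)

`z c = -3π/16` (frame rapidity `3λ`): the line `c` at the top of the list is not seen, with and without an exit at the
floor.
-/

set_option autoImplicit false

namespace Pool.Agent.TC

open _root_.Pool.Agent.EXL _root_.Pool.Agent.EXL.Pat Filter Topology
open _root_.Pool.Agent.EXL.Fm (lam)
open _root_.Pool.Agent.NUF _root_.Pool.Agent.NUU
open Complex (I exp sin cos)

variable {α : Type*} [DecidableEq α] {z z' : α → ℂ} {X Y : List α} {p q b c d : α} {u u' : ℂ}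

/-- The factor of a line at the trivial rapidity. -/
noncomputable def Kt (z : α → ℂ) (S : Finset α) : ℂ := ∏ k ∈ S, 2 * Fm.Dn (ux z k)

theorem Kt_empty : Kt z ∅ = 1 := Finset.prod_empty

theorem Kt_insert {S : Finset α} (h : p ∉ S) : Kt z (insert p S) = 2 * Fm.Dn (ux z p) * Kt z S :=
  Finset.prod_insert h

theorem Kt_erase {S : Finset α} (h : p ∈ S) : Kt z S = 2 * Fm.Dn (ux z p) * Kt z (S.erase p) :=
  (Finset.mul_prod_erase _ _ h).symm

theorem fa'_3l : Fr.fa' (3 * lam) = 0 := by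
  unfold Fr.fa'
  rw [sub_self, Complex.sin_zero]

theorem dl_3l (u : ℂ) : Fr.dl u (3 * lam) = 2 * Fm.Dn u := by
  have h1 : Fr.fe (3 * lam) = Fr.s2 := by
    unfold Fr.fe Fr.s2
    rw [show (3 * lam + 3 * lam : ℂ) = 8 * lam - 2 * lam by ring, Fm.sin_8lam_sub]
  rw [Fr.dl, Fr.Dn_pos, Fr.fa_3l, h1]
  ring

theorem pr_3l {y : ℂ} (h : sin (3 * lam - y) ≠ 0) : Fr.pr (3 * lam) y = 2 * Fm.Dn y := by
  have e1 : sin (2 * lam + (3 * lam - y)) = sin (3 * lam + y) := by
    rw [show (2 * lam + (3 * lam - y) : ℂ) = 8 * lam - (3 * lam + y) by ring, Fm.sin_8lam_sub]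
  have e2 : sin (3 * lam + (3 * lam - y)) = sin (2 * lam + y) := by
    rw [show (3 * lam + (3 * lam - y) : ℂ) = 8 * lam - (2 * lam + y) by ring, Fm.sin_8lam_sub]
  have e3 : sin (y + 3 * lam + 2 * lam) = sin (3 * lam - y) := by
    rw [show (y + 3 * lam + 2 * lam : ℂ) = 8 * lam - (3 * lam - y) by ring, Fm.sin_8lam_sub]
  unfold Fr.pr Fm.Dn
  rw [e1, e2, e3]
  field_simp

theorem below_append {i : α} (hi : i ∈ X) : below (X ++ Y) i = below X i := by
  obtain ⟨L, D, rfl, hL⟩ := split_of_mem hi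
  rw [below_split hL, List.append_assoc, List.cons_append, below_split hL]

theorem oE_append {i : α} (hi : i ∈ X) : oE uops z (X ++ Y) i = (oE uops z X i : Module.End ℂ (Pat α → ℂ)) := by
  unfold oE
  rw [below_append hi]

theorem toF_append_one : (X ++ [c]).toFinset = insert c X.toFinset := by
  ext x
  simp

theorem jn_zero (p i : α) : jn p i 0 0 = 0 := by
  unfold jn
  rw [zero_smul, zero_smul, add_zero]

/-- The weights of the lines below a line at the trivial rapidity. -/
theorem wt_triv {i : α} {S : Finset α} (hc : c ∉ S) (hu : ux z c = 3 * lam)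
    (hs : sin (3 * lam - ux z i) ≠ 0) : Fr.wt (ux z) i (insert c S) = 2 * Fm.Dn (ux z i) * Fr.wt (ux z) i S := by
  rw [Fr.wt_insert _ hc, hu, pr_3l hs]

theorem Dl_triv {S : Finset α} (hc : c ∉ S) (hu : ux z c = 3 * lam) :
    Fr.Dl (ux z) u (insert c S) = 2 * Fm.Dn u * Fr.Dl (ux z) u S := by
  unfold Fr.Dl
  rw [Finset.prod_insert hc, hu, dl_3l]

theorem wt_triv_self {S : Finset α} (hu : ux z c = 3 * lam) : Fr.wt (ux z) c S = 0 := by
  unfold Fr.wt
  rw [hu, fa'_3l, mul_zero, zero_mul]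

/-- **The trivial line at the top.** -/
theorem PH_top (hu : ux z c = 3 * lam) : ∀ (n : ℕ) (X : List α), X.length = n → (X ++ [c]).Nodup →
    (∀ i ∈ X, sin (3 * lam - ux z i) ≠ 0) → PH z (X ++ [c]) = Kt z X.toFinset • PH z X := by
  intro n
  induction n using Nat.strong_induction_on with
  | _ n ih =>
    intro X hX hn hs
    cases X with
    | nil =>
      rw [List.nil_append, PH_cons, List.toFinset_nil, Finset.sum_empty, add_zero, Kt_empty, one_smul]
      unfold Fr.Dl
      rw [Finset.prod_empty, one_smul]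
    | cons p X =>
      simp only [List.length_cons] at hX
      rw [List.cons_append] at hn ⊢
      obtain ⟨hp, hn'⟩ := List.nodup_cons.1 hn
      have hpX : p ∉ X := fun h => hp (List.mem_append_left _ h)
      have hX' : X.Nodup := (List.nodup_append.1 hn').1
      have hcX : c ∉ X := fun h => (List.nodup_append.1 hn').2.2 c h c (by simp) rfl
      have hcF : c ∉ X.toFinset := fun h => hcX (List.mem_toFinset.1 h)
      have hpF : p ∉ X.toFinset := fun h => hpX (List.mem_toFinset.1 h)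
      have i1 := ih X.length (by omega) X rfl hn' fun i hi => hs i (List.mem_cons_of_mem _ hi)
      rw [PH_cons, PH_cons, i1, toF_append_one, Dl_triv hcF hu, Finset.sum_insert hcF, List.toFinset_cons,
        Kt_insert hpF]
      rw [wt_triv_self hu, zero_mul, zero_mul, zero_mul, jn_zero, zero_mul, LinearMap.comp_zero,
        zero_add, smul_add, smul_smul, smul_smul, Finset.smul_sum]
      congr 1
      · congr 1
        ring
      · refine Finset.sum_congr rfl fun i hi => ?_
        have hi' := List.mem_toFinset.1 hi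
        have hci : c ≠ i := fun e => hcX (e ▸ hi')
        have e1 : (insert c X.toFinset).erase i = insert c (X.toFinset.erase i) :=
          Finset.erase_insert_of_ne hci
        have e2 : (X ++ [c]).erase i = X.erase i ++ [c] := List.erase_append_left _ hi'
        have hlen : (X.erase i).length < n := by
          have := List.length_erase_le (a := i) (l := X)
          omega
        have hn2 : (X.erase i ++ [c]).Nodup := by
          rw [← e2]
          exact hn'.erase i
        have i2 := ih _ hlen (X.erase i) rfl hn2 fun j hj =>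
          hs j (List.mem_cons_of_mem _ (List.mem_of_mem_erase hj))
        have hcE : c ∉ X.toFinset.erase i := fun h => hcF (Finset.mem_of_mem_erase h)
        rw [e1, e2, i2, oE_append hi', wt_triv hcE hu (hs i (List.mem_cons_of_mem _ hi')), Dl_triv hcE hu,
          erase_toF hX', Kt_erase hi]
        refine LinearMap.ext fun F => ?_
        simp only [LinearMap.smul_apply, LinearMap.comp_apply, Module.End.mul_apply, jn,
          LinearMap.add_apply, map_add, map_smul, Module.End.one_apply, smul_eq_mul]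
        ring

/-- **The trivial line at the top**, with an exit. -/
theorem PS0_top (hu : ux z c = 3 * lam) (hn : (X ++ [c]).Nodup) (hs : ∀ i ∈ X, sin (3 * lam - ux z i) ≠ 0) :
    PS0 z b (X ++ [c]) = Kt z X.toFinset • PS0 z b X := by
  have hX' : X.Nodup := (List.nodup_append.1 hn).1
  have hcX : c ∉ X := fun h => (List.nodup_append.1 hn).2.2 c h c (by simp) rfl
  have hcF : c ∉ X.toFinset := fun h => hcX (List.mem_toFinset.1 h)
  unfold PS0
  rw [toF_append_one, Finset.sum_insert hcF, wt_triv_self hu, zero_smul, zero_add, Finset.smul_sum]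
  refine Finset.sum_congr rfl fun i hi => ?_
  have hi' := List.mem_toFinset.1 hi
  have hci : c ≠ i := fun e => hcX (e ▸ hi')
  have e1 : (insert c X.toFinset).erase i = insert c (X.toFinset.erase i) :=
    Finset.erase_insert_of_ne hci
  have e2 : (X ++ [c]).erase i = X.erase i ++ [c] := List.erase_append_left _ hi'
  have hn2 : (X.erase i ++ [c]).Nodup := by
    rw [← e2]
    exact hn.erase i
  have hcE : c ∉ X.toFinset.erase i := fun h => hcF (Finset.mem_of_mem_erase h)
  rw [e1, e2, PH_top hu _ (X.erase i) rfl hn2 fun j hj => hs j (List.mem_of_mem_erase hj), oE_append hi',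
    wt_triv hcE hu (hs i hi'), erase_toF hX', Kt_erase hi]
  refine LinearMap.ext fun F => ?_
  simp only [LinearMap.smul_apply, LinearMap.comp_apply, smul_eq_mul]
  ring

/-! ### The trivial line at the bottom -/

section bottom

theorem dl_zero (x : ℂ) : Fr.dl 0 x = 2 * (Fr.fa x * Fr.fe x) := by
  unfold Fr.dl
  rw [Fr.fa_0]
  ring

theorem fe_3l_zero : (2 : ℂ) * Fr.c3 * Fr.s3 = Fr.s2 := by
  unfold Fr.c3 Fr.s3 Fr.s2
  rw [show (2 * lam : ℂ) = 8 * lam - 2 * (3 * lam) by ring, Fm.sin_8lam_sub, Complex.sin_two_mul]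
  ring

/-- `2 Dn = 2 fb fe`: the factor in terms of `fa`. -/
theorem Kt_prod (S : Finset α) (z : α → ℂ) (h : ∀ k ∈ S, Fr.fa (ux z k) ≠ 0) :
    Kt z S = Fr.Dl (ux z) 0 S * ∏ k ∈ S, (Fr.fb (ux z k) / Fr.fa (ux z k)) := by
  unfold Kt Fr.Dl
  rw [← Finset.prod_mul_distrib]
  refine Finset.prod_congr rfl fun k hk => ?_
  have := h k hk
  rw [dl_zero, Fr.Dn_eq]
  field_simp

variable [Finite α]

/-- The recursion divided by the product of the `fa`. -/
theorem PH_rec' (hn : X.Nodup) (hb : b ∉ X) (hc : c ∉ X) (hbc : b ≠ c) (hG : Gz z X)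
    (ha : ∀ k ∈ X, Fr.fa (ux z k) ≠ 0) :
    (2 * (∏ k ∈ X.toFinset, (Fr.fb (ux z k) / Fr.fa (ux z k)) - 1)) • PH z X =
      ∑ i ∈ X.toFinset, (Fr.wt (ux z) i (X.toFinset.erase i) / Fr.fa (ux z i)) •
        (PH z (X.erase i) ∘ₗ oE uops z X i) := by
  have h := PH_rec hn hb hc hbc hG
  have ha' : ∀ k ∈ X.toFinset, Fr.fa (ux z k) ≠ 0 := fun k hk => ha k (List.mem_toFinset.1 hk)
  have hP : ∏ k ∈ X.toFinset, Fr.fa (ux z k) ≠ 0 := Finset.prod_ne_zero_iff.2 ha'
  have h2 := congrArg (fun V => (∏ k ∈ X.toFinset, Fr.fa (ux z k))⁻¹ • V) h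
  rw [smul_smul, Finset.smul_sum] at h2
  rw [show (2 * (∏ k ∈ X.toFinset, (Fr.fb (ux z k) / Fr.fa (ux z k)) - 1) : ℂ) =
      (∏ k ∈ X.toFinset, Fr.fa (ux z k))⁻¹ *
        (2 * (∏ k ∈ X.toFinset, Fr.fb (ux z k) - ∏ k ∈ X.toFinset, Fr.fa (ux z k))) by
    rw [Finset.prod_div_distrib]
    field_simp, h2]
  refine Finset.sum_congr rfl fun i hi => ?_
  rw [smul_smul]
  congr 1
  rw [← Finset.mul_prod_erase _ _ hi]
  have h3 := ha' i hi
  have h4 : ∏ k ∈ X.toFinset.erase i, Fr.fa (ux z k) ≠ 0 :=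
    Finset.prod_ne_zero_iff.2 fun k hk => ha' k (Finset.mem_of_mem_erase hk)
  field_simp

/-- **The trivial line at the bottom.** -/
theorem PH_bot (hu : ux z p = 0) (hn : (p :: X).Nodup) (hb : b ∉ X) (hc : c ∉ X) (hbc : b ≠ c)
    (hG : Gz z X) (ha : ∀ k ∈ X, Fr.fa (ux z k) ≠ 0) : PH z (p :: X) = Kt z X.toFinset • PH z X := by
  obtain ⟨hp, hX⟩ := List.nodup_cons.1 hn
  have h := PH_rec' hX hb hc hbc hG ha
  rw [PH_cons, hu, Kt_prod _ _ fun k hk => ha k (List.mem_toFinset.1 hk)]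
  have e1 : ∑ i ∈ X.toFinset, (PH z (X.erase i) ∘ₗ
      (jn p i (Fr.wt (ux z) i (X.toFinset.erase i) * Fr.Dl (ux z) 0 (X.toFinset.erase i) *
        Fr.fe (ux z i)) (Fr.wt (ux z) i (X.toFinset.erase i) * Fr.Dl (ux z) 0 (X.toFinset.erase i) *
        Fr.fa 0) * oE uops z X i)) = (Fr.Dl (ux z) 0 X.toFinset / 2) •
      ∑ i ∈ X.toFinset, (Fr.wt (ux z) i (X.toFinset.erase i) / Fr.fa (ux z i)) •
        (PH z (X.erase i) ∘ₗ oE uops z X i) := by
    rw [Finset.smul_sum]
    refine Finset.sum_congr rfl fun i hi => ?_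
    have h3 := ha i (List.mem_toFinset.1 hi)
    rw [Fr.Dl_erase (ux z) 0 hi, dl_zero, Fr.fa_0, mul_zero]
    refine LinearMap.ext fun F => ?_
    simp only [LinearMap.smul_apply, LinearMap.comp_apply, Module.End.mul_apply, jn,
      LinearMap.add_apply, map_add, map_smul, Module.End.one_apply, smul_eq_mul, zero_smul, add_zero,
      LinearMap.zero_apply, map_zero]
    field_simp
  rw [e1, ← h, smul_smul, ← add_smul]
  congr 1
  ring

end bottom

/-! ### The trivial line at the bottom, with an exit -/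

section bottom2

theorem sw_cup {i : α} (hbi : b ≠ i) (hbp : b ≠ p) (hip : i ≠ p) {s : Pat α} (h1 : s b = b) (h2 : s i = i)
    (h3 : s p = p) : swap i p (cup b i s) = cup b p s := by
  ext x
  have c1 : CuOK b i s := ⟨h1, h2⟩
  have c2 : CuOK b p s := ⟨h1, h3⟩
  have hinv := s.inv
  rw [pswap_apply, EXL.cup_apply c1, EXL.cup_apply c2]
  simp only [Equiv.swap_apply_def]
  by_cases e1 : x = b
  · subst e1
    simp only [if_neg hbi, if_neg hbp, if_true]
  · by_cases e2 : x = i
    · subst e2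
      simp only [if_true, if_neg e1, if_neg hbp.symm, if_neg hip.symm, h3, if_neg hip]
      rw [h2]
    · by_cases e3 : x = p
      · subst e3
        simp only [if_true, if_neg e2, if_neg hbi.symm, if_neg hbi, if_neg hbp, if_neg hbp.symm]
      · simp only [if_neg e1, if_neg e2, if_neg e3]
        have f1 : s x ≠ i := fun e => e2 (by rw [← hinv x, e, h2])
        have f2 : s x ≠ p := fun e => e3 (by rw [← hinv x, e, h3])
        simp only [if_neg f1, if_neg f2]

theorem cu_R {i : α} {V : Fnl α} (hbi : b ≠ i) (hbp : b ≠ p) (hip : i ≠ p) (hS : Sup Y V) (h1 : b ∉ Y)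
    (h2 : i ∉ Y) (h3 : p ∉ Y) (w : ℂ) : V ∘ₗ (opCu ℂ b i * uops.R i p w) =
      (EXL.rwt w).v • (V ∘ₗ opCu ℂ b i) + (EXL.rwt w).u1 • (V ∘ₗ opCu ℂ b p) := by
  refine LinearMap.ext fun F => ?_
  have e0 : ((EXL.rwt w).v • (V ∘ₗ opCu ℂ b i) + (EXL.rwt w).u1 • (V ∘ₗ opCu ℂ b p)) F =
      V ((EXL.rwt w).v • opCu ℂ b i F + (EXL.rwt w).u1 • opCu ℂ b p F) := by
    rw [map_add, map_smul, map_smul]
    rfl
  rw [e0, LinearMap.comp_apply]
  refine hS.congr fun s hs => ?_
  have e1 : s b = b := ax_out hs h1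
  have e2 : s i = i := ax_out hs h2
  have e3 : s p = p := ax_out hs h3
  have c1 : CuOK b i s := ⟨e1, e2⟩
  have f1 : cup b i s i ≠ i := by
    rw [EXL.cup_apply c1, if_neg hbi.symm, if_pos rfl]
    exact hbi
  have f2 : cup b i s p = p := by
    rw [EXL.cup_apply c1, if_neg hbp.symm, if_neg hip.symm, e3]
  rw [Module.End.mul_apply, cu_ap, if_pos ⟨e1, e2⟩, uops_R_apply hip, EXL.R_l f1 f2 rfl,
    sw_cup hbi hbp hip e1 e2 e3, Pi.add_apply, Pi.smul_apply, Pi.smul_apply, cu_ap, if_pos ⟨e1, e2⟩, cu_ap,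
    if_pos ⟨e1, e3⟩, smul_eq_mul, smul_eq_mul]

theorem below_cons {i : α} (h : p ≠ i) : below (p :: X) i = p :: below X i := by
  unfold below
  rw [List.takeWhile_cons_of_pos (by simpa using h)]

theorem oE_cons {i : α} (h : p ≠ i) : oE uops z (p :: X) i =
    uops.R i p (z i - z p) * (oE uops z X i : Module.End ℂ (Pat α → ℂ)) := by
  unfold oE
  rw [below_cons h, Glob.Ops.M_cons]

/-- the weights at the trivial rapidity -/
theorem pr_zero_v {y : ℂ} (h : Fr.fa y ≠ 0) (hD : Fm.Dn (-y) ≠ 0) :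
    Fr.pr 0 y * (EXL.rwt (-y)).v = 2 * Fm.Dn y := by
  have h' : sin (-y) ≠ 0 := by
    rw [Complex.sin_neg]
    exact neg_ne_zero.2 h
  have e3 : sin (y + 0 + 2 * lam) = Fr.fb y := by
    unfold Fr.fb
    congr 1
    ring
  have e4 : Fr.fa' (-y) = Fr.fe y := by
    unfold Fr.fa' Fr.fe
    congr 1
    ring
  rw [rwt_v, Fr.Dn_eq]
  unfold Fr.pr Fr.rv
  rw [zero_sub, e3, e4, show Fr.fa (-y) = sin (-y) from rfl]
  field_simp

theorem pr_zero_u1 {y : ℂ} (h : Fr.fa y ≠ 0) (hD : Fm.Dn (-y) ≠ 0) :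
    Fr.pr 0 y * (EXL.rwt (-y)).u1 = -(2 * Fr.s2 * Fm.Dn y / Fr.fa y) := by
  have h' : sin (-y) = -Fr.fa y := Complex.sin_neg y
  have e3 : sin (y + 0 + 2 * lam) = Fr.fb y := by
    unfold Fr.fb
    congr 1
    ring
  have e4 : Fr.fa' (-y) = Fr.fe y := by
    unfold Fr.fa' Fr.fe
    congr 1
    ring
  rw [rwt_u1, Fr.Dn_eq]
  unfold Fr.pr Fr.ru1
  rw [zero_sub, e3, e4, h']
  field_simp

/-- the weight of the trivial line -/
theorem wt_bot (hu : ux z p = 0) (S : Finset α) (h : ∀ k ∈ S, Fr.fa (ux z k) ≠ 0) :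
    Fr.wt (ux z) p S = 2 * Fr.s2 * (Kt z S * ∏ k ∈ S, (Fr.fb (ux z k) / Fr.fa (ux z k))) := by
  have e1 : Fr.fa' 0 = Fr.s3 := by
    unfold Fr.fa' Fr.s3
    rw [sub_zero]
  have e2 : ∀ k ∈ S, Fr.pr (ux z k) 0 = 2 * Fm.Dn (ux z k) * (Fr.fb (ux z k) / Fr.fa (ux z k)) := by
    intro k hk
    have := h k hk
    unfold Fr.pr
    rw [sub_zero, zero_add, show sin (ux z k) = Fr.fa (ux z k) from rfl,
      show ux z k + 2 * lam = 2 * lam + ux z k by ring]
    show 2 * Fm.Dn (ux z k) * Fr.fb (ux z k) / Fr.fa (ux z k) = _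
    ring
  unfold Fr.wt
  rw [hu, e1, Finset.prod_congr rfl e2, Finset.prod_mul_distrib]
  unfold Kt
  linear_combination (2 * (∏ k ∈ S, 2 * Fm.Dn (ux z k)) * ∏ k ∈ S, (Fr.fb (ux z k) / Fr.fa (ux z k))) * fe_3l_zero

/-- **The trivial line at the bottom, with an exit.** -/
theorem PS0_bot [Finite α] (hu : ux z p = 0) (hn : (b :: p :: X).Nodup) (hc : c ∉ X) (hd : d ∉ X)
    (hcd : c ≠ d) (hG : Gz z X) (ha : ∀ k ∈ X, Fr.fa (ux z k) ≠ 0)
    (hD : ∀ k ∈ X, Fm.Dn (-(ux z k)) ≠ 0) :
    PS0 z b (p :: X) = Kt z X.toFinset • (PS0 z b X + (2 * Fr.s2) • (PH z X ∘ₗ opCu ℂ b p)) := by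
  obtain ⟨hb, hn1⟩ := List.nodup_cons.1 hn
  obtain ⟨hp, hX⟩ := List.nodup_cons.1 hn1
  have hbp : b ≠ p := fun e => hb (by simp [e])
  have hbX : b ∉ X := fun e => hb (by simp [e])
  have hpF : p ∉ X.toFinset := fun h => hp (List.mem_toFinset.1 h)
  have hrec := PH_rec' hX hc hd hcd hG ha
  unfold PS0
  rw [List.toFinset_cons, Finset.sum_insert hpF, Finset.erase_insert hpF, List.erase_cons_head, oE_head,
    mul_one, wt_bot hu _ fun k hk => ha k (List.mem_toFinset.1 hk)]
  have hterm : ∀ i ∈ X.toFinset, Fr.wt (ux z) i ((insert p X.toFinset).erase i) •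
      (PH z ((p :: X).erase i) ∘ₗ (opCu ℂ b i * oE uops z (p :: X) i)) =
      Kt z X.toFinset • (Fr.wt (ux z) i (X.toFinset.erase i) •
        (PH z (X.erase i) ∘ₗ (opCu ℂ b i * oE uops z X i))) -
      (Fr.s2 * Kt z X.toFinset) • ((Fr.wt (ux z) i (X.toFinset.erase i) / Fr.fa (ux z i)) •
        (PH z (X.erase i) ∘ₗ (opCu ℂ b p * oE uops z X i))) := by
    intro i hi
    have hi' := List.mem_toFinset.1 hi
    have hpi : p ≠ i := fun e => hp (e ▸ hi')
    have hbi : b ≠ i := fun e => hbX (e ▸ hi')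
    have e1 : (insert p X.toFinset).erase i = insert p (X.toFinset.erase i) :=
      Finset.erase_insert_of_ne hpi
    have e2 : (p :: X).erase i = p :: X.erase i := by
      rw [List.erase_cons_tail]
      simpa using hpi
    have hpE : p ∉ X.toFinset.erase i := fun h => hpF (Finset.mem_of_mem_erase h)
    have hpE' : p ∉ X.erase i := fun h => hp (List.mem_of_mem_erase h)
    have hGE : Gz z (X.erase i) := hG.sub fun x hx => List.mem_of_mem_erase hx
    have e3 : PH z (p :: X.erase i) = Kt z (X.erase i).toFinset • PH z (X.erase i) :=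
      PH_bot hu (List.nodup_cons.2 ⟨hpE', hX.erase i⟩) (fun h => hc (List.mem_of_mem_erase h))
        (fun h => hd (List.mem_of_mem_erase h)) hcd hGE fun k hk => ha k (List.mem_of_mem_erase hk)
    have hS : Sup (X.erase i) (PH z (X.erase i)) := PH_sup (hX.erase i) (fun h => hc (List.mem_of_mem_erase h))
      (fun h => hd (List.mem_of_mem_erase h)) hcd hGE
    have hiE : i ∉ X.erase i := fun h => (hX.mem_erase_iff.1 h).1 rfl
    have hbE : b ∉ X.erase i := fun h => hbX (List.mem_of_mem_erase h)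
    have e4 := cu_R (V := PH z (X.erase i)) hbi hbp hpi.symm hS hbE hiE hpE' (-(ux z i))
    have e5 : z i - z p = -(ux z i) := by
      have h0 : ux z p = 3 * Real.pi / 16 - z p := rfl
      have h1 : ux z i = 3 * Real.pi / 16 - z i := rfl
      rw [hu] at h0
      rw [h1]
      linear_combination -h0
    have w1 := pr_zero_v (ha i hi') (hD i hi')
    have w2 := pr_zero_u1 (ha i hi') (hD i hi')
    have hfa := ha i hi'
    rw [e1, e2, e3, oE_cons hpi, e5, Fr.wt_insert _ hpE, hu, erase_toF hX, Kt_erase hi]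
    refine LinearMap.ext fun F => ?_
    have e6 := LinearMap.congr_fun e4 (oE uops z X i F)
    simp only [LinearMap.smul_apply, LinearMap.comp_apply, Module.End.mul_apply,
      LinearMap.add_apply, LinearMap.sub_apply, map_add, map_smul, smul_eq_mul] at e6 ⊢
    rw [e6]
    have hfi : Fr.s2 * Fm.Dn (ux z i) / Fr.fa (ux z i) * 2 = 2 * Fr.s2 * Fm.Dn (ux z i) / Fr.fa (ux z i) := by
      ring
    linear_combination (Fr.wt (ux z) i (X.toFinset.erase i) * Kt z (X.toFinset.erase i) *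
      PH z (X.erase i) (opCu ℂ b i (oE uops z X i F))) * w1 +
      (Fr.wt (ux z) i (X.toFinset.erase i) * Kt z (X.toFinset.erase i) *
      PH z (X.erase i) (opCu ℂ b p (oE uops z X i F))) * w2
  rw [Finset.sum_congr rfl hterm, Finset.sum_sub_distrib, ← Finset.smul_sum, ← Finset.smul_sum]
  have hcomm : ∑ i ∈ X.toFinset, (Fr.wt (ux z) i (X.toFinset.erase i) / Fr.fa (ux z i)) •
        (PH z (X.erase i) ∘ₗ (opCu ℂ b p * oE uops z X i)) =
      (∑ i ∈ X.toFinset, (Fr.wt (ux z) i (X.toFinset.erase i) / Fr.fa (ux z i)) •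
        (PH z (X.erase i) ∘ₗ oE uops z X i)) ∘ₗ opCu ℂ b p := by
    refine LinearMap.ext fun F => ?_
    simp only [LinearMap.smul_apply, LinearMap.comp_apply, Module.End.mul_apply, LinearMap.sum_apply]
    refine Finset.sum_congr rfl fun i hi => ?_
    have hi' := List.mem_toFinset.1 hi
    have hpi : p ≠ i := fun e => hp (e ▸ hi')
    have hbi : b ≠ i := fun e => hbX (e ▸ hi')
    congr 2
    have hC : Commute (oE uops z X i : Module.End ℂ (Pat α → ℂ)) (opCu ℂ b p) := by
      unfold oE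
      refine Glob.Ops.M_commute _ fun r hr => ?_
      obtain ⟨k1, k2⟩ := below_subset r hr
      exact (uhlaws.cuR hbi (fun e => hbX (e ▸ k1)) hpi fun e => hp (e ▸ k1)).symm
    exact (LinearMap.congr_fun hC.eq F).symm
  rw [hcomm, ← hrec]
  refine LinearMap.ext fun F => ?_
  simp only [LinearMap.smul_apply, LinearMap.comp_apply, LinearMap.add_apply, LinearMap.sub_apply,
    smul_eq_mul]
  ring

end bottom2

end Pool.Agent.TC
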