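import Pool.Agent.TC.Triv
import Pool.Agent.TC.Perm
import Pool.Agent.NUTV.Line

/-!
# A half column moved through the cut (helper17)

`Wp_half`: a column that starts at an empty site of the first disc and crosses the lines of `Ls` can be read as a
column of the second disc.  `Wp_halfX`: the same when the column ends at the exit.
-/

set_option autoImplicit false

namespace Pool.Agent.TC

open _root_.Pool.Agent.EXL _root_.Pool.Agent.EXL.Pat
open _root_.Pool.Agent.EXL.Fm (lam)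
open _root_.Pool.Agent.NUF _root_.Pool.Agent.NUU _root_.Pool.Agent.NUT2 _root_.Pool.Agent.NUTV
open Complex (I exp sin cos)

section lab

variable {Γ ι : Type*} [AddCommGroup Γ] [DecidableEq ι] {ν : Γ → ℂ} {S S' : Set ι}
  {V V' : Fnl ι} {χ χ' : ι → Γ} {m q c : ι} {L : List (ι × ι)}

/-- The label of a site which is not glued is irrelevant. -/
theorem Wp_lab (h1 : c ≠ m) (h2 : c ≠ q) (h3 : ∀ t ∈ L, c ≠ t.1 ∧ c ≠ t.2)
    (h : ∀ x, x ≠ c → χ x = χ' x) : Wp ν χ V V' m q L = Wp ν χ' V V' m q L := by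
  have key : Tw χ (Gf ν m q L) = Tw χ' (Gf ν m q L) := by
    have e : ∀ F : LPat Γ ι → ℂ, ∀ p, (cops (Γ := Γ) ν).E c F p = if p c = c then F p else 0 := by
      intro F p
      have e1 : (cops (Γ := Γ) ν).E c = lE Γ ℂ c := by
        show repL ν id (we c) = _
        rw [repL, we, FreeAlgebra.lift_ι_apply]
        rfl
      rw [e1, lE_apply]
    rw [← E_Gf (ν := ν) h1 h2 h3]
    funext p
    show (cops ν).E c (Gf ν m q L) (LPat.gau χ p) = (cops ν).E c (Gf ν m q L) (LPat.gau χ' p)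
    rw [e, e]
    have f1 : (LPat.gau χ p) c = p c := rfl
    have f2 : (LPat.gau χ' p) c = p c := rfl
    rw [f1, f2]
    split_ifs with hc
    · congr 1
      refine gau_congr fun x => ?_
      by_cases hx : x = c
      · rw [hx, hc, sub_self, sub_self]
      · have hpx : p x ≠ c := by
          intro e2
          apply hx
          have h4 := p.inv x
          have h5 : p.f x = c := e2
          have h6 : p.f c = c := hc
          rw [h5, h6] at h4
          exact h4.symm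
        rw [h x hx, h _ hpx]
    · rfl
  unfold Wp
  rw [key]

theorem oo_glue (hν : ∀ g, ν (-g) = ν g) (h0 : ν 0 = 0) [Finite ι] (h : m ≠ q) :
    oo ν m * (cops (Γ := Γ) ν).glue m q = oo ν q * (cops ν).glue q m := by
  have W := laws (ι := ι) hν h0
  have e1 : (cops (Γ := Γ) ν).glue q m = (cops ν).glue m q := W.gs
  unfold oo
  rw [sub_mul, sub_mul, one_mul, one_mul, E_glue h, E_glue h.symm, e1, (comm_EE m q).eq]

/-- The leg has no direction. -/
theorem Gf_symm (hν : ∀ g, ν (-g) = ν g) (h0 : ν 0 = 0) [Finite ι] (h : m ≠ q) :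
    Gf ν m q L = Gf ν q m L := by
  unfold Gf
  rw [gm_cons, gm_cons, ← Module.End.mul_apply, ← Module.End.mul_apply, oo_glue hν h0 h]

theorem Wp_symm (hν : ∀ g, ν (-g) = ν g) (h0 : ν 0 = 0) [Finite ι] (h : m ≠ q) :
    Wp ν χ V V' m q L = Wp ν χ V V' q m L := by
  unfold Wp
  rw [Gf_symm hν h0 h]

end lab

section half

variable {Γ ι : Type*} [AddCommGroup Γ] [DecidableEq ι] [Finite ι] {ν : Γ → ℂ} {S S' : Set ι}
  {V V' : Fnl ι} {χ χ' : ι → Γ} {m q a b d h k k' : ι} {L P Ls : List (ι × ι)} {z : ι → ℂ} {w : ℂ}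
  (hν : ∀ g, ν (-g) = ν g) (h0 : ν 0 = 0)

include hν h0

/-- A pair with one site which does not occur. -/
theorem Wp_ins (hV : SupS S V) (hV' : SupS S' V') (hd : Disjoint S S')
    (hL : Gd ((m, q) :: (a, h) :: L)) (h1 : h ∉ S) (h2 : h ∉ S') :
    Wp ν χ V V' m q ((a, h) :: L) = Wp ν χ V V' m q L := by
  have W := laws (ι := ι) hν h0
  obtain ⟨e1, e2, e3⟩ := Gd_cons.1 hL
  obtain ⟨e4, e5, e6, e7⟩ := e2 (a, h) (by simp)
  obtain ⟨e8, e9, -⟩ := Gd_cons.1 e3
  simp only at e1 e4 e5 e6 e7 e8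
  unfold Wp
  rw [← pr_E h0 hV hV' hd h1 h2 (Tw χ (Gf ν m q ((a, h) :: L))), Gf_cons hν e4 e5 e6 e7,
    ← Module.End.mul_apply, ← (tE χ h).eq, Module.End.mul_apply]
  congr 2
  have gs : (cops (Γ := Γ) ν).glue a h = (cops ν).glue h a := W.gs
  rw [gs, ← Module.End.mul_apply, E_glue e8.symm, Module.End.mul_apply, E_Gf (Ne.symm e5) (Ne.symm e7),
    E_Gf (Ne.symm e4) (Ne.symm e6)]
  · exact fun t ht => ⟨(e9 t ht).1, (e9 t ht).2.1⟩
  · exact fun t ht => ⟨(e9 t ht).2.2.1, (e9 t ht).2.2.2⟩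

/-- The same, the other site does not occur. -/
theorem Wp_ins' (hV : SupS S V) (hV' : SupS S' V') (hd : Disjoint S S')
    (hL : Gd ((m, q) :: (a, h) :: L)) (h1 : a ∉ S) (h2 : a ∉ S') :
    Wp ν χ V V' m q ((a, h) :: L) = Wp ν χ V V' m q L := by
  obtain ⟨e1, e2, e3⟩ := Gd_cons.1 hL
  obtain ⟨e4, e5, e6, e7⟩ := e2 (a, h) (by simp)
  obtain ⟨e8, e9, -⟩ := Gd_cons.1 e3
  simp only at e1 e4 e5 e6 e7 e8
  unfold Wp
  rw [← pr_E h0 hV hV' hd h1 h2 (Tw χ (Gf ν m q ((a, h) :: L))), Gf_cons hν e4 e5 e6 e7,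
    ← Module.End.mul_apply, ← (tE χ a).eq, Module.End.mul_apply]
  congr 2
  rw [← Module.End.mul_apply, E_glue e8, Module.End.mul_apply, E_Gf (Ne.symm e4) (Ne.symm e6),
    E_Gf (Ne.symm e5) (Ne.symm e7)]
  · exact fun t ht => ⟨(e9 t ht).2.2.1, (e9 t ht).2.2.2⟩
  · exact fun t ht => ⟨(e9 t ht).1, (e9 t ht).2.1⟩

omit hν h0 in
theorem cops_h : ((cops (ι := ι) ν).h + (cops (ι := ι) ν).h : ℂ) = 3 * Real.pi / 8 := by
  show (3 * Real.pi / 16 + 3 * Real.pi / 16 : ℂ) = _
  ring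

/-- **A rhombus moved from one factor to the other.** -/
theorem lines_adj (hV : SupS S V) (hV' : SupS S' V') (hd : Disjoint S S')
    (hL : Gd ((m, q) :: (a, h) :: (k, k') :: L)) (m1 : a ∈ S) (m2 : k ∈ S) (m3 : h ∈ S') (m4 : k' ∈ S')
    (x1 : χ a = χ k) (x2 : χ h = χ k') (a1 : okR w) (a2 : okR (-w)) (a3 : okR (3 * Real.pi / 8 - w))
    (a4 : okR (w - 3 * Real.pi / 8)) :
    Wp ν χ (V ∘ₗ uops.R a k w) V' m q ((a, h) :: (k, k') :: L) =
      Wp ν χ V (V' ∘ₗ uops.R h k' w) m q ((a, h) :: (k, k') :: L) := by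
  have hG3 := (Gd_cons.1 (Gd_cons.1 hL).2.2).2.1 (k, k') (by simp)
  have hhk : h ≠ k' := hG3.2.2.2
  have q3 : SupS S' (V' ∘ₗ uops.R h k' w) := hV'.comp (w := cw.R h k' w) (On.cR m3 m4 w)
  have e := lines_R hν h0 (w := w) hV q3 hd hL m1 m2 m3 m4 x1 x2 a1 a2 (by rw [cops_h]; exact a3)
    (by rw [cops_h]; exact a4)
  rw [← e]
  congr 1
  refine LinearMap.ext fun F => ?_
  have l1 := (ulaws (ι := ι)).L1 (i := h) (j := k') (u := w) hhk a1 a2
  have l2 := LinearMap.congr_fun l1 F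
  rw [Module.End.mul_apply, Module.End.one_apply] at l2
  rw [LinearMap.comp_apply, LinearMap.comp_apply, l2]

/-- Regular rhombi of the column. -/
def OkC (w : ℂ) : Prop := okR w ∧ okR (-w) ∧ okR (3 * Real.pi / 8 - w) ∧ okR (w - 3 * Real.pi / 8)

/-- **A column moved from one factor to the other.** -/
theorem Wp_move (hd : Disjoint S S') (hP : Gd ((m, q) :: (a, h) :: P)) (m1 : a ∈ S) (m3 : h ∈ S') :
    ∀ (Ls : List (ι × ι)) (V V' : Fnl ι), (∀ t ∈ Ls, t ∈ P) → SupS S V → SupS S' V' →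
      (∀ t ∈ Ls, t.1 ∈ S ∧ t.2 ∈ S' ∧ χ a = χ t.1 ∧ χ h = χ t.2 ∧ z t.2 = z t.1 ∧ OkC (w - z t.1)) →
      Wp ν χ (V ∘ₗ uops.M z a w (Ls.map Prod.fst)) V' m q ((a, h) :: P) =
        Wp ν χ V (V' ∘ₗ uops.M z h w (Ls.map Prod.snd).reverse) m q ((a, h) :: P) := by
  intro Ls
  induction Ls with
  | nil => intro V V' _ _ _ _; rfl
  | cons t Ls ih =>
    intro V V' hm hV hV' hT
    obtain ⟨k, k'⟩ := t
    obtain ⟨t1, t2, t3, t4, t5, t6, t7, t8, t9⟩ := hT (k, k') (by simp)
    simp only at t1 t2 t3 t4 t5 t6 t7 t8 t9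
    have hkP : (k, k') ∈ P := hm _ (by simp)
    have hp : P.Perm ((k, k') :: P.erase (k, k')) := List.perm_cons_erase hkP
    have hp' : ((a, h) :: P).Perm ((a, h) :: (k, k') :: P.erase (k, k')) := hp.cons _
    have hP' := hP.perm (hp'.cons (m, q))
    have q1 : SupS S (V ∘ₗ uops.R a k (w - z k)) := hV.comp (w := cw.R a k (w - z k)) (On.cR m1 t1 _)
    have i1 := ih (V ∘ₗ uops.R a k (w - z k)) V' (fun t ht => hm t (by simp [ht])) q1 hV'
      fun t ht => hT t (by simp [ht])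
    have q2 : SupS S' (V' ∘ₗ uops.M z h w (Ls.map Prod.snd).reverse) := by
      have hall : ∀ x ∈ (Ls.map Prod.snd).reverse, x ∈ S' := by
        intro x hx
        obtain ⟨t, ht, rfl⟩ := List.mem_map.1 (List.mem_reverse.1 hx)
        exact (hT t (by simp [ht])).2.1
      generalize (Ls.map Prod.snd).reverse = R at hall
      clear i1 ih hT hm q1
      induction R generalizing V' with
      | nil => exact hV'
      | cons r R ihR =>
        have := ihR (V' := V' ∘ₗ uops.R h r (w - z r))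
          (hV'.comp (w := cw.R h r (w - z r)) (On.cR m3 (hall r (by simp)) _))
          (fun x hx => hall x (by simp [hx]))
        exact this
    have e1 : V ∘ₗ uops.M z a w (((k, k') :: Ls).map Prod.fst) =
        (V ∘ₗ uops.R a k (w - z k)) ∘ₗ uops.M z a w (Ls.map Prod.fst) := by
      rw [List.map_cons, Glob.Ops.M_cons]
      rfl
    have e2 : V' ∘ₗ uops.M z h w (((k, k') :: Ls).map Prod.snd).reverse =
        (V' ∘ₗ uops.M z h w (Ls.map Prod.snd).reverse) ∘ₗ uops.R h k' (w - z k) := by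
      rw [List.map_cons, List.reverse_cons, Glob.Ops.M_append, Glob.Ops.M_cons, Glob.Ops.M_nil, mul_one, ← t5]
      rfl
    rw [e1, i1, e2, Wp_perm hν hP hp', lines_adj hν h0 hV q2 hd hP' m1 t1 m3 t2 t3 t4 t6 t7 t8 t9,
      ← Wp_perm hν hP hp']

end half

section flip

variable {ι : Type*} [DecidableEq ι] {S S' : Set ι} {V : Fnl ι} {a b d : ι} {X : List ι} {z : ι → ℂ}
  {w : ℂ}

theorem supS_M (hV : SupS S V) (ha : a ∈ S) (hX : ∀ x ∈ X, x ∈ S) : SupS S (V ∘ₗ uops.M z a w X) := by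
  induction X generalizing V with
  | nil => exact hV
  | cons r X ih =>
    exact ih (V := V ∘ₗ uops.R a r (w - z r))
      (hV.comp (w := cw.R a r (w - z r)) (On.cR ha (hX r (by simp)) _)) fun x hx => hX x (by simp [hx])

theorem cross_col (z : ι → ℂ) (X : List ι) (d : ι) (F : Pat ι → ℂ) :
    EXL.M (fun j => cross (EXL.rwt (3 * Real.pi / 16 - z j))) d X F =
      EXL.M (fun j => EXL.rwt (3 * Real.pi / 16 - -z j)) d X F := by
  congr 1
  funext j
  rw [← rwt_cross]
  congr 1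
  ring

/-- **The column read from the other side**, on the states without the two auxiliary sites. -/
theorem col_flip (hn : X.Nodup) (hbd : b ≠ d) (hb : b ∉ X) (hd : d ∉ X) (hV : SupS S V) (hbS : b ∉ S)
    (hdS : d ∉ S) (F : Pat ι → ℂ) (h1 : EXL.emp b F = F) (h2 : EXL.emp d F = F) :
    V (uops.M z b (3 * Real.pi / 16) X F) =
      V (uops.M (fun i => -z i) d (3 * Real.pi / 16) X.reverse F) := by
  refine hV.congr fun p hp => ?_
  have hpb : p b = b := hp b hbS
  have hpd : p d = d := hp d hdS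
  have hd' : d ∉ X.reverse := by simpa using hd
  have key := colF_rev (fun j => EXL.rwt (3 * Real.pi / 16 - z j)) hn hbd.symm hd hb F hpb hpd
  unfold colF at key
  rw [h1, h2, cross_col] at key
  rw [uops_M_apply _ _ hb, uops_M_apply _ _ hd']
  simp only [EXL.emp, hpb, hpd, if_true] at key
  exact key

/-- The same when the column ends at the exit `b`. -/
theorem col_flipX (hn : X.Nodup) (hbd : b ≠ d) (hb : b ∉ X) (hd : d ∉ X) (hV : SupS S V) (hbS : b ∉ S)
    (hdS : d ∉ S) (F : Pat ι → ℂ) (h1 : EXL.emp b F = 0) (h2 : EXL.emp d F = F) :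
    V (opCu ℂ b d (uops.M z d (3 * Real.pi / 16) X F)) =
      V (uops.M (fun i => -z i) b (3 * Real.pi / 16) X.reverse F) := by
  refine hV.congr fun p hp => ?_
  have hpb : p b = b := hp b hbS
  have hpd : p d = d := hp d hdS
  have hb' : b ∉ X.reverse := by simpa using hb
  have key := congrFun (U_M_cross (fun j => EXL.rwt (3 * Real.pi / 16 - z j)) hn hbd hb hd F) p
  simp only [EXL.U] at key
  rw [if_pos hpb, if_pos hpd, if_pos hpb, if_pos hpd, cross_col] at key
  have hc' : cup b d p d = b := by rw [EXL.cup_apply ⟨hpb, hpd⟩, if_neg hbd.symm, if_pos rfl]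
  have e1 : EXL.M (fun j => EXL.rwt (3 * Real.pi / 16 - z j)) d X F p = 0 := by
    have h3 := congrFun (emp_M_comm (fun j => EXL.rwt (3 * Real.pi / 16 - z j)) hbd hb hd F) p
    rw [h1] at h3
    simp only [EXL.emp, hpb, if_true] at h3
    rw [h3]
    have h4 : ∀ (Y : List ι) (q : Pat ι), EXL.M (fun j => EXL.rwt (3 * Real.pi / 16 - z j)) d Y 0 q = 0 := by
      intro Y
      induction Y with
      | nil => intro q; rfl
      | cons r Y ih =>
        intro q
        rw [M_cons]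
        have h5 : EXL.M (fun j => EXL.rwt (3 * Real.pi / 16 - z j)) d Y (0 : Pat ι → ℂ) = 0 := funext ih
        rw [h5]
        simp [EXL.R]
    exact h4 X p
  have e2 : EXL.M (fun j => EXL.rwt (3 * Real.pi / 16 - -z j)) b X.reverse F (cup b d p) = 0 := by
    have hd' : d ∉ X.reverse := by simpa using hd
    have h3 := congrFun (emp_M_comm (fun j => EXL.rwt (3 * Real.pi / 16 - -z j)) hbd.symm hd' hb' F)
      (cup b d p)
    rw [h2] at h3
    rw [← h3]
    simp only [EXL.emp]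
    rw [if_neg]
    rw [hc']
    exact hbd
  rw [cu_ap, if_pos ⟨hpb, hpd⟩, uops_M_apply _ _ hd, uops_M_apply _ _ hb']
  rw [e1, zero_add, e2, add_zero] at key
  exact key

end flip

section main

variable {Γ ι : Type*} [AddCommGroup Γ] [DecidableEq ι] [Finite ι] {ν : Γ → ℂ} {S S' : Set ι}
  {V V' : Fnl ι} {χ χ' : ι → Γ} {m q g a b d h : ι} {P Ls : List (ι × ι)} {z : ι → ℂ} {ℓ e : Γ}
  (hν : ∀ g, ν (-g) = ν g) (h0 : ν 0 = 0)

omit [Finite ι] in
theorem emp_idem (c : ι) (F : Pat ι → ℂ) : EXL.emp c (EXL.emp c F) = EXL.emp c F := by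
  funext p
  simp only [EXL.emp]
  split_ifs <;> rfl

omit [Finite ι] in
theorem emp_comm' (c d : ι) (F : Pat ι → ℂ) : EXL.emp c (EXL.emp d F) = EXL.emp d (EXL.emp c F) := by
  funext p
  simp only [EXL.emp]
  split_ifs <;> rfl

/-- A site which is not glued. -/
def Fr0 (c m q : ι) (P : List (ι × ι)) : Prop := c ≠ m ∧ c ≠ q ∧ ∀ t ∈ P, c ≠ t.1 ∧ c ≠ t.2

omit [Finite ι] in
/-- The pairing sees only the states in which the free sites are empty. -/
theorem Wp_free (h0 : ν 0 = 0) (hV : SupS S V) (hV' : SupS S' V') (hd : Disjoint S S')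
    (hb : b ∉ S') (fb : Fr0 b m q P) :
    V (EXL.emp b (WF ν χ V' m q P)) = Wp ν χ V V' m q P :=
  Wp_E h0 hV hV' hd hb fb.1 fb.2.1 fb.2.2

omit [Finite ι] in
/-- **The column of the first factor read from the other side.** -/
theorem Wp_flip (h0 : ν 0 = 0) {X : List ι} (hn : X.Nodup) (hbd : b ≠ d) (hV : SupS S V) (hV' : SupS S' V')
    (hd : Disjoint S S') (hXS : ∀ x ∈ X, x ∈ S) (hbS : b ∉ S) (hdS : d ∉ S) (hbS' : b ∉ S')
    (hdS' : d ∉ S') (fb : Fr0 b m q P) (fd : Fr0 d m q P) :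
    Wp ν χ (V ∘ₗ uops.M z b (3 * Real.pi / 16) X) V' m q P =
      Wp ν χ (V ∘ₗ uops.M (fun i => -z i) d (3 * Real.pi / 16) X.reverse) V' m q P := by
  have hbX : b ∉ X := fun h => hbS (hXS b h)
  have hdX : d ∉ X := fun h => hdS (hXS d h)
  have s1 : SupS (insert b S) (V ∘ₗ uops.M z b (3 * Real.pi / 16) X) :=
    supS_M (hV.mono (Set.subset_insert _ _)) (Set.mem_insert _ _) fun x hx =>
      Set.mem_insert_of_mem _ (hXS x hx)
  have s2 : SupS (insert d S) (V ∘ₗ uops.M (fun i => -z i) d (3 * Real.pi / 16) X.reverse) :=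
    supS_M (hV.mono (Set.subset_insert _ _)) (Set.mem_insert _ _) fun x hx =>
      Set.mem_insert_of_mem _ (hXS x (List.mem_reverse.1 hx))
  have d1 : Disjoint (insert b S) S' := by
    rw [Set.disjoint_insert_left]
    exact ⟨hbS', hd⟩
  have d2 : Disjoint (insert d S) S' := by
    rw [Set.disjoint_insert_left]
    exact ⟨hdS', hd⟩
  set W := WF ν χ V' m q P with hW
  have k1 : Wp ν χ (V ∘ₗ uops.M z b (3 * Real.pi / 16) X) V' m q P =
      V (uops.M z b (3 * Real.pi / 16) X (EXL.emp d (EXL.emp b W))) := by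
    rw [← Wp_free h0 s1 hV' d1 hbS' fb, ← hW]
    have e : d ∉ insert b S := by
      rintro (e | e)
      · exact hbd e.symm
      · exact hdS e
    have := LinearMap.congr_fun (s1.E e) (EXL.emp b W)
    rw [LinearMap.comp_apply, uops_E_apply] at this
    rw [← this]
    rfl
  have k2 : Wp ν χ (V ∘ₗ uops.M (fun i => -z i) d (3 * Real.pi / 16) X.reverse) V' m q P =
      V (uops.M (fun i => -z i) d (3 * Real.pi / 16) X.reverse (EXL.emp b (EXL.emp d W))) := by
    rw [← Wp_free h0 s2 hV' d2 hdS' fd, ← hW]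
    have e : b ∉ insert d S := by
      rintro (e | e)
      · exact hbd e
      · exact hbS e
    have := LinearMap.congr_fun (s2.E e) (EXL.emp d W)
    rw [LinearMap.comp_apply, uops_E_apply] at this
    rw [← this]
    rfl
  rw [k1, k2, emp_comm' b d]
  exact col_flip hn hbd hbX hdX hV hbS hdS _ (by rw [emp_comm' d b, emp_idem]) (emp_idem _ _)

include hν h0

/-- **A half column without an end is moved through the cut.** -/
theorem Wp_half (hP : Gd ((m, q) :: P)) (hLs : ∀ t ∈ Ls, t ∈ P) (hn : (Ls.map Prod.fst).Nodup)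
    (hV : SupS S V) (hV' : SupS S' V') (hd : Disjoint S S')
    (hbd : b ≠ d) (hdh : d ≠ h) (hbS : b ∉ S) (hdS : d ∉ S) (hhS : h ∉ S) (hbS' : b ∉ S') (hdS' : d ∉ S')
    (hhS' : h ∉ S') (fb : Fr0 b m q P) (fd : Fr0 d m q P) (fh : Fr0 h m q P)
    (hT : ∀ t ∈ Ls, t.1 ∈ S ∧ t.2 ∈ S' ∧ χ t.1 = ℓ ∧ χ t.2 = χ h ∧ z t.2 = z t.1 ∧
      OkC (3 * Real.pi / 16 + z t.1)) :
    Wp ν χ (V ∘ₗ uops.M z b (3 * Real.pi / 16) (Ls.map Prod.fst).reverse) V' m q P =
      Wp ν χ V (V' ∘ₗ uops.M (fun i => -z i) h (3 * Real.pi / 16) (Ls.map Prod.snd).reverse) m q P := by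
  have hX : ∀ x ∈ (Ls.map Prod.fst).reverse, x ∈ S := by
    intro x hx
    obtain ⟨t, ht, rfl⟩ := List.mem_map.1 (List.mem_reverse.1 hx)
    exact (hT t ht).1
  have hX' : ∀ x ∈ (Ls.map Prod.snd).reverse, x ∈ S' := by
    intro x hx
    obtain ⟨t, ht, rfl⟩ := List.mem_map.1 (List.mem_reverse.1 hx)
    exact (hT t ht).2.1
  -- the column gets the free site `d`
  rw [Wp_flip h0 (List.nodup_reverse.2 hn) hbd hV hV' hd hX hbS hdS hbS' hdS' fb fd, List.reverse_reverse]
  -- the label of `d`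
  set χ1 : ι → Γ := Function.update χ d ℓ with hχ1
  have l1 : ∀ x, x ≠ d → χ x = χ1 x := fun x hx => (Function.update_of_ne hx _ _).symm
  have l2 : χ1 d = ℓ := Function.update_self ..
  rw [Wp_lab fd.1 fd.2.1 fd.2.2 l1]
  -- the pair `(d, h)`
  have s1 : SupS (insert d S) (V ∘ₗ uops.M (fun i => -z i) d (3 * Real.pi / 16) (Ls.map Prod.fst)) :=
    supS_M (hV.mono (Set.subset_insert _ _)) (Set.mem_insert _ _) fun x hx =>
      Set.mem_insert_of_mem _ (hX x (List.mem_reverse.2 hx))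
  have s2 : SupS (insert h S') (V' ∘ₗ uops.M (fun i => -z i) h (3 * Real.pi / 16)
      (Ls.map Prod.snd).reverse) :=
    supS_M (hV'.mono (Set.subset_insert _ _)) (Set.mem_insert _ _) fun x hx =>
      Set.mem_insert_of_mem _ (hX' x hx)
  have d1 : Disjoint (insert d S) S' := by
    rw [Set.disjoint_insert_left]
    exact ⟨hdS', hd⟩
  have d2 : Disjoint S (insert h S') := by
    rw [Set.disjoint_insert_right]
    exact ⟨hhS, hd⟩
  have d3 : Disjoint (insert d S) (insert h S') := by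
    rw [Set.disjoint_insert_left]
    refine ⟨?_, d2⟩
    rintro (e | e)
    · exact hdh e
    · exact hdS' e
  have hmq := (Gd_cons.1 hP).1
  have hG : Gd ((m, q) :: (d, h) :: P) := by
    refine Gd_cons.2 ⟨hmq, fun t ht => ?_, Gd_cons.2 ⟨hdh, fun t ht => ?_, (Gd_cons.1 hP).2.2⟩⟩
    · rcases List.mem_cons.1 ht with rfl | ht
      · exact ⟨fd.1.symm, fh.1.symm, fd.2.1.symm, fh.2.1.symm⟩
      · exact (Gd_cons.1 hP).2.1 t ht
    · exact ⟨(fd.2.2 t ht).1, (fd.2.2 t ht).2, (fh.2.2 t ht).1, (fh.2.2 t ht).2⟩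
  have hhd : h ∉ insert d S := by
    rintro (e | e)
    · exact hdh e.symm
    · exact hhS e
  have hdh' : d ∉ insert h S' := by
    rintro (e | e)
    · exact hdh e
    · exact hdS' e
  rw [← Wp_ins hν h0 s1 hV' d1 hG hhd hhS']
  have hm := Wp_move hν h0 (χ := χ1) (z := fun i => -z i) (w := 3 * Real.pi / 16) d3 hG
    (Set.mem_insert _ _) (Set.mem_insert _ _) Ls V V' hLs (hV.mono (Set.subset_insert _ _))
    (hV'.mono (Set.subset_insert _ _)) fun t ht => by
      obtain ⟨t1, t2, t3, t4, t5, t6⟩ := hT t ht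
      refine ⟨Set.mem_insert_of_mem _ t1, Set.mem_insert_of_mem _ t2, ?_, ?_, ?_, ?_⟩
      · rw [l2, ← l1 _ (fun e => hdS (e ▸ t1)), t3]
      · rw [← l1 _ (Ne.symm hdh), ← l1 _ (fun e => hdS' (e ▸ t2)), t4]
      · show -z t.2 = -z t.1
        rw [t5]
      · show OkC (3 * Real.pi / 16 - -z t.1)
        rw [sub_neg_eq_add]
        exact t6
  rw [hm, Wp_ins' hν h0 hV s2 d2 hG hdS hdh', ← Wp_lab fd.1 fd.2.1 fd.2.2 l1]

omit [Finite ι] hν h0 in
theorem supS_cuX (hV : SupS S V) : SupS (insert a (insert q S)) (V ∘ₗ opCu ℂ q a) := by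
  intro F hF
  rw [LinearMap.comp_apply]
  refine hV _ fun p hp => ?_
  rw [cu_ap]
  split_ifs with hc
  · refine hF _ fun x hx => ?_
    simp only [Set.mem_insert_iff, not_or] at hx
    rw [EXL.cup_apply hc, if_neg hx.2.1, if_neg hx.1]
    exact hp x hx.2.2
  · rfl

omit hν h0 in
theorem U_cu (hV : SupS S V) (hqa : q ≠ a) (hqS : q ∉ S) (haS : a ∉ S) :
    V ∘ₗ uops.U a q = V + V ∘ₗ opCu ℂ q a := by
  refine LinearMap.ext fun F => ?_
  rw [LinearMap.add_apply, LinearMap.comp_apply, LinearMap.comp_apply, ← map_add]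
  refine hV.congr fun p hp => ?_
  have h1 : p q = q := hp q hqS
  have h2 : p a = a := hp a haS
  rw [opCu_comm, uops_U_apply hqa.symm, EXL.U, if_pos h2, if_pos h1, Pi.add_apply, cu_ap, if_pos ⟨h2, h1⟩]

omit hν h0 in
/-- The exit column of the second factor. -/
theorem exit_flip (hν : ∀ g, ν (-g) = ν g) (h0 : ν 0 = 0) {X : List ι} (hn : X.Nodup)
    (hV : SupS S V) (hV' : SupS S' V') (hd : Disjoint S S') (hmg : m ≠ g)
    (hgh : g ≠ h) (hgS : g ∉ S) (hhS : h ∉ S) (hgS' : g ∉ S') (hhS' : h ∉ S')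
    (fh : Fr0 h m g P) (hX : ∀ x ∈ X, x ∈ S') :
    Wp ν χ V (V' ∘ₗ (opCu ℂ g h * uops.M (fun i => -z i) h (3 * Real.pi / 16) X)) m g P =
      Wp ν χ V (V' ∘ₗ uops.M z g (3 * Real.pi / 16) X.reverse) m g P := by
  have hgX : g ∉ X := fun e => hgS' (hX g e)
  have hhX : h ∉ X := fun e => hhS' (hX h e)
  set A1 : Fnl ι := V' ∘ₗ (opCu ℂ g h * uops.M (fun i => -z i) h (3 * Real.pi / 16) X) with hA1
  set A2 : Fnl ι := V' ∘ₗ uops.M z g (3 * Real.pi / 16) X.reverse with hA2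
  have s1 : SupS (insert h (insert g S')) A1 :=
    supS_M (V := V' ∘ₗ opCu ℂ g h) (supS_cuX hV') (Set.mem_insert _ _) fun x hx =>
      Set.mem_insert_of_mem _ (Set.mem_insert_of_mem _ (hX x hx))
  have s2 : SupS (insert g S') A2 :=
    supS_M (hV'.mono (Set.subset_insert _ _)) (Set.mem_insert _ _) fun x hx =>
      Set.mem_insert_of_mem _ (hX x (List.mem_reverse.1 hx))
  have d1 : Disjoint S (insert h (insert g S')) := by
    rw [Set.disjoint_insert_right, Set.disjoint_insert_right]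
    exact ⟨hhS, hgS, hd⟩
  have d2 : Disjoint S (insert g S') := by
    rw [Set.disjoint_insert_right]
    exact ⟨hgS, hd⟩
  rw [Wp_swap hν h0 hV s1 d1, Wp_swap hν h0 hV s2 d2]
  set P' := P.map Prod.swap with hP'
  have fh' : Fr0 h m g P' := by
    refine ⟨fh.1, fh.2.1, fun t ht => ?_⟩
    obtain ⟨t', ht', rfl⟩ := List.mem_map.1 ht
    exact (fh.2.2 t' ht').symm
  set W := WF ν χ V m g P' with hW
  have hWs : WF ν χ V g m P' = W := by
    rw [hW]
    unfold WF
    rw [Gf_symm hν h0 hmg]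
  set G := EXL.emp h (W - EXL.emp g W) with hG
  have k2 : Wp ν χ A2 V m g P' = A2 G := by
    rw [Wp_symm hν h0 hmg, ← Wp_O h0 s2 hV d2.symm hgS, hWs]
    have e : h ∉ insert g S' := by
      rintro (e | e)
      · exact hgh e.symm
      · exact hhS' e
    have := LinearMap.congr_fun (s2.E e) (W - EXL.emp g W)
    rw [LinearMap.comp_apply, uops_E_apply] at this
    rw [hG, this]
    rfl
  have k1 : Wp ν χ A1 V m g P' = A1 G := by
    rw [← Wp_free h0 s1 hV d1.symm hhS fh', ← hW]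
    have e1 : EXL.emp h W = G + EXL.emp g (EXL.emp h W) := by
      rw [hG]
      funext p
      simp only [EXL.emp, Pi.add_apply, Pi.sub_apply]
      split_ifs <;> simp
    have e2 : A1 (EXL.emp g (EXL.emp h W)) = 0 := by
      rw [hA1, LinearMap.comp_apply, Module.End.mul_apply]
      refine hV' _ fun p hp => ?_
      have hc : uops.M (fun i => -z i) h (3 * Real.pi / 16) X (EXL.emp g (EXL.emp h W)) =
          EXL.emp g (uops.M (fun i => -z i) h (3 * Real.pi / 16) X (EXL.emp h W)) := by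
        rw [uops_M_apply _ _ hhX, uops_M_apply _ _ hhX, emp_M_comm _ hgh hgX hhX]
      rw [hc, cu_ap]
      split_ifs with h1
      · have : cup g h p g = h := by rw [EXL.cup_apply h1, if_pos rfl]
        simp only [EXL.emp]
        rw [if_neg]
        rw [this]
        exact hgh.symm
      · rfl
    conv_lhs => rw [e1]
    rw [map_add, e2, add_zero]
  rw [k1, k2]
  have hz : (fun i => -(fun i => -z i) i) = z := by
    funext i
    exact neg_neg _
  have key := col_flipX (z := fun i => -z i) hn hgh hgX hhX hV' hgS' hhS' G (by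
    rw [hG]
    funext p
    simp only [EXL.emp, Pi.sub_apply, Pi.zero_apply]
    split_ifs <;> simp) (emp_idem _ _)
  rw [hz] at key
  exact key

/-- **A half column that ends at the exit is moved through the cut.** -/
theorem Wp_halfX (hP : Gd ((m, q) :: P)) (hPg : Gd ((m, g) :: P)) (hLs : ∀ t ∈ Ls, t ∈ P)
    (hn : (Ls.map Prod.snd).Nodup)
    (hV : SupS S V) (hV' : SupS S' V') (hd : Disjoint S S') (hqa : q ≠ a) (hag : a ≠ g) (hqg : q ≠ g)
    (hgh : g ≠ h) (hqS : q ∉ S) (haS : a ∉ S) (hgS : g ∉ S) (hhS : h ∉ S) (hqS' : q ∉ S') (haS' : a ∉ S')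
    (hgS' : g ∉ S') (hhS' : h ∉ S') (fa : Fr0 a m q P) (fh : Fr0 h m g P)
    (hχa : χ a = 0) (hχg : χ g = 0) (hχ' : ∀ x, x ∈ S ∨ x ∈ S' → χ x = χ' x) (hχq : χ' g = χ q)
    (hT : ∀ t ∈ Ls, t.1 ∈ S ∧ t.2 ∈ S' ∧ χ t.1 = 0 ∧ χ t.2 = 0 ∧ z t.2 = z t.1 ∧
      OkC (3 * Real.pi / 16 - z t.1)) :
    Wp ν χ (V ∘ₗ (opCu ℂ q a * uops.M z a (3 * Real.pi / 16) (Ls.map Prod.fst))) V' m q P =
      Wp ν χ' V (V' ∘ₗ (opCu ℂ g h * uops.M (fun i => -z i) h (3 * Real.pi / 16) (Ls.map Prod.snd)))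
        m g P := by
  have hX : ∀ x ∈ Ls.map Prod.fst, x ∈ S := by
    intro x hx
    obtain ⟨t, ht, rfl⟩ := List.mem_map.1 hx
    exact (hT t ht).1
  have hX' : ∀ x ∈ Ls.map Prod.snd, x ∈ S' := by
    intro x hx
    obtain ⟨t, ht, rfl⟩ := List.mem_map.1 hx
    exact (hT t ht).2.1
  have hmq := (Gd_cons.1 hP).1
  have hmg := (Gd_cons.1 hPg).1
  have hga := hag.symm
  set S1 : Set ι := insert a (insert q S) with hS1
  have sC : SupS S1 (V ∘ₗ opCu ℂ q a) := supS_cuX hV
  have hSS1 : S ⊆ S1 := fun x hx => Set.mem_insert_of_mem _ (Set.mem_insert_of_mem _ hx)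
  have hgS1 : g ∉ S1 := by
    rintro (e | e | e)
    · exact hag e.symm
    · exact hqg e.symm
    · exact hgS e
  have d1 : Disjoint S1 S' := by
    rw [hS1, Set.disjoint_insert_left, Set.disjoint_insert_left]
    exact ⟨haS', hqS', hd⟩
  have d2 : Disjoint S1 (insert g S') := by
    rw [Set.disjoint_insert_right]
    exact ⟨hgS1, d1⟩
  have d3 : Disjoint S (insert g S') := d2.mono_left hSS1
  have hG : Gd ((m, q) :: (a, g) :: P) := by
    refine Gd_cons.2 ⟨hmq, fun t ht => ?_, Gd_cons.2 ⟨hag, fun t ht => ?_, (Gd_cons.1 hP).2.2⟩⟩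
    · rcases List.mem_cons.1 ht with rfl | ht
      · exact ⟨fa.1.symm, hmg, fa.2.1.symm, hqg⟩
      · exact (Gd_cons.1 hP).2.1 t ht
    · have h3 := (Gd_cons.1 hPg).2.1 t ht
      exact ⟨(fa.2.2 t ht).1, (fa.2.2 t ht).2, h3.2.2.1, h3.2.2.2⟩
  have hG' : Gd ((q, m) :: (a, g) :: P) := by
    refine Gd_cons.2 ⟨hmq.symm, fun t ht => ?_, (Gd_cons.1 hG).2.2⟩
    have h3 := (Gd_cons.1 hG).2.1 t ht
    exact ⟨h3.2.2.1, h3.2.2.2, h3.1, h3.2.1⟩
  -- the pair `(a, g)`
  have s1 : SupS S1 ((V ∘ₗ opCu ℂ q a) ∘ₗ uops.M z a (3 * Real.pi / 16) (Ls.map Prod.fst)) :=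
    supS_M sC (Set.mem_insert _ _) fun x hx => hSS1 (hX x hx)
  set W : Fnl ι := V' ∘ₗ uops.M z g (3 * Real.pi / 16) (Ls.map Prod.snd).reverse with hW
  have s2 : SupS (insert g S') W :=
    supS_M (hV'.mono (Set.subset_insert _ _)) (Set.mem_insert _ _) fun x hx =>
      Set.mem_insert_of_mem _ (hX' x (List.mem_reverse.1 hx))
  have hqW : q ∉ insert g S' := by
    rintro (e | e)
    · exact hqg e
    · exact hqS' e
  have haW : a ∉ insert g S' := by
    rintro (e | e)
    · exact hag e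
    · exact haS' e
  have e1 : V ∘ₗ (opCu ℂ q a * uops.M z a (3 * Real.pi / 16) (Ls.map Prod.fst)) =
      (V ∘ₗ opCu ℂ q a) ∘ₗ uops.M z a (3 * Real.pi / 16) (Ls.map Prod.fst) := rfl
  have hm := Wp_move hν h0 (χ := χ) (z := z) (w := 3 * Real.pi / 16) d2 hG
    (Set.mem_insert _ _) (Set.mem_insert _ _) Ls (V ∘ₗ opCu ℂ q a) V' hLs sC
    (hV'.mono (Set.subset_insert _ _)) fun t ht => by
      obtain ⟨t1, t2, t3, t4, t5, t6⟩ := hT t ht
      exact ⟨hSS1 t1, Set.mem_insert_of_mem _ t2, by rw [hχa, t3], by rw [hχg, t4], t5, t6⟩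
  rw [e1, ← Wp_ins hν h0 s1 hV' d1 hG hgS1 hgS', hm, ← hW]
  -- the arc is a U-turn
  have e2 : Wp ν χ (V ∘ₗ opCu ℂ q a) W m q ((a, g) :: P) =
      Wp ν χ (V ∘ₗ uops.U a q) W m q ((a, g) :: P) := by
    rw [U_cu hV hqa hqS haS, Wp_add, Wp_symm hν h0 hmq, Wp_symm hν h0 hmq,
      Wp_zero (hV.E hqS) h0 hV s2 d3 hqW, zero_add]
  -- the labels
  set δ : ι → Γ := fun x => if x = a ∨ x = g then χ q else 0 with hδ
  have e3 : Wp ν χ (V ∘ₗ uops.U a q) W q m ((a, g) :: P) =
      Wp ν (χ + δ) (V ∘ₗ uops.U a q) W q m ((a, g) :: P) := by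
    refine (Wp_shift _ _ _ _ fun t ht => ?_).symm
    rcases List.mem_cons.1 ht with rfl | ht
    · simp only [hδ]
      rw [if_neg, if_neg]
      · rintro (e | e)
        · exact fa.1 e.symm
        · exact hmg e
      · rintro (e | e)
        · exact hqa e
        · exact hqg e
    · rcases List.mem_cons.1 ht with rfl | ht
      · simp [hδ]
      · have h3 := (Gd_cons.1 hPg).2.1 t ht
        simp only [hδ]
        rw [if_neg, if_neg]
        · rintro (e | e)
          · exact (fa.2.2 t ht).2 e.symm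
          · exact h3.2.2.2 e.symm
        · rintro (e | e)
          · exact (fa.2.2 t ht).1 e.symm
          · exact h3.2.2.1 e.symm
  have e4 : (χ + δ) a = (χ + δ) q := by
    simp only [hδ, Pi.add_apply, true_or, if_true]
    rw [hχa, if_neg, zero_add, add_zero]
    rintro (e | e)
    · exact hqa e
    · exact hqg e
  have e5 := node_o hν h0 (χ := χ + δ) hV s2 d3 (r := q) (q := m) (x := a) (x' := g) hG' hqS haS hqW haW e4
  have e6 : Wp ν (χ + δ) V W m g P = Wp ν χ' V W m g P := by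
    refine Wp_chi hV s2 d3 (fun x hx => ?_) _ _ _
    by_cases hxg : x = g
    · subst hxg
      simp only [hδ, Pi.add_apply, or_true, if_true]
      rw [hχg, zero_add, hχq]
    · have h3 : x ∈ S ∨ x ∈ S' := by
        rcases hx with hx | hx
        · exact Or.inl hx
        · rcases hx with hx | hx
          · exact absurd hx hxg
          · exact Or.inr hx
      have h4 : x ≠ a := by
        rintro rfl
        rcases h3 with h3 | h3
        · exact haS h3
        · exact haS' h3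
      simp only [hδ, Pi.add_apply]
      rw [if_neg, add_zero, hχ' x h3]
      rintro (e | e)
      · exact h4 e
      · exact hxg e
  rw [e2, Wp_symm hν h0 hmq, e3, e5, ← Wp_symm hν h0 hmg, e6, hW,
    exit_flip hν h0 hn hV hV' hd hmg hgh hgS hhS hgS' hhS' fh hX']

end main

end Pool.Agent.TC
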