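import Pool.Agent.TC.WHex
import Pool.Agent.NUF.URev

/-!
# Type C, link: the honeycomb column with an exit above the rows, and the reversed rapidities

`A1t b X` = the planar states of the rows `X ++ [b]` with `b` occupied.  `major1_hexT` is the majorant for the
honeycomb column on these states; by reversal it gives the majorant for the weights `cross (hexW xc)` (the rapidity
`-π / 16`) on `A1 b X`.
-/

set_option autoImplicit false

namespace Pool.Agent.TC

open _root_.Pool.Agent.EXL _root_.Pool.Agent.EXL.Pat _root_.Pool.Agent.EXL.HS _root_.Pool.Agent.EXL.Site Pool.Agent.NUF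
  HexObs Filter Topology

/-- the planar states of the rows `X ++ [b]` with `b` occupied. -/
def A1t {ι : Type*} [DecidableEq ι] (b : ι) (X : List ι) : Pat ι → Prop := fun p => AX (X ++ [b]) p ∧ p b ≠ b

section trans

variable {α : Type*} [DecidableEq α] {X : List α} {b c : α}

/-- the rows, the exit at the top and the auxiliary line in the sites of the strip. -/
def E3t (N : ℕ) : Pat.Emb (Option (Option (Fin N))) (Site N) where
  φ o := o.elim (ax 0) (fun o => o.elim tp row)
  inj a b h := by
    rcases a with _ | _ | a <;> rcases b with _ | _ | b <;>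
      simp only [Option.elim_none, Option.elim_some, row.injEq, reduceCtorEq] at h ⊢
    rw [h]
  p₀ := Pat.empty
  closed b := ⟨b, rfl⟩

/-- the honeycomb column dominates the column without the exits. -/
theorem colH_geT {N : ℕ} {F : Pat (Site N) → ℝ} (hF : ∀ p, 0 ≤ F p) (q : Pat (Option (Option (Fin N)))) :
    colD (hexW xc) N (fun q => F ((E3t N).st q)) q ≤ colH N F ((E3t N).st q) := by
  rw [colH_eq]
  unfold HS.CC
  have hx : (hexW xc).Nn := hexW_nn xc_pos.le
  have e1 : ∀ G : Pat (Site N) → ℝ, (∀ p, 0 ≤ G p) → ∀ p, emp (ax 0) G p ≤ bc (ax 0) fl G p := by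
    intro G hG p
    unfold emp bc
    split_ifs
    · linarith [hG (cup (ax 0) fl p)]
    · exact le_rfl
    · exact le_rfl
  have e2 : ∀ p, emp (ax 0) F p ≤ tc (ax 0) tp F p := by
    intro p
    unfold emp tc
    split_ifs
    · exact le_rfl
    · exact hF _
    · exact le_rfl
  have e3 : ∀ p, EXL.M (fun _ => hexW xc) (ax 0) (rowsL N) (emp (ax 0) F) p ≤
      EXL.M (fun _ => hexW xc) (ax 0) (rowsL N) (tc (ax 0) tp F) p := by
    intro p
    have hL := lin_M (fun _ => hexW xc) (ax 0 : Site N) (rowsL N)
    have h1 := M_nn (fun _ => hx) (ax 0 : Site N) (rowsL N)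
      (F := fun r => 1 * tc (ax 0) tp F r + (-1) * emp (ax 0) F r) (fun r => by linarith [e2 r]) p
    rw [hL] at h1
    linarith
  have e4 : ∀ p, 0 ≤ EXL.M (fun _ => hexW xc) (ax 0) (rowsL N) (tc (ax 0) tp F) p :=
    fun p => M_nn (fun _ => hx) _ _ (tc_nn _ _ hF) p
  refine le_trans ?_ (e1 _ e4 _)
  have e5 : rowsL N = ((List.finRange N).map fun i => some (some i)).map (E3t N).φ := by
    unfold rowsL
    rw [List.map_map]
    rfl
  have e6 : colD (hexW xc) N (fun q => F ((E3t N).st q)) q =
      emp (ax 0) (EXL.M (fun _ => hexW xc) (ax 0) (rowsL N) (emp (ax 0) F)) ((E3t N).st q) := by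
    unfold colD colF
    have e0 : (ax 0 : Site N) = (E3t N).φ none := rfl
    rw [e5, e0, emp_st]
    congr 1
    funext q'
    rw [M_st]
    congr 1
    funext q''
    rw [emp_st]
  rw [e6]
  unfold emp
  split_ifs
  · exact e3 _
  · exact le_rfl

/-- the function of the strip that belongs to a function on the list. -/
noncomputable def lift3t (hn : (b :: X).Nodup) (hc : c ∉ b :: X) (G : Pat α → ℝ) : Pat (Site X.length) → ℝ :=
  open scoped Classical in
  fun p => if h : ∃ q, (E3t X.length).st q = p ∧ q none = none then G ((E4 hn hc).st h.choose) else 0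

theorem lift3t_st (hn : (b :: X).Nodup) (hc : c ∉ b :: X) (G : Pat α → ℝ) {q : Pat (Option (Option (Fin X.length)))}
    (hq : q none = none) : lift3t hn hc G ((E3t X.length).st q) = G ((E4 hn hc).st q) := by
  classical
  have hex : ∃ q', (E3t X.length).st q' = (E3t X.length).st q ∧ q' none = none := ⟨q, rfl, hq⟩
  unfold lift3t
  rw [dif_pos hex]
  congr 2
  exact st_inj _ hex.choose_spec.1

theorem lift3t_nn (hn : (b :: X).Nodup) (hc : c ∉ b :: X) {G : Pat α → ℝ} (hG : ∀ p, 0 ≤ G p) (p) :
    0 ≤ lift3t hn hc G p := by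
  unfold lift3t
  split_ifs
  · exact hG _
  · exact le_rfl

/-- the order of the sites. -/
theorem ord34t (hn : (b :: X).Nodup) (hc : c ∉ b :: X) {q : Pat (Option (Option (Fin X.length)))}
    (hq : q none = none) (x y : Option (Option (Fin X.length))) (hx : q x ≠ x) (hy : q y ≠ y) :
    (((X ++ [b]).idxOf ((E4 hn hc).φ x) : ℤ) < ((X ++ [b]).idxOf ((E4 hn hc).φ y) : ℤ) ↔
      rk ((E3t X.length).φ x) < rk ((E3t X.length).φ y)) := by
  have hbX : b ∉ X := (List.nodup_cons.1 hn).1
  have hnX : X.Nodup := (List.nodup_cons.1 hn).2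
  have hget : ∀ i : Fin X.length, (X ++ [b]).idxOf (X.get i) = (i : ℕ) := by
    intro i
    rw [List.idxOf_append_of_mem (List.get_mem X i), idx_get hnX]
  have hb : (X ++ [b]).idxOf b = X.length := by
    rw [List.idxOf_append_of_notMem hbX, idx_cons_self]
    omega
  have r0 : rk (tp : Site X.length) = 2 * (X.length : ℤ) + 2 := rfl
  have r1 : ∀ k : Fin X.length, rk (row k) = 2 * (k : ℤ) + 2 := fun k => rfl
  rcases x with _ | _ | i
  · exact absurd hq hx
  · rcases y with _ | _ | j
    · exact absurd hq hy
    · show (((X ++ [b]).idxOf b : ℤ) < ((X ++ [b]).idxOf b : ℤ) ↔ rk (tp : Site X.length) < rk (tp : Site X.length))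
      constructor <;> intro h <;> omega
    · show (((X ++ [b]).idxOf b : ℤ) < ((X ++ [b]).idxOf (X.get j) : ℤ) ↔
        rk (tp : Site X.length) < rk (row j))
      rw [hb, hget, r0, r1]
      have := j.2
      constructor <;> intro h <;> omega
  · rcases y with _ | _ | j
    · exact absurd hq hy
    · show (((X ++ [b]).idxOf (X.get i) : ℤ) < ((X ++ [b]).idxOf b : ℤ) ↔
        rk (row i) < rk (tp : Site X.length))
      rw [hb, hget, r0, r1]
      have := i.2
      constructor <;> intro h <;> omega
    · show (((X ++ [b]).idxOf (X.get i) : ℤ) < ((X ++ [b]).idxOf (X.get j) : ℤ) ↔ rk (row i) < rk (row j))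
      rw [hget, hget, r1, r1]
      constructor <;> intro h <;> omega

/-- **The majorant, exit above the rows.** -/
theorem major1_hexT (hn : (b :: X).Nodup) (hc : c ∉ b :: X) {G : Pat α → ℝ} (h0 : ∀ p, 0 ≤ G p)
    (hs : ∀ p, ¬ A1t b X p → G p = 0)
    (h1 : ∀ p, A1t b X p → G p ≤ colF (fun _ => hexW xc) c X G p) (p : Pat α) : G p = 0 := by
  classical
  by_cases hp : A1t b X p
  swap
  · exact hs p hp
  have hbX : b ∉ X := (List.nodup_cons.1 hn).1
  have hcb : c ≠ b := (notMem_cons hc).1
  have hcX : c ∉ X := (notMem_cons hc).2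
  have hcXb : c ∉ X ++ [b] := by
    simp only [List.mem_append, List.mem_singleton, not_or]
    exact ⟨hcX, hcb⟩
  have hmem : ∀ x, x ∈ X ++ [b] → p x ∈ X ++ [b] := by
    intro x hx
    by_contra h'
    have h1 := ax_out hp.1 h'
    rw [p.inv] at h1
    exact h' (h1 ▸ hx)
  by_cases hN : 1 ≤ X.length
  swap
  · exfalso
    have hX : X = [] := by
      rw [← List.length_eq_zero_iff]
      omega
    subst hX
    have h2 := hmem b (by simp)
    simp only [List.nil_append, List.mem_singleton] at h2
    exact hp.2 h2
  -- the state comes from the abstract states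
  have hex : ∀ x, x ∈ X ++ [b] → ∃ o : Option (Fin X.length), (E4 hn hc).φ (some o) = x := by
    intro x hx
    rcases List.mem_append.1 hx with hx | hx
    · obtain ⟨i, hi⟩ := List.get_of_mem hx
      exact ⟨some i, hi⟩
    · exact ⟨none, (List.mem_singleton.1 hx).symm⟩
  obtain ⟨q, hq⟩ := exists_st (E4 hn hc) p (by
    intro o
    rcases o with _ | o
    · refine ⟨none, ?_⟩
      exact ax_out hp.1 hcXb
    · have hm : (E4 hn hc).φ (some o) ∈ X ++ [b] := by
        rcases o with _ | i
        · exact List.mem_append_right _ (List.mem_singleton_self b)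
        · exact List.mem_append_left _ (List.get_mem X i)
      obtain ⟨o', ho'⟩ := hex _ (hmem _ hm)
      exact ⟨some o', ho'.symm⟩) (by
    intro x hx
    apply ax_out hp.1
    intro hxX
    obtain ⟨o, ho⟩ := hex x hxX
    exact hx ⟨some o, ho⟩)
  have hqn : q none = none := by
    apply (E4 hn hc).inj
    rw [← Pat.Emb.st_apply, hq]
    exact ax_out hp.1 hcXb
  -- the function of the strip
  have key := live_majorP_colH hN (H := lift3t hn hc G)
    (P := fun p => ∃ q, (E3t X.length).st q = p ∧ q none = none ∧ A1t b X ((E4 hn hc).st q)) ?_ ?_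
    ((E3t X.length).st q)
  · rw [lift3t_st hn hc G hqn, hq] at key
    exact le_antisymm key (h0 p)
  · intro p' hp'
    by_contra hcon
    apply hp'
    push Not at hcon
    have hex' : ∃ q, (E3t X.length).st q = p' ∧ q none = none := by
      by_contra h
      unfold lift3t at hcon
      rw [dif_neg h] at hcon
      exact lt_irrefl _ hcon
    obtain ⟨q', rfl, hq'⟩ := hex'
    rw [lift3t_st hn hc G hq'] at hcon
    have hA : A1t b X ((E4 hn hc).st q') := by
      by_contra h
      rw [hs _ h] at hcon
      exact lt_irrefl _ hcon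
    refine ⟨⟨q', rfl, hq', hA⟩, ⟨?_, ?_⟩, ⟨?_, ?_⟩⟩
    · -- the walk is not complete
      intro h
      have h2 : (E3t X.length).st q' (fl : Site X.length) = fl := by
        rw [Pat.Emb.st_apply']
        · rfl
        · rintro ⟨o, ho⟩
          rcases o with _ | _ | o
          · simp [E3t] at ho
          · simp [E3t] at ho
          · simp [E3t] at ho
      rw [h2] at h
      exact absurd h (by simp)
    · intro h
      apply hA.2
      have e2 : (E3t X.length).st q' ((E3t X.length).φ (some none)) = (E3t X.length).φ (some none) := by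
        rw [h]
        rfl
      rw [Pat.Emb.st_apply] at e2
      have e3 := (E3t X.length).inj e2
      have e4 := Pat.Emb.st_apply (E4 hn hc) q' (some none)
      rw [e3] at e4
      exact e4
    · intro x hx
      unfold DN at hx
      simp only [Set.mem_ofPred_eq, not_forall, not_not] at hx
      obtain ⟨k, rfl⟩ := hx
      by_cases hk : k = 0
      · subst hk
        have e : (ax 0 : Site X.length) = (E3t X.length).φ none := rfl
        rw [e, Pat.Emb.st_apply, hq']
      · rw [Pat.Emb.st_apply']
        · rfl
        · rintro ⟨o, ho⟩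
          rcases o with _ | _ | o
          · exact hk (by simpa [E3t] using ho.symm)
          · simp [E3t] at ho
          · simp [E3t] at ho
    · exact nc_transfer (E4 hn hc) (E3t X.length) rfl rfl (ord34t hn hc hq') hA.1.nc
  · rintro p' ⟨q', rfl, hq', hA⟩ _ _
    refine le_trans ?_ (colH_geT (lift3t_nn hn hc h0) q')
    rw [lift3t_st hn hc G hq']
    refine (h1 _ hA).trans (le_of_eq ?_)
    rw [colF_st3]
    unfold colD colF
    congr 2
    funext r
    unfold emp
    split_ifs with hr
    · exact (lift3t_st hn hc G hr).symm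
    · rfl

end trans

end Pool.Agent.TC
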