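import Pool.Agent.TC.WVec

/-!
# Type C, link: the one leg functional is continuous in the rapidities near a regular point
-/

set_option autoImplicit false

namespace Pool.Agent.TC

open _root_.Pool.Agent.EXL _root_.Pool.Agent.EXL.Pat _root_.Pool.Agent.EXL.HS Pool.Agent.NUF HexObs Filter Topology

variable {ι : Type*} [DecidableEq ι] {z : ι → ℂ} {b c : ι} {X : List ι}

theorem T1_fun (z : ι → ℂ) (b : ι) (hc : c ∉ X) (F : Pat ι → ℂ) : T1 z c b X F =
    fun p => if CuOK c b p then EXL.M (fun j => rwt (3 * Real.pi / 16 - z j)) c X (emp c F) (cup c b p) else 0 := by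
  funext p
  unfold T1
  rw [Module.End.mul_apply, Module.End.mul_apply, uops_E_apply, uops_M_apply _ _ hc, opCu_apply]
  rfl

theorem T1_congr {z' : ι → ℂ} (h : ∀ j ∈ X, z j = z' j) : T1 z c b X = T1 z' c b X := by
  unfold T1
  congr 2
  induction X with
  | nil => rfl
  | cons j X ih =>
    rw [Glob.Ops.M_cons, Glob.Ops.M_cons, ih fun k hk => h k (by simp [hk]), h j (by simp)]

theorem IsW.congr {z' : ι → ℂ} {W : Fnl ι} (h : ∀ j ∈ X, z j = z' j) (hW : IsW z b X W) : IsW z' b X W :=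
  ⟨hW.sup, fun c hc => by
    rw [← T0_congr h, ← T1_congr h, ← VV_congr h]
    exact hW.eq c hc⟩

theorem Reg1.congr {z' : ι → ℂ} (h : ∀ j ∈ X, z j = z' j) (hR : Reg1 z b X) : Reg1 z' b X :=
  fun c hc => by rw [← T0_congr h]; exact hR c hc

theorem WW_congr {z' : ι → ℂ} (h : ∀ j ∈ X, z j = z' j) : WW z b X = WW z' b X := by
  classical
  have e : (fun W => IsW z b X W) = fun W => IsW z' b X W := by
    funext W
    exact propext ⟨fun hW => hW.congr h, fun hW => hW.congr fun j hj => (h j hj).symm⟩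
  have key : ∀ P Q : Fnl ι → Prop, P = Q → (if h : ∃ W, P W then h.choose else 0) =
      (if h : ∃ W, Q W then h.choose else 0) := by
    rintro P Q rfl
    rfl
  exact key _ _ e

/-- The column with the exit is continuous in the rapidities. -/
theorem cont_T1 {Z : Type*} [TopologicalSpace Z] {ζ : Z → ι → ℂ} {y0 : Z} (hc : c ∉ X)
    (hz : ∀ j ∈ X, ContinuousAt (fun y => ζ y j) y0) (hok : ∀ j ∈ X, okR (3 * Real.pi / 16 - ζ y0 j))
    (F : Pat ι → ℂ) (p : Pat ι) : ContinuousAt (fun y => T1 (ζ y) c b X F p) y0 := by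
  have hM : ∀ (L : List ι), (∀ j ∈ L, j ∈ X) → ∀ (G : Pat ι → ℂ) (p : Pat ι),
      ContinuousAt (fun y => EXL.M (fun j => rwt (3 * Real.pi / 16 - ζ y j)) c L G p) y0 := by
    intro L
    induction L with
    | nil =>
      intro _ G p
      exact continuousAt_const
    | cons j L ih =>
      intro hL G p
      have hj := hL j (by simp)
      exact HS.cont_R (wtCont_rwt (continuousAt_const.sub (hz j hj)) (hok j hj)) _ _
        (fun q => ih (fun k hk => hL k (by simp [hk])) G q) p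
  simp only [T1_fun _ b hc F]
  by_cases h : CuOK c b p
  · simp only [if_pos h]
    exact hM X (fun _ h => h) _ _
  · simp only [if_neg h]
    exact continuousAt_const

variable [Fintype ι]

/-- **Regularity is an open condition, and the one leg functional is continuous.** -/
theorem reg1_near (hn : (b :: X).Nodup) (hc : c ∉ b :: X) {Z : Type*} [TopologicalSpace Z] {ζ : Z → ι → ℂ}
    {y0 : Z} (hz : ∀ j ∈ X, ContinuousAt (fun y => ζ y j) y0)
    (hok : ∀ j ∈ X, okR (3 * Real.pi / 16 - ζ y0 j)) (hR : Reg (ζ y0) X) (hR1 : Reg1 (ζ y0) b X) :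
    (∀ᶠ y in 𝓝 y0, Reg1 (ζ y) b X) ∧ ∀ F, ContinuousAt (fun y => WW (ζ y) b X F) y0 := by
  classical
  have hcX := (notMem_cons hc).2
  have hnX := (List.nodup_cons.1 hn).2
  have hV := reg_near hnX hcX hz hok hR
  -- the right hand side
  have hUc : ∀ F : Pat ι → ℂ, ContinuousAt (fun y => (if Reg (ζ y) X then VV (ζ y) X ∘ₗ T1 (ζ y) c b X
      else 0) F) y0 := by
    intro F
    have : Fintype (NE (AX X)) := Fintype.ofFinite _
    have h1 : ContinuousAt (fun y => T1 (ζ y) c b X F Pat.empty * VV (ζ y) X (HS.ind Pat.empty) +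
        ∑ p : NE (AX X), T1 (ζ y) c b X F p.1 * VV (ζ y) X (HS.ind p.1)) y0 := by
      refine ((cont_T1 hcX hz hok F _).mul (hV.2 _)).add ?_
      refine tendsto_finsetSum _ fun p _ => ?_
      exact (cont_T1 hcX hz hok F _).mul (hV.2 _)
    refine h1.congr ?_
    filter_upwards [hV.1] with y hy
    show _ = (if Reg (ζ y) X then VV (ζ y) X ∘ₗ T1 (ζ y) c b X else 0) F
    rw [if_pos hy, LinearMap.comp_apply]
    exact (sup_sum (isV_VV hnX hcX hy).sup _).symm
  obtain ⟨W, h1, h2, h3⟩ := sol_near (A1_ne b X) (T := fun y => T0 (ζ y) c X)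
    (U := fun y => if Reg (ζ y) X then VV (ζ y) X ∘ₗ T1 (ζ y) c b X else 0) (z0 := y0)
    (fun y => pres_A1 (ζ y) hn hc) (fun y => by
      split_ifs with hy
      · exact supT1 hn hc (isV_VV hnX hcX hy).sup
      · exact SupF.zero)
    (fun F p => cont_T0 hcX hz hok F p) hUc (hR1 c hc)
  have h4 : ∀ᶠ y in 𝓝 y0, Reg1 (ζ y) b X := h3.mono fun y hy => reg1_of hn hc hy.2
  refine ⟨h4, fun F => ?_⟩
  have h5 : (fun y => W y F) =ᶠ[𝓝 y0] fun y => WW (ζ y) b X F := by
    filter_upwards [h3, hV.1] with y hy hRy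
    have hR' := reg1_of hn hc hy.2
    have hy1 := hy.1
    rw [if_pos hRy] at hy1
    have hW : IsW (ζ y) b X (W y) := ⟨h1 y, fun c' hc' =>
      eq_indep (isV_VV hnX hcX hRy).sup (h1 y) hn hc hc' hy1⟩
    rw [hW.eq_WW hn hc hRy hR']
  exact (h2 F).congr h5

end Pool.Agent.TC
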