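import Pool.Agent.TC.LinS
import Pool.Agent.NUF.HalfV

/-!
# Type C, link: the one leg functional of the half strip

The exit site is `b`; `A1 b X` = the planar states of the rows `b :: X` with `b` occupied.  `T1 z c b X` = the column whose
auxiliary line `c` starts at the exit.  `IsW z b X W` : `W` is supported on `A1 b X` and `W - W T0 = VV T1`.
`WW z b X` = the functional, `Reg1 z b X` = `1 - T0` is injective on the functions on `A1 b X`.
-/

set_option autoImplicit false

namespace Pool.Agent.TC

open _root_.Pool.Agent.EXL _root_.Pool.Agent.EXL.Pat _root_.Pool.Agent.EXL.HS Pool.Agent.NUF HexObs Filter Topology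

variable {ι : Type*} [DecidableEq ι]

/-- the planar states of the rows `b :: X` with `b` occupied. -/
def A1 (b : ι) (X : List ι) : Pat ι → Prop := fun p => AX (b :: X) p ∧ p b ≠ b

theorem A1_ne (b : ι) (X : List ι) : ¬ A1 b X Pat.empty := fun h => h.2 rfl

/-- The column whose auxiliary line starts at the exit `b`. -/
noncomputable def T1 (z : ι → ℂ) (c b : ι) (X : List ι) : Module.End ℂ (Pat ι → ℂ) :=
  opCu ℂ c b * uops.M z c (uops (ι := ι)).h X * uops.E c

theorem T1_eq (z : ι → ℂ) (c b : ι) (X : List ι) : T1 z c b X = hT1 uops (fun i j => opCu ℂ i j) z c b X := rfl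

section pres

variable {K : Type*} [CommRing K]

/-- an operator that commutes with the projection on `b` empty keeps `b` occupied. -/
theorem pres_occ {b : ι} {x : (Pat ι → K) → (Pat ι → K)} (hL : Lin x)
    (h : ∀ F, emp b (x F) = x (emp b F)) : Pres (fun p => p b ≠ b) (fun p => p b ≠ b) x := by
  intro F G hFG p hp
  have e1 : (fun q => (1 : K) * F q + (-1) * emp b F q) = fun q => (1 : K) * G q + (-1) * emp b G q := by
    funext q
    unfold emp
    by_cases hq : q b = b
    · rw [if_pos hq, if_pos hq]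
      ring
    · rw [if_neg hq, if_neg hq, hFG q hq]
  have e2 := hL 1 (-1) F (emp b F)
  have e3 := hL 1 (-1) G (emp b G)
  rw [e1, e3, ← h, ← h] at e2
  have e4 := congrFun e2 p
  simp only [one_mul] at e4
  have k : ∀ H : Pat ι → K, emp b H p = 0 := fun H => by
    unfold emp
    rw [if_neg hp]
  rw [k, k, mul_zero, add_zero, add_zero] at e4
  exact e4.symm

theorem emp_comm (b c : ι) (F : Pat ι → K) : emp b (emp c F) = emp c (emp b F) := by
  funext p
  unfold emp
  split_ifs <;> rfl

end pres

section basic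

variable {z : ι → ℂ} {b c c' : ι} {X : List ι}

theorem notMem_cons {x b : ι} {X : List ι} (h : x ∉ b :: X) : x ≠ b ∧ x ∉ X :=
  ⟨fun e => h (by rw [e]; exact List.mem_cons_self), fun e => h (List.mem_cons_of_mem _ e)⟩

theorem E_T0 (hb : b ∉ X) (hcb : c ≠ b) : uops.E b * T0 z c X = T0 z c X * uops.E b := by
  unfold T0
  have L := ulaws (ι := ι)
  have e1 : (uops (ι := ι)).E b * uops.E c = uops.E c * uops.E b := (L.cEE (i := b) (j := c)).eq
  have e2 : uops.M z c (uops (ι := ι)).h X * uops.E b = uops.E b * uops.M z c (uops (ι := ι)).h X := (L.cME hcb hb).eq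
  calc uops.E b * (uops.E c * uops.M z c (uops (ι := ι)).h X * uops.E c)
      = (uops.E b * uops.E c) * uops.M z c (uops (ι := ι)).h X * uops.E c := by simp only [mul_assoc]
    _ = uops.E c * (uops.E b * uops.M z c (uops (ι := ι)).h X) * uops.E c := by rw [e1]; simp only [mul_assoc]
    _ = uops.E c * uops.M z c (uops (ι := ι)).h X * (uops.E b * uops.E c) := by rw [← e2]; simp only [mul_assoc]
    _ = _ := by rw [e1]; simp only [mul_assoc]

theorem pres_occ_T0 (z : ι → ℂ) (hb : b ∉ X) (hcb : c ≠ b) :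
    Pres (fun p => p b ≠ b) (fun p => p b ≠ b) (fun F => T0 z c X F) := by
  refine pres_occ (lin_end _) fun F => ?_
  rw [← uops_E_apply, ← uops_E_apply, ← Module.End.mul_apply, E_T0 hb hcb, Module.End.mul_apply]

theorem pres_ax_T0 (z : ι → ℂ) (hn : (b :: X).Nodup) (hc : c ∉ b :: X) :
    Pres (AX (b :: X)) (AX (b :: X)) (fun F => T0 z c X F) := by
  rw [T0_fun z (notMem_cons hc).2]
  set w : ι → Wt ℂ := fun j => rwt (3 * Real.pi / 16 - z j)
  have h1 := pres_ax_emp_l (K := ℂ) (L1 := [b]) (L2 := X) (c := c) hc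
  have h2 := pres_ax_M w X (c := c) (L1 := [b]) (L2 := []) (by
    simp only [List.append_nil, List.singleton_append, List.nodup_cons] at hn ⊢
    refine ⟨?_, (notMem_cons hc).2, hn.2⟩
    simp only [List.mem_cons, not_or]
    exact ⟨fun e => hc (by rw [e]; exact List.mem_cons_self), hn.1⟩)
  have h3 := pres_ax_emp_r (K := ℂ) ([b] ++ X) [] c
  simp only [List.append_nil, List.singleton_append] at h1 h2 h3
  exact h1.comp (h2.comp h3)

/-- The column preserves the states with the exit occupied. -/
theorem pres_A1 (z : ι → ℂ) (hn : (b :: X).Nodup) (hc : c ∉ b :: X) :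
    Pres (A1 b X) (A1 b X) (fun F => T0 z c X F) :=
  (pres_ax_T0 z hn hc).inter (pres_occ_T0 z (List.nodup_cons.1 hn).1 (notMem_cons hc).1)

/-- the state with a new arc at the bottom. -/
theorem ax_cup (hn : (b :: X).Nodup) (hc : c ∉ b :: X) {p : Pat ι} (hp : AX X p) :
    AX (b :: c :: X) (cup c b p) ∧ cup c b p b ≠ b := by
  have hcb := (notMem_cons hc).1
  have hcX := (notMem_cons hc).2
  have hbX := (List.nodup_cons.1 hn).1
  have pc : p c = c := ax_out hp hcX
  have pb : p b = b := ax_out hp hbX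
  have h1 : AX (b :: c :: X) p := by
    have h2 : AX ([] ++ c :: X) p := ax_insert (L1 := []) (L2 := X) (by simpa using hcX) hp
    have h3 : AX ([] ++ b :: (c :: X)) p := ax_insert (L1 := []) (L2 := c :: X) (by
      simp only [List.nil_append, List.mem_cons, not_or]
      exact ⟨hcb.symm, hbX⟩) h2
    exact h3
  refine ⟨?_, ?_⟩
  · refine PD.cup (ax_injOn _) (by simp) (by simp) h1 ?_
    have hadj : Adj {x | x ∈ b :: c :: X} (fun x => ((b :: c :: X).idxOf x : ℤ)) b c :=
      adj_next [] X b c (by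
        simp only [List.nil_append, List.nodup_cons, List.mem_cons, not_or]
        exact ⟨⟨hcb.symm, hbX⟩, hcX, (List.nodup_cons.1 hn).2⟩)
    have hclr := hadj.clr h1
    intro k hk
    exact (hclr k hk).symm
  · rw [pcup_apply pc pb, if_neg hcb.symm, if_pos rfl]
    exact hcb

theorem pres_T1 (z : ι → ℂ) (hn : (b :: X).Nodup) (hc : c ∉ b :: X) :
    Pres (AX X) (A1 b X) (fun F => T1 z c b X F) := by
  have hcb := (notMem_cons hc).1
  have hcX := (notMem_cons hc).2
  have hbX := (List.nodup_cons.1 hn).1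
  have e : (fun F => T1 z c b X F) = fun F => opCu ℂ c b (EXL.M (fun j => rwt (3 * Real.pi / 16 - z j)) c X
      (emp c F)) := by
    funext F
    unfold T1
    rw [Module.End.mul_apply, Module.End.mul_apply, uops_E_apply, uops_M_apply _ _ hcX]
    rfl
  rw [e]
  set w : ι → Wt ℂ := fun j => rwt (3 * Real.pi / 16 - z j)
  have h1 : Pres (AX X) (fun p => AX (b :: c :: X) p ∧ p b ≠ b) (fun F => opCu ℂ c b F) := by
    intro F G hFG p hp
    show opCu ℂ c b F p = opCu ℂ c b G p
    rw [opCu_apply, opCu_apply]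
    split_ifs
    · exact hFG _ (ax_cup hn hc hp)
    · rfl
  have h2 : Pres (AX (b :: c :: X)) (AX (b :: X ++ [c])) (EXL.M w c X) := by
    have := pres_ax_M w X (c := c) (L1 := [b]) (L2 := []) (by
      simp only [List.append_nil, List.singleton_append, List.nodup_cons] at hn ⊢
      refine ⟨?_, hcX, hn.2⟩
      simp only [List.mem_cons, not_or]
      exact ⟨hcb.symm, hn.1⟩)
    simpa using this
  have h2' : Pres (fun p => p b ≠ b) (fun p => p b ≠ b) (EXL.M w c X) := by
    refine pres_occ (lin_M w c X) fun F => ?_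
    have k : ∀ F, EXL.M w c X F = uops.M z c (uops (ι := ι)).h X F := fun F =>
      (uops_M_apply z (uops (ι := ι)).h hcX F).symm
    rw [k, k, ← uops_E_apply, ← uops_E_apply, ← Module.End.mul_apply, ← Module.End.mul_apply,
      ((ulaws (ι := ι)).cME hcb hbX).eq]
  have h3 : Pres (K := ℂ) (AX (b :: X ++ [c])) (AX (b :: X)) (emp c) := by
    have := pres_ax_emp_r (K := ℂ) (b :: X) [] c
    simpa using this
  have h3' : Pres (K := ℂ) (fun p => p b ≠ b) (fun p => p b ≠ b) (emp c) :=
    pres_occ (lin_emp c) fun F => emp_comm b c F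
  exact h1.comp ((h2.inter h2').comp (h3.inter h3'))

end basic

/-! ### The functional -/

/-- `1 - T0` is injective on the functions on `A1 b X`. -/
def Reg1 (z : ι → ℂ) (b : ι) (X : List ι) : Prop := ∀ c, c ∉ b :: X → InjN (A1 b X) (fun F => T0 z c X F)

/-- The one leg functional of the rows `X`. -/
structure IsW (z : ι → ℂ) (b : ι) (X : List ι) (W : Fnl ι) : Prop where
  sup : SupF (A1 b X) W
  eq : ∀ c, c ∉ b :: X → W - W ∘ₗ T0 z c X = VV z X ∘ₗ T1 z c b X

/-- **The one leg functional.** -/
noncomputable def WW (z : ι → ℂ) (b : ι) (X : List ι) : Fnl ι :=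
  open scoped Classical in if h : ∃ W, IsW z b X W then h.choose else 0

section exist

variable {z : ι → ℂ} {b c c' : ι} {X : List ι} {V : Fnl ι}

theorem T0_indep1 (z : ι → ℂ) (hn : (b :: X).Nodup) (hc : c ∉ b :: X) (hc' : c' ∉ b :: X) (F : Pat ι → ℂ)
    {p : Pat ι} (hp : AX (b :: X) p) : T0 z c' X F p = T0 z c X F p := by
  by_cases hcc : c = c'
  · rw [hcc]
  have h1 : uops.P c c' * T0 z c X = T0 z c' X * uops.P c c' := by
    have L := ulaws (ι := ι)
    unfold T0
    rw [← uops_bc, ← uops_bc (i := c')]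
    calc uops.P c c' * (uops.bc c * uops.M z c (uops (ι := ι)).h X * uops.bc c)
        = (uops.P c c' * uops.bc c) * uops.M z c (uops (ι := ι)).h X * uops.bc c := by
          simp only [mul_assoc]
      _ = uops.bc c' * (uops.P c c' * uops.M z c (uops (ι := ι)).h X) * uops.bc c := by
          rw [L.Pbc hcc]; simp only [mul_assoc]
      _ = uops.bc c' * uops.M z c' (uops (ι := ι)).h X * (uops.P c c' * uops.bc c) := by
          rw [L.P_M hcc (notMem_cons hc).2 (notMem_cons hc').2]; simp only [mul_assoc]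
      _ = _ := by rw [L.Pbc hcc]; simp only [mul_assoc]
  have h2 : ∀ (G : Pat ι → ℂ) (q : Pat ι), AX (b :: X) q → uops.P c c' G q = G q := by
    intro G q hq
    rw [uops_P_apply]
    show G (swap c c' q) = G q
    rw [swap_empty2 (ax_out hq hc) (ax_out hq hc')]
  have h3 : uops.P c c' (T0 z c X F) p = T0 z c' X (uops.P c c' F) p := by
    rw [← Module.End.mul_apply, h1, Module.End.mul_apply]
  rw [h2 _ _ hp] at h3
  rw [h3]
  exact pres_ax_T0 z hn hc' F (uops.P c c' F) (fun q hq => (h2 F q hq).symm) p hp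

/-- The site of the auxiliary line does not matter for the column with the exit. -/
theorem T1_indep (z : ι → ℂ) (hn : (b :: X).Nodup) (hc : c ∉ b :: X) (hc' : c' ∉ b :: X) (F : Pat ι → ℂ)
    {p : Pat ι} (hp : AX X p) : T1 z c' b X F p = T1 z c b X F p := by
  by_cases hcc : c = c'
  · rw [hcc]
  have hcb := (notMem_cons hc).1
  have hcb' := (notMem_cons hc').1
  have hP : uops.P c c' * opCu ℂ c b = opCu ℂ c' b * uops.P c c' := by
    refine LinearMap.ext fun G => ?_
    funext q
    rw [Module.End.mul_apply, Module.End.mul_apply, uops_P_apply]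
    show opCu ℂ c b G (swap c c' q) = opCu ℂ c' b (uops.P c c' G) q
    rw [opCu_apply, opCu_apply, uops_P_apply]
    have sc : Equiv.swap c c' c = c' := Equiv.swap_apply_left _ _
    have sc' : Equiv.swap c c' c' = c := Equiv.swap_apply_right _ _
    have sb : Equiv.swap c c' b = b := Equiv.swap_apply_of_ne_of_ne hcb.symm hcb'.symm
    have e1 : swap c c' q c = c ↔ q c' = c' := by
      rw [pswap_apply, sc]
      constructor
      · intro h
        have := congrArg (Equiv.swap c c') h
        rwa [Equiv.swap_apply_self, sc] at this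
      · intro h
        rw [h, sc']
    have e2 : swap c c' q b = b ↔ q b = b := by
      rw [pswap_apply, sb]
      constructor
      · intro h
        have := congrArg (Equiv.swap c c') h
        rwa [Equiv.swap_apply_self, sb] at this
      · intro h
        rw [h, sb]
    by_cases h : CuOK c' b q
    · have h' : CuOK c b (swap c c' q) := ⟨e1.2 h.1, e2.2 h.2⟩
      rw [if_pos h', if_pos h]
      show G (cup c b (swap c c' q)) = G (swap c c' (cup c' b q))
      congr 1
      ext x
      rw [pcup_apply h'.1 h'.2, pswap_apply, pswap_apply, pcup_apply h.1 h.2]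
      by_cases hx : x = c
      · rw [if_pos hx, hx, sc, if_pos rfl, sb]
      · rw [if_neg hx]
        by_cases hx2 : x = b
        · rw [if_pos hx2, hx2, sb, if_neg hcb'.symm, if_pos rfl, sc']
        · rw [if_neg hx2, if_neg (fun e => hx ?_), if_neg (fun e => hx2 ?_)]
          · have e3 := congrArg (Equiv.swap c c') e
            rwa [Equiv.swap_apply_self, sb] at e3
          · have e3 := congrArg (Equiv.swap c c') e
            rwa [Equiv.swap_apply_self, sc'] at e3
    · have h' : ¬ CuOK c b (swap c c' q) := fun h' => h ⟨e1.1 h'.1, e2.1 h'.2⟩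
      rw [if_neg h', if_neg h]
  have h1 : uops.P c c' * T1 z c b X = T1 z c' b X * uops.P c c' := by
    have L := ulaws (ι := ι)
    unfold T1
    rw [← uops_bc, ← uops_bc (i := c')]
    calc uops.P c c' * (opCu ℂ c b * uops.M z c (uops (ι := ι)).h X * uops.bc c)
        = (uops.P c c' * opCu ℂ c b) * uops.M z c (uops (ι := ι)).h X * uops.bc c := by
          simp only [mul_assoc]
      _ = opCu ℂ c' b * (uops.P c c' * uops.M z c (uops (ι := ι)).h X) * uops.bc c := by
          rw [hP]; simp only [mul_assoc]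
      _ = opCu ℂ c' b * uops.M z c' (uops (ι := ι)).h X * (uops.P c c' * uops.bc c) := by
          rw [L.P_M hcc (notMem_cons hc).2 (notMem_cons hc').2]; simp only [mul_assoc]
      _ = _ := by rw [L.Pbc hcc]; simp only [mul_assoc]
  have h2 : ∀ (G : Pat ι → ℂ) (q : Pat ι), AX (b :: X) q → uops.P c c' G q = G q := by
    intro G q hq
    rw [uops_P_apply]
    show G (swap c c' q) = G q
    rw [swap_empty2 (ax_out hq hc) (ax_out hq hc')]
  have hp' : AX (b :: X) p := by
    have h3 : AX ([] ++ b :: X) p := ax_insert (L1 := []) (L2 := X) (by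
      simpa using (List.nodup_cons.1 hn).1) hp
    exact h3
  have h3 : uops.P c c' (T1 z c b X F) p = T1 z c' b X (uops.P c c' F) p := by
    rw [← Module.End.mul_apply, h1, Module.End.mul_apply]
  rw [h2 _ _ hp'] at h3
  rw [h3]
  exact pres_T1 z hn hc' F (uops.P c c' F) (fun q hq => (h2 F q hq.1).symm) p hp

theorem reg1_of (hn : (b :: X).Nodup) (hc : c ∉ b :: X) (h : InjN (A1 b X) (fun F => T0 z c X F)) :
    Reg1 z b X := by
  intro c' hc' G h0 h1 p
  refine h G h0 (fun q hq hA => ?_) p
  show T0 z c X G q = G q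
  rw [← T0_indep1 z hn hc hc' G hA.1]
  exact h1 q hq hA

theorem supT1 (hn : (b :: X).Nodup) (hc : c ∉ b :: X) (hV : Sup X V) : SupF (A1 b X) (V ∘ₗ T1 z c b X) :=
  SupF.comp hV (pres_T1 z hn hc)

theorem eq_indep {W : Fnl ι} (hV : Sup X V) (hW : SupF (A1 b X) W) (hn : (b :: X).Nodup) (hc : c ∉ b :: X)
    (hc' : c' ∉ b :: X) (h : W - W ∘ₗ T0 z c X = V ∘ₗ T1 z c b X) :
    W - W ∘ₗ T0 z c' X = V ∘ₗ T1 z c' b X := by
  refine LinearMap.ext fun F => ?_
  have h1 := congrArg (fun U : Fnl ι => U F) h
  simp only [LinearMap.sub_apply, LinearMap.comp_apply] at h1 ⊢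
  rw [hW.congr fun p hp => T0_indep1 z hn hc hc' F hp.1, hV.congr fun p hp => T1_indep z hn hc hc' F hp]
  exact h1

variable [Finite ι]

/-- **Uniqueness.** -/
theorem IsW.unique {W W' : Fnl ι} (hW : IsW z b X W) (hW' : IsW z b X W') (hc : c ∉ b :: X)
    (hR : Reg1 z b X) : W = W' :=
  sol_unique (A1_ne b X) (hR c hc) hW.sup hW'.sup ((hW.eq c hc).trans (hW'.eq c hc).symm)

/-- **Existence.** -/
theorem exists_isW (hn : (b :: X).Nodup) (hc : c ∉ b :: X) (hR : Reg z X) (hR1 : Reg1 z b X) :
    ∃ W, IsW z b X W := by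
  have hV := isV_VV (List.nodup_cons.1 hn).2 (notMem_cons hc).2 hR
  obtain ⟨W, h1, h2⟩ := sol_exists (A1_ne b X) (pres_A1 z hn hc) (hR1 c hc) (supT1 (z := z) hn hc hV.sup)
  exact ⟨W, h1, fun c' hc' => eq_indep hV.sup h1 hn hc hc' h2⟩

theorem isW_WW (hn : (b :: X).Nodup) (hc : c ∉ b :: X) (hR : Reg z X) (hR1 : Reg1 z b X) :
    IsW z b X (WW z b X) := by
  classical
  have h := exists_isW hn hc hR hR1
  unfold WW
  rw [dif_pos h]
  exact h.choose_spec

theorem IsW.eq_WW {W : Fnl ι} (hn : (b :: X).Nodup) (hc : c ∉ b :: X) (hR : Reg z X) (hR1 : Reg1 z b X)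
    (hW : IsW z b X W) : W = WW z b X := hW.unique (isW_WW hn hc hR hR1) hc hR1

end exist

end Pool.Agent.TC
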