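import Pool.Agent.TC.OLog

/-!
# Smoothness of the logarithm of the wall factor

* `Nk`, `Mk`: moments and normalised moments of `e^{2ut}`, `u` uniform on `[-1,1]`; `Nk 0 t = sinh (2t) / t`;
* `Aq`, `Bq`: `sinh (κt) / (cosh (κt) - c)`, `1 / (cosh (κt) - c)`;
* all of them are in the classes `O j C`.
-/

set_option autoImplicit false

open MeasureTheory Set Filter Topology
open scoped Interval

namespace TCF

open NUOC

noncomputable section

/-! ### moments -/

/-- `∫_{-1}^{1} (2u)^k e^{2ut} du` -/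
def Nk (k : ℕ) (t : ℝ) : ℝ := ∫ u in (-1:ℝ)..1, (2 * u) ^ k * Real.exp (2 * u * t)

lemma hasDerivAt_Nk (k : ℕ) (t : ℝ) : HasDerivAt (Nk k) (Nk (k + 1) t) t := by
  refine (intervalIntegral.hasDerivAt_integral_of_dominated_loc_of_deriv_le
    (F := fun t u => (2 * u) ^ k * Real.exp (2 * u * t))
    (F' := fun t u => (2 * u) ^ (k + 1) * Real.exp (2 * u * t))
    (bound := fun _ => 2 ^ (k + 1) * Real.exp (2 * (|t| + 1))) (μ := volume) (s := Metric.ball t 1)
    (Metric.ball_mem_nhds t one_pos) ?_ ?_ ?_ ?_ ?_ ?_).2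
  · exact Eventually.of_forall fun x => (Continuous.aestronglyMeasurable (by fun_prop))
  · exact Continuous.intervalIntegrable (by fun_prop) _ _
  · exact Continuous.aestronglyMeasurable (by fun_prop)
  · refine Eventually.of_forall fun u hu x hx => ?_
    rw [uIoc_of_le (by norm_num)] at hu
    rw [norm_mul, norm_pow, Real.norm_eq_abs, Real.norm_eq_abs, Real.abs_exp]
    have hu1 : |u| ≤ 1 := abs_le.2 ⟨hu.1.le, hu.2⟩
    have hx1 : |x| ≤ |t| + 1 := by
      rw [Metric.mem_ball, Real.dist_eq] at hx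
      have := abs_sub_abs_le_abs_sub x t
      linarith
    refine mul_le_mul (pow_le_pow_left₀ (abs_nonneg _) ?_ _) (Real.exp_le_exp.2 ?_) (Real.exp_pos _).le
      (by positivity)
    · rw [abs_mul, abs_two]
      linarith
    · calc 2 * u * x ≤ |2 * u * x| := le_abs_self _
        _ = 2 * (|u| * |x|) := by rw [abs_mul, abs_mul, abs_two]; ring
        _ ≤ 2 * (1 * (|t| + 1)) := by gcongr
        _ = 2 * (|t| + 1) := by ring
  · exact intervalIntegrable_const
  · refine Eventually.of_forall fun u _ x _ => ?_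
    have e1 : HasDerivAt (fun x : ℝ => 2 * u * x) (2 * u) x := by
      simpa using (hasDerivAt_id x).const_mul (2 * u)
    have e2 := (e1.exp).const_mul ((2 * u) ^ k)
    refine HasDerivAt.congr_deriv e2 ?_
    rw [pow_succ]
    ring

lemma Nk_cont (k : ℕ) : Continuous (Nk k) :=
  continuous_iff_continuousAt.2 fun t => (hasDerivAt_Nk k t).continuousAt

lemma Nk0_pos (t : ℝ) : 0 < Nk 0 t := by
  unfold Nk
  refine intervalIntegral.intervalIntegral_pos_of_pos ?_ (fun u => by positivity) (by norm_num)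
  exact Continuous.intervalIntegrable (by fun_prop) _ _

lemma abs_Nk_le (k : ℕ) (t : ℝ) : |Nk k t| ≤ 2 ^ k * Nk 0 t := by
  unfold Nk
  have h1 := intervalIntegral.norm_integral_le_integral_norm (a := (-1:ℝ)) (b := 1) (μ := volume)
    (f := fun u => (2 * u) ^ k * Real.exp (2 * u * t)) (by norm_num)
  rw [Real.norm_eq_abs] at h1
  refine h1.trans ?_
  rw [← intervalIntegral.integral_const_mul]
  refine intervalIntegral.integral_mono_on (by norm_num) (Continuous.intervalIntegrable (by fun_prop) _ _)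
    (Continuous.intervalIntegrable (by fun_prop) _ _) fun u hu => ?_
  have hu1 : |u| ≤ 1 := abs_le.2 ⟨hu.1, hu.2⟩
  rw [norm_mul, norm_pow, Real.norm_eq_abs, Real.norm_eq_abs, Real.abs_exp, pow_zero, one_mul]
  refine mul_le_mul_of_nonneg_right (pow_le_pow_left₀ (abs_nonneg _) ?_ _) (Real.exp_pos _).le
  rw [abs_mul, abs_two]
  linarith

/-- `t * Nk 0 t = sinh (2t)` -/
lemma mul_Nk0 (t : ℝ) : t * Nk 0 t = Real.sinh (2 * t) := by
  have h1 : ∀ u : ℝ, HasDerivAt (fun u : ℝ => Real.exp (2 * u * t)) (2 * t * Real.exp (2 * u * t)) u := by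
    intro u
    have e1 : HasDerivAt (fun u : ℝ => 2 * u * t) (2 * t) u := by
      have := ((hasDerivAt_id u).const_mul 2).mul_const t
      simpa using this
    refine HasDerivAt.congr_deriv e1.exp ?_
    ring
  have h2 := intervalIntegral.integral_eq_sub_of_hasDerivAt (a := (-1:ℝ)) (b := 1) (fun u _ => h1 u)
    (Continuous.intervalIntegrable (by fun_prop) _ _)
  rw [intervalIntegral.integral_const_mul] at h2
  unfold Nk
  simp only [pow_zero, one_mul]
  rw [Real.sinh_eq]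
  have e1 : 2 * (-1) * t = -(2 * t) := by ring
  have e2 : 2 * 1 * t = 2 * t := by ring
  rw [e1, e2] at h2
  linarith

/-- normalised moments -/
def Mk (k : ℕ) (t : ℝ) : ℝ := Nk k t / Nk 0 t

lemma abs_Mk_le (k : ℕ) (t : ℝ) : |Mk k t| ≤ 2 ^ k := by
  unfold Mk
  rw [abs_div, abs_of_pos (Nk0_pos t), div_le_iff₀ (Nk0_pos t)]
  exact abs_Nk_le k t

lemma hasDerivAt_Mk (k : ℕ) (t : ℝ) : HasDerivAt (Mk k) (Mk (k + 1) t - Mk k t * Mk 1 t) t := by
  have h := (hasDerivAt_Nk k t).div (hasDerivAt_Nk 0 t) (Nk0_pos t).ne'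
  have h0 := (Nk0_pos t).ne'
  refine HasDerivAt.congr_deriv h ?_
  unfold Mk
  rw [zero_add]
  field_simp

lemma Mk_O (j : ℕ) : ∀ k : ℕ, ∃ C : ℝ, O j C (Mk k) := by
  induction j with
  | zero =>
    intro k
    exact ⟨2 ^ k, continuous_iff_continuousAt.2 fun t => (hasDerivAt_Mk k t).continuousAt, abs_Mk_le k⟩
  | succ j ih =>
    intro k
    obtain ⟨C1, h1⟩ := ih (k + 1)
    obtain ⟨C2, h2⟩ := ih k
    obtain ⟨C3, h3⟩ := ih 1
    have h4 := h1.sub (h2.mul h3)
    refine ⟨max (2 ^ k) (C1 + 2 ^ j * (C2 * C3)), fun x => (abs_Mk_le k x).trans (le_max_left _ _), _,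
      fun x => hasDerivAt_Mk k x, h4.mono (le_max_right _ _)⟩

/-! ### quotients of hyperbolic functions -/

/-- `sinh (κt) / (cosh (κt) - c)` -/
def Aq (κ c t : ℝ) : ℝ := Real.sinh (κ * t) / (Real.cosh (κ * t) - c)

/-- `1 / (cosh (κt) - c)` -/
def Bq (κ c t : ℝ) : ℝ := 1 / (Real.cosh (κ * t) - c)

variable {κ c : ℝ}

lemma den_pos (hc : c < 1) (x : ℝ) : 0 < Real.cosh x - c := by
  have := Real.one_le_cosh x
  linarith

lemma hasDerivAt_cosh_k (κ c t : ℝ) :
    HasDerivAt (fun t => Real.cosh (κ * t) - c) (κ * Real.sinh (κ * t)) t := by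
  have e1 : HasDerivAt (fun x : ℝ => κ * x) κ t := by
    simpa using (hasDerivAt_id t).const_mul κ
  refine HasDerivAt.congr_deriv (e1.cosh.sub_const c) ?_
  ring

lemma hasDerivAt_sinh_k (κ t : ℝ) :
    HasDerivAt (fun t => Real.sinh (κ * t)) (κ * Real.cosh (κ * t)) t := by
  have e1 : HasDerivAt (fun x : ℝ => κ * x) κ t := by
    simpa using (hasDerivAt_id t).const_mul κ
  refine HasDerivAt.congr_deriv e1.sinh ?_
  ring

lemma hasDerivAt_Aq (hc : c < 1) (t : ℝ) :
    HasDerivAt (Aq κ c) (κ * (1 + c * Bq κ c t) - κ * (Aq κ c t * Aq κ c t)) t := by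
  have h0 := (den_pos hc (κ * t)).ne'
  have h := (hasDerivAt_sinh_k κ t).div (hasDerivAt_cosh_k κ c t) h0
  refine HasDerivAt.congr_deriv h ?_
  unfold Aq Bq
  field_simp
  ring

lemma hasDerivAt_Bq (hc : c < 1) (t : ℝ) :
    HasDerivAt (Bq κ c) (-(κ * (Aq κ c t * Bq κ c t))) t := by
  have h0 := (den_pos hc (κ * t)).ne'
  have h := (hasDerivAt_const t (1:ℝ)).div (hasDerivAt_cosh_k κ c t) h0
  refine HasDerivAt.congr_deriv h ?_
  unfold Aq Bq
  field_simp
  ring

lemma abs_Bq_le (hc : c < 1) (t : ℝ) : |Bq κ c t| ≤ 1 / (1 - c) := by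
  unfold Bq
  have h0 := den_pos hc (κ * t)
  rw [abs_of_pos (one_div_pos.2 h0)]
  have := Real.one_le_cosh (κ * t)
  exact one_div_le_one_div_of_le (by linarith) (by linarith)

lemma abs_sinh_le_cosh (x : ℝ) : |Real.sinh x| ≤ Real.cosh x := by
  rw [← Real.cosh_abs, Real.abs_sinh]
  exact (Real.sinh_lt_cosh _).le

lemma abs_Aq_le (hc0 : 0 ≤ c) (hc : c < 1) (t : ℝ) : |Aq κ c t| ≤ 1 / (1 - c) := by
  unfold Aq
  have h0 := den_pos hc (κ * t)
  rw [abs_div, abs_of_pos h0, div_le_div_iff₀ h0 (by linarith)]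
  have h1 := abs_sinh_le_cosh (κ * t)
  have h2 := Real.one_le_cosh (κ * t)
  nlinarith [abs_nonneg (Real.sinh (κ * t))]

lemma AB_O (hc0 : 0 ≤ c) (hc : c < 1) (j : ℕ) : ∃ C : ℝ, O j C (Aq κ c) ∧ O j C (Bq κ c) := by
  induction j with
  | zero =>
    exact ⟨1 / (1 - c),
      ⟨continuous_iff_continuousAt.2 fun t => (hasDerivAt_Aq hc t).continuousAt, abs_Aq_le hc0 hc⟩,
      ⟨continuous_iff_continuousAt.2 fun t => (hasDerivAt_Bq hc t).continuousAt, abs_Bq_le hc⟩⟩
  | succ j ih =>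
    obtain ⟨C, hA, hB⟩ := ih
    have h1 : O j (|κ| * (1 + |c| * C) + |κ| * (2 ^ j * (C * C)))
        (fun t => κ * (1 + c * Bq κ c t) - κ * (Aq κ c t * Aq κ c t)) :=
      (((O.const j (c := (1:ℝ)) (by rw [abs_one])).add (hB.smul c)).smul κ).sub ((hA.mul hA).smul κ)
    have h2 : O j (|κ| * (2 ^ j * (C * C))) (fun t => -(κ * (Aq κ c t * Bq κ c t))) :=
      ((hA.mul hB).smul κ).neg
    refine ⟨max (1 / (1 - c)) (max (|κ| * (1 + |c| * C) + |κ| * (2 ^ j * (C * C)))
      (|κ| * (2 ^ j * (C * C)))), ⟨fun x => (abs_Aq_le hc0 hc x).trans (le_max_left _ _), _,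
      fun x => hasDerivAt_Aq hc x, h1.mono ((le_max_left _ _).trans (le_max_right _ _))⟩,
      ⟨fun x => (abs_Bq_le hc x).trans (le_max_left _ _), _,
      fun x => hasDerivAt_Bq hc x, h2.mono ((le_max_right _ _).trans (le_max_right _ _))⟩⟩

end

end TCF
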