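import Pool.Agent.NUC62.Bound
import Pool.Agent.FSz.Circ

/-!
# The wall of the folded gas on the circle: series and self energy

On the circle of length `L` the wall factor is `|sin θ| / √(sin² θ + sinh² s)`, `θ = 2 π x / L`,
`s = sw L = π² / (4 L)`.

* `Cser_wf`: `-(1/2) log (sin² θ + sinh² s)` is a cosine series with the coefficients `wf L`;
* `wz L p = pr p / (p+1) - wf L p`, `pr p = 1` for even `p + 1`, `0` else.
-/

set_option autoImplicit false

open MeasureTheory Set Filter Topology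
open scoped Real

namespace TCW

open Pool.Agent.FSz NUC62

noncomputable section

/-- `1` for even `p + 1`, `0` else -/
def pr (p : ℕ) : ℝ := if Even (p + 1) then 1 else 0

lemma pr_nonneg (p : ℕ) : 0 ≤ pr p := by
  unfold pr
  split_ifs <;> norm_num

lemma pr_le (p : ℕ) : pr p ≤ 1 := by
  unfold pr
  split_ifs <;> norm_num

lemma pr_sq (p : ℕ) : pr p ^ 2 = pr p := by
  unfold pr
  split_ifs <;> norm_num

lemma pr_even (j : ℕ) : pr (2 * j) = 0 := by
  unfold pr
  rw [if_neg]
  rw [Nat.not_even_iff_odd]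
  exact ⟨j, rfl⟩

lemma pr_odd (j : ℕ) : pr (2 * j + 1) = 1 := by
  unfold pr
  rw [if_pos]
  exact ⟨j + 1, by ring⟩

/-- width of the wall on the circle of length `L` -/
def sw (L : ℝ) : ℝ := π ^ 2 / (4 * L)

lemma sw_pos {L : ℝ} (hL : 0 < L) : 0 < sw L := by
  unfold sw
  positivity

/-- coefficients of the wall potential -/
def wf (L : ℝ) (p : ℕ) : ℝ := pr p * Real.exp (-(sw L * (p + 1))) / (p + 1)

/-- difference to the coefficients of the singular wall -/
def wz (L : ℝ) (p : ℕ) : ℝ := pr p * (1 - Real.exp (-(sw L * (p + 1)))) / (p + 1)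

lemma wf_sub (L : ℝ) (p : ℕ) : wf L p - pr p / (p + 1) = -wz L p := by
  unfold wf wz
  ring

lemma wf_nonneg (L : ℝ) (p : ℕ) : 0 ≤ wf L p := by
  unfold wf
  have := pr_nonneg p
  positivity

lemma wz_nonneg {L : ℝ} (hL : 0 < L) (p : ℕ) : 0 ≤ wz L p := by
  unfold wz
  have h1 := pr_nonneg p
  have h2 := sw_pos hL
  have h3 : Real.exp (-(sw L * (p + 1))) ≤ 1 := Real.exp_le_one_iff.2 (by
    have : 0 ≤ sw L * ((p : ℝ) + 1) := by positivity
    linarith)
  have h4 : 0 ≤ 1 - Real.exp (-(sw L * (p + 1))) := by linarith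
  positivity

lemma wz_le {L : ℝ} (hL : 0 < L) (p : ℕ) : wz L p ≤ 1 / (p + 1) := by
  unfold wz
  have h1 := pr_nonneg p
  have h1' := pr_le p
  have h2 := Real.exp_pos (-(sw L * (p + 1)))
  have h3 : Real.exp (-(sw L * (p + 1))) ≤ 1 := Real.exp_le_one_iff.2 (by
    have := sw_pos hL
    have : 0 ≤ sw L * ((p : ℝ) + 1) := by positivity
    linarith)
  gcongr
  nlinarith

lemma wf_le (L : ℝ) (p : ℕ) : wf L p ≤ Real.exp (-(sw L * (p + 1))) := by
  unfold wf
  have h1 := pr_nonneg p
  have h1' := pr_le p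
  have h2 := Real.exp_pos (-(sw L * (p + 1)))
  rw [div_le_iff₀ (by positivity)]
  have h3 : pr p * Real.exp (-(sw L * (p + 1))) ≤ 1 * Real.exp (-(sw L * (p + 1))) := by gcongr
  have h4 : (1 : ℝ) ≤ (p : ℝ) + 1 := by
    have : (0 : ℝ) ≤ p := Nat.cast_nonneg p
    linarith
  nlinarith

lemma wf_summable {L : ℝ} (hL : 0 < L) : Summable fun p => |wf L p| := by
  have hs := sw_pos hL
  refine Summable.of_nonneg_of_le (fun p => abs_nonneg _) (fun p => ?_)
    ((summable_geometric_of_lt_one (Real.exp_nonneg (-(sw L))) (Real.exp_lt_one_iff.2 (by linarith))).mul_left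
      (Real.exp (-(sw L))))
  rw [abs_of_nonneg (wf_nonneg L p)]
  refine (wf_le L p).trans (le_of_eq ?_)
  rw [← Real.exp_nat_mul, ← Real.exp_add]
  congr 1
  ring

/-- the logarithmic series -/
lemma log_series {s : ℝ} (hs : 0 < s) (x : ℝ) :
    HasSum (fun j : ℕ => Real.exp (-(s * (2 * j + 2))) / (j + 1) * Real.cos ((2 * j + 2) * x))
      (s - Real.log 2 - 1 / 2 * Real.log (Real.sin x ^ 2 + Real.sinh s ^ 2)) := by
  set z : ℂ := Complex.exp (((-(2 * s) : ℝ) : ℂ) + ((2 * x : ℝ) : ℂ) * Complex.I) with hz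
  have hz1 : ‖z‖ = Real.exp (-(2 * s)) := by
    rw [hz, Complex.norm_exp]
    congr 1
    simp
  have hlt : ‖z‖ < 1 := by
    rw [hz1]
    exact Real.exp_lt_one_iff.2 (by linarith)
  have h1 := Complex.hasSum_re (Complex.hasSum_taylorSeries_neg_log hlt)
  rw [← hasSum_nat_add_iff' 1] at h1
  simp only [Finset.range_one, Finset.sum_singleton, pow_zero, Nat.cast_zero, div_zero,
    Complex.zero_re, sub_zero] at h1
  have hpow : ∀ j : ℕ, (z ^ (j + 1) / ((j + 1 : ℕ) : ℂ)).re =
      Real.exp (-(s * (2 * j + 2))) / (j + 1) * Real.cos ((2 * j + 2) * x) := by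
    intro j
    have e1 : z ^ (j + 1) = Complex.exp (((-(s * (2 * j + 2)) : ℝ) : ℂ) +
        (((2 * j + 2) * x : ℝ) : ℂ) * Complex.I) := by
      rw [hz, ← Complex.exp_nat_mul]
      congr 1
      push_cast
      ring
    rw [e1, Complex.div_natCast_re, Complex.exp_re]
    have e2 : (((-(s * (2 * j + 2)) : ℝ) : ℂ) + (((2 * j + 2) * x : ℝ) : ℂ) * Complex.I).re =
        -(s * (2 * j + 2)) := by simp
    have e3 : (((-(s * (2 * j + 2)) : ℝ) : ℂ) + (((2 * j + 2) * x : ℝ) : ℂ) * Complex.I).im =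
        (2 * j + 2) * x := by simp
    rw [e2, e3]
    push_cast
    ring
  have hval : (-Complex.log (1 - z)).re =
      s - Real.log 2 - 1 / 2 * Real.log (Real.sin x ^ 2 + Real.sinh s ^ 2) := by
    rw [Complex.neg_re, Complex.log_re]
    have hre : z.re = Real.exp (-(2 * s)) * Real.cos (2 * x) := by
      rw [hz, Complex.exp_re]
      simp
    have him : z.im = Real.exp (-(2 * s)) * Real.sin (2 * x) := by
      rw [hz, Complex.exp_im]
      simp
    have hsin : 0 < Real.sin x ^ 2 + Real.sinh s ^ 2 := by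
      have : 0 < Real.sinh s := Real.sinh_pos_iff.2 hs
      positivity
    have hn : ‖1 - z‖ ^ 2 = 4 * Real.exp (-(2 * s)) * (Real.sin x ^ 2 + Real.sinh s ^ 2) := by
      rw [← Complex.normSq_eq_norm_sq, Complex.normSq_apply]
      simp only [Complex.sub_re, Complex.one_re, Complex.sub_im, Complex.one_im, zero_sub]
      rw [hre, him]
      have a1 : Real.cos (2 * x) = 1 - 2 * Real.sin x ^ 2 := by
        rw [Real.cos_two_mul, Real.sin_sq]
        ring
      have a2 := Real.sin_sq_add_cos_sq (2 * x)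
      have a3 : 4 * Real.exp (-(2 * s)) * Real.sinh s ^ 2 = (1 - Real.exp (-(2 * s))) ^ 2 := by
        rw [Real.sinh_eq]
        have b1 : Real.exp (-(2 * s)) = Real.exp (-s) ^ 2 := by
          rw [← Real.exp_nat_mul]
          congr 1
          push_cast
          ring
        have b2 : Real.exp s * Real.exp (-s) = 1 := by
          rw [← Real.exp_add, add_neg_cancel, Real.exp_zero]
        rw [b1]
        have : 4 * Real.exp (-s) ^ 2 * ((Real.exp s - Real.exp (-s)) / 2) ^ 2 =
            (Real.exp s * Real.exp (-s) - Real.exp (-s) ^ 2) ^ 2 := by ring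
        rw [this, b2]
      have a4 : 4 * Real.exp (-(2 * s)) * (Real.sin x ^ 2 + Real.sinh s ^ 2) =
          4 * Real.exp (-(2 * s)) * Real.sin x ^ 2 + (1 - Real.exp (-(2 * s))) ^ 2 := by
        rw [← a3]
        ring
      rw [a4]
      have a5 : Real.sin (2 * x) ^ 2 = 1 - Real.cos (2 * x) ^ 2 := by linarith
      have a6 : (1 - Real.exp (-(2 * s)) * Real.cos (2 * x)) * (1 - Real.exp (-(2 * s)) * Real.cos (2 * x)) +
          -(Real.exp (-(2 * s)) * Real.sin (2 * x)) * -(Real.exp (-(2 * s)) * Real.sin (2 * x)) =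
          1 - 2 * Real.exp (-(2 * s)) * Real.cos (2 * x) + Real.exp (-(2 * s)) ^ 2 * Real.cos (2 * x) ^ 2 +
          Real.exp (-(2 * s)) ^ 2 * Real.sin (2 * x) ^ 2 := by ring
      rw [a6, a5, a1]
      ring
    have hlog : 2 * Real.log ‖1 - z‖ = Real.log 4 + -(2 * s) +
        Real.log (Real.sin x ^ 2 + Real.sinh s ^ 2) := by
      have b1 : 2 * Real.log ‖1 - z‖ = Real.log (‖1 - z‖ ^ 2) := by
        rw [Real.log_pow]
        norm_num
      rw [b1, hn, Real.log_mul (by positivity) hsin.ne', Real.log_mul (by norm_num) (Real.exp_pos _).ne',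
        Real.log_exp]
    have h4 : Real.log 4 = 2 * Real.log 2 := by
      rw [show (4 : ℝ) = 2 ^ 2 by norm_num, Real.log_pow]
      norm_num
    rw [h4] at hlog
    linarith
  rw [hval] at h1
  exact h1.congr_fun fun j => (hpow j).symm

/-- **the wall potential** -/
theorem Cser_wf {L : ℝ} (hL : 0 < L) (x : ℝ) : Cser (wf L) x =
    sw L - Real.log 2 - 1 / 2 * Real.log (Real.sin x ^ 2 + Real.sinh (sw L) ^ 2) := by
  have h1 := log_series (sw_pos hL) x
  have h2 : HasSum (fun k : ℕ => 2 * wf L k * Real.cos (((k : ℝ) + 1) * x))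
      (0 + (sw L - Real.log 2 - 1 / 2 * Real.log (Real.sin x ^ 2 + Real.sinh (sw L) ^ 2))) := by
    refine HasSum.even_add_odd ?_ ?_
    · have : ∀ k : ℕ, 2 * wf L (2 * k) * Real.cos (((2 * k : ℕ) + 1 : ℝ) * x) = 0 := by
        intro k
        unfold wf
        rw [pr_even]
        ring
      simp only [this]
      exact hasSum_zero
    · have : ∀ k : ℕ, 2 * wf L (2 * k + 1) * Real.cos (((2 * k + 1 : ℕ) + 1 : ℝ) * x) =
          Real.exp (-(sw L * (2 * k + 2))) / (k + 1) * Real.cos ((2 * k + 2) * x) := by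
        intro k
        unfold wf
        rw [pr_odd]
        have e1 : ((2 * k + 1 : ℕ) + 1 : ℝ) = 2 * k + 2 := by push_cast; ring
        rw [e1]
        have hk : (0 : ℝ) < (k : ℝ) + 1 := by positivity
        have e2 : (2 * (k : ℝ) + 2) = 2 * (k + 1) := by ring
        rw [e2]
        field_simp
      simp only [this]
      exact h1
  unfold Cser
  rw [h2.tsum_eq, zero_add]

end

end TCW
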