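import Pool.Agent.TC.WallA
import Pool.Agent.NUWC.Data

/-!
# Parseval for the singular wall (helper62)

`wall_pars`: for a continuous density `ρ` on the circle of length `L`,
`∑ p, L (fc L ρ (p+1)).re wz L p = -(1/2) ∫ ρ (log |sin θ| - (1/2) log (sin² θ + sinh² (sw L))) - (sw L / 2) ∫ ρ`.
-/

set_option autoImplicit false

open MeasureTheory Set Filter Topology
open scoped Real Interval

namespace TCW

open Pool.Agent.FSz NUC62 NUWC

noncomputable section

variable {L : ℝ} {ρ : ℝ → ℝ}

/-- coefficients of the wall of width `s` -/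
def ws (s : ℝ) (p : ℕ) : ℝ := pr p * Real.exp (-(s * (p + 1))) / (p + 1)

lemma ws_sw (L : ℝ) (p : ℕ) : ws (sw L) p = wf L p := rfl

lemma ws_hasSum {s : ℝ} (hs : 0 < s) (x : ℝ) :
    HasSum (fun p : ℕ => ws s p * Real.cos (((p : ℝ) + 1) * x))
      (1 / 2 * (s - Real.log 2 - 1 / 2 * Real.log (Real.sin x ^ 2 + Real.sinh s ^ 2))) := by
  have hL' : 0 < π ^ 2 / (4 * s) := by positivity
  have hsw : sw (π ^ 2 / (4 * s)) = s := by
    unfold sw
    have := Real.pi_ne_zero
    field_simp
  have h1 := Cser_wf hL' x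
  have hsum : Summable fun k : ℕ =>
      2 * wf (π ^ 2 / (4 * s)) k * Real.cos (((k : ℝ) + 1) * x) := by
    refine Summable.of_norm_bounded ((wf_summable hL').mul_left 2) fun k => ?_
    rw [Real.norm_eq_abs, abs_mul, abs_mul, abs_two]
    exact mul_le_of_le_one_right (by positivity) (Real.abs_cos_le_one _)
  have h2 := hsum.hasSum
  unfold Cser at h1
  rw [h1, hsw] at h2
  have h3 := h2.mul_left (1 / 2)
  refine h3.congr_fun fun p => ?_
  rw [← ws_sw, hsw]
  ring

lemma ws_abs {s : ℝ} (hs : 0 ≤ s) (p : ℕ) : |ws s p| ≤ 1 / ((p : ℝ) + 1) := by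
  have h1 := pr_nonneg p
  have h1' := pr_le p
  have h2 := Real.exp_pos (-(s * ((p : ℝ) + 1)))
  have h3 : Real.exp (-(s * ((p : ℝ) + 1))) ≤ 1 := Real.exp_le_one_iff.2 (by
    have : 0 ≤ s * ((p : ℝ) + 1) := by positivity
    linarith)
  unfold ws
  rw [abs_of_nonneg (by positivity)]
  gcongr
  nlinarith

lemma ws_geo (s : ℝ) (p : ℕ) : |ws s p| ≤ Real.exp (-(s * (p + 1))) := by
  have h1 := pr_nonneg p
  have h1' := pr_le p
  have h2 := Real.exp_pos (-(s * ((p : ℝ) + 1)))
  unfold ws
  rw [abs_of_nonneg (by positivity), div_le_iff₀ (by positivity)]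
  have h4 : (1 : ℝ) ≤ (p : ℝ) + 1 := by
    have : (0 : ℝ) ≤ p := Nat.cast_nonneg p
    linarith
  nlinarith

/-- cosine moments -/
def am (L : ℝ) (ρ : ℝ → ℝ) (p : ℕ) : ℝ :=
  ∫ x in (-(L / 2))..(L / 2), ρ x * Real.cos (((p : ℝ) + 1) * (2 * π * x / L))

lemma fc_am (hL : 0 < L) (hρ : Continuous ρ) (p : ℕ) : L * (fc L ρ (p + 1)).re = am L ρ p := by
  unfold fc am
  rw [Complex.re_ofReal_mul]
  have hF : Continuous fun x : ℝ => Complex.exp (-(2 * Real.pi * ((p : ℤ) + 1 : ℤ) / L * x : ℝ) *
      Complex.I) * (ρ x : ℂ) := by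
    have := Complex.continuous_ofReal.comp hρ
    simp only [Function.comp_def] at this
    fun_prop
  have h1 := Complex.reCLM.intervalIntegral_comp_comm
    (hF.intervalIntegrable (μ := volume) (-(L / 2)) (L / 2))
  simp only [Complex.reCLM_apply] at h1
  rw [← h1, ← mul_assoc, mul_one_div_cancel hL.ne', one_mul]
  refine intervalIntegral.integral_congr fun x _ => ?_
  rw [Complex.re_mul_ofReal, Complex.exp_re]
  have e1 : (-((2 * Real.pi * ((p : ℤ) + 1 : ℤ) / L * x : ℝ) : ℂ) * Complex.I).re = 0 := by simp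
  have e2 : (-((2 * Real.pi * ((p : ℤ) + 1 : ℤ) / L * x : ℝ) : ℂ) * Complex.I).im =
      -(2 * Real.pi * ((p : ℤ) + 1 : ℤ) / L * x) := by simp
  rw [e1, e2, Real.exp_zero, one_mul, Real.cos_neg, mul_comm]
  congr 2
  push_cast
  ring

lemma am_le (hL : 0 < L) (hρ : Continuous ρ) (p : ℕ) : |am L ρ p| ≤ L * ‖fc L ρ (p + 1)‖ := by
  rw [← fc_am hL hρ, abs_mul, abs_of_pos hL]
  exact mul_le_mul_of_nonneg_left (Complex.abs_re_le_norm _) hL.le

lemma am_summable (hL : 0 < L) (hρ : Continuous ρ) :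
    Summable fun p : ℕ => |am L ρ p| * (1 / ((p : ℝ) + 1)) := by
  have h1 := fc_sq_summable hL (cont_memLp (L := L) hρ)
  have hinj : Function.Injective fun k : ℕ => ((k : ℤ) + 1) := fun a b h => by
    simp only [add_left_inj, Nat.cast_inj] at h
    exact h
  have h2 := (h1.comp_injective hinj).mul_left (L ^ 2)
  have h3 : Summable fun k : ℕ => (1 / ((k : ℝ) + 1)) ^ 2 := by
    have := (summable_nat_add_iff 1).2 (Real.summable_one_div_nat_pow.2 (one_lt_two))
    refine this.congr fun k => ?_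
    push_cast
    rw [div_pow, one_pow]
  refine Summable.of_nonneg_of_le (fun k => by positivity) (fun k => ?_) (h2.add h3)
  have h4 := am_le hL hρ k
  have h5 : (0 : ℝ) ≤ 1 / ((k : ℝ) + 1) := by positivity
  have h6 := mul_le_mul_of_nonneg_right h4 h5
  refine h6.trans ?_
  simp only [Function.comp]
  nlinarith [sq_nonneg (L * ‖fc L ρ (k + 1)‖ - 1 / ((k : ℝ) + 1)),
    sq_nonneg (L * ‖fc L ρ (k + 1)‖), sq_nonneg (1 / ((k : ℝ) + 1))]

lemma rho_bd (ρ : ℝ → ℝ) (hρ : Continuous ρ) (L : ℝ) :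
    ∃ C : ℝ, 0 ≤ C ∧ ∀ x ∈ Icc (-(L / 2)) (L / 2), |ρ x| ≤ C := by
  obtain ⟨C, hC⟩ := (isCompact_Icc : IsCompact (Icc (-(L / 2)) (L / 2))).exists_bound_of_continuousOn
    hρ.continuousOn
  exact ⟨max C 0, le_max_right _ _, fun x hx => (hC x hx).trans (le_max_left _ _)⟩

/-- the mollified wall -/
def lg (L s x : ℝ) : ℝ :=
  s - Real.log 2 - 1 / 2 * Real.log (Real.sin (2 * π * x / L) ^ 2 + Real.sinh s ^ 2)

/-- **Parseval, positive width.** -/
lemma pars_pos (hL : 0 < L) (hρ : Continuous ρ) {s : ℝ} (hs : 0 < s) :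
    HasSum (fun p : ℕ => ws s p * am L ρ p)
      (1 / 2 * ∫ x in (-(L / 2))..(L / 2), ρ x * lg L s x) := by
  obtain ⟨C, hC0, hC⟩ := rho_bd ρ hρ L
  have hle : -(L / 2) ≤ L / 2 := by linarith
  have hgeo : Summable fun p : ℕ => C * Real.exp (-(s * ((p : ℝ) + 1))) := by
    refine Summable.mul_left C ?_
    refine ((summable_geometric_of_lt_one (Real.exp_nonneg (-s))
      (Real.exp_lt_one_iff.2 (by linarith))).mul_left (Real.exp (-s))).congr fun p => ?_
    rw [← Real.exp_nat_mul, ← Real.exp_add]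
    congr 1
    ring
  have h := intervalIntegral.hasSum_integral_of_dominated_convergence (μ := volume)
    (a := -(L / 2)) (b := L / 2)
    (F := fun (p : ℕ) (x : ℝ) => ws s p * (ρ x * Real.cos (((p : ℝ) + 1) * (2 * π * x / L))))
    (f := fun x => 1 / 2 * (ρ x * lg L s x))
    (fun p _ => C * Real.exp (-(s * ((p : ℝ) + 1))))
    (fun p => by
      have : Continuous fun x => ws s p * (ρ x * Real.cos (((p : ℝ) + 1) * (2 * π * x / L))) := by
        fun_prop
      exact this.aestronglyMeasurable)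
    (fun p => by
      refine Eventually.of_forall fun x hx => ?_
      rw [uIoc_of_le hle] at hx
      have h1 := hC x (Ioc_subset_Icc_self hx)
      rw [Real.norm_eq_abs, abs_mul, abs_mul]
      have h2 := ws_geo s p
      have h3 := Real.abs_cos_le_one (((p : ℝ) + 1) * (2 * π * x / L))
      calc |ws s p| * (|ρ x| * |Real.cos (((p : ℝ) + 1) * (2 * π * x / L))|) ≤
          Real.exp (-(s * (p + 1))) * (C * 1) := by gcongr
        _ = _ := by ring)
    (Eventually.of_forall fun x _ => hgeo)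
    intervalIntegrable_const
    (Eventually.of_forall fun x _ => by
      have h1 := (ws_hasSum hs (2 * π * x / L)).mul_left (ρ x)
      have e : ρ x * (1 / 2 * (s - Real.log 2 - 1 / 2 *
          Real.log (Real.sin (2 * π * x / L) ^ 2 + Real.sinh s ^ 2))) =
          1 / 2 * (ρ x * lg L s x) := by
        unfold lg
        ring
      rw [e] at h1
      exact h1.congr_fun fun p => by ring)
  simp only [intervalIntegral.integral_const_mul] at h
  exact h

/-! ### The limit -/

/-- the singular wall -/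
def lg0 (L x : ℝ) : ℝ := -Real.log 2 - Real.log |Real.sin (2 * π * x / L)|

lemma lgs_bd {s : ℝ} (hs : 0 < s) (hs1 : s ≤ 1) {x : ℝ} (hx : Real.sin (2 * π * x / L) ≠ 0) :
    |lg L s x| ≤ 3 + Real.sinh 1 ^ 2 + |Real.log (|Real.sin (2 * π * x / L)|)| := by
  set t := Real.sin (2 * π * x / L) with ht
  have h0 : 0 < |t| := abs_pos.2 hx
  have ht1 : |t| ≤ 1 := Real.abs_sin_le_one _
  have hsq : t ^ 2 = |t| ^ 2 := (sq_abs t).symm
  have hsh : 0 ≤ Real.sinh s := (Real.sinh_pos_iff.2 hs).le
  have hsh1 : Real.sinh s ≤ Real.sinh 1 := Real.sinh_le_sinh.2 hs1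
  have hlow : Real.log (|t| ^ 2) ≤ Real.log (t ^ 2 + Real.sinh s ^ 2) := by
    apply Real.log_le_log (by positivity)
    rw [hsq]
    have := sq_nonneg (Real.sinh s)
    linarith
  have hup : Real.log (t ^ 2 + Real.sinh s ^ 2) ≤ Real.sinh 1 ^ 2 := by
    have h1 : t ^ 2 + Real.sinh s ^ 2 ≤ 1 + Real.sinh 1 ^ 2 := by
      rw [hsq]
      have h2 : |t| ^ 2 ≤ 1 := by nlinarith
      have h3 : Real.sinh s ^ 2 ≤ Real.sinh 1 ^ 2 := by gcongr
      linarith
    have h4 : 0 < t ^ 2 + Real.sinh s ^ 2 := by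
      rw [hsq]
      positivity
    have h5 := Real.log_le_sub_one_of_pos h4
    linarith
  rw [Real.log_pow] at hlow
  push_cast at hlow
  have hneg : Real.log |t| ≤ 0 := Real.log_nonpos h0.le ht1
  have hl2 : 0 ≤ Real.log 2 := Real.log_nonneg (by norm_num)
  have hl2' : Real.log 2 ≤ 1 := by
    have := Real.log_two_lt_d9
    linarith
  unfold lg
  rw [← ht, abs_le, abs_of_nonpos hneg]
  have := sq_nonneg (Real.sinh 1)
  constructor <;> linarith

lemma lg_tend {x : ℝ} (hx : Real.sin (2 * π * x / L) ≠ 0) :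
    Tendsto (fun s => lg L s x) (𝓝[>] 0) (𝓝 (lg0 L x)) := by
  have h1 : ContinuousAt (fun s => lg L s x) 0 := by
    unfold lg
    have hne : Real.sin (2 * π * x / L) ^ 2 + Real.sinh 0 ^ 2 ≠ 0 := by
      rw [Real.sinh_zero]
      simpa using hx
    have hc : ContinuousAt (fun s : ℝ => Real.sin (2 * π * x / L) ^ 2 + Real.sinh s ^ 2) 0 := by
      have := Real.continuous_sinh
      fun_prop
    exact (continuousAt_id.sub continuousAt_const).sub (continuousAt_const.mul (hc.log hne))
  have h2 : lg L 0 x = lg0 L x := by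
    unfold lg lg0
    rw [Real.sinh_zero, ← sq_abs (Real.sin _)]
    simp only [ne_eq, OfNat.ofNat_ne_zero, not_false_eq_true, zero_pow, add_zero, Real.log_pow,
      Real.log_abs, zero_sub]
    push_cast
    ring
  rw [← h2]
  exact h1.tendsto.mono_left nhdsWithin_le_nhds

lemma sin_ne_ae (hL : 0 < L) : ∀ᵐ x : ℝ, x ∈ Ι (-(L / 2)) (L / 2) → Real.sin (2 * π * x / L) ≠ 0 := by
  have hc : (({0, L / 2} : Set ℝ)).Countable := (Set.toFinite _).countable
  have := (hc.measure_zero volume)
  filter_upwards [compl_mem_ae_iff.2 this] with x hx hI h0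
  rw [uIoc_of_le (by linarith)] at hI
  obtain ⟨n, hn⟩ := Real.sin_eq_zero_iff.1 h0
  have hpi := Real.pi_pos
  have e : (n : ℝ) * L = 2 * x := by
    have : (n : ℝ) * π * L = 2 * π * x := by
      rw [hn]
      field_simp
    have h3 : π * ((n : ℝ) * L) = π * (2 * x) := by linarith
    exact mul_left_cancel₀ hpi.ne' h3
  have h1 : -1 < (n : ℝ) := by
    by_contra hcon
    push Not at hcon
    have : (n : ℝ) * L ≤ -1 * L := by gcongr
    linarith [hI.1]
  have h2 : (n : ℝ) ≤ 1 := by
    by_contra hcon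
    push Not at hcon
    have : 1 * L < (n : ℝ) * L := by gcongr
    linarith [hI.2]
  have h1' : -1 < n := by exact_mod_cast h1
  have h2' : n ≤ 1 := by exact_mod_cast h2
  apply hx
  have : n = 0 ∨ n = 1 := by omega
  rcases this with h | h
  · left
    rw [h] at e
    push_cast at e
    linarith
  · right
    rw [h] at e
    push_cast at e
    show x = L / 2
    linarith

lemma logsin_int (hL : 0 < L) (a b : ℝ) :
    IntervalIntegrable (fun x => Real.log |Real.sin (2 * π * x / L)|) volume a b := by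
  have h := (intervalIntegrable_log_sin (a := (2 * π / L) * a) (b := (2 * π / L) * b)).comp_mul_left
    (c := 2 * π / L)
  have hne : 2 * π / L ≠ 0 := by
    have := Real.pi_pos
    positivity
  rw [mul_div_cancel_left₀ _ hne, mul_div_cancel_left₀ _ hne] at h
  refine h.congr_ae ?_
  refine Eventually.of_forall fun x => ?_
  simp only [Function.comp, Real.log_abs]
  congr 2
  ring

lemma pars_zero (hL : 0 < L) (hρ : Continuous ρ) :
    ∑' p : ℕ, pr p / (p + 1) * am L ρ p = 1 / 2 * ∫ x in (-(L / 2))..(L / 2), ρ x * lg0 L x := by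
  obtain ⟨C, hC0, hC⟩ := rho_bd ρ hρ L
  have hle : -(L / 2) ≤ L / 2 := by linarith
  have hle2 : ∀ᶠ s in 𝓝[>] (0 : ℝ), 0 < s ∧ s ≤ 1 :=
    (eventually_mem_nhdsWithin).and (mem_nhdsWithin_of_mem_nhds (Iic_mem_nhds one_pos))
  have t1 : Tendsto (fun s => ∑' p : ℕ, ws s p * am L ρ p) (𝓝[>] 0)
      (𝓝 (∑' p : ℕ, pr p / (p + 1) * am L ρ p)) := by
    refine tendsto_tsum_of_dominated_convergence (am_summable hL hρ) (fun p => ?_) ?_
    · have hc : Continuous fun s : ℝ => ws s p * am L ρ p := by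
        unfold ws
        fun_prop
      have h0 : ws 0 p * am L ρ p = pr p / (p + 1) * am L ρ p := by
        unfold ws
        simp
      rw [← h0]
      exact (hc.tendsto 0).mono_left nhdsWithin_le_nhds
    · filter_upwards [hle2] with s hs p
      rw [Real.norm_eq_abs, abs_mul, mul_comm]
      exact mul_le_mul_of_nonneg_left (ws_abs hs.1.le p) (abs_nonneg _)
  have t2 : Tendsto (fun s => 1 / 2 * ∫ x in (-(L / 2))..(L / 2), ρ x * lg L s x) (𝓝[>] 0)
      (𝓝 (1 / 2 * ∫ x in (-(L / 2))..(L / 2), ρ x * lg0 L x)) := by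
    refine Tendsto.const_mul _ ?_
    refine intervalIntegral.tendsto_integral_filter_of_dominated_convergence
      (fun x => C * (3 + Real.sinh 1 ^ 2 + |Real.log (|Real.sin (2 * π * x / L)|)|)) ?_ ?_ ?_ ?_
    · refine Eventually.of_forall fun s => ?_
      have : Measurable fun x => ρ x * lg L s x := by
        unfold lg
        have := hρ.measurable
        fun_prop
      exact this.aestronglyMeasurable
    · filter_upwards [hle2] with s hs
      filter_upwards [sin_ne_ae hL] with x hx hI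
      have h1 := lgs_bd hs.1 hs.2 (hx hI)
      rw [uIoc_of_le hle] at hI
      rw [Real.norm_eq_abs, abs_mul]
      have := hC x (Ioc_subset_Icc_self hI)
      gcongr
    · exact ((intervalIntegrable_const).add (logsin_int hL _ _).abs).const_mul C
    · filter_upwards [sin_ne_ae hL] with x hx hI
      exact (lg_tend (hx hI)).const_mul _
  have t3 : Tendsto (fun s => ∑' p : ℕ, ws s p * am L ρ p) (𝓝[>] 0)
      (𝓝 (1 / 2 * ∫ x in (-(L / 2))..(L / 2), ρ x * lg0 L x)) := by
    refine t2.congr' ?_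
    filter_upwards [hle2] with s hs
    exact ((pars_pos hL hρ hs.1).tsum_eq).symm
  exact tendsto_nhds_unique t1 t3

lemma pr_am_summable (hL : 0 < L) (hρ : Continuous ρ) :
    Summable fun p : ℕ => pr p / ((p : ℝ) + 1) * am L ρ p := by
  refine Summable.of_norm_bounded (am_summable hL hρ) fun p => ?_
  have h1 := pr_nonneg p
  have h1' := pr_le p
  rw [Real.norm_eq_abs, abs_mul, mul_comm, abs_of_nonneg (by positivity : 0 ≤ pr p / ((p : ℝ) + 1))]
  gcongr

/-- **Parseval for the singular wall.** -/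
theorem wall_pars (hL : 0 < L) (hρ : Continuous ρ) :
    HasSum (fun p : ℕ => L * (fc L ρ (p + 1)).re * wz L p)
      (-(1 / 2) * (∫ x in (-(L / 2))..(L / 2), ρ x * (Real.log |Real.sin (2 * π * x / L)| -
        1 / 2 * Real.log (Real.sin (2 * π * x / L) ^ 2 + Real.sinh (sw L) ^ 2))) -
        sw L / 2 * ∫ x in (-(L / 2))..(L / 2), ρ x) := by
  have hs := sw_pos hL
  have h1 := (pr_am_summable hL hρ).hasSum
  rw [pars_zero hL hρ] at h1
  have h2 := pars_pos hL hρ hs
  have h3 := h1.sub h2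
  have i0 : IntervalIntegrable (fun x => ρ x * lg0 L x) volume (-(L / 2)) (L / 2) := by
    refine IntervalIntegrable.continuousOn_mul ?_ hρ.continuousOn
    exact intervalIntegrable_const.sub (logsin_int hL _ _)
  have ilg : Continuous fun x => Real.log (Real.sin (2 * π * x / L) ^ 2 + Real.sinh (sw L) ^ 2) := by
    refine Continuous.log (by fun_prop) fun x => ?_
    have := Real.sinh_pos_iff.2 hs
    positivity
  have i1 : IntervalIntegrable (fun x => ρ x * lg L (sw L) x) volume (-(L / 2)) (L / 2) := by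
    refine Continuous.intervalIntegrable ?_ _ _
    unfold lg
    fun_prop
  have i2 : IntervalIntegrable ρ volume (-(L / 2)) (L / 2) := hρ.intervalIntegrable _ _
  have i3 : IntervalIntegrable (fun x => ρ x * (Real.log |Real.sin (2 * π * x / L)| -
        1 / 2 * Real.log (Real.sin (2 * π * x / L) ^ 2 + Real.sinh (sw L) ^ 2))) volume
        (-(L / 2)) (L / 2) := by
    refine IntervalIntegrable.continuousOn_mul ?_ hρ.continuousOn
    exact (logsin_int hL _ _).sub ((ilg.intervalIntegrable _ _).const_mul _)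
  have e1 : (1 / 2 * ∫ x in (-(L / 2))..(L / 2), ρ x * lg0 L x) -
      1 / 2 * ∫ x in (-(L / 2))..(L / 2), ρ x * lg L (sw L) x =
      -(1 / 2) * (∫ x in (-(L / 2))..(L / 2), ρ x * (Real.log |Real.sin (2 * π * x / L)| -
        1 / 2 * Real.log (Real.sin (2 * π * x / L) ^ 2 + Real.sinh (sw L) ^ 2))) -
        sw L / 2 * ∫ x in (-(L / 2))..(L / 2), ρ x := by
    rw [← mul_sub, ← intervalIntegral.integral_sub i0 i1, ← intervalIntegral.integral_const_mul,
      ← intervalIntegral.integral_const_mul, ← intervalIntegral.integral_const_mul,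
      ← intervalIntegral.integral_sub (i3.const_mul _) (i2.const_mul _)]
    refine intervalIntegral.integral_congr fun x _ => ?_
    simp only [lg, lg0]
    ring
  rw [e1] at h3
  refine h3.congr_fun fun p => ?_
  rw [fc_am hL hρ, ws_sw]
  have h4 := wf_sub L p
  linear_combination (am L ρ p) * h4

end

end TCW
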